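import Mathlib

/-!
# Binary quartics, monic cubics, and substitutions
-/

set_option autoImplicit false

namespace Pool.Agent.H456.BQ

/-- binary quartic forms `A u⁴ + B u³v + C u²v² + D uv³ + E v⁴` -/
@[ext] structure Q4 (R : Type*) where
  A : R
  B : R
  C : R
  D : R
  E : R

/-- monic cubic polynomials `x³ + a x² + b x + c` -/
@[ext] structure Cub (R : Type*) where
  a : R
  b : R
  c : R

/-- the matrices `(α β; γ δ)` -/
@[ext] structure M2 (R : Type*) where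
  α : R
  β : R
  γ : R
  δ : R

section ring

variable {R : Type*} [CommRing R]

/-- the value -/
def Q4.ev (g : Q4 R) (u v : R) : R :=
  g.A * u ^ 4 + g.B * u ^ 3 * v + g.C * u ^ 2 * v ^ 2 + g.D * u * v ^ 3 + g.E * v ^ 4

/-- the scalar multiple -/
def Q4.smul (k : R) (g : Q4 R) : Q4 R := ⟨k * g.A, k * g.B, k * g.C, k * g.D, k * g.E⟩

/-- the determinant -/
def M2.det (M : M2 R) : R := M.α * M.δ - M.β * M.γ

/-- the product -/
def M2.mul (M N : M2 R) : M2 R :=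
  ⟨M.α * N.α + M.β * N.γ, M.α * N.β + M.β * N.δ, M.γ * N.α + M.δ * N.γ, M.γ * N.β + M.δ * N.δ⟩

/-- the substitution `u ↦ αu + βv`, `v ↦ γu + δv` -/
def Q4.sub (g : Q4 R) (M : M2 R) : Q4 R :=
  ⟨g.A * M.α ^ 4 + g.B * (M.α ^ 3 * M.γ) + g.C * (M.α ^ 2 * M.γ ^ 2) + g.D * (M.α * M.γ ^ 3) + g.E * M.γ ^ 4,
   4 * g.A * (M.α ^ 3 * M.β) + g.B * (M.α ^ 3 * M.δ + 3 * M.α ^ 2 * M.β * M.γ)
    + g.C * (2 * M.α ^ 2 * M.γ * M.δ + 2 * M.α * M.β * M.γ ^ 2)
    + g.D * (3 * M.α * M.γ ^ 2 * M.δ + M.β * M.γ ^ 3) + 4 * g.E * (M.γ ^ 3 * M.δ),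
   6 * g.A * (M.α ^ 2 * M.β ^ 2) + g.B * (3 * M.α ^ 2 * M.β * M.δ + 3 * M.α * M.β ^ 2 * M.γ)
    + g.C * (M.α ^ 2 * M.δ ^ 2 + 4 * M.α * M.β * M.γ * M.δ + M.β ^ 2 * M.γ ^ 2)
    + g.D * (3 * M.α * M.γ * M.δ ^ 2 + 3 * M.β * M.γ ^ 2 * M.δ) + 6 * g.E * (M.γ ^ 2 * M.δ ^ 2),
   4 * g.A * (M.α * M.β ^ 3) + g.B * (3 * M.α * M.β ^ 2 * M.δ + M.β ^ 3 * M.γ)
    + g.C * (2 * M.α * M.β * M.δ ^ 2 + 2 * M.β ^ 2 * M.γ * M.δ)
    + g.D * (M.α * M.δ ^ 3 + 3 * M.β * M.γ * M.δ ^ 2) + 4 * g.E * (M.γ * M.δ ^ 3),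
   g.A * M.β ^ 4 + g.B * (M.β ^ 3 * M.δ) + g.C * (M.β ^ 2 * M.δ ^ 2) + g.D * (M.β * M.δ ^ 3) + g.E * M.δ ^ 4⟩

theorem Q4.ev_sub (g : Q4 R) (M : M2 R) (u v : R) :
    (g.sub M).ev u v = g.ev (M.α * u + M.β * v) (M.γ * u + M.δ * v) := by
  simp only [Q4.ev, Q4.sub]
  ring

theorem Q4.ev_smul (g : Q4 R) (k u v : R) : (g.smul k).ev u v = k * g.ev u v := by
  simp only [Q4.ev, Q4.smul]
  ring

theorem Q4.sub_mul (g : Q4 R) (M N : M2 R) : (g.sub M).sub N = g.sub (M.mul N) := by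
  ext <;> simp only [Q4.sub, M2.mul] <;> ring

theorem Q4.smul_sub (g : Q4 R) (k : R) (M : M2 R) : (g.smul k).sub M = (g.sub M).smul k := by
  ext <;> simp only [Q4.sub, Q4.smul] <;> ring

theorem Q4.smul_smul (g : Q4 R) (k l : R) : (g.smul k).smul l = g.smul (k * l) := by
  ext <;> simp only [Q4.smul] <;> ring

theorem Q4.smul_one (g : Q4 R) : g.smul 1 = g := by
  ext <;> simp only [Q4.smul] <;> ring

theorem M2.det_mul (M N : M2 R) : (M.mul N).det = M.det * N.det := by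
  simp only [M2.det, M2.mul]
  ring

theorem Q4.sub_one (g : Q4 R) : g.sub ⟨1, 0, 0, 1⟩ = g := by
  ext <;> simp only [Q4.sub] <;> ring

/-- substitution by a scalar matrix -/
theorem Q4.sub_scalar (g : Q4 R) (k : R) : g.sub ⟨k, 0, 0, k⟩ = g.smul (k ^ 4) := by
  ext <;> simp only [Q4.sub, Q4.smul] <;> ring

/-- the adjugate matrix -/
def M2.adj (M : M2 R) : M2 R := ⟨M.δ, -M.β, -M.γ, M.α⟩

theorem M2.det_adj (M : M2 R) : M.adj.det = M.det := by
  simp only [M2.det, M2.adj]; ring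

theorem M2.mul_adj (M : M2 R) : M.mul M.adj = ⟨M.det, 0, 0, M.det⟩ := by
  ext <;> simp only [M2.mul, M2.adj, M2.det] <;> ring

theorem M2.adj_mul (M : M2 R) : M.adj.mul M = ⟨M.det, 0, 0, M.det⟩ := by
  ext <;> simp only [M2.mul, M2.adj, M2.det] <;> ring

theorem M2.mul_assoc (L M N : M2 R) : (L.mul M).mul N = L.mul (M.mul N) := by
  ext <;> simp only [M2.mul] <;> ring

/-- `f (x + r)` -/
def Cub.tr (r : R) (f : Cub R) : Cub R :=
  ⟨f.a + 3 * r, f.b + 2 * f.a * r + 3 * r ^ 2, f.c + f.b * r + f.a * r ^ 2 + r ^ 3⟩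

/-- the polynomial whose roots are `k` times the roots of `f` -/
def Cub.sc (k : R) (f : Cub R) : Cub R := ⟨k * f.a, k ^ 2 * f.b, k ^ 3 * f.c⟩

/-- the value -/
def Cub.ev (f : Cub R) (x : R) : R := x ^ 3 + f.a * x ^ 2 + f.b * x + f.c

/-- the value of the derivative -/
def Cub.dev (f : Cub R) (x : R) : R := 3 * x ^ 2 + 2 * f.a * x + f.b

/-- the discriminant -/
def Cub.disc (f : Cub R) : R :=
  f.a ^ 2 * f.b ^ 2 - 4 * f.b ^ 3 - 4 * f.a ^ 3 * f.c - 27 * f.c ^ 2 + 18 * f.a * f.b * f.c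

theorem Cub.ev_tr (r x : R) (f : Cub R) : (f.tr r).ev x = f.ev (x + r) := by
  simp only [Cub.ev, Cub.tr]; ring

theorem Cub.dev_tr (r x : R) (f : Cub R) : (f.tr r).dev x = f.dev (x + r) := by
  simp only [Cub.dev, Cub.tr]; ring

theorem Cub.tr_tr (r s : R) (f : Cub R) : (f.tr r).tr s = f.tr (r + s) := by
  ext <;> simp only [Cub.tr] <;> ring

theorem Cub.tr_zero (f : Cub R) : f.tr 0 = f := by
  ext <;> simp only [Cub.tr] <;> ring

theorem Cub.sc_tr (k r : R) (f : Cub R) : (f.tr r).sc k = (f.sc k).tr (k * r) := by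
  ext <;> simp only [Cub.tr, Cub.sc] <;> ring

theorem Cub.sc_sc (k l : R) (f : Cub R) : (f.sc k).sc l = f.sc (k * l) := by
  ext <;> simp only [Cub.sc] <;> ring

theorem Cub.sc_one (f : Cub R) : f.sc 1 = f := by
  ext <;> simp only [Cub.sc] <;> ring

theorem Cub.disc_tr (r : R) (f : Cub R) : (f.tr r).disc = f.disc := by
  simp only [Cub.disc, Cub.tr]; ring

theorem Cub.disc_sc (k : R) (f : Cub R) : (f.sc k).disc = k ^ 6 * f.disc := by
  simp only [Cub.disc, Cub.sc]; ring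

/-- the cubic resolvent -/
def Q4.res (g : Q4 R) : Cub R :=
  ⟨g.C, g.B * g.D - 4 * g.A * g.E, g.A * g.D ^ 2 + g.B ^ 2 * g.E - 4 * g.A * g.C * g.E⟩

/-- the translation of the resolvent under a substitution -/
def Q4.tau (g : Q4 R) (M : M2 R) : R :=
  2 * (M.α ^ 2 * M.β ^ 2) * g.A + M.α * M.β * (M.α * M.δ + M.β * M.γ) * g.B
    + 2 * (M.α * M.β * M.γ * M.δ) * g.C + M.γ * M.δ * (M.α * M.δ + M.β * M.γ) * g.D
    + 2 * (M.γ ^ 2 * M.δ ^ 2) * g.E

theorem Q4.res_sub (g : Q4 R) (M : M2 R) : (g.sub M).res = (g.res.sc (M.det ^ 2)).tr (g.tau M) := by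
  ext <;> simp only [Q4.res, Q4.sub, Cub.tr, Cub.sc, Q4.tau, M2.det] <;> ring

theorem Q4.res_smul (g : Q4 R) (k : R) : (g.smul k).res = g.res.sc k := by
  ext <;> simp only [Q4.res, Q4.smul, Cub.sc] <;> ring

/-- the quartic attached to the point `(x₀, y₀)` of `y² = f(x)` -/
def gp (f : Cub R) (x₀ y₀ : R) : Q4 R :=
  ⟨1, 0, -(6 * x₀ + 2 * f.a), -(8 * y₀), f.a ^ 2 - 2 * f.a * x₀ - 3 * x₀ ^ 2 - 4 * f.b⟩

theorem res_gp (f : Cub R) (x₀ y₀ : R) (h : y₀ ^ 2 = f.ev x₀) :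
    (gp f x₀ y₀).res = (f.sc 4).tr (-(2 * x₀ + 2 * f.a)) := by
  simp only [Cub.ev] at h
  ext
  · simp only [Q4.res, gp, Cub.tr, Cub.sc]; ring
  · simp only [Q4.res, gp, Cub.tr, Cub.sc]; ring
  · simp only [Q4.res, gp, Cub.tr, Cub.sc]
    linear_combination 64 * h

end ring

/-- the product of a matrix and a scalar -/
def M2.scal {R : Type*} [CommRing R] (k : R) (M : M2 R) : M2 R := ⟨k * M.α, k * M.β, k * M.γ, k * M.δ⟩

theorem M2.det_scal {R : Type*} [CommRing R] (k : R) (M : M2 R) : (M.scal k).det = k ^ 2 * M.det := by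
  simp only [M2.det, M2.scal]; ring

theorem Q4.sub_scal {R : Type*} [CommRing R] (g : Q4 R) (k : R) (M : M2 R) :
    g.sub (M.scal k) = (g.sub M).smul (k ^ 4) := by
  ext <;> simp only [Q4.sub, M2.scal, Q4.smul] <;> ring

theorem M2.mul_scal {R : Type*} [CommRing R] (k : R) (M N : M2 R) : M.mul (N.scal k) = (M.mul N).scal k := by
  ext <;> simp only [M2.mul, M2.scal] <;> ring

theorem M2.scal_mul {R : Type*} [CommRing R] (k : R) (M N : M2 R) : (M.scal k).mul N = (M.mul N).scal k := by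
  ext <;> simp only [M2.mul, M2.scal] <;> ring

theorem M2.scal_scal {R : Type*} [CommRing R] (k l : R) (M : M2 R) : (M.scal k).scal l = M.scal (k * l) := by
  ext <;> simp only [M2.scal] <;> ring

theorem Q4.smul_cancel {R : Type*} [CommRing R] [IsDomain R] {g g' : Q4 R} {k : R} (hk : k ≠ 0)
    (h : g.smul k = g'.smul k) : g = g' := by
  have hA := congrArg Q4.A h
  have hB := congrArg Q4.B h
  have hC := congrArg Q4.C h
  have hD := congrArg Q4.D h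
  have hE := congrArg Q4.E h
  simp only [Q4.smul] at hA hB hC hD hE
  ext
  · exact mul_left_cancel₀ hk hA
  · exact mul_left_cancel₀ hk hB
  · exact mul_left_cancel₀ hk hC
  · exact mul_left_cancel₀ hk hD
  · exact mul_left_cancel₀ hk hE


end Pool.Agent.H456.BQ
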