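import Pool.Agent.H456.BQ.Stm2

/-!
(G4) `S_adj`. `LocP P` (see Stm2.lean) is the local ring of `F[X]` at `P` inside `K = F(t) = RatFunc F`.
By scaling, `N' = c N W` with a matrix `W` over `F[X]`. By Bezout `W = W₁ U` with `U ∈ SL₂(F[X])` and `W₁ = (α, β; 0, δ)`.
Write `α = P^a A`, `δ = P^b B` with `A`, `B` prime to `P`, and `β = P^a x + y B`. Then `W₁ = W'' V'` with
`W'' = (P^a, y; 0, P^b)`, `V' = (A, x; 0, B)`. Take `N'' = N W''`.
-/

set_option autoImplicit false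
set_option linter.all false

open Polynomial Finset
open Pool.Agent.H456.EC (toK toK_inj sig toK_eq reflect_toK)

namespace Pool.Agent.H456.BQ

/-- factorization of a matrix with polynomial entries -/
theorem adj_fac {F : Type} [Field F] (P : F[X]) (hP : Irreducible P) (W : M2 F[X]) (hW : W.det ≠ 0) :
    ∃ (W'' V : M2 F[X]) (k : ℕ), W = W''.mul V ∧ W''.det = P ^ k ∧ ¬ P ∣ V.det := by
  classical
  obtain ⟨α, β, γ, δ⟩ := W
  simp only [M2.det] at hW
  have h0 : ¬ (γ = 0 ∧ δ = 0) := by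
    rintro ⟨h1, h2⟩
    apply hW
    rw [h1, h2]; ring
  -- the lower row
  obtain ⟨g, γ', δ', u, v, e1, e2, e3⟩ : ∃ g γ' δ' u v : F[X], γ = g * γ' ∧ δ = g * δ' ∧
      u * γ' + v * δ' = 1 := by
    have hg := EuclideanDomain.gcd_eq_gcd_ab γ δ
    obtain ⟨γ', hγ⟩ := EuclideanDomain.gcd_dvd_left γ δ
    obtain ⟨δ', hδ⟩ := EuclideanDomain.gcd_dvd_right γ δ
    have hg0 : EuclideanDomain.gcd γ δ ≠ 0 := by
      intro h
      exact h0 (EuclideanDomain.gcd_eq_zero_iff.1 h)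
    refine ⟨EuclideanDomain.gcd γ δ, γ', δ', EuclideanDomain.gcdA γ δ, EuclideanDomain.gcdB γ δ, hγ, hδ, ?_⟩
    apply mul_left_cancel₀ hg0
    calc EuclideanDomain.gcd γ δ * (EuclideanDomain.gcdA γ δ * γ' + EuclideanDomain.gcdB γ δ * δ')
        = (EuclideanDomain.gcd γ δ * γ') * EuclideanDomain.gcdA γ δ +
          (EuclideanDomain.gcd γ δ * δ') * EuclideanDomain.gcdB γ δ := by ring
      _ = γ * EuclideanDomain.gcdA γ δ + δ * EuclideanDomain.gcdB γ δ := by rw [← hγ, ← hδ]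
      _ = EuclideanDomain.gcd γ δ * 1 := by rw [← hg, mul_one]
  have hdet : α * δ - β * γ = (α * δ' - β * γ') * g := by rw [e1, e2]; ring
  rw [hdet] at hW
  have hα : α * δ' - β * γ' ≠ 0 := left_ne_zero_of_mul hW
  have hg : g ≠ 0 := right_ne_zero_of_mul hW
  obtain ⟨a, A, hA, hA2⟩ := WfDvdMonoid.max_power_factor hα hP
  obtain ⟨b, B, hB, hB2⟩ := WfDvdMonoid.max_power_factor hg hP
  have hcop : IsCoprime (P ^ a) B := by
    apply IsCoprime.pow_left
    exact (hP.coprime_iff_not_dvd).2 hB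
  obtain ⟨x, y, hxy⟩ := hcop
  refine ⟨⟨P ^ a, y * (α * u + β * v), 0, P ^ b⟩,
    (⟨A, x * (α * u + β * v), 0, B⟩ : M2 F[X]).mul ⟨v, -u, γ', δ'⟩, a + b, ?_, ?_, ?_⟩
  · apply M2.ext
    · simp only [M2.mul]
      linear_combination (-(α)) * e3 + v * hA2 - γ' * (α * u + β * v) * hxy
    · simp only [M2.mul]
      linear_combination (-(β)) * e3 - u * hA2 - δ' * (α * u + β * v) * hxy
    · simp only [M2.mul]
      linear_combination e1 + γ' * hB2
    · simp only [M2.mul]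
      linear_combination e2 + δ' * hB2
  · simp only [M2.det]
    ring
  · have e4 : ((⟨A, x * (α * u + β * v), 0, B⟩ : M2 F[X]).mul ⟨v, -u, γ', δ'⟩).det = A * B := by
      rw [M2.det_mul]
      simp only [M2.det]
      linear_combination (A * B) * e3
    rw [e4]
    intro h
    rcases hP.prime.dvd_or_dvd h with h1 | h1
    · exact hA h1
    · exact hB h1

/-- polynomials are in the local ring -/
noncomputable def adj_ι {F : Type} [Field F] (P : Pl F) : F[X] →+* LocP P :=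
  (toK F).codRestrict (LocP P) (fun x => ⟨x, 1, fun h => P.2.2.not_isUnit (isUnit_of_dvd_one h), by
    rw [map_one, one_mul]⟩)

theorem adj_ι_val {F : Type} [Field F] (P : Pl F) (x : F[X]) :
    algebraMap (LocP P) (RatFunc F) (adj_ι P x) = toK F x := rfl

theorem adj_unit {F : Type} [Field F] (P : Pl F) (x : F[X]) (hx : ¬ P.1 ∣ x) : IsUnit (adj_ι P x) := by
  have hx0 : x ≠ 0 := by
    rintro rfl
    exact hx (dvd_zero _)
  have h1 : toK F x ≠ 0 := (map_ne_zero_iff _ toK_inj).2 hx0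
  have h2 : (toK F x)⁻¹ ∈ LocP P := ⟨1, x, hx, by rw [mul_inv_cancel₀ h1, map_one]⟩
  refine IsUnit.of_mul_eq_one (⟨(toK F x)⁻¹, h2⟩ : LocP P) ?_
  apply Subtype.ext
  exact mul_inv_cancel₀ h1

theorem adj_map {F : Type} [Field F] (P : Pl F) (V : M2 F[X]) :
    (V.map (adj_ι P)).map (algebraMap (LocP P) (RatFunc F)) = V.map (toK F) := rfl

/-- a common denominator -/
theorem adj_den {F : Type} [Field F] (M : M2 (RatFunc F)) : ∃ (q : F[X]) (W : M2 F[X]), q ≠ 0 ∧
    W.map (toK F) = M.scal (toK F q) := by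
  have hfr : ∀ x : RatFunc F, ∃ p q : F[X], q ≠ 0 ∧ toK F q * x = toK F p := by
    intro x
    refine ⟨x.num, x.denom, x.denom_ne_zero, ?_⟩
    have h1 := RatFunc.num_div_denom x
    have h2 : toK F x.denom ≠ 0 := (map_ne_zero_iff _ toK_inj).2 x.denom_ne_zero
    have h3 : toK F x.num / toK F x.denom = x := h1
    nth_rewrite 2 [← h3]
    exact mul_div_cancel₀ _ h2
  obtain ⟨p1, q1, h1, e1⟩ := hfr M.α
  obtain ⟨p2, q2, h2, e2⟩ := hfr M.β
  obtain ⟨p3, q3, h3, e3⟩ := hfr M.γ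
  obtain ⟨p4, q4, h4, e4⟩ := hfr M.δ
  refine ⟨q1 * q2 * q3 * q4, ⟨p1 * q2 * q3 * q4, q1 * p2 * q3 * q4, q1 * q2 * p3 * q4,
    q1 * q2 * q3 * p4⟩, ?_, ?_⟩
  · exact mul_ne_zero (mul_ne_zero (mul_ne_zero h1 h2) h3) h4
  · ext
    · simp only [M2.map, M2.scal, map_mul, ← e1]; ring
    · simp only [M2.map, M2.scal, map_mul, ← e2]; ring
    · simp only [M2.map, M2.scal, map_mul, ← e3]; ring
    · simp only [M2.map, M2.scal, map_mul, ← e4]; ring

theorem t_adj : S_adj := by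
  intro F _ P N N' hN hN'
  obtain ⟨q, W, hq, hW⟩ := adj_den (N.adj.mul N')
  have hq' : toK F q ≠ 0 := (map_ne_zero_iff _ toK_inj).2 hq
  have e1 : N.mul (W.map (toK F)) = N'.scal (N.det * toK F q) := by
    rw [hW, M2.mul_scal, ← M2.mul_assoc, M2.mul_adj]
    ext <;> simp only [M2.scal, M2.mul] <;> ring
  have hWd : W.det ≠ 0 := by
    intro h
    have h1 := congrArg M2.det e1
    rw [M2.det_mul, M2.map_det, h, map_zero, mul_zero, M2.det_scal] at h1
    exact mul_ne_zero (pow_ne_zero _ (mul_ne_zero hN hq')) hN' h1.symm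
  obtain ⟨W'', V, k, f1, f2, f3⟩ := adj_fac P.1 P.2.2 W hWd
  have hd'' : toK F W''.det ≠ 0 := by
    rw [f2]
    exact (map_ne_zero_iff _ toK_inj).2 (pow_ne_zero _ P.2.2.ne_zero)
  refine ⟨N.mul (W''.map (toK F)), ?_, ?_, ?_⟩
  · rw [M2.det_mul, M2.map_det]
    exact mul_ne_zero hN hd''
  · refine ⟨(N.det * toK F q)⁻¹, V.map (adj_ι P), inv_ne_zero (mul_ne_zero hN hq'), ?_, ?_⟩
    · rw [M2.map_det]
      exact adj_unit P _ f3
    · rw [adj_map, M2.mul_assoc, ← M2.map_mul, ← f1, e1, M2.scal_scal]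
      have h1 : N.det * toK F q * (N.det * toK F q)⁻¹ = 1 :=
        mul_inv_cancel₀ (mul_ne_zero hN hq')
      have h2 : (N.det * toK F q)⁻¹ * (N.det * toK F q) = 1 :=
        inv_mul_cancel₀ (mul_ne_zero hN hq')
      rw [h1]
      ext <;> simp only [M2.scal] <;> rw [one_mul]
  · intro Q hQ
    refine ⟨1, W''.map (adj_ι Q), one_ne_zero, ?_, ?_⟩
    · rw [M2.map_det, f2]
      refine adj_unit Q _ ?_
      intro h
      have h1 : Q.1 ∣ P.1 := Q.2.2.prime.dvd_of_dvd_pow h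
      apply hQ
      apply Subtype.ext
      exact eq_of_monic_of_associated Q.2.1 P.2.1 (Q.2.2.associated_of_dvd P.2.2 h1)
    · rw [adj_map]
      ext <;> simp only [M2.scal] <;> ring

end Pool.Agent.H456.BQ
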