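import Pool.Agent.H456.BQ.Stm

/-!
(S9) `S_can`. Two steps. (A) Canonical lattice of a point over the DVR `O` (adapt `lowest` and `canon` of Lat.lean, which
do this for `F[X]`; `canon_arith` is already stated for any domain): for `y² = f(x)`, `x, y ∈ L`, there are
`s ≠ 0`, `n`, `G : Q4 O` with `IsCoprime s n`, `G.A = s²`, `G.B = -(4n)` and
`(gp f x y).sub ⟨s, -(n/s), 0, 1⟩ = (G.map _).smul (s²)`. Lowest terms in a DVR: if `x ∈ O` then `y ∈ O` (integrally
closed), take `s = 1`; else `x = u π^(-m)`, `m > 0`, `u` unit, and `y² = f(x)` has valuation `-3m`, so `m = 2j`, `s = π^j`,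
`x = r/s²`, `y = w/s³`, `r` a unit.
For the second part (the point at infinity of the quartic): apply (A) to `(x₀, y₀)`, `N = ⟨s, -(n/s), 0, 1⟩`, `k = s`.
(B) For `(h, z)` with `z ≠ 0`, `z² = gp(h,1)`, put `δ = (h³ - (3x₀+a) h - 2y₀)/z`, `N_Q = ⟨h, hδ - z, 1, δ⟩` (`det = z`),
`x₁ = x₀ - h² + δ²`; there is `y₁` (read it off from the coefficient `D`: `y₁ = -D/8`) with `y₁² = f(x₁)` and
`(gp f x₀ y₀).sub N_Q = (gp f x₁ y₁).smul (z²)` : check that the coefficients are `z²`, `0`, `z² * (-(6x₁+2a))`, and use the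
resolvent (`Q4.res_sub`, `res_gp`) for the fourth and `y₁² = f(x₁)`: if a quartic `⟨1,0,C,D,E⟩` has resolvent
`(f.sc 4).tr ρ` with `ρ = -(2x₁+2a)` then `C = -(6x₁+2a)`, `E = a² - 2ax₁ - 3x₁² - 4b`, and `D² = 64 f(x₁)`.
(The same computation is implicit in `rel_entries` / `rel_inj` of Grp.lean.) Then apply (A) to `(x₁, y₁)` and take
`N = N_Q.mul ⟨s, -(n/s), 0, 1⟩`, `k = s`: first column `(s h, s)`, `det N = z s`, `s det N = s² z = k² z`.
-/

set_option autoImplicit false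
set_option linter.all false

open Polynomial Finset

namespace Pool.Agent.H456.BQ

/-- every element of the fraction field is `p / π^i` with `i = 0` or `p` a unit -/
theorem can_frac {O L : Type} [CommRing O] [IsDomain O] [Field L] [Algebra O L] [IsFractionRing O L] {π : O}
    (hpow : ∀ x : O, x ≠ 0 → ∃ (k : ℕ) (u : O), IsUnit u ∧ x = u * π ^ k) (hπ : π ≠ 0) (x : L) :
    ∃ (p : O) (i : ℕ), (i = 0 ∨ IsUnit p) ∧ algebraMap O L (π ^ i) * x = algebraMap O L p := by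
  obtain ⟨a, b, hb, rfl⟩ := IsFractionRing.div_surjective (A := O) x
  have hb0 : b ≠ 0 := nonZeroDivisors.ne_zero hb
  have inj : Function.Injective (algebraMap O L) := IsFractionRing.injective O L
  have hφb : algebraMap O L b ≠ 0 := (map_ne_zero_iff _ inj).2 hb0
  by_cases ha : a = 0
  · refine ⟨0, 0, Or.inl rfl, ?_⟩
    rw [ha]
    simp
  obtain ⟨k, u, hu, hak⟩ := hpow a ha
  obtain ⟨m, v, hv, hbm⟩ := hpow b hb0
  obtain ⟨v', hv'⟩ := hv.exists_right_inv
  have hv'u : IsUnit v' := IsUnit.of_mul_eq_one v (by rw [mul_comm]; exact hv')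
  rcases le_total m k with hmk | hmk
  · refine ⟨u * v' * π ^ (k - m), 0, Or.inl rfl, ?_⟩
    rw [pow_zero, map_one, one_mul, div_eq_iff hφb, ← map_mul]
    congr 1
    rw [hak, hbm]
    have : π ^ k = π ^ (k - m) * π ^ m := by rw [← pow_add]; congr 1; omega
    rw [this]
    linear_combination (-u * (π ^ (k - m) * π ^ m)) * hv'
  · refine ⟨u * v', m - k, Or.inr (hu.mul hv'u), ?_⟩
    rw [mul_div_assoc', div_eq_iff hφb, ← map_mul, ← map_mul]
    congr 1
    rw [hak, hbm]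
    have : π ^ m = π ^ (m - k) * π ^ k := by rw [← pow_add]; congr 1; omega
    rw [this]
    linear_combination (-u * (π ^ (m - k) * π ^ k)) * hv'

/-- coordinates of a point in lowest terms over a discrete valuation ring -/
theorem can_lowest {O L : Type} [CommRing O] [IsDomain O] [Field L] [Algebra O L] [IsFractionRing O L] {π : O}
    (hpow : ∀ x : O, x ≠ 0 → ∃ (k : ℕ) (u : O), IsUnit u ∧ x = u * π ^ k) (hπ : π ≠ 0) (hu : ¬ IsUnit π)
    (f : Cub O) {x y : L}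
    (h : y ^ 2 = (f.map (algebraMap O L)).ev x) :
    ∃ r w s : O, s ≠ 0 ∧ IsCoprime r s ∧ algebraMap O L s ^ 2 * x = algebraMap O L r ∧
      algebraMap O L s ^ 3 * y = algebraMap O L w ∧
      w ^ 2 = r ^ 3 + f.a * r ^ 2 * s ^ 2 + f.b * r * s ^ 4 + f.c * s ^ 6 := by
  have inj : Function.Injective (algebraMap O L) := IsFractionRing.injective O L
  obtain ⟨p, i, hpi, hx⟩ := can_frac (L := L) hpow hπ x
  obtain ⟨u, j, huj, hy⟩ := can_frac (L := L) hpow hπ y
  have cop : ∀ (p : O) (i : ℕ), (i = 0 ∨ IsUnit p) → IsCoprime p (π ^ i) := by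
    intro p i hi
    rcases hi with rfl | hi
    · rw [pow_zero]; exact isCoprime_one_right
    · obtain ⟨p', hp'⟩ := hi.exists_right_inv
      exact ⟨p', 0, by linear_combination hp'⟩
  have hpq := cop p i hpi
  have huv := cop u j huj
  set q := π ^ i with hq
  set v := π ^ j with hv
  have e1 : q ^ 3 * u ^ 2 = v ^ 2 * (p ^ 3 + f.a * p ^ 2 * q + f.b * p * q ^ 2 + f.c * q ^ 3) := by
    apply inj
    simp only [map_mul, map_add, map_pow]
    simp only [Cub.ev, Cub.map] at h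
    rw [← hx, ← hy]
    linear_combination (algebraMap O L q ^ 3 * algebraMap O L v ^ 2) * h
  have c1 : IsCoprime (q ^ 3) (p ^ 3 + f.a * p ^ 2 * q + f.b * p * q ^ 2 + f.c * q ^ 3) := by
    apply IsCoprime.pow_left
    have : p ^ 3 + f.a * p ^ 2 * q + f.b * p * q ^ 2 + f.c * q ^ 3 =
      p ^ 3 + q * (f.a * p ^ 2 + f.b * p * q + f.c * q ^ 2) := by ring
    rw [this]
    exact IsCoprime.add_mul_left_right hpq.symm.pow_right _
  have d1 : q ^ 3 ∣ v ^ 2 := c1.dvd_of_dvd_mul_right ⟨u ^ 2, e1.symm⟩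
  have d2 : v ^ 2 ∣ q ^ 3 := by
    have c2 : IsCoprime (v ^ 2) (u ^ 2) := huv.symm.pow
    exact c2.dvd_of_dvd_mul_right ⟨_, e1⟩
  rw [hq, hv, ← pow_mul, ← pow_mul] at d1 d2
  have f1 := (pow_dvd_pow_iff hπ hu).1 d1
  have f2 := (pow_dvd_pow_iff hπ hu).1 d2
  obtain ⟨t, ht⟩ : ∃ t, i = 2 * t := ⟨i / 2, by omega⟩
  have ht' : j = 3 * t := by omega
  have e3 : q = (π ^ t) ^ 2 := by rw [hq, ht, ← pow_mul]; congr 1; omega
  have e4 : v = (π ^ t) ^ 3 := by rw [hv, ht', ← pow_mul]; congr 1; omega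
  generalize hs : π ^ t = s at e3 e4
  have hs0 : s ≠ 0 := by rw [← hs]; exact pow_ne_zero _ hπ
  have cps : IsCoprime p s := by
    rw [e3] at hpq
    exact (IsCoprime.pow_right_iff (by norm_num)).1 hpq
  refine ⟨p, u, s, hs0, cps, ?_, ?_, ?_⟩
  · rw [← hx, e3, map_pow]
  · rw [← hy, e4, map_pow]
  · have h6 : s ^ 6 ≠ 0 := pow_ne_zero _ hs0
    apply mul_left_cancel₀ h6
    rw [e3, e4] at e1
    linear_combination e1

/-- **the canonical integral quartic of a point** over a discrete valuation ring -/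
theorem can_canon {O L : Type} [CommRing O] [IsDomain O] [Field L] [Algebra O L] [IsFractionRing O L] {π : O}
    (hpow : ∀ x : O, x ≠ 0 → ∃ (k : ℕ) (u : O), IsUnit u ∧ x = u * π ^ k) (hπ : π ≠ 0) (hu : ¬ IsUnit π)
    (f : Cub O) {x y : L}
    (h : y ^ 2 = (f.map (algebraMap O L)).ev x) :
    ∃ (s n : O) (G : Q4 O), s ≠ 0 ∧ IsCoprime s n ∧ G.A = s ^ 2 ∧ G.B = -(4 * n) ∧
      (gp (f.map (algebraMap O L)) x y).sub ⟨algebraMap O L s, -(algebraMap O L n / algebraMap O L s), 0, 1⟩ =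
        (G.map (algebraMap O L)).smul (algebraMap O L s ^ 2) := by
  obtain ⟨r, w, s, hs, hrs, hx, hy, hw⟩ := can_lowest hpow hπ hu f h
  have inj : Function.Injective (algebraMap O L) := IsFractionRing.injective O L
  clear h
  generalize algebraMap O L = φ at *
  have hs' : φ s ≠ 0 := (map_ne_zero_iff φ inj).2 hs
  -- the inverse of `r` modulo `s²`
  obtain ⟨i, j, hij⟩ : IsCoprime r (s ^ 2) := hrs.pow_right
  have hn : r * (i * w) = w + s ^ 2 * (-(j * w)) := by linear_combination w * hij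
  set n := i * w with hn'
  obtain ⟨m, D, E, h1, h2, h3, h4⟩ := canon_arith hs hrs hw hn
  refine ⟨s, n, ⟨s ^ 2, -(4 * n), 6 * m - 2 * f.a, -(4 * D), E⟩, hs, h4, rfl, rfl, ?_⟩
  have h1' := congrArg φ h1
  have h2' := congrArg φ h2
  have h3' := congrArg φ h3
  simp only [map_mul, map_add, map_sub, map_pow, map_ofNat] at h1' h2' h3'
  have hx' : x = φ r / φ s ^ 2 := by rw [eq_div_iff (pow_ne_zero _ hs')]; linear_combination hx
  have hy' : y = φ w / φ s ^ 3 := by rw [eq_div_iff (pow_ne_zero _ hs')]; linear_combination hy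
  subst hx'
  subst hy'
  ext
  · simp only [Q4.sub, Q4.smul, Q4.map, gp, Cub.map, map_mul, map_sub, map_pow, map_ofNat, map_neg]
    field_simp
    ring
  · simp only [Q4.sub, Q4.smul, Q4.map, gp, Cub.map, map_mul, map_sub, map_pow, map_ofNat, map_neg]
    field_simp
    ring
  · simp only [Q4.sub, Q4.smul, Q4.map, gp, Cub.map, map_mul, map_sub, map_pow, map_ofNat, map_neg]
    field_simp
    linear_combination (6 * φ s ^ 4) * h1'
  · simp only [Q4.sub, Q4.smul, Q4.map, gp, Cub.map, map_mul, map_sub, map_pow, map_ofNat, map_neg]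
    field_simp
    linear_combination (-4 * φ s ^ 2) * h2'
  · simp only [Q4.sub, Q4.smul, Q4.map, gp, Cub.map, map_mul, map_sub, map_pow, map_ofNat, map_neg]
    field_simp
    linear_combination h3'

/-- moving the point `(h, z)` of the quartic to infinity -/
theorem can_move {K : Type} [Field K] (h2 : (2 : K) ≠ 0) (f : Cub K) {x₀ y₀ h z : K} (h₀ : y₀ ^ 2 = f.ev x₀)
    (hz : z ≠ 0) (hz2 : z ^ 2 = (gp f x₀ y₀).ev h 1) :
    ∃ (δ x₁ y₁ : K), y₁ ^ 2 = f.ev x₁ ∧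
      (gp f x₀ y₀).sub ⟨h, h * δ - z, 1, δ⟩ = (gp f x₁ y₁).smul (z ^ 2) := by
  obtain ⟨δ, hδ⟩ : ∃ δ : K, δ * z = h ^ 3 - (3 * x₀ + f.a) * h - 2 * y₀ :=
    ⟨(h ^ 3 - (3 * x₀ + f.a) * h - 2 * y₀) / z, by field_simp⟩
  obtain ⟨x₁, hx₁⟩ : ∃ x₁ : K, x₁ = x₀ - h ^ 2 + δ ^ 2 := ⟨_, rfl⟩
  have hz' : z ^ 2 ≠ 0 := pow_ne_zero _ hz
  have h4 : (4 : K) ≠ 0 := by
    have : (4 : K) = 2 ^ 2 := by norm_num
    rw [this]; exact pow_ne_zero _ h2
  have h8 : (8 : K) ≠ 0 := by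
    have : (8 : K) = 2 ^ 3 := by norm_num
    rw [this]; exact pow_ne_zero _ h2
  set M : M2 K := ⟨h, h * δ - z, 1, δ⟩ with hM
  set g := gp f x₀ y₀ with hg
  set G := g.sub M with hG
  have R1 : z ^ 2 = h ^ 4 - (6 * x₀ + 2 * f.a) * h ^ 2 - 8 * y₀ * h +
      (f.a ^ 2 - 2 * f.a * x₀ - 3 * x₀ ^ 2 - 4 * f.b) := by
    rw [hz2, hg]; simp only [Q4.ev, gp]; ring
  have hdet : M.det = z := by simp only [M2.det, hM]; ring
  have hA : G.A = z ^ 2 := by
    simp only [hG, hg, hM, Q4.sub, gp]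
    linear_combination -R1
  have hB : G.B = 0 := by
    simp only [hG, hg, hM, Q4.sub, gp]
    linear_combination (-4 * δ) * R1 + (4 * z) * hδ
  have hC : G.C = z ^ 2 * (-(6 * x₁ + 2 * f.a)) := by
    simp only [hG, hg, hM, Q4.sub, gp, hx₁]
    linear_combination (-6 * δ ^ 2) * R1 + (12 * δ * z) * hδ
  have hτ : g.tau M = 2 * z ^ 2 * (x₀ - x₁) := by
    simp only [hg, hM, Q4.tau, gp, hx₁]
    linear_combination (-2 * δ ^ 2) * R1 + (4 * δ * z) * hδ
  have hres : G.res = ((f.sc 4).tr (-(2 * x₁ + 2 * f.a))).sc (z ^ 2) := by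
    rw [hG, Q4.res_sub, hg, res_gp f x₀ y₀ h₀, ← hg, hτ, hdet, Cub.sc_tr, Cub.sc_tr, Cub.tr_tr]
    congr 1
    ring
  have hb := congrArg Cub.b hres
  have hc := congrArg Cub.c hres
  simp only [Q4.res, Cub.tr, Cub.sc, hA, hB, hC] at hb hc
  have hE : G.E = z ^ 2 * (f.a ^ 2 - 2 * f.a * x₁ - 3 * x₁ ^ 2 - 4 * f.b) := by
    apply mul_left_cancel₀ (mul_ne_zero h4 hz')
    linear_combination -hb
  obtain ⟨y₁, hy₁⟩ : ∃ y₁ : K, z ^ 2 * (-(8 * y₁)) = G.D := ⟨-(G.D / (8 * z ^ 2)), by field_simp⟩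
  refine ⟨δ, x₁, y₁, ?_, ?_⟩
  · rw [hE, ← hy₁] at hc
    have h6 : (64 : K) * z ^ 6 ≠ 0 := by
      have : (64 : K) = 2 ^ 6 := by norm_num
      rw [this]; exact mul_ne_zero (pow_ne_zero _ h2) (pow_ne_zero _ hz)
    simp only [Cub.ev]
    apply mul_left_cancel₀ h6
    linear_combination hc
  · rw [← hM, ← hG]
    ext
    · rw [hA]; simp only [Q4.smul, gp]; ring
    · rw [hB]; simp only [Q4.smul, gp]; ring
    · rw [hC]; simp only [Q4.smul, gp]
    · rw [← hy₁]; simp only [Q4.smul, gp]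
    · rw [hE]; simp only [Q4.smul, gp]

theorem t_can : S_can := by
  intro F _ hF2 P O L _ _ _ _ _ π ι hLc f x₀ y₀ h₀
  have inj : Function.Injective (algebraMap O L) := IsFractionRing.injective O L
  have h2O : IsUnit (2 : O) := by
    have h1 : IsUnit (Polynomial.C (2 : F)) := Polynomial.isUnit_C.2 (isUnit_iff_ne_zero.2 hF2)
    have h2 := h1.map ι
    have h3 : ι (Polynomial.C (2 : F)) = 2 := by
      rw [map_ofNat Polynomial.C 2, map_ofNat]
    rwa [h3] at h2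
  have h2L : (2 : L) ≠ 0 := by
    have := (map_ne_zero_iff (algebraMap O L) inj).2 h2O.ne_zero
    rwa [map_ofNat] at this
  refine ⟨?_, ?_⟩
  · intro h z hz hz2
    obtain ⟨δ, x₁, y₁, h₁, e₁⟩ := can_move h2L (f.map (algebraMap O L)) h₀ hz hz2
    obtain ⟨s, n, G, hs, hsn, hA, hB, e₂⟩ := can_canon hLc.pow hLc.ne hLc.nonunit f h₁
    have hs' : algebraMap O L s ≠ 0 := (map_ne_zero_iff _ inj).2 hs
    have hdet : ((⟨h, h * δ - z, 1, δ⟩ : M2 L).mul
        ⟨algebraMap O L s, -(algebraMap O L n / algebraMap O L s), 0, 1⟩).det = z * algebraMap O L s := by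
      rw [M2.det_mul]
      simp only [M2.det]
      ring
    refine ⟨(⟨h, h * δ - z, 1, δ⟩ : M2 L).mul
      ⟨algebraMap O L s, -(algebraMap O L n / algebraMap O L s), 0, 1⟩, G, s, n, algebraMap O L s,
      ⟨?_, ?_, hA, hB, hsn, hs⟩, hs', ?_, ?_, ?_⟩
    · rw [hdet]; exact mul_ne_zero hz hs'
    · rw [← Q4.sub_mul, e₁, Q4.smul_sub, e₂, Q4.smul_smul, hdet]
      congr 1
      ring
    · simp only [M2.mul]; ring
    · simp only [M2.mul]; ring
    · rw [hdet]; ring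
  · obtain ⟨s, n, G, hs, hsn, hA, hB, e₂⟩ := can_canon hLc.pow hLc.ne hLc.nonunit f h₀
    have hs' : algebraMap O L s ≠ 0 := (map_ne_zero_iff _ inj).2 hs
    have hdet : (⟨algebraMap O L s, -(algebraMap O L n / algebraMap O L s), 0, 1⟩ : M2 L).det =
        algebraMap O L s := by
      simp only [M2.det]; ring
    refine ⟨⟨algebraMap O L s, -(algebraMap O L n / algebraMap O L s), 0, 1⟩, G, s, n, algebraMap O L s,
      ⟨?_, ?_, hA, hB, hsn, hs⟩, hs', rfl, rfl, ?_⟩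
    · rw [hdet]; exact hs'
    · rw [e₂, hdet]
    · rw [hdet]; ring

end Pool.Agent.H456.BQ
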