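import Pool.Agent.H456.BQ.Stm

/-!
(S2) `S_comp`. Take `κ = F[X]/(P)` (a finite field), `θ` = class of `X`, `O = PowerSeries κ`, `π = PowerSeries.X`,
`ι : F[X] → κ⟦s⟧` the ring homomorphism with `a ↦ a` on constants, `X ↦ θ + s`. `pow`, `nonunit`, `ne`: `O` is a DVR
(`PowerSeries` API: `X_pow_order_dvd`, `isUnit_iff_constantCoeff`, ...). `dvd`: `ι P = P(θ + s) = P'(θ) s + O(s²)`
with `P'(θ) ≠ 0` since `P` is irreducible over a finite (perfect) field, hence separable; so `ι P = unit * s`; if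
`P ∤ y` then `ι y` has constant term `y(θ) ≠ 0`, a unit; write `x = P ^ j y` with `P ∤ y` (`x ≠ 0`; `ι` is injective).
`dense`: by induction on `k`: if `s ^ k ∣ x - ι y`, the coefficient of `s ^ k` in `(x - ι y) / (unit)` is the class of
some `z ∈ F[X]`, replace `y` by `y + P ^ k z`. `hensel`: successive approximation
`w_{m+1} = -(c₀ + c₂ w_m ^ 2 + c₃ w_m ^ 3) / c₁`, `w_0 = 0`; all `w_m` are divisible by `s` and
`s ^ (m+1) ∣ w_{m+1} - w_m`; the limit `w` (`coeff n w = coeff n w_n`) satisfies the equation. (Any other model of the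
completion, e.g. `AdicCompletion`, is fine if you find it easier.)
-/

set_option autoImplicit false
set_option linter.all false

open Polynomial Finset

namespace Pool.Agent.H456.BQ

section comp

variable {F : Type} [Field F] (P : F[X])

/-- the homomorphism to the completion -/
noncomputable def comp_hom : F[X] →+* PowerSeries (AdjoinRoot P) :=
  Polynomial.eval₂RingHom ((PowerSeries.C (R := AdjoinRoot P)).comp (AdjoinRoot.of P))
    (PowerSeries.C (AdjoinRoot.root P) + PowerSeries.X)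

theorem comp_hom_C (a : F) : comp_hom P (C a) = PowerSeries.C (AdjoinRoot.of P a) := by
  unfold comp_hom
  rw [Polynomial.coe_eval₂RingHom, Polynomial.eval₂_C]
  rfl

theorem comp_hom_X : comp_hom P X = PowerSeries.C (AdjoinRoot.root P) + PowerSeries.X := by
  unfold comp_hom
  rw [Polynomial.coe_eval₂RingHom, Polynomial.eval₂_X]

theorem comp_cc (y : F[X]) : PowerSeries.constantCoeff (comp_hom P y) = AdjoinRoot.mk P y := by
  have h : (PowerSeries.constantCoeff (R := AdjoinRoot P)).comp (comp_hom P) = AdjoinRoot.mk P := by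
    apply Polynomial.ringHom_ext
    · intro a
      rw [RingHom.comp_apply, comp_hom_C, PowerSeries.constantCoeff_C]
      rfl
    · rw [RingHom.comp_apply, comp_hom_X, map_add, PowerSeries.constantCoeff_C,
        PowerSeries.constantCoeff_X, add_zero]
      rfl
  exact RingHom.congr_fun h y

theorem comp_cc_iff (y : F[X]) : PowerSeries.constantCoeff (comp_hom P y) = 0 ↔ P ∣ y := by
  rw [comp_cc, AdjoinRoot.mk_eq_zero]

theorem comp_der (y : F[X]) :
    PowerSeries.derivative (AdjoinRoot P) (comp_hom P y) = comp_hom P (derivative y) := by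
  induction y using Polynomial.induction_on with
  | C a => rw [comp_hom_C, PowerSeries.derivative_C, derivative_C, map_zero]
  | add p q hp hq => rw [map_add, map_add, hp, hq, map_add, map_add]
  | monomial n a ih =>
    have h1 : (C a * X ^ (n + 1) : F[X]) = (C a * X ^ n) * X := by ring
    have h2 : PowerSeries.derivative (AdjoinRoot P) (comp_hom P X) = 1 := by
      rw [comp_hom_X, map_add, PowerSeries.derivative_C, PowerSeries.derivative_X, zero_add]
    have h3 : derivative ((C a * X ^ n) * X : F[X]) = derivative (C a * X ^ n) * X + C a * X ^ n := by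
      rw [derivative_mul, derivative_X, mul_one]
    rw [h1, h3, map_mul, Derivation.leibniz, ih, h2, map_add, map_mul (comp_hom P) (derivative _),
      smul_eq_mul, smul_eq_mul]
    ring

theorem comp_coeff_one (y : F[X]) :
    PowerSeries.coeff 1 (comp_hom P y) = AdjoinRoot.mk P (derivative y) := by
  rw [← comp_cc, ← comp_der, ← PowerSeries.coeff_zero_eq_constantCoeff_apply,
    PowerSeries.coeff_derivative]
  simp

/-- `P` is a uniformizer -/
theorem comp_unif [Finite F] (hP : Irreducible P) :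
    ∃ v : PowerSeries (AdjoinRoot P), IsUnit v ∧ comp_hom P P = PowerSeries.X * v := by
  have : Fact (Irreducible P) := ⟨hP⟩
  have h0 : PowerSeries.constantCoeff (comp_hom P P) = 0 := (comp_cc_iff P P).2 dvd_rfl
  obtain ⟨v, hv⟩ := PowerSeries.X_dvd_iff.2 h0
  refine ⟨v, ?_, hv⟩
  rw [PowerSeries.isUnit_iff_constantCoeff, isUnit_iff_ne_zero]
  have h1 : PowerSeries.coeff 1 (comp_hom P P) = PowerSeries.constantCoeff v := by
    rw [hv, ← zero_add 1, PowerSeries.coeff_succ_X_mul, PowerSeries.coeff_zero_eq_constantCoeff_apply]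
  rw [← h1, comp_coeff_one, Ne, AdjoinRoot.mk_eq_zero]
  intro h2
  have h3 : P.Separable := PerfectField.separable_of_irreducible hP
  have h4 : IsUnit P := h3.isUnit_of_dvd' dvd_rfl h2
  exact hP.not_isUnit h4

theorem comp_pow {κ : Type} [Field κ] (x : PowerSeries κ) (hx : x ≠ 0) :
    ∃ (k : ℕ) (u : PowerSeries κ), IsUnit u ∧ x = u * PowerSeries.X ^ k := by
  have h1 : PowerSeries.coeff x.order.toNat x ≠ 0 := PowerSeries.coeff_order hx
  have h2 : PowerSeries.X ^ x.order.toNat ∣ x := PowerSeries.X_pow_order_dvd (φ := x)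
  generalize x.order.toNat = k at h1 h2
  obtain ⟨u, rfl⟩ := h2
  refine ⟨k, u, ?_, mul_comm _ _⟩
  rw [PowerSeries.isUnit_iff_constantCoeff, isUnit_iff_ne_zero]
  intro h0
  apply h1
  rw [PowerSeries.coeff_X_pow_mul', if_pos le_rfl, Nat.sub_self,
    PowerSeries.coeff_zero_eq_constantCoeff_apply, h0]

theorem comp_dvd [Finite F] (hP : Irreducible P) (k : ℕ) (x : F[X]) :
    PowerSeries.X ^ k ∣ comp_hom P x ↔ P ^ k ∣ x := by
  have : Fact (Irreducible P) := ⟨hP⟩
  obtain ⟨v, hv, hv'⟩ := comp_unif P hP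
  constructor
  · induction k with
    | zero => intro _; rw [pow_zero]; exact one_dvd _
    | succ k ih =>
      intro h
      obtain ⟨y, rfl⟩ := ih (dvd_trans (pow_dvd_pow _ (Nat.le_succ k)) h)
      rw [map_mul, map_pow, hv', mul_pow, mul_assoc, pow_succ] at h
      have h1 := (mul_dvd_mul_iff_left (pow_ne_zero k PowerSeries.X_ne_zero)).1 h
      have h2 : PowerSeries.X ∣ comp_hom P y := (hv.pow k).dvd_mul_left.1 h1
      rw [PowerSeries.X_dvd_iff, comp_cc_iff] at h2
      obtain ⟨z, rfl⟩ := h2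
      exact ⟨z, by ring⟩
  · rintro ⟨y, rfl⟩
    rw [map_mul, map_pow, hv', mul_pow, mul_assoc]
    exact dvd_mul_right _ _

theorem comp_dense [Finite F] (hP : Irreducible P) (k : ℕ) (x : PowerSeries (AdjoinRoot P)) :
    ∃ y : F[X], PowerSeries.X ^ k ∣ x - comp_hom P y := by
  have : Fact (Irreducible P) := ⟨hP⟩
  obtain ⟨v, hv, hv'⟩ := comp_unif P hP
  induction k with
  | zero => exact ⟨0, by rw [pow_zero]; exact one_dvd _⟩
  | succ k ih =>
    obtain ⟨y, w, hw⟩ := ih
    obtain ⟨z, hz⟩ := AdjoinRoot.mk_surjective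
      (PowerSeries.constantCoeff w / PowerSeries.constantCoeff v ^ k)
    have hv0 : PowerSeries.constantCoeff v ≠ 0 := by
      rw [PowerSeries.isUnit_iff_constantCoeff, isUnit_iff_ne_zero] at hv
      exact hv
    refine ⟨y + P ^ k * z, ?_⟩
    have h1 : x - comp_hom P (y + P ^ k * z) =
        PowerSeries.X ^ k * (w - v ^ k * comp_hom P z) := by
      rw [map_add, map_mul, map_pow, hv', mul_pow]
      linear_combination hw
    rw [h1, pow_succ]
    refine mul_dvd_mul_left _ ?_
    rw [PowerSeries.X_dvd_iff, map_sub, map_mul, map_pow, comp_cc, hz]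
    field_simp
    ring

theorem comp_hensel {κ : Type} [Field κ] (c₀ c₁ c₂ c₃ : PowerSeries κ) (h0 : PowerSeries.X ∣ c₀)
    (h1 : IsUnit c₁) :
    ∃ w, PowerSeries.X ∣ w ∧ c₀ + c₁ * w + c₂ * w ^ 2 + c₃ * w ^ 3 = 0 := by
  have hH : HenselianRing (PowerSeries κ) (Ideal.span {PowerSeries.X}) := inferInstance
  have hc0 : c₀ ∈ Ideal.span {(PowerSeries.X : PowerSeries κ)} := Ideal.mem_span_singleton.2 h0
  obtain ⟨a, ha, ha'⟩ := hH.is_henselian
    (X ^ 3 + C c₁ * X ^ 2 + C (c₂ * c₀) * X + C (c₃ * c₀ ^ 2)) (by monicity!) (-c₁) (by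
      simp only [eval_add, eval_mul, eval_pow, eval_X, eval_C]
      have : (-c₁) ^ 3 + c₁ * (-c₁) ^ 2 + c₂ * c₀ * -c₁ + c₃ * c₀ ^ 2 =
        (-(c₂ * c₁) + c₃ * c₀) * c₀ := by ring
      rw [this]
      exact Ideal.mul_mem_left _ _ hc0) (by
      have : (Ideal.Quotient.mk (Ideal.span {(PowerSeries.X : PowerSeries κ)}))
          (eval (-c₁) (derivative (X ^ 3 + C c₁ * X ^ 2 + C (c₂ * c₀) * X + C (c₃ * c₀ ^ 2)))) =
          (Ideal.Quotient.mk (Ideal.span {(PowerSeries.X : PowerSeries κ)})) (c₁ ^ 2) := by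
        rw [Ideal.Quotient.eq]
        have : eval (-c₁) (derivative (X ^ 3 + C c₁ * X ^ 2 + C (c₂ * c₀) * X + C (c₃ * c₀ ^ 2)))
            - c₁ ^ 2 = c₂ * c₀ := by
          simp only [derivative_add, derivative_mul, derivative_X_pow, derivative_C, derivative_X,
            eval_add, eval_mul, eval_pow, eval_X, eval_C, eval_zero, eval_one, eval_natCast,
            map_natCast]
          push_cast
          ring
        rw [this]
        exact Ideal.mul_mem_left _ _ hc0
      rw [this]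
      exact (h1.pow 2).map _)
  rw [Ideal.mem_span_singleton, PowerSeries.X_dvd_iff] at ha'
  have hau : IsUnit a := by
    rw [PowerSeries.isUnit_iff_constantCoeff] at h1 ⊢
    rw [map_sub, map_neg, sub_neg_eq_add] at ha'
    rw [eq_neg_of_add_eq_zero_left ha']
    exact h1.neg
  obtain ⟨b, hb⟩ := hau.exists_right_inv
  refine ⟨c₀ * b, dvd_mul_of_dvd_left h0 b, ?_⟩
  have h2 : a ^ 3 + c₁ * a ^ 2 + c₂ * c₀ * a + c₃ * c₀ ^ 2 = 0 := by
    have := ha
    simp only [IsRoot.def, eval_add, eval_mul, eval_pow, eval_X, eval_C] at this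
    exact this
  have h3 : c₀ + c₁ * (c₀ * b) + c₂ * (c₀ * b) ^ 2 + c₃ * (c₀ * b) ^ 3 =
      c₀ * b ^ 3 * (a ^ 3 + c₁ * a ^ 2 + c₂ * c₀ * a + c₃ * c₀ ^ 2) := by
    have e1 : a ^ 3 * b ^ 3 = 1 := by rw [← mul_pow, hb, one_pow]
    have e2 : a ^ 2 * b ^ 3 = b := by
      calc a ^ 2 * b ^ 3 = (a * b) ^ 2 * b := by ring
        _ = b := by rw [hb]; ring
    have e3 : a * b ^ 3 = b ^ 2 := by
      calc a * b ^ 3 = (a * b) * b ^ 2 := by ring
        _ = b ^ 2 := by rw [hb]; ring
    linear_combination -c₀ * e1 - c₀ * c₁ * e2 - c₂ * c₀ ^ 2 * e3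
  rw [h3, h2, mul_zero]

end comp

theorem t_comp : S_comp := by
  intro F _ _ P _ hP
  have : Fact (Irreducible P) := ⟨hP⟩
  refine ⟨PowerSeries (AdjoinRoot P), inferInstance, inferInstance, PowerSeries.X, comp_hom P,
    comp_pow, ?_, PowerSeries.X_ne_zero, comp_dvd P hP, comp_dense P hP, comp_hensel⟩
  rw [PowerSeries.isUnit_iff_constantCoeff, PowerSeries.constantCoeff_X]
  exact not_isUnit_zero

end Pool.Agent.H456.BQ
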