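import Pool.Agent.H456.BQ.Stm3

/-!
(J5) `S_dis`. `T : M2 F[X]` has constant nonzero determinant `C d`, so it is invertible over `F[X]`, hence over every
`LocP P` (polynomials lie in `LocP P`: denominator `1`): `LEq (LocP P) M (M.mul T)` with `c = 1`, `V = T`. At infinity,
`(M.mul T).mul diag(1, t⁻ᵉ) = (M.mul diag(1, t⁻ᵉ)).mul W`, `W = ⟨α, β t⁻ᵉ, γ tᵉ, δ⟩` (`α, β, γ, δ` the entries of `T`), and `W` has
entries in `Oi F` (`poly_mem_of` in Oi.lean; `γ = 0` or `e = 0` and `γ` constant; `tt_neg`, `tt_zero`), `det W = det T = d`, a unit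
of `Oi F`.
-/

set_option autoImplicit false
set_option linter.all false

open Polynomial Finset
open Pool.Agent.H456.EC (toK toK_inj sig toK_eq reflect_toK)

namespace Pool.Agent.H456.BQ

section dis_aux

variable {F : Type} [Field F]

theorem dis_loc (P : Pl F) (p : F[X]) : toK F p ∈ LocP P :=
  ⟨p, 1, fun h => P.2.2.not_isUnit (isUnit_of_dvd_one h), by rw [map_one, one_mul]⟩

theorem dis_oi {p : F[X]} (h : p.natDegree = 0) : toK F p ∈ Oi F := by
  have h1 := poly_mem_of (F := F) (p := p) (m := 0) (by rw [h])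
  rw [Nat.cast_zero, neg_zero, tt_zero, mul_one] at h1
  exact h1

theorem dis_gam {e : ℕ} {g : F[X]} (h : g = 0 ∨ (e = 0 ∧ g.natDegree = 0)) :
    toK F g * tt F (e : ℤ) ∈ Oi F := by
  rcases h with h | h
  · rw [h, map_zero, zero_mul]; exact (Oi F).zero_mem
  · rw [h.1, Nat.cast_zero, tt_zero, mul_one]
    exact dis_oi h.2

end dis_aux

theorem t_dis : S_dis := by
  intro F _ e M T hT
  obtain ⟨⟨d, hd, hdet⟩, hα, hβ, hδ, hγ⟩ := hT
  have hdet' : toK F T.α * toK F T.δ - toK F T.β * toK F T.γ = toK F (C d) := by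
    rw [← map_mul, ← map_mul, ← map_sub, ← hdet, M2.det]
  have hinv : toK F (C d) * toK F (C d⁻¹) = 1 := by
    rw [← map_mul, ← C_mul, mul_inv_cancel₀ hd, C_1, map_one]
  constructor
  · intro P
    refine ⟨1, ⟨⟨toK F T.α, dis_loc P _⟩, ⟨toK F T.β, dis_loc P _⟩, ⟨toK F T.γ, dis_loc P _⟩,
      ⟨toK F T.δ, dis_loc P _⟩⟩, one_ne_zero, ?_, ?_⟩
    · refine IsUnit.of_mul_eq_one ⟨toK F (C d⁻¹), dis_loc P _⟩ ?_
      apply Subtype.ext
      simp only [M2.det, Subring.coe_mul, AddSubgroupClass.coe_sub, Subring.coe_one]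
      rw [hdet', hinv]
    · ext <;> simp only [M2.map, M2.mul, M2.scal, one_mul] <;> rfl
  · have htt := tt_neg (F := F) (e : ℤ)
    refine ⟨1, ⟨⟨toK F T.α, dis_oi hα⟩, ⟨toK F T.β * tt F (-(e : ℤ)), poly_mem_of hβ⟩,
      ⟨toK F T.γ * tt F (e : ℤ), dis_gam hγ⟩, ⟨toK F T.δ, dis_oi hδ⟩⟩, one_ne_zero, ?_, ?_⟩
    · refine IsUnit.of_mul_eq_one ⟨toK F (C d⁻¹), dis_oi (natDegree_C _)⟩ ?_
      apply Subtype.ext
      simp only [M2.det, Subring.coe_mul, AddSubgroupClass.coe_sub, Subring.coe_one]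
      have h1 : toK F T.α * toK F T.δ - toK F T.β * tt F (-(e : ℤ)) * (toK F T.γ * tt F (e : ℤ)) =
          toK F (C d) := by
        rw [← hdet']
        linear_combination (-(toK F T.β * toK F T.γ)) * htt
      rw [h1, hinv]
    · have hal : ∀ x : Oi F, algebraMap (Oi F) (RatFunc F) x = (x : RatFunc F) := fun x => rfl
      ext <;> simp only [M2.map, M2.mul, M2.scal, one_mul, hal]
      · linear_combination (-(M.β * toK F T.γ)) * htt
      · ring
      · linear_combination (-(M.δ * toK F T.γ)) * htt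
      · ring

end Pool.Agent.H456.BQ

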