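import Pool.Agent.H456.BQ.Stm

/-!
(S5') `S_disc4`, the version for QUARTICS which replaces `S_disc`. `Q = q ^ deg P`, `R_j = F[X]/(P^j)`.
The discriminant `D(g) = g.res.disc` is, as a polynomial in `E = g.E` (for fixed `A, B, C, D`), of degree `3` with leading
coefficient `256 A³`, and `4` is a unit. If `P^a ∤ A` and `6 a ≤ j`, the solutions `E` of `D = 0` lie in at most three
classes modulo `P^a`, so there are at most `3 Q^(j-a)` of them.
-/

set_option autoImplicit false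
set_option linter.all false

open Polynomial Finset

namespace Pool.Agent.H456.BQ

open Classical in
/-- **(S5')** few quartics have a discriminant divisible by a high power of `P`. -/
def S_disc4 : Prop := ∀ (F : Type) [Field F] [Fintype F], (2 : F) ≠ 0 → ∀ (P : Pl F) (ε : ℝ), 0 < ε →
  ∃ j₀ : ℕ, ∀ j ≥ j₀, (((univ : Finset (Q4 (Rq (P.1 ^ j)))).filter (fun g => g.res.disc = 0)).card : ℝ) ≤
    ε * (((Fintype.card F : ℝ) ^ P.1.natDegree) ^ j) ^ 5

section aux

variable {F : Type} [Field F]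

theorem disc4_split {P : F[X]} (hP : Prime P) (b : ℕ) : ∀ (a : ℕ) (x y : F[X]), P ^ (a + b) ∣ x * y →
    P ^ a ∣ x ∨ P ^ b ∣ y := by
  intro a
  induction a with
  | zero => intro x y _; left; simp
  | succ a ih =>
    intro x y h
    by_cases hx : P ∣ x
    · obtain ⟨x', rfl⟩ := hx
      have h1 : P ^ (a + b) ∣ x' * y := by
        have e1 : P ^ (a + 1 + b) = P * P ^ (a + b) := by ring
        rw [e1, mul_assoc] at h
        exact (mul_dvd_mul_iff_left hP.ne_zero).1 h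
      rcases ih x' y h1 with h2 | h2
      · left
        rw [pow_succ, mul_comm]
        exact mul_dvd_mul_left P h2
      · right; exact h2
    · right
      have h1 := hP.pow_dvd_of_dvd_mul_left (a + 1 + b) hx h
      exact (pow_dvd_pow P (by omega)).trans h1

/-- the polynomial solutions of a cubic congruence lie in three classes -/
theorem disc4_three {P : F[X]} (hP : Prime P) (a j : ℕ) (hj : 6 * a ≤ j) (c₃ c₂ c₁ c₀ : F[X])
    (hc : ¬ P ^ (3 * a) ∣ c₃) : ∃ e₁ e₂ e₃ : F[X], ∀ e : F[X],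
      P ^ j ∣ c₃ * e ^ 3 + c₂ * e ^ 2 + c₁ * e + c₀ → P ^ a ∣ e - e₁ ∨ P ^ a ∣ e - e₂ ∨ P ^ a ∣ e - e₃ := by
  by_cases h1 : ∃ e₁, P ^ j ∣ c₃ * e₁ ^ 3 + c₂ * e₁ ^ 2 + c₁ * e₁ + c₀
  swap
  · exact ⟨0, 0, 0, fun e he => absurd ⟨e, he⟩ h1⟩
  obtain ⟨e₁, he₁⟩ := h1
  have s1 : ∀ e, P ^ j ∣ c₃ * e ^ 3 + c₂ * e ^ 2 + c₁ * e + c₀ → P ^ a ∣ e - e₁ ∨
      P ^ (j - a) ∣ c₃ * (e ^ 2 + e * e₁ + e₁ ^ 2) + c₂ * (e + e₁) + c₁ := by
    intro e he
    apply disc4_split hP (j - a) a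
    rw [show a + (j - a) = j by omega]
    have := dvd_sub he he₁
    convert this using 1
    ring
  by_cases h2 : ∃ e₂, P ^ (j - a) ∣ c₃ * (e₂ ^ 2 + e₂ * e₁ + e₁ ^ 2) + c₂ * (e₂ + e₁) + c₁
  swap
  · refine ⟨e₁, 0, 0, fun e he => ?_⟩
    rcases s1 e he with h | h
    · exact Or.inl h
    · exact absurd ⟨e, h⟩ h2
  obtain ⟨e₂, he₂⟩ := h2
  have s2 : ∀ e, P ^ (j - a) ∣ c₃ * (e ^ 2 + e * e₁ + e₁ ^ 2) + c₂ * (e + e₁) + c₁ → P ^ a ∣ e - e₂ ∨
      P ^ (j - 2 * a) ∣ c₃ * (e + e₂ + e₁) + c₂ := by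
    intro e he
    apply disc4_split hP (j - 2 * a) a
    rw [show a + (j - 2 * a) = j - a by omega]
    have := dvd_sub he he₂
    convert this using 1
    ring
  by_cases h3 : ∃ e₃, P ^ (j - 2 * a) ∣ c₃ * (e₃ + e₂ + e₁) + c₂
  swap
  · refine ⟨e₁, e₂, 0, fun e he => ?_⟩
    rcases s1 e he with h | h
    · exact Or.inl h
    · rcases s2 e h with h | h
      · exact Or.inr (Or.inl h)
      · exact absurd ⟨e, h⟩ h3
  obtain ⟨e₃, he₃⟩ := h3
  refine ⟨e₁, e₂, e₃, fun e he => ?_⟩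
  rcases s1 e he with h | h
  · exact Or.inl h
  · rcases s2 e h with h | h
    · exact Or.inr (Or.inl h)
    · right; right
      have h4 : P ^ (3 * a + (j - 5 * a)) ∣ c₃ * (e - e₃) := by
        rw [show 3 * a + (j - 5 * a) = j - 2 * a by omega]
        have := dvd_sub h he₃
        convert this using 1
        ring
      rcases disc4_split hP (j - 5 * a) (3 * a) _ _ h4 with h5 | h5
      · exact absurd h5 hc
      · exact (pow_dvd_pow P (by omega)).trans h5

theorem disc4_lead {P : F[X]} (hP : Prime P) (h2 : (2 : F) ≠ 0) (a : ℕ) (A : F[X]) (hA : ¬ P ^ a ∣ A) :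
    ¬ P ^ (3 * a) ∣ 256 * A ^ 3 := by
  intro h
  have h256 : (256 : F) ≠ 0 := by
    have : (256 : F) = 2 ^ 8 := by norm_num
    rw [this]
    exact pow_ne_zero _ h2
  have e1 : A ^ 3 = C ((256 : F)⁻¹) * (256 * A ^ 3) := by
    have : (256 : F[X]) = C (256 : F) := (map_ofNat C 256).symm
    rw [this, ← mul_assoc, ← C_mul, inv_mul_cancel₀ h256, C_1, one_mul]
  have h1 : P ^ (3 * a) ∣ A ^ 3 := by
    rw [e1]
    exact Dvd.dvd.mul_left h _
  have h3 : P ^ (a + 2 * a) ∣ A * (A * A) := by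
    have e2 : A * (A * A) = A ^ 3 := by ring
    have e3 : a + 2 * a = 3 * a := by ring
    rw [e2, e3]
    exact h1
  rcases disc4_split hP (2 * a) a _ _ h3 with h4 | h4
  · exact hA h4
  · have h5 : P ^ (a + a) ∣ A * A := by rwa [show a + a = 2 * a by ring]
    rcases disc4_split hP a a _ _ h5 with h6 | h6
    · exact hA h6
    · exact hA h6

theorem disc4_natcard [Finite F] {m : F[X]} (hm : m.Monic) : Nat.card (Rq m) = Nat.card F ^ m.natDegree := by
  have h1 : Module.Finite F (AdjoinRoot m) := (AdjoinRoot.powerBasis' hm).finite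
  have h2 : Nat.card (AdjoinRoot m) = Nat.card F ^ Module.finrank F (AdjoinRoot m) :=
    Module.natCard_eq_pow_finrank
  rw [(AdjoinRoot.powerBasis' hm).finrank, AdjoinRoot.powerBasis'_dim] at h2
  exact h2

variable [Fintype F]

theorem disc4_card (P : Pl F) (j : ℕ) :
    Fintype.card (Rq (P.1 ^ j)) = (Fintype.card F ^ P.1.natDegree) ^ j := by
  rw [← Nat.card_eq_fintype_card, disc4_natcard (P.2.1.pow j), Nat.card_eq_fintype_card,
    P.2.1.natDegree_pow, ← pow_mul, mul_comm]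

/-- reduction -/
noncomputable def disc4_red (P : Pl F) {a j : ℕ} (h : a ≤ j) : Rq (P.1 ^ j) →+* Rq (P.1 ^ a) :=
  Ideal.Quotient.factor (by
    rw [Ideal.span_singleton_le_span_singleton]
    exact pow_dvd_pow P.1 h)

theorem disc4_red_mk (P : Pl F) {a j : ℕ} (h : a ≤ j) (x : F[X]) :
    disc4_red P h (Ideal.Quotient.mk _ x) = Ideal.Quotient.mk _ x := rfl

open Classical in
theorem disc4_fib (P : Pl F) {a j : ℕ} (h : a ≤ j) (y : Rq (P.1 ^ a)) :
    ((univ : Finset (Rq (P.1 ^ j))).filter (fun x => disc4_red P h x = y)).card =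
      (Fintype.card F ^ P.1.natDegree) ^ (j - a) := by
  have hsurj : Function.Surjective (disc4_red P h) := by
    intro y
    obtain ⟨x, rfl⟩ := Ideal.Quotient.mk_surjective y
    exact ⟨Ideal.Quotient.mk _ x, rfl⟩
  have heq : ∀ z : Rq (P.1 ^ a), ((univ : Finset (Rq (P.1 ^ j))).filter (fun x => disc4_red P h x = z)).card =
      ((univ : Finset (Rq (P.1 ^ j))).filter (fun x => disc4_red P h x = y)).card := by
    intro z
    obtain ⟨x, hx⟩ := hsurj (z - y)
    refine Finset.card_bij (fun t _ => t - x) ?_ ?_ ?_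
    · intro t ht
      rw [Finset.mem_filter] at ht ⊢
      refine ⟨Finset.mem_univ _, ?_⟩
      rw [map_sub, ht.2, hx]; ring
    · intro t _ t' _ htt
      exact sub_left_injective htt
    · intro t ht
      rw [Finset.mem_filter] at ht
      refine ⟨t + x, ?_, by ring⟩
      rw [Finset.mem_filter]
      refine ⟨Finset.mem_univ _, ?_⟩
      rw [map_add, ht.2, hx]; ring
  have h1 : Fintype.card (Rq (P.1 ^ j)) = ∑ z : Rq (P.1 ^ a),
      ((univ : Finset (Rq (P.1 ^ j))).filter (fun x => disc4_red P h x = z)).card := by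
    rw [← Finset.card_univ]
    exact Finset.card_eq_sum_card_fiberwise fun x _ => Finset.mem_univ _
  rw [Finset.sum_congr rfl fun z _ => heq z, Finset.sum_const, Finset.card_univ, disc4_card, disc4_card,
    smul_eq_mul] at h1
  have hq : 0 < (Fintype.card F ^ P.1.natDegree) ^ a := pow_pos (pow_pos Fintype.card_pos _) _
  have h2 : (Fintype.card F ^ P.1.natDegree) ^ j =
      (Fintype.card F ^ P.1.natDegree) ^ a * (Fintype.card F ^ P.1.natDegree) ^ (j - a) := by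
    rw [← pow_add]
    congr 1
    omega
  rw [h2] at h1
  exact (Nat.eq_of_mul_eq_mul_left hq h1).symm

open Classical in
/-- for fixed `A, B, C, D` with `P ^ a ∤ A` there are few `E` -/
theorem disc4_inner (P : Pl F) (h2 : (2 : F) ≠ 0) {a j : ℕ} (hj : 6 * a ≤ j) (h : a ≤ j)
    (A B C D : Rq (P.1 ^ j)) (hA : disc4_red P h A ≠ 0) :
    ((univ : Finset (Rq (P.1 ^ j))).filter (fun E => (⟨A, B, C, D, E⟩ : Q4 _).res.disc = 0)).card ≤
      3 * (Fintype.card F ^ P.1.natDegree) ^ (j - a) := by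
  obtain ⟨A, rfl⟩ := Ideal.Quotient.mk_surjective A
  obtain ⟨B, rfl⟩ := Ideal.Quotient.mk_surjective B
  obtain ⟨C, rfl⟩ := Ideal.Quotient.mk_surjective C
  obtain ⟨D, rfl⟩ := Ideal.Quotient.mk_surjective D
  have hP : Prime P.1 := P.2.2.prime
  have hA' : ¬ P.1 ^ a ∣ A := fun hd => hA (mk_zero.2 hd)
  obtain ⟨e₁, e₂, e₃, he⟩ := disc4_three hP a j hj (256 * A ^ 3)
    (-(192 * A ^ 2 * B * D) - 128 * A ^ 2 * C ^ 2 + 144 * A * B ^ 2 * C - 27 * B ^ 4)
    (144 * A ^ 2 * C * D ^ 2 - 6 * A * B ^ 2 * D ^ 2 - 80 * A * B * C ^ 2 * D + 16 * A * C ^ 4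
      + 18 * B ^ 3 * C * D - 4 * B ^ 2 * C ^ 3)
    (-(27 * A ^ 2 * D ^ 4) + 18 * A * B * C * D ^ 3 - 4 * A * C ^ 3 * D ^ 2 - 4 * B ^ 3 * D ^ 3
      + B ^ 2 * C ^ 2 * D ^ 2) (disc4_lead hP h2 a A hA')
  have hsub : (univ : Finset (Rq (P.1 ^ j))).filter (fun E => (⟨Ideal.Quotient.mk _ A,
      Ideal.Quotient.mk _ B, Ideal.Quotient.mk _ C, Ideal.Quotient.mk _ D, E⟩ : Q4 _).res.disc = 0) ⊆
      (univ.filter (fun x => disc4_red P h x = Ideal.Quotient.mk _ e₁)) ∪
        ((univ.filter (fun x => disc4_red P h x = Ideal.Quotient.mk _ e₂)) ∪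
          (univ.filter (fun x => disc4_red P h x = Ideal.Quotient.mk _ e₃))) := by
    intro E hE
    rw [Finset.mem_filter] at hE
    obtain ⟨E, rfl⟩ := Ideal.Quotient.mk_surjective E
    have h3 : P.1 ^ j ∣ (⟨A, B, C, D, E⟩ : Q4 F[X]).res.disc := by
      rw [← mk_zero]
      have h4 := hE.2
      simp only [Q4.res, Cub.disc] at h4 ⊢
      simp only [map_add, map_sub, map_mul, map_pow, map_neg, map_ofNat]
      exact h4
    have h5 : (⟨A, B, C, D, E⟩ : Q4 F[X]).res.disc = 256 * A ^ 3 * E ^ 3 +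
        (-(192 * A ^ 2 * B * D) - 128 * A ^ 2 * C ^ 2 + 144 * A * B ^ 2 * C - 27 * B ^ 4) * E ^ 2 +
        (144 * A ^ 2 * C * D ^ 2 - 6 * A * B ^ 2 * D ^ 2 - 80 * A * B * C ^ 2 * D + 16 * A * C ^ 4
          + 18 * B ^ 3 * C * D - 4 * B ^ 2 * C ^ 3) * E +
        (-(27 * A ^ 2 * D ^ 4) + 18 * A * B * C * D ^ 3 - 4 * A * C ^ 3 * D ^ 2 - 4 * B ^ 3 * D ^ 3
          + B ^ 2 * C ^ 2 * D ^ 2) := by
      simp only [Q4.res, Cub.disc]
      ring
    rw [h5] at h3
    simp only [Finset.mem_union, Finset.mem_filter, Finset.mem_univ, true_and, disc4_red_mk, mk_eq]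
    exact he E h3
  refine (Finset.card_le_card hsub).trans ?_
  refine (Finset.card_union_le _ _).trans ?_
  refine (Nat.add_le_add_left (Finset.card_union_le _ _) _).trans ?_
  rw [disc4_fib, disc4_fib, disc4_fib]
  omega

end aux

theorem t_disc4 : S_disc4 := by
  intro F _ _ h2 P ε hε
  classical
  set Q : ℕ := Fintype.card F ^ P.1.natDegree with hQ
  have hQ2 : 2 ≤ Q := by
    have h1 : 2 ≤ Fintype.card F := Fintype.one_lt_card
    have h3 : 1 ≤ P.1.natDegree := Nat.one_le_iff_ne_zero.2 fun h0 => by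
      have := P.2.2.natDegree_pos
      omega
    calc 2 ≤ Fintype.card F := h1
      _ = Fintype.card F ^ 1 := (pow_one _).symm
      _ ≤ _ := Nat.pow_le_pow_right (by omega) h3
  have hQR : (1 : ℝ) < Q := by exact_mod_cast (by omega : 1 < Q)
  obtain ⟨a, ha⟩ := pow_unbounded_of_one_lt (4 / ε) hQR
  refine ⟨6 * a, fun j hj => ?_⟩
  have haj : a ≤ j := by omega
  have hcast : ((Fintype.card F : ℝ) ^ P.1.natDegree) = (Q : ℝ) := by rw [hQ]; push_cast; rfl
  rw [hcast]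
  -- the count as a sum
  have hsum : (((univ : Finset (Q4 (Rq (P.1 ^ j)))).filter (fun g => g.res.disc = 0)).card : ℝ) =
      ∑ A : Rq (P.1 ^ j), ∑ B : Rq (P.1 ^ j), ∑ C : Rq (P.1 ^ j), ∑ D : Rq (P.1 ^ j),
        (((univ : Finset (Rq (P.1 ^ j))).filter
          (fun E => (⟨A, B, C, D, E⟩ : Q4 _).res.disc = 0)).card : ℝ) := by
    rw [Finset.card_filter]
    push_cast
    rw [sum_Q4]
    refine Finset.sum_congr rfl fun A _ => Finset.sum_congr rfl fun B _ =>
      Finset.sum_congr rfl fun C _ => Finset.sum_congr rfl fun D _ => ?_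
    rw [Finset.card_filter]
    push_cast
    rfl
  have hcard : (Fintype.card (Rq (P.1 ^ j)) : ℝ) = (Q : ℝ) ^ j := by
    rw [disc4_card, ← hQ]; push_cast; rfl
  have hinner : ∀ A B C D : Rq (P.1 ^ j), (((univ : Finset (Rq (P.1 ^ j))).filter
      (fun E => (⟨A, B, C, D, E⟩ : Q4 _).res.disc = 0)).card : ℝ) ≤
      (if disc4_red P haj A = 0 then (Q : ℝ) ^ j else 0) + 3 * (Q : ℝ) ^ (j - a) := by
    intro A B C D
    by_cases hA : disc4_red P haj A = 0
    · rw [if_pos hA]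
      have h3 : (((univ : Finset (Rq (P.1 ^ j))).filter
          (fun E => (⟨A, B, C, D, E⟩ : Q4 _).res.disc = 0)).card : ℝ) ≤ (Q : ℝ) ^ j := by
        rw [← hcard]
        exact_mod_cast Finset.card_le_univ _
      have : (0 : ℝ) ≤ 3 * (Q : ℝ) ^ (j - a) := by positivity
      linarith
    · rw [if_neg hA, zero_add]
      have := disc4_inner P h2 hj haj A B C D hA
      have h3 : (((univ : Finset (Rq (P.1 ^ j))).filter
          (fun E => (⟨A, B, C, D, E⟩ : Q4 _).res.disc = 0)).card : ℝ) ≤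
          ((3 * (Fintype.card F ^ P.1.natDegree) ^ (j - a) : ℕ) : ℝ) := by exact_mod_cast this
      refine h3.trans (le_of_eq ?_)
      rw [← hQ]; push_cast; rfl
  have hA0 : (∑ A : Rq (P.1 ^ j), (if disc4_red P haj A = 0 then (Q : ℝ) ^ j else 0)) =
      (Q : ℝ) ^ (j - a) * (Q : ℝ) ^ j := by
    rw [← Finset.sum_filter, Finset.sum_const, disc4_fib, nsmul_eq_mul, ← hQ]
    push_cast; rfl
  have hpow : (Q : ℝ) ^ j = (Q : ℝ) ^ a * (Q : ℝ) ^ (j - a) := by
    rw [← pow_add]; congr 1; omega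
  rw [hsum]
  calc _ ≤ ∑ A : Rq (P.1 ^ j), ∑ B : Rq (P.1 ^ j), ∑ C : Rq (P.1 ^ j), ∑ D : Rq (P.1 ^ j),
        ((if disc4_red P haj A = 0 then (Q : ℝ) ^ j else 0) + 3 * (Q : ℝ) ^ (j - a)) :=
        Finset.sum_le_sum fun A _ => Finset.sum_le_sum fun B _ => Finset.sum_le_sum fun C _ =>
          Finset.sum_le_sum fun D _ => hinner A B C D
    _ = ((Q : ℝ) ^ j) ^ 3 * (∑ A : Rq (P.1 ^ j),
        ((if disc4_red P haj A = 0 then (Q : ℝ) ^ j else 0) + 3 * (Q : ℝ) ^ (j - a))) := by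
        simp only [Finset.sum_const, Finset.card_univ, nsmul_eq_mul, hcard]
        rw [Finset.mul_sum]
        refine Finset.sum_congr rfl fun A _ => ?_
        ring
    _ = ((Q : ℝ) ^ j) ^ 3 * ((Q : ℝ) ^ (j - a) * (Q : ℝ) ^ j + (Q : ℝ) ^ j * (3 * (Q : ℝ) ^ (j - a))) := by
        rw [Finset.sum_add_distrib, hA0, Finset.sum_const, Finset.card_univ, nsmul_eq_mul, hcard]
    _ = ((Q : ℝ) ^ j) ^ 4 * (4 * (Q : ℝ) ^ (j - a)) := by ring
    _ ≤ ((Q : ℝ) ^ j) ^ 4 * (ε * (Q : ℝ) ^ j) := by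
        apply mul_le_mul_of_nonneg_left _ (by positivity)
        rw [hpow, ← mul_assoc]
        apply mul_le_mul_of_nonneg_right _ (by positivity)
        rw [div_lt_iff₀ hε] at ha
        linarith
    _ = ε * ((Q : ℝ) ^ j) ^ 5 := by ring

end Pool.Agent.H456.BQ
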