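import Pool.Agent.H456.BQ.Stm

/-!
(S1) `S_euler`. Write `q = #F`, `|f| = q ^ deg f`. For a finite set `S` of places let
`Z_S(M) = Σ_{n ≤ M} a_S(n) x^n`, `a_S(n)` the number of the monic `f` of degree `n` all of whose monic irreducible
factors are in `S`, `x = q⁻²`.  `a_{S ∪ {P}}(n) = a_S(n) + a_{S ∪ {P}}(n - deg P)`, so
`(1 - x^{deg P}) Z_{S ∪ {P}}(M) ≤ Z_S(M)`. By induction `Z_S(M) ∏_{P ∈ S} (1 - x^{deg P}) ≤ 1`.
If `S` contains all places of degree `≤ D` then `Z_S(D) = Σ_{k ≤ D} q^k q^(-2k) = Σ_{k ≤ D} q^(-k)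
= (1 - q^(-D-1)) / (1 - q⁻¹)`. Hence
`∏_{P ∈ S} (1 - |P|⁻²) ≤ (1 - q⁻¹) / (1 - q^(-D-1)) ≤ 1 - q⁻¹ + ε` for large `D`.
(The facts on the sets `euler_SA` follow the library module Pool.Graph.R_seed8.W313.Hyp.Irr.)
-/

set_option autoImplicit false
set_option linter.all false

open Polynomial Finset

namespace Pool.Agent.H456.BQ

section euler

variable {F : Type} [Field F]

/-- the monic polynomials of degree `n` -/
abbrev euler_Mon (F : Type) [Field F] (n : ℕ) : Type := {g : F[X] // g.Monic ∧ g.natDegree = n}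

theorem euler_card_mon [Finite F] (n : ℕ) : Nat.card (euler_Mon F n) = Nat.card F ^ n := by
  have h1 := Nat.card_congr (Polynomial.monicEquivDegreeLT (R := F) n)
  have h2 := Nat.card_congr (Polynomial.degreeLTEquiv F n).toEquiv
  unfold euler_Mon
  rw [h1, h2, Nat.card_fun, Nat.card_eq_fintype_card (α := Fin n), Fintype.card_fin]

theorem euler_finite_mon [Finite F] (n : ℕ) : {g : F[X] | g.Monic ∧ g.natDegree = n}.Finite := by
  have h1 := (Polynomial.monicEquivDegreeLT (R := F) n).trans (Polynomial.degreeLTEquiv F n).toEquiv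
  have h2 : Finite (euler_Mon F n) := Finite.of_equiv _ h1.symm
  exact h2

/-- the monic polynomials of degree `n` all whose prime factors are in `A` -/
def euler_SA (A : Finset (Pl F)) (n : ℕ) : Set F[X] :=
  {g | (g.Monic ∧ g.natDegree = n) ∧ ∀ P : Pl F, P.1 ∣ g → P ∈ A}

theorem euler_SA_finite [Finite F] (A : Finset (Pl F)) (n : ℕ) : (euler_SA A n).Finite :=
  (euler_finite_mon n).subset fun _ hg => hg.1

theorem euler_eq_of_dvd {P Q : Pl F} (h : P.1 ∣ Q.1) : P = Q :=
  Subtype.ext (Polynomial.eq_of_monic_of_associated P.2.1 Q.2.1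
    (P.2.2.associated_of_dvd Q.2.2 h))

theorem euler_exists_Pl {g : F[X]} (hg : g.Monic) (h : 0 < g.natDegree) : ∃ P : Pl F, P.1 ∣ g := by
  have hnu : ¬ IsUnit g := by
    intro hu
    have := Polynomial.natDegree_eq_zero_of_isUnit hu
    omega
  obtain ⟨P, hP, hd⟩ := Polynomial.exists_monic_irreducible_factor g hnu
  exact ⟨⟨P, hP, hd.1⟩, hd.2⟩

theorem euler_SA_empty (n : ℕ) : euler_SA (∅ : Finset (Pl F)) n = if n = 0 then {1} else ∅ := by
  ext g
  constructor
  · rintro ⟨⟨hm, hd⟩, hP⟩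
    by_cases hn : n = 0
    · rw [if_pos hn]
      rw [hn] at hd
      exact hm.natDegree_eq_zero.1 hd
    · exfalso
      obtain ⟨P, hPg⟩ := euler_exists_Pl hm (by omega)
      exact absurd (hP P hPg) (Finset.notMem_empty P)
  · intro h
    by_cases hn : n = 0
    · rw [if_pos hn, Set.mem_singleton_iff] at h
      subst h
      refine ⟨⟨Polynomial.monic_one, by rw [Polynomial.natDegree_one, hn]⟩, fun P hP => ?_⟩
      exact absurd (isUnit_of_dvd_one hP) P.2.2.not_isUnit
    · rw [if_neg hn] at h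
      exact absurd h (Set.notMem_empty g)

theorem euler_SA_insert [DecidableEq (Pl F)] (A : Finset (Pl F)) (P : Pl F) (hP : P ∉ A) (n : ℕ) :
    euler_SA (insert P A) n = euler_SA A n ∪
      (if P.1.natDegree ≤ n then (fun g => P.1 * g) '' euler_SA (insert P A) (n - P.1.natDegree)
        else ∅) := by
  ext g
  constructor
  · rintro ⟨⟨hm, hd⟩, hQ⟩
    by_cases hdiv : P.1 ∣ g
    · right
      obtain ⟨h, rfl⟩ := hdiv
      have hh : h.Monic := Polynomial.Monic.of_mul_monic_left P.2.1 hm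
      have hdeg : (P.1 * h).natDegree = P.1.natDegree + h.natDegree :=
        P.2.1.natDegree_mul hh
      rw [if_pos (by omega)]
      refine ⟨h, ⟨⟨hh, by omega⟩, fun Q hQh => hQ Q (hQh.mul_left _)⟩, rfl⟩
    · left
      refine ⟨⟨hm, hd⟩, fun Q hQg => ?_⟩
      rcases Finset.mem_insert.1 (hQ Q hQg) with h | h
      · rw [h] at hQg
        exact absurd hQg hdiv
      · exact h
  · rintro (h | h)
    · exact ⟨h.1, fun Q hQ => Finset.mem_insert_of_mem (h.2 Q hQ)⟩
    · split_ifs at h with hle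
      · obtain ⟨h, ⟨⟨hm, hd⟩, hQ⟩, rfl⟩ := h
        refine ⟨⟨P.2.1.mul hm, ?_⟩, fun Q hQg => ?_⟩
        · show (P.1 * h).natDegree = n
          rw [P.2.1.natDegree_mul hm]
          omega
        · rcases Q.2.2.prime.dvd_or_dvd hQg with h1 | h1
          · rw [euler_eq_of_dvd h1]
            exact Finset.mem_insert_self _ _
          · exact hQ Q h1
      · exact absurd h (Set.notMem_empty g)

theorem euler_ncard_insert [Finite F] [DecidableEq (Pl F)] (A : Finset (Pl F)) (P : Pl F)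
    (hP : P ∉ A) (n : ℕ) : (euler_SA (insert P A) n).ncard = (euler_SA A n).ncard +
      (if P.1.natDegree ≤ n then (euler_SA (insert P A) (n - P.1.natDegree)).ncard else 0) := by
  have hdisj : Disjoint (euler_SA A n) (if P.1.natDegree ≤ n then
      (fun g => P.1 * g) '' euler_SA (insert P A) (n - P.1.natDegree) else ∅) := by
    rw [Set.disjoint_left]
    intro g hg hg'
    split_ifs at hg' with hle
    · obtain ⟨h, _, rfl⟩ := hg'
      exact hP (hg.2 P (Dvd.intro _ rfl))
    · exact hg'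
  have hfin : (if P.1.natDegree ≤ n then
      (fun g => P.1 * g) '' euler_SA (insert P A) (n - P.1.natDegree) else ∅ : Set F[X]).Finite := by
    split_ifs
    · exact (euler_SA_finite _ _).image _
    · exact Set.finite_empty
  rw [euler_SA_insert A P hP n, Set.ncard_union_eq hdisj (euler_SA_finite _ _) hfin]
  split_ifs with hle
  · rw [Set.ncard_image_of_injective _ (mul_right_injective₀ P.2.1.ne_zero)]
  · rw [Set.ncard_empty]

/-- the truncated zeta function -/
noncomputable def euler_Z (x : ℝ) (A : Finset (Pl F)) (M : ℕ) : ℝ :=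
  ∑ n ∈ range (M + 1), ((euler_SA A n).ncard : ℝ) * x ^ n

theorem euler_Z_nonneg {x : ℝ} (hx : 0 ≤ x) (A : Finset (Pl F)) (M : ℕ) : 0 ≤ euler_Z x A M :=
  Finset.sum_nonneg fun n _ => by positivity

theorem euler_Z_empty (x : ℝ) (M : ℕ) : euler_Z x (∅ : Finset (Pl F)) M = 1 := by
  unfold euler_Z
  rw [Finset.sum_eq_single 0]
  · rw [euler_SA_empty, if_pos rfl, Set.ncard_singleton]
    simp
  · intro n _ hn
    rw [euler_SA_empty, if_neg hn, Set.ncard_empty]
    simp
  · intro h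
    exact absurd (Finset.mem_range.2 (Nat.succ_pos M)) h

theorem euler_Z_insert [Finite F] [DecidableEq (Pl F)] {x : ℝ} (hx : 0 ≤ x) (A : Finset (Pl F))
    (P : Pl F) (hP : P ∉ A) (M : ℕ) :
    (1 - x ^ P.1.natDegree) * euler_Z x (insert P A) M ≤ euler_Z x A M := by
  have h1 : euler_Z x (insert P A) M = euler_Z x A M +
      ∑ n ∈ range (M + 1), (if P.1.natDegree ≤ n then
        ((euler_SA (insert P A) (n - P.1.natDegree)).ncard : ℝ) * x ^ n else 0) := by
    unfold euler_Z
    rw [← Finset.sum_add_distrib]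
    refine Finset.sum_congr rfl fun n _ => ?_
    rw [euler_ncard_insert A P hP n]
    split_ifs with h
    · push_cast
      ring
    · push_cast
      ring
  have h2 : ∑ n ∈ range (M + 1), (if P.1.natDegree ≤ n then
        ((euler_SA (insert P A) (n - P.1.natDegree)).ncard : ℝ) * x ^ n else 0) ≤
      x ^ P.1.natDegree * euler_Z x (insert P A) M := by
    unfold euler_Z
    rw [← Finset.sum_filter, Finset.mul_sum]
    have h3 : ∑ n ∈ (range (M + 1)).filter (fun n => P.1.natDegree ≤ n),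
        ((euler_SA (insert P A) (n - P.1.natDegree)).ncard : ℝ) * x ^ n =
        ∑ n ∈ ((range (M + 1)).filter (fun n => P.1.natDegree ≤ n)).image
          (fun n => n - P.1.natDegree),
          x ^ P.1.natDegree * (((euler_SA (insert P A) n).ncard : ℝ) * x ^ n) := by
      rw [Finset.sum_image]
      · refine Finset.sum_congr rfl fun n hn => ?_
        have hle := (Finset.mem_filter.1 hn).2
        have h4 : x ^ n = x ^ P.1.natDegree * x ^ (n - P.1.natDegree) := by
          rw [← pow_add]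
          congr 1
          omega
        rw [h4]
        ring
      · intro a ha b hb hab
        have h1 := (Finset.mem_filter.1 (Finset.mem_coe.1 ha)).2
        have h2 := (Finset.mem_filter.1 (Finset.mem_coe.1 hb)).2
        simp only at hab
        omega
    rw [h3]
    refine Finset.sum_le_sum_of_subset_of_nonneg ?_ fun n _ _ => by positivity
    intro n hn
    obtain ⟨m, hm, rfl⟩ := Finset.mem_image.1 hn
    have h5 := Finset.mem_range.1 (Finset.mem_filter.1 hm).1
    exact Finset.mem_range.2 (by omega)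
  nlinarith

theorem euler_prod [Finite F] {x : ℝ} (hx : 0 ≤ x) (hx1 : x ≤ 1) (A : Finset (Pl F)) (M : ℕ) :
    (∏ P ∈ A, (1 - x ^ P.1.natDegree)) * euler_Z x A M ≤ 1 := by
  classical
  induction A using Finset.induction_on with
  | empty => rw [Finset.prod_empty, one_mul, euler_Z_empty]
  | insert P A hP ih =>
    rw [Finset.prod_insert hP]
    have h0 : 0 ≤ ∏ P ∈ A, (1 - x ^ P.1.natDegree) :=
      Finset.prod_nonneg fun Q _ => sub_nonneg.2 (pow_le_one₀ hx hx1)
    calc (1 - x ^ P.1.natDegree) * (∏ P ∈ A, (1 - x ^ P.1.natDegree)) * euler_Z x (insert P A) M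
        = (∏ P ∈ A, (1 - x ^ P.1.natDegree)) *
          ((1 - x ^ P.1.natDegree) * euler_Z x (insert P A) M) := by ring
      _ ≤ (∏ P ∈ A, (1 - x ^ P.1.natDegree)) * euler_Z x A M :=
          mul_le_mul_of_nonneg_left (euler_Z_insert hx A P hP M) h0
      _ ≤ 1 := ih

theorem euler_Z_full [Finite F] (x : ℝ) (A : Finset (Pl F)) (D : ℕ)
    (hA : ∀ P : Pl F, P.1.natDegree ≤ D → P ∈ A) :
    euler_Z x A D = ∑ n ∈ range (D + 1), ((Nat.card F : ℝ) * x) ^ n := by
  unfold euler_Z
  refine Finset.sum_congr rfl fun n hn => ?_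
  have hn' : n ≤ D := by
    have := Finset.mem_range.1 hn
    omega
  have h1 : euler_SA A n = {g : F[X] | g.Monic ∧ g.natDegree = n} := by
    ext g
    refine ⟨fun h => h.1, fun h => ⟨h, fun P hP => hA P ?_⟩⟩
    have := Polynomial.natDegree_le_of_dvd hP h.1.ne_zero
    have h2 := h.2
    omega
  have h2 : ({g : F[X] | g.Monic ∧ g.natDegree = n}).ncard = Nat.card (euler_Mon F n) := rfl
  rw [h1, h2, euler_card_mon, mul_pow]
  push_cast
  ring

end euler

theorem t_euler : S_euler := by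
  intro F _ _ ε hε
  have hq2 : (2 : ℝ) ≤ Fintype.card F := by
    have : 1 < Fintype.card F := Fintype.one_lt_card
    exact_mod_cast this
  set q : ℝ := (Fintype.card F : ℝ) with hq
  have hq0 : 0 < q := by linarith
  have hqi : q⁻¹ ≤ 1 / 2 := by
    rw [one_div]
    exact inv_anti₀ (by norm_num) hq2
  have hqi0 : 0 < q⁻¹ := inv_pos.2 hq0
  obtain ⟨D, hD⟩ := exists_pow_lt_of_lt_one (show 0 < ε / (1 + ε) by positivity)
    (show q⁻¹ < 1 by linarith)
  refine ⟨D, fun S hS => ?_⟩
  set x : ℝ := (q ^ 2)⁻¹ with hx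
  have hx0 : 0 ≤ x := by positivity
  have hx1 : x ≤ 1 := inv_le_one_of_one_le₀ (one_le_pow₀ (by linarith))
  have h1 : ∏ P ∈ S, (1 - (q ^ (2 * P.1.natDegree))⁻¹) = ∏ P ∈ S, (1 - x ^ P.1.natDegree) := by
    refine Finset.prod_congr rfl fun P _ => ?_
    rw [hx, inv_pow, ← pow_mul]
  rw [h1]
  have h2 := euler_prod hx0 hx1 S D
  rw [euler_Z_full x S D hS] at h2
  have h3 : (Nat.card F : ℝ) * x = q⁻¹ := by
    rw [Nat.card_eq_fintype_card, ← hq, hx]
    field_simp
  rw [h3] at h2
  have h4 : (1 - q⁻¹) * ∑ n ∈ range (D + 1), q⁻¹ ^ n = 1 - q⁻¹ ^ (D + 1) := by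
    have := mul_neg_geom_sum q⁻¹ (D + 1)
    exact this
  set Pr : ℝ := ∏ P ∈ S, (1 - x ^ P.1.natDegree) with hPr
  have hP0 : 0 ≤ Pr := Finset.prod_nonneg fun Q _ => sub_nonneg.2 (pow_le_one₀ hx0 hx1)
  have hP1 : Pr ≤ 1 := Finset.prod_le_one (fun Q _ => sub_nonneg.2 (pow_le_one₀ hx0 hx1))
    fun Q _ => by
      have : 0 ≤ x ^ Q.1.natDegree := pow_nonneg hx0 _
      linarith
  have h5 : Pr * (1 - q⁻¹ ^ (D + 1)) ≤ 1 - q⁻¹ := by
    rw [← h4]
    have h6 := mul_le_mul_of_nonneg_left h2 (show 0 ≤ 1 - q⁻¹ by linarith)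
    calc Pr * ((1 - q⁻¹) * ∑ n ∈ range (D + 1), q⁻¹ ^ n)
        = (1 - q⁻¹) * (Pr * ∑ n ∈ range (D + 1), q⁻¹ ^ n) := by ring
      _ ≤ (1 - q⁻¹) * 1 := h6
      _ = 1 - q⁻¹ := mul_one _
  have h7 : q⁻¹ ^ (D + 1) ≤ ε := by
    have h8 : q⁻¹ ^ (D + 1) ≤ q⁻¹ ^ D := pow_le_pow_of_le_one hqi0.le (by linarith) (by omega)
    have h9 : ε / (1 + ε) ≤ ε := div_le_self hε.le (by linarith)
    linarith
  have h10 : 0 ≤ q⁻¹ ^ (D + 1) := by positivity
  nlinarith

end Pool.Agent.H456.BQ
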