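import Pool.Agent.H456.BQ.Stm2

/-!
(G2) `S_hnf`. Column operations over the DVR `O` (uniformizer `π`; `Lc.pow`: every nonzero element is `unit * π ^ k`, so
of two elements one divides the other; every element of `L` is `x / π ^ m`, `x ∈ O`). `N = (α β; γ δ)`; after a column
operation `V₁ ∈ GL₂(O)` one has `γ = 0` (if `γ ∣ δ`-type case distinction, possibly swapping the columns), and after
multiplying the columns by units `α = P^a`, `δ = P^b` (`a b : ℤ`; `ι P = unit * π` because `π ∣ ι P`, `¬ π² ∣ ι P`, by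
`Lc.dvd`). Adding a multiple (in `O`) of the first column to the second changes `β` by an element of `P^a O`; write
`β = β₀ / P^m` with `β₀ ∈ O`, `m : ℕ` large, and choose `y ∈ F[X]` with `π^(m + |a|) ∣ β₀ - ι y` (`Lc.dense`). So
`N V = (P^a, y / P^m; 0, P^b)` for some `V ∈ GL₂(O)`, and this matrix is the image of a matrix over `F(t)`.
You may take the constant `c = 1` in `LEq`.
-/

set_option autoImplicit false
set_option linter.all false

open Polynomial Finset
open Pool.Agent.H456.EC (toK toK_inj sig toK_eq reflect_toK)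

namespace Pool.Agent.H456.BQ

section hnf_aux

variable {F : Type} [Field F] {O L : Type} [CommRing O] [IsDomain O] [Field L] [Algebra O L]
  [IsFractionRing O L] {π : O} {ι : F[X] →+* O}

/-- elements of the form `1 + π w` are units -/
theorem hnf_unit {P : F[X]} (h : Lc P π ι) (w : O) : IsUnit (1 + π * w) := by
  have hne : 1 + π * w ≠ 0 := by
    intro h0
    apply h.nonunit
    refine isUnit_of_dvd_one ⟨-w, ?_⟩
    linear_combination h0
  obtain ⟨k, u, hu, hk⟩ := h.pow _ hne
  rcases Nat.eq_zero_or_pos k with h0 | h0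
  · rw [hk, h0, pow_zero, mul_one]; exact hu
  · exfalso
    apply h.nonunit
    obtain ⟨l, rfl⟩ : ∃ l, k = l + 1 := ⟨k - 1, by omega⟩
    refine isUnit_of_dvd_one ⟨u * π ^ l - w, ?_⟩
    have : 1 + π * w = u * π ^ (l + 1) := hk
    rw [pow_succ] at this
    linear_combination this

/-- `ι P` is a unit times `π` -/
theorem hnf_P (P : Pl F) (h : Lc P.1 π ι) : ∃ u : O, IsUnit u ∧ ι P.1 = u * π := by
  have hP2 : ¬ P.1 ^ 2 ∣ P.1 := by
    intro hd
    obtain ⟨c, hc⟩ := hd
    apply P.2.2.not_isUnit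
    refine isUnit_of_dvd_one ⟨c, ?_⟩
    have hne : P.1 ≠ 0 := P.2.2.ne_zero
    apply mul_left_cancel₀ hne
    linear_combination hc
  have hne : ι P.1 ≠ 0 := by
    intro h0
    apply hP2
    rw [← h.dvd, h0]
    exact dvd_zero _
  obtain ⟨k, u, hu, hk⟩ := h.pow _ hne
  refine ⟨u, hu, ?_⟩
  have h1 : π ^ 1 ∣ ι P.1 := (h.dvd 1 P.1).mpr (by rw [pow_one])
  have hk1 : k = 1 := by
    rcases Nat.lt_trichotomy k 1 with h2 | h2 | h2
    · exfalso
      have h3 : k = 0 := by omega
      rw [h3, pow_zero, mul_one] at hk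
      rw [hk, pow_one] at h1
      exact h.nonunit (isUnit_of_dvd_unit h1 hu)
    · exact h2
    · exfalso
      apply hP2
      rw [← h.dvd, hk]
      exact (pow_dvd_pow π h2).mul_left u
  rw [hk, hk1, pow_one]

theorem hnf_pi_ne {P : F[X]} (h : Lc P π ι) : algebraMap O L π ≠ 0 := by
  intro h0
  exact h.ne ((IsFractionRing.injective O L) (by rw [h0, map_zero]))

theorem hnf_frac {P : F[X]} (h : Lc P π ι) (x : L) :
    ∃ (k : ℕ) (a : O), x * algebraMap O L π ^ k = algebraMap O L a := by
  obtain ⟨a, b, hb, rfl⟩ := IsFractionRing.div_surjective (A := O) x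
  have hb0 : b ≠ 0 := nonZeroDivisors.ne_zero hb
  obtain ⟨k, u, hu, hk⟩ := h.pow b hb0
  obtain ⟨v, rfl⟩ := hu
  refine ⟨k, a * ((v⁻¹ : Oˣ) : O), ?_⟩
  have hbL : algebraMap O L b ≠ 0 := by
    intro h0
    exact hb0 ((IsFractionRing.injective O L) (by rw [h0, map_zero]))
  rw [div_mul_eq_mul_div, div_eq_iff hbL, hk, ← map_pow, ← map_mul, ← map_mul]
  congr 1
  have h2 : ((v⁻¹ : Oˣ) : O) * (v : O) = 1 := v.inv_mul
  linear_combination (-(a * π ^ k)) * h2

theorem hnf_frac' {P : F[X]} (h : Lc P π ι) (x : L) (k K : ℕ) (hk : k ≤ K) (a : O)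
    (ha : x * algebraMap O L π ^ k = algebraMap O L a) :
    x * algebraMap O L π ^ K = algebraMap O L (a * π ^ (K - k)) := by
  rw [map_mul, ← ha, map_pow, mul_assoc, ← pow_add]
  congr 2
  omega

theorem hnf_dense (P : Pl F) (h : Lc P.1 π ι) (j : RatFunc F →+* L)
    (hj : ∀ x : F[X], j (toK F x) = algebraMap O L (ι x)) (x : L) (m : ℕ) :
    ∃ (r : RatFunc F) (z : O), x - j r = algebraMap O L (π ^ m * z) := by
  obtain ⟨k, a, ha⟩ := hnf_frac (L := L) h x
  obtain ⟨u, hu, hP⟩ := hnf_P P h
  obtain ⟨v, rfl⟩ := hu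
  obtain ⟨y, w, hw⟩ := h.dense (m + k) (a * (v : O) ^ k)
  refine ⟨toK F y / toK F P.1 ^ k, w * ((v⁻¹ : Oˣ) : O) ^ k, ?_⟩
  have hv0 : algebraMap O L (v : O) ≠ 0 := by
    intro h0
    exact v.ne_zero ((IsFractionRing.injective O L) (by rw [h0, map_zero]))
  have hpi : algebraMap O L π ≠ 0 := hnf_pi_ne h
  rw [map_div₀, map_pow, hj, hj, hP]
  have hvk : algebraMap O L (v : O) ^ k * algebraMap O L ((v⁻¹ : Oˣ) : O) ^ k = 1 := by
    rw [← mul_pow, ← map_mul, v.mul_inv, map_one, one_pow]
  have hw' := congrArg (algebraMap O L) hw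
  simp only [map_sub, map_mul, map_pow, pow_add] at hw' ⊢
  rw [← ha] at hw'
  have hden : (algebraMap O L (v : O) * algebraMap O L π) ^ k ≠ 0 := pow_ne_zero _
    (mul_ne_zero hv0 hpi)
  apply mul_right_cancel₀ hden
  rw [sub_mul, div_mul_cancel₀ _ hden, mul_pow]
  linear_combination hw' - (algebraMap O L π ^ m * algebraMap O L π ^ k * algebraMap O L w) * hvk

end hnf_aux

theorem t_hnf : S_hnf := by
  intro F _ P O L _ _ _ _ _ π ι h j hj N hN
  have hD : N.α * N.δ - N.β * N.γ ≠ 0 := hN
  set D : L := N.α * N.δ - N.β * N.γ with hDdef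
  obtain ⟨k1, a1, h1⟩ := hnf_frac (L := L) h (N.δ / D)
  obtain ⟨k2, a2, h2⟩ := hnf_frac (L := L) h (-N.β / D)
  obtain ⟨k3, a3, h3⟩ := hnf_frac (L := L) h (-N.γ / D)
  obtain ⟨k4, a4, h4⟩ := hnf_frac (L := L) h (N.α / D)
  set K : ℕ := k1 + k2 + k3 + k4 with hK
  have g1 := hnf_frac' h _ k1 K (by omega) a1 h1
  have g2 := hnf_frac' h _ k2 K (by omega) a2 h2
  have g3 := hnf_frac' h _ k3 K (by omega) a3 h3
  have g4 := hnf_frac' h _ k4 K (by omega) a4 h4
  set A1 := a1 * π ^ (K - k1)
  set A2 := a2 * π ^ (K - k2)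
  set A3 := a3 * π ^ (K - k3)
  set A4 := a4 * π ^ (K - k4)
  obtain ⟨rα, zα, eα⟩ := hnf_dense P h j hj N.α (K + 1)
  obtain ⟨rβ, zβ, eβ⟩ := hnf_dense P h j hj N.β (K + 1)
  obtain ⟨rγ, zγ, eγ⟩ := hnf_dense P h j hj N.γ (K + 1)
  obtain ⟨rδ, zδ, eδ⟩ := hnf_dense P h j hj N.δ (K + 1)
  set V : M2 O := ⟨1 - π * (A1 * zα + A2 * zγ), -(π * (A1 * zβ + A2 * zδ)),
    -(π * (A3 * zα + A4 * zγ)), 1 - π * (A3 * zβ + A4 * zδ)⟩ with hV
  have hVu : IsUnit V.det := by
    have e : V.det = 1 + π * (-(A1 * zα + A2 * zγ) - (A3 * zβ + A4 * zδ) +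
        π * ((A1 * zα + A2 * zγ) * (A3 * zβ + A4 * zδ) -
          (A1 * zβ + A2 * zδ) * (A3 * zα + A4 * zγ))) := by
      simp only [M2.det, hV]
      ring
    rw [e]
    exact hnf_unit h _
  have hVne : algebraMap O L V.det ≠ 0 := by
    intro h0
    exact hVu.ne_zero ((IsFractionRing.injective O L) (by rw [h0, map_zero]))
  set N' : M2 (RatFunc F) := ⟨rα, rβ, rγ, rδ⟩ with hN'
  have hpi : algebraMap O L π ≠ 0 := hnf_pi_ne h
  have key : N'.map j = N.mul (V.map (algebraMap O L)) := by
    simp only [map_mul, map_pow, pow_succ] at eα eβ eγ eδ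
    have q : ∀ x y : L, x * algebraMap O L π ^ K * (algebraMap O L π * y) =
      x * (algebraMap O L π ^ K * algebraMap O L π * y) := fun x y => by ring
    have c1 : ∀ x y z w E1 E2 : L, D * x = D * y → x = y := fun x y _ _ _ _ hxy =>
      mul_left_cancel₀ hD hxy
    have m1 : D * (N.δ / D * algebraMap O L π ^ K) = N.δ * algebraMap O L π ^ K := by
      field_simp
    have m2 : D * (-N.β / D * algebraMap O L π ^ K) = -N.β * algebraMap O L π ^ K := by
      field_simp
    have m3 : D * (-N.γ / D * algebraMap O L π ^ K) = -N.γ * algebraMap O L π ^ K := by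
      field_simp
    have m4 : D * (N.α / D * algebraMap O L π ^ K) = N.α * algebraMap O L π ^ K := by
      field_simp
    rw [g1] at m1
    rw [g2] at m2
    rw [g3] at m3
    rw [g4] at m4
    have jα : j rα = N.α - algebraMap O L π ^ K * algebraMap O L π * algebraMap O L zα := by
      linear_combination -eα
    have jβ : j rβ = N.β - algebraMap O L π ^ K * algebraMap O L π * algebraMap O L zβ := by
      linear_combination -eβ
    have jγ : j rγ = N.γ - algebraMap O L π ^ K * algebraMap O L π * algebraMap O L zγ := by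
      linear_combination -eγ
    have jδ : j rδ = N.δ - algebraMap O L π ^ K * algebraMap O L π * algebraMap O L zδ := by
      linear_combination -eδ
    ext
    · simp only [M2.map, M2.mul, hV, hN', map_sub, map_neg, map_one, map_mul, map_add]
      rw [jα]
      apply mul_left_cancel₀ hD
      linear_combination (algebraMap O L π * (N.α * algebraMap O L zα)) * m1 +
        (algebraMap O L π * (N.α * algebraMap O L zγ)) * m2 +
        (algebraMap O L π * (N.β * algebraMap O L zα)) * m3 +
        (algebraMap O L π * (N.β * algebraMap O L zγ)) * m4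
    · simp only [M2.map, M2.mul, hV, hN', map_sub, map_neg, map_one, map_mul, map_add]
      rw [jβ]
      apply mul_left_cancel₀ hD
      linear_combination (algebraMap O L π * (N.α * algebraMap O L zβ)) * m1 +
        (algebraMap O L π * (N.α * algebraMap O L zδ)) * m2 +
        (algebraMap O L π * (N.β * algebraMap O L zβ)) * m3 +
        (algebraMap O L π * (N.β * algebraMap O L zδ)) * m4
    · simp only [M2.map, M2.mul, hV, hN', map_sub, map_neg, map_one, map_mul, map_add]
      rw [jγ]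
      apply mul_left_cancel₀ hD
      linear_combination (algebraMap O L π * (N.γ * algebraMap O L zα)) * m1 +
        (algebraMap O L π * (N.γ * algebraMap O L zγ)) * m2 +
        (algebraMap O L π * (N.δ * algebraMap O L zα)) * m3 +
        (algebraMap O L π * (N.δ * algebraMap O L zγ)) * m4
    · simp only [M2.map, M2.mul, hV, hN', map_sub, map_neg, map_one, map_mul, map_add]
      rw [jδ]
      apply mul_left_cancel₀ hD
      linear_combination (algebraMap O L π * (N.γ * algebraMap O L zβ)) * m1 +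
        (algebraMap O L π * (N.γ * algebraMap O L zδ)) * m2 +
        (algebraMap O L π * (N.δ * algebraMap O L zβ)) * m3 +
        (algebraMap O L π * (N.δ * algebraMap O L zδ)) * m4
  refine ⟨N', ?_, 1, V, one_ne_zero, hVu, ?_⟩
  · intro h0
    have e1 : (N'.map j).det = N.det * algebraMap O L V.det := by
      rw [key, M2.det_mul, M2.map_det]
    rw [M2.map_det, h0, map_zero] at e1
    exact (mul_ne_zero hN hVne) e1.symm
  · rw [key]
    ext <;> simp [M2.scal]

end Pool.Agent.H456.BQ

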