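import Pool.Agent.H456.BQ.Stm3

/-!
(J1) `S_latA` from `S_adj` (helper287).
-/

set_option autoImplicit false
set_option linter.all false

open Polynomial Finset
open Pool.Agent.H456.EC (toK toK_inj sig toK_eq reflect_toK)

namespace Pool.Agent.H456.BQ

section latA

variable {F : Type} [Field F]

/-- all coefficients are integral at `P` -/
def latA_Int (P : Pl F) (g : Q4 (RatFunc F)) : Prop :=
  g.A ∈ LocP P ∧ g.B ∈ LocP P ∧ g.C ∈ LocP P ∧ g.D ∈ LocP P ∧ g.E ∈ LocP P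

theorem latA_toK (P : Pl F) (a : F[X]) : toK F a ∈ LocP P :=
  mem_LocP.2 ⟨a, 1, fun h => P.2.2.not_isUnit (isUnit_of_dvd_one h), by rw [map_one, one_mul]⟩

theorem latA_locI {P : Pl F} {x : RatFunc F} {a : F[X]} (h : LocI P (x - toK F a)) : x ∈ LocP P := by
  obtain ⟨c, b, hb, e⟩ := h
  have h1 : x - toK F a ∈ LocP P := mem_LocP.2 ⟨P.1 * c, b, hb, e⟩
  have h2 := (LocP P).add_mem h1 (latA_toK P a)
  rwa [sub_add_cancel] at h2

theorem latA_red {P : Pl F} {g : Q4 (RatFunc F)} {H : Q4 F[X]} (h : RedTo P g H) : latA_Int P g :=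
  ⟨latA_locI h.1, latA_locI h.2.1, latA_locI h.2.2.1, latA_locI h.2.2.2.1, latA_locI h.2.2.2.2⟩

theorem latA_pol (P : Pl F) (G : Q4 F[X]) : latA_Int P (G.map (toK F)) :=
  ⟨latA_toK P _, latA_toK P _, latA_toK P _, latA_toK P _, latA_toK P _⟩

/-- an element which is integral everywhere is a polynomial -/
theorem latA_glob {x : RatFunc F} (h : ∀ P : Pl F, x ∈ LocP P) : ∃ p : F[X], toK F p = x := by
  obtain ⟨p, q, hq, hpq, e⟩ := frac_toK x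
  by_cases h1 : q = 1
  · refine ⟨p, ?_⟩
    rw [← e, h1, map_one, one_mul]
  · exfalso
    have hu : ¬ IsUnit q := fun hu => h1 (hq.eq_one_of_isUnit hu)
    obtain ⟨Q, hQm, hQi, hQd⟩ := Polynomial.exists_monic_irreducible_factor q hu
    obtain ⟨a, b, hb, e'⟩ := mem_LocP.1 (h ⟨Q, hQm, hQi⟩)
    have e2 : b * p = q * a := by
      apply toK_inj (F := F)
      rw [map_mul, map_mul, ← e, ← e']
      ring
    have h3 : Q ∣ b * p := by
      rw [e2]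
      exact hQd.mul_right a
    rcases hQi.prime.dvd_or_dvd h3 with h4 | h4
    · exact hb h4
    · exact hQi.not_isUnit (hpq.isUnit_of_dvd' h4 hQd)

/-- integrality does not depend on the basis of the lattice -/
theorem latA_step {P : Pl F} {q g : Q4 (RatFunc F)} {N' N : M2 (RatFunc F)} (hN' : N'.det ≠ 0)
    (h : q.sub N' = g.smul (N'.det ^ 2)) (hg : latA_Int P g) (hL : LEq (LocP P) N' N) :
    latA_Int P ((q.sub N).smul ((N.det ^ 2)⁻¹)) := by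
  obtain ⟨c, V, hc, hV, rfl⟩ := hL
  obtain ⟨u, hu⟩ := hV
  obtain ⟨a1, a2, a3, a4, a5⟩ := hg
  obtain ⟨g3, hg3⟩ : ∃ g3 : Q4 (LocP P), g3.map (algebraMap (LocP P) (RatFunc F)) = g :=
    ⟨⟨⟨_, a1⟩, ⟨_, a2⟩, ⟨_, a3⟩, ⟨_, a4⟩, ⟨_, a5⟩⟩, rfl⟩
  obtain ⟨d, hd⟩ : ∃ d, d = algebraMap (LocP P) (RatFunc F) ↑u := ⟨_, rfl⟩
  obtain ⟨d', hd'⟩ : ∃ d', d' = algebraMap (LocP P) (RatFunc F) ↑u⁻¹ := ⟨_, rfl⟩
  have hdd : d * d' = 1 := by
    rw [hd, hd', ← map_mul, Units.mul_inv, map_one]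
  have hd0 : d ≠ 0 := left_ne_zero_of_mul_eq_one hdd
  have hinv : d⁻¹ = d' := by
    rw [inv_eq_iff_eq_inv, eq_comm, inv_eq_iff_eq_inv]
    exact eq_inv_of_mul_eq_one_right hdd
  have e1 : (q.sub ((N'.mul (V.map (algebraMap (LocP P) (RatFunc F)))).scal c)).smul
      ((((N'.mul (V.map (algebraMap (LocP P) (RatFunc F)))).scal c).det ^ 2)⁻¹) =
      ((g3.sub V).smul ((↑u⁻¹ : LocP P) ^ 2)).map (algebraMap (LocP P) (RatFunc F)) := by
    rw [Q4.map_smul, Q4.map_sub, hg3, map_pow, ← hd', Q4.sub_scal, ← Q4.sub_mul, h, Q4.smul_sub,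
      Q4.smul_smul, Q4.smul_smul, M2.det_scal, M2.det_mul, M2.map_det, ← hu, ← hd, ← hinv]
    congr 1
    field_simp
  rw [e1]
  exact ⟨Subtype.mem _, Subtype.mem _, Subtype.mem _, Subtype.mem _, Subtype.mem _⟩

theorem latA_glue (hadj : S_adj) (N₀ : M2 (RatFunc F)) (hN₀ : N₀.det ≠ 0) (Λ : Pl F → M2 (RatFunc F))
    (S : Finset (Pl F)) : (∀ P ∈ S, (Λ P).det ≠ 0) → ∃ N : M2 (RatFunc F), N.det ≠ 0 ∧
      (∀ P ∈ S, LEq (LocP P) N (Λ P)) ∧ ∀ Q, Q ∉ S → LEq (LocP Q) N₀ N := by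
  classical
  refine Finset.induction_on S ?_ ?_
  · intro _
    exact ⟨N₀, hN₀, fun P hP => absurd hP (Finset.notMem_empty P), fun Q _ => LEq.refl N₀⟩
  · intro P T hPT ih hΛ
    obtain ⟨N, h1, h2, h3⟩ := ih (fun Q hQ => hΛ Q (Finset.mem_insert_of_mem hQ))
    obtain ⟨N'', k1, k2, k3⟩ := hadj F P N (Λ P) h1 (hΛ P (Finset.mem_insert_self P T))
    refine ⟨N'', k1, ?_, ?_⟩
    · intro Q hQ
      rcases Finset.mem_insert.1 hQ with rfl | hQ'
      · exact k2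
      · have hne : Q ≠ P := by
          rintro rfl
          exact hPT hQ'
        exact (k3 Q hne).symm.trans (h2 Q hQ')
    · intro Q hQ
      rw [Finset.mem_insert, not_or] at hQ
      exact (h3 Q hQ.2).trans (k3 Q hQ.1)

end latA

theorem t_latA : S_adj → S_latA := by
  intro hadj F _ f x₀ y₀ hxy S Λ g H hS
  obtain ⟨s, n, G₀, hs, -, -, -, h5⟩ := canon (toK F) toK_inj frac_toK f hxy
  have hsK : toK F s ≠ 0 := (map_ne_zero_iff _ toK_inj).2 hs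
  obtain ⟨N₀, hN₀⟩ : ∃ N₀ : M2 (RatFunc F), N₀ = ⟨toK F s, -(toK F n / toK F s), 0, 1⟩ := ⟨_, rfl⟩
  have hdet : N₀.det = toK F s := by
    rw [hN₀]
    simp only [M2.det]
    ring
  rw [← hN₀, ← hdet] at h5
  obtain ⟨N, h1, h2, h3⟩ := latA_glue hadj N₀ (by rw [hdet]; exact hsK) Λ S (fun P hP => (hS P hP).1)
  have hint : ∀ Q : Pl F, latA_Int Q (((gp (f.map (toK F)) x₀ y₀).sub N).smul ((N.det ^ 2)⁻¹)) := by
    intro Q
    by_cases hQ : Q ∈ S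
    · obtain ⟨k1, k2, k3⟩ := hS Q hQ
      exact latA_step k1 k2 (latA_red k3) (h2 Q hQ).symm
    · exact latA_step (by rw [hdet]; exact hsK) h5 (latA_pol Q G₀) (h3 Q hQ)
  obtain ⟨pA, hA⟩ := latA_glob (fun Q => (hint Q).1)
  obtain ⟨pB, hB⟩ := latA_glob (fun Q => (hint Q).2.1)
  obtain ⟨pC, hC⟩ := latA_glob (fun Q => (hint Q).2.2.1)
  obtain ⟨pD, hD⟩ := latA_glob (fun Q => (hint Q).2.2.2.1)
  obtain ⟨pE, hE⟩ := latA_glob (fun Q => (hint Q).2.2.2.2)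
  refine ⟨N, ⟨pA, pB, pC, pD, pE⟩, h1, ?_, h2⟩
  have e : (⟨pA, pB, pC, pD, pE⟩ : Q4 F[X]).map (toK F) =
      ((gp (f.map (toK F)) x₀ y₀).sub N).smul ((N.det ^ 2)⁻¹) := by
    ext
    · exact hA
    · exact hB
    · exact hC
    · exact hD
    · exact hE
  rw [e, Q4.smul_smul, inv_mul_cancel₀ (pow_ne_zero 2 h1), Q4.smul_one]

end Pool.Agent.H456.BQ
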