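import Pool.Agent.H456.BQ.Stm

/-!
(S7) assembly of `S_loc` from `S_pts`, `S_sep`, `S_can` (proved by others; take them as hypotheses, as stated).
`f̂ = f.map ι`, points over `L`. (1) `S_pts` gives `n` and the sets `U i`. (2) For `X = (x, y)` (in `O`, mapped to `L`) with
`x ≠ x₀` put `h = (y + y₀)/(x - x₀)`, `z = 2x - h² + x₀ + a`; then `z² = gp(h, 1)` (field_simp + linear_combination).
`z = 0` only for finitely many `x` (`h` is then a root of the quartic `gp(h,1)`, monic of degree 4, and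
`2x = h² - x₀ - a`); for a given point `X'`, `h = h'` forces `x = x'` or `x = h'² - x₀ - a - x'`
(both satisfy the quadratic of `quad_of_quartic`). So one can choose successively `p_i ∈ U i` (`i : Fin n`; the
projections are infinite) with `x_i ≠ x₀`, `z_i ≠ 0`, `x_i ≠ x_j`, `h_i ≠ h_j` for `i ≠ j`.
(3) Let `(N_i, G_i, s_i, n_i, k_i)` be given by `S_can` for `(h_i, z_i)`, and `(N_∞, ...)` for the second part: `n + 1`
data. (4) For two of them the quantity `D` of `S_sep` is in `O`: by homogeneity `D` is the same expression with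
`(h, 1), z` and `(h', 1), z'`, and it equals `l² - a - x - x'` where `l (x - x') = y + y'`, `l ∈ O` by `S_pts`
(identity checked numerically: `[gp.pol h 1 h' 1 + z z'] / (2 (h - h')²) + x₀ = ((y+y')/(x-x'))² - a - x - x'`,
prove it by field_simp and linear_combination using `y² = f(x)`, `y'² = f(x')`, `y₀² = f(x₀)`); for `(1, 0), w = 1` and
`(h, 1), z` it equals `x`.
(5) Choose representatives of the classes of `LEq O` among the `n + 1` matrices (an equivalence relation). For each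
datum `i` with representative `r`, `N_i = (N_r.mul V).scal c`; comparing `Cn.sub`: `G_i det(V)² = G_r.sub V`; the first
column `(α, γ)` of `V` and `ζ = s_i det V` satisfy `ζ² = G_r.ev α γ`; modulo `π` this is a SMOOTH point of `z² = Ḡ_r(u,v)`:
if `π ∤ γ` it is `(u, z) = (α/γ, ζ/γ²)`, else the point at infinity with `z = ζ/α²`. Smoothness: if `π ∣ ζ` then `π ∣ s_i`, so
`n_i` is a unit, `G_i.B = -4 n_i` is a unit and `G_i.B det(V)² = (∂_u G_r β + ∂_v G_r δ)(α, γ)`, while
`α ∂_u G_r + γ ∂_v G_r = 4 G_r(α,γ) ≡ 0`; so `∂_u G_r(α, γ) ≢ 0` if `γ` is a unit (and `∂_v ≢ 0` if `π ∣ γ`).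
(6) Two data `i ≠ j` with the same representative have different points: otherwise with `V = V_i⁻¹ V_j` one has
`N_j = (N_i.mul V).scal c`, `π ∣ V.γ`, `π ∣ s_i V.α² - s_j V.det`, and `V.γ ≠ 0` because `h_i ≠ h_j`
(first columns not proportional); this contradicts `S_sep` and (4).
(7) So the `n + 1` data inject into the disjoint union over the representatives `r` of the smooth points of `Ḡ_r`, i.e.
`n + 1 ≤ Σ_r sp(Ḡ_r)`; and `n ≥ nA / Q^(M-1)`. Here `H_r : Q4 F[X]` is any quartic with `G_r ≡ ι H_r` mod `π`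
(`Lc.dense`, `k = 1`), and the residue field `O/π` is identified with `F[X]/(P)` through `Lc.dvd`, `Lc.dense`.
-/

set_option autoImplicit false
set_option linter.all false

open Polynomial Finset

namespace Pool.Agent.H456.BQ



/-! ### the field identities -/

/-- the quadratic relation of the slope -/
theorem loc_quad {K : Type*} [Field K] {f : Cub K} {x₀ y₀ x y h : K} (h0 : y₀ ^ 2 = f.ev x₀) (h1 : y ^ 2 = f.ev x)
    (hx : x - x₀ ≠ 0) (hh : h * (x - x₀) = y + y₀) :
    x ^ 2 + x * x₀ + x₀ ^ 2 + f.a * (x + x₀) + f.b = h ^ 2 * (x - x₀) - 2 * y₀ * h := by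
  simp only [Cub.ev] at h0 h1
  apply mul_left_cancel₀ hx
  have hy : y = h * (x - x₀) - y₀ := by linear_combination -hh
  subst hy
  linear_combination h0 - h1

/-- the point `(h, z)` is on the quartic -/
theorem loc_onq {K : Type*} [Field K] {f : Cub K} {x₀ y₀ x h : K}
    (E : x ^ 2 + x * x₀ + x₀ ^ 2 + f.a * (x + x₀) + f.b = h ^ 2 * (x - x₀) - 2 * y₀ * h) :
    (2 * x - h ^ 2 + x₀ + f.a) ^ 2 = (gp f x₀ y₀).ev h 1 := by
  simp only [Q4.ev, gp]
  linear_combination 4 * E

/-- the quantity `D` for two affine points -/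
theorem loc_idA {K : Type*} [Field K] (h2 : (2 : K) ≠ 0) {f : Cub K} {x₀ y₀ x x' h h' l : K}
    (E : x ^ 2 + x * x₀ + x₀ ^ 2 + f.a * (x + x₀) + f.b = h ^ 2 * (x - x₀) - 2 * y₀ * h)
    (E' : x' ^ 2 + x' * x₀ + x₀ ^ 2 + f.a * (x' + x₀) + f.b = h' ^ 2 * (x' - x₀) - 2 * y₀ * h')
    (hx : x - x' ≠ 0) (hh : h - h' ≠ 0)
    (hl : l * (x - x') = (h * (x - x₀) - y₀) + (h' * (x' - x₀) - y₀)) :
    ((gp f x₀ y₀).pol h 1 h' 1 + (2 * x - h ^ 2 + x₀ + f.a) * (2 * x' - h' ^ 2 + x₀ + f.a)) / (2 * (h - h') ^ 2) + x₀ =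
      l ^ 2 - f.a - x - x' := by
  obtain ⟨a, b, c⟩ := f
  simp only [Q4.pol, gp] at *
  have hb : b = h ^ 2 * (x - x₀) - 2 * y₀ * h - (x ^ 2 + x * x₀ + x₀ ^ 2 + a * (x + x₀)) := by
    linear_combination E
  subst hb
  have ha : a = (h ^ 2 * (x - x₀) - h' ^ 2 * (x' - x₀) - 2 * y₀ * (h - h')) / (x - x') - x - x' - x₀ := by
    field_simp
    linear_combination -E'
  have hl' : l = ((h * (x - x₀) - y₀) + (h' * (x' - x₀) - y₀)) / (x - x') := by
    field_simp
    linear_combination hl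
  clear E E' hl
  subst ha
  subst hl'
  field_simp
  ring



/-! ### selection -/

theorem loc_sel {α : Type*} (good : α → Prop) (R : α → α → Prop) : ∀ (n : ℕ) (U : Fin n → Set α),
    (∀ j, ∀ S : Finset α, ∃ p ∈ U j, good p ∧ ∀ p' ∈ S, ¬ R p' p) →
    ∃ p : Fin n → α, (∀ i, p i ∈ U i ∧ good (p i)) ∧ ∀ i j, i < j → ¬ R (p i) (p j)
  | 0, U, h => ⟨Fin.elim0, fun i => i.elim0, fun i => i.elim0⟩
  | n + 1, U, h => by
    classical
    obtain ⟨p, hp, hp'⟩ := loc_sel good R n (fun i => U i.castSucc) (fun j S => h j.castSucc S)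
    obtain ⟨q, hq, hg, hR⟩ := h (Fin.last n) (Finset.univ.image p)
    refine ⟨Fin.snoc p q, ?_, ?_⟩
    · intro i
      refine Fin.lastCases ?_ (fun i => ?_) i
      · simp only [Fin.snoc_last]; exact ⟨hq, hg⟩
      · simp only [Fin.snoc_castSucc]; exact hp i
    · intro i j
      refine Fin.lastCases ?_ (fun i => ?_) i
      · intro hij
        exact absurd hij (not_lt.2 (Fin.le_last j))
      · refine Fin.lastCases ?_ (fun j => ?_) j
        · intro _
          simp only [Fin.snoc_last, Fin.snoc_castSucc]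
          exact hR _ (Finset.mem_image_of_mem _ (Finset.mem_univ _))
        · intro hij
          simp only [Fin.snoc_castSucc]
          exact hp' i j (by simpa using hij)

/-! ### finiteness -/

theorem loc_finq {K : Type*} [Field K] (p q : K) : {x : K | x ^ 2 + p * x + q = 0}.Finite := by
  have h : (X ^ 2 + C p * X + C q : K[X]) ≠ 0 := by
    intro h0
    have h1 := congrArg (fun r : K[X] => r.coeff 2) h0
    simp [coeff_X] at h1
  refine (Polynomial.finite_setOf_isRoot h).subset ?_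
  intro x hx
  simp only [Set.mem_setOf_eq, IsRoot.def, eval_add, eval_mul, eval_pow, eval_X, eval_C] at hx ⊢
  exact hx

theorem loc_fing {K : Type*} [Field K] (f : Cub K) (x₀ y₀ : K) : {h : K | (gp f x₀ y₀).ev h 1 = 0}.Finite := by
  have h : (X ^ 4 + C (gp f x₀ y₀).C * X ^ 2 + C (gp f x₀ y₀).D * X + C (gp f x₀ y₀).E : K[X]) ≠ 0 := by
    intro h0
    have h1 := congrArg (fun r : K[X] => r.coeff 4) h0
    simp [coeff_X, coeff_C] at h1
  refine (Polynomial.finite_setOf_isRoot h).subset ?_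
  intro x hx
  simp only [Set.mem_setOf_eq, IsRoot.def, eval_add, eval_mul, eval_pow, eval_X, eval_C] at hx ⊢
  rw [← hx]
  simp only [Q4.ev, gp]
  ring

/-- only finitely many abscissas with a given slope -/
theorem loc_fin1 {K : Type*} [Field K] (f : Cub K) (x₀ y₀ h : K) :
    {x : K | x ^ 2 + x * x₀ + x₀ ^ 2 + f.a * (x + x₀) + f.b = h ^ 2 * (x - x₀) - 2 * y₀ * h}.Finite := by
  refine (loc_finq (x₀ + f.a - h ^ 2) (x₀ ^ 2 + f.a * x₀ + f.b + h ^ 2 * x₀ + 2 * y₀ * h)).subset ?_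
  intro x hx
  simp only [Set.mem_setOf_eq] at hx ⊢
  linear_combination hx

/-- only finitely many abscissas with `z = 0` -/
theorem loc_fin0 {K : Type*} [Field K] (h2 : (2 : K) ≠ 0) (f : Cub K) (x₀ y₀ : K) :
    {x : K | ∃ h, x ^ 2 + x * x₀ + x₀ ^ 2 + f.a * (x + x₀) + f.b = h ^ 2 * (x - x₀) - 2 * y₀ * h ∧
      2 * x - h ^ 2 + x₀ + f.a = 0}.Finite := by
  refine ((loc_fing f x₀ y₀).image (fun h => (h ^ 2 - x₀ - f.a) / 2)).subset ?_
  rintro x ⟨h, h1, h3⟩
  refine ⟨h, ?_, ?_⟩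
  · have h4 : (2 * x - h ^ 2 + x₀ + f.a) ^ 2 = (gp f x₀ y₀).ev h 1 := by
      simp only [Q4.ev, gp]
      linear_combination 4 * h1
    rw [Set.mem_setOf_eq, ← h4, h3]
    ring
  · simp only
    field_simp
    linear_combination -h3

/-! ### the valuation ring -/

section val

variable {F : Type} [Field F] {P : F[X]} {O : Type} [CommRing O] {π : O} {ι : F[X] →+* O}

theorem loc_unit (h : Lc P π ι) {x : O} (hx : ¬ π ∣ x) : IsUnit x := by
  have h0 : x ≠ 0 := by
    rintro rfl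
    exact hx (dvd_zero _)
  obtain ⟨k, u, hu, rfl⟩ := h.pow x h0
  rcases k with _ | k
  · simpa using hu
  · exact absurd (Dvd.intro_left (u * π ^ k) (by ring)) hx

theorem loc_nd (h : Lc P π ι) {x : O} (hx : IsUnit x) : ¬ π ∣ x := fun h1 => h.nonunit (isUnit_of_dvd_unit h1 hx)

theorem loc_two (h2 : (2 : F) ≠ 0) (ι : F[X] →+* O) : IsUnit (2 : O) := by
  have h1 : IsUnit (C (2 : F)) := Polynomial.isUnit_C.2 (isUnit_iff_ne_zero.2 h2)
  have h3 := h1.map ι
  rwa [map_ofNat, map_ofNat] at h3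

/-- the residue map -/
theorem loc_res (h : Lc P π ι) : ∃ ρ : O →+* Rq (P ^ 1), (∀ x, ρ x = 0 ↔ π ∣ x) ∧
    ∀ y, ρ (ι y) = Ideal.Quotient.mk _ y := by
  set ψ : F[X] →+* (O ⧸ Ideal.span {π}) := (Ideal.Quotient.mk _).comp ι with hψ
  have hs : Function.Surjective ψ := by
    intro x
    obtain ⟨x, rfl⟩ := Ideal.Quotient.mk_surjective x
    obtain ⟨y, hy⟩ := h.dense 1 x
    refine ⟨y, ?_⟩
    rw [hψ, RingHom.comp_apply, eq_comm, Ideal.Quotient.eq, Ideal.mem_span_singleton]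
    simpa using hy
  have hk : Ideal.span {P ^ 1} = RingHom.ker ψ := by
    ext y
    rw [RingHom.mem_ker, hψ, RingHom.comp_apply, Ideal.Quotient.eq_zero_iff_mem, Ideal.mem_span_singleton,
      Ideal.mem_span_singleton, ← h.dvd 1, pow_one]
  let e : Rq (P ^ 1) ≃+* (O ⧸ Ideal.span {π}) :=
    (Ideal.quotEquivOfEq hk).trans (RingHom.quotientKerEquivOfSurjective hs)
  have he : ∀ y, e (Ideal.Quotient.mk _ y) = ψ y := fun y => rfl
  refine ⟨(e.symm : (O ⧸ Ideal.span {π}) →+* Rq (P ^ 1)).comp (Ideal.Quotient.mk _), ?_, ?_⟩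
  · intro x
    rw [RingHom.comp_apply]
    constructor
    · intro h1
      have h3 : (Ideal.Quotient.mk (Ideal.span {π}) x) = 0 := by
        apply e.symm.injective
        rw [map_zero]
        exact h1
      rwa [Ideal.Quotient.eq_zero_iff_mem, Ideal.mem_span_singleton] at h3
    · intro h1
      have h3 : (Ideal.Quotient.mk (Ideal.span {π}) x) = 0 := by
        rwa [Ideal.Quotient.eq_zero_iff_mem, Ideal.mem_span_singleton]
      rw [h3, map_zero]
  · intro y
    rw [RingHom.comp_apply]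
    apply e.injective
    rw [he]
    exact e.apply_symm_apply _

end val



/-! ### the equivalence of lattices -/

section leq

variable {O L : Type} [CommRing O] [Field L] [Algebra O L]

theorem loc_refl (N : M2 L) : LEq O N N := by
  refine ⟨1, ⟨1, 0, 0, 1⟩, one_ne_zero, ?_, ?_⟩
  · simp [M2.det]
  · ext <;> simp [M2.mul, M2.map, M2.scal]

/-- the relation between two members of the same class -/
theorem loc_rel {N N₁ N₂ : M2 L} {c₁ c₂ : L} {V₁ V₂ : M2 O} (hc₁ : c₁ ≠ 0) (hc₂ : c₂ ≠ 0)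
    (h1 : IsUnit V₁.det) (h2 : IsUnit V₂.det) (e1 : N₁ = (N.mul (V₁.map (algebraMap O L))).scal c₁)
    (e2 : N₂ = (N.mul (V₂.map (algebraMap O L))).scal c₂) :
    ∃ c : L, c ≠ 0 ∧ N₂ = (N₁.mul ((V₁.adj.mul V₂).map (algebraMap O L))).scal c := by
  have hd : algebraMap O L V₁.det ≠ 0 := (h1.map (algebraMap O L)).ne_zero
  refine ⟨c₂ / (c₁ * algebraMap O L V₁.det), div_ne_zero hc₂ (mul_ne_zero hc₁ hd), ?_⟩
  have e3 : (V₁.map (algebraMap O L)).mul (V₁.adj.map (algebraMap O L)) =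
      ⟨algebraMap O L V₁.det, 0, 0, algebraMap O L V₁.det⟩ := by
    rw [← M2.map_mul, M2.mul_adj]
    simp [M2.map]
  rw [e1, M2.map_mul, M2.scal_mul, M2.mul_assoc, ← M2.mul_assoc (V₁.map (algebraMap O L)), e3, M2.scal_scal, e2]
  ext <;> simp only [M2.mul, M2.scal, M2.map] <;> field_simp <;> ring

theorem loc_symm {N N' : M2 L} (h : LEq O N N') : LEq O N' N := by
  obtain ⟨c, V, hc, hV, e⟩ := h
  obtain ⟨c', hc', e'⟩ := loc_rel (O := O) (L := L) (N := N) (N₁ := N') (N₂ := N) (c₁ := c) (c₂ := 1) (V₁ := V)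
    (V₂ := ⟨1, 0, 0, 1⟩) hc one_ne_zero hV (by simp [M2.det]) e
    (by ext <;> simp [M2.mul, M2.map, M2.scal])
  refine ⟨c', _, hc', ?_, e'⟩
  rw [M2.det_mul, M2.det_adj]
  simpa [M2.det] using hV

theorem loc_trans {N N' N'' : M2 L} (h : LEq O N N') (h' : LEq O N' N'') : LEq O N N'' := by
  obtain ⟨c, V, hc, hV, e⟩ := h
  obtain ⟨c', V', hc', hV', e'⟩ := h'
  refine ⟨c' * c, V.mul V', mul_ne_zero hc' hc, ?_, ?_⟩
  · rw [M2.det_mul]; exact hV.mul hV'
  · rw [e', e, M2.map_mul, M2.scal_mul, M2.scal_scal, M2.mul_assoc, mul_comm c c']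

end leq

section cmp

variable {O L : Type} [CommRing O] [IsDomain O] [Field L] [Algebra O L] [IsFractionRing O L]

theorem loc_inj : Function.Injective (algebraMap O L) := IsFractionRing.injective O L

/-- comparison of the quartics -/
theorem loc_sub {f : Cub O} {x₀ y₀ : L} {N N' : M2 L} {G G' : Q4 O} {s n s' n' : O} (h : Cn f x₀ y₀ N G s n)
    (h' : Cn f x₀ y₀ N' G' s' n') {c : L} {V : M2 O} (hc : c ≠ 0)
    (e : N' = (N.mul (V.map (algebraMap O L))).scal c) : G'.smul (V.det ^ 2) = G.sub V := by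
  apply Q4.map_inj (algebraMap O L) loc_inj
  have h1 := h'.sub
  have hd : N'.det = c ^ 2 * (N.det * algebraMap O L V.det) := by
    rw [e, M2.det_scal, M2.det_mul, M2.map_det]
  have h3 : (gp (f.map (algebraMap O L)) x₀ y₀).sub N' =
      ((G.map (algebraMap O L)).sub (V.map (algebraMap O L))).smul (c ^ 4 * N.det ^ 2) := by
    rw [e, Q4.sub_scal, ← Q4.sub_mul, h.sub, Q4.smul_sub, Q4.smul_smul, mul_comm (c ^ 4)]
  rw [h3, hd] at h1
  have h4 : c ^ 4 * N.det ^ 2 ≠ 0 := mul_ne_zero (pow_ne_zero _ hc) (pow_ne_zero _ h.det)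
  apply Q4.smul_cancel h4
  rw [Q4.map_smul, Q4.map_sub, h1, Q4.smul_smul]
  congr 1
  rw [map_pow]
  ring

end cmp

/-! ### smooth points -/

section smooth

/-- the first column of `V` and `ζ = s det V` -/
theorem loc_A {R : Type*} [CommRing R] {G G' : Q4 R} {V : M2 R} {s : R} (hA : G'.A = s ^ 2)
    (h : G'.smul (V.det ^ 2) = G.sub V) : (s * V.det) ^ 2 = G.ev V.α V.γ := by
  have h1 := congrArg Q4.A h
  simp only [Q4.smul, Q4.sub] at h1
  simp only [Q4.ev]
  rw [hA] at h1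
  linear_combination h1

theorem loc_B {R : Type*} [CommRing R] {G G' : Q4 R} {V : M2 R} {n : R} (hB : G'.B = -(4 * n))
    (h : G'.smul (V.det ^ 2) = G.sub V) : -(4 * n) * V.det ^ 2 =
      V.β * (4 * G.A * V.α ^ 3 + 3 * G.B * V.α ^ 2 * V.γ + 2 * G.C * V.α * V.γ ^ 2 + G.D * V.γ ^ 3) +
      V.δ * (G.B * V.α ^ 3 + 2 * G.C * V.α ^ 2 * V.γ + 3 * G.D * V.α * V.γ ^ 2 + 4 * G.E * V.γ ^ 3) := by
  have h1 := congrArg Q4.B h
  simp only [Q4.smul, Q4.sub] at h1
  rw [hB] at h1
  linear_combination h1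

variable {F : Type} [Field F] {P : F[X]} {O : Type} [CommRing O] [IsDomain O] {π : O} {ι : F[X] →+* O}

theorem loc_prime (h : Lc P π ι) : Prime π := by
  refine ⟨h.ne, h.nonunit, ?_⟩
  intro a b hab
  by_contra hcon
  push Not at hcon
  have hu : ∀ {x : O}, ¬ π ∣ x → IsUnit x := by
    intro x hx
    have h0 : x ≠ 0 := by
      rintro rfl
      exact hx (dvd_zero _)
    obtain ⟨k, u, hu, rfl⟩ := h.pow x h0
    rcases k with _ | k
    · simpa using hu
    · exact absurd (Dvd.intro_left (u * π ^ k) (by ring)) hx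
  exact h.nonunit (isUnit_of_dvd_unit hab ((hu hcon.1).mul (hu hcon.2)))

/-- the key divisibility -/
theorem loc_key (h : Lc P π ι) (h2 : IsUnit (2 : O)) {G G' : Q4 O} {V : M2 O} {s n : O} (hA : G'.A = s ^ 2)
    (hB : G'.B = -(4 * n)) (hc : IsCoprime s n) (hV : IsUnit V.det)
    (e : G'.smul (V.det ^ 2) = G.sub V) (hs : π ∣ s * V.det) :
    (¬ π ∣ V.γ → ¬ π ∣ (4 * G.A * V.α ^ 3 + 3 * G.B * V.α ^ 2 * V.γ + 2 * G.C * V.α * V.γ ^ 2 + G.D * V.γ ^ 3)) ∧
    (π ∣ V.γ → ¬ π ∣ G.B) := by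
  have hp := loc_prime h
  have hnu : ∀ {x : O}, IsUnit x → ¬ π ∣ x := fun hx h1 => h.nonunit (isUnit_of_dvd_unit h1 hx)
  have hs' : π ∣ s := (hp.dvd_or_dvd hs).resolve_right (hnu hV)
  have hn : ¬ π ∣ n := by
    intro h3
    obtain ⟨a, b, hab⟩ := hc
    apply hnu isUnit_one
    rw [← hab]
    exact dvd_add (dvd_mul_of_dvd_right hs' a) (dvd_mul_of_dvd_right h3 b)
  have h4 : ¬ π ∣ (4 : O) := by
    have : (4 : O) = 2 * 2 := by norm_num
    rw [this]
    exact hnu (h2.mul h2)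
  have hBB := loc_B hB e
  have hAA := loc_A hA e
  have h5 : ¬ π ∣ -(4 * n) * V.det ^ 2 := by
    intro h6
    rcases hp.dvd_or_dvd h6 with h7 | h7
    · rw [dvd_neg] at h7
      rcases hp.dvd_or_dvd h7 with h8 | h8
      · exact h4 h8
      · exact hn h8
    · exact hnu (hV.pow 2) h7
  have h6 : π ∣ V.α * (4 * G.A * V.α ^ 3 + 3 * G.B * V.α ^ 2 * V.γ + 2 * G.C * V.α * V.γ ^ 2 + G.D * V.γ ^ 3) +
      V.γ * (G.B * V.α ^ 3 + 2 * G.C * V.α ^ 2 * V.γ + 3 * G.D * V.α * V.γ ^ 2 + 4 * G.E * V.γ ^ 3) := by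
    have : V.α * (4 * G.A * V.α ^ 3 + 3 * G.B * V.α ^ 2 * V.γ + 2 * G.C * V.α * V.γ ^ 2 + G.D * V.γ ^ 3) +
      V.γ * (G.B * V.α ^ 3 + 2 * G.C * V.α ^ 2 * V.γ + 3 * G.D * V.α * V.γ ^ 2 + 4 * G.E * V.γ ^ 3) =
      (s * V.det) * (4 * (s * V.det)) := by
      simp only [Q4.ev] at hAA
      linear_combination -4 * hAA
    rw [this]
    exact dvd_mul_of_dvd_left hs _
  refine ⟨?_, ?_⟩
  · intro hγ h7
    have h8 := (dvd_add_right (dvd_mul_of_dvd_right h7 V.α)).1 h6
    have h9 := (hp.dvd_or_dvd h8).resolve_left hγ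
    apply h5
    rw [hBB]
    exact dvd_add (dvd_mul_of_dvd_right h7 _) (dvd_mul_of_dvd_right h9 _)
  · intro hγ h7
    have hα : ¬ π ∣ V.α := by
      intro h8
      apply hnu hV
      simp only [M2.det]
      exact dvd_sub (dvd_mul_of_dvd_left h8 _) (dvd_mul_of_dvd_right hγ _)
    have h8 := (dvd_add_left (dvd_mul_of_dvd_left hγ _)).1 h6
    have h9 := (hp.dvd_or_dvd h8).resolve_left hα
    apply h5
    rw [hBB]
    refine dvd_add (dvd_mul_of_dvd_right h9 _) (dvd_mul_of_dvd_right ?_ _)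
    have : G.B * V.α ^ 3 + 2 * G.C * V.α ^ 2 * V.γ + 3 * G.D * V.α * V.γ ^ 2 + 4 * G.E * V.γ ^ 3 =
      G.B * V.α ^ 3 + V.γ * (2 * G.C * V.α ^ 2 + 3 * G.D * V.α * V.γ + 4 * G.E * V.γ ^ 2) := by ring
    rw [this]
    exact dvd_add (dvd_mul_of_dvd_left h7 _) (dvd_mul_of_dvd_left hγ _)

/-- two matrices with the same reduced point -/
theorem loc_same {V₁ V₂ : M2 O} {s₁ s₂ τ : O} (h1 : π ∣ V₂.α - τ * V₁.α) (h2 : π ∣ V₂.γ - τ * V₁.γ)
    (h3 : π ∣ s₂ * V₂.det - τ ^ 2 * (s₁ * V₁.det)) :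
    π ∣ (V₁.adj.mul V₂).γ ∧ π ∣ s₁ * (V₁.adj.mul V₂).α ^ 2 - s₂ * (V₁.adj.mul V₂).det := by
  obtain ⟨a, ha⟩ := h1
  obtain ⟨b, hb⟩ := h2
  obtain ⟨d, hd⟩ := h3
  rw [M2.det_mul, M2.det_adj]
  have hα : (V₁.adj.mul V₂).α = τ * V₁.det + π * (V₁.δ * a - V₁.β * b) := by
    simp only [M2.adj, M2.mul, M2.det]
    linear_combination V₁.δ * ha - V₁.β * hb
  refine ⟨⟨V₁.α * b - V₁.γ * a, ?_⟩, ?_⟩
  · simp only [M2.adj, M2.mul]
    linear_combination V₁.α * hb - V₁.γ * ha
  · rw [hα]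
    refine ⟨s₁ * (2 * (τ * V₁.det) * (V₁.δ * a - V₁.β * b) + π * (V₁.δ * a - V₁.β * b) ^ 2) - V₁.det * d, ?_⟩
    linear_combination -V₁.det * hd

end smooth




/-! ### counting one class -/

section count

variable {F : Type} [Field F] [Fintype F] {P : Pl F} {O L : Type} [CommRing O] [IsDomain O] [Field L] [Algebra O L]
  [IsFractionRing O L] {π : O} {ι : F[X] →+* O}

theorem loc_count (hS : S_sep) (h2 : (2 : F) ≠ 0) (hL : Lc P.1 π ι) {f : Cub O} {x₀ y₀ : L}
    (h0 : y₀ ^ 2 = (f.map (algebraMap O L)).ev x₀) {T : Type} [DecidableEq T] (N : T → M2 L) (G : T → Q4 O)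
    (s n : T → O) (hcn : ∀ t, Cn f x₀ y₀ (N t) (G t) (s t) (n t))
    (hne : ∀ t t', t ≠ t' → (N t).α * (N t').γ - (N t').α * (N t).γ ≠ 0)
    (hD : ∀ t t', t ≠ t' → ∃ d : O, algebraMap O L d =
      ((gp (f.map (algebraMap O L)) x₀ y₀).pol (N t).α (N t).γ (N t').α (N t').γ +
        (algebraMap O L (s t) * (N t).det) * (algebraMap O L (s t') * (N t').det)) /
          (2 * ((N t).α * (N t').γ - (N t').α * (N t).γ) ^ 2) + x₀)
    (ρ : O →+* Rq (P.1 ^ 1)) (hρ : ∀ x, ρ x = 0 ↔ π ∣ x) (r : T) (S : Finset T)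
    (hSS : ∀ t ∈ S, LEq O (N r) (N t)) : S.card ≤ ((G r).map ρ).sp := by
  classical
  have hu2 : IsUnit (2 : O) := loc_two h2 ι
  have hp := loc_prime hL
  have h1 : ∀ t, ∃ (c : L) (V : M2 O), t ∈ S → c ≠ 0 ∧ IsUnit V.det ∧
      N t = ((N r).mul (V.map (algebraMap O L))).scal c := by
    intro t
    by_cases ht : t ∈ S
    · obtain ⟨c, V, h⟩ := hSS t ht
      exact ⟨c, V, fun _ => h⟩
    · exact ⟨1, ⟨1, 0, 0, 1⟩, fun h => absurd h ht⟩
  choose c V hcV using h1
  have hinv : ∀ x : O, ∃ x' : O, ¬ π ∣ x → x * x' = 1 := by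
    intro x
    by_cases hx : π ∣ x
    · exact ⟨0, fun h => absurd hx h⟩
    · obtain ⟨x', hx'⟩ := (loc_unit hL hx).exists_right_inv
      exact ⟨x', fun _ => hx'⟩
  choose inv hinv using hinv
  have hsub : ∀ t ∈ S, (G t).smul ((V t).det ^ 2) = (G r).sub (V t) := fun t ht =>
    loc_sub (hcn r) (hcn t) (hcV t ht).1 (hcV t ht).2.2
  have hAA : ∀ t ∈ S, (s t * (V t).det) ^ 2 = (G r).ev (V t).α (V t).γ := fun t ht =>
    loc_A (hcn t).A (hsub t ht)
  have hkey : ∀ t ∈ S, π ∣ s t * (V t).det →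
    (¬ π ∣ (V t).γ → ¬ π ∣ (4 * (G r).A * (V t).α ^ 3 + 3 * (G r).B * (V t).α ^ 2 * (V t).γ +
      2 * (G r).C * (V t).α * (V t).γ ^ 2 + (G r).D * (V t).γ ^ 3)) ∧
    (π ∣ (V t).γ → ¬ π ∣ (G r).B) := fun t ht hs =>
    loc_key hL hu2 (hcn t).A (hcn t).B (hcn t).cop (hcV t ht).2.1 (hsub t ht) hs
  -- distinct data have distinct points
  have hdist : ∀ t ∈ S, ∀ t' ∈ S, t ≠ t' → ∀ τ : O, π ∣ (V t').α - τ * (V t).α → π ∣ (V t').γ - τ * (V t).γ →
      ¬ π ∣ s t' * (V t').det - τ ^ 2 * (s t * (V t).det) := by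
    intro t ht t' ht' htt τ k1 k2 k3
    obtain ⟨l1, l2⟩ := loc_same k1 k2 k3
    obtain ⟨a1, a2, a3⟩ := hcV t ht
    obtain ⟨b1, b2, b3⟩ := hcV t' ht'
    obtain ⟨c', hc', e'⟩ := loc_rel a1 b1 a2 b2 a3 b3
    have hdet : IsUnit ((V t).adj.mul (V t')).det := by
      rw [M2.det_mul, M2.det_adj]
      exact a2.mul b2
    refine hS F h2 P.1 O L π ι hL f x₀ y₀ h0 (N t) (N t') (G t) (G t') (s t) (n t) (s t') (n t') (hcn t) (hcn t')
      c' ((V t).adj.mul (V t')) hc' hdet e' l1 ?_ l2 (hD t t' htt)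
    intro h0
    apply hne t t' htt
    have e1 : (N t').α = c' * ((N t).α * algebraMap O L ((V t).adj.mul (V t')).α) := by
      rw [e']
      simp only [M2.scal, M2.mul, M2.map] at h0 ⊢
      rw [h0, map_zero]
      ring
    have e2 : (N t').γ = c' * ((N t).γ * algebraMap O L ((V t).adj.mul (V t')).α) := by
      rw [e']
      simp only [M2.scal, M2.mul, M2.map] at h0 ⊢
      rw [h0, map_zero]
      ring
    rw [e1, e2]
    ring
  have hα : ∀ t ∈ S, π ∣ (V t).γ → ¬ π ∣ (V t).α := by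
    intro t ht h3 h4
    apply loc_nd hL (hcV t ht).2.1
    simp only [M2.det]
    exact dvd_sub (dvd_mul_of_dvd_left h4 _) (dvd_mul_of_dvd_right h3 _)
  have hsum : S.card = (S.filter (fun t => ¬ π ∣ (V t).γ)).card + (S.filter (fun t => ¬ ¬ π ∣ (V t).γ)).card :=
    (Finset.card_filter_add_card_filter_not _).symm
  rw [hsum]
  unfold Q4.sp
  refine Nat.add_le_add ?_ ?_
  · apply Finset.card_le_card_of_injOn
      (fun t => (ρ ((V t).α * inv (V t).γ), ρ (s t * (V t).det * inv (V t).γ ^ 2)))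
    · intro t ht
      rw [Finset.mem_coe, Finset.mem_filter] at ht
      obtain ⟨ht, hγ⟩ := ht
      have hi := hinv _ hγ
      rw [Finset.mem_coe, Finset.mem_filter]
      refine ⟨Finset.mem_univ _, ?_, ?_⟩
      · simp only
        rw [← map_one ρ, Q4.map_ev, ← map_pow]
        congr 1
        have h3 := hAA t ht
        simp only [Q4.ev] at h3 ⊢
        have h4 : (s t * (V t).det * inv (V t).γ ^ 2) ^ 2 = (s t * (V t).det) ^ 2 * inv (V t).γ ^ 4 := by ring
        rw [h4, h3]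
        have e1 : (1 : O) = (V t).γ * inv (V t).γ := hi.symm
        rw [e1]
        ring
      · by_cases hz : π ∣ s t * (V t).det
        · right
          have h3 := (hkey t ht hz).1 hγ
          simp only [Q4.map]
          intro h4
          apply h3
          have h5 : ρ ((4 * (G r).A * (V t).α ^ 3 + 3 * (G r).B * (V t).α ^ 2 * (V t).γ +
              2 * (G r).C * (V t).α * (V t).γ ^ 2 + (G r).D * (V t).γ ^ 3) * inv (V t).γ ^ 3) = 0 := by
            rw [← h4]
            have e2 : ρ (V t).γ * ρ (inv (V t).γ) = 1 := by rw [← map_mul, hi, map_one]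
            simp only [map_mul, map_add, map_pow, map_ofNat]
            have e3 : ρ (V t).γ ^ 2 * ρ (inv (V t).γ) ^ 2 = 1 := by rw [← mul_pow, e2, one_pow]
            have e4 : ρ (V t).γ ^ 3 * ρ (inv (V t).γ) ^ 3 = 1 := by rw [← mul_pow, e2, one_pow]
            linear_combination (3 * ρ (G r).B * ρ (V t).α ^ 2 * ρ (inv (V t).γ) ^ 2) * e2 +
              (2 * ρ (G r).C * ρ (V t).α * ρ (inv (V t).γ)) * e3 + ρ (G r).D * e4
          rw [hρ] at h5
          refine (hp.dvd_or_dvd h5).resolve_right ?_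
          intro h6
          have h7 := hp.dvd_of_dvd_pow h6
          apply loc_nd hL isUnit_one
          rw [← hi]
          exact dvd_mul_of_dvd_right h7 _
        · left
          simp only
          rw [Ne, hρ]
          intro h4
          rcases hp.dvd_or_dvd h4 with h5 | h5
          · exact hz h5
          · have h7 := hp.dvd_of_dvd_pow h5
            apply loc_nd hL isUnit_one
            rw [← hi]
            exact dvd_mul_of_dvd_right h7 _
    · intro t ht t' ht' htt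
      rw [Finset.mem_coe, Finset.mem_filter] at ht ht'
      obtain ⟨ht, hγ⟩ := ht
      obtain ⟨ht', hγ'⟩ := ht'
      by_contra hne'
      have hi := hinv _ hγ
      have hi' := hinv _ hγ'
      simp only [Prod.mk.injEq] at htt
      obtain ⟨q1, q2⟩ := htt
      rw [← sub_eq_zero, ← map_sub, hρ] at q1 q2
      refine hdist t ht t' ht' hne' ((V t').γ * inv (V t).γ) ?_ ?_ ?_
      · have : (V t').α - (V t').γ * inv (V t).γ * (V t).α =
          ((V t).α * inv (V t).γ - (V t').α * inv (V t').γ) * (-(V t').γ) := by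
          linear_combination -(V t').α * hi'
        rw [this]
        exact dvd_mul_of_dvd_left q1 _
      · have : (V t').γ - (V t').γ * inv (V t).γ * (V t).γ = 0 := by
          linear_combination -(V t').γ * hi
        rw [this]
        exact dvd_zero _
      · have : s t' * (V t').det - ((V t').γ * inv (V t).γ) ^ 2 * (s t * (V t).det) =
          (s t * (V t).det * inv (V t).γ ^ 2 - s t' * (V t').det * inv (V t').γ ^ 2) * (-(V t').γ ^ 2) := by
          have e2 : (V t').γ ^ 2 * inv (V t').γ ^ 2 = 1 := by rw [← mul_pow, hi', one_pow]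
          linear_combination -(s t' * (V t').det) * e2
        rw [this]
        exact dvd_mul_of_dvd_left q2 _
  · apply Finset.card_le_card_of_injOn (fun t => ρ (s t * (V t).det * inv (V t).α ^ 2))
    · intro t ht
      rw [Finset.mem_coe, Finset.mem_filter, not_not] at ht
      obtain ⟨ht, hγ⟩ := ht
      have hi := hinv _ (hα t ht hγ)
      rw [Finset.mem_coe, Finset.mem_filter]
      refine ⟨Finset.mem_univ _, ?_, ?_⟩
      · simp only [Q4.map]
        rw [← map_pow, ← sub_eq_zero, ← map_sub, hρ]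
        have h3 := hAA t ht
        simp only [Q4.ev] at h3
        have e4 : (V t).α ^ 4 * inv (V t).α ^ 4 = 1 := by rw [← mul_pow, hi, one_pow]
        have : (s t * (V t).det * inv (V t).α ^ 2) ^ 2 - (G r).A = (V t).γ * (((G r).B * (V t).α ^ 3 +
          (G r).C * (V t).α ^ 2 * (V t).γ + (G r).D * (V t).α * (V t).γ ^ 2 + (G r).E * (V t).γ ^ 3) *
            inv (V t).α ^ 4) := by
          linear_combination inv (V t).α ^ 4 * h3 + (G r).A * e4
        rw [this]
        exact dvd_mul_of_dvd_left hγ _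
      · by_cases hz : π ∣ s t * (V t).det
        · right
          have h3 := (hkey t ht hz).2 hγ
          simp only [Q4.map]
          rw [Ne, hρ]
          exact h3
        · left
          rw [Ne, hρ]
          intro h4
          rcases hp.dvd_or_dvd h4 with h5 | h5
          · exact hz h5
          · have h7 := hp.dvd_of_dvd_pow h5
            apply loc_nd hL isUnit_one
            rw [← hi]
            exact dvd_mul_of_dvd_right h7 _
    · intro t ht t' ht' htt
      rw [Finset.mem_coe, Finset.mem_filter, not_not] at ht ht'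
      obtain ⟨ht, hγ⟩ := ht
      obtain ⟨ht', hγ'⟩ := ht'
      by_contra hne'
      have hi := hinv _ (hα t ht hγ)
      have hi' := hinv _ (hα t' ht' hγ')
      simp only at htt
      rw [← sub_eq_zero, ← map_sub, hρ] at htt
      refine hdist t ht t' ht' hne' ((V t').α * inv (V t).α) ?_ ?_ ?_
      · have : (V t').α - (V t').α * inv (V t).α * (V t).α = 0 := by
          linear_combination -(V t').α * hi
        rw [this]
        exact dvd_zero _
      · exact dvd_sub hγ' (dvd_mul_of_dvd_right hγ _)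
      · have : s t' * (V t').det - ((V t').α * inv (V t).α) ^ 2 * (s t * (V t).det) =
          (s t * (V t).det * inv (V t).α ^ 2 - s t' * (V t').det * inv (V t').α ^ 2) * (-(V t').α ^ 2) := by
          have e2 : (V t').α ^ 2 * inv (V t').α ^ 2 = 1 := by rw [← mul_pow, hi', one_pow]
          linear_combination -(s t' * (V t').det) * e2
        rw [this]
        exact dvd_mul_of_dvd_left htt _

end count



/-! ### the choice of the points -/

/-- the slope -/
noncomputable def loc_h {O L : Type} [CommRing O] [Field L] [Algebra O L] (x₀ y₀ : L) (p : O × O) : L :=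
  (algebraMap O L p.2 + y₀) / (algebraMap O L p.1 - x₀)

theorem loc_h_eq {O L : Type} [CommRing O] [Field L] [Algebra O L] (x₀ y₀ : L) (p : O × O)
    (h : algebraMap O L p.1 - x₀ ≠ 0) :
    loc_h x₀ y₀ p * (algebraMap O L p.1 - x₀) = algebraMap O L p.2 + y₀ := by
  rw [loc_h, div_mul_cancel₀ _ h]

theorem loc_evL {O L : Type} [CommRing O] [Field L] [Algebra O L] {f : Cub O} {p : O × O} (h : p.2 ^ 2 = f.ev p.1) :
    (algebraMap O L p.2) ^ 2 = (f.map (algebraMap O L)).ev (algebraMap O L p.1) := by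
  rw [← map_pow, h]
  simp [Cub.ev, Cub.map]

theorem loc_choose {O L : Type} [CommRing O] [IsDomain O] [Field L] [Algebra O L] [IsFractionRing O L]
    (h2 : (2 : L) ≠ 0) {f : Cub O} {x₀ y₀ : L} (h0 : y₀ ^ 2 = (f.map (algebraMap O L)).ev x₀) (n : ℕ)
    (U : Fin n → Set (O × O)) (h1 : ∀ i, ∀ p ∈ U i, p.2 ^ 2 = f.ev p.1) (hinf : ∀ i, (Prod.fst '' U i).Infinite) :
    ∃ p : Fin n → O × O, (∀ i, p i ∈ U i ∧ (algebraMap O L (p i).1 - x₀ ≠ 0 ∧
      2 * algebraMap O L (p i).1 - loc_h x₀ y₀ (p i) ^ 2 + x₀ + algebraMap O L f.a ≠ 0)) ∧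
      ∀ i j, i < j → ¬ ((p i).1 = (p j).1 ∨ loc_h x₀ y₀ (p i) = loc_h x₀ y₀ (p j)) := by
  classical
  apply loc_sel (fun p => algebraMap O L p.1 - x₀ ≠ 0 ∧
      2 * algebraMap O L p.1 - loc_h x₀ y₀ p ^ 2 + x₀ + algebraMap O L f.a ≠ 0)
    (fun p p' => p.1 = p'.1 ∨ loc_h x₀ y₀ p = loc_h x₀ y₀ p')
  intro j S
  have hinj : Function.Injective (algebraMap O L) := loc_inj
  have b1 : {x : O | algebraMap O L x = x₀}.Finite :=
    (Set.finite_singleton x₀).preimage (hinj.injOn)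
  have b2 := (loc_fin0 h2 (f.map (algebraMap O L)) x₀ y₀).preimage (f := algebraMap O L) (hinj.injOn)
  have b3 : (⋃ p ∈ S, ({p.1} : Set O)).Finite :=
    S.finite_toSet.biUnion (fun p _ => Set.finite_singleton _)
  have b4 : (⋃ p ∈ S, ((algebraMap O L) ⁻¹' {x : L | x ^ 2 + x * x₀ + x₀ ^ 2 + (f.map (algebraMap O L)).a * (x + x₀) +
      (f.map (algebraMap O L)).b = (loc_h x₀ y₀ p) ^ 2 * (x - x₀) - 2 * y₀ * (loc_h x₀ y₀ p)})).Finite :=
    S.finite_toSet.biUnion (fun p _ => (loc_fin1 _ x₀ y₀ (loc_h x₀ y₀ p)).preimage (hinj.injOn))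
  obtain ⟨x, ⟨p, hp, rfl⟩, hx⟩ := (hinf j).exists_notMem_finite (((b1.union b2).union b3).union b4)
  simp only [Set.mem_union, not_or] at hx
  obtain ⟨⟨⟨c1, c2⟩, c3⟩, c4⟩ := hx
  have c1' : algebraMap O L p.1 - x₀ ≠ 0 := fun h => c1 (sub_eq_zero.1 h)
  have hq := loc_quad h0 (loc_evL (L := L) (h1 j p hp)) c1' (loc_h_eq x₀ y₀ p c1')
  refine ⟨p, hp, ⟨c1', ?_⟩, ?_⟩
  · intro h3
    exact c2 ⟨_, hq, h3⟩
  · intro p' hp' h3
    rcases h3 with h3 | h3
    · apply c3
      simp only [Set.mem_iUnion]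
      exact ⟨p', hp', h3.symm⟩
    · apply c4
      simp only [Set.mem_iUnion]
      refine ⟨p', hp', ?_⟩
      rw [h3]
      exact hq

theorem loc_hom {K : Type*} [Field K] (g : Q4 K) (k k' u v u' v' : K) :
    g.pol (k * u) (k * v) (k' * u') (k' * v') = (k * k') ^ 2 * g.pol u v u' v' := by
  simp only [Q4.pol]
  ring

/-- the quantity `D` for multiples -/
theorem loc_D {K : Type*} [Field K] (g : Q4 K) {k k' u v u' v' w w' d d' x₀ : K} (hk : k ≠ 0) (hk' : k' ≠ 0)
    (hd : d = k ^ 2 * w) (hd' : d' = k' ^ 2 * w') :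
    (g.pol (k * u) (k * v) (k' * u') (k' * v') + d * d') / (2 * ((k * u) * (k' * v') - (k' * u') * (k * v)) ^ 2) + x₀ =
      (g.pol u v u' v' + w * w') / (2 * (u * v' - u' * v) ^ 2) + x₀ := by
  rw [loc_hom, hd, hd']
  congr 1
  have e1 : (k * k') ^ 2 * g.pol u v u' v' + k ^ 2 * w * (k' ^ 2 * w') = (k * k') ^ 2 * (g.pol u v u' v' + w * w') := by
    ring
  have e2 : 2 * ((k * u) * (k' * v') - (k' * u') * (k * v)) ^ 2 = (k * k') ^ 2 * (2 * (u * v' - u' * v) ^ 2) := by
    ring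
  rw [e1, e2, mul_div_mul_left _ _ (pow_ne_zero _ (mul_ne_zero hk hk'))]




theorem t_loc : S_pts → S_sep → S_can → S_loc := by
  intro hpts hsep hcan F _ _ h2 P O L _ _ _ _ _ π ι hL M k hM f hdisc x₀ y₀ h0
  classical
  obtain ⟨n, U, hn, hU1, hU2, hU3⟩ := hpts F h2 P O π ι hL M k hM f hdisc
  -- the cubic over `O`
  generalize hfh : f.map ι = fh at *
  have hu2 : IsUnit (2 : O) := loc_two h2 ι
  have h2L : (2 : L) ≠ 0 := by
    have := (hu2.map (algebraMap O L)).ne_zero
    rwa [map_ofNat] at this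
  obtain ⟨ρ, hρ, hρι⟩ := loc_res hL
  -- the points
  obtain ⟨p, hp, hpp⟩ := loc_choose (L := L) h2L h0 n U hU1 hU2
  have hpp' : ∀ i j, i ≠ j → (p i).1 ≠ (p j).1 ∧ loc_h x₀ y₀ (p i) ≠ loc_h x₀ y₀ (p j) := by
    intro i j hij
    rcases lt_or_gt_of_ne hij with h | h
    · have := hpp i j h
      rw [not_or] at this
      exact this
    · have := hpp j i h
      rw [not_or] at this
      exact ⟨fun e => this.1 e.symm, fun e => this.2 e.symm⟩
  have hE : ∀ i, (algebraMap O L (p i).1) ^ 2 + algebraMap O L (p i).1 * x₀ + x₀ ^ 2 +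
      (fh.map (algebraMap O L)).a * (algebraMap O L (p i).1 + x₀) + (fh.map (algebraMap O L)).b =
      (loc_h x₀ y₀ (p i)) ^ 2 * (algebraMap O L (p i).1 - x₀) - 2 * y₀ * (loc_h x₀ y₀ (p i)) := fun i =>
    loc_quad h0 (loc_evL (L := L) (hU1 i (p i) (hp i).1)) (hp i).2.1 (loc_h_eq x₀ y₀ (p i) (hp i).2.1)
  obtain ⟨hcan1, hcan2⟩ := hcan F h2 P.1 O L π ι hL fh x₀ y₀ h0
  -- the points of the quartic
  let u : Option (Fin n) → L := fun t => t.elim 1 (fun i => loc_h x₀ y₀ (p i))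
  let v : Option (Fin n) → L := fun t => t.elim 0 (fun _ => 1)
  let w : Option (Fin n) → L := fun t => t.elim 1 (fun i =>
    2 * algebraMap O L (p i).1 - loc_h x₀ y₀ (p i) ^ 2 + x₀ + (fh.map (algebraMap O L)).a)
  have hdata : ∀ t : Option (Fin n), ∃ (N : M2 L) (G : Q4 O) (s m : O) (κ : L), Cn fh x₀ y₀ N G s m ∧ κ ≠ 0 ∧
      N.α = κ * u t ∧ N.γ = κ * v t ∧ algebraMap O L s * N.det = κ ^ 2 * w t := by
    intro t
    rcases t with _ | i
    · obtain ⟨N, G, s, m, κ, a1, a2, a3, a4, a5⟩ := hcan2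
      refine ⟨N, G, s, m, κ, a1, a2, ?_, ?_, ?_⟩
      · rw [a3]; exact (mul_one κ).symm
      · rw [a4]; exact (mul_zero κ).symm
      · rw [a5]; exact (mul_one _).symm
    · obtain ⟨N, G, s, m, κ, a1, a2, a3, a4, a5⟩ := hcan1 (loc_h x₀ y₀ (p i))
        (2 * algebraMap O L (p i).1 - loc_h x₀ y₀ (p i) ^ 2 + x₀ + (fh.map (algebraMap O L)).a) (hp i).2.2
        (loc_onq (hE i))
      refine ⟨N, G, s, m, κ, a1, a2, a3, ?_, a5⟩
      rw [a4]; exact (mul_one κ).symm
  choose N G s m κ hcn hκ hα hγ hw using hdata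
  have huv : ∀ t t', t ≠ t' → u t * v t' - u t' * v t ≠ 0 := by
    intro t t' htt
    rcases t with _ | i <;> rcases t' with _ | j
    · exact absurd rfl htt
    · simp [u, v]
    · simp [u, v]
    · have hij : i ≠ j := fun h => htt (by rw [h])
      simp only [u, v, Option.elim]
      rw [mul_one, mul_one]
      exact sub_ne_zero.2 (hpp' i j hij).2
  have hne : ∀ t t', t ≠ t' → (N t).α * (N t').γ - (N t').α * (N t).γ ≠ 0 := by
    intro t t' htt
    rw [hα, hα, hγ, hγ]
    have : κ t * u t * (κ t' * v t') - κ t' * u t' * (κ t * v t) = (κ t * κ t') * (u t * v t' - u t' * v t) := by ring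
    rw [this]
    exact mul_ne_zero (mul_ne_zero (hκ t) (hκ t')) (huv t t' htt)
  have hD : ∀ t t', t ≠ t' → ∃ d : O, algebraMap O L d =
      ((gp (fh.map (algebraMap O L)) x₀ y₀).pol (N t).α (N t).γ (N t').α (N t').γ +
        (algebraMap O L (s t) * (N t).det) * (algebraMap O L (s t') * (N t').det)) /
          (2 * ((N t).α * (N t').γ - (N t').α * (N t).γ) ^ 2) + x₀ := by
    intro t t' htt
    rw [hα, hα, hγ, hγ, loc_D _ (hκ t) (hκ t') (hw t) (hw t')]
    rcases t with _ | i <;> rcases t' with _ | j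
    · exact absurd rfl htt
    · refine ⟨(p j).1, ?_⟩
      simp only [u, v, w, Option.elim, Q4.pol, gp]
      field_simp
      ring
    · refine ⟨(p i).1, ?_⟩
      simp only [u, v, w, Option.elim, Q4.pol, gp]
      field_simp
      ring
    · have hij : i ≠ j := fun h => htt (by rw [h])
      obtain ⟨l, hl⟩ := hU3 i j hij (p i) (hp i).1 (p j) (hp j).1 (hpp' i j hij).1
      refine ⟨l ^ 2 - fh.a - (p i).1 - (p j).1, ?_⟩
      have hx : algebraMap O L (p i).1 - algebraMap O L (p j).1 ≠ 0 := by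
        rw [← map_sub]
        intro h
        rw [map_eq_zero_iff _ (loc_inj (O := O) (L := L))] at h
        exact (hpp' i j hij).1 (sub_eq_zero.1 h)
      have hl' : algebraMap O L l * (algebraMap O L (p i).1 - algebraMap O L (p j).1) =
          (loc_h x₀ y₀ (p i) * (algebraMap O L (p i).1 - x₀) - y₀) +
            (loc_h x₀ y₀ (p j) * (algebraMap O L (p j).1 - x₀) - y₀) := by
        rw [loc_h_eq x₀ y₀ (p i) (hp i).2.1, loc_h_eq x₀ y₀ (p j) (hp j).2.1, ← map_sub, ← map_mul, hl, map_add]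
        ring
      have h3 := loc_idA h2L (hE i) (hE j) hx (sub_ne_zero.2 (hpp' i j hij).2) hl'
      simp only [u, v, w, Option.elim]
      rw [mul_one, mul_one, h3, map_sub, map_sub, map_sub, map_pow]
      rfl
  -- reductions
  have hlift := hL.dense 1
  choose lift hlift using hlift
  let H : Option (Fin n) → Q4 F[X] := fun t => ⟨lift (G t).A, lift (G t).B, lift (G t).C, lift (G t).D, lift (G t).E⟩
  have hρl : ∀ x, ρ x = Ideal.Quotient.mk _ (lift x) := by
    intro x
    rw [← hρι, ← sub_eq_zero, ← map_sub, hρ]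
    simpa using hlift x
  have hGH : ∀ t, (G t).map ρ = (H t).map (Ideal.Quotient.mk (Ideal.span {P.1 ^ 1})) := by
    intro t
    simp only [Q4.map, H, hρl]
  -- the classes
  let S : Setoid (Option (Fin n)) := {
    r := fun t t' => LEq O (N t) (N t')
    iseqv := ⟨fun t => loc_refl (N t), fun h => loc_symm h, fun h h' => loc_trans h h'⟩ }
  let e : Fin (Fintype.card (Quotient S)) ≃ Quotient S := (Fintype.equivFin _).symm
  have hout : ∀ (q : Quotient S) (t : Option (Fin n)), Quotient.mk S t = q → LEq O (N q.out) (N t) := by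
    intro q t h
    subst h
    exact Quotient.mk_out t
  have hmain : n + 1 ≤ ∑ i, ((G (e i).out).map ρ).sp := by
    have e1 : n + 1 = (Finset.univ : Finset (Option (Fin n))).card := by simp
    rw [e1, Finset.card_eq_sum_card_fiberwise (f := fun t => e.symm (Quotient.mk S t)) (t := Finset.univ)
      (fun _ _ => Finset.mem_coe.2 (Finset.mem_univ _))]
    refine Finset.sum_le_sum fun i _ => ?_
    refine loc_count hsep h2 hL h0 N G s m hcn hne hD ρ hρ (e i).out _ ?_
    intro t ht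
    rw [Finset.mem_filter] at ht
    apply hout
    rw [← ht.2, Equiv.apply_symm_apply]
  refine ⟨Fintype.card (Quotient S), fun i => N (e i).out, fun i => G (e i).out, fun i => H (e i).out, ?_, ?_, ?_, ?_, ?_⟩
  · intro i
    exact (hcn _).det
  · intro i
    exact (hcn _).sub
  · intro i
    have hl : ∀ x, π ∣ x - ι (lift x) := fun x => by simpa using hlift x
    exact ⟨hl _, hl _, hl _, hl _, hl _⟩
  · intro i j hij h
    apply hij
    apply e.injective
    rw [← Quotient.out_eq (e i), ← Quotient.out_eq (e j)]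
    exact Quotient.sound h
  · have h3 : ((n : ℝ) + 1) ≤ ∑ i, (((G (e i).out).map ρ).sp : ℝ) := by exact_mod_cast hmain
    simp only [hGH] at h3
    refine le_trans ?_ h3
    have hq : (0 : ℝ) < ((Fintype.card F : ℝ) ^ P.1.natDegree) ^ (M - 1) := by
      have : 0 < Fintype.card F := Fintype.card_pos
      positivity
    have h4 : ((f.map (Ideal.Quotient.mk (Ideal.span {P.1 ^ M}))).nA : ℝ) ≤
        n * ((Fintype.card F : ℝ) ^ P.1.natDegree) ^ (M - 1) := by exact_mod_cast hn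
    rw [add_comm]
    gcongr
    rwa [div_le_iff₀ hq]

end Pool.Agent.H456.BQ
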