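import Pool.Agent.H456.BQ.Stm2

/-!
(G5) `S_locI` from `S_locK` (take it as a hypothesis, as stated). `K = F(t)`, `sig : F[X] →+* K` is `X ↦ 1/t`,
`tt F k = t ^ k` (`k : ℤ`), `Oi F` is the local ring at infinity (see RN/Inf.lean and Oi.lean). Let `τ : K →+* K` be the
automorphism `t ↦ 1/t`: `τ (toK p) = sig p`, `τ (sig p) = toK p`, `τ (tt k) = tt (-k)`, `τ (τ x) = x`. Put `κ = tt (-n)`.
`f'.map sig = (f.map toK).sc (κ²)`, so applying `τ`, `(τ (κ³ y₀))² = (f'.map toK).ev (τ (κ² x₀))`. Apply `S_locK` at the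
place `PlX F` to `f'` and the point `(τ (κ² x₀), τ (κ³ y₀))`: data `m, N', g', H`. Let `N i = diag(1, κ) * (N' i).map τ`,
`g i = (g' i).map τ`. One has `gp (f.sc κ²) (κ² x₀) (κ³ y₀) = (gp f x₀ y₀).sub diag(1, κ)`, so
`(gp f x₀ y₀).sub (N i) = (g i).smul ((det τ N')²)` and `det (N i) = κ det τ N'`, hence the factor `tt (2n) det(N i)²`.
`τ` maps `LocP (PlX F)` into `Oi F` and conversely (`b(0) ≠ 0` iff `sig b` is a unit of `Oi F`), and `LocI (PlX F) x` implies
`τ x * tt 1 ∈ Oi F`. So `RedTo` gives `RedI`, and `LEq (Oi F) (N i) (N j)` implies `LEq (LocP (PlX F)) (N' i) (N' j)`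
(apply `τ`, cancel `diag(1, κ)`). The last inequality is the one of `S_locK` (`natDegree X = 1`).
-/

set_option autoImplicit false
set_option linter.all false

open Polynomial Finset
open Pool.Agent.H456.EC (toK toK_inj sig toK_eq reflect_toK)

namespace Pool.Agent.H456.BQ

section locI

variable {F : Type} [Field F]

theorem locI_sig_inj : Function.Injective (sig F) := by
  rw [injective_iff_map_eq_zero]
  intro p hp
  have h := reflect_toK (F := F) (N := p.natDegree) (f := p) le_rfl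
  rw [hp, mul_zero] at h
  have h2 : reflect p.natDegree p = 0 := toK_inj (by rw [h, map_zero])
  exact Polynomial.reflect_eq_zero_iff.1 h2

/-- the automorphism `t ↦ 1/t` -/
noncomputable def locI_tau (F : Type) [Field F] : RatFunc F →+* RatFunc F :=
  IsFractionRing.lift (A := F[X]) (K := RatFunc F) (g := sig F) locI_sig_inj

theorem locI_tau_toK (p : F[X]) : locI_tau F (toK F p) = sig F p :=
  IsFractionRing.lift_algebraMap locI_sig_inj p

theorem locI_sig_C (a : F) : sig F (C a) = RatFunc.C a := by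
  unfold sig
  rw [coe_eval₂RingHom, eval₂_C]

theorem locI_sig_X : sig F X = (RatFunc.X)⁻¹ := by
  unfold sig
  rw [coe_eval₂RingHom, eval₂_X]

theorem locI_toK_C (a : F) : toK F (C a) = RatFunc.C a := RatFunc.algebraMap_C a

theorem locI_toK_X : toK F X = RatFunc.X := RatFunc.algebraMap_X

theorem locI_tau_C (a : F) : locI_tau F (RatFunc.C a) = RatFunc.C a := by
  rw [← locI_toK_C, locI_tau_toK, locI_sig_C, locI_toK_C]

theorem locI_tau_X : locI_tau F RatFunc.X = (RatFunc.X)⁻¹ := by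
  rw [← locI_toK_X, locI_tau_toK, locI_sig_X, locI_toK_X]

theorem locI_tau_sig (p : F[X]) : locI_tau F (sig F p) = toK F p := by
  have h : (locI_tau F).comp (sig F) = toK F := by
    apply Polynomial.ringHom_ext
    · intro a
      rw [RingHom.comp_apply, locI_sig_C, locI_tau_C, locI_toK_C]
    · rw [RingHom.comp_apply, locI_sig_X, map_inv₀, locI_tau_X, inv_inv, locI_toK_X]
  exact RingHom.congr_fun h p

theorem locI_tau_tt (k : ℤ) : locI_tau F (tt F k) = tt F (-k) := by
  unfold tt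
  rw [map_zpow₀, locI_tau_X, inv_zpow, zpow_neg]

theorem locI_tau_tau (x : RatFunc F) : locI_tau F (locI_tau F x) = x := by
  have h3 := RatFunc.num_div_denom x
  have h4 : toK F x.num / toK F x.denom = x := h3
  rw [← h4]
  simp only [map_div₀, locI_tau_toK, locI_tau_sig]

theorem locI_unit {b : F[X]} (hb : ¬ X ∣ b) {a : F[X]} {y : RatFunc F} (h : sig F b * y = sig F a) :
    y ∈ Oi F := by
  have hb0 : b.coeff 0 ≠ 0 := fun h0 => hb (X_dvd_iff.2 h0)
  have hbne : b ≠ 0 := by
    rintro rfl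
    exact hb0 (coeff_zero 0)
  have h1 := reflect_toK (F := F) (N := b.natDegree) (f := b) le_rfl
  have hrne : reflect b.natDegree b ≠ 0 := fun h0 => hbne (Polynomial.reflect_eq_zero_iff.1 h0)
  have hdeg : (reflect b.natDegree b).natDegree = b.natDegree := by
    apply le_antisymm
    · have := natDegree_reflect_le (N := b.natDegree) (p := b)
      rwa [max_self] at this
    · apply le_natDegree_of_ne_zero
      rw [coeff_reflect, revAt_le le_rfl, Nat.sub_self]
      exact hb0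
  have hsne : sig F b ≠ 0 := fun h0 => hbne (locI_sig_inj (by rw [h0, map_zero]))
  have hs : (sig F b).intDegree = 0 := by
    have h2 := congrArg RatFunc.intDegree h1
    rw [RatFunc.intDegree_mul (pow_ne_zero _ RatFunc.X_ne_zero) hsne, ← tt_nat, intDegree_tt,
      show toK F (reflect b.natDegree b) = algebraMap _ _ (reflect b.natDegree b) from rfl,
      RatFunc.intDegree_polynomial, hdeg] at h2
    omega
  rw [mem_Oi]
  by_cases hy : y = 0
  · exact Or.inl hy
  right
  have h3 := congrArg RatFunc.intDegree h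
  rw [RatFunc.intDegree_mul hsne hy, hs, zero_add] at h3
  rw [h3]
  have h4 := sig_mem a
  rw [mem_Oi] at h4
  rcases h4 with h4 | h4
  · rw [h4] at h
    exact absurd ((mul_eq_zero.1 h).resolve_left hsne) hy
  · exact h4

theorem locI_P_to_O {x : RatFunc F} (hx : x ∈ LocP (PlX F)) : locI_tau F x ∈ Oi F := by
  obtain ⟨a, b, hb, h⟩ := hx
  apply locI_unit (b := b) hb (a := a)
  rw [← locI_tau_toK, ← locI_tau_toK, ← map_mul, h]

theorem locI_I_to_O {x : RatFunc F} (hx : LocI (PlX F) x) : locI_tau F x * tt F 1 ∈ Oi F := by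
  obtain ⟨a, b, hb, h⟩ := hx
  apply locI_unit (b := b) hb (a := a)
  have h1 : sig F b * locI_tau F x = sig F (X * a) := by
    rw [← locI_tau_toK, ← locI_tau_toK, ← map_mul, h]
    rfl
  rw [map_mul, locI_sig_X] at h1
  rw [← mul_assoc, h1]
  have h2 : tt F 1 = RatFunc.X := by
    unfold tt
    exact zpow_one _
  rw [h2]
  have h3 : (RatFunc.X : RatFunc F)⁻¹ * RatFunc.X = 1 := inv_mul_cancel₀ RatFunc.X_ne_zero
  linear_combination (sig F a) * h3

theorem locI_O_to_P {x : RatFunc F} (hx : x ∈ Oi F) : locI_tau F x ∈ LocP (PlX F) := by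
  rw [mem_Oi] at hx
  by_cases h0 : x = 0
  · rw [h0, map_zero]
    exact (LocP (PlX F)).zero_mem
  replace hx := hx.resolve_left h0
  have hdn : x.denom ≠ 0 := RatFunc.denom_ne_zero x
  have hle : x.num.natDegree ≤ x.denom.natDegree := by
    unfold RatFunc.intDegree at hx
    omega
  have h3 := RatFunc.num_div_denom x
  have hβ' : toK F x.denom ≠ 0 := (map_ne_zero_iff _ toK_inj).2 hdn
  rw [div_eq_iff hβ'] at h3
  have h4 : sig F x.denom * locI_tau F x = sig F x.num := by
    rw [← locI_tau_toK, ← locI_tau_toK, ← map_mul]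
    congr 1
    rw [mul_comm]
    exact h3.symm
  rw [mem_LocP]
  refine ⟨reflect x.denom.natDegree x.num, reflect x.denom.natDegree x.denom, ?_, ?_⟩
  · intro hd
    have hd' : (X : F[X]) ∣ reflect x.denom.natDegree x.denom := hd
    rw [X_dvd_iff, coeff_reflect, revAt_le (Nat.zero_le _), Nat.sub_zero] at hd'
    exact hdn (leadingCoeff_eq_zero.1 hd')
  · rw [reflect_toK le_rfl, reflect_toK hle, mul_assoc, h4]

theorem locI_map_map (N : M2 (RatFunc F)) : (N.map (locI_tau F)).map (locI_tau F) = N := by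
  ext <;> simp only [M2.map, locI_tau_tau]

/-- the restriction of `τ` -/
noncomputable def locI_rho (F : Type) [Field F] : Oi F →+* LocP (PlX F) :=
  (locI_tau F).restrict (Oi F) (LocP (PlX F)) (fun _ hx => locI_O_to_P hx)

theorem locI_LEq {N N' : M2 (RatFunc F)} (h : LEq (Oi F) N N') :
    LEq (LocP (PlX F)) (N.map (locI_tau F)) (N'.map (locI_tau F)) := by
  obtain ⟨c, V, hc, hV, e⟩ := h
  refine ⟨locI_tau F c, V.map (locI_rho F), (_root_.map_ne_zero _).2 hc, ?_, ?_⟩
  · rw [M2.map_det]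
    exact hV.map _
  · rw [e]
    ext <;> simp only [M2.map, M2.mul, M2.scal, map_mul, map_add] <;> rfl

theorem locI_cancel {O : Type} [CommRing O] [Algebra O (RatFunc F)] {κ : RatFunc F} (hκ : κ ≠ 0)
    {N N' : M2 (RatFunc F)} (h : LEq O ((⟨1, 0, 0, κ⟩ : M2 (RatFunc F)).mul N) ((⟨1, 0, 0, κ⟩ : M2 (RatFunc F)).mul N')) :
    LEq O N N' := by
  obtain ⟨c, V, hc, hV, e⟩ := h
  refine ⟨c, V, hc, hV, ?_⟩
  have h1 := congrArg M2.α e
  have h2 := congrArg M2.β e
  have h3 := congrArg M2.γ e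
  have h4 := congrArg M2.δ e
  simp only [M2.mul, M2.scal] at h1 h2 h3 h4
  ext
  · simp only [M2.mul, M2.scal]
    linear_combination h1
  · simp only [M2.mul, M2.scal]
    linear_combination h2
  · simp only [M2.mul, M2.scal]
    apply mul_left_cancel₀ hκ
    linear_combination h3
  · simp only [M2.mul, M2.scal]
    apply mul_left_cancel₀ hκ
    linear_combination h4

theorem locI_gp_map {R S : Type*} [CommRing R] [CommRing S] (φ : R →+* S) (f : Cub R) (x y : R) :
    (gp f x y).map φ = gp (f.map φ) (φ x) (φ y) := by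
  ext <;> simp [gp, Q4.map, Cub.map, map_ofNat]

theorem locI_gp_sc {R : Type*} [CommRing R] (f : Cub R) (κ x y : R) :
    gp (f.sc (κ ^ 2)) (κ ^ 2 * x) (κ ^ 3 * y) = (gp f x y).sub ⟨1, 0, 0, κ⟩ := by
  ext <;> simp only [gp, Q4.sub, Cub.sc] <;> ring

theorem locI_map_tau (f : Cub F[X]) : (f.map (toK F)).map (locI_tau F) = f.map (sig F) := by
  ext <;> simp only [Cub.map, locI_tau_toK]

theorem locI_map_tau' (f : Cub F[X]) : (f.map (sig F)).map (locI_tau F) = f.map (toK F) := by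
  ext <;> simp only [Cub.map, locI_tau_sig]

theorem locI_ev_map {R S : Type*} [CommRing R] [CommRing S] (φ : R →+* S) (f : Cub R) (x : R) :
    φ (f.ev x) = (f.map φ).ev (φ x) := by
  simp [Cub.ev, Cub.map]

theorem locI_main (hK : S_locK) (F : Type) [Field F] [Fintype F] (h2 : (2 : F) ≠ 0) (n M k : ℕ)
    (hM : 2 * k + 1 ≤ M) (f f' : Cub F[X])
    (hf : f'.map (sig F) = (f.map (toK F)).sc (tt F (-(n : ℤ)) ^ 2)) (hd : ¬ X ^ (k + 1) ∣ f'.disc)
    (x₀ y₀ : RatFunc F) (hxy : y₀ ^ 2 = (f.map (toK F)).ev x₀) :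
    ∃ (m : ℕ) (N : Fin m → M2 (RatFunc F)) (g : Fin m → Q4 (RatFunc F)) (H : Fin m → Q4 F[X]),
      (∀ i, (N i).det ≠ 0) ∧
      (∀ i, (gp (f.map (toK F)) x₀ y₀).sub (N i) = (g i).smul (tt F (2 * n) * (N i).det ^ 2)) ∧
      (∀ i, RedI (g i) (H i)) ∧
      (∀ i j, i ≠ j → ¬ LEq (Oi F) (N i) (N j)) ∧
      1 + ((f'.map (Ideal.Quotient.mk (Ideal.span {(X : F[X]) ^ M}))).nA : ℝ) /
        (Fintype.card F : ℝ) ^ (M - 1) ≤
        ∑ i, (((H i).map (Ideal.Quotient.mk (Ideal.span {(X : F[X]) ^ 1}))).sp : ℝ) := by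
  set κ : RatFunc F := tt F (-(n : ℤ)) with hκ
  have hκ0 : κ ≠ 0 := tt_ne _
  have hpt : (locI_tau F (κ ^ 3 * y₀)) ^ 2 = (f'.map (toK F)).ev (locI_tau F (κ ^ 2 * x₀)) := by
    rw [← locI_map_tau' f', ← locI_ev_map, ← map_pow, hf]
    congr 1
    simp only [Cub.ev, Cub.sc] at hxy ⊢
    linear_combination κ ^ 6 * hxy
  obtain ⟨m, N', g', H, hN', hg', hR', hL', hI'⟩ := hK F h2 (PlX F) M k hM f' hd _ _ hpt
  have hdet : ∀ i, ((⟨1, 0, 0, κ⟩ : M2 (RatFunc F)).mul ((N' i).map (locI_tau F))).det =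
      κ * locI_tau F (N' i).det := by
    intro i
    rw [M2.det_mul, M2.map_det]
    simp only [M2.det]
    ring
  refine ⟨m, fun i => (⟨1, 0, 0, κ⟩ : M2 (RatFunc F)).mul ((N' i).map (locI_tau F)),
    fun i => (g' i).map (locI_tau F), H, ?_, ?_, ?_, ?_, ?_⟩
  · intro i
    show ((⟨1, 0, 0, κ⟩ : M2 (RatFunc F)).mul ((N' i).map (locI_tau F))).det ≠ 0
    rw [hdet]
    exact mul_ne_zero hκ0 ((_root_.map_ne_zero _).2 (hN' i))
  · intro i
    show (gp (f.map (toK F)) x₀ y₀).sub ((⟨1, 0, 0, κ⟩ : M2 (RatFunc F)).mul ((N' i).map (locI_tau F))) =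
      ((g' i).map (locI_tau F)).smul
        (tt F (2 * n) * ((⟨1, 0, 0, κ⟩ : M2 (RatFunc F)).mul ((N' i).map (locI_tau F))).det ^ 2)
    have e1 : (gp (f.map (toK F)) x₀ y₀).sub ⟨1, 0, 0, κ⟩ =
        (gp (f'.map (toK F)) (locI_tau F (κ ^ 2 * x₀)) (locI_tau F (κ ^ 3 * y₀))).map (locI_tau F) := by
      rw [locI_gp_map, locI_map_tau, locI_tau_tau, locI_tau_tau, hf, locI_gp_sc]
    have e2 : tt F (2 * n) * κ ^ 2 = 1 := by
      rw [hκ, show (2 * n : ℤ) = n + n by ring, tt_add]
      have := tt_neg (F := F) n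
      linear_combination (tt F (-(n : ℤ)) * tt F n + 1) * this
    rw [hdet, ← Q4.sub_mul, e1, ← Q4.map_sub, hg', Q4.map_smul, map_pow]
    congr 1
    linear_combination (-(locI_tau F (N' i).det) ^ 2) * e2
  · intro i
    obtain ⟨r1, r2, r3, r4, r5⟩ := hR' i
    refine ⟨?_, ?_, ?_, ?_, ?_⟩
    · have := locI_I_to_O r1
      rwa [map_sub, locI_tau_toK] at this
    · have := locI_I_to_O r2
      rwa [map_sub, locI_tau_toK] at this
    · have := locI_I_to_O r3
      rwa [map_sub, locI_tau_toK] at this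
    · have := locI_I_to_O r4
      rwa [map_sub, locI_tau_toK] at this
    · have := locI_I_to_O r5
      rwa [map_sub, locI_tau_toK] at this
  · intro i j hij hL
    apply hL' i j hij
    have h3 := locI_LEq hL
    have e : ∀ i, ((⟨1, 0, 0, κ⟩ : M2 (RatFunc F)).mul ((N' i).map (locI_tau F))).map (locI_tau F) =
        (⟨1, 0, 0, locI_tau F κ⟩ : M2 (RatFunc F)).mul (N' i) := by
      intro i
      rw [M2.map_mul, locI_map_map]
      congr 1
      ext <;> simp only [M2.map, map_one, map_zero]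
    simp only [e] at h3
    exact locI_cancel ((_root_.map_ne_zero _).2 hκ0) h3
  · have h5 : (PlX F).1.natDegree = 1 := natDegree_X
    rw [h5, pow_one] at hI'
    exact hI'

end locI

theorem t_locI : S_locK → S_locI := by
  intro hK F _ _ h2 n M k hM f f' hf hd x₀ y₀ hxy
  exact locI_main hK F h2 n M k hM f f' hf hd x₀ y₀ hxy

end Pool.Agent.H456.BQ
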