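import Pool.Agent.H456.BQ.Stm2

/-!
(G3) `S_locK` from `S_comp`, `S_loc`, `S_hnf`, `S_spinv` (take them as hypotheses, as stated in Stm.lean, Stm2.lean; all
are proved or being proved by others). Take `(O, π, ι)` from `S_comp`, `L = FractionRing O`, `j : RatFunc F →+* L` the extension of
`algebraMap O L ∘ ι` (`ι` is injective by `Lc.dvd`). (`toK F = algebraMap F[X] (RatFunc F)` up to `toK_eq`; see
RN/Inf.lean.) Apply `S_loc` to `f` and `(j x₀, j y₀)`: `n`, `N₀ i : M2 L`, `G₀ i : Q4 O`, `H₀ i : Q4 F[X]`. By `S_hnf` there are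
`N i : M2 K` with `(N i).map j = (N₀ i) V_i` scaled by `c_i`. Put `g i = ((gp (f.map (toK F)) x₀ y₀).sub (N i)).smul (det⁻²)`.
Then `j (g i) = (G₀ i).sub V_i` divided by `det(V_i)²` is integral, so the entries of `g i` lie in `LocP P`
(`x = a/b` in lowest terms with `j x ∈ O`: if `P ∣ b` then `π ∣ ι a`, so `P ∣ a`, contradiction), and there is `H i : Q4 F[X]`
with `RedTo P (g i) (H i)` (`a / b ≡ a b'` mod `P`, `b b' ≡ 1`). With `V' : M2 F[X]`, `V' ≡ V_i` mod `π` (`Lc.dense`), the reductions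
modulo `P` satisfy `H i = ((H₀ i).sub V').smul (d²)`, `d det V' = 1`: `S_spinv` with `κ = Rq (P ^ 1)` (a field) gives
`sp (H i) = sp (H₀ i)`. If `LEq (LocP P) (N i) (N j)` then `LEq O (N₀ i) (N₀ j)` because `j` maps `LocP P` into (the image of)
`O` and units to units. So `n`, `N`, `g`, `H` satisfy all the requirements.
-/

set_option autoImplicit false
set_option linter.all false

open Polynomial Finset
open Pool.Agent.H456.EC (toK toK_inj sig toK_eq reflect_toK)

namespace Pool.Agent.H456.BQ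

section locK_leq

variable {O : Type} {L : Type} [CommRing O] [Field L] [Algebra O L]

theorem locK_leq_trans {N N' N'' : M2 L} (h : LEq O N N') (h' : LEq O N' N'') : LEq O N N'' := by
  obtain ⟨c, V, hc, hV, e⟩ := h
  obtain ⟨c', V', hc', hV', e'⟩ := h'
  refine ⟨c * c', V.mul V', mul_ne_zero hc hc', ?_, ?_⟩
  · rw [M2.det_mul]
    exact hV.mul hV'
  · rw [e', e, M2.scal_mul, M2.scal_scal, M2.map_mul, M2.mul_assoc]

theorem locK_leq_symm {N N' : M2 L} (h : LEq O N N') : LEq O N' N := by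
  obtain ⟨c, V, hc, hV, e⟩ := h
  obtain ⟨d, hd⟩ := hV.exists_left_inv
  refine ⟨c⁻¹, V.adj.scal d, inv_ne_zero hc, ?_, ?_⟩
  · rw [M2.det_scal, M2.det_adj]
    refine IsUnit.of_mul_eq_one V.det ?_
    have hd' : d * (V.α * V.δ - V.β * V.γ) = 1 := hd
    change d ^ 2 * (V.α * V.δ - V.β * V.γ) * (V.α * V.δ - V.β * V.γ) = 1
    linear_combination (d * (V.α * V.δ - V.β * V.γ) + 1) * hd'
  · have h1 : (V.map (algebraMap O L)).mul ((V.adj.scal d).map (algebraMap O L)) = ⟨1, 0, 0, 1⟩ := by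
      rw [← M2.map_mul]
      have h2 : V.mul (V.adj.scal d) = ⟨1, 0, 0, 1⟩ := by
        have hd' : d * (V.α * V.δ - V.β * V.γ) = 1 := hd
        ext <;> simp only [M2.mul, M2.adj, M2.scal]
        · linear_combination hd'
        · ring
        · ring
        · linear_combination hd'
      rw [h2]
      ext <;> simp [M2.map]
    have h3 : N.mul ⟨1, 0, 0, 1⟩ = N := by
      ext <;> simp [M2.mul]
    rw [e, M2.scal_mul, M2.scal_scal, M2.mul_assoc, h1, h3, mul_inv_cancel₀ hc]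
    ext <;> simp [M2.scal]

end locK_leq

section locK_loc

variable {F : Type} [Field F] {P : Pl F} {O : Type} [CommRing O] [IsDomain O]
  {π : O} {ι : F[X] →+* O}

theorem locK_dvd (hL : Lc P.1 π ι) (x : F[X]) : π ∣ ι x ↔ P.1 ∣ x := by
  have h := hL.dvd 1 x
  rwa [pow_one, pow_one] at h

theorem locK_unit (hL : Lc P.1 π ι) {b : F[X]} (hb : ¬ P.1 ∣ b) : IsUnit (ι b) := by
  have h1 : ¬ π ∣ ι b := fun h => hb ((locK_dvd hL b).1 h)
  have h2 : ι b ≠ 0 := fun h => h1 (h ▸ dvd_zero π)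
  obtain ⟨k, u, hu, h3⟩ := hL.pow _ h2
  rcases Nat.eq_zero_or_pos k with hk | hk
  · rw [h3, hk, pow_zero, mul_one]
    exact hu
  · exfalso
    apply h1
    rw [h3]
    exact Dvd.dvd.mul_left (dvd_pow_self π hk.ne') u

theorem locK_inj (hL : Lc P.1 π ι) : Function.Injective ι := by
  rw [injective_iff_map_eq_zero]
  intro x hx
  by_contra h0
  have h1 : ∀ k, P.1 ^ k ∣ x := by
    intro k
    rw [← hL.dvd, hx]
    exact dvd_zero _
  have h2 := natDegree_le_of_dvd (h1 (x.natDegree + 1)) h0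
  rw [natDegree_pow] at h2
  have h3 : 0 < P.1.natDegree := P.2.2.natDegree_pos
  have h4 : (x.natDegree + 1) * 1 ≤ (x.natDegree + 1) * P.1.natDegree := Nat.mul_le_mul_left _ h3
  omega

/-- the reduction -/
theorem locK_phi (hL : Lc P.1 π ι) : ∃ φ : O →+* Rq (P.1 ^ 1),
    (∀ x, φ (ι x) = Ideal.Quotient.mk (Ideal.span {P.1 ^ 1}) x) ∧ ∀ z, π ∣ z → φ z = 0 := by
  have hle : Ideal.span {P.1 ^ 1} ≤ (Ideal.span {π}).comap ι := by
    rw [Ideal.span_le, Set.singleton_subset_iff]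
    change ι (P.1 ^ 1) ∈ Ideal.span {π}
    rw [Ideal.mem_span_singleton, locK_dvd hL, pow_one]
  set θ : Rq (P.1 ^ 1) →+* O ⧸ Ideal.span {π} := Ideal.quotientMap (Ideal.span {π}) ι hle with hθ
  have hθ1 : ∀ x, θ (Ideal.Quotient.mk (Ideal.span {P.1 ^ 1}) x) =
      Ideal.Quotient.mk (Ideal.span {π}) (ι x) := fun x => Ideal.quotientMap_mk
  have hbij : Function.Bijective θ := by
    constructor
    · rw [injective_iff_map_eq_zero]
      intro y hy
      obtain ⟨x, rfl⟩ := Ideal.Quotient.mk_surjective y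
      rw [hθ1, Ideal.Quotient.eq_zero_iff_mem, Ideal.mem_span_singleton, locK_dvd hL] at hy
      rw [mk_zero, pow_one]
      exact hy
    · intro y
      obtain ⟨z, rfl⟩ := Ideal.Quotient.mk_surjective y
      obtain ⟨x, hx⟩ := hL.dense 1 z
      refine ⟨Ideal.Quotient.mk _ x, ?_⟩
      rw [hθ1, eq_comm, Ideal.Quotient.eq, Ideal.mem_span_singleton]
      rwa [pow_one] at hx
  set e := RingEquiv.ofBijective θ hbij with he
  refine ⟨e.symm.toRingHom.comp (Ideal.Quotient.mk (Ideal.span {π})), ?_, ?_⟩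
  · intro x
    change e.symm (Ideal.Quotient.mk (Ideal.span {π}) (ι x)) = _
    rw [RingEquiv.symm_apply_eq]
    exact (hθ1 x).symm
  · intro z hz
    change e.symm (Ideal.Quotient.mk (Ideal.span {π}) z) = 0
    have h1 : Ideal.Quotient.mk (Ideal.span {π}) z = 0 := by
      rw [Ideal.Quotient.eq_zero_iff_mem, Ideal.mem_span_singleton]
      exact hz
    rw [h1, map_zero]

theorem locK_field : IsField (Rq (P.1 ^ 1)) := by
  have h1 : Irreducible (P.1 ^ 1) := by
    rw [pow_one]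
    exact P.2.2
  exact (Ideal.Quotient.maximal_ideal_iff_isField_quotient _).1
    (PrincipalIdealRing.isMaximal_of_irreducible h1)

theorem locK_two (h2 : (2 : F) ≠ 0) : (2 : Rq (P.1 ^ 1)) ≠ 0 := by
  intro h
  have h1 : (Ideal.Quotient.mk (Ideal.span {P.1 ^ 1}) (C 2) : Rq (P.1 ^ 1)) = 0 := by
    rw [← h, map_ofNat C 2]
    exact map_ofNat _ 2
  rw [mk_zero, pow_one] at h1
  exact P.2.2.not_isUnit (isUnit_of_dvd_unit h1 (isUnit_C.2 (IsUnit.mk0 _ h2)))

variable {L : Type} [Field L] [Algebra O L] [IsFractionRing O L] {j : RatFunc F →+* L}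

theorem locK_mem (hL : Lc P.1 π ι) (hj : ∀ x : F[X], j (toK F x) = algebraMap O L (ι x))
    {x : RatFunc F} (hx : x ∈ LocP P) : ∃ z : O, algebraMap O L z = j x := by
  obtain ⟨a, b, hb, h⟩ := mem_LocP.1 hx
  obtain ⟨w, hw⟩ := (locK_unit hL hb).exists_right_inv
  refine ⟨ι a * w, ?_⟩
  have h1 := congrArg j h
  rw [map_mul, hj, hj] at h1
  have h2 := congrArg (algebraMap O L) hw
  rw [map_mul, map_one] at h2
  rw [map_mul, ← h1]
  linear_combination (j x) * h2

theorem locK_red (hL : Lc P.1 π ι) (hj : ∀ x : F[X], j (toK F x) = algebraMap O L (ι x))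
    {x : RatFunc F} {z : O} (hz : j x = algebraMap O L z) {h : F[X]} (hh : π ∣ z - ι h) :
    LocI P (x - toK F h) := by
  have hβ' : toK F x.denom ≠ 0 := (map_ne_zero_iff _ toK_inj).2 (RatFunc.denom_ne_zero x)
  have hdiv : toK F x.denom * x = toK F x.num := by
    have h3 := RatFunc.num_div_denom x
    rw [div_eq_iff hβ'] at h3
    rw [mul_comm]
    exact h3.symm
  have h1 : ι x.denom * z = ι x.num := by
    apply IsFractionRing.injective O L
    rw [map_mul, ← hz, ← hj, ← hj, ← hdiv, map_mul]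
  have hb : ¬ P.1 ∣ x.denom := by
    intro hP
    have h2 : π ∣ ι x.num := by
      rw [← h1]
      exact Dvd.dvd.mul_right ((locK_dvd hL _).2 hP) z
    rw [locK_dvd hL] at h2
    exact P.2.2.not_isUnit ((RatFunc.isCoprime_num_denom x).isUnit_of_dvd' h2 hP)
  have h2 : P.1 ∣ x.num - x.denom * h := by
    rw [← locK_dvd hL, map_sub, map_mul, ← h1]
    have h3 : ι x.denom * z - ι x.denom * ι h = ι x.denom * (z - ι h) := by ring
    rw [h3]
    exact Dvd.dvd.mul_left hh _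
  obtain ⟨a, ha⟩ := h2
  refine ⟨a, x.denom, hb, ?_⟩
  rw [← ha, map_sub, map_mul, ← hdiv]
  ring

theorem locK_leq_loc (hL : Lc P.1 π ι) (hj : ∀ x : F[X], j (toK F x) = algebraMap O L (ι x))
    {N N' : M2 (RatFunc F)} (h : LEq (LocP P) N N') : LEq O (N.map j) (N'.map j) := by
  obtain ⟨c, V, hc, hV, e⟩ := h
  obtain ⟨a, ha⟩ := locK_mem hL hj V.α.2
  obtain ⟨b, hb⟩ := locK_mem hL hj V.β.2
  obtain ⟨g, hg⟩ := locK_mem hL hj V.γ.2
  obtain ⟨d, hd⟩ := locK_mem hL hj V.δ.2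
  obtain ⟨w, hw⟩ := hV.exists_right_inv
  obtain ⟨w', hw'⟩ := locK_mem hL hj w.2
  have h1 : (V.map (algebraMap (LocP P) (RatFunc F))).map j =
      (⟨a, b, g, d⟩ : M2 O).map (algebraMap O L) := by
    ext
    · exact ha.symm
    · exact hb.symm
    · exact hg.symm
    · exact hd.symm
  refine ⟨j c, ⟨a, b, g, d⟩, (map_ne_zero j).2 hc, ?_, ?_⟩
  · refine IsUnit.of_mul_eq_one w' ?_
    apply IsFractionRing.injective O L
    rw [map_mul, ← M2.map_det, ← h1, M2.map_det, M2.map_det, hw', map_one]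
    have h2 : (V.det : RatFunc F) * (w : RatFunc F) = 1 := congrArg Subtype.val hw
    have h3 := congrArg j h2
    rw [map_mul, map_one] at h3
    exact h3
  · rw [e, ← h1, ← M2.map_mul]
    ext <;> simp [M2.map, M2.scal]

end locK_loc

theorem locK_main (hloc : S_loc) (hhnf : S_hnf) (hspinv : S_spinv) {F : Type} [Field F] [Fintype F]
    (h2 : (2 : F) ≠ 0) (P : Pl F) (O : Type) [CommRing O] [IsDomain O] (π : O) (ι : F[X] →+* O)
    (hL : Lc P.1 π ι) (L : Type) [Field L] [Algebra O L] [IsFractionRing O L] (j : RatFunc F →+* L)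
    (hj : ∀ x : F[X], j (toK F x) = algebraMap O L (ι x)) (M k : ℕ) (hMk : 2 * k + 1 ≤ M)
    (f : Cub F[X]) (hdisc : ¬ P.1 ^ (k + 1) ∣ f.disc) (x₀ y₀ : RatFunc F)
    (hxy : y₀ ^ 2 = (f.map (toK F)).ev x₀) :
    ∃ (n : ℕ) (N : Fin n → M2 (RatFunc F)) (g : Fin n → Q4 (RatFunc F)) (H : Fin n → Q4 F[X]),
      (∀ i, (N i).det ≠ 0) ∧
      (∀ i, (gp (f.map (toK F)) x₀ y₀).sub (N i) = (g i).smul ((N i).det ^ 2)) ∧
      (∀ i, RedTo P (g i) (H i)) ∧
      (∀ i j, i ≠ j → ¬ LEq (LocP P) (N i) (N j)) ∧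
      1 + ((f.map (Ideal.Quotient.mk (Ideal.span {P.1 ^ M}))).nA : ℝ) /
        ((Fintype.card F : ℝ) ^ P.1.natDegree) ^ (M - 1) ≤
        ∑ i, (((H i).map (Ideal.Quotient.mk (Ideal.span {P.1 ^ 1}))).sp : ℝ) := by
  have hfj : (f.map ι).map (algebraMap O L) = (f.map (toK F)).map j := by
    ext <;> simp only [Cub.map, hj]
  have hxy' : (j y₀) ^ 2 = ((f.map ι).map (algebraMap O L)).ev (j x₀) := by
    rw [hfj, ← map_pow, hxy]
    simp [Cub.ev, Cub.map]
  obtain ⟨n, N₀, G₀, H₀, hdet, hsub, hcong, hneq, hcount⟩ :=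
    hloc F h2 P O L π ι hL M k hMk f hdisc (j x₀) (j y₀) hxy'
  have hN : ∀ i, ∃ N' : M2 (RatFunc F), N'.det ≠ 0 ∧ LEq O (N₀ i) (N'.map j) := fun i =>
    hhnf F P O L π ι hL j hj (N₀ i) (hdet i)
  choose N hNdet hNleq using hN
  choose c V hc hV hNV using hNleq
  have hd : ∀ i, ∃ d, d * (V i).det = 1 := fun i => (hV i).exists_left_inv
  choose d hd using hd
  set g : Fin n → Q4 (RatFunc F) := fun i =>
    ((gp (f.map (toK F)) x₀ y₀).sub (N i)).smul (((N i).det)⁻¹ ^ 2) with hg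
  set G₁ : Fin n → Q4 O := fun i => ((G₀ i).sub (V i)).smul (d i ^ 2) with hG₁
  have hgp : (gp (f.map (toK F)) x₀ y₀).map j =
      gp ((f.map ι).map (algebraMap O L)) (j x₀) (j y₀) := by
    rw [hfj]
    ext <;> simp only [gp, Q4.map, Cub.map, map_ofNat, map_neg, map_add, map_sub, map_mul, map_pow,
      map_one, map_zero]
  have hgmap : ∀ i, (g i).map j = (G₁ i).map (algebraMap O L) := by
    intro i
    have hdi : algebraMap O L (d i) * algebraMap O L (V i).det = 1 := by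
      rw [← map_mul, hd i, map_one]
    have hdetV : algebraMap O L (V i).det ≠ 0 := by
      intro h0
      rw [h0, mul_zero] at hdi
      exact zero_ne_one hdi
    have hdetN : ((N i).map j).det = c i ^ 2 * ((N₀ i).det * algebraMap O L (V i).det) := by
      rw [hNV i, M2.det_scal, M2.det_mul, M2.map_det]
    have e1 : (g i).map j = ((gp ((f.map ι).map (algebraMap O L)) (j x₀) (j y₀)).sub
        ((N i).map j)).smul ((((N i).map j).det)⁻¹ ^ 2) := by
      rw [hg]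
      simp only
      rw [Q4.map_smul, Q4.map_sub, hgp, M2.map_det, map_pow, map_inv₀]
    have e2 : (G₁ i).map (algebraMap O L) = (((G₀ i).map (algebraMap O L)).sub
        ((V i).map (algebraMap O L))).smul (algebraMap O L (d i) ^ 2) := by
      rw [hG₁]
      simp only
      rw [Q4.map_smul, Q4.map_sub, map_pow]
    rw [e1, e2, hdetN, hNV i, Q4.sub_scal, ← Q4.sub_mul, hsub i, Q4.smul_sub, Q4.smul_smul,
      Q4.smul_smul]
    congr 1
    have hci := hc i
    have hN0 := hdet i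
    have h3 : algebraMap O L (d i) = (algebraMap O L (V i).det)⁻¹ := eq_inv_of_mul_eq_one_left hdi
    rw [h3]
    field_simp
  have hH : ∀ i, ∃ H : Q4 F[X], (π ∣ (G₁ i).A - ι H.A) ∧ (π ∣ (G₁ i).B - ι H.B) ∧
      (π ∣ (G₁ i).C - ι H.C) ∧ (π ∣ (G₁ i).D - ι H.D) ∧ (π ∣ (G₁ i).E - ι H.E) := by
    intro i
    obtain ⟨hA, hA'⟩ := hL.dense 1 (G₁ i).A
    obtain ⟨hB, hB'⟩ := hL.dense 1 (G₁ i).B
    obtain ⟨hC, hC'⟩ := hL.dense 1 (G₁ i).C
    obtain ⟨hD, hD'⟩ := hL.dense 1 (G₁ i).D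
    obtain ⟨hE, hE'⟩ := hL.dense 1 (G₁ i).E
    rw [pow_one] at hA' hB' hC' hD' hE'
    exact ⟨⟨hA, hB, hC, hD, hE⟩, hA', hB', hC', hD', hE'⟩
  choose H hH using hH
  obtain ⟨φ, hφ, hφ0⟩ := locK_phi hL
  have hφmap : ∀ (G : Q4 O) (H : Q4 F[X]), ((π ∣ G.A - ι H.A) ∧ (π ∣ G.B - ι H.B) ∧
      (π ∣ G.C - ι H.C) ∧ (π ∣ G.D - ι H.D) ∧ (π ∣ G.E - ι H.E)) →
      H.map (Ideal.Quotient.mk (Ideal.span {P.1 ^ 1})) = G.map φ := by
    have h3 : ∀ (z : O) (x : F[X]), π ∣ z - ι x →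
        Ideal.Quotient.mk (Ideal.span {P.1 ^ 1}) x = φ z := by
      intro z x hz
      have h4 := hφ0 _ hz
      rw [map_sub, hφ, sub_eq_zero] at h4
      exact h4.symm
    rintro G H ⟨hA, hB, hC, hD, hE⟩
    ext
    · exact h3 _ _ hA
    · exact h3 _ _ hB
    · exact h3 _ _ hC
    · exact h3 _ _ hD
    · exact h3 _ _ hE
  have hsp : ∀ i, ((H i).map (Ideal.Quotient.mk (Ideal.span {P.1 ^ 1}))).sp =
      ((H₀ i).map (Ideal.Quotient.mk (Ideal.span {P.1 ^ 1}))).sp := by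
    intro i
    rw [hφmap (G₁ i) (H i) (hH i), hφmap (G₀ i) (H₀ i) (hcong i)]
    have e2 : (G₁ i).map φ = (((G₀ i).map φ).sub ((V i).map φ)).smul (φ (d i) ^ 2) := by
      rw [hG₁]
      simp only
      rw [Q4.map_smul, Q4.map_sub, map_pow]
    rw [e2]
    refine hspinv (Rq (P.1 ^ 1)) locK_field (locK_two h2) _ _ _ ?_
    rw [M2.map_det, ← map_mul, hd i, map_one]
  refine ⟨n, N, g, H, hNdet, ?_, ?_, ?_, ?_⟩
  · intro i
    rw [hg]
    simp only
    rw [Q4.smul_smul]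
    have h3 : (N i).det⁻¹ ^ 2 * (N i).det ^ 2 = 1 := by
      rw [← mul_pow, inv_mul_cancel₀ (hNdet i), one_pow]
    rw [h3, Q4.smul_one]
  · intro i
    have h3 := hgmap i
    obtain ⟨hA, hB, hC, hD, hE⟩ := hH i
    exact ⟨locK_red hL hj (congrArg Q4.A h3) hA, locK_red hL hj (congrArg Q4.B h3) hB,
      locK_red hL hj (congrArg Q4.C h3) hC, locK_red hL hj (congrArg Q4.D h3) hD,
      locK_red hL hj (congrArg Q4.E h3) hE⟩
  · intro i i' hii h
    apply hneq i i' hii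
    have h3 := locK_leq_loc hL hj h
    have h4 : LEq O (N₀ i) ((N i).map j) := ⟨c i, V i, hc i, hV i, hNV i⟩
    have h5 : LEq O (N₀ i') ((N i').map j) := ⟨c i', V i', hc i', hV i', hNV i'⟩
    exact locK_leq_trans h4 (locK_leq_trans h3 (locK_leq_symm h5))
  · refine hcount.trans (le_of_eq ?_)
    exact Finset.sum_congr rfl fun i _ => by rw [hsp i]

theorem t_locK : S_comp → S_loc → S_hnf → S_spinv → S_locK := by
  intro hcomp hloc hhnf hspinv F _ _ h2 P M k hMk f hdisc x₀ y₀ hxy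
  obtain ⟨O, _, _, π, ι, hL⟩ := hcomp F P.1 P.2.1 P.2.2
  have hinj : Function.Injective ((algebraMap O (FractionRing O)).comp ι) :=
    (IsFractionRing.injective O (FractionRing O)).comp (locK_inj hL)
  exact locK_main hloc hhnf hspinv h2 P O π ι hL (FractionRing O) (IsFractionRing.lift hinj)
    (fun x => IsFractionRing.lift_algebraMap hinj x) M k hMk f hdisc x₀ y₀ hxy

end Pool.Agent.H456.BQ
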