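import Pool.Agent.H456.BQ.Stm3

/-!
(J6) `S_phi` from `S_star` (Stm.lean; take it as a hypothesis, it is proved in another file). `Q = q ^ deg P`, `R = F[X]/(P^M)`,
`#R = Q^M`. Put `Φ f = χ (f.sc i4) / (1 + nA (f.sc i4) / Q^(M-1))`. It is translation invariant: `(f.tr r).sc i4 = (f.sc i4).tr (i4 * r)`
(`Cub.sc_tr`) and `nA (f.tr r) = nA f` (bijection `x ↦ x + r` on the solutions of `y² = f(x)`, `Cub.ev_tr`). By `S_star`,
`LHS = (1 - Q⁻²) (Q^M)² (Σ_f Φ (f.sc 4) + Q Σ_{(a,b,y)} Φ (⟨a,b,y²⟩.sc 4))`, and `Φ (f.sc 4) = F₀ f := χ f / (1 + nA f / Q^(M-1))`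
since `i4 * 4 = 1` (`Cub.sc_sc`, `Cub.sc_one`). It remains to show
`Σ_f F₀ f + Q Σ_{(a,b,y)} F₀ ⟨a,b,y²⟩ = Σ_f χ f`. Now `Σ_f χ f = Σ_f F₀ f (1 + nA f / Q^(M-1))` (`1 + nA / Q^(M-1) > 0`), and
`Σ_f F₀ f * nA f = Σ_x Σ_y Σ_{f : f(x) = y²} F₀ f`; for fixed `x` substitute `f = f'.tr (-x)` (a bijection of `Cub R`,
`f(x) = f'(0) = f'.c`, `F₀ f = F₀ f'`): it is `Σ_x Σ_y Σ_{f' : f'.c = y²} F₀ f' = #R Σ_{(a,b,y)} F₀ ⟨a,b,y²⟩`, and `#R / Q^(M-1) = Q`.
(`sum_Cub` of Base.lean: sums over `Cub R` as iterated sums. `#R = Q^M`: e.g. `Nat.card (Rq m) = q ^ natDegree m` for `m` monic,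
through `AdjoinRoot.powerBasis'` or polynomials of degree `< natDegree m`; prove it if needed.)
-/

set_option autoImplicit false
set_option linter.all false

open Polynomial Finset
open Pool.Agent.H456.EC (toK toK_inj sig toK_eq reflect_toK)

namespace Pool.Agent.H456.BQ

section phi

variable {R : Type} [CommRing R] [Fintype R]

theorem phi_nA (f : Cub R) (g : ℝ) : g * (f.nA : ℝ) =
    ∑ x : R, ∑ y : R, (open Classical in if y ^ 2 = f.ev x then g else 0) := by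
  classical
  unfold Cub.nA
  rw [Finset.card_filter, Nat.cast_sum, Finset.mul_sum, Fintype.sum_prod_type]
  refine Finset.sum_congr rfl fun x _ => Finset.sum_congr rfl fun y _ => ?_
  by_cases h : y ^ 2 = f.ev x
  · simp [h]
  · simp [h]

/-- translation as a bijection -/
def phi_tr (r : R) : Cub R ≃ Cub R where
  toFun f := f.tr r
  invFun f := f.tr (-r)
  left_inv f := by
    show (f.tr r).tr (-r) = f
    rw [Cub.tr_tr, add_neg_cancel, Cub.tr_zero]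
  right_inv f := by
    show (f.tr (-r)).tr r = f
    rw [Cub.tr_tr, neg_add_cancel, Cub.tr_zero]

theorem phi_nA_tr (f : Cub R) (r : R) : (f.tr r).nA = f.nA := by
  classical
  have h1 := phi_nA (f.tr r) 1
  have h2 := phi_nA f 1
  have h3 : ∑ x : R, ∑ y : R, (if y ^ 2 = (f.tr r).ev x then (1 : ℝ) else 0) =
      ∑ x : R, ∑ y : R, (if y ^ 2 = f.ev x then (1 : ℝ) else 0) := by
    rw [← Fintype.sum_equiv (Equiv.addRight r)
      (fun x => ∑ y : R, (if y ^ 2 = f.ev (x + r) then (1 : ℝ) else 0))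
      (fun x => ∑ y : R, (if y ^ 2 = f.ev x then (1 : ℝ) else 0)) (fun _ => rfl)]
    refine Finset.sum_congr rfl fun x _ => Finset.sum_congr rfl fun y _ => ?_
    rw [Cub.ev_tr]
  rw [one_mul] at h1 h2
  have h4 : ((f.tr r).nA : ℝ) = (f.nA : ℝ) := by
    rw [h1, h2]
    exact h3
  exact_mod_cast h4

theorem phi_main (F₀ : Cub R → ℝ) (h : ∀ f r, F₀ (f.tr r) = F₀ f) :
    ∑ f : Cub R, F₀ f * (f.nA : ℝ) = (Fintype.card R : ℝ) *
      ∑ x : R × R × R, F₀ ⟨x.1, x.2.1, x.2.2 ^ 2⟩ := by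
  classical
  have h1 : ∀ f : Cub R, F₀ f * (f.nA : ℝ) =
      ∑ x : R, ∑ y : R, (if y ^ 2 = f.ev x then F₀ f else 0) := by
    intro f
    rw [phi_nA f (F₀ f)]
  have h2 : ∀ x y : R, ∑ f : Cub R, (if y ^ 2 = f.ev x then F₀ f else 0) =
      ∑ a : R, ∑ b : R, F₀ ⟨a, b, y ^ 2⟩ := by
    intro x y
    rw [← (phi_tr (-x)).sum_comp (fun f : Cub R => if y ^ 2 = f.ev x then F₀ f else 0)]
    have h3 : ∀ f : Cub R, (if y ^ 2 = (phi_tr (-x) f).ev x then F₀ (phi_tr (-x) f) else 0) =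
        (if y ^ 2 = f.c then F₀ f else 0) := by
      intro f
      have e1 : (phi_tr (-x) f).ev x = f.c := by
        show (f.tr (-x)).ev x = f.c
        rw [Cub.ev_tr, add_neg_cancel]
        simp [Cub.ev]
      have e2 : F₀ (phi_tr (-x) f) = F₀ f := h f (-x)
      rw [e1, e2]
    rw [Finset.sum_congr rfl fun f _ => h3 f, sum_Cub]
    refine Finset.sum_congr rfl fun a _ => Finset.sum_congr rfl fun b _ => ?_
    simp
  calc ∑ f : Cub R, F₀ f * (f.nA : ℝ)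
      = ∑ f : Cub R, ∑ x : R, ∑ y : R, (if y ^ 2 = f.ev x then F₀ f else 0) :=
        Finset.sum_congr rfl fun f _ => h1 f
    _ = ∑ x : R, ∑ y : R, ∑ f : Cub R, (if y ^ 2 = f.ev x then F₀ f else 0) := by
        rw [Finset.sum_comm]
        refine Finset.sum_congr rfl fun x _ => ?_
        rw [Finset.sum_comm]
    _ = ∑ x : R, ∑ y : R, ∑ a : R, ∑ b : R, F₀ ⟨a, b, y ^ 2⟩ :=
        Finset.sum_congr rfl fun x _ => Finset.sum_congr rfl fun y _ => h2 x y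
    _ = (Fintype.card R : ℝ) * ∑ y : R, ∑ a : R, ∑ b : R, F₀ ⟨a, b, y ^ 2⟩ := by
        rw [Finset.sum_const, Finset.card_univ, nsmul_eq_mul]
    _ = _ := by
        congr 1
        rw [Fintype.sum_prod_type]
        simp only [Fintype.sum_prod_type]
        rw [Finset.sum_comm]
        refine Finset.sum_congr rfl fun a _ => ?_
        rw [Finset.sum_comm]

end phi

theorem phi_card {F : Type} [Field F] [Fintype F] (P : Pl F) (M : ℕ) :
    Fintype.card (Rq (P.1 ^ M)) = (Fintype.card F ^ P.1.natDegree) ^ M := by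
  have hm : (P.1 ^ M).Monic := P.2.1.pow M
  have h1 : Module.Finite F (AdjoinRoot (P.1 ^ M)) := (AdjoinRoot.powerBasis' hm).finite
  have h2 : Nat.card (AdjoinRoot (P.1 ^ M)) = Nat.card F ^ Module.finrank F (AdjoinRoot (P.1 ^ M)) :=
    Module.natCard_eq_pow_finrank
  have h3 : Module.finrank F (AdjoinRoot (P.1 ^ M)) = (P.1 ^ M).natDegree := by
    rw [(AdjoinRoot.powerBasis' hm).finrank]
    rfl
  rw [h3, P.2.1.natDegree_pow, mul_comm, pow_mul] at h2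
  rw [← Nat.card_eq_fintype_card, ← Nat.card_eq_fintype_card (α := F), ← h2]
  rfl

theorem t_phi : S_star → S_phi := by
  intro hs F _ _ h2 P M hM χ hχ i4 hi4
  obtain ⟨Q, hQ⟩ : ∃ Q : ℝ, Q = (Fintype.card F : ℝ) ^ P.1.natDegree := ⟨_, rfl⟩
  have hQ0 : 0 < Q := by
    rw [hQ]
    have : 0 < Fintype.card F := Fintype.card_pos
    positivity
  obtain ⟨F₀, hF₀⟩ : ∃ F₀ : Cub (Rq (P.1 ^ M)) → ℝ, F₀ = fun f => χ f / (1 + (f.nA : ℝ) / Q ^ (M - 1)) :=
    ⟨_, rfl⟩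
  have hF₀t : ∀ f r, F₀ (f.tr r) = F₀ f := by
    intro f r
    rw [hF₀]
    simp only
    rw [hχ, phi_nA_tr]
  have hs1 := hs F h2 P M hM (fun f => F₀ (f.sc i4)) (by
    intro f r
    show F₀ ((f.tr r).sc i4) = F₀ (f.sc i4)
    rw [Cub.sc_tr, hF₀t])
  have e1 : ∀ g : Q4 (Rq (P.1 ^ M)), ((g.map (redP P.1 hM)).sp : ℝ) * (χ (g.res.sc i4) /
      (1 + ((g.res.sc i4).nA : ℝ) / ((Fintype.card F : ℝ) ^ P.1.natDegree) ^ (M - 1))) =
      ((g.map (redP P.1 hM)).sp : ℝ) * F₀ (g.res.sc i4) := by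
    intro g
    rw [hF₀, hQ]
  rw [Finset.sum_congr rfl fun g _ => e1 g, hs1]
  congr 1
  have e2 : ∀ f : Cub (Rq (P.1 ^ M)), F₀ ((f.sc 4).sc i4) = F₀ f := by
    intro f
    rw [Cub.sc_sc, mul_comm, hi4, Cub.sc_one]
  simp only [e2]
  rw [← hQ]
  have hm := phi_main F₀ hF₀t
  rw [phi_card] at hm
  push_cast at hm
  rw [← hQ] at hm
  have hQM : Q ^ M = Q ^ (M - 1) * Q := by
    rw [← pow_succ, Nat.sub_add_cancel hM]
  have hne : Q ^ (M - 1) ≠ 0 := by positivity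
  have e3 : ∀ f : Cub (Rq (P.1 ^ M)), χ f = F₀ f + (Q ^ (M - 1))⁻¹ * (F₀ f * (f.nA : ℝ)) := by
    intro f
    have h1 : 0 < 1 + (f.nA : ℝ) / Q ^ (M - 1) := by positivity
    have h3 : χ f = F₀ f * (1 + (f.nA : ℝ) / Q ^ (M - 1)) := by
      rw [hF₀]
      simp only
      rw [div_mul_cancel₀ _ h1.ne']
    rw [h3]
    ring
  rw [Finset.sum_congr rfl fun f _ => e3 f, Finset.sum_add_distrib, ← Finset.mul_sum, hm, hQM]
  congr 1
  rw [← mul_assoc, ← mul_assoc, inv_mul_cancel₀ hne, one_mul]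

end Pool.Agent.H456.BQ
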