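import Pool.Agent.H456.BQ.Stm

/-!
(S6) `S_pts`: the integral points of `y² = f(x)` over the completion, in balls.
-/

set_option autoImplicit false
set_option linter.all false

open Polynomial Finset

namespace Pool.Agent.H456.BQ

section ptsA

/-- division by a power of a prime -/
theorem pts_div {R : Type*} [CommRing R] [IsDomain R] {p : R} (hp : Prime p) : ∀ (κ : ℕ) (v : R),
    ¬ p ^ (κ + 1) ∣ v → ∀ (M : ℕ) (u : R), p ^ M ∣ u * v → p ^ (M - κ) ∣ u := by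
  intro κ
  induction κ with
  | zero =>
    intro v hv M u h
    rw [zero_add, pow_one] at hv
    rw [Nat.sub_zero]
    exact hp.pow_dvd_of_dvd_mul_right M hv h
  | succ κ ih =>
    intro v hv M u h
    by_cases h1 : p ∣ v
    · obtain ⟨v', rfl⟩ := h1
      rcases M with _ | M
      · simp
      have h2 : ¬ p ^ (κ + 1) ∣ v' := by
        intro h3; apply hv; rw [pow_succ' p (κ + 1)]; exact mul_dvd_mul_left p h3
      have h3 : p ^ M ∣ u * v' := by
        have : p * p ^ M ∣ p * (u * v') := by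
          rw [← pow_succ']; convert h using 1; ring
        exact (mul_dvd_mul_iff_left hp.ne_zero).1 this
      have := ih v' h2 M u h3
      rw [Nat.succ_sub_succ]
      exact this
    · exact (pow_dvd_pow p (Nat.sub_le _ _)).trans (hp.pow_dvd_of_dvd_mul_right M h1 h)

theorem pts_uniq {R : Type*} [CommRing R] {p s t : R} {κ κ' : ℕ} (h1 : p ^ κ ∣ s ∧ p ^ κ ∣ t)
    (h2 : ¬ (p ^ (κ + 1) ∣ s ∧ p ^ (κ + 1) ∣ t)) (h3 : p ^ κ' ∣ s ∧ p ^ κ' ∣ t)
    (h4 : ¬ (p ^ (κ' + 1) ∣ s ∧ p ^ (κ' + 1) ∣ t)) : κ = κ' := by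
  rcases lt_trichotomy κ κ' with h | h | h
  · exact absurd ⟨(pow_dvd_pow p h).trans h3.1, (pow_dvd_pow p h).trans h3.2⟩ h2
  · exact h
  · exact absurd ⟨(pow_dvd_pow p h).trans h1.1, (pow_dvd_pow p h).trans h1.2⟩ h4

theorem pts_cong {R : Type*} [CommRing R] {q a b x y x0 y0 : R} (hx : q ∣ x - x0) (hy : q ∣ y - y0) :
    (q ∣ 2 * y ∧ q ∣ 3 * x ^ 2 + 2 * a * x + b) ↔ (q ∣ 2 * y0 ∧ q ∣ 3 * x0 ^ 2 + 2 * a * x0 + b) := by
  have e1 : q ∣ 2 * y - 2 * y0 := by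
    have : 2 * y - 2 * y0 = 2 * (y - y0) := by ring
    rw [this]; exact Dvd.dvd.mul_left hy _
  have e2 : q ∣ (3 * x ^ 2 + 2 * a * x + b) - (3 * x0 ^ 2 + 2 * a * x0 + b) := by
    have : (3 * x ^ 2 + 2 * a * x + b) - (3 * x0 ^ 2 + 2 * a * x0 + b) = (3 * (x + x0) + 2 * a) * (x - x0) := by ring
    rw [this]; exact Dvd.dvd.mul_left hx _
  rw [dvd_iff_dvd_of_dvd_sub e1, dvd_iff_dvd_of_dvd_sub e2]

theorem pts_val {R : Type*} [CommRing R] {p μ s t T U V : R} (hμ : p ∣ μ) (hU : U = s + μ * t)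
    (hV : V = t + μ * s * T) (j : ℕ) : (p ^ j ∣ U ∧ p ^ j ∣ V) ↔ (p ^ j ∣ s ∧ p ^ j ∣ t) := by
  constructor
  · induction j with
    | zero => simp
    | succ j ih =>
      rintro ⟨h1, h2⟩
      obtain ⟨h3, h4⟩ := ih ⟨(pow_dvd_pow p (Nat.le_succ j)).trans h1, (pow_dvd_pow p (Nat.le_succ j)).trans h2⟩
      have h5 : p ^ (j + 1) ∣ μ * s := by rw [pow_succ']; exact mul_dvd_mul hμ h3
      have h6 : p ^ (j + 1) ∣ μ * t := by rw [pow_succ']; exact mul_dvd_mul hμ h4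
      refine ⟨?_, ?_⟩
      · have : s = U - μ * t := by rw [hU]; ring
        rw [this]; exact dvd_sub h1 h6
      · have : t = V - μ * s * T := by rw [hV]; ring
        rw [this]; exact dvd_sub h2 (Dvd.dvd.mul_right h5 _)
  · rintro ⟨h1, h2⟩
    rw [hU, hV]
    exact ⟨dvd_add h1 (Dvd.dvd.mul_left h2 _), dvd_add h2 (Dvd.dvd.mul_right (Dvd.dvd.mul_left h1 _) _)⟩

end ptsA

section ptsB

variable {F : Type} [Field F] {P : F[X]} {O : Type} [CommRing O] [IsDomain O] {π : O} {ι : F[X] →+* O}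

theorem pts_unit (h : Lc P π ι) {x : O} (hx : ¬ π ∣ x) : IsUnit x := by
  have h0 : x ≠ 0 := by rintro rfl; exact hx (dvd_zero _)
  obtain ⟨k, u, hu, rfl⟩ := h.pow x h0
  rcases k with _ | k
  · simpa using hu
  · exact absurd (Dvd.intro_left (u * π ^ k) (by ring)) hx

theorem pts_inf (h : Lc P π ι) : Infinite O := by
  refine Infinite.of_injective (fun n : ℕ => π ^ n) ?_
  have key : ∀ m d : ℕ, π ^ m ≠ π ^ (m + d + 1) := by
    intro m d hmd
    have : π ^ m * 1 = π ^ m * π ^ (d + 1) := by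
      rw [mul_one, ← pow_add, ← add_assoc]; exact hmd
    have h1 := mul_left_cancel₀ (pow_ne_zero m h.ne) this
    apply h.nonunit
    rw [isUnit_iff_exists_inv]
    exact ⟨π ^ d, by rw [← pow_succ', ← h1]⟩
  intro m n hmn
  simp only at hmn
  rcases lt_trichotomy m n with hlt | heq | hlt
  · obtain ⟨d, rfl⟩ := Nat.exists_eq_add_of_lt hlt
    exact absurd hmn (key m d)
  · exact heq
  · obtain ⟨d, rfl⟩ := Nat.exists_eq_add_of_lt hlt
    exact absurd hmn.symm (key n d)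

theorem pts_dich (h : Lc P π ι) {x y : O} (hx : x ≠ 0) (hy : y ≠ 0) :
    (∃ l, l * x = y) ∨ ∃ μ, π ∣ μ ∧ x = μ * y := by
  obtain ⟨m, u, ⟨u, rfl⟩, rfl⟩ := h.pow x hx
  obtain ⟨n, v, ⟨v, rfl⟩, rfl⟩ := h.pow y hy
  rcases le_or_gt m n with hmn | hmn
  · left
    obtain ⟨d, rfl⟩ := Nat.exists_eq_add_of_le hmn
    refine ⟨v * ↑u⁻¹ * π ^ d, ?_⟩
    have : (↑u⁻¹ : O) * u = 1 := Units.inv_mul u
    rw [pow_add]
    linear_combination (v * π ^ d * π ^ m) * this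
  · right
    obtain ⟨d, rfl⟩ := Nat.exists_eq_add_of_lt hmn
    refine ⟨u * ↑v⁻¹ * π ^ (d + 1), ⟨u * ↑v⁻¹ * π ^ d, by ring⟩, ?_⟩
    have : (↑v⁻¹ : O) * v = 1 := Units.inv_mul v
    have e : π ^ (n + d + 1) = π ^ n * π ^ (d + 1) := by rw [← pow_add]; rfl
    rw [e]
    linear_combination (-(u * π ^ n * π ^ (d + 1))) * this

/-- the separation of the points -/
theorem pts_sep (h : Lc P π ι) {a b c x y x' y' : O} (h1 : y ^ 2 = x ^ 3 + a * x ^ 2 + b * x + c)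
    (h2 : y' ^ 2 = x' ^ 3 + a * x' ^ 2 + b * x' + c) (hne : x ≠ x') (hl : ¬ ∃ l, l * (x - x') = y + y') :
    ∃ s t μ T T' : O, π ∣ μ ∧ x - x' = μ * s ∧ y - y' = μ * t ∧ 2 * y = s + μ * t ∧ 2 * y' = s + (-μ) * t ∧
      3 * x ^ 2 + 2 * a * x + b = t + μ * s * T ∧ 3 * x' ^ 2 + 2 * a * x' + b = t + (-μ) * s * T' := by
  have hs : y + y' ≠ 0 := by
    intro h0; exact hl ⟨0, by rw [h0, zero_mul]⟩
  have hx : x - x' ≠ 0 := sub_ne_zero.2 hne
  rcases pts_dich h hx hs with h3 | ⟨μ, hμ, h3⟩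
  · exact absurd h3 hl
  have h4 : y - y' = μ * (x ^ 2 + x * x' + x' ^ 2 + a * (x + x') + b) := by
    apply mul_left_cancel₀ hs
    linear_combination h1 - h2 + (x ^ 2 + x * x' + x' ^ 2 + a * (x + x') + b) * h3
  refine ⟨y + y', x ^ 2 + x * x' + x' ^ 2 + a * (x + x') + b, μ, 2 * x + x' + a, 2 * x' + x + a, hμ, h3, h4, ?_, ?_, ?_, ?_⟩
  · linear_combination h4
  · linear_combination -h4
  · linear_combination (2 * x + x' + a) * h3
  · linear_combination (-(2 * x' + x + a)) * h3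

theorem pts_infinite (h : Lc P π ι) {a b c x y : O} {κ M : ℕ} (hM : 2 * κ + 1 ≤ M)
    (h0 : π ^ M ∣ y ^ 2 - (x ^ 3 + a * x ^ 2 + b * x + c))
    (h1 : π ^ κ ∣ 2 * y) (h2 : π ^ κ ∣ 3 * x ^ 2 + 2 * a * x + b)
    (h3 : ¬ (π ^ (κ + 1) ∣ 2 * y ∧ π ^ (κ + 1) ∣ 3 * x ^ 2 + 2 * a * x + b)) :
    (Prod.fst '' {p : O × O | p.2 ^ 2 = p.1 ^ 3 + a * p.1 ^ 2 + b * p.1 + c ∧ π ^ (κ + 1) ∣ p.1 - x ∧
      π ^ (κ + 1) ∣ p.2 - y}).Infinite := by
  haveI := pts_inf h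
  obtain ⟨d, rfl⟩ := Nat.exists_eq_add_of_le hM
  obtain ⟨e, he⟩ := h0
  have hinj : ∀ z : O, Function.Injective (fun t : O => z + π ^ (2 * κ + 1 + d) * t) := by
    intro z t t' htt
    simp only at htt
    exact mul_left_cancel₀ (pow_ne_zero _ h.ne) (add_left_cancel htt)
  have hpow : π ^ (2 * κ + 1 + d) = π ^ (κ + 1) * (π ^ κ * π ^ d) := by
    rw [← pow_add, ← pow_add]; congr 1; ring
  have hpow2 : π ^ (2 * κ + 1 + d) = (π ^ κ) ^ 2 * (π * π ^ d) := by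
    rw [← pow_mul, ← pow_succ', ← pow_add]; congr 1; ring
  by_cases h4 : π ^ (κ + 1) ∣ 2 * y
  · -- the derivative in `x`
    have h5 : ¬ π ^ (κ + 1) ∣ 3 * x ^ 2 + 2 * a * x + b := fun h6 => h3 ⟨h4, h6⟩
    obtain ⟨u, hu⟩ := h2
    have hu1 : IsUnit u := by
      apply pts_unit h
      intro h6
      apply h5
      rw [hu, pow_succ]
      exact mul_dvd_mul_left _ h6
    set S : Set (O × O) := {p : O × O | p.2 ^ 2 = p.1 ^ 3 + a * p.1 ^ 2 + b * p.1 + c ∧ π ^ (κ + 1) ∣ p.1 - x ∧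
      π ^ (κ + 1) ∣ p.2 - y} with hS
    have hsnd : (Prod.snd '' S).Infinite := by
      refine Set.Infinite.mono ?_ (Set.infinite_range_of_injective (hinj y))
      rintro _ ⟨t, rfl⟩
      obtain ⟨w, ⟨w', hw'⟩, hw⟩ := h.hensel (π * π ^ d * (-e - t * (2 * y + π ^ (2 * κ + 1 + d) * t))) u (3 * x + a) (π ^ κ)
        (by rw [mul_assoc]; exact Dvd.intro _ rfl) hu1
      refine ⟨(x + π ^ κ * w, y + π ^ (2 * κ + 1 + d) * t), ⟨?_, ?_, ?_⟩, rfl⟩
      · simp only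
        linear_combination he + (-(π ^ κ) ^ 2) * hw + (-(π ^ κ * w)) * hu +
          (e + t * (2 * y + π ^ (2 * κ + 1 + d) * t)) * hpow2
      · simp only
        have : x + π ^ κ * w - x = π ^ (κ + 1) * w' := by rw [hw', pow_succ]; ring
        rw [this]; exact Dvd.intro _ rfl
      · simp only
        have : y + π ^ (2 * κ + 1 + d) * t - y = π ^ (κ + 1) * (π ^ κ * π ^ d * t) := by rw [hpow]; ring
        rw [this]; exact Dvd.intro _ rfl
    intro hfin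
    apply hsnd
    apply Set.Finite.image
    refine Set.Finite.of_finite_fibers Prod.fst hfin ?_
    rintro x1 -
    by_cases hne : (S ∩ Prod.fst ⁻¹' {x1}).Nonempty
    · obtain ⟨⟨x2, y2⟩, hp1, hp2⟩ := hne
      have hx2 : x2 = x1 := hp2
      refine Set.Finite.subset (Set.toFinite {(x1, y2), (x1, -y2)}) ?_
      rintro ⟨x3, y3⟩ ⟨hq1, hq2⟩
      have hx3 : x3 = x1 := hq2
      subst hx3
      subst hx2
      have e1 := hp1.1
      have e2 := hq1.1
      simp only at e1 e2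
      have e3 : (y3 - y2) * (y3 + y2) = 0 := by linear_combination e2 - e1
      rcases mul_eq_zero.1 e3 with e4 | e4
      · left; rw [sub_eq_zero.1 e4]
      · right
        simp only [Set.mem_singleton_iff]
        rw [eq_neg_of_add_eq_zero_left e4]
    · rw [Set.not_nonempty_iff_eq_empty] at hne
      rw [hne]; exact Set.finite_empty
  · obtain ⟨u, hu⟩ := h1
    have hu1 : IsUnit u := by
      apply pts_unit h
      intro h6
      apply h4
      rw [hu, pow_succ]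
      exact mul_dvd_mul_left _ h6
    refine Set.Infinite.mono ?_ (Set.infinite_range_of_injective (hinj x))
    rintro _ ⟨t, rfl⟩
    simp only
    obtain ⟨r, hr⟩ : ∃ r, r = e - t * (3 * x ^ 2 + 3 * x * (π ^ (2 * κ + 1 + d) * t) + (π ^ (2 * κ + 1 + d) * t) ^ 2 +
        2 * a * x + a * (π ^ (2 * κ + 1 + d) * t) + b) := ⟨_, rfl⟩
    obtain ⟨w, ⟨w', hw'⟩, hw⟩ := h.hensel (π * π ^ d * r) u 1 0
      (by rw [mul_assoc]; exact Dvd.intro _ rfl) hu1
    refine ⟨(x + π ^ (2 * κ + 1 + d) * t, y + π ^ κ * w), ⟨?_, ?_, ?_⟩, rfl⟩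
    · simp only
      have e5 : y ^ 2 - ((x + π ^ (2 * κ + 1 + d) * t) ^ 3 + a * (x + π ^ (2 * κ + 1 + d) * t) ^ 2 +
          b * (x + π ^ (2 * κ + 1 + d) * t) + c) = π ^ (2 * κ + 1 + d) * r := by
        rw [hr]; linear_combination he
      rw [hpow2] at e5 ⊢
      linear_combination e5 + (π ^ κ) ^ 2 * hw + (π ^ κ * w) * hu
    · simp only
      have : x + π ^ (2 * κ + 1 + d) * t - x = π ^ (κ + 1) * (π ^ κ * π ^ d * t) := by rw [hpow]; ring
      rw [this]; exact Dvd.intro _ rfl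
    · simp only
      have : y + π ^ κ * w - y = π ^ (κ + 1) * w' := by rw [hw', pow_succ]; ring
      rw [this]; exact Dvd.intro _ rfl

end ptsB

section ptsC

theorem pts_disc {R : Type*} [CommRing R] {q x y : R} (f : Cub R) (h1 : q ∣ y)
    (h2 : q ∣ 3 * x ^ 2 + 2 * f.a * x + f.b)
    (h3 : q ∣ y ^ 2 - (x ^ 3 + f.a * x ^ 2 + f.b * x + f.c)) : q ∣ f.disc := by
  rw [← Cub.disc_tr x f]
  have e1 : q ∣ (f.tr x).c := by
    have : (f.tr x).c = y * y - (y ^ 2 - (x ^ 3 + f.a * x ^ 2 + f.b * x + f.c)) := by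
      simp only [Cub.tr]; ring
    rw [this]; exact dvd_sub (Dvd.dvd.mul_left h1 _) h3
  have e2 : q ∣ (f.tr x).b := by
    have : (f.tr x).b = 3 * x ^ 2 + 2 * f.a * x + f.b := by simp only [Cub.tr]; ring
    rw [this]; exact h2
  obtain ⟨u, hu⟩ := e1
  obtain ⟨v, hv⟩ := e2
  simp only [Cub.disc]
  rw [hu, hv]
  exact ⟨(f.tr x).a ^ 2 * v * (q * v) - 4 * v * (q * v) ^ 2 - 4 * (f.tr x).a ^ 3 * u - 27 * u * (q * u) +
    18 * (f.tr x).a * v * (q * u), by ring⟩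

variable {F : Type} [Field F] [Fintype F]

theorem pts_cardRq {m : F[X]} (hm : m.Monic) : Nat.card (Rq m) = Fintype.card F ^ m.natDegree := by
  have h1 : Module.Finite F (AdjoinRoot m) := (AdjoinRoot.powerBasis' hm).finite
  have h2 := Module.natCard_eq_pow_finrank (K := F) (V := AdjoinRoot m)
  rw [(AdjoinRoot.powerBasis' hm).finrank, AdjoinRoot.powerBasis'_dim, Nat.card_eq_fintype_card (α := F)] at h2
  exact h2

/-- a representative of a residue class -/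
noncomputable def pts_lf (m : F[X]) (r : Rq m) : F[X] := (Ideal.Quotient.mk_surjective r).choose

theorem pts_lf_mk (m : F[X]) (r : Rq m) : Ideal.Quotient.mk (Ideal.span {m}) (pts_lf m r) = r :=
  (Ideal.Quotient.mk_surjective r).choose_spec

theorem pts_lf_inj {m : F[X]} {r r' : Rq m} (h : m ∣ pts_lf m r - pts_lf m r') : r = r' := by
  rw [← pts_lf_mk m r, ← pts_lf_mk m r', mk_eq]; exact h

theorem pts_ball (P : Pl F) (M j : ℕ) (hj : j ≤ M) (x0 : F[X]) (C : Finset (Rq (P.1 ^ M)))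
    (hC : ∀ r ∈ C, P.1 ^ j ∣ pts_lf _ r - x0) :
    C.card ≤ (Fintype.card F ^ P.1.natDegree) ^ (M - j) := by
  classical
  have hcard : Nat.card (Rq (P.1 ^ (M - j))) = (Fintype.card F ^ P.1.natDegree) ^ (M - j) := by
    rw [pts_cardRq (P.2.1.pow _), P.2.1.natDegree_pow, ← pow_mul]; congr 1; ring
  rw [← hcard, Nat.card_eq_fintype_card, ← Finset.card_univ]
  let g : Rq (P.1 ^ M) → Rq (P.1 ^ (M - j)) := fun r =>
    if h : P.1 ^ j ∣ pts_lf _ r - x0 then Ideal.Quotient.mk _ h.choose else 0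
  refine Finset.card_le_card_of_injOn g (fun _ _ => Finset.mem_univ _) ?_
  intro r hr r' hr' hrr
  have h1 := hC r hr
  have h2 := hC r' hr'
  simp only [g, dif_pos h1, dif_pos h2] at hrr
  rw [mk_eq] at hrr
  apply pts_lf_inj
  have e : pts_lf (P.1 ^ M) r - pts_lf (P.1 ^ M) r' = P.1 ^ j * (h1.choose - h2.choose) := by
    have e1 := h1.choose_spec
    have e2 := h2.choose_spec
    linear_combination e1 - e2
  have e3 : P.1 ^ M = P.1 ^ j * P.1 ^ (M - j) := by rw [← pow_add, Nat.add_sub_cancel' hj]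
  rw [e]
  nth_rewrite 1 [e3]
  exact mul_dvd_mul_left _ hrr

theorem pts_cnt (P : Pl F) (M κ : ℕ) (hκ : 2 * κ + 1 ≤ M) (x0 : F[X]) (C : Finset (Rq (P.1 ^ M) × Rq (P.1 ^ M)))
    (h1 : ∀ p ∈ C, P.1 ^ (κ + 1) ∣ pts_lf _ p.1 - x0)
    (h2 : ∀ p ∈ C, ∀ q ∈ C, p.1 = q.1 → P.1 ^ (M - κ) ∣ pts_lf _ p.2 - pts_lf _ q.2) :
    C.card ≤ (Fintype.card F ^ P.1.natDegree) ^ (M - 1) := by
  classical
  have h3 := Finset.card_le_mul_card_image (f := Prod.fst) C ((Fintype.card F ^ P.1.natDegree) ^ κ) (by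
    intro r hr
    obtain ⟨q, hq, rfl⟩ := Finset.mem_image.1 hr
    have hinj : Set.InjOn Prod.snd (↑(C.filter (fun x => x.1 = q.1)) : Set (Rq (P.1 ^ M) × Rq (P.1 ^ M))) := by
      intro u hu v hv huv
      rw [Finset.mem_coe, Finset.mem_filter] at hu hv
      exact Prod.ext (hu.2.trans hv.2.symm) huv
    rw [← Finset.card_image_of_injOn hinj]
    refine (pts_ball P M (M - κ) (Nat.sub_le _ _) (pts_lf _ q.2) _ ?_).trans (le_of_eq ?_)
    · intro r' hr'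
      obtain ⟨u, hu, rfl⟩ := Finset.mem_image.1 hr'
      rw [Finset.mem_filter] at hu
      exact h2 u hu.1 q hq hu.2
    · congr 1; omega)
  have h4 := pts_ball P M (κ + 1) (by omega) x0 (C.image Prod.fst) (by
    intro r hr
    obtain ⟨u, hu, rfl⟩ := Finset.mem_image.1 hr
    exact h1 u hu)
  refine h3.trans ((Nat.mul_le_mul_left _ h4).trans (le_of_eq ?_))
  rw [← pow_add]; congr 1; omega

end ptsC

theorem t_pts : S_pts := by
  intro F _ _ h2 P O _ _ π ι hL M k hM f hf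
  classical
  have hP : Prime P.1 := P.2.2.prime
  have hu2 : IsUnit (2 : F[X]) := by
    have : (2 : F[X]) = C (2 : F) := (map_ofNat (C : F →+* F[X]) 2).symm
    rw [this]; exact isUnit_C.2 (isUnit_iff_ne_zero.2 h2)
  let X : Rq (P.1 ^ M) × Rq (P.1 ^ M) → F[X] := fun p => pts_lf _ p.1
  let Y : Rq (P.1 ^ M) × Rq (P.1 ^ M) → F[X] := fun p => pts_lf _ p.2
  let V : Rq (P.1 ^ M) × Rq (P.1 ^ M) → F[X] := fun p => 3 * X p ^ 2 + 2 * f.a * X p + f.b
  obtain ⟨A, hA⟩ : ∃ A : Finset (Rq (P.1 ^ M) × Rq (P.1 ^ M)), ∀ p, p ∈ A ↔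
      p.2 ^ 2 = (f.map (Ideal.Quotient.mk (Ideal.span {P.1 ^ M}))).ev p.1 :=
    ⟨univ.filter (fun p => p.2 ^ 2 = (f.map (Ideal.Quotient.mk (Ideal.span {P.1 ^ M}))).ev p.1), fun p => by simp⟩
  have hnA : (f.map (Ideal.Quotient.mk (Ideal.span {P.1 ^ M}))).nA = A.card := by
    unfold Cub.nA
    congr 1
    ext p
    rw [hA p]
    simp
  have hAd : ∀ p ∈ A, P.1 ^ M ∣ Y p ^ 2 - (X p ^ 3 + f.a * X p ^ 2 + f.b * X p + f.c) := by
    intro p hp
    have h := (hA p).1 hp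
    rw [← pts_lf_mk _ p.1, ← pts_lf_mk _ p.2] at h
    simp only [Cub.ev, Cub.map] at h
    rw [← map_pow, ← map_pow, ← map_pow, ← map_mul, ← map_mul, ← map_add, ← map_add, ← map_add] at h
    exact mk_eq.1 h
  let κ : Rq (P.1 ^ M) × Rq (P.1 ^ M) → ℕ := fun p =>
    Nat.findGreatest (fun j => P.1 ^ j ∣ 2 * Y p ∧ P.1 ^ j ∣ V p) k
  have hκk : ∀ p, κ p ≤ k := fun p => Nat.findGreatest_le k
  have hκ1 : ∀ p, P.1 ^ κ p ∣ 2 * Y p ∧ P.1 ^ κ p ∣ V p := fun p =>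
    Nat.findGreatest_spec (P := fun j => P.1 ^ j ∣ 2 * Y p ∧ P.1 ^ j ∣ V p) (m := 0) (Nat.zero_le k) (by simp)
  have hκ2 : ∀ p ∈ A, ¬ (P.1 ^ (κ p + 1) ∣ 2 * Y p ∧ P.1 ^ (κ p + 1) ∣ V p) := by
    intro p hp hcon
    rcases Nat.lt_or_ge (κ p) k with hlt | hge
    · exact Nat.findGreatest_is_greatest (P := fun j => P.1 ^ j ∣ 2 * Y p ∧ P.1 ^ j ∣ V p)
        (Nat.lt_succ_self (κ p)) hlt hcon
    · have hk : κ p = k := le_antisymm (hκk p) hge
      rw [hk] at hcon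
      apply hf
      refine pts_disc f (x := X p) (y := Y p) ((IsUnit.dvd_mul_left hu2).1 hcon.1) hcon.2 ?_
      exact (pow_dvd_pow P.1 (by omega)).trans (hAd p hp)
  -- the labels
  let lab : Rq (P.1 ^ M) × Rq (P.1 ^ M) → ℕ × Set (F[X] × F[X]) := fun p =>
    (κ p, {q | P.1 ^ (κ p + 1) ∣ q.1 - X p ∧ P.1 ^ (κ p + 1) ∣ q.2 - Y p})
  have hlab1 : ∀ p p', lab p = lab p' → κ p = κ p' ∧ P.1 ^ (κ p' + 1) ∣ X p - X p' ∧ P.1 ^ (κ p' + 1) ∣ Y p - Y p' := by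
    intro p p' h
    have e1 : κ p = κ p' := congrArg Prod.fst h
    have e2 : {q : F[X] × F[X] | P.1 ^ (κ p + 1) ∣ q.1 - X p ∧ P.1 ^ (κ p + 1) ∣ q.2 - Y p} =
      {q : F[X] × F[X] | P.1 ^ (κ p' + 1) ∣ q.1 - X p' ∧ P.1 ^ (κ p' + 1) ∣ q.2 - Y p'} := congrArg Prod.snd h
    have e3 : (X p, Y p) ∈ {q : F[X] × F[X] | P.1 ^ (κ p + 1) ∣ q.1 - X p ∧ P.1 ^ (κ p + 1) ∣ q.2 - Y p} := by
      simp
    rw [e2] at e3
    exact ⟨e1, e3.1, e3.2⟩
  have hlab2 : ∀ p p', κ p = κ p' → P.1 ^ (κ p + 1) ∣ X p - X p' → P.1 ^ (κ p + 1) ∣ Y p - Y p' → lab p = lab p' := by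
    intro p p' e1 e2 e3
    refine Prod.ext e1 ?_
    show {q : F[X] × F[X] | P.1 ^ (κ p + 1) ∣ q.1 - X p ∧ P.1 ^ (κ p + 1) ∣ q.2 - Y p} =
      {q : F[X] × F[X] | P.1 ^ (κ p' + 1) ∣ q.1 - X p' ∧ P.1 ^ (κ p' + 1) ∣ q.2 - Y p'}
    rw [← e1]
    ext q
    simp only [Set.mem_setOf_eq]
    have e4 : P.1 ^ (κ p + 1) ∣ (q.1 - X p) - (q.1 - X p') := by
      have : (q.1 - X p) - (q.1 - X p') = -(X p - X p') := by ring
      rw [this]; exact (dvd_neg).2 e2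
    have e5 : P.1 ^ (κ p + 1) ∣ (q.2 - Y p) - (q.2 - Y p') := by
      have : (q.2 - Y p) - (q.2 - Y p') = -(Y p - Y p') := by ring
      rw [this]; exact (dvd_neg).2 e3
    rw [dvd_iff_dvd_of_dvd_sub e4, dvd_iff_dvd_of_dvd_sub e5]
  have hrep : ∀ i : Fin (A.image lab).card, ∃ p ∈ A, lab p = ((A.image lab).equivFin.symm i).1 := by
    intro i
    exact Finset.mem_image.1 ((A.image lab).equivFin.symm i).2
  choose rep hrepA hrepL using hrep
  refine ⟨(A.image lab).card, fun i => {p : O × O | p.2 ^ 2 = p.1 ^ 3 + ι f.a * p.1 ^ 2 + ι f.b * p.1 + ι f.c ∧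
    π ^ (κ (rep i) + 1) ∣ p.1 - ι (X (rep i)) ∧ π ^ (κ (rep i) + 1) ∣ p.2 - ι (Y (rep i))}, ?_, ?_, ?_, ?_⟩
  · rw [hnA, mul_comm]
    refine Finset.card_le_mul_card_image A _ ?_
    intro ℓ hℓ
    obtain ⟨p0, hp0, rfl⟩ := Finset.mem_image.1 hℓ
    have hM0 : 2 * κ p0 + 1 ≤ M := by have := hκk p0; omega
    have hC : ∀ p ∈ A.filter (fun x => lab x = lab p0), p ∈ A ∧ P.1 ^ (κ p0 + 1) ∣ X p - X p0 ∧
        P.1 ^ (κ p0 + 1) ∣ Y p - Y p0 := by
      intro p hp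
      rw [Finset.mem_filter] at hp
      exact ⟨hp.1, (hlab1 p p0 hp.2).2⟩
    by_cases h4 : P.1 ^ (κ p0 + 1) ∣ 2 * Y p0
    · have h5 : ¬ P.1 ^ (κ p0 + 1) ∣ V p0 := fun h6 => hκ2 p0 hp0 ⟨h4, h6⟩
      have hcs : (A.filter (fun x => lab x = lab p0)).card =
          ((A.filter (fun x => lab x = lab p0)).image Prod.swap).card :=
        (Finset.card_image_of_injective _ Prod.swap_injective).symm
      rw [hcs]
      refine pts_cnt P M (κ p0) hM0 (Y p0) _ ?_ ?_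
      · intro p hp
        obtain ⟨u, hu, rfl⟩ := Finset.mem_image.1 hp
        exact (hC u hu).2.2
      · intro p hp q hq hpq
        obtain ⟨u, hu, rfl⟩ := Finset.mem_image.1 hp
        obtain ⟨v, hv, rfl⟩ := Finset.mem_image.1 hq
        have huv : u.2 = v.2 := hpq
        show P.1 ^ (M - κ p0) ∣ X u - X v
        have hY : Y u = Y v := by show pts_lf _ u.2 = pts_lf _ v.2; rw [huv]
        obtain ⟨hu1, hα, -⟩ := hC u hu
        obtain ⟨hv1, hβ, -⟩ := hC v hv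
        have d1 := hAd u hu1
        have d2 := hAd v hv1
        rw [hY] at d1
        have d3 : P.1 ^ M ∣ (X u - X v) * (X u ^ 2 + X u * X v + X v ^ 2 + f.a * (X u + X v) + f.b) := by
          have : (X u - X v) * (X u ^ 2 + X u * X v + X v ^ 2 + f.a * (X u + X v) + f.b) =
            (Y v ^ 2 - (X v ^ 3 + f.a * X v ^ 2 + f.b * X v + f.c)) -
            (Y v ^ 2 - (X u ^ 3 + f.a * X u ^ 2 + f.b * X u + f.c)) := by ring
          rw [this]; exact dvd_sub d2 d1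
        refine pts_div hP (κ p0) _ ?_ M _ d3
        intro d4
        apply h5
        have d5 : P.1 ^ (κ p0 + 1) ∣ (X u ^ 2 + X u * X v + X v ^ 2 + f.a * (X u + X v) + f.b) - V p0 := by
          have : (X u ^ 2 + X u * X v + X v ^ 2 + f.a * (X u + X v) + f.b) - V p0 =
              (X u - X p0) * (3 * X p0 + (X u - X p0) + (X v - X p0) + f.a) +
              (X v - X p0) * (3 * X p0 + (X v - X p0) + f.a) := by
            show _ - (3 * X p0 ^ 2 + 2 * f.a * X p0 + f.b) = _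
            ring
          rw [this]
          exact dvd_add (Dvd.dvd.mul_right hα _) (Dvd.dvd.mul_right hβ _)
        exact (dvd_iff_dvd_of_dvd_sub d5).1 d4
    · refine pts_cnt P M (κ p0) hM0 (X p0) _ ?_ ?_
      · intro p hp
        exact (hC p hp).2.1
      · intro u hu v hv huv
        show P.1 ^ (M - κ p0) ∣ Y u - Y v
        have hX : X u = X v := by show pts_lf _ u.1 = pts_lf _ v.1; rw [huv]
        obtain ⟨hu1, -, hα⟩ := hC u hu
        obtain ⟨hv1, -, hβ⟩ := hC v hv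
        have d1 := hAd u hu1
        have d2 := hAd v hv1
        rw [hX] at d1
        have d3 : P.1 ^ M ∣ (Y u - Y v) * (Y u + Y v) := by
          have : (Y u - Y v) * (Y u + Y v) =
            (Y u ^ 2 - (X v ^ 3 + f.a * X v ^ 2 + f.b * X v + f.c)) -
            (Y v ^ 2 - (X v ^ 3 + f.a * X v ^ 2 + f.b * X v + f.c)) := by ring
          rw [this]; exact dvd_sub d1 d2
        refine pts_div hP (κ p0) _ ?_ M _ d3
        intro d4
        apply h4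
        have d5 : P.1 ^ (κ p0 + 1) ∣ (Y u + Y v) - 2 * Y p0 := by
          have : (Y u + Y v) - 2 * Y p0 = (Y u - Y p0) + (Y v - Y p0) := by ring
          rw [this]; exact dvd_add hα hβ
        exact (dvd_iff_dvd_of_dvd_sub d5).1 d4
  · rintro i p ⟨hp, -, -⟩
    simp only [Cub.ev, Cub.map]
    exact hp
  · intro i
    have e0 : π ^ M ∣ ι (Y (rep i)) ^ 2 - (ι (X (rep i)) ^ 3 + ι f.a * ι (X (rep i)) ^ 2 + ι f.b * ι (X (rep i)) + ι f.c) := by
      have := (hL.dvd M _).2 (hAd (rep i) (hrepA i))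
      rw [map_sub, map_add, map_add, map_add, map_mul, map_mul, map_pow, map_pow, map_pow] at this
      exact this
    have eV : ι (V (rep i)) = 3 * ι (X (rep i)) ^ 2 + 2 * ι f.a * ι (X (rep i)) + ι f.b := by
      show ι (3 * X (rep i) ^ 2 + 2 * f.a * X (rep i) + f.b) = _
      rw [map_add, map_add, map_mul, map_mul, map_mul, map_pow, map_ofNat, map_ofNat]
    have eY : ι (2 * Y (rep i)) = 2 * ι (Y (rep i)) := by rw [map_mul, map_ofNat]
    have g1 := (hL.dvd (κ (rep i)) _).2 (hκ1 (rep i)).1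
    have g2 := (hL.dvd (κ (rep i)) _).2 (hκ1 (rep i)).2
    have g3 := hκ2 (rep i) (hrepA i)
    rw [← hL.dvd, ← hL.dvd] at g3
    rw [eY] at g1 g3
    rw [eV] at g2 g3
    exact pts_infinite hL (by have := hκk (rep i); omega) e0 g1 g2 g3
  · rintro i j hij ⟨x, y⟩ ⟨hp1, hp2, hp3⟩ ⟨x', y'⟩ ⟨hq1, hq2, hq3⟩ hne
    by_contra hno
    simp only at hp1 hp2 hp3 hq1 hq2 hq3 hne hno
    apply hij
    obtain ⟨s, t, μ, T, T', hμ, f1, f2, f3, f4, f5, f6⟩ := pts_sep hL hp1 hq1 hne hno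
    have key : ∀ (l : Fin (A.image lab).card) (z w : O), π ^ (κ (rep l) + 1) ∣ z - ι (X (rep l)) →
        π ^ (κ (rep l) + 1) ∣ w - ι (Y (rep l)) →
        (π ^ κ (rep l) ∣ 2 * w ∧ π ^ κ (rep l) ∣ 3 * z ^ 2 + 2 * ι f.a * z + ι f.b) ∧
        ¬ (π ^ (κ (rep l) + 1) ∣ 2 * w ∧ π ^ (κ (rep l) + 1) ∣ 3 * z ^ 2 + 2 * ι f.a * z + ι f.b) := by
      intro l z w hz hw
      have eV : ι (V (rep l)) = 3 * ι (X (rep l)) ^ 2 + 2 * ι f.a * ι (X (rep l)) + ι f.b := by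
        show ι (3 * X (rep l) ^ 2 + 2 * f.a * X (rep l) + f.b) = _
        rw [map_add, map_add, map_mul, map_mul, map_mul, map_pow, map_ofNat, map_ofNat]
      have eY : ι (2 * Y (rep l)) = 2 * ι (Y (rep l)) := by rw [map_mul, map_ofNat]
      have g1 := (hL.dvd (κ (rep l)) _).2 (hκ1 (rep l)).1
      have g2 := (hL.dvd (κ (rep l)) _).2 (hκ1 (rep l)).2
      have g3 := hκ2 (rep l) (hrepA l)
      rw [← hL.dvd, ← hL.dvd] at g3
      rw [eY] at g1 g3
      rw [eV] at g2 g3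
      have hz' := (pow_dvd_pow π (Nat.le_succ (κ (rep l)))).trans hz
      have hw' := (pow_dvd_pow π (Nat.le_succ (κ (rep l)))).trans hw
      exact ⟨(pts_cong hz' hw').2 ⟨g1, g2⟩, fun h => g3 ((pts_cong hz hw).1 h)⟩
    obtain ⟨k1, k2⟩ := key i x y hp2 hp3
    obtain ⟨k3, k4⟩ := key j x' y' hq2 hq3
    rw [pts_val hμ f3 f5] at k1 k2
    have hμ' : π ∣ -μ := (dvd_neg).2 hμ
    rw [pts_val hμ' f4 f6] at k3 k4
    have hκeq := pts_uniq k1 k2 k3 k4
    have f7 : π ^ (κ (rep i) + 1) ∣ x - x' := by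
      rw [f1, pow_succ']; exact mul_dvd_mul hμ k1.1
    have f8 : π ^ (κ (rep i) + 1) ∣ y - y' := by
      rw [f2, pow_succ']; exact mul_dvd_mul hμ k1.2
    rw [← hκeq] at hq2 hq3
    have f9 : P.1 ^ (κ (rep i) + 1) ∣ X (rep i) - X (rep j) := by
      rw [← hL.dvd, map_sub]
      have : ι (X (rep i)) - ι (X (rep j)) = (x - x') - (x - ι (X (rep i))) + (x' - ι (X (rep j))) := by ring
      rw [this]; exact dvd_add (dvd_sub f7 hp2) hq2
    have f10 : P.1 ^ (κ (rep i) + 1) ∣ Y (rep i) - Y (rep j) := by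
      rw [← hL.dvd, map_sub]
      have : ι (Y (rep i)) - ι (Y (rep j)) = (y - y') - (y - ι (Y (rep i))) + (y' - ι (Y (rep j))) := by ring
      rw [this]; exact dvd_add (dvd_sub f8 hp3) hq3
    have f11 := hlab2 (rep i) (rep j) hκeq f9 f10
    rw [hrepL i, hrepL j] at f11
    exact (A.image lab).equivFin.symm.injective (Subtype.ext f11)

end Pool.Agent.H456.BQ
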