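import Pool.Agent.H456.BQ.Stm

/-!
(S8) `S_sep`. Pure algebra; `O` is a valuation ring by `Lc.pow` (write `v`), `2` is a unit of `O` (image of a constant).
By `exists_rep` (Rep.lean) there is `ρ ∈ L` with `Rep f x₀ y₀ N G ρ`; by `Rep.res`, `G.res = (f.sc 4).tr ρ` over `L`,
so (third coefficient, `Cub.tr_ev`) `ρ` is a root of a monic cubic over `O`, hence `ρ ∈ O` (`O` is integrally closed:
valuation argument). Invariance of the polar form: for all `G, V` and points `p, p'`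
`(G.sub V).pol p p' = G.pol (V p) (V p') + G.tau V * (u v' - u' v)²` (ring identity; `V p = (α u + β v, γ u + δ v)`).
Let `(α, γ)` be the first column of `V`; then `N'`'s first column is `c N (α, γ)`, `det N' = c² det N det V`. Using
`gp.sub N = G.smul (det N)²`, `tau = (ρ + 2x₀ + 2a) (det N)²` one gets that the displayed quantity `D` equals
`(G.pol 1 0 α γ + s s' det V) / (2 γ²) - (ρ + 2a)/2`, and
`G.pol 1 0 α γ = s² α² - 2 n α γ + (C/2) γ²` (`C = G.C`). Let `z' = s' det V`; since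
`G'.A det V² ... = G.ev α γ`, i.e. `G.ev α γ = z'²`: `s²α⁴ - 4nα³γ + Cα²γ² + Dαγ³ + Eγ⁴ = z'²`
(first coefficient of `G' = (G.sub V)/det V²`, from `Cn.sub` for `N` and `N'`). Hence, with `Num` the numerator
`s²α² - 2nαγ + (C/2)γ² + s z'`: `2 α² Num = (s α² + z')² - γ³ (G.D α + G.E γ)`. `α` is a unit (`π ∣ γ`, `det V` unit).
`(s α² - z')(s α² + z') = γ (4 n α³ - G.C α² γ - ...)`, and `π ∣ s α² - z'` by hypothesis.
If `π ∤ s`: `v(sα² + z') = v(2sα²) = 0 < v(γ)`. If `π ∣ s`: `n` is a unit (`IsCoprime s n`), so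
`v(sα² - z') + v(sα² + z') = v(γ)` and `v(sα² + z') ≤ v(γ) - 1`. In both cases `v((sα²+z')²) < 2 v(γ)`, so
`v(Num) < 2 v(γ)` and `Num / (2γ²)` is not in `O`, whereas `(ρ + 2a)/2 ∈ O`. So `D ∉ O`.
-/

set_option autoImplicit false
set_option linter.all false

open Polynomial Finset

namespace Pool.Agent.H456.BQ

/-- elements which are not divisible by the uniformizer are units -/
theorem sep_unit {F : Type} [Field F] {P : F[X]} {O : Type} [CommRing O] {π : O} {ι : F[X] →+* O}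
    (h : Lc P π ι) {x : O} (hx : ¬ π ∣ x) : IsUnit x := by
  have h0 : x ≠ 0 := by
    rintro rfl
    exact hx (dvd_zero _)
  obtain ⟨k, u, hu, rfl⟩ := h.pow x h0
  rcases k with _ | k
  · rw [pow_zero, mul_one]
    exact hu
  · exact absurd (Dvd.intro_left (u * π ^ k) (by ring)) hx

/-- `O` is a valuation ring -/
theorem sep_val {F : Type} [Field F] {P : F[X]} {O L : Type} [CommRing O] [IsDomain O] [Field L]
    [Algebra O L] [IsFractionRing O L] {π : O} {ι : F[X] →+* O} (h : Lc P π ι) (ρ : L) :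
    (∃ r : O, algebraMap O L r = ρ) ∨ ∃ w : O, algebraMap O L (π * w) * ρ = 1 := by
  obtain ⟨x, y, hy, rfl⟩ := IsFractionRing.div_surjective (A := O) ρ
  have hy0 : y ≠ 0 := nonZeroDivisors.ne_zero hy
  have hinj : Function.Injective (algebraMap O L) := IsFractionRing.injective O L
  have hy1 : algebraMap O L y ≠ 0 := (map_ne_zero_iff _ hinj).2 hy0
  by_cases hx0 : x = 0
  · left
    refine ⟨0, ?_⟩
    rw [hx0, map_zero, zero_div]
  have hx1 : algebraMap O L x ≠ 0 := (map_ne_zero_iff _ hinj).2 hx0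
  obtain ⟨k, u, hu, hk⟩ := h.pow x hx0
  obtain ⟨l, v, hv, hl⟩ := h.pow y hy0
  obtain ⟨u', hu'⟩ := hu.exists_left_inv
  obtain ⟨v', hv'⟩ := hv.exists_left_inv
  rcases le_or_gt l k with hlk | hlk
  · left
    obtain ⟨m, rfl⟩ := Nat.exists_eq_add_of_le hlk
    refine ⟨u * v' * π ^ m, ?_⟩
    rw [eq_div_iff hy1, ← map_mul]
    congr 1
    rw [hk, hl, pow_add]
    linear_combination (u * π ^ l * π ^ m) * hv'
  · right
    obtain ⟨m, rfl⟩ := Nat.exists_eq_add_of_lt hlk
    refine ⟨v * u' * π ^ m, ?_⟩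
    rw [mul_div_assoc', div_eq_one_iff_eq hy1, ← map_mul]
    congr 1
    rw [hk, hl, pow_succ, pow_add]
    linear_combination (v * π ^ k * π ^ m * π) * hu'

/-- `O` is integrally closed (cubic polynomials) -/
theorem sep_int {F : Type} [Field F] {P : F[X]} {O L : Type} [CommRing O] [IsDomain O] [Field L]
    [Algebra O L] [IsFractionRing O L] {π : O} {ι : F[X] →+* O} (h : Lc P π ι) (ρ : L) (a b c : O)
    (hρ : ρ ^ 3 + algebraMap O L a * ρ ^ 2 + algebraMap O L b * ρ + algebraMap O L c = 0) :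
    ∃ r : O, algebraMap O L r = ρ := by
  rcases sep_val h ρ with h1 | ⟨w, hw⟩
  · exact h1
  exfalso
  apply h.nonunit
  have hinj : Function.Injective (algebraMap O L) := IsFractionRing.injective O L
  have key : 1 + π * (w * (a + b * (π * w) + c * (π * w) ^ 2)) = 0 := by
    apply hinj
    simp only [map_add, map_mul, map_one, map_zero, map_pow] at hw ⊢
    set p := algebraMap O L π
    set q := algebraMap O L w
    have e2 : (p * q) ^ 2 * ρ ^ 2 = 1 := by rw [← mul_pow, hw, one_pow]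
    have e3 : (p * q) ^ 3 * ρ ^ 3 = 1 := by rw [← mul_pow, hw, one_pow]
    linear_combination (p * q) ^ 3 * hρ - e3 - algebraMap O L a * (p * q) * e2 -
      algebraMap O L b * (p * q) ^ 2 * hw
  exact IsUnit.of_mul_eq_one (-(w * (a + b * (π * w) + c * (π * w) ^ 2)))
    (by linear_combination -key)

theorem sep_sq {F : Type} [Field F] {P : F[X]} {O L : Type} [CommRing O] [IsDomain O] [Field L]
    [Algebra O L] [IsFractionRing O L] {π : O} {ι : F[X] →+* O} (h : Lc P π ι) (x y : O)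
    (hy : y ≠ 0) (hd : y ^ 2 ∣ x ^ 2) : y ∣ x := by
  have hinj : Function.Injective (algebraMap O L) := IsFractionRing.injective O L
  have hy1 : algebraMap O L y ≠ 0 := (map_ne_zero_iff _ hinj).2 hy
  obtain ⟨m, hm⟩ := hd
  have hm' := congrArg (algebraMap O L) hm
  simp only [map_mul, map_pow] at hm'
  obtain ⟨r, hr⟩ := sep_int (L := L) h (algebraMap O L x / algebraMap O L y) 0 (-m) 0 (by
    simp only [map_zero, map_neg, zero_mul, add_zero]
    field_simp
    linear_combination algebraMap O L x * hm')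
  refine ⟨r, hinj ?_⟩
  rw [map_mul, hr]
  field_simp

theorem sep_pol {L : Type} [Field L] (h2 : (2 : L) ≠ 0) (g : Q4 L) (N : M2 L) (x z : L) :
    g.pol N.α N.γ (N.α * x + N.β * z) (N.γ * x + N.δ * z) =
      (g.sub N).A * x ^ 2 + (g.sub N).B / 2 * x * z + (g.sub N).C / 2 * z ^ 2 - g.tau N * z ^ 2 := by
  simp only [Q4.pol, Q4.sub, Q4.tau]
  field_simp
  ring

theorem sep_pol_c {L : Type} [Field L] (g : Q4 L) (u v u' v' c : L) :
    g.pol u v (c * u') (c * v') = c ^ 2 * g.pol u v u' v' := by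
  simp only [Q4.pol]
  ring

/-- the final contradiction -/
theorem sep_end {F : Type} [Field F] {P : F[X]} {O : Type} (L : Type) [CommRing O] [IsDomain O]
    [Field L] [Algebra O L] [IsFractionRing O L] {π : O} {ι : F[X] →+* O} (h : Lc P π ι)
    (h2 : IsUnit (2 : O))
    (α γ s n z C D E e : O) (hs : IsCoprime s n) (hπ : π ∣ γ) (hγ : γ ≠ 0) (hα : IsUnit α)
    (hz : s ^ 2 * α ^ 4 - 4 * n * α ^ 3 * γ + C * α ^ 2 * γ ^ 2 + D * α * γ ^ 3 + E * γ ^ 4 = z ^ 2)
    (hT : 2 * s ^ 2 * α ^ 2 - 4 * n * α * γ + C * γ ^ 2 + 2 * s * z = γ ^ 2 * e)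
    (hd : π ∣ s * α ^ 2 - z) : False := by
  have h1 : γ ∣ s * α ^ 2 + z := by
    refine sep_sq (L := L) h _ _ hγ ⟨α ^ 2 * e + γ * (D * α + E * γ), ?_⟩
    linear_combination α ^ 2 * hT - hz
  obtain ⟨m, hm⟩ := h1
  have h3 : (z - s * α ^ 2) * m = -4 * n * α ^ 3 + γ * (C * α ^ 2 + D * α * γ + E * γ ^ 2) := by
    apply mul_left_cancel₀ hγ
    linear_combination -hz - (z - s * α ^ 2) * hm
  have h4 : π ∣ 4 * n * α ^ 3 := by
    have e1 : 4 * n * α ^ 3 = (s * α ^ 2 - z) * m + γ * (C * α ^ 2 + D * α * γ + E * γ ^ 2) := by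
      linear_combination h3
    rw [e1]
    exact dvd_add (dvd_mul_of_dvd_left hd _) (dvd_mul_of_dvd_left hπ _)
  have h5 : π ∣ 2 * s * α ^ 2 := by
    have e1 : 2 * s * α ^ 2 = (s * α ^ 2 - z) + γ * m := by linear_combination hm
    rw [e1]
    exact dvd_add hd (dvd_mul_of_dvd_left hπ _)
  have h4' : π ∣ n := by
    have u1 : IsUnit (2 ^ 2 * α ^ 3 : O) := (h2.pow 2).mul (hα.pow 3)
    refine (u1.dvd_mul_right).1 ?_
    convert h4 using 1
    ring
  have h5' : π ∣ s := by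
    have u1 : IsUnit (2 * α ^ 2 : O) := h2.mul (hα.pow 2)
    refine (u1.dvd_mul_right).1 ?_
    convert h5 using 1
    ring
  exact h.nonunit (hs.isUnit_of_dvd' h5' h4')

theorem t_sep : S_sep := by
  intro F _ hF P O L _ _ _ _ _ π ι h f x₀ y₀ hxy N N' G G' s n s' n' hC hC' c V hc hV hN' hπ hγ hd
  rintro ⟨d, hdd⟩
  have hinj : Function.Injective (algebraMap O L) := IsFractionRing.injective O L
  -- `2` is a unit
  have h2 : IsUnit (2 : O) := by
    have e1 : (2 : O) = ι (Polynomial.C 2) := by rw [map_ofNat, map_ofNat]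
    rw [e1]
    exact (Polynomial.isUnit_C.2 (IsUnit.mk0 _ hF)).map ι
  have h2L : (2 : L) ≠ 0 := by
    have := (h2.map (algebraMap O L)).ne_zero
    rwa [map_ofNat] at this
  obtain ⟨ρ, hρ⟩ := exists_rep hC.det hC.sub
  -- `ρ` is integral
  obtain ⟨r, hr⟩ : ∃ r : O, algebraMap O L r = ρ := by
    have h3 := congrArg Cub.c (hρ.res hxy)
    rw [Cub.tr_ev, Q4.map_res] at h3
    refine sep_int h ρ (4 * f.a) (16 * f.b) (64 * f.c - G.res.c) ?_
    simp only [Cub.ev, Cub.sc, Cub.map] at h3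
    simp only [map_sub, map_mul, map_ofNat]
    linear_combination -h3
  -- coefficients
  have hA := congrArg Q4.A hC.sub
  have hB := congrArg Q4.B hC.sub
  have hCC := congrArg Q4.C hC.sub
  simp only [Q4.smul, Q4.map] at hA hB hCC
  rw [hC.A] at hA
  rw [hC.B] at hB
  have hA' := congrArg Q4.A hC'.sub
  rw [hN', Q4.sub_scal, ← Q4.sub_mul, hC.sub, Q4.smul_sub, M2.det_scal, M2.det_mul, M2.map_det] at hA'
  simp only [Q4.smul, Q4.map] at hA'
  rw [hC'.A] at hA'
  have hΔ := hC.det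
  have hz : s ^ 2 * V.α ^ 4 - 4 * n * V.α ^ 3 * V.γ + G.C * V.α ^ 2 * V.γ ^ 2 + G.D * V.α * V.γ ^ 3 +
      G.E * V.γ ^ 4 = (s' * V.det) ^ 2 := by
    apply hinj
    simp only [Q4.sub, M2.map] at hA'
    rw [hC.A, hC.B] at hA'
    simp only [map_add, map_sub, map_mul, map_pow, map_ofNat, map_neg] at hA' ⊢
    apply mul_left_cancel₀ (mul_ne_zero (pow_ne_zero 4 hc) (pow_ne_zero 2 hΔ))
    linear_combination hA'
  have hα : IsUnit V.α := by
    apply sep_unit h
    intro h3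
    apply h.nonunit
    refine isUnit_of_dvd_unit ?_ hV
    rw [M2.det]
    exact dvd_sub (dvd_mul_of_dvd_left h3 _) (dvd_mul_of_dvd_right hπ _)
  refine sep_end L h h2 V.α V.γ s n (s' * V.det) G.C G.D G.E (4 * d + 2 * r + 4 * f.a) hC.cop hπ hγ hα
    hz ?_ hd
  have hγL : algebraMap O L V.γ ≠ 0 := (map_ne_zero_iff _ hinj).2 hγ
  have eα : N'.α = c * (N.α * algebraMap O L V.α + N.β * algebraMap O L V.γ) := by
    rw [hN']; rfl
  have eγ : N'.γ = c * (N.γ * algebraMap O L V.α + N.δ * algebraMap O L V.γ) := by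
    rw [hN']; rfl
  have eD : N'.det = c ^ 2 * (N.det * algebraMap O L V.det) := by
    rw [hN', M2.det_scal, M2.det_mul, M2.map_det]
  have e1 : N.α * N'.γ - N'.α * N.γ = c * algebraMap O L V.γ * N.det := by
    rw [eα, eγ, M2.det]
    ring
  have e2 := sep_pol h2L (gp (f.map (algebraMap O L)) x₀ y₀) N (algebraMap O L V.α)
    (algebraMap O L V.γ)
  rw [hA, hB, hCC, hρ.tau] at e2
  rw [e1, eα, eγ, sep_pol_c, e2, eD] at hdd
  apply hinj
  simp only [map_add, map_sub, map_mul, map_pow, map_ofNat, map_neg] at hdd ⊢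
  rw [hr]
  have hfa : (f.map (algebraMap O L)).a = algebraMap O L f.a := rfl
  rw [hfa] at hdd
  set φ := algebraMap O L
  set Δ := N.det
  have hdd2 := congrArg (fun x => (x - x₀) * (2 * (c * φ V.γ * Δ) ^ 2)) hdd
  simp only [add_sub_cancel_right] at hdd2
  have hne : (2 * (c * φ V.γ * Δ) ^ 2) ≠ 0 :=
    mul_ne_zero h2L (pow_ne_zero 2 (mul_ne_zero (mul_ne_zero hc hγL) hΔ))
  rw [div_mul_cancel₀ _ hne] at hdd2
  field_simp at hdd2
  linear_combination -hdd2

end Pool.Agent.H456.BQ
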