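import Pool.Agent.H456.BQ.Stm3

/-!
(J2) `S_spP` from `S_spinv` (take it as a hypothesis). `N' = (N.mul V).scal c`, `V ∈ GL₂(LocP P)`. Comparing the two equations,
`g.smul (det N' ^ 2) = q.sub N' = ((G.map toK).sub V).smul (c ^ 4 det N ^ 2)` and `det N' = c² det N det V`, so
`g = ((G.map toK).sub V).smul ((det V)⁻²)` (`Q4.sub_scal`, `Q4.sub_mul`, `Q4.smul_sub`, `Q4.smul_cancel` in Alg.lean). Reduce modulo `P`:
there is a ring homomorphism `LocP P → F[X]/(P)` (`a / b ↦ ā b̄⁻¹`), or avoid it: choose `V' : M2 F[X]`, `d' : F[X]` congruent to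
`V`, `(det V)⁻¹` modulo `P` (every element `a / b` of `LocP P` is congruent, modulo `P LocP P`, to the polynomial `a b'`,
`b b' ≡ 1 mod P`). Then in `κ = F[X]/(P^1)` (a field), `H̄ = (Ḡ.sub V̄').smul (d̄' ^ 2)`, `d̄' * det V̄' = 1`, because two
polynomials congruent modulo `P LocP P` are congruent modulo `P`. Apply `S_spinv` (`κ` is a field: `P` irreducible;
`(2 : κ) ≠ 0`; the `Fintype` instance on `κ` is `instFP P 1` of Base.lean).
-/

set_option autoImplicit false
set_option linter.all false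

open Polynomial Finset
open Pool.Agent.H456.EC (toK toK_inj sig toK_eq reflect_toK)

namespace Pool.Agent.H456.BQ

/-- the general statement: the reductions of two integral quartics of the same lattice over a ring `O` -/
theorem spP_gen (hsp : S_spinv) {L : Type} [Field L] (O : Subring L) {κ : Type} [CommRing κ] [Fintype κ]
    (hκ : IsField κ) (h2 : (2 : κ) ≠ 0) (π : O →+* κ) (q : Q4 L) (N N' : M2 L) (G0 g0 : Q4 O) (t : L) (ht : t ≠ 0)
    (hN : N.det ≠ 0) (h1 : q.sub N = (G0.map O.subtype).smul (t * N.det ^ 2))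
    (h3 : q.sub N' = (g0.map O.subtype).smul (t * N'.det ^ 2)) (hL : LEq O N N') :
    (G0.map π).sp = (g0.map π).sp := by
  obtain ⟨c, V, hc, hV, rfl⟩ := hL
  obtain ⟨d, hd⟩ := hV.exists_left_inv
  have hm : V.map (algebraMap O L) = V.map O.subtype := rfl
  have key : g0 = (G0.sub V).smul (d ^ 2) := by
    apply Q4.map_inj O.subtype Subtype.val_injective
    rw [Q4.map_smul, Q4.map_sub]
    rw [hm, Q4.sub_scal, ← Q4.sub_mul, h1, Q4.smul_sub, M2.det_scal, M2.det_mul, Q4.smul_smul] at h3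
    have hD : t * N.det ^ 2 * c ^ 4 ≠ 0 := mul_ne_zero (mul_ne_zero ht (pow_ne_zero _ hN)) (pow_ne_zero _ hc)
    have h4 : ((g0.map O.subtype).smul ((V.map O.subtype).det ^ 2)).smul (t * N.det ^ 2 * c ^ 4) =
        ((G0.map O.subtype).sub (V.map O.subtype)).smul (t * N.det ^ 2 * c ^ 4) := by
      rw [h3, Q4.smul_smul]
      congr 1
      ring
    have h5 := Q4.smul_cancel hD h4
    rw [← h5, Q4.smul_smul, M2.map_det, ← map_pow, ← map_mul, ← mul_pow, mul_comm V.det, hd, one_pow,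
      map_one, Q4.smul_one]
  have h6 : g0.map π = ((G0.map π).sub (V.map π)).smul ((π d) ^ 2) := by
    rw [key, Q4.map_smul, Q4.map_sub, map_pow]
  rw [h6]
  exact (hsp κ hκ h2 (G0.map π) (V.map π) (π d) (by rw [M2.map_det, ← map_mul, hd, map_one])).symm

/-- the residue map of a ring `O` which is approximated by polynomials -/
theorem spP_res {F : Type} [Field F] {O : Type} [CommRing O] (j : F[X] →+* O) (I : Ideal O) (m : F[X])
    (hk : ∀ p, j p ∈ I → m ∣ p) (hd : ∀ x : O, ∃ p, x - j p ∈ I) :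
    ∃ π : O →+* Rq m, (∀ p, π (j p) = Ideal.Quotient.mk _ p) ∧ ∀ x p, x - j p ∈ I → π x = Ideal.Quotient.mk _ p := by
  choose c hc using hd
  have key : ∀ (x : O) (p : F[X]), x - j p ∈ I →
      (Ideal.Quotient.mk (Ideal.span {m}) (c x) : Rq m) = Ideal.Quotient.mk _ p := by
    intro x p hp
    rw [mk_eq]
    apply hk
    rw [map_sub]
    have := I.sub_mem hp (hc x)
    have e : j (c x) - j p = x - j p - (x - j (c x)) := by ring
    rw [e]
    exact this
  refine ⟨{ toFun := fun x => Ideal.Quotient.mk _ (c x), map_one' := ?_, map_mul' := ?_, map_zero' := ?_,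
            map_add' := ?_ }, ?_, ?_⟩
  · rw [← map_one (Ideal.Quotient.mk (Ideal.span {m}))]
    apply key
    rw [map_one, sub_self]
    exact I.zero_mem
  · intro x y
    rw [← map_mul]
    apply key
    have e : x * y - j (c x * c y) = (x - j (c x)) * y + j (c x) * (y - j (c y)) := by
      rw [map_mul]; ring
    rw [e]
    exact I.add_mem (I.mul_mem_right _ (hc x)) (I.mul_mem_left _ (hc y))
  · change (Ideal.Quotient.mk _ (c 0) : Rq m) = 0
    rw [← map_zero (Ideal.Quotient.mk (Ideal.span {m}))]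
    apply key
    rw [map_zero, sub_self]
    exact I.zero_mem
  · intro x y
    change (Ideal.Quotient.mk _ (c (x + y)) : Rq m) = Ideal.Quotient.mk _ (c x) + Ideal.Quotient.mk _ (c y)
    rw [← map_add]
    apply key
    have e : x + y - j (c x + c y) = (x - j (c x)) + (y - j (c y)) := by
      rw [map_add]; ring
    rw [e]
    exact I.add_mem (hc x) (hc y)
  · intro p
    exact key _ _ (by rw [sub_self]; exact I.zero_mem)
  · exact key

theorem spP_field {F : Type} [Field F] (P : F[X]) (hP : Irreducible P) : IsField (Rq (P ^ 1)) := by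
  rw [← Ideal.Quotient.maximal_ideal_iff_isField_quotient, pow_one]
  exact PrincipalIdealRing.isMaximal_of_irreducible hP

theorem spP_two {F : Type} [Field F] (h2 : (2 : F) ≠ 0) (P : F[X]) (hP : Irreducible P) : (2 : Rq (P ^ 1)) ≠ 0 := by
  have e : (2 : Rq (P ^ 1)) = Ideal.Quotient.mk _ (C 2) := by
    rw [map_ofNat C 2, map_ofNat]
  rw [e, Ne, mk_zero, pow_one]
  intro h
  exact hP.not_isUnit (isUnit_of_dvd_unit h (isUnit_C.2 (isUnit_iff_ne_zero.2 h2)))

/-- the polynomials in the local ring -/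
noncomputable def spP_j {F : Type} [Field F] (P : Pl F) : F[X] →+* LocP P :=
  (toK F).codRestrict (LocP P) (fun p => ⟨p, 1, fun h => P.2.2.not_isUnit (isUnit_of_dvd_one h), by
    rw [map_one, one_mul]⟩)

/-- the maximal ideal of the local ring -/
def spP_I {F : Type} [Field F] (P : Pl F) : Ideal (LocP P) where
  carrier := {x | LocI P (x : RatFunc F)}
  zero_mem' := ⟨0, 1, fun h => P.2.2.not_isUnit (isUnit_of_dvd_one h), by simp⟩
  add_mem' := by
    rintro x y ⟨a, b, hb, h⟩ ⟨c, d, hd, h'⟩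
    refine ⟨a * d + b * c, b * d, ?_, ?_⟩
    · intro hbd
      rcases (P.2.2.prime.dvd_or_dvd hbd) with h1 | h1
      · exact hb h1
      · exact hd h1
    · have e : P.1 * (a * d + b * c) = (P.1 * a) * d + b * (P.1 * c) := by ring
      rw [e, map_add, map_mul _ (P.1 * a), map_mul _ b (P.1 * c), ← h, ← h', map_mul, Subring.coe_add]
      ring
  smul_mem' := by
    rintro x y ⟨a, b, hb, h⟩
    obtain ⟨c, d, hd, h'⟩ := x.2
    refine ⟨c * a, d * b, ?_, ?_⟩
    · intro hbd
      rcases (P.2.2.prime.dvd_or_dvd hbd) with h1 | h1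
      · exact hd h1
      · exact hb h1
    · have e : P.1 * (c * a) = c * (P.1 * a) := by ring
      rw [e, map_mul _ c, ← h, ← h', map_mul, smul_eq_mul, Subring.coe_mul]
      ring

theorem spP_mem {F : Type} [Field F] {P : Pl F} {x : RatFunc F} {p : F[X]} (h : LocI P (x - toK F p)) :
    x ∈ LocP P := by
  obtain ⟨a, b, hb, h⟩ := h
  refine ⟨P.1 * a + b * p, b, hb, ?_⟩
  rw [map_add, ← h, map_mul]
  ring

theorem t_spP : S_spinv → S_spP := by
  intro hsp F _ _ h2 P q N N' G H g hN hN' h1 h3 hR hL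
  have hker : ∀ p, spP_j P p ∈ spP_I P → P.1 ^ 1 ∣ p := by
    rintro p ⟨a, b, hb, h⟩
    change toK F b * toK F p = toK F (P.1 * a) at h
    rw [← map_mul] at h
    have h4 := toK_inj h
    rw [pow_one]
    exact (P.2.2.prime.dvd_or_dvd (Dvd.intro _ h4.symm)).resolve_left hb
  have hden : ∀ x : LocP P, ∃ p, x - spP_j P p ∈ spP_I P := by
    intro x
    obtain ⟨a, b, hb, h⟩ := x.2
    obtain ⟨u, v, huv⟩ := (P.2.2.coprime_iff_not_dvd.2 hb)
    refine ⟨a * v, a * u, b, hb, ?_⟩
    change toK F b * ((x : RatFunc F) - toK F (a * v)) = _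
    rw [mul_sub, h, ← map_mul, ← map_sub]
    congr 1
    linear_combination (-a) * huv
  obtain ⟨π, hπ1, hπ2⟩ := spP_res (spP_j P) (spP_I P) (P.1 ^ 1) hker hden
  obtain ⟨rA, rB, rC, rD, rE⟩ := hR
  set g0 : Q4 (LocP P) := ⟨⟨g.A, spP_mem rA⟩, ⟨g.B, spP_mem rB⟩, ⟨g.C, spP_mem rC⟩, ⟨g.D, spP_mem rD⟩,
    ⟨g.E, spP_mem rE⟩⟩ with hg0
  have hg1 : g0.map (LocP P).subtype = g := rfl
  have hg2 : g0.map π = H.map (Ideal.Quotient.mk (Ideal.span {P.1 ^ 1})) := by
    ext
    · exact hπ2 _ _ rA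
    · exact hπ2 _ _ rB
    · exact hπ2 _ _ rC
    · exact hπ2 _ _ rD
    · exact hπ2 _ _ rE
  have hG1 : (G.map (spP_j P)).map (LocP P).subtype = G.map (toK F) := rfl
  have hG2 : (G.map (spP_j P)).map π = G.map (Ideal.Quotient.mk (Ideal.span {P.1 ^ 1})) := by
    ext
    · exact hπ1 _
    · exact hπ1 _
    · exact hπ1 _
    · exact hπ1 _
    · exact hπ1 _
  rw [← hG2, ← hg2]
  refine spP_gen hsp (LocP P) (spP_field P.1 P.2.2) (spP_two h2 P.1 P.2.2) π q N N' _ g0 1 one_ne_zero hN ?_ ?_ hL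
  · rw [hG1, one_mul]; exact h1
  · rw [hg1, one_mul]; exact h3

end Pool.Agent.H456.BQ
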