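import Pool.Agent.H456.BQ.Stm3
import Pool.Agent.H456.BQ.T_spP

/-!
(J3) `S_spI` from `S_spinv` (take it as a hypothesis): the same at infinity. Write `M' = M diag(1, t⁻ᵉ)`. By `revV_map`
(Stm3.lean) `((revV n e G).map (sig F))` is `((G.map toK).sub diag(1, t⁻ᵉ)).smul (tt (2e - 2n))`, so
`q.sub M' = ((revV n e G).map (sig F)).smul (tt (2n) * det M' ^ 2)`: the same normalization as for `Ni`. With
`Ni = (M'.mul V).scal c`, `V ∈ GL₂(Oi F)`, one gets `g = (((revV n e G).map sig).sub V).smul ((det V)⁻²)`. `Oi F` is the local ring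
at infinity (`x = 0` or `intDegree ≤ 0`), with residue field `F`: every `x ∈ Oi F` is congruent modulo `tt (-1) Oi F` to a constant,
and `sig p ≡ p(0)`. So modulo the maximal ideal `H̄ = (revV̄.sub V̄).smul (d̄²)`, `d̄ det V̄ = 1`, where the bar of a polynomial
`p` is its class in `F[X]/(X^1)` (i.e. `p(0)`): choose constants (or polynomials) `V', d'` with
`(V - sig V') * tt 1 ∈ Oi F` etc.; two polynomials `p, p'` with `(sig p - sig p') * tt 1 ∈ Oi F` are congruent modulo `X`.
Apply `S_spinv` with `κ = F[X]/(X^1)` (`Fintype` instance `instFX 1` of Base.lean; `κ` is a field).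
-/

set_option autoImplicit false
set_option linter.all false

open Polynomial Finset
open Pool.Agent.H456.EC (toK toK_inj sig toK_eq reflect_toK)

namespace Pool.Agent.H456.BQ

/-- the polynomials in `1/t` in the ring at infinity -/
noncomputable def spI_j (F : Type) [Field F] : F[X] →+* Oi F :=
  (sig F).codRestrict (Oi F) sig_mem

/-- the maximal ideal at infinity -/
def spI_I (F : Type) [Field F] : Ideal (Oi F) where
  carrier := {x | (x : RatFunc F) * tt F 1 ∈ Oi F}
  zero_mem' := by
    change ((0 : Oi F) : RatFunc F) * tt F 1 ∈ Oi F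
    rw [Subring.coe_zero, zero_mul]
    exact (Oi F).zero_mem
  add_mem' := by
    intro x y hx hy
    change ((x + y : Oi F) : RatFunc F) * tt F 1 ∈ Oi F
    rw [Subring.coe_add, add_mul]
    exact (Oi F).add_mem hx hy
  smul_mem' := by
    intro x y hy
    change ((x * y : Oi F) : RatFunc F) * tt F 1 ∈ Oi F
    rw [Subring.coe_mul, mul_assoc]
    exact (Oi F).mul_mem x.2 hy

theorem spI_tneg {F : Type} [Field F] : tt F (-1) ∈ Oi F := by
  rw [mem_Oi, intDegree_tt]
  right; norm_num

theorem spI_mem {F : Type} [Field F] {x : RatFunc F} {p : F[X]} (h : (x - sig F p) * tt F 1 ∈ Oi F) :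
    x ∈ Oi F := by
  have e : x = ((x - sig F p) * tt F 1) * tt F (-1) + sig F p := by
    have := tt_neg (F := F) 1
    linear_combination (-(x - sig F p)) * this
  rw [e]
  exact (Oi F).add_mem ((Oi F).mul_mem h spI_tneg) (sig_mem p)

theorem spI_C {F : Type} [Field F] (a : F) : sig F (C a) = RatFunc.C a := by
  rw [sig, coe_eval₂RingHom, eval₂_C]

theorem spI_X {F : Type} [Field F] : sig F X = tt F (-1) := by
  rw [sig, coe_eval₂RingHom, eval₂_X, tt, zpow_neg, zpow_one]

theorem t_spI : S_spinv → S_spI := by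
  intro hsp F _ _ h2 n e he q M Ni G H g hM hNi hdeg h1 h3 hR hL
  have hker : ∀ p, spI_j F p ∈ spI_I F → (X : F[X]) ^ 1 ∣ p := by
    intro p hp
    change sig F p * tt F 1 ∈ Oi F at hp
    obtain ⟨p', hp'⟩ : ∃ p' : F[X], p = X * p' + C (p.coeff 0) := ⟨divX p, (X_mul_divX_add p).symm⟩
    rw [pow_one, X_dvd_iff]
    by_contra h0
    have e1 : sig F p * tt F 1 = sig F p' + RatFunc.C (p.coeff 0) * tt F 1 := by
      conv_lhs => rw [hp']
      rw [map_add, map_mul, spI_C, spI_X]
      have := tt_neg (F := F) 1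
      linear_combination sig F p' * this
    have e2 : RatFunc.C (p.coeff 0) * tt F 1 ∈ Oi F := by
      have := (Oi F).sub_mem hp (sig_mem p')
      rwa [e1, add_sub_cancel_left] at this
    rw [mem_Oi] at e2
    have h4 : (RatFunc.C (p.coeff 0) : RatFunc F) ≠ 0 := by
      rw [Ne, map_eq_zero]; exact h0
    rcases e2 with h5 | h5
    · exact mul_ne_zero h4 (tt_ne _) h5
    · rw [RatFunc.intDegree_mul h4 (tt_ne _), RatFunc.intDegree_C, intDegree_tt] at h5
      omega
  have hden : ∀ x : Oi F, ∃ p, x - spI_j F p ∈ spI_I F := by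
    intro x
    -- numerator and denominator
    set a := (x : RatFunc F).num with ha
    set b := (x : RatFunc F).denom with hb
    have hb0 : b ≠ 0 := RatFunc.denom_ne_zero _
    have hb1 : toK F b ≠ 0 := (map_ne_zero_iff _ toK_inj).2 hb0
    have hx : (x : RatFunc F) * toK F b = toK F a := by
      have h4 := RatFunc.num_div_denom (x : RatFunc F)
      rw [div_eq_iff hb1] at h4
      exact h4.symm
    have hab : a.natDegree ≤ b.natDegree := by
      rcases x.2 with h4 | h4
      · have : a = 0 := by rw [ha, h4, RatFunc.num_zero]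
        rw [this, natDegree_zero]; exact Nat.zero_le _
      · unfold RatFunc.intDegree at h4
        rw [ha, hb]
        omega
    have hbl : b.leadingCoeff ≠ 0 := leadingCoeff_ne_zero.2 hb0
    set c := a.coeff b.natDegree / b.leadingCoeff with hc
    refine ⟨C c, ?_⟩
    change ((x : RatFunc F) - sig F (C c)) * tt F 1 ∈ Oi F
    have hCc : sig F (C c) = toK F (C c) := by
      rw [spI_C]
      exact (RatFunc.algebraMap_C c).symm
    have e1 : ((x : RatFunc F) - sig F (C c)) = toK F (a - C c * b) / toK F b := by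
      rw [eq_div_iff hb1, hCc, sub_mul, hx, map_sub, map_mul]
    by_cases h0 : a - C c * b = 0
    · rw [e1, h0, map_zero, zero_div, zero_mul]; exact (Oi F).zero_mem
    have h0' : toK F (a - C c * b) ≠ 0 := (map_ne_zero_iff _ toK_inj).2 h0
    have hlt : (a - C c * b).natDegree < b.natDegree := by
      have hle : (a - C c * b).natDegree ≤ b.natDegree := by
        refine (natDegree_sub_le _ _).trans (max_le hab ?_)
        exact (natDegree_C_mul_le _ _)
      refine lt_of_le_of_ne hle ?_
      intro heq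
      have h5 : (a - C c * b).coeff b.natDegree = 0 := by
        rw [coeff_sub, coeff_C_mul, hc, coeff_natDegree, div_mul_cancel₀ _ hbl, sub_self]
      rw [← heq, coeff_natDegree, leadingCoeff_eq_zero] at h5
      exact h0 h5
    rw [e1, mem_Oi]
    right
    rw [div_eq_mul_inv, RatFunc.intDegree_mul (mul_ne_zero h0' (inv_ne_zero hb1)) (tt_ne _),
      RatFunc.intDegree_mul h0' (inv_ne_zero hb1), RatFunc.intDegree_inv, RatFunc.intDegree_polynomial,
      RatFunc.intDegree_polynomial, intDegree_tt]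
    omega
  obtain ⟨π, hπ1, hπ2⟩ := spP_res (spI_j F) (spI_I F) ((X : F[X]) ^ 1) hker hden
  obtain ⟨rA, rB, rC, rD, rE⟩ := hR
  set g0 : Q4 (Oi F) := ⟨⟨g.A, spI_mem rA⟩, ⟨g.B, spI_mem rB⟩, ⟨g.C, spI_mem rC⟩, ⟨g.D, spI_mem rD⟩,
    ⟨g.E, spI_mem rE⟩⟩ with hg0
  have hg1 : g0.map (Oi F).subtype = g := rfl
  have hg2 : g0.map π = H.map (Ideal.Quotient.mk (Ideal.span {(X : F[X]) ^ 1})) := by
    ext
    · exact hπ2 _ _ rA
    · exact hπ2 _ _ rB
    · exact hπ2 _ _ rC
    · exact hπ2 _ _ rD
    · exact hπ2 _ _ rE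
  set R := revV n e G with hRv
  have hG1 : (R.map (spI_j F)).map (Oi F).subtype = R.map (sig F) := rfl
  have hG2 : (R.map (spI_j F)).map π = R.map (Ideal.Quotient.mk (Ideal.span {(X : F[X]) ^ 1})) := by
    ext
    · exact hπ1 _
    · exact hπ1 _
    · exact hπ1 _
    · exact hπ1 _
    · exact hπ1 _
  rw [← hG2, ← hg2]
  have hMd : (M.mul ⟨1, 0, 0, tt F (-(e : ℤ))⟩).det = M.det * tt F (-(e : ℤ)) := by
    rw [M2.det_mul]
    simp only [M2.det]
    ring
  refine spP_gen hsp (Oi F) (spP_field (X : F[X]) irreducible_X) (spP_two h2 (X : F[X]) irreducible_X) π q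
    (M.mul ⟨1, 0, 0, tt F (-(e : ℤ))⟩) Ni _ g0 (tt F (2 * n)) (tt_ne _) ?_ ?_ ?_ hL
  · rw [hMd]; exact mul_ne_zero hM (tt_ne _)
  · rw [hG1, hRv, revV_map he hdeg, ← Q4.sub_mul, h1, Q4.smul_sub, hMd, Q4.smul_smul]
    congr 1
    have t1 : tt F (2 * e - 2 * n) * tt F (2 * n) * tt F (-(e : ℤ)) ^ 2 = 1 := by
      rw [tt_pow, ← tt_add, ← tt_add, ← tt_zero]
      congr 1
      push_cast
      ring
    linear_combination (-(M.det ^ 2)) * t1
  · rw [hg1]; exact h3

end Pool.Agent.H456.BQ
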