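import Pool.Agent.H456.BQ.Stm2

/-!
(G1) `S_spinv`. `κ` is a finite field with `2 ≠ 0` (maybe of characteristic 3). `Q4.sp g` counts the smooth points of
`z² = g(u, v)` in the weighted projective space: the affine chart `(u, z)`, `v = 1`, and the points `(1 : 0, z)`.
With `g' = (g.sub V).smul (d²)`, `d = (det V)⁻¹`, `g'(u, v) = d² g(V (u, v))`, the map `(u : v, z) ↦ (V (u, v), z det V)`
is a bijection between the points of `z² = g'` and those of `z² = g`, where `(u, v, z) ~ (l u, l v, l² z)`.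

The proof reduces to the upper triangular matrices and the exchange of the coordinates (Bruhat decomposition).
-/

set_option autoImplicit false
set_option linter.all false

open Polynomial Finset
open Pool.Agent.H456.EC (toK toK_inj sig toK_eq reflect_toK)

namespace Pool.Agent.H456.BQ

section spinv

variable {κ : Type} [Field κ]

/-- the derivative -/
def spinv_der (g : Q4 κ) (x : κ) : κ := 4 * g.A * x ^ 3 + 3 * g.B * x ^ 2 + 2 * g.C * x + g.D

theorem spinv_key1 (g : Q4 κ) (a b e : κ) (ha : a ≠ 0) (he : e ≠ 0) (x : κ) :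
    ((g.sub ⟨a, b, 0, e⟩).smul (((a * e)⁻¹) ^ 2)).ev x 1 = (e / a) ^ 2 * g.ev ((a * x + b) / e) 1 := by
  rw [Q4.ev_smul, Q4.ev_sub]
  simp only [Q4.ev]
  field_simp
  ring

theorem spinv_key2 (g : Q4 κ) (a b e : κ) (ha : a ≠ 0) (he : e ≠ 0) (x : κ) :
    spinv_der ((g.sub ⟨a, b, 0, e⟩).smul (((a * e)⁻¹) ^ 2)) x =
      (e / a) * spinv_der g ((a * x + b) / e) := by
  simp only [Q4.sub, Q4.smul, spinv_der]
  field_simp
  ring

variable [Fintype κ]

theorem spinv_tri (g : Q4 κ) (a b e : κ) (ha : a ≠ 0) (he : e ≠ 0) :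
    ((g.sub ⟨a, b, 0, e⟩).smul (((a * e)⁻¹) ^ 2)).sp = g.sp := by
  classical
  have k1 := spinv_key1 g a b e ha he
  have k2 := spinv_key2 g a b e ha he
  have hA : ((g.sub ⟨a, b, 0, e⟩).smul (((a * e)⁻¹) ^ 2)).A = (a / e) ^ 2 * g.A := by
    simp only [Q4.sub, Q4.smul]
    field_simp
    ring
  have hB : ((g.sub ⟨a, b, 0, e⟩).smul (((a * e)⁻¹) ^ 2)).B =
      4 * (a * b / e ^ 2) * g.A + (a / e) * g.B := by
    simp only [Q4.sub, Q4.smul]
    field_simp
    ring
  generalize hg' : (g.sub ⟨a, b, 0, e⟩).smul (((a * e)⁻¹) ^ 2) = g' at k1 k2 hA hB ⊢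
  have hea : e / a ≠ 0 := div_ne_zero he ha
  have hae : a / e ≠ 0 := div_ne_zero ha he
  unfold Q4.sp
  congr 1
  · refine Finset.card_bij' (fun p _ => ((a * p.1 + b) / e, p.2 * (a / e)))
      (fun p _ => ((e * p.1 - b) / a, p.2 * (e / a))) ?_ ?_ ?_ ?_
    · rintro ⟨x, z⟩ hp
      simp only [mem_filter, mem_univ, true_and] at hp ⊢
      obtain ⟨h1, h2⟩ := hp
      have h3 := k2 x
      rw [k1] at h1
      refine ⟨?_, ?_⟩
      · rw [mul_pow, h1]
        field_simp
      · rcases h2 with h2 | h2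
        · exact Or.inl (mul_ne_zero h2 hae)
        · right
          intro h4
          apply h2
          have h5 : spinv_der g ((a * x + b) / e) = 0 := h4
          rw [h5, mul_zero] at h3
          exact h3
    · rintro ⟨x, z⟩ hp
      simp only [mem_filter, mem_univ, true_and] at hp ⊢
      obtain ⟨h1, h2⟩ := hp
      have hx : (a * ((e * x - b) / a) + b) / e = x := by field_simp; ring
      have h3 := k2 ((e * x - b) / a)
      rw [k1, hx, mul_pow, h1, mul_comm]
      rw [hx] at h3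
      refine ⟨rfl, ?_⟩
      · rcases h2 with h2 | h2
        · exact Or.inl (mul_ne_zero h2 hea)
        · right
          intro h4
          have h5 : spinv_der g' ((e * x - b) / a) = 0 := h4
          rw [h5] at h3
          exact h2 ((mul_eq_zero.1 h3.symm).resolve_left hea)
    · rintro ⟨x, z⟩ _
      simp only [Prod.mk.injEq]
      constructor <;> field_simp <;> ring
    · rintro ⟨x, z⟩ _
      simp only [Prod.mk.injEq]
      constructor <;> field_simp <;> ring
  · refine Finset.card_bij' (fun z _ => z * (e / a)) (fun z _ => z * (a / e)) ?_ ?_ ?_ ?_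
    · intro z hz
      simp only [mem_filter, mem_univ, true_and] at hz ⊢
      obtain ⟨h1, h2⟩ := hz
      rw [hA] at h1
      refine ⟨by rw [mul_pow, h1]; field_simp, ?_⟩
      by_cases hz0 : z = 0
      · right
        intro hB0
        rcases h2 with h2 | h2
        · exact h2 hz0
        · apply h2
          rw [hz0, zero_pow two_ne_zero] at h1
          have hgA : g.A = 0 := (mul_eq_zero.1 h1.symm).resolve_left (pow_ne_zero _ hae)
          rw [hB, hgA, hB0]; ring
      · exact Or.inl (mul_ne_zero hz0 hea)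
    · intro z hz
      simp only [mem_filter, mem_univ, true_and] at hz ⊢
      obtain ⟨h1, h2⟩ := hz
      rw [hA]
      refine ⟨by rw [mul_pow, h1]; ring, ?_⟩
      by_cases hz0 : z = 0
      · right
        intro hB0
        rcases h2 with h2 | h2
        · exact h2 hz0
        · apply h2
          rw [hz0, zero_pow two_ne_zero] at h1
          rw [hB, ← h1, mul_zero, zero_add] at hB0
          exact (mul_eq_zero.1 hB0).resolve_left hae
      · exact Or.inl (mul_ne_zero hz0 hae)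
    · intro z _
      field_simp
    · intro z _
      field_simp

open Classical in
/-- the points with `u ≠ 0` -/
noncomputable def spinv_X (g : Q4 κ) : ℕ :=
  ((univ : Finset (κ × κ)).filter (fun p => (p.2 ^ 2 = g.ev p.1 1 ∧
    (p.2 ≠ 0 ∨ 4 * g.A * p.1 ^ 3 + 3 * g.B * p.1 ^ 2 + 2 * g.C * p.1 + g.D ≠ 0)) ∧ p.1 ≠ 0)).card

open Classical in
/-- the points with `u = 0` -/
noncomputable def spinv_Z (A B : κ) : ℕ :=
  ((univ : Finset κ).filter (fun z => z ^ 2 = A ∧ (z ≠ 0 ∨ B ≠ 0))).card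

theorem spinv_split (g : Q4 κ) : g.sp = spinv_X g + spinv_Z g.E g.D + spinv_Z g.A g.B := by
  classical
  unfold Q4.sp spinv_X spinv_Z
  congr 1
  rw [← Finset.card_filter_add_card_filter_not (fun p : κ × κ => p.1 ≠ 0), filter_filter,
    filter_filter]
  congr 1
  refine Finset.card_bij' (fun p _ => p.2) (fun z _ => (0, z)) ?_ ?_ ?_ ?_
  · rintro ⟨x, z⟩ hp
    simp only [mem_filter, mem_univ, true_and, not_not] at hp ⊢
    obtain ⟨⟨h1, h2⟩, h3⟩ := hp
    subst h3
    refine ⟨by rw [h1]; simp [Q4.ev], ?_⟩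
    simpa using h2
  · intro z hz
    simp only [mem_filter, mem_univ, true_and, not_not] at hz ⊢
    refine ⟨⟨by rw [hz.1]; simp [Q4.ev], ?_⟩, trivial⟩
    simpa using hz.2
  · rintro ⟨x, z⟩ hp
    simp only [mem_filter, mem_univ, true_and, not_not] at hp
    simp [hp.2]
  · intro z _
    rfl

theorem spinv_X_rev_aux (g : Q4 κ) (x z : κ)
    (h : (z ^ 2 = g.ev x 1 ∧ (z ≠ 0 ∨ spinv_der g x ≠ 0)) ∧ x ≠ 0) :
    ((z / x ^ 2) ^ 2 = (⟨g.E, g.D, g.C, g.B, g.A⟩ : Q4 κ).ev x⁻¹ 1 ∧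
      (z / x ^ 2 ≠ 0 ∨ spinv_der (⟨g.E, g.D, g.C, g.B, g.A⟩ : Q4 κ) x⁻¹ ≠ 0)) ∧ x⁻¹ ≠ 0 := by
  obtain ⟨⟨h1, h2⟩, hx⟩ := h
  have e1 : (⟨g.E, g.D, g.C, g.B, g.A⟩ : Q4 κ).ev x⁻¹ 1 = g.ev x 1 / x ^ 4 := by
    simp only [Q4.ev]
    field_simp
    ring
  have e2 : spinv_der (⟨g.E, g.D, g.C, g.B, g.A⟩ : Q4 κ) x⁻¹ =
      4 * g.ev x 1 / x ^ 3 - spinv_der g x / x ^ 2 := by
    simp only [Q4.ev, spinv_der]
    field_simp
    ring
  refine ⟨⟨?_, ?_⟩, inv_ne_zero hx⟩
  · rw [e1, ← h1]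
    field_simp
  · by_cases hz : z = 0
    · right
      rcases h2 with h2 | h2
      · exact absurd hz h2
      · rw [e2, ← h1, hz]
        intro h3
        apply h2
        rw [zero_pow two_ne_zero, mul_zero, zero_div, zero_sub, neg_eq_zero] at h3
        exact (div_eq_zero_iff.1 h3).resolve_right (pow_ne_zero _ hx)
    · exact Or.inl (div_ne_zero hz (pow_ne_zero _ hx))

theorem spinv_X_rev (g : Q4 κ) : spinv_X (⟨g.E, g.D, g.C, g.B, g.A⟩ : Q4 κ) = spinv_X g := by
  classical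
  unfold spinv_X
  refine Finset.card_bij' (fun p _ => (p.1⁻¹, p.2 / p.1 ^ 2)) (fun p _ => (p.1⁻¹, p.2 / p.1 ^ 2))
    ?_ ?_ ?_ ?_
  · rintro ⟨x, z⟩ hp
    simp only [mem_filter, mem_univ, true_and] at hp ⊢
    exact spinv_X_rev_aux (⟨g.E, g.D, g.C, g.B, g.A⟩ : Q4 κ) x z hp
  · rintro ⟨x, z⟩ hp
    simp only [mem_filter, mem_univ, true_and] at hp ⊢
    exact spinv_X_rev_aux g x z hp
  · rintro ⟨x, z⟩ hp
    simp only [mem_filter, mem_univ, true_and] at hp
    have hx := hp.2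
    simp only [Prod.mk.injEq, inv_inv, true_and]
    field_simp
  · rintro ⟨x, z⟩ hp
    simp only [mem_filter, mem_univ, true_and] at hp
    have hx := hp.2
    simp only [Prod.mk.injEq, inv_inv, true_and]
    field_simp

theorem spinv_rev (g : Q4 κ) : (⟨g.E, g.D, g.C, g.B, g.A⟩ : Q4 κ).sp = g.sp := by
  rw [spinv_split, spinv_split, spinv_X_rev]
  simp only
  ring

/-- invariance under the matrix `V` -/
def spinv_P (V : M2 κ) : Prop := ∀ (g : Q4 κ) (d : κ), d * V.det = 1 →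
  ((g.sub V).smul (d ^ 2)).sp = g.sp

theorem spinv_P_mul {V W : M2 κ} (hV : spinv_P V) (hW : spinv_P W) : spinv_P (V.mul W) := by
  intro g d hd
  rw [M2.det_mul] at hd
  have h1 := hV g (d * W.det) (by linear_combination hd)
  have h2 := hW ((g.sub V).smul ((d * W.det) ^ 2)) (d * V.det) (by linear_combination hd)
  rw [← h1, ← h2, Q4.smul_sub, Q4.smul_smul, Q4.sub_mul]
  congr 2
  linear_combination (-(d ^ 2) * (d * (V.det * W.det) + 1)) * hd

theorem spinv_P_tri (a b e : κ) : spinv_P (⟨a, b, 0, e⟩ : M2 κ) := by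
  intro g d hd
  simp only [M2.det] at hd
  rw [mul_zero, sub_zero] at hd
  have hae : a * e ≠ 0 := right_ne_zero_of_mul_eq_one hd
  have hd' : d = (a * e)⁻¹ := eq_inv_of_mul_eq_one_left hd
  rw [hd']
  exact spinv_tri g a b e (left_ne_zero_of_mul hae) (right_ne_zero_of_mul hae)

theorem spinv_P_w : spinv_P (⟨0, 1, 1, 0⟩ : M2 κ) := by
  intro g d hd
  simp only [M2.det] at hd
  have hd' : d ^ 2 = 1 := by linear_combination (-d + 1) * hd
  have h1 : (g.sub (⟨0, 1, 1, 0⟩ : M2 κ)).smul (d ^ 2) = ⟨g.E, g.D, g.C, g.B, g.A⟩ := by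
    rw [hd']
    ext <;> simp [Q4.sub, Q4.smul]
  rw [h1, spinv_rev]

theorem spinv_P_all (V : M2 κ) : spinv_P V := by
  by_cases hγ : V.γ = 0
  · have h1 : V = ⟨V.α, V.β, 0, V.δ⟩ := by
      ext <;> simp [hγ]
    rw [h1]
    exact spinv_P_tri _ _ _
  · have h1 : V = ((⟨1, V.α / V.γ, 0, 1⟩ : M2 κ).mul ⟨0, 1, 1, 0⟩).mul
        ⟨V.γ, V.δ, 0, V.β - V.α * V.δ / V.γ⟩ := by
      ext <;> simp only [M2.mul] <;> field_simp <;> ring
    rw [h1]
    exact spinv_P_mul (spinv_P_mul (spinv_P_tri _ _ _) spinv_P_w) (spinv_P_tri _ _ _)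

end spinv

theorem t_spinv : S_spinv := by
  intro κ _ _ hκ _ g V d hd
  exact @spinv_P_all κ hκ.toField _ V g d hd

end Pool.Agent.H456.BQ
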