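import Pool.Agent.H456.BQ.Stm

/-!
(S4) `S_star`: local count of binary quartics weighted by smooth points. `R = F[X]/(P^M)`, a finite local ring with
maximal ideal `m = (P)`, residue field `κ = Rq (P ^ 1)`.
-/

set_option autoImplicit false
set_option linter.all false

open Polynomial Finset

namespace Pool.Agent.H456.BQ

section star_abs

open Classical in
/-- the number of square roots `z` of `a`, without `0` if `b = 0` -/
noncomputable def star_c {κ : Type} [CommRing κ] [Fintype κ] (a b : κ) : ℕ :=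
  ((univ : Finset κ).filter (fun z => z ^ 2 = a ∧ (z ≠ 0 ∨ b ≠ 0))).card

theorem star_sp {κ : Type} [CommRing κ] [Fintype κ] (g : Q4 κ) :
    g.sp = ∑ u : κ, star_c (g.ev u 1) (4 * g.A * u ^ 3 + 3 * g.B * u ^ 2 + 2 * g.C * u + g.D) +
      star_c g.A g.B := by
  classical
  unfold Q4.sp star_c
  congr 1
  · rw [Finset.card_filter, Fintype.sum_prod_type]
    refine Finset.sum_congr rfl (fun u _ => ?_)
    rw [Finset.card_filter]

/-- the hypotheses on the reduction map of a finite local ring onto its residue field -/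
structure StarH {R κ : Type} [CommRing R] [CommRing κ] (φ : R →+* κ) : Prop where
  surj : Function.Surjective φ
  nil : ∀ r, φ r = 0 → IsNilpotent r
  fld : ∀ x : κ, x ≠ 0 → IsUnit x
  nt : Nontrivial κ
  two : IsUnit (2 : R)

variable {R κ : Type} [CommRing R] [CommRing κ] {φ : R →+* κ}

theorem StarH.unit (h : StarH φ) {r : R} (hr : φ r ≠ 0) : IsUnit r := by
  obtain ⟨v, hv⟩ := h.fld _ hr
  obtain ⟨s, hs⟩ := h.surj (↑v⁻¹ : κ)
  have h1 : φ (r * s - 1) = 0 := by
    rw [map_sub, map_mul, map_one, hs, ← hv, Units.mul_inv, sub_self]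
  have h2 := (h.nil _ h1).isUnit_one_add
  rw [add_sub_cancel] at h2
  exact isUnit_of_mul_isUnit_left h2

theorem StarH.ne (h : StarH φ) {r : R} (hr : IsUnit r) : φ r ≠ 0 := by
  haveI := h.nt
  exact (hr.map φ).ne_zero

variable [Fintype R] [Fintype κ]

theorem star_mul {M : Type} [AddCommMonoid M] {v : R} (hv : IsUnit v) (f : R → M) :
    ∑ x, f (v * x) = ∑ x, f x := by
  obtain ⟨v, rfl⟩ := hv
  exact Equiv.sum_comp (Units.mulLeft v) f

theorem star_add {M : Type} [AddCommMonoid M] (c : R) (f : R → M) :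
    ∑ x, f (x + c) = ∑ x, f x := Equiv.sum_comp (Equiv.addRight c) f

open Classical in
/-- the fibres of `φ` have the same number of elements -/
theorem star_fib (h : StarH φ) (z : κ) :
    ((univ : Finset R).filter (fun r => φ r = z)).card = ((univ : Finset R).filter (fun r => φ r = 0)).card := by
  obtain ⟨c, hc⟩ := h.surj z
  symm
  refine Finset.card_bij (fun r _ => r + c) ?_ ?_ ?_
  · intro r hr
    simp only [mem_filter, mem_univ, true_and] at hr ⊢
    rw [map_add, hr, hc, zero_add]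
  · intro r _ r' _ e
    exact add_right_cancel e
  · intro r hr
    simp only [mem_filter, mem_univ, true_and] at hr
    refine ⟨r - c, ?_, sub_add_cancel _ _⟩
    simp only [mem_filter, mem_univ, true_and]
    rw [map_sub, hr, hc, sub_self]

open Classical in
theorem star_card (h : StarH φ) :
    Fintype.card R = Fintype.card κ * ((univ : Finset R).filter (fun r => φ r = 0)).card := by
  have h1 : Fintype.card R = ∑ z : κ, ((univ : Finset R).filter (fun r => φ r = z)).card := by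
    rw [← Finset.card_univ, Finset.card_eq_sum_card_fiberwise (f := φ) (t := univ) (fun _ _ => mem_univ _)]
  rw [h1, Finset.sum_congr rfl (fun z _ => star_fib h z), Finset.sum_const, Finset.card_univ, smul_eq_mul]

open Classical in
theorem star_units (h : StarH φ) :
    (((univ : Finset R).filter (fun r => φ r ≠ 0)).card : ℝ) =
      ((Fintype.card κ : ℝ) - 1) * ((univ : Finset R).filter (fun r => φ r = 0)).card := by
  have h1 := Finset.card_filter_add_card_filter_not (s := (univ : Finset R)) (fun r => φ r = 0)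
  rw [Finset.card_univ, star_card h] at h1
  have h2 : (((univ : Finset R).filter (fun r => φ r = 0)).card : ℝ) +
      ((univ : Finset R).filter (fun r => φ r ≠ 0)).card =
      (Fintype.card κ : ℝ) * ((univ : Finset R).filter (fun r => φ r = 0)).card := by
    exact_mod_cast h1
  linarith

theorem star_two_ne (h : StarH φ) {z : κ} (hz : z ≠ 0) : 2 * z ≠ 0 := by
  intro e
  obtain ⟨v, hv⟩ := h.two
  have h1 : φ (2 * (↑v⁻¹ : R)) = 1 := by rw [← hv, Units.mul_inv, map_one]
  rw [map_mul, map_ofNat] at h1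
  apply hz
  calc z = (2 * φ (↑v⁻¹ : R)) * z := by rw [h1, one_mul]
    _ = φ (↑v⁻¹ : R) * (2 * z) := by ring
    _ = 0 := by rw [e, mul_zero]

open Classical in
/-- Hensel's lemma for square roots, in the form of a sum -/
theorem star_sq (h : StarH φ) (f : R → ℝ) :
    ∑ A : R, (((univ : Finset κ).filter (fun z => z ^ 2 = φ A ∧ z ≠ 0)).card : ℝ) * f A =
      ∑ α ∈ (univ : Finset R).filter (fun r => φ r ≠ 0), f (α ^ 2) := by
  have key : ∀ z : κ, z ≠ 0 → ((univ : Finset R).filter (fun r => φ r = z)).image (fun r => r ^ 2) =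
      (univ : Finset R).filter (fun r => φ r = z ^ 2) ∧
      Set.InjOn (fun r : R => r ^ 2) ((univ : Finset R).filter (fun r => φ r = z) : Finset R) := by
    intro z hz
    have hinj : Set.InjOn (fun r : R => r ^ 2) ((univ : Finset R).filter (fun r => φ r = z) : Finset R) := by
      intro r hr r' hr' e
      simp only [coe_filter, mem_univ, true_and, Set.mem_setOf_eq] at hr hr'
      have e' : r ^ 2 = r' ^ 2 := e
      have h1 : (r + r') * (r - r') = 0 := by linear_combination e'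
      have h2 : IsUnit (r + r') := by
        apply h.unit
        rw [map_add, hr, hr', ← two_mul]
        exact star_two_ne h hz
      exact sub_eq_zero.1 (h2.mul_right_eq_zero.1 h1)
    refine ⟨?_, hinj⟩
    apply Finset.eq_of_subset_of_card_le
    · intro r hr
      simp only [mem_image, mem_filter, mem_univ, true_and] at hr ⊢
      obtain ⟨s, hs, rfl⟩ := hr
      rw [map_pow, hs]
    · rw [Finset.card_image_of_injOn hinj, star_fib h, star_fib h z]
  have e1 : ∀ A : R, (((univ : Finset κ).filter (fun z => z ^ 2 = φ A ∧ z ≠ 0)).card : ℝ) * f A =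
      ∑ z ∈ (univ : Finset κ).filter (fun z => z ≠ 0), if φ A = z ^ 2 then f A else 0 := by
    intro A
    rw [← Finset.sum_filter, Finset.sum_const, nsmul_eq_mul, Finset.filter_filter]
    congr 2
    congr 1
    ext z
    simp only [mem_filter, mem_univ, true_and]
    constructor
    · rintro ⟨a, b⟩
      exact ⟨b, a.symm⟩
    · rintro ⟨a, b⟩
      exact ⟨b.symm, a⟩
  rw [Finset.sum_congr rfl (fun A _ => e1 A), Finset.sum_comm]
  have e2 : ∀ z ∈ (univ : Finset κ).filter (fun z => z ≠ 0), ∑ A : R, (if φ A = z ^ 2 then f A else 0) =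
      ∑ α ∈ (univ : Finset R).filter (fun r => φ r ≠ 0), if φ α = z then f (α ^ 2) else 0 := by
    intro z hz
    simp only [mem_filter, mem_univ, true_and] at hz
    obtain ⟨k1, k2⟩ := key z hz
    rw [← Finset.sum_filter, ← k1, Finset.sum_image k2, ← Finset.sum_filter, Finset.filter_filter]
    apply Finset.sum_congr _ (fun _ _ => rfl)
    ext r
    simp only [mem_filter, mem_univ, true_and]
    constructor
    · intro a
      exact ⟨by rw [a]; exact hz, a⟩
    · exact fun a => a.2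
  rw [Finset.sum_congr rfl e2, Finset.sum_comm]
  apply Finset.sum_congr rfl
  intro α hα
  simp only [mem_filter, mem_univ, true_and] at hα
  rw [Finset.sum_ite_eq]
  simp [hα]

/-- substitution as a permutation of the quartics -/
theorem star_sub (h : StarH φ) (Φ : Cub R → ℝ) (hΦ : ∀ f r, Φ (Cub.tr r f) = Φ f) (u : κ) :
    ∑ g : Q4 R, (star_c ((g.map φ).ev u 1)
      (4 * (g.map φ).A * u ^ 3 + 3 * (g.map φ).B * u ^ 2 + 2 * (g.map φ).C * u + (g.map φ).D) : ℝ) * Φ g.res =
    ∑ g : Q4 R, (star_c (φ g.A) (φ g.B) : ℝ) * Φ g.res := by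
  obtain ⟨t, rfl⟩ := h.surj u
  let e : Q4 R ≃ Q4 R :=
    { toFun := fun g => g.sub ⟨t, 1, 1, 0⟩
      invFun := fun g => g.sub ⟨0, 1, 1, -t⟩
      left_inv := fun g => by
        change (g.sub _).sub _ = g
        rw [Q4.sub_mul]
        have : M2.mul ⟨t, 1, 1, 0⟩ ⟨0, 1, 1, -t⟩ = (⟨1, 0, 0, 1⟩ : M2 R) := by
          ext <;> simp only [M2.mul] <;> ring
        rw [this, Q4.sub_one]
      right_inv := fun g => by
        change (g.sub _).sub _ = g
        rw [Q4.sub_mul]
        have : M2.mul ⟨0, 1, 1, -t⟩ ⟨t, 1, 1, 0⟩ = (⟨1, 0, 0, 1⟩ : M2 R) := by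
          ext <;> simp only [M2.mul] <;> ring
        rw [this, Q4.sub_one] }
  rw [← e.sum_comp (fun g => (star_c (φ g.A) (φ g.B) : ℝ) * Φ g.res)]
  apply Finset.sum_congr rfl
  intro g _
  have h1 : Φ (e g).res = Φ g.res := by
    change Φ (g.sub ⟨t, 1, 1, 0⟩).res = _
    rw [Q4.res_sub, hΦ]
    have : (M2.det (⟨t, 1, 1, 0⟩ : M2 R)) ^ 2 = 1 := by simp only [M2.det]; ring
    rw [this, Cub.sc_one]
  have h2 : φ (e g).A = (g.map φ).ev (φ t) 1 := by
    change φ (g.sub ⟨t, 1, 1, 0⟩).A = _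
    rw [← map_one φ, Q4.map_ev]
    congr 1
    simp only [Q4.sub, Q4.ev]
    ring
  have h3 : φ (e g).B = 4 * (g.map φ).A * (φ t) ^ 3 + 3 * (g.map φ).B * (φ t) ^ 2 + 2 * (g.map φ).C * (φ t) +
      (g.map φ).D := by
    have : (e g).B = 4 * g.A * t ^ 3 + 3 * g.B * t ^ 2 + 2 * g.C * t + g.D := by
      change (g.sub ⟨t, 1, 1, 0⟩).B = _
      simp only [Q4.sub]
      ring
    rw [this]
    simp only [Q4.map, map_add, map_mul, map_pow, map_ofNat]
  rw [h1, h2, h3]

open Classical in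
theorem star_c_eq (a b : κ) (hκ : ∀ x : κ, x ≠ 0 → IsUnit x) :
    star_c a b = ((univ : Finset κ).filter (fun z => z ^ 2 = a ∧ z ≠ 0)).card +
      if a = 0 ∧ b ≠ 0 then 1 else 0 := by
  have hdis : (univ : Finset κ).filter (fun z => z ^ 2 = a ∧ (z ≠ 0 ∨ b ≠ 0)) =
      (univ : Finset κ).filter (fun z => z ^ 2 = a ∧ z ≠ 0) ∪
        (if a = 0 ∧ b ≠ 0 then {0} else ∅) := by
    ext z
    simp only [mem_filter, mem_univ, true_and, mem_union]
    by_cases hz : z = 0
    · subst hz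
      split_ifs with hc
      · simp [hc]
      · simp only [ne_eq, not_true_eq_false, false_or, and_false, notMem_empty, or_self, iff_false]
        rintro ⟨h1, h2⟩
        exact hc ⟨by rw [← h1]; ring, h2⟩
    · split_ifs with hc
      · simp [hz]
      · simp [hz]
  unfold star_c
  rw [hdis, Finset.card_union_of_disjoint]
  · congr 1
    split_ifs <;> simp
  · split_ifs with hc
    · rw [Finset.disjoint_singleton_right]
      simp
    · exact Finset.disjoint_empty_right _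

/-- the sum over the quartics with a fixed first coefficient `α²`, `α` a unit, and fixed second coefficient -/
theorem star_one (h : StarH φ) (Φ : Cub R → ℝ) (hΦ : ∀ f r, Φ (Cub.tr r f) = Φ f) {α : R} (hα : IsUnit α) (B : R) :
    ∑ C, ∑ D, ∑ E, Φ (Q4.res ⟨α ^ 2, B, C, D, E⟩) =
      ∑ x : R × R × R, Φ ((⟨x.1, x.2.1, x.2.2 ^ 2⟩ : Cub R).sc 4) := by
  obtain ⟨w, rfl⟩ := hα
  obtain ⟨tw, htw⟩ := h.two
  set α : R := (w : R) with hα
  set β : R := (↑w⁻¹ : R) with hβ
  set hf : R := (↑tw⁻¹ : R) with hhf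
  have e1 : α * β = 1 := Units.mul_inv w
  have e2 : (2 : R) * hf = 1 := by rw [← htw]; exact Units.mul_inv tw
  have u2 : IsUnit (2 : R) := h.two
  -- the translation
  set t : R := B * hf ^ 2 * β ^ 2 with ht
  have e3 : 4 * α ^ 2 * t = B := by
    rw [ht]
    linear_combination (B * (α * β) ^ 2 * (2 * hf + 1)) * e2 + (B * (α * β + 1)) * e1
  have s1 : ∑ C, ∑ D, ∑ E, Φ (Q4.res ⟨α ^ 2, B, C, D, E⟩) = ∑ C, ∑ D, ∑ E, Φ (Q4.res ⟨α ^ 2, 0, C, D, E⟩) := by
    rw [← star_add (6 * α ^ 2 * t ^ 2) (fun C => ∑ D, ∑ E, Φ (Q4.res ⟨α ^ 2, B, C, D, E⟩))]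
    apply Finset.sum_congr rfl
    intro C _
    rw [← star_add (4 * α ^ 2 * t ^ 3 + 2 * C * t)
      (fun D => ∑ E, Φ (Q4.res ⟨α ^ 2, B, C + 6 * α ^ 2 * t ^ 2, D, E⟩))]
    apply Finset.sum_congr rfl
    intro D _
    rw [← star_add (α ^ 2 * t ^ 4 + C * t ^ 2 + D * t)
      (fun E => Φ (Q4.res ⟨α ^ 2, B, C + 6 * α ^ 2 * t ^ 2, D + (4 * α ^ 2 * t ^ 3 + 2 * C * t), E⟩))]
    apply Finset.sum_congr rfl
    intro E _
    have : (⟨α ^ 2, B, C + 6 * α ^ 2 * t ^ 2, D + (4 * α ^ 2 * t ^ 3 + 2 * C * t),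
        E + (α ^ 2 * t ^ 4 + C * t ^ 2 + D * t)⟩ : Q4 R) = Q4.sub ⟨α ^ 2, 0, C, D, E⟩ ⟨1, t, 0, 1⟩ := by
      ext
      · simp only [Q4.sub]; ring
      · simp only [Q4.sub]; linear_combination -e3
      · simp only [Q4.sub]; ring
      · simp only [Q4.sub]; ring
      · simp only [Q4.sub]; ring
    rw [this, Q4.res_sub, hΦ]
    have hd : (M2.det (⟨1, t, 0, 1⟩ : M2 R)) ^ 2 = 1 := by simp only [M2.det]; ring
    rw [hd, Cub.sc_one]
  have s2 : ∀ C D E : R, Φ (Q4.res ⟨α ^ 2, 0, C, D, E⟩) = Φ ⟨-2 * C, C ^ 2 - 4 * α ^ 2 * E, (α * D) ^ 2⟩ := by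
    intro C D E
    rw [← hΦ (Q4.res ⟨α ^ 2, 0, C, D, E⟩) (-C)]
    congr 1
    ext <;> simp only [Q4.res, Cub.tr] <;> ring
  rw [s1, Fintype.sum_prod_type]
  simp only [s2]
  -- the substitution for `C`
  rw [← star_mul (v := (-2 : R)) u2.neg (fun C => ∑ D, ∑ E, Φ ⟨-2 * C, C ^ 2 - 4 * α ^ 2 * E, (α * D) ^ 2⟩)]
  apply Finset.sum_congr rfl
  intro a _
  rw [Fintype.sum_prod_type, Finset.sum_comm]
  simp only [Cub.sc]
  -- the substitution for `E`
  have u3 : IsUnit (-4 * β ^ 2 : R) := by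
    have : (-4 * β ^ 2 : R) = -(2 * 2 * (β * β)) := by ring
    rw [this]
    exact ((u2.mul u2).mul ((Units.isUnit w⁻¹).mul (Units.isUnit w⁻¹))).neg
  rw [← star_add (a ^ 2 * β ^ 2)
    (fun E => ∑ D, Φ ⟨-2 * (-2 * a), (-2 * a) ^ 2 - 4 * α ^ 2 * E, (α * D) ^ 2⟩)]
  rw [← star_mul u3
    (fun E => ∑ D, Φ ⟨-2 * (-2 * a), (-2 * a) ^ 2 - 4 * α ^ 2 * (E + a ^ 2 * β ^ 2), (α * D) ^ 2⟩)]
  apply Finset.sum_congr rfl
  intro b _
  have u4 : IsUnit (8 * β : R) := by
    have : (8 * β : R) = 2 * 2 * 2 * β := by ring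
    rw [this]
    exact ((u2.mul u2).mul u2).mul (Units.isUnit w⁻¹)
  rw [← star_mul u4 (fun D => Φ ⟨-2 * (-2 * a), (-2 * a) ^ 2 - 4 * α ^ 2 * (-4 * β ^ 2 * b + a ^ 2 * β ^ 2),
    (α * D) ^ 2⟩)]
  apply Finset.sum_congr rfl
  intro y _
  congr 1
  ext
  · simp only []
    ring
  · simp only []
    linear_combination (16 * b - 4 * a ^ 2) * (α * β + 1) * e1
  · simp only []
    linear_combination (64 * y ^ 2) * (α * β + 1) * e1

/-- the sum over the quartics with a fixed first coefficient in the maximal ideal and a second coefficient which is a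
unit -/
theorem star_zero (h : StarH φ) (Φ : Cub R → ℝ) {A B : R} (hA : φ A = 0) (hB : φ B ≠ 0) :
    ∑ C, ∑ D, ∑ E, Φ (Q4.res ⟨A, B, C, D, E⟩) = ∑ f : Cub R, Φ (f.sc 4) := by
  have hBu := h.unit hB
  have hinj : Function.Injective (fun f : Cub R => Q4.res ⟨A, B, f.a, f.b, f.c⟩) := by
    rintro ⟨C, D, E⟩ ⟨C', D', E'⟩ e
    simp only [Q4.res, Cub.mk.injEq] at e
    obtain ⟨e1, e2, e3⟩ := e
    subst e1
    have h1 : (E - E') * (B ^ 3 + A * (4 * A * (D + D') - 4 * B * C)) = 0 := by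
      linear_combination B * e3 - A * (D + D') * e2
    have h2 : IsUnit (B ^ 3 + A * (4 * A * (D + D') - 4 * B * C)) := by
      apply h.unit
      rw [map_add, map_mul, hA, zero_mul, add_zero]
      exact h.ne (hBu.pow 3)
    have h3 : E = E' := sub_eq_zero.1 (h2.mul_left_eq_zero.1 h1)
    subst h3
    have h4 : B * (D - D') = 0 := by linear_combination e2
    have h5 : D = D' := sub_eq_zero.1 (hBu.mul_right_eq_zero.1 h4)
    subst h5
    rfl
  have hbij := Finite.injective_iff_bijective.1 hinj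
  have h4 : IsUnit (4 : R) := by
    have : (4 : R) = 2 * 2 := by norm_num
    rw [this]
    exact h.two.mul h.two
  have hinj' : Function.Injective (fun f : Cub R => f.sc 4) := by
    rintro ⟨a, b, c⟩ ⟨a', b', c'⟩ e
    simp only [Cub.sc, Cub.mk.injEq] at e
    obtain ⟨e1, e2, e3⟩ := e
    ext
    · exact h4.mul_left_cancel e1
    · exact (h4.pow 2).mul_left_cancel e2
    · exact (h4.pow 3).mul_left_cancel e3
  have hbij' := Finite.injective_iff_bijective.1 hinj'
  have s1 : ∑ C, ∑ D, ∑ E, Φ (Q4.res ⟨A, B, C, D, E⟩) = ∑ f : Cub R, Φ (Q4.res ⟨A, B, f.a, f.b, f.c⟩) := by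
    rw [sum_Cub]
  rw [s1, hbij.sum_comp (fun f => Φ f), hbij'.sum_comp (fun f => Φ f)]

open Classical in
theorem star_main (h : StarH φ) (Φ : Cub R → ℝ) (hΦ : ∀ f r, Φ (Cub.tr r f) = Φ f) :
    ∑ g : Q4 R, ((g.map φ).sp : ℝ) * Φ g.res =
      ((Fintype.card κ : ℝ) + 1) *
        (((Fintype.card κ : ℝ) - 1) * ((univ : Finset R).filter (fun r => φ r = 0)).card * Fintype.card R *
          ∑ x : R × R × R, Φ ((⟨x.1, x.2.1, x.2.2 ^ 2⟩ : Cub R).sc 4) +
        ((univ : Finset R).filter (fun r => φ r = 0)).card * (((Fintype.card κ : ℝ) - 1) *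
          ((univ : Finset R).filter (fun r => φ r = 0)).card) * ∑ f : Cub R, Φ (f.sc 4)) := by
  -- Step 1
  have s1 : ∑ g : Q4 R, ((g.map φ).sp : ℝ) * Φ g.res =
      ((Fintype.card κ : ℝ) + 1) * ∑ g : Q4 R, (star_c (φ g.A) (φ g.B) : ℝ) * Φ g.res := by
    have e1 : ∀ g : Q4 R, ((g.map φ).sp : ℝ) * Φ g.res =
        ∑ u : κ, (star_c ((g.map φ).ev u 1)
          (4 * (g.map φ).A * u ^ 3 + 3 * (g.map φ).B * u ^ 2 + 2 * (g.map φ).C * u + (g.map φ).D) : ℝ) * Φ g.res +
        (star_c (φ g.A) (φ g.B) : ℝ) * Φ g.res := by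
      intro g
      rw [star_sp, Nat.cast_add, add_mul, Nat.cast_sum, Finset.sum_mul]
      rfl
    rw [Finset.sum_congr rfl (fun g _ => e1 g), Finset.sum_add_distrib, Finset.sum_comm,
      Finset.sum_congr rfl (fun u _ => star_sub h Φ hΦ u), Finset.sum_const, Finset.card_univ, nsmul_eq_mul]
    ring
  rw [s1]
  congr 1
  -- Step 2
  have s2 : ∑ g : Q4 R, (star_c (φ g.A) (φ g.B) : ℝ) * Φ g.res =
      (∑ A : R, (((univ : Finset κ).filter (fun z => z ^ 2 = φ A ∧ z ≠ 0)).card : ℝ) *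
        ∑ B, ∑ C, ∑ D, ∑ E, Φ (Q4.res ⟨A, B, C, D, E⟩)) +
      ∑ A ∈ (univ : Finset R).filter (fun r => φ r = 0), ∑ B ∈ (univ : Finset R).filter (fun r => φ r ≠ 0),
        ∑ C, ∑ D, ∑ E, Φ (Q4.res ⟨A, B, C, D, E⟩) := by
    rw [sum_Q4, Finset.sum_filter, ← Finset.sum_add_distrib]
    apply Finset.sum_congr rfl
    intro A _
    have e1 : (if φ A = 0 then ∑ B ∈ (univ : Finset R).filter (fun r => φ r ≠ 0),
        ∑ C, ∑ D, ∑ E, Φ (Q4.res ⟨A, B, C, D, E⟩) else 0) =
        ∑ B, (if φ A = 0 ∧ φ B ≠ 0 then (1 : ℝ) else 0) * ∑ C, ∑ D, ∑ E, Φ (Q4.res ⟨A, B, C, D, E⟩) := by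
      by_cases hA : φ A = 0
      · rw [if_pos hA, Finset.sum_filter]
        apply Finset.sum_congr rfl
        intro B _
        by_cases hB : φ B = 0
        · simp [hA, hB]
        · simp [hA, hB]
      · simp [hA]
    rw [e1, Finset.mul_sum, ← Finset.sum_add_distrib]
    apply Finset.sum_congr rfl
    intro B _
    rw [← add_mul, Finset.mul_sum]
    apply Finset.sum_congr rfl
    intro C _
    rw [Finset.mul_sum]
    apply Finset.sum_congr rfl
    intro D _
    rw [Finset.mul_sum]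
    apply Finset.sum_congr rfl
    intro E _
    rw [star_c_eq _ _ h.fld]
    push_cast
    rfl
  rw [s2, star_sq h]
  congr 1
  · have e1 : ∀ α ∈ (univ : Finset R).filter (fun r => φ r ≠ 0),
        ∑ B, ∑ C, ∑ D, ∑ E, Φ (Q4.res ⟨α ^ 2, B, C, D, E⟩) =
          Fintype.card R * ∑ x : R × R × R, Φ ((⟨x.1, x.2.1, x.2.2 ^ 2⟩ : Cub R).sc 4) := by
      intro α hα
      simp only [mem_filter, mem_univ, true_and] at hα
      rw [Finset.sum_congr rfl (fun B _ => star_one h Φ hΦ (h.unit hα) B), Finset.sum_const, Finset.card_univ,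
        nsmul_eq_mul]
    rw [Finset.sum_congr rfl e1, Finset.sum_const, nsmul_eq_mul, star_units h]
    ring
  · have e1 : ∀ A ∈ (univ : Finset R).filter (fun r => φ r = 0), ∑ B ∈ (univ : Finset R).filter (fun r => φ r ≠ 0),
        ∑ C, ∑ D, ∑ E, Φ (Q4.res ⟨A, B, C, D, E⟩) =
          (((Fintype.card κ : ℝ) - 1) * ((univ : Finset R).filter (fun r => φ r = 0)).card) *
            ∑ f : Cub R, Φ (f.sc 4) := by
      intro A hA
      simp only [mem_filter, mem_univ, true_and] at hA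
      have e2 : ∀ B ∈ (univ : Finset R).filter (fun r => φ r ≠ 0),
          ∑ C, ∑ D, ∑ E, Φ (Q4.res ⟨A, B, C, D, E⟩) = ∑ f : Cub R, Φ (f.sc 4) := by
        intro B hB
        simp only [mem_filter, mem_univ, true_and] at hB
        exact star_zero h Φ hA hB
      rw [Finset.sum_congr rfl e2, Finset.sum_const, nsmul_eq_mul, star_units h]
    rw [Finset.sum_congr rfl e1, Finset.sum_const, nsmul_eq_mul]
    ring

end star_abs

theorem star_cardRq {F : Type} [Field F] [Fintype F] (P : Pl F) (M : ℕ) :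
    Fintype.card (Rq (P.1 ^ M)) = (Fintype.card F ^ P.1.natDegree) ^ M := by
  have hm := P.2.1.pow M
  have h1 : Module.Finite F (AdjoinRoot (P.1 ^ M)) := (AdjoinRoot.powerBasis' hm).finite
  have h2 : Module.finrank F (AdjoinRoot (P.1 ^ M)) = (P.1 ^ M).natDegree := by
    rw [(AdjoinRoot.powerBasis' hm).finrank, AdjoinRoot.powerBasis'_dim]
  have h3 : Nat.card (AdjoinRoot (P.1 ^ M)) = Nat.card F ^ Module.finrank F (AdjoinRoot (P.1 ^ M)) :=
    Module.natCard_eq_pow_finrank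
  have h4 : Nat.card (AdjoinRoot (P.1 ^ M)) = Nat.card (Rq (P.1 ^ M)) := rfl
  rw [← Nat.card_eq_fintype_card, ← h4, h3, h2, Nat.card_eq_fintype_card, P.2.1.natDegree_pow, ← pow_mul, mul_comm]

theorem star_hyp {F : Type} [Field F] [Fintype F] (h2 : (2 : F) ≠ 0) (P : Pl F) (M : ℕ) (hM : 1 ≤ M) :
    StarH (redP P.1 hM) := by
  refine ⟨Ideal.Quotient.factor_surjective _, ?_, ?_, ?_, ?_⟩
  · intro r hr
    obtain ⟨x, rfl⟩ := Ideal.Quotient.mk_surjective r
    have h1 : (Ideal.Quotient.mk (Ideal.span {P.1 ^ 1}) x : Rq (P.1 ^ 1)) = 0 := hr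
    rw [mk_zero, pow_one] at h1
    refine ⟨M, ?_⟩
    rw [← map_pow, mk_zero]
    exact pow_dvd_pow_of_dvd h1 M
  · intro x hx
    have hmax : (Ideal.span {P.1 ^ 1} : Ideal F[X]).IsMaximal := by
      rw [pow_one]
      exact PrincipalIdealRing.isMaximal_of_irreducible P.2.2
    obtain ⟨y, hy⟩ := (Ideal.Quotient.maximal_ideal_iff_isField_quotient _).1 hmax |>.mul_inv_cancel hx
    exact IsUnit.of_mul_eq_one _ hy
  · have hmax : (Ideal.span {P.1 ^ 1} : Ideal F[X]).IsMaximal := by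
      rw [pow_one]
      exact PrincipalIdealRing.isMaximal_of_irreducible P.2.2
    exact Ideal.Quotient.nontrivial_iff.2 hmax.ne_top
  · have h3 : IsUnit (2 : F[X]) := by
      have : (2 : F[X]) = C (2 : F) := (map_ofNat C 2).symm
      rw [this]
      exact (IsUnit.mk0 _ h2).map C
    have := h3.map (Ideal.Quotient.mk (Ideal.span {P.1 ^ M}))
    rwa [map_ofNat] at this

theorem t_star : S_star := by
  classical
  intro F _ _ h2 P M hM Φ hΦ
  have h := star_hyp h2 P M hM
  have hmain := star_main h Φ hΦ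
  have c1 : (Fintype.card (Rq (P.1 ^ 1)) : ℝ) = (Fintype.card F : ℝ) ^ P.1.natDegree := by
    rw [star_cardRq]
    push_cast
    ring
  have c2 : (Fintype.card (Rq (P.1 ^ M)) : ℝ) = ((Fintype.card F : ℝ) ^ P.1.natDegree) ^ M := by
    rw [star_cardRq]
    push_cast
    ring
  have hq : (0 : ℝ) < (Fintype.card F : ℝ) ^ P.1.natDegree := by
    have : 0 < Fintype.card F := Fintype.card_pos
    positivity
  have c3 := star_card h
  have c3' : (Fintype.card (Rq (P.1 ^ M)) : ℝ) = (Fintype.card (Rq (P.1 ^ 1)) : ℝ) *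
      ((univ : Finset (Rq (P.1 ^ M))).filter (fun r => redP P.1 hM r = 0)).card := by
    exact_mod_cast c3
  rw [c1, c2] at c3'
  rw [c1, c2] at hmain
  rw [hmain]
  set q : ℝ := (Fintype.card F : ℝ) ^ P.1.natDegree with hqd
  set m : ℝ := (((univ : Finset (Rq (P.1 ^ M))).filter (fun r => redP P.1 hM r = 0)).card : ℝ) with hm
  rw [c3']
  have hq' : q ≠ 0 := hq.ne'
  field_simp
  ring

end Pool.Agent.H456.BQ
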