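import Pool.Agent.H456.BQ.Stm3

/-!
(J4) `S_tup` from `S_latA` (take it as a hypothesis). `S_latA` gives `N, G₀` with `LEq (LocP P) N (Λ P)`. `gi` has entries in
`Oi F`: `(gi.A - sig Hi.A) * tt 1 ∈ Oi F`, so `gi.A - sig Hi.A ∈ Oi F` (multiply by `tt (-1) ∈ Oi F`), and `sig Hi.A ∈ Oi F`
(`sig_mem`). So there is `Gi : Q4 (Oi F)` with `Gi.map (Oi F).subtype = gi`. Apply `glue` (Oi.lean) to `g = gp ..`, `N`, `Ni`, `G₀`,
`Gi`, `n`: `U, Y, l₁ ≤ l₂, D` with `Ni.mul (Y.map toK) = (N.mul (U.map toK)).scal D`. Take `e = l₂ - l₁`, `M = N.mul (U.map toK)`,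
`G = G₀.sub U` (`det U = 1`); see the end of the proof of `exists_model` in Mod.lean. `LEq (LocP P) M (Λ P)`: `U ∈ GL₂(F[X])`
(polynomials lie in `LocP P`), `LEq.symm`, `LEq.trans` (Stm3.lean). At infinity: `factor` (Oi.lean) gives
`Y.map toK = V.mul ⟨tt l₁, 0, 0, tt l₂⟩` with `V ∈ GL₂(Oi F)`, so
`M.mul ⟨1, 0, 0, tt (-e)⟩ = (M.mul ⟨tt (-l₁), 0, 0, tt (-l₂)⟩).scal (tt l₁) = (Ni.mul V).scal (D⁻¹ tt l₁)`.
-/

set_option autoImplicit false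
set_option linter.all false

open Polynomial Finset
open Pool.Agent.H456.EC (toK toK_inj sig toK_eq reflect_toK)

namespace Pool.Agent.H456.BQ

variable {F : Type} [Field F]

theorem tup_tt_mem : tt F (-1) ∈ Oi F := by
  rw [mem_Oi]
  right
  rw [intDegree_tt]
  norm_num

theorem tup_mem {x : RatFunc F} {h : F[X]} (hx : (x - sig F h) * tt F 1 ∈ Oi F) : x ∈ Oi F := by
  have h1 := (Oi F).mul_mem hx tup_tt_mem
  have h2 : (x - sig F h) * tt F 1 * tt F (-1) = x - sig F h := by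
    have h3 := tt_neg (F := F) 1
    rw [mul_assoc, mul_comm (tt F 1), h3, mul_one]
  rw [h2] at h1
  have h3 := (Oi F).add_mem h1 (sig_mem h)
  rwa [sub_add_cancel] at h3

theorem tup_poly_mem (P : Pl F) (a : F[X]) : toK F a ∈ LocP P :=
  mem_LocP.2 ⟨a, 1, fun h => P.2.2.not_isUnit (isUnit_of_dvd_one h), by rw [map_one, one_mul]⟩

/-- a substitution over `F[X]` of determinant one does not change the local lattices -/
theorem tup_loc (P : Pl F) (N : M2 (RatFunc F)) {U : M2 F[X]} (hU : U.det = 1) :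
    LEq (LocP P) N (N.mul (U.map (toK F))) := by
  refine ⟨1, ⟨⟨_, tup_poly_mem P U.α⟩, ⟨_, tup_poly_mem P U.β⟩, ⟨_, tup_poly_mem P U.γ⟩,
    ⟨_, tup_poly_mem P U.δ⟩⟩, one_ne_zero, ?_, ?_⟩
  · have h : (⟨⟨_, tup_poly_mem P U.α⟩, ⟨_, tup_poly_mem P U.β⟩, ⟨_, tup_poly_mem P U.γ⟩,
        ⟨_, tup_poly_mem P U.δ⟩⟩ : M2 (LocP P)).det = 1 := by
      apply Subtype.ext
      have h1 := congrArg (toK F) hU
      rw [M2.det, map_sub, map_mul, map_mul, map_one] at h1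
      exact h1
    rw [h]
    exact isUnit_one
  · have h : (⟨⟨_, tup_poly_mem P U.α⟩, ⟨_, tup_poly_mem P U.β⟩, ⟨_, tup_poly_mem P U.γ⟩,
        ⟨_, tup_poly_mem P U.δ⟩⟩ : M2 (LocP P)).map (algebraMap (LocP P) (RatFunc F)) = U.map (toK F) := rfl
    rw [h]
    ext <;> simp only [M2.scal, one_mul, mul_one]

theorem t_tup : S_latA → S_tup := by
  intro hA F _ n f x₀ y₀ hxy S Λ g H hloc Ni gi Hi hNi hsub hRed
  obtain ⟨N, G₀, hN, h₀, hNP⟩ := hA F f x₀ y₀ hxy S Λ g H hloc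
  obtain ⟨Gi, hGi⟩ : ∃ Gi : Q4 (Oi F), Gi.map (Oi F).subtype = gi :=
    ⟨⟨⟨_, tup_mem hRed.1⟩, ⟨_, tup_mem hRed.2.1⟩, ⟨_, tup_mem hRed.2.2.1⟩, ⟨_, tup_mem hRed.2.2.2.1⟩,
      ⟨_, tup_mem hRed.2.2.2.2⟩⟩, rfl⟩
  rw [← hGi] at hsub
  obtain ⟨U, Y, l₁, l₂, D, hl, hU, hD, hNY, hα, hγ, hβ, hδ, hdeg, hYd, hB⟩ := glue hN hNi h₀ hsub
  obtain ⟨M, hM⟩ : ∃ M : M2 (RatFunc F), M = N.mul (U.map (toK F)) := ⟨_, rfl⟩
  refine ⟨l₂ - l₁, M, G₀.sub U, ?_, ?_, hB, ?_, ?_⟩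
  · rw [hM, M2.det_mul, M2.map_det, hU, map_one, mul_one]
    exact hN
  · rw [hM, ← Q4.sub_mul, h₀, Q4.smul_sub, Q4.map_sub, M2.det_mul, M2.map_det, hU, map_one, mul_one]
  · intro P hP
    rw [hM]
    exact ((tup_loc P N hU).symm).trans (hNP P hP)
  · obtain ⟨V, ε, hV, hVε⟩ := factor hα hγ hβ hδ hYd hdeg
    rw [← hM] at hNY
    rw [hV, ← M2.mul_assoc] at hNY
    have eα := congrArg M2.α hNY
    have eβ := congrArg M2.β hNY
    have eγ := congrArg M2.γ hNY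
    have eδ := congrArg M2.δ hNY
    simp only [M2.mul, M2.scal, mul_zero, add_zero, zero_add] at eα eβ eγ eδ
    have hcast : (-((l₂ - l₁ : ℕ) : ℤ)) = l₁ + -(l₂ : ℤ) := by omega
    have htt : tt F (-((l₂ - l₁ : ℕ) : ℤ)) = tt F l₁ * tt F (-(l₂ : ℤ)) := by
      rw [hcast, tt_add]
    have h2 := tt_neg (F := F) (l₂ : ℤ)
    have hDD := inv_mul_cancel₀ hD
    refine LEq.symm ⟨D⁻¹ * tt F l₁, V, mul_ne_zero (inv_ne_zero hD) (tt_ne _),
      IsUnit.of_mul_eq_one _ hVε, ?_⟩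
    have hVmap : V.map (algebraMap (Oi F) (RatFunc F)) = V.map (Oi F).subtype := rfl
    rw [hVmap, htt]
    ext
    · simp only [M2.mul, M2.scal, mul_zero, add_zero, mul_one]
      linear_combination D⁻¹ * (-1 : RatFunc F) * eα - M.α * hDD
    · simp only [M2.mul, M2.scal, mul_zero, zero_add, mul_one]
      linear_combination (-D⁻¹ * tt F l₁ * tt F (-(l₂ : ℤ))) * eβ - (M.β * tt F l₁ * tt F (-(l₂ : ℤ))) * hDD +
        (D⁻¹ * tt F l₁ * (Ni.α * (V.map (Oi F).subtype).β + Ni.β * (V.map (Oi F).subtype).δ)) * h2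
    · simp only [M2.mul, M2.scal, mul_zero, add_zero, mul_one]
      linear_combination D⁻¹ * (-1 : RatFunc F) * eγ - M.γ * hDD
    · simp only [M2.mul, M2.scal, mul_zero, zero_add, mul_one]
      linear_combination (-D⁻¹ * tt F l₁ * tt F (-(l₂ : ℤ))) * eδ - (M.δ * tt F l₁ * tt F (-(l₂ : ℤ))) * hDD +
        (D⁻¹ * tt F l₁ * (Ni.γ * (V.map (Oi F).subtype).β + Ni.δ * (V.map (Oi F).subtype).δ)) * h2

end Pool.Agent.H456.BQ
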