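import Pool.Agent.H456.BQ.Fin
import Pool.Agent.H456.BQ.T_euler
import Pool.Agent.H456.BQ.T_comp
import Pool.Agent.H456.BQ.T_star
import Pool.Agent.H456.BQ.T_pts
import Pool.Agent.H456.BQ.T_sep
import Pool.Agent.H456.BQ.T_can
import Pool.Agent.H456.BQ.T_loc
import Pool.Agent.H456.BQ.T_spinv
import Pool.Agent.H456.BQ.T_hnf
import Pool.Agent.H456.BQ.T_adj
import Pool.Agent.H456.BQ.T_locK
import Pool.Agent.H456.BQ.T_locI
import Pool.Agent.H456.BQ.T_disc4
import Pool.Agent.H456.BQ.T_latA
import Pool.Agent.H456.BQ.T_spP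
import Pool.Agent.H456.BQ.T_spI
import Pool.Agent.H456.BQ.T_tup
import Pool.Agent.H456.BQ.T_dis
import Pool.Agent.H456.BQ.T_phi

/-!
# All the local statements are proved
-/

set_option autoImplicit false

namespace Pool.Agent.H456.BQ

theorem locK_all : S_locK := t_locK t_comp (t_loc t_pts t_sep t_can) t_hnf t_spinv

/-- all the local statements -/
theorem hyp_all : Hyp where
  locK := locK_all
  locI := t_locI locK_all
  spP := t_spP t_spinv
  spI := t_spI t_spinv
  tup := t_tup (t_latA t_adj)
  dis := t_dis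
  phi := t_phi t_star
  disc4 := t_disc4
  euler := t_euler

end Pool.Agent.H456.BQ
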