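import Pool.Agent.H456.BQ.Bad

/-!
# The exceptional cubics are negligible, II
-/

set_option autoImplicit false
set_option linter.all false

open Polynomial Finset Filter
open Pool.Agent.H456.RN
open Pool.Agent.H456.EC (toK toK_inj)

namespace Pool.Agent.H456.BQ

variable {F : Type} [Field F] [Fintype F]

open Classical in
theorem card_spec (h2 : (2 : F) ≠ 0) (T : Finset F[X]) (A B D E : F[X]) :
    (T.filter (fun c => (⟨A, B, c, D, E⟩ : Q4 F[X]).res.c4 = 0 ∨ (⟨A, B, c, D, E⟩ : Q4 F[X]).res.c6 = 0)).card ≤ 5 := by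
  set p₁ : F[X][X] := X ^ 2 + C (-(3 * (B * D - 4 * A * E))) with hp₁
  set p₂ : F[X][X] := C (-2) * X ^ 3 + C (9 * (B * D - 4 * A * E) + 108 * A * E) * X + C (-(27 * (A * D ^ 2 + B ^ 2 * E)))
    with hp₂
  have h1 : p₁ ≠ 0 := by
    have : p₁.Monic := by
      rw [hp₁]
      apply monic_X_pow_add
      compute_degree!
    exact this.ne_zero
  have d1 : p₁.natDegree ≤ 2 := by
    rw [hp₁]; compute_degree!
  have h3 : p₂ ≠ 0 := by
    intro h0
    have h4 := congrArg (fun p => p.coeff 3) h0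
    simp only [hp₂, coeff_add, coeff_C_mul, coeff_X_pow, coeff_X, coeff_C, coeff_zero] at h4
    norm_num at h4
    have h5 : (C (2 : F) : F[X]) = 0 := by rw [C_ofNat]; exact h4
    exact h2 (C_eq_zero.1 h5)
  have d2 : p₂.natDegree ≤ 3 := by
    rw [hp₂]; compute_degree!
  have hsub : T.filter (fun c => (⟨A, B, c, D, E⟩ : Q4 F[X]).res.c4 = 0 ∨ (⟨A, B, c, D, E⟩ : Q4 F[X]).res.c6 = 0) ⊆
      p₁.roots.toFinset ∪ p₂.roots.toFinset := by
    intro c hc
    rw [mem_filter] at hc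
    rw [mem_union, Multiset.mem_toFinset, Multiset.mem_toFinset, mem_roots h1, mem_roots h3]
    rcases hc.2 with h | h
    · left
      rw [IsRoot.def, hp₁]
      simp only [eval_add, eval_pow, eval_X, eval_C]
      simp only [Q4.res, Cub.c4] at h
      linear_combination h
    · right
      rw [IsRoot.def, hp₂]
      simp only [eval_add, eval_mul, eval_pow, eval_X, eval_C]
      simp only [Q4.res, Cub.c6] at h
      linear_combination h
  calc _ ≤ (p₁.roots.toFinset ∪ p₂.roots.toFinset).card := card_le_card hsub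
    _ ≤ p₁.roots.toFinset.card + p₂.roots.toFinset.card := card_union_le _ _
    _ ≤ Multiset.card p₁.roots + Multiset.card p₂.roots :=
        add_le_add (Multiset.toFinset_card_le _) (Multiset.toFinset_card_le _)
    _ ≤ p₁.natDegree + p₂.natDegree := add_le_add (card_roots' _) (card_roots' _)
    _ ≤ 5 := by omega

open Classical in
theorem AV_spec (h2 : (2 : F) ≠ 0) {n e : ℕ} (he : e ≤ n) :
    AV n e (fun G : Q4 F[X] => if (G.res.c4 = 0 ∨ G.res.c6 = 0) then (1 : ℝ) else 0) ≤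
      5 / (Fintype.card F : ℝ) ^ (2 * n + 1) := by
  have hq2 : 2 ≤ (Fintype.card F : ℝ) := q_ge
  have hq0 : (0 : ℝ) < Fintype.card F := by linarith
  unfold AV
  rw [div_le_div_iff₀ (by positivity) (by positivity), sum_Vb]
  have h1 : ∑ A ∈ PL F (2 * n - 2 * e + 1), ∑ B ∈ PL F (2 * n - e + 1), ∑ c ∈ PL F (2 * n + 1),
      ∑ D ∈ PL F (2 * n + e + 1), ∑ E ∈ PL F (2 * n + 2 * e + 1),
      (if ((⟨A, B, c, D, E⟩ : Q4 F[X]).res.c4 = 0 ∨ (⟨A, B, c, D, E⟩ : Q4 F[X]).res.c6 = 0) then (1 : ℝ) else 0) ≤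
      ∑ A ∈ PL F (2 * n - 2 * e + 1), ∑ B ∈ PL F (2 * n - e + 1), ∑ D ∈ PL F (2 * n + e + 1),
        ∑ E ∈ PL F (2 * n + 2 * e + 1), (5 : ℝ) := by
    apply sum_le_sum
    intro A _
    apply sum_le_sum
    intro B _
    rw [sum_comm]
    apply sum_le_sum
    intro D _
    rw [sum_comm]
    apply sum_le_sum
    intro E _
    rw [← sum_filter, sum_const, nsmul_eq_mul, mul_one]
    exact_mod_cast card_spec h2 _ A B D E
  refine (mul_le_mul_of_nonneg_right h1 (by positivity)).trans (le_of_eq ?_)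
  simp only [sum_const, card_PL, nsmul_eq_mul]
  push_cast
  have h3 : (Fintype.card F : ℝ) ^ (10 * n + 5) = (Fintype.card F : ℝ) ^ (2 * n - 2 * e + 1) *
      ((Fintype.card F : ℝ) ^ (2 * n - e + 1) * ((Fintype.card F : ℝ) ^ (2 * n + e + 1) *
      ((Fintype.card F : ℝ) ^ (2 * n + 2 * e + 1) * (Fintype.card F : ℝ) ^ (2 * n + 1)))) := by
    rw [← pow_add, ← pow_add, ← pow_add, ← pow_add]
    congr 1
    omega
  rw [h3]
  ring

open Classical in
theorem AV_bad (h2 : (2 : F) ≠ 0) (e : ℕ) :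
    Tendsto (fun n => AV n e (fun G : Q4 F[X] => if BadC G.res then (1 : ℝ) else 0)) atTop (nhds 0) := by
  have hq2 : 2 ≤ (Fintype.card F : ℝ) := q_ge
  have hq0 : (0 : ℝ) < Fintype.card F := by linarith
  have hle : ∀ (S : Finset (Pl F)) (n : ℕ), e ≤ n → dS S 1 ≤ 2 * n - 2 * e + 1 →
      AV n e (fun G : Q4 F[X] => if BadC G.res then (1 : ℝ) else 0) ≤
        5 / (Fintype.card F : ℝ) ^ (2 * n + 1) + (25 / 27 : ℝ) ^ S.card := by
    intro S n he hN
    refine le_trans ?_ (add_le_add (AV_spec h2 he) (AV_root h2 S he hN))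
    unfold AV
    rw [← add_div, ← sum_add_distrib]
    apply div_le_div_of_nonneg_right _ (by positivity)
    apply sum_le_sum
    intro G _
    unfold BadC
    by_cases h1 : (G.res.c4 = 0 ∨ G.res.c6 = 0) <;> by_cases h3 : ∃ r : RatFunc F, (G.res.map (toK F)).ev r = 0 <;>
      simp [h1, h3]
  rw [Metric.tendsto_atTop]
  intro ε hε
  obtain ⟨k, hk⟩ := exists_pow_lt_of_lt_one (half_pos hε) (by norm_num : (25 / 27 : ℝ) < 1)
  have := infinite_Pl (F := F)
  obtain ⟨S, hS⟩ := Infinite.exists_subset_card_eq (Pl F) k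
  have h5 : Tendsto (fun n : ℕ => 5 / (Fintype.card F : ℝ) ^ (2 * n + 1)) atTop (nhds 0) := by
    apply Tendsto.const_div_atTop
    apply (tendsto_pow_atTop_atTop_of_one_lt (by linarith : (1 : ℝ) < Fintype.card F)).comp
    exact tendsto_atTop_mono (fun n => by omega : ∀ n : ℕ, n ≤ 2 * n + 1) tendsto_id
  rw [Metric.tendsto_atTop] at h5
  obtain ⟨N, hN⟩ := h5 (ε / 2) (half_pos hε)
  refine ⟨max N (e + dS S 1), fun n hn => ?_⟩
  have h6 := hN n ((le_max_left _ _).trans hn)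
  have h7 : e + dS S 1 ≤ n := (le_max_right _ _).trans hn
  have h8 := hle S n (by omega) (by omega)
  rw [hS] at h8
  rw [Real.dist_eq, sub_zero, abs_of_nonneg (by positivity)] at h6
  rw [Real.dist_eq, sub_zero, abs_of_nonneg (AV_nonneg (fun G => by split_ifs <;> norm_num))]
  linarith

/-- a representative of every nonzero class, with its weight -/
theorem weight_ge (h2 : (2 : F) ≠ 0) {n : ℕ} {f : Cub F[X]} (hd : CDg n f) (hf : f.disc ≠ 0) (σ : Q2 f) (hσ : σ ≠ 0) :
    1 ≤ ∑ e ∈ range (n + 1), ∑ p ∈ Pn h2 n e hf σ, (Fintype.card F : ℝ) ^ 3 / pa F e := by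
  obtain ⟨e, he, p, hp, h1, h3, hA⟩ := exists_Cl h2 hf hd hσ
  have hmem : p ∈ Pn h2 n e hf σ := (mem_Pn h2 hf).2 ⟨⟨h1, h3⟩, hp⟩
  have h4 := le_card_Pn' h2 he hf hmem hA
  have hpa : 0 < pa F e := pa_pos e
  have h5 : 1 ≤ ∑ p ∈ Pn h2 n e hf σ, (Fintype.card F : ℝ) ^ 3 / pa F e := by
    rw [sum_const, nsmul_eq_mul, ← mul_div_assoc, le_div_iff₀ hpa, one_mul, mul_comm]
    exact h4
  refine h5.trans ?_
  apply single_le_sum (f := fun e => ∑ p ∈ Pn h2 n e hf σ, (Fintype.card F : ℝ) ^ 3 / pa F e) _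
    (mem_range.2 (by omega : e < n + 1))
  intro i _
  apply sum_nonneg
  intro p _
  have := pa_pos (F := F) i
  positivity

theorem exists_CDg (f : Cub F[X]) : ∃ n, CDg n f := by
  refine ⟨f.a.natDegree + f.b.natDegree + f.c.natDegree, ?_, ?_, ?_⟩ <;> omega

/-- **finiteness** of the group of points modulo doubles -/
theorem finite_Q2 (h2 : (2 : F) ≠ 0) {f : Cub F[X]} (hf : f.disc ≠ 0) : Finite (Q2 f) := by
  obtain ⟨n, hn⟩ := exists_CDg f
  refine (count h2 (n := n) {f} (fun g hg => by rw [mem_singleton.1 hg]; exact hf)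
    (fun e G => (Fintype.card F : ℝ) ^ 3 / pa F e) (fun e G => by have := pa_pos (F := F) e; positivity) ?_).1 f
    (mem_singleton_self _)
  intro g hg hg' σ hσ
  have e := mem_singleton.1 hg
  subst e
  exact weight_ge h2 hn hg' σ hσ

theorem card_Q2_ge (h2 : (2 : F) ≠ 0) {f : Cub F[X]} (hf : f.disc ≠ 0) : (0 : ℝ) ≤ (Nat.card (Q2 f) : ℝ) - 1 := by
  have := finite_Q2 h2 hf
  have h1 : 1 ≤ Nat.card (Q2 f) := Nat.card_pos
  have h3 : (1 : ℝ) ≤ Nat.card (Q2 f) := by exact_mod_cast h1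
  linarith

theorem Pn_bad (h2 : (2 : F) ≠ 0) {n e : ℕ} {f : Cub F[X]} (hf : f.disc ≠ 0) {σ : Q2 f} {p : Q4 F[X] × F[X]}
    (hp : p ∈ Pn h2 n e hf σ) (hb : BadC f) : BadC p.1.res := by
  rw [Cl_res h2 hf ((mem_Pn h2 hf).1 hp).2]
  exact BadC_of h2 hb

open Classical in
/-- **the exceptional cubics are negligible** -/
theorem bad_lim (h2 : (2 : F) ≠ 0) :
    Tendsto (fun n => (∑ f ∈ (Sb F n).filter (fun f => f.disc ≠ 0 ∧ BadC f), ((Nat.card (Q2 f) : ℝ) - 1)) /
      (Fintype.card F : ℝ) ^ (12 * n + 3)) atTop (nhds 0) := by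
  have hq2 : 2 ≤ (Fintype.card F : ℝ) := q_ge
  have hq0 : (0 : ℝ) < Fintype.card F := by linarith
  set φ : ℕ → ℕ → Q4 F[X] → ℝ := fun _ _ G => (Fintype.card F : ℝ) ^ 3 * (if BadC G.res then (1 : ℝ) else 0) with hφ
  have hφ0 : ∀ n e G, 0 ≤ φ n e G := by
    intro n e G
    rw [hφ]
    simp only
    split_ifs <;> positivity
  have hφ1 : ∀ n e G, φ n e G ≤ (Fintype.card F : ℝ) ^ 3 := by
    intro n e G
    rw [hφ]
    simp only
    split_ifs
    · rw [mul_one]
    · rw [mul_zero]; positivity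
  have hI : ∀ e, Tendsto (fun n => AV n e (φ n e)) atTop (nhds 0) := by
    intro e
    have h1 := (AV_bad h2 e).const_mul ((Fintype.card F : ℝ) ^ 3)
    rw [mul_zero] at h1
    refine h1.congr ?_
    intro n
    rw [hφ]
    unfold AV
    simp only
    rw [← mul_sum, mul_div_assoc]
  have h3 := tendsto_Tot hφ0 hφ1 hI
  rw [zero_mul, mul_zero] at h3
  refine squeeze_zero ?_ ?_ h3
  · intro n
    apply div_nonneg _ (by positivity)
    apply sum_nonneg
    intro f hf
    exact card_Q2_ge h2 (mem_filter.1 hf).2.1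
  · intro n
    unfold Tot
    apply div_le_div_of_nonneg_right _ (by positivity)
    refine (count h2 (n := n) _ (fun f hf => (mem_filter.1 hf).2.1) (fun e G => φ n e G / pa F e)
      (fun e G => div_nonneg (hφ0 n e G) (pa_pos e).le) ?_).2
    intro f hf hf' σ hσ
    rw [mem_filter] at hf
    refine (weight_ge h2 (mem_Sb.1 hf.1) hf' σ hσ).trans (le_of_eq ?_)
    apply sum_congr rfl
    intro e _
    apply sum_congr rfl
    intro p hp
    rw [hφ]
    simp only
    rw [if_pos (Pn_bad h2 hf' hp hf.2.2), mul_one]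

end Pool.Agent.H456.BQ
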