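import Pool.Agent.H456.BQ.NM

/-!
# The number of minimal cubics
-/

set_option autoImplicit false
set_option linter.all false

open Polynomial WeierstrassCurve Finset Filter
open Pool.Agent.H456.RN
open Pool.Agent.H456.EC

namespace Pool.Agent.H456.BQ

variable {F : Type} [Field F] [Fintype F]

open Classical in
/-- the proportion of the cubics which are minimal at `P` -/
noncomputable def muP (P : Pl F) (M : ℕ) : ℝ :=
  (((univ : Finset (Cub (Rq (P.1 ^ M)))).filter (fun g => ¬ NMc (Ideal.Quotient.mk _ P.1) g)).card : ℝ) /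
    ((Fintype.card F : ℝ) ^ (M * P.1.natDegree)) ^ 3

open Classical in
/-- the proportion of the cubics which are minimal at infinity -/
noncomputable def muX (F : Type) [Field F] [Fintype F] (M : ℕ) : ℝ :=
  (((univ : Finset (Cub (Rq ((X : F[X]) ^ M)))).filter (fun g => ¬ NMc (Ideal.Quotient.mk _ X) g)).card : ℝ) /
    ((Fintype.card F : ℝ) ^ M) ^ 3

/-- the product of the proportions -/
noncomputable def muS (S : Finset (Pl F)) (M : ℕ) : ℝ := (∏ P : S, muP P.1 M) * muX F M

/-- minimal at all places of `S` and at infinity -/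
def MinS (S : Finset (Pl F)) (n : ℕ) (f : Cub F[X]) : Prop := (∀ P ∈ S, ¬ NMc P.1 f) ∧ ¬ NMc X (crev n f)

open Classical in
theorem card_MinS (S : Finset (Pl F)) {M n : ℕ} (hM : 6 ≤ M) (hN : dS S M ≤ 2 * n + 1) :
    (((Sb F n).filter (fun f => MinS S n f)).card : ℝ) = muS S M * (Fintype.card F : ℝ) ^ (12 * n + 3) := by
  have hq2 : 2 ≤ (Fintype.card F : ℝ) := q_ge
  have hq0 : (0 : ℝ) < Fintype.card F := by linarith
  set φ : (P : S) → Cub (Rq (P.1.1 ^ M)) → ℝ := fun P g => if NMc (Ideal.Quotient.mk _ P.1.1) g then 0 else 1 with hφ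
  set φi : Cub (Rq ((X : F[X]) ^ M)) → ℝ := fun g => if NMc (Ideal.Quotient.mk _ X) g then 0 else 1 with hφi
  have h1 := sum_redC S M n hN (fun g => (∏ P : S, φ P (g.at P)) * φi g.inf)
  rw [sum_splitC S M φ φi] at h1
  have h3 : ∑ f ∈ Sb F n, (∏ P : S, φ P ((redC S M n f).at P)) * φi (redC S M n f).inf =
      (((Sb F n).filter (fun f => MinS S n f)).card : ℝ) := by
    rw [card_filter]
    push_cast
    apply sum_congr rfl
    intro f _
    have e1 : ∀ P : S, (redC S M n f).at P = f.map (Ideal.Quotient.mk (Ideal.span {P.1.1 ^ M})) := fun P => rfl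
    have e2 : (redC S M n f).inf = (crev n f).map (Ideal.Quotient.mk (Ideal.span {(X : F[X]) ^ M})) := rfl
    have e3 : ∀ P : S, φ P ((redC S M n f).at P) = if NMc P.1.1 f then 0 else 1 := by
      intro P
      rw [e1, hφ]
      simp only
      by_cases h : NMc P.1.1 f
      · rw [if_pos h, if_pos ((NMc_iff_mod hM).2 h)]
      · rw [if_neg h, if_neg (fun h' => h ((NMc_iff_mod hM).1 h'))]
    have e4 : φi (redC S M n f).inf = if NMc X (crev n f) then 0 else 1 := by
      rw [e2, hφi]
      simp only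
      by_cases h : NMc X (crev n f)
      · rw [if_pos h, if_pos ((NMc_iff_mod hM).2 h)]
      · rw [if_neg h, if_neg (fun h' => h ((NMc_iff_mod hM).1 h'))]
    rw [prod_congr rfl (fun P _ => e3 P), e4]
    by_cases h : MinS S n f
    · rw [if_pos h]
      rw [if_neg h.2, mul_one]
      apply prod_eq_one
      intro P _
      rw [if_neg (h.1 P.1 P.2)]
    · rw [if_neg h]
      unfold MinS at h
      rw [not_and_or] at h
      rcases h with h | h
      · push Not at h
        obtain ⟨P, hP, h⟩ := h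
        rw [prod_eq_zero (mem_univ (⟨P, hP⟩ : S)), zero_mul]
        rw [if_pos h]
      · push Not at h
        rw [if_pos h, mul_zero]
  rw [h3, div_eq_iff (by positivity)] at h1
  rw [h1]
  congr 1
  have h4 : ∀ P : S, ∑ g, φ P g = muP P.1 M * ((Fintype.card F : ℝ) ^ (M * P.1.1.natDegree)) ^ 3 := by
    intro P
    unfold muP
    rw [div_mul_cancel₀ _ (by positivity), card_filter]
    push_cast
    rw [hφ]
    simp only
    apply sum_congr rfl
    intro g _
    by_cases h : NMc (Ideal.Quotient.mk (Ideal.span {P.1.1 ^ M}) P.1.1) g <;> simp [h]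
  have h5 : ∑ g, φi g = muX F M * ((Fintype.card F : ℝ) ^ M) ^ 3 := by
    unfold muX
    rw [div_mul_cancel₀ _ (by positivity), card_filter]
    push_cast
    rw [hφi]
    apply sum_congr rfl
    intro g _
    by_cases h : NMc (Ideal.Quotient.mk (Ideal.span {(X : F[X]) ^ M}) X) g <;> simp [h]
  rw [prod_congr rfl (fun P _ => h4 P), h5, prod_mul_distrib, prod_pow, prod_pow_eq_pow_sum]
  have h7 : ∑ P : S, M * P.1.1.natDegree = ∑ P ∈ S, M * P.1.natDegree := sum_coe_sort S (fun P => M * P.1.natDegree)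
  rw [h7]
  unfold muS
  rw [div_eq_iff (by positivity)]
  have h8 : (Fintype.card F : ℝ) ^ (3 * dS S M) = ((Fintype.card F : ℝ) ^ (∑ P ∈ S, M * P.1.natDegree)) ^ 3 *
      ((Fintype.card F : ℝ) ^ M) ^ 3 := by
    rw [← mul_pow, ← pow_add, ← pow_mul]
    unfold dS
    congr 1
    ring
  rw [h8]
  ring

theorem finite_PlD (D : ℕ) : {P : Pl F | P.1.natDegree ≤ D}.Finite := by
  have h1 : ((fun P : Pl F => P.1) ⁻¹' (PL F (D + 1) : Set F[X])).Finite :=
    (PL F (D + 1)).finite_toSet.preimage (fun P _ Q _ h => Subtype.ext h)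
  refine h1.subset ?_
  intro P hP
  exact mem_PL_iff.2 hP

/-- the places of degree at most `D` -/
noncomputable def PlD (F : Type) [Field F] [Fintype F] (D : ℕ) : Finset (Pl F) := (finite_PlD (F := F) D).toFinset

theorem mem_PlD {D : ℕ} {P : Pl F} : P ∈ PlD F D ↔ P.1.natDegree ≤ D := by
  unfold PlD
  rw [Set.Finite.mem_toFinset]
  rfl

open Classical in
/-- the number of places of a given degree -/
theorem card_PlE (T : Finset (Pl F)) (k : ℕ) :
    (((T.filter (fun P => P.1.natDegree = k)).card : ℕ) : ℝ) ≤ (Fintype.card F : ℝ) ^ k := by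
  have h1 : (T.filter (fun P => P.1.natDegree = k)).card ≤ (PL F k).card := by
    apply card_le_card_of_injOn (fun P => P.1 - X ^ k)
    · intro P hP
      have hP' := (mem_filter.1 hP).2
      change P.1 - X ^ k ∈ PL F k
      rw [mem_PL]
      have h3 : (P.1 - X ^ k).degree < P.1.degree := by
        apply degree_sub_lt
        · rw [degree_X_pow, degree_eq_natDegree P.2.1.ne_zero, hP']
        · exact P.2.1.ne_zero
        · rw [P.2.1.leadingCoeff, leadingCoeff_X_pow]
      rwa [degree_eq_natDegree P.2.1.ne_zero, hP'] at h3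
    · intro P _ Q _ h
      exact Subtype.ext (sub_left_injective h)
  rw [card_PL] at h1
  exact_mod_cast h1

/-- the tail of the sum over the places -/
theorem sum_tail (T : Finset (Pl F)) (D : ℕ) (hT : ∀ P ∈ T, D < P.1.natDegree) :
    ∑ P ∈ T, ((Fintype.card F : ℝ) ^ (10 * P.1.natDegree))⁻¹ ≤ 2 * (1 / 2 : ℝ) ^ (9 * (D + 1)) := by
  classical
  have hq2 : 2 ≤ (Fintype.card F : ℝ) := q_ge
  have hq0 : (0 : ℝ) < Fintype.card F := by linarith
  obtain ⟨B, hB⟩ : ∃ B, ∀ P ∈ T, P.1.natDegree < B :=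
    ⟨T.sup (fun P => P.1.natDegree) + 1, fun P hP => Nat.lt_succ_of_le (le_sup (f := fun P => P.1.natDegree) hP)⟩
  rw [← sum_fiberwise_of_maps_to (s := T) (t := Finset.Ico (D + 1) B) (g := fun P => P.1.natDegree)
    (fun P hP => Finset.mem_Ico.2 ⟨hT P hP, hB P hP⟩)]
  have h1 : ∀ k ∈ Finset.Ico (D + 1) B, ∑ P ∈ T.filter (fun P => P.1.natDegree = k),
      ((Fintype.card F : ℝ) ^ (10 * P.1.natDegree))⁻¹ ≤ ((1 / 2 : ℝ) ^ 9) ^ k := by
    intro k _
    have e1 : ∀ P ∈ T.filter (fun P => P.1.natDegree = k), ((Fintype.card F : ℝ) ^ (10 * P.1.natDegree))⁻¹ =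
        ((Fintype.card F : ℝ) ^ (10 * k))⁻¹ := by
      intro P hP
      rw [(mem_filter.1 hP).2]
    rw [sum_congr rfl e1, sum_const, nsmul_eq_mul]
    calc _ ≤ (Fintype.card F : ℝ) ^ k * ((Fintype.card F : ℝ) ^ (10 * k))⁻¹ :=
          mul_le_mul_of_nonneg_right (card_PlE T k) (by positivity)
      _ = (((Fintype.card F : ℝ) ^ 9)⁻¹) ^ k := by
          rw [inv_pow, ← pow_mul, show 10 * k = k + 9 * k by ring, pow_add]
          field_simp
      _ ≤ ((1 / 2 : ℝ) ^ 9) ^ k := by
          apply pow_le_pow_left₀ (by positivity)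
          rw [one_div, inv_pow]
          exact inv_anti₀ (by positivity) (pow_le_pow_left₀ (by norm_num) hq2 9)
  refine (sum_le_sum h1).trans ?_
  have h3 : ∑ k ∈ Finset.Ico (D + 1) B, ((1 / 2 : ℝ) ^ 9) ^ k ≤ ((1 / 2 : ℝ) ^ 9) ^ (D + 1) / (1 - (1 / 2 : ℝ) ^ 9) := by
    rcases le_or_gt (D + 1) B with hDB | hDB
    · rw [geom_sum_Ico' (by norm_num) hDB]
      apply div_le_div_of_nonneg_right _ (by norm_num)
      have : (0 : ℝ) ≤ ((1 / 2 : ℝ) ^ 9) ^ B := by positivity
      linarith
    · rw [Finset.Ico_eq_empty (by omega), sum_empty]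
      positivity
  refine h3.trans ?_
  rw [← pow_mul]
  have h4 : (0 : ℝ) < (1 / 2 : ℝ) ^ (9 * (D + 1)) := by positivity
  rw [div_le_iff₀ (by norm_num)]
  nlinarith

end Pool.Agent.H456.BQ
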