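import Pool.Agent.H456.BQ.Gl3
import Pool.Agent.H456.BQ.NM2
import Pool.Agent.H456.BQ.Bad2

/-!
# The weights, and their averages over the boxes
-/

set_option autoImplicit false
set_option linter.all false

open Polynomial Finset Filter
open Pool.Agent.H456.EC (toK toK_inj sig toK_eq reflect_toK)
open Pool.Agent.H456.RN

namespace Pool.Agent.H456.BQ

theorem nA_tr {R : Type} [CommRing R] [Fintype R] (f : Cub R) (r : R) : (f.tr r).nA = f.nA := by
  classical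
  unfold Cub.nA
  apply card_bij (fun p _ => (p.1 + r, p.2))
  · intro p hp
    rw [mem_filter] at hp ⊢
    refine ⟨mem_univ _, ?_⟩
    rw [← Cub.ev_tr]
    exact hp.2
  · intro p _ p' _ h
    simp only [Prod.mk.injEq, add_left_inj] at h
    exact Prod.ext h.1 h.2
  · intro p hp
    rw [mem_filter] at hp
    refine ⟨(p.1 - r, p.2), ?_, ?_⟩
    · rw [mem_filter]
      refine ⟨mem_univ _, ?_⟩
      rw [Cub.ev_tr, sub_add_cancel]
      exact hp.2
    · simp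

variable {F : Type} [Field F] [Fintype F]

open Classical in
/-- the indicator of the minimal cubics -/
noncomputable def chi (P : Pl F) (M : ℕ) (g : Cub (Rq (P.1 ^ M))) : ℝ :=
  if NMc (Ideal.Quotient.mk (Ideal.span {P.1 ^ M}) P.1) g then 0 else 1

/-- the weight at `P` -/
noncomputable def WP (P : Pl F) (M : ℕ) (g : Cub (Rq (P.1 ^ M))) : ℝ :=
  chi P M (g.sc (Ideal.Quotient.mk _ (C (4 : F)⁻¹))) /
    (1 + ((g.sc (Ideal.Quotient.mk _ (C (4 : F)⁻¹))).nA : ℝ) / ((Fintype.card F : ℝ) ^ P.1.natDegree) ^ (M - 1))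

theorem chi_tr (P : Pl F) (M : ℕ) (g : Cub (Rq (P.1 ^ M))) (r : Rq (P.1 ^ M)) : chi P M (g.tr r) = chi P M g := by
  unfold chi
  rw [NMc_tr]

theorem chi_nonneg (P : Pl F) (M : ℕ) (g : Cub (Rq (P.1 ^ M))) : 0 ≤ chi P M g := by
  unfold chi
  split_ifs <;> norm_num

theorem WP_nonneg (P : Pl F) (M : ℕ) (g : Cub (Rq (P.1 ^ M))) : 0 ≤ WP P M g :=
  div_nonneg (chi_nonneg _ _ _) (by positivity)

theorem i4_mul (h2 : (2 : F) ≠ 0) {m : F[X]} : (Ideal.Quotient.mk (Ideal.span {m}) (C (4 : F)⁻¹) : Rq m) * 4 = 1 := by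
  have h4 : (4 : F) ≠ 0 := by
    have : (4 : F) = 2 ^ 2 := by norm_num
    rw [this]; exact pow_ne_zero _ h2
  have : (4 : Rq m) = Ideal.Quotient.mk (Ideal.span {m}) (C (4 : F)) := by
    rw [map_ofNat, map_ofNat]
  rw [this, ← map_mul, ← C_mul, inv_mul_cancel₀ h4, C_1, map_one]

theorem WP_eq (h2 : (2 : F) ≠ 0) {P : Pl F} {M : ℕ} (hM : 6 ≤ M) {f : Cub F[X]} (hf : ¬ NMc P.1 f) (r : F[X]) :
    (1 + ((f.map (Ideal.Quotient.mk (Ideal.span {P.1 ^ M}))).nA : ℝ) /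
        ((Fintype.card F : ℝ) ^ P.1.natDegree) ^ (M - 1))⁻¹ =
      WP P M (((f.sc 4).tr r).map (Ideal.Quotient.mk (Ideal.span {P.1 ^ M}))) := by
  have e1 : (((f.sc 4).tr r).map (Ideal.Quotient.mk (Ideal.span {P.1 ^ M}))).sc (Ideal.Quotient.mk _ (C (4 : F)⁻¹)) =
      (f.map (Ideal.Quotient.mk (Ideal.span {P.1 ^ M}))).tr (Ideal.Quotient.mk _ (C (4 : F)⁻¹) * Ideal.Quotient.mk _ r) := by
    rw [Cub.map_tr, Cub.map_sc, Cub.sc_tr, Cub.sc_sc, map_ofNat, mul_comm (4 : Rq (P.1 ^ M)), i4_mul h2, Cub.sc_one]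
  unfold WP
  rw [e1, nA_tr, chi_tr]
  have e2 : chi P M (f.map (Ideal.Quotient.mk (Ideal.span {P.1 ^ M}))) = 1 := by
    unfold chi
    rw [if_neg]
    rw [NMc_iff_mod hM]
    exact hf
  rw [e2, one_div]

theorem sum_chi (P : Pl F) (M : ℕ) : ∑ f : Cub (Rq (P.1 ^ M)), chi P M f =
    muP P M * (((Fintype.card F : ℝ) ^ P.1.natDegree) ^ M) ^ 3 := by
  classical
  have hq2 : 2 ≤ (Fintype.card F : ℝ) := q_ge
  unfold muP
  have e0 : ((Fintype.card F : ℝ) ^ P.1.natDegree) ^ M = (Fintype.card F : ℝ) ^ (M * P.1.natDegree) := by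
    rw [← pow_mul, mul_comm]
  rw [e0, div_mul_cancel₀ _ (by positivity), card_filter]
  push_cast
  apply sum_congr rfl
  intro f _
  unfold chi
  split_ifs <;> simp_all

/-- the sum of the local weight -/
theorem sum_phP (hphi : S_phi) (h2 : (2 : F) ≠ 0) (P : Pl F) {M : ℕ} (hM : 1 ≤ M) :
    ∑ g, phP P hM (WP P M) g = (1 - ((Fintype.card F : ℝ) ^ (2 * P.1.natDegree))⁻¹) * muP P M *
      (((Fintype.card F : ℝ) ^ P.1.natDegree) ^ M) ^ 5 := by
  have h := hphi F h2 P M hM (chi P M) (chi_tr P M) _ (i4_mul h2)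
  rw [sum_chi] at h
  unfold phP WP
  rw [h, ← pow_mul (Fintype.card F : ℝ) P.1.natDegree 2, mul_comm P.1.natDegree 2]
  ring

theorem sum_phX (hphi : S_phi) (h2 : (2 : F) ≠ 0) {M : ℕ} (hM : 1 ≤ M) :
    ∑ g, phX F hM (WP (PlX F) M) g = (1 - ((Fintype.card F : ℝ) ^ 2)⁻¹) * muX F M *
      ((Fintype.card F : ℝ) ^ M) ^ 5 := by
  have h := sum_phP hphi h2 (PlX F) hM
  have e1 : (PlX F).1.natDegree = 1 := natDegree_X
  rw [e1, pow_one, mul_one] at h
  have e2 : muP (PlX F) M = muX F M := by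
    unfold muP muX
    rw [e1, mul_one]
    rfl
  rw [e2] at h
  exact h

/-- the average of the weight -/
noncomputable def IPh (S : Finset (Pl F)) (M : ℕ) : ℝ :=
  (∏ P ∈ S, (1 - ((Fintype.card F : ℝ) ^ (2 * P.1.natDegree))⁻¹)) * (1 - ((Fintype.card F : ℝ) ^ 2)⁻¹) * muS S M

theorem AV_Ph (hphi : S_phi) (h2 : (2 : F) ≠ 0) (S : Finset (Pl F)) {M : ℕ} (hM : 1 ≤ M) {n e : ℕ} (he : e ≤ n)
    (hN : dS S M ≤ 2 * n - 2 * e + 1) :
    AV n e (fun G => Ph S hM (fun P => WP P M) (WP (PlX F) M) (redV S M n e G)) = IPh S M := by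
  classical
  have hq2 : 2 ≤ (Fintype.card F : ℝ) := q_ge
  have hq0 : (0 : ℝ) < Fintype.card F := by linarith
  unfold AV
  rw [sum_redV S M n e he hN (fun g => Ph S hM (fun P => WP P M) (WP (PlX F) M) g)]
  have h1 : ∑ g : Q4 (RB S M), Ph S hM (fun P => WP P M) (WP (PlX F) M) g =
      (∏ P : S, ∑ g, phP P.1 hM (WP P.1 M) g) * ∑ g, phX F hM (WP (PlX F) M) g :=
    sum_split S M (fun P g => phP P.1 hM (WP P.1 M) g) (fun g => phX F hM (WP (PlX F) M) g)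
  rw [h1, sum_phX hphi h2 hM, prod_congr rfl (fun P _ => sum_phP hphi h2 P.1 hM), prod_mul_distrib, prod_mul_distrib,
    prod_pow, div_eq_iff (by positivity)]
  have e1 : ∏ P : S, ((Fintype.card F : ℝ) ^ P.1.1.natDegree) ^ M = (Fintype.card F : ℝ) ^ (∑ P ∈ S, M * P.1.natDegree) := by
    rw [← sum_coe_sort S (fun P => M * P.1.natDegree), ← prod_pow_eq_pow_sum]
    apply prod_congr rfl
    intro P _
    rw [← pow_mul, mul_comm]
  have e3 : ∏ P : S, (1 - ((Fintype.card F : ℝ) ^ (2 * P.1.1.natDegree))⁻¹) =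
      ∏ P ∈ S, (1 - ((Fintype.card F : ℝ) ^ (2 * P.1.natDegree))⁻¹) :=
    prod_coe_sort S (fun P => 1 - ((Fintype.card F : ℝ) ^ (2 * P.1.natDegree))⁻¹)
  rw [e1, e3]
  unfold IPh muS dS
  have h8 : (Fintype.card F : ℝ) ^ (5 * ((∑ P ∈ S, M * P.1.natDegree) + M)) =
      ((Fintype.card F : ℝ) ^ (∑ P ∈ S, M * P.1.natDegree)) ^ 5 * ((Fintype.card F : ℝ) ^ M) ^ 5 := by
    rw [← mul_pow, ← pow_add, ← pow_mul]
    congr 1
    ring
  rw [h8]
  ring

end Pool.Agent.H456.BQ
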