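import Pool.Agent.H456.BQ.Asm1
import Pool.Agent.H456.BQ.T_disc4

/-!
# The quartics with a discriminant divisible by a high power of some place
-/

set_option autoImplicit false
set_option linter.all false

open Polynomial Finset Filter
open Pool.Agent.H456.EC (toK toK_inj sig toK_eq reflect_toK)
open Pool.Agent.H456.RN

namespace Pool.Agent.H456.BQ

variable {F : Type} [Field F] [Fintype F]

theorem sum_one_Q4P (P : Pl F) (M : ℕ) : ∑ g : Q4 (Rq (P.1 ^ M)), (1 : ℝ) = (((Fintype.card F : ℝ) ^ P.1.natDegree) ^ M) ^ 5 := by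
  rw [sum_const, card_univ, card_Q4, ← Nat.card_eq_fintype_card, card_Rq (P.2.1.pow M), natDegree_pow, nsmul_eq_mul,
    mul_one]
  push_cast
  rw [← pow_mul (Fintype.card F : ℝ) P.1.natDegree M, mul_comm P.1.natDegree M]

theorem sum_one_Q4X (M : ℕ) : ∑ g : Q4 (Rq ((X : F[X]) ^ M)), (1 : ℝ) = ((Fintype.card F : ℝ) ^ M) ^ 5 := by
  rw [sum_const, card_univ, card_Q4, ← Nat.card_eq_fintype_card, card_Rq (monic_X.pow M), natDegree_pow, natDegree_X,
    nsmul_eq_mul, mul_one, mul_one]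
  push_cast
  rfl

theorem AV_at (P : Pl F) (M : ℕ) {n e : ℕ} (he : e ≤ n) (hN : dS {P} M ≤ 2 * n - 2 * e + 1)
    (ψ : (P : Pl F) → Q4 (Rq (P.1 ^ M)) → ℝ) :
    AV n e (fun G => ψ P (G.map (Ideal.Quotient.mk (Ideal.span {P.1 ^ M})))) =
      (∑ g, ψ P g) / (((Fintype.card F : ℝ) ^ P.1.natDegree) ^ M) ^ 5 := by
  classical
  have hq2 : 2 ≤ (Fintype.card F : ℝ) := q_ge
  have hq0 : (0 : ℝ) < Fintype.card F := by linarith
  have hmem : P ∈ ({P} : Finset (Pl F)) := mem_singleton_self P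
  have h1 := sum_redV {P} M n e he hN (fun g => (∏ P' : ({P} : Finset (Pl F)), ψ P'.1 (g.at P')) * 1)
  rw [sum_split {P} M (fun P' g => ψ P'.1 g) (fun _ => 1), sum_one_Q4X] at h1
  haveI : Subsingleton ({P} : Finset (Pl F)) := ⟨by
    rintro ⟨a, ha⟩ ⟨b, hb⟩
    rw [mem_singleton] at ha hb
    subst ha
    subst hb
    rfl⟩
  rw [Fintype.prod_subsingleton _ (⟨P, hmem⟩ : ({P} : Finset (Pl F)))] at h1
  have h3 : ∀ G : Q4 F[X], (∏ P' : ({P} : Finset (Pl F)), ψ P'.1 ((redV {P} M n e G).at P')) * 1 =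
      ψ P (G.map (Ideal.Quotient.mk (Ideal.span {P.1 ^ M}))) := by
    intro G
    rw [Fintype.prod_subsingleton _ (⟨P, hmem⟩ : ({P} : Finset (Pl F))), mul_one, redV_at]
  simp only [h3] at h1
  unfold AV
  rw [h1]
  unfold dS
  rw [sum_singleton]
  have e1 : (Fintype.card F : ℝ) ^ (5 * (M * P.1.natDegree + M)) =
      (((Fintype.card F : ℝ) ^ P.1.natDegree) ^ M) ^ 5 * ((Fintype.card F : ℝ) ^ M) ^ 5 := by
    rw [← pow_mul, ← pow_mul, ← pow_mul, ← pow_add]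
    congr 1
    ring
  rw [e1]
  field_simp

theorem AV_inf (M : ℕ) {n e : ℕ} (he : e ≤ n) (hN : dS (∅ : Finset (Pl F)) M ≤ 2 * n - 2 * e + 1)
    (ψ : Q4 (Rq ((X : F[X]) ^ M)) → ℝ) :
    AV n e (fun G => ψ ((revV n e G).map (Ideal.Quotient.mk (Ideal.span {(X : F[X]) ^ M})))) =
      (∑ g, ψ g) / ((Fintype.card F : ℝ) ^ M) ^ 5 := by
  classical
  have h1 := sum_redV ∅ M n e he hN (fun g => (∏ P' : (∅ : Finset (Pl F)), 1) * ψ g.inf)
  rw [sum_split ∅ M (fun P' g => 1) ψ] at h1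
  simp only [univ_eq_empty, prod_empty, one_mul, redV_inf] at h1
  unfold AV
  rw [h1]
  unfold dS
  rw [sum_empty, zero_add, ← pow_mul (Fintype.card F : ℝ) M 5, mul_comm M 5]

open Classical in
/-- the indicator of the quartics with zero discriminant -/
noncomputable def dP (j : ℕ) (P : Pl F) (g : Q4 (Rq (P.1 ^ j))) : ℝ := if g.res.disc = 0 then 1 else 0

theorem dP_nonneg (j : ℕ) (P : Pl F) (g : Q4 (Rq (P.1 ^ j))) : 0 ≤ dP j P g := by
  unfold dP; split_ifs <;> norm_num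

theorem dP_le (j : ℕ) (P : Pl F) (g : Q4 (Rq (P.1 ^ j))) : dP j P g ≤ 1 := by
  unfold dP; split_ifs <;> norm_num

/-- the uncontrolled quartics -/
noncomputable def uc (S : Finset (Pl F)) (j n e : ℕ) (G : Q4 F[X]) : ℝ :=
  (∑ P ∈ S, dP j P (G.map (Ideal.Quotient.mk (Ideal.span {P.1 ^ j})))) +
    dP j (PlX F) ((revV n e G).map (Ideal.Quotient.mk (Ideal.span {(PlX F).1 ^ j})))

theorem uc_nonneg (S : Finset (Pl F)) (j n e : ℕ) (G : Q4 F[X]) : 0 ≤ uc S j n e G :=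
  add_nonneg (sum_nonneg fun P _ => dP_nonneg _ _ _) (dP_nonneg _ _ _)

theorem uc_le (S : Finset (Pl F)) (j n e : ℕ) (G : Q4 F[X]) : uc S j n e G ≤ S.card + 1 := by
  unfold uc
  apply add_le_add _ (dP_le _ _ _)
  refine (sum_le_sum fun P _ => dP_le j P _).trans (le_of_eq ?_)
  rw [sum_const, nsmul_eq_mul, mul_one]

theorem AV_add (n e : ℕ) (φ ψ : Q4 F[X] → ℝ) : AV n e (fun G => φ G + ψ G) = AV n e φ + AV n e ψ := by
  unfold AV
  rw [sum_add_distrib, add_div]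

theorem AV_sum {ι : Type} (T : Finset ι) (n e : ℕ) (φ : ι → Q4 F[X] → ℝ) :
    AV n e (fun G => ∑ i ∈ T, φ i G) = ∑ i ∈ T, AV n e (φ i) := by
  unfold AV
  rw [sum_comm, sum_div]

theorem dS_mono {S T : Finset (Pl F)} (h : S ⊆ T) (M : ℕ) : dS S M ≤ dS T M := by
  unfold dS
  exact Nat.add_le_add_right (sum_le_sum_of_subset h) _

theorem AV_uc (S : Finset (Pl F)) (j : ℕ) {n e : ℕ} (he : e ≤ n) (hN : dS S j ≤ 2 * n - 2 * e + 1) :
    AV n e (uc S j n e) = (∑ P ∈ S, (∑ g, dP j P g) / (((Fintype.card F : ℝ) ^ P.1.natDegree) ^ j) ^ 5) +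
      (∑ g, dP j (PlX F) g) / ((Fintype.card F : ℝ) ^ j) ^ 5 := by
  classical
  have h1 : AV n e (uc S j n e) = AV n e (fun G => (∑ P ∈ S, dP j P (G.map (Ideal.Quotient.mk (Ideal.span {P.1 ^ j})))) +
    dP j (PlX F) ((revV n e G).map (Ideal.Quotient.mk (Ideal.span {(PlX F).1 ^ j})))) := rfl
  rw [h1, AV_add, AV_sum]
  congr 1
  · apply sum_congr rfl
    intro P hP
    exact AV_at P j he ((dS_mono (singleton_subset_iff.2 hP) j).trans hN) (dP j)
  · exact AV_inf j he ((dS_mono (empty_subset S) j).trans hN) (dP j (PlX F))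

/-- the uncontrolled quartics are rare -/
theorem uc_small (hd4 : S_disc4) (h2 : (2 : F) ≠ 0) (S : Finset (Pl F)) (ε : ℝ) (hε : 0 < ε) : ∃ j₀ : ℕ, ∀ j ≥ j₀,
    (∑ P ∈ S, (∑ g, dP j P g) / (((Fintype.card F : ℝ) ^ P.1.natDegree) ^ j) ^ 5) +
      (∑ g, dP j (PlX F) g) / ((Fintype.card F : ℝ) ^ j) ^ 5 ≤ ε := by
  classical
  have hq2 : 2 ≤ (Fintype.card F : ℝ) := q_ge
  have hq0 : (0 : ℝ) < Fintype.card F := by linarith
  have hε' : 0 < ε / (S.card + 1) := by positivity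
  choose j₀ hj₀ using fun P : Pl F => hd4 F h2 P (ε / (S.card + 1)) hε'
  have key : ∀ (P : Pl F) (j : ℕ), j₀ P ≤ j → (∑ g, dP j P g) / (((Fintype.card F : ℝ) ^ P.1.natDegree) ^ j) ^ 5 ≤
      ε / (S.card + 1) := by
    intro P j hj
    rw [div_le_iff₀ (by positivity)]
    refine le_trans (le_of_eq ?_) (hj₀ P j hj)
    rw [card_filter]
    push_cast
    apply sum_congr rfl
    intro g _
    unfold dP
    rfl
  refine ⟨(insert (PlX F) S).sup j₀, fun j hj => ?_⟩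
  have h1 : ∀ P ∈ insert (PlX F) S, j₀ P ≤ j := fun P hP => (le_sup (f := j₀) hP).trans hj
  have h3 : ∑ P ∈ S, (∑ g, dP j P g) / (((Fintype.card F : ℝ) ^ P.1.natDegree) ^ j) ^ 5 ≤
      S.card * (ε / (S.card + 1)) := by
    refine (sum_le_sum fun P hP => key P j (h1 P (mem_insert_of_mem hP))).trans (le_of_eq ?_)
    rw [sum_const, nsmul_eq_mul]
  have h4 := key (PlX F) j (h1 _ (mem_insert_self _ _))
  have e1 : (PlX F).1.natDegree = 1 := natDegree_X
  rw [e1, pow_one] at h4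
  refine (add_le_add h3 h4).trans (le_of_eq ?_)
  field_simp

/-- the condition for the pairs representing a class of an uncontrolled cubic -/
theorem uc_ge (h2 : (2 : F) ≠ 0) {S : Finset (Pl F)} {j n e : ℕ} (he : e ≤ n) {f : Cub F[X]} (hf : f.disc ≠ 0)
    (hd : CDg n f) {σ : Q2 f} {p : Q4 F[X] × F[X]} (hp : p ∈ Pn h2 n e hf σ)
    (h : (∃ P ∈ S, P.1 ^ j ∣ f.disc) ∨ X ^ j ∣ (crev n f).disc) : 1 ≤ uc S j n e p.1 := by
  classical
  obtain ⟨⟨hB, hdeg⟩, hcl⟩ := (mem_Pn h2 hf).1 hp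
  have hres := Cl_res h2 hf hcl
  rcases h with ⟨P, hP, hdvd⟩ | hdvd
  · have h1 : dP j P (p.1.map (Ideal.Quotient.mk (Ideal.span {P.1 ^ j}))) = 1 := by
      unfold dP
      rw [if_pos]
      rw [Q4.map_res, Cub.map_disc, hres, mk_zero, Cub.disc_tr, Cub.disc_sc]
      exact hdvd.mul_left _
    have h3 : dP j P (p.1.map (Ideal.Quotient.mk (Ideal.span {P.1 ^ j}))) ≤
        ∑ P ∈ S, dP j P (p.1.map (Ideal.Quotient.mk (Ideal.span {P.1 ^ j}))) :=
      single_le_sum (f := fun P : Pl F => dP j P (p.1.map (Ideal.Quotient.mk (Ideal.span {P.1 ^ j}))))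
        (fun P _ => dP_nonneg _ _ _) hP
    have h4 := dP_nonneg j (PlX F) ((revV n e p.1).map (Ideal.Quotient.mk (Ideal.span {(PlX F).1 ^ j})))
    unfold uc
    linarith
  · have h1 : dP j (PlX F) ((revV n e p.1).map (Ideal.Quotient.mk (Ideal.span {(PlX F).1 ^ j}))) = 1 := by
      unfold dP
      rw [if_pos]
      rw [Q4.map_res, Cub.map_disc, revV_res he hd hB hdeg hres, mk_zero, Cub.disc_tr, Cub.disc_sc]
      exact hdvd.mul_left _
    have h3 : 0 ≤ ∑ P ∈ S, dP j P (p.1.map (Ideal.Quotient.mk (Ideal.span {P.1 ^ j}))) :=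
      sum_nonneg fun P _ => dP_nonneg _ _ _
    unfold uc
    linarith

/-- one representative gives a full orbit -/
theorem one_le_pa (h2 : (2 : F) ≠ 0) {n : ℕ} {f : Cub F[X]} (hd : CDg n f) (hf : f.disc ≠ 0) (hn : NoTwo f) {σ : Q2 f}
    (hσ : σ ≠ 0) : 1 ≤ ∑ e ∈ range (n + 1), ∑ p ∈ Pn h2 n e hf σ, 1 / pa F e := by
  obtain ⟨e, he, p, hp, h1, h3, hA⟩ := exists_Cl h2 hf hd hσ
  have hmem : p ∈ Pn h2 n e hf σ := (mem_Pn h2 hf).2 ⟨⟨h1, h3⟩, hp⟩
  have h4 := le_card_Pn h2 he hf hn hmem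
  have hpa : 0 < pa F e := pa_pos e
  have h5 : 1 ≤ ∑ p ∈ Pn h2 n e hf σ, 1 / pa F e := by
    rw [sum_const, nsmul_eq_mul, mul_one_div, le_div_iff₀ hpa, one_mul]
    exact h4
  refine h5.trans ?_
  apply single_le_sum (f := fun e => ∑ p ∈ Pn h2 n e hf σ, 1 / pa F e) _
    (mem_range.2 (by omega : e < n + 1))
  intro i _
  apply sum_nonneg
  intro p _
  have := pa_pos (F := F) i
  positivity

end Pool.Agent.H456.BQ
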