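import Pool.Agent.H456.BQ.Asm2

/-!
# The limit of the averages over the minimal equations
-/

set_option autoImplicit false
set_option linter.all false

open Polynomial Finset Filter
open Pool.Agent.H456.EC (toK toK_inj sig toK_eq reflect_toK)
open Pool.Agent.H456.RN

namespace Pool.Agent.H456.BQ

/-- all the local statements -/
structure Hyp : Prop where
  locK : S_locK
  locI : S_locI
  spP : S_spP
  spI : S_spI
  tup : S_tup
  dis : S_dis
  phi : S_phi
  disc4 : S_disc4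
  euler : S_euler

variable {F : Type} [Field F] [Fintype F]

theorem Ph_nonneg {S : Finset (Pl F)} {M : ℕ} (hM : 1 ≤ M) (g : Q4 (RB S M)) :
    0 ≤ Ph S hM (fun P => WP P M) (WP (PlX F) M) g := by
  unfold Ph phP phX
  exact mul_nonneg (prod_nonneg fun P _ => mul_nonneg (Nat.cast_nonneg _) (WP_nonneg _ _ _))
    (mul_nonneg (Nat.cast_nonneg _) (WP_nonneg _ _ _))

/-- the weight used in the counting -/
noncomputable def phi (S : Finset (Pl F)) {M : ℕ} (hM : 1 ≤ M) (j n e : ℕ) (G : Q4 F[X]) : ℝ :=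
  Ph S hM (fun P => WP P M) (WP (PlX F) M) (redV S M n e G) + uc S j n e G

/-- the weighted number of the representatives of a class -/
theorem phi_ge (H : Hyp) (h2 : (2 : F) ≠ 0) {n M k : ℕ} (hk : 2 * k + 1 ≤ M) (hM6 : 6 ≤ M) (hM : 1 ≤ M)
    (S : Finset (Pl F)) {f : Cub F[X]} (hf : f.disc ≠ 0) (hd : CDg n f) (hn : NoTwo f)
    (hmin : (∀ P : Pl F, ¬ NMc P.1 f) ∧ ¬ NMc X (crev n f)) {σ : Q2 f} (hσ : σ ≠ 0) :
    1 ≤ ∑ e ∈ range (n + 1), ∑ p ∈ Pn h2 n e hf σ, phi S hM (k + 1) n e p.1 / pa F e := by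
  by_cases hc : (∃ P ∈ S, P.1 ^ (k + 1) ∣ f.disc) ∨ X ^ (k + 1) ∣ (crev n f).disc
  · refine (one_le_pa h2 hd hf hn hσ).trans ?_
    apply sum_le_sum
    intro e he
    apply sum_le_sum
    intro p hp
    apply div_le_div_of_nonneg_right _ (pa_pos e).le
    have h1 := uc_ge h2 (Nat.lt_succ_iff.1 (mem_range.1 he)) hf hd hp hc
    have h3 := Ph_nonneg hM (redV S M n e p.1)
    unfold phi
    linarith
  · push Not at hc
    have hWX : ∀ r : F[X], (1 + (((crev n f).map (Ideal.Quotient.mk (Ideal.span {(X : F[X]) ^ M}))).nA : ℝ) /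
        (Fintype.card F : ℝ) ^ (M - 1))⁻¹ ≤
        WP (PlX F) M ((((crev n f).sc 4).tr r).map (Ideal.Quotient.mk (Ideal.span {(X : F[X]) ^ M}))) := by
      intro r
      have h1 := WP_eq h2 (P := PlX F) hM6 (f := crev n f) hmin.2 r
      have e1 : (PlX F).1.natDegree = 1 := natDegree_X
      rw [e1, pow_one] at h1
      exact le_of_eq h1
    have h1 := glue_sum H.locK H.locI H.spP H.spI H.tup H.dis h2 hk hM S hf hd hn
      hc.1 hc.2 (W := fun P => WP P M) (Wi := WP (PlX F) M)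
      (fun P g => WP_nonneg P M g) (fun g => WP_nonneg (PlX F) M g)
      (fun P _ r => le_of_eq (WP_eq h2 hM6 (hmin.1 P) r)) hWX hσ
    refine h1.trans ?_
    apply sum_le_sum
    intro e he
    apply sum_le_sum
    intro p hp
    apply div_le_div_of_nonneg_right _ (pa_pos e).le
    have h3 := uc_nonneg S (k + 1) n e p.1
    unfold phi
    linarith

open Classical in
theorem count_phi (H : Hyp) (h2 : (2 : F) ≠ 0) {n M k : ℕ} (hk : 2 * k + 1 ≤ M) (hM6 : 6 ≤ M) (hM : 1 ≤ M)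
    (S : Finset (Pl F)) : ∑ f ∈ (Msh F n).filter (fun f => ¬ BadC f), ((Nat.card (Q2 f) : ℝ) - 1) ≤
      Tot (fun n e G => phi S hM (k + 1) n e G) n * (Fintype.card F : ℝ) ^ (12 * n + 3) := by
  have hq2 : 2 ≤ (Fintype.card F : ℝ) := q_ge
  have hφ0 : ∀ n e G, 0 ≤ phi S hM (k + 1) n e G := by
    intro n e G
    unfold phi
    exact add_nonneg (Ph_nonneg _ _) (uc_nonneg _ _ _ _ _)
  have h1 := (count h2 (n := n) ((Msh F n).filter (fun f => ¬ BadC f))
    (fun f hf => (mem_Msh.1 (mem_filter.1 hf).1).2.1) (fun e G => phi S hM (k + 1) n e G / pa F e)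
    (fun e G => div_nonneg (hφ0 n e G) (pa_pos e).le) ?_).2
  · refine h1.trans (le_of_eq ?_)
    unfold Tot
    rw [div_mul_cancel₀ _ (by positivity)]
  · intro f hf hf' σ hσ
    rw [mem_filter, mem_Msh] at hf
    obtain ⟨⟨hd, -, hm⟩, hb⟩ := hf
    have hn : NoTwo f := fun r hr => hb (Or.inr ⟨r, hr⟩)
    exact phi_ge H h2 hk hM6 hM S hf' hd hn ((MinAll_crv h2).1 hm) hσ

/-- **the upper bound** for given places -/
theorem upper (H : Hyp) (h2 : (2 : F) ≠ 0) (S : Finset (Pl F)) (ε : ℝ) (hε : 0 < ε) : ∃ M : ℕ, 6 ≤ M ∧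
    ∀ᶠ n in atTop, ∀ (s : Finset (Cub F[X])), (∀ f, f ∈ s ↔ f ∈ Msh F n ∧ ¬ BadC f) →
      ∑ f ∈ s, ((Nat.card (Q2 f) : ℝ) - 1) ≤ ((Fintype.card F : ℝ) ^ 3 *
        ((IPh S M + ε) * (2 / (((Fintype.card F : ℝ) - 1) ^ 2 * ((Fintype.card F : ℝ) + 1)))) + ε) *
        (Fintype.card F : ℝ) ^ (12 * n + 3) := by
  classical
  have hq2 : 2 ≤ (Fintype.card F : ℝ) := q_ge
  have hq0 : (0 : ℝ) < Fintype.card F := by linarith
  have hq1 : (0 : ℝ) < (Fintype.card F : ℝ) - 1 := by linarith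
  obtain ⟨k, hk⟩ := uc_small H.disc4 h2 S ε hε
  set M : ℕ := max 6 (2 * k + 1) with hMdef
  have hM6 : 6 ≤ M := le_max_left _ _
  have hMk : 2 * k + 1 ≤ M := le_max_right _ _
  have hM : 1 ≤ M := by omega
  refine ⟨M, hM6, ?_⟩
  set φ : ℕ → ℕ → Q4 F[X] → ℝ := fun n e G => phi S hM (k + 1) n e G with hφ
  have hφ0 : ∀ n e G, 0 ≤ φ n e G := by
    intro n e G
    exact add_nonneg (Ph_nonneg _ _) (uc_nonneg _ _ _ _ _)
  have hφc : ∀ n e G, φ n e G ≤ (∑ g, Ph S hM (fun P => WP P M) (WP (PlX F) M) g) + (S.card + 1) := by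
    intro n e G
    apply add_le_add
    · exact single_le_sum (f := fun g => Ph S hM (fun P => WP P M) (WP (PlX F) M) g) (fun g _ => Ph_nonneg hM g)
        (mem_univ (redV S M n e G))
    · exact uc_le _ _ _ _ _
  set L : ℝ := (∑ P ∈ S, (∑ g, dP (k + 1) P g) / (((Fintype.card F : ℝ) ^ P.1.natDegree) ^ (k + 1)) ^ 5) +
      (∑ g, dP (k + 1) (PlX F) g) / ((Fintype.card F : ℝ) ^ (k + 1)) ^ 5 with hL
  have hLε : L ≤ ε := hk (k + 1) (by omega)
  have hI : ∀ e, Tendsto (fun n => AV n e (φ n e)) atTop (nhds (IPh S M + L)) := by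
    intro e
    refine tendsto_const_nhds.congr' ?_
    filter_upwards [eventually_ge_atTop (e + dS S M + dS S (k + 1))] with n hn
    have h1 : AV n e (φ n e) = AV n e (fun G => Ph S hM (fun P => WP P M) (WP (PlX F) M) (redV S M n e G)) +
      AV n e (uc S (k + 1) n e) := AV_add n e _ _
    rw [h1, AV_Ph H.phi h2 S hM (by omega) (by omega), AV_uc S (k + 1) (by omega) (by omega)]
  have hT := tendsto_Tot hφ0 hφc hI
  have hlt : (Fintype.card F : ℝ) ^ 3 *
      ((IPh S M + L) * (2 / (((Fintype.card F : ℝ) - 1) ^ 2 * ((Fintype.card F : ℝ) + 1)))) <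
      (Fintype.card F : ℝ) ^ 3 *
        ((IPh S M + ε) * (2 / (((Fintype.card F : ℝ) - 1) ^ 2 * ((Fintype.card F : ℝ) + 1)))) + ε := by
    have h1 : (IPh S M + L) * (2 / (((Fintype.card F : ℝ) - 1) ^ 2 * ((Fintype.card F : ℝ) + 1))) ≤
        (IPh S M + ε) * (2 / (((Fintype.card F : ℝ) - 1) ^ 2 * ((Fintype.card F : ℝ) + 1))) :=
      mul_le_mul_of_nonneg_right (by linarith) (by positivity)
    have h3 := mul_le_mul_of_nonneg_left h1 (by positivity : 0 ≤ (Fintype.card F : ℝ) ^ 3)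
    linarith
  filter_upwards [hT.eventually_lt_const hlt] with n hn s hs
  have es : s = (Msh F n).filter (fun f => ¬ BadC f) := by
    ext f
    rw [hs, mem_filter]
  rw [es]
  exact (count_phi H h2 hMk hM6 hM S).trans (mul_le_mul_of_nonneg_right hn.le (by positivity))

open Classical in
/-- the lower bound for the number of the minimal equations -/
theorem Msh_ge (h2 : (2 : F) ≠ 0) (D n : ℕ) :
    (((Sb F n).filter (fun f => MinS (PlD F D) n f)).card : ℝ) - 2 * (1 / 2 : ℝ) ^ (9 * (D + 1)) *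
      (Fintype.card F : ℝ) ^ (12 * n + 3) - 3 * (Fintype.card F : ℝ) ^ (8 * n + 2) ≤ ((Msh F n).card : ℝ) := by
  have hq2 : 2 ≤ (Fintype.card F : ℝ) := q_ge
  have hq0 : (0 : ℝ) < Fintype.card F := by linarith
  set T : Finset (Pl F) := (PlD F n).filter (fun P => D < P.1.natDegree) with hT
  have hsub : (Sb F n).filter (fun f => MinS (PlD F D) n f) ⊆ (Msh F n ∪ (Sb F n).filter (fun f => f.disc = 0)) ∪
      T.biUnion (fun P => (Sb F n).filter (fun f => NMc P.1 f)) := by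
    intro f hf
    rw [mem_filter] at hf
    obtain ⟨hSb, hmin, hX⟩ := hf
    rw [mem_union, mem_union]
    by_cases h0 : f.disc = 0
    · exact Or.inl (Or.inr (mem_filter.2 ⟨hSb, h0⟩))
    by_cases hall : ∀ P : Pl F, ¬ NMc P.1 f
    · exact Or.inl (Or.inl (mem_Msh.2 ⟨mem_Sb.1 hSb, h0, (MinAll_crv h2).2 ⟨hall, hX⟩⟩))
    · push Not at hall
      obtain ⟨P, hP⟩ := hall
      right
      rw [mem_biUnion]
      refine ⟨P, ?_, mem_filter.2 ⟨hSb, hP⟩⟩
      rw [hT, mem_filter, mem_PlD]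
      refine ⟨NM_large h2 (mem_Sb.1 hSb) h0 hP, ?_⟩
      by_contra hle
      exact hmin P (mem_PlD.2 (not_lt.1 hle)) hP
  have h1 := card_le_card hsub
  have h3 : ((T.biUnion (fun P => (Sb F n).filter (fun f => NMc P.1 f))).card : ℝ) ≤
      2 * (1 / 2 : ℝ) ^ (9 * (D + 1)) * (Fintype.card F : ℝ) ^ (12 * n + 3) := by
    have h4 : ((T.biUnion (fun P => (Sb F n).filter (fun f => NMc P.1 f))).card : ℝ) ≤
        ∑ P ∈ T, (((Sb F n).filter (fun f => NMc P.1 f)).card : ℝ) := by exact_mod_cast card_biUnion_le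
    refine h4.trans ?_
    have h5 : ∀ P ∈ T, (((Sb F n).filter (fun f => NMc P.1 f)).card : ℝ) ≤
        ((Fintype.card F : ℝ) ^ (10 * P.1.natDegree))⁻¹ * (Fintype.card F : ℝ) ^ (12 * n + 3) := by
      intro P hP
      rw [hT, mem_filter, mem_PlD] at hP
      have h6 := card_NM (n := n) P.2.1 hP.1 (by omega)
      have h7 : (((Sb F n).filter (fun f => NMc P.1 f)).card : ℝ) ≤
        (Fintype.card F : ℝ) ^ (12 * n + 3 - 10 * P.1.natDegree) := by exact_mod_cast h6
      refine h7.trans (le_of_eq ?_)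
      rw [inv_mul_eq_div, eq_div_iff (by positivity), ← pow_add]
      congr 1
      omega
    refine (sum_le_sum h5).trans ?_
    rw [← sum_mul]
    apply mul_le_mul_of_nonneg_right _ (by positivity)
    exact sum_tail T D (fun P hP => by rw [hT, mem_filter] at hP; exact hP.2)
  have h8 := card_disc0 (F := F) h2 n
  have h9 : (((Sb F n).filter (fun f => MinS (PlD F D) n f)).card : ℝ) ≤ ((Msh F n).card : ℝ) +
      (((Sb F n).filter (fun f => f.disc = 0)).card : ℝ) +
      ((T.biUnion (fun P => (Sb F n).filter (fun f => NMc P.1 f))).card : ℝ) := by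
    have h10 := h1.trans (card_union_le _ _)
    have h11 := card_union_le (Msh F n) ((Sb F n).filter (fun f => f.disc = 0))
    have h12 := h10.trans (Nat.add_le_add_right h11 _)
    exact_mod_cast h12
  have h8' : (((Sb F n).filter (fun f => f.disc = 0)).card : ℝ) ≤ 3 * (Fintype.card F : ℝ) ^ (8 * n + 2) := by
    convert h8 using 4
  linarith

end Pool.Agent.H456.BQ
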