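import Pool.Agent.H456.BQ.Asm3

/-!
# The average over all isomorphism classes is at most 3
-/

set_option autoImplicit false
set_option linter.all false

open Polynomial Finset Filter
open Pool.Agent.H456.EC (toK toK_inj sig toK_eq reflect_toK)
open Pool.Agent.H456.RN

namespace Pool.Agent.H456.BQ

variable {F : Type} [Field F] [Fintype F]

theorem disc0_small (δ : ℝ) (hδ : 0 < δ) : ∀ᶠ n : ℕ in atTop, 3 * (Fintype.card F : ℝ) ^ (8 * n + 2) ≤
    δ * (Fintype.card F : ℝ) ^ (12 * n + 3) := by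
  have hq2 : 2 ≤ (Fintype.card F : ℝ) := q_ge
  have hq0 : (0 : ℝ) < Fintype.card F := by linarith
  obtain ⟨N, hN⟩ := exists_nat_gt (3 / δ)
  filter_upwards [eventually_ge_atTop N] with n hn
  have h1 : (N : ℝ) ≤ n := by exact_mod_cast hn
  have h3 : (n : ℝ) ≤ (Fintype.card F : ℝ) ^ (4 * n + 1) := by
    have h4 : n < 2 ^ n := Nat.lt_two_pow_self
    have h5 : (n : ℝ) ≤ 2 ^ n := by exact_mod_cast h4.le
    calc (n : ℝ) ≤ 2 ^ n := h5
      _ ≤ (Fintype.card F : ℝ) ^ n := pow_le_pow_left₀ (by norm_num) hq2 n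
      _ ≤ (Fintype.card F : ℝ) ^ (4 * n + 1) := pow_le_pow_right₀ (by linarith) (by omega)
  have h6 : 3 ≤ δ * (Fintype.card F : ℝ) ^ (4 * n + 1) := by
    have := (div_lt_iff₀ hδ).1 (lt_of_lt_of_le hN (h1.trans h3))
    linarith
  have h7 : (Fintype.card F : ℝ) ^ (12 * n + 3) = (Fintype.card F : ℝ) ^ (4 * n + 1) * (Fintype.card F : ℝ) ^ (8 * n + 2) := by
    rw [← pow_add]; congr 1; omega
  rw [h7, ← mul_assoc]
  exact mul_le_mul_of_nonneg_right h6 (by positivity)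

theorem PlD_zero : PlD F 0 = ∅ := by
  ext P
  rw [mem_PlD]
  constructor
  · intro h
    have := P.2.2.natDegree_pos
    omega
  · intro h
    exact absurd h (notMem_empty _)

open Classical in
theorem card_NMX {n : ℕ} (hn : 1 ≤ n) :
    ((Sb F n).filter (fun f => NMc X (crev n f))).card ≤ Fintype.card F ^ (12 * n + 3 - 10) := by
  have h1 := card_NM (F := F) (n := n) (P := X) monic_X (by rw [natDegree_X]; exact hn) (by rw [natDegree_X])
  rw [natDegree_X, mul_one] at h1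
  refine le_trans ?_ h1
  apply card_le_card_of_injOn (crev n)
  · intro f hf
    have hf' := mem_filter.1 (mem_coe.1 hf)
    apply mem_coe.2
    rw [mem_filter, mem_Sb]
    exact ⟨cdg_crev (mem_Sb.1 hf'.1), hf'.2⟩
  · intro f _ g _ h
    rw [← crev_crev n f, h, crev_crev]

/-- a positive proportion of the equations is minimal -/
theorem H3 (h2 : (2 : F) ≠ 0) : ∀ᶠ n in atTop, (1 / 4 : ℝ) * (Fintype.card F : ℝ) ^ (12 * n + 3) ≤ ((Msh F n).card : ℝ) := by
  classical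
  have hq2 : 2 ≤ (Fintype.card F : ℝ) := q_ge
  have hq0 : (0 : ℝ) < Fintype.card F := by linarith
  filter_upwards [disc0_small (F := F) (1 / 4) (by norm_num), eventually_ge_atTop 1] with n hn hn1
  have h1 := Msh_ge (F := F) h2 0 n
  have h3 : (((Sb F n).filter (fun f => MinS (PlD F 0) n f)).card : ℝ) ≥ (Fintype.card F : ℝ) ^ (12 * n + 3) -
      (Fintype.card F : ℝ) ^ (12 * n + 3 - 10) := by
    have h4 := card_filter_add_card_filter_not (s := Sb F n) (fun f => MinS (PlD F 0) n f)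
    have h5 : ((Sb F n).filter (fun f => ¬ MinS (PlD F 0) n f)).card ≤ Fintype.card F ^ (12 * n + 3 - 10) := by
      refine (card_le_card ?_).trans (card_NMX hn1)
      intro f hf
      rw [mem_filter] at hf ⊢
      refine ⟨hf.1, ?_⟩
      by_contra hX
      apply hf.2
      refine ⟨fun P hP => ?_, hX⟩
      rw [PlD_zero] at hP
      exact absurd hP (notMem_empty _)
    rw [card_Sb] at h4
    have h6 : (((Sb F n).filter (fun f => MinS (PlD F 0) n f)).card : ℝ) +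
      (((Sb F n).filter (fun f => ¬ MinS (PlD F 0) n f)).card : ℝ) = (Fintype.card F : ℝ) ^ (12 * n + 3) := by
      exact_mod_cast h4
    have h7 : (((Sb F n).filter (fun f => ¬ MinS (PlD F 0) n f)).card : ℝ) ≤ (Fintype.card F : ℝ) ^ (12 * n + 3 - 10) := by
      exact_mod_cast h5
    linarith
  have h8 : (Fintype.card F : ℝ) ^ (12 * n + 3 - 10) ≤ (1 / 4) * (Fintype.card F : ℝ) ^ (12 * n + 3) := by
    have e1 : (Fintype.card F : ℝ) ^ (12 * n + 3) = (Fintype.card F : ℝ) ^ 10 * (Fintype.card F : ℝ) ^ (12 * n + 3 - 10) := by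
      rw [← pow_add]; congr 1; omega
    have e3 : (4 : ℝ) ≤ (Fintype.card F : ℝ) ^ 10 := by
      calc (4 : ℝ) ≤ 2 ^ 10 := by norm_num
        _ ≤ _ := pow_le_pow_left₀ (by norm_num) hq2 10
    rw [e1]
    have hp : 0 < (Fintype.card F : ℝ) ^ (12 * n + 3 - 10) := by positivity
    nlinarith
  have h9 : (2 : ℝ) * (1 / 2 : ℝ) ^ (9 * (0 + 1)) * (Fintype.card F : ℝ) ^ (12 * n + 3) ≤
      (1 / 4) * (Fintype.card F : ℝ) ^ (12 * n + 3) := by
    apply mul_le_mul_of_nonneg_right _ (by positivity)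
    norm_num
  linarith

theorem muS_le {S : Finset (Pl F)} {M : ℕ} (hM : 6 ≤ M) : 0 ≤ muS S M ∧ muS S M ≤ 1 := by
  classical
  have hq2 : 2 ≤ (Fintype.card F : ℝ) := q_ge
  have hq0 : (0 : ℝ) < Fintype.card F := by linarith
  have h1 := card_MinS (F := F) S (M := M) (n := dS S M) hM (by omega)
  have h3 : 0 < (Fintype.card F : ℝ) ^ (12 * dS S M + 3) := by positivity
  constructor
  · by_contra hneg
    push Not at hneg
    have h4 := mul_neg_of_neg_of_pos hneg h3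
    rw [← h1] at h4
    exact absurd h4 (not_lt.2 (Nat.cast_nonneg _))
  · have h4 : (((Sb F (dS S M)).filter (fun f => MinS S (dS S M) f)).card : ℝ) ≤ (Fintype.card F : ℝ) ^ (12 * dS S M + 3) := by
      have := card_le_card (filter_subset (fun f => MinS S (dS S M) f) (Sb F (dS S M)))
      rw [card_Sb] at this
      exact_mod_cast this
    rw [h1] at h4
    by_contra hgt
    push Not at hgt
    have := mul_lt_mul_of_pos_right hgt h3
    linarith

/-- **the average over the minimal equations** -/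
theorem H1 (H : Hyp) (h2 : (2 : F) ≠ 0) (ε : ℝ) (hε : 0 < ε) : ∀ᶠ n in atTop, ∀ (s : Finset (Cub F[X])),
    (∀ f, f ∈ s ↔ f ∈ Msh F n ∧ ¬ BadC f) →
      ∑ f ∈ s, ((Nat.card (Q2 f) : ℝ) - 1) ≤ (2 + ε) * (Msh F n).card := by
  classical
  have hq2 : 2 ≤ (Fintype.card F : ℝ) := q_ge
  set q : ℝ := (Fintype.card F : ℝ) with hq
  have hq0 : (0 : ℝ) < q := by linarith
  have hq1 : (0 : ℝ) < q - 1 := by linarith
  set δ : ℝ := ε / 84 with hδ
  have hδ0 : 0 < δ := by positivity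
  obtain ⟨D₁, hD₁⟩ := H.euler F δ hδ0
  obtain ⟨D₂, hD₂⟩ := exists_nat_gt (2 / δ)
  set D := max D₁ D₂ with hD
  set S := PlD F D with hS
  have hτ : 2 * (1 / 2 : ℝ) ^ (9 * (D + 1)) ≤ δ := by
    have h1 : (D₂ : ℝ) ≤ 2 ^ (9 * (D + 1)) := by
      have h3 : D₂ ≤ 9 * (D + 1) := by
        have := le_max_right D₁ D₂
        omega
      have h4 : 9 * (D + 1) < 2 ^ (9 * (D + 1)) := Nat.lt_two_pow_self
      have h5 : D₂ ≤ 2 ^ (9 * (D + 1)) := h3.trans h4.le
      exact_mod_cast h5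
    have h3 : 2 < δ * 2 ^ (9 * (D + 1)) := by
      have := (div_lt_iff₀ hδ0).1 (lt_of_lt_of_le hD₂ h1)
      linarith
    rw [one_div, inv_pow, ← div_eq_mul_inv, div_le_iff₀ (by positivity)]
    linarith
  obtain ⟨M, hM6, hup⟩ := upper H h2 S δ hδ0
  obtain ⟨hμ0, hμ1⟩ := muS_le (S := S) hM6
  set μ := muS S M with hμ
  have hE : ∏ P ∈ S, (1 - (q ^ (2 * P.1.natDegree))⁻¹) ≤ 1 - q⁻¹ + δ :=
    hD₁ S (fun P hP => mem_PlD.2 (hP.trans (le_max_left _ _)))
  -- the constant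
  set A : ℝ := q ^ 3 * (2 / ((q - 1) ^ 2 * (q + 1))) with hA
  have hA0 : 0 ≤ A := by positivity
  have hA8 : A ≤ 8 := by
    rw [hA, ← mul_div_assoc, div_le_iff₀ (by positivity)]
    have h1 : 0 ≤ (q - 2) := by linarith
    nlinarith [mul_nonneg h1 h1, mul_nonneg h1 hq0.le, mul_nonneg (mul_nonneg h1 h1) hq0.le, mul_nonneg (mul_nonneg h1 hq0.le) hq0.le]
  have hA2 : A * ((1 - q⁻¹) * (1 - (q ^ 2)⁻¹)) = 2 := by
    rw [hA]
    have h1 : q - 1 ≠ 0 := hq1.ne'
    have h3 : q + 1 ≠ 0 := by positivity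
    field_simp
    ring
  have hκ0 : 0 ≤ 1 - (q ^ 2)⁻¹ := by
    have : (q ^ 2)⁻¹ ≤ 1 := inv_le_one_of_one_le₀ (by nlinarith)
    linarith
  have hκ1 : 1 - (q ^ 2)⁻¹ ≤ 1 := by
    have : 0 ≤ (q ^ 2)⁻¹ := by positivity
    linarith
  have hI : A * IPh S M ≤ 2 * μ + 8 * δ := by
    have h1 : IPh S M ≤ (1 - q⁻¹ + δ) * (1 - (q ^ 2)⁻¹) * μ := by
      unfold IPh
      exact mul_le_mul_of_nonneg_right (mul_le_mul_of_nonneg_right hE hκ0) hμ0
    have h3 := mul_le_mul_of_nonneg_left h1 hA0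
    have h4 : A * ((1 - q⁻¹ + δ) * (1 - (q ^ 2)⁻¹) * μ) = 2 * μ + A * δ * ((1 - (q ^ 2)⁻¹) * μ) := by
      linear_combination μ * hA2
    have h5 : A * δ * ((1 - (q ^ 2)⁻¹) * μ) ≤ 8 * δ * 1 := by
      apply mul_le_mul (mul_le_mul_of_nonneg_right hA8 hδ0.le) _ (mul_nonneg hκ0 hμ0) (by positivity)
      calc (1 - (q ^ 2)⁻¹) * μ ≤ 1 * 1 := mul_le_mul hκ1 hμ1 hμ0 (by norm_num)
        _ = 1 := one_mul 1
    linarith
  filter_upwards [hup, disc0_small (F := F) δ hδ0, H3 (F := F) h2, eventually_ge_atTop (dS S M)] with n h1 h3 h4 h5 s hs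
  have h6 := h1 s hs
  have h7 := Msh_ge (F := F) h2 D n
  have h8 := card_MinS (F := F) S (M := M) (n := n) hM6 (by omega)
  rw [← hS, h8, ← hq, ← hμ] at h7
  rw [← hq] at h3 h4 h6
  have hB : 0 < q ^ (12 * n + 3) := by positivity
  set B := q ^ (12 * n + 3) with hBdef
  have h9 : (2 : ℝ) * (1 / 2 : ℝ) ^ (9 * (D + 1)) * B ≤ δ * B := mul_le_mul_of_nonneg_right hτ hB.le
  have h10 : μ * B ≤ (Msh F n).card + 2 * δ * B := by linarith
  have h11 : q ^ 3 * ((IPh S M + δ) * (2 / ((q - 1) ^ 2 * (q + 1)))) + δ ≤ 2 * μ + 17 * δ := by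
    have e1 : q ^ 3 * ((IPh S M + δ) * (2 / ((q - 1) ^ 2 * (q + 1)))) = A * IPh S M + A * δ := by
      rw [hA]; ring
    have e3 : A * δ ≤ 8 * δ := mul_le_mul_of_nonneg_right hA8 hδ0.le
    rw [e1]
    linarith
  have h12 := mul_le_mul_of_nonneg_right h11 hB.le
  have h13 : (2 * μ + 17 * δ) * B = 2 * (μ * B) + 17 * (δ * B) := by ring
  have h14 : B ≤ 4 * (Msh F n).card := by linarith
  have h15 : 21 * (δ * B) ≤ ε * (Msh F n).card := by
    have : 21 * δ * B ≤ 21 * δ * (4 * (Msh F n).card) := mul_le_mul_of_nonneg_left h14 (by positivity)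
    have e1 : 21 * δ * (4 * ((Msh F n).card : ℝ)) = ε * (Msh F n).card := by rw [hδ]; ring
    linarith
  linarith

end Pool.Agent.H456.BQ
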