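import Pool.Agent.H456.BQ.Lat

/-!
# Residue rings of `F[X]`
-/

set_option autoImplicit false
set_option linter.all false

open Polynomial Finset

namespace Pool.Agent.H456.BQ

section quot

variable {F : Type} [Field F]

/-- the finite places -/
abbrev Pl (F : Type) [Field F] : Type := {P : F[X] // P.Monic ∧ Irreducible P}

/-- the quotient ring -/
abbrev Rq (m : F[X]) : Type := F[X] ⧸ Ideal.span {m}

theorem mk_eq {m a b : F[X]} : (Ideal.Quotient.mk (Ideal.span {m}) a : Rq m) = Ideal.Quotient.mk _ b ↔ m ∣ a - b := by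
  rw [Ideal.Quotient.eq, Ideal.mem_span_singleton]

theorem mk_zero {m a : F[X]} : (Ideal.Quotient.mk (Ideal.span {m}) a : Rq m) = 0 ↔ m ∣ a := by
  rw [Ideal.Quotient.eq_zero_iff_mem, Ideal.mem_span_singleton]

theorem finite_Rq [Finite F] {m : F[X]} (hm : m.Monic) : Finite (Rq m) := by
  have h1 : Module.Finite F (AdjoinRoot m) := (AdjoinRoot.powerBasis' hm).finite
  have h2 : Finite (AdjoinRoot m) := Module.finite_of_finite F
  exact h2

variable [Fintype F]

noncomputable instance instFP (P : Pl F) (M : ℕ) : Fintype (Rq (P.1 ^ M)) :=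
  @Fintype.ofFinite _ (finite_Rq (P.2.1.pow M))

noncomputable instance instFX (M : ℕ) : Fintype (Rq ((X : F[X]) ^ M)) :=
  @Fintype.ofFinite _ (finite_Rq (monic_X.pow M))

end quot

section types

/-- quartics as tuples -/
def Q4.equiv (R : Type*) : Q4 R ≃ R × R × R × R × R where
  toFun g := (g.A, g.B, g.C, g.D, g.E)
  invFun x := ⟨x.1, x.2.1, x.2.2.1, x.2.2.2.1, x.2.2.2.2⟩
  left_inv _ := rfl
  right_inv _ := rfl

/-- cubics as tuples -/
def Cub.equiv (R : Type*) : Cub R ≃ R × R × R where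
  toFun g := (g.a, g.b, g.c)
  invFun x := ⟨x.1, x.2.1, x.2.2⟩
  left_inv _ := rfl
  right_inv _ := rfl

noncomputable instance (R : Type*) [Fintype R] : Fintype (Q4 R) := Fintype.ofEquiv _ (Q4.equiv R).symm

noncomputable instance (R : Type*) [Fintype R] : Fintype (Cub R) := Fintype.ofEquiv _ (Cub.equiv R).symm

theorem sum_Q4 {R M : Type*} [Fintype R] [AddCommMonoid M] (φ : Q4 R → M) :
    ∑ g, φ g = ∑ A, ∑ B, ∑ C, ∑ D, ∑ E, φ ⟨A, B, C, D, E⟩ := by
  rw [← (Q4.equiv R).symm.sum_comp φ]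
  simp only [Fintype.sum_prod_type]
  rfl

theorem sum_Cub {R M : Type*} [Fintype R] [AddCommMonoid M] (φ : Cub R → M) :
    ∑ g, φ g = ∑ a, ∑ b, ∑ c, φ ⟨a, b, c⟩ := by
  rw [← (Cub.equiv R).symm.sum_comp φ]
  simp only [Fintype.sum_prod_type]
  rfl

theorem card_Q4 (R : Type*) [Fintype R] : Fintype.card (Q4 R) = Fintype.card R ^ 5 := by
  rw [Fintype.card_congr (Q4.equiv R)]
  simp only [Fintype.card_prod]
  ring

theorem card_Cub (R : Type*) [Fintype R] : Fintype.card (Cub R) = Fintype.card R ^ 3 := by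
  rw [Fintype.card_congr (Cub.equiv R)]
  simp only [Fintype.card_prod]
  ring

end types

end Pool.Agent.H456.BQ
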