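import Pool.Agent.H456.BQ.Rep
import Pool.Agent.H456.BQ.Base

/-!
# The quartics over a finite field whose resolvent has no root
-/

set_option autoImplicit false
set_option linter.all false

open Finset

namespace Pool.Agent.H456.BQ

section field

variable {κ : Type} [Field κ] [Fintype κ] [DecidableEq κ]

/-- the roots -/
def Rt (f : Cub κ) : Finset κ := univ.filter (fun x => f.ev x = 0)

theorem mem_Rt {f : Cub κ} {x : κ} : x ∈ Rt f ↔ f.ev x = 0 := by
  unfold Rt
  rw [mem_filter]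
  exact and_iff_right (mem_univ _)

theorem card_Rt (f : Cub κ) : (Rt f).card ≤ 3 := by
  set p : Polynomial κ := Polynomial.X ^ 3 + (Polynomial.C f.a * Polynomial.X ^ 2 + Polynomial.C f.b * Polynomial.X +
    Polynomial.C f.c) with hp
  have hm : p.Monic := by
    rw [hp]
    apply Polynomial.monic_X_pow_add
    compute_degree!
  have hd : p.natDegree ≤ 3 := by
    rw [hp]
    compute_degree!
  have h1 : (Rt f) ⊆ p.roots.toFinset := by
    intro x hx
    rw [mem_Rt] at hx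
    rw [Multiset.mem_toFinset, Polynomial.mem_roots hm.ne_zero, Polynomial.IsRoot.def, hp]
    simp only [Polynomial.eval_add, Polynomial.eval_mul, Polynomial.eval_pow, Polynomial.eval_X, Polynomial.eval_C]
    simp only [Cub.ev] at hx
    linear_combination hx
  calc (Rt f).card ≤ p.roots.toFinset.card := card_le_card h1
    _ ≤ Multiset.card p.roots := Multiset.toFinset_card_le _
    _ ≤ p.natDegree := Polynomial.card_roots' _
    _ ≤ 3 := hd

/-- cubics with a given nonzero constant term and a root -/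
theorem card_rooted {c : κ} (hc : c ≠ 0) :
    3 * ((univ : Finset (κ × κ)).filter (fun x => (Rt (⟨x.1, x.2, c⟩ : Cub κ)).Nonempty)).card ≤
      2 * (Fintype.card κ ^ 2 - 1) := by
  set q := Fintype.card κ with hq
  have hq2 : 2 ≤ q := Fintype.one_lt_card
  set U : Finset κ := univ.erase 0 with hU
  have hUc : U.card = q - 1 := by rw [hU, card_erase_of_mem (mem_univ _), card_univ]
  have hsub : ∀ x : κ × κ, Rt (⟨x.1, x.2, c⟩ : Cub κ) ⊆ U := by
    intro x r hr
    rw [hU, mem_erase]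
    refine ⟨?_, mem_univ _⟩
    rintro rfl
    rw [mem_Rt] at hr
    apply hc
    simp only [Cub.ev] at hr
    linear_combination hr
  -- pointwise
  have h1 : ∀ x : κ × κ, 3 * (if (Rt (⟨x.1, x.2, c⟩ : Cub κ)).Nonempty then 1 else 0) +
      (Rt (⟨x.1, x.2, c⟩ : Cub κ)).offDiag.card ≤ 3 * (Rt (⟨x.1, x.2, c⟩ : Cub κ)).card := by
    intro x
    rw [offDiag_card]
    have h3 := card_Rt (⟨x.1, x.2, c⟩ : Cub κ)
    have h4 := card_pos (s := Rt (⟨x.1, x.2, c⟩ : Cub κ))
    set k := (Rt (⟨x.1, x.2, c⟩ : Cub κ)).card with hk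
    split_ifs with h5
    · have := h4.2 h5
      interval_cases k <;> omega
    · interval_cases k <;> omega
  have h3 : 3 * ((univ : Finset (κ × κ)).filter (fun x => (Rt (⟨x.1, x.2, c⟩ : Cub κ)).Nonempty)).card +
      ∑ x : κ × κ, (Rt (⟨x.1, x.2, c⟩ : Cub κ)).offDiag.card ≤ 3 * ∑ x : κ × κ, (Rt (⟨x.1, x.2, c⟩ : Cub κ)).card := by
    rw [card_filter, mul_sum, mul_sum, ← sum_add_distrib]
    exact sum_le_sum fun x _ => h1 x
  -- the first moment
  have h4 : ∑ x : κ × κ, (Rt (⟨x.1, x.2, c⟩ : Cub κ)).card ≤ (q - 1) * q := by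
    have e1 : ∀ x : κ × κ, (Rt (⟨x.1, x.2, c⟩ : Cub κ)).card = ∑ r ∈ U, if (⟨x.1, x.2, c⟩ : Cub κ).ev r = 0 then 1 else 0 := by
      intro x
      rw [← card_filter]
      congr 1
      ext r
      rw [mem_Rt, mem_filter]
      constructor
      · intro h; exact ⟨hsub x (mem_Rt.2 h), h⟩
      · exact fun h => h.2
    rw [sum_congr rfl fun x _ => e1 x, sum_comm, ← hUc, ← smul_eq_mul, ← sum_const]
    apply sum_le_sum
    intro r hr
    rw [hU, mem_erase] at hr
    rw [← card_filter, hq, ← card_univ]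
    apply card_le_card_of_injOn Prod.fst (fun _ _ => mem_univ _)
    rintro ⟨a, b⟩ h ⟨a', b'⟩ h' haa
    have h5 : (⟨a, b, c⟩ : Cub κ).ev r = 0 := (mem_filter.1 h).2
    have h6 : (⟨a', b', c⟩ : Cub κ).ev r = 0 := (mem_filter.1 h').2
    have haa' : a = a' := haa
    subst haa'
    simp only [Cub.ev] at h5 h6
    have h7 : (b - b') * r = 0 := by linear_combination h5 - h6
    rw [Prod.mk.injEq]
    exact ⟨rfl, sub_eq_zero.1 ((mul_eq_zero.1 h7).resolve_right hr.1)⟩
  -- the second moment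
  have h5 : (q - 1) * (q - 2) ≤ ∑ x : κ × κ, (Rt (⟨x.1, x.2, c⟩ : Cub κ)).offDiag.card := by
    have e0 : U.offDiag.card = (q - 1) * (q - 2) := by
      rw [offDiag_card, hUc]
      obtain ⟨k, hk⟩ : ∃ k, q = k + 2 := ⟨q - 2, by omega⟩
      rw [hk]
      simp only [Nat.add_sub_cancel]
      have : k + 2 - 1 = k + 1 := by omega
      rw [this]
      have : (k + 1) * (k + 1) = (k + 1) * k + (k + 1) := by ring
      omega
    have e1 : ∀ x : κ × κ, (Rt (⟨x.1, x.2, c⟩ : Cub κ)).offDiag.card = ∑ p ∈ U.offDiag,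
        if ((⟨x.1, x.2, c⟩ : Cub κ).ev p.1 = 0 ∧ (⟨x.1, x.2, c⟩ : Cub κ).ev p.2 = 0) then 1 else 0 := by
      intro x
      rw [← card_filter]
      congr 1
      ext p
      rw [mem_offDiag, mem_filter, mem_offDiag, mem_Rt, mem_Rt]
      constructor
      · rintro ⟨a1, a2, a3⟩
        exact ⟨⟨hsub x (mem_Rt.2 a1), hsub x (mem_Rt.2 a2), a3⟩, a1, a2⟩
      · rintro ⟨⟨-, -, a3⟩, a1, a2⟩
        exact ⟨a1, a2, a3⟩
    rw [sum_congr rfl fun x _ => e1 x, sum_comm, ← e0, card_eq_sum_ones]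
    apply sum_le_sum
    intro p hp
    rw [mem_offDiag, hU, mem_erase, mem_erase] at hp
    obtain ⟨⟨hp1, -⟩, ⟨hp2, -⟩, hp3⟩ := hp
    rw [← card_filter]
    apply card_pos.2
    have e3 : (p.1 + p.2 - c / (p.1 * p.2)) = (p.1 * p.2 * (p.1 + p.2) - c) / (p.1 * p.2) := by
      field_simp
    refine ⟨(-(p.1 + p.2) + c / (p.1 * p.2),
      -(p.1 ^ 2 + (-(p.1 + p.2) + c / (p.1 * p.2)) * p.1 + c / p.1)), ?_⟩
    rw [mem_filter]
    refine ⟨mem_univ _, ?_, ?_⟩
    · simp only [Cub.ev]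
      field_simp
      ring
    · simp only [Cub.ev]
      field_simp
      ring
  have h6 : 3 * ((q - 1) * q) = 2 * (q ^ 2 - 1) + (q - 1) * (q - 2) := by
    obtain ⟨k, hk⟩ : ∃ k, q = k + 2 := ⟨q - 2, by omega⟩
    rw [hk]
    have e1 : k + 2 - 1 = k + 1 := by omega
    have e2 : k + 2 - 2 = k := by omega
    have e3 : (k + 2) ^ 2 - 1 = (k + 1) * (k + 3) := by
      have : (k + 2) ^ 2 = (k + 1) * (k + 3) + 1 := by ring
      omega
    rw [e1, e2, e3]
    ring
  omega

/-- the quartics whose resolvent has a root -/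
noncomputable def BadR (κ : Type) [Field κ] [Fintype κ] [DecidableEq κ] : Finset (Q4 κ) :=
  univ.filter (fun g => ∃ r, g.res.ev r = 0)

theorem res_sub_root (g : Q4 κ) (β r : κ) (h : (g.sub ⟨1, β, 0, 1⟩).res.ev r = 0) : ∃ r', g.res.ev r' = 0 := by
  rw [Q4.res_sub] at h
  have e : (⟨1, β, 0, 1⟩ : M2 κ).det = 1 := by simp only [M2.det]; ring
  rw [e, one_pow, Cub.sc_one, Cub.ev_tr] at h
  exact ⟨_, h⟩

/-- **a positive proportion of the quartics has a resolvent without roots** -/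
theorem card_BadR (h2 : (2 : κ) ≠ 0) : ((BadR κ).card : ℝ) ≤ 25 / 27 * (Fintype.card κ : ℝ) ^ 5 := by
  classical
  set q := Fintype.card κ with hq
  have hq2 : 2 ≤ q := Fintype.one_lt_card
  have hq3 : 3 ≤ q := by
    by_contra h
    have h1 : q = 2 := by omega
    have hc := FiniteField.cast_card_eq_zero κ
    rw [← hq, h1] at hc
    exact h2 (by exact_mod_cast hc)
  have h4 : (4 : κ) ≠ 0 := by
    have : (4 : κ) = 2 ^ 2 := by norm_num
    rw [this]; exact pow_ne_zero _ h2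
  -- the parameters
  set P : Finset (κ × κ × κ × κ × κ) := univ.filter (fun x => x.1 ≠ 0 ∧ x.2.2.1 ≠ 0 ∧
    ¬ (Rt (⟨x.2.2.2.1, x.2.2.2.2, x.2.2.1 ^ 2⟩ : Cub κ)).Nonempty) with hP
  let φ : κ × κ × κ × κ × κ → Q4 κ := fun x =>
    (⟨x.1 ^ 2, 0, -(x.2.2.2.1 / 2), x.2.2.1 / x.1, (x.2.2.2.1 ^ 2 / 4 - x.2.2.2.2) / (4 * x.1 ^ 2)⟩ : Q4 κ).sub
      ⟨1, x.2.1, 0, 1⟩
  have hres : ∀ x : κ × κ × κ × κ × κ, x.1 ≠ 0 →
      (⟨x.1 ^ 2, 0, -(x.2.2.2.1 / 2), x.2.2.1 / x.1, (x.2.2.2.1 ^ 2 / 4 - x.2.2.2.2) / (4 * x.1 ^ 2)⟩ : Q4 κ).res =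
      (⟨x.2.2.2.1, x.2.2.2.2, x.2.2.1 ^ 2⟩ : Cub κ).tr (-(x.2.2.2.1 / 2)) := by
    intro x hx
    have h22 : (4 : κ) = 2 * 2 := by norm_num
    ext
    · simp only [Q4.res, Cub.tr]; field_simp; ring
    · simp only [Q4.res, Cub.tr]; field_simp; ring
    · simp only [Q4.res, Cub.tr]; field_simp; ring
  have hgood : ∀ x ∈ P, φ x ∉ BadR κ := by
    intro x hx hb
    rw [hP, mem_filter] at hx
    obtain ⟨-, hx1, -, hx3⟩ := hx
    unfold BadR at hb
    rw [mem_filter] at hb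
    obtain ⟨-, r, hr⟩ := hb
    obtain ⟨r', hr'⟩ := res_sub_root _ _ _ hr
    rw [hres x hx1, Cub.ev_tr] at hr'
    exact hx3 ⟨_, mem_Rt.2 hr'⟩
  -- the fibers have at most two elements
  have hfib : ∀ g ∈ P.image φ, (P.filter (fun x => φ x = g)).card ≤ 2 := by
    intro g _
    have hinj : Set.InjOn (fun x : κ × κ × κ × κ × κ => x.1) (P.filter (fun x => φ x = g) : Set (κ × κ × κ × κ × κ)) := by
      rintro ⟨a, b, c, d, e⟩ hx ⟨a', b', c', d', e'⟩ hx' haa
      rw [mem_coe, mem_filter, hP, mem_filter] at hx hx'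
      obtain ⟨⟨-, ha, -, -⟩, h1⟩ := hx
      obtain ⟨⟨-, -, -, -⟩, h1'⟩ := hx'
      have haa' : a = a' := haa
      subst haa'
      rw [← h1'] at h1
      have ha' : a ≠ 0 := ha
      have kB := congrArg Q4.B h1
      have kC := congrArg Q4.C h1
      have kD := congrArg Q4.D h1
      have kE := congrArg Q4.E h1
      simp only [φ, Q4.sub] at kB kC kD kE
      have e1 : (4 * a ^ 2) * (b - b') = 0 := by linear_combination kB
      have e2 : b = b' := sub_eq_zero.1 ((mul_eq_zero.1 e1).resolve_left (mul_ne_zero h4 (pow_ne_zero _ ha')))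
      subst e2
      have e3 : d = d' := by
        have : (d - d') / 2 = 0 := by linear_combination -kC
        exact sub_eq_zero.1 ((div_eq_zero_iff.1 this).resolve_right h2)
      subst e3
      have e4 : c / a = c' / a := by linear_combination kD
      have e5 : c = c' := by
        have := congrArg (fun x => x * a) e4
        simpa [div_mul_cancel₀ _ ha'] using this
      subst e5
      have e6 : (d ^ 2 / 4 - e) / (4 * a ^ 2) = (d ^ 2 / 4 - e') / (4 * a ^ 2) := by linear_combination kE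
      have e7 : e = e' := by
        have hne : (4 * a ^ 2) ≠ 0 := mul_ne_zero h4 (pow_ne_zero _ ha')
        rw [div_left_inj' hne] at e6
        linear_combination -e6
      subst e7
      rfl
    rw [← card_image_of_injOn hinj]
    have hsub : (P.filter (fun x => φ x = g)).image (fun x => x.1) ⊆ univ.filter (fun a : κ => a ^ 2 = g.A) := by
      intro a ha
      rw [mem_image] at ha
      obtain ⟨x, hx, rfl⟩ := ha
      rw [mem_filter] at hx ⊢
      refine ⟨mem_univ _, ?_⟩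
      rw [← hx.2]
      simp only [φ, Q4.sub]; ring
    refine (card_le_card hsub).trans ?_
    by_contra hlt
    push Not at hlt
    obtain ⟨a, b, c, ha, hb, hc, hab, hac, hbc⟩ := two_lt_card_iff.1 hlt
    rw [mem_filter] at ha hb hc
    have e1 : (a - b) * (a + b) = 0 := by linear_combination ha.2 - hb.2
    have e2 : (a - c) * (a + c) = 0 := by linear_combination ha.2 - hc.2
    have e3 := (mul_eq_zero.1 e1).resolve_left (sub_ne_zero.2 hab)
    have e4 := (mul_eq_zero.1 e2).resolve_left (sub_ne_zero.2 hac)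
    apply hbc
    linear_combination e3 - e4
  have h5 : P.card ≤ 2 * (P.image φ).card := card_le_mul_card_image P 2 hfib
  -- the number of parameters
  have h6 : ((q : ℝ) - 1) * (q * ((q - 1) * (q ^ 2 / 3))) ≤ P.card := by
    have e1 : P.card = ∑ a : κ, ∑ b : κ, ∑ c : κ, ∑ de : κ × κ,
        if (a ≠ 0 ∧ c ≠ 0 ∧ ¬ (Rt (⟨de.1, de.2, c ^ 2⟩ : Cub κ)).Nonempty) then 1 else 0 := by
      rw [hP, card_filter, Fintype.sum_prod_type]
      apply sum_congr rfl
      intro a _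
      rw [Fintype.sum_prod_type]
      apply sum_congr rfl
      intro b _
      rw [Fintype.sum_prod_type]
    have e2 : ∀ a c : κ, a ≠ 0 → c ≠ 0 → (q ^ 2 : ℝ) / 3 ≤ ((∑ de : κ × κ,
        if (a ≠ 0 ∧ c ≠ 0 ∧ ¬ (Rt (⟨de.1, de.2, c ^ 2⟩ : Cub κ)).Nonempty) then 1 else 0 : ℕ) : ℝ) := by
      intro a c ha hc
      have k1 := card_rooted (κ := κ) (pow_ne_zero 2 hc)
      have k2 : (∑ de : κ × κ, if (a ≠ 0 ∧ c ≠ 0 ∧ ¬ (Rt (⟨de.1, de.2, c ^ 2⟩ : Cub κ)).Nonempty) then 1 else 0 : ℕ) =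
          ((univ : Finset (κ × κ)).filter (fun x => ¬ (Rt (⟨x.1, x.2, c ^ 2⟩ : Cub κ)).Nonempty)).card := by
        rw [card_filter]
        apply sum_congr rfl
        intro x _
        simp [ha, hc]
      rw [k2]
      have k3 := card_filter_add_card_filter_not (s := (univ : Finset (κ × κ)))
        (fun x => (Rt (⟨x.1, x.2, c ^ 2⟩ : Cub κ)).Nonempty)
      rw [card_univ, Fintype.card_prod, ← hq] at k3
      have k4 : q ^ 2 ≤ 3 * ((univ : Finset (κ × κ)).filter (fun x => ¬ (Rt (⟨x.1, x.2, c ^ 2⟩ : Cub κ)).Nonempty)).card := by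
        rw [← hq] at k1
        have : 1 ≤ q ^ 2 := Nat.one_le_pow _ _ (by omega)
        have : q * q = q ^ 2 := by ring
        omega
      have k5 : (q : ℝ) ^ 2 ≤ 3 * (((univ : Finset (κ × κ)).filter
        (fun x => ¬ (Rt (⟨x.1, x.2, c ^ 2⟩ : Cub κ)).Nonempty)).card : ℝ) := by exact_mod_cast k4
      linarith
    rw [e1]
    push_cast
    have e3 : ∀ a c : κ, (if a ≠ 0 then (if c ≠ 0 then (q ^ 2 : ℝ) / 3 else 0) else 0) ≤ ∑ de : κ × κ,
        (if (a ≠ 0 ∧ c ≠ 0 ∧ ¬ (Rt (⟨de.1, de.2, c ^ 2⟩ : Cub κ)).Nonempty) then (1 : ℝ) else 0) := by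
      intro a c
      split_ifs with ha hc
      · have := e2 a c ha hc
        push_cast at this
        exact this
      · exact sum_nonneg fun _ _ => by split_ifs <;> norm_num
      · exact sum_nonneg fun _ _ => by split_ifs <;> norm_num
    refine le_trans ?_ (sum_le_sum fun a _ => sum_le_sum fun b _ => sum_le_sum fun c _ => e3 a c)
    apply le_of_eq
    have e4 : ∀ r : ℝ, ∑ c : κ, (if c ≠ 0 then r else 0) = (q - 1) * r := by
      intro r
      rw [← sum_filter, sum_const, filter_ne', card_erase_of_mem (mem_univ _), card_univ, ← hq, nsmul_eq_mul,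
        Nat.cast_sub (by omega)]
      norm_num
    have e5 : ∀ a : κ, ∑ b : κ, ∑ c : κ, (if a ≠ 0 then (if c ≠ 0 then (q ^ 2 : ℝ) / 3 else 0) else 0) =
        if a ≠ 0 then (q : ℝ) * ((q - 1) * (q ^ 2 / 3)) else 0 := by
      intro a
      split_ifs with ha
      · rw [sum_const, e4, card_univ, ← hq, nsmul_eq_mul]
      · simp
    rw [sum_congr rfl fun a _ => e5 a, e4]
  -- conclusion
  have h7 : (P.image φ).card + (BadR κ).card ≤ Fintype.card (Q4 κ) := by
    rw [← card_union_of_disjoint]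
    · exact card_le_univ _
    · rw [disjoint_left]
      intro g hg
      rw [mem_image] at hg
      obtain ⟨x, hx, rfl⟩ := hg
      exact hgood x hx
  rw [card_Q4, ← hq] at h7
  have h8 : (P.card : ℝ) ≤ 2 * ((P.image φ).card : ℝ) := by exact_mod_cast h5
  have h9 : ((P.image φ).card : ℝ) + ((BadR κ).card : ℝ) ≤ (q : ℝ) ^ 5 := by exact_mod_cast h7
  have hqr : (3 : ℝ) ≤ q := by exact_mod_cast hq3
  have h10 : (4 / 27 : ℝ) * (q : ℝ) ^ 5 ≤ ((q : ℝ) - 1) * (q * ((q - 1) * (q ^ 2 / 3))) := by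
    have e1 : ((q : ℝ) - 1) * (q * ((q - 1) * (q ^ 2 / 3))) = (q : ℝ) ^ 3 * ((q : ℝ) - 1) ^ 2 / 3 := by ring
    have e2 : (4 / 27 : ℝ) * (q : ℝ) ^ 5 = (q : ℝ) ^ 3 * ((4 / 27) * (q : ℝ) ^ 2) := by ring
    rw [e1, e2, mul_div_assoc]
    apply mul_le_mul_of_nonneg_left _ (by positivity)
    nlinarith
  linarith

end field

end Pool.Agent.H456.BQ
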