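import Pool.Agent.H456.BQ.Lim
import Pool.Agent.H456.BQ.Root

/-!
# The exceptional cubics are negligible
-/

set_option autoImplicit false
set_option linter.all false

open Polynomial Finset Filter
open Pool.Agent.H456.RN
open Pool.Agent.H456.EC (toK toK_inj)

namespace Pool.Agent.H456.BQ

open Classical in
theorem card_BadR' (κ : Type) [CommRing κ] [Fintype κ] (hκ : IsField κ) (h2 : (2 : κ) ≠ 0) :
    (((univ : Finset (Q4 κ)).filter (fun g => ∃ r, g.res.ev r = 0)).card : ℝ) ≤ 25 / 27 * (Fintype.card κ : ℝ) ^ 5 := by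
  letI := hκ.toField
  have h := card_BadR (κ := κ) h2
  unfold BadR at h
  convert h using 3

/-- the invariant of degree two -/
def Cub.c4 {R : Type*} [CommRing R] (f : Cub R) : R := f.a ^ 2 - 3 * f.b

/-- the invariant of degree three -/
def Cub.c6 {R : Type*} [CommRing R] (f : Cub R) : R := -2 * f.a ^ 3 + 9 * f.a * f.b - 27 * f.c

theorem Cub.c4_tr {R : Type*} [CommRing R] (f : Cub R) (r : R) : (f.tr r).c4 = f.c4 := by
  simp only [Cub.c4, Cub.tr]; ring

theorem Cub.c6_tr {R : Type*} [CommRing R] (f : Cub R) (r : R) : (f.tr r).c6 = f.c6 := by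
  simp only [Cub.c6, Cub.tr]; ring

theorem Cub.c4_sc {R : Type*} [CommRing R] (f : Cub R) (k : R) : (f.sc k).c4 = k ^ 2 * f.c4 := by
  simp only [Cub.c4, Cub.sc]; ring

theorem Cub.c6_sc {R : Type*} [CommRing R] (f : Cub R) (k : R) : (f.sc k).c6 = k ^ 3 * f.c6 := by
  simp only [Cub.c6, Cub.sc]; ring

variable {F : Type} [Field F]

/-- the exceptional cubics -/
def BadC (f : Cub F[X]) : Prop := (f.c4 = 0 ∨ f.c6 = 0) ∨ ∃ r : RatFunc F, (f.map (toK F)).ev r = 0

theorem four_ne (h2 : (2 : F) ≠ 0) : (4 : F[X]) ≠ 0 := by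
  have : (4 : F[X]) = C ((2 : F) ^ 2) := by
    rw [C_pow, C_ofNat]; norm_num
  rw [this]
  exact C_ne_zero.2 (pow_ne_zero _ h2)

theorem Cub.ev_sc {R : Type*} [CommRing R] (f : Cub R) (k x : R) : (f.sc k).ev (k * x) = k ^ 3 * f.ev x := by
  simp only [Cub.ev, Cub.sc]; ring

theorem BadC_of (h2 : (2 : F) ≠ 0) {f : Cub F[X]} {ρ : F[X]} (h : BadC f) : BadC ((f.sc 4).tr ρ) := by
  rcases h with (h | h) | ⟨r, h⟩
  · left; left; rw [Cub.c4_tr, Cub.c4_sc, h, mul_zero]
  · left; right; rw [Cub.c6_tr, Cub.c6_sc, h, mul_zero]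
  · right
    refine ⟨toK F 4 * r - toK F ρ, ?_⟩
    rw [Cub.map_tr, Cub.map_sc, Cub.ev_tr, sub_add_cancel, Cub.ev_sc, h, mul_zero]

theorem infinite_Pl : Infinite (Pl F) := by
  rw [← not_finite_iff_infinite]
  intro hfin
  have := Fintype.ofFinite (Pl F)
  set m : F[X] := X * ∏ P : Pl F, P.1 + 1 with hm
  have h1 : ¬ IsUnit m := by
    intro hu
    have h2 := natDegree_eq_zero_of_isUnit hu
    have hM : (∏ P : Pl F, P.1 : F[X]).Monic := monic_prod_of_monic _ _ (fun P _ => P.2.1)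
    have h3 : (X * ∏ P : Pl F, P.1 : F[X]).natDegree = 1 + (∏ P : Pl F, P.1 : F[X]).natDegree := by
      rw [natDegree_mul X_ne_zero hM.ne_zero, natDegree_X]
    have h4 : m.natDegree = (X * ∏ P : Pl F, P.1 : F[X]).natDegree := by
      rw [hm]
      apply natDegree_add_eq_left_of_natDegree_lt
      rw [h3, natDegree_one]
      omega
    omega
  obtain ⟨P, hP, hi, hd⟩ := Polynomial.exists_monic_irreducible_factor _ h1
  have h3 : P ∣ X * ∏ Q : Pl F, Q.1 := by
    apply Dvd.dvd.mul_left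
    exact dvd_prod_of_mem (fun Q : Pl F => Q.1) (mem_univ (⟨P, hP, hi⟩ : Pl F))
  rw [hm] at hd
  have h4 := (dvd_add_right h3).1 hd
  exact hi.not_isUnit (isUnit_of_dvd_one h4)

theorem root_int {f : Cub F[X]} {r : RatFunc F} (h : (f.map (toK F)).ev r = 0) : ∃ r' : F[X], f.ev r' = 0 := by
  simp only [Cub.ev, Cub.map] at h
  have h1 : IsIntegral F[X] r := by
    refine ⟨X ^ 3 + C f.a * X ^ 2 + C f.b * X + C f.c, ?_, ?_⟩
    · have : (X ^ 3 + C f.a * X ^ 2 + C f.b * X + C f.c : F[X][X]) =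
        X ^ 3 + (C f.a * X ^ 2 + C f.b * X + C f.c) := by ring
      rw [this]
      apply monic_X_pow_add
      compute_degree!
    · rw [eval₂_add, eval₂_add, eval₂_add, eval₂_mul, eval₂_mul, eval₂_pow, eval₂_pow, eval₂_X, eval₂_C, eval₂_C,
        eval₂_C]
      exact h
  obtain ⟨r', hr⟩ := IsIntegrallyClosed.algebraMap_eq_of_integral h1
  change toK F r' = r at hr
  refine ⟨r', toK_inj ?_⟩
  rw [map_zero, ← h, ← hr]
  simp only [Cub.ev, map_add, map_mul, map_pow]

theorem Cub.map_ev {R S : Type*} [CommRing R] [CommRing S] (φ : R →+* S) (f : Cub R) (x : R) :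
    (f.map φ).ev (φ x) = φ (f.ev x) := by
  simp [Cub.map, Cub.ev]

variable [Fintype F]

theorem isField_Rq (P : Pl F) : IsField (Rq (P.1 ^ 1)) := by
  rw [← Ideal.Quotient.maximal_ideal_iff_isField_quotient, pow_one]
  exact PrincipalIdealRing.isMaximal_of_irreducible P.2.2

theorem two_ne_Rq (h2 : (2 : F) ≠ 0) (P : Pl F) (M : ℕ) (hM : M ≠ 0) : (2 : Rq (P.1 ^ M)) ≠ 0 := by
  have e : (2 : Rq (P.1 ^ M)) = Ideal.Quotient.mk _ (C 2) := by rw [C_ofNat]; rfl
  rw [e, Ne, mk_zero]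
  intro h
  have h3 : (C (2 : F) : F[X]) ≠ 0 := C_ne_zero.2 h2
  have h4 := natDegree_le_of_dvd h h3
  rw [natDegree_pow, natDegree_C] at h4
  have := P.2.2.natDegree_pos
  have : 0 < M * P.1.natDegree := by positivity
  omega

/-- a root of the resolvent gives roots at all places -/
theorem root_at {S : Finset (Pl F)} {M n e : ℕ} {G : Q4 F[X]} {r : RatFunc F}
    (h : (G.res.map (toK F)).ev r = 0) (P : S) : ∃ r', ((redV S M n e G).at P).res.ev r' = 0 := by
  obtain ⟨r', hr'⟩ := root_int h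
  refine ⟨Ideal.Quotient.mk _ r', ?_⟩
  have e1 : (redV S M n e G).at P = G.map (Ideal.Quotient.mk (Ideal.span {P.1.1 ^ M})) := rfl
  rw [e1, Q4.map_res, Cub.map_ev, hr', map_zero]

open Classical in
theorem AV_root (h2 : (2 : F) ≠ 0) (S : Finset (Pl F)) {n e : ℕ} (he : e ≤ n) (hN : dS S 1 ≤ 2 * n - 2 * e + 1) :
    AV n e (fun G : Q4 F[X] => if ∃ r : RatFunc F, (G.res.map (toK F)).ev r = 0 then (1 : ℝ) else 0) ≤
      (25 / 27 : ℝ) ^ S.card := by
  have hq2 : 2 ≤ (Fintype.card F : ℝ) := q_ge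
  have hq0 : (0 : ℝ) < Fintype.card F := by linarith
  set φ : (P : S) → Q4 (Rq (P.1.1 ^ 1)) → ℝ := fun P g => if ∃ r, g.res.ev r = 0 then 1 else 0 with hφ
  have h1 : AV n e (fun G : Q4 F[X] => if ∃ r : RatFunc F, (G.res.map (toK F)).ev r = 0 then (1 : ℝ) else 0) ≤
      AV n e (fun G => (∏ P : S, φ P ((redV S 1 n e G).at P)) * 1) := by
    apply AV_mono
    intro G _
    split_ifs with h
    · obtain ⟨r, hr⟩ := h
      rw [mul_one]
      apply le_of_eq
      symm
      apply prod_eq_one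
      intro P _
      rw [hφ]
      simp only
      rw [if_pos (root_at hr P)]
    · apply mul_nonneg _ zero_le_one
      apply prod_nonneg
      intro P _
      rw [hφ]
      simp only
      split_ifs <;> norm_num
  refine h1.trans ?_
  unfold AV
  have h3 := sum_redV S 1 n e he hN (fun g => (∏ P : S, φ P (g.at P)) * 1)
  rw [h3, sum_split S 1 φ (fun _ => 1)]
  rw [div_le_iff₀ (by positivity)]
  have h4 : ∀ P : S, ∑ g, φ P g ≤ 25 / 27 * ((Fintype.card F : ℝ) ^ (1 * P.1.1.natDegree)) ^ 5 := by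
    intro P
    have h5 := card_BadR' (Rq (P.1.1 ^ 1)) (isField_Rq P.1) (two_ne_Rq h2 P.1 1 one_ne_zero)
    have h6 : (Fintype.card (Rq (P.1.1 ^ 1)) : ℝ) = (Fintype.card F : ℝ) ^ (1 * P.1.1.natDegree) := by
      rw [← Nat.card_eq_fintype_card, card_Rq (P.1.2.1.pow 1), natDegree_pow]
      push_cast
      rfl
    rw [h6] at h5
    refine le_trans (le_of_eq ?_) h5
    rw [hφ]
    simp only
    rw [← sum_filter, sum_const, nsmul_eq_mul, mul_one]
  have h5 : ∑ g : Q4 (Rq ((X : F[X]) ^ 1)), (1 : ℝ) = ((Fintype.card F : ℝ) ^ 1) ^ 5 := by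
    rw [sum_const, card_univ, card_Q4, ← Nat.card_eq_fintype_card, card_Rq (monic_X.pow 1), natDegree_pow, natDegree_X,
      nsmul_eq_mul, mul_one]
    push_cast
    rfl
  rw [h5]
  have h6 : ∏ P : S, ∑ g, φ P g ≤ ∏ P : S, (25 / 27 * ((Fintype.card F : ℝ) ^ (1 * P.1.1.natDegree)) ^ 5) := by
    apply Finset.prod_le_prod
    · intro P _
      apply sum_nonneg
      intro g _
      rw [hφ]
      simp only
      split_ifs <;> norm_num
    · intro P _
      exact h4 P
  refine (mul_le_mul_of_nonneg_right h6 (by positivity)).trans (le_of_eq ?_)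
  rw [prod_mul_distrib, prod_const, card_univ, Fintype.card_coe, prod_pow, prod_pow_eq_pow_sum]
  have h7 : ∑ P : S, 1 * P.1.1.natDegree = ∑ P ∈ S, 1 * P.1.natDegree := sum_coe_sort S (fun P => 1 * P.1.natDegree)
  rw [h7, mul_assoc, ← pow_mul, ← pow_mul, ← pow_add]
  congr 2
  unfold dS
  ring

end Pool.Agent.H456.BQ
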