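import Pool.Agent.H456.BQ.Oi

/-!
# The quartic of bounded degrees attached to a point of `y² = f(x)` over `F(t)`
-/

set_option autoImplicit false

open Polynomial
open Pool.Agent.H456.EC (toK toK_inj sig toK_eq reflect_toK)

namespace Pool.Agent.H456.BQ

variable {F : Type} [Field F]

theorem frac_toK (x : RatFunc F) : ∃ p q : F[X], q.Monic ∧ IsCoprime p q ∧ toK F q * x = toK F p := by
  refine ⟨x.num, x.denom, RatFunc.monic_denom x, RatFunc.isCoprime_num_denom x, ?_⟩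
  have h3 := RatFunc.num_div_denom x
  have hβ' : toK F x.denom ≠ 0 := (map_ne_zero_iff _ toK_inj).2 (RatFunc.denom_ne_zero x)
  rw [div_eq_iff hβ'] at h3
  rw [mul_comm]
  exact h3.symm

theorem sig_inj : Function.Injective (sig F) := by
  rw [injective_iff_map_eq_zero]
  intro f hf
  have h := reflect_toK (N := f.natDegree) (f := f) le_rfl
  rw [hf, mul_zero, map_eq_zero_iff _ toK_inj, reflect_eq_zero_iff] at h
  exact h

/-- from any fraction to a reduced fraction with monic denominator -/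
theorem frac_of {K : Type} [Field K] (φ : F[X] →+* K) (hφ : Function.Injective φ) (x : K)
    (h : ∃ p q : F[X], q ≠ 0 ∧ φ q * x = φ p) : ∃ p q : F[X], q.Monic ∧ IsCoprime p q ∧ φ q * x = φ p := by
  classical
  obtain ⟨p, q, hq, e⟩ := h
  set d := EuclideanDomain.gcd p q with hd
  have hd0 : d ≠ 0 := by
    intro h0
    exact hq (EuclideanDomain.gcd_eq_zero_iff.1 h0).2
  obtain ⟨p', hp'⟩ := EuclideanDomain.gcd_dvd_left p q
  obtain ⟨q', hq'⟩ := EuclideanDomain.gcd_dvd_right p q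
  rw [← hd] at hp' hq'
  have hq0 : q' ≠ 0 := by
    rintro rfl
    rw [mul_zero] at hq'
    exact hq hq'
  have hc : IsCoprime p' q' := by
    have hb := EuclideanDomain.gcd_eq_gcd_ab p q
    rw [← hd] at hb
    refine ⟨EuclideanDomain.gcdA p q, EuclideanDomain.gcdB p q, ?_⟩
    apply mul_left_cancel₀ hd0
    linear_combination -hb - EuclideanDomain.gcdA p q * hp' - EuclideanDomain.gcdB p q * hq'
  have hl : q'.leadingCoeff ≠ 0 := leadingCoeff_ne_zero.2 hq0
  refine ⟨C q'.leadingCoeff⁻¹ * p', C q'.leadingCoeff⁻¹ * q', ?_, ?_, ?_⟩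
  · rw [mul_comm]
    exact monic_mul_leadingCoeff_inv hq0
  · have hu : IsUnit (C q'.leadingCoeff⁻¹ : F[X]) := by
      rw [isUnit_C]; exact (inv_ne_zero hl).isUnit
    exact (isCoprime_mul_unit_left hu _ _).2 hc
  · rw [hp', hq', map_mul, map_mul] at e
    have hd' : φ d ≠ 0 := (map_ne_zero_iff φ hφ).2 hd0
    rw [map_mul, map_mul]
    apply mul_left_cancel₀ hd'
    linear_combination φ (C q'.leadingCoeff⁻¹) * e

theorem frac_sig (x : RatFunc F) : ∃ p q : F[X], q.Monic ∧ IsCoprime p q ∧ sig F q * x = sig F p := by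
  apply frac_of _ sig_inj
  obtain ⟨p, q, hq, -, e⟩ := frac_toK x
  set N := max p.natDegree q.natDegree with hN
  refine ⟨reflect N p, reflect N q, ?_, ?_⟩
  · rw [Ne, reflect_eq_zero_iff]; exact hq.ne_zero
  · have r : ∀ f : F[X], f.natDegree ≤ N → toK F f = RatFunc.X ^ N * sig F (reflect N f) := by
      intro f hf
      rw [← reflect_toK (by
        have := natDegree_reflect_le (N := N) (p := f)
        rwa [max_eq_left hf] at this), reflect_reflect]
    rw [r p (le_max_left _ _), r q (le_max_right _ _)] at e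
    have hX : (RatFunc.X : RatFunc F) ^ N ≠ 0 := pow_ne_zero _ RatFunc.X_ne_zero
    apply mul_left_cancel₀ hX
    linear_combination e

/-- `deg a ≤ 2n`, `deg b ≤ 4n`, `deg c ≤ 6n` -/
def CDg (n : ℕ) (f : Cub F[X]) : Prop := f.a.natDegree ≤ 2 * n ∧ f.b.natDegree ≤ 4 * n ∧ f.c.natDegree ≤ 6 * n

/-- the cubic in the coordinate at infinity -/
noncomputable def crev (n : ℕ) (f : Cub F[X]) : Cub F[X] :=
  ⟨reflect (2 * n) f.a, reflect (4 * n) f.b, reflect (6 * n) f.c⟩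

theorem crev_map {n : ℕ} {f : Cub F[X]} (h : CDg n f) :
    (crev n f).map (sig F) = (f.map (toK F)).sc (tt F (-(n : ℤ)) ^ 2) := by
  have r : ∀ (N : ℕ) (g : F[X]), g.natDegree ≤ N → sig F (reflect N g) = tt F (-(N : ℤ)) * toK F g := by
    intro N g hg
    have e : toK F g = RatFunc.X ^ N * sig F (reflect N g) := by
      rw [← reflect_toK (by
        have := natDegree_reflect_le (N := N) (p := g)
        rwa [max_eq_left hg] at this), reflect_reflect]
    rw [e, ← tt_nat, ← mul_assoc, tt_neg, one_mul]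
  have t1 : ∀ (l : ℤ) (k : ℕ), tt F l ^ k = tt F (k * l) := by
    intro l k
    unfold tt
    rw [← zpow_natCast, ← zpow_mul, mul_comm]
  ext <;> simp only [crev, Cub.map, Cub.sc]
  · rw [r _ _ h.1, t1]
    congr 2; push_cast; ring
  · rw [r _ _ h.2.1, ← pow_mul, t1]
    congr 2; push_cast; ring
  · rw [r _ _ h.2.2, ← pow_mul, t1]
    congr 2; push_cast; ring

theorem gp_sc {K : Type*} [CommRing K] (f : Cub K) (x y κ : K) :
    gp (f.sc (κ ^ 2)) (κ ^ 2 * x) (κ ^ 3 * y) = (gp f x y).sub ⟨1, 0, 0, κ⟩ := by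
  ext <;> simp only [gp, Cub.sc, Q4.sub] <;> ring

/-- the quartic over `Oi` at infinity -/
theorem canon_inf {n : ℕ} {f : Cub F[X]} (h : CDg n f) {x y : RatFunc F} (hxy : y ^ 2 = (f.map (toK F)).ev x) :
    ∃ (s m : F[X]) (G : Q4 F[X]), s ≠ 0 ∧ IsCoprime s m ∧ G.A = s ^ 2 ∧ G.B = -(4 * m) ∧
      (gp (f.map (toK F)) x y).sub ⟨sig F s, -(sig F m / sig F s), 0, tt F (-(n : ℤ))⟩ =
        (G.map (sig F)).smul (tt F (2 * n) * (⟨sig F s, -(sig F m / sig F s), 0, tt F (-(n : ℤ))⟩ : M2 _).det ^ 2) := by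
  set κ := tt F (-(n : ℤ)) with hκ
  have hκ0 : κ ≠ 0 := tt_ne _
  have e1 : (κ ^ 3 * y) ^ 2 = ((crev n f).map (sig F)).ev (κ ^ 2 * x) := by
    rw [crev_map h, ← hκ]
    simp only [Cub.ev, Cub.sc] at hxy ⊢
    linear_combination κ ^ 6 * hxy
  obtain ⟨s, m, G, h1, h2, h3, h4, h5⟩ := canon (sig F) sig_inj frac_sig (crev n f) e1
  refine ⟨s, m, G, h1, h2, h3, h4, ?_⟩
  rw [crev_map h, ← hκ, gp_sc, Q4.sub_mul] at h5
  have e2 : (⟨1, 0, 0, κ⟩ : M2 (RatFunc F)).mul ⟨sig F s, -(sig F m / sig F s), 0, 1⟩ =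
      ⟨sig F s, -(sig F m / sig F s), 0, κ⟩ := by
    ext <;> simp only [M2.mul] <;> ring
  rw [e2] at h5
  rw [h5]
  congr 1
  simp only [M2.det]
  have : tt F (2 * (n : ℤ)) * κ ^ 2 = 1 := by
    rw [hκ, pow_two, ← tt_add, ← tt_add]
    have : 2 * (n : ℤ) + (-n + -n) = 0 := by ring
    rw [this, tt_zero]
  linear_combination (-(sig F s) ^ 2) * this

/-- a quartic with coefficients in the image of `sig` has coefficients in `Oi` -/
theorem exists_Oi (G : Q4 F[X]) : ∃ G' : Q4 (Oi F), G'.map (Oi F).subtype = G.map (sig F) :=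
  ⟨⟨⟨_, sig_mem G.A⟩, ⟨_, sig_mem G.B⟩, ⟨_, sig_mem G.C⟩, ⟨_, sig_mem G.D⟩, ⟨_, sig_mem G.E⟩⟩, rfl⟩

/-- `G` is equivalent over `F(t)` to the quartic of the point `(x, y)` -/
def Eqv (f : Cub F[X]) (x y : RatFunc F) (G : Q4 F[X]) : Prop :=
  ∃ M : M2 (RatFunc F), M.det ≠ 0 ∧ (gp (f.map (toK F)) x y).sub M = (G.map (toK F)).smul (M.det ^ 2)

/-- **the quartic of bounded degrees** -/
theorem exists_model {n : ℕ} {f : Cub F[X]} (h : CDg n f) {x y : RatFunc F}
    (hxy : y ^ 2 = (f.map (toK F)).ev x) : ∃ (e : ℕ) (G : Q4 F[X]), Bd n e G ∧ Eqv f x y G := by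
  obtain ⟨s, m, G, hs, -, -, -, h5⟩ := canon (toK F) toK_inj frac_toK f hxy
  obtain ⟨s', m', G', hs', -, -, -, h5'⟩ := canon_inf h hxy
  obtain ⟨Gi, hGi⟩ := exists_Oi G'
  have hsK : toK F s ≠ 0 := (map_ne_zero_iff _ toK_inj).2 hs
  have hsK' : sig F s' ≠ 0 := (map_ne_zero_iff _ sig_inj).2 hs'
  have hN : (⟨toK F s, -(toK F m / toK F s), 0, 1⟩ : M2 (RatFunc F)).det = toK F s := by
    simp only [M2.det]; ring
  have hNi : (⟨sig F s', -(sig F m' / sig F s'), 0, tt F (-(n : ℤ))⟩ : M2 (RatFunc F)).det ≠ 0 := by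
    simp only [M2.det, mul_zero, sub_zero]
    exact mul_ne_zero hsK' (tt_ne _)
  rw [← hGi] at h5'
  have h6 : (gp (f.map (toK F)) x y).sub ⟨toK F s, -(toK F m / toK F s), 0, 1⟩ =
      (G.map (toK F)).smul ((⟨toK F s, -(toK F m / toK F s), 0, 1⟩ : M2 (RatFunc F)).det ^ 2) := by
    rw [h5, hN]
  obtain ⟨U, Y, l₁, l₂, D, hl, hU, hD, hNY, -, -, -, -, -, -, hB⟩ := glue (by rw [hN]; exact hsK) hNi h6 h5'
  refine ⟨l₂ - l₁, G.sub U, hB, (⟨toK F s, -(toK F m / toK F s), 0, 1⟩ : M2 (RatFunc F)).mul (U.map (toK F)), ?_, ?_⟩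
  · rw [M2.det_mul, hN, M2.map_det, hU, map_one, mul_one]; exact hsK
  · rw [← Q4.sub_mul, h6, Q4.smul_sub, Q4.map_sub, M2.det_mul, M2.map_det, hU, map_one, mul_one]

end Pool.Agent.H456.BQ
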