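import Pool.Agent.H456.BQ.Rep
import Pool.Agent.H456.BQ.Mod
import Pool.Agent.H456.RN.PL

/-!
# The pairs `(G, ρ)` attached to a class modulo doubles
-/

set_option autoImplicit false

open Polynomial Finset
open Pool.Agent.H456.EC (toK toK_inj)
open Pool.Agent.H456.RN

namespace Pool.Agent.H456.BQ

section

variable {F : Type} [Field F]

theorem two_ne (h2 : (2 : F) ≠ 0) : (2 : RatFunc F) ≠ 0 := by
  have h : (2 : RatFunc F) = RatFunc.C 2 := (map_ofNat RatFunc.C 2).symm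
  rw [h]
  exact (map_ne_zero_iff _ RatFunc.C_injective).2 h2

theorem disc_ne {f : Cub F[X]} (hf : f.disc ≠ 0) : (f.map (toK F)).disc ≠ 0 := by
  rw [Cub.map_disc]
  exact (map_ne_zero_iff _ toK_inj).2 hf

/-- the curve over `F(t)` -/
noncomputable abbrev cK (f : Cub F[X]) : WeierstrassCurve (RatFunc F) := crv (f.map (toK F))

/-- the point with given coordinates -/
noncomputable def pK (h2 : (2 : F) ≠ 0) {f : Cub F[X]} (hf : f.disc ≠ 0) {x y : RatFunc F}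
    (h : y ^ 2 = (f.map (toK F)).ev x) : (cK f).toAffine.Point :=
  @pt (RatFunc F) _ (f.map (toK F)) (disc_ne hf) (two_ne h2) x y h

theorem exists_pK (h2 : (2 : F) ≠ 0) {f : Cub F[X]} (hf : f.disc ≠ 0) {P : (cK f).toAffine.Point} (hP : P ≠ 0) :
    ∃ (x y : RatFunc F) (h : y ^ 2 = (f.map (toK F)).ev x), P = pK h2 hf h :=
  @exists_pt (RatFunc F) _ (f.map (toK F)) (disc_ne hf) (two_ne h2) P hP

open Classical in
/-- the points modulo doubles -/
noncomputable abbrev Q2 (f : Cub F[X]) : Type := (cK f).toAffine.Point ⧸ dbl (f.map (toK F))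

open Classical in
/-- the class modulo doubles of a point -/
noncomputable def kP (h2 : (2 : F) ≠ 0) {f : Cub F[X]} (hf : f.disc ≠ 0) {x y : RatFunc F}
    (h : y ^ 2 = (f.map (toK F)).ev x) : Q2 f := QuotientAddGroup.mk (pK h2 hf h)

theorem exists_kP (h2 : (2 : F) ≠ 0) {f : Cub F[X]} (hf : f.disc ≠ 0) {σ : Q2 f} (hσ : σ ≠ 0) :
    ∃ (x y : RatFunc F) (h : y ^ 2 = (f.map (toK F)).ev x), σ = kP h2 hf h := by
  classical
  obtain ⟨P, rfl⟩ := QuotientAddGroup.mk_surjective σ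
  have hP : P ≠ 0 := by
    rintro rfl
    exact hσ (QuotientAddGroup.mk_zero _)
  obtain ⟨x, y, h, rfl⟩ := exists_pK h2 hf hP
  exact ⟨x, y, h, rfl⟩

theorem kP_zero_of_root (h2 : (2 : F) ≠ 0) {f : Cub F[X]} (hf : f.disc ≠ 0) {x y : RatFunc F}
    (h : y ^ 2 = (f.map (toK F)).ev x) {α γ : RatFunc F} (h5 : ¬ (α = 0 ∧ γ = 0))
    (h4 : (gp (f.map (toK F)) x y).ev α γ = 0) : kP h2 hf h = 0 := by
  classical
  have h6 := @double_of_root (RatFunc F) _ (f.map (toK F)) (disc_ne hf) (two_ne h2) _ x y h α γ h5 h4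
  obtain ⟨X, hX⟩ := h6
  unfold kP pK
  rw [QuotientAddGroup.eq_zero_iff]
  exact ⟨X, hX.symm⟩

/-- `(G, ρ)` represents the class `σ` -/
def Cl (h2 : (2 : F) ≠ 0) {f : Cub F[X]} (hf : f.disc ≠ 0) (σ : Q2 f) : Set (Q4 F[X] × F[X]) :=
  {p | ∃ (x y : RatFunc F) (M : M2 (RatFunc F)) (h : y ^ 2 = (f.map (toK F)).ev x),
    Rep (f.map (toK F)) x y M (p.1.map (toK F)) (toK F p.2) ∧ kP h2 hf h = σ}

theorem Cl_res (h2 : (2 : F) ≠ 0) {f : Cub F[X]} (hf : f.disc ≠ 0) {σ : Q2 f} {p : Q4 F[X] × F[X]}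
    (h : p ∈ Cl h2 hf σ) : p.1.res = (f.sc 4).tr p.2 := by
  obtain ⟨x, y, M, hxy, r, -⟩ := h
  have := r.res hxy
  rw [Q4.map_res] at this
  apply Cub.map_inj (toK F) toK_inj
  rw [this, Cub.map_tr, Cub.map_sc, map_ofNat]

/-- `(G, ρ)` determines the curve -/
theorem Cl_cub (h2 : (2 : F) ≠ 0) {f f' : Cub F[X]} (hf : f.disc ≠ 0) (hf' : f'.disc ≠ 0) {σ : Q2 f} {σ' : Q2 f'}
    {p : Q4 F[X] × F[X]} (h : p ∈ Cl h2 hf σ) (h' : p ∈ Cl h2 hf' σ') : f = f' := by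
  have h1 := Cl_res h2 hf h
  have h1' := Cl_res h2 hf' h'
  rw [h1] at h1'
  have h3 := congrArg (Cub.tr (-p.2)) h1'
  rw [Cub.tr_tr, Cub.tr_tr, add_neg_cancel, Cub.tr_zero, Cub.tr_zero] at h3
  have h4 : (4 : F[X]) ≠ 0 := by
    have : (4 : F[X]) = C ((2 : F) ^ 2) := by
      rw [C_pow, C_ofNat]; norm_num
    rw [this]
    exact C_ne_zero.2 (pow_ne_zero _ h2)
  exact Cub.sc_inj h4 h3

/-- `(G, ρ)` determines the class -/
theorem Cl_inj (h2 : (2 : F) ≠ 0) {f : Cub F[X]} (hf : f.disc ≠ 0) {σ σ' : Q2 f}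
    {p : Q4 F[X] × F[X]} (h : p ∈ Cl h2 hf σ) (h' : p ∈ Cl h2 hf σ') : σ = σ' := by
  classical
  obtain ⟨x, y, M, hxy, r, rfl⟩ := h
  obtain ⟨x', y', M', hxy', r', rfl⟩ := h'
  exact @Rep.class_eq (RatFunc F) _ _ (f.map (toK F)) (disc_ne hf) (two_ne h2) _ _ _ _ _ _ _ _ hxy hxy' r r'

/-- action of a substitution with constant determinant `d` -/
noncomputable def act (p : Q4 F[X] × F[X]) (A : M2 F[X]) (d : F) : Q4 F[X] × F[X] :=
  ((p.1.sub A).smul (C d⁻¹ ^ 2), p.2 + C d⁻¹ ^ 2 * p.1.tau A)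

theorem Cl_act (h2 : (2 : F) ≠ 0) {f : Cub F[X]} (hf : f.disc ≠ 0) {σ : Q2 f}
    {p : Q4 F[X] × F[X]} (h : p ∈ Cl h2 hf σ) {A : M2 F[X]} {d : F} (hd : d ≠ 0) (hA : A.det = C d) :
    act p A d ∈ Cl h2 hf σ := by
  obtain ⟨x, y, M, hxy, r, e⟩ := h
  refine ⟨x, y, M.mul (A.map (toK F)), hxy, ?_, e⟩
  have h1 : toK F (C d⁻¹) * (A.map (toK F)).det = 1 := by
    rw [M2.map_det, hA, ← map_mul, ← C_mul, inv_mul_cancel₀ hd, C_1, map_one]
  have h3 := r.mul h1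
  have e1 : (act p A d).1.map (toK F) = ((p.1.map (toK F)).sub (A.map (toK F))).smul (toK F (C d⁻¹) ^ 2) := by
    rw [act, Q4.map_smul, Q4.map_sub, map_pow]
  have e2 : toK F (act p A d).2 = toK F p.2 + toK F (C d⁻¹) ^ 2 * (p.1.map (toK F)).tau (A.map (toK F)) := by
    rw [act, map_add, map_mul, map_pow, Q4.map_tau]
  rw [e1, e2]
  exact h3

/-- no points of order two -/
def NoTwo (f : Cub F[X]) : Prop := ∀ r : RatFunc F, (f.map (toK F)).ev r ≠ 0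

open Classical in
theorem NoTwo.tors (h2 : (2 : F) ≠ 0) {f : Cub F[X]} (hf : f.disc ≠ 0) (h : NoTwo f)
    (T : (cK f).toAffine.Point) (hT : (2 : ℕ) • T = 0) : T = 0 :=
  @tors_of (RatFunc F) _ _ (f.map (toK F)) (disc_ne hf) (two_ne h2) h T hT

theorem act_inj (h2 : (2 : F) ≠ 0) {f : Cub F[X]} (hf : f.disc ≠ 0) (hn : NoTwo f) {σ : Q2 f}
    {p : Q4 F[X] × F[X]} (h : p ∈ Cl h2 hf σ) {A A' : M2 F[X]} {d d' : F} (hd : d ≠ 0) (hd' : d' ≠ 0)
    (hA : A.det = C d) (hA' : A'.det = C d') (he : act p A d = act p A' d') :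
    ∃ k : RatFunc F, k ≠ 0 ∧ A.map (toK F) = (A'.map (toK F)).scal k := by
  classical
  obtain ⟨x, y, M, hxy, r, e⟩ := h
  have key : ∀ {B : M2 F[X]} {c : F}, c ≠ 0 → B.det = C c →
      Rep (f.map (toK F)) x y (M.mul (B.map (toK F))) ((act p B c).1.map (toK F)) (toK F (act p B c).2) := by
    intro B c hc hB
    have h1 : toK F (C c⁻¹) * (B.map (toK F)).det = 1 := by
      rw [M2.map_det, hB, ← map_mul, ← C_mul, inv_mul_cancel₀ hc, C_1, map_one]
    have h3 := r.mul h1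
    have e1 : (act p B c).1.map (toK F) = ((p.1.map (toK F)).sub (B.map (toK F))).smul (toK F (C c⁻¹) ^ 2) := by
      rw [act, Q4.map_smul, Q4.map_sub, map_pow]
    have e2 : toK F (act p B c).2 = toK F p.2 + toK F (C c⁻¹) ^ 2 * (p.1.map (toK F)).tau (B.map (toK F)) := by
      rw [act, map_add, map_mul, map_pow, Q4.map_tau]
    rw [e1, e2]
    exact h3
  have r1 := key hd hA
  have r2 := key hd' hA'
  rw [← he] at r2
  obtain ⟨k, hk, h3⟩ := @Rep.scalar (RatFunc F) _ _ (f.map (toK F)) (disc_ne hf) (two_ne h2)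
    (hn.tors h2 hf) _ _ _ _ _ _ hxy r1 r2
  refine ⟨k, hk, ?_⟩
  have h4 : M.adj.mul (M.mul (A.map (toK F))) = M.adj.mul ((M.mul (A'.map (toK F))).scal k) := by rw [h3]
  rw [M2.mul_scal, ← M2.mul_assoc, ← M2.mul_assoc, M2.adj_mul] at h4
  have hd := r.det
  have k1 := congrArg M2.α h4
  have k2 := congrArg M2.β h4
  have k3 := congrArg M2.γ h4
  have k4 := congrArg M2.δ h4
  simp only [M2.mul, M2.scal, zero_mul, add_zero, zero_add] at k1 k2 k3 k4
  ext <;> simp only [M2.scal] <;> apply mul_left_cancel₀ hd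
  · linear_combination k1
  · linear_combination k2
  · linear_combination k3
  · linear_combination k4

end

end Pool.Agent.H456.BQ
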