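import Pool.Agent.H456.BQ.Bad2
import Pool.Agent.H456.RN.Orb
import Pool.Graph.R_seed8.Y700.VC

/-!
# From short equations to isomorphism classes
-/

set_option autoImplicit false
set_option linter.all false

open Polynomial WeierstrassCurve Finset Filter
open Pool.Agent.H456.RN
open Pool.Agent.H456.EC

namespace Pool.Agent.H456.BQ

/-- counting orbits with weights -/
theorem orbit_sum {α β G : Type*} [Group G] [MulAction G α] [Finite G] [DecidableEq β] (Ω : Finset α) (π : α → β)
    (hπ : ∀ x ∈ Ω, ∀ y, (y ∈ Ω ∧ π y = π x) ↔ y ∈ MulAction.orbit G x) (w : β → ℝ) :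
    ∑ b ∈ Ω.image π, w b = ∑ x ∈ Ω, w (π x) * ((Nat.card (MulAction.stabilizer G x) : ℝ) / Nat.card G) := by
  classical
  have hG0 : (Nat.card G : ℝ) ≠ 0 := by
    rw [Nat.cast_ne_zero]; exact Nat.card_pos.ne'
  rw [← sum_fiberwise_of_maps_to (g := π) (t := Ω.image π) (fun x hx => mem_image_of_mem _ hx)]
  apply sum_congr rfl
  intro b hb
  obtain ⟨x0, hx0, rfl⟩ := mem_image.1 hb
  have h2 : ∀ x ∈ Ω.filter (fun x => π x = π x0), w (π x) * ((Nat.card (MulAction.stabilizer G x) : ℝ) / Nat.card G) =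
      w (π x0) * ((Ω.filter (fun x => π x = π x0)).card : ℝ)⁻¹ := by
    intro x hx
    rw [mem_filter] at hx
    have h3 : (MulAction.orbit G x : Set α) = ↑(Ω.filter (fun y => π y = π x0)) := by
      ext y
      rw [← hπ x hx.1 y, hx.2]
      simp
    have h4 : Nat.card (MulAction.orbit G x) = (Ω.filter (fun y => π y = π x0)).card := by
      rw [h3, Nat.card_coe_set_eq, Set.ncard_coe_finset]
    have h5 : Nat.card (MulAction.orbit G x) * Nat.card (MulAction.stabilizer G x) = Nat.card G := by
      rw [← Nat.card_prod]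
      exact Nat.card_congr (MulAction.orbitProdStabilizerEquivGroup G x)
    rw [h4] at h5
    have h6 : ((Ω.filter (fun y => π y = π x0)).card : ℝ) * (Nat.card (MulAction.stabilizer G x) : ℝ) =
        Nat.card G := by exact_mod_cast h5
    have h7 : ((Ω.filter (fun y => π y = π x0)).card : ℝ) ≠ 0 := by
      intro h0
      rw [h0, zero_mul] at h6
      exact hG0 h6.symm
    rw [hx.2]
    congr 1
    rw [div_eq_iff hG0, ← h6]
    field_simp
  rw [sum_congr rfl h2, sum_const, nsmul_eq_mul]
  have h8 : ((Ω.filter (fun x => π x = π x0)).card : ℝ) ≠ 0 := by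
    rw [Nat.cast_ne_zero]
    apply card_ne_zero_of_mem (a := x0)
    rw [mem_filter]
    exact ⟨hx0, rfl⟩
  field_simp

section mw

variable {K : Type} [Field K]

open Classical in
/-- the number of elements of `E(K) / 2 E(K)` -/
noncomputable def mw2 (E : WeierstrassCurve K) : ℕ :=
  Nat.card (E.toAffine.Point ⧸ (nsmulAddMonoidHom (α := E.toAffine.Point) 2).range)

theorem card_quot_congr {A B : Type} [AddCommGroup A] [AddCommGroup B] (e : A ≃+ B) :
    Nat.card (A ⧸ (nsmulAddMonoidHom (α := A) 2).range) = Nat.card (B ⧸ (nsmulAddMonoidHom (α := B) 2).range) := by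
  apply Nat.card_congr
  refine (QuotientAddGroup.congr _ _ e ?_).toEquiv
  ext b
  constructor
  · rintro ⟨a, ⟨c, rfl⟩, rfl⟩
    exact ⟨e c, by simp⟩
  · rintro ⟨c, rfl⟩
    refine ⟨(2 : ℕ) • e.symm c, ⟨e.symm c, rfl⟩, ?_⟩
    simp

theorem VR_smul (E : WeierstrassCurve K) (C : VariableChange K) :
    Pool.Agent.Y700.VR E (C • E) (C.u : K) C.r C.s C.t where
  u0 := C.u.ne_zero
  e1 := by
    rw [variableChange_a₁, ← mul_assoc, Units.mul_inv, one_mul]
  e2 := by
    rw [variableChange_a₂, ← mul_assoc, ← mul_pow, Units.mul_inv, one_pow, one_mul]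
  e3 := by
    rw [variableChange_a₃, ← mul_assoc, ← mul_pow, Units.mul_inv, one_pow, one_mul]
  e4 := by
    rw [variableChange_a₄, ← mul_assoc, ← mul_pow, Units.mul_inv, one_pow, one_mul]
  e6 := by
    rw [variableChange_a₆, ← mul_assoc, ← mul_pow, Units.mul_inv, one_pow, one_mul]

/-- isomorphic curves have isomorphic groups -/
noncomputable def pEquiv [DecidableEq K] (E : WeierstrassCurve K) (C : VariableChange K) (h : E.Δ ≠ 0) :
    (C • E).toAffine.Point ≃+ E.toAffine.Point :=
  (VR_smul E C).equiv (by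
    rw [variableChange_Δ]
    exact mul_ne_zero (pow_ne_zero _ (Units.ne_zero _)) h)

theorem mw2_smul (E : WeierstrassCurve K) (C : VariableChange K) (h : E.Δ ≠ 0) : mw2 (C • E) = mw2 E := by
  classical
  unfold mw2
  exact card_quot_congr (pEquiv E C h)

end mw

end Pool.Agent.H456.BQ
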