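import Pool.Agent.H456.BQ.ClsA

/-!
# Sums over minimal equations and sums over minimal cubics
-/

set_option autoImplicit false
set_option linter.all false

open Polynomial WeierstrassCurve Finset Filter
open Pool.Agent.H456.RN
open Pool.Agent.H456.EC

namespace Pool.Agent.H456.BQ

variable {F : Type} [Field F]

theorem dg_crv {n : ℕ} {f : Cub F[X]} : Dg n (crv f) ↔ CDg n f := by
  unfold Dg CDg
  simp only [crv, natDegree_zero]
  constructor
  · rintro ⟨-, h2, -, h4, h6⟩; exact ⟨h2, h4, h6⟩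
  · rintro ⟨h2, h4, h6⟩; exact ⟨Nat.zero_le _, h2, Nat.zero_le _, h4, h6⟩

theorem crv_mem (h2 : (2 : F) ≠ 0) {n : ℕ} {f : Cub F[X]} : crv f ∈ Eqn F n ↔ f.disc ≠ 0 ∧ CDg n f := by
  have h16 : (16 : F[X]) ≠ 0 := by
    have : (16 : F[X]) = C ((2 : F) ^ 4) := by
      rw [C_pow, C_ofNat]; norm_num
    rw [this]
    exact C_ne_zero.2 (pow_ne_zero _ h2)
  unfold Eqn
  rw [Set.mem_ofPred_eq, crv_Δ, dg_crv]
  constructor
  · rintro ⟨h, h'⟩
    exact ⟨right_ne_zero_of_mul h, h'⟩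
  · rintro ⟨h, h'⟩
    exact ⟨mul_ne_zero h16 h, h'⟩

theorem crv_map {R S : Type} [CommRing R] [CommRing S] (φ : R →+* S) (f : Cub R) : (crv f).map φ = crv (f.map φ) := by
  ext <;> simp [crv, Cub.map]

/-- the equation obtained by undoing the completion of the square -/
def lng {R : Type*} [CommRing R] (x : Cub R × R × R) : WeierstrassCurve R := tr 0 x.2.1 x.2.2 • crv x.1

theorem lng_a {R : Type*} [CommRing R] (x : Cub R × R × R) : lng x =
    ⟨2 * x.2.1, x.1.a - x.2.1 ^ 2, 2 * x.2.2, x.1.b - 2 * x.2.1 * x.2.2, x.1.c - x.2.2 ^ 2⟩ := by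
  unfold lng
  ext
  · rw [tr_a₁]; simp only [crv]; ring
  · rw [tr_a₂]; simp only [crv]; ring
  · rw [tr_a₃]; simp only [crv]; ring
  · rw [tr_a₄]; simp only [crv]; ring
  · rw [tr_a₆]; simp only [crv]; ring

theorem two_ne_poly (h2 : (2 : F) ≠ 0) : (2 : F[X]) ≠ 0 := by
  have : (2 : F[X]) = C (2 : F) := (C_ofNat 2).symm
  rw [this]
  exact C_ne_zero.2 h2

theorem lng_inj (h2 : (2 : F) ≠ 0) : Function.Injective (lng (R := F[X])) := by
  intro x y h
  rw [lng_a, lng_a, WeierstrassCurve.mk.injEq] at h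
  obtain ⟨h1, h3, h4, h5, h6⟩ := h
  have e1 := mul_left_cancel₀ (two_ne_poly h2) h1
  have e2 := mul_left_cancel₀ (two_ne_poly h2) h4
  rw [e1] at h3 h5
  rw [e2] at h5 h6
  ext1
  · ext1
    · linear_combination h3
    · linear_combination h5
    · linear_combination h6
  · ext1
    · exact e1
    · exact e2

theorem tr_mem_Gp {n : ℕ} {s t : F[X]} (hs : s.natDegree ≤ n) (ht : t.natDegree ≤ 3 * n) : tr 0 s t ∈ Gp F n := by
  rw [mem_Gp]
  refine ⟨?_, hs, ht⟩
  simp [tr]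

theorem lng_back {R : Type*} [CommRing R] (f : Cub R) (s t : R) : tr 0 (-s) (-t) • lng (f, s, t) = crv f := by
  have := tr_neg (crv f) 0 s t
  rw [neg_zero, zero_mul, zero_sub] at this
  exact this

/-- minimality and completion of the square -/
theorem minAll_lng {n : ℕ} {f : Cub F[X]} {s t : F[X]} (hf : CDg n f) (hs : s.natDegree ≤ n) (ht : t.natDegree ≤ 3 * n) :
    MinAll n (lng (f, s, t)) ↔ MinAll n (crv f) := by
  constructor
  · intro h
    have h1 := minAll_smul (tr_mem_Gp (s := -s) (t := -t) (by rwa [natDegree_neg]) (by rwa [natDegree_neg]))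
      (dg_smul (tr_mem_Gp hs ht) (dg_crv.2 hf)) h
    have h3 := lng_back f s t
    unfold lng at h3
    rw [h3] at h1
    exact h1
  · intro h
    exact minAll_smul (tr_mem_Gp hs ht) (dg_crv.2 hf) h

theorem lng_surj (h2 : (2 : F) ≠ 0) {n : ℕ} {W : WeierstrassCurve F[X]} (hW : W ∈ Eqn F n) :
    ∃ (f : Cub F[X]) (s t : F[X]), CDg n f ∧ s.natDegree ≤ n ∧ t.natDegree ≤ 3 * n ∧ lng (f, s, t) = W := by
  obtain ⟨hΔ, h1, h3, h4, h5, h6⟩ := hW
  have hc : (2 : F[X]) * C ((2 : F)⁻¹) = 1 := by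
    have : (2 : F[X]) = C (2 : F) := (C_ofNat 2).symm
    rw [this, ← C_mul, mul_inv_cancel₀ h2, C_1]
  have hs : (C ((2 : F)⁻¹) * W.a₁).natDegree ≤ n := (natDegree_C_mul_le _ _).trans h1
  have ht : (C ((2 : F)⁻¹) * W.a₃).natDegree ≤ 3 * n := (natDegree_C_mul_le _ _).trans h4
  refine ⟨⟨W.a₂ + (C ((2 : F)⁻¹) * W.a₁) ^ 2, W.a₄ + 2 * ((C ((2 : F)⁻¹) * W.a₁) * (C ((2 : F)⁻¹) * W.a₃)),
    W.a₆ + (C ((2 : F)⁻¹) * W.a₃) ^ 2⟩, C ((2 : F)⁻¹) * W.a₁, C ((2 : F)⁻¹) * W.a₃, ⟨?_, ?_, ?_⟩, hs, ht, ?_⟩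
  · exact nd_add h3 ((nd_pow hs 2).trans (by omega))
  · exact nd_add h5 (nd_mul (nd_ofNat 2 0) (nd_mul hs ht le_rfl) (by omega))
  · exact nd_add h6 ((nd_pow ht 2).trans (by omega))
  · rw [lng_a]
    ext1
    · simp only; linear_combination W.a₁ * hc
    · simp only; ring
    · simp only; linear_combination W.a₃ * hc
    · simp only; ring
    · simp only; ring

variable [Fintype F]

open Classical in
/-- the minimal cubics -/
noncomputable def Msh (F : Type) [Field F] [Fintype F] (n : ℕ) : Finset (Cub F[X]) :=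
  (Sb F n).filter (fun f => f.disc ≠ 0 ∧ MinAll n (crv f))

theorem mem_Msh {n : ℕ} {f : Cub F[X]} : f ∈ Msh F n ↔ CDg n f ∧ f.disc ≠ 0 ∧ MinAll n (crv f) := by
  classical
  unfold Msh
  rw [mem_filter, mem_Sb]

/-- **sums over the minimal equations** -/
theorem sum_OmF (h2 : (2 : F) ≠ 0) {n : ℕ} (φ : WeierstrassCurve F[X] → ℝ)
    (hφ : ∀ f s t, CDg n f → s.natDegree ≤ n → t.natDegree ≤ 3 * n → φ (lng (f, s, t)) = φ (crv f)) :
    ∑ W ∈ OmF F (fun _ _ => True) n, φ W = (Fintype.card F : ℝ) ^ (4 * n + 2) * ∑ f ∈ Msh F n, φ (crv f) := by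
  classical
  have h1 : ∑ W ∈ OmF F (fun _ _ => True) n, φ W =
      ∑ x ∈ Msh F n ×ˢ (PL F (n + 1) ×ˢ PL F (3 * n + 1)), φ (lng x) := by
    symm
    apply sum_bij (fun x _ => lng x)
    · rintro ⟨f, s, t⟩ hx
      rw [mem_product, mem_product, mem_Msh, mem_PL_iff, mem_PL_iff] at hx
      obtain ⟨⟨c1, c2, c3⟩, c4, c5⟩ := hx
      rw [mem_OmF]
      exact ⟨smul_mem (tr_mem_Gp c4 c5) ((crv_mem h2).2 ⟨c2, c1⟩), (minAll_lng c1 c4 c5).2 c3, trivial⟩
    · intro x _ y _ h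
      exact lng_inj h2 h
    · intro W hW
      rw [mem_OmF] at hW
      obtain ⟨f, s, t, c1, c4, c5, rfl⟩ := lng_surj h2 hW.1
      refine ⟨(f, s, t), ?_, rfl⟩
      rw [mem_product, mem_product, mem_Msh, mem_PL_iff, mem_PL_iff]
      refine ⟨⟨c1, ?_, (minAll_lng c1 c4 c5).1 hW.2.1⟩, c4, c5⟩
      have h3 := smul_mem (tr_mem_Gp (s := -s) (t := -t) (by rwa [natDegree_neg]) (by rwa [natDegree_neg])) hW.1
      rw [lng_back] at h3
      exact ((crv_mem h2).1 h3).1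
    · intro x _; rfl
  rw [h1, sum_product, mul_sum]
  apply sum_congr rfl
  intro f hf
  rw [mem_Msh] at hf
  rw [sum_congr rfl (g := fun _ => φ (crv f))]
  · rw [sum_const, card_product, card_PL, card_PL, nsmul_eq_mul]
    push_cast
    rw [← pow_add]
    congr 2
    omega
  · rintro ⟨s, t⟩ hx
    rw [mem_product, mem_PL_iff, mem_PL_iff] at hx
    exact hφ f s t hf.1 hx.1 hx.2

/-- stabilizers and completion of the square -/
theorem st_lng {n : ℕ} {f : Cub F[X]} {s t : F[X]} (hs : s.natDegree ≤ n) (ht : t.natDegree ≤ 3 * n) :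
    st n (lng (f, s, t)) = st n (crv f) := by
  unfold st
  apply Nat.card_congr
  refine (MulAction.stabilizerEquivStabilizerOfOrbitRel ?_).toEquiv
  rw [MulAction.orbitRel_apply]
  exact ⟨⟨tr 0 s t, tr_mem_Gp hs ht⟩, rfl⟩

/-- the class function -/
noncomputable def mwc (κ : MulAction.orbitRel.Quotient (VariableChange (RatFunc F)) (WeierstrassCurve (RatFunc F))) : ℕ :=
  mw2 κ.out

theorem out_cls {W : WeierstrassCurve F[X]} : ∃ C : VariableChange (RatFunc F), C • W.map (toK F) = (cls W).out := by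
  have h1 : (Quotient.mk'' (W.map (toK F)) : MulAction.orbitRel.Quotient (VariableChange (RatFunc F))
      (WeierstrassCurve (RatFunc F))) = Quotient.mk'' (cls W).out := by
    rw [Quotient.out_eq']
    rfl
  rw [Quotient.eq'', MulAction.orbitRel_apply] at h1
  obtain ⟨C, hC⟩ := h1
  refine ⟨C⁻¹, ?_⟩
  have hC' : C • (cls W).out = W.map (toK F) := hC
  rw [← hC', inv_smul_smul]

theorem mwc_cls {W : WeierstrassCurve F[X]} (h : W.Δ ≠ 0) : mwc (cls W) = mw2 (W.map (toK F)) := by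
  obtain ⟨C, hC⟩ := out_cls (W := W)
  unfold mwc
  rw [← hC]
  apply mw2_smul
  rw [map_Δ]
  exact (map_ne_zero_iff _ toK_inj).2 h

theorem mwc_crv (h2 : (2 : F) ≠ 0) {f : Cub F[X]} (hf : f.disc ≠ 0) : mwc (cls (crv f)) = Nat.card (Q2 f) := by
  have h16 : (16 : F[X]) ≠ 0 := by
    have : (16 : F[X]) = C ((2 : F) ^ 4) := by
      rw [C_pow, C_ofNat]; norm_num
    rw [this]
    exact C_ne_zero.2 (pow_ne_zero _ h2)
  rw [mwc_cls, crv_map]
  · rfl
  · rw [crv_Δ]
    exact mul_ne_zero h16 hf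

open Classical in
/-- **sums over the classes of exact height `n`** -/
theorem sum_cls (h2 : (2 : F) ≠ 0) (n : ℕ)
    (w : MulAction.orbitRel.Quotient (VariableChange (RatFunc F)) (WeierstrassCurve (RatFunc F)) → ℝ) :
    ∑ κ ∈ (OmF F (fun _ _ => True) n).image cls, w κ =
      (Fintype.card F : ℝ) ^ (4 * n + 2) / (((Fintype.card F : ℝ) - 1) * (Fintype.card F : ℝ) ^ (6 * n + 3)) *
        ∑ f ∈ Msh F n, w (cls (crv f)) * st n (crv f) := by
  have := finite_Gp (F := F) n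
  rw [orbit_sum (G := Gp F n), card_Gp]
  · have h : 1 ≤ Fintype.card F := Fintype.card_pos
    rw [sum_OmF h2 (n := n) (fun W => w (cls W) * ((Nat.card (MulAction.stabilizer (Gp F n) W) : ℝ) /
      (((Fintype.card F - 1) * Fintype.card F ^ (6 * n + 3) : ℕ) : ℝ)))]
    · rw [div_mul_eq_mul_div, mul_sum, mul_sum, sum_div]
      apply sum_congr rfl
      intro f _
      unfold st
      push_cast [h]
      ring
    · intro f s t hf hs ht
      have h3 := st_lng (f := f) hs ht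
      unfold st at h3
      have h4 : cls (lng (f, s, t)) = cls (crv f) := cls_tr
      rw [h3, h4]
  · intro W hW V
    rw [mem_OmF] at hW
    rw [mem_OmF, ← mem_orbit_iff hW.1 hW.2.1 V]
    constructor
    · rintro ⟨⟨h1, h2, h3⟩, h4⟩
      exact ⟨⟨h1, h2⟩, h4⟩
    · rintro ⟨⟨h1, h2⟩, h4⟩
      exact ⟨⟨h1, h2, trivial⟩, h4⟩

end Pool.Agent.H456.BQ
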