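import Pool.Agent.H456.BQ.ClsB
import Pool.Agent.H456.RN.Stab

/-!
# The average over isomorphism classes
-/

set_option autoImplicit false
set_option linter.all false

open Polynomial WeierstrassCurve Finset Filter
open Pool.Agent.H456.RN
open Pool.Agent.H456.EC

namespace Pool.Agent.H456.BQ

variable {F : Type} [Field F]

theorem cub_tr_inj (h2 : (2 : F) ≠ 0) {f : Cub F[X]} (hc : f.c4 ≠ 0) {r : F[X]} (h : f.tr r = f) : r = 0 := by
  have ha := congrArg Cub.a h
  have hb := congrArg Cub.b h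
  simp only [Cub.tr] at ha hb
  have e1 : 3 * r = 0 := by linear_combination ha
  rcases mul_eq_zero.1 e1 with e | e
  · have e2 : (2 * f.a) * r = 0 := by linear_combination hb - r * e1
    rcases mul_eq_zero.1 e2 with e3 | e3
    · exfalso
      apply hc
      have e4 := (mul_eq_zero.1 e3).resolve_left (two_ne_poly h2)
      unfold Cub.c4
      rw [e4, e]
      ring
    · exact e3
  · exact e

theorem neg_one_ne (h2 : (2 : F) ≠ 0) : (-1 : F[X]ˣ) ≠ 1 := by
  intro h
  have h1 : (-1 : F[X]) = 1 := congrArg (fun x : F[X]ˣ => (x : F[X])) h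
  apply two_ne_poly h2
  linear_combination -h1

/-- the automorphisms of a curve with `c₄ c₆ ≠ 0` -/
theorem stab_crv (h2 : (2 : F) ≠ 0) {f : Cub F[X]} (h4 : f.c4 ≠ 0) (h6 : f.c6 ≠ 0) (C : VariableChange F[X])
    (hC : C • crv f = crv f) : C = 1 ∨ C = ⟨-1, 0, 0, 0⟩ := by
  obtain ⟨u, r, s, t⟩ := C
  rw [smul_eq] at hC
  have h3 : tr r s t • crv f = sc (u : F[X]) (crv f) := by
    have h5 := congrArg (sc (u : F[X])) hC
    rw [sc_sc, Units.mul_inv, sc_one] at h5
    exact h5
  have e1 := congrArg WeierstrassCurve.a₁ h3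
  have e2 := congrArg WeierstrassCurve.a₂ h3
  have e3 := congrArg WeierstrassCurve.a₃ h3
  have e4 := congrArg WeierstrassCurve.a₄ h3
  have e6 := congrArg WeierstrassCurve.a₆ h3
  rw [tr_a₁] at e1
  rw [tr_a₂] at e2
  rw [tr_a₃] at e3
  rw [tr_a₄] at e4
  rw [tr_a₆] at e6
  simp only [sc, crv] at e1 e2 e3 e4 e6
  have hs : s = 0 := by
    have : 2 * s = 0 := by linear_combination e1
    exact (mul_eq_zero.1 this).resolve_left (two_ne_poly h2)
  subst hs
  have ht : t = 0 := by
    have : 2 * t = 0 := by linear_combination e3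
    exact (mul_eq_zero.1 this).resolve_left (two_ne_poly h2)
  subst ht
  have hf : f.tr r = f.sc ((u : F[X]) ^ 2) := by
    ext1
    · simp only [Cub.tr, Cub.sc]; linear_combination e2
    · simp only [Cub.tr, Cub.sc]; linear_combination e4
    · simp only [Cub.tr, Cub.sc]; linear_combination e6
  have k4 := congrArg Cub.c4 hf
  have k6 := congrArg Cub.c6 hf
  rw [Cub.c4_tr, Cub.c4_sc] at k4
  rw [Cub.c6_tr, Cub.c6_sc] at k6
  have u4 : ((u : F[X]) ^ 2) ^ 2 = 1 := by
    have : (((u : F[X]) ^ 2) ^ 2 - 1) * f.c4 = 0 := by linear_combination -k4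
    rcases mul_eq_zero.1 this with h | h
    · linear_combination h
    · exact absurd h h4
  have u6 : ((u : F[X]) ^ 2) ^ 3 = 1 := by
    have : (((u : F[X]) ^ 2) ^ 3 - 1) * f.c6 = 0 := by linear_combination -k6
    rcases mul_eq_zero.1 this with h | h
    · linear_combination h
    · exact absurd h h6
  have u2 : (u : F[X]) ^ 2 = 1 := by
    linear_combination u6 - (u : F[X]) ^ 2 * u4
  rw [u2, Cub.sc_one] at hf
  have hr := cub_tr_inj h2 h4 hf
  subst hr
  have h7 : ((u : F[X]) - 1) * ((u : F[X]) + 1) = 0 := by linear_combination u2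
  rcases mul_eq_zero.1 h7 with h | h
  · left
    rw [VariableChange.one_def]
    have : u = 1 := by
      apply Units.ext
      rw [Units.val_one]
      linear_combination h
    rw [this]
  · right
    have : u = -1 := by
      apply Units.ext
      rw [Units.val_neg, Units.val_one]
      linear_combination h
    rw [this]

variable [Fintype F]

theorem neg_mem_Gp (n : ℕ) : (⟨-1, 0, 0, 0⟩ : VariableChange F[X]) ∈ Gp F n := by
  rw [mem_Gp]
  simp

theorem neg_smul_crv (f : Cub F[X]) : (⟨-1, 0, 0, 0⟩ : VariableChange F[X]) • crv f = crv f := by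
  have := neg_smul_self (crv f)
  simp only [crv, neg_zero] at this ⊢
  exact this

theorem st_ge (h2 : (2 : F) ≠ 0) (n : ℕ) (f : Cub F[X]) : 2 ≤ st n (crv f) := by
  have := finite_Gp (F := F) n
  unfold st
  have hne : Nontrivial (MulAction.stabilizer (Gp F n) (crv f)) := by
    refine ⟨⟨1, ⟨⟨_, neg_mem_Gp n⟩, neg_smul_crv f⟩, ?_⟩⟩
    intro h
    have h1 := congrArg (fun g : MulAction.stabilizer (Gp F n) (crv f) => g.1.1.u) h
    exact neg_one_ne h2 h1.symm
  exact Finite.one_lt_card

theorem st_eq (h2 : (2 : F) ≠ 0) (n : ℕ) {f : Cub F[X]} (h4 : f.c4 ≠ 0) (h6 : f.c6 ≠ 0) : st n (crv f) = 2 := by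
  unfold st
  rw [Nat.card_eq_two_iff]
  refine ⟨1, ⟨⟨_, neg_mem_Gp n⟩, neg_smul_crv f⟩, ?_, ?_⟩
  · intro h
    have h1 := congrArg (fun g : MulAction.stabilizer (Gp F n) (crv f) => g.1.1.u) h
    exact neg_one_ne h2 h1.symm
  · apply Set.eq_univ_of_forall
    rintro ⟨⟨C, hC⟩, hst⟩
    rw [Set.mem_insert_iff, Set.mem_singleton_iff]
    rcases stab_crv h2 h4 h6 C hst with h | h
    · left
      apply Subtype.ext
      apply Subtype.ext
      exact h
    · right
      apply Subtype.ext
      apply Subtype.ext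
      exact h

/-- the isomorphism classes of elliptic curves of height at most `q ^ d` -/
abbrev KC (F : Type) [Field F] : Type :=
  MulAction.orbitRel.Quotient (VariableChange (RatFunc F)) (WeierstrassCurve (RatFunc F))

open Classical in
/-- the classes of exact height `n` -/
noncomputable def CLe (F : Type) [Field F] [Fintype F] (n : ℕ) : Finset (KC F) := (OmF F (fun _ _ => True) n).image cls

open Classical in
/-- the classes of height at most `d` -/
noncomputable def CL (F : Type) [Field F] [Fintype F] (d : ℕ) : Finset (KC F) := (range (d + 1)).biUnion (CLe F)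

theorem clsInv_true : ClsInv (F := F) (fun _ _ => True) := by
  intro e d hed W hW V hV h
  exact Iff.rfl

theorem coe_CL (d : ℕ) : (CL F d : Set (KC F)) = cls '' Eqn F d := by
  have h1 := cls_image_eq (clsInv_true (F := F)) d
  have h2 : ({W | W ∈ Eqn F d ∧ True} : Set (WeierstrassCurve F[X])) = Eqn F d := by
    ext W; simp
  rw [h2] at h1
  exact h1.symm

theorem sum_CL (d : ℕ) (w : KC F → ℝ) : ∑ κ ∈ CL F d, w κ = ∑ e ∈ range (d + 1), ∑ κ ∈ CLe F e, w κ := by
  classical
  unfold CL
  rw [sum_biUnion]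
  intro e he e' he' hne
  rw [Function.onFun, disjoint_left]
  intro b hb hb'
  obtain ⟨W, hW, rfl⟩ := mem_image.1 hb
  obtain ⟨V, hV, hVW⟩ := mem_image.1 hb'
  rw [mem_OmF] at hW hV
  rcases Nat.lt_or_ge e e' with h | h
  · exact hne (min_main hV.1 hW.1 h.le hVW hV.2.1).1
  · exact hne (min_main hW.1 hV.1 h hVW.symm hW.2.1).1.symm

open Classical in
/-- **transfer to isomorphism classes** -/
theorem cls_limit (h2 : (2 : F) ≠ 0) {β c : ℝ} (hc : 0 < c) (hβ : 0 ≤ β)
    (H1 : ∀ ε : ℝ, 0 < ε → ∀ᶠ n in atTop, ∑ f ∈ (Msh F n).filter (fun f => ¬ BadC f), ((Nat.card (Q2 f) : ℝ) - 1) ≤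
      (β + ε) * (Msh F n).card)
    (H3 : ∀ᶠ n in atTop, c * (Fintype.card F : ℝ) ^ (12 * n + 3) ≤ (Msh F n).card) (ε : ℝ) (hε : 0 < ε) :
    ∀ᶠ d in atTop, ∑ κ ∈ CL F d, ((mwc κ : ℝ) - 1) ≤ (β + ε) * (CL F d).card := by
  have hq2 : 2 ≤ (Fintype.card F : ℝ) := q_ge
  set q : ℝ := (Fintype.card F : ℝ) with hq
  have hq0 : 0 < q := by linarith
  have hq1 : 0 < q - 1 := by linarith
  set k : ℕ → ℝ := fun n => q ^ (4 * n + 2) / ((q - 1) * q ^ (6 * n + 3)) with hk
  have hk0 : ∀ n, 0 < k n := fun n => by rw [hk]; positivity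
  set x : ℕ → ℝ := fun n => ∑ κ ∈ CLe F n, ((mwc κ : ℝ) - 1) with hx
  set y : ℕ → ℝ := fun n => ((CLe F n).card : ℝ) with hy
  have hxe : ∀ n, x n = k n * ∑ f ∈ Msh F n, ((Nat.card (Q2 f) : ℝ) - 1) * st n (crv f) := by
    intro n
    have h1 := sum_cls h2 n (fun κ => (mwc κ : ℝ) - 1)
    change ∑ κ ∈ CLe F n, ((mwc κ : ℝ) - 1) = _
    unfold CLe
    rw [h1]
    congr 1
    apply sum_congr rfl
    intro f hf
    rw [mem_Msh] at hf
    rw [mwc_crv h2 hf.2.1]
  have hye : ∀ n, y n = k n * ∑ f ∈ Msh F n, (st n (crv f) : ℝ) := by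
    intro n
    have h1 := sum_cls h2 n (fun _ => (1 : ℝ))
    rw [sum_const, nsmul_eq_mul, mul_one] at h1
    change ((CLe F n).card : ℝ) = _
    unfold CLe
    rw [h1]
    congr 1
    apply sum_congr rfl
    intro f _
    rw [one_mul]
  have hyl : ∀ n, 2 * k n * (Msh F n).card ≤ y n := by
    intro n
    rw [hye]
    have h1 : (Msh F n).card * (2 : ℝ) ≤ ∑ f ∈ Msh F n, (st n (crv f) : ℝ) := by
      rw [← nsmul_eq_mul, ← sum_const]
      apply sum_le_sum
      intro f _
      exact_mod_cast st_ge h2 n f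
    have := mul_le_mul_of_nonneg_left h1 (hk0 n).le
    linarith
  have hy0 : ∀ n, 0 ≤ y n := fun n => by rw [hy]; positivity
  -- the bad part
  have hbad := bad_lim (F := F) h2
  have hxy : ∀ δ : ℝ, 0 < δ → ∀ᶠ n in atTop, x n ≤ (β + δ) * y n := by
    intro δ hδ
    have hb1 : ∀ᶠ n in atTop, (∑ f ∈ (Sb F n).filter (fun f => f.disc ≠ 0 ∧ BadC f), ((Nat.card (Q2 f) : ℝ) - 1)) /
        q ^ (12 * n + 3) < δ * c / (16 * q) := by
      have h0 : (0 : ℝ) < δ * c / (16 * q) := by positivity
      exact hbad.eventually (gt_mem_nhds h0)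
    filter_upwards [H1 (δ / 2) (half_pos hδ), H3, hb1] with n n1 n3 n4
    rw [div_lt_iff₀ (by positivity)] at n4
    have h5 : ∑ f ∈ Msh F n, ((Nat.card (Q2 f) : ℝ) - 1) * st n (crv f) =
        ∑ f ∈ (Msh F n).filter (fun f => BadC f), ((Nat.card (Q2 f) : ℝ) - 1) * st n (crv f) +
        ∑ f ∈ (Msh F n).filter (fun f => ¬ BadC f), ((Nat.card (Q2 f) : ℝ) - 1) * st n (crv f) :=
      (sum_filter_add_sum_filter_not _ _ _).symm
    have h6 : ∑ f ∈ (Msh F n).filter (fun f => ¬ BadC f), ((Nat.card (Q2 f) : ℝ) - 1) * st n (crv f) =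
        2 * ∑ f ∈ (Msh F n).filter (fun f => ¬ BadC f), ((Nat.card (Q2 f) : ℝ) - 1) := by
      rw [mul_sum]
      apply sum_congr rfl
      intro f hf
      have hb := (mem_filter.1 hf).2
      unfold BadC at hb
      rw [not_or, not_or] at hb
      rw [st_eq h2 n hb.1.1 hb.1.2]
      push_cast
      ring
    have h7 : ∑ f ∈ (Msh F n).filter (fun f => BadC f), ((Nat.card (Q2 f) : ℝ) - 1) * st n (crv f) ≤
        16 * q * ∑ f ∈ (Sb F n).filter (fun f => f.disc ≠ 0 ∧ BadC f), ((Nat.card (Q2 f) : ℝ) - 1) := by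
      have e1 : ∑ f ∈ (Msh F n).filter (fun f => BadC f), ((Nat.card (Q2 f) : ℝ) - 1) * st n (crv f) ≤
          ∑ f ∈ (Msh F n).filter (fun f => BadC f), (16 * q) * ((Nat.card (Q2 f) : ℝ) - 1) := by
        apply sum_le_sum
        intro f hf
        have h8 := card_Q2_ge h2 (mem_Msh.1 (mem_filter.1 hf).1).2.1
        have h9 : (st n (crv f) : ℝ) ≤ 16 * q := by
          have := st_le n (crv f)
          rw [hq]
          exact_mod_cast this
        rw [mul_comm]
        exact mul_le_mul_of_nonneg_right h9 h8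
      refine e1.trans ?_
      rw [← mul_sum]
      apply mul_le_mul_of_nonneg_left _ (by positivity)
      apply sum_le_sum_of_subset_of_nonneg
      · intro f hf
        rw [mem_filter] at hf ⊢
        have := mem_Msh.1 hf.1
        exact ⟨mem_Sb.2 this.1, this.2.1, hf.2⟩
      · intro f hf _
        exact card_Q2_ge h2 (mem_filter.1 hf).2.1
    rw [hxe, h5, h6]
    have h10 : 16 * q * ∑ f ∈ (Sb F n).filter (fun f => f.disc ≠ 0 ∧ BadC f), ((Nat.card (Q2 f) : ℝ) - 1) ≤
        δ * (Msh F n).card := by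
      have e2 : 16 * q * ∑ f ∈ (Sb F n).filter (fun f => f.disc ≠ 0 ∧ BadC f), ((Nat.card (Q2 f) : ℝ) - 1) ≤
          16 * q * (δ * c / (16 * q) * q ^ (12 * n + 3)) := mul_le_mul_of_nonneg_left n4.le (by positivity)
      refine e2.trans ?_
      have e3 : 16 * q * (δ * c / (16 * q) * q ^ (12 * n + 3)) = δ * (c * q ^ (12 * n + 3)) := by field_simp
      rw [e3]
      exact mul_le_mul_of_nonneg_left n3 hδ.le
    have h11 : ∑ f ∈ (Msh F n).filter (fun f => BadC f), ((Nat.card (Q2 f) : ℝ) - 1) * st n (crv f) +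
        2 * ∑ f ∈ (Msh F n).filter (fun f => ¬ BadC f), ((Nat.card (Q2 f) : ℝ) - 1) ≤
        (β + δ) * (2 * (Msh F n).card) := by linarith
    calc k n * _ ≤ k n * ((β + δ) * (2 * (Msh F n).card)) := mul_le_mul_of_nonneg_left h11 (hk0 n).le
      _ = (β + δ) * (2 * k n * (Msh F n).card) := by ring
      _ ≤ (β + δ) * y n := mul_le_mul_of_nonneg_left (hyl n) (by linarith)
  -- partial sums
  have hyinf : Tendsto (fun d => ∑ e ∈ range (d + 1), y e) atTop atTop := by
    rw [eventually_atTop] at H3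
    obtain ⟨N, hN⟩ := H3
    have h1 : ∀ n ≥ N, 2 * c ≤ y n := by
      intro n hn
      refine le_trans ?_ (hyl n)
      have h3 := hN n hn
      have h4 : 2 * c ≤ 2 * k n * (c * q ^ (12 * n + 3)) := by
        have e1 : 2 * k n * (c * q ^ (12 * n + 3)) = 2 * c * (k n * q ^ (12 * n + 3)) := by ring
        rw [e1]
        have e2 : 1 ≤ k n * q ^ (12 * n + 3) := by
          rw [hk]
          simp only
          rw [div_mul_eq_mul_div, le_div_iff₀ (by positivity), one_mul, ← pow_add]
          have e3 : (q - 1) * q ^ (6 * n + 3) ≤ q * q ^ (6 * n + 3) :=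
            mul_le_mul_of_nonneg_right (by linarith) (by positivity)
          refine e3.trans ?_
          rw [← pow_succ']
          exact pow_le_pow_right₀ (by linarith) (by omega)
        have : 0 < 2 * c := by positivity
        nlinarith
      refine h4.trans ?_
      exact mul_le_mul_of_nonneg_left h3 (by have := hk0 n; positivity)
    rw [tendsto_atTop]
    intro b
    obtain ⟨m, hm⟩ := exists_nat_gt (b / (2 * c))
    rw [div_lt_iff₀ (by positivity)] at hm
    filter_upwards [eventually_ge_atTop (N + m)] with d hd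
    have h5 : ∑ e ∈ Finset.Ico N (N + m), y e ≤ ∑ e ∈ range (d + 1), y e := by
      apply sum_le_sum_of_subset_of_nonneg
      · intro e he
        rw [Finset.mem_Ico] at he
        rw [mem_range]; omega
      · intro e _ _; exact hy0 e
    refine le_trans ?_ h5
    have h6 : ∑ e ∈ Finset.Ico N (N + m), (2 * c) ≤ ∑ e ∈ Finset.Ico N (N + m), y e :=
      sum_le_sum fun e he => h1 e (Finset.mem_Ico.1 he).1
    refine le_trans ?_ h6
    rw [sum_const, Nat.card_Ico, nsmul_eq_mul, Nat.add_sub_cancel_left]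
    exact hm.le
  have h1 := hxy (ε / 2) (half_pos hε)
  rw [eventually_atTop] at h1
  obtain ⟨N, hN⟩ := h1
  set B : ℝ := ∑ e ∈ range N, |x e| with hB
  filter_upwards [hyinf.eventually_ge_atTop (2 * B / ε), eventually_ge_atTop N] with d hd hdN
  have h3 : ((CL F d).card : ℝ) = ∑ e ∈ range (d + 1), y e := by
    have := sum_CL (F := F) d (fun _ => (1 : ℝ))
    rw [sum_const, nsmul_eq_mul, mul_one] at this
    rw [this]
    apply sum_congr rfl
    intro e _
    rw [sum_const, nsmul_eq_mul, mul_one]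
  rw [sum_CL, h3]
  have h4 : ∑ e ∈ range (d + 1), x e ≤ B + (β + ε / 2) * ∑ e ∈ range (d + 1), y e := by
    have e1 : ∀ e ∈ range (d + 1), x e ≤ (if e < N then |x e| else 0) + (β + ε / 2) * y e := by
      intro e _
      split_ifs with he
      · have := le_abs_self (x e)
        have : 0 ≤ (β + ε / 2) * y e := mul_nonneg (by linarith) (hy0 e)
        linarith
      · rw [zero_add]
        exact hN e (by omega)
    refine (sum_le_sum e1).trans ?_
    rw [sum_add_distrib, ← mul_sum]
    gcongr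
    rw [← sum_filter]
    rw [hB]
    apply sum_le_sum_of_subset_of_nonneg
    · intro e he
      rw [mem_filter] at he
      exact mem_range.2 he.2
    · intro e _ _; exact abs_nonneg _
  refine h4.trans ?_
  have h5 : B ≤ ε / 2 * ∑ e ∈ range (d + 1), y e := by
    rw [div_le_iff₀ hε] at hd
    linarith
  linarith

end Pool.Agent.H456.BQ
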