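import Pool.Agent.H456.BQ.Orb

/-!
# The counting inequality
-/

set_option autoImplicit false
set_option linter.all false

open Polynomial Finset
open Pool.Agent.H456.EC (toK toK_inj)
open Pool.Agent.H456.RN

namespace Pool.Agent.H456.BQ

theorem card_ne_zero_sub {α : Type} [Finite α] (a : α) : (Nat.card {x : α // x ≠ a} : ℝ) = Nat.card α - 1 := by
  classical
  have h := Nat.card_congr (Equiv.optionSubtypeNe a)
  rw [Finite.card_option] at h
  rw [← h]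
  push_cast
  ring

variable {F : Type} [Field F] [Fintype F]

theorem count (h2 : (2 : F) ≠ 0) {n : ℕ} (S : Finset (Cub F[X])) (hS : ∀ f ∈ S, f.disc ≠ 0)
    (Ψ : ℕ → Q4 F[X] → ℝ) (hΨ : ∀ e G, 0 ≤ Ψ e G)
    (hc : ∀ f ∈ S, ∀ (hf : f.disc ≠ 0) (σ : Q2 f), σ ≠ 0 →
      1 ≤ ∑ e ∈ range (n + 1), ∑ p ∈ Pn h2 n e hf σ, Ψ e p.1) :
    (∀ f ∈ S, Finite (Q2 f)) ∧ ∑ f ∈ S, ((Nat.card (Q2 f) : ℝ) - 1) ≤
      (Fintype.card F : ℝ) ^ (2 * n + 1) * ∑ e ∈ range (n + 1), ∑ G ∈ Vb F n e, Ψ e G := by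
  classical
  set B : ℝ := (Fintype.card F : ℝ) ^ (2 * n + 1) * ∑ e ∈ range (n + 1), ∑ G ∈ Vb F n e, Ψ e G with hB
  have key : ∀ T : Finset (Σ f : {f // f ∈ S}, {σ : Q2 f.1 // σ ≠ 0}), (T.card : ℝ) ≤ B := by
    intro T
    have h1 : (T.card : ℝ) ≤ ∑ t ∈ T, ∑ e ∈ range (n + 1), ∑ p ∈ Vb F n e ×ˢ PL F (2 * n + 1),
        (if p ∈ Cl h2 (hS t.1.1 t.1.2) t.2.1 then Ψ e p.1 else 0) := by
      rw [card_eq_sum_ones]
      push_cast
      apply sum_le_sum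
      intro t _
      refine (hc t.1.1 t.1.2 (hS t.1.1 t.1.2) t.2.1 t.2.2).trans (le_of_eq ?_)
      apply sum_congr rfl
      intro e _
      unfold Pn
      rw [sum_filter]
    refine h1.trans ?_
    rw [sum_comm]
    have h3 : ∀ e ∈ range (n + 1), ∑ t ∈ T, ∑ p ∈ Vb F n e ×ˢ PL F (2 * n + 1),
        (if p ∈ Cl h2 (hS t.1.1 t.1.2) t.2.1 then Ψ e p.1 else 0) ≤
        ∑ p ∈ Vb F n e ×ˢ PL F (2 * n + 1), Ψ e p.1 := by
      intro e _
      rw [sum_comm]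
      apply sum_le_sum
      intro p _
      rw [← sum_filter, sum_const, nsmul_eq_mul]
      have h4 : (T.filter (fun t => p ∈ Cl h2 (hS t.1.1 t.1.2) t.2.1)).card ≤ 1 := by
        rw [card_le_one]
        rintro ⟨⟨f, hf⟩, σ, hσ⟩ ht ⟨⟨f', hf'⟩, σ', hσ'⟩ ht'
        rw [mem_filter] at ht ht'
        have e1 : f = f' := Cl_cub h2 (hS f hf) (hS f' hf') ht.2 ht'.2
        subst e1
        have e2 : σ = σ' := Cl_inj h2 (hS f hf) ht.2 ht'.2
        subst e2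
        rfl
      calc ((T.filter (fun t => p ∈ Cl h2 (hS t.1.1 t.1.2) t.2.1)).card : ℝ) * Ψ e p.1 ≤ 1 * Ψ e p.1 := by
            apply mul_le_mul_of_nonneg_right _ (hΨ _ _)
            exact_mod_cast h4
        _ = Ψ e p.1 := one_mul _
    refine (sum_le_sum h3).trans (le_of_eq ?_)
    rw [hB, mul_sum]
    apply sum_congr rfl
    intro e _
    rw [sum_product]
    simp only [sum_const, card_PL, nsmul_eq_mul]
    rw [mul_sum]
    push_cast
    rfl
  have hfin : Finite (Σ f : {f // f ∈ S}, {σ : Q2 f.1 // σ ≠ 0}) := by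
    by_contra h
    rw [not_finite_iff_infinite] at h
    obtain ⟨m, hm⟩ := exists_nat_gt B
    obtain ⟨T, hT⟩ := Infinite.exists_subset_card_eq (Σ f : {f // f ∈ S}, {σ : Q2 f.1 // σ ≠ 0}) m
    have := key T
    rw [hT] at this
    linarith
  have hfin1 : ∀ f : {f // f ∈ S}, Finite {σ : Q2 f.1 // σ ≠ 0} := by
    intro f
    exact Finite.of_injective (fun σ => (⟨f, σ⟩ : Σ f : {f // f ∈ S}, {σ : Q2 f.1 // σ ≠ 0})) (by
      intro a b h
      simpa using h)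
  have hfin2 : ∀ f : {f // f ∈ S}, Finite (Q2 f.1) := by
    intro f
    have h1 := hfin1 f
    have h3 : Finite (Option {σ : Q2 f.1 // σ ≠ 0}) := inferInstance
    exact Finite.of_equiv _ (Equiv.optionSubtypeNe (0 : Q2 f.1))
  refine ⟨fun f hf => hfin2 ⟨f, hf⟩, ?_⟩
  letI := Fintype.ofFinite (Σ f : {f // f ∈ S}, {σ : Q2 f.1 // σ ≠ 0})
  have h5 := key univ
  rw [card_univ, ← Nat.card_eq_fintype_card, Nat.card_sigma] at h5
  push_cast at h5
  refine le_trans (le_of_eq ?_) h5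
  rw [← sum_attach]
  apply sum_congr (by rfl)
  intro f _
  have := hfin2 f
  rw [card_ne_zero_sub]

end Pool.Agent.H456.BQ
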