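import Pool.Agent.H456.BQ.Vn
import Pool.Agent.H456.BQ.Base

/-!
# Equidistribution of the boxes modulo finitely many places
-/

set_option autoImplicit false
set_option linter.all false

open Polynomial Finset
open Pool.Agent.H456.RN

namespace Pool.Agent.H456.BQ

section quot

variable {F : Type} [Field F]

variable [Fintype F]

theorem bij_Rq {m : F[X]} (hm : m.Monic) :
    Function.Bijective (fun x : {x // x ∈ PL F m.natDegree} => (Ideal.Quotient.mk (Ideal.span {m}) x.1 : Rq m)) := by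
  constructor
  · rintro ⟨x, hx⟩ ⟨y, hy⟩ h
    have h' : m ∣ x - y := mk_eq.1 h
    have h3 := sub_mem_PL hx hy
    by_contra hne
    have hne' : x - y ≠ 0 := fun h0 => hne (Subtype.ext (sub_eq_zero.1 h0))
    have h4 := natDegree_lt_of_mem_PL h3 hne'
    have h5 := natDegree_le_of_dvd h' hne'
    omega
  · intro r
    obtain ⟨r, rfl⟩ := Ideal.Quotient.mk_surjective r
    refine ⟨⟨r %ₘ m, ?_⟩, ?_⟩
    · rw [mem_PL]
      have h1 := degree_modByMonic_lt r hm
      rwa [degree_eq_natDegree hm.ne_zero] at h1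
    · rw [mk_eq]
      have h1 : m ∣ r - r %ₘ m := ⟨r /ₘ m, by linear_combination -(modByMonic_add_div r m)⟩
      rw [← neg_sub]
      exact h1.neg_right

theorem card_Rq {m : F[X]} (hm : m.Monic) : Nat.card (Rq m) = Fintype.card F ^ m.natDegree := by
  rw [← Nat.card_congr (Equiv.ofBijective _ (bij_Rq hm)), Nat.card_eq_fintype_card, Fintype.card_coe, card_PL]

/-- the residues at a finite set of places and at infinity -/
abbrev RB (S : Finset (Pl F)) (M : ℕ) : Type := ((P : S) → Rq (P.1.1 ^ M)) × Rq ((X : F[X]) ^ M)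

/-- the size of the modulus -/
noncomputable def dS (S : Finset (Pl F)) (M : ℕ) : ℕ := (∑ P ∈ S, M * P.1.natDegree) + M

open Classical in
theorem card_RB (S : Finset (Pl F)) (M : ℕ) : Fintype.card (RB S M) = Fintype.card F ^ dS S M := by
  rw [Fintype.card_prod, Fintype.card_pi]
  have h1 : ∀ P : S, Fintype.card (Rq (P.1.1 ^ M)) = Fintype.card F ^ (M * P.1.1.natDegree) := by
    intro P
    rw [← Nat.card_eq_fintype_card, card_Rq (P.1.2.1.pow M), natDegree_pow]
  have h3 : Fintype.card (Rq ((X : F[X]) ^ M)) = Fintype.card F ^ M := by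
    rw [← Nat.card_eq_fintype_card, card_Rq (monic_X.pow M), natDegree_pow, natDegree_X, mul_one]
  rw [prod_congr rfl (fun P _ => h1 P), h3, prod_pow_eq_pow_sum]
  unfold dS
  rw [pow_add]
  congr 2
  exact sum_coe_sort S (fun P => M * P.1.natDegree)

/-- reduction of a polynomial of degree less than `N` -/
noncomputable def red (S : Finset (Pl F)) (M N : ℕ) (x : F[X]) : RB S M :=
  (fun P => Ideal.Quotient.mk _ x, Ideal.Quotient.mk _ (reflect (N - 1) x))

theorem coprime_Pl {P Q : Pl F} (h : P ≠ Q) : IsCoprime P.1 Q.1 := by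
  rw [P.2.2.coprime_iff_not_dvd]
  intro hd
  apply h
  apply Subtype.ext
  exact eq_of_monic_of_associated P.2.1 Q.2.1 (P.2.2.associated_of_dvd Q.2.2 hd)

open Classical in
/-- all fibers have the same number of elements -/
theorem card_fib (S : Finset (Pl F)) (M N : ℕ) (hN : dS S M ≤ N) (b : RB S M) :
    ((PL F N).filter (fun x => red S M N x = b)).card = Fintype.card F ^ (N - dS S M) := by
  have hle : ∀ b : RB S M, ((PL F N).filter (fun x => red S M N x = b)).card ≤ Fintype.card F ^ (N - dS S M) := by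
    intro b
    rcases ((PL F N).filter (fun x => red S M N x = b)).eq_empty_or_nonempty with h0 | ⟨x₀, hx₀⟩
    · rw [h0, card_empty]; exact Nat.zero_le _
    · rw [mem_filter] at hx₀
      have h1 : (∏ P ∈ S, P.1 ^ M).natDegree = ∑ P ∈ S, M * P.1.natDegree := by
        rw [natDegree_prod_of_monic _ _ (fun P _ => P.2.1.pow M)]
        apply sum_congr rfl
        intro P _
        rw [natDegree_pow]
      have hm0 : (∏ P ∈ S, P.1 ^ M) ≠ 0 := (monic_prod_of_monic _ _ (fun P _ => P.2.1.pow M)).ne_zero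
      have h3 := card_dvd_PL (F := F) (N - M) hm0
      rw [h1] at h3
      have h4 : N - M - ∑ P ∈ S, M * P.1.natDegree = N - dS S M := by
        unfold dS; omega
      rw [h4] at h3
      refine le_trans ?_ h3
      apply card_le_card_of_injOn (fun x => x - x₀)
      · intro x hx
        have hx' : x ∈ (PL F N).filter (fun x => red S M N x = b) := hx
        rw [mem_filter] at hx'
        have he : red S M N x = red S M N x₀ := by rw [hx'.2, hx₀.2]
        have hy := sub_mem_PL hx'.1 hx₀.1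
        have hy2 : (X : F[X]) ^ M ∣ reflect (N - 1) (x - x₀) := by
          have := congrArg Prod.snd he
          have := mk_eq.1 this
          rwa [← reflect_sub] at this
        change x - x₀ ∈ (PL F (N - M)).filter (fun f => (∏ P ∈ S, P.1 ^ M) ∣ f)
        rw [mem_filter]
        constructor
        · rw [mem_PL, degree_lt_iff_coeff_zero]
          intro k hk
          rw [X_pow_dvd_iff] at hy2
          by_cases hkN : N ≤ k
          · rw [mem_PL, degree_lt_iff_coeff_zero] at hy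
            exact hy k hkN
          · have h5 := hy2 (N - 1 - k) (by omega)
            rw [coeff_reflect, revAt_le (by omega)] at h5
            rwa [show N - 1 - (N - 1 - k) = k by omega] at h5
        · apply prod_dvd_of_coprime
          · intro P _ Q _ hPQ
            exact (coprime_Pl hPQ).pow
          · intro P hP
            have := congrFun (congrArg Prod.fst he) ⟨P, hP⟩
            exact mk_eq.1 this
      · intro x _ y _ hxy
        exact sub_left_injective hxy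
  -- the total
  have htot : ∑ b : RB S M, ((PL F N).filter (fun x => red S M N x = b)).card =
      ∑ b : RB S M, Fintype.card F ^ (N - dS S M) := by
    rw [← card_eq_sum_card_fiberwise (fun x _ => mem_univ (red S M N x)), card_PL, sum_const, card_univ, card_RB,
      smul_eq_mul, ← pow_add]
    congr 1
    omega
  exact (sum_eq_sum_iff_of_le (fun b _ => hle b)).1 htot b (mem_univ b)

open Classical in
theorem sum_red (S : Finset (Pl F)) (M N : ℕ) (hN : dS S M ≤ N) (ψ : RB S M → ℝ) :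
    ∑ x ∈ PL F N, ψ (red S M N x) = (Fintype.card F : ℝ) ^ (N - dS S M) * ∑ b, ψ b := by
  rw [← sum_fiberwise_of_maps_to (g := red S M N) (t := univ) (fun x _ => mem_univ _), mul_sum]
  apply sum_congr rfl
  intro b _
  rw [sum_congr rfl (g := fun _ => ψ b), sum_const, card_fib S M N hN b, nsmul_eq_mul]
  · push_cast; rfl
  · intro x hx
    rw [(mem_filter.1 hx).2]

end quot

section boxes

variable {F : Type} [Field F] [Fintype F]

/-- component of a quartic at a place -/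
noncomputable def Q4.at {S : Finset (Pl F)} {M : ℕ} (g : Q4 (RB S M)) (P : S) : Q4 (Rq (P.1.1 ^ M)) :=
  ⟨g.A.1 P, g.B.1 P, g.C.1 P, g.D.1 P, g.E.1 P⟩

/-- component of a quartic at infinity -/
noncomputable def Q4.inf {S : Finset (Pl F)} {M : ℕ} (g : Q4 (RB S M)) : Q4 (Rq ((X : F[X]) ^ M)) :=
  ⟨g.A.2, g.B.2, g.C.2, g.D.2, g.E.2⟩

/-- component of a cubic at a place -/
noncomputable def Cub.at {S : Finset (Pl F)} {M : ℕ} (g : Cub (RB S M)) (P : S) : Cub (Rq (P.1.1 ^ M)) :=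
  ⟨g.a.1 P, g.b.1 P, g.c.1 P⟩

/-- component of a cubic at infinity -/
noncomputable def Cub.inf {S : Finset (Pl F)} {M : ℕ} (g : Cub (RB S M)) : Cub (Rq ((X : F[X]) ^ M)) :=
  ⟨g.a.2, g.b.2, g.c.2⟩

/-- reduction of a quartic in the box -/
noncomputable def redV (S : Finset (Pl F)) (M n e : ℕ) (G : Q4 F[X]) : Q4 (RB S M) :=
  ⟨red S M (2 * n - 2 * e + 1) G.A, red S M (2 * n - e + 1) G.B, red S M (2 * n + 1) G.C,
    red S M (2 * n + e + 1) G.D, red S M (2 * n + 2 * e + 1) G.E⟩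

open Classical in
theorem sum_redV (S : Finset (Pl F)) (M n e : ℕ) (he : e ≤ n) (hN : dS S M ≤ 2 * n - 2 * e + 1)
    (φ : Q4 (RB S M) → ℝ) :
    (∑ G ∈ Vb F n e, φ (redV S M n e G)) / (Fintype.card F : ℝ) ^ (10 * n + 5) =
      (∑ g, φ g) / (Fintype.card F : ℝ) ^ (5 * dS S M) := by
  have hq0 : (Fintype.card F : ℝ) ≠ 0 := by
    have : 0 < Fintype.card F := Fintype.card_pos
    positivity
  rw [sum_Vb]
  unfold redV
  simp only []
  have hE : ∀ A B C D : RB S M, ∑ E ∈ PL F (2 * n + 2 * e + 1), φ ⟨A, B, C, D, red S M (2 * n + 2 * e + 1) E⟩ =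
      (Fintype.card F : ℝ) ^ (2 * n + 2 * e + 1 - dS S M) * ∑ E, φ ⟨A, B, C, D, E⟩ := fun A B C D =>
    sum_red S M _ (by omega) (fun E => φ ⟨A, B, C, D, E⟩)
  simp only [hE, ← mul_sum]
  have hD : ∀ A B C : RB S M, ∑ D ∈ PL F (2 * n + e + 1), ∑ E, φ ⟨A, B, C, red S M (2 * n + e + 1) D, E⟩ =
      (Fintype.card F : ℝ) ^ (2 * n + e + 1 - dS S M) * ∑ D, ∑ E, φ ⟨A, B, C, D, E⟩ := fun A B C =>
    sum_red S M _ (by omega) (fun D => ∑ E, φ ⟨A, B, C, D, E⟩)
  simp only [hD, ← mul_sum]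
  have hC : ∀ A B : RB S M, ∑ C ∈ PL F (2 * n + 1), ∑ D, ∑ E, φ ⟨A, B, red S M (2 * n + 1) C, D, E⟩ =
      (Fintype.card F : ℝ) ^ (2 * n + 1 - dS S M) * ∑ C, ∑ D, ∑ E, φ ⟨A, B, C, D, E⟩ := fun A B =>
    sum_red S M _ (by omega) (fun C => ∑ D, ∑ E, φ ⟨A, B, C, D, E⟩)
  simp only [hC, ← mul_sum]
  have hB : ∀ A : RB S M, ∑ B ∈ PL F (2 * n - e + 1), ∑ C, ∑ D, ∑ E, φ ⟨A, red S M (2 * n - e + 1) B, C, D, E⟩ =
      (Fintype.card F : ℝ) ^ (2 * n - e + 1 - dS S M) * ∑ B, ∑ C, ∑ D, ∑ E, φ ⟨A, B, C, D, E⟩ := fun A =>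
    sum_red S M _ (by omega) (fun B => ∑ C, ∑ D, ∑ E, φ ⟨A, B, C, D, E⟩)
  simp only [hB, ← mul_sum]
  have hA : ∑ A ∈ PL F (2 * n - 2 * e + 1), ∑ B, ∑ C, ∑ D, ∑ E, φ ⟨red S M (2 * n - 2 * e + 1) A, B, C, D, E⟩ =
      (Fintype.card F : ℝ) ^ (2 * n - 2 * e + 1 - dS S M) * ∑ A, ∑ B, ∑ C, ∑ D, ∑ E, φ ⟨A, B, C, D, E⟩ :=
    sum_red S M _ (by omega) (fun A => ∑ B, ∑ C, ∑ D, ∑ E, φ ⟨A, B, C, D, E⟩)
  rw [hA, sum_Q4, div_eq_div_iff (pow_ne_zero _ hq0) (pow_ne_zero _ hq0)]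
  have hpow : (Fintype.card F : ℝ) ^ (10 * n + 5) = (Fintype.card F : ℝ) ^ (2 * n + 2 * e + 1 - dS S M) *
      ((Fintype.card F : ℝ) ^ (2 * n + e + 1 - dS S M) * ((Fintype.card F : ℝ) ^ (2 * n + 1 - dS S M) *
      ((Fintype.card F : ℝ) ^ (2 * n - e + 1 - dS S M) * (Fintype.card F : ℝ) ^ (2 * n - 2 * e + 1 - dS S M)))) *
      (Fintype.card F : ℝ) ^ (5 * dS S M) := by
    rw [← pow_add, ← pow_add, ← pow_add, ← pow_add, ← pow_add]
    congr 1
    omega
  rw [hpow]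
  ring

/-- reduction of a cubic in the box -/
noncomputable def redC (S : Finset (Pl F)) (M n : ℕ) (f : Cub F[X]) : Cub (RB S M) :=
  ⟨red S M (2 * n + 1) f.a, red S M (4 * n + 1) f.b, red S M (6 * n + 1) f.c⟩

open Classical in
/-- the box of the cubics -/
noncomputable def Sb (F : Type) [Field F] [Fintype F] (n : ℕ) : Finset (Cub F[X]) :=
  ((PL F (2 * n + 1)) ×ˢ (PL F (4 * n + 1)) ×ˢ (PL F (6 * n + 1))).image fun x => ⟨x.1, x.2.1, x.2.2⟩

theorem mem_Sb {n : ℕ} {f : Cub F[X]} : f ∈ Sb F n ↔ CDg n f := by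
  classical
  unfold Sb CDg
  rw [mem_image]
  constructor
  · rintro ⟨x, hx, rfl⟩
    simp only [mem_product, mem_PL_iff] at hx
    exact hx
  · intro h
    refine ⟨(f.a, f.b, f.c), ?_, rfl⟩
    simp only [mem_product, mem_PL_iff]
    exact h

theorem sum_Sb {M : Type} [AddCommMonoid M] {n : ℕ} (φ : Cub F[X] → M) :
    ∑ f ∈ Sb F n, φ f = ∑ a ∈ PL F (2 * n + 1), ∑ b ∈ PL F (4 * n + 1), ∑ c ∈ PL F (6 * n + 1), φ ⟨a, b, c⟩ := by
  classical
  unfold Sb
  rw [sum_image, sum_product]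
  · apply sum_congr rfl
    intro A _
    rw [sum_product]
  · rintro ⟨a, b, c⟩ _ ⟨a', b', c'⟩ _ h
    simp only [Cub.mk.injEq] at h
    obtain ⟨rfl, rfl, rfl⟩ := h
    rfl

theorem card_Sb (n : ℕ) : (Sb F n).card = Fintype.card F ^ (12 * n + 3) := by
  rw [card_eq_sum_ones, sum_Sb]
  simp only [sum_const, card_PL, smul_eq_mul, mul_one]
  rw [← pow_add, ← pow_add]
  congr 1
  omega

open Classical in
theorem sum_redC (S : Finset (Pl F)) (M n : ℕ) (hN : dS S M ≤ 2 * n + 1) (φ : Cub (RB S M) → ℝ) :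
    (∑ f ∈ Sb F n, φ (redC S M n f)) / (Fintype.card F : ℝ) ^ (12 * n + 3) =
      (∑ g, φ g) / (Fintype.card F : ℝ) ^ (3 * dS S M) := by
  have hq0 : (Fintype.card F : ℝ) ≠ 0 := by
    have : 0 < Fintype.card F := Fintype.card_pos
    positivity
  rw [sum_Sb]
  unfold redC
  simp only []
  have hC : ∀ a b : RB S M, ∑ c ∈ PL F (6 * n + 1), φ ⟨a, b, red S M (6 * n + 1) c⟩ =
      (Fintype.card F : ℝ) ^ (6 * n + 1 - dS S M) * ∑ c, φ ⟨a, b, c⟩ := fun a b =>
    sum_red S M _ (by omega) (fun c => φ ⟨a, b, c⟩)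
  simp only [hC, ← mul_sum]
  have hB : ∀ a : RB S M, ∑ b ∈ PL F (4 * n + 1), ∑ c, φ ⟨a, red S M (4 * n + 1) b, c⟩ =
      (Fintype.card F : ℝ) ^ (4 * n + 1 - dS S M) * ∑ b, ∑ c, φ ⟨a, b, c⟩ := fun a =>
    sum_red S M _ (by omega) (fun b => ∑ c, φ ⟨a, b, c⟩)
  simp only [hB, ← mul_sum]
  have hA : ∑ a ∈ PL F (2 * n + 1), ∑ b, ∑ c, φ ⟨red S M (2 * n + 1) a, b, c⟩ =
      (Fintype.card F : ℝ) ^ (2 * n + 1 - dS S M) * ∑ a, ∑ b, ∑ c, φ ⟨a, b, c⟩ :=
    sum_red S M _ (by omega) (fun a => ∑ b, ∑ c, φ ⟨a, b, c⟩)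
  rw [hA, sum_Cub, div_eq_div_iff (pow_ne_zero _ hq0) (pow_ne_zero _ hq0)]
  have hpow : (Fintype.card F : ℝ) ^ (12 * n + 3) = (Fintype.card F : ℝ) ^ (6 * n + 1 - dS S M) *
      ((Fintype.card F : ℝ) ^ (4 * n + 1 - dS S M) * ((Fintype.card F : ℝ) ^ (2 * n + 1 - dS S M))) *
      (Fintype.card F : ℝ) ^ (3 * dS S M) := by
    rw [← pow_add, ← pow_add, ← pow_add]
    congr 1
    omega
  rw [hpow]
  ring

/-- the components of a quartic -/
noncomputable def Q4.split (S : Finset (Pl F)) (M : ℕ) :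
    Q4 (RB S M) ≃ ((P : S) → Q4 (Rq (P.1.1 ^ M))) × Q4 (Rq ((X : F[X]) ^ M)) where
  toFun g := (fun P => g.at P, g.inf)
  invFun x := ⟨(fun P => (x.1 P).A, x.2.A), (fun P => (x.1 P).B, x.2.B), (fun P => (x.1 P).C, x.2.C),
    (fun P => (x.1 P).D, x.2.D), (fun P => (x.1 P).E, x.2.E)⟩
  left_inv _ := rfl
  right_inv _ := rfl

/-- the components of a cubic -/
noncomputable def Cub.split (S : Finset (Pl F)) (M : ℕ) :
    Cub (RB S M) ≃ ((P : S) → Cub (Rq (P.1.1 ^ M))) × Cub (Rq ((X : F[X]) ^ M)) where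
  toFun g := (fun P => g.at P, g.inf)
  invFun x := ⟨(fun P => (x.1 P).a, x.2.a), (fun P => (x.1 P).b, x.2.b), (fun P => (x.1 P).c, x.2.c)⟩
  left_inv _ := rfl
  right_inv _ := rfl

open Classical in
theorem sum_split (S : Finset (Pl F)) (M : ℕ) (φ : (P : S) → Q4 (Rq (P.1.1 ^ M)) → ℝ)
    (φi : Q4 (Rq ((X : F[X]) ^ M)) → ℝ) :
    ∑ g : Q4 (RB S M), (∏ P : S, φ P (g.at P)) * φi g.inf = (∏ P : S, ∑ g, φ P g) * ∑ g, φi g := by
  rw [← (Q4.split S M).symm.sum_comp]
  rw [Fintype.sum_prod_type]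
  simp only [Q4.split, Equiv.coe_fn_symm_mk]
  rw [prod_univ_sum, Fintype.piFinset_univ, sum_mul]
  apply sum_congr rfl
  intro x _
  rw [mul_sum]
  rfl

open Classical in
theorem sum_splitC (S : Finset (Pl F)) (M : ℕ) (φ : (P : S) → Cub (Rq (P.1.1 ^ M)) → ℝ)
    (φi : Cub (Rq ((X : F[X]) ^ M)) → ℝ) :
    ∑ g : Cub (RB S M), (∏ P : S, φ P (g.at P)) * φi g.inf = (∏ P : S, ∑ g, φ P g) * ∑ g, φi g := by
  rw [← (Cub.split S M).symm.sum_comp]
  rw [Fintype.sum_prod_type]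
  simp only [Cub.split, Equiv.coe_fn_symm_mk]
  rw [prod_univ_sum, Fintype.piFinset_univ, sum_mul]
  apply sum_congr rfl
  intro x _
  rw [mul_sum]
  rfl

end boxes

end Pool.Agent.H456.BQ
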