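import Pool.Agent.H456.BQ.Stm

/-!
(S3) `S_fg`: Mordell-Weil for `y² = x³ + a x² + b x + c` over `F(t)`, `F` finite, `2 ≠ 0` (characteristic 3
included), GIVEN that `E(K)/2E(K)` is finite. Only the heights are needed. (The lemmas on heights are adapted from
the library modules `R_seed8/Y164/PS/Ht` and `Q283/FS/Mw`, which treat `y² = x (x - A) (x - B)`.)

`ht (p/q) = max (deg p, deg q)`; (1) `h(P + Q) ≤ 6 h(P) + c(Q)`; (2) `h(2P) ≥ 4 h(P) - C` by the duplication formula
and the Bezout identities with the discriminant; (3) finitely many points of bounded height; then the descent with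
`n = 4`.
-/

set_option autoImplicit false
set_option linter.all false

open Polynomial Finset

namespace Pool.Agent.H456.BQ

section heights

open WeierstrassCurve WeierstrassCurve.Affine

variable {k K : Type} [Field k] [Field K] [Algebra k[X] K] [IsFractionRing k[X] K]

/-- the height of an element of `k(t)` -/
noncomputable def fg_ht (k : Type) {K : Type} [Field k] [Field K] [Algebra k[X] K]
    [IsFractionRing k[X] K] (x : K) : ℕ :=
  max (IsFractionRing.num k[X] x).natDegree (IsFractionRing.den k[X] x : k[X]).natDegree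

theorem fg_ht_quot {p q : k[X]} (hq : q ≠ 0) : ∃ g : k[X], g ∣ p ∧ g ∣ q ∧ g ≠ 0 ∧
    fg_ht k (algebraMap k[X] K p / algebraMap k[X] K q) ≤ max p.natDegree q.natDegree ∧
    max p.natDegree q.natDegree ≤ fg_ht k (algebraMap k[X] K p / algebraMap k[X] K q) + g.natDegree := by
  set x : K := algebraMap k[X] K p / algebraMap k[X] K q with hx
  set n := IsFractionRing.num k[X] x with hn
  set d := (IsFractionRing.den k[X] x : k[X]) with hd
  have hd0 : d ≠ 0 := nonZeroDivisors.coe_ne_zero _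
  have inj := IsFractionRing.injective k[X] K
  have hqK : algebraMap k[X] K q ≠ 0 := by simpa using hq
  have hdK : algebraMap k[X] K d ≠ 0 := by simpa using hd0
  have h1 : algebraMap k[X] K n / algebraMap k[X] K d = x := IsFractionRing.mk'_num_den' k[X] x
  have h2 : p * d = q * n := by
    apply inj
    rw [map_mul, map_mul]
    have : algebraMap k[X] K n / algebraMap k[X] K d = algebraMap k[X] K p / algebraMap k[X] K q := by
      rw [h1]
    rw [div_eq_div_iff hdK hqK] at this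
    linear_combination -this
  have hrel : IsRelPrime n d := IsFractionRing.num_den_reduced k[X] x
  have hdq : d ∣ q := by
    apply hrel.symm.dvd_of_dvd_mul_right
    rw [← h2]
    exact dvd_mul_left _ _
  obtain ⟨g, hg⟩ := hdq
  have hp : p = g * n := by
    have : d * p = d * (g * n) := by rw [mul_comm, h2, hg]; ring
    exact mul_left_cancel₀ hd0 this
  have hg0 : g ≠ 0 := by
    rintro rfl
    exact hq (by rw [hg, mul_zero])
  have e1 : q.natDegree = d.natDegree + g.natDegree := by rw [hg, natDegree_mul hd0 hg0]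
  refine ⟨g, ⟨n, hp⟩, ⟨d, by rw [hg, mul_comm]⟩, hg0, ?_, ?_⟩
  · show max n.natDegree d.natDegree ≤ _
    by_cases hn0 : n = 0
    · rw [hn0, natDegree_zero]
      have : d.natDegree ≤ q.natDegree := by omega
      exact max_le (Nat.zero_le _) (this.trans (le_max_right _ _))
    · have e2 : p.natDegree = g.natDegree + n.natDegree := by rw [hp, natDegree_mul hg0 hn0]
      exact max_le_max (by omega) (by omega)
  · show _ ≤ max n.natDegree d.natDegree + g.natDegree
    have e2 : p.natDegree ≤ g.natDegree + n.natDegree := by rw [hp]; exact natDegree_mul_le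
    apply max_le
    · have := le_max_left n.natDegree d.natDegree
      omega
    · have := le_max_right n.natDegree d.natDegree
      omega

theorem fg_ht_fin [Finite k] (B : ℕ) : {x : K | fg_ht k x ≤ B}.Finite := by
  have hS : {p : k[X] | p.natDegree ≤ B}.Finite := by
    apply (Set.finite_range (fun c : Fin (B + 1) → k => ∑ i, C (c i) * X ^ (i : ℕ))).subset
    intro p hp
    refine ⟨fun i => p.coeff i, ?_⟩
    show ∑ i : Fin (B + 1), C (p.coeff i) * X ^ (i : ℕ) = p
    rw [Fin.sum_univ_eq_sum_range (fun i => C (p.coeff i) * X ^ i)]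
    exact (p.as_sum_range_C_mul_X_pow' (Nat.lt_succ_of_le hp)).symm
  apply ((hS.prod hS).image (fun pq : k[X] × k[X] =>
    algebraMap k[X] K pq.1 / algebraMap k[X] K pq.2)).subset
  intro x hx
  have hx' : max (IsFractionRing.num k[X] x).natDegree (IsFractionRing.den k[X] x : k[X]).natDegree
    ≤ B := hx
  refine ⟨(IsFractionRing.num k[X] x, (IsFractionRing.den k[X] x : k[X])), ⟨?_, ?_⟩,
    IsFractionRing.mk'_num_den' k[X] x⟩
  · exact (le_max_left _ _).trans hx'
  · exact (le_max_right _ _).trans hx'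

theorem fg_dm {p q : k[X]} {m n : ℕ} (hp : p.natDegree ≤ m) (hq : q.natDegree ≤ n) :
    (p * q).natDegree ≤ m + n := natDegree_mul_le.trans (Nat.add_le_add hp hq)

theorem fg_dad {p q : k[X]} {n : ℕ} (hp : p.natDegree ≤ n) (hq : q.natDegree ≤ n) :
    (p + q).natDegree ≤ n := (natDegree_add_le _ _).trans (max_le hp hq)

theorem fg_dsb {p q : k[X]} {n : ℕ} (hp : p.natDegree ≤ n) (hq : q.natDegree ≤ n) :
    (p - q).natDegree ≤ n := (natDegree_sub_le _ _).trans (max_le hp hq)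

theorem fg_dpw {p : k[X]} {n : ℕ} (m : ℕ) (hp : p.natDegree ≤ n) : (p ^ m).natDegree ≤ m * n :=
  natDegree_pow_le.trans (Nat.mul_le_mul_left m hp)

theorem fg_ht_le {p q : k[X]} (hq : q ≠ 0) {n : ℕ} (h1 : p.natDegree ≤ n) (h2 : q.natDegree ≤ n) :
    fg_ht k (algebraMap k[X] K p / algebraMap k[X] K q) ≤ n := by
  obtain ⟨g, -, -, -, h, -⟩ := fg_ht_quot (k := k) (K := K) (p := p) hq
  exact h.trans (max_le h1 h2)

theorem fg_ht_zero : fg_ht k (0 : K) = 0 := by
  have := fg_ht_le (k := k) (K := K) (p := 0) (q := 1) one_ne_zero (n := 0) (by simp) (by simp)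
  rw [map_zero, zero_div] at this
  omega

theorem fg_ht_rep (x : K) : ∃ p q : k[X], q ≠ 0 ∧ x = algebraMap k[X] K p / algebraMap k[X] K q ∧
    p.natDegree ≤ fg_ht k x ∧ q.natDegree ≤ fg_ht k x := by
  refine ⟨IsFractionRing.num k[X] x, (IsFractionRing.den k[X] x : k[X]),
    nonZeroDivisors.coe_ne_zero _, ?_, le_max_left _ _, le_max_right _ _⟩
  exact (IsFractionRing.mk'_num_den' k[X] x).symm

theorem fg_amne {q : k[X]} (hq : q ≠ 0) : algebraMap k[X] K q ≠ 0 := by
  rw [Ne, IsFractionRing.to_map_eq_zero_iff]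
  exact hq

theorem fg_ht_mul (x y : K) : fg_ht k (x * y) ≤ fg_ht k x + fg_ht k y := by
  obtain ⟨p, q, hq, e, h1, h2⟩ := fg_ht_rep (k := k) x
  obtain ⟨p', q', hq', e', h1', h2'⟩ := fg_ht_rep (k := k) y
  have : x * y = algebraMap k[X] K (p * p') / algebraMap k[X] K (q * q') := by
    rw [map_mul, map_mul, ← div_mul_div_comm, ← e, ← e']
  rw [this]
  exact fg_ht_le (mul_ne_zero hq hq') (fg_dm h1 h1') (fg_dm h2 h2')

theorem fg_ht_add (x y : K) : fg_ht k (x + y) ≤ fg_ht k x + fg_ht k y := by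
  obtain ⟨p, q, hq, e, h1, h2⟩ := fg_ht_rep (k := k) x
  obtain ⟨p', q', hq', e', h1', h2'⟩ := fg_ht_rep (k := k) y
  have : x + y = algebraMap k[X] K (p * q' + q * p') / algebraMap k[X] K (q * q') := by
    rw [map_add, map_mul, map_mul, map_mul]
    conv_lhs => rw [e, e', div_add_div _ _ (fg_amne hq) (fg_amne hq')]
  rw [this]
  exact fg_ht_le (mul_ne_zero hq hq') (fg_dad (fg_dm h1 h2') (fg_dm h2 h1')) (fg_dm h2 h2')

theorem fg_ht_sub (x y : K) : fg_ht k (x - y) ≤ fg_ht k x + fg_ht k y := by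
  obtain ⟨p, q, hq, e, h1, h2⟩ := fg_ht_rep (k := k) x
  obtain ⟨p', q', hq', e', h1', h2'⟩ := fg_ht_rep (k := k) y
  have : x - y = algebraMap k[X] K (p * q' - q * p') / algebraMap k[X] K (q * q') := by
    rw [map_sub, map_mul, map_mul, map_mul]
    conv_lhs => rw [e, e', div_sub_div _ _ (fg_amne hq) (fg_amne hq')]
  rw [this]
  exact fg_ht_le (mul_ne_zero hq hq') (fg_dsb (fg_dm h1 h2') (fg_dm h2 h1')) (fg_dm h2 h2')

theorem fg_ht_div (x y : K) : fg_ht k (x / y) ≤ fg_ht k x + fg_ht k y := by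
  by_cases hy : y = 0
  · rw [hy, div_zero, fg_ht_zero]
    exact Nat.zero_le _
  obtain ⟨p, q, hq, e, h1, h2⟩ := fg_ht_rep (k := k) x
  obtain ⟨p', q', hq', e', h1', h2'⟩ := fg_ht_rep (k := k) y
  have hp' : p' ≠ 0 := by
    rintro rfl
    rw [map_zero, zero_div] at e'
    exact hy e'
  have : x / y = algebraMap k[X] K (p * q') / algebraMap k[X] K (q * p') := by
    rw [map_mul, map_mul]
    conv_lhs => rw [e, e', div_div_div_eq]
  rw [this]
  exact fg_ht_le (mul_ne_zero hq hp') (fg_dm h1 h2') (fg_dm h2 h1')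

theorem fg_ht_sq (y : K) : 2 * fg_ht k y ≤ fg_ht k (y ^ 2) := by
  set n := IsFractionRing.num k[X] y with hn
  set d := (IsFractionRing.den k[X] y : k[X]) with hd
  have hd0 : d ≠ 0 := nonZeroDivisors.coe_ne_zero _
  have hrel : IsRelPrime n d := IsFractionRing.num_den_reduced k[X] y
  have e : y ^ 2 = algebraMap k[X] K (n ^ 2) / algebraMap k[X] K (d ^ 2) := by
    rw [map_pow, map_pow, ← div_pow]
    congr 1
    exact (IsFractionRing.mk'_num_den' k[X] y).symm
  obtain ⟨g, g1, g2, g3, -, g5⟩ := fg_ht_quot (k := k) (K := K) (p := n ^ 2) (pow_ne_zero 2 hd0)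
  rw [← e] at g5
  have hu : IsUnit g := (hrel.pow (m := 2) (n := 2)) g1 g2
  have hg0 : g.natDegree = 0 := natDegree_eq_zero_of_isUnit hu
  rw [hg0, add_zero, natDegree_pow, natDegree_pow] at g5
  refine le_trans ?_ g5
  show 2 * max n.natDegree d.natDegree ≤ _
  rw [Nat.mul_max_mul_left]

/-- the degree of a quartic form -/
theorem fg_d4 {p₀ p₁ p₂ p₃ p₄ u v : k[X]} {N h : ℕ} (h0 : p₀.natDegree ≤ N) (h1 : p₁.natDegree ≤ N)
    (h2 : p₂.natDegree ≤ N) (h3 : p₃.natDegree ≤ N) (h4 : p₄.natDegree ≤ N) (hu : u.natDegree ≤ h)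
    (hv : v.natDegree ≤ h) :
    (p₀ * u ^ 4 + p₁ * (u ^ 3 * v) + p₂ * (u ^ 2 * v ^ 2) + p₃ * (u * v ^ 3) + p₄ * v ^ 4).natDegree ≤
      N + 4 * h := by
  refine fg_dad (fg_dad (fg_dad (fg_dad ?_ ?_) ?_) ?_) ?_
  · exact fg_dm h0 (fg_dpw 4 hu)
  · exact (fg_dm h1 (fg_dm (fg_dpw 3 hu) hv)).trans (by omega)
  · exact (fg_dm h2 (fg_dm (fg_dpw 2 hu) (fg_dpw 2 hv))).trans (by omega)
  · exact (fg_dm h3 (fg_dm hu (fg_dpw 3 hv))).trans (by omega)
  · exact fg_dm h4 (fg_dpw 4 hv)

/-- the height of the duplication map -/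
theorem fg_ht_double (a b c : k[X]) (hΔ : (⟨0, a, 0, b, c⟩ : WeierstrassCurve k[X]).Δ ≠ 0) :
    ∃ C : ℕ, ∀ x : K, 4 * (x ^ 3 + algebraMap k[X] K a * x ^ 2 + algebraMap k[X] K b * x +
        algebraMap k[X] K c) ≠ 0 →
      4 * fg_ht k x ≤ fg_ht k ((x ^ 4 - 2 * algebraMap k[X] K b * x ^ 2 - 8 * algebraMap k[X] K c * x -
        (4 * algebraMap k[X] K a * algebraMap k[X] K c - algebraMap k[X] K b ^ 2)) /
        (4 * (x ^ 3 + algebraMap k[X] K a * x ^ 2 + algebraMap k[X] K b * x + algebraMap k[X] K c))) + C := by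
  set Δ := (⟨0, a, 0, b, c⟩ : WeierstrassCurve k[X]).Δ with hΔd
  set b2 : k[X] := 4 * a with hb2
  set b4 : k[X] := 2 * b with hb4
  set b6 : k[X] := 4 * c with hb6
  set b8 : k[X] := 4 * a * c - b ^ 2 with hb8
  have hΔe : Δ = -b2 ^ 2 * b8 - 8 * b4 ^ 3 - 27 * b6 ^ 2 + 9 * b2 * b4 * b6 := by
    rw [hΔd, WeierstrassCurve.Δ, WeierstrassCurve.b₂, WeierstrassCurve.b₄, WeierstrassCurve.b₆,
      WeierstrassCurve.b₈, hb2, hb4, hb6, hb8]
    ring
  -- the coefficients of the cofactors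
  set A0 : k[X] := -b2 ^ 2 * b8 + 9 * b2 * b4 * b6 - 8 * b4 ^ 3 - 27 * b6 ^ 2 with hA0
  set A1 : k[X] := 2 * (2 * b2 * b4 * b8 - 2 * b4 ^ 2 * b6 - 10 * b6 * b8) with hA1
  set A2 : k[X] := (-b2 * b6 * b8 + b4 * b6 ^ 2) + 4 * (3 * b4 ^ 2 * b8 - 3 * b4 * b6 ^ 2) with hA2
  set A3 : k[X] := 2 * (3 * b4 * b6 * b8 - 3 * b6 ^ 3) with hA3
  set B0 : k[X] := -b2 * b4 * b8 + b4 ^ 2 * b6 + 5 * b6 * b8 with hB0
  set B1 : k[X] := 2 * (2 * b2 * b6 * b8 - 2 * b4 * b6 ^ 2 - 10 * b8 ^ 2) with hB1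
  set B2 : k[X] := (-b2 * b8 ^ 2 + b4 * b6 * b8) + 4 * (3 * b4 * b6 * b8 - 3 * b6 ^ 3) with hB2
  set B3 : k[X] := 2 * (3 * b4 * b8 ^ 2 - 3 * b6 ^ 2 * b8) with hB3
  set C2 : k[X] := -48 with hC2
  set C3 : k[X] := -(8 * b2) with hC3
  set C4 : k[X] := b2 ^ 2 - 32 * b4 with hC4
  set D1 : k[X] := 12 with hD1
  set D2 : k[X] := -b2 with hD2
  set D3 : k[X] := -(10 * b4) with hD3
  set D4 : k[X] := b2 * b4 - 27 * b6 with hD4
  set N := A0.natDegree + A1.natDegree + A2.natDegree + A3.natDegree + B0.natDegree + B1.natDegree +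
    B2.natDegree + B3.natDegree + C2.natDegree + C3.natDegree + C4.natDegree + D1.natDegree +
    D2.natDegree + D3.natDegree + D4.natDegree with hN
  refine ⟨N + Δ.natDegree, fun x hx => ?_⟩
  obtain ⟨u, v, hv0, hrel, hxuv, hht⟩ : ∃ u v : k[X], v ≠ 0 ∧ IsRelPrime u v ∧
      algebraMap k[X] K u / algebraMap k[X] K v = x ∧ fg_ht k x = max u.natDegree v.natDegree :=
    ⟨IsFractionRing.num k[X] x, (IsFractionRing.den k[X] x : k[X]),
      nonZeroDivisors.coe_ne_zero _, IsFractionRing.num_den_reduced k[X] x,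
      IsFractionRing.mk'_num_den' k[X] x, rfl⟩
  have inj := IsFractionRing.injective k[X] K
  have hvK : algebraMap k[X] K v ≠ 0 := fg_amne hv0
  obtain ⟨F, hF⟩ : ∃ F : k[X], F = u ^ 4 - b4 * (u ^ 2 * v ^ 2) - 2 * b6 * (u * v ^ 3) - b8 * v ^ 4 :=
    ⟨_, rfl⟩
  obtain ⟨G, hG⟩ : ∃ G : k[X], G = 4 * (u ^ 3 * v) + b2 * (u ^ 2 * v ^ 2) + 2 * b4 * (u * v ^ 3) +
    b6 * v ^ 4 := ⟨_, rfl⟩
  have hxK : 4 * (x ^ 3 + algebraMap k[X] K a * x ^ 2 + algebraMap k[X] K b * x +
        algebraMap k[X] K c) = algebraMap k[X] K G / (algebraMap k[X] K v) ^ 4 := by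
    rw [eq_div_iff (pow_ne_zero 4 hvK), hG, hb2, hb4, hb6, ← hxuv]
    simp only [map_add, map_mul, map_pow, map_ofNat]
    field_simp
    ring
  have hG0 : G ≠ 0 := by
    intro h0
    apply hx
    rw [hxK, h0, map_zero, zero_div]
  have hGK : algebraMap k[X] K G ≠ 0 := fg_amne hG0
  have hnum : x ^ 4 - 2 * algebraMap k[X] K b * x ^ 2 - 8 * algebraMap k[X] K c * x -
        (4 * algebraMap k[X] K a * algebraMap k[X] K c - algebraMap k[X] K b ^ 2) =
      algebraMap k[X] K F / (algebraMap k[X] K v) ^ 4 := by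
    rw [eq_div_iff (pow_ne_zero 4 hvK), hF, hb8, hb4, hb6, ← hxuv]
    simp only [map_sub, map_mul, map_pow, map_ofNat]
    field_simp
    ring
  have hval : (x ^ 4 - 2 * algebraMap k[X] K b * x ^ 2 - 8 * algebraMap k[X] K c * x -
        (4 * algebraMap k[X] K a * algebraMap k[X] K c - algebraMap k[X] K b ^ 2)) /
        (4 * (x ^ 3 + algebraMap k[X] K a * x ^ 2 + algebraMap k[X] K b * x + algebraMap k[X] K c)) =
      algebraMap k[X] K F / algebraMap k[X] K G := by
    rw [hxK, hnum, div_div_div_cancel_right₀ (pow_ne_zero 4 hvK)]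
  rw [hval]
  obtain ⟨g, g1, g2, g3, g4, g5⟩ := fg_ht_quot (k := k) (K := K) (p := F) (q := G) hG0
  rw [hht]
  set h := max u.natDegree v.natDegree with hh
  have du : u.natDegree ≤ h := le_max_left _ _
  have dv : v.natDegree ≤ h := le_max_right _ _
  have id1 : Δ * u ^ 8 =
      (A0 * u ^ 4 + A1 * (u ^ 3 * v) + A2 * (u ^ 2 * v ^ 2) + A3 * (u * v ^ 3) + 0 * v ^ 4) * F +
      (B0 * u ^ 4 + B1 * (u ^ 3 * v) + B2 * (u ^ 2 * v ^ 2) + B3 * (u * v ^ 3) + 0 * v ^ 4) * G := by
    rw [hΔe, hF, hG, hA0, hA1, hA2, hA3, hB0, hB1, hB2, hB3, hb2, hb4, hb6, hb8]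
    ring
  have id2 : Δ * v ^ 8 =
      (0 * u ^ 4 + 0 * (u ^ 3 * v) + C2 * (u ^ 2 * v ^ 2) + C3 * (u * v ^ 3) + C4 * v ^ 4) * F +
      (0 * u ^ 4 + D1 * (u ^ 3 * v) + D2 * (u ^ 2 * v ^ 2) + D3 * (u * v ^ 3) + D4 * v ^ 4) * G := by
    rw [hΔe, hF, hG, hC2, hC3, hC4, hD1, hD2, hD3, hD4, hb2, hb4, hb6, hb8]
    ring
  have r1 : g ∣ Δ * u ^ 8 := by
    rw [id1]; exact dvd_add (g1.mul_left _) (g2.mul_left _)
  have r2 : g ∣ Δ * v ^ 8 := by
    rw [id2]; exact dvd_add (g1.mul_left _) (g2.mul_left _)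
  have hcop : IsCoprime (u ^ 8) (v ^ 8) := (hrel.isCoprime).pow
  have r3 : g ∣ Δ := by
    obtain ⟨s, t, hst⟩ := hcop
    have h3 : Δ = s * (Δ * u ^ 8) + t * (Δ * v ^ 8) := by
      linear_combination -Δ * hst
    rw [h3]
    exact dvd_add (r1.mul_left _) (r2.mul_left _)
  have dg : g.natDegree ≤ Δ.natDegree := natDegree_le_of_dvd r3 hΔ
  set M := max F.natDegree G.natDegree with hM
  have dF : F.natDegree ≤ M := le_max_left _ _
  have dG : G.natDegree ≤ M := le_max_right _ _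
  have z0 : (0 : k[X]).natDegree ≤ N := by rw [natDegree_zero]; exact Nat.zero_le _
  have hu8 : 8 * u.natDegree ≤ N + 4 * h + M := by
    by_cases hu0 : u = 0
    · rw [hu0, natDegree_zero]; omega
    · have h3 : (Δ * u ^ 8).natDegree = Δ.natDegree + 8 * u.natDegree := by
        rw [natDegree_mul hΔ (pow_ne_zero _ hu0), natDegree_pow]
      have h5 : (Δ * u ^ 8).natDegree ≤ N + 4 * h + M := by
        rw [id1]
        exact fg_dad (fg_dm (fg_d4 (by omega) (by omega) (by omega) (by omega) z0 du dv) dF)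
          (fg_dm (fg_d4 (by omega) (by omega) (by omega) (by omega) z0 du dv) dG)
      omega
  have hv8 : 8 * v.natDegree ≤ N + 4 * h + M := by
    have h3 : (Δ * v ^ 8).natDegree = Δ.natDegree + 8 * v.natDegree := by
      rw [natDegree_mul hΔ (pow_ne_zero _ hv0), natDegree_pow]
    have h5 : (Δ * v ^ 8).natDegree ≤ N + 4 * h + M := by
      rw [id2]
      exact fg_dad (fg_dm (fg_d4 z0 z0 (by omega) (by omega) (by omega) du dv) dF)
        (fg_dm (fg_d4 z0 (by omega) (by omega) (by omega) (by omega) du dv) dG)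
    omega
  have : 8 * h ≤ N + 4 * h + M := by
    rcases max_cases u.natDegree v.natDegree with ⟨e, -⟩ | ⟨e, -⟩
    · rw [hh, e]; rw [hh, e] at hu8; exact hu8
    · rw [hh, e]; rw [hh, e] at hv8; exact hv8
  omega

variable [DecidableEq K]

/-- the height of a point -/
noncomputable def fg_hp (k : Type) {K : Type} [Field k] [Field K] [Algebra k[X] K] [IsFractionRing k[X] K]
    {W : Affine K} : W.Point → ℕ
  | .zero => 0
  | .some x _ _ => fg_ht k x

theorem fg_eq {W : Affine K} (w1 : W.a₁ = 0) (w3 : W.a₃ = 0) {x y : K} (h : W.Nonsingular x y) :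
    y ^ 2 = ((x + W.a₂) * x + W.a₄) * x + W.a₆ := by
  have := (WeierstrassCurve.Affine.equation_iff (W := W) x y).1 h.1
  rw [w1, w3] at this
  linear_combination this

theorem fg_negY {W : Affine K} (w1 : W.a₁ = 0) (w3 : W.a₃ = 0) (x y : K) : W.negY x y = -y := by
  rw [WeierstrassCurve.Affine.negY, w1, w3]
  ring

/-- the height of a translate -/
theorem fg_hp_add {W : Affine K} (w1 : W.a₁ = 0) (w3 : W.a₃ = 0) (Q : W.Point) : ∃ c : ℕ,
    ∀ P : W.Point, fg_hp k (P + Q) ≤ 6 * fg_hp k P + c := by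
  rcases Q with _ | ⟨x2, y2, hxy2⟩
  · refine ⟨0, fun P => ?_⟩
    have : P + (Point.zero : W.Point) = P := add_zero P
    rw [this]
    omega
  set Q : W.Point := Point.some x2 y2 hxy2 with hQ
  set c2 := fg_ht k W.a₂ with hc2
  set c4 := fg_ht k W.a₄ with hc4
  set c6 := fg_ht k W.a₆ with hc6
  refine ⟨fg_hp k (Q + Q) + fg_hp k Q + 2 * fg_ht k y2 + 3 * fg_ht k x2 + 2 * c2 + 2 * c4 + 2 * c6 +
    3 * fg_ht k x2 + 2 * c2, fun P => ?_⟩
  rcases P with _ | ⟨x1, y1, hxy1⟩
  · have : (Point.zero : W.Point) + Q = Q := zero_add Q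
    rw [this]
    omega
  · have q1 := fg_eq w1 w3 hxy1
    have q2 := fg_eq w1 w3 hxy2
    have hy1 : 2 * fg_ht k y1 ≤ 3 * fg_ht k x1 + c2 + c4 + c6 := by
      refine (fg_ht_sq y1).trans ?_
      rw [q1]
      have g1 := fg_ht_add (k := k) (((x1 + W.a₂) * x1 + W.a₄) * x1) W.a₆
      have g2 := fg_ht_mul (k := k) ((x1 + W.a₂) * x1 + W.a₄) x1
      have g3 := fg_ht_add (k := k) ((x1 + W.a₂) * x1) W.a₄
      have g4 := fg_ht_mul (k := k) (x1 + W.a₂) x1
      have g5 := fg_ht_add (k := k) x1 W.a₂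
      omega
    by_cases hx : x1 = x2
    · subst hx
      have h3 : y1 ^ 2 = y2 ^ 2 := by rw [q1, q2]
      rcases sq_eq_sq_iff_eq_or_eq_neg.1 h3 with h | h
      · subst h
        show fg_hp k (Q + Q) ≤ _
        omega
      · have h4 : (Point.some x1 y1 hxy1 : W.Point) + Q = 0 := by
          rw [hQ]
          apply Point.add_of_Y_eq rfl
          rw [fg_negY w1 w3, h]
        rw [h4]
        show (0 : ℕ) ≤ _
        exact Nat.zero_le _
    · have h4 : (Point.some x1 y1 hxy1 : W.Point) + Q =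
          Point.some _ _ (nonsingular_add hxy1 hxy2 fun hxy => hx hxy.left) := Point.add_of_X_ne hx
      rw [h4]
      show fg_ht k _ ≤ 6 * fg_ht k x1 + _
      rw [slope_of_X_ne hx, addX, w1, zero_mul, add_zero]
      have g1 := fg_ht_sub (k := k) (((y1 - y2) / (x1 - x2)) ^ 2 - W.a₂ - x1) x2
      have g2 := fg_ht_sub (k := k) (((y1 - y2) / (x1 - x2)) ^ 2 - W.a₂) x1
      have g3 := fg_ht_sub (k := k) (((y1 - y2) / (x1 - x2)) ^ 2) W.a₂
      have g5 := fg_ht_mul (k := k) ((y1 - y2) / (x1 - x2)) ((y1 - y2) / (x1 - x2))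
      rw [← pow_two] at g5
      have g6 := fg_ht_div (k := k) (y1 - y2) (x1 - x2)
      have g7 := fg_ht_sub (k := k) y1 y2
      have g8 := fg_ht_sub (k := k) x1 x2
      omega

/-- the roots of a monic cubic -/
theorem fg_roots (a b c : K) : {x : K | x ^ 3 + a * x ^ 2 + b * x + c = 0}.Finite := by
  have h0 : (X ^ 3 + C a * X ^ 2 + C b * X + C c : K[X]) ≠ 0 := by
    intro h
    have := congrArg (fun p => coeff p 3) h
    simp [coeff_X, coeff_C] at this
  refine (((X ^ 3 + C a * X ^ 2 + C b * X + C c : K[X]).roots.toFinset).finite_toSet).subset ?_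
  intro x hx
  rw [Set.mem_setOf_eq] at hx
  simp only [Finset.mem_coe, Multiset.mem_toFinset]
  rw [mem_roots h0, IsRoot.def]
  simpa using hx

/-- the height of twice a point -/
theorem fg_hp_dbl (h2 : (2 : k) ≠ 0) (a b c : k[X])
    (hΔ : (⟨0, a, 0, b, c⟩ : WeierstrassCurve k[X]).Δ ≠ 0)
    {W : Affine K} (w1 : W.a₁ = 0) (w2 : W.a₂ = algebraMap k[X] K a) (w3 : W.a₃ = 0)
    (w4 : W.a₄ = algebraMap k[X] K b) (w6 : W.a₆ = algebraMap k[X] K c) : ∃ C : ℕ,
    ∀ R : W.Point, 4 * fg_hp k R ≤ fg_hp k (R + R) + C := by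
  obtain ⟨C, hC⟩ := fg_ht_double (K := K) a b c hΔ
  have h2K : (2 : K) ≠ 0 := by
    have : algebraMap k[X] K (Polynomial.C 2) = 2 := by rw [C_ofNat]; exact map_ofNat _ _
    rw [← this]
    exact fg_amne (by rwa [Ne, C_eq_zero])
  -- the points of order two
  obtain ⟨D, hD⟩ : ∃ D : ℕ, ∀ x ∈ {x : K | x ^ 3 + algebraMap k[X] K a * x ^ 2 + algebraMap k[X] K b * x +
      algebraMap k[X] K c = 0}, fg_ht k x ≤ D := by
    obtain ⟨D, hD⟩ := ((fg_roots (algebraMap k[X] K a) (algebraMap k[X] K b)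
      (algebraMap k[X] K c)).image (fg_ht k)).bddAbove
    exact ⟨D, fun x hx => hD ⟨x, hx, rfl⟩⟩
  refine ⟨C + 4 * D, fun R => ?_⟩
  rcases R with _ | ⟨x, y, hxy⟩
  · exact Nat.zero_le _
  have he := fg_eq w1 w3 hxy
  rw [w2, w4, w6] at he
  have he' : x ^ 3 + algebraMap k[X] K a * x ^ 2 + algebraMap k[X] K b * x + algebraMap k[X] K c = y ^ 2 := by
    rw [he]; ring
  by_cases hy : y = 0
  · have h1 : fg_ht k x ≤ D := by
      apply hD
      show x ^ 3 + algebraMap k[X] K a * x ^ 2 + algebraMap k[X] K b * x + algebraMap k[X] K c = 0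
      rw [he', hy]
      ring
    show 4 * fg_ht k x ≤ _
    omega
  · have hneg : y ≠ W.negY x y := by
      rw [fg_negY w1 w3]
      intro h
      apply hy
      have h3 : 2 * y = 0 := by linear_combination h
      exact (mul_eq_zero.1 h3).resolve_left h2K
    have h4 : (Point.some x y hxy : W.Point) + Point.some x y hxy =
        Point.some _ _ (nonsingular_add hxy hxy fun h => hneg h.right) := Point.add_self_of_Y_ne hneg
    rw [h4]
    show 4 * fg_ht k x ≤ fg_ht k _ + _
    rw [slope_of_Y_ne rfl hneg, addX, w1, w2, w4, fg_negY w1 w3]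
    have h4K : (4 : K) ≠ 0 := by
      have : (4 : K) = 2 * 2 := by norm_num
      rw [this]
      exact mul_ne_zero h2K h2K
    have h5 : 4 * (x ^ 3 + algebraMap k[X] K a * x ^ 2 + algebraMap k[X] K b * x +
        algebraMap k[X] K c) ≠ 0 := by
      rw [he']
      exact mul_ne_zero h4K (pow_ne_zero 2 hy)
    have h6 := hC x h5
    have h7 : ((3 * x ^ 2 + 2 * algebraMap k[X] K a * x + algebraMap k[X] K b - 0 * y) / (y - -y)) ^ 2 +
        0 * ((3 * x ^ 2 + 2 * algebraMap k[X] K a * x + algebraMap k[X] K b - 0 * y) / (y - -y)) -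
        algebraMap k[X] K a - x - x =
        (x ^ 4 - 2 * algebraMap k[X] K b * x ^ 2 - 8 * algebraMap k[X] K c * x -
        (4 * algebraMap k[X] K a * algebraMap k[X] K c - algebraMap k[X] K b ^ 2)) /
        (4 * (x ^ 3 + algebraMap k[X] K a * x ^ 2 + algebraMap k[X] K b * x + algebraMap k[X] K c)) := by
      rw [he']
      have h8 : y - -y = 2 * y := by ring
      rw [h8, eq_div_iff (mul_ne_zero h4K (pow_ne_zero 2 hy))]
      have h9 : ((3 * x ^ 2 + 2 * algebraMap k[X] K a * x + algebraMap k[X] K b - 0 * y) / (2 * y)) ^ 2 *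
          (4 * y ^ 2) = (3 * x ^ 2 + 2 * algebraMap k[X] K a * x + algebraMap k[X] K b) ^ 2 := by
        field_simp
        ring
      linear_combination h9 - 4 * (algebraMap k[X] K a + x + x) * (-he')
    rw [h7]
    omega

/-- there are finitely many points of bounded height -/
theorem fg_hp_fin [Finite k] {W : Affine K} (w1 : W.a₁ = 0) (w3 : W.a₃ = 0) (C : ℕ) :
    {P : W.Point | fg_hp k P ≤ C}.Finite := by
  have hfx := fg_ht_fin (k := k) (K := K) C
  apply Set.Finite.of_finite_fibers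
    (fun P : W.Point => (match P with | .zero => none | .some x _ _ => some x : Option K))
  · apply ((hfx.image some).union (Set.finite_singleton none)).subset
    rintro o ⟨P, hP, rfl⟩
    rcases P with _ | ⟨x, y, hxy⟩
    · right; rfl
    · left; exact ⟨x, hP, rfl⟩
  · intro o ho
    rcases o with _ | x
    · apply (Set.finite_singleton (0 : W.Point)).subset
      rintro P ⟨-, hP⟩
      rcases P with _ | ⟨x, y, hxy⟩
      · rfl
      · cases hP
    · have hroots : {y : K | y ^ 2 = ((x + W.a₂) * x + W.a₄) * x + W.a₆}.Finite := by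
        set c := ((x + W.a₂) * x + W.a₄) * x + W.a₆ with hc
        by_cases hy : ∃ y0 : K, y0 ^ 2 = c
        · obtain ⟨y0, hy0⟩ := hy
          apply (Set.toFinite ({y0, -y0} : Set K)).subset
          intro y hy
          have : y ^ 2 = y0 ^ 2 := by rw [hy0]; exact hy
          rcases sq_eq_sq_iff_eq_or_eq_neg.1 this with h | h
          · left; exact h
          · right; exact h
        · apply Set.finite_empty.subset
          intro y hy'
          exact hy ⟨y, hy'⟩
      apply Set.Finite.of_finite_image (f := fun P : W.Point =>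
        (match P with | .zero => 0 | .some _ y _ => y : K))
      · apply hroots.subset
        rintro y ⟨P, ⟨-, hP⟩, rfl⟩
        rcases P with _ | ⟨x', y, hxy⟩
        · cases hP
        · have hx' : x' = x := Option.some.inj hP
          subst hx'
          exact fg_eq w1 w3 hxy
      · rintro P ⟨-, hP⟩ P' ⟨-, hP'⟩ hyy
        rcases P with _ | ⟨x1, y1, hxy1⟩
        · cases hP
        · rcases P' with _ | ⟨x2, y2, hxy2⟩
          · cases hP'
          · have e1 : x1 = x := Option.some.inj hP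
            have e2 : x2 = x := Option.some.inj hP'
            have e3 : y1 = y2 := hyy
            subst e1 e3
            subst e2
            rfl

/-- **Mordell-Weil** -/
theorem fg_main [Finite k] (h2 : (2 : k) ≠ 0) (a b c : k[X])
    (hΔ : (⟨0, a, 0, b, c⟩ : WeierstrassCurve k[X]).Δ ≠ 0)
    {W : Affine K} (w1 : W.a₁ = 0) (w2 : W.a₂ = algebraMap k[X] K a) (w3 : W.a₃ = 0)
    (w4 : W.a₄ = algebraMap k[X] K b) (w6 : W.a₆ = algebraMap k[X] K c)
    (hfin : Finite (W.Point ⧸ (nsmulAddMonoidHom (α := W.Point) 2).range)) :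
    AddGroup.FG W.Point := by
  obtain ⟨C, hC⟩ := fg_hp_dbl (K := K) h2 a b c hΔ w1 w2 w3 w4 w6
  have hadd := fg_hp_add (k := k) w1 w3
  choose c' hc using hadd
  haveI : Northcott (fun P : W.Point => (fg_hp k P : ℝ)) := by
    refine ⟨fun b => ?_⟩
    apply (fg_hp_fin (k := k) w1 w3 ⌊b⌋₊).subset
    intro P hP
    have hP' : (fg_hp k P : ℝ) ≤ b := hP
    exact Nat.le_floor hP'
  have hcov : ∀ P : W.Point, ∃ s ∈ Set.range (Quotient.out :
      (W.Point ⧸ (nsmulAddMonoidHom (α := W.Point) 2).range) → W.Point), ∃ R, P = s + (R + R) := by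
    intro P
    refine ⟨_, ⟨(QuotientAddGroup.mk P), rfl⟩, ?_⟩
    have h3 : (QuotientAddGroup.mk (Quotient.out (QuotientAddGroup.mk P :
        (W.Point ⧸ (nsmulAddMonoidHom (α := W.Point) 2).range))) :
        (W.Point ⧸ (nsmulAddMonoidHom (α := W.Point) 2).range)) = QuotientAddGroup.mk P :=
      Quotient.out_eq _
    rw [QuotientAddGroup.eq] at h3
    obtain ⟨R, hR⟩ := h3
    refine ⟨R, ?_⟩
    rw [nsmulAddMonoidHom_apply, two_nsmul] at hR
    rw [hR]
    abel
  have hS : (Set.range (Quotient.out :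
      (W.Point ⧸ (nsmulAddMonoidHom (α := W.Point) 2).range) → W.Point)).Finite := Set.finite_range _
  set S := Set.range (Quotient.out :
      (W.Point ⧸ (nsmulAddMonoidHom (α := W.Point) 2).range) → W.Point) with hSd
  refine AddCommGroup.fg_of_descent (n := 4)
    (h := fun P : W.Point => (fg_hp k P : ℝ))
    (a := 6) (b := 16) (c₀ := 5 * C) (c := fun Q => (c' (-Q) : ℝ)) (by norm_num) (by norm_num) ?_ ?_ ?_
  · rw [AddSubgroup.finiteIndex_iff_finite_quotient]
    haveI := hS.to_subtype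
    have hsurj : Function.Surjective (fun u : S × S =>
        (QuotientAddGroup.mk (s := (nsmulAddMonoidHom (α := W.Point) 4).range)
          (u.1.1 + (u.2.1 + u.2.1)))) := by
      intro q
      obtain ⟨P, rfl⟩ := QuotientAddGroup.mk_surjective q
      obtain ⟨s, hs, R, hR⟩ := hcov P
      obtain ⟨s', hs', R', hR'⟩ := hcov R
      refine ⟨(⟨s, hs⟩, ⟨s', hs'⟩), ?_⟩
      rw [QuotientAddGroup.eq]
      refine ⟨R', ?_⟩
      rw [nsmulAddMonoidHom_apply, hR, hR']
      have e4 : (4 : ℕ) • R' = R' + R' + (R' + R') := by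
        rw [show (4 : ℕ) = 2 * 2 from rfl, mul_nsmul, two_nsmul, two_nsmul]
      rw [e4]
      show _ = -(s + (s' + s')) + (s + (s' + (R' + R') + (s' + (R' + R'))))
      abel
    exact Finite.of_surjective _ hsurj
  · intro g x
    have h := hc (-g) (g + x)
    have e : g + x + -g = x := by abel
    rw [e] at h
    exact_mod_cast h
  · intro x
    have h3 := hC x
    have h4 := hC (x + x)
    have e4 : (4 : ℕ) • x = x + x + (x + x) := by
      rw [show (4 : ℕ) = 2 * 2 from rfl, mul_nsmul, two_nsmul, two_nsmul]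
    show (16 : ℝ) * fg_hp k x - 5 * C ≤ fg_hp k (4 • x)
    rw [e4]
    have h5 : 16 * fg_hp k x ≤ fg_hp k (x + x + (x + x)) + 5 * C := by omega
    have h6 : (16 : ℝ) * fg_hp k x ≤ fg_hp k (x + x + (x + x)) + 5 * C := by exact_mod_cast h5
    linarith

end heights

theorem t_fg : S_fg := by
  intro F _ _ _ h2 a b c hΔ hfin
  exact fg_main (k := F) (K := RatFunc F) h2 a b c hΔ (map_zero _) rfl (map_zero _) rfl rfl hfin

end Pool.Agent.H456.BQ
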