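import Pool.Agent.H456.BQ.Asm4
import Pool.Agent.H456.BQ.T_fg

/-!
# The average over all isomorphism classes: the group of points modulo doubles and the rank
-/

set_option autoImplicit false
set_option linter.all false

open Polynomial Finset Filter
open Pool.Agent.H456.EC
open Pool.Agent.H456.RN

namespace Pool.Agent.H456.BQ

theorem two_pow_le (A : Type) [AddCommGroup A] (hfg : AddGroup.FG A)
    (hfin : Finite (A ⧸ (nsmulAddMonoidHom (α := A) 2).range)) :
    2 ^ Module.finrank ℤ A ≤ Nat.card (A ⧸ (nsmulAddMonoidHom (α := A) 2).range) := by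
  have hM : Module.Finite ℤ A := Module.Finite.iff_addGroup_fg.2 hfg
  set T := Submodule.torsion ℤ A with hT
  have h1 : Module.finrank ℤ (A ⧸ T) = Module.finrank ℤ A := finrank_quotient_eq_of_le_torsion le_rfl
  have hfree : Module.Free ℤ (A ⧸ T) := Module.free_of_finite_type_torsion_free'
  have b := Module.finBasis ℤ (A ⧸ T)
  rw [h1] at b
  set r := Module.finrank ℤ A with hr
  let φ : A →+ (Fin r → ZMod 2) :=
    { toFun := fun a i => ((b.repr (Submodule.Quotient.mk a) i : ℤ) : ZMod 2)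
      map_zero' := by ext i; simp
      map_add' := by intro x y; ext i; simp }
  have hφ : Function.Surjective φ := by
    intro v
    obtain ⟨a, ha⟩ := Submodule.Quotient.mk_surjective T (∑ i, (ZMod.cast (v i) : ℤ) • b i)
    refine ⟨a, ?_⟩
    funext i
    change ((b.repr (Submodule.Quotient.mk a) i : ℤ) : ZMod 2) = v i
    rw [ha, b.repr_sum_self]
    simp
  have hker : (nsmulAddMonoidHom (α := A) 2).range ≤ φ.ker := by
    rintro _ ⟨a, rfl⟩
    rw [AddMonoidHom.mem_ker, nsmulAddMonoidHom_apply, map_nsmul]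
    funext i
    change (2 : ℕ) • (φ a i) = 0
    rw [nsmul_eq_mul]
    have : ((2 : ℕ) : ZMod 2) = 0 := ZMod.natCast_self 2
    rw [this, zero_mul]
  have hsurj : Function.Surjective (QuotientAddGroup.lift _ φ hker) := by
    intro v
    obtain ⟨a, rfl⟩ := hφ v
    exact ⟨QuotientAddGroup.mk a, rfl⟩
  have h3 := Nat.card_le_card_of_surjective _ hsurj
  have h4 : Nat.card (Fin r → ZMod 2) = 2 ^ r := by
    rw [Nat.card_fun, Nat.card_zmod]
    simp
  rw [h4] at h3
  exact h3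

section

variable {K : Type} [Field K]

open Classical in
/-- the rank of the group of points -/
noncomputable def rk (E : WeierstrassCurve K) : ℕ := Module.finrank ℤ E.toAffine.Point

open Classical in
/-- the group of points is finitely generated -/
def FGp (E : WeierstrassCurve K) : Prop := AddGroup.FG E.toAffine.Point

end

variable {F : Type} [Field F] [Fintype F]

open Classical in
theorem CL_data (h2 : (2 : F) ≠ 0) {d : ℕ} {κ : KC F} (hκ : κ ∈ CL F d) :
    FGp κ.out ∧ 2 ^ rk κ.out ≤ mwc κ ∧ 1 ≤ mwc κ := by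
  have h1 : κ ∈ (CL F d : Set (KC F)) := hκ
  rw [coe_CL] at h1
  obtain ⟨W, hW, rfl⟩ := h1
  obtain ⟨f, s, t, hd, hs, ht, rfl⟩ := lng_surj h2 hW
  have hcls : cls (lng (f, s, t)) = cls (crv f) := cls_tr
  rw [hcls]
  have hdisc : f.disc ≠ 0 := by
    intro h0
    apply hW.1
    have e1 : (lng (f, s, t)).Δ = (crv f).Δ := tr_Δ _ _ _ _
    rw [e1, crv_Δ, h0, mul_zero]
  have h16 : (16 : F[X]) ≠ 0 := by
    have : (16 : F[X]) = C ((2 : F) ^ 4) := by
      rw [C_pow, C_ofNat]; norm_num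
    rw [this]
    exact C_ne_zero.2 (pow_ne_zero _ h2)
  have hΔ : (crv f).Δ ≠ 0 := by
    rw [crv_Δ]
    exact mul_ne_zero h16 hdisc
  have hΔK : ((crv f).map (toK F)).Δ ≠ 0 := by
    rw [WeierstrassCurve.map_Δ]
    exact (map_ne_zero_iff _ toK_inj).2 hΔ
  have hQ := finite_Q2 h2 hdisc
  have hcard : mwc (cls (crv f)) = Nat.card (Q2 f) := mwc_crv h2 hdisc
  have hfin : Finite ((((crv f).map (toK F)).toAffine.Point) ⧸
      (nsmulAddMonoidHom (α := (((crv f).map (toK F)).toAffine.Point)) 2).range) := by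
    rw [crv_map]
    exact hQ
  have hfg : AddGroup.FG (((crv f).map (toK F)).toAffine.Point) := t_fg F h2 f.a f.b f.c hΔ hfin
  obtain ⟨C, hC⟩ := out_cls (W := crv f)
  have e := pEquiv ((crv f).map (toK F)) C hΔK
  rw [hC] at e
  have hfg' : AddGroup.FG ((cls (crv f)).out.toAffine.Point) :=
    haveI := hfg
    AddGroup.fg_of_surjective (f := e.symm.toAddMonoidHom) e.symm.surjective
  have hfin' : Finite ((cls (crv f)).out.toAffine.Point ⧸
      (nsmulAddMonoidHom (α := (cls (crv f)).out.toAffine.Point) 2).range) := by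
    apply Nat.finite_of_card_ne_zero
    rw [card_quot_congr e]
    have := hfin
    exact Nat.card_pos.ne'
  refine ⟨hfg', ?_, ?_⟩
  · exact two_pow_le _ hfg' hfin'
  · have := hfin'
    exact Nat.card_pos

/-- **the average of `#E(K)/2E(K)` is at most `3`** -/
theorem avg_le (H : Hyp) (h2 : (2 : F) ≠ 0) (ε : ℝ) (hε : 0 < ε) :
    ∀ᶠ d in atTop, ∑ κ ∈ CL F d, (mwc κ : ℝ) ≤ (3 + ε) * (CL F d).card := by
  classical
  have h := cls_limit (F := F) h2 (β := 2) (c := 1 / 4) (by norm_num) (by norm_num)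
    (fun ε hε => (H1 (F := F) H h2 ε hε).mono fun n hn => hn _ (fun f => mem_filter)) (H3 h2) ε hε
  filter_upwards [h] with d hd
  rw [sum_sub_distrib, sum_const, nsmul_eq_mul, mul_one] at hd
  linarith

theorem rk_le {r m : ℕ} (h : 2 ^ r ≤ m) : (r : ℝ) ≤ m / 2 := by
  have h1 : 2 * r ≤ 2 ^ r := by
    induction r with
    | zero => norm_num
    | succ r ih =>
      rcases Nat.eq_zero_or_pos r with h0 | h0
      · subst h0; norm_num
      · have h3 := ih ((Nat.pow_le_pow_right (by norm_num) (Nat.le_succ r)).trans h)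
        have h4 : 2 ≤ 2 ^ r := by
          calc 2 = 2 ^ 1 := by norm_num
            _ ≤ 2 ^ r := Nat.pow_le_pow_right (by norm_num) h0
        rw [pow_succ]
        omega
  have h3 : ((2 * r : ℕ) : ℝ) ≤ (m : ℝ) := by exact_mod_cast h1.trans h
  push_cast at h3
  linarith

open Classical in
/-- **the average rank is at most `3/2`, and the rank is at most one for at least one third of the curves** -/
theorem final (H : Hyp) (h2 : (2 : F) ≠ 0) (ε : ℝ) (hε : 0 < ε) : ∃ d₀ : ℕ, ∀ d ≥ d₀,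
    (∀ κ ∈ cls '' Eqn F d, FGp κ.out) ∧
    ∑ᶠ κ ∈ cls '' Eqn F d, (mw2 κ.out : ℝ) ≤ (3 + ε) * ((cls '' Eqn F d).ncard : ℝ) ∧
    ∑ᶠ κ ∈ cls '' Eqn F d, (rk κ.out : ℝ) ≤ (3 / 2 + ε) * ((cls '' Eqn F d).ncard : ℝ) ∧
    (1 / 3 - ε) * ((cls '' Eqn F d).ncard : ℝ) ≤ (({κ | κ ∈ cls '' Eqn F d ∧ rk κ.out ≤ 1}).ncard : ℝ) := by
  obtain ⟨d₀, hd₀⟩ := eventually_atTop.1 (avg_le (F := F) H h2 ε hε)
  refine ⟨d₀, fun d hd => ?_⟩
  have h1 := hd₀ d hd
  have hset : cls '' Eqn F d = (CL F d : Set (KC F)) := (coe_CL d).symm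
  rw [hset, Set.ncard_coe_finset, finsum_mem_coe_finset, finsum_mem_coe_finset]
  have hN : (0 : ℝ) ≤ (CL F d).card := Nat.cast_nonneg _
  refine ⟨fun κ hκ => (CL_data h2 (mem_coe.1 hκ)).1, h1, ?_, ?_⟩
  · have h3 : ∑ κ ∈ CL F d, (rk κ.out : ℝ) ≤ ∑ κ ∈ CL F d, (mwc κ : ℝ) / 2 :=
      sum_le_sum fun κ hκ => rk_le (CL_data h2 hκ).2.1
    rw [← sum_div] at h3
    have : (3 + ε) * ((CL F d).card : ℝ) / 2 ≤ (3 / 2 + ε) * ((CL F d).card : ℝ) := by nlinarith
    linarith
  · have e1 : ({κ | κ ∈ (CL F d : Set (KC F)) ∧ rk κ.out ≤ 1} : Set (KC F)) =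
        ((CL F d).filter (fun κ => rk κ.out ≤ 1) : Finset (KC F)) := by
      ext κ
      simp
    rw [e1, Set.ncard_coe_finset]
    have h3 : ∑ κ ∈ CL F d, (if rk κ.out ≤ 1 then (1 : ℝ) else 4) ≤ ∑ κ ∈ CL F d, (mwc κ : ℝ) := by
      apply sum_le_sum
      intro κ hκ
      obtain ⟨-, h4, h5⟩ := CL_data h2 hκ
      split_ifs with h6
      · exact_mod_cast h5
      · have h7 : 2 ^ 2 ≤ 2 ^ rk κ.out := Nat.pow_le_pow_right (by norm_num) (by omega)
        have h8 : 4 ≤ mwc κ := by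
          calc 4 = 2 ^ 2 := by norm_num
            _ ≤ _ := h7.trans h4
        exact_mod_cast h8
    rw [sum_ite, sum_const, sum_const, nsmul_eq_mul, nsmul_eq_mul, mul_one] at h3
    have h4 := card_filter_add_card_filter_not (s := CL F d) (fun κ => rk κ.out ≤ 1)
    have h5 : (((CL F d).filter (fun κ => rk κ.out ≤ 1)).card : ℝ) +
        (((CL F d).filter (fun κ => ¬ rk κ.out ≤ 1)).card : ℝ) = (CL F d).card := by exact_mod_cast h4
    nlinarith

end Pool.Agent.H456.BQ
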