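import Pool.Agent.H456.BQ.Stm3
import Pool.Agent.H456.BQ.Cnt
import Pool.Agent.H456.BQ.Eq

/-!
# Gluing, preliminaries
-/

set_option autoImplicit false
set_option linter.all false

open Polynomial Finset
open Pool.Agent.H456.EC (toK toK_inj sig toK_eq reflect_toK)
open Pool.Agent.H456.RN

namespace Pool.Agent.H456.BQ

section

variable {F : Type} [Field F]

/-- the action on the pairs corresponds to the multiplication of the matrices -/
theorem Rep_act {f : Cub F[X]} {x y : RatFunc F} {M : M2 (RatFunc F)} {p : Q4 F[X] × F[X]}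
    (r : Rep (f.map (toK F)) x y M (p.1.map (toK F)) (toK F p.2)) {B : M2 F[X]} {c : F} (hc : c ≠ 0)
    (hB : B.det = C c) :
    Rep (f.map (toK F)) x y (M.mul (B.map (toK F))) ((act p B c).1.map (toK F)) (toK F (act p B c).2) := by
  have h1 : toK F (C c⁻¹) * (B.map (toK F)).det = 1 := by
    rw [M2.map_det, hB, ← map_mul, ← C_mul, inv_mul_cancel₀ hc, C_1, map_one]
  have h3 := r.mul h1
  have e1 : (act p B c).1.map (toK F) = ((p.1.map (toK F)).sub (B.map (toK F))).smul (toK F (C c⁻¹) ^ 2) := by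
    rw [act, Q4.map_smul, Q4.map_sub, map_pow]
  have e2 : toK F (act p B c).2 = toK F p.2 + toK F (C c⁻¹) ^ 2 * (p.1.map (toK F)).tau (B.map (toK F)) := by
    rw [act, map_add, map_mul, map_pow, Q4.map_tau]
  rw [e1, e2]
  exact h3

theorem revV_res {n e : ℕ} (he : e ≤ n) {f G} (hd : CDg n f) (hG : BdN n e G) {r : F[X]} (hr : r.natDegree ≤ 2 * n)
    (h : G.res = (f.sc 4).tr r) : (revV n e G).res = ((crev n f).sc 4).tr (reflect (2 * n) r) := by
  apply Cub.map_inj (sig F) sig_inj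
  rw [← Q4.map_res, revV_map he hG, Q4.res_smul, Q4.res_sub, Q4.map_res, h, Cub.map_tr, Cub.map_sc, Cub.map_tr,
    Cub.map_sc, crev_map hd, sig_reflect hr, map_ofNat, map_ofNat]
  have ht : Q4.tau (G.map (toK F)) ⟨1, 0, 0, tt F (-(e : ℤ))⟩ = 0 := by
    simp only [Q4.tau]; ring
  have hdet : M2.det (⟨1, 0, 0, tt F (-(e : ℤ))⟩ : M2 (RatFunc F)) = tt F (-(e : ℤ)) := by
    simp only [M2.det]; ring
  have e1 : tt F (-(e : ℤ)) ^ 2 * tt F (2 * e - 2 * n) = tt F (-(n : ℤ)) ^ 2 := by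
    rw [tt_pow, tt_pow, ← tt_add]; congr 1; push_cast; ring
  have e2 : tt F (-((2 * n : ℕ) : ℤ)) = tt F (-(n : ℤ)) ^ 2 := by
    rw [tt_pow]; congr 1; push_cast; ring
  rw [ht, Cub.tr_zero, hdet, Cub.sc_sc, e1, e2]
  ext <;> simp only [Cub.tr, Cub.sc, Cub.map] <;> ring

end

section fin

variable {F : Type} [Field F] [Fintype F]

theorem TB_of {e : ℕ} {t : M2 F[X] × F} (ht : t ∈ Tn F e) : TB e t.1 := by
  classical
  refine ⟨⟨t.2, Tn_det ht⟩, ?_⟩
  unfold Tn at ht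
  rw [mem_union] at ht
  rcases ht with ht | ht
  · rw [mem_image] at ht
    obtain ⟨x, hx, rfl⟩ := ht
    rw [mem_product, mem_PL_iff] at hx
    exact ⟨natDegree_C _, hx.2, natDegree_one, Or.inl rfl⟩
  · split_ifs at ht with he
    · rw [mem_image] at ht
      obtain ⟨x, hx, rfl⟩ := ht
      exact ⟨natDegree_C _, by simp only [natDegree_C]; exact Nat.zero_le _, natDegree_C _,
        Or.inr ⟨he, natDegree_one⟩⟩
    · exact absurd ht (notMem_empty _)

theorem redV_at (S : Finset (Pl F)) (M n e : ℕ) (G : Q4 F[X]) (P : S) :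
    (redV S M n e G).at P = G.map (Ideal.Quotient.mk (Ideal.span {P.1.1 ^ M})) := rfl

theorem redV_inf (S : Finset (Pl F)) (M n e : ℕ) (G : Q4 F[X]) :
    (redV S M n e G).inf = (revV n e G).map (Ideal.Quotient.mk (Ideal.span {(X : F[X]) ^ M})) := rfl

/-- the local weight at a finite place -/
noncomputable def phP (P : Pl F) {M : ℕ} (hM : 1 ≤ M) (W : Cub (Rq (P.1 ^ M)) → ℝ) (g : Q4 (Rq (P.1 ^ M))) : ℝ :=
  ((g.map (redP P.1 hM)).sp : ℝ) * W g.res

/-- the local weight at infinity -/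
noncomputable def phX (F : Type) [Field F] [Fintype F] {M : ℕ} (hM : 1 ≤ M) (W : Cub (Rq ((X : F[X]) ^ M)) → ℝ)
    (g : Q4 (Rq ((X : F[X]) ^ M))) : ℝ := ((g.map (redP (X : F[X]) hM)).sp : ℝ) * W g.res

/-- the weight of a quartic -/
noncomputable def Ph (S : Finset (Pl F)) {M : ℕ} (hM : 1 ≤ M) (W : (P : Pl F) → Cub (Rq (P.1 ^ M)) → ℝ)
    (Wi : Cub (Rq ((X : F[X]) ^ M)) → ℝ) (g : Q4 (RB S M)) : ℝ :=
  (∏ P : S, phP P.1 hM (W P.1) (g.at P)) * phX F hM Wi g.inf

theorem map_redP {P : F[X]} {M : ℕ} (hM : 1 ≤ M) (G : Q4 F[X]) :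
    (G.map (Ideal.Quotient.mk (Ideal.span {P ^ M}))).map (redP P hM) =
      G.map (Ideal.Quotient.mk (Ideal.span {P ^ 1})) := by
  ext <;> simp only [Q4.map, redP] <;> exact Ideal.Quotient.factor_mk _ _

end fin

end Pool.Agent.H456.BQ
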