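import Pool.Agent.H456.BQ.Gl1

/-!
# Gluing: the weighted number of the representatives of a class
-/

set_option autoImplicit false
set_option linter.all false

open Polynomial Finset
open Pool.Agent.H456.EC (toK toK_inj sig toK_eq reflect_toK)
open Pool.Agent.H456.RN

namespace Pool.Agent.H456.BQ

variable {F : Type} [Field F] [Fintype F]

/-- the data for one tuple of local lattices -/
theorem tuple_data (ht : S_tup) (h2 : (2 : F) ≠ 0) {n : ℕ} {f : Cub F[X]} (hf : f.disc ≠ 0) (hd : CDg n f)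
    {x y : RatFunc F} (hxy : y ^ 2 = (f.map (toK F)).ev x) (hσ : kP h2 hf hxy ≠ 0)
    (S : Finset (Pl F)) (Λ : Pl F → M2 (RatFunc F)) (g : Pl F → Q4 (RatFunc F))
    (H : Pl F → Q4 F[X]) (hS : ∀ P ∈ S, (Λ P).det ≠ 0 ∧
      (gp (f.map (toK F)) x y).sub (Λ P) = (g P).smul ((Λ P).det ^ 2) ∧ RedTo P (g P) (H P))
    {Ni : M2 (RatFunc F)} {gi : Q4 (RatFunc F)} {Hi : Q4 F[X]} (hNi : Ni.det ≠ 0)
    (hi : (gp (f.map (toK F)) x y).sub Ni = gi.smul (tt F (2 * n) * Ni.det ^ 2)) (hr : RedI gi Hi) :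
    ∃ (e : ℕ) (M : M2 (RatFunc F)) (p : Q4 F[X] × F[X]), e ≤ n ∧
      Rep (f.map (toK F)) x y M (p.1.map (toK F)) (toK F p.2) ∧ BdN n e p.1 ∧ p.2.natDegree ≤ 2 * n ∧
      (∀ P ∈ S, LEq (LocP P) M (Λ P)) ∧ LEq (Oi F) (M.mul ⟨1, 0, 0, tt F (-(e : ℤ))⟩) Ni := by
  obtain ⟨e, M, G, hM, hMG, hB, hL, hLi⟩ := ht F n f x y hxy S Λ g H hS Ni gi Hi hNi hi hr
  obtain ⟨ρ, r⟩ := exists_rep hM hMG
  have hA : G.A ≠ 0 := by
    intro h0
    apply hσ
    have h1 := congrArg Q4.A hMG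
    have h3 : ((gp (f.map (toK F)) x y).sub M).A = (gp (f.map (toK F)) x y).ev M.α M.γ := by
      simp only [Q4.sub, Q4.ev]; ring
    rw [h3] at h1
    have h4 : (gp (f.map (toK F)) x y).ev M.α M.γ = 0 := by
      rw [h1]; simp only [Q4.smul, Q4.map, h0, map_zero, mul_zero]
    have h5 : ¬ (M.α = 0 ∧ M.γ = 0) := by
      rintro ⟨a, b⟩
      apply hM
      simp only [M2.det, a, b]; ring
    exact kP_zero_of_root h2 hf hxy h5 h4
  have he : e ≤ n := by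
    rcases hB.1 with h | h
    · exact absurd h hA
    · omega
  have hBN := BdN_of he hB
  obtain ⟨r', hr', hdr⟩ := rho_int hd (deg_res_c he hBN) (r.res hxy)
  have r2 : Rep (f.map (toK F)) x y M (G.map (toK F)) (toK F r') := by rw [hr']; exact r
  exact ⟨e, M, (G, r'), he, r2, hBN, hdr, hL, hLi⟩

/-- the value of the weight on the orbit of a model with given local lattices -/
theorem Ph_ge (hP : S_spP) (hPI : S_spI) (hdis : S_dis) (h2 : (2 : F) ≠ 0) {n M : ℕ} (hM : 1 ≤ M)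
    (S : Finset (Pl F)) {f : Cub F[X]} (hf : f.disc ≠ 0) (hd : CDg n f)
    {W : (P : Pl F) → Cub (Rq (P.1 ^ M)) → ℝ} {Wi : Cub (Rq ((X : F[X]) ^ M)) → ℝ}
    {cP : Pl F → ℝ} {cX : ℝ} (hcP : ∀ P, 0 ≤ cP P) (hcX : 0 ≤ cX)
    (hW : ∀ P ∈ S, ∀ r : F[X], cP P ≤ W P (((f.sc 4).tr r).map (Ideal.Quotient.mk (Ideal.span {P.1 ^ M}))))
    (hWi : ∀ r : F[X], cX ≤ Wi ((((crev n f).sc 4).tr r).map (Ideal.Quotient.mk (Ideal.span {(X : F[X]) ^ M}))))
    {x y : RatFunc F} (hxy : y ^ 2 = (f.map (toK F)).ev x)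
    {Λ : Pl F → M2 (RatFunc F)} {g : Pl F → Q4 (RatFunc F)}
    {H : Pl F → Q4 F[X]} (hS : ∀ P ∈ S, (Λ P).det ≠ 0 ∧
      (gp (f.map (toK F)) x y).sub (Λ P) = (g P).smul ((Λ P).det ^ 2) ∧ RedTo P (g P) (H P))
    {Ni : M2 (RatFunc F)} {gi : Q4 (RatFunc F)} {Hi : Q4 F[X]} (hNi : Ni.det ≠ 0)
    (hi : (gp (f.map (toK F)) x y).sub Ni = gi.smul (tt F (2 * n) * Ni.det ^ 2)) (hr : RedI gi Hi)
    {e : ℕ} (he : e ≤ n) {N : M2 (RatFunc F)} {p : Q4 F[X] × F[X]}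
    (r : Rep (f.map (toK F)) x y N (p.1.map (toK F)) (toK F p.2)) (hB : BdN n e p.1) (hp : p.2.natDegree ≤ 2 * n)
    (hL : ∀ P ∈ S, LEq (LocP P) N (Λ P)) (hLi : LEq (Oi F) (N.mul ⟨1, 0, 0, tt F (-(e : ℤ))⟩) Ni) :
    (∏ P : S, (((H P.1).map (Ideal.Quotient.mk (Ideal.span {P.1.1 ^ 1}))).sp : ℝ) * cP P.1) *
      (((Hi.map (Ideal.Quotient.mk (Ideal.span {(X : F[X]) ^ 1}))).sp : ℝ) * cX) ≤
      Ph S hM W Wi (redV S M n e p.1) := by
  classical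
  have hres : p.1.res = (f.sc 4).tr p.2 := by
    have := r.res hxy
    rw [Q4.map_res] at this
    apply Cub.map_inj (toK F) toK_inj
    rw [this, Cub.map_tr, Cub.map_sc, map_ofNat]
  unfold Ph
  apply mul_le_mul
  · apply prod_le_prod
    · intro P _
      exact mul_nonneg (Nat.cast_nonneg _) (hcP _)
    · intro P _
      unfold phP
      rw [redV_at, map_redP, Q4.map_res, hres]
      obtain ⟨hΛ, hg, hred⟩ := hS P.1 P.2
      rw [hP F h2 P.1 _ N (Λ P.1) p.1 (H P.1) (g P.1) r.det hΛ r.sub hg hred (hL P.1 P.2)]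
      exact mul_le_mul_of_nonneg_left (hW P.1 P.2 p.2) (Nat.cast_nonneg _)
  · unfold phX
    rw [redV_inf, map_redP, Q4.map_res, revV_res he hd hB hp hres,
      hPI F h2 n e he _ N Ni p.1 Hi gi r.det hNi hB r.sub hi hr hLi]
    exact mul_le_mul_of_nonneg_left (hWi _) (Nat.cast_nonneg _)
  · exact mul_nonneg (Nat.cast_nonneg _) hcX
  · apply prod_nonneg
    intro P _
    unfold phP
    rw [redV_at, Q4.map_res, hres]
    exact mul_nonneg (Nat.cast_nonneg _) ((hcP _).trans (hW P.1 P.2 p.2))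

end Pool.Agent.H456.BQ
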