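import Pool.Agent.H456.BQ.Alg

/-!
# The quartics of the points of `y² = f(x)` and the group law
-/

set_option autoImplicit false

open WeierstrassCurve

namespace Pool.Agent.H456.BQ

/-- the curve `y² = f(x)` -/
def crv {R : Type*} [CommRing R] (f : Cub R) : WeierstrassCurve R := ⟨0, f.a, 0, f.b, f.c⟩

theorem crv_Δ {R : Type*} [CommRing R] (f : Cub R) : (crv f).Δ = 16 * f.disc := by
  simp only [crv, WeierstrassCurve.Δ, WeierstrassCurve.b₂, WeierstrassCurve.b₄, WeierstrassCurve.b₆,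
    WeierstrassCurve.b₈, Cub.disc]
  ring

section field

variable {K : Type*} [Field K]

theorem eqn_iff {f : Cub K} {x y : K} : (crv f).toAffine.Equation x y ↔ y ^ 2 = f.ev x := by
  rw [Affine.equation_iff]
  simp only [crv, Cub.ev]
  constructor <;> intro h <;> linear_combination h

theorem ns_of {f : Cub K} (hf : f.disc ≠ 0) (h2 : (2 : K) ≠ 0) {x y : K} (h : y ^ 2 = f.ev x) :
    (crv f).toAffine.Nonsingular x y := by
  have hΔ : (crv f).Δ ≠ 0 := by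
    rw [crv_Δ]
    have : (16 : K) = 2 ^ 4 := by norm_num
    rw [this]
    exact mul_ne_zero (pow_ne_zero _ h2) hf
  exact (Affine.equation_iff_nonsingular_of_Δ_ne_zero hΔ).1 (eqn_iff.2 h)

theorem disc_zero {R : Type*} [CommRing R] {f : Cub R} {x : R} (h : f.ev x = 0) (h' : f.dev x = 0) :
    f.disc = 0 := by
  rw [← Cub.disc_tr x f]
  have e1 : (f.tr x).c = 0 := by rw [← h]; simp only [Cub.tr, Cub.ev]; ring
  have e2 : (f.tr x).b = 0 := by rw [← h']; simp only [Cub.tr, Cub.dev]; ring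
  simp only [Cub.disc, e1, e2]
  ring

/-- the point with given coordinates -/
def pt {f : Cub K} (hf : f.disc ≠ 0) (h2 : (2 : K) ≠ 0) {x y : K} (h : y ^ 2 = f.ev x) :
    (crv f).toAffine.Point := .some x y (ns_of hf h2 h)

variable {f : Cub K} (hf : f.disc ≠ 0) (h2 : (2 : K) ≠ 0)

theorem pt_congr {x y x' y' : K} (h : y ^ 2 = f.ev x) (h' : y' ^ 2 = f.ev x') (hx : x = x') (hy : y = y') :
    pt hf h2 h = pt hf h2 h' := by
  subst hx; subst hy; rfl

theorem exists_pt {P : (crv f).toAffine.Point} (hP : P ≠ 0) :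
    ∃ (x y : K) (h : y ^ 2 = f.ev x), P = pt hf h2 h := by
  rcases P with _ | ⟨x, y, h⟩
  · exact absurd rfl hP
  · exact ⟨x, y, eqn_iff.1 h.1, rfl⟩

theorem neg_pt {x y : K} (h : y ^ 2 = f.ev x) (h' : (-y) ^ 2 = f.ev x) : -(pt hf h2 h) = pt hf h2 h' := by
  unfold pt
  rw [Affine.Point.neg_some]
  congr 1
  simp [Affine.negY, crv]

variable [DecidableEq K]

theorem chord {x₁ y₁ x₂ y₂ x₃ y₃ l : K} (h₁ : y₁ ^ 2 = f.ev x₁) (h₂ : y₂ ^ 2 = f.ev x₂) (h₃ : y₃ ^ 2 = f.ev x₃)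
    (hx : x₁ ≠ x₂) (hl : l * (x₁ - x₂) = y₁ - y₂) (e₁ : x₃ = l ^ 2 - f.a - x₁ - x₂)
    (e₂ : y₃ = -(l * (x₃ - x₁) + y₁)) : pt hf h2 h₁ + pt hf h2 h₂ = pt hf h2 h₃ := by
  unfold pt
  rw [Affine.Point.add_of_X_ne hx]
  have hs : (crv f).toAffine.slope x₁ x₂ y₁ y₂ = l := by
    rw [Affine.slope_of_X_ne hx, div_eq_iff (sub_ne_zero.2 hx), hl]
  have hX : (crv f).toAffine.addX x₁ x₂ l = x₃ := by
    rw [e₁]; simp only [Affine.addX, crv]; ring
  have hY : (crv f).toAffine.addY x₁ x₂ y₁ l = y₃ := by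
    rw [Affine.addY, Affine.negAddY, hX, e₂]; simp only [Affine.negY, crv]; ring
  congr 1
  · rw [hs, hX]
  · rw [hs, hY]

theorem tangent {x₁ y₁ x₃ y₃ l : K} (h₁ : y₁ ^ 2 = f.ev x₁) (h₃ : y₃ ^ 2 = f.ev x₃)
    (hy : y₁ ≠ 0) (hl : l * (2 * y₁) = f.dev x₁) (e₁ : x₃ = l ^ 2 - f.a - x₁ - x₁)
    (e₂ : y₃ = -(l * (x₃ - x₁) + y₁)) : (2 : ℕ) • pt hf h2 h₁ = pt hf h2 h₃ := by
  have hy' : y₁ ≠ (crv f).toAffine.negY x₁ y₁ := by
    intro h
    simp only [Affine.negY, crv] at h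
    have : 2 * y₁ = 0 := by linear_combination h
    exact mul_ne_zero h2 hy this
  rw [two_nsmul]
  unfold pt
  rw [Affine.Point.add_self_of_Y_ne hy']
  have hs : (crv f).toAffine.slope x₁ x₁ y₁ y₁ = l := by
    rw [Affine.slope_of_Y_ne rfl hy', div_eq_iff (sub_ne_zero.2 hy')]
    simp only [Affine.negY, crv]
    simp only [Cub.dev] at hl
    linear_combination -hl
  have hX : (crv f).toAffine.addX x₁ x₁ l = x₃ := by
    rw [e₁]; simp only [Affine.addX, crv]; ring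
  have hY : (crv f).toAffine.addY x₁ x₁ y₁ l = y₃ := by
    rw [Affine.addY, Affine.negAddY, hX, e₂]; simp only [Affine.negY, crv]; ring
  congr 1
  · rw [hs, hX]
  · rw [hs, hY]

omit [DecidableEq K] in
theorem eq_or_neg {x y y' : K} (h : y ^ 2 = f.ev x) (h' : y' ^ 2 = f.ev x) :
    pt hf h2 h' = pt hf h2 h ∨ pt hf h2 h' = -pt hf h2 h := by
  have : (y' - y) * (y' + y) = 0 := by linear_combination h' - h
  rcases mul_eq_zero.1 this with e | e
  · left
    exact pt_congr hf h2 h' h rfl (sub_eq_zero.1 e)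
  · right
    have e' : y' = -y := eq_neg_of_add_eq_zero_left e
    rw [neg_pt hf h2 h (by rw [neg_sq]; exact h)]
    exact pt_congr hf h2 h' _ rfl e'

omit [DecidableEq K] in
include h2 in
/-- a point `(h, z)` on the quartic attached to `(x₀, y₀)` gives a root of a quadratic polynomial -/
theorem quad_of_quartic {x₀ y₀ h z : K} (hz : z ^ 2 = (gp f x₀ y₀).ev h 1) {x : K}
    (hx : 2 * x = h ^ 2 - x₀ - f.a + z) :
    x ^ 2 + (x₀ + f.a - h ^ 2) * x + (x₀ ^ 2 + f.a * x₀ + f.b + h ^ 2 * x₀ + 2 * h * y₀) = 0 := by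
  have h4 : (4 : K) ≠ 0 := by
    have : (4 : K) = 2 ^ 2 := by norm_num
    rw [this]; exact pow_ne_zero _ h2
  simp only [Q4.ev, gp] at hz
  apply (mul_eq_zero.1 (?_ : (4 : K) * _ = 0)).resolve_left h4
  linear_combination (2 * x + x₀ + f.a - h ^ 2 + z) * hx + hz

omit [DecidableEq K] in
include h2 in
/-- a point `(h, z)` on the quartic attached to `(x₀, y₀)` gives a point of the curve -/
theorem point_of_quartic {x₀ y₀ h z : K} (h₀ : y₀ ^ 2 = f.ev x₀) (hz : z ^ 2 = (gp f x₀ y₀).ev h 1) {x y : K}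
    (hx : 2 * x = h ^ 2 - x₀ - f.a + z) (hy : y = h * (x - x₀) - y₀) : y ^ 2 = f.ev x := by
  have hq := quad_of_quartic h2 hz hx
  simp only [Cub.ev] at *
  rw [hy]
  linear_combination h₀ - (x - x₀) * hq

omit [DecidableEq K] in
theorem tr_inj (h2 : (2 : K) ≠ 0) (h3 : (3 : K) ≠ 0 ∨ f.a ≠ 0) {r s : K} (h : f.tr r = f.tr s) : r = s := by
  have ha := congrArg Cub.a h
  have hb := congrArg Cub.b h
  simp only [Cub.tr] at ha hb
  have e1 : 3 * (r - s) = 0 := by linear_combination ha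
  rcases mul_eq_zero.1 e1 with e | e
  · rcases h3 with h3 | h3
    · exact absurd e h3
    · have e2 : (2 * f.a) * (r - s) = 0 := by linear_combination hb - (r + s) * e1
      rcases mul_eq_zero.1 e2 with e3 | e3
      · exact absurd e3 (mul_ne_zero h2 h3)
      · exact sub_eq_zero.1 e3
  · exact sub_eq_zero.1 e

omit [DecidableEq K] in
/-- the relations between the entries of a substitution taking `gp f x₀ y₀` to `gp f x₁ y₁` -/
theorem rel_entries (h2 : (2 : K) ≠ 0) {x₀ y₀ x₁ y₁ : K} {M : M2 K} (hM : M.det ≠ 0)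
    (h : (gp f x₀ y₀).sub M = (gp f x₁ y₁).smul (M.det ^ 2))
    (ht : (gp f x₀ y₀).tau M = 2 * M.det ^ 2 * (x₀ - x₁)) :
    (gp f x₀ y₀).ev M.α M.γ = M.det ^ 2 ∧
    M.δ * M.det = M.α ^ 3 - (3 * x₀ + f.a) * M.α * M.γ ^ 2 - 2 * y₀ * M.γ ^ 3 ∧
    (x₀ - x₁) * M.γ ^ 2 = M.α ^ 2 - M.δ ^ 2 := by
  have h4 : (4 : K) ≠ 0 := by
    have : (4 : K) = 2 ^ 2 := by norm_num
    rw [this]; exact pow_ne_zero _ h2
  have hA := congrArg Q4.A h
  have hB := congrArg Q4.B h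
  have e1 : (gp f x₀ y₀).ev M.α M.γ = M.det ^ 2 := by
    have : ((gp f x₀ y₀).sub M).A = (gp f x₀ y₀).ev M.α M.γ := by
      simp only [Q4.sub, Q4.ev]; ring
    rw [← this, hA]
    simp only [Q4.smul, gp]; ring
  have e2 : M.δ * M.det = M.α ^ 3 - (3 * x₀ + f.a) * M.α * M.γ ^ 2 - 2 * y₀ * M.γ ^ 3 := by
    have hB' : ((gp f x₀ y₀).sub M).B = 0 := by rw [hB]; simp only [Q4.smul, gp]; ring
    have k : M.γ * ((gp f x₀ y₀).sub M).B = 4 * M.δ * (gp f x₀ y₀).ev M.α M.γ - M.det *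
        (4 * (M.α ^ 3 - (3 * x₀ + f.a) * M.α * M.γ ^ 2 - 2 * y₀ * M.γ ^ 3)) := by
      simp only [Q4.sub, Q4.ev, gp, M2.det]; ring
    rw [hB', mul_zero, e1] at k
    have k2 : (4 * M.det) * (M.δ * M.det - (M.α ^ 3 - (3 * x₀ + f.a) * M.α * M.γ ^ 2 - 2 * y₀ * M.γ ^ 3)) = 0 := by
      linear_combination -k
    exact sub_eq_zero.1 ((mul_eq_zero.1 k2).resolve_left (mul_ne_zero h4 hM))
  refine ⟨e1, e2, ?_⟩
  have k : (gp f x₀ y₀).tau M * M.γ ^ 2 = 2 * M.det ^ 2 * (M.α ^ 2 - M.δ ^ 2) := by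
    simp only [Q4.ev, gp] at e1
    simp only [Q4.tau, gp]
    simp only [M2.det] at *
    linear_combination (2 * M.δ ^ 2) * e1 +
      (4 * M.δ * (M.α * M.δ - M.β * M.γ)) * e2
  have h2M : (2 : K) * M.det ^ 2 ≠ 0 := mul_ne_zero h2 (pow_ne_zero _ hM)
  apply mul_left_cancel₀ h2M
  linear_combination k - M.γ ^ 2 * ht

omit [DecidableEq K] in
/-- the condition on `tau` is automatic if `f` is not special -/
theorem tau_of (h2 : (2 : K) ≠ 0) (h3 : (3 : K) ≠ 0 ∨ f.a ≠ 0) {x₀ y₀ x₁ y₁ : K} (h₀ : y₀ ^ 2 = f.ev x₀)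
    (h₁ : y₁ ^ 2 = f.ev x₁) {M : M2 K} (hM : M.det ≠ 0)
    (h : (gp f x₀ y₀).sub M = (gp f x₁ y₁).smul (M.det ^ 2)) :
    (gp f x₀ y₀).tau M = 2 * M.det ^ 2 * (x₀ - x₁) := by
  have h4 : (4 : K) ≠ 0 := by
    have : (4 : K) = 2 ^ 2 := by norm_num
    rw [this]; exact pow_ne_zero _ h2
  have hr := congrArg Q4.res h
  rw [Q4.res_sub, Q4.res_smul, res_gp f x₀ y₀ h₀, res_gp f x₁ y₁ h₁, Cub.sc_tr, Cub.sc_tr, Cub.tr_tr] at hr
  have h3' : (3 : K) ≠ 0 ∨ ((f.sc 4).sc (M.det ^ 2)).a ≠ 0 := by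
    rcases h3 with h3 | h3
    · exact Or.inl h3
    · right
      simp only [Cub.sc]
      exact mul_ne_zero (pow_ne_zero _ hM) (mul_ne_zero h4 h3)
  have ht := tr_inj h2 h3' hr
  linear_combination ht

/-- the two points of the curve on a line through `-(x₀, y₀)` -/
theorem two_points {x₀ y₀ h z : K} (h₀ : y₀ ^ 2 = f.ev x₀) (hz : z ^ 2 = (gp f x₀ y₀).ev h 1) (hz0 : z ≠ 0) :
    ∃ (x y x' y' : K) (hX : y ^ 2 = f.ev x) (hX' : y' ^ 2 = f.ev x'), x - x' = z ∧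
      x + x' = h ^ 2 - x₀ - f.a ∧ y = h * (x - x₀) - y₀ ∧ y' = h * (x' - x₀) - y₀ ∧
      pt hf h2 hX + pt hf h2 hX' = pt hf h2 h₀ := by
  obtain ⟨x, hx⟩ : ∃ x, 2 * x = h ^ 2 - x₀ - f.a + z := ⟨(h ^ 2 - x₀ - f.a + z) / 2, by field_simp⟩
  obtain ⟨x', hx'⟩ : ∃ x, 2 * x = h ^ 2 - x₀ - f.a + -z := ⟨(h ^ 2 - x₀ - f.a + -z) / 2, by field_simp⟩
  have hd : x - x' = z := by
    apply mul_left_cancel₀ h2
    linear_combination hx - hx'
  have hs : x + x' = h ^ 2 - x₀ - f.a := by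
    apply mul_left_cancel₀ h2
    linear_combination hx + hx'
  have hX := point_of_quartic h2 h₀ hz hx (y := h * (x - x₀) - y₀) rfl
  have hX' := point_of_quartic h2 h₀ (z := -z) (by rw [neg_sq]; exact hz) hx' (y := h * (x' - x₀) - y₀) rfl
  refine ⟨x, _, x', _, hX, hX', hd, hs, rfl, rfl, ?_⟩
  refine chord hf h2 hX hX' h₀ (l := h) ?_ ?_ ?_ ?_
  · intro e; rw [e, sub_self] at hd; exact hz0 hd.symm
  · ring
  · linear_combination hs
  · ring

/-- **injectivity**: if the quartics of two points are equivalent, the points are congruent up to sign modulo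
the doubles -/
theorem rel_inj {x₀ y₀ x₁ y₁ : K} (h₀ : y₀ ^ 2 = f.ev x₀)
    (h₁ : y₁ ^ 2 = f.ev x₁) {M : M2 K} (hM : M.det ≠ 0)
    (h : (gp f x₀ y₀).sub M = (gp f x₁ y₁).smul (M.det ^ 2))
    (ht : (gp f x₀ y₀).tau M = 2 * M.det ^ 2 * (x₀ - x₁)) :
    (M.γ = 0 ∧ x₁ = x₀) ∨ ∃ (x y : K) (hX : y ^ 2 = f.ev x), pt hf h2 h₀ - pt hf h2 hX ≠ 0 ∧
      (pt hf h2 h₁ = pt hf h2 h₀ - (2 : ℕ) • pt hf h2 hX ∨ pt hf h2 h₁ = -(pt hf h2 h₀ - (2 : ℕ) • pt hf h2 hX)) := by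
  obtain ⟨e1, e2, e3⟩ := rel_entries h2 hM h ht
  by_cases hγ : M.γ = 0
  · left
    refine ⟨hγ, ?_⟩
    have h4 : (4 : K) ≠ 0 := by
      have : (4 : K) = 2 ^ 2 := by norm_num
      rw [this]; exact pow_ne_zero _ h2
    have hdet : M.det = M.α * M.δ := by simp only [M2.det, hγ]; ring
    have hα : M.α ≠ 0 := by
      intro h0; rw [hdet, h0, zero_mul] at hM; exact hM rfl
    have hB := congrArg Q4.B h
    have hβ : M.β = 0 := by
      simp only [Q4.sub, Q4.smul, gp, hγ] at hB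
      have : (4 * M.α ^ 3) * M.β = 0 := by linear_combination hB
      exact (mul_eq_zero.1 this).resolve_left (mul_ne_zero h4 (pow_ne_zero _ hα))
    have hτ : (gp f x₀ y₀).tau M = 0 := by
      simp only [Q4.tau, hγ, hβ]; ring
    rw [hτ] at ht
    have h2M : (2 : K) * M.det ^ 2 ≠ 0 := mul_ne_zero h2 (pow_ne_zero _ hM)
    apply mul_left_cancel₀ h2M
    linear_combination ht
  · right
    set h' := M.α / M.γ with hh
    set z := M.det / M.γ ^ 2 with hz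
    have hz0 : z ≠ 0 := div_ne_zero hM (pow_ne_zero _ hγ)
    have hz2 : z ^ 2 = (gp f x₀ y₀).ev h' 1 := by
      have : (gp f x₀ y₀).ev M.α M.γ = M.γ ^ 4 * (gp f x₀ y₀).ev h' 1 := by
        simp only [Q4.ev, hh]; field_simp
      rw [this] at e1
      apply mul_left_cancel₀ (pow_ne_zero 4 hγ)
      rw [e1, hz]; field_simp
    obtain ⟨x, y, x', y', hX, hX', hd, hs, hy, hy', hsum⟩ := two_points hf h2 h₀ hz2 hz0
    have hnX : (-y) ^ 2 = f.ev x := by rw [neg_sq]; exact hX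
    have hS : y + y' = h' ^ 3 - (3 * x₀ + f.a) * h' - 2 * y₀ := by
      rw [hy, hy']; linear_combination h' * hs
    have hSz : (M.δ / M.γ) * z = y + y' := by
      rw [hS, hh, hz]
      field_simp
      linear_combination e2
    have hx1 : x₁ = (M.δ / M.γ) ^ 2 - f.a - x' - x := by
      have : x₁ = x₀ - (M.α / M.γ) ^ 2 + (M.δ / M.γ) ^ 2 := by
        field_simp; linear_combination -e3
      rw [this, ← hh]; linear_combination hs
    -- the point `X' - X`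
    obtain ⟨y₃, hy₃⟩ : ∃ y₃, y₃ = -(-(M.δ / M.γ) * (x₁ - x') + y') := ⟨_, rfl⟩
    have h₃ : y₃ ^ 2 = f.ev x₁ := by
      have hne : z ≠ 0 := hz0
      have hXe : y ^ 2 = x ^ 3 + f.a * x ^ 2 + f.b * x + f.c := hX
      have hXe' : y' ^ 2 = x' ^ 3 + f.a * x' ^ 2 + f.b * x' + f.c := hX'
      simp only [Cub.ev]
      have key : (-(M.δ / M.γ) * (x - x') + y') = -y := by rw [hd]; linear_combination -hSz
      set l := -(M.δ / M.γ) with hl
      -- the cubic `f(X) - (l (X - x') + y')²` has the roots `x, x', x₁`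
      have q1 : x' ^ 3 + f.a * x' ^ 2 + f.b * x' + f.c - (y') ^ 2 = 0 := by linear_combination -hXe'
      have q2 : x ^ 3 + f.a * x ^ 2 + f.b * x + f.c - (l * (x - x') + y') ^ 2 = 0 := by rw [key]; linear_combination -hXe
      have q3 : x₁ = l ^ 2 - f.a - x' - x := by rw [hx1, hl]; ring
      rw [hy₃]
      apply mul_left_cancel₀ hne
      rw [← hd]
      rw [q3]
      linear_combination (-(l ^ 2 - f.a - x' - x - x')) * q2 + (l ^ 2 - f.a - x' - x - x) * q1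
    have hsub : pt hf h2 hX' + pt hf h2 hnX = pt hf h2 h₃ := by
      refine chord hf h2 hX' hnX h₃ (l := -(M.δ / M.γ)) ?_ ?_ ?_ ?_
      · intro e; rw [e, sub_self] at hd; exact hz0 hd.symm
      · linear_combination (M.δ / M.γ) * hd + hSz
      · rw [hx1]; ring
      · exact hy₃
    refine ⟨x, y, hX, ?_, ?_⟩
    · rw [← hsum, add_sub_cancel_left]
      exact Affine.Point.some_ne_zero _
    have e4 : pt hf h2 h₀ - (2 : ℕ) • pt hf h2 hX = pt hf h2 h₃ := by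
      rw [← hsub, ← hsum, ← neg_pt hf h2 hX hnX, two_nsmul]
      abel
    rw [e4]
    exact eq_or_neg hf h2 h₃ h₁

include hf h2

/-- if the quartics of two points are equivalent, the points are congruent up to sign modulo the doubles -/
theorem rel_congr {x₀ y₀ x₁ y₁ : K} (h₀ : y₀ ^ 2 = f.ev x₀)
    (h₁ : y₁ ^ 2 = f.ev x₁) {M : M2 K} (hM : M.det ≠ 0)
    (h : (gp f x₀ y₀).sub M = (gp f x₁ y₁).smul (M.det ^ 2))
    (ht : (gp f x₀ y₀).tau M = 2 * M.det ^ 2 * (x₀ - x₁)) :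
    ∃ X : (crv f).toAffine.Point,
      pt hf h2 h₁ = pt hf h2 h₀ - (2 : ℕ) • X ∨ pt hf h2 h₁ = -(pt hf h2 h₀ - (2 : ℕ) • X) := by
  rcases rel_inj hf h2 h₀ h₁ hM h ht with ⟨-, rfl⟩ | ⟨x, y, hX, -, h⟩
  · refine ⟨0, ?_⟩
    rw [smul_zero, sub_zero]
    exact eq_or_neg hf h2 h₀ h₁
  · exact ⟨_, h⟩

/-- **the stabilizer** of the quartic of a point consists of scalars if there are no points of order two -/
theorem rel_stab (ht : ∀ T : (crv f).toAffine.Point, (2 : ℕ) • T = 0 → T = 0)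
    {x₀ y₀ : K} (h₀ : y₀ ^ 2 = f.ev x₀) {M : M2 K} (hM : M.det ≠ 0)
    (h : (gp f x₀ y₀).sub M = (gp f x₀ y₀).smul (M.det ^ 2))
    (hτ : (gp f x₀ y₀).tau M = 2 * M.det ^ 2 * (x₀ - x₀)) : M.β = 0 ∧ M.γ = 0 ∧ M.α = M.δ := by
  have h4 : (4 : K) ≠ 0 := by
    have : (4 : K) = 2 ^ 2 := by norm_num
    rw [this]; exact pow_ne_zero _ h2
  have hnz : ∀ {x y : K} (hX : y ^ 2 = f.ev x), pt hf h2 hX ≠ 0 := fun hX => Affine.Point.some_ne_zero _
  by_cases hγ : M.γ = 0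
  · have hdet : M.det = M.α * M.δ := by simp only [M2.det, hγ]; ring
    have hα : M.α ≠ 0 := by
      intro h0; rw [hdet, h0, zero_mul] at hM; exact hM rfl
    have hA := congrArg Q4.A h
    have hB := congrArg Q4.B h
    have hD := congrArg Q4.D h
    have hβ : M.β = 0 := by
      simp only [Q4.sub, Q4.smul, gp, hγ] at hB
      have : (4 * M.α ^ 3) * M.β = 0 := by linear_combination hB
      exact (mul_eq_zero.1 this).resolve_left (mul_ne_zero h4 (pow_ne_zero _ hα))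
    refine ⟨hβ, hγ, ?_⟩
    simp only [Q4.sub, Q4.smul, gp, hγ, hβ, hdet] at hA hD
    have e1 : M.α ^ 2 * (M.α ^ 2 - M.δ ^ 2) = 0 := by linear_combination hA
    have e2 : (M.α - M.δ) * (M.α + M.δ) = 0 := by
      have := (mul_eq_zero.1 e1).resolve_left (pow_ne_zero _ hα)
      linear_combination this
    rcases mul_eq_zero.1 e2 with e3 | e3
    · exact sub_eq_zero.1 e3
    · exfalso
      have e4 : M.δ = -M.α := by linear_combination e3
      rw [e4] at hD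
      have e5 : (2 * 4 * 2) * M.α ^ 4 * y₀ = 0 := by linear_combination hD
      have e6 : y₀ = 0 := (mul_eq_zero.1 e5).resolve_left
        (mul_ne_zero (mul_ne_zero (mul_ne_zero h2 h4) h2) (pow_ne_zero _ hα))
      apply hnz h₀
      apply ht
      rw [two_nsmul]
      nth_rewrite 2 [← neg_neg (pt hf h2 h₀)]
      rw [neg_pt hf h2 h₀ (by rw [neg_sq]; exact h₀)]
      rw [pt_congr hf h2 h₀ (by rw [neg_sq]; exact h₀) rfl (by rw [e6, neg_zero] : y₀ = -y₀)]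
      exact add_neg_cancel _
  · exfalso
    rcases rel_inj hf h2 h₀ h₀ hM h hτ with ⟨h1, -⟩ | ⟨x, y, hX, h0, h1 | h1⟩
    · exact hγ h1
    · apply hnz hX
      apply ht
      have : pt hf h2 h₀ = pt hf h2 h₀ - (2 : ℕ) • pt hf h2 hX := h1
      exact (sub_eq_self.1 this.symm)
    · -- `2 (P - X) = 0`, `X ≠ P`
      have e1 : (2 : ℕ) • (pt hf h2 h₀ - pt hf h2 hX) = 0 := by
        rw [smul_sub, two_nsmul (pt hf h2 h₀)]
        nth_rewrite 1 [h1]
        abel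
      exact h0 (ht _ e1)

/-- if the quartic of a point has a root in the field then the point is a double -/
theorem double_of_root {x₀ y₀ : K} (h₀ : y₀ ^ 2 = f.ev x₀) {α γ : K} (hαγ : ¬ (α = 0 ∧ γ = 0))
    (h : (gp f x₀ y₀).ev α γ = 0) : ∃ X : (crv f).toAffine.Point, pt hf h2 h₀ = (2 : ℕ) • X := by
  have h4 : (4 : K) ≠ 0 := by
    have : (4 : K) = 2 ^ 2 := by norm_num
    rw [this]; exact pow_ne_zero _ h2
  have hγ : γ ≠ 0 := by
    intro h0
    apply hαγ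
    refine ⟨?_, h0⟩
    rw [h0] at h
    simp only [Q4.ev, gp] at h
    have : α ^ 4 = 0 := by linear_combination h
    exact pow_eq_zero_iff (by norm_num) |>.1 this
  set h' := α / γ with hh
  have hz : (0 : K) ^ 2 = (gp f x₀ y₀).ev h' 1 := by
    have e : (gp f x₀ y₀).ev α γ = γ ^ 4 * (gp f x₀ y₀).ev h' 1 := by
      simp only [Q4.ev, hh]; field_simp
    rw [e] at h
    rw [(mul_eq_zero.1 h).resolve_left (pow_ne_zero _ hγ)]
    ring
  obtain ⟨x, hx⟩ : ∃ x, 2 * x = h' ^ 2 - x₀ - f.a + 0 := ⟨(h' ^ 2 - x₀ - f.a + 0) / 2, by field_simp⟩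
  have hq := quad_of_quartic h2 hz hx
  have hX := point_of_quartic h2 h₀ hz hx (y := h' * (x - x₀) - y₀) rfl
  set y := h' * (x - x₀) - y₀ with hy
  -- the line is tangent
  have hl : h' * (2 * y) = f.dev x := by
    simp only [Cub.dev]
    rw [hy]
    linear_combination (-(x - x₀)) * hx - hq
  have hy0 : y ≠ 0 := by
    intro h0
    rw [h0] at hl hX
    exact hf (disc_zero (x := x) (by rw [← hX]; ring) (by rw [← hl]; ring))
  refine ⟨pt hf h2 hX, ?_⟩
  symm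
  refine tangent hf h2 hX h₀ hy0 hl ?_ ?_
  · linear_combination hx
  · rw [hy]; ring

end field

end Pool.Agent.H456.BQ
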