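import Pool.Agent.H456.BQ.Grp

/-!
# The integral quartic of a point over `F[X]`
-/

set_option autoImplicit false

open Polynomial

namespace Pool.Agent.H456.BQ

/-- image under a ring homomorphism -/
def Q4.map {R S : Type*} [CommRing R] [CommRing S] (φ : R →+* S) (g : Q4 R) : Q4 S :=
  ⟨φ g.A, φ g.B, φ g.C, φ g.D, φ g.E⟩

/-- image under a ring homomorphism -/
def Cub.map {R S : Type*} [CommRing R] [CommRing S] (φ : R →+* S) (f : Cub R) : Cub S :=
  ⟨φ f.a, φ f.b, φ f.c⟩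

/-- image under a ring homomorphism -/
def M2.map {R S : Type*} [CommRing R] [CommRing S] (φ : R →+* S) (M : M2 R) : M2 S :=
  ⟨φ M.α, φ M.β, φ M.γ, φ M.δ⟩

section map

variable {R S : Type*} [CommRing R] [CommRing S] (φ : R →+* S)

theorem Q4.map_sub (g : Q4 R) (M : M2 R) : (g.sub M).map φ = (g.map φ).sub (M.map φ) := by
  ext <;> simp [Q4.map, Q4.sub, M2.map, map_ofNat]

theorem Q4.map_smul (g : Q4 R) (k : R) : (g.smul k).map φ = (g.map φ).smul (φ k) := by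
  ext <;> simp [Q4.map, Q4.smul]

theorem Q4.map_res (g : Q4 R) : (g.map φ).res = g.res.map φ := by
  ext <;> simp [Q4.map, Q4.res, Cub.map, map_ofNat]

theorem Q4.map_ev (g : Q4 R) (u v : R) : (g.map φ).ev (φ u) (φ v) = φ (g.ev u v) := by
  simp [Q4.map, Q4.ev]

theorem Cub.map_tr (f : Cub R) (r : R) : (f.tr r).map φ = (f.map φ).tr (φ r) := by
  ext <;> simp [Cub.map, Cub.tr, map_ofNat]

theorem Cub.map_sc (f : Cub R) (r : R) : (f.sc r).map φ = (f.map φ).sc (φ r) := by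
  ext <;> simp [Cub.map, Cub.sc]

theorem Cub.map_disc (f : Cub R) : (f.map φ).disc = φ f.disc := by
  simp [Cub.map, Cub.disc, map_ofNat]

theorem M2.map_det (M : M2 R) : (M.map φ).det = φ M.det := by
  simp [M2.map, M2.det]

theorem M2.map_mul (M N : M2 R) : (M.mul N).map φ = (M.map φ).mul (N.map φ) := by
  ext <;> simp [M2.map, M2.mul]

theorem Q4.map_inj (hφ : Function.Injective φ) {g g' : Q4 R} (h : g.map φ = g'.map φ) : g = g' := by
  have hA := congrArg Q4.A h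
  have hB := congrArg Q4.B h
  have hC := congrArg Q4.C h
  have hD := congrArg Q4.D h
  have hE := congrArg Q4.E h
  ext
  · exact hφ hA
  · exact hφ hB
  · exact hφ hC
  · exact hφ hD
  · exact hφ hE

theorem Cub.map_inj (hφ : Function.Injective φ) {g g' : Cub R} (h : g.map φ = g'.map φ) : g = g' := by
  have hA := congrArg Cub.a h
  have hB := congrArg Cub.b h
  have hC := congrArg Cub.c h
  ext
  · exact hφ hA
  · exact hφ hB
  · exact hφ hC

end map

section arith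

variable {F : Type} [Field F]

/-- arithmetic of the canonical lattice: the divisibilities -/
theorem canon_arith {R : Type*} [CommRing R] [IsDomain R] {a b c s r w n l : R} (hs : s ≠ 0) (hc : IsCoprime r s)
    (hw : w ^ 2 = r ^ 3 + a * r ^ 2 * s ^ 2 + b * r * s ^ 4 + c * s ^ 6) (hn : r * n = w + s ^ 2 * l) :
    ∃ m D E : R, n ^ 2 = r + s ^ 2 * m ∧ n ^ 3 - 3 * r * n - a * s ^ 2 * n + 2 * w = s ^ 4 * D ∧
      n ^ 4 - 6 * r * n ^ 2 - 2 * a * s ^ 2 * n ^ 2 + 8 * w * n + a ^ 2 * s ^ 4 - 2 * a * r * s ^ 2 - 3 * r ^ 2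
        - 4 * b * s ^ 4 = s ^ 6 * E ∧ IsCoprime s n := by
  have hs2 : s ^ 2 ≠ 0 := pow_ne_zero _ hs
  have hcr : IsCoprime (s ^ 2) r := hc.symm.pow_left
  have hcr2 : IsCoprime (s ^ 2) (r ^ 2) := hcr.pow_right
  have e1 : s ^ 2 ∣ n ^ 2 - r := by
    apply hcr2.dvd_of_dvd_mul_left
    refine ⟨2 * r * n * l + a * r ^ 2 + s ^ 2 * (b * r - l ^ 2) + c * s ^ 4, ?_⟩
    linear_combination (r * n + w - s ^ 2 * l) * hn + hw
  obtain ⟨m, hm⟩ := e1
  have k1 : r ^ 2 * m = 2 * r * n * l + a * r ^ 2 + s ^ 2 * (b * r - l ^ 2) + c * s ^ 4 := by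
    apply mul_left_cancel₀ hs2
    linear_combination (r * n + w - s ^ 2 * l) * hn + hw - r ^ 2 * hm
  have e2 : s ^ 2 ∣ r * m - 2 * n * l - a * r := by
    apply hcr.dvd_of_dvd_mul_left
    refine ⟨b * r - l ^ 2 + c * s ^ 2, ?_⟩
    linear_combination k1
  obtain ⟨k, hk⟩ := e2
  have k2 : r * k = b * r - l ^ 2 + c * s ^ 2 := by
    apply mul_left_cancel₀ hs2
    linear_combination k1 - r * hk
  have e3 : s ^ 2 ∣ m * n - a * n - 2 * l := by
    apply hcr.dvd_of_dvd_mul_left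
    refine ⟨2 * l * m + k * n, ?_⟩
    linear_combination n * hk + 2 * l * hm
  obtain ⟨D, hD⟩ := e3
  have e4 : s ^ 2 ∣ (m - a) ^ 2 + 4 * (k - b) := by
    apply hcr2.dvd_of_dvd_mul_left
    refine ⟨4 * l ^ 2 * m + 4 * n * l * k + s ^ 2 * k ^ 2 + 4 * r * c, ?_⟩
    linear_combination (r * m - a * r + 2 * n * l + s ^ 2 * k) * hk + 4 * l ^ 2 * hm + 4 * r * k2
  obtain ⟨E, hE⟩ := e4
  refine ⟨m, D, E, ?_, ?_, ?_, ?_⟩
  · linear_combination hm
  · linear_combination s ^ 2 * hD + (n) * hm - 2 * hn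
  · linear_combination s ^ 4 * hE + (n ^ 2 + r + s ^ 2 * m - 6 * r - 2 * a * s ^ 2 + 8 * r) * hm
      + 4 * s ^ 2 * hk - 8 * n * hn
  · -- `n² ≡ r` modulo `s`
    have h1 : IsCoprime s (r + s * (s * m)) := IsCoprime.add_mul_left_right hc.symm _
    have h2 : r + s * (s * m) = n ^ 2 := by linear_combination -hm
    rw [h2] at h1
    exact (IsCoprime.pow_right_iff (by norm_num)).1 h1

/-- coordinates of a point in lowest terms -/
theorem lowest {K : Type} [Field K] (φ : F[X] →+* K) (hφ : Function.Injective φ)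
    (hfr : ∀ x : K, ∃ p q : F[X], q.Monic ∧ IsCoprime p q ∧ φ q * x = φ p) (f : Cub F[X]) {x y : K}
    (h : y ^ 2 = (f.map φ).ev x) :
    ∃ r w s : F[X], s ≠ 0 ∧ IsCoprime r s ∧ φ s ^ 2 * x = φ r ∧ φ s ^ 3 * y = φ w ∧
      w ^ 2 = r ^ 3 + f.a * r ^ 2 * s ^ 2 + f.b * r * s ^ 4 + f.c * s ^ 6 := by
  classical
  obtain ⟨p, q, hq, hpq, hx⟩ := hfr x
  obtain ⟨u, v, hv, huv, hy⟩ := hfr y
  have hφ0 : ∀ {z : F[X]}, z ≠ 0 → φ z ≠ 0 := fun hz => (map_ne_zero_iff φ hφ).2 hz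
  have e1 : q ^ 3 * u ^ 2 = v ^ 2 * (p ^ 3 + f.a * p ^ 2 * q + f.b * p * q ^ 2 + f.c * q ^ 3) := by
    apply hφ
    simp only [map_mul, map_add, map_pow]
    simp only [Cub.ev, Cub.map] at h
    rw [← hx, ← hy]
    linear_combination (φ q ^ 3 * φ v ^ 2) * h
  have c1 : IsCoprime (q ^ 3) (p ^ 3 + f.a * p ^ 2 * q + f.b * p * q ^ 2 + f.c * q ^ 3) := by
    apply IsCoprime.pow_left
    have : p ^ 3 + f.a * p ^ 2 * q + f.b * p * q ^ 2 + f.c * q ^ 3 =
      p ^ 3 + q * (f.a * p ^ 2 + f.b * p * q + f.c * q ^ 2) := by ring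
    rw [this]
    exact IsCoprime.add_mul_left_right hpq.symm.pow_right _
  have d1 : q ^ 3 ∣ v ^ 2 := c1.dvd_of_dvd_mul_right ⟨u ^ 2, e1.symm⟩
  have d2 : v ^ 2 ∣ q ^ 3 := by
    have c2 : IsCoprime (v ^ 2) (u ^ 2) := huv.symm.pow
    exact c2.dvd_of_dvd_mul_right ⟨_, e1⟩
  have e2 : v ^ 2 = q ^ 3 := eq_of_monic_of_associated (hv.pow 2) (hq.pow 3) (associated_of_dvd_dvd d2 d1)
  have d3 : q ∣ v := by
    have : q ^ 2 ∣ v ^ 2 := ⟨q, by rw [e2]; ring⟩
    exact (UniqueFactorizationMonoid.pow_dvd_pow_iff_dvd (by norm_num)).1 this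
  obtain ⟨s, hs⟩ := d3
  have e3 : q = s ^ 2 := by
    have : q ^ 2 * (s ^ 2) = q ^ 2 * q := by
      rw [hs] at e2; linear_combination e2
    exact (mul_left_cancel₀ (pow_ne_zero 2 hq.ne_zero) this).symm
  have hs0 : s ≠ 0 := by
    rintro rfl
    rw [mul_zero] at hs
    exact hv.ne_zero hs
  have cps : IsCoprime p s := by
    rw [e3] at hpq
    exact (IsCoprime.pow_right_iff (by norm_num)).1 hpq
  refine ⟨p, u, s, hs0, cps, ?_, ?_, ?_⟩
  · rw [← hx, e3, map_pow]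
  · rw [← hy, hs, e3, map_mul, map_pow]; ring
  · rw [hs] at e1
    have h6 : s ^ 6 ≠ 0 := pow_ne_zero _ hs0
    apply mul_left_cancel₀ h6
    rw [e3] at e1
    linear_combination e1

/-- **the canonical integral quartic of a point** -/
theorem canon {K : Type} [Field K] (φ : F[X] →+* K) (hφ : Function.Injective φ)
    (hfr : ∀ x : K, ∃ p q : F[X], q.Monic ∧ IsCoprime p q ∧ φ q * x = φ p) (f : Cub F[X]) {x y : K}
    (h : y ^ 2 = (f.map φ).ev x) :
    ∃ (s n : F[X]) (G : Q4 F[X]), s ≠ 0 ∧ IsCoprime s n ∧ G.A = s ^ 2 ∧ G.B = -(4 * n) ∧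
      (gp (f.map φ) x y).sub ⟨φ s, -(φ n / φ s), 0, 1⟩ = (G.map φ).smul (φ s ^ 2) := by
  obtain ⟨r, w, s, hs, hrs, hx, hy, hw⟩ := lowest φ hφ hfr f h
  have hs' : φ s ≠ 0 := (map_ne_zero_iff φ hφ).2 hs
  -- the inverse of `r` modulo `s²`
  obtain ⟨i, j, hij⟩ : IsCoprime r (s ^ 2) := hrs.pow_right
  have hn : r * (i * w) = w + s ^ 2 * (-(j * w)) := by linear_combination w * hij
  set n := i * w with hn'
  obtain ⟨m, D, E, h1, h2, h3, h4⟩ := canon_arith hs hrs hw hn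
  refine ⟨s, n, ⟨s ^ 2, -(4 * n), 6 * m - 2 * f.a, -(4 * D), E⟩, hs, h4, rfl, rfl, ?_⟩
  have h1' := congrArg φ h1
  have h2' := congrArg φ h2
  have h3' := congrArg φ h3
  simp only [map_mul, map_add, map_sub, map_pow, map_ofNat] at h1' h2' h3'
  have hx' : x = φ r / φ s ^ 2 := by rw [eq_div_iff (pow_ne_zero _ hs')]; linear_combination hx
  have hy' : y = φ w / φ s ^ 3 := by rw [eq_div_iff (pow_ne_zero _ hs')]; linear_combination hy
  subst hx'
  subst hy'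
  ext
  · simp only [Q4.sub, Q4.smul, Q4.map, gp, Cub.map, map_mul, map_sub, map_pow, map_ofNat, map_neg]
    field_simp
    ring
  · simp only [Q4.sub, Q4.smul, Q4.map, gp, Cub.map, map_mul, map_sub, map_pow, map_ofNat, map_neg]
    field_simp
    ring
  · simp only [Q4.sub, Q4.smul, Q4.map, gp, Cub.map, map_mul, map_sub, map_pow, map_ofNat, map_neg]
    field_simp
    linear_combination (6 * φ s ^ 4) * h1'
  · simp only [Q4.sub, Q4.smul, Q4.map, gp, Cub.map, map_mul, map_sub, map_pow, map_ofNat, map_neg]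
    field_simp
    linear_combination (-4 * φ s ^ 2) * h2'
  · simp only [Q4.sub, Q4.smul, Q4.map, gp, Cub.map, map_mul, map_sub, map_pow, map_ofNat, map_neg]
    field_simp
    linear_combination h3'

end arith

end Pool.Agent.H456.BQ
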