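import Pool.Agent.H456.BQ.Cnt
import Pool.Agent.H456.BQ.Eq

/-!
# Limits of sums over the boxes
-/

set_option autoImplicit false
set_option linter.all false

open Polynomial Finset Filter
open Pool.Agent.H456.RN

namespace Pool.Agent.H456.BQ

variable {F : Type} [Field F] [Fintype F]

theorem q_ge : 2 ≤ (Fintype.card F : ℝ) := by
  have : 1 < Fintype.card F := Fintype.one_lt_card
  exact_mod_cast this

theorem hasSum_pa : HasSum (fun e : ℕ => (pa F e)⁻¹)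
    (2 / (((Fintype.card F : ℝ) - 1) ^ 2 * ((Fintype.card F : ℝ) + 1))) := by
  set q : ℝ := (Fintype.card F : ℝ) with hq
  have hq2 : 2 ≤ q := q_ge
  have h1 : q - 1 ≠ 0 := by linarith
  have h0 : q ≠ 0 := by linarith
  have h3 : q + 1 ≠ 0 := by linarith
  rw [← hasSum_nat_add_iff' 1]
  have hg := hasSum_geometric_of_lt_one (r := q⁻¹) (by positivity) (by apply inv_lt_one_of_one_lt₀; linarith)
  have hg2 := hg.mul_left (((q - 1) * q ^ 2)⁻¹)
  have e1 : (fun e : ℕ => (pa F (e + 1))⁻¹) = fun e => ((q - 1) * q ^ 2)⁻¹ * (q⁻¹) ^ e := by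
    funext e
    unfold pa
    rw [if_neg (Nat.succ_ne_zero e), ← hq, show e + 1 + 1 = 2 + e by omega, pow_add, inv_pow]
    field_simp
  have e2 : 2 / ((q - 1) ^ 2 * (q + 1)) - ∑ i ∈ range 1, (pa F i)⁻¹ = ((q - 1) * q ^ 2)⁻¹ * (1 - q⁻¹)⁻¹ := by
    rw [sum_range_one]
    unfold pa
    rw [if_pos rfl, ← hq]
    field_simp
    ring
  rw [e1, e2]
  exact hg2

/-- the average of a function over the box -/
noncomputable def AV (n e : ℕ) (φ : Q4 F[X] → ℝ) : ℝ :=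
  (∑ G ∈ Vb F n e, φ G) / (Fintype.card F : ℝ) ^ (10 * n + 5)

theorem AV_nonneg {n e : ℕ} {φ : Q4 F[X] → ℝ} (h : ∀ G, 0 ≤ φ G) : 0 ≤ AV n e φ :=
  div_nonneg (sum_nonneg fun G _ => h G) (by positivity)

theorem AV_mono {n e : ℕ} {φ ψ : Q4 F[X] → ℝ} (h : ∀ G ∈ Vb F n e, φ G ≤ ψ G) : AV n e φ ≤ AV n e ψ :=
  div_le_div_of_nonneg_right (sum_le_sum h) (by positivity)

theorem AV_le {n e : ℕ} (he : e ≤ n) {φ : Q4 F[X] → ℝ} {c : ℝ} (h : ∀ G, φ G ≤ c) : AV n e φ ≤ c := by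
  have hq2 : 2 ≤ (Fintype.card F : ℝ) := q_ge
  unfold AV
  rw [div_le_iff₀ (by positivity)]
  refine (sum_le_sum fun G _ => h G).trans (le_of_eq ?_)
  rw [sum_const, card_Vb he, nsmul_eq_mul]
  push_cast
  ring

/-- the total appearing in the counting inequality -/
noncomputable def Tot (φ : ℕ → ℕ → Q4 F[X] → ℝ) (n : ℕ) : ℝ :=
  (Fintype.card F : ℝ) ^ (2 * n + 1) * (∑ e ∈ range (n + 1), ∑ G ∈ Vb F n e, φ n e G / pa F e) /
    (Fintype.card F : ℝ) ^ (12 * n + 3)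

theorem Tot_eq (φ : ℕ → ℕ → Q4 F[X] → ℝ) (n : ℕ) :
    Tot φ n = (Fintype.card F : ℝ) ^ 3 * ∑ e ∈ range (n + 1), (pa F e)⁻¹ * AV n e (φ n e) := by
  have hq2 : 2 ≤ (Fintype.card F : ℝ) := q_ge
  have h0 : (Fintype.card F : ℝ) ≠ 0 := by linarith
  unfold Tot AV
  have e1 : ∑ e ∈ range (n + 1), ∑ G ∈ Vb F n e, φ n e G / pa F e = (Fintype.card F : ℝ) ^ (10 * n + 5) *
      ∑ e ∈ range (n + 1), (pa F e)⁻¹ * ((∑ G ∈ Vb F n e, φ n e G) / (Fintype.card F : ℝ) ^ (10 * n + 5)) := by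
    rw [mul_sum]
    apply sum_congr rfl
    intro e _
    rw [← sum_div]
    field_simp
  rw [e1, div_eq_iff (pow_ne_zero _ h0), ← mul_assoc, ← pow_add]
  have e2 : (Fintype.card F : ℝ) ^ (2 * n + 1 + (10 * n + 5)) =
      (Fintype.card F : ℝ) ^ 3 * (Fintype.card F : ℝ) ^ (12 * n + 3) := by
    rw [← pow_add]; congr 1; omega
  rw [e2]
  ring

/-- **the limit of the totals** -/
theorem tendsto_Tot {φ : ℕ → ℕ → Q4 F[X] → ℝ} {c I : ℝ} (h0 : ∀ n e G, 0 ≤ φ n e G) (hc : ∀ n e G, φ n e G ≤ c)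
    (hI : ∀ e, Tendsto (fun n => AV n e (φ n e)) atTop (nhds I)) :
    Tendsto (Tot φ) atTop (nhds ((Fintype.card F : ℝ) ^ 3 *
      (I * (2 / (((Fintype.card F : ℝ) - 1) ^ 2 * ((Fintype.card F : ℝ) + 1)))))) := by
  have hq2 : 2 ≤ (Fintype.card F : ℝ) := q_ge
  have hs := hasSum_pa (F := F)
  have h1 : Tot φ = fun n => (Fintype.card F : ℝ) ^ 3 *
      ∑' e, (if e ∈ range (n + 1) then (pa F e)⁻¹ * AV n e (φ n e) else 0) := by
    funext n
    rw [Tot_eq]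
    congr 1
    rw [tsum_eq_sum (s := range (n + 1))]
    · apply sum_congr rfl
      intro e he
      rw [if_pos he]
    · intro e he
      rw [if_neg he]
  rw [h1]
  apply Tendsto.const_mul
  rw [← hs.tsum_eq, ← tsum_mul_left]
  apply tendsto_tsum_of_dominated_convergence (bound := fun e => (pa F e)⁻¹ * c)
  · exact hs.summable.mul_right c
  · intro e
    have h3 := (hI e).const_mul ((pa F e)⁻¹)
    rw [mul_comm I]
    refine h3.congr' ?_
    filter_upwards [eventually_ge_atTop e] with n hn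
    rw [if_pos (mem_range.2 (by omega))]
  · apply Eventually.of_forall
    intro n e
    split_ifs with he
    · have hp : 0 < (pa F e)⁻¹ := inv_pos.2 (pa_pos e)
      rw [Real.norm_eq_abs, abs_of_nonneg (mul_nonneg hp.le (AV_nonneg (h0 n e)))]
      exact mul_le_mul_of_nonneg_left (AV_le (by have := mem_range.1 he; omega) (hc n e)) hp.le
    · rw [norm_zero]
      have hp : 0 < (pa F e)⁻¹ := inv_pos.2 (pa_pos e)
      have h3 : 0 ≤ c := (h0 0 0 ⟨0, 0, 0, 0, 0⟩).trans (hc 0 0 ⟨0, 0, 0, 0, 0⟩)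
      positivity

end Pool.Agent.H456.BQ
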