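import Pool.Agent.H456.BQ.ClsC

/-!
# Nonminimal cubics
-/

set_option autoImplicit false
set_option linter.all false

open Polynomial WeierstrassCurve Finset Filter
open Pool.Agent.H456.RN
open Pool.Agent.H456.EC

namespace Pool.Agent.H456.BQ

section ring

variable {R : Type*} [CommRing R]

/-- nonminimal cubics: `f(x + r) = (p³)² g(x / p²)` -/
def NMc (p : R) (f : Cub R) : Prop := ∃ (r : R) (g : Cub R), f.tr r = g.sc (p ^ 2)

theorem NMc_tr {p : R} {f : Cub R} (s : R) : NMc p (f.tr s) ↔ NMc p f := by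
  constructor
  · rintro ⟨r, g, h⟩
    rw [Cub.tr_tr] at h
    exact ⟨_, g, h⟩
  · rintro ⟨r, g, h⟩
    refine ⟨-s + r, g, ?_⟩
    rw [Cub.tr_tr, ← h]
    congr 1
    ring

theorem NMc.map {S : Type*} [CommRing S] (φ : R →+* S) {p : R} {f : Cub R} (h : NMc p f) : NMc (φ p) (f.map φ) := by
  obtain ⟨r, g, h⟩ := h
  refine ⟨φ r, g.map φ, ?_⟩
  rw [← Cub.map_tr, h, Cub.map_sc, map_pow]

end ring

variable {F : Type} [Field F]

theorem NMc_iff_mod {P : F[X]} {M : ℕ} (hM : 6 ≤ M) {f : Cub F[X]} :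
    NMc (Ideal.Quotient.mk (Ideal.span {P ^ M}) P) (f.map (Ideal.Quotient.mk (Ideal.span {P ^ M}))) ↔ NMc P f := by
  constructor
  · rintro ⟨r, g, h⟩
    obtain ⟨r, rfl⟩ := Ideal.Quotient.mk_surjective r
    obtain ⟨a, ha⟩ := Ideal.Quotient.mk_surjective g.a
    obtain ⟨b, hb⟩ := Ideal.Quotient.mk_surjective g.b
    obtain ⟨c, hc⟩ := Ideal.Quotient.mk_surjective g.c
    rw [← Cub.map_tr] at h
    have h1 := congrArg Cub.a h
    have h3 := congrArg Cub.b h
    have h4 := congrArg Cub.c h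
    simp only [Cub.map, Cub.sc] at h1 h3 h4
    rw [← ha, ← map_pow, ← map_mul, mk_eq] at h1
    rw [← hb, ← map_pow, ← map_pow, ← map_mul, mk_eq] at h3
    rw [← hc, ← map_pow, ← map_pow, ← map_mul, mk_eq] at h4
    have k1 : P ^ 2 ∣ (f.tr r).a := by
      have e := (pow_dvd_pow P (by omega : 2 ≤ M)).trans h1
      have := dvd_add e (Dvd.intro a rfl : P ^ 2 ∣ P ^ 2 * a)
      rwa [sub_add_cancel] at this
    have k3 : (P ^ 2) ^ 2 ∣ (f.tr r).b := by
      have e0 : (P ^ 2) ^ 2 ∣ P ^ M := by rw [← pow_mul]; exact pow_dvd_pow P (by omega)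
      have e := e0.trans h3
      have := dvd_add e (Dvd.intro b rfl : (P ^ 2) ^ 2 ∣ (P ^ 2) ^ 2 * b)
      rwa [sub_add_cancel] at this
    have k4 : (P ^ 2) ^ 3 ∣ (f.tr r).c := by
      have e0 : (P ^ 2) ^ 3 ∣ P ^ M := by rw [← pow_mul]; exact pow_dvd_pow P (by omega)
      have e := e0.trans h4
      have := dvd_add e (Dvd.intro c rfl : (P ^ 2) ^ 3 ∣ (P ^ 2) ^ 3 * c)
      rwa [sub_add_cancel] at this
    obtain ⟨a', ha'⟩ := k1
    obtain ⟨b', hb'⟩ := k3
    obtain ⟨c', hc'⟩ := k4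
    exact ⟨r, ⟨a', b', c'⟩, by ext1 <;> assumption⟩
  · intro h
    exact h.map _

theorem sc_crv (P : F[X]) (g : Cub F[X]) : sc P (crv g) = crv (g.sc (P ^ 2)) := by
  ext <;> simp only [sc, crv, Cub.sc] <;> ring

theorem NonMin_crv (h2 : (2 : F) ≠ 0) {P : F[X]} {f : Cub F[X]} : NonMin P (crv f) ↔ NMc P f := by
  have hc : (2 : F[X]) * C ((2 : F)⁻¹) = 1 := by
    have : (2 : F[X]) = C (2 : F) := (C_ofNat 2).symm
    rw [this, ← C_mul, mul_inv_cancel₀ h2, C_1]
  have h0 := two_ne_poly h2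
  constructor
  · rintro ⟨r, s, t, V, h⟩
    -- complete the square in `V`
    set s' := C ((2 : F)⁻¹) * V.a₁ with hs'
    set t' := C ((2 : F)⁻¹) * V.a₃ with ht'
    have e1 := congrArg WeierstrassCurve.a₁ h
    have e2 := congrArg WeierstrassCurve.a₂ h
    have e3 := congrArg WeierstrassCurve.a₃ h
    have e4 := congrArg WeierstrassCurve.a₄ h
    have e6 := congrArg WeierstrassCurve.a₆ h
    rw [tr_a₁] at e1
    rw [tr_a₂] at e2
    rw [tr_a₃] at e3
    rw [tr_a₄] at e4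
    rw [tr_a₆] at e6
    simp only [sc, crv] at e1 e2 e3 e4 e6
    have k1 : s = P * s' := by
      apply mul_left_cancel₀ h0
      rw [hs']
      linear_combination e1 - P * V.a₁ * hc
    have k3 : t = P ^ 3 * t' := by
      apply mul_left_cancel₀ h0
      rw [ht']
      linear_combination e3 - P ^ 3 * V.a₃ * hc
    refine ⟨r, ⟨V.a₂ + s' ^ 2, V.a₄ + 2 * (s' * t'), V.a₆ + t' ^ 2⟩, ?_⟩
    ext1
    · simp only [Cub.tr, Cub.sc]
      rw [k1] at e2
      linear_combination e2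
    · simp only [Cub.tr, Cub.sc]
      rw [k1, k3] at e4
      linear_combination e4
    · simp only [Cub.tr, Cub.sc]
      rw [k3] at e6
      linear_combination e6
  · rintro ⟨r, g, h⟩
    refine ⟨r, 0, 0, crv g, ?_⟩
    rw [sc_crv, ← h]
    ext
    · rw [tr_a₁]; simp only [crv]; ring
    · rw [tr_a₂]; simp only [crv, Cub.tr]; ring
    · rw [tr_a₃]; simp only [crv]; ring
    · rw [tr_a₄]; simp only [crv, Cub.tr]; ring
    · rw [tr_a₆]; simp only [crv, Cub.tr]; ring

theorem rev_crv (n : ℕ) (f : Cub F[X]) : rev n (crv f) = crv (crev n f) := by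
  ext1 <;> simp [rev, crv, crev]

theorem crev_crev (n : ℕ) (f : Cub F[X]) : crev n (crev n f) = f := by
  unfold crev
  simp

theorem cdg_crev {n : ℕ} {f : Cub F[X]} (h : CDg n f) : CDg n (crev n f) := by
  have e : ∀ (N : ℕ) (g : F[X]), g.natDegree ≤ N → (reflect N g).natDegree ≤ N := by
    intro N g hg
    have := natDegree_reflect_le (N := N) (p := g)
    rwa [max_eq_left hg] at this
  exact ⟨e _ _ h.1, e _ _ h.2.1, e _ _ h.2.2⟩

theorem MinAll_crv (h2 : (2 : F) ≠ 0) {n : ℕ} {f : Cub F[X]} :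
    MinAll n (crv f) ↔ (∀ P : Pl F, ¬ NMc P.1 f) ∧ ¬ NMc X (crev n f) := by
  unfold MinAll
  rw [rev_crv, NonMin_crv h2]
  constructor
  · rintro ⟨h1, h3⟩
    exact ⟨fun P hP => h1 P.1 P.2.1 P.2.2 ((NonMin_crv h2).2 hP), h3⟩
  · rintro ⟨h1, h3⟩
    exact ⟨fun P hm hi hP => h1 ⟨P, hm, hi⟩ ((NonMin_crv h2).1 hP), h3⟩

theorem cdg_tr {n : ℕ} {f : Cub F[X]} (h : CDg n f) {r : F[X]} (hr : r.natDegree ≤ 2 * n) : CDg n (f.tr r) := by
  obtain ⟨h1, h3, h4⟩ := h
  have r2 := nd_pow hr 2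
  have r3 := nd_pow hr 3
  refine ⟨?_, ?_, ?_⟩
  · exact nd_add h1 (nd_mul (nd_ofNat 3 0) hr (by omega))
  · exact nd_add (nd_add h3 (nd_mul (nd_mul (nd_ofNat 2 0) h1 le_rfl) hr (by omega)))
      (nd_mul (nd_ofNat 3 0) r2 (by omega))
  · exact nd_add (nd_add (nd_add h4 (nd_mul h3 hr (by omega))) (nd_mul h1 r2 (by omega))) (by omega)

theorem cdg_of_sc {n m : ℕ} {P : F[X]} (hP : P ≠ 0) (hm : m ≤ P.natDegree) {g : Cub F[X]}
    (h : CDg (n + m) (g.sc (P ^ 2))) : CDg n g := by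
  rw [← dg_crv, ← sc_crv] at h
  rw [← dg_crv]
  exact dg_of_sc hP hm h

variable [Fintype F]

open Classical in
/-- **few cubics are nonminimal at `P`** -/
theorem card_NM {n : ℕ} {P : F[X]} (hP : P.Monic) (hPn : P.natDegree ≤ n) (hP1 : 1 ≤ P.natDegree) :
    ((Sb F n).filter (fun f => NMc P f)).card ≤ Fintype.card F ^ (12 * n + 3 - 10 * P.natDegree) := by
  set δ := P.natDegree with hδ
  have h1 : (Sb F n).filter (fun f => NMc P f) ⊆
      ((Sb F (n - δ)) ×ˢ PL F (2 * δ)).image (fun x => (x.1.sc (P ^ 2)).tr (-x.2)) := by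
    intro f hf
    rw [mem_filter, mem_Sb] at hf
    obtain ⟨hf, r, g, h⟩ := hf
    have h3 : (P ^ 2) ≠ 1 := by
      intro h3
      have h4 := congrArg natDegree h3
      rw [natDegree_pow, natDegree_one] at h4
      omega
    set r0 := r %ₘ (P ^ 2) with hr0
    set ρ := r /ₘ (P ^ 2) with hρ
    have er : r0 + P ^ 2 * ρ = r := modByMonic_add_div r (P ^ 2)
    have hr1 : r0.natDegree < 2 * δ := by
      have := natDegree_modByMonic_lt r (hP.pow 2) h3
      rwa [natDegree_pow] at this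
    have h5 : f.tr r0 = (g.tr (-ρ)).sc (P ^ 2) := by
      rw [Cub.sc_tr, ← h, Cub.tr_tr]
      congr 1
      linear_combination er
    rw [mem_image]
    refine ⟨(g.tr (-ρ), r0), ?_, ?_⟩
    · rw [mem_product, mem_Sb]
      constructor
      · apply cdg_of_sc hP.ne_zero (m := δ) le_rfl
        rw [Nat.sub_add_cancel hPn, ← h5]
        exact cdg_tr hf (by omega)
      · exact mem_PL_of_natDegree hr1
    · simp only
      rw [← h5, Cub.tr_tr, add_neg_cancel, Cub.tr_zero]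
  refine (card_le_card h1).trans (card_image_le.trans ?_)
  rw [card_product, card_Sb, card_PL, ← pow_add]
  exact Nat.pow_le_pow_right Fintype.card_pos (by omega)

theorem NM_large (h2 : (2 : F) ≠ 0) {n : ℕ} {f : Cub F[X]} (hf : CDg n f) (hd : f.disc ≠ 0) {P : Pl F}
    (h : NMc P.1 f) : P.1.natDegree ≤ n := by
  have h1 := (NonMin_crv h2).2 h
  obtain ⟨r, s, t, V, -, -, -, -, h3, -⟩ := reduce ((crv_mem h2).2 ⟨hd, hf⟩) P.2.1 P.2.2 h1
  exact h3

open Classical in
/-- few cubics have zero discriminant -/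
theorem card_disc0 (h2 : (2 : F) ≠ 0) (n : ℕ) :
    (((Sb F n).filter (fun f => f.disc = 0)).card : ℝ) ≤ 3 * (Fintype.card F : ℝ) ^ (8 * n + 2) := by
  rw [card_filter]
  push_cast
  rw [sum_Sb]
  have h1 : ∀ a ∈ PL F (2 * n + 1), ∑ b ∈ PL F (4 * n + 1), ∑ c ∈ PL F (6 * n + 1),
      (if (⟨a, b, c⟩ : Cub F[X]).disc = 0 then (1 : ℝ) else 0) ≤ 3 * (Fintype.card F : ℝ) ^ (6 * n + 1) := by
    intro a _
    rw [sum_comm]
    have h3 : ∀ c ∈ PL F (6 * n + 1), ∑ b ∈ PL F (4 * n + 1),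
        (if (⟨a, b, c⟩ : Cub F[X]).disc = 0 then (1 : ℝ) else 0) ≤ 3 := by
      intro c _
      rw [← sum_filter, sum_const, nsmul_eq_mul, mul_one]
      set p : F[X][X] := C (-4) * X ^ 3 + C (a ^ 2) * X ^ 2 + C (18 * a * c) * X + C (-(4 * a ^ 3 * c + 27 * c ^ 2)) with hp
      have hp0 : p ≠ 0 := by
        intro h0
        have h4 := congrArg (fun p => p.coeff 3) h0
        simp only [hp, coeff_add, coeff_C_mul, coeff_X_pow, coeff_X, coeff_C, coeff_zero] at h4
        norm_num at h4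
        exact four_ne h2 h4
      have hd : p.natDegree ≤ 3 := by
        rw [hp]; compute_degree!
      have hsub : (PL F (4 * n + 1)).filter (fun b => (⟨a, b, c⟩ : Cub F[X]).disc = 0) ⊆ p.roots.toFinset := by
        intro b hb
        rw [mem_filter] at hb
        rw [Multiset.mem_toFinset, mem_roots hp0, IsRoot.def, hp]
        simp only [eval_add, eval_mul, eval_pow, eval_X, eval_C]
        have := hb.2
        simp only [Cub.disc] at this
        linear_combination this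
      have h5 : ((PL F (4 * n + 1)).filter (fun b => (⟨a, b, c⟩ : Cub F[X]).disc = 0)).card ≤ 3 :=
        (card_le_card hsub).trans ((Multiset.toFinset_card_le _).trans ((card_roots' _).trans hd))
      exact_mod_cast h5
    refine (sum_le_sum h3).trans (le_of_eq ?_)
    rw [sum_const, card_PL, nsmul_eq_mul]
    push_cast
    ring
  refine (sum_le_sum h1).trans (le_of_eq ?_)
  rw [sum_const, card_PL, nsmul_eq_mul]
  push_cast
  have : (Fintype.card F : ℝ) ^ (8 * n + 2) = (Fintype.card F : ℝ) ^ (2 * n + 1) * (Fintype.card F : ℝ) ^ (6 * n + 1) := by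
    rw [← pow_add]; congr 1; omega
  rw [this]
  ring

end Pool.Agent.H456.BQ
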