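import Pool.Agent.H456.BQ.Red
import Pool.Agent.H456.RN.Inf

/-!
# The ring of rational functions regular at infinity, and the gluing of lattices
-/

set_option autoImplicit false

open Polynomial
open Pool.Agent.H456.EC (toK toK_inj sig toK_eq reflect_toK)

namespace Pool.Agent.H456.BQ

variable {F : Type} [Field F]

/-- the rational functions which are regular at infinity -/
def Oi (F : Type) [Field F] : Subring (RatFunc F) where
  carrier := {x | x = 0 ∨ x.intDegree ≤ 0}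
  mul_mem' := by
    rintro x y hx hy
    by_cases h0 : x * y = 0
    · exact Or.inl h0
    · right
      have hx0 := left_ne_zero_of_mul h0
      have hy0 := right_ne_zero_of_mul h0
      rw [RatFunc.intDegree_mul hx0 hy0]
      have h1 := hx.resolve_left hx0
      have h2 := hy.resolve_left hy0
      omega
  one_mem' := Or.inr (by rw [RatFunc.intDegree_one])
  add_mem' := by
    rintro x y hx hy
    by_cases h0 : x + y = 0
    · exact Or.inl h0
    · by_cases hy0 : y = 0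
      · rw [hy0, add_zero]; exact hx
      by_cases hx0 : x = 0
      · rw [hx0, zero_add]; exact hy
      right
      have h1 := hx.resolve_left hx0
      have h2 := hy.resolve_left hy0
      exact (RatFunc.intDegree_add_le hy0 h0).trans (max_le h1 h2)
  zero_mem' := Or.inl rfl
  neg_mem' := by
    rintro x (hx | hx)
    · left; rw [hx, neg_zero]
    · right; rw [RatFunc.intDegree_neg]; exact hx

theorem mem_Oi {x : RatFunc F} : x ∈ Oi F ↔ x = 0 ∨ x.intDegree ≤ 0 := Iff.rfl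

/-- powers of `t` -/
noncomputable def tt (F : Type) [Field F] (m : ℤ) : RatFunc F := RatFunc.X ^ m

theorem tt_ne (m : ℤ) : tt F m ≠ 0 := zpow_ne_zero _ RatFunc.X_ne_zero

theorem tt_add (m n : ℤ) : tt F (m + n) = tt F m * tt F n := zpow_add₀ RatFunc.X_ne_zero _ _

theorem tt_zero : tt F 0 = 1 := zpow_zero _

theorem tt_neg (m : ℤ) : tt F (-m) * tt F m = 1 := by
  rw [← tt_add, neg_add_cancel, tt_zero]

theorem tt_nat (m : ℕ) : tt F (m : ℤ) = RatFunc.X ^ m := zpow_natCast _ _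

theorem tt_nat' (m : ℕ) : tt F (m : ℤ) = toK F (X ^ m) := by
  rw [tt_nat, map_pow, toK, RatFunc.algebraMap_X]

theorem intDegree_tt (m : ℤ) : (tt F m).intDegree = m := by
  have h : ∀ k : ℕ, (tt F (k : ℤ)).intDegree = k := by
    intro k
    rw [tt_nat', RatFunc.intDegree_polynomial, natDegree_X_pow]
  rcases Int.le_total 0 m with hm | hm
  · obtain ⟨k, rfl⟩ := Int.eq_ofNat_of_zero_le hm
    exact h k
  · obtain ⟨k, hk⟩ := Int.eq_ofNat_of_zero_le (neg_nonneg.2 hm)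
    have e : m = -(k : ℤ) := by omega
    have h1 : tt F m = (tt F (k : ℤ))⁻¹ := by
      rw [e]
      exact eq_inv_of_mul_eq_one_left (tt_neg (k : ℤ))
    rw [h1, RatFunc.intDegree_inv, h]
    omega

theorem poly_mem {p : F[X]} {m : ℤ} : toK F p * tt F (-m) ∈ Oi F ↔ p = 0 ∨ (p.natDegree : ℤ) ≤ m := by
  rw [mem_Oi]
  by_cases hp : p = 0
  · simp [hp]
  have hp' : toK F p ≠ 0 := (map_ne_zero_iff _ toK_inj).2 hp
  rw [RatFunc.intDegree_mul hp' (tt_ne _), intDegree_tt, RatFunc.intDegree_polynomial]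
  constructor
  · rintro (h | h)
    · exact absurd h (mul_ne_zero hp' (tt_ne _))
    · right; omega
  · rintro (h | h)
    · exact absurd h hp
    · right; omega

theorem poly_mem_of {p : F[X]} {m : ℕ} (h : p.natDegree ≤ m) : toK F p * tt F (-(m : ℤ)) ∈ Oi F :=
  poly_mem.2 (Or.inr (by exact_mod_cast h))

theorem sig_mem (g : F[X]) : sig F g ∈ Oi F := by
  induction g using Polynomial.induction_on' with
  | add p q hp hq => rw [map_add]; exact (Oi F).add_mem hp hq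
  | monomial k a =>
    unfold sig
    rw [coe_eval₂RingHom, eval₂_monomial]
    apply (Oi F).mul_mem
    · rw [mem_Oi]; right; rw [RatFunc.intDegree_C]
    · apply (Oi F).pow_mem
      rw [mem_Oi]; right
      rw [RatFunc.intDegree_inv, RatFunc.intDegree_X]
      norm_num

/-- every matrix over the field has a nonzero multiple over `F[X]` -/
theorem clear (M : M2 (RatFunc F)) : ∃ (Z : M2 F[X]) (D : F[X]), D ≠ 0 ∧ Z.map (toK F) = M.scal (toK F D) := by
  have h : ∀ x : RatFunc F, ∃ p q : F[X], q ≠ 0 ∧ toK F q * x = toK F p := by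
    intro x
    refine ⟨x.num, x.denom, RatFunc.denom_ne_zero x, ?_⟩
    have h3 := RatFunc.num_div_denom x
    have hβ' : toK F x.denom ≠ 0 := (map_ne_zero_iff _ toK_inj).2 (RatFunc.denom_ne_zero x)
    rw [div_eq_iff hβ'] at h3
    rw [mul_comm]
    exact h3.symm
  obtain ⟨p1, q1, h1, e1⟩ := h M.α
  obtain ⟨p2, q2, h2, e2⟩ := h M.β
  obtain ⟨p3, q3, h3, e3⟩ := h M.γ
  obtain ⟨p4, q4, h4, e4⟩ := h M.δ
  refine ⟨⟨p1 * (q2 * q3 * q4), p2 * (q1 * q3 * q4), p3 * (q1 * q2 * q4), p4 * (q1 * q2 * q3)⟩,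
    q1 * q2 * q3 * q4, mul_ne_zero (mul_ne_zero (mul_ne_zero h1 h2) h3) h4, ?_⟩
  ext
  · simp only [M2.map, M2.scal, map_mul]; rw [← e1]; ring
  · simp only [M2.map, M2.scal, map_mul]; rw [← e2]; ring
  · simp only [M2.map, M2.scal, map_mul]; rw [← e3]; ring
  · simp only [M2.map, M2.scal, map_mul]; rw [← e4]; ring

/-- the degree bounds of the coefficients of a quartic on the bundle `O(i) ⊕ O(i + e)` -/
def Bd (n e : ℕ) (G : Q4 F[X]) : Prop :=
  (G.A = 0 ∨ (G.A.natDegree : ℤ) ≤ 2 * n - 2 * e) ∧ (G.B = 0 ∨ (G.B.natDegree : ℤ) ≤ 2 * n - e) ∧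
    (G.C = 0 ∨ (G.C.natDegree : ℤ) ≤ 2 * n) ∧ (G.D = 0 ∨ (G.D.natDegree : ℤ) ≤ 2 * n + e) ∧
    (G.E = 0 ∨ (G.E.natDegree : ℤ) ≤ 2 * n + 2 * e)

/-- a column reduced matrix is a matrix over `Oi` times a diagonal matrix -/
theorem factor {Y : M2 F[X]} {l₁ l₂ : ℕ} (hα : Y.α.natDegree ≤ l₁) (hγ : Y.γ.natDegree ≤ l₁)
    (hβ : Y.β.natDegree ≤ l₂) (hδ : Y.δ.natDegree ≤ l₂) (hd0 : Y.det ≠ 0) (hd : Y.det.natDegree = l₁ + l₂) :
    ∃ (V : M2 (Oi F)) (ε : Oi F), Y.map (toK F) = (V.map (Oi F).subtype).mul ⟨tt F l₁, 0, 0, tt F l₂⟩ ∧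
      V.det * ε = 1 := by
  have e : ∀ l : ℕ, tt F (-(l : ℤ)) * tt F l = 1 := fun l => tt_neg _
  refine ⟨⟨⟨_, poly_mem_of hα⟩, ⟨_, poly_mem_of hβ⟩, ⟨_, poly_mem_of hγ⟩, ⟨_, poly_mem_of hδ⟩⟩,
    ⟨(toK F Y.det)⁻¹ * tt F (l₁ + l₂), ?_⟩, ?_, ?_⟩
  · rw [mem_Oi]
    right
    have h0 : toK F Y.det ≠ 0 := (map_ne_zero_iff _ toK_inj).2 hd0
    rw [RatFunc.intDegree_mul (inv_ne_zero h0) (tt_ne _), RatFunc.intDegree_inv, RatFunc.intDegree_polynomial,
      intDegree_tt, hd]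
    omega
  · ext <;> simp only [M2.map, M2.mul, Subring.coe_subtype]
    · linear_combination (-toK F Y.α) * e l₁
    · linear_combination (-toK F Y.β) * e l₂
    · linear_combination (-toK F Y.γ) * e l₁
    · linear_combination (-toK F Y.δ) * e l₂
  · apply Subtype.ext
    have h0 : toK F Y.det ≠ 0 := (map_ne_zero_iff _ toK_inj).2 hd0
    have e3 : toK F Y.det = toK F Y.α * toK F Y.δ - toK F Y.β * toK F Y.γ := by
      rw [M2.det, map_sub, map_mul, map_mul]
    simp only [M2.det, Subring.coe_mul, AddSubgroupClass.coe_sub, Subring.coe_one]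
    rw [← M2.det, tt_add]
    have h5 := inv_mul_cancel₀ h0
    have e1 := e l₁
    have e2 := e l₂
    calc _ = ((toK F Y.det)⁻¹ * (toK F Y.α * toK F Y.δ - toK F Y.β * toK F Y.γ)) *
          ((tt F (-(l₁ : ℤ)) * tt F l₁) * (tt F (-(l₂ : ℤ)) * tt F l₂)) := by ring
      _ = 1 := by rw [← e3, h5, e1, e2]; ring

/-- **gluing**: a quartic which is integral for the lattice `N` at the finite places and for the lattice `Ni`
at infinity -/
theorem glue {g : Q4 (RatFunc F)} {N Ni : M2 (RatFunc F)} (hN : N.det ≠ 0) (hNi : Ni.det ≠ 0) {G₀ : Q4 F[X]}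
    (h₀ : g.sub N = (G₀.map (toK F)).smul (N.det ^ 2)) {Gi : Q4 (Oi F)} {n : ℕ}
    (hi : g.sub Ni = (Gi.map (Oi F).subtype).smul (tt F (2 * n) * Ni.det ^ 2)) :
    ∃ (U Y : M2 F[X]) (l₁ l₂ : ℕ) (D : RatFunc F), l₁ ≤ l₂ ∧ U.det = 1 ∧ D ≠ 0 ∧
      Ni.mul (Y.map (toK F)) = (N.mul (U.map (toK F))).scal D ∧ Y.α.natDegree ≤ l₁ ∧ Y.γ.natDegree ≤ l₁ ∧
      Y.β.natDegree ≤ l₂ ∧ Y.δ.natDegree ≤ l₂ ∧ Y.det.natDegree = l₁ + l₂ ∧ Y.det ≠ 0 ∧
      Bd n (l₂ - l₁) (G₀.sub U) := by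
  obtain ⟨Z, D₀, hD₀, hZ⟩ := clear (Ni.adj.mul N)
  have hD₀' : toK F D₀ ≠ 0 := (map_ne_zero_iff _ toK_inj).2 hD₀
  have hNZ : Ni.mul (Z.map (toK F)) = N.scal (toK F D₀ * Ni.det) := by
    rw [hZ, M2.mul_scal, ← M2.mul_assoc, M2.mul_adj]
    ext <;> simp only [M2.mul, M2.scal] <;> ring
  have hZd : Z.det ≠ 0 := by
    have h1 := congrArg M2.det hZ
    rw [M2.map_det, M2.det_scal, M2.det_mul, M2.det_adj] at h1
    intro h2
    rw [h2, map_zero] at h1
    exact mul_ne_zero (pow_ne_zero _ hD₀') (mul_ne_zero hNi hN) h1.symm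
  obtain ⟨U, l₁, l₂, hl, hU, hα, hγ, hβ, hδ, hdeg⟩ := col_red Z hZd
  have hYd : (Z.mul U).det = Z.det := by rw [M2.det_mul, hU, mul_one]
  have hNY : Ni.mul ((Z.mul U).map (toK F)) = (N.mul (U.map (toK F))).scal (toK F D₀ * Ni.det) := by
    rw [M2.map_mul, ← M2.mul_assoc, hNZ, M2.scal_mul]
  refine ⟨U, Z.mul U, l₁, l₂, toK F D₀ * Ni.det, hl, hU, mul_ne_zero hD₀' hNi, hNY, hα, hγ, hβ, hδ,
    by rw [hYd]; exact hdeg, by rw [hYd]; exact hZd, ?_⟩
  obtain ⟨V, ε, hV, hVε⟩ := factor hα hγ hβ hδ (by rw [hYd]; exact hZd) (by rw [hYd]; exact hdeg)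
  -- the relation between `G₀.sub U` and `Gi.sub V`
  have h1 : (((Gi.sub V).map (Oi F).subtype).sub ⟨tt F l₁, 0, 0, tt F l₂⟩).smul (tt F (2 * n)) =
      ((G₀.sub U).map (toK F)).smul (((Oi F).subtype V.det) ^ 2 * tt F (2 * (l₁ + l₂))) := by
    have a1 : g.sub (Ni.mul ((Z.mul U).map (toK F))) =
        (((Gi.sub V).map (Oi F).subtype).sub ⟨tt F l₁, 0, 0, tt F l₂⟩).smul (tt F (2 * n) * Ni.det ^ 2) := by
      rw [← Q4.sub_mul, hi, Q4.smul_sub, hV, ← Q4.sub_mul, Q4.map_sub]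
    have a2 : g.sub (Ni.mul ((Z.mul U).map (toK F))) =
        ((G₀.sub U).map (toK F)).smul (N.det ^ 2 * (toK F D₀ * Ni.det) ^ 4) := by
      rw [hNY, Q4.sub_scal, ← Q4.sub_mul, h₀, Q4.smul_sub, Q4.smul_smul, Q4.map_sub]
    have a3 : (toK F D₀ * Ni.det) ^ 2 * N.det = Ni.det * ((Oi F).subtype V.det * tt F (l₁ + l₂)) := by
      have b1 := congrArg M2.det hNY
      rw [M2.det_scal, M2.det_mul, M2.det_mul, M2.map_det, M2.map_det, hU, map_one, mul_one, ← M2.map_det, hV,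
        M2.det_mul, M2.map_det] at b1
      rw [← b1, tt_add]
      simp only [M2.det]
      ring
    have a4 : N.det ^ 2 * (toK F D₀ * Ni.det) ^ 4 =
        ((Oi F).subtype V.det) ^ 2 * tt F (2 * (l₁ + l₂)) * Ni.det ^ 2 := by
      have : tt F (2 * ((l₁ : ℤ) + l₂)) = tt F (l₁ + l₂) ^ 2 := by rw [two_mul, tt_add]; ring
      rw [this]
      linear_combination ((toK F D₀ * Ni.det) ^ 2 * N.det + Ni.det * ((Oi F).subtype V.det * tt F (l₁ + l₂))) * a3
    rw [a1, a4] at a2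
    have a5 := Q4.smul_cancel (k := Ni.det ^ 2) (pow_ne_zero 2 hNi)
      (g := (((Gi.sub V).map (Oi F).subtype).sub ⟨tt F l₁, 0, 0, tt F l₂⟩).smul (tt F (2 * n)))
      (g' := ((G₀.sub U).map (toK F)).smul (((Oi F).subtype V.det) ^ 2 * tt F (2 * (l₁ + l₂))))
      (by rw [Q4.smul_smul, Q4.smul_smul]; rw [← a2])
    exact a5
  -- the degrees of the coefficients
  have hε : ((Oi F).subtype V.det) ^ 2 * (ε : RatFunc F) ^ 2 = 1 := by
    have := congrArg (fun x : Oi F => ((x : RatFunc F)) ^ 2) hVε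
    simp only [Subring.coe_mul, Subring.coe_one, one_pow] at this
    rw [← this]
    simp only [Subring.coe_subtype]
    ring
  have key : ∀ (x : F[X]) (y : Oi F) (j : ℤ), (y : RatFunc F) * tt F j * tt F (2 * n) =
      ((Oi F).subtype V.det) ^ 2 * tt F (2 * (l₁ + l₂)) * toK F x →
      x = 0 ∨ (x.natDegree : ℤ) ≤ 2 * n + j - 2 * (l₁ + l₂) := by
    intro x y j hxy
    rw [← poly_mem]
    have e1 : toK F x * tt F (-(2 * n + j - 2 * (l₁ + l₂))) = y * (ε : RatFunc F) ^ 2 := by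
      have c1 : tt F (-(2 * (n : ℤ) + j - 2 * (l₁ + l₂))) = tt F (-(2 * n)) * tt F (-j) * tt F (2 * (l₁ + l₂)) := by
        rw [← tt_add, ← tt_add]; congr 1; ring
      rw [c1]
      have c2 := tt_neg (F := F) (2 * n)
      have c3 := tt_neg (F := F) j
      calc _ = (((Oi F).subtype V.det) ^ 2 * (ε : RatFunc F) ^ 2) * (toK F x * (tt F (-(2 * n)) * tt F (-j) *
            tt F (2 * (l₁ + l₂)))) := by rw [hε, one_mul]
        _ = ((ε : RatFunc F) ^ 2) * tt F (-(2 * n)) * tt F (-j) * (((Oi F).subtype V.det) ^ 2 *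
            tt F (2 * (l₁ + l₂)) * toK F x) := by ring
        _ = ((ε : RatFunc F) ^ 2) * y * ((tt F (-j) * tt F j) * (tt F (-(2 * n)) * tt F (2 * n))) := by
            rw [← hxy]; ring
        _ = _ := by rw [c2, c3]; ring
    rw [e1]
    exact (Oi F).mul_mem y.2 ((Oi F).pow_mem ε.2 2)
  have hA := congrArg Q4.A h1
  have hB := congrArg Q4.B h1
  have hC := congrArg Q4.C h1
  have hD := congrArg Q4.D h1
  have hE := congrArg Q4.E h1
  have t1 : ∀ (l : ℤ) (k : ℕ), tt F l ^ k = tt F (k * l) := by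
    intro l k
    unfold tt
    rw [← zpow_natCast, ← zpow_mul, mul_comm]
  have hcast : ((l₂ - l₁ : ℕ) : ℤ) = l₂ - l₁ := by omega
  refine ⟨?_, ?_, ?_, ?_, ?_⟩
  · have := key (G₀.sub U).A (Gi.sub V).A (4 * l₁) (by
      rw [show tt F (4 * (l₁ : ℤ)) = tt F l₁ ^ 4 by rw [t1]; norm_num]
      simp only [Q4.smul, Q4.map, Subring.coe_subtype] at hA ⊢
      rw [← hA]
      simp only [Q4.sub]
      ring)
    rw [hcast]
    refine this.imp_right fun h => ?_
    linarith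
  · have := key (G₀.sub U).B (Gi.sub V).B (3 * l₁ + l₂) (by
      rw [tt_add, show tt F (3 * (l₁ : ℤ)) = tt F l₁ ^ 3 by rw [t1]; norm_num]
      simp only [Q4.smul, Q4.map, Subring.coe_subtype] at hB ⊢
      rw [← hB]
      simp only [Q4.sub]
      ring)
    rw [hcast]
    refine this.imp_right fun h => ?_
    linarith
  · have := key (G₀.sub U).C (Gi.sub V).C (2 * l₁ + 2 * l₂) (by
      rw [tt_add, show tt F (2 * (l₁ : ℤ)) = tt F l₁ ^ 2 by rw [t1]; norm_num,
        show tt F (2 * (l₂ : ℤ)) = tt F l₂ ^ 2 by rw [t1]; norm_num]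
      simp only [Q4.smul, Q4.map, Subring.coe_subtype] at hC ⊢
      rw [← hC]
      simp only [Q4.sub]
      ring)
    refine this.imp_right fun h => ?_
    linarith
  · have := key (G₀.sub U).D (Gi.sub V).D (l₁ + 3 * l₂) (by
      rw [tt_add, show tt F (3 * (l₂ : ℤ)) = tt F l₂ ^ 3 by rw [t1]; norm_num]
      simp only [Q4.smul, Q4.map, Subring.coe_subtype] at hD ⊢
      rw [← hD]
      simp only [Q4.sub]
      ring)
    rw [hcast]
    refine this.imp_right fun h => ?_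
    linarith
  · have := key (G₀.sub U).E (Gi.sub V).E (4 * l₂) (by
      rw [show tt F (4 * (l₂ : ℤ)) = tt F l₂ ^ 4 by rw [t1]; norm_num]
      simp only [Q4.smul, Q4.map, Subring.coe_subtype] at hE ⊢
      rw [← hE]
      simp only [Q4.sub]
      ring)
    rw [hcast]
    refine this.imp_right fun h => ?_
    linarith

end Pool.Agent.H456.BQ
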