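import Pool.Agent.H456.BQ.Vn

/-!
# Orbits in the boxes, and the counting inequality
-/

set_option autoImplicit false
set_option linter.all false

open Polynomial Finset
open Pool.Agent.H456.EC (toK toK_inj)
open Pool.Agent.H456.RN

namespace Pool.Agent.H456.BQ

section

variable {F : Type} [Field F]

theorem nd_mul {a b : F[X]} {k l m : ℕ} (ha : a.natDegree ≤ k) (hb : b.natDegree ≤ l) (h : k + l ≤ m) :
    (a * b).natDegree ≤ m := natDegree_mul_le.trans (by omega)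

theorem nd_add {a b : F[X]} {m : ℕ} (ha : a.natDegree ≤ m) (hb : b.natDegree ≤ m) :
    (a + b).natDegree ≤ m := (natDegree_add_le _ _).trans (max_le ha hb)

theorem nd_C (a : F) (m : ℕ) : (C a : F[X]).natDegree ≤ m := by
  rw [natDegree_C]; exact Nat.zero_le _

theorem nd_pow {a : F[X]} {k : ℕ} (ha : a.natDegree ≤ k) (j : ℕ) : (a ^ j).natDegree ≤ j * k :=
  natDegree_pow_le.trans (Nat.mul_le_mul_left _ ha)

theorem nd_ofNat (j m : ℕ) [j.AtLeastTwo] : (OfNat.ofNat j : F[X]).natDegree ≤ m := by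
  have : (OfNat.ofNat j : F[X]) = C (OfNat.ofNat j : F) := (map_ofNat C j).symm
  rw [this]
  exact nd_C _ _

theorem sub_upper {R : Type*} [CommRing R] (G : Q4 R) (α β : R) : G.sub ⟨α, β, 0, 1⟩ =
    ⟨α ^ 4 * G.A, α ^ 3 * (4 * (β * G.A) + G.B), α ^ 2 * (6 * (β ^ 2 * G.A) + 3 * (β * G.B) + G.C),
      α * (4 * (β ^ 3 * G.A) + 3 * (β ^ 2 * G.B) + 2 * (β * G.C) + G.D),
      β ^ 4 * G.A + β ^ 3 * G.B + β ^ 2 * G.C + β * G.D + G.E⟩ := by
  ext <;> simp only [Q4.sub] <;> ring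

theorem tau_upper {R : Type*} [CommRing R] (G : Q4 R) (α β : R) : G.tau ⟨α, β, 0, 1⟩ =
    α ^ 2 * (2 * (β ^ 2 * G.A) + β * G.B) := by
  simp only [Q4.tau]; ring

theorem BdN_smul {n e : ℕ} {G : Q4 F[X]} (h : BdN n e G) (c : F) : BdN n e (G.smul (C c)) := by
  obtain ⟨h1, h2, h3, h4, h5⟩ := h
  exact ⟨(natDegree_C_mul_le _ _).trans h1, (natDegree_C_mul_le _ _).trans h2, (natDegree_C_mul_le _ _).trans h3,
    (natDegree_C_mul_le _ _).trans h4, (natDegree_C_mul_le _ _).trans h5⟩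

theorem BdN_upper {n e : ℕ} (he : e ≤ n) {G : Q4 F[X]} (h : BdN n e G) (a : F) {β : F[X]} (hβ : β.natDegree ≤ e) :
    BdN n e (G.sub ⟨C a, β, 0, 1⟩) ∧ (G.tau ⟨C a, β, 0, 1⟩).natDegree ≤ 2 * n := by
  obtain ⟨h1, h2, h3, h4, h5⟩ := h
  have ha : ∀ k : ℕ, ((C a : F[X]) ^ k).natDegree ≤ 0 := by
    intro k; rw [← C_pow]; exact nd_C _ _
  have ha1 : (C a : F[X]).natDegree ≤ 0 := nd_C _ _
  have b2 := nd_pow hβ 2
  have b3 := nd_pow hβ 3
  have b4 := nd_pow hβ 4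
  rw [sub_upper, tau_upper]
  refine ⟨⟨?_, ?_, ?_, ?_, ?_⟩, ?_⟩
  · exact nd_mul (ha _) h1 (by omega)
  · exact nd_mul (ha _) (nd_add (nd_mul (nd_ofNat 4 0) (nd_mul hβ h1 le_rfl) (by omega)) h2) (by omega)
  · refine nd_mul (ha _) (nd_add (nd_add (nd_mul (nd_ofNat 6 0) (nd_mul b2 h1 le_rfl) (by omega))
      (nd_mul (nd_ofNat 3 0) (nd_mul hβ h2 le_rfl) (by omega))) h3) (by omega)
  · refine nd_mul ha1 (nd_add (nd_add (nd_add (nd_mul (nd_ofNat 4 0) (nd_mul b3 h1 le_rfl) (by omega))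
      (nd_mul (nd_ofNat 3 0) (nd_mul b2 h2 le_rfl) (by omega)))
      (nd_mul (nd_ofNat 2 0) (nd_mul hβ h3 le_rfl) (by omega))) h4) (by omega)
  · exact nd_add (nd_add (nd_add (nd_add (nd_mul b4 h1 (by omega)) (nd_mul b3 h2 (by omega)))
      (nd_mul b2 h3 (by omega))) (nd_mul hβ h4 (by omega))) h5
  · exact nd_mul (l := 2 * n) (ha _) (nd_add (nd_mul (nd_ofNat 2 0) (nd_mul b2 h1 le_rfl) (by omega))
      (nd_mul hβ h2 (by omega))) (by omega)

theorem BdN_const {n : ℕ} {G : Q4 F[X]} (h : BdN n 0 G) (a b c d : F) :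
    BdN n 0 (G.sub ⟨C a, C b, C c, C d⟩) ∧ (G.tau ⟨C a, C b, C c, C d⟩).natDegree ≤ 2 * n := by
  obtain ⟨h1, h2, h3, h4, h5⟩ := h
  have key : ∀ k₁ k₂ k₃ k₄ k₅ : F, (C k₁ * G.A + C k₂ * G.B + C k₃ * G.C + C k₄ * G.D + C k₅ * G.E).natDegree
      ≤ 2 * n := by
    intro k₁ k₂ k₃ k₄ k₅
    refine nd_add (nd_add (nd_add (nd_add ?_ ?_) ?_) ?_) ?_
    · exact nd_mul (nd_C _ 0) h1 (by omega)
    · exact nd_mul (nd_C _ 0) h2 (by omega)
    · exact nd_mul (nd_C _ 0) h3 (by omega)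
    · exact nd_mul (nd_C _ 0) h4 (by omega)
    · exact nd_mul (nd_C _ 0) h5 (by omega)
  have e2 : (C 2 : F[X]) = 2 := map_ofNat C 2
  have e3 : (C 3 : F[X]) = 3 := map_ofNat C 3
  have e4 : (C 4 : F[X]) = 4 := map_ofNat C 4
  have e6 : (C 6 : F[X]) = 6 := map_ofNat C 6
  have kA : (G.sub ⟨C a, C b, C c, C d⟩).A = C (a ^ 4) * G.A + C (a ^ 3 * c) * G.B + C (a ^ 2 * c ^ 2) * G.C +
      C (a * c ^ 3) * G.D + C (c ^ 4) * G.E := by
    simp only [Q4.sub, C_mul, C_pow]; ring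
  have kB : (G.sub ⟨C a, C b, C c, C d⟩).B = C (4 * (a ^ 3 * b)) * G.A + C (a ^ 3 * d + 3 * a ^ 2 * b * c) * G.B +
      C (2 * a ^ 2 * c * d + 2 * a * b * c ^ 2) * G.C + C (3 * a * c ^ 2 * d + b * c ^ 3) * G.D +
      C (4 * (c ^ 3 * d)) * G.E := by
    simp only [Q4.sub, C_mul, C_pow, C_add, e2, e3, e4]; ring
  have kC : (G.sub ⟨C a, C b, C c, C d⟩).C = C (6 * (a ^ 2 * b ^ 2)) * G.A +
      C (3 * a ^ 2 * b * d + 3 * a * b ^ 2 * c) * G.B +
      C (a ^ 2 * d ^ 2 + 4 * a * b * c * d + b ^ 2 * c ^ 2) * G.C + C (3 * a * c * d ^ 2 + 3 * b * c ^ 2 * d) * G.D +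
      C (6 * (c ^ 2 * d ^ 2)) * G.E := by
    simp only [Q4.sub, C_mul, C_pow, C_add, e2, e3, e4, e6]; ring
  have kD : (G.sub ⟨C a, C b, C c, C d⟩).D = C (4 * (a * b ^ 3)) * G.A +
      C (3 * a * b ^ 2 * d + b ^ 3 * c) * G.B +
      C (2 * a * b * d ^ 2 + 2 * b ^ 2 * c * d) * G.C + C (a * d ^ 3 + 3 * b * c * d ^ 2) * G.D +
      C (4 * (c * d ^ 3)) * G.E := by
    simp only [Q4.sub, C_mul, C_pow, C_add, e2, e3, e4, e6]; ring
  have kE : (G.sub ⟨C a, C b, C c, C d⟩).E = C (b ^ 4) * G.A + C (b ^ 3 * d) * G.B + C (b ^ 2 * d ^ 2) * G.C +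
      C (b * d ^ 3) * G.D + C (d ^ 4) * G.E := by
    simp only [Q4.sub, C_mul, C_pow]; ring
  have kt : G.tau ⟨C a, C b, C c, C d⟩ = C (2 * (a ^ 2 * b ^ 2)) * G.A + C (a * b * (a * d + b * c)) * G.B +
      C (2 * (a * b * c * d)) * G.C + C (c * d * (a * d + b * c)) * G.D + C (2 * (c ^ 2 * d ^ 2)) * G.E := by
    simp only [Q4.tau, C_mul, C_pow, C_add, e2]
  unfold BdN
  rw [kA, kB, kC, kD, kE, kt]
  exact ⟨⟨(key _ _ _ _ _).trans (by omega), (key _ _ _ _ _).trans (by omega), (key _ _ _ _ _).trans (by omega),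
    (key _ _ _ _ _).trans (by omega), (key _ _ _ _ _).trans (by omega)⟩, key _ _ _ _ _⟩

end

section fin

variable {F : Type} [Field F] [Fintype F]

theorem act_bd {n e : ℕ} (he : e ≤ n) {p : Q4 F[X] × F[X]} (h1 : BdN n e p.1) (h3 : p.2.natDegree ≤ 2 * n)
    {t : M2 F[X] × F} (ht : t ∈ Tn F e) : BdN n e (act p t.1 t.2).1 ∧ (act p t.1 t.2).2.natDegree ≤ 2 * n := by
  classical
  have key : ∀ {A : M2 F[X]} {d : F}, (BdN n e (p.1.sub A) ∧ (p.1.tau A).natDegree ≤ 2 * n) →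
      BdN n e (act p A d).1 ∧ (act p A d).2.natDegree ≤ 2 * n := by
    rintro A d ⟨k1, k2⟩
    unfold act
    rw [← C_pow]
    exact ⟨BdN_smul k1 _, nd_add h3 (nd_mul (nd_C _ 0) k2 (by omega))⟩
  unfold Tn at ht
  rw [mem_union] at ht
  rcases ht with ht | ht
  · rw [mem_image] at ht
    obtain ⟨x, hx, rfl⟩ := ht
    rw [mem_product, mem_PL_iff] at hx
    exact key (BdN_upper he h1 _ hx.2)
  · split_ifs at ht with he0
    · rw [mem_image] at ht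
      obtain ⟨x, hx, rfl⟩ := ht
      subst he0
      have h4 := key (d := x.1) (BdN_const h1 x.2.1 (x.2.1 * x.2.2 - x.1) 1 x.2.2)
      rw [C_1] at h4
      exact h4
    · exact absurd ht (notMem_empty _)

/-- the pairs in the box which represent the class -/
noncomputable def Pn (h2 : (2 : F) ≠ 0) (n e : ℕ) {f : Cub F[X]} (hf : f.disc ≠ 0) (σ : Q2 f) :
    Finset (Q4 F[X] × F[X]) := by
  classical exact (Vb F n e ×ˢ PL F (2 * n + 1)).filter (fun p => p ∈ Cl h2 hf σ)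

theorem mem_Pn (h2 : (2 : F) ≠ 0) {n e : ℕ} {f : Cub F[X]} (hf : f.disc ≠ 0) {σ : Q2 f} {p : Q4 F[X] × F[X]} :
    p ∈ Pn h2 n e hf σ ↔ (BdN n e p.1 ∧ p.2.natDegree ≤ 2 * n) ∧ p ∈ Cl h2 hf σ := by
  classical
  unfold Pn
  rw [mem_filter, mem_product, mem_Vb, mem_PL_iff]

/-- **the orbits are free** if there are no points of order two -/
theorem le_card_Pn (h2 : (2 : F) ≠ 0) {n e : ℕ} (he : e ≤ n) {f : Cub F[X]} (hf : f.disc ≠ 0) (hn : NoTwo f)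
    {σ : Q2 f} {p : Q4 F[X] × F[X]} (hp : p ∈ Pn h2 n e hf σ) : pa F e ≤ ((Pn h2 n e hf σ).card : ℝ) := by
  classical
  rw [← card_Tn, Nat.cast_le]
  obtain ⟨⟨h1, h3⟩, h4⟩ := (mem_Pn h2 hf).1 hp
  apply card_le_card_of_injOn (fun t => act p t.1 t.2)
  · intro t ht
    have ht' : t ∈ Tn F e := ht
    exact (mem_Pn h2 hf).2 ⟨act_bd he h1 h3 ht', Cl_act h2 hf h4 (Tn_det ht').1 (Tn_det ht').2⟩
  · intro t ht t' ht' htt
    have ht1 : t ∈ Tn F e := ht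
    have ht1' : t' ∈ Tn F e := ht'
    obtain ⟨k, hk, hkk⟩ := act_inj h2 hf hn h4 (Tn_det ht1).1 (Tn_det ht1').1 (Tn_det ht1).2 (Tn_det ht1').2 htt
    exact Tn_eq ht1 ht1' hk hkk

theorem pa_pos (e : ℕ) : 0 < pa F e := by
  have hq : 2 ≤ (Fintype.card F : ℝ) := by
    have : 1 < Fintype.card F := Fintype.one_lt_card
    exact_mod_cast this
  unfold pa
  split_ifs
  · have : 0 < (Fintype.card F : ℝ) - 1 := by linarith
    positivity
  · have : 0 < (Fintype.card F : ℝ) - 1 := by linarith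
    positivity

theorem upper_mem_Tn {e : ℕ} {β : F[X]} (hβ : β ∈ PL F (e + 1)) : ((⟨C 1, β, 0, 1⟩ : M2 F[X]), (1 : F)) ∈ Tn F e := by
  classical
  unfold Tn
  rw [mem_union]
  left
  apply mem_image_of_mem (fun x : F × F[X] => ((⟨C x.1, x.2, 0, 1⟩ : M2 F[X]), x.1)) (a := ((1 : F), β))
  exact mem_product.2 ⟨mem_filter.2 ⟨mem_univ _, one_ne_zero⟩, hβ⟩

theorem act_upper_B (p : Q4 F[X] × F[X]) (β : F[X]) : (act p ⟨C 1, β, 0, 1⟩ 1).1.B = 4 * (β * p.1.A) + p.1.B := by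
  simp only [act, sub_upper, Q4.smul, inv_one, C_1, one_pow, one_mul]

/-- in general, the orbits have at least `1 / q³` of the expected size -/
theorem le_card_Pn' (h2 : (2 : F) ≠ 0) {n e : ℕ} (he : e ≤ n) {f : Cub F[X]} (hf : f.disc ≠ 0)
    {σ : Q2 f} {p : Q4 F[X] × F[X]} (hp : p ∈ Pn h2 n e hf σ) (hA : p.1.A ≠ 0) :
    pa F e ≤ (Fintype.card F : ℝ) ^ 3 * ((Pn h2 n e hf σ).card : ℝ) := by
  classical
  have hq : 2 ≤ (Fintype.card F : ℝ) := by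
    have : 1 < Fintype.card F := Fintype.one_lt_card
    exact_mod_cast this
  have hpos : 1 ≤ ((Pn h2 n e hf σ).card : ℝ) := by
    have : 0 < (Pn h2 n e hf σ).card := card_pos.2 ⟨p, hp⟩
    exact_mod_cast this
  obtain ⟨⟨h1, h3⟩, h4⟩ := (mem_Pn h2 hf).1 hp
  by_cases he0 : e = 0
  · have : pa F e ≤ (Fintype.card F : ℝ) ^ 3 := by
      unfold pa
      rw [if_pos he0]
      nlinarith
    calc pa F e ≤ (Fintype.card F : ℝ) ^ 3 := this
      _ = (Fintype.card F : ℝ) ^ 3 * 1 := by ring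
      _ ≤ _ := by gcongr
  · -- the translations act freely
    have h5 : (Fintype.card F) ^ (e + 1) ≤ (Pn h2 n e hf σ).card := by
      rw [← card_PL (F := F)]
      have m1 : ∀ t ∈ Tn F e, act p t.1 t.2 ∈ Pn h2 n e hf σ := fun t ht =>
        (mem_Pn h2 hf).2 ⟨act_bd he h1 h3 ht, Cl_act h2 hf h4 (Tn_det ht).1 (Tn_det ht).2⟩
      have hB : ∀ β ∈ PL F (e + 1), ((⟨C 1, β, 0, 1⟩ : M2 F[X]), (1 : F)) ∈ Tn F e := fun β hβ => upper_mem_Tn hβ
      apply card_le_card_of_injOn (fun β => act p ⟨C 1, β, 0, 1⟩ 1)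
      · intro β hβ
        have m2 := m1 _ (hB β hβ)
        exact m2
      · intro β _ β' _ hbb
        have h6 : (act p ⟨C 1, β, 0, 1⟩ 1).1.B = (act p ⟨C 1, β', 0, 1⟩ 1).1.B := by
          have hbb' : act p ⟨C 1, β, 0, 1⟩ 1 = act p ⟨C 1, β', 0, 1⟩ 1 := hbb
          rw [hbb']
        rw [act_upper_B, act_upper_B] at h6
        have h7 : (4 * p.1.A) * (β - β') = 0 := by linear_combination h6
        have h44 : (4 : F[X]) ≠ 0 := by
          have : (4 : F[X]) = C ((2 : F) ^ 2) := by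
            rw [C_pow, C_ofNat]; norm_num
          rw [this]
          exact C_ne_zero.2 (pow_ne_zero _ h2)
        rcases mul_eq_zero.1 h7 with h8 | h8
        · exact absurd h8 (mul_ne_zero h44 hA)
        · exact sub_eq_zero.1 h8
    have h6 : (Fintype.card F : ℝ) ^ (e + 1) ≤ ((Pn h2 n e hf σ).card : ℝ) := by exact_mod_cast h5
    unfold pa
    rw [if_neg he0]
    have h7a : (Fintype.card F : ℝ) ^ 1 ≤ (Fintype.card F : ℝ) ^ 3 := pow_le_pow_right₀ (by linarith) (by norm_num)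
    have h7 : (Fintype.card F : ℝ) - 1 ≤ (Fintype.card F : ℝ) ^ 3 := by rw [pow_one] at h7a; linarith
    exact mul_le_mul h7 h6 (by positivity) (by positivity)

end fin

end Pool.Agent.H456.BQ
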