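import Pool.Agent.H456.BQ.All

/-!
# The final form of the theorem on the average rank
-/

set_option autoImplicit false

open Polynomial Finset Filter
open Pool.Agent.H456.EC
open Pool.Agent.H456.RN

namespace Pool.Agent.H456.BQ

variable {F : Type} [Field F] [Fintype F]

theorem ne_cls (h2 : (2 : F) ≠ 0) {d : ℕ} (hd : 1 ≤ d) : (cls '' Eqn F d).Nonempty := by
  refine ⟨_, ⟨crv ⟨1, 0, X⟩, ?_, rfl⟩⟩
  rw [crv_mem h2]
  refine ⟨?_, ?_, ?_, ?_⟩
  · simp only [Cub.disc]
    intro h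
    have h1 := congrArg (fun p => p.coeff 1) h
    have h3 : (1 ^ 2 * 0 ^ 2 - 4 * 0 ^ 3 - 4 * 1 ^ 3 * X - 27 * X ^ 2 + 18 * 1 * 0 * X : F[X]) =
        C (-4) * X + C (-27) * X ^ 2 := by
      have e4 : (4 : F[X]) = C 4 := (map_ofNat C 4).symm
      have e27 : (27 : F[X]) = C 27 := (map_ofNat C 27).symm
      rw [e4, e27, C_neg, C_neg]
      ring
    rw [h3] at h1
    simp only [coeff_add, coeff_C_mul, coeff_X_one, coeff_X_pow, coeff_zero] at h1
    norm_num at h1
    have h4 : (4 : F) = 2 ^ 2 := by norm_num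
    rw [h4] at h1
    exact pow_ne_zero 2 h2 h1
  · simp
  · simp
  · simp only [natDegree_X]
    omega

theorem finite_cls (d : ℕ) : (cls '' Eqn F d).Finite := by
  rw [← coe_CL]
  exact (CL F d).finite_toSet

end Pool.Agent.H456.BQ
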