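import Pool.Agent.H456.BQ.Lat

/-!
# Column reduced matrices over `F[X]`
-/

set_option autoImplicit false

open Polynomial

namespace Pool.Agent.H456.BQ

variable {F : Type} [Field F]

theorem natDegree_le_pred' {k : ℕ} (_ : k ≠ 0) {x : F[X]} (h : x.natDegree ≤ k) (h0 : x.coeff k = 0) :
    x.natDegree ≤ k - 1 := by
  rw [natDegree_le_iff_coeff_eq_zero] at *
  intro N hN
  rcases Nat.lt_or_ge k N with h1 | h1
  · exact h N h1
  · have : N = k := by omega
    rw [this]; exact h0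

theorem det_bound {Y : M2 F[X]} {k₁ k₂ : ℕ} (hα : Y.α.natDegree ≤ k₁) (hγ : Y.γ.natDegree ≤ k₁)
    (hβ : Y.β.natDegree ≤ k₂) (hδ : Y.δ.natDegree ≤ k₂) : Y.det.natDegree ≤ k₁ + k₂ := by
  unfold M2.det
  exact (natDegree_sub_le _ _).trans (max_le (natDegree_mul_le.trans (by omega)) (natDegree_mul_le.trans (by omega)))

theorem det_coeff {Y : M2 F[X]} {k₁ k₂ : ℕ} (hα : Y.α.natDegree ≤ k₁) (hγ : Y.γ.natDegree ≤ k₁)
    (hβ : Y.β.natDegree ≤ k₂) (hδ : Y.δ.natDegree ≤ k₂) :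
    Y.det.coeff (k₁ + k₂) = Y.α.coeff k₁ * Y.δ.coeff k₂ - Y.β.coeff k₂ * Y.γ.coeff k₁ := by
  unfold M2.det
  rw [coeff_sub, coeff_mul_add_eq_of_natDegree_le hα hδ, add_comm k₁ k₂, coeff_mul_add_eq_of_natDegree_le hβ hγ]

theorem col_red_aux (N : ℕ) : ∀ (Z : M2 F[X]) (k₁ k₂ : ℕ), k₁ + k₂ ≤ N → Z.det ≠ 0 → Z.α.natDegree ≤ k₁ →
    Z.γ.natDegree ≤ k₁ → Z.β.natDegree ≤ k₂ → Z.δ.natDegree ≤ k₂ →
    ∃ (U : M2 F[X]) (l₁ l₂ : ℕ), U.det = 1 ∧ (Z.mul U).α.natDegree ≤ l₁ ∧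
      (Z.mul U).γ.natDegree ≤ l₁ ∧ (Z.mul U).β.natDegree ≤ l₂ ∧ (Z.mul U).δ.natDegree ≤ l₂ ∧
      Z.det.natDegree = l₁ + l₂ := by
  induction N with
  | zero =>
    intro Z k₁ k₂ hN hdet hα hγ hβ hδ
    refine ⟨⟨1, 0, 0, 1⟩, 0, 0, by simp [M2.det], ?_, ?_, ?_, ?_, ?_⟩
    · simp only [M2.mul, mul_one, mul_zero, add_zero]; omega
    · simp only [M2.mul, mul_one, mul_zero, add_zero]; omega
    · simp only [M2.mul, mul_one, mul_zero, zero_add]; omega
    · simp only [M2.mul, mul_one, mul_zero, zero_add]; omega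
    · have := det_bound hα hγ hβ hδ; omega
  | succ N ih =>
    intro Z k₁ k₂ hN hdet hα hγ hβ hδ
    by_cases hlt : k₁ + k₂ ≤ N
    · exact ih Z k₁ k₂ hlt hdet hα hγ hβ hδ
    by_cases hc : Z.det.coeff (k₁ + k₂) = 0
    swap
    · refine ⟨⟨1, 0, 0, 1⟩, k₁, k₂, by simp [M2.det], ?_, ?_, ?_, ?_, ?_⟩
      · simp only [M2.mul, mul_one, mul_zero, add_zero]; omega
      · simp only [M2.mul, mul_one, mul_zero, add_zero]; omega
      · simp only [M2.mul, mul_one, mul_zero, zero_add]; omega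
      · simp only [M2.mul, mul_one, mul_zero, zero_add]; omega
      · exact le_antisymm (det_bound hα hγ hβ hδ) (le_natDegree_of_ne_zero hc)
    rw [det_coeff hα hγ hβ hδ] at hc
    -- the first column has smaller degree
    by_cases hp : Z.α.coeff k₁ = 0 ∧ Z.γ.coeff k₁ = 0
    · have hk : k₁ ≠ 0 := by
        rintro rfl
        apply hdet
        have e1 : Z.α = 0 := by
          rw [eq_C_of_natDegree_le_zero hα, hp.1, C_0]
        have e2 : Z.γ = 0 := by
          rw [eq_C_of_natDegree_le_zero hγ, hp.2, C_0]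
        simp [M2.det, e1, e2]
      exact ih Z (k₁ - 1) k₂ (by omega) hdet (natDegree_le_pred' hk hα hp.1) (natDegree_le_pred' hk hγ hp.2) hβ hδ
    by_cases hr : Z.β.coeff k₂ = 0 ∧ Z.δ.coeff k₂ = 0
    · have hk : k₂ ≠ 0 := by
        rintro rfl
        apply hdet
        have e1 : Z.β = 0 := by
          rw [eq_C_of_natDegree_le_zero hβ, hr.1, C_0]
        have e2 : Z.δ = 0 := by
          rw [eq_C_of_natDegree_le_zero hδ, hr.2, C_0]
        simp [M2.det, e1, e2]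
      exact ih Z k₁ (k₂ - 1) (by omega) hdet hα hγ (natDegree_le_pred' hk hβ hr.1) (natDegree_le_pred' hk hδ hr.2)
    -- the vectors are proportional
    obtain ⟨κ, hκ, e1, e2⟩ : ∃ κ : F, κ ≠ 0 ∧ Z.β.coeff k₂ = κ * Z.α.coeff k₁ ∧
        Z.δ.coeff k₂ = κ * Z.γ.coeff k₁ := by
      by_cases h0 : Z.α.coeff k₁ = 0
      · have hγ0 : Z.γ.coeff k₁ ≠ 0 := fun h => hp ⟨h0, h⟩
        have hβ0 : Z.β.coeff k₂ = 0 := by
          rw [h0, zero_mul, zero_sub, neg_eq_zero] at hc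
          exact (mul_eq_zero.1 hc).resolve_right hγ0
        have hδ0 : Z.δ.coeff k₂ ≠ 0 := fun h => hr ⟨hβ0, h⟩
        refine ⟨Z.δ.coeff k₂ / Z.γ.coeff k₁, div_ne_zero hδ0 hγ0, ?_, ?_⟩
        · rw [h0, hβ0, mul_zero]
        · field_simp
      · have hβ0 : Z.β.coeff k₂ ≠ 0 := by
          intro h
          rw [h, zero_mul, sub_zero] at hc
          exact hr ⟨h, (mul_eq_zero.1 hc).resolve_left h0⟩
        refine ⟨Z.β.coeff k₂ / Z.α.coeff k₁, div_ne_zero hβ0 h0, ?_, ?_⟩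
        · field_simp
        · field_simp
          linear_combination hc
    rcases Nat.le_total k₁ k₂ with hle | hle
    · -- reduce the second column
      set V : M2 F[X] := ⟨1, -(C κ * X ^ (k₂ - k₁)), 0, 1⟩ with hV
      have hVd : V.det = 1 := by simp [M2.det, hV]
      have hd2 : (Z.mul V).det = Z.det := by rw [M2.det_mul, hVd, mul_one]
      have hcoef : ∀ z : F[X], (C κ * X ^ (k₂ - k₁) * z).coeff k₂ = κ * z.coeff k₁ := by
        intro z
        rw [mul_assoc, coeff_C_mul, coeff_X_pow_mul', if_pos (Nat.sub_le _ _), Nat.sub_sub_self hle]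
      have hdeg : ∀ z : F[X], z.natDegree ≤ k₁ → (C κ * X ^ (k₂ - k₁) * z).natDegree ≤ k₂ := by
        intro z hz
        refine natDegree_mul_le.trans ?_
        have := natDegree_C_mul_X_pow_le κ (k₂ - k₁)
        omega
      have f1 : (Z.mul V).α = Z.α := by simp [M2.mul, hV]
      have f2 : (Z.mul V).γ = Z.γ := by simp [M2.mul, hV]
      have f3 : (Z.mul V).β = Z.β - C κ * X ^ (k₂ - k₁) * Z.α := by simp only [M2.mul, hV]; ring
      have f4 : (Z.mul V).δ = Z.δ - C κ * X ^ (k₂ - k₁) * Z.γ := by simp only [M2.mul, hV]; ring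
      have g3 : (Z.mul V).β.natDegree ≤ k₂ := by
        rw [f3]; exact (natDegree_sub_le _ _).trans (max_le hβ (hdeg _ hα))
      have g4 : (Z.mul V).δ.natDegree ≤ k₂ := by
        rw [f4]; exact (natDegree_sub_le _ _).trans (max_le hδ (hdeg _ hγ))
      have g3' : (Z.mul V).β.coeff k₂ = 0 := by rw [f3, coeff_sub, hcoef, e1, sub_self]
      have g4' : (Z.mul V).δ.coeff k₂ = 0 := by rw [f4, coeff_sub, hcoef, e2, sub_self]
      have hk : k₂ ≠ 0 := by
        intro h0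
        apply hdet
        rw [h0] at g3 g4 g3' g4'
        rw [← hd2]
        have e1 : (Z.mul V).β = 0 := by rw [eq_C_of_natDegree_le_zero g3, g3', C_0]
        have e2 : (Z.mul V).δ = 0 := by rw [eq_C_of_natDegree_le_zero g4, g4', C_0]
        unfold M2.det
        rw [e1, e2]; ring
      obtain ⟨U, l₁, l₂, hU, h1, h2, h3, h4, h5⟩ := ih (Z.mul V) k₁ (k₂ - 1) (by omega) (by rw [hd2]; exact hdet)
        (by rw [f1]; exact hα) (by rw [f2]; exact hγ) (natDegree_le_pred' hk g3 g3') (natDegree_le_pred' hk g4 g4')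
      rw [M2.mul_assoc] at h1 h2 h3 h4
      rw [hd2] at h5
      exact ⟨V.mul U, l₁, l₂, by rw [M2.det_mul, hVd, hU, mul_one], h1, h2, h3, h4, h5⟩
    · -- reduce the first column
      set V : M2 F[X] := ⟨1, 0, -(C κ⁻¹ * X ^ (k₁ - k₂)), 1⟩ with hV
      have hVd : V.det = 1 := by simp [M2.det, hV]
      have hd2 : (Z.mul V).det = Z.det := by rw [M2.det_mul, hVd, mul_one]
      have hcoef : ∀ z : F[X], (C κ⁻¹ * X ^ (k₁ - k₂) * z).coeff k₁ = κ⁻¹ * z.coeff k₂ := by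
        intro z
        rw [mul_assoc, coeff_C_mul, coeff_X_pow_mul', if_pos (Nat.sub_le _ _), Nat.sub_sub_self hle]
      have hdeg : ∀ z : F[X], z.natDegree ≤ k₂ → (C κ⁻¹ * X ^ (k₁ - k₂) * z).natDegree ≤ k₁ := by
        intro z hz
        refine natDegree_mul_le.trans ?_
        have := natDegree_C_mul_X_pow_le κ⁻¹ (k₁ - k₂)
        omega
      have f1 : (Z.mul V).β = Z.β := by simp [M2.mul, hV]
      have f2 : (Z.mul V).δ = Z.δ := by simp [M2.mul, hV]
      have f3 : (Z.mul V).α = Z.α - C κ⁻¹ * X ^ (k₁ - k₂) * Z.β := by simp only [M2.mul, hV]; ring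
      have f4 : (Z.mul V).γ = Z.γ - C κ⁻¹ * X ^ (k₁ - k₂) * Z.δ := by simp only [M2.mul, hV]; ring
      have g3 : (Z.mul V).α.natDegree ≤ k₁ := by
        rw [f3]; exact (natDegree_sub_le _ _).trans (max_le hα (hdeg _ hβ))
      have g4 : (Z.mul V).γ.natDegree ≤ k₁ := by
        rw [f4]; exact (natDegree_sub_le _ _).trans (max_le hγ (hdeg _ hδ))
      have g3' : (Z.mul V).α.coeff k₁ = 0 := by
        rw [f3, coeff_sub, hcoef, e1, ← mul_assoc, inv_mul_cancel₀ hκ, one_mul, sub_self]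
      have g4' : (Z.mul V).γ.coeff k₁ = 0 := by
        rw [f4, coeff_sub, hcoef, e2, ← mul_assoc, inv_mul_cancel₀ hκ, one_mul, sub_self]
      have hk : k₁ ≠ 0 := by
        intro h0
        apply hdet
        rw [h0] at g3 g4 g3' g4'
        rw [← hd2]
        have e1 : (Z.mul V).α = 0 := by rw [eq_C_of_natDegree_le_zero g3, g3', C_0]
        have e2 : (Z.mul V).γ = 0 := by rw [eq_C_of_natDegree_le_zero g4, g4', C_0]
        unfold M2.det
        rw [e1, e2]; ring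
      obtain ⟨U, l₁, l₂, hU, h1, h2, h3, h4, h5⟩ := ih (Z.mul V) (k₁ - 1) k₂ (by omega) (by rw [hd2]; exact hdet)
        (natDegree_le_pred' hk g3 g3') (natDegree_le_pred' hk g4 g4') (by rw [f1]; exact hβ) (by rw [f2]; exact hδ)
      rw [M2.mul_assoc] at h1 h2 h3 h4
      rw [hd2] at h5
      exact ⟨V.mul U, l₁, l₂, by rw [M2.det_mul, hVd, hU, mul_one], h1, h2, h3, h4, h5⟩

/-- **column reduction** -/
theorem col_red (Z : M2 F[X]) (hdet : Z.det ≠ 0) :
    ∃ (U : M2 F[X]) (l₁ l₂ : ℕ), l₁ ≤ l₂ ∧ U.det = 1 ∧ (Z.mul U).α.natDegree ≤ l₁ ∧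
      (Z.mul U).γ.natDegree ≤ l₁ ∧ (Z.mul U).β.natDegree ≤ l₂ ∧ (Z.mul U).δ.natDegree ≤ l₂ ∧
      Z.det.natDegree = l₁ + l₂ := by
  obtain ⟨U, l₁, l₂, h1, h2, h3, h4, h5, h6⟩ := col_red_aux _ Z (max Z.α.natDegree Z.γ.natDegree)
    (max Z.β.natDegree Z.δ.natDegree) le_rfl hdet (le_max_left _ _) (le_max_right _ _) (le_max_left _ _)
    (le_max_right _ _)
  rcases Nat.le_total l₁ l₂ with hle | hle
  · exact ⟨U, l₁, l₂, hle, h1, h2, h3, h4, h5, h6⟩
  · refine ⟨U.mul ⟨0, -1, 1, 0⟩, l₂, l₁, hle, ?_, ?_, ?_, ?_, ?_, ?_⟩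
    · rw [M2.det_mul, h1]; simp [M2.det]
    · rw [← M2.mul_assoc]
      have : ((Z.mul U).mul ⟨0, -1, 1, 0⟩).α = (Z.mul U).β := by
        generalize Z.mul U = Y
        simp [M2.mul]
      rw [this]; exact h4
    · rw [← M2.mul_assoc]
      have : ((Z.mul U).mul ⟨0, -1, 1, 0⟩).γ = (Z.mul U).δ := by
        generalize Z.mul U = Y
        simp [M2.mul]
      rw [this]; exact h5
    · rw [← M2.mul_assoc]
      have : ((Z.mul U).mul ⟨0, -1, 1, 0⟩).β = -(Z.mul U).α := by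
        generalize Z.mul U = Y
        simp [M2.mul]
      rw [this, natDegree_neg]; exact h2
    · rw [← M2.mul_assoc]
      have : ((Z.mul U).mul ⟨0, -1, 1, 0⟩).δ = -(Z.mul U).γ := by
        generalize Z.mul U = Y
        simp [M2.mul]
      rw [this, natDegree_neg]; exact h3
    · omega

end Pool.Agent.H456.BQ
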