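import Pool.Agent.H456.BQ.Lat

/-!
# Quartics representing classes of points modulo doubles
-/

set_option autoImplicit false

open Polynomial

namespace Pool.Agent.H456.BQ

section ring

variable {R : Type*} [CommRing R]

theorem Q4.tau_mul (g : Q4 R) (M N : M2 R) : g.tau (M.mul N) = N.det ^ 2 * g.tau M + (g.sub M).tau N := by
  simp only [Q4.tau, Q4.sub, M2.mul, M2.det]; ring

theorem Q4.tau_smul (g : Q4 R) (k : R) (M : M2 R) : (g.smul k).tau M = k * g.tau M := by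
  simp only [Q4.tau, Q4.smul]; ring

theorem Q4.tau_scalar (g : Q4 R) (k : R) : g.tau ⟨k, 0, 0, k⟩ = 0 := by
  simp only [Q4.tau]; ring

theorem Q4.map_tau {S : Type*} [CommRing S] (φ : R →+* S) (g : Q4 R) (M : M2 R) :
    (g.map φ).tau (M.map φ) = φ (g.tau M) := by
  simp [Q4.map, Q4.tau, M2.map, map_ofNat]

theorem Cub.tr_ev (f : Cub R) (r : R) : (f.tr r).c = f.ev r := by
  simp only [Cub.tr, Cub.ev]; ring

theorem Cub.sc_inj [IsDomain R] {k : R} (hk : k ≠ 0) {f g : Cub R} (h : f.sc k = g.sc k) : f = g := by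
  have ha := congrArg Cub.a h
  have hb := congrArg Cub.b h
  have hc := congrArg Cub.c h
  ext
  · exact mul_left_cancel₀ hk ha
  · exact mul_left_cancel₀ (pow_ne_zero _ hk) hb
  · exact mul_left_cancel₀ (pow_ne_zero _ hk) hc

end ring

section field

variable {K : Type*} [Field K]

/-- the quartic of `(x, y)` and the substitution `M` give the quartic `G` with the translation `ρ` -/
structure Rep (f : Cub K) (x y : K) (M : M2 K) (G : Q4 K) (ρ : K) : Prop where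
  det : M.det ≠ 0
  sub : (gp f x y).sub M = G.smul (M.det ^ 2)
  tau : (gp f x y).tau M = (ρ + 2 * x + 2 * f.a) * M.det ^ 2

theorem Rep.res {f : Cub K} {x y : K} {M : M2 K} {G : Q4 K} {ρ : K} (h : Rep f x y M G ρ)
    (hxy : y ^ 2 = f.ev x) : G.res = (f.sc 4).tr ρ := by
  have h1 := Q4.res_sub (gp f x y) M
  rw [h.sub, Q4.res_smul, res_gp f x y hxy, h.tau, Cub.sc_tr, Cub.tr_tr] at h1
  have hd := pow_ne_zero 2 h.det
  apply Cub.sc_inj hd
  rw [h1, Cub.sc_tr]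
  congr 1
  ring

theorem Rep.mul {f : Cub K} {x y : K} {M : M2 K} {G : Q4 K} {ρ : K} (h : Rep f x y M G ρ) {N : M2 K} {d : K}
    (hd : d * N.det = 1) : Rep f x y (M.mul N) ((G.sub N).smul (d ^ 2)) (ρ + d ^ 2 * G.tau N) := by
  have hN : N.det ≠ 0 := by
    intro h0; rw [h0, mul_zero] at hd; exact zero_ne_one hd
  have hd2 : d ^ 2 * N.det ^ 2 = 1 := by rw [← mul_pow, hd, one_pow]
  refine ⟨?_, ?_, ?_⟩
  · rw [M2.det_mul]; exact mul_ne_zero h.det hN
  · rw [← Q4.sub_mul, h.sub, Q4.smul_sub, Q4.smul_smul, M2.det_mul]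
    congr 1
    linear_combination (-M.det ^ 2) * hd2
  · rw [Q4.tau_mul, h.sub, h.tau, Q4.tau_smul, M2.det_mul]
    linear_combination (-G.tau N * M.det ^ 2) * hd2

theorem exists_rep {f : Cub K} {x y : K} {M : M2 K} {G : Q4 K} (hM : M.det ≠ 0)
    (h : (gp f x y).sub M = G.smul (M.det ^ 2)) : ∃ ρ, Rep f x y M G ρ := by
  refine ⟨(gp f x y).tau M / M.det ^ 2 - 2 * x - 2 * f.a, hM, h, ?_⟩
  field_simp
  ring

/-- two representations of the same quartic -/
theorem Rep.rel {f : Cub K} {x₀ y₀ x₁ y₁ : K} {M₀ M₁ : M2 K} {G : Q4 K} {ρ : K} (h₀ : Rep f x₀ y₀ M₀ G ρ)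
    (h₁ : Rep f x₁ y₁ M₁ G ρ) : (M₀.mul M₁.adj).det ≠ 0 ∧
      (gp f x₀ y₀).sub (M₀.mul M₁.adj) = (gp f x₁ y₁).smul ((M₀.mul M₁.adj).det ^ 2) ∧
      (gp f x₀ y₀).tau (M₀.mul M₁.adj) = 2 * (M₀.mul M₁.adj).det ^ 2 * (x₀ - x₁) := by
  have hd : (M₀.mul M₁.adj).det = M₀.det * M₁.det := by rw [M2.det_mul, M2.det_adj]
  have e1 : G.sub M₁.adj = (gp f x₁ y₁).smul (M₁.det ^ 2) := by
    have h2 : (gp f x₁ y₁).sub (M₁.mul M₁.adj) = (G.sub M₁.adj).smul (M₁.det ^ 2) := by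
      rw [← Q4.sub_mul, h₁.sub, Q4.smul_sub]
    rw [M2.mul_adj, Q4.sub_scalar] at h2
    apply Q4.smul_cancel (pow_ne_zero 2 h₁.det)
    rw [← h2, Q4.smul_smul]
    congr 1
    ring
  have e2 : G.tau M₁.adj = -(gp f x₁ y₁).tau M₁ := by
    have h2 := Q4.tau_mul (gp f x₁ y₁) M₁ M₁.adj
    rw [M2.mul_adj, Q4.tau_scalar, h₁.sub, Q4.tau_smul, M2.det_adj] at h2
    apply mul_left_cancel₀ (pow_ne_zero 2 h₁.det)
    linear_combination -h2
  refine ⟨?_, ?_, ?_⟩
  · rw [hd]; exact mul_ne_zero h₀.det h₁.det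
  · rw [← Q4.sub_mul, h₀.sub, Q4.smul_sub, e1, Q4.smul_smul, hd]
    congr 1
    ring
  · rw [Q4.tau_mul, h₀.sub, Q4.tau_smul, e2, M2.det_adj, h₀.tau, h₁.tau, hd]
    ring

variable [DecidableEq K]

/-- the points divisible by two -/
def dbl (f : Cub K) : AddSubgroup (crv f).toAffine.Point := (nsmulAddMonoidHom 2).range

theorem mem_dbl {f : Cub K} {P : (crv f).toAffine.Point} : P ∈ dbl f ↔ ∃ X, (2 : ℕ) • X = P := Iff.rfl

variable {f : Cub K} (hf : f.disc ≠ 0) (h2 : (2 : K) ≠ 0)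

omit [DecidableEq K] in
theorem pt_inj {x y x' y' : K} {h : y ^ 2 = f.ev x} {h' : y' ^ 2 = f.ev x'} (e : pt hf h2 h = pt hf h2 h') :
    x = x' ∧ y = y' := by
  unfold pt at e
  injection e with e1 e2
  exact ⟨e1, e2⟩

include hf h2 in
/-- there are no points of order two if the cubic polynomial has no roots -/
theorem tors_of (h : ∀ r : K, f.ev r ≠ 0) (T : (crv f).toAffine.Point) (hT : (2 : ℕ) • T = 0) : T = 0 := by
  by_contra h0
  obtain ⟨x, y, hxy, rfl⟩ := exists_pt hf h2 h0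
  have hn : (-y) ^ 2 = f.ev x := by rw [neg_sq]; exact hxy
  have h1 : pt hf h2 hxy = pt hf h2 hn := by
    rw [← neg_pt hf h2 hxy hn]
    rw [two_nsmul] at hT
    exact eq_neg_of_add_eq_zero_left hT
  have h3 : 2 * y = 0 := by linear_combination (pt_inj hf h2 h1).2
  have h4 := (mul_eq_zero.1 h3).resolve_left h2
  apply h x
  rw [← hxy, h4]
  ring

/-- the class modulo doubles is determined by the quartic and the translation -/
theorem Rep.class_eq {x₀ y₀ x₁ y₁ : K} {M₀ M₁ : M2 K} {G : Q4 K} {ρ : K} (h₀ : y₀ ^ 2 = f.ev x₀)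
    (h₁ : y₁ ^ 2 = f.ev x₁) (r₀ : Rep f x₀ y₀ M₀ G ρ) (r₁ : Rep f x₁ y₁ M₁ G ρ) :
    (QuotientAddGroup.mk (pt hf h2 h₀) : (crv f).toAffine.Point ⧸ dbl f) = QuotientAddGroup.mk (pt hf h2 h₁) := by
  obtain ⟨e1, e2, e3⟩ := r₀.rel r₁
  obtain ⟨X, hX⟩ := rel_congr hf h2 h₀ h₁ e1 e2 e3
  rw [QuotientAddGroup.eq, mem_dbl]
  rcases hX with hX | hX
  · refine ⟨-X, ?_⟩
    rw [hX, two_nsmul, two_nsmul]
    abel
  · refine ⟨X - pt hf h2 h₀, ?_⟩
    rw [hX, two_nsmul, two_nsmul]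
    abel

include hf h2 in
/-- injectivity of the action of the substitutions -/
theorem Rep.scalar (ht : ∀ T : (crv f).toAffine.Point, (2 : ℕ) • T = 0 → T = 0)
    {x y : K} {M M' : M2 K} {G : Q4 K} {ρ : K} (h : y ^ 2 = f.ev x)
    (r₀ : Rep f x y M G ρ) (r₁ : Rep f x y M' G ρ) : ∃ k : K, k ≠ 0 ∧ M = M'.scal k := by
  obtain ⟨e1, e2, e3⟩ := r₀.rel r₁
  obtain ⟨b1, b2, b3⟩ := rel_stab hf h2 ht h e1 e2 e3
  set N := M.mul M'.adj with hN
  have hN' : N = ⟨N.α, 0, 0, N.α⟩ := by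
    ext
    · rfl
    · exact b1
    · exact b2
    · exact b3.symm
  have hk : N.α ≠ 0 := by
    intro h0
    rw [hN', h0] at e1
    simp only [M2.det] at e1
    simp at e1
  refine ⟨N.α / M'.det, div_ne_zero hk r₁.det, ?_⟩
  have e4 : N.mul M' = M.scal M'.det := by
    rw [hN, M2.mul_assoc, M2.adj_mul]
    ext <;> simp only [M2.mul, M2.scal] <;> ring
  have hd := r₁.det
  rw [hN'] at e4
  have k1 := congrArg M2.α e4
  have k2 := congrArg M2.β e4
  have k3 := congrArg M2.γ e4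
  have k4 := congrArg M2.δ e4
  simp only [M2.mul, M2.scal, zero_mul, add_zero, zero_add] at k1 k2 k3 k4
  ext <;> simp only [M2.scal]
  · field_simp; linear_combination -k1
  · field_simp; linear_combination -k2
  · field_simp; linear_combination -k3
  · field_simp; linear_combination -k4

end field

end Pool.Agent.H456.BQ
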