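import Pool.Agent.H456.BQ.Stm6
import Pool.Agent.H456.BQ.Bad2

/-!
(M3) `S_avr` from `S_rt` (Stm4.lean). If `G` has a root `(u : v)` over `F(t)`, clear denominators and common factors: `u, v ∈ F[X]` coprime with `G(u, v) = 0`; for every place `P` the reduction
modulo `P` is a root `≠ (0, 0)` of the reduction of `G` over the field `Rq (P^1)` (`isField_Rq`), i.e. the reduction is not `NR` (`Q4.NR` in Stm4.lean is for fields: use `(isField_Rq P).toField` as
in `card_BadR'` of Bad.lean). `S_rt` says that the proportion of such quartics is at most `26/27`. Adapt `AV_root` and `AV_bad` (Bad.lean, Bad2.lean) word for word: the average is at most `(26/27)^#S` for a finite set `S`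
of places and `n` large (`sum_redV`, `sum_split`), and there are infinitely many places (`infinite_Pl`). It may be convenient to replace `NR` over the ring `Rq (P^1)` by the statement `∃ u v, (u, v) ≠ (0,0) ∧ ev = 0`.
-/

set_option autoImplicit false
set_option linter.all false

open Polynomial Finset Filter
open Pool.Agent.H456.EC (toK toK_inj sig toK_eq reflect_toK)
open Pool.Agent.H456.RN

namespace Pool.Agent.H456.BQ

/-- a root on the projective line, over a ring -/
def avr_R {κ : Type} [CommRing κ] (g : Q4 κ) : Prop := ∃ u v : κ, ¬ (u = 0 ∧ v = 0) ∧ g.ev u v = 0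

theorem avr_not_NR {κ : Type} [Field κ] (g : Q4 κ) : ¬ g.NR ↔ avr_R g := by
  unfold Q4.NR avr_R
  push Not
  exact Iff.rfl

open Classical in
theorem avr_card (hrt : S_rt) (κ : Type) [CommRing κ] [Fintype κ] (hκ : IsField κ) (h2 : (2 : κ) ≠ 0) :
    (((univ : Finset (Q4 κ)).filter (fun g => avr_R g)).card : ℝ) ≤ 26 / 27 * (Fintype.card κ : ℝ) ^ 5 := by
  letI := hκ.toField
  have h := hrt κ h2
  have e : {g : Q4 κ | ¬ g.NR} = (((univ : Finset (Q4 κ)).filter (fun g => avr_R g) : Finset (Q4 κ)) : Set (Q4 κ)) := by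
    ext g
    simp only [Set.mem_setOf_eq, coe_filter, mem_univ, true_and]
    exact avr_not_NR g
  rw [e, Set.ncard_coe_finset] at h
  exact h

variable {F : Type} [Field F]

theorem avr_ev_smul {K : Type*} [CommRing K] (g : Q4 K) (k u v : K) : g.ev (k * u) (k * v) = k ^ 4 * g.ev u v := by
  simp only [Q4.ev]; ring

/-- a root over the function field gives a primitive root -/
theorem avr_int {G : Q4 F[X]} (h : ¬ (G.map (toK F)).NR) : ∃ u v : F[X], IsCoprime u v ∧ G.ev u v = 0 := by
  rw [avr_not_NR] at h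
  obtain ⟨u, v, huv, hr⟩ := h
  by_cases hv : v = 0
  · have hu : u ≠ 0 := fun hu => huv ⟨hu, hv⟩
    refine ⟨1, 0, isCoprime_one_left, ?_⟩
    have h1 : (G.map (toK F)).A * u ^ 4 = 0 := by
      rw [hv] at hr
      simp only [Q4.ev] at hr
      linear_combination hr
    have h2 : toK F G.A = 0 := (mul_eq_zero.1 h1).resolve_right (pow_ne_zero 4 hu)
    have h3 : G.A = 0 := toK_inj (by rw [h2, map_zero])
    simp only [Q4.ev, h3]
    ring
  · set x : RatFunc F := u / v with hx
    refine ⟨x.num, x.denom, RatFunc.isCoprime_num_denom x, ?_⟩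
    have hd : toK F x.denom ≠ 0 := by
      intro h0
      exact RatFunc.denom_ne_zero x (toK_inj (by rw [h0, map_zero]))
    have hn : toK F x.num = toK F x.denom * x := by
      have h1 : (toK F x.num) / (toK F x.denom) = x := RatFunc.num_div_denom x
      rw [div_eq_iff hd] at h1
      rw [h1]; ring
    have hux : u = v * x := by
      rw [hx]
      field_simp
    have h1 : (G.map (toK F)).ev x 1 = 0 := by
      have h2 : (G.map (toK F)).ev (v * x) (v * 1) = 0 := by
        rw [mul_one, ← hux]; exact hr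
      rw [avr_ev_smul] at h2
      exact (mul_eq_zero.1 h2).resolve_left (pow_ne_zero 4 hv)
    apply toK_inj
    rw [map_zero, ← Q4.map_ev, hn]
    have h3 := avr_ev_smul (G.map (toK F)) (toK F x.denom) x 1
    rw [mul_one, h1, mul_zero] at h3
    exact h3

variable [Fintype F]

/-- a root gives roots at all places -/
theorem avr_at {S : Finset (Pl F)} {n e : ℕ} {G : Q4 F[X]} (h : ¬ (G.map (toK F)).NR) (P : S) :
    avr_R ((redV S 1 n e G).at P) := by
  obtain ⟨u, v, hc, hr⟩ := avr_int h
  refine ⟨Ideal.Quotient.mk _ u, Ideal.Quotient.mk _ v, ?_, ?_⟩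
  · rintro ⟨h1, h2⟩
    rw [mk_zero, pow_one] at h1 h2
    exact P.1.2.2.not_isUnit (hc.isUnit_of_dvd' h1 h2)
  · have e1 : (redV S 1 n e G).at P = G.map (Ideal.Quotient.mk (Ideal.span {P.1.1 ^ 1})) := rfl
    rw [e1, Q4.map_ev, hr, map_zero]

open Classical in
theorem avr_root (hrt : S_rt) (h2 : (2 : F) ≠ 0) (S : Finset (Pl F)) {n e : ℕ} (he : e ≤ n)
    (hN : dS S 1 ≤ 2 * n - 2 * e + 1) :
    AV n e (fun G : Q4 F[X] => if (G.map (toK F)).NR then (0 : ℝ) else 1) ≤ (26 / 27 : ℝ) ^ S.card := by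
  have hq2 : 2 ≤ (Fintype.card F : ℝ) := q_ge
  have hq0 : (0 : ℝ) < Fintype.card F := by linarith
  set φ : (P : S) → Q4 (Rq (P.1.1 ^ 1)) → ℝ := fun P g => if avr_R g then 1 else 0 with hφ
  have h1 : AV n e (fun G : Q4 F[X] => if (G.map (toK F)).NR then (0 : ℝ) else 1) ≤
      AV n e (fun G => (∏ P : S, φ P ((redV S 1 n e G).at P)) * 1) := by
    apply AV_mono
    intro G _
    split_ifs with h
    · apply mul_nonneg _ zero_le_one
      apply prod_nonneg
      intro P _
      rw [hφ]
      simp only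
      split_ifs <;> norm_num
    · rw [mul_one]
      apply le_of_eq
      symm
      apply prod_eq_one
      intro P _
      rw [hφ]
      simp only
      rw [if_pos (avr_at h P)]
  refine h1.trans ?_
  unfold AV
  have h3 := sum_redV S 1 n e he hN (fun g => (∏ P : S, φ P (g.at P)) * 1)
  rw [h3, sum_split S 1 φ (fun _ => 1)]
  rw [div_le_iff₀ (by positivity)]
  have h4 : ∀ P : S, ∑ g, φ P g ≤ 26 / 27 * ((Fintype.card F : ℝ) ^ (1 * P.1.1.natDegree)) ^ 5 := by
    intro P
    have h5 := avr_card hrt (Rq (P.1.1 ^ 1)) (isField_Rq P.1) (two_ne_Rq h2 P.1 1 one_ne_zero)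
    have h6 : (Fintype.card (Rq (P.1.1 ^ 1)) : ℝ) = (Fintype.card F : ℝ) ^ (1 * P.1.1.natDegree) := by
      rw [← Nat.card_eq_fintype_card, card_Rq (P.1.2.1.pow 1), natDegree_pow]
      push_cast
      rfl
    rw [h6] at h5
    refine le_trans (le_of_eq ?_) h5
    rw [hφ]
    simp only
    rw [← sum_filter, sum_const, nsmul_eq_mul, mul_one]
  have h5 : ∑ g : Q4 (Rq ((X : F[X]) ^ 1)), (1 : ℝ) = ((Fintype.card F : ℝ) ^ 1) ^ 5 := by
    rw [sum_const, card_univ, card_Q4, ← Nat.card_eq_fintype_card, card_Rq (monic_X.pow 1), natDegree_pow, natDegree_X,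
      nsmul_eq_mul, mul_one]
    push_cast
    rfl
  rw [h5]
  have h6 : ∏ P : S, ∑ g, φ P g ≤ ∏ P : S, (26 / 27 * ((Fintype.card F : ℝ) ^ (1 * P.1.1.natDegree)) ^ 5) := by
    apply Finset.prod_le_prod
    · intro P _
      apply sum_nonneg
      intro g _
      rw [hφ]
      simp only
      split_ifs <;> norm_num
    · intro P _
      exact h4 P
  refine (mul_le_mul_of_nonneg_right h6 (by positivity)).trans (le_of_eq ?_)
  rw [prod_mul_distrib, prod_const, card_univ, Fintype.card_coe, prod_pow, prod_pow_eq_pow_sum]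
  have h7 : ∑ P : S, 1 * P.1.1.natDegree = ∑ P ∈ S, 1 * P.1.natDegree := sum_coe_sort S (fun P => 1 * P.1.natDegree)
  rw [h7, mul_assoc, ← pow_mul, ← pow_mul, ← pow_add]
  congr 2
  unfold dS
  ring

theorem t_avr : S_rt → S_avr := by
  intro hrt F _ _ h2 e
  rw [Metric.tendsto_atTop]
  intro ε hε
  obtain ⟨k, hk⟩ := exists_pow_lt_of_lt_one hε (by norm_num : (26 / 27 : ℝ) < 1)
  have := infinite_Pl (F := F)
  obtain ⟨S, hS⟩ := Infinite.exists_subset_card_eq (Pl F) k
  refine ⟨e + dS S 1, fun n hn => ?_⟩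
  have h8 := avr_root hrt h2 S (n := n) (e := e) (by omega) (by omega)
  rw [hS] at h8
  rw [Real.dist_eq, sub_zero, abs_of_nonneg (AV_nonneg (fun G => by split_ifs <;> norm_num))]
  exact lt_of_le_of_lt h8 hk

end Pool.Agent.H456.BQ
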