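import Pool.Agent.H456.BQ.Stm6

/-!
(M2) `S_badc`. The exceptional cubics: `BadC f = (c4 f = 0 ∨ c6 f = 0) ∨ f has a root in F(t)` (Bad.lean). (1) `c4 = 0` or `c6 = 0`: adapt `card_spec`, `AV_spec` of Bad2.lean: for fixed
`b, c` (respectively `a, c`...) there are at most finitely many `a` with `a² - 3b = 0` resp. `-2a³ + 9ab - 27c = 0` (monic, resp. leading coefficient `-2 ≠ 0`): at most `5` values of `a` out of
`q^(2n+1)`. (2) Roots: a root in `F(t)` is a polynomial (`root_int`), so for every place `P` the reduction of `f` modulo `P` has a root in `κ = F[X]/(P)`. The proportion of the cubics `x³ + ax² + bx + c` over a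
finite field `κ` with `Q ≥ 3` elements with a root is at most `26/27` (indeed about `2/3`: `card_rooted` in Root.lean counts, for `c ≠ 0`, at most `2/3 (Q² - 1)` pairs `(a, b)`; so at most
`Q² + (Q - 1) 2/3 (Q² - 1)` cubics, `≤ 26/27 Q³` for `Q ≥ 3`). By equidistribution (`sum_redC`, `sum_splitC` in Eq.lean; adapt `AV_root`, `AV_bad` of Bad.lean, Bad2.lean) the proportion of the `f ∈ Sb F n` with a
root is at most `(26/27)^#S` for a finite set `S` of places and `n` large; there are infinitely many places (`infinite_Pl`). (`2 ≠ 0` in `F` gives `q ≥ 3`.)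
-/

set_option autoImplicit false
set_option linter.all false

open Polynomial Finset Filter
open Pool.Agent.H456.EC (toK toK_inj sig toK_eq reflect_toK)
open Pool.Agent.H456.RN

namespace Pool.Agent.H456.BQ

section badc

theorem badc_pair {κ : Type} [Field κ] [Fintype κ] [DecidableEq κ] (c : κ) :
    ((univ : Finset (κ × κ)).filter (fun x => (Rt (⟨x.1, x.2, c⟩ : Cub κ)).Nonempty)).card ≤
      (if c = 0 then (Fintype.card κ : ℝ) ^ 2 else 2 / 3 * ((Fintype.card κ : ℝ) ^ 2 - 1)) := by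
  split_ifs with hc
  · have h1 := card_le_univ ((univ : Finset (κ × κ)).filter
      (fun x => (Rt (⟨x.1, x.2, c⟩ : Cub κ)).Nonempty))
    rw [Fintype.card_prod] at h1
    have h3 : ((((univ : Finset (κ × κ)).filter
      (fun x => (Rt (⟨x.1, x.2, c⟩ : Cub κ)).Nonempty)).card : ℕ) : ℝ) ≤
        ((Fintype.card κ * Fintype.card κ : ℕ) : ℝ) := by exact_mod_cast h1
    refine h3.trans (le_of_eq ?_)
    push_cast
    ring
  · have h1 := card_rooted hc
    have h3 : 1 ≤ Fintype.card κ ^ 2 := Nat.one_le_pow _ _ Fintype.card_pos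
    have h4 : ((3 * ((univ : Finset (κ × κ)).filter
      (fun x => (Rt (⟨x.1, x.2, c⟩ : Cub κ)).Nonempty)).card : ℕ) : ℝ) ≤
        ((2 * (Fintype.card κ ^ 2 - 1) : ℕ) : ℝ) := by exact_mod_cast h1
    push_cast [Nat.cast_sub h3] at h4
    linarith

/-- a positive proportion of the cubics has no roots -/
theorem badc_field {κ : Type} [Field κ] [Fintype κ] [DecidableEq κ] (h2 : (2 : κ) ≠ 0) :
    (((univ : Finset (Cub κ)).filter (fun f => (Rt f).Nonempty)).card : ℝ) ≤
      26 / 27 * (Fintype.card κ : ℝ) ^ 3 := by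
  obtain ⟨q, hq⟩ : ∃ q, q = Fintype.card κ := ⟨_, rfl⟩
  have hq2 : 2 ≤ q := by rw [hq]; exact Fintype.one_lt_card
  have hq3 : 3 ≤ q := by
    by_contra h
    have h1 : q = 2 := by omega
    have hc := FiniteField.cast_card_eq_zero κ
    rw [← hq, h1] at hc
    exact h2 (by exact_mod_cast hc)
  have hqr : (3 : ℝ) ≤ q := by exact_mod_cast hq3
  have h1 : (((univ : Finset (Cub κ)).filter (fun f => (Rt f).Nonempty)).card : ℝ) =
      ∑ c : κ, (((univ : Finset (κ × κ)).filter
        (fun x => (Rt (⟨x.1, x.2, c⟩ : Cub κ)).Nonempty)).card : ℝ) := by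
    rw [card_filter]
    push_cast
    rw [sum_Cub]
    have h3 : ∀ a : κ, ∑ b : κ, ∑ c : κ, (if (Rt (⟨a, b, c⟩ : Cub κ)).Nonempty then (1 : ℝ) else 0) =
        ∑ c : κ, ∑ b : κ, (if (Rt (⟨a, b, c⟩ : Cub κ)).Nonempty then (1 : ℝ) else 0) :=
      fun a => sum_comm
    rw [sum_congr rfl fun a _ => h3 a, sum_comm]
    refine sum_congr rfl fun c _ => ?_
    rw [card_filter, Fintype.sum_prod_type]
    push_cast
    rfl
  rw [h1]
  refine (sum_le_sum fun c _ => badc_pair c).trans ?_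
  rw [← hq]
  have h3 : ∑ c : κ, (if c = 0 then (q : ℝ) ^ 2 else 2 / 3 * ((q : ℝ) ^ 2 - 1)) =
      (q : ℝ) ^ 2 + ((q : ℝ) - 1) * (2 / 3 * ((q : ℝ) ^ 2 - 1)) := by
    rw [← add_sum_erase _ _ (mem_univ (0 : κ)), if_pos rfl]
    congr 1
    rw [sum_congr rfl (g := fun _ => 2 / 3 * ((q : ℝ) ^ 2 - 1)), sum_const,
      card_erase_of_mem (mem_univ _), card_univ, ← hq, nsmul_eq_mul, Nat.cast_sub (by omega),
      Nat.cast_one]
    intro c hc
    rw [if_neg (mem_erase.1 hc).1]
  rw [h3]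
  have h4 : 0 ≤ ((q : ℝ) - 3) * (q : ℝ) ^ 2 := by
    have : 0 ≤ (q : ℝ) - 3 := by linarith
    positivity
  nlinarith

open Classical in
theorem badc_ring (κ : Type) [CommRing κ] [Fintype κ] (hκ : IsField κ) (h2 : (2 : κ) ≠ 0) :
    (((univ : Finset (Cub κ)).filter (fun f => ∃ r, f.ev r = 0)).card : ℝ) ≤
      26 / 27 * (Fintype.card κ : ℝ) ^ 3 := by
  letI := hκ.toField
  have h := badc_field (κ := κ) h2
  have h3 : (univ : Finset (Cub κ)).filter (fun f => ∃ r, f.ev r = 0) =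
      (univ : Finset (Cub κ)).filter (fun f => (Rt f).Nonempty) := by
    ext f
    rw [mem_filter, mem_filter]
    refine and_congr_right fun _ => ⟨fun ⟨r, hr⟩ => ⟨r, mem_Rt.2 hr⟩, fun ⟨r, hr⟩ => ⟨r, mem_Rt.1 hr⟩⟩
  rw [h3]
  exact h

variable {F : Type} [Field F] [Fintype F]

/-- a root gives roots at all places -/
theorem badc_at {S : Finset (Pl F)} {M n : ℕ} {f : Cub F[X]} {r : RatFunc F}
    (h : (f.map (toK F)).ev r = 0) (P : S) : ∃ r', ((redC S M n f).at P).ev r' = 0 := by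
  obtain ⟨r', hr'⟩ := root_int h
  refine ⟨Ideal.Quotient.mk _ r', ?_⟩
  have e1 : (redC S M n f).at P = f.map (Ideal.Quotient.mk (Ideal.span {P.1.1 ^ M})) := rfl
  rw [e1, Cub.map_ev, hr', map_zero]

open Classical in
theorem badc_root (h2 : (2 : F) ≠ 0) (S : Finset (Pl F)) {n : ℕ} (hN : dS S 1 ≤ 2 * n + 1) :
    (∑ f ∈ Sb F n, (if ∃ r : RatFunc F, (f.map (toK F)).ev r = 0 then (1 : ℝ) else 0)) /
      (Fintype.card F : ℝ) ^ (12 * n + 3) ≤ (26 / 27 : ℝ) ^ S.card := by
  have hq2 : 2 ≤ (Fintype.card F : ℝ) := q_ge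
  have hq0 : (0 : ℝ) < Fintype.card F := by linarith
  set φ : (P : S) → Cub (Rq (P.1.1 ^ 1)) → ℝ := fun P g => if ∃ r, g.ev r = 0 then 1 else 0 with hφ
  have h1 : (∑ f ∈ Sb F n, (if ∃ r : RatFunc F, (f.map (toK F)).ev r = 0 then (1 : ℝ) else 0)) /
      (Fintype.card F : ℝ) ^ (12 * n + 3) ≤
      (∑ f ∈ Sb F n, (∏ P : S, φ P ((redC S 1 n f).at P)) * 1) /
        (Fintype.card F : ℝ) ^ (12 * n + 3) := by
    apply div_le_div_of_nonneg_right _ (by positivity)
    apply sum_le_sum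
    intro G _
    split_ifs with h
    · obtain ⟨r, hr⟩ := h
      rw [mul_one]
      apply le_of_eq
      symm
      apply prod_eq_one
      intro P _
      rw [hφ]
      simp only
      rw [if_pos (badc_at hr P)]
    · apply mul_nonneg _ zero_le_one
      apply prod_nonneg
      intro P _
      rw [hφ]
      simp only
      split_ifs <;> norm_num
  refine h1.trans ?_
  have h3 := sum_redC S 1 n hN (fun g => (∏ P : S, φ P (g.at P)) * 1)
  rw [h3, sum_splitC S 1 φ (fun _ => 1)]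
  rw [div_le_iff₀ (by positivity)]
  have h4 : ∀ P : S, ∑ g, φ P g ≤ 26 / 27 * ((Fintype.card F : ℝ) ^ (1 * P.1.1.natDegree)) ^ 3 := by
    intro P
    have h5 := badc_ring (Rq (P.1.1 ^ 1)) (isField_Rq P.1) (two_ne_Rq h2 P.1 1 one_ne_zero)
    have h6 : (Fintype.card (Rq (P.1.1 ^ 1)) : ℝ) = (Fintype.card F : ℝ) ^ (1 * P.1.1.natDegree) := by
      rw [← Nat.card_eq_fintype_card, card_Rq (P.1.2.1.pow 1), natDegree_pow]
      push_cast
      rfl
    rw [h6] at h5
    refine le_trans (le_of_eq ?_) h5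
    rw [hφ]
    simp only
    rw [← sum_filter, sum_const, nsmul_eq_mul, mul_one]
  have h5 : ∑ g : Cub (Rq ((X : F[X]) ^ 1)), (1 : ℝ) = ((Fintype.card F : ℝ) ^ 1) ^ 3 := by
    rw [sum_const, card_univ, card_Cub, ← Nat.card_eq_fintype_card, card_Rq (monic_X.pow 1), natDegree_pow, natDegree_X,
      nsmul_eq_mul, mul_one]
    push_cast
    rfl
  rw [h5]
  have h6 : ∏ P : S, ∑ g, φ P g ≤ ∏ P : S, (26 / 27 * ((Fintype.card F : ℝ) ^ (1 * P.1.1.natDegree)) ^ 3) := by
    apply Finset.prod_le_prod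
    · intro P _
      apply sum_nonneg
      intro g _
      rw [hφ]
      simp only
      split_ifs <;> norm_num
    · intro P _
      exact h4 P
  refine (mul_le_mul_of_nonneg_right h6 (by positivity)).trans (le_of_eq ?_)
  rw [prod_mul_distrib, prod_const, card_univ, Fintype.card_coe, prod_pow, prod_pow_eq_pow_sum]
  have h7 : ∑ P : S, 1 * P.1.1.natDegree = ∑ P ∈ S, 1 * P.1.natDegree := sum_coe_sort S (fun P => 1 * P.1.natDegree)
  rw [h7, mul_assoc, ← pow_mul, ← pow_mul, ← pow_add]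
  congr 2
  unfold dS
  ring

open Classical in
theorem badc_spec_card (h2 : (2 : F) ≠ 0) (T : Finset F[X]) (b c : F[X]) :
    (T.filter (fun a => (⟨a, b, c⟩ : Cub F[X]).c4 = 0 ∨ (⟨a, b, c⟩ : Cub F[X]).c6 = 0)).card ≤ 5 := by
  set p₁ : F[X][X] := X ^ 2 + C (-(3 * b)) with hp₁
  set p₂ : F[X][X] := C (-2) * X ^ 3 + C (9 * b) * X + C (-(27 * c)) with hp₂
  have h1 : p₁ ≠ 0 := by
    have : p₁.Monic := by
      rw [hp₁]
      apply monic_X_pow_add
      compute_degree!
    exact this.ne_zero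
  have d1 : p₁.natDegree ≤ 2 := by
    rw [hp₁]; compute_degree!
  have h3 : p₂ ≠ 0 := by
    intro h0
    have h4 := congrArg (fun p => p.coeff 3) h0
    simp only [hp₂, coeff_add, coeff_C_mul, coeff_X_pow, coeff_X, coeff_C, coeff_zero] at h4
    norm_num at h4
    have h5 : (C (2 : F) : F[X]) = 0 := by rw [C_ofNat]; exact h4
    exact h2 (C_eq_zero.1 h5)
  have d2 : p₂.natDegree ≤ 3 := by
    rw [hp₂]; compute_degree!
  have hsub : T.filter (fun a => (⟨a, b, c⟩ : Cub F[X]).c4 = 0 ∨ (⟨a, b, c⟩ : Cub F[X]).c6 = 0) ⊆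
      p₁.roots.toFinset ∪ p₂.roots.toFinset := by
    intro a ha
    rw [mem_filter] at ha
    rw [mem_union, Multiset.mem_toFinset, Multiset.mem_toFinset, mem_roots h1, mem_roots h3]
    rcases ha.2 with h | h
    · left
      rw [IsRoot.def, hp₁]
      simp only [eval_add, eval_pow, eval_X, eval_C]
      simp only [Cub.c4] at h
      linear_combination h
    · right
      rw [IsRoot.def, hp₂]
      simp only [eval_add, eval_mul, eval_pow, eval_X, eval_C]
      simp only [Cub.c6] at h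
      linear_combination h
  calc _ ≤ (p₁.roots.toFinset ∪ p₂.roots.toFinset).card := card_le_card hsub
    _ ≤ p₁.roots.toFinset.card + p₂.roots.toFinset.card := card_union_le _ _
    _ ≤ Multiset.card p₁.roots + Multiset.card p₂.roots :=
        add_le_add (Multiset.toFinset_card_le _) (Multiset.toFinset_card_le _)
    _ ≤ p₁.natDegree + p₂.natDegree := add_le_add (card_roots' _) (card_roots' _)
    _ ≤ 5 := by omega

open Classical in
theorem badc_spec (h2 : (2 : F) ≠ 0) (n : ℕ) :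
    (∑ f ∈ Sb F n, (if (f.c4 = 0 ∨ f.c6 = 0) then (1 : ℝ) else 0)) /
      (Fintype.card F : ℝ) ^ (12 * n + 3) ≤ 5 / (Fintype.card F : ℝ) ^ (2 * n + 1) := by
  have hq2 : 2 ≤ (Fintype.card F : ℝ) := q_ge
  have hq0 : (0 : ℝ) < Fintype.card F := by linarith
  rw [div_le_div_iff₀ (by positivity) (by positivity), sum_Sb]
  have h1 : ∑ a ∈ PL F (2 * n + 1), ∑ b ∈ PL F (4 * n + 1), ∑ c ∈ PL F (6 * n + 1),
      (if ((⟨a, b, c⟩ : Cub F[X]).c4 = 0 ∨ (⟨a, b, c⟩ : Cub F[X]).c6 = 0) then (1 : ℝ) else 0) ≤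
      ∑ b ∈ PL F (4 * n + 1), ∑ c ∈ PL F (6 * n + 1), (5 : ℝ) := by
    rw [sum_comm]
    apply sum_le_sum
    intro b _
    rw [sum_comm]
    apply sum_le_sum
    intro c _
    rw [← sum_filter, sum_const, nsmul_eq_mul, mul_one]
    exact_mod_cast badc_spec_card h2 _ b c
  refine (mul_le_mul_of_nonneg_right h1 (by positivity)).trans (le_of_eq ?_)
  simp only [sum_const, card_PL, nsmul_eq_mul]
  push_cast
  have h3 : (Fintype.card F : ℝ) ^ (12 * n + 3) = (Fintype.card F : ℝ) ^ (4 * n + 1) *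
      ((Fintype.card F : ℝ) ^ (6 * n + 1) * (Fintype.card F : ℝ) ^ (2 * n + 1)) := by
    rw [← pow_add, ← pow_add]
    congr 1
    omega
  rw [h3]
  ring

end badc

theorem t_badc : S_badc := by
  classical
  intro F _ _ h2 ε hε
  have hq2 : 2 ≤ (Fintype.card F : ℝ) := q_ge
  have hq0 : (0 : ℝ) < Fintype.card F := by linarith
  obtain ⟨k, hk⟩ := exists_pow_lt_of_lt_one (half_pos hε) (by norm_num : (26 / 27 : ℝ) < 1)
  have := infinite_Pl (F := F)
  obtain ⟨S, hS⟩ := Infinite.exists_subset_card_eq (Pl F) k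
  have h5 : Tendsto (fun n : ℕ => 5 / (Fintype.card F : ℝ) ^ (2 * n + 1)) atTop (nhds 0) := by
    apply Tendsto.const_div_atTop
    apply (tendsto_pow_atTop_atTop_of_one_lt (by linarith : (1 : ℝ) < Fintype.card F)).comp
    exact tendsto_atTop_mono (fun n => by omega : ∀ n : ℕ, n ≤ 2 * n + 1) tendsto_id
  filter_upwards [h5.eventually_lt_const (half_pos hε), eventually_ge_atTop (dS S 1)] with n h6 h7
  have h8 := badc_root h2 S (n := n) (by omega)
  have h9 := badc_spec h2 n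
  rw [hS] at h8
  have h10 : (((Sb F n).filter (fun f => BadC f)).card : ℝ) ≤
      (∑ f ∈ Sb F n, (if (f.c4 = 0 ∨ f.c6 = 0) then (1 : ℝ) else 0)) +
      ∑ f ∈ Sb F n, (if ∃ r : RatFunc F, (f.map (toK F)).ev r = 0 then (1 : ℝ) else 0) := by
    rw [card_filter]
    push_cast
    rw [← sum_add_distrib]
    apply sum_le_sum
    intro G _
    unfold BadC
    by_cases h1 : (G.c4 = 0 ∨ G.c6 = 0) <;> by_cases h3 : ∃ r : RatFunc F, (G.map (toK F)).ev r = 0 <;>
      simp [h1, h3]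
  rw [div_le_iff₀ (by positivity)] at h8 h9
  have h11 : (0 : ℝ) < (Fintype.card F : ℝ) ^ (12 * n + 3) := by positivity
  nlinarith

end Pool.Agent.H456.BQ
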