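import Pool.Agent.H456.BQ.Stm4
import Pool.Agent.H456.BQ.T_pts

/-!
(K10) `S_balls`, the converse of `S_pts`: the integral points of `y² = f(x)` over the completion lie in `n` balls,
where `n Q^(M-1)` is at most the number of solutions modulo `P^M`, and two points of the same ball with different `x`
are not separated.
-/

set_option autoImplicit false
set_option linter.all false

open Polynomial Finset
open Pool.Agent.H456.EC (toK toK_inj sig toK_eq reflect_toK)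

namespace Pool.Agent.H456.BQ

section ballsA

variable {F : Type} [Field F] {P : F[X]} {O : Type} [CommRing O] [IsDomain O] {π : O} {ι : F[X] →+* O}

theorem balls_y (h : Lc P π ι) {a b c x y x' : F[X]} {κ M : ℕ} (hM : 2 * κ + 1 ≤ M)
    (h0 : P ^ M ∣ y ^ 2 - (x ^ 3 + a * x ^ 2 + b * x + c))
    (h1 : P ^ κ ∣ 2 * y) (h1' : ¬ P ^ (κ + 1) ∣ 2 * y) (h2 : P ^ κ ∣ 3 * x ^ 2 + 2 * a * x + b)
    (hx : P ^ (κ + 1) ∣ x' - x) :
    ∃ y' : F[X], P ^ (κ + 1) ∣ y' - y ∧ P ^ M ∣ y' ^ 2 - (x' ^ 3 + a * x' ^ 2 + b * x' + c) := by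
  -- the data in the completion
  obtain ⟨u, hu⟩ := (h.dvd κ _).2 h1
  rw [map_mul, map_ofNat] at hu
  have hu1 : IsUnit u := by
    apply pts_unit h
    intro h6
    apply h1'
    rw [← h.dvd, map_mul, map_ofNat, hu, pow_succ]
    exact mul_dvd_mul_left _ h6
  have h3 : P ^ (2 * κ + 1) ∣ y ^ 2 - (x' ^ 3 + a * x' ^ 2 + b * x' + c) := by
    have e : y ^ 2 - (x' ^ 3 + a * x' ^ 2 + b * x' + c) = (y ^ 2 - (x ^ 3 + a * x ^ 2 + b * x + c)) -
        (x' - x) * (3 * x ^ 2 + 2 * a * x + b) - (x' - x) * (x' - x) * (x' + 2 * x + a) := by ring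
    rw [e]
    have e1 : P ^ (2 * κ + 1) ∣ y ^ 2 - (x ^ 3 + a * x ^ 2 + b * x + c) := (pow_dvd_pow P hM).trans h0
    have e2 : P ^ (2 * κ + 1) ∣ (x' - x) * (3 * x ^ 2 + 2 * a * x + b) := by
      have : P ^ (2 * κ + 1) = P ^ (κ + 1) * P ^ κ := by rw [← pow_add]; congr 1; ring
      rw [this]; exact mul_dvd_mul hx h2
    have e3 : P ^ (2 * κ + 1) ∣ (x' - x) * (x' - x) * (x' + 2 * x + a) := by
      have : P ^ (2 * κ + 1) ∣ P ^ (κ + 1) * P ^ (κ + 1) := by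
        rw [← pow_add]; exact pow_dvd_pow P (by omega)
      exact (this.trans (mul_dvd_mul hx hx)).mul_right _
    exact dvd_sub (dvd_sub e1 e2) e3
  obtain ⟨e, he⟩ := (h.dvd _ _).2 h3
  obtain ⟨w, ⟨w', hw'⟩, hw⟩ := h.hensel (π * e) u 1 0 (Dvd.intro _ rfl) hu1
  obtain ⟨y', hy'⟩ := h.dense M (ι y + π ^ κ * w)
  refine ⟨y', ?_, ?_⟩
  · rw [← h.dvd, map_sub]
    have e1 : ι y' - ι y = π ^ (κ + 1) * w' - (ι y + π ^ κ * w - ι y') := by
      rw [hw', pow_succ]; ring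
    rw [e1]
    exact dvd_sub (Dvd.intro _ rfl) ((pow_dvd_pow π (by omega)).trans hy')
  · rw [← h.dvd]
    have e1 : (ι y + π ^ κ * w) ^ 2 - (ι x' ^ 3 + ι a * ι x' ^ 2 + ι b * ι x' + ι c) = 0 := by
      rw [map_sub, map_add, map_add, map_add, map_mul, map_mul, map_pow, map_pow, map_pow] at he
      have e2 : π ^ (2 * κ + 1) = (π ^ κ) ^ 2 * π := by rw [← pow_mul, ← pow_succ]; congr 1; ring
      rw [e2] at he
      linear_combination he + (π ^ κ) ^ 2 * hw + (π ^ κ * w) * hu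
    rw [map_sub, map_add, map_add, map_add, map_mul, map_mul, map_pow, map_pow, map_pow]
    have e3 : ι y' ^ 2 - (ι x' ^ 3 + ι a * ι x' ^ 2 + ι b * ι x' + ι c) =
        -((ι y + π ^ κ * w - ι y') * (ι y + π ^ κ * w + ι y')) := by
      linear_combination e1
    rw [e3, dvd_neg]
    exact hy'.mul_right _

theorem balls_x (h : Lc P π ι) {a b c x y y' : F[X]} {κ M : ℕ} (hM : 2 * κ + 1 ≤ M)
    (h0 : P ^ M ∣ y ^ 2 - (x ^ 3 + a * x ^ 2 + b * x + c))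
    (h1 : P ^ κ ∣ 2 * y) (h2 : P ^ κ ∣ 3 * x ^ 2 + 2 * a * x + b)
    (h2' : ¬ P ^ (κ + 1) ∣ 3 * x ^ 2 + 2 * a * x + b)
    (hy : P ^ (κ + 1) ∣ y' - y) :
    ∃ x' : F[X], P ^ (κ + 1) ∣ x' - x ∧ P ^ M ∣ y' ^ 2 - (x' ^ 3 + a * x' ^ 2 + b * x' + c) := by
  obtain ⟨u, hu⟩ := (h.dvd κ _).2 h2
  have hu1 : IsUnit u := by
    apply pts_unit h
    intro h6
    apply h2'
    rw [← h.dvd, hu, pow_succ]
    exact mul_dvd_mul_left _ h6
  rw [map_add, map_add, map_mul, map_mul, map_mul, map_pow, map_ofNat, map_ofNat] at hu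
  have h3 : P ^ (2 * κ + 1) ∣ (x ^ 3 + a * x ^ 2 + b * x + c) - y' ^ 2 := by
    have e : (x ^ 3 + a * x ^ 2 + b * x + c) - y' ^ 2 = -(y ^ 2 - (x ^ 3 + a * x ^ 2 + b * x + c)) -
        (y' - y) * (2 * y) - (y' - y) * (y' - y) := by ring
    rw [e]
    have e1 : P ^ (2 * κ + 1) ∣ -(y ^ 2 - (x ^ 3 + a * x ^ 2 + b * x + c)) :=
      dvd_neg.2 ((pow_dvd_pow P hM).trans h0)
    have e2 : P ^ (2 * κ + 1) ∣ (y' - y) * (2 * y) := by
      have : P ^ (2 * κ + 1) = P ^ (κ + 1) * P ^ κ := by rw [← pow_add]; congr 1; ring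
      rw [this]; exact mul_dvd_mul hy h1
    have e3 : P ^ (2 * κ + 1) ∣ (y' - y) * (y' - y) := by
      have : P ^ (2 * κ + 1) ∣ P ^ (κ + 1) * P ^ (κ + 1) := by
        rw [← pow_add]; exact pow_dvd_pow P (by omega)
      exact this.trans (mul_dvd_mul hy hy)
    exact dvd_sub (dvd_sub e1 e2) e3
  obtain ⟨e, he⟩ := (h.dvd _ _).2 h3
  obtain ⟨w, ⟨w', hw'⟩, hw⟩ := h.hensel (π * e) u (3 * ι x + ι a) (π ^ κ) (Dvd.intro _ rfl) hu1
  obtain ⟨x', hx'⟩ := h.dense M (ι x + π ^ κ * w)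
  refine ⟨x', ?_, ?_⟩
  · rw [← h.dvd, map_sub]
    have e1 : ι x' - ι x = π ^ (κ + 1) * w' - (ι x + π ^ κ * w - ι x') := by
      rw [hw', pow_succ]; ring
    rw [e1]
    exact dvd_sub (Dvd.intro _ rfl) ((pow_dvd_pow π (by omega)).trans hx')
  · rw [← h.dvd]
    have e1 : ι y' ^ 2 - ((ι x + π ^ κ * w) ^ 3 + ι a * (ι x + π ^ κ * w) ^ 2 +
        ι b * (ι x + π ^ κ * w) + ι c) = 0 := by
      rw [map_sub, map_add, map_add, map_add, map_mul, map_mul, map_pow, map_pow, map_pow] at he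
      have e2 : π ^ (2 * κ + 1) = (π ^ κ) ^ 2 * π := by rw [← pow_mul, ← pow_succ]; congr 1; ring
      rw [e2] at he
      linear_combination -he - (π ^ κ) ^ 2 * hw - (π ^ κ * w) * hu
    rw [map_sub, map_add, map_add, map_add, map_mul, map_mul, map_pow, map_pow, map_pow]
    have e3 : ι y' ^ 2 - (ι x' ^ 3 + ι a * ι x' ^ 2 + ι b * ι x' + ι c) =
        (ι x + π ^ κ * w - ι x') * ((ι x + π ^ κ * w) ^ 2 + (ι x + π ^ κ * w) * ι x' + ι x' ^ 2 +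
          ι a * (ι x + π ^ κ * w + ι x') + ι b) := by
      linear_combination e1
    rw [e3]
    exact hx'.mul_right _

end ballsA

section ballsB

variable {F : Type} [Field F] [Fintype F]

theorem balls_cnt (P : Pl F) (M κ : ℕ) (hκ : 2 * κ + 1 ≤ M) (z0 : F[X]) (g : F[X] → F[X])
    (C : Finset (Rq (P.1 ^ M) × Rq (P.1 ^ M)))
    (hC : ∀ a c : F[X], ((Ideal.Quotient.mk (Ideal.span {P.1 ^ M}) (z0 + P.1 ^ (κ + 1) * a) : Rq (P.1 ^ M)),
      (Ideal.Quotient.mk (Ideal.span {P.1 ^ M}) (g a + P.1 ^ (M - κ) * c) : Rq (P.1 ^ M))) ∈ C) :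
    (Fintype.card F ^ P.1.natDegree) ^ (M - 1) ≤ C.card := by
  classical
  have hP0 : P.1 ≠ 0 := P.2.2.ne_zero
  have c1 : Nat.card (Rq (P.1 ^ (M - (κ + 1)))) = (Fintype.card F ^ P.1.natDegree) ^ (M - (κ + 1)) := by
    rw [pts_cardRq (P.2.1.pow _), P.2.1.natDegree_pow, ← pow_mul]; congr 1; ring
  have c2 : Nat.card (Rq (P.1 ^ κ)) = (Fintype.card F ^ P.1.natDegree) ^ κ := by
    rw [pts_cardRq (P.2.1.pow _), P.2.1.natDegree_pow, ← pow_mul]; congr 1; ring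
  have c3 : (Fintype.card F ^ P.1.natDegree) ^ (M - 1) =
      (univ : Finset (Rq (P.1 ^ (M - (κ + 1))) × Rq (P.1 ^ κ))).card := by
    rw [Nat.card_eq_fintype_card] at c1 c2
    rw [Finset.card_univ, Fintype.card_prod, c1, c2, ← pow_add]
    congr 1
    omega
  rw [c3]
  refine Finset.card_le_card_of_injOn (fun r =>
    ((Ideal.Quotient.mk (Ideal.span {P.1 ^ M}) (z0 + P.1 ^ (κ + 1) * pts_lf _ r.1) : Rq (P.1 ^ M)),
      (Ideal.Quotient.mk (Ideal.span {P.1 ^ M}) (g (pts_lf _ r.1) + P.1 ^ (M - κ) * pts_lf _ r.2) :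
        Rq (P.1 ^ M)))) (fun r _ => hC _ _) ?_
  rintro ⟨a, c⟩ - ⟨a', c'⟩ - hr
  simp only [Prod.mk.injEq] at hr
  obtain ⟨h1, h2⟩ := hr
  rw [mk_eq] at h1 h2
  have ha : a = a' := by
    apply pts_lf_inj
    have e : z0 + P.1 ^ (κ + 1) * pts_lf _ a - (z0 + P.1 ^ (κ + 1) * pts_lf _ a') =
      P.1 ^ (κ + 1) * (pts_lf (P.1 ^ (M - (κ + 1))) a - pts_lf _ a') := by ring
    rw [e] at h1
    have e3 : P.1 ^ M = P.1 ^ (κ + 1) * P.1 ^ (M - (κ + 1)) := by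
      rw [← pow_add, Nat.add_sub_cancel' (by omega)]
    rw [e3] at h1
    exact (mul_dvd_mul_iff_left (pow_ne_zero _ hP0)).1 h1
  subst ha
  have hc : c = c' := by
    apply pts_lf_inj
    have e : g (pts_lf _ a) + P.1 ^ (M - κ) * pts_lf _ c - (g (pts_lf _ a) + P.1 ^ (M - κ) * pts_lf _ c') =
      P.1 ^ (M - κ) * (pts_lf (P.1 ^ κ) c - pts_lf _ c') := by ring
    rw [e] at h2
    have e3 : P.1 ^ M = P.1 ^ (M - κ) * P.1 ^ κ := by
      rw [← pow_add]; congr 1; omega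
    rw [e3] at h2
    exact (mul_dvd_mul_iff_left (pow_ne_zero _ hP0)).1 h2
  rw [hc]

end ballsB

theorem t_balls : S_balls := by
  intro F _ _ h2 P O _ _ π ι hL M k hM f hf
  classical
  have hP : Prime P.1 := P.2.2.prime
  have hu2 : IsUnit (2 : F[X]) := by
    have : (2 : F[X]) = C (2 : F) := (map_ofNat (C : F →+* F[X]) 2).symm
    rw [this]; exact isUnit_C.2 (isUnit_iff_ne_zero.2 h2)
  let X : Rq (P.1 ^ M) × Rq (P.1 ^ M) → F[X] := fun p => pts_lf _ p.1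
  let Y : Rq (P.1 ^ M) × Rq (P.1 ^ M) → F[X] := fun p => pts_lf _ p.2
  let V : Rq (P.1 ^ M) × Rq (P.1 ^ M) → F[X] := fun p => 3 * X p ^ 2 + 2 * f.a * X p + f.b
  obtain ⟨A, hA⟩ : ∃ A : Finset (Rq (P.1 ^ M) × Rq (P.1 ^ M)), ∀ p, p ∈ A ↔
      p.2 ^ 2 = (f.map (Ideal.Quotient.mk (Ideal.span {P.1 ^ M}))).ev p.1 :=
    ⟨univ.filter (fun p => p.2 ^ 2 = (f.map (Ideal.Quotient.mk (Ideal.span {P.1 ^ M}))).ev p.1), fun p => by simp⟩
  have hnA : (f.map (Ideal.Quotient.mk (Ideal.span {P.1 ^ M}))).nA = A.card := by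
    unfold Cub.nA
    congr 1
    ext p
    rw [hA p]
    simp
  have hAmk : ∀ x y : F[X], P.1 ^ M ∣ y ^ 2 - (x ^ 3 + f.a * x ^ 2 + f.b * x + f.c) →
      ((Ideal.Quotient.mk (Ideal.span {P.1 ^ M}) x : Rq (P.1 ^ M)),
        (Ideal.Quotient.mk (Ideal.span {P.1 ^ M}) y : Rq (P.1 ^ M))) ∈ A := by
    intro x y h
    rw [hA]
    simp only [Cub.ev, Cub.map]
    rw [← map_pow, ← map_pow, ← map_pow, ← map_mul, ← map_mul, ← map_add, ← map_add, ← map_add]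
    exact mk_eq.2 h
  have hAd : ∀ p ∈ A, P.1 ^ M ∣ Y p ^ 2 - (X p ^ 3 + f.a * X p ^ 2 + f.b * X p + f.c) := by
    intro p hp
    have h := (hA p).1 hp
    rw [← pts_lf_mk _ p.1, ← pts_lf_mk _ p.2] at h
    simp only [Cub.ev, Cub.map] at h
    rw [← map_pow, ← map_pow, ← map_pow, ← map_mul, ← map_mul, ← map_add, ← map_add, ← map_add] at h
    exact mk_eq.1 h
  let κ : Rq (P.1 ^ M) × Rq (P.1 ^ M) → ℕ := fun p =>
    Nat.findGreatest (fun j => P.1 ^ j ∣ 2 * Y p ∧ P.1 ^ j ∣ V p) k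
  have hκk : ∀ p, κ p ≤ k := fun p => Nat.findGreatest_le k
  have hκ1 : ∀ p, P.1 ^ κ p ∣ 2 * Y p ∧ P.1 ^ κ p ∣ V p := fun p =>
    Nat.findGreatest_spec (P := fun j => P.1 ^ j ∣ 2 * Y p ∧ P.1 ^ j ∣ V p) (m := 0) (Nat.zero_le k) (by simp)
  have hκ2 : ∀ p ∈ A, ¬ (P.1 ^ (κ p + 1) ∣ 2 * Y p ∧ P.1 ^ (κ p + 1) ∣ V p) := by
    intro p hp hcon
    rcases Nat.lt_or_ge (κ p) k with hlt | hge
    · exact Nat.findGreatest_is_greatest (P := fun j => P.1 ^ j ∣ 2 * Y p ∧ P.1 ^ j ∣ V p)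
        (Nat.lt_succ_self (κ p)) hlt hcon
    · have hk : κ p = k := le_antisymm (hκk p) hge
      rw [hk] at hcon
      apply hf
      refine pts_disc f (x := X p) (y := Y p) ((IsUnit.dvd_mul_left hu2).1 hcon.1) hcon.2 ?_
      exact (pow_dvd_pow P.1 (by omega)).trans (hAd p hp)
  -- the labels
  let lab : Rq (P.1 ^ M) × Rq (P.1 ^ M) → ℕ × Set (F[X] × F[X]) := fun p =>
    (κ p, {q | P.1 ^ (κ p + 1) ∣ q.1 - X p ∧ P.1 ^ (κ p + 1) ∣ q.2 - Y p})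
  have hlab1 : ∀ p p', lab p = lab p' → κ p = κ p' ∧ P.1 ^ (κ p' + 1) ∣ X p - X p' ∧ P.1 ^ (κ p' + 1) ∣ Y p - Y p' := by
    intro p p' h
    have e1 : κ p = κ p' := congrArg Prod.fst h
    have e2 : {q : F[X] × F[X] | P.1 ^ (κ p + 1) ∣ q.1 - X p ∧ P.1 ^ (κ p + 1) ∣ q.2 - Y p} =
      {q : F[X] × F[X] | P.1 ^ (κ p' + 1) ∣ q.1 - X p' ∧ P.1 ^ (κ p' + 1) ∣ q.2 - Y p'} := congrArg Prod.snd h
    have e3 : (X p, Y p) ∈ {q : F[X] × F[X] | P.1 ^ (κ p + 1) ∣ q.1 - X p ∧ P.1 ^ (κ p + 1) ∣ q.2 - Y p} := by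
      simp
    rw [e2] at e3
    exact ⟨e1, e3.1, e3.2⟩
  have hlab2 : ∀ p p', κ p = κ p' → P.1 ^ (κ p + 1) ∣ X p - X p' → P.1 ^ (κ p + 1) ∣ Y p - Y p' → lab p = lab p' := by
    intro p p' e1 e2 e3
    refine Prod.ext e1 ?_
    show {q : F[X] × F[X] | P.1 ^ (κ p + 1) ∣ q.1 - X p ∧ P.1 ^ (κ p + 1) ∣ q.2 - Y p} =
      {q : F[X] × F[X] | P.1 ^ (κ p' + 1) ∣ q.1 - X p' ∧ P.1 ^ (κ p' + 1) ∣ q.2 - Y p'}
    rw [← e1]
    ext q
    simp only [Set.mem_setOf_eq]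
    have e4 : P.1 ^ (κ p + 1) ∣ (q.1 - X p) - (q.1 - X p') := by
      have : (q.1 - X p) - (q.1 - X p') = -(X p - X p') := by ring
      rw [this]; exact (dvd_neg).2 e2
    have e5 : P.1 ^ (κ p + 1) ∣ (q.2 - Y p) - (q.2 - Y p') := by
      have : (q.2 - Y p) - (q.2 - Y p') = -(Y p - Y p') := by ring
      rw [this]; exact (dvd_neg).2 e3
    rw [dvd_iff_dvd_of_dvd_sub e4, dvd_iff_dvd_of_dvd_sub e5]
  -- congruent points have the same label
  have hlab3 : ∀ p ∈ A, ∀ p' ∈ A, P.1 ^ (κ p' + 1) ∣ X p - X p' → P.1 ^ (κ p' + 1) ∣ Y p - Y p' →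
      lab p = lab p' := by
    intro p hp p' hp' e1 e2
    have a1 := hκ1 p'
    have a2 := hκ2 p' hp'
    have b1 : P.1 ^ κ p' ∣ 2 * Y p ∧ P.1 ^ κ p' ∣ V p :=
      (pts_cong ((pow_dvd_pow P.1 (Nat.le_succ _)).trans e1) ((pow_dvd_pow P.1 (Nat.le_succ _)).trans e2)).2 a1
    have b2 : ¬ (P.1 ^ (κ p' + 1) ∣ 2 * Y p ∧ P.1 ^ (κ p' + 1) ∣ V p) := fun h => a2 ((pts_cong e1 e2).1 h)
    have b3 : κ p = κ p' := pts_uniq (hκ1 p) (hκ2 p hp) b1 b2
    refine hlab2 p p' b3 ?_ ?_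
    · rw [b3]; exact e1
    · rw [b3]; exact e2
  -- representatives of residue classes
  have hrep : ∀ x : F[X], P.1 ^ M ∣ pts_lf (P.1 ^ M) (Ideal.Quotient.mk (Ideal.span {P.1 ^ M}) x) - x := by
    intro x
    exact mk_eq.1 (pts_lf_mk _ _)
  -- the size of the fibres
  have hfib : ∀ p0 ∈ A, (Fintype.card F ^ P.1.natDegree) ^ (M - 1) ≤ (A.filter (fun x => lab x = lab p0)).card := by
    intro p0 hp0
    have hM0 : 2 * κ p0 + 1 ≤ M := by have := hκk p0; omega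
    have hpk : P.1 ^ (κ p0 + 1) ∣ P.1 ^ M := pow_dvd_pow P.1 (by omega)
    have hpk2 : P.1 ^ (κ p0 + 1) ∣ P.1 ^ (M - κ p0) := pow_dvd_pow P.1 (by omega)
    have hpk3 : P.1 ^ κ p0 ∣ P.1 ^ (M - κ p0) := pow_dvd_pow P.1 (by omega)
    have hMM : P.1 ^ M = P.1 ^ (M - κ p0) * P.1 ^ κ p0 := by
      rw [← pow_add]; congr 1; omega
    obtain ⟨g1, g2⟩ := hκ1 p0
    -- a congruent solution is in the fibre
    have hin : ∀ x y : F[X], P.1 ^ (κ p0 + 1) ∣ x - X p0 → P.1 ^ (κ p0 + 1) ∣ y - Y p0 →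
        P.1 ^ M ∣ y ^ 2 - (x ^ 3 + f.a * x ^ 2 + f.b * x + f.c) →
        ((Ideal.Quotient.mk (Ideal.span {P.1 ^ M}) x : Rq (P.1 ^ M)),
          (Ideal.Quotient.mk (Ideal.span {P.1 ^ M}) y : Rq (P.1 ^ M))) ∈ A.filter (fun x => lab x = lab p0) := by
      intro x y hx hy hxy
      rw [Finset.mem_filter]
      refine ⟨hAmk x y hxy, hlab3 _ (hAmk x y hxy) p0 hp0 ?_ ?_⟩
      · have e : X ((Ideal.Quotient.mk (Ideal.span {P.1 ^ M}) x : Rq (P.1 ^ M)),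
            (Ideal.Quotient.mk (Ideal.span {P.1 ^ M}) y : Rq (P.1 ^ M))) - X p0 =
            (pts_lf (P.1 ^ M) (Ideal.Quotient.mk (Ideal.span {P.1 ^ M}) x) - x) + (x - X p0) := by
          show pts_lf (P.1 ^ M) (Ideal.Quotient.mk (Ideal.span {P.1 ^ M}) x) - X p0 = _
          ring
        rw [e]
        exact dvd_add (hpk.trans (hrep x)) hx
      · have e : Y ((Ideal.Quotient.mk (Ideal.span {P.1 ^ M}) x : Rq (P.1 ^ M)),
            (Ideal.Quotient.mk (Ideal.span {P.1 ^ M}) y : Rq (P.1 ^ M))) - Y p0 =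
            (pts_lf (P.1 ^ M) (Ideal.Quotient.mk (Ideal.span {P.1 ^ M}) y) - y) + (y - Y p0) := by
          show pts_lf (P.1 ^ M) (Ideal.Quotient.mk (Ideal.span {P.1 ^ M}) y) - Y p0 = _
          ring
        rw [e]
        exact dvd_add (hpk.trans (hrep y)) hy
    by_cases h4 : P.1 ^ (κ p0 + 1) ∣ 2 * Y p0
    · have h5 : ¬ P.1 ^ (κ p0 + 1) ∣ V p0 := fun h6 => hκ2 p0 hp0 ⟨h4, h6⟩
      have hex : ∀ a : F[X], ∃ x' : F[X], P.1 ^ (κ p0 + 1) ∣ x' - X p0 ∧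
          P.1 ^ M ∣ (Y p0 + P.1 ^ (κ p0 + 1) * a) ^ 2 - (x' ^ 3 + f.a * x' ^ 2 + f.b * x' + f.c) := by
        intro a
        exact balls_x hL hM0 (hAd p0 hp0) g1 g2 h5 (by
          rw [add_sub_cancel_left]; exact Dvd.intro _ rfl)
      choose g hg1 hg2 using hex
      have hcs : (A.filter (fun x => lab x = lab p0)).card =
          ((A.filter (fun x => lab x = lab p0)).image Prod.swap).card :=
        (Finset.card_image_of_injective _ Prod.swap_injective).symm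
      rw [hcs]
      refine balls_cnt P M (κ p0) hM0 (Y p0) g _ ?_
      intro a c
      rw [Finset.mem_image]
      refine ⟨((Ideal.Quotient.mk (Ideal.span {P.1 ^ M}) (g a + P.1 ^ (M - κ p0) * c) : Rq (P.1 ^ M)),
        (Ideal.Quotient.mk (Ideal.span {P.1 ^ M}) (Y p0 + P.1 ^ (κ p0 + 1) * a) : Rq (P.1 ^ M))), ?_, rfl⟩
      refine hin _ _ ?_ ?_ ?_
      · have e : g a + P.1 ^ (M - κ p0) * c - X p0 = (g a - X p0) + P.1 ^ (M - κ p0) * c := by ring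
        rw [e]
        exact dvd_add (hg1 a) (hpk2.mul_right _)
      · rw [add_sub_cancel_left]; exact Dvd.intro _ rfl
      · obtain ⟨u, hu⟩ := hg1 a
        obtain ⟨v, hv⟩ := g2
        have e : (Y p0 + P.1 ^ (κ p0 + 1) * a) ^ 2 - ((g a + P.1 ^ (M - κ p0) * c) ^ 3 +
            f.a * (g a + P.1 ^ (M - κ p0) * c) ^ 2 + f.b * (g a + P.1 ^ (M - κ p0) * c) + f.c) =
            ((Y p0 + P.1 ^ (κ p0 + 1) * a) ^ 2 - ((g a) ^ 3 + f.a * (g a) ^ 2 + f.b * (g a) + f.c)) -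
            P.1 ^ (M - κ p0) * (c * ((3 * (g a) ^ 2 + 2 * f.a * g a + f.b) +
              P.1 ^ (M - κ p0) * (c * (3 * g a + P.1 ^ (M - κ p0) * c + f.a)))) := by ring
        rw [e]
        refine dvd_sub (hg2 a) ?_
        nth_rewrite 1 [hMM]
        refine mul_dvd_mul_left _ (Dvd.dvd.mul_left (dvd_add ?_ (hpk3.mul_right _)) _)
        have e2 : 3 * (g a) ^ 2 + 2 * f.a * g a + f.b = V p0 + (g a - X p0) * (3 * (g a + X p0) + 2 * f.a) := by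
          show _ = (3 * X p0 ^ 2 + 2 * f.a * X p0 + f.b) + _
          ring
        rw [e2, hu, hv]
        exact dvd_add (Dvd.intro _ rfl) (((pow_dvd_pow P.1 (Nat.le_succ _)).mul_right _).mul_right _)
    · have hex : ∀ a : F[X], ∃ y' : F[X], P.1 ^ (κ p0 + 1) ∣ y' - Y p0 ∧
          P.1 ^ M ∣ y' ^ 2 - ((X p0 + P.1 ^ (κ p0 + 1) * a) ^ 3 + f.a * (X p0 + P.1 ^ (κ p0 + 1) * a) ^ 2 +
            f.b * (X p0 + P.1 ^ (κ p0 + 1) * a) + f.c) := by
        intro a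
        exact balls_y hL hM0 (hAd p0 hp0) g1 h4 g2 (by
          rw [add_sub_cancel_left]; exact Dvd.intro _ rfl)
      choose g hg1 hg2 using hex
      refine balls_cnt P M (κ p0) hM0 (X p0) g _ ?_
      intro a c
      refine hin _ _ ?_ ?_ ?_
      · rw [add_sub_cancel_left]; exact Dvd.intro _ rfl
      · have e : g a + P.1 ^ (M - κ p0) * c - Y p0 = (g a - Y p0) + P.1 ^ (M - κ p0) * c := by ring
        rw [e]
        exact dvd_add (hg1 a) (hpk2.mul_right _)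
      · obtain ⟨u, hu⟩ := hg1 a
        obtain ⟨v, hv⟩ := g1
        have e : (g a + P.1 ^ (M - κ p0) * c) ^ 2 - ((X p0 + P.1 ^ (κ p0 + 1) * a) ^ 3 +
            f.a * (X p0 + P.1 ^ (κ p0 + 1) * a) ^ 2 + f.b * (X p0 + P.1 ^ (κ p0 + 1) * a) + f.c) =
            ((g a) ^ 2 - ((X p0 + P.1 ^ (κ p0 + 1) * a) ^ 3 + f.a * (X p0 + P.1 ^ (κ p0 + 1) * a) ^ 2 +
            f.b * (X p0 + P.1 ^ (κ p0 + 1) * a) + f.c)) +
            P.1 ^ (M - κ p0) * (c * (2 * g a + P.1 ^ (M - κ p0) * c)) := by ring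
        rw [e]
        refine dvd_add (hg2 a) ?_
        nth_rewrite 1 [hMM]
        refine mul_dvd_mul_left _ (Dvd.dvd.mul_left (dvd_add ?_ (hpk3.mul_right _)) _)
        have e2 : 2 * g a = 2 * Y p0 + 2 * (g a - Y p0) := by ring
        rw [e2, hu, hv]
        exact dvd_add (Dvd.intro _ rfl) (((pow_dvd_pow P.1 (Nat.le_succ _)).mul_right _).mul_left _)
  -- the reduction of an integral point
  have hred : ∀ p : {p : O × O // p.2 ^ 2 = (f.map ι).ev p.1}, ∃ q ∈ A,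
      π ^ M ∣ p.1.1 - ι (X q) ∧ π ^ M ∣ p.1.2 - ι (Y q) := by
    rintro ⟨⟨x, y⟩, hp⟩
    simp only [Cub.ev, Cub.map] at hp
    obtain ⟨x1, hx1⟩ := hL.dense M x
    obtain ⟨y1, hy1⟩ := hL.dense M y
    refine ⟨((Ideal.Quotient.mk (Ideal.span {P.1 ^ M}) x1 : Rq (P.1 ^ M)),
        (Ideal.Quotient.mk (Ideal.span {P.1 ^ M}) y1 : Rq (P.1 ^ M))), hAmk _ _ ?_, ?_, ?_⟩
    · rw [← hL.dvd, map_sub, map_add, map_add, map_add, map_mul, map_mul, map_pow, map_pow, map_pow]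
      have e : ι y1 ^ 2 - (ι x1 ^ 3 + ι f.a * ι x1 ^ 2 + ι f.b * ι x1 + ι f.c) =
          (x - ι x1) * (x ^ 2 + x * ι x1 + ι x1 ^ 2 + ι f.a * (x + ι x1) + ι f.b) -
          (y - ι y1) * (y + ι y1) := by
        linear_combination hp
      rw [e]
      exact dvd_sub (hx1.mul_right _) (hy1.mul_right _)
    · show π ^ M ∣ x - ι (pts_lf (P.1 ^ M) (Ideal.Quotient.mk (Ideal.span {P.1 ^ M}) x1))
      have e : x - ι (pts_lf (P.1 ^ M) (Ideal.Quotient.mk (Ideal.span {P.1 ^ M}) x1)) =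
          (x - ι x1) - ι (pts_lf (P.1 ^ M) (Ideal.Quotient.mk (Ideal.span {P.1 ^ M}) x1) - x1) := by
        rw [map_sub]; ring
      rw [e]
      exact dvd_sub hx1 ((hL.dvd M _).2 (hrep x1))
    · show π ^ M ∣ y - ι (pts_lf (P.1 ^ M) (Ideal.Quotient.mk (Ideal.span {P.1 ^ M}) y1))
      have e : y - ι (pts_lf (P.1 ^ M) (Ideal.Quotient.mk (Ideal.span {P.1 ^ M}) y1)) =
          (y - ι y1) - ι (pts_lf (P.1 ^ M) (Ideal.Quotient.mk (Ideal.span {P.1 ^ M}) y1) - y1) := by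
        rw [map_sub]; ring
      rw [e]
      exact dvd_sub hy1 ((hL.dvd M _).2 (hrep y1))
  choose red hredA hred1 hred2 using hred
  refine ⟨(A.image lab).card, fun p => (A.image lab).equivFin ⟨lab (red p), Finset.mem_image_of_mem lab (hredA p)⟩,
    ?_, ?_⟩
  · rw [hnA, mul_comm]
    refine Finset.mul_card_image_le_card A _ ?_
    intro ℓ hℓ
    obtain ⟨p0, hp0, rfl⟩ := Finset.mem_image.1 hℓ
    exact hfib p0 hp0
  · intro p p' hb hne
    have hlab : lab (red p) = lab (red p') := by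
      have := (A.image lab).equivFin.injective hb
      exact congrArg Subtype.val this
    obtain ⟨e1, e2, e3⟩ := hlab1 _ _ hlab
    have hMk : κ (red p') + 1 ≤ M := by have := hκk (red p'); omega
    rintro ⟨l, hl⟩
    have f1 : π ^ (κ (red p') + 1) ∣ p.1.1 - p'.1.1 := by
      have : p.1.1 - p'.1.1 = (p.1.1 - ι (X (red p))) + ι (X (red p) - X (red p')) -
          (p'.1.1 - ι (X (red p'))) := by rw [map_sub]; ring
      rw [this]
      exact dvd_sub (dvd_add ((pow_dvd_pow π hMk).trans (hred1 p)) ((hL.dvd _ _).2 e2))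
        ((pow_dvd_pow π hMk).trans (hred1 p'))
    have f2 : π ^ (κ (red p') + 1) ∣ p.1.2 - p'.1.2 := by
      have : p.1.2 - p'.1.2 = (p.1.2 - ι (Y (red p))) + ι (Y (red p) - Y (red p')) -
          (p'.1.2 - ι (Y (red p'))) := by rw [map_sub]; ring
      rw [this]
      exact dvd_sub (dvd_add ((pow_dvd_pow π hMk).trans (hred2 p)) ((hL.dvd _ _).2 e3))
        ((pow_dvd_pow π hMk).trans (hred2 p'))
    have hp := p.2
    have hp' := p'.2
    simp only [Cub.ev, Cub.map] at hp hp'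
    have hx0 : p.1.1 - p'.1.1 ≠ 0 := sub_ne_zero.2 hne
    have hT : p'.1.1 ^ 2 + p.1.1 * p'.1.1 + p.1.1 ^ 2 + ι f.a * (p.1.1 + p'.1.1) + ι f.b =
        l * (p.1.2 - p'.1.2) := by
      apply mul_left_cancel₀ hx0
      linear_combination -hp + hp' - (p.1.2 - p'.1.2) * hl
    have g1 : π ^ (κ (red p') + 1) ∣ 2 * p'.1.2 := by
      have : 2 * p'.1.2 = l * (p.1.1 - p'.1.1) - (p.1.2 - p'.1.2) := by rw [hl]; ring
      rw [this]
      exact dvd_sub (f1.mul_left _) f2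
    have g2 : π ^ (κ (red p') + 1) ∣ 3 * p'.1.1 ^ 2 + 2 * ι f.a * p'.1.1 + ι f.b := by
      have : 3 * p'.1.1 ^ 2 + 2 * ι f.a * p'.1.1 + ι f.b = l * (p.1.2 - p'.1.2) -
          (p.1.1 - p'.1.1) * (2 * p'.1.1 + p.1.1 + ι f.a) := by rw [← hT]; ring
      rw [this]
      exact dvd_sub (f2.mul_left _) (f1.mul_right _)
    apply hκ2 (red p') (hredA p')
    have eV : ι (V (red p')) = 3 * ι (X (red p')) ^ 2 + 2 * ι f.a * ι (X (red p')) + ι f.b := by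
      show ι (3 * X (red p') ^ 2 + 2 * f.a * X (red p') + f.b) = _
      rw [map_add, map_add, map_mul, map_mul, map_mul, map_pow, map_ofNat, map_ofNat]
    have eY : ι (2 * Y (red p')) = 2 * ι (Y (red p')) := by rw [map_mul, map_ofNat]
    rw [← hL.dvd, ← hL.dvd, eV, eY]
    exact (pts_cong ((pow_dvd_pow π hMk).trans (hred1 p')) ((pow_dvd_pow π hMk).trans (hred2 p'))).1 ⟨g1, g2⟩

end Pool.Agent.H456.BQ
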