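import Pool.Agent.H456.BQ.Stm4
import Pool.Agent.H456.BQ.T_comp

/-!
(K00) `S_comp4`: adapt T_comp.lean (existence of the completion as a power series ring over the residue field; a proof of `S_comp`). `Lc4` (Stm4.lean) is `Lc` together with Hensel's lemma for
quartics, with the same proof as the one for cubics in T_comp.lean.
-/

set_option autoImplicit false
set_option linter.all false

open Polynomial Finset
open Pool.Agent.H456.EC (toK toK_inj sig toK_eq reflect_toK)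

namespace Pool.Agent.H456.BQ

theorem comp4_hensel {κ : Type} [Field κ] (c₀ c₁ c₂ c₃ c₄ : PowerSeries κ)
    (h0 : PowerSeries.X ∣ c₀) (h1 : IsUnit c₁) :
    ∃ w, PowerSeries.X ∣ w ∧ c₀ + c₁ * w + c₂ * w ^ 2 + c₃ * w ^ 3 + c₄ * w ^ 4 = 0 := by
  have hH : HenselianRing (PowerSeries κ) (Ideal.span {PowerSeries.X}) := inferInstance
  have hc0 : c₀ ∈ Ideal.span {(PowerSeries.X : PowerSeries κ)} := Ideal.mem_span_singleton.2 h0
  obtain ⟨a, ha, ha'⟩ := hH.is_henselian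
    (X ^ 4 + C c₁ * X ^ 3 + C (c₂ * c₀) * X ^ 2 + C (c₃ * c₀ ^ 2) * X + C (c₄ * c₀ ^ 3))
    (by monicity!) (-c₁) (by
      simp only [eval_add, eval_mul, eval_pow, eval_X, eval_C]
      have : (-c₁) ^ 4 + c₁ * (-c₁) ^ 3 + c₂ * c₀ * (-c₁) ^ 2 + c₃ * c₀ ^ 2 * -c₁ + c₄ * c₀ ^ 3 =
        (c₂ * c₁ ^ 2 - c₃ * c₀ * c₁ + c₄ * c₀ ^ 2) * c₀ := by ring
      rw [this]
      exact Ideal.mul_mem_left _ _ hc0) (by
      have : (Ideal.Quotient.mk (Ideal.span {(PowerSeries.X : PowerSeries κ)}))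
          (eval (-c₁) (derivative (X ^ 4 + C c₁ * X ^ 3 + C (c₂ * c₀) * X ^ 2 +
            C (c₃ * c₀ ^ 2) * X + C (c₄ * c₀ ^ 3)))) =
          (Ideal.Quotient.mk (Ideal.span {(PowerSeries.X : PowerSeries κ)})) (-(c₁ ^ 3)) := by
        rw [Ideal.Quotient.eq]
        have : eval (-c₁) (derivative (X ^ 4 + C c₁ * X ^ 3 + C (c₂ * c₀) * X ^ 2 +
            C (c₃ * c₀ ^ 2) * X + C (c₄ * c₀ ^ 3)))
            - -(c₁ ^ 3) = (-(2 * c₂ * c₁) + c₃ * c₀) * c₀ := by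
          simp only [derivative_add, derivative_mul, derivative_X_pow, derivative_C, derivative_X,
            eval_add, eval_mul, eval_pow, eval_X, eval_C, eval_zero, eval_one, eval_natCast,
            map_natCast]
          push_cast
          ring
        rw [this]
        exact Ideal.mul_mem_left _ _ hc0
      rw [this]
      exact ((h1.pow 3).neg).map _)
  rw [Ideal.mem_span_singleton, PowerSeries.X_dvd_iff] at ha'
  have hau : IsUnit a := by
    rw [PowerSeries.isUnit_iff_constantCoeff] at h1 ⊢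
    rw [map_sub, map_neg, sub_neg_eq_add] at ha'
    rw [eq_neg_of_add_eq_zero_left ha']
    exact h1.neg
  obtain ⟨b, hb⟩ := hau.exists_right_inv
  refine ⟨c₀ * b, dvd_mul_of_dvd_left h0 b, ?_⟩
  have h2 : a ^ 4 + c₁ * a ^ 3 + c₂ * c₀ * a ^ 2 + c₃ * c₀ ^ 2 * a + c₄ * c₀ ^ 3 = 0 := by
    have := ha
    simp only [IsRoot.def, eval_add, eval_mul, eval_pow, eval_X, eval_C] at this
    exact this
  have h3 : c₀ + c₁ * (c₀ * b) + c₂ * (c₀ * b) ^ 2 + c₃ * (c₀ * b) ^ 3 + c₄ * (c₀ * b) ^ 4 =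
      c₀ * b ^ 4 * (a ^ 4 + c₁ * a ^ 3 + c₂ * c₀ * a ^ 2 + c₃ * c₀ ^ 2 * a + c₄ * c₀ ^ 3) := by
    have e1 : a ^ 4 * b ^ 4 = 1 := by rw [← mul_pow, hb, one_pow]
    have e2 : a ^ 3 * b ^ 4 = b := by
      calc a ^ 3 * b ^ 4 = (a * b) ^ 3 * b := by ring
        _ = b := by rw [hb]; ring
    have e3 : a ^ 2 * b ^ 4 = b ^ 2 := by
      calc a ^ 2 * b ^ 4 = (a * b) ^ 2 * b ^ 2 := by ring
        _ = b ^ 2 := by rw [hb]; ring
    have e4 : a * b ^ 4 = b ^ 3 := by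
      calc a * b ^ 4 = (a * b) * b ^ 3 := by ring
        _ = b ^ 3 := by rw [hb]; ring
    linear_combination -c₀ * e1 - c₀ * c₁ * e2 - c₂ * c₀ ^ 2 * e3 - c₃ * c₀ ^ 3 * e4
  rw [h3, h2, mul_zero]

theorem t_comp4 : S_comp4 := by
  intro F _ _ P _ hP
  have : Fact (Irreducible P) := ⟨hP⟩
  refine ⟨PowerSeries (AdjoinRoot P), inferInstance, inferInstance, PowerSeries.X, comp_hom P,
    ⟨⟨comp_pow, ?_, PowerSeries.X_ne_zero, comp_dvd P hP, comp_dense P hP, comp_hensel⟩,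
      comp4_hensel⟩⟩
  rw [PowerSeries.isUnit_iff_constantCoeff, PowerSeries.constantCoeff_X]
  exact not_isUnit_zero

end Pool.Agent.H456.BQ
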