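import Pool.Agent.H456.BQ.Stm4
import Pool.Agent.H456.BQ.T_sep

/-!
(K9) `S_conv`, the converse of `S_sep`. No Cartan decomposition is needed: `N⁻¹ N'` is, up to scalars, `(1, b₁; γ, d₁)`, and the
equations for the coefficients `B, D, E` show that `b₁`, `d₁` are integral and the determinant is a unit (`conv_key`).
-/

set_option autoImplicit false
set_option linter.all false

open Polynomial Finset
open Pool.Agent.H456.EC (toK toK_inj sig toK_eq reflect_toK)

namespace Pool.Agent.H456.BQ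

/-- the matrix is integral -/
theorem conv_key {F : Type} [Field F] {P : F[X]} {O L : Type} [CommRing O] [IsDomain O]
    [Field L] [Algebra O L] [IsFractionRing O L] {π : O} {ι : F[X] →+* O} (h : Lc P π ι)
    (h2 : IsUnit (2 : O)) (z n₀ C₀ D₀ E₀ s' n' D' E' : O) (b δ : L) (hδ : δ ≠ 0)
    (h1 : algebraMap O L z = algebraMap O L s' * δ)
    (hB : algebraMap O L n' * δ ^ 2 = algebraMap O L n₀ * δ - algebraMap O L z ^ 2 * b)
    (hD : algebraMap O L D' * δ ^ 2 = 4 * algebraMap O L z ^ 2 * b ^ 3 -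
      12 * algebraMap O L n₀ * b ^ 2 * δ + 2 * algebraMap O L C₀ * b * δ ^ 2 +
      algebraMap O L D₀ * δ ^ 3)
    (hE : algebraMap O L E' * δ ^ 2 = algebraMap O L z ^ 2 * b ^ 4 -
      4 * algebraMap O L n₀ * b ^ 3 * δ + algebraMap O L C₀ * b ^ 2 * δ ^ 2 +
      algebraMap O L D₀ * b * δ ^ 3 + algebraMap O L E₀ * δ ^ 4)
    (hc : ¬ (π ∣ z ∧ π ∣ n₀)) (hc' : ¬ (π ∣ s' ∧ π ∣ n')) :
    ∃ b₀ d₀ : O, algebraMap O L b₀ = b ∧ algebraMap O L d₀ = δ ∧ IsUnit d₀ := by
  have hinj : Function.Injective (algebraMap O L) := IsFractionRing.injective O L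
  rcases sep_val h δ with ⟨r, hr⟩ | ⟨w, hw⟩
  · have hr0 : r ≠ 0 := by
      rintro rfl
      rw [map_zero] at hr
      exact hδ hr.symm
    rw [← hr] at h1 hB hD hE
    have hz : z = s' * r := hinj (by rw [map_mul]; exact h1)
    subst hz
    have hrL : algebraMap O L r ≠ 0 := (map_ne_zero_iff _ hinj).2 hr0
    by_cases hπr : π ∣ r
    · exfalso
      have hn₀ : ¬ π ∣ n₀ := fun h3 => hc ⟨dvd_mul_of_dvd_right hπr _, h3⟩
      have hu := sep_unit h hn₀
      -- `e = n₀ - n' r = s' ^ 2 r b`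
      have hb : algebraMap O L (s' ^ 2 * r) * b = algebraMap O L (n₀ - n' * r) := by
        apply mul_left_cancel₀ hrL
        simp only [map_mul, map_sub, map_pow] at hB ⊢
        linear_combination hB
      have hD2 : D' * r * (s' ^ 2 * r) ^ 2 = 4 * (n₀ - n' * r) ^ 3 - 12 * n₀ * (n₀ - n' * r) ^ 2 +
          2 * C₀ * (n₀ - n' * r) * (s' ^ 2 * r) * r + D₀ * r ^ 2 * (s' ^ 2 * r) ^ 2 := by
        apply hinj
        apply mul_left_cancel₀ hrL
        have e1 : algebraMap O L r * algebraMap O L (D' * r * (s' ^ 2 * r) ^ 2) =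
            algebraMap O L D' * algebraMap O L r ^ 2 * algebraMap O L (s' ^ 2 * r) ^ 2 := by
          simp only [map_mul, map_pow]; ring
        rw [e1, hD]
        have e2 : (4 * algebraMap O L (s' * r) ^ 2 * b ^ 3 -
            12 * algebraMap O L n₀ * b ^ 2 * algebraMap O L r +
            2 * algebraMap O L C₀ * b * algebraMap O L r ^ 2 +
            algebraMap O L D₀ * algebraMap O L r ^ 3) * algebraMap O L (s' ^ 2 * r) ^ 2 =
            algebraMap O L r * (4 * (algebraMap O L (s' ^ 2 * r) * b) ^ 3 -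
              12 * algebraMap O L n₀ * (algebraMap O L (s' ^ 2 * r) * b) ^ 2 +
              2 * algebraMap O L C₀ * (algebraMap O L (s' ^ 2 * r) * b) *
                algebraMap O L (s' ^ 2 * r) * algebraMap O L r +
              algebraMap O L D₀ * algebraMap O L r ^ 2 * algebraMap O L (s' ^ 2 * r) ^ 2) := by
          simp only [map_mul, map_pow]; ring
        rw [e2, hb]
        simp only [map_mul, map_sub, map_pow, map_add, map_ofNat]
      apply h.nonunit
      obtain ⟨r', rfl⟩ := hπr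
      have h3 : π ∣ 2 ^ 3 * n₀ ^ 3 := by
        refine ⟨r' * (-(D' * (s' ^ 2 * (π * r')) ^ 2) +
          4 * (-3 * n₀ ^ 2 * n' + 3 * n₀ * n' ^ 2 * (π * r') - n' ^ 3 * (π * r') ^ 2) -
          12 * n₀ * (-2 * n₀ * n' + n' ^ 2 * (π * r')) +
          2 * C₀ * (n₀ - n' * (π * r')) * (s' ^ 2 * (π * r')) +
          D₀ * (π * r') * (s' ^ 2 * (π * r')) ^ 2), ?_⟩
        linear_combination hD2
      exact isUnit_of_dvd_unit h3 ((h2.pow 3).mul (hu.pow 3))
    · have hru := sep_unit h hπr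
      by_cases hb : ∃ b₀ : O, algebraMap O L b₀ = b
      · obtain ⟨b₀, hb₀⟩ := hb
        exact ⟨b₀, r, hb₀, hr, hru⟩
      exfalso
      rcases sep_val h b with ⟨b₀, hb₀⟩ | ⟨w, hw⟩
      · exact hb ⟨b₀, hb₀⟩
      obtain ⟨r', hr'⟩ := hru.exists_right_inv
      -- `(n₀ - n' r) r' = s' ^ 2 b r`
      have hzb : algebraMap O L (s' * r) ^ 2 * b = algebraMap O L (n₀ * r - n' * r ^ 2) := by
        simp only [map_mul, map_sub, map_pow] at hB ⊢
        linear_combination hB
      have hD2 : D' * r ^ 2 * (π * w) ^ 2 = 4 * (n₀ * r - n' * r ^ 2) - 12 * n₀ * r +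
          2 * C₀ * (π * w) * r ^ 2 + D₀ * r ^ 3 * (π * w) ^ 2 := by
        apply hinj
        have e1 : algebraMap O L (D' * r ^ 2 * (π * w) ^ 2) =
            algebraMap O L D' * algebraMap O L r ^ 2 * algebraMap O L (π * w) ^ 2 := by
          simp only [map_mul, map_pow]
        rw [e1, hD]
        have e2 : (4 * algebraMap O L (s' * r) ^ 2 * b ^ 3 -
            12 * algebraMap O L n₀ * b ^ 2 * algebraMap O L r +
            2 * algebraMap O L C₀ * b * algebraMap O L r ^ 2 +
            algebraMap O L D₀ * algebraMap O L r ^ 3) * algebraMap O L (π * w) ^ 2 =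
            4 * (algebraMap O L (s' * r) ^ 2 * b) * (algebraMap O L (π * w) * b) ^ 2 -
            12 * algebraMap O L n₀ * algebraMap O L r * (algebraMap O L (π * w) * b) ^ 2 +
            2 * algebraMap O L C₀ * algebraMap O L r ^ 2 * algebraMap O L (π * w) *
              (algebraMap O L (π * w) * b) +
            algebraMap O L D₀ * algebraMap O L r ^ 3 * algebraMap O L (π * w) ^ 2 := by
          ring
        rw [e2, hw, hzb]
        simp only [map_mul, map_sub, map_pow, map_add, map_ofNat]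
        ring
      have hE2 : E' * r ^ 2 * (π * w) ^ 3 = (n₀ * r - n' * r ^ 2) - 4 * n₀ * r +
          C₀ * (π * w) * r ^ 2 + D₀ * (π * w) ^ 2 * r ^ 3 + E₀ * r ^ 4 * (π * w) ^ 3 := by
        apply hinj
        have e1 : algebraMap O L (E' * r ^ 2 * (π * w) ^ 3) =
            algebraMap O L E' * algebraMap O L r ^ 2 * algebraMap O L (π * w) ^ 3 := by
          simp only [map_mul, map_pow]
        rw [e1, hE]
        have e2 : (algebraMap O L (s' * r) ^ 2 * b ^ 4 -
            4 * algebraMap O L n₀ * b ^ 3 * algebraMap O L r +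
            algebraMap O L C₀ * b ^ 2 * algebraMap O L r ^ 2 +
            algebraMap O L D₀ * b * algebraMap O L r ^ 3 +
            algebraMap O L E₀ * algebraMap O L r ^ 4) * algebraMap O L (π * w) ^ 3 =
            (algebraMap O L (s' * r) ^ 2 * b) * (algebraMap O L (π * w) * b) ^ 3 -
            4 * algebraMap O L n₀ * algebraMap O L r * (algebraMap O L (π * w) * b) ^ 3 +
            algebraMap O L C₀ * algebraMap O L r ^ 2 * algebraMap O L (π * w) *
              (algebraMap O L (π * w) * b) ^ 2 +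
            algebraMap O L D₀ * algebraMap O L (π * w) ^ 2 * algebraMap O L r ^ 3 *
              (algebraMap O L (π * w) * b) +
            algebraMap O L E₀ * algebraMap O L r ^ 4 * algebraMap O L (π * w) ^ 3 := by
          ring
        rw [e2, hw, hzb]
        simp only [map_mul, map_sub, map_pow, map_add, map_ofNat]
        ring
      -- `π ∣ 2 n₀ + n' r`, `π ∣ 3 n₀ + n' r`
      have d1 : π ∣ 4 * (2 * n₀ + n' * r) := by
        refine ⟨r' * (w * (-(D' * r ^ 2 * (π * w)) + 2 * C₀ * r ^ 2 + D₀ * r ^ 3 * (π * w))), ?_⟩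
        linear_combination (-4 * (2 * n₀ + n' * r)) * hr' + r' * hD2
      have d2 : π ∣ 3 * n₀ + n' * r := by
        refine ⟨r' * (w * (-(E' * r ^ 2 * (π * w) ^ 2) + C₀ * r ^ 2 + D₀ * (π * w) * r ^ 3 +
          E₀ * r ^ 4 * (π * w) ^ 2)), ?_⟩
        linear_combination (-(3 * n₀ + n' * r)) * hr' + r' * hE2
      have d1' : π ∣ 2 * n₀ + n' * r := by
        have u1 : IsUnit (2 ^ 2 : O) := h2.pow 2
        refine (u1.dvd_mul_left).1 ?_
        have e1 : (2 ^ 2 : O) * (2 * n₀ + n' * r) = 4 * (2 * n₀ + n' * r) := by ring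
        rw [e1]; exact d1
      have d3 : π ∣ n₀ := by
        have e1 : n₀ = (3 * n₀ + n' * r) - (2 * n₀ + n' * r) := by ring
        rw [e1]; exact dvd_sub d2 d1'
      have hz : ¬ π ∣ s' * r := fun h3 => hc ⟨h3, d3⟩
      obtain ⟨z', hz'⟩ := (sep_unit h hz).exists_right_inv
      apply hb
      refine ⟨z' ^ 2 * (n₀ * r - n' * r ^ 2), ?_⟩
      rw [map_mul, ← hzb]
      have e1 : algebraMap O L (s' * r) * algebraMap O L z' = 1 := by
        rw [← map_mul, hz', map_one]
      rw [map_pow]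
      linear_combination b * (algebraMap O L (s' * r) * algebraMap O L z' + 1) * e1
  · exfalso
    set ε := π * w with hε
    have hs : s' = z * ε := by
      apply hinj
      rw [map_mul, h1]
      linear_combination -(algebraMap O L s') * hw
    have hπs : π ∣ s' := by rw [hs, hε]; exact ⟨z * w, by ring⟩
    have hn' : ¬ π ∣ n' := fun h3 => hc' ⟨hπs, h3⟩
    have hb : algebraMap O L s' ^ 2 * b = -algebraMap O L (n' - n₀ * ε) := by
      rw [hs]
      simp only [map_mul, map_sub]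
      linear_combination algebraMap O L ε ^ 2 * hB + (algebraMap O L n₀ * algebraMap O L ε -
        algebraMap O L n' * (algebraMap O L ε * δ + 1)) * hw
    have hD1 : algebraMap O L D' = 4 * algebraMap O L s' ^ 2 * b ^ 3 -
        12 * algebraMap O L n₀ * b ^ 2 * algebraMap O L ε + 2 * algebraMap O L C₀ * b +
        algebraMap O L D₀ * δ := by
      have e0 : algebraMap O L s' = algebraMap O L z * algebraMap O L ε := by rw [hs, map_mul]
      rw [e0]
      apply mul_right_cancel₀ (pow_ne_zero 2 hδ)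
      linear_combination hD + (-4 * algebraMap O L z ^ 2 * b ^ 3 * (algebraMap O L ε * δ + 1) +
        12 * algebraMap O L n₀ * b ^ 2 * δ) * hw
    have hD2 : D' * s' ^ 4 = -4 * (n' - n₀ * ε) ^ 3 - 12 * n₀ * ε * (n' - n₀ * ε) ^ 2 -
        2 * C₀ * s' ^ 2 * (n' - n₀ * ε) + D₀ * z * s' ^ 3 := by
      apply hinj
      have e1 : algebraMap O L (D' * s' ^ 4) = algebraMap O L D' * algebraMap O L s' ^ 4 := by
        simp only [map_mul, map_pow]
      rw [e1, hD1]
      have e2 : (4 * algebraMap O L s' ^ 2 * b ^ 3 -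
          12 * algebraMap O L n₀ * b ^ 2 * algebraMap O L ε + 2 * algebraMap O L C₀ * b +
          algebraMap O L D₀ * δ) * algebraMap O L s' ^ 4 =
          4 * (algebraMap O L s' ^ 2 * b) ^ 3 -
          12 * algebraMap O L n₀ * algebraMap O L ε * (algebraMap O L s' ^ 2 * b) ^ 2 +
          2 * algebraMap O L C₀ * algebraMap O L s' ^ 2 * (algebraMap O L s' ^ 2 * b) +
          algebraMap O L D₀ * (algebraMap O L s' * δ) * algebraMap O L s' ^ 3 := by
        ring
      rw [e2, hb, ← h1]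
      simp only [map_mul, map_sub, map_pow, map_add, map_ofNat, map_neg]
      ring
    have he : ¬ π ∣ n' - n₀ * ε := by
      intro h3
      apply hn'
      have e1 : n' = (n' - n₀ * ε) + n₀ * ε := by ring
      rw [e1]
      exact dvd_add h3 ⟨n₀ * w, by rw [hε]; ring⟩
    have hu := sep_unit h he
    apply h.nonunit
    have h3 : π ∣ 2 ^ 2 * (n' - n₀ * ε) ^ 3 := by
      obtain ⟨q, hq⟩ := hπs
      refine ⟨-(D' * q * s' ^ 3) - 12 * n₀ * w * (n' - n₀ * ε) ^ 2 -
        2 * C₀ * q * s' * (n' - n₀ * ε) + D₀ * z * q * s' ^ 2, ?_⟩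
      linear_combination hD2 + (-D' * s' ^ 3 - 2 * C₀ * s' * (n' - n₀ * ε) + D₀ * z * s' ^ 2) * hq -
        12 * n₀ * (n' - n₀ * ε) ^ 2 * hε
    exact isUnit_of_dvd_unit h3 ((h2.pow 2).mul (hu.pow 3))

theorem t_conv : S_conv := by
  intro F _ hF P O L _ _ _ _ _ π ι h f x₀ y₀ hxy N N' G G' s n s' n' hC hC' hne hd
  have hinj : Function.Injective (algebraMap O L) := IsFractionRing.injective O L
  -- `2` is a unit
  have h2 : IsUnit (2 : O) := by
    have e1 : (2 : O) = ι (Polynomial.C 2) := by rw [map_ofNat, map_ofNat]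
    rw [e1]
    exact (Polynomial.isUnit_C.2 (IsUnit.mk0 _ hF)).map ι
  have h2L : (2 : L) ≠ 0 := by
    have := (h2.map (algebraMap O L)).ne_zero
    rwa [map_ofNat] at this
  obtain ⟨ρ, hρ⟩ := exists_rep hC.det hC.sub
  -- `ρ` is integral
  obtain ⟨r, hr⟩ : ∃ r : O, algebraMap O L r = ρ := by
    have h3 := congrArg Cub.c (hρ.res hxy)
    rw [Cub.tr_ev, Q4.map_res] at h3
    refine sep_int h ρ (4 * f.a) (16 * f.b) (64 * f.c - G.res.c) ?_
    simp only [Cub.ev, Cub.sc, Cub.map] at h3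
    simp only [map_sub, map_mul, map_ofNat]
    linear_combination -h3
  -- the matrix `N⁻¹ N'` up to scalars
  obtain ⟨c, M, α, γ, hc, hN', hMα, hMγ, hαγ⟩ : ∃ (c : L) (M : M2 L) (α γ : O), c ≠ 0 ∧
      N' = (N.mul M).scal c ∧ M.α = algebraMap O L α ∧ M.γ = algebraMap O L γ ∧
      (γ = 1 ∨ α = 1 ∧ π ∣ γ ∧ γ ≠ 0) := by
    have hΔ := hC.det
    have key : ∀ k : L, k ≠ 0 → N' = (N.mul ((N.adj.mul N').scal (1 / k))).scal (k / N.det) := by
      intro k hk
      rw [M2.mul_scal, ← M2.mul_assoc, M2.mul_adj, M2.scal_scal]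
      ext <;> simp only [M2.mul, M2.scal] <;> field_simp <;> ring
    have hAγ : (N.adj.mul N').γ ≠ 0 := by
      intro h0
      apply hne
      simp only [M2.adj, M2.mul] at h0
      linear_combination h0
    rcases sep_val h ((N.adj.mul N').α / (N.adj.mul N').γ) with ⟨a, ha⟩ | ⟨w, hw⟩
    · refine ⟨_, _, a, 1, div_ne_zero hAγ hΔ, key _ hAγ, ?_, ?_, Or.inl rfl⟩
      · rw [ha]
        simp only [M2.scal]
        field_simp
      · rw [map_one]
        simp only [M2.scal]
        field_simp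
    · have hAα : (N.adj.mul N').α ≠ 0 := by
        intro h0
        rw [h0, zero_div, mul_zero] at hw
        exact zero_ne_one hw
      refine ⟨_, _, 1, π * w, div_ne_zero hAα hΔ, key _ hAα, ?_, ?_, Or.inr ⟨rfl, ⟨w, rfl⟩, ?_⟩⟩
      · rw [map_one]
        simp only [M2.scal]
        field_simp
      · simp only [M2.scal]
        field_simp at hw
        field_simp
        linear_combination -hw
      · intro h0
        rw [h0, map_zero, zero_mul] at hw
        exact zero_ne_one hw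
  have hΔ := hC.det
  -- coefficients
  have hA := congrArg Q4.A hC.sub
  have hB := congrArg Q4.B hC.sub
  have hCC := congrArg Q4.C hC.sub
  simp only [Q4.smul, Q4.map] at hA hB hCC
  rw [hC.A] at hA
  rw [hC.B] at hB
  have eα : N'.α = c * (N.α * algebraMap O L α + N.β * algebraMap O L γ) := by
    rw [hN', ← hMα, ← hMγ]; rfl
  have eγ : N'.γ = c * (N.γ * algebraMap O L α + N.δ * algebraMap O L γ) := by
    rw [hN', ← hMα, ← hMγ]; rfl
  have eD : N'.det = c ^ 2 * (N.det * M.det) := by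
    rw [hN', M2.det_scal, M2.det_mul]
  have hδ : M.det ≠ 0 := by
    intro h0
    apply hC'.det
    rw [eD, h0, mul_zero, mul_zero]
  have e1 : N.α * N'.γ - N'.α * N.γ = c * algebraMap O L γ * N.det := by
    rw [eα, eγ, M2.det]
    ring
  have hsub : (G.map (algebraMap O L)).sub M = (G'.map (algebraMap O L)).smul (M.det ^ 2) := by
    have h3 := hC'.sub
    rw [hN', Q4.sub_scal, ← Q4.sub_mul, hC.sub, Q4.smul_sub, M2.det_scal, M2.det_mul,
      Q4.smul_smul] at h3
    apply Q4.smul_cancel (mul_ne_zero (pow_ne_zero 4 hc) (pow_ne_zero 2 hΔ))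
    rw [mul_comm (c ^ 4), h3, Q4.smul_smul]
    congr 1
    ring
  have hev : (algebraMap O L s' * M.det) ^ 2 = algebraMap O L (G.ev α γ) := by
    have h3 := congrArg Q4.A hsub
    simp only [Q4.smul, Q4.map, Q4.sub] at h3
    rw [hC'.A, hMα, hMγ] at h3
    simp only [Q4.ev, map_add, map_mul, map_pow] at h3 ⊢
    linear_combination -h3
  obtain ⟨z, hz⟩ : ∃ z : O, algebraMap O L z = algebraMap O L s' * M.det := by
    refine sep_int h _ 0 (-(G.ev α γ)) 0 ?_
    rw [map_neg, ← hev, map_zero]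
    ring
  have hz2 : G.ev α γ = z ^ 2 := by
    apply hinj
    rw [← hev, map_pow, hz]
  -- the numerator
  have hX : ¬ ∃ e : O, 2 * s ^ 2 * α ^ 2 - 4 * n * α * γ + G.C * γ ^ 2 + 2 * s * z = γ ^ 2 * e := by
    rintro ⟨e, he⟩
    apply hd
    have hγL : algebraMap O L γ ≠ 0 := by
      rw [map_ne_zero_iff _ hinj]
      rcases hαγ with h3 | h3
      · rw [h3]; exact one_ne_zero
      · exact h3.2.2
    obtain ⟨i, hi⟩ := h2.exists_right_inv
    have hI : 2 * algebraMap O L i = 1 := by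
      have := congrArg (algebraMap O L) hi
      rwa [map_mul, map_one, map_ofNat] at this
    have hdiv : ∀ x : L, x / 2 = x * algebraMap O L i := by
      intro x
      rw [div_eq_iff h2L]
      linear_combination -x * hI
    refine ⟨i ^ 2 * (e - 2 * r - 4 * f.a), ?_⟩
    have e2 := sep_pol h2L (gp (f.map (algebraMap O L)) x₀ y₀) N (algebraMap O L α)
      (algebraMap O L γ)
    rw [hA, hB, hCC, hρ.tau] at e2
    have hne2 : (2 * (c * algebraMap O L γ * N.det) ^ 2) ≠ 0 :=
      mul_ne_zero h2L (pow_ne_zero 2 (mul_ne_zero (mul_ne_zero hc hγL) hΔ))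
    rw [e1, eα, eγ, sep_pol_c, e2, eD, div_add' _ _ _ hne2, eq_div_iff hne2]
    have heL := congrArg (algebraMap O L) he
    have hfa : (f.map (algebraMap O L)).a = algebraMap O L f.a := rfl
    simp only [map_add, map_sub, map_mul, map_pow, map_ofNat, map_neg] at heL ⊢
    rw [hr, hfa]
    simp only [hdiv]
    linear_combination (-c ^ 2 * N.det ^ 2 * algebraMap O L i) * heL +
      (c ^ 2 * N.det ^ 2 * algebraMap O L s) * hz +
      (algebraMap O L i * (algebraMap O L e - 2 * ρ - 4 * algebraMap O L f.a) *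
        (c ^ 2 * algebraMap O L γ ^ 2 * N.det ^ 2) -
      (ρ + 2 * algebraMap O L f.a) * (c ^ 2 * algebraMap O L γ ^ 2 * N.det ^ 2) +
      c ^ 2 * N.det ^ 2 * (algebraMap O L s ^ 2 * algebraMap O L α ^ 2 +
        algebraMap O L s * algebraMap O L z)) * hI
  rcases hαγ with rfl | ⟨rfl, hπγ, hγ0⟩
  · exact absurd ⟨2 * s ^ 2 * α ^ 2 - 4 * n * α + G.C + 2 * s * z, by ring⟩ hX
  have hz3 : s ^ 2 - 4 * n * γ + G.C * γ ^ 2 + G.D * γ ^ 3 + G.E * γ ^ 4 = z ^ 2 := by
    rw [← hz2, Q4.ev, hC.A, hC.B]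
    ring
  have hγ : ¬ γ ∣ s + z := by
    rintro ⟨m, hm⟩
    apply hX
    refine ⟨m ^ 2 - γ * (G.D + G.E * γ), ?_⟩
    linear_combination (s + z + γ * m) * hm + hz3
  have hsz : π ∣ s - z := by
    by_contra h3
    apply hγ
    refine ((sep_unit h h3).dvd_mul_left).1 ?_
    exact ⟨4 * n - G.C * γ - G.D * γ ^ 2 - G.E * γ ^ 3, by linear_combination hz3⟩
  obtain ⟨i, hi⟩ := h2.exists_right_inv
  -- the intermediate quartic
  have hM : M = ((⟨1, 0, γ, 1⟩ : M2 O).map (algebraMap O L)).mul ⟨1, M.β, 0, M.det⟩ := by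
    ext <;> simp only [M2.map, M2.mul, M2.det, map_one, map_zero]
    · rw [hMα, map_one]; ring
    · ring
    · rw [hMγ]; ring
    · rw [hMα, hMγ, map_one]; ring
  have hsub2 := hsub
  rw [hM, ← Q4.sub_mul, ← Q4.map_sub, ← hM] at hsub2
  set G₀ := G.sub ⟨1, 0, γ, 1⟩ with hG₀
  have hG₀A : G₀.A = z ^ 2 := by
    rw [← hz3, hG₀]
    simp only [Q4.sub]
    rw [hC.A, hC.B]
    ring
  have hG₀B : G₀.B = -(4 * (n - i ^ 2 * (γ * (2 * G.C + 3 * G.D * γ + 4 * G.E * γ ^ 2)))) := by
    rw [hG₀]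
    simp only [Q4.sub]
    rw [hC.A, hC.B]
    linear_combination (-(γ * (2 * G.C + 3 * G.D * γ + 4 * G.E * γ ^ 2)) * (2 * i + 1)) * hi
  obtain ⟨b₀, d₀, hb₀, hd₀, hdu⟩ := conv_key (L := L) h h2 z
    (n - i ^ 2 * (γ * (2 * G.C + 3 * G.D * γ + 4 * G.E * γ ^ 2))) G₀.C G₀.D G₀.E s' n' G'.D G'.E
    M.β M.det hδ hz (by
      have h3 := congrArg Q4.B hsub2
      simp only [Q4.smul, Q4.map, Q4.sub] at h3
      rw [hC'.B, hG₀A, hG₀B] at h3
      apply mul_left_cancel₀ (pow_ne_zero 2 h2L)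
      simp only [map_neg, map_mul, map_ofNat, map_pow, map_sub, map_add] at h3 ⊢
      linear_combination h3) (by
      have h3 := congrArg Q4.D hsub2
      simp only [Q4.smul, Q4.map, Q4.sub] at h3
      rw [hG₀A, hG₀B] at h3
      simp only [map_neg, map_mul, map_ofNat, map_pow, map_sub, map_add] at h3 ⊢
      linear_combination -h3) (by
      have h3 := congrArg Q4.E hsub2
      simp only [Q4.smul, Q4.map, Q4.sub] at h3
      rw [hG₀A, hG₀B] at h3
      simp only [map_neg, map_mul, map_ofNat, map_pow, map_sub, map_add] at h3 ⊢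
      linear_combination -h3) (by
      rintro ⟨h3, h4⟩
      apply h.nonunit
      refine hC.cop.isUnit_of_dvd' ?_ ?_
      · have h5 : s = (s - z) + z := by ring
        rw [h5]; exact dvd_add hsz h3
      · have h5 : n = (n - i ^ 2 * (γ * (2 * G.C + 3 * G.D * γ + 4 * G.E * γ ^ 2))) +
            γ * (i ^ 2 * (2 * G.C + 3 * G.D * γ + 4 * G.E * γ ^ 2)) := by ring
        rw [h5]; exact dvd_add h4 (dvd_mul_of_dvd_left hπγ _))
    (fun h3 => h.nonunit (hC'.cop.isUnit_of_dvd' h3.1 h3.2))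
  have hzd : z = s' * d₀ := hinj (by rw [hz, map_mul, hd₀])
  refine ⟨c, ⟨1, b₀, γ, d₀ + b₀ * γ⟩, hc, ?_, ?_, hπγ, ?_⟩
  · have e3 : (⟨1, b₀, γ, d₀ + b₀ * γ⟩ : M2 O).det = d₀ := by
      simp only [M2.det]; ring
    rw [e3]; exact hdu
  · rw [hN']
    congr 2
    ext <;> simp only [M2.map, map_one, map_add, map_mul]
    · rw [hMα, map_one]
    · exact hb₀.symm
    · exact hMγ
    · rw [hd₀, hb₀, M2.det, hMα, hMγ, map_one]; ring
  · have e3 : s * (1 : O) ^ 2 - s' * (⟨1, b₀, γ, d₀ + b₀ * γ⟩ : M2 O).det = s - z := by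
      rw [hzd]
      simp only [M2.det]; ring
    rw [e3]; exact hsz

end Pool.Agent.H456.BQ
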