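import Pool.Agent.H456.BQ.Stm4

/-!
(K18) `S_dsq`. Let `κ = F[X]/(P)`, `R = F[X]/(P²)`. A quartic over the finite field `κ` with zero discriminant has a
rational double root or is of the form `a (u² + b uv + c v²)²` (`dsq_field`). Quartics of the last form: at most `Q³` modulo
`P`, hence `Q⁸` modulo `P²`. If the double root modulo `P` is at infinity, `P ∣ A, B`, then `Δ = -4C³(D² - 4CE)A` in `R`, so
`A = 0`, or `P ∣ C`, or `P ∣ D² - 4CE`: at most `3 Q⁷` quartics (`dsq_T`). The other rational double roots are moved to infinity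
by one of `Q` substitutions. Total: at most `7 Q⁸` (`dsq_abs`).
-/

set_option autoImplicit false
set_option linter.all false

open Polynomial Finset
open Pool.Agent.H456.EC (toK toK_inj sig toK_eq reflect_toK)

namespace Pool.Agent.H456.BQ

/-- the polynomial `g(X, 1)` -/
noncomputable def dsq_qp {K : Type*} [CommRing K] (g : Q4 K) : K[X] :=
  C g.A * X ^ 4 + C g.B * X ^ 3 + C g.C * X ^ 2 + C g.D * X + C g.E

theorem dsq_qp_coeff {K : Type*} [CommRing K] (g : Q4 K) :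
    (dsq_qp g).coeff 4 = g.A ∧ (dsq_qp g).coeff 3 = g.B ∧ (dsq_qp g).coeff 2 = g.C ∧
      (dsq_qp g).coeff 1 = g.D ∧ (dsq_qp g).coeff 0 = g.E := by
  refine ⟨?_, ?_, ?_, ?_, ?_⟩ <;>
    simp [dsq_qp, coeff_X_pow, coeff_X, coeff_C]

theorem dsq_qp_inj {K : Type*} [CommRing K] {g g' : Q4 K} (h : dsq_qp g = dsq_qp g') : g = g' := by
  obtain ⟨a1, a2, a3, a4, a5⟩ := dsq_qp_coeff g
  obtain ⟨b1, b2, b3, b4, b5⟩ := dsq_qp_coeff g'
  rw [h] at a1 a2 a3 a4 a5
  ext
  · rw [← a1, b1]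
  · rw [← a2, b2]
  · rw [← a3, b3]
  · rw [← a4, b4]
  · rw [← a5, b5]

theorem dsq_qp_deg {K : Type*} [CommRing K] (g : Q4 K) : (dsq_qp g).natDegree ≤ 4 := by
  unfold dsq_qp
  compute_degree

/-- a quartic with leading coefficient over an algebraically closed field and zero discriminant has a
double root -/
theorem dsq_dbl4 {L : Type*} [Field L] [IsAlgClosed L] (g : Q4 L) (hA : g.A ≠ 0) (hd : g.res.disc = 0) :
    ∃ x : L, (X - C x) ^ 2 ∣ dsq_qp g := by
  have h0 : dsq_qp g ≠ 0 := by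
    intro h
    apply hA
    rw [← (dsq_qp_coeff g).1, h, coeff_zero]
  have hdeg : (dsq_qp g).natDegree = 4 := by
    apply le_antisymm (dsq_qp_deg g)
    apply le_natDegree_of_ne_zero
    rw [(dsq_qp_coeff g).1]; exact hA
  have hlc : (dsq_qp g).leadingCoeff = g.A := by
    rw [leadingCoeff, hdeg, (dsq_qp_coeff g).1]
  have hs := IsAlgClosed.splits (dsq_qp g)
  have hc := hs.natDegree_eq_card_roots
  have hp := hs.eq_prod_roots
  rw [hdeg] at hc
  rw [hlc] at hp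
  obtain ⟨x1, x2, x3, x4, ht⟩ := Multiset.card_eq_four.1 hc.symm
  rw [ht] at hp
  have hp' : dsq_qp g = C g.A * ((X - C x1) * ((X - C x2) * ((X - C x3) * (X - C x4)))) := by
    rw [hp]; simp
  have hg : g = ⟨g.A, -(g.A * (x1 + x2 + x3 + x4)),
      g.A * (x1 * x2 + x1 * x3 + x1 * x4 + x2 * x3 + x2 * x4 + x3 * x4),
      -(g.A * (x1 * x2 * x3 + x1 * x2 * x4 + x1 * x3 * x4 + x2 * x3 * x4)), g.A * (x1 * x2 * x3 * x4)⟩ := by
    apply dsq_qp_inj
    rw [hp']
    simp only [dsq_qp, C_mul, C_add, C_neg]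
    ring
  have hdisc : g.res.disc = g.A ^ 6 * ((x1 - x2) ^ 2 * (x1 - x3) ^ 2 * (x1 - x4) ^ 2 * (x2 - x3) ^ 2 *
      (x2 - x4) ^ 2 * (x3 - x4) ^ 2) := by
    rw [hg]
    simp only [Q4.res, Cub.disc]
    ring
  rw [hd] at hdisc
  have h1 := (mul_eq_zero.1 hdisc.symm).resolve_left (pow_ne_zero _ hA)
  simp only [mul_eq_zero, pow_eq_zero_iff (two_ne_zero), sub_eq_zero] at h1
  rw [hp']
  rcases h1 with ((((h | h) | h) | h) | h) | h <;> subst h
  · exact ⟨x1, ⟨C g.A * ((X - C x3) * (X - C x4)), by ring⟩⟩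
  · exact ⟨x1, ⟨C g.A * ((X - C x2) * (X - C x4)), by ring⟩⟩
  · exact ⟨x1, ⟨C g.A * ((X - C x2) * (X - C x3)), by ring⟩⟩
  · exact ⟨x2, ⟨C g.A * ((X - C x1) * (X - C x4)), by ring⟩⟩
  · exact ⟨x2, ⟨C g.A * ((X - C x1) * (X - C x3)), by ring⟩⟩
  · exact ⟨x3, ⟨C g.A * ((X - C x1) * (X - C x2)), by ring⟩⟩

/-- the same for cubics -/
theorem dsq_dbl3 {L : Type*} [Field L] [IsAlgClosed L] (g : Q4 L) (hA : g.A = 0) (hB : g.B ≠ 0)
    (hd : g.res.disc = 0) : ∃ x : L, (X - C x) ^ 2 ∣ dsq_qp g := by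
  have hdeg : (dsq_qp g).natDegree = 3 := by
    apply le_antisymm
    · have : dsq_qp g = C g.B * X ^ 3 + C g.C * X ^ 2 + C g.D * X + C g.E := by
        simp only [dsq_qp, hA, C_0]; ring
      rw [this]
      compute_degree
    · apply le_natDegree_of_ne_zero
      rw [(dsq_qp_coeff g).2.1]; exact hB
  have hlc : (dsq_qp g).leadingCoeff = g.B := by
    rw [leadingCoeff, hdeg, (dsq_qp_coeff g).2.1]
  have hs := IsAlgClosed.splits (dsq_qp g)
  have hc := hs.natDegree_eq_card_roots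
  have hp := hs.eq_prod_roots
  rw [hdeg] at hc
  rw [hlc] at hp
  obtain ⟨x2, x3, x4, ht⟩ := Multiset.card_eq_three.1 hc.symm
  rw [ht] at hp
  have hp' : dsq_qp g = C g.B * ((X - C x2) * ((X - C x3) * (X - C x4))) := by
    rw [hp]; simp
  have hg : g = ⟨0, g.B, -(g.B * (x2 + x3 + x4)), g.B * (x2 * x3 + x2 * x4 + x3 * x4),
      -(g.B * (x2 * x3 * x4))⟩ := by
    apply dsq_qp_inj
    rw [hp']
    simp only [dsq_qp, C_mul, C_add, C_neg, C_0]
    ring
  have hdisc : g.res.disc = g.B ^ 6 * ((x2 - x3) ^ 2 * (x2 - x4) ^ 2 * (x3 - x4) ^ 2) := by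
    rw [hg]
    simp only [Q4.res, Cub.disc]
    ring
  rw [hd] at hdisc
  have h1 := (mul_eq_zero.1 hdisc.symm).resolve_left (pow_ne_zero _ hB)
  simp only [mul_eq_zero, pow_eq_zero_iff (two_ne_zero), sub_eq_zero] at h1
  rw [hp']
  rcases h1 with (h | h) | h <;> subst h
  · exact ⟨x2, ⟨C g.B * (X - C x4), by ring⟩⟩
  · exact ⟨x2, ⟨C g.B * (X - C x3), by ring⟩⟩
  · exact ⟨x3, ⟨C g.B * (X - C x2), by ring⟩⟩

/-- the square of the minimal polynomial of a double root -/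
theorem dsq_minpoly {κ L : Type*} [Field κ] [PerfectField κ] [Field L] [Algebra κ L]
    [Algebra.IsAlgebraic κ L] (f : κ[X]) (x : L) (hf : f ≠ 0) (h : (X - C x) ^ 2 ∣ f.map (algebraMap κ L)) :
    (minpoly κ x) ^ 2 ∣ f := by
  have hint : IsIntegral κ x := (Algebra.IsAlgebraic.isAlgebraic (R := κ) x).isIntegral
  have hirr := minpoly.irreducible hint
  have hsep : (minpoly κ x).Separable := PerfectField.separable_of_irreducible hirr
  obtain ⟨k, hk⟩ := h
  have hfx : aeval x f = 0 := by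
    rw [aeval_def, ← eval_map, hk]; simp
  obtain ⟨h1, hh1⟩ := minpoly.dvd κ x hfx
  have hder : aeval x (derivative f) = 0 := by
    rw [aeval_def, ← eval_map, ← derivative_map, hk, derivative_mul]
    simp [pow_two]
  have hm0 : aeval x (minpoly κ x) = 0 := minpoly.aeval κ x
  have hmd : aeval x (derivative (minpoly κ x)) ≠ 0 := by
    obtain ⟨a, b, hab⟩ := hsep
    intro h0
    have h2 := congrArg (aeval x) hab
    simp only [map_add, map_mul, hm0, h0, mul_zero, add_zero, map_one] at h2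
    exact zero_ne_one h2
  rw [hh1, derivative_mul, map_add, map_mul, map_mul, hm0, zero_mul, add_zero] at hder
  have h3 : aeval x h1 = 0 := (mul_eq_zero.1 hder).resolve_left hmd
  obtain ⟨h2, hh2⟩ := minpoly.dvd κ x h3
  exact ⟨h2, by rw [hh1, pow_two, mul_assoc, ← hh2]⟩

/-- quartics with zero discriminant over a perfect field -/
theorem dsq_field {κ : Type*} [Field κ] [PerfectField κ] (g : Q4 κ) (hd : g.res.disc = 0) :
    (g.A = 0 ∧ g.B = 0) ∨ (∃ x : κ, (g.sub ⟨x, 1, 1, 0⟩).A = 0 ∧ (g.sub ⟨x, 1, 1, 0⟩).B = 0) ∨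
      ∃ a b c : κ, g = ⟨a, 2 * a * b, a * (b ^ 2 + 2 * c), 2 * a * b * c, a * c ^ 2⟩ := by
  by_cases hAB : g.A = 0 ∧ g.B = 0
  · exact Or.inl hAB
  right
  have h0 : dsq_qp g ≠ 0 := by
    intro h
    apply hAB
    rw [← (dsq_qp_coeff g).1, ← (dsq_qp_coeff g).2.1, h, coeff_zero, coeff_zero]
    exact ⟨rfl, rfl⟩
  have hmap : (dsq_qp g).map (algebraMap κ (AlgebraicClosure κ)) = dsq_qp (g.map (algebraMap κ (AlgebraicClosure κ))) := by
    simp [dsq_qp, Q4.map]
  have hd' : (g.map (algebraMap κ (AlgebraicClosure κ))).res.disc = 0 := by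
    rw [Q4.map_res, Cub.map_disc, hd, map_zero]
  obtain ⟨x, hx⟩ : ∃ x : AlgebraicClosure κ, (X - C x) ^ 2 ∣ (dsq_qp g).map (algebraMap κ (AlgebraicClosure κ)) := by
    rw [hmap]
    by_cases hA : g.A = 0
    · have hB : g.B ≠ 0 := fun h => hAB ⟨hA, h⟩
      refine dsq_dbl3 _ ?_ ?_ hd'
      · simp [Q4.map, hA]
      · simpa [Q4.map] using hB
    · refine dsq_dbl4 _ ?_ hd'
      simpa [Q4.map] using hA
  have hint : IsIntegral κ x := (Algebra.IsAlgebraic.isAlgebraic (R := κ) x).isIntegral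
  have hm := minpoly.monic hint
  obtain ⟨k, hk⟩ := dsq_minpoly _ x h0 hx
  have hk0 : k ≠ 0 := by
    rintro rfl
    rw [mul_zero] at hk
    exact h0 hk
  have hdg : (dsq_qp g).natDegree = 2 * (minpoly κ x).natDegree + k.natDegree := by
    rw [hk, natDegree_mul (pow_ne_zero _ hm.ne_zero) hk0, hm.natDegree_pow]
  have hle := dsq_qp_deg g
  have hpos := minpoly.natDegree_pos hint
  have hm2 : (minpoly κ x).natDegree = 1 ∨ (minpoly κ x).natDegree = 2 := by omega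
  rcases hm2 with hm1 | hm2
  · left
    have h1 := hm.eq_X_add_C hm1
    set c := (minpoly κ x).coeff 0 with hc
    have h2 : dsq_qp g = (X + C c) ^ 2 * k := by rw [hk, h1]
    refine ⟨-c, ?_, ?_⟩
    · have h3 := congrArg (eval (-c)) h2
      simp only [dsq_qp, eval_add, eval_mul, eval_pow, eval_X, eval_C] at h3
      simp only [Q4.sub]
      linear_combination h3
    · have h3 := congrArg (fun p => eval (-c) (derivative p)) h2
      simp only [dsq_qp, derivative_add, derivative_mul, derivative_pow, derivative_C, derivative_X, eval_add,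
        eval_mul, eval_pow, eval_X, eval_C] at h3
      simp at h3
      simp only [Q4.sub]
      linear_combination h3
  · right
    have hkd : k.natDegree = 0 := by omega
    obtain ⟨a, rfl⟩ : ∃ a, k = C a := ⟨_, eq_C_of_natDegree_eq_zero hkd⟩
    have h1 := eq_quadratic_of_degree_le_two (p := minpoly κ x) (by
      rw [degree_eq_natDegree hm.ne_zero, hm2]; exact le_refl _)
    have h2 : (minpoly κ x).coeff 2 = 1 := by
      have := hm.coeff_natDegree
      rwa [hm2] at this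
    rw [h2, C_1, one_mul] at h1
    set b := (minpoly κ x).coeff 1
    set c := (minpoly κ x).coeff 0
    refine ⟨a, b, c, ?_⟩
    apply dsq_qp_inj
    rw [hk, h1]
    simp only [dsq_qp, C_mul, C_add, C_pow, map_ofNat]
    ring

section cnt

variable {R κ : Type} [CommRing R] [Finite R] [Field κ] [Finite κ]

theorem dsq_finQ4 : Finite (Q4 R) := Finite.of_equiv _ (Q4.equiv R).symm

/-- the quartics with a double root at infinity modulo the maximal ideal and discriminant zero -/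
def dsqT (ρ : R →+* κ) : Set (Q4 R) := {g | g.res.disc = 0 ∧ ρ g.A = 0 ∧ ρ g.B = 0}

theorem dsq_discAB (A B C D E : R) : (⟨A, B, C, D, E⟩ : Q4 R).res.disc =
    -(4 * C ^ 3 * (D ^ 2 - 4 * C * E)) * A +
      (A * A) * (256 * A * E ^ 3 - 192 * B * D * E ^ 2 - 128 * C ^ 2 * E ^ 2 + 144 * C * D ^ 2 * E - 27 * D ^ 4) +
      (A * B) * (144 * B * C * E ^ 2 - 6 * B * D ^ 2 * E - 80 * C ^ 2 * D * E + 18 * C * D ^ 3) +
      (B * B) * (-27 * B ^ 2 * E ^ 2 + 18 * B * C * D * E - 4 * B * D ^ 3 - 4 * C ^ 3 * E + C ^ 2 * D ^ 2) := by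
  simp only [Q4.res, Cub.disc]
  ring

theorem dsq_unit (ρ : R →+* κ) (hρ : Function.Surjective ρ) (hnil : ∀ x y, ρ x = 0 → ρ y = 0 → x * y = 0)
    (x : R) (hx : ρ x ≠ 0) : IsUnit x := by
  obtain ⟨y, hy⟩ := hρ (ρ x)⁻¹
  have h1 : ρ (x * y - 1) = 0 := by
    rw [map_sub, map_mul, hy, mul_inv_cancel₀ hx, map_one, sub_self]
  have h2 := hnil _ _ h1 h1
  apply IsUnit.of_mul_eq_one (y * (2 - x * y))
  linear_combination -h2

theorem dsq_T (ρ : R →+* κ) (hρ : Function.Surjective ρ) (hnil : ∀ x y, ρ x = 0 → ρ y = 0 → x * y = 0)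
    (h2 : (2 : κ) ≠ 0) (Q : ℕ) (hK : {x : R | ρ x = 0}.ncard ≤ Q) (hR : Nat.card R ≤ Q ^ 2) :
    (dsqT ρ).ncard ≤ 3 * Q ^ 7 := by
  haveI : Finite (Q4 R) := dsq_finQ4
  set K : Set R := {x : R | ρ x = 0} with hKdef
  have hU : (Set.univ : Set R).ncard ≤ Q ^ 2 := by rw [Set.ncard_univ]; exact hR
  have b1 : {g : Q4 R | g.A = 0 ∧ ρ g.B = 0}.ncard ≤ Q ^ 7 := by
    have h := Set.ncard_le_ncard_of_injOn (s := {g : Q4 R | g.A = 0 ∧ ρ g.B = 0})
      (t := K ×ˢ (Set.univ : Set R) ×ˢ (Set.univ : Set R) ×ˢ (Set.univ : Set R))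
      (fun g => (g.B, g.C, g.D, g.E)) (fun g hg => by
        simp only [Set.mem_prod, Set.mem_univ, and_true]; exact hg.2) (by
        intro g hg g' hg' h
        simp only [Prod.mk.injEq] at h
        obtain ⟨h1, h2, h3, h4⟩ := h
        ext
        · rw [hg.1, hg'.1]
        · exact h1
        · exact h2
        · exact h3
        · exact h4) (Set.toFinite _)
    refine h.trans ?_
    rw [Set.ncard_prod, Set.ncard_prod, Set.ncard_prod]
    calc K.ncard * ((Set.univ : Set R).ncard * ((Set.univ : Set R).ncard * (Set.univ : Set R).ncard))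
        ≤ Q * (Q ^ 2 * (Q ^ 2 * Q ^ 2)) := by gcongr
      _ = Q ^ 7 := by ring
  have b2 : {g : Q4 R | ρ g.A = 0 ∧ ρ g.B = 0 ∧ ρ g.C = 0}.ncard ≤ Q ^ 7 := by
    have h := Set.ncard_le_ncard_of_injOn (s := {g : Q4 R | ρ g.A = 0 ∧ ρ g.B = 0 ∧ ρ g.C = 0})
      (t := K ×ˢ K ×ˢ K ×ˢ (Set.univ : Set R) ×ˢ (Set.univ : Set R))
      (fun g => (g.A, g.B, g.C, g.D, g.E)) (fun g hg => by
        simp only [Set.mem_prod, Set.mem_univ, and_true]; exact hg) (by
        intro g hg g' hg' h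
        simp only [Prod.mk.injEq] at h
        obtain ⟨h0, h1, h2, h3, h4⟩ := h
        ext
        · exact h0
        · exact h1
        · exact h2
        · exact h3
        · exact h4) (Set.toFinite _)
    refine h.trans ?_
    rw [Set.ncard_prod, Set.ncard_prod, Set.ncard_prod, Set.ncard_prod]
    calc K.ncard * (K.ncard * (K.ncard * ((Set.univ : Set R).ncard * (Set.univ : Set R).ncard)))
        ≤ Q * (Q * (Q * (Q ^ 2 * Q ^ 2))) := by gcongr
      _ = Q ^ 7 := by ring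
  have b3 : {g : Q4 R | ρ g.A = 0 ∧ ρ g.B = 0 ∧ ρ g.C ≠ 0 ∧ ρ (g.D ^ 2 - 4 * g.C * g.E) = 0}.ncard ≤ Q ^ 7 := by
    choose s hs using hρ
    have h4 : (4 : κ) ≠ 0 := by
      have : (4 : κ) = 2 * 2 := by norm_num
      rw [this]; exact mul_ne_zero h2 h2
    have h := Set.ncard_le_ncard_of_injOn
      (s := {g : Q4 R | ρ g.A = 0 ∧ ρ g.B = 0 ∧ ρ g.C ≠ 0 ∧ ρ (g.D ^ 2 - 4 * g.C * g.E) = 0})
      (t := K ×ˢ K ×ˢ K ×ˢ (Set.univ : Set R) ×ˢ (Set.univ : Set R))
      (fun g => (g.A, g.B, g.E - s (ρ g.D ^ 2 / (4 * ρ g.C)), g.C, g.D)) (fun g hg => by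
        simp only [Set.mem_prod, Set.mem_univ, and_true]
        refine ⟨hg.1, hg.2.1, ?_⟩
        have h5 := hg.2.2.2
        have h6 := hg.2.2.1
        show ρ (g.E - s (ρ g.D ^ 2 / (4 * ρ g.C))) = 0
        rw [map_sub, hs]
        simp only [map_sub, map_mul, map_pow, map_ofNat] at h5
        rw [sub_eq_zero, eq_div_iff (mul_ne_zero h4 h6)]
        linear_combination -h5) (by
        intro g hg g' hg' h
        simp only [Prod.mk.injEq] at h
        obtain ⟨h0, h1, h2, h3, h4⟩ := h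
        ext
        · exact h0
        · exact h1
        · exact h3
        · exact h4
        · rw [h3, h4] at h2
          exact sub_left_inj.1 h2) (Set.toFinite _)
    refine h.trans ?_
    rw [Set.ncard_prod, Set.ncard_prod, Set.ncard_prod, Set.ncard_prod]
    calc K.ncard * (K.ncard * (K.ncard * ((Set.univ : Set R).ncard * (Set.univ : Set R).ncard)))
        ≤ Q * (Q * (Q * (Q ^ 2 * Q ^ 2))) := by gcongr
      _ = Q ^ 7 := by ring
  have hsub : dsqT ρ ⊆ ({g : Q4 R | g.A = 0 ∧ ρ g.B = 0} ∪ {g : Q4 R | ρ g.A = 0 ∧ ρ g.B = 0 ∧ ρ g.C = 0}) ∪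
      {g : Q4 R | ρ g.A = 0 ∧ ρ g.B = 0 ∧ ρ g.C ≠ 0 ∧ ρ (g.D ^ 2 - 4 * g.C * g.E) = 0} := by
    rintro g ⟨hd, hA, hB⟩
    by_cases hC : ρ g.C = 0
    · exact Or.inl (Or.inr ⟨hA, hB, hC⟩)
    by_cases hE : ρ (g.D ^ 2 - 4 * g.C * g.E) = 0
    · exact Or.inr ⟨hA, hB, hC, hE⟩
    refine Or.inl (Or.inl ⟨?_, hB⟩)
    have h4 : ρ (4 : R) ≠ 0 := by
      have : (4 : κ) = 2 * 2 := by norm_num
      rw [map_ofNat, this]; exact mul_ne_zero h2 h2
    have hu : IsUnit (4 * g.C ^ 3 * (g.D ^ 2 - 4 * g.C * g.E)) := by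
      apply dsq_unit ρ hρ hnil
      rw [map_mul, map_mul, map_pow]
      exact mul_ne_zero (mul_ne_zero h4 (pow_ne_zero _ hC)) hE
    have h5 := dsq_discAB g.A g.B g.C g.D g.E
    have h6 : (⟨g.A, g.B, g.C, g.D, g.E⟩ : Q4 R).res.disc = 0 := hd
    rw [h6, hnil _ _ hA hA, hnil _ _ hA hB, hnil _ _ hB hB] at h5
    apply hu.mul_right_eq_zero.1
    linear_combination h5
  calc (dsqT ρ).ncard ≤ _ := Set.ncard_le_ncard hsub (Set.toFinite _)
    _ ≤ _ := Set.ncard_union_le _ _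
    _ ≤ (Q ^ 7 + Q ^ 7) + Q ^ 7 := by
      gcongr
      exact (Set.ncard_union_le _ _).trans (by gcongr)
    _ = 3 * Q ^ 7 := by ring

theorem dsq_abs (ρ : R →+* κ) (hρ : Function.Surjective ρ) (hnil : ∀ x y, ρ x = 0 → ρ y = 0 → x * y = 0)
    (h2 : (2 : κ) ≠ 0) (Q : ℕ) (hQ : Nat.card κ = Q) (hK : {x : R | ρ x = 0}.ncard ≤ Q)
    (hR : Nat.card R ≤ Q ^ 2) : {g : Q4 R | g.res.disc = 0}.ncard ≤ 7 * Q ^ 8 := by
  haveI : Finite (Q4 R) := dsq_finQ4
  have hT := dsq_T ρ hρ hnil h2 Q hK hR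
  set K : Set R := {x : R | ρ x = 0} with hKdef
  choose s hs using hρ
  have hQ1 : 1 ≤ Q := by rw [← hQ]; exact Nat.card_pos
  have hUκ : (Set.univ : Set κ).ncard = Q := by rw [Set.ncard_univ]; exact hQ
  -- the substitution
  set M : κ → M2 R := fun x => ⟨s x, 1, 1, 0⟩ with hM
  have hinj : ∀ x, Function.Injective fun g : Q4 R => g.sub (M x) := by
    intro x g g' h
    have h1 := congrArg (fun g : Q4 R => g.sub (M x).adj) h
    simp only [Q4.sub_mul, M2.mul_adj, Q4.sub_scalar] at h1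
    have hdet : (M x).det ^ 4 = 1 := by simp only [hM, M2.det]; ring
    rwa [hdet, Q4.smul_one, Q4.smul_one] at h1
  have b2 : {g : Q4 R | ∃ x : κ, g.sub (M x) ∈ dsqT ρ}.ncard ≤ 3 * Q ^ 8 := by
    classical
    have h := Set.ncard_le_ncard_of_injOn (s := {g : Q4 R | ∃ x : κ, g.sub (M x) ∈ dsqT ρ})
      (t := (Set.univ : Set κ) ×ˢ dsqT ρ)
      (fun g => if h : ∃ x : κ, g.sub (M x) ∈ dsqT ρ then (h.choose, g.sub (M h.choose)) else (0, g)) (by
        intro g hg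
        have hg' : ∃ x : κ, g.sub (M x) ∈ dsqT ρ := hg
        rw [dif_pos hg']
        exact ⟨Set.mem_univ _, hg'.choose_spec⟩) (by
        intro g hg g' hg' h
        have h1 : ∃ x : κ, g.sub (M x) ∈ dsqT ρ := hg
        have h2 : ∃ x : κ, g'.sub (M x) ∈ dsqT ρ := hg'
        simp only [dif_pos h1, dif_pos h2, Prod.mk.injEq] at h
        obtain ⟨h3, h4⟩ := h
        rw [h3] at h4
        exact hinj _ h4) (Set.toFinite _)
    refine h.trans ?_
    rw [Set.ncard_prod, hUκ]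
    calc Q * (dsqT ρ).ncard ≤ Q * (3 * Q ^ 7) := by gcongr
      _ = 3 * Q ^ 8 := by ring
  have b3 : {g : Q4 R | ∃ t : κ × κ × κ, g.map ρ = ⟨t.1, 2 * t.1 * t.2.1, t.1 * (t.2.1 ^ 2 + 2 * t.2.2),
      2 * t.1 * t.2.1 * t.2.2, t.1 * t.2.2 ^ 2⟩}.ncard ≤ Q ^ 8 := by
    classical
    set φ : κ × κ × κ → Q4 κ := fun t => ⟨t.1, 2 * t.1 * t.2.1, t.1 * (t.2.1 ^ 2 + 2 * t.2.2),
      2 * t.1 * t.2.1 * t.2.2, t.1 * t.2.2 ^ 2⟩ with hφ
    have hdiff : ∀ x : R, x - s (ρ x) ∈ K := fun x => by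
      show ρ (x - s (ρ x)) = 0
      rw [map_sub, hs, sub_self]
    have h := Set.ncard_le_ncard_of_injOn (s := {g : Q4 R | ∃ t : κ × κ × κ, g.map ρ = φ t})
      (t := (Set.univ : Set κ) ×ˢ (Set.univ : Set κ) ×ˢ (Set.univ : Set κ) ×ˢ K ×ˢ K ×ˢ K ×ˢ K ×ˢ K)
      (fun g => if h : ∃ t : κ × κ × κ, g.map ρ = φ t then (h.choose.1, h.choose.2.1, h.choose.2.2,
        g.A - s (ρ g.A), g.B - s (ρ g.B), g.C - s (ρ g.C), g.D - s (ρ g.D), g.E - s (ρ g.E))
        else (0, 0, 0, 0, 0, 0, 0, 0)) (by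
        intro g hg
        have hg' : ∃ t : κ × κ × κ, g.map ρ = φ t := hg
        rw [dif_pos hg']
        exact ⟨Set.mem_univ _, Set.mem_univ _, Set.mem_univ _, hdiff _, hdiff _, hdiff _, hdiff _, hdiff _⟩) (by
        intro g hg g' hg' h
        have h1 : ∃ t : κ × κ × κ, g.map ρ = φ t := hg
        have h2 : ∃ t : κ × κ × κ, g'.map ρ = φ t := hg'
        simp only [dif_pos h1, dif_pos h2, Prod.mk.injEq] at h
        obtain ⟨h3, h4, h5, h6, h7, h8, h9, h10⟩ := h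
        have h11 : h1.choose = h2.choose := Prod.ext h3 (Prod.ext h4 h5)
        have h12 : g.map ρ = g'.map ρ := by rw [h1.choose_spec, h2.choose_spec, h11]
        have eA : ρ g.A = ρ g'.A := congrArg Q4.A h12
        have eB : ρ g.B = ρ g'.B := congrArg Q4.B h12
        have eC : ρ g.C = ρ g'.C := congrArg Q4.C h12
        have eD : ρ g.D = ρ g'.D := congrArg Q4.D h12
        have eE : ρ g.E = ρ g'.E := congrArg Q4.E h12
        rw [eA] at h6
        rw [eB] at h7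
        rw [eC] at h8
        rw [eD] at h9
        rw [eE] at h10
        ext
        · exact sub_left_inj.1 h6
        · exact sub_left_inj.1 h7
        · exact sub_left_inj.1 h8
        · exact sub_left_inj.1 h9
        · exact sub_left_inj.1 h10) (Set.toFinite _)
    refine h.trans ?_
    rw [Set.ncard_prod, Set.ncard_prod, Set.ncard_prod, Set.ncard_prod, Set.ncard_prod, Set.ncard_prod,
      Set.ncard_prod, hUκ]
    calc Q * (Q * (Q * (K.ncard * (K.ncard * (K.ncard * (K.ncard * K.ncard))))))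
        ≤ Q * (Q * (Q * (Q * (Q * (Q * (Q * Q)))))) := by gcongr
      _ = Q ^ 8 := by ring
  have hsub : {g : Q4 R | g.res.disc = 0} ⊆ (dsqT ρ ∪ {g : Q4 R | ∃ x : κ, g.sub (M x) ∈ dsqT ρ}) ∪
      {g : Q4 R | ∃ t : κ × κ × κ, g.map ρ = ⟨t.1, 2 * t.1 * t.2.1, t.1 * (t.2.1 ^ 2 + 2 * t.2.2),
      2 * t.1 * t.2.1 * t.2.2, t.1 * t.2.2 ^ 2⟩} := by
    intro g hg
    have hg0 : g.res.disc = 0 := hg
    have h1 : (g.map ρ).res.disc = 0 := by
      rw [Q4.map_res, Cub.map_disc, hg0, map_zero]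
    rcases dsq_field _ h1 with h | ⟨x, hx⟩ | ⟨a, b, c, h⟩
    · exact Or.inl (Or.inl ⟨hg0, h⟩)
    · refine Or.inl (Or.inr ⟨x, ?_, ?_⟩)
      · rw [Q4.res_sub, Cub.disc_tr, Cub.disc_sc, hg0, mul_zero]
      · have h3 : (M x).map ρ = ⟨x, 1, 1, 0⟩ := by
          simp only [hM, M2.map, hs, map_one, map_zero]
        rw [← h3, ← Q4.map_sub] at hx
        exact hx
    · exact Or.inr ⟨(a, b, c), h⟩
  calc {g : Q4 R | g.res.disc = 0}.ncard ≤ _ := Set.ncard_le_ncard hsub (Set.toFinite _)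
    _ ≤ _ := Set.ncard_union_le _ _
    _ ≤ (3 * Q ^ 8 + 3 * Q ^ 8) + Q ^ 8 := by
      gcongr
      refine (Set.ncard_union_le _ _).trans ?_
      gcongr
      exact hT.trans (by gcongr; omega)
    _ = 7 * Q ^ 8 := by ring

end cnt

theorem dsq_cardRq {F : Type} [Field F] [Fintype F] {m : F[X]} (hm : m.Monic) :
    Nat.card (Rq m) = Fintype.card F ^ m.natDegree := by
  have h1 : Module.Finite F (AdjoinRoot m) := (AdjoinRoot.powerBasis' hm).finite
  have h2 := Module.natCard_eq_pow_finrank (K := F) (V := AdjoinRoot m)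
  rw [(AdjoinRoot.powerBasis' hm).finrank, AdjoinRoot.powerBasis'_dim, Nat.card_eq_fintype_card (α := F)] at h2
  exact h2

theorem t_dsq : S_dsq := by
  intro F _ _ h2
  refine ⟨7, fun P => ?_⟩
  haveI hmax : (Ideal.span {P.1} : Ideal F[X]).IsMaximal :=
    PrincipalIdealRing.isMaximal_of_irreducible P.2.2
  letI : Field (Rq P.1) := Ideal.Quotient.field _
  haveI : Finite (Rq P.1) := finite_Rq P.2.1
  haveI : Finite (Rq (P.1 ^ 2)) := finite_Rq (P.2.1.pow 2)
  have hle : (Ideal.span {P.1 ^ 2} : Ideal F[X]) ≤ Ideal.span {P.1} := by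
    rw [Ideal.span_singleton_le_span_singleton]
    exact dvd_pow_self _ two_ne_zero
  set ρ : Rq (P.1 ^ 2) →+* Rq P.1 := Ideal.Quotient.factor hle with hρ
  have hρmk : ∀ a : F[X], ρ (Ideal.Quotient.mk _ a) = Ideal.Quotient.mk _ a := fun a => rfl
  have hsurj : Function.Surjective ρ := by
    intro y
    obtain ⟨a, rfl⟩ := Ideal.Quotient.mk_surjective y
    exact ⟨Ideal.Quotient.mk _ a, rfl⟩
  have hnil : ∀ x y, ρ x = 0 → ρ y = 0 → x * y = 0 := by
    intro x y hx hy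
    obtain ⟨a, rfl⟩ := Ideal.Quotient.mk_surjective x
    obtain ⟨b, rfl⟩ := Ideal.Quotient.mk_surjective y
    rw [hρmk, mk_zero] at hx hy
    rw [← map_mul, mk_zero, pow_two]
    exact mul_dvd_mul hx hy
  have h2' : (2 : Rq P.1) ≠ 0 := by
    have h3 : (2 : Rq P.1) = Ideal.Quotient.mk _ (C (2 : F)) := by
      rw [C_ofNat, map_ofNat]
    rw [h3, Ne, mk_zero]
    intro h4
    have h5 : IsUnit (C (2 : F)) := isUnit_C.2 (IsUnit.mk0 _ h2)
    exact P.2.2.not_isUnit (isUnit_of_dvd_unit h4 h5)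
  have hcard : Nat.card (Rq P.1) = Fintype.card F ^ P.1.natDegree := dsq_cardRq P.2.1
  have hcard2 : Nat.card (Rq (P.1 ^ 2)) ≤ (Fintype.card F ^ P.1.natDegree) ^ 2 := by
    rw [dsq_cardRq (P.2.1.pow 2), P.2.1.natDegree_pow, ← pow_mul]
    apply le_of_eq
    congr 1
    ring
  have hK : {x : Rq (P.1 ^ 2) | ρ x = 0}.ncard ≤ Fintype.card F ^ P.1.natDegree := by
    rw [← hcard]
    choose lf hlf using (Ideal.Quotient.mk_surjective (I := Ideal.span {P.1}))
    have hs : {x : Rq (P.1 ^ 2) | ρ x = 0} ⊆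
        (fun t : Rq P.1 => (Ideal.Quotient.mk (Ideal.span {P.1 ^ 2}) (P.1 * lf t) : Rq (P.1 ^ 2))) '' Set.univ := by
      intro x hx
      obtain ⟨a, rfl⟩ := Ideal.Quotient.mk_surjective x
      have hx' : ρ (Ideal.Quotient.mk _ a) = 0 := hx
      rw [hρmk, mk_zero] at hx'
      obtain ⟨b, rfl⟩ := hx'
      refine ⟨Ideal.Quotient.mk _ b, Set.mem_univ _, ?_⟩
      show (Ideal.Quotient.mk (Ideal.span {P.1 ^ 2}) (P.1 * lf (Ideal.Quotient.mk _ b)) : Rq (P.1 ^ 2)) =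
        Ideal.Quotient.mk _ (P.1 * b)
      rw [mk_eq, ← mul_sub, pow_two]
      exact mul_dvd_mul_left _ (mk_eq.1 (hlf _))
    refine (Set.ncard_le_ncard hs (Set.toFinite _)).trans ((Set.ncard_image_le (Set.toFinite _)).trans ?_)
    rw [Set.ncard_univ]
  have h := dsq_abs ρ hsurj hnil h2' _ hcard hK hcard2
  exact_mod_cast h

end Pool.Agent.H456.BQ
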