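import Pool.Agent.H456.BQ.Stm6
import Pool.Agent.H456.BQ.Bad
import Pool.Agent.H456.BQ.T_locI

/-!
(M6) `S_els` from `S_lang`, `S_node`, `S_hens` (Stm4.lean). Finite places: for `P ∈ S` apply `S_hens` to the hypothesis. For `P ∉ S`: `P² ∤ G.res.disc`; if `P ∣ G.res.disc` use `S_node`, otherwise `S_lang` over the field
`Rq (P^1)` (`isField_Rq` in Bad.lean, `two_ne_Rq`): the discriminant of the resolvent of the reduction is the reduction of
`G.res.disc` (`Q4.map_res`, `Cub.map_disc`), nonzero. Then `S_hens`. Infinity: `S_hens` for the place `PlX F` (its polynomial is `X`) and `revV n e G` gives `LS (PlX F) ((revV n e G).map (toK F))`. By `revV_map` (Stm3.lean)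
`(revV n e G).map (sig F) = ((G.map (toK F)).sub ⟨1, 0, 0, tt F (-e)⟩).smul (tt F (2e - 2n))`; apply `locI_tau F`:
`(revV n e G).map (toK F) = (((G.map toK).map τ).sub ⟨1, 0, 0, tt F e⟩).smul (tt F (2n - 2e))`, hence `((revV n e G).map toK).sub ⟨1,0,0,tt F (-e)⟩ = ((G.map toK).map τ).smul (c²)` with `c = tt F (n - e)`,
and `LS.of_sub` (SDef.lean) gives `LS (PlX F) ((G.map toK).map τ) = LSI (G.map toK)`.
-/

set_option autoImplicit false
set_option linter.all false

open Polynomial Finset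
open Pool.Agent.H456.EC (toK toK_inj sig toK_eq reflect_toK)

namespace Pool.Agent.H456.BQ

theorem els_lang (hlang : S_lang) (κ : Type) [CommRing κ] [Fintype κ] (hκ : IsField κ) (h2 : (2 : κ) ≠ 0)
    (g : Q4 κ) (hg : g.res.disc ≠ 0) : 1 ≤ g.sp := by
  letI := hκ.toField
  exact hlang κ h2 g hg

section els

variable {F : Type} [Field F]

theorem els_map_tau (G : Q4 F[X]) : (G.map (sig F)).map (locI_tau F) = G.map (toK F) := by
  ext <;> simp only [Q4.map, locI_tau_sig]

theorem els_tt_mul (k l : ℤ) : tt F k * tt F l = tt F (k + l) := (tt_add k l).symm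

theorem els_inf {n e : ℕ} (he : e ≤ n) {G : Q4 F[X]} (hG : BdN n e G)
    (h : LS (PlX F) ((revV n e G).map (toK F))) : LSI (G.map (toK F)) := by
  unfold LSI
  set g := (G.map (toK F)).map (locI_tau F) with hg
  have h1 := congrArg (fun q => q.map (locI_tau F)) (revV_map he hG)
  simp only [els_map_tau, Q4.map_smul, Q4.map_sub, locI_tau_tt] at h1
  have h2 : (⟨1, 0, 0, tt F (-(e : ℤ))⟩ : M2 (RatFunc F)).map (locI_tau F) = ⟨1, 0, 0, tt F (e : ℤ)⟩ := by
    ext <;> simp only [M2.map, map_one, map_zero, locI_tau_tt, neg_neg]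
  rw [h2, ← hg] at h1
  have h3 : (⟨1, 0, 0, tt F (e : ℤ)⟩ : M2 (RatFunc F)).mul ⟨1, 0, 0, tt F (-(e : ℤ))⟩ = ⟨1, 0, 0, 1⟩ := by
    have h4 : tt F (e : ℤ) * tt F (-(e : ℤ)) = 1 := by rw [mul_comm]; exact tt_neg _
    ext <;> simp only [M2.mul]
    · ring
    · ring
    · ring
    · linear_combination h4
  refine LS.of_sub (M := ⟨1, 0, 0, tt F (-(e : ℤ))⟩) (c := tt F ((n : ℤ) - e)) ?_ (tt_ne _) ?_ h
  · simp only [M2.det, one_mul, mul_zero, sub_zero]
    exact tt_ne _
  · rw [h1, Q4.smul_sub, Q4.sub_mul, h3, Q4.sub_one]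
    congr 1
    rw [sq, els_tt_mul]
    congr 1
    ring

end els

theorem t_els : S_lang → S_node → S_hens → S_els := by
  intro hlang hnode hhens F _ _ h2 n e he S G hG hS hnS hrev
  refine ⟨fun P => hhens F h2 P G ?_, ?_⟩
  · by_cases hP : P ∈ S
    · exact hS P hP
    · by_cases hd : P.1 ∣ G.res.disc
      · exact hnode F h2 P G hd (hnS P hP)
      · refine els_lang hlang _ (isField_Rq P) (two_ne_Rq h2 P 1 one_ne_zero) _ ?_
        rw [Q4.map_res, Cub.map_disc, Ne, mk_zero, pow_one]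
        exact hd
  · exact els_inf he hG (hhens F h2 (PlX F) (revV n e G) hrev)

end Pool.Agent.H456.BQ
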