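import Pool.Agent.H456.BQ.Stm6
import Pool.Agent.H456.BQ.T_euler

/-!
(M1) `S_euler2`: the partial Euler products of the zeta function of the affine line at `2` are at least
`1 - 1/q = 1/ζ(2)`. For a finite set `A` of places let `Z(A) = Σ a_A(n) x^n`, `x = q⁻²`, `a_A(n)` the number
of the monic polynomials of degree `n` all of whose prime factors are in `A`. Then
`(1 - x^(deg P)) Z(A ∪ {P}) = Z(A)`, so `∏_{P ∈ A} (1 - x^(deg P)) Z(A) = 1`, and
`Z(A) ≤ Σ q^n x^n = 1 / (1 - 1/q)`.
-/

set_option autoImplicit false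
set_option linter.all false

open Polynomial Finset
open Pool.Agent.H456.EC (toK toK_inj sig toK_eq reflect_toK)

namespace Pool.Agent.H456.BQ

section euler2

variable {F : Type} [Field F] [Finite F]

theorem euler2_le (A : Finset (Pl F)) (n : ℕ) : ((euler_SA A n).ncard : ℝ) ≤ (Nat.card F : ℝ) ^ n := by
  have h1 : (euler_SA A n).ncard ≤ ({g : F[X] | g.Monic ∧ g.natDegree = n}).ncard :=
    Set.ncard_le_ncard (fun g hg => hg.1) (euler_finite_mon n)
  have h2 : ({g : F[X] | g.Monic ∧ g.natDegree = n}).ncard = Nat.card (euler_Mon F n) := rfl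
  rw [h2, euler_card_mon] at h1
  exact_mod_cast h1

/-- the terms of the zeta function -/
noncomputable def euler2_f (x : ℝ) (A : Finset (Pl F)) (n : ℕ) : ℝ := ((euler_SA A n).ncard : ℝ) * x ^ n

theorem euler2_f_le {x : ℝ} (hx : 0 ≤ x) (A : Finset (Pl F)) (n : ℕ) :
    euler2_f x A n ≤ ((Nat.card F : ℝ) * x) ^ n := by
  unfold euler2_f
  rw [mul_pow]
  exact mul_le_mul_of_nonneg_right (euler2_le A n) (pow_nonneg hx n)

theorem euler2_f_nonneg {x : ℝ} (hx : 0 ≤ x) (A : Finset (Pl F)) (n : ℕ) : 0 ≤ euler2_f x A n := by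
  unfold euler2_f
  positivity

theorem euler2_summable {x : ℝ} (hx : 0 ≤ x) (hx1 : (Nat.card F : ℝ) * x < 1) (A : Finset (Pl F)) :
    Summable (euler2_f x A) :=
  Summable.of_nonneg_of_le (euler2_f_nonneg hx A) (euler2_f_le hx A)
    (summable_geometric_of_lt_one (by positivity) hx1)

theorem euler2_insert [DecidableEq (Pl F)] {x : ℝ} (hx : 0 ≤ x) (hx1 : (Nat.card F : ℝ) * x < 1)
    (A : Finset (Pl F)) (P : Pl F) (hP : P ∉ A) :
    (1 - x ^ P.1.natDegree) * ∑' n, euler2_f x (insert P A) n = ∑' n, euler2_f x A n := by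
  set d := P.1.natDegree with hd
  set g : ℕ → ℝ := fun n => if d ≤ n then ((euler_SA (insert P A) (n - d)).ncard : ℝ) * x ^ n else 0 with hg
  have h1 : ∀ n, euler2_f x (insert P A) n = euler2_f x A n + g n := by
    intro n
    simp only [euler2_f, hg]
    rw [euler_ncard_insert A P hP n, ← hd]
    split_ifs with h
    · push_cast
      ring
    · push_cast
      ring
  have hs1 := euler2_summable hx hx1 (insert P A)
  have hs2 := euler2_summable hx hx1 A
  have hsg : Summable g := by
    have : g = fun n => euler2_f x (insert P A) n - euler2_f x A n := by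
      funext n
      rw [h1 n]
      ring
    rw [this]
    exact hs1.sub hs2
  have h2 : ∑' n, g n = x ^ d * ∑' n, euler2_f x (insert P A) n := by
    rw [← hsg.sum_add_tsum_nat_add d, ← tsum_mul_left]
    have h3 : ∑ i ∈ range d, g i = 0 := by
      refine Finset.sum_eq_zero fun i hi => ?_
      have := Finset.mem_range.1 hi
      simp only [hg]
      rw [if_neg (by omega)]
    rw [h3, zero_add]
    refine tsum_congr fun n => ?_
    simp only [hg, euler2_f]
    rw [if_pos (by omega), Nat.add_sub_cancel, pow_add]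
    ring
  have h3 : ∑' n, euler2_f x (insert P A) n = ∑' n, euler2_f x A n + ∑' n, g n := by
    rw [← hs2.tsum_add hsg]
    exact tsum_congr h1
  rw [h2] at h3
  linarith

theorem euler2_empty (x : ℝ) : ∑' n, euler2_f x (∅ : Finset (Pl F)) n = 1 := by
  rw [tsum_eq_single 0]
  · unfold euler2_f
    rw [euler_SA_empty, if_pos rfl, Set.ncard_singleton]
    simp
  · intro n hn
    unfold euler2_f
    rw [euler_SA_empty, if_neg hn, Set.ncard_empty]
    simp

theorem euler2_prod {x : ℝ} (hx : 0 ≤ x) (hx1 : (Nat.card F : ℝ) * x < 1) (A : Finset (Pl F)) :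
    (∏ P ∈ A, (1 - x ^ P.1.natDegree)) * ∑' n, euler2_f x A n = 1 := by
  classical
  induction A using Finset.induction_on with
  | empty => rw [Finset.prod_empty, one_mul, euler2_empty]
  | insert P A hP ih =>
    rw [← euler2_insert hx hx1 A P hP] at ih
    rw [Finset.prod_insert hP]
    refine Eq.trans ?_ ih
    ring

end euler2

theorem t_euler2 : S_euler2 := by
  intro F _ _ S
  have hq2 : (2 : ℝ) ≤ Fintype.card F := by
    have : 1 < Fintype.card F := Fintype.one_lt_card
    exact_mod_cast this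
  set q : ℝ := (Fintype.card F : ℝ) with hq
  have hq0 : 0 < q := by linarith
  have hqi : q⁻¹ ≤ 1 / 2 := by
    rw [one_div]
    exact inv_anti₀ (by norm_num) hq2
  have hqi0 : 0 < q⁻¹ := inv_pos.2 hq0
  set x : ℝ := (q ^ 2)⁻¹ with hx
  have hx0 : 0 ≤ x := by positivity
  have hx1 : x ≤ 1 := inv_le_one_of_one_le₀ (one_le_pow₀ (by linarith))
  have h1 : ∏ P ∈ S, (1 - (q ^ (2 * P.1.natDegree))⁻¹) = ∏ P ∈ S, (1 - x ^ P.1.natDegree) := by
    refine Finset.prod_congr rfl fun P _ => ?_
    rw [hx, inv_pow, ← pow_mul]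
  rw [h1]
  have h3 : (Nat.card F : ℝ) * x = q⁻¹ := by
    rw [Nat.card_eq_fintype_card, ← hq, hx]
    field_simp
  have hlt : (Nat.card F : ℝ) * x < 1 := by
    rw [h3]
    linarith
  have h2 := euler2_prod hx0 hlt S
  have h4 : ∑' n, euler2_f x S n ≤ (1 - q⁻¹)⁻¹ := by
    rw [← h3, ← tsum_geometric_of_lt_one (by positivity) hlt]
    exact (euler2_summable hx0 hlt S).tsum_le_tsum (euler2_f_le hx0 S)
      (summable_geometric_of_lt_one (by positivity) hlt)
  set Pr : ℝ := ∏ P ∈ S, (1 - x ^ P.1.natDegree) with hPr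
  have hP0 : 0 ≤ Pr := Finset.prod_nonneg fun Q _ => sub_nonneg.2 (pow_le_one₀ hx0 hx1)
  have h5 := mul_le_mul_of_nonneg_left h4 hP0
  rw [h2] at h5
  have h6 : 0 < 1 - q⁻¹ := by linarith
  have h7 := mul_le_mul_of_nonneg_right h5 h6.le
  rw [mul_assoc, inv_mul_cancel₀ h6.ne', mul_one, one_mul] at h7
  exact h7

end Pool.Agent.H456.BQ
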