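import Pool.Agent.H456.BQ.Stm4
import Pool.Agent.H456.BQ.T_loc

/-!
(K17) `S_hens`. Let `(O, L, π, ι, j)` be as in `LS` (`Lc4` has Hensel's lemma for quartics, `hensel4`). A smooth point modulo `P` of `z² = G(u, v)`: affine `(u₀, z₀)`,
`v = 1`, with `z₀² ≡ G(u₀, 1)` mod `P` and `z₀ ≢ 0` or `∂_u G(u₀, 1) ≢ 0`, or at infinity `(1 : 0)`: `z₀² ≡ A`, `z₀ ≢ 0` or `B ≢ 0` mod `P`. If `z₀ ≢ 0`: solve
`(z₀ + w)² = G(u₀, 1)`: `(z₀² - G) + 2 z₀ w + w² = 0`, by `hensel` (`π ∣ c₀`, `c₁` a unit; `Lc.dvd` for `k = 1` translates divisibility by `P`). If `z₀ ≡ 0` and the derivative is a unit: solve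
`G(u₀ + x, 1) = 0` (at infinity `G(1, x) = 0`) by `hensel4`: a root `u`, and `(u, 1, 0)` is a point. See T_loc.lean for similar computations.
-/

set_option autoImplicit false
set_option linter.all false

open Polynomial Finset
open Pool.Agent.H456.EC (toK toK_inj sig toK_eq reflect_toK)

namespace Pool.Agent.H456.BQ

section hens

variable {F : Type} [Field F] {P : F[X]} {O : Type} [CommRing O] {π : O} {ι : F[X] →+* O}

theorem hens_dvd (h : Lc P π ι) {x : F[X]} (hx : Ideal.Quotient.mk (Ideal.span {P ^ 1}) x = 0) :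
    π ∣ ι x := by
  have h1 : P ^ 1 ∣ x := Ideal.mem_span_singleton.1 (Ideal.Quotient.eq_zero_iff_mem.1 hx)
  have h2 := (h.dvd 1 x).2 h1
  rwa [pow_one] at h2

theorem hens_ndvd (h : Lc P π ι) {x : F[X]} (hx : Ideal.Quotient.mk (Ideal.span {P ^ 1}) x ≠ 0) :
    IsUnit (ι x) := by
  apply loc_unit h
  intro h1
  rw [← pow_one π] at h1
  exact hx (Ideal.Quotient.eq_zero_iff_mem.2 (Ideal.mem_span_singleton.2 ((h.dvd 1 x).1 h1)))

/-- a square root -/
theorem hens_sq (h2 : (2 : F) ≠ 0) (h : Lc P π ι) {z a : F[X]}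
    (hz : Ideal.Quotient.mk (Ideal.span {P ^ 1}) z ≠ 0)
    (ha : Ideal.Quotient.mk (Ideal.span {P ^ 1}) (z ^ 2 - a) = 0) : ∃ w : O, w ^ 2 = ι a := by
  obtain ⟨w, -, hw⟩ := h.hensel (ι (z ^ 2 - a)) (2 * ι z) 1 0 (hens_dvd h ha)
    ((loc_two h2 ι).mul (hens_ndvd h hz))
  refine ⟨ι z + w, ?_⟩
  rw [map_sub, map_pow] at hw
  linear_combination hw

end hens

theorem t_hens : S_hens := by
  intro F _ _ h2 P G hsp O L _ _ _ _ _ π ι h j hj
  classical
  set φ := Ideal.Quotient.mk (Ideal.span {P.1 ^ 1}) with hφ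
  have hG : (G.map (toK F)).map j = G.map ((algebraMap O L).comp ι) := by
    ext <;> simp only [Q4.map, hj, RingHom.comp_apply]
  rw [hG]
  have hsurj : Function.Surjective φ := Ideal.Quotient.mk_surjective
  -- a smooth point
  have hpt : (∃ a b, b ^ 2 = (G.map φ).ev a 1 ∧ (b ≠ 0 ∨ 4 * (G.map φ).A * a ^ 3 +
      3 * (G.map φ).B * a ^ 2 + 2 * (G.map φ).C * a + (G.map φ).D ≠ 0)) ∨
      ∃ z, z ^ 2 = (G.map φ).A ∧ (z ≠ 0 ∨ (G.map φ).B ≠ 0) := by
    by_contra hcon
    push Not at hcon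
    obtain ⟨hc1, hc2⟩ := hcon
    unfold Q4.sp at hsp
    rw [Finset.filter_eq_empty_iff.2, Finset.filter_eq_empty_iff.2] at hsp
    · simp at hsp
    · rintro z - ⟨h3, h4⟩
      obtain ⟨h5, h6⟩ := hc2 z h3
      rcases h4 with h4 | h4
      · exact h4 h5
      · exact h4 h6
    · rintro ⟨a, b⟩ - ⟨h3, h4⟩
      obtain ⟨h5, h6⟩ := hc1 a b h3
      rcases h4 with h4 | h4
      · exact h4 h5
      · exact h4 h6
  rcases hpt with ⟨a, b, hab, hsm⟩ | ⟨z, hz, hsm⟩
  · obtain ⟨u, rfl⟩ := hsurj a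
    obtain ⟨z, rfl⟩ := hsurj b
    have hev : (G.map φ).ev (φ u) 1 = φ (G.ev u 1) := by
      simp only [Q4.map, Q4.ev, map_add, map_mul, map_pow, map_one]
    rw [hev] at hab
    by_cases hb : φ z = 0
    · have hd : φ (4 * G.A * u ^ 3 + 3 * G.B * u ^ 2 + 2 * G.C * u + G.D) ≠ 0 := by
        rcases hsm with h3 | h3
        · exact absurd hb h3
        · simpa only [Q4.map, map_add, map_mul, map_pow, map_ofNat] using h3
      rw [hb, zero_pow two_ne_zero] at hab
      obtain ⟨w, -, hw⟩ := h.hensel4 (ι (G.ev u 1))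
        (ι (4 * G.A * u ^ 3 + 3 * G.B * u ^ 2 + 2 * G.C * u + G.D))
        (ι (6 * G.A * u ^ 2 + 3 * G.B * u + G.C)) (ι (4 * G.A * u + G.B)) (ι G.A)
        (hens_dvd h.toLc hab.symm) (hens_ndvd h.toLc hd)
      refine ⟨algebraMap O L (ι u + w), 1, 0, ?_, ?_⟩
      · rintro ⟨-, h3⟩
        exact one_ne_zero h3
      · have h4 := congrArg (algebraMap O L) hw
        simp only [Q4.ev, Q4.map, RingHom.comp_apply, map_add, map_mul, map_pow, map_ofNat,
          map_one, map_zero] at h4 ⊢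
        linear_combination -h4
    · obtain ⟨w, hw⟩ := hens_sq h2 h.toLc (z := z) (a := G.ev u 1) hb (by
        rw [← hφ, map_sub, map_pow, hab, sub_self])
      refine ⟨algebraMap O L (ι u), 1, algebraMap O L w, ?_, ?_⟩
      · rintro ⟨-, h3⟩
        exact one_ne_zero h3
      · have h4 := congrArg (algebraMap O L) hw
        simp only [Q4.ev, Q4.map, RingHom.comp_apply, map_add, map_mul, map_pow, map_ofNat,
          map_one, map_zero] at h4 ⊢
        linear_combination h4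
  · obtain ⟨y, rfl⟩ := hsurj z
    have hA : (G.map φ).A = φ G.A := rfl
    have hB : (G.map φ).B = φ G.B := rfl
    rw [hA] at hz
    rw [hB] at hsm
    by_cases hb : φ y = 0
    · have hd : φ G.B ≠ 0 := by
        rcases hsm with h3 | h3
        · exact absurd hb h3
        · exact h3
      rw [hb, zero_pow two_ne_zero] at hz
      obtain ⟨w, -, hw⟩ := h.hensel4 (ι G.A) (ι G.B) (ι G.C) (ι G.D) (ι G.E)
        (hens_dvd h.toLc hz.symm) (hens_ndvd h.toLc hd)
      refine ⟨1, algebraMap O L w, 0, ?_, ?_⟩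
      · rintro ⟨h3, -⟩
        exact one_ne_zero h3
      · have h4 := congrArg (algebraMap O L) hw
        simp only [Q4.ev, Q4.map, RingHom.comp_apply, map_add, map_mul, map_pow, map_ofNat,
          map_one, map_zero] at h4 ⊢
        linear_combination -h4
    · obtain ⟨w, hw⟩ := hens_sq h2 h.toLc (z := y) (a := G.A) hb (by
        rw [← hφ, map_sub, map_pow, hz, sub_self])
      refine ⟨1, 0, algebraMap O L w, ?_, ?_⟩
      · rintro ⟨h3, -⟩
        exact one_ne_zero h3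
      · have h4 := congrArg (algebraMap O L) hw
        simp only [Q4.ev, Q4.map, RingHom.comp_apply, map_add, map_mul, map_pow, map_ofNat,
          map_one, map_zero] at h4 ⊢
        linear_combination h4

end Pool.Agent.H456.BQ
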