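import Pool.Agent.H456.BQ.Stm5
import Pool.Agent.H456.BQ.T_locK

/-!
(B3) `S_indep` (uses `S_nz` as a hypothesis). `(O, L, π, ι, j)` is one model of the completion of `F(t)` at `P`, with a point of `z² = g(u, v)`; by `S_nz` (`(g.map j).res.disc ≠ 0`) there is one with `z ≠ 0`. Let
`(O', L', π', ι', j')` be another model. Multiply `u, v` by a power of `P` and `z` by its square to have `u, v, z ∈ O`, and clear denominators of `g`: `g = (G.map toK).smul (d⁻²)`, `G : Q4 F[X]`, `d ∈ F[X]`, `d ≠ 0`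
(common denominator; `G = d² g`); so `z² = G(u, v)` with `u, v, z ∈ O`, `z ≠ 0`, `z = unit * π^m`. By `Lc.dense` choose `u₁, v₁, z₁ ∈ F[X]` congruent to `u, v, z` modulo `π^(2m+1)`, then
`P^(2m+1) ∣ G(u₁, v₁) - z₁²` (`Lc.dvd`), `P^m ∣ z₁` exactly (`P^(m+1) ∤ z₁`), `(u₁, v₁) ≠ 0` (if both are `0` replace `u₁` by a large power of `P`; or `π^(2m+1)` divides `z₁²`, contradiction).
So with `z₁ = P^m z₂`, `P ∤ z₂`: `G(u₁, v₁) = P^(2m) (z₂² + P c)`; in `O'` the element `ι'(z₂² + P c)` is the square of `ι' z₂ + w`, `w ∈ π' O'`, by `hensel` (`c₁ = 2 ι' z₂` a unit: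
`2 ≠ 0` in `F`). So `G(u₁, v₁)` is a square in `O'`.
-/

set_option autoImplicit false
set_option linter.all false

open Polynomial Finset
open Pool.Agent.H456.EC (toK toK_inj sig toK_eq reflect_toK)

namespace Pool.Agent.H456.BQ

theorem indep_clear {F : Type} [Field F] (g : Q4 (RatFunc F)) :
    ∃ (d : F[X]) (G : Q4 F[X]), d ≠ 0 ∧ G.map (toK F) = g.smul (toK F d ^ 2) := by
  obtain ⟨a₁, b₁, hb₁, -, h₁⟩ := frac_toK g.A
  obtain ⟨a₂, b₂, hb₂, -, h₂⟩ := frac_toK g.B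
  obtain ⟨a₃, b₃, hb₃, -, h₃⟩ := frac_toK g.C
  obtain ⟨a₄, b₄, hb₄, -, h₄⟩ := frac_toK g.D
  obtain ⟨a₅, b₅, hb₅, -, h₅⟩ := frac_toK g.E
  refine ⟨b₁ * b₂ * b₃ * b₄ * b₅, ⟨a₁ * b₁ * (b₂ * b₃ * b₄ * b₅) ^ 2, a₂ * b₂ * (b₁ * b₃ * b₄ * b₅) ^ 2,
    a₃ * b₃ * (b₁ * b₂ * b₄ * b₅) ^ 2, a₄ * b₄ * (b₁ * b₂ * b₃ * b₅) ^ 2,
    a₅ * b₅ * (b₁ * b₂ * b₃ * b₄) ^ 2⟩, ?_, ?_⟩
  · exact mul_ne_zero (mul_ne_zero (mul_ne_zero (mul_ne_zero hb₁.ne_zero hb₂.ne_zero) hb₃.ne_zero)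
      hb₄.ne_zero) hb₅.ne_zero
  · ext <;> simp only [Q4.map, Q4.smul, map_mul, map_pow]
    · rw [← h₁]; ring
    · rw [← h₂]; ring
    · rw [← h₃]; ring
    · rw [← h₄]; ring
    · rw [← h₅]; ring

theorem indep_frac {O L : Type} [CommRing O] [IsDomain O] [Field L] [Algebra O L] [IsFractionRing O L]
    (u v z : L) : ∃ s a b c : O, s ≠ 0 ∧ algebraMap O L a = algebraMap O L s * u ∧
      algebraMap O L b = algebraMap O L s * v ∧ algebraMap O L c = algebraMap O L s * z := by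
  obtain ⟨a₁, s₁, hs₁, h₁⟩ := IsFractionRing.div_surjective (A := O) u
  obtain ⟨a₂, s₂, hs₂, h₂⟩ := IsFractionRing.div_surjective (A := O) v
  obtain ⟨a₃, s₃, hs₃, h₃⟩ := IsFractionRing.div_surjective (A := O) z
  have h1 : s₁ ≠ 0 := nonZeroDivisors.ne_zero hs₁
  have h2 : s₂ ≠ 0 := nonZeroDivisors.ne_zero hs₂
  have h3 : s₃ ≠ 0 := nonZeroDivisors.ne_zero hs₃
  have h1' : algebraMap O L s₁ ≠ 0 := (map_ne_zero_iff _ (IsFractionRing.injective O L)).2 h1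
  have h2' : algebraMap O L s₂ ≠ 0 := (map_ne_zero_iff _ (IsFractionRing.injective O L)).2 h2
  have h3' : algebraMap O L s₃ ≠ 0 := (map_ne_zero_iff _ (IsFractionRing.injective O L)).2 h3
  refine ⟨s₁ * s₂ * s₃, a₁ * s₂ * s₃, a₂ * s₁ * s₃, a₃ * s₁ * s₂, mul_ne_zero (mul_ne_zero h1 h2) h3,
    ?_, ?_, ?_⟩
  · rw [← h₁]; simp only [map_mul]; field_simp
  · rw [← h₂]; simp only [map_mul]; field_simp
  · rw [← h₃]; simp only [map_mul]; field_simp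

/-- the approximation: an integral point over one model gives polynomials. -/
theorem indep_poly {F : Type} [Field F] {P : Pl F} {O : Type} [CommRing O] [IsDomain O] {π : O} {ι : F[X] →+* O}
    (hL : Lc P.1 π ι) (G : Q4 F[X]) (a b c : O) (hc : c ≠ 0) (h : c ^ 2 = (G.map ι).ev a b) :
    ∃ (m : ℕ) (u v z k : F[X]), ¬ (u = 0 ∧ v = 0) ∧ ¬ P.1 ∣ z ∧
      G.ev u v = (P.1 ^ m) ^ 2 * (z ^ 2 + P.1 * k) := by
  obtain ⟨m, w, hw, hcw⟩ := hL.pow c hc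
  obtain ⟨u, hu⟩ := hL.dense (2 * m + 1) a
  obtain ⟨v, hv⟩ := hL.dense (2 * m + 1) b
  obtain ⟨z, hz⟩ := hL.dense (2 * m + 1) c
  have hm : π ^ m ∣ π ^ (2 * m + 1) := pow_dvd_pow _ (by omega)
  have hm1 : π ^ (m + 1) ∣ π ^ (2 * m + 1) := pow_dvd_pow _ (by omega)
  have h1 : P.1 ^ m ∣ z := by
    rw [← hL.dvd]
    have h2 : π ^ m ∣ c := by rw [hcw]; exact Dvd.intro_left _ rfl
    have h3 : ι z = c - (c - ι z) := by ring
    rw [h3]
    exact dvd_sub h2 (hm.trans hz)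
  obtain ⟨z', hz'⟩ := h1
  have h2 : ¬ P.1 ∣ z' := by
    intro h3
    obtain ⟨q, hq⟩ := h3
    have h4 : P.1 ^ (m + 1) ∣ z := by
      rw [hz', hq]
      exact ⟨q, by ring⟩
    rw [← hL.dvd] at h4
    have h5 : π ^ (m + 1) ∣ c := by
      have h6 : c = (c - ι z) + ι z := by ring
      rw [h6]
      exact dvd_add (hm1.trans hz) h4
    obtain ⟨r, hr⟩ := h5
    rw [hcw] at hr
    have h7 : w = π * r := by
      apply mul_right_cancel₀ (pow_ne_zero m hL.ne)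
      rw [hr]; ring
    apply hL.nonunit
    rw [h7] at hw
    exact isUnit_of_mul_isUnit_left hw
  have h3 : P.1 ^ (2 * m + 1) ∣ G.ev u v - z ^ 2 := by
    rw [← hL.dvd, map_sub, ← Q4.map_ev, map_pow]
    obtain ⟨r, hr⟩ := hu
    obtain ⟨s, hs⟩ := hv
    obtain ⟨t, ht⟩ := hz
    have ha : a = ι u + π ^ (2 * m + 1) * r := by rw [← hr]; ring
    have hb : b = ι v + π ^ (2 * m + 1) * s := by rw [← hs]; ring
    have hc' : c = ι z + π ^ (2 * m + 1) * t := by rw [← ht]; ring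
    rw [ha, hb, hc'] at h
    generalize π ^ (2 * m + 1) = ϖ at h ⊢
    generalize ι u = U at h ⊢
    generalize ι v = V at h ⊢
    generalize ι z = Z at h ⊢
    generalize G.map ι = g at h ⊢
    have hdvd : ∀ {x y : O}, ϖ ∣ g.ev (U + ϖ * x) (V + ϖ * y) - g.ev U V := by
      intro x y
      simp only [Q4.ev]
      have e1 : ∀ k : ℕ, ϖ ∣ (U + ϖ * x) ^ k - U ^ k := fun k => by
        have h6 := sub_dvd_pow_sub_pow (U + ϖ * x) U k
        have h7 : (U + ϖ * x) - U = ϖ * x := by ring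
        rw [h7] at h6
        exact (Dvd.intro _ rfl).trans h6
      have e2 : ∀ k : ℕ, ϖ ∣ (V + ϖ * y) ^ k - V ^ k := fun k => by
        have h6 := sub_dvd_pow_sub_pow (V + ϖ * y) V k
        have h7 : (V + ϖ * y) - V = ϖ * y := by ring
        rw [h7] at h6
        exact (Dvd.intro _ rfl).trans h6
      obtain ⟨p₁, q₁⟩ := e1 1
      obtain ⟨p₂, q₂⟩ := e1 2
      obtain ⟨p₃, q₃⟩ := e1 3
      obtain ⟨p₄, q₄⟩ := e1 4
      obtain ⟨r₁, s₁⟩ := e2 1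
      obtain ⟨r₂, s₂⟩ := e2 2
      obtain ⟨r₃, s₃⟩ := e2 3
      obtain ⟨r₄, s₄⟩ := e2 4
      refine ⟨g.A * p₄ + g.B * (p₃ * (V + ϖ * y) + U ^ 3 * r₁) + g.C * (p₂ * (V + ϖ * y) ^ 2 + U ^ 2 * r₂) +
        g.D * (p₁ * (V + ϖ * y) ^ 3 + U * r₃) + g.E * r₄, ?_⟩
      linear_combination g.A * q₄ + g.B * (q₃ * (V + ϖ * y) + U ^ 3 * s₁) +
        g.C * (q₂ * (V + ϖ * y) ^ 2 + U ^ 2 * s₂) + g.D * (q₁ * (V + ϖ * y) ^ 3 + U * s₃) + g.E * s₄
    obtain ⟨q, hq⟩ := hdvd (x := r) (y := s)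
    refine ⟨2 * Z * t + ϖ * t ^ 2 - q, ?_⟩
    linear_combination -h - hq
  obtain ⟨k, hk⟩ := h3
  refine ⟨m, u, v, z', k, ?_, h2, ?_⟩
  · rintro ⟨rfl, rfl⟩
    have h4 : G.ev 0 0 = 0 := by simp [Q4.ev]
    rw [h4, hz'] at hk
    apply h2
    have h5 : z' ^ 2 = P.1 * (-k) := by
      apply mul_left_cancel₀ (pow_ne_zero (2 * m) P.2.2.ne_zero)
      linear_combination -hk
    exact P.2.2.prime.dvd_of_dvd_pow ⟨_, h5⟩
  · have h4 : G.ev u v = P.1 ^ (2 * m + 1) * k + z ^ 2 := by rw [← hk]; ring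
    rw [h4, hz']
    ring

/-- a square in every model -/
theorem indep_sq {F : Type} [Field F] (h2 : (2 : F) ≠ 0) {P : Pl F} {O : Type} [CommRing O] [IsDomain O] {π : O}
    {ι : F[X] →+* O} (hL : Lc P.1 π ι) (z k : F[X]) (hz : ¬ P.1 ∣ z) :
    ∃ y : O, y ^ 2 = ι (z ^ 2 + P.1 * k) := by
  have h3 : IsUnit (ι (C 2 * z)) := by
    rw [map_mul]
    refine IsUnit.mul ?_ (locK_unit hL hz)
    exact ((isUnit_C.2 (IsUnit.mk0 _ h2)).map ι)
  have h4 : π ∣ -ι (P.1 * k) := by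
    rw [dvd_neg, locK_dvd hL]
    exact Dvd.intro _ rfl
  obtain ⟨w, -, hw⟩ := hL.hensel (-ι (P.1 * k)) (ι (C 2 * z)) 1 0 h4 h3
  refine ⟨ι z + w, ?_⟩
  have h5 : ι (C 2 * z) = 2 * ι z := by
    rw [map_mul, map_ofNat C 2, map_ofNat ι 2]
  rw [h5] at hw
  rw [map_add, map_pow]
  linear_combination hw

theorem t_indep : S_nz → S_indep := by
  intro hnz F _ h2 P g hg O L _ _ _ _ _ π ι hL j hj hsol
  intro O' L' _ _ _ _ _ π' ι' hL' j' hj'
  have hg' : (g.map j).res.disc ≠ 0 := by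
    rw [Q4.map_res, Cub.map_disc]
    exact (map_ne_zero j).2 hg
  obtain ⟨u, v, z, huv, hz, he⟩ := hnz F h2 P.1 O L π ι hL.toLc (g.map j) hg' hsol
  obtain ⟨d, G, hd, hG⟩ := indep_clear g
  obtain ⟨s, a, b, c, hs, ha, hb, hc⟩ := indep_frac (O := O) u v z
  have hinj := IsFractionRing.injective O L
  have hιd : ι d ≠ 0 := fun h => hd (locK_inj hL.toLc (by rw [h, map_zero]))
  have hs' : algebraMap O L s ≠ 0 := (map_ne_zero_iff _ hinj).2 hs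
  have hc0 : c ≠ 0 := by
    intro h
    rw [h, map_zero] at hc
    exact mul_ne_zero hs' hz hc.symm
  have hGj : (G.map ι).map (algebraMap O L) = (g.map j).smul (algebraMap O L (ι d) ^ 2) := by
    have h3 : (G.map ι).map (algebraMap O L) = (G.map (toK F)).map j := by
      ext <;> simp only [Q4.map, hj]
    rw [h3, hG, Q4.map_smul, map_pow, hj]
  have h1 : (ι d * s * c) ^ 2 = (G.map ι).ev a b := by
    apply hinj
    rw [← Q4.map_ev, hGj, Q4.ev_smul, ha, hb, map_pow, map_mul, map_mul, hc]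
    have h3 : (g.map j).ev (algebraMap O L s * u) (algebraMap O L s * v) =
        algebraMap O L s ^ 4 * (g.map j).ev u v := by
      simp only [Q4.ev]; ring
    rw [h3, ← he]
    ring
  obtain ⟨m, u₁, v₁, z₁, k, huv₁, hz₁, he₁⟩ := indep_poly hL.toLc G a b (ι d * s * c)
    (mul_ne_zero (mul_ne_zero hιd hs) hc0) h1
  obtain ⟨y, hy⟩ := indep_sq h2 hL'.toLc z₁ k hz₁
  have hd' : j' (toK F d) ≠ 0 := (map_ne_zero j').2 ((map_ne_zero_iff _ toK_inj).2 hd)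
  refine ⟨j' (toK F u₁), j' (toK F v₁), algebraMap O' L' (ι' (P.1 ^ m) * y) / j' (toK F d), ?_, ?_⟩
  · rintro ⟨h3, h4⟩
    apply huv₁
    rw [map_eq_zero, map_eq_zero_iff _ toK_inj] at h3 h4
    exact ⟨h3, h4⟩
  · have h3 : j' (toK F (G.ev u₁ v₁)) = j' (toK F d) ^ 2 * (g.map j').ev (j' (toK F u₁)) (j' (toK F v₁)) := by
      rw [← Q4.map_ev, hG, Q4.ev_smul, map_mul, map_pow, Q4.map_ev]
    have h4 : j' (toK F (G.ev u₁ v₁)) = algebraMap O' L' (ι' (P.1 ^ m) * y) ^ 2 := by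
      rw [hj', he₁, ← map_pow, mul_pow, hy, ← map_pow ι', ← map_mul ι']
    rw [div_pow, div_eq_iff (pow_ne_zero 2 hd'), ← h4, h3]
    ring

end Pool.Agent.H456.BQ
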