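import Pool.Agent.H456.BQ.Stm6

/-!
(M4) `S_joint`: exact equidistribution, adapt Eq.lean (`card_fib`, `sum_red`, `sum_redV` and the card lemma `card_dvd_PL`) and `AV` (Lim.lean) to the residues `RB S M × Rq (P.1 ^ 2)`: reduction of a polynomial
`x` of degree `< N` to `(red S M N x, mk x)`; all the fibers have `q^(N - dS S M - 2 deg P)` elements if `dS S M + 2 deg P ≤ N` (`P ∉ S`, so `P²` is coprime to `∏_{P' ∈ S} P'^M`; the same proof as
`card_fib`: fibers have at most that many elements, and the total is right). Then sum over the five coefficients as in `sum_redV` for a function `Φ` of the quartic over `RB S M × Rq (P.1 ^ 2)`, and finally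
`∑ over Q4 (RB S M × R') of φ(first component) ψ(second component) = (∑ φ)(∑ ψ)`. `q^(5 (dS + 2 deg P)) = q^(5 dS) (q^deg P)^10`.
-/

set_option autoImplicit false
set_option linter.all false

open Polynomial Finset
open Pool.Agent.H456.EC (toK toK_inj sig toK_eq reflect_toK)

namespace Pool.Agent.H456.BQ

open Pool.Agent.H456.RN

section joint

variable {F : Type} [Field F] [Fintype F]

/-- the residues at `S`, at infinity, and modulo `P²` -/
abbrev joint_R (S : Finset (Pl F)) (M : ℕ) (P : Pl F) : Type := RB S M × Rq (P.1 ^ 2)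

/-- reduction of a polynomial of degree less than `N` -/
noncomputable def joint_red (S : Finset (Pl F)) (M : ℕ) (P : Pl F) (N : ℕ) (x : F[X]) : joint_R S M P :=
  (red S M N x, Ideal.Quotient.mk _ x)

open Classical in
theorem joint_card (S : Finset (Pl F)) (M : ℕ) (P : Pl F) :
    Fintype.card (joint_R S M P) = Fintype.card F ^ (dS S M + 2 * P.1.natDegree) := by
  rw [Fintype.card_prod, card_RB, pow_add]
  congr 1
  rw [← Nat.card_eq_fintype_card, card_Rq (P.2.1.pow 2), natDegree_pow]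

open Classical in
/-- all fibers have the same number of elements -/
theorem joint_fib (S : Finset (Pl F)) (M : ℕ) (P : Pl F) (hP : P ∉ S) (N : ℕ)
    (hN : dS S M + 2 * P.1.natDegree ≤ N) (b : joint_R S M P) :
    ((PL F N).filter (fun x => joint_red S M P N x = b)).card =
      Fintype.card F ^ (N - (dS S M + 2 * P.1.natDegree)) := by
  have hle : ∀ b : joint_R S M P, ((PL F N).filter (fun x => joint_red S M P N x = b)).card ≤
      Fintype.card F ^ (N - (dS S M + 2 * P.1.natDegree)) := by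
    intro b
    rcases ((PL F N).filter (fun x => joint_red S M P N x = b)).eq_empty_or_nonempty with h0 | ⟨x₀, hx₀⟩
    · rw [h0, card_empty]; exact Nat.zero_le _
    · rw [mem_filter] at hx₀
      have hmon : (∏ Q ∈ S, Q.1 ^ M).Monic := monic_prod_of_monic _ _ (fun Q _ => Q.2.1.pow M)
      have h1 : ((∏ Q ∈ S, Q.1 ^ M) * P.1 ^ 2).natDegree = ∑ Q ∈ S, M * Q.1.natDegree + 2 * P.1.natDegree := by
        rw [natDegree_mul hmon.ne_zero (P.2.1.pow 2).ne_zero, natDegree_pow,
          natDegree_prod_of_monic _ _ (fun Q _ => Q.2.1.pow M)]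
        congr 1
        apply sum_congr rfl
        intro Q _
        rw [natDegree_pow]
      have hm0 : (∏ Q ∈ S, Q.1 ^ M) * P.1 ^ 2 ≠ 0 := mul_ne_zero hmon.ne_zero (P.2.1.pow 2).ne_zero
      have h3 := card_dvd_PL (F := F) (N - M) hm0
      rw [h1] at h3
      have h4 : N - M - (∑ Q ∈ S, M * Q.1.natDegree + 2 * P.1.natDegree) =
          N - (dS S M + 2 * P.1.natDegree) := by
        unfold dS; omega
      rw [h4] at h3
      refine le_trans ?_ h3
      apply card_le_card_of_injOn (fun x => x - x₀)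
      · intro x hx
        have hx' : x ∈ (PL F N).filter (fun x => joint_red S M P N x = b) := hx
        rw [mem_filter] at hx'
        have he' : joint_red S M P N x = joint_red S M P N x₀ := by rw [hx'.2, hx₀.2]
        have he : red S M N x = red S M N x₀ := congrArg Prod.fst he'
        have hP2 : P.1 ^ 2 ∣ x - x₀ := mk_eq.1 (congrArg Prod.snd he')
        have hy := sub_mem_PL hx'.1 hx₀.1
        have hy2 : (X : F[X]) ^ M ∣ reflect (N - 1) (x - x₀) := by
          have := congrArg Prod.snd he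
          have := mk_eq.1 this
          rwa [← reflect_sub] at this
        change x - x₀ ∈ (PL F (N - M)).filter (fun f => ((∏ Q ∈ S, Q.1 ^ M) * P.1 ^ 2) ∣ f)
        rw [mem_filter]
        constructor
        · rw [mem_PL, degree_lt_iff_coeff_zero]
          intro k hk
          rw [X_pow_dvd_iff] at hy2
          by_cases hkN : N ≤ k
          · rw [mem_PL, degree_lt_iff_coeff_zero] at hy
            exact hy k hkN
          · have h5 := hy2 (N - 1 - k) (by omega)
            rw [coeff_reflect, revAt_le (by omega)] at h5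
            rwa [show N - 1 - (N - 1 - k) = k by omega] at h5
        · apply IsCoprime.mul_dvd _ _ hP2
          · apply IsCoprime.prod_left
            intro Q hQ
            have hne : Q ≠ P := fun h => hP (h ▸ hQ)
            exact (coprime_Pl hne).pow
          · apply prod_dvd_of_coprime
            · intro Q _ Q' _ hQ
              exact (coprime_Pl hQ).pow
            · intro Q hQ
              have := congrFun (congrArg Prod.fst he) ⟨Q, hQ⟩
              exact mk_eq.1 this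
      · intro x _ y _ hxy
        exact sub_left_injective hxy
  -- the total
  have htot : ∑ b : joint_R S M P, ((PL F N).filter (fun x => joint_red S M P N x = b)).card =
      ∑ b : joint_R S M P, Fintype.card F ^ (N - (dS S M + 2 * P.1.natDegree)) := by
    rw [← card_eq_sum_card_fiberwise (fun x _ => mem_univ (joint_red S M P N x)), card_PL, sum_const, card_univ,
      joint_card, smul_eq_mul, ← pow_add]
    congr 1
    omega
  exact (sum_eq_sum_iff_of_le (fun b _ => hle b)).1 htot b (mem_univ b)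

open Classical in
theorem joint_sum (S : Finset (Pl F)) (M : ℕ) (P : Pl F) (hP : P ∉ S) (N K : ℕ)
    (hK : K = dS S M + 2 * P.1.natDegree) (hN : K ≤ N) (ψ : joint_R S M P → ℝ) :
    ∑ x ∈ PL F N, ψ (joint_red S M P N x) = (Fintype.card F : ℝ) ^ (N - K) * ∑ b, ψ b := by
  subst hK
  rw [← sum_fiberwise_of_maps_to (g := joint_red S M P N) (t := univ) (fun x _ => mem_univ _), mul_sum]
  apply sum_congr rfl
  intro b _
  rw [sum_congr rfl (g := fun _ => ψ b), sum_const, joint_fib S M P hP N hN b, nsmul_eq_mul]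
  · push_cast; rfl
  · intro x hx
    rw [(mem_filter.1 hx).2]

/-- reduction of a quartic in the box -/
noncomputable def joint_redV (S : Finset (Pl F)) (M : ℕ) (P : Pl F) (n e : ℕ) (G : Q4 F[X]) : Q4 (joint_R S M P) :=
  ⟨joint_red S M P (2 * n - 2 * e + 1) G.A, joint_red S M P (2 * n - e + 1) G.B, joint_red S M P (2 * n + 1) G.C,
    joint_red S M P (2 * n + e + 1) G.D, joint_red S M P (2 * n + 2 * e + 1) G.E⟩

open Classical in
theorem joint_sumV (S : Finset (Pl F)) (M : ℕ) (P : Pl F) (hP : P ∉ S) (n e K : ℕ) (he : e ≤ n)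
    (hK : K = dS S M + 2 * P.1.natDegree) (hN : K ≤ 2 * n - 2 * e + 1) (φ : Q4 (joint_R S M P) → ℝ) :
    (∑ G ∈ Vb F n e, φ (joint_redV S M P n e G)) / (Fintype.card F : ℝ) ^ (10 * n + 5) =
      (∑ g, φ g) / (Fintype.card F : ℝ) ^ (5 * K) := by
  have hq0 : (Fintype.card F : ℝ) ≠ 0 := by
    have : 0 < Fintype.card F := Fintype.card_pos
    positivity
  rw [sum_Vb]
  unfold joint_redV
  simp only []
  have hE : ∀ A B C D : joint_R S M P, ∑ E ∈ PL F (2 * n + 2 * e + 1),
      φ ⟨A, B, C, D, joint_red S M P (2 * n + 2 * e + 1) E⟩ =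
      (Fintype.card F : ℝ) ^ (2 * n + 2 * e + 1 - K) * ∑ E, φ ⟨A, B, C, D, E⟩ := fun A B C D =>
    joint_sum S M P hP _ K hK (by omega) (fun E => φ ⟨A, B, C, D, E⟩)
  simp only [hE, ← mul_sum]
  have hD : ∀ A B C : joint_R S M P, ∑ D ∈ PL F (2 * n + e + 1), ∑ E,
      φ ⟨A, B, C, joint_red S M P (2 * n + e + 1) D, E⟩ =
      (Fintype.card F : ℝ) ^ (2 * n + e + 1 - K) * ∑ D, ∑ E, φ ⟨A, B, C, D, E⟩ := fun A B C =>
    joint_sum S M P hP _ K hK (by omega) (fun D => ∑ E, φ ⟨A, B, C, D, E⟩)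
  simp only [hD, ← mul_sum]
  have hC : ∀ A B : joint_R S M P, ∑ C ∈ PL F (2 * n + 1), ∑ D, ∑ E,
      φ ⟨A, B, joint_red S M P (2 * n + 1) C, D, E⟩ =
      (Fintype.card F : ℝ) ^ (2 * n + 1 - K) * ∑ C, ∑ D, ∑ E, φ ⟨A, B, C, D, E⟩ := fun A B =>
    joint_sum S M P hP _ K hK (by omega) (fun C => ∑ D, ∑ E, φ ⟨A, B, C, D, E⟩)
  simp only [hC, ← mul_sum]
  have hB : ∀ A : joint_R S M P, ∑ B ∈ PL F (2 * n - e + 1), ∑ C, ∑ D, ∑ E,
      φ ⟨A, joint_red S M P (2 * n - e + 1) B, C, D, E⟩ =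
      (Fintype.card F : ℝ) ^ (2 * n - e + 1 - K) * ∑ B, ∑ C, ∑ D, ∑ E, φ ⟨A, B, C, D, E⟩ := fun A =>
    joint_sum S M P hP _ K hK (by omega) (fun B => ∑ C, ∑ D, ∑ E, φ ⟨A, B, C, D, E⟩)
  simp only [hB, ← mul_sum]
  have hA : ∑ A ∈ PL F (2 * n - 2 * e + 1), ∑ B, ∑ C, ∑ D, ∑ E,
      φ ⟨joint_red S M P (2 * n - 2 * e + 1) A, B, C, D, E⟩ =
      (Fintype.card F : ℝ) ^ (2 * n - 2 * e + 1 - K) * ∑ A, ∑ B, ∑ C, ∑ D, ∑ E, φ ⟨A, B, C, D, E⟩ :=
    joint_sum S M P hP _ K hK (by omega) (fun A => ∑ B, ∑ C, ∑ D, ∑ E, φ ⟨A, B, C, D, E⟩)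
  rw [hA, sum_Q4, div_eq_div_iff (pow_ne_zero _ hq0) (pow_ne_zero _ hq0)]
  have hpow : (Fintype.card F : ℝ) ^ (10 * n + 5) = (Fintype.card F : ℝ) ^ (2 * n + 2 * e + 1 - K) *
      ((Fintype.card F : ℝ) ^ (2 * n + e + 1 - K) * ((Fintype.card F : ℝ) ^ (2 * n + 1 - K) *
      ((Fintype.card F : ℝ) ^ (2 * n - e + 1 - K) * (Fintype.card F : ℝ) ^ (2 * n - 2 * e + 1 - K)))) *
      (Fintype.card F : ℝ) ^ (5 * K) := by
    rw [← pow_add, ← pow_add, ← pow_add, ← pow_add, ← pow_add]
    congr 1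
    omega
  rw [hpow]
  ring

/-- the components of a quartic over a product -/
def joint_split (R R' : Type) : Q4 (R × R') ≃ Q4 R × Q4 R' where
  toFun g := (⟨g.A.1, g.B.1, g.C.1, g.D.1, g.E.1⟩, ⟨g.A.2, g.B.2, g.C.2, g.D.2, g.E.2⟩)
  invFun x := ⟨(x.1.A, x.2.A), (x.1.B, x.2.B), (x.1.C, x.2.C), (x.1.D, x.2.D), (x.1.E, x.2.E)⟩
  left_inv _ := rfl
  right_inv _ := rfl

theorem joint_sum_split (R R' : Type) [Fintype R] [Fintype R'] (φ : Q4 R → ℝ) (ψ : Q4 R' → ℝ) :
    ∑ g : Q4 (R × R'), φ ⟨g.A.1, g.B.1, g.C.1, g.D.1, g.E.1⟩ * ψ ⟨g.A.2, g.B.2, g.C.2, g.D.2, g.E.2⟩ =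
      (∑ g, φ g) * ∑ g, ψ g := by
  rw [← (joint_split R R').symm.sum_comp, Fintype.sum_prod_type, sum_mul]
  apply sum_congr rfl
  intro x _
  rw [mul_sum]
  rfl

end joint

theorem t_joint : S_joint := by
  classical
  intro F _ _ S M n e he P hP hN φ ψ
  have hq0 : (Fintype.card F : ℝ) ≠ 0 := by
    have : 0 < Fintype.card F := Fintype.card_pos
    positivity
  have h1 := joint_sumV S M P hP n e _ he rfl hN
    (fun g => φ ⟨g.A.1, g.B.1, g.C.1, g.D.1, g.E.1⟩ * ψ ⟨g.A.2, g.B.2, g.C.2, g.D.2, g.E.2⟩)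
  rw [joint_sum_split] at h1
  unfold AV
  refine Eq.trans ?_ (h1.trans ?_)
  · rfl
  · rw [div_mul_div_comm, ← pow_mul, ← pow_add]
    congr 2
    ring

end Pool.Agent.H456.BQ
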