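import Pool.Agent.H456.BQ.Stm6

/-!
(M11) `S_kum`: the group of points modulo doubles embeds into the 2-Selmer set.
-/

set_option autoImplicit false
set_option linter.all false

open Polynomial Finset
open Pool.Agent.H456.EC (toK toK_inj sig toK_eq reflect_toK)

namespace Pool.Agent.H456.BQ

section kum

variable {F : Type} [Field F]

/-- the pair of a point -/
noncomputable def kum_pr (f : Cub (RatFunc F)) (x y : RatFunc F) : Q4 (RatFunc F) × RatFunc F :=
  (gp f x y, -(2 * x + 2 * f.a))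

theorem kum_sol {K L : Type} [Field K] [Field L] (j : K →+* L) (f : Cub K) (x y : K) :
    ((gp f x y).map j).Sol := by
  refine ⟨1, 0, 1, fun h => one_ne_zero h.1, ?_⟩
  simp only [Q4.map, Q4.ev, gp, map_one]
  ring

theorem kum_isSel {f : Cub (RatFunc F)} {x y : RatFunc F} (h : y ^ 2 = f.ev x) : IsSel f (kum_pr f x y) where
  res := res_gp f x y h
  fin P := by
    intro O L _ _ _ _ _ π ι hL j hj
    exact kum_sol j f x y
  inf := by
    unfold LSI
    intro O L _ _ _ _ _ π ι hL j hj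
    refine ⟨1, 0, 1, fun h => one_ne_zero h.1, ?_⟩
    simp only [kum_pr, Q4.map, Q4.ev, gp, map_one]
    ring

theorem kum_ne (h2 : (2 : F) ≠ 0) {f : Cub F[X]} (hf : f.disc ≠ 0) {x y : RatFunc F}
    (h : y ^ 2 = (f.map (toK F)).ev x) (h0 : kP h2 hf h ≠ 0) :
    selMk (f.map (toK F)) (kum_pr (f.map (toK F)) x y) (kum_isSel h) ≠ 0 := by
  rw [selMk_ne h2 (disc_ne hf)]
  intro u v huv he
  exact h0 (kP_zero_of_root h2 hf h huv he)

theorem kum_inj (h2 : (2 : F) ≠ 0) {f : Cub F[X]} (hf : f.disc ≠ 0) {x y x' y' : RatFunc F}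
    (h : y ^ 2 = (f.map (toK F)).ev x) (h' : y' ^ 2 = (f.map (toK F)).ev x')
    (he : selMk (f.map (toK F)) (kum_pr (f.map (toK F)) x y) (kum_isSel h) =
      selMk (f.map (toK F)) (kum_pr (f.map (toK F)) x' y') (kum_isSel h')) :
    kP h2 hf h = kP h2 hf h' := by
  classical
  obtain ⟨M, hM⟩ := selMk_eq.1 he
  have r : Rep (f.map (toK F)) x y M (gp (f.map (toK F)) x' y') (-(2 * x' + 2 * (f.map (toK F)).a)) := by
    refine ⟨hM.det, hM.sub, ?_⟩
    have h3 := hM.tau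
    simp only [kum_pr] at h3
    rw [h3]
    ring
  have r' : Rep (f.map (toK F)) x' y' ⟨1, 0, 0, 1⟩ (gp (f.map (toK F)) x' y')
      (-(2 * x' + 2 * (f.map (toK F)).a)) := by
    have hd : (⟨1, 0, 0, 1⟩ : M2 (RatFunc F)).det = 1 := by simp only [M2.det]; ring
    refine ⟨?_, ?_, ?_⟩
    · rw [hd]; exact one_ne_zero
    · rw [Q4.sub_one, hd, one_pow, Q4.smul_one]
    · rw [Q4.tau_scalar]; ring
  exact @Rep.class_eq (RatFunc F) _ _ (f.map (toK F)) (disc_ne hf) (two_ne h2) _ _ _ _ _ _ _ _ h h' r r'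

end kum

theorem t_kum : S_kum := by
  classical
  intro F _ h2 f hf
  have hex : ∀ σ : Q2 f, ∃ s : Sel (f.map (toK F)), (σ = 0 ∧ s = 0) ∨
      (∃ (x y : RatFunc F) (h : y ^ 2 = (f.map (toK F)).ev x), σ ≠ 0 ∧ σ = kP h2 hf h ∧
        s = selMk (f.map (toK F)) (kum_pr (f.map (toK F)) x y) (kum_isSel h)) := by
    intro σ
    by_cases hσ : σ = 0
    · exact ⟨0, Or.inl ⟨hσ, rfl⟩⟩
    · obtain ⟨x, y, h, he⟩ := exists_kP h2 hf hσ
      exact ⟨_, Or.inr ⟨x, y, h, hσ, he, rfl⟩⟩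
  choose φ hφ using hex
  refine ⟨φ, fun σ σ' he => ?_, ?_⟩
  · rcases hφ σ with ⟨h1, h3⟩ | ⟨x, y, h, h1, h3, h4⟩
    · rcases hφ σ' with ⟨h1', h3'⟩ | ⟨x', y', h', h1', h3', h4'⟩
      · rw [h1, h1']
      · exfalso
        rw [h3, h4'] at he
        exact kum_ne h2 hf h' (h3' ▸ h1') he.symm
    · rcases hφ σ' with ⟨h1', h3'⟩ | ⟨x', y', h', h1', h3', h4'⟩
      · exfalso
        rw [h4, h3'] at he
        exact kum_ne h2 hf h (h3 ▸ h1) he
      · rw [h4, h4'] at he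
        rw [h3, h3']
        exact kum_inj h2 hf h h' he
  · rcases hφ 0 with ⟨-, h3⟩ | ⟨x, y, h, h1, -, -⟩
    · exact h3
    · exact absurd rfl h1

end Pool.Agent.H456.BQ
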