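import Pool.Agent.H456.BQ.Stm4

/-!
(K16) `S_lang`: every smooth curve `z² = g(u, v)` over a finite field `κ` of odd characteristic has a
point. Proof (elementary, by counting): otherwise all the values `g(u, 1)` and `g.A` are nonsquares, so
after division by `g.A` and a translation all the values of `h(u) = u⁴ + C u² + D u + E` are nonzero
squares. So there are `2Q` pairs `(u, z)` with `z² = h(u)`, that is `2Q` pairs `(u, t)`, `t = z + u²`, with
`(2t + C) u² + D u + (E - t²) = 0`. For each `t` there are at most two `u`, and for `t = -C/2` at most one,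
unless `D = 0` and `4E = C²`, i.e. `h` is a square and the discriminant vanishes. So `2Q ≤ 2(Q-1) + 1`.
-/

set_option autoImplicit false
set_option linter.all false

open Polynomial Finset
open Pool.Agent.H456.EC (toK toK_inj sig toK_eq reflect_toK)

namespace Pool.Agent.H456.BQ

/-- a quadratic equation with a nonzero leading coefficient has at most two solutions -/
theorem lang_quad {κ : Type} [Field κ] {α β γ u₁ u₂ u₃ : κ} (hα : α ≠ 0) (h1 : α * u₁ ^ 2 + β * u₁ + γ = 0)
    (h2 : α * u₂ ^ 2 + β * u₂ + γ = 0) (h3 : α * u₃ ^ 2 + β * u₃ + γ = 0) (h12 : u₁ ≠ u₂)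
    (h13 : u₁ ≠ u₃) : u₂ = u₃ := by
  have e12 : α * (u₁ + u₂) + β = 0 := by
    have h : (u₁ - u₂) * (α * (u₁ + u₂) + β) = 0 := by linear_combination h1 - h2
    exact (mul_eq_zero.1 h).resolve_left (sub_ne_zero.2 h12)
  have e13 : α * (u₁ + u₃) + β = 0 := by
    have h : (u₁ - u₃) * (α * (u₁ + u₃) + β) = 0 := by linear_combination h1 - h3
    exact (mul_eq_zero.1 h).resolve_left (sub_ne_zero.2 h13)
  have h : α * (u₂ - u₃) = 0 := by linear_combination e12 - e13
  exact sub_eq_zero.1 ((mul_eq_zero.1 h).resolve_left hα)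

/-- a monic quartic without cubic term all of whose values are nonzero squares is a square -/
theorem lang_count (κ : Type) [Field κ] [Fintype κ] (h2 : (2 : κ) ≠ 0) (C D E : κ)
    (h : ∀ u : κ, ∃ z : κ, z ≠ 0 ∧ z ^ 2 = u ^ 4 + C * u ^ 2 + D * u + E) : D = 0 ∧ 4 * E = C ^ 2 := by
  classical
  by_contra hne
  choose z hz0 hz using h
  -- the parametrization of the points
  set sg : Bool → κ := fun b => if b then 1 else -1 with hsg
  have hsg2 : ∀ b, sg b ^ 2 = 1 := by
    intro b
    cases b <;> simp [hsg]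
  have hsginj : ∀ b b', sg b = sg b' → b = b' := by
    intro b b' hb
    cases b <;> cases b' <;> simp only [hsg] at hb
    · rfl
    · exfalso
      apply h2
      simp only [Bool.false_eq_true, if_false, if_true] at hb
      linear_combination -hb
    · exfalso
      apply h2
      simp only [Bool.false_eq_true, if_false, if_true] at hb
      linear_combination hb
    · rfl
  set Φ : κ × Bool → κ := fun p => sg p.2 * z p.1 + p.1 ^ 2 with hΦ
  have hinj : ∀ p p' : κ × Bool, Φ p = Φ p' → p.1 = p'.1 → p = p' := by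
    rintro ⟨u, b⟩ ⟨u', b'⟩ h1 h3
    simp only at h3
    subst h3
    simp only [hΦ] at h1
    have h4 : sg b = sg b' := mul_right_cancel₀ (hz0 u) (add_right_cancel h1)
    rw [hsginj b b' h4]
  have heq : ∀ p : κ × Bool, (2 * Φ p + C) * p.1 ^ 2 + D * p.1 + (E - Φ p ^ 2) = 0 := by
    rintro ⟨u, b⟩
    have h3 := hz u
    have h4 := hsg2 b
    simp only [hΦ]
    linear_combination (-(sg b) ^ 2) * h3 - (u ^ 4 + C * u ^ 2 + D * u + E) * h4
  set t₀ : κ := -C / 2 with ht₀
  have ht₀' : 2 * t₀ + C = 0 := by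
    rw [ht₀]
    field_simp
    ring
  have hfib : ∀ t : κ, ((univ : Finset (κ × Bool)).filter (fun p => Φ p = t)).card ≤ 2 := by
    intro t
    by_contra hc
    rw [not_le, Finset.two_lt_card_iff] at hc
    obtain ⟨p₁, p₂, p₃, m1, m2, m3, n12, n13, n23⟩ := hc
    have m1 := (mem_filter.1 m1).2
    have m2 := (mem_filter.1 m2).2
    have m3 := (mem_filter.1 m3).2
    have u12 : p₁.1 ≠ p₂.1 := fun h => n12 (hinj _ _ (m1.trans m2.symm) h)
    have u13 : p₁.1 ≠ p₃.1 := fun h => n13 (hinj _ _ (m1.trans m3.symm) h)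
    have u23 : p₂.1 ≠ p₃.1 := fun h => n23 (hinj _ _ (m2.trans m3.symm) h)
    have e1 := heq p₁
    have e2 := heq p₂
    have e3 := heq p₃
    rw [m1] at e1
    rw [m2] at e2
    rw [m3] at e3
    by_cases hα : 2 * t + C = 0
    · rw [hα] at e1 e2
      have hD : D = 0 := by
        have h : (p₁.1 - p₂.1) * D = 0 := by linear_combination e1 - e2
        exact (mul_eq_zero.1 h).resolve_left (sub_ne_zero.2 u12)
      refine hne ⟨hD, ?_⟩
      rw [hD] at e1
      have hC : C = -(2 * t) := by linear_combination hα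
      rw [hC]
      linear_combination 4 * e1
    · exact u23 (lang_quad hα e1 e2 e3 u12 u13)
  have hfib0 : ((univ : Finset (κ × Bool)).filter (fun p => Φ p = t₀)).card ≤ 1 := by
    by_contra hc
    rw [not_le, Finset.one_lt_card_iff] at hc
    obtain ⟨p₁, p₂, m1, m2, n12⟩ := hc
    have m1 := (mem_filter.1 m1).2
    have m2 := (mem_filter.1 m2).2
    have u12 : p₁.1 ≠ p₂.1 := fun h => n12 (hinj _ _ (m1.trans m2.symm) h)
    have e1 := heq p₁
    have e2 := heq p₂
    rw [m1, ht₀'] at e1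
    rw [m2, ht₀'] at e2
    have hD : D = 0 := by
      have h : (p₁.1 - p₂.1) * D = 0 := by linear_combination e1 - e2
      exact (mul_eq_zero.1 h).resolve_left (sub_ne_zero.2 u12)
    refine hne ⟨hD, ?_⟩
    rw [hD] at e1
    have hC : C = -(2 * t₀) := by linear_combination ht₀'
    rw [hC]
    linear_combination 4 * e1
  have hsum := Finset.card_eq_sum_card_fiberwise (s := (univ : Finset (κ × Bool)))
    (t := (univ : Finset κ)) (f := Φ) (fun _ _ => mem_coe.2 (mem_univ _))
  rw [card_univ, Fintype.card_prod, Fintype.card_bool, ← Finset.add_sum_erase _ _ (mem_univ t₀)] at hsum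
  have h3 : ∑ t ∈ univ.erase t₀, ((univ : Finset (κ × Bool)).filter (fun p => Φ p = t)).card ≤
      ∑ t ∈ univ.erase t₀, 2 := sum_le_sum fun t _ => hfib t
  rw [sum_const, card_erase_of_mem (mem_univ _), card_univ, smul_eq_mul] at h3
  have h4 : 1 ≤ Fintype.card κ := Fintype.card_pos
  omega

/-- the quotient of two nonsquares is a nonzero square -/
theorem lang_nonsq {κ : Type} [Field κ] [Fintype κ] {a b : κ} (ha : ¬ IsSquare a) (hb : ¬ IsSquare b) :
    ∃ z : κ, z ≠ 0 ∧ z ^ 2 = a / b := by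
  classical
  have ha0 : a ≠ 0 := fun h => ha (h ▸ IsSquare.zero)
  have hb0 : b ≠ 0 := fun h => hb (h ▸ IsSquare.zero)
  have h1 := quadraticChar_neg_one_iff_not_isSquare.2 ha
  have h2 := quadraticChar_neg_one_iff_not_isSquare.2 hb
  have h3 : quadraticChar κ (a * b) = 1 := by
    rw [map_mul, h1, h2]
    norm_num
  rw [quadraticChar_one_iff_isSquare (mul_ne_zero ha0 hb0)] at h3
  obtain ⟨w, hw⟩ := h3
  have hw0 : w ≠ 0 := by
    rintro rfl
    rw [mul_zero] at hw
    exact mul_ne_zero ha0 hb0 hw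
  refine ⟨w / b, div_ne_zero hw0 hb0, ?_⟩
  rw [div_pow, sq w, ← hw]
  field_simp

theorem t_lang : S_lang := by
  intro κ _ _ h2 g hg
  classical
  by_contra hsp
  have h0 : g.sp = 0 := by omega
  unfold Q4.sp at h0
  obtain ⟨ha, hb⟩ := Nat.add_eq_zero_iff.1 h0
  rw [Finset.card_eq_zero, Finset.filter_eq_empty_iff] at ha hb
  have h4 : (4 : κ) ≠ 0 := by
    have : (4 : κ) = 2 * 2 := by norm_num
    rw [this]
    exact mul_ne_zero h2 h2
  -- the leading coefficient
  have hA : ¬ IsSquare g.A := by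
    rintro ⟨z, hz⟩
    have h3 := hb (mem_univ z)
    rw [not_and, not_or, not_not, not_not] at h3
    obtain ⟨hz0, hB⟩ := h3 (by rw [hz, sq])
    apply hg
    rw [hz0, mul_zero] at hz
    simp only [Cub.disc, Q4.res, hz, hB]
    ring
  -- the values
  have hv : ∀ u : κ, ¬ IsSquare (g.ev u 1) := by
    rintro u ⟨z, hz⟩
    have h3 := ha (mem_univ (u, z))
    rw [not_and, not_or, not_not, not_not] at h3
    obtain ⟨hz0, hd⟩ := h3 (by rw [hz, sq])
    simp only at hz0 hd
    rw [hz0, mul_zero] at hz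
    simp only [Q4.ev] at hz
    have eD : g.D = -(4 * g.A * u ^ 3 + 3 * g.B * u ^ 2 + 2 * g.C * u) := by linear_combination hd
    have eE : g.E = -(g.A * u ^ 4 + g.B * u ^ 3 + g.C * u ^ 2 + g.D * u) := by linear_combination hz
    apply hg
    simp only [Cub.disc, Q4.res]
    rw [eE, eD]
    ring
  have hA0 : g.A ≠ 0 := fun h => hA (h ▸ IsSquare.zero)
  obtain ⟨A, B, C, D, E⟩ := g
  simp only at hA hA0
  obtain ⟨s, hs⟩ : ∃ s : κ, B = 4 * A * s := ⟨B / (4 * A), by field_simp⟩
  obtain ⟨c, hc⟩ : ∃ c : κ, C = A * c := ⟨C / A, by field_simp⟩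
  obtain ⟨d, hd⟩ : ∃ d : κ, D = A * d := ⟨D / A, by field_simp⟩
  obtain ⟨e, he⟩ : ∃ e : κ, E = A * e := ⟨E / A, by field_simp⟩
  subst hs hc hd he
  obtain ⟨p, hp⟩ : ∃ p : κ, c = 2 * p + 6 * s ^ 2 := ⟨(c - 6 * s ^ 2) / 2, by field_simp; ring⟩
  subst hp
  have key := lang_count κ h2 (2 * p) (8 * s ^ 3 - 2 * (2 * p + 6 * s ^ 2) * s + d)
    (-3 * s ^ 4 + (2 * p + 6 * s ^ 2) * s ^ 2 - d * s + e) (fun u => by
      obtain ⟨z, hz0, hz⟩ := lang_nonsq (hv (u - s)) hA
      refine ⟨z, hz0, ?_⟩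
      rw [hz]
      simp only [Q4.ev]
      field_simp
      ring)
  obtain ⟨k1, k2⟩ := key
  have e1 : d = 4 * p * s + 4 * s ^ 3 := by linear_combination k1
  subst e1
  have e2 : e = (p + s ^ 2) ^ 2 := by
    apply mul_left_cancel₀ h4
    linear_combination k2
  subst e2
  apply hg
  simp only [Cub.disc, Q4.res]
  ring

end Pool.Agent.H456.BQ
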