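import Pool.Agent.H456.BQ.T_largeE

/-! # The seven exceptional sets for `t_large` -/

set_option autoImplicit false
set_option linter.all false

open Polynomial Finset

namespace Pool.Agent.H456.BQ

section ev

variable {F : Type} [Field F] [Fintype F]

theorem large_union (V T : Finset F[X]) (r : F[X] → F[X] → Prop) (hcov : ∀ x ∈ V, ∃ P ∈ T, r P x) (N : ℕ)
    (hN : ∀ P ∈ T, ∀ W : Finset F[X], (∀ x ∈ W, x ∈ V ∧ r P x) → W.card ≤ N) : V.card ≤ T.card * N := by
  classical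
  have h1 : V ⊆ T.biUnion (fun P => V.filter (r P)) := by
    intro x hx
    obtain ⟨P, hP, hr⟩ := hcov x hx
    exact Finset.mem_biUnion.2 ⟨P, hP, Finset.mem_filter.2 ⟨hx, hr⟩⟩
  refine (Finset.card_le_card h1).trans (Finset.card_biUnion_le.trans ?_)
  calc _ ≤ ∑ P ∈ T, N := Finset.sum_le_sum fun P hP => hN P hP _ fun x hx => by
        simpa [Finset.mem_filter] using hx
    _ = T.card * N := by rw [Finset.sum_const, smul_eq_mul]

theorem large_cubic {R : Type} [CommRing R] [IsDomain R] (a3 a2 a1 a0 : R) (h : a3 ≠ 0) (S : Finset R)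
    (hS : ∀ x ∈ S, a3 * x ^ 3 + a2 * x ^ 2 + a1 * x + a0 = 0) : S.card ≤ 3 := by
  classical
  set r : R[X] := Polynomial.C a3 * X ^ 3 + Polynomial.C a2 * X ^ 2
      + Polynomial.C a1 * X + Polynomial.C a0 with hr
  have hr0 : r ≠ 0 := by
    intro hr'
    apply h
    have h3 : r.coeff 3 = 0 := by rw [hr']; simp
    rw [hr] at h3
    simpa [coeff_X, coeff_C] using h3
  have hsub : S ⊆ r.roots.toFinset := by
    intro x hx
    have hx' := hS x hx
    rw [Multiset.mem_toFinset, mem_roots hr0, IsRoot.def, hr]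
    simp only [eval_add, eval_mul, eval_C, eval_pow, eval_X]
    exact hx'
  refine (Finset.card_le_card hsub).trans ((Multiset.toFinset_card_le _).trans ((card_roots' r).trans ?_))
  rw [hr]
  compute_degree

theorem large_one_lt : 1 ≤ Fintype.card F := Fintype.card_pos

theorem large_two {h : ℕ} (h2 : (2 : F) ≠ 0) : ((2 : F[X]) ^ h) ≠ 0 := by
  have : (2 : F[X]) = Polynomial.C (2 : F) := (map_ofNat Polynomial.C 2).symm
  rw [this]
  exact pow_ne_zero _ (Polynomial.C_ne_zero.2 h2)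

/-- constants are units or zero -/
theorem large_cst {P : F[X]} (hP : Irreducible P) {a : F} (h : P ∣ Polynomial.C a) : a = 0 := by
  by_contra ha
  exact hP.not_isUnit (isUnit_of_dvd_unit h (isUnit_C.2 (isUnit_iff_ne_zero.2 ha)))

theorem large_two_ndvd {P : F[X]} (hP : Irreducible P) (h2 : (2 : F) ≠ 0) (h : ℕ) : ¬ P ∣ (2 : F[X]) ^ h := by
  intro hd
  have h1 := hP.prime.dvd_of_dvd_pow hd
  have : (2 : F[X]) = Polynomial.C (2 : F) := (map_ofNat Polynomial.C 2).symm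
  rw [this] at h1
  exact h2 (large_cst hP h1)

/-- not all the coefficients are divisible by `P` if `P` does not divide `A` -/
theorem large_ne1 {P A B C D : F[X]} (hP : Irreducible P) (h2 : (2 : F) ≠ 0) (hA : ¬ P ∣ A) :
    ¬ (P ∣ large_c3 A ∧ P ∣ large_c2 A B C D ∧ P ∣ large_c1 A B C D ∧ P ∣ large_c0 A B C D) := by
  rintro ⟨h, -, -, -⟩
  unfold large_c3 at h
  rw [show (256 : F[X]) = 2 ^ 8 by norm_num] at h
  rcases hP.prime.dvd_or_dvd h with h | h
  · exact large_two_ndvd hP h2 8 h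
  · exact hA (hP.prime.dvd_of_dvd_pow h)

/-- not all the coefficients are divisible by `P` if `P` divides `A` but not `B` and `C` -/
theorem large_ne2 {P A B C D : F[X]} (hP : Irreducible P) (h2 : (2 : F) ≠ 0) (hA : P ∣ A) (hB : ¬ P ∣ B)
    (hC : ¬ P ∣ C) :
    ¬ (P ∣ large_c3 A ∧ P ∣ large_c2 A B C D ∧ P ∣ large_c1 A B C D ∧ P ∣ large_c0 A B C D) := by
  rintro ⟨-, h, h', -⟩
  obtain ⟨A', rfl⟩ := hA
  have h27 : P ∣ 27 * B ^ 4 := by
    have e : 27 * B ^ 4 = P * (144 * (A' * B ^ 2 * C) - 128 * (P * A' ^ 2 * C ^ 2) - 192 * (P * A' ^ 2 * B * D))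
        - large_c2 (P * A') B C D := by
      unfold large_c2; ring
    rw [e]
    exact dvd_sub (dvd_mul_right _ _) h
  have h3 : (3 : F) = 0 := by
    rcases hP.prime.dvd_or_dvd h27 with h | h
    · rw [show (27 : F[X]) = 3 ^ 3 by norm_num] at h
      have h1 := hP.prime.dvd_of_dvd_pow h
      have : (3 : F[X]) = Polynomial.C (3 : F) := (map_ofNat Polynomial.C 3).symm
      rw [this] at h1
      exact large_cst hP h1
    · exact absurd (hP.prime.dvd_of_dvd_pow h) hB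
  have h3' : (3 : F[X]) = 0 := by
    have : (3 : F[X]) = Polynomial.C (3 : F) := (map_ofNat Polynomial.C 3).symm
    rw [this, h3, Polynomial.C_0]
  have h4 : P ∣ 2 ^ 2 * (B ^ 2 * C ^ 3) := by
    have e : 2 ^ 2 * (B ^ 2 * C ^ 3) = P * (144 * (P * A' ^ 2 * C * D ^ 2) - 6 * (A' * B ^ 2 * D ^ 2)
        - 80 * (A' * B * C ^ 2 * D) + 16 * (A' * C ^ 4)) - large_c1 (P * A') B C D := by
      unfold large_c1
      linear_combination (6 * B ^ 3 * C * D) * h3'
    rw [e]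
    exact dvd_sub (dvd_mul_right _ _) h'
  rcases hP.prime.dvd_or_dvd h4 with h | h
  · exact large_two_ndvd hP h2 2 h
  · rcases hP.prime.dvd_or_dvd h with h | h
    · exact hB (hP.prime.dvd_of_dvd_pow h)
    · exact hC (hP.prime.dvd_of_dvd_pow h)

/-- the numbers -/
structure large_nm (p n e c : ℕ) : Prop where
  p3 : 3 ≤ p
  ne : 2 * e + 3 * c < n

theorem large_nm.he {p n e c : ℕ} (h : large_nm p n e c) : e ≤ n := by have := h.ne; omega

theorem large_nm.d1 {p n e c : ℕ} (h : large_nm p n e c) : n / p * 3 ≤ n :=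
  (Nat.mul_le_mul_left _ h.p3).trans (Nat.div_mul_le_self n p)

theorem large_nm.d2 {p n e c : ℕ} (h : large_nm p n e c) : (2 * n + 2 * e) / p * 3 ≤ 2 * n + 2 * e :=
  (Nat.mul_le_mul_left _ h.p3).trans (Nat.div_mul_le_self _ p)

theorem large_nm.d3 {p n e c : ℕ} (h : large_nm p n e c) : n / p ≤ (2 * n + 2 * e) / p :=
  Nat.div_le_div_right (by omega)

theorem large_pw {a b : ℕ} (h : a ≤ b) : Fintype.card F ^ a ≤ Fintype.card F ^ b :=
  Nat.pow_le_pow_right large_one_lt h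

theorem large_T {p n e c t d : ℕ} (h : large_nm p n e c) (hd : d ≤ 2 * n - 2 * e) (ht : t * (n - c) ≤ d) : t ≤ 3 := by
  by_contra hcon
  have h4 : 4 * (n - c) ≤ t * (n - c) := Nat.mul_le_mul_right _ (by omega)
  have := h.ne
  omega

/-- a common form of the estimates -/
theorem large_est {p n e c t K d V : ℕ} (h : large_nm p n e c) (ht : t ≤ 3) (hd : n - c ≤ d)
    (hV : V ≤ t * (K * Fintype.card F ^ (d - (n - c) + 1))) :
    V * Fintype.card F ^ (n / p) ≤ 3 * K * Fintype.card F ^ (d + 1) := by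
  have h1 := h.d1
  have h2 := h.ne
  calc V * Fintype.card F ^ (n / p) ≤ (3 * (K * Fintype.card F ^ (d - (n - c) + 1))) * Fintype.card F ^ (n / p) :=
        Nat.mul_le_mul_right _ (hV.trans (Nat.mul_le_mul_right _ ht))
    _ = 3 * K * (Fintype.card F ^ (d - (n - c) + 1 + n / p)) := by rw [pow_add]; ring
    _ ≤ 3 * K * Fintype.card F ^ (d + 1) := Nat.mul_le_mul_left _ (large_pw (by omega))

theorem large_S1 {p n e c : ℕ} (h : large_nm p n e c) (S : Finset (Q4 F[X])) (hbox : ∀ G ∈ S, large_bx n e G)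
    (hS : ∀ G ∈ S, G.A = 0) : S.card * Fintype.card F ^ (n / p) ≤ 1 * Fintype.card F ^ (10 * n + 5) := by
  apply large_cntA h.he S hbox
  intro B C D E _ _ _ _ V hV
  have hc : V.card ≤ 1 := by
    rw [Finset.card_le_one]
    intro x hx y hy
    exact (hS _ (hV x hx)).trans (hS _ (hV y hy)).symm
  refine (Nat.mul_le_mul_right _ hc).trans (Nat.mul_le_mul_left _ (large_pw ?_))
  have h1 := h.d1
  have h2 := h.ne
  omega

theorem large_S2 {p n e c : ℕ} (h : large_nm p n e c) (S : Finset (Q4 F[X])) (hbox : ∀ G ∈ S, large_bx n e G)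
    (hS : ∀ G ∈ S, G.A ≠ 0 ∧ ∃ P : F[X], P.Monic ∧ Irreducible P ∧ n - c ≤ P.natDegree ∧ P ∣ G.A ∧ P ∣ G.B) :
    S.card * Fintype.card F ^ (n / p) ≤ 3 * Fintype.card F ^ (10 * n + 5) := by
  apply large_cntB h.he S hbox
  intro A C D E hA _ _ _ V hV
  rcases V.eq_empty_or_nonempty with h0 | ⟨x₀, hx₀⟩
  · rw [h0]; simp
  have hA0 : A ≠ 0 := (hS _ (hV x₀ hx₀)).1
  obtain ⟨T, hT1, hT2, hT3⟩ := large_places hA0 (n - c)
  have h2 := h.ne
  have hc := large_union V T (fun P x => P ∣ x) (by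
    intro x hx
    obtain ⟨-, P, hm, hi, hd, hPA, hPB⟩ := hS _ (hV x hx)
    exact ⟨P, hT1 P hm hi hPA hd, hPB⟩) (1 * Fintype.card F ^ (2 * n - e - (n - c) + 1)) (by
    intro P hP W hW
    obtain ⟨hm, hi, -, hd⟩ := hT2 P hP
    rw [one_mul]
    refine (large_class (d := 2 * n - e) hm W ?_ ?_).trans (large_pw (by omega))
    · intro f hf
      exact (hbox _ (hV f (hW f hf).1)).2.1
    · intro f hf g hg
      exact dvd_sub (hW f hf).2 (hW g hg).2)
  have h3 := large_est (K := 1) (d := 2 * n - e) h (large_T h hA hT3) (by omega) hc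
  simpa using h3

theorem large_S3 {p n e c : ℕ} (h : large_nm p n e c) (S : Finset (Q4 F[X])) (hbox : ∀ G ∈ S, large_bx n e G)
    (hS : ∀ G ∈ S, G.A ≠ 0 ∧ ∃ P : F[X], P.Monic ∧ Irreducible P ∧ n - c ≤ P.natDegree ∧ P ∣ G.A ∧ P ∣ G.C) :
    S.card * Fintype.card F ^ (n / p) ≤ 3 * Fintype.card F ^ (10 * n + 5) := by
  apply large_cntC h.he S hbox
  intro A B D E hA _ _ _ V hV
  rcases V.eq_empty_or_nonempty with h0 | ⟨x₀, hx₀⟩
  · rw [h0]; simp
  have hA0 : A ≠ 0 := (hS _ (hV x₀ hx₀)).1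
  obtain ⟨T, hT1, hT2, hT3⟩ := large_places hA0 (n - c)
  have h2 := h.ne
  have hc := large_union V T (fun P x => P ∣ x) (by
    intro x hx
    obtain ⟨-, P, hm, hi, hd, hPA, hPB⟩ := hS _ (hV x hx)
    exact ⟨P, hT1 P hm hi hPA hd, hPB⟩) (1 * Fintype.card F ^ (2 * n - (n - c) + 1)) (by
    intro P hP W hW
    obtain ⟨hm, hi, -, hd⟩ := hT2 P hP
    rw [one_mul]
    refine (large_class (d := 2 * n) hm W ?_ ?_).trans (large_pw (by omega))
    · intro f hf
      exact (hbox _ (hV f (hW f hf).1)).2.2.1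
    · intro f hf g hg
      exact dvd_sub (hW f hf).2 (hW g hg).2)
  have h3 := large_est (K := 1) (d := 2 * n) h (large_T h hA hT3) (by omega) hc
  simpa using h3

theorem large_S4 {p n e c : ℕ} (h : large_nm p n e c) (h2 : (2 : F) ≠ 0) (S : Finset (Q4 F[X]))
    (hbox : ∀ G ∈ S, large_bx n e G)
    (hS : ∀ G ∈ S, G.A ≠ 0 ∧ ∃ P : F[X], P.Monic ∧ Irreducible P ∧ n - c ≤ P.natDegree ∧ P ∣ G.A ∧ ¬ P ∣ G.B ∧
      ¬ P ∣ G.C ∧ P ∣ large_f G.A G.B G.C G.D G.E) :
    S.card * Fintype.card F ^ (n / p) ≤ 9 * Fintype.card F ^ (10 * n + 5) := by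
  apply large_cntE h.he S hbox
  intro A B C D hA _ _ _ V hV
  rcases V.eq_empty_or_nonempty with h0 | ⟨x₀, hx₀⟩
  · rw [h0]; simp
  have hA0 : A ≠ 0 := (hS _ (hV x₀ hx₀)).1
  obtain ⟨T, hT1, hT2, hT3⟩ := large_places hA0 (n - c)
  have hne := h.ne
  have hc := large_union V T (fun P x => P ∣ A ∧ ¬ P ∣ B ∧ ¬ P ∣ C ∧ P ∣ large_f A B C D x) (by
    intro x hx
    obtain ⟨-, P, hm, hi, hd, hPA, hPB⟩ := hS _ (hV x hx)
    exact ⟨P, hT1 P hm hi hPA hd, hPA, hPB⟩) (3 * Fintype.card F ^ (2 * n + 2 * e - (n - c) + 1)) (by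
    intro P hP W hW
    obtain ⟨hm, hi, -, hd⟩ := hT2 P hP
    rcases W.eq_empty_or_nonempty with h0 | ⟨y₀, hy₀⟩
    · rw [h0]; simp
    obtain ⟨-, q1, q2, q3, -⟩ := hW y₀ hy₀
    refine (large_congr (d := 2 * n + 2 * e) hm hi _ _ _ _ (large_ne2 (D := D) hi h2 q1 q2 q3) W ?_).trans
      (Nat.mul_le_mul_left _ (large_pw (by omega)))
    intro f hf
    exact ⟨(hbox _ (hV f (hW f hf).1)).2.2.2.2, (hW f hf).2.2.2.2⟩)
  have h3 := large_est (K := 3) (d := 2 * n + 2 * e) h (large_T h hA hT3) (by omega) hc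
  simpa using h3

theorem large_S5 {p n e c : ℕ} (h : large_nm p n e c) (h2 : (2 : F) ≠ 0) (S : Finset (Q4 F[X]))
    (hbox : ∀ G ∈ S, large_bx n e G)
    (hS : ∀ G ∈ S, G.A ≠ 0 ∧ G.B ^ 3 - 4 * G.A * G.B * G.C + 8 * G.A ^ 2 * G.D = 0) :
    S.card * Fintype.card F ^ (n / p) ≤ 1 * Fintype.card F ^ (10 * n + 5) := by
  apply large_cntD h.he S hbox
  intro A B C E _ _ _ _ V hV
  have hc : V.card ≤ 1 := by
    rw [Finset.card_le_one]
    intro x hx y hy
    obtain ⟨hA, hx'⟩ := hS _ (hV x hx)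
    obtain ⟨-, hy'⟩ := hS _ (hV y hy)
    simp only at hx' hy' hA
    have h3 : (2 : F[X]) ^ 3 * A ^ 2 ≠ 0 := mul_ne_zero (large_two h2) (pow_ne_zero _ hA)
    apply mul_left_cancel₀ h3
    linear_combination hx' - hy'
  refine (Nat.mul_le_mul_right _ hc).trans (Nat.mul_le_mul_left _ (large_pw ?_))
  have h1 := h.d1
  omega

theorem large_S6 {p n e c : ℕ} (h : large_nm p n e c) (h2 : (2 : F) ≠ 0) (S : Finset (Q4 F[X]))
    (hbox : ∀ G ∈ S, large_bx n e G)
    (hS : ∀ G ∈ S, G.A ≠ 0 ∧ 9 * G.B ^ 2 * G.C ^ 2 - 32 * G.A * G.C ^ 3 - 27 * G.B ^ 3 * G.D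
      - 108 * G.A ^ 2 * G.D ^ 2 + 108 * G.A * G.B * G.C * G.D = 0) :
    S.card * Fintype.card F ^ (n / p) ≤ 3 * Fintype.card F ^ (10 * n + 5) := by
  classical
  apply large_cntC h.he S hbox
  intro A B D E _ _ _ _ V hV
  rcases V.eq_empty_or_nonempty with h0 | ⟨x₀, hx₀⟩
  · rw [h0]; simp
  have hA0 : A ≠ 0 := (hS _ (hV x₀ hx₀)).1
  have hc : V.card ≤ 3 := by
    apply large_cubic (2 ^ 5 * A) (-(9 * B ^ 2)) (-(108 * A * B * D)) (27 * B ^ 3 * D + 108 * A ^ 2 * D ^ 2)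
      (mul_ne_zero (large_two h2) hA0)
    intro x hx
    have hx' := (hS _ (hV x hx)).2
    simp only at hx'
    linear_combination -hx'
  refine (Nat.mul_le_mul_right _ hc).trans (Nat.mul_le_mul_left _ (large_pw ?_))
  have h1 := h.d1
  omega

theorem large_S7 (p : ℕ) [Fact p.Prime] [CharP F p] {n e c : ℕ} (h : large_nm p n e c) (h2 : (2 : F) ≠ 0)
    (S : Finset (Q4 F[X])) (hbox : ∀ G ∈ S, large_bx n e G)
    (hS : ∀ G ∈ S, G.A ≠ 0 ∧ large_R0 (large_c3 G.A) (large_c2 G.A G.B G.C G.D) (large_c1 G.A G.B G.C G.D)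
      (large_c0 G.A G.B G.C G.D) ≠ 0 ∧ large_Rs G.A G.B G.C G.D (derivative G.E) = 0) :
    S.card * Fintype.card F ^ (n / p) ≤ 3 * Fintype.card F ^ (10 * n + 5) := by
  classical
  apply large_cntE h.he S hbox
  intro A B C D _ _ _ _ V hV
  rcases V.eq_empty_or_nonempty with h0 | ⟨x₀, hx₀⟩
  · rw [h0]; simp
  obtain ⟨hA0, hR0, -⟩ := hS _ (hV x₀ hx₀)
  have h3 : (V.image derivative).card ≤ 3 := by
    apply large_Rs_roots h2 hA0 hR0
    intro w hw
    obtain ⟨x, hx, rfl⟩ := Finset.mem_image.1 hw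
    exact (hS _ (hV x hx)).2.2
  have h4 : V.card ≤ Fintype.card F ^ ((2 * n + 2 * e) / p + 1) * (V.image derivative).card := by
    apply Finset.card_le_mul_card_image
    intro w hw
    apply large_fib_le p (d := 2 * n + 2 * e) w
    intro f hf
    obtain ⟨hf1, hf2⟩ := Finset.mem_filter.1 hf
    exact ⟨(hbox _ (hV f hf1)).2.2.2.2, hf2⟩
  have d1 := h.d1
  have d2 := h.d2
  calc V.card * Fintype.card F ^ (n / p)
      ≤ (Fintype.card F ^ ((2 * n + 2 * e) / p + 1) * 3) * Fintype.card F ^ (n / p) :=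
        Nat.mul_le_mul_right _ (h4.trans (Nat.mul_le_mul_left _ h3))
    _ = 3 * Fintype.card F ^ ((2 * n + 2 * e) / p + 1 + n / p) := by rw [pow_add]; ring
    _ ≤ 3 * Fintype.card F ^ (2 * n + 2 * e + 1) := Nat.mul_le_mul_left _ (large_pw (by omega))

theorem large_S8 (p : ℕ) [Fact p.Prime] [CharP F p] {n e c : ℕ} (h : large_nm p n e c) (h2 : (2 : F) ≠ 0)
    (S : Finset (Q4 F[X])) (hbox : ∀ G ∈ S, large_bx n e G)
    (hS : ∀ G ∈ S, large_Rs G.A G.B G.C G.D (derivative G.E) ≠ 0 ∧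
      ∃ P : F[X], P.Monic ∧ Irreducible P ∧ n - c ≤ P.natDegree ∧ ¬ P ∣ G.A ∧
      P ∣ large_f G.A G.B G.C G.D G.E ∧ P ∣ derivative (large_f G.A G.B G.C G.D G.E)) :
    S.card * Fintype.card F ^ (n / p) ≤ 1440 * Fintype.card F ^ (10 * n + 5) := by
  classical
  apply large_cntE h.he S hbox
  intro A B C D hA hB hC hD V hV
  have hne := h.ne
  have d1 := h.d1
  have d2 := h.d2
  have d3 := h.d3
  have h4 : V.card ≤ 1440 * (V.image derivative).card := by
    apply Finset.card_le_mul_card_image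
    intro w hw
    obtain ⟨x₀, hx₀, hw0⟩ := Finset.mem_image.1 hw
    have hRs : large_Rs A B C D w ≠ 0 := by rw [← hw0]; exact (hS _ (hV x₀ hx₀)).1
    have hwd : w.natDegree ≤ 2 * n + 2 * e := by
      rw [← hw0]; exact large_dg_der (hbox _ (hV x₀ hx₀)).2.2.2.2
    have hdeg := large_Rs_deg (m := 2 * n + 2 * e) (hA.trans (by omega)) (hB.trans (by omega))
      (hC.trans (by omega)) (hD.trans (by omega)) hwd
    obtain ⟨T, hT1, hT2, hT3⟩ := large_places hRs (n - c)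
    have hT : T.card ≤ 480 := by
      by_contra hcon
      have h5 : 481 * (n - c) ≤ T.card * (n - c) := Nat.mul_le_mul_right _ (by omega)
      omega
    refine (large_union _ T (fun P x => derivative x = w ∧ ¬ P ∣ A ∧ P ∣ large_f A B C D x) ?_ 3 ?_).trans
      (by omega)
    · intro x hx
      obtain ⟨hx1, hx2⟩ := Finset.mem_filter.1 hx
      obtain ⟨-, P, hm, hi, hd, hPA, hPf, hPf'⟩ := hS _ (hV x hx1)
      refine ⟨P, hT1 P hm hi ?_ hd, hx2, hPA, hPf⟩
      rw [← hx2]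
      exact large_Rs_dvd hPf hPf'
    · intro P hP W hW
      rcases W.eq_empty_or_nonempty with h0 | ⟨y₀, hy₀⟩
      · rw [h0]; simp
      obtain ⟨-, -, q2, -⟩ := hW y₀ hy₀
      obtain ⟨hm, hi, -, hd⟩ := hT2 P hP
      apply large_congr_der p (d := 2 * n + 2 * e) hi (by omega) _ _ _ _ w
        (large_ne1 (B := B) (C := C) (D := D) hi h2 q2)
      intro f hf
      obtain ⟨hf1, hf2, hf3, hf4⟩ := hW f hf
      exact ⟨(hbox _ (hV f (Finset.mem_filter.1 hf1).1)).2.2.2.2, hf2, hf4⟩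
  have h5 : (V.image derivative).card ≤ ((large_PL F (2 * n + 2 * e)).image derivative).card := by
    apply Finset.card_le_card
    apply Finset.image_subset_image
    intro x hx
    exact large_mem.2 (hbox _ (hV x hx)).2.2.2.2
  have h6 := large_im (F := F) p (2 * n + 2 * e)
  calc V.card * Fintype.card F ^ (n / p)
      ≤ (1440 * ((large_PL F (2 * n + 2 * e)).image derivative).card) * Fintype.card F ^ ((2 * n + 2 * e) / p + 1) :=
        Nat.mul_le_mul (h4.trans (Nat.mul_le_mul_left _ h5)) (large_pw (by omega))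
    _ = 1440 * (((large_PL F (2 * n + 2 * e)).image derivative).card * Fintype.card F ^ ((2 * n + 2 * e) / p + 1)) := by
        ring
    _ ≤ 1440 * Fintype.card F ^ (2 * n + 2 * e + 1) := Nat.mul_le_mul_left _ h6

end ev

end Pool.Agent.H456.BQ
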