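import Pool.Agent.H456.BQ.Stm4
import Pool.Agent.H456.BQ.T_largeF

/-!
(K18') `S_large` (Poonen's derivative trick). `p = char F`, `q = #F`. `Δ(G) = G.res.disc`, for fixed `A,B,C,D` a cubic `c₃E³ + c₂E² + c₁E + c₀` in `E`, `c₃ = 256A³`; `R₀` = its discriminant
(see T_dsq.lean; a nonzero polynomial in `A,B,C,D` over `F`). Let `n` be large compared to `e` and `c`.
(1) The proportion of the `G` in the box with `A = 0` or `R₀(A,B,C,D) = 0` tends to `0`: `q^(-(2n-2e+1))`, and Schwartz-Zippel over the domain `F[X]` (a nonzero polynomial in several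
variables of degree `d`, the variables in the finite sets `PL` of polynomials of bounded degree `≥ 2n - 2e`: at most `d / q^(2n-2e+1)` of the tuples are zeros).
(2) Write `E = E₀ + E₁^p`, `E₀` without monomials of exponent divisible by `p` (unique, since `F` is perfect; `deg E₁ ≤ (2n+2e)/p`), so `E' = E₀'`, and `E₀ ↦ E₀'` is injective.
If `P² ∣ Δ(G)` then `P ∣ (Δ(G))' = Θ₀(E) + E₀' ∂_EΔ(E)` where `Θ₀(E) = ∂_AΔ A' + ∂_BΔ B' + ∂_CΔ C' + ∂_DΔ D'` is a polynomial in `E` of degree `≤ 3` with coefficients polynomials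
in `A, …, D, A', …, D'`. Fix `A,B,C,D` with `A ≠ 0`, `R₀ ≠ 0`. The resultant `Rs(w)` of `Δ(E)` and `Θ₀(E) + w ∂_EΔ(E)` with respect to `E` (e.g. as the determinant of
multiplication, or `Polynomial.resultant`, or the norm form) is a polynomial in `w` of degree `3` with leading coefficient `± c₃^? R₀ ≠ 0`, so `Rs(E₀') ≠ 0` for all but at most `3`
of the `E₀`. (3) If `Rs := Rs(E₀') ≠ 0`: every `P` with `P ∣ Δ(E)` and `P ∣ Θ₀(E) + E₀'∂_EΔ(E)` divides `Rs`, whose degree is at most `C n` (`C` absolute), so there are at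
most `C n / (n - e) ≤ 2C` such `P` with `deg P ≥ n - e`. For each of them, `P ∤ c₃` as long as... CAREFUL: here `deg P ≥ n - c` while `deg A ≤ 2n - 2e`, so `P ∣ A` is possible.
If `P ∣ A`: treat the event `∃ P, deg P ≥ n - c, P ∣ A, P² ∣ Δ(G)` separately: `A` has at most `2` such divisors `P`, modulo `P`: `Δ ≡ B² disc(B,C,D,E)`, and for `P ∤ B` etc. `E` modulo `P` is
restricted to `≤ 2` classes (`C, D` not both divisible by `P`, ...), each class contains a proportion `≤ q^(-(n-c))` of the `E`; and the proportions of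
`B` divisible by `P`, respectively of `C, D` both divisible by `P`, are `≤ q^(-(n-c))`. If `P ∤ A`: `Δ(E) ≡ 0` mod `P` has at most `3` roots `E` mod `P`; `E₁^p ≡ E - E₀` has at most one solution
`E₁` modulo `P`, hence at most one `E₁` of degree `≤ (2n+2e)/p < n - c` (`p ≥ 3`, `n` large). So at most `6C` values of `E₁` out of `q^(⌊(2n+2e)/p⌋+1)`. All proportions
tend to `0` as `n → ∞`. Everything is a finite counting; the box has `q^(10n+5)` elements (`e ≤ n`).
-/

set_option autoImplicit false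
set_option linter.all false

open Polynomial Finset
open Pool.Agent.H456.EC (toK toK_inj sig toK_eq reflect_toK)

namespace Pool.Agent.H456.BQ

theorem large_count {F : Type} [Field F] [Fintype F] (p : ℕ) [Fact p.Prime] [CharP F p] {n e c : ℕ}
    (h : large_nm p n e c) (h2 : (2 : F) ≠ 0) (S : Finset (Q4 F[X]))
    (hS : ∀ G ∈ S, large_bx n e G ∧ ∃ P : Pl F, n ≤ P.1.natDegree + c ∧ P.1 ^ 2 ∣ G.res.disc) :
    S.card * Fintype.card F ^ (n / p) ≤ 1463 * Fintype.card F ^ (10 * n + 5) := by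
  classical
  set S1 := S.filter (fun G => G.A = 0) with hS1
  set S2 := S.filter (fun G => G.A ≠ 0 ∧ ∃ P : F[X], P.Monic ∧ Irreducible P ∧ n - c ≤ P.natDegree ∧
    P ∣ G.A ∧ P ∣ G.B) with hS2
  set S3 := S.filter (fun G => G.A ≠ 0 ∧ ∃ P : F[X], P.Monic ∧ Irreducible P ∧ n - c ≤ P.natDegree ∧
    P ∣ G.A ∧ P ∣ G.C) with hS3
  set S4 := S.filter (fun G => G.A ≠ 0 ∧ ∃ P : F[X], P.Monic ∧ Irreducible P ∧ n - c ≤ P.natDegree ∧
    P ∣ G.A ∧ ¬ P ∣ G.B ∧ ¬ P ∣ G.C ∧ P ∣ large_f G.A G.B G.C G.D G.E) with hS4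
  set S5 := S.filter (fun G => G.A ≠ 0 ∧ G.B ^ 3 - 4 * G.A * G.B * G.C + 8 * G.A ^ 2 * G.D = 0) with hS5
  set S6 := S.filter (fun G => G.A ≠ 0 ∧ 9 * G.B ^ 2 * G.C ^ 2 - 32 * G.A * G.C ^ 3 - 27 * G.B ^ 3 * G.D
      - 108 * G.A ^ 2 * G.D ^ 2 + 108 * G.A * G.B * G.C * G.D = 0) with hS6
  set S7 := S.filter (fun G => G.A ≠ 0 ∧ large_R0 (large_c3 G.A) (large_c2 G.A G.B G.C G.D)
      (large_c1 G.A G.B G.C G.D) (large_c0 G.A G.B G.C G.D) ≠ 0 ∧
      large_Rs G.A G.B G.C G.D (derivative G.E) = 0) with hS7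
  set S8 := S.filter (fun G => large_Rs G.A G.B G.C G.D (derivative G.E) ≠ 0 ∧
      ∃ P : F[X], P.Monic ∧ Irreducible P ∧ n - c ≤ P.natDegree ∧ ¬ P ∣ G.A ∧
      P ∣ large_f G.A G.B G.C G.D G.E ∧ P ∣ derivative (large_f G.A G.B G.C G.D G.E)) with hS8
  have hcov : S ⊆ S1 ∪ (S2 ∪ (S3 ∪ (S4 ∪ (S5 ∪ (S6 ∪ (S7 ∪ S8)))))) := by
    intro G hG
    obtain ⟨hb, P, hdeg, hP⟩ := hS G hG
    obtain ⟨P, hm, hi⟩ := P
    simp only at hdeg hP
    rw [large_disc] at hP
    change P ^ 2 ∣ large_f G.A G.B G.C G.D G.E at hP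
    have hf : P ∣ large_f G.A G.B G.C G.D G.E := (dvd_pow_self P two_ne_zero).trans hP
    have hf' : P ∣ derivative (large_f G.A G.B G.C G.D G.E) := by
      obtain ⟨u, hu⟩ := hP
      rw [hu, derivative_mul, derivative_pow]
      refine dvd_add (Dvd.dvd.mul_right ?_ _) (Dvd.dvd.mul_right (dvd_pow_self P two_ne_zero) _)
      refine Dvd.dvd.mul_right (Dvd.dvd.mul_left ?_ _) _
      simp
    have hd : n - c ≤ P.natDegree := by omega
    simp only [Finset.mem_union, hS1, hS2, hS3, hS4, hS5, hS6, hS7, hS8, Finset.mem_filter]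
    by_cases hA : G.A = 0
    · exact Or.inl ⟨hG, hA⟩
    by_cases hPA : P ∣ G.A
    · by_cases hPB : P ∣ G.B
      · exact Or.inr (Or.inl ⟨hG, hA, P, hm, hi, hd, hPA, hPB⟩)
      by_cases hPC : P ∣ G.C
      · exact Or.inr (Or.inr (Or.inl ⟨hG, hA, P, hm, hi, hd, hPA, hPC⟩))
      exact Or.inr (Or.inr (Or.inr (Or.inl ⟨hG, hA, P, hm, hi, hd, hPA, hPB, hPC, hf⟩)))
    by_cases h5 : G.B ^ 3 - 4 * G.A * G.B * G.C + 8 * G.A ^ 2 * G.D = 0
    · exact Or.inr (Or.inr (Or.inr (Or.inr (Or.inl ⟨hG, hA, h5⟩))))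
    by_cases h6 : 9 * G.B ^ 2 * G.C ^ 2 - 32 * G.A * G.C ^ 3 - 27 * G.B ^ 3 * G.D
      - 108 * G.A ^ 2 * G.D ^ 2 + 108 * G.A * G.B * G.C * G.D = 0
    · exact Or.inr (Or.inr (Or.inr (Or.inr (Or.inr (Or.inl ⟨hG, hA, h6⟩)))))
    have h7 : large_R0 (large_c3 G.A) (large_c2 G.A G.B G.C G.D)
      (large_c1 G.A G.B G.C G.D) (large_c0 G.A G.B G.C G.D) ≠ 0 := by
      rw [large_R0_fac]
      refine mul_ne_zero (mul_ne_zero ?_ (pow_ne_zero _ h6)) (pow_ne_zero _ h5)
      rw [show (16 : F[X]) = 2 ^ 4 by norm_num]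
      exact large_two h2
    by_cases h8 : large_Rs G.A G.B G.C G.D (derivative G.E) = 0
    · exact Or.inr (Or.inr (Or.inr (Or.inr (Or.inr (Or.inr (Or.inl ⟨hG, hA, h7, h8⟩))))))
    · exact Or.inr (Or.inr (Or.inr (Or.inr (Or.inr (Or.inr (Or.inr ⟨hG, h8, P, hm, hi, hd, hPA, hf, hf'⟩))))))
  have b1 := large_S1 h S1 (fun G hG => (hS G (Finset.mem_filter.1 hG).1).1) (fun G hG => (Finset.mem_filter.1 hG).2)
  have b2 := large_S2 h S2 (fun G hG => (hS G (Finset.mem_filter.1 hG).1).1) (fun G hG => (Finset.mem_filter.1 hG).2)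
  have b3 := large_S3 h S3 (fun G hG => (hS G (Finset.mem_filter.1 hG).1).1) (fun G hG => (Finset.mem_filter.1 hG).2)
  have b4 := large_S4 h h2 S4 (fun G hG => (hS G (Finset.mem_filter.1 hG).1).1)
    (fun G hG => (Finset.mem_filter.1 hG).2)
  have b5 := large_S5 h h2 S5 (fun G hG => (hS G (Finset.mem_filter.1 hG).1).1)
    (fun G hG => (Finset.mem_filter.1 hG).2)
  have b6 := large_S6 h h2 S6 (fun G hG => (hS G (Finset.mem_filter.1 hG).1).1)
    (fun G hG => (Finset.mem_filter.1 hG).2)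
  have b7 := large_S7 p h h2 S7 (fun G hG => (hS G (Finset.mem_filter.1 hG).1).1)
    (fun G hG => (Finset.mem_filter.1 hG).2)
  have b8 := large_S8 p h h2 S8 (fun G hG => (hS G (Finset.mem_filter.1 hG).1).1)
    (fun G hG => (Finset.mem_filter.1 hG).2)
  have hsum : S.card ≤ S1.card + (S2.card + (S3.card + (S4.card + (S5.card + (S6.card + (S7.card + S8.card)))))) := by
    refine (Finset.card_le_card hcov).trans ?_
    refine (Finset.card_union_le _ _).trans (Nat.add_le_add_left ?_ _)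
    refine (Finset.card_union_le _ _).trans (Nat.add_le_add_left ?_ _)
    refine (Finset.card_union_le _ _).trans (Nat.add_le_add_left ?_ _)
    refine (Finset.card_union_le _ _).trans (Nat.add_le_add_left ?_ _)
    refine (Finset.card_union_le _ _).trans (Nat.add_le_add_left ?_ _)
    refine (Finset.card_union_le _ _).trans (Nat.add_le_add_left ?_ _)
    exact Finset.card_union_le _ _
  refine (Nat.mul_le_mul_right _ hsum).trans ?_
  simp only [add_mul]
  omega

theorem t_large : S_large := by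
  intro F _ _ h2 e c δ hδ
  classical
  obtain ⟨p, hpc⟩ := CharP.exists F
  have hpp : p.Prime := (CharP.char_is_prime_or_zero F p).resolve_right (CharP.char_ne_zero_of_finite F p)
  haveI : Fact p.Prime := ⟨hpp⟩
  have hp3 : 3 ≤ p := by
    by_contra hcon
    have h2' := hpp.two_le
    have : p = 2 := by omega
    subst this
    apply h2
    have := CharP.cast_eq_zero F 2
    exact_mod_cast this
  obtain ⟨N, hN⟩ := exists_nat_gt (1463 / δ)
  refine ⟨p * N + 2 * e + 3 * c + 1, fun n hn => ?_⟩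
  have hnm : large_nm p n e c := ⟨hp3, by omega⟩
  have hNn : N ≤ n / p := by
    rw [Nat.le_div_iff_mul_le hpp.pos, mul_comm]
    omega
  have hfin : {G : Q4 F[X] | (G.A.natDegree ≤ 2 * n - 2 * e ∧ G.B.natDegree ≤ 2 * n - e ∧ G.C.natDegree ≤ 2 * n ∧
      G.D.natDegree ≤ 2 * n + e ∧ G.E.natDegree ≤ 2 * n + 2 * e) ∧
      ∃ P : Pl F, n ≤ P.1.natDegree + c ∧ P.1 ^ 2 ∣ G.res.disc}.Finite :=
    (large_bx_fin n e).subset (fun G hG => hG.1)
  rw [Set.ncard_eq_toFinset_card _ hfin]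
  have hc := large_count p hnm h2 hfin.toFinset (fun G hG => by
    have := hfin.mem_toFinset.1 hG
    exact this)
  have hc' : (hfin.toFinset.card : ℝ) * (Fintype.card F : ℝ) ^ (n / p) ≤
      1463 * (Fintype.card F : ℝ) ^ (10 * n + 5) := by exact_mod_cast hc
  have hq : (2 : ℝ) ≤ Fintype.card F := by exact_mod_cast Fintype.one_lt_card
  have hqp : (0 : ℝ) < (Fintype.card F : ℝ) ^ (n / p) := by positivity
  have h1 : (1463 / δ : ℝ) ≤ (Fintype.card F : ℝ) ^ (n / p) := by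
    have h3 : ((n / p : ℕ) : ℝ) < 2 ^ (n / p) := by exact_mod_cast Nat.lt_two_pow_self
    have h4 : (2 : ℝ) ^ (n / p) ≤ (Fintype.card F : ℝ) ^ (n / p) := pow_le_pow_left₀ (by norm_num) hq _
    have h5 : (N : ℝ) ≤ ((n / p : ℕ) : ℝ) := by exact_mod_cast hNn
    linarith
  have h6 : (1463 : ℝ) ≤ δ * (Fintype.card F : ℝ) ^ (n / p) := by
    rw [div_le_iff₀ hδ] at h1
    linarith
  have h7 : (hfin.toFinset.card : ℝ) * (Fintype.card F : ℝ) ^ (n / p) ≤
      (δ * (Fintype.card F : ℝ) ^ (10 * n + 5)) * (Fintype.card F : ℝ) ^ (n / p) := by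
    refine hc'.trans ?_
    have h8 : (0 : ℝ) ≤ (Fintype.card F : ℝ) ^ (10 * n + 5) := by positivity
    nlinarith [mul_le_mul_of_nonneg_right h6 h8]
  exact le_of_mul_le_mul_right h7 hqp

end Pool.Agent.H456.BQ
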