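import Pool.Agent.H456.BQ.Stm4
import Pool.Agent.H456.BQ.T_locI

/-!
(K4) `S_locIS` from `S_locKS`: adapt `locI_main` of T_locI.lean. `τ = locI_tau F`, `κ = tt (-n)`. Apply `S_locKS` at the place
`PlX F` to `f'` and to the pair `s' = ((s.1.sub ⟨1, 0, 0, κ⟩).map τ, τ (κ² s.2))`: its resolvent is `((f'.map toK).sc 4).tr (τ (κ² s.2))`
(`Q4.res_sub` with `tau = 0`, `f'.map sig = (f.map toK).sc κ²`, `τ ∘ sig = toK`), and `LS (PlX F) s'.1` follows from
`LSI s.1 = LS (PlX F) (s.1.map τ)` because a substitution with nonzero determinant preserves the existence of points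
(`Q4.ev_sub`). The matrices are `N i = diag(1, κ) (N' i).map τ`, the rest is as in T_locI.lean.
-/

set_option autoImplicit false
set_option linter.all false

open Polynomial Finset
open Pool.Agent.H456.EC (toK toK_inj sig toK_eq reflect_toK)

namespace Pool.Agent.H456.BQ

section locIS

variable {F : Type} [Field F]

theorem locIS_sol {K : Type*} [Field K] {g : Q4 K} (h : g.Sol) {k : K} (hk : k ≠ 0) :
    (g.sub ⟨1, 0, 0, k⟩).Sol := by
  obtain ⟨u, v, z, hne, hz⟩ := h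
  refine ⟨u, v / k, z, ?_, ?_⟩
  · rintro ⟨h1, h2⟩
    rw [div_eq_zero_iff] at h2
    exact hne ⟨h1, h2.resolve_right hk⟩
  · rw [Q4.ev_sub, hz]
    congr 1
    · simp
    · field_simp
      ring

theorem locIS_q4_map_map (g : Q4 (RatFunc F)) : (g.map (locI_tau F)).map (locI_tau F) = g := by
  ext <;> simp only [Q4.map, locI_tau_tau]

theorem locIS_sub_map {R S : Type*} [CommRing R] [CommRing S] (φ : R →+* S) (g : Q4 R) (k : R) :
    (g.sub ⟨1, 0, 0, k⟩).map φ = (g.map φ).sub ⟨1, 0, 0, φ k⟩ := by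
  rw [Q4.map_sub]
  congr 1
  ext <;> simp [M2.map]

theorem locIS_LS {g : Q4 (RatFunc F)} (h : LSI g) {κ : RatFunc F} (hκ : κ ≠ 0) :
    LS (PlX F) ((g.sub ⟨1, 0, 0, κ⟩).map (locI_tau F)) := by
  intro O L _ _ _ _ _ π ι hLc j hj
  have h1 := h O L π ι hLc j hj
  rw [locIS_sub_map, locIS_sub_map]
  exact locIS_sol h1 ((_root_.map_ne_zero _).2 ((_root_.map_ne_zero _).2 hκ))

theorem locIS_res {f f' : Cub F[X]} {κ : RatFunc F}
    (hf : f'.map (sig F) = (f.map (toK F)).sc (κ ^ 2)) {s : Q4 (RatFunc F) × RatFunc F}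
    (hs : s.1.res = ((f.map (toK F)).sc 4).tr s.2) :
    ((s.1.sub ⟨1, 0, 0, κ⟩).map (locI_tau F)).res =
      ((f'.map (toK F)).sc 4).tr (locI_tau F (κ ^ 2 * s.2)) := by
  have e1 : (s.1.sub ⟨1, 0, 0, κ⟩).res = ((f'.map (sig F)).sc 4).tr (κ ^ 2 * s.2) := by
    rw [Q4.res_sub, hs, hf]
    ext <;> simp only [Cub.tr, Cub.sc, Q4.tau, M2.det] <;> ring
  rw [Q4.map_res, e1, Cub.map_tr, Cub.map_sc, locI_map_tau', map_ofNat]

theorem locIS_main (hK : S_locKS) (F : Type) [Field F] [Fintype F] (h2 : (2 : F) ≠ 0) (n M k : ℕ)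
    (hM : 2 * k + 1 ≤ M) (f f' : Cub F[X])
    (hf : f'.map (sig F) = (f.map (toK F)).sc (tt F (-(n : ℤ)) ^ 2)) (hd : ¬ X ^ (k + 1) ∣ f'.disc)
    (s : Q4 (RatFunc F) × RatFunc F) (hs : s.1.res = ((f.map (toK F)).sc 4).tr s.2)
    (hsol : LSI s.1) :
    ∃ (m : ℕ) (N : Fin m → M2 (RatFunc F)) (g : Fin m → Q4 (RatFunc F)) (H : Fin m → Q4 F[X]),
      (∀ i, (N i).det ≠ 0) ∧
      (∀ i, s.1.sub (N i) = (g i).smul (tt F (2 * n) * (N i).det ^ 2)) ∧
      (∀ i, RedI (g i) (H i)) ∧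
      (∀ i j, i ≠ j → ¬ LEq (Oi F) (N i) (N j)) ∧
      1 + ((f'.map (Ideal.Quotient.mk (Ideal.span {(X : F[X]) ^ M}))).nA : ℝ) /
        (Fintype.card F : ℝ) ^ (M - 1) ≤
        ∑ i, (((H i).map (Ideal.Quotient.mk (Ideal.span {(X : F[X]) ^ 1}))).sp : ℝ) := by
  set κ : RatFunc F := tt F (-(n : ℤ)) with hκ
  have hκ0 : κ ≠ 0 := tt_ne _
  obtain ⟨m, N', g', H, hN', hg', hR', hL', hI'⟩ := hK F h2 (PlX F) M k hM f' hd
    ((s.1.sub ⟨1, 0, 0, κ⟩).map (locI_tau F), locI_tau F (κ ^ 2 * s.2)) (locIS_res hf hs)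
    (locIS_LS hsol hκ0)
  have hdet : ∀ i, ((⟨1, 0, 0, κ⟩ : M2 (RatFunc F)).mul ((N' i).map (locI_tau F))).det =
      κ * locI_tau F (N' i).det := by
    intro i
    rw [M2.det_mul, M2.map_det]
    simp only [M2.det]
    ring
  refine ⟨m, fun i => (⟨1, 0, 0, κ⟩ : M2 (RatFunc F)).mul ((N' i).map (locI_tau F)),
    fun i => (g' i).map (locI_tau F), H, ?_, ?_, ?_, ?_, ?_⟩
  · intro i
    show ((⟨1, 0, 0, κ⟩ : M2 (RatFunc F)).mul ((N' i).map (locI_tau F))).det ≠ 0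
    rw [hdet]
    exact mul_ne_zero hκ0 ((_root_.map_ne_zero _).2 (hN' i))
  · intro i
    show s.1.sub ((⟨1, 0, 0, κ⟩ : M2 (RatFunc F)).mul ((N' i).map (locI_tau F))) =
      ((g' i).map (locI_tau F)).smul
        (tt F (2 * n) * ((⟨1, 0, 0, κ⟩ : M2 (RatFunc F)).mul ((N' i).map (locI_tau F))).det ^ 2)
    have e1 : s.1.sub ⟨1, 0, 0, κ⟩ =
        ((s.1.sub ⟨1, 0, 0, κ⟩).map (locI_tau F)).map (locI_tau F) := (locIS_q4_map_map _).symm
    have e2 : tt F (2 * n) * κ ^ 2 = 1 := by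
      rw [hκ, show (2 * n : ℤ) = n + n by ring, tt_add]
      have := tt_neg (F := F) n
      linear_combination (tt F (-(n : ℤ)) * tt F n + 1) * this
    rw [hdet, ← Q4.sub_mul, e1, ← Q4.map_sub, hg', Q4.map_smul, map_pow]
    congr 1
    linear_combination (-(locI_tau F (N' i).det) ^ 2) * e2
  · intro i
    obtain ⟨r1, r2, r3, r4, r5⟩ := hR' i
    refine ⟨?_, ?_, ?_, ?_, ?_⟩
    · have := locI_I_to_O r1
      rwa [map_sub, locI_tau_toK] at this
    · have := locI_I_to_O r2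
      rwa [map_sub, locI_tau_toK] at this
    · have := locI_I_to_O r3
      rwa [map_sub, locI_tau_toK] at this
    · have := locI_I_to_O r4
      rwa [map_sub, locI_tau_toK] at this
    · have := locI_I_to_O r5
      rwa [map_sub, locI_tau_toK] at this
  · intro i j hij hL
    apply hL' i j hij
    have h3 := locI_LEq hL
    have e : ∀ i, ((⟨1, 0, 0, κ⟩ : M2 (RatFunc F)).mul ((N' i).map (locI_tau F))).map (locI_tau F) =
        (⟨1, 0, 0, locI_tau F κ⟩ : M2 (RatFunc F)).mul (N' i) := by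
      intro i
      rw [M2.map_mul, locI_map_map]
      congr 1
      ext <;> simp only [M2.map, map_one, map_zero]
    simp only [e] at h3
    exact locI_cancel ((_root_.map_ne_zero _).2 hκ0) h3
  · have h5 : (PlX F).1.natDegree = 1 := natDegree_X
    rw [h5, pow_one] at hI'
    exact hI'

end locIS

theorem t_locIS : S_locKS → S_locIS := by
  intro hK F _ _ h2 n M k hM f f' hf hd s hs hsol
  exact locIS_main hK F h2 n M k hM f f' hf hd s hs hsol

end Pool.Agent.H456.BQ
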