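import Pool.Agent.H456.BQ.Stm4
import Pool.Agent.H456.BQ.T_locI

/-!
(K13) `S_locIU` from `S_locKU` at the place `PlX F`, by the automorphism `τ = locI_tau F`, as in T_locI.lean (and as in `S_locIS`: the pair is
`s' = ((s.1.sub ⟨1, 0, 0, κ⟩).map τ, τ (κ² s.2))`, `κ = tt (-n)`; the matrices are `N' i = (diag(1, κ)⁻¹ (N i)).map τ`, the quartics `(g i).map τ`).
`RedI (g i) (H i)` gives `RedTo (PlX F) ((g i).map τ) (H i)`; `LEq (LocP (PlX F)) (N' i) (N' j)` gives `LEq (Oi F) (N i) (N j)`.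
-/

set_option autoImplicit false
set_option linter.all false

open Polynomial Finset
open Pool.Agent.H456.EC (toK toK_inj sig toK_eq reflect_toK)

namespace Pool.Agent.H456.BQ

section locIU

variable {F : Type} [Field F]

theorem locIU_res {f f' : Cub F[X]} {κ : RatFunc F} (hf : f'.map (sig F) = (f.map (toK F)).sc (κ ^ 2))
    {s : Q4 (RatFunc F) × RatFunc F} (hs : s.1.res = ((f.map (toK F)).sc 4).tr s.2) :
    ((s.1.sub ⟨1, 0, 0, κ⟩).map (locI_tau F)).res =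
      ((f'.map (toK F)).sc 4).tr (locI_tau F (κ ^ 2 * s.2)) := by
  have h1 : (s.1.sub ⟨1, 0, 0, κ⟩).res = ((f'.map (sig F)).sc 4).tr (κ ^ 2 * s.2) := by
    have e1 : (⟨1, 0, 0, κ⟩ : M2 (RatFunc F)).det = κ := by
      simp only [M2.det]
      ring
    have e2 : s.1.tau ⟨1, 0, 0, κ⟩ = 0 := by
      simp only [Q4.tau]
      ring
    rw [Q4.res_sub, e1, e2, Cub.tr_zero, hs, Cub.sc_tr, Cub.sc_sc, hf, Cub.sc_sc, mul_comm 4]
  rw [Q4.map_res, h1, Cub.map_tr, Cub.map_sc, locI_map_tau', map_ofNat]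

theorem locIU_LS {g : Q4 (RatFunc F)} (hg : LSI g) {κ : RatFunc F} (hκ : κ ≠ 0) :
    LS (PlX F) ((g.sub ⟨1, 0, 0, κ⟩).map (locI_tau F)) := by
  intro O L _ _ _ _ _ π ι hL j hj
  obtain ⟨u, v, z, huv, hz⟩ := hg O L π ι hL j hj
  have hd : j (locI_tau F κ) ≠ 0 := (_root_.map_ne_zero j).2 ((_root_.map_ne_zero _).2 hκ)
  refine ⟨u, v / j (locI_tau F κ), z, ?_, ?_⟩
  · rintro ⟨h1, h2⟩
    apply huv
    refine ⟨h1, ?_⟩
    rcases div_eq_zero_iff.1 h2 with h | h
    · exact h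
    · exact absurd h hd
  · rw [Q4.map_sub, Q4.map_sub, Q4.ev_sub, hz]
    have e1 : (((⟨1, 0, 0, κ⟩ : M2 (RatFunc F)).map (locI_tau F)).map j).α = 1 := by
      simp only [M2.map, map_one]
    have e2 : (((⟨1, 0, 0, κ⟩ : M2 (RatFunc F)).map (locI_tau F)).map j).β = 0 := by
      simp only [M2.map, map_zero]
    have e3 : (((⟨1, 0, 0, κ⟩ : M2 (RatFunc F)).map (locI_tau F)).map j).γ = 0 := by
      simp only [M2.map, map_zero]
    have e4 : (((⟨1, 0, 0, κ⟩ : M2 (RatFunc F)).map (locI_tau F)).map j).δ = j (locI_tau F κ) := by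
      simp only [M2.map]
    rw [e1, e2, e3, e4, one_mul, zero_mul, add_zero, zero_mul, zero_add, mul_div_cancel₀ _ hd]

theorem locIU_O_to_I {x : RatFunc F} (hx : x * tt F 1 ∈ Oi F) : LocI (PlX F) (locI_tau F x) := by
  obtain ⟨a, b, hb, h⟩ := locI_O_to_P hx
  refine ⟨a, b, hb, ?_⟩
  have h1 : tt F 1 = RatFunc.X := zpow_one _
  rw [h1, map_mul, locI_tau_X] at h
  show toK F b * locI_tau F x = toK F (X * a)
  rw [map_mul, ← h, locI_toK_X]
  have h2 : (RatFunc.X : RatFunc F)⁻¹ * RatFunc.X = 1 := inv_mul_cancel₀ RatFunc.X_ne_zero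
  linear_combination (-(toK F b * locI_tau F x)) * h2

/-- the restriction of `τ` -/
noncomputable def locIU_rho (F : Type) [Field F] : LocP (PlX F) →+* Oi F :=
  (locI_tau F).restrict (LocP (PlX F)) (Oi F) (fun _ hx => locI_P_to_O hx)

theorem locIU_LEq {N N' : M2 (RatFunc F)} (h : LEq (LocP (PlX F)) N N') :
    LEq (Oi F) (N.map (locI_tau F)) (N'.map (locI_tau F)) := by
  obtain ⟨c, V, hc, hV, e⟩ := h
  refine ⟨locI_tau F c, V.map (locIU_rho F), (_root_.map_ne_zero _).2 hc, ?_, ?_⟩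
  · rw [M2.map_det]
    exact hV.map _
  · rw [e]
    ext <;> simp only [M2.map, M2.mul, M2.scal, map_mul, map_add] <;> rfl

theorem locIU_main (hK : S_locKU) (F : Type) [Field F] [Fintype F] (h2 : (2 : F) ≠ 0) (n M k : ℕ)
    (hM : 2 * k + 1 ≤ M) (f f' : Cub F[X])
    (hf : f'.map (sig F) = (f.map (toK F)).sc (tt F (-(n : ℤ)) ^ 2)) (hd : ¬ X ^ (k + 1) ∣ f'.disc)
    (s : Q4 (RatFunc F) × RatFunc F) (hs : s.1.res = ((f.map (toK F)).sc 4).tr s.2) (hls : LSI s.1)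
    (m : ℕ) (N : Fin m → M2 (RatFunc F)) (g : Fin m → Q4 (RatFunc F)) (H : Fin m → Q4 F[X])
    (hN : ∀ i, (N i).det ≠ 0)
    (hg : ∀ i, s.1.sub (N i) = (g i).smul (tt F (2 * n) * (N i).det ^ 2))
    (hR : ∀ i, RedI (g i) (H i))
    (hL : ∀ i j, i ≠ j → ¬ LEq (Oi F) (N i) (N j)) :
      ∑ i, (((H i).map (Ideal.Quotient.mk (Ideal.span {(X : F[X]) ^ 1}))).sp : ℝ) ≤
      1 + ((f'.map (Ideal.Quotient.mk (Ideal.span {(X : F[X]) ^ M}))).nA : ℝ) /
        (Fintype.card F : ℝ) ^ (M - 1) := by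
  set κ : RatFunc F := tt F (-(n : ℤ)) with hκ
  have hκ0 : κ ≠ 0 := tt_ne _
  have hκi : κ⁻¹ ≠ 0 := inv_ne_zero hκ0
  have hdet : ∀ i, (((⟨1, 0, 0, κ⁻¹⟩ : M2 (RatFunc F)).mul (N i)).map (locI_tau F)).det =
      locI_tau F (κ⁻¹ * (N i).det) := by
    intro i
    rw [M2.map_det, M2.det_mul]
    congr 2
    simp only [M2.det]
    ring
  have hcan : ∀ i, (⟨1, 0, 0, κ⟩ : M2 (RatFunc F)).mul ((⟨1, 0, 0, κ⁻¹⟩ : M2 (RatFunc F)).mul (N i)) =
      N i := by
    intro i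
    have e : κ * κ⁻¹ = 1 := mul_inv_cancel₀ hκ0
    ext <;> simp only [M2.mul]
    · ring
    · ring
    · linear_combination (N i).γ * e
    · linear_combination (N i).δ * e
  have hκ2 : tt F (2 * n) = (κ⁻¹) ^ 2 := by
    have e2 : tt F (2 * n) * κ ^ 2 = 1 := by
      rw [hκ, show (2 * n : ℤ) = n + n by ring, tt_add]
      have := tt_neg (F := F) n
      linear_combination (tt F (-(n : ℤ)) * tt F n + 1) * this
    rw [inv_pow]
    exact eq_inv_of_mul_eq_one_left e2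
  have hI := hK F h2 (PlX F) M k hM f' hd
    ((s.1.sub ⟨1, 0, 0, κ⟩).map (locI_tau F), locI_tau F (κ ^ 2 * s.2)) (locIU_res hf hs)
    (locIU_LS hls hκ0) m
    (fun i => ((⟨1, 0, 0, κ⁻¹⟩ : M2 (RatFunc F)).mul (N i)).map (locI_tau F))
    (fun i => (g i).map (locI_tau F)) H
    (by
      intro i
      show (((⟨1, 0, 0, κ⁻¹⟩ : M2 (RatFunc F)).mul (N i)).map (locI_tau F)).det ≠ 0
      rw [hdet]
      exact (_root_.map_ne_zero _).2 (mul_ne_zero hκi (hN i)))
    (by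
      intro i
      show ((s.1.sub ⟨1, 0, 0, κ⟩).map (locI_tau F)).sub
          (((⟨1, 0, 0, κ⁻¹⟩ : M2 (RatFunc F)).mul (N i)).map (locI_tau F)) =
        ((g i).map (locI_tau F)).smul
          ((((⟨1, 0, 0, κ⁻¹⟩ : M2 (RatFunc F)).mul (N i)).map (locI_tau F)).det ^ 2)
      rw [hdet, ← Q4.map_sub, Q4.sub_mul, hcan, hg, Q4.map_smul, ← map_pow]
      congr 2
      rw [hκ2]
      ring)
    (by
      intro i
      obtain ⟨r1, r2, r3, r4, r5⟩ := hR i
      refine ⟨?_, ?_, ?_, ?_, ?_⟩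
      · have := locIU_O_to_I r1
        rwa [map_sub, locI_tau_sig] at this
      · have := locIU_O_to_I r2
        rwa [map_sub, locI_tau_sig] at this
      · have := locIU_O_to_I r3
        rwa [map_sub, locI_tau_sig] at this
      · have := locIU_O_to_I r4
        rwa [map_sub, locI_tau_sig] at this
      · have := locIU_O_to_I r5
        rwa [map_sub, locI_tau_sig] at this)
    (by
      intro i j hij h
      apply hL i j hij
      have h3 := locIU_LEq h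
      simp only [locI_map_map] at h3
      exact locI_cancel hκi h3)
  have h5 : (PlX F).1.natDegree = 1 := natDegree_X
  have h6 : (Fintype.card F : ℝ) ^ (PlX F).1.natDegree = Fintype.card F := by rw [h5, pow_one]
  rw [h6] at hI
  exact hI

end locIU

theorem t_locIU : S_locKU → S_locIU := by
  intro hK F _ _ h2 n M k hM f f' hf hd s hs hls m N g H hN hg hR hL
  exact locIU_main hK F h2 n M k hM f f' hf hd s hs hls m N g H hN hg hR hL

end Pool.Agent.H456.BQ
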