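import Pool.Agent.H456.BQ.Stm4
import Pool.Agent.H456.BQ.T_locK

/-!
(K3) `S_locKS`: the local lattices of a pair which is soluble at `P` (helper154).
-/

set_option autoImplicit false
set_option linter.all false

open Polynomial Finset
open Pool.Agent.H456.EC (toK toK_inj sig toK_eq reflect_toK)

namespace Pool.Agent.H456.BQ

/-- the passage from the completion to `F(t)`, for an arbitrary quartic -/
theorem locKS_main (hhnf : S_hnf) (hspinv : S_spinv) {F : Type} [Field F] [Fintype F]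
    (h2 : (2 : F) ≠ 0) (P : Pl F) (O : Type) [CommRing O] [IsDomain O] (π : O) (ι : F[X] →+* O)
    (hL : Lc P.1 π ι) (L : Type) [Field L] [Algebra O L] [IsFractionRing O L] (j : RatFunc F →+* L)
    (hj : ∀ x : F[X], j (toK F x) = algebraMap O L (ι x)) (q : Q4 (RatFunc F)) (B : ℝ)
    (n : ℕ) (N₀ : Fin n → M2 L) (G₀ : Fin n → Q4 O) (H₀ : Fin n → Q4 F[X])
    (hdet : ∀ i, (N₀ i).det ≠ 0)
    (hsub : ∀ i, (q.map j).sub (N₀ i) = ((G₀ i).map (algebraMap O L)).smul ((N₀ i).det ^ 2))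
    (hcong : ∀ i, (π ∣ (G₀ i).A - ι (H₀ i).A) ∧ (π ∣ (G₀ i).B - ι (H₀ i).B) ∧
      (π ∣ (G₀ i).C - ι (H₀ i).C) ∧ (π ∣ (G₀ i).D - ι (H₀ i).D) ∧ (π ∣ (G₀ i).E - ι (H₀ i).E))
    (hneq : ∀ i j, i ≠ j → ¬ LEq O (N₀ i) (N₀ j))
    (hcount : B ≤ ∑ i, (((H₀ i).map (Ideal.Quotient.mk (Ideal.span {P.1 ^ 1}))).sp : ℝ)) :
    ∃ (n : ℕ) (N : Fin n → M2 (RatFunc F)) (g : Fin n → Q4 (RatFunc F)) (H : Fin n → Q4 F[X]),
      (∀ i, (N i).det ≠ 0) ∧
      (∀ i, q.sub (N i) = (g i).smul ((N i).det ^ 2)) ∧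
      (∀ i, RedTo P (g i) (H i)) ∧
      (∀ i j, i ≠ j → ¬ LEq (LocP P) (N i) (N j)) ∧
      B ≤ ∑ i, (((H i).map (Ideal.Quotient.mk (Ideal.span {P.1 ^ 1}))).sp : ℝ) := by
  have hN : ∀ i, ∃ N' : M2 (RatFunc F), N'.det ≠ 0 ∧ LEq O (N₀ i) (N'.map j) := fun i =>
    hhnf F P O L π ι hL j hj (N₀ i) (hdet i)
  choose N hNdet hNleq using hN
  choose c V hc hV hNV using hNleq
  have hd : ∀ i, ∃ d, d * (V i).det = 1 := fun i => (hV i).exists_left_inv
  choose d hd using hd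
  set g : Fin n → Q4 (RatFunc F) := fun i =>
    (q.sub (N i)).smul (((N i).det)⁻¹ ^ 2) with hg
  set G₁ : Fin n → Q4 O := fun i => ((G₀ i).sub (V i)).smul (d i ^ 2) with hG₁
  have hgmap : ∀ i, (g i).map j = (G₁ i).map (algebraMap O L) := by
    intro i
    have hdi : algebraMap O L (d i) * algebraMap O L (V i).det = 1 := by
      rw [← map_mul, hd i, map_one]
    have hdetV : algebraMap O L (V i).det ≠ 0 := by
      intro h0
      rw [h0, mul_zero] at hdi
      exact zero_ne_one hdi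
    have hdetN : ((N i).map j).det = c i ^ 2 * ((N₀ i).det * algebraMap O L (V i).det) := by
      rw [hNV i, M2.det_scal, M2.det_mul, M2.map_det]
    have e1 : (g i).map j = ((q.map j).sub
        ((N i).map j)).smul ((((N i).map j).det)⁻¹ ^ 2) := by
      rw [hg]
      simp only
      rw [Q4.map_smul, Q4.map_sub, M2.map_det, map_pow, map_inv₀]
    have e2 : (G₁ i).map (algebraMap O L) = (((G₀ i).map (algebraMap O L)).sub
        ((V i).map (algebraMap O L))).smul (algebraMap O L (d i) ^ 2) := by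
      rw [hG₁]
      simp only
      rw [Q4.map_smul, Q4.map_sub, map_pow]
    rw [e1, e2, hdetN, hNV i, Q4.sub_scal, ← Q4.sub_mul, hsub i, Q4.smul_sub, Q4.smul_smul,
      Q4.smul_smul]
    congr 1
    have hci := hc i
    have hN0 := hdet i
    have h3 : algebraMap O L (d i) = (algebraMap O L (V i).det)⁻¹ := eq_inv_of_mul_eq_one_left hdi
    rw [h3]
    field_simp
  have hH : ∀ i, ∃ H : Q4 F[X], (π ∣ (G₁ i).A - ι H.A) ∧ (π ∣ (G₁ i).B - ι H.B) ∧
      (π ∣ (G₁ i).C - ι H.C) ∧ (π ∣ (G₁ i).D - ι H.D) ∧ (π ∣ (G₁ i).E - ι H.E) := by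
    intro i
    obtain ⟨hA, hA'⟩ := hL.dense 1 (G₁ i).A
    obtain ⟨hB, hB'⟩ := hL.dense 1 (G₁ i).B
    obtain ⟨hC, hC'⟩ := hL.dense 1 (G₁ i).C
    obtain ⟨hD, hD'⟩ := hL.dense 1 (G₁ i).D
    obtain ⟨hE, hE'⟩ := hL.dense 1 (G₁ i).E
    rw [pow_one] at hA' hB' hC' hD' hE'
    exact ⟨⟨hA, hB, hC, hD, hE⟩, hA', hB', hC', hD', hE'⟩
  choose H hH using hH
  obtain ⟨φ, hφ, hφ0⟩ := locK_phi hL
  have hφmap : ∀ (G : Q4 O) (H : Q4 F[X]), ((π ∣ G.A - ι H.A) ∧ (π ∣ G.B - ι H.B) ∧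
      (π ∣ G.C - ι H.C) ∧ (π ∣ G.D - ι H.D) ∧ (π ∣ G.E - ι H.E)) →
      H.map (Ideal.Quotient.mk (Ideal.span {P.1 ^ 1})) = G.map φ := by
    have h3 : ∀ (z : O) (x : F[X]), π ∣ z - ι x →
        Ideal.Quotient.mk (Ideal.span {P.1 ^ 1}) x = φ z := by
      intro z x hz
      have h4 := hφ0 _ hz
      rw [map_sub, hφ, sub_eq_zero] at h4
      exact h4.symm
    rintro G H ⟨hA, hB, hC, hD, hE⟩
    ext
    · exact h3 _ _ hA
    · exact h3 _ _ hB
    · exact h3 _ _ hC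
    · exact h3 _ _ hD
    · exact h3 _ _ hE
  have hsp : ∀ i, ((H i).map (Ideal.Quotient.mk (Ideal.span {P.1 ^ 1}))).sp =
      ((H₀ i).map (Ideal.Quotient.mk (Ideal.span {P.1 ^ 1}))).sp := by
    intro i
    rw [hφmap (G₁ i) (H i) (hH i), hφmap (G₀ i) (H₀ i) (hcong i)]
    have e2 : (G₁ i).map φ = (((G₀ i).map φ).sub ((V i).map φ)).smul (φ (d i) ^ 2) := by
      rw [hG₁]
      simp only
      rw [Q4.map_smul, Q4.map_sub, map_pow]
    rw [e2]
    refine hspinv (Rq (P.1 ^ 1)) locK_field (locK_two h2) _ _ _ ?_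
    rw [M2.map_det, ← map_mul, hd i, map_one]
  refine ⟨n, N, g, H, hNdet, ?_, ?_, ?_, ?_⟩
  · intro i
    rw [hg]
    simp only
    rw [Q4.smul_smul]
    have h3 : (N i).det⁻¹ ^ 2 * (N i).det ^ 2 = 1 := by
      rw [← mul_pow, inv_mul_cancel₀ (hNdet i), one_pow]
    rw [h3, Q4.smul_one]
  · intro i
    have h3 := hgmap i
    obtain ⟨hA, hB, hC, hD, hE⟩ := hH i
    exact ⟨locK_red hL hj (congrArg Q4.A h3) hA, locK_red hL hj (congrArg Q4.B h3) hB,
      locK_red hL hj (congrArg Q4.C h3) hC, locK_red hL hj (congrArg Q4.D h3) hD,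
      locK_red hL hj (congrArg Q4.E h3) hE⟩
  · intro i i' hii h
    apply hneq i i' hii
    have h3 := locK_leq_loc hL hj h
    have h4 : LEq O (N₀ i) ((N i).map j) := ⟨c i, V i, hc i, hV i, hNV i⟩
    have h5 : LEq O (N₀ i') ((N i').map j) := ⟨c i', V i', hc i', hV i', hNV i'⟩
    exact locK_leq_trans h4 (locK_leq_trans h3 (locK_leq_symm h5))
  · refine hcount.trans (le_of_eq ?_)
    exact Finset.sum_congr rfl fun i _ => by rw [hsp i]

/-- cancellation of a matrix on the left -/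
theorem locKS_leq {O : Type} {L : Type} [CommRing O] [Field L] [Algebra O L] {M N N' : M2 L}
    (hM : M.det ≠ 0) (h : LEq O (M.adj.mul N) (M.adj.mul N')) : LEq O N N' := by
  obtain ⟨c, V, hc, hV, e⟩ := h
  refine ⟨c, V, hc, hV, ?_⟩
  have h1 : ∀ A : M2 L, M.mul (M.adj.mul A) = A.scal M.det := by
    intro A
    rw [← M2.mul_assoc, M2.mul_adj]
    ext <;> simp only [M2.mul, M2.scal] <;> ring
  have h2 : M.mul (M.adj.mul N') = M.mul (((M.adj.mul N).mul (V.map (algebraMap O L))).scal c) := by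
    rw [e]
  rw [h1, M2.mul_scal, M2.mul_assoc, h1, M2.scal_scal] at h2
  have ha := congrArg M2.α h2
  have hb := congrArg M2.β h2
  have hg := congrArg M2.γ h2
  have hd := congrArg M2.δ h2
  simp only [M2.scal] at ha hb hg hd
  ext
  · apply mul_left_cancel₀ hM
    simp only [M2.scal]
    rw [ha]; ring
  · apply mul_left_cancel₀ hM
    simp only [M2.scal]
    rw [hb]; ring
  · apply mul_left_cancel₀ hM
    simp only [M2.scal]
    rw [hg]; ring
  · apply mul_left_cancel₀ hM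
    simp only [M2.scal]
    rw [hd]; ring

/-- the inverse substitution -/
theorem locKS_inv {L : Type} [Field L] {f : Cub L} {x y : L} {M : M2 L} {G : Q4 L} {ρ : L}
    (h : Rep f x y M G ρ) : G.sub M.adj = (gp f x y).smul (M.det ^ 2) := by
  have h2 : (gp f x y).sub (M.mul M.adj) = (G.sub M.adj).smul (M.det ^ 2) := by
    rw [← Q4.sub_mul, h.sub, Q4.smul_sub]
  rw [M2.mul_adj, Q4.sub_scalar] at h2
  apply Q4.smul_cancel (pow_ne_zero 2 h.det)
  rw [← h2, Q4.smul_smul]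
  congr 1
  ring

theorem t_locKS : S_comp4 → S_loc → S_hnf → S_spinv → S_sol → S_nz → S_locKS := by
  intro hcomp hloc hhnf hspinv hsol hnz F _ _ h2 P M k hMk f hdisc s hres hLS
  obtain ⟨O, _, _, π, ι, hL4⟩ := hcomp F P.1 P.2.1 P.2.2
  have hL := hL4.toLc
  have hinj : Function.Injective ((algebraMap O (FractionRing O)).comp ι) :=
    (IsFractionRing.injective O (FractionRing O)).comp (locK_inj hL)
  obtain ⟨L, _, _, _, j, hj⟩ : ∃ (L : Type) (_ : Field L) (_ : Algebra O L)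
      (_ : IsFractionRing O L) (j : RatFunc F →+* L),
      ∀ x : F[X], j (toK F x) = algebraMap O L (ι x) :=
    ⟨FractionRing O, inferInstance, inferInstance, inferInstance, IsFractionRing.lift hinj,
      fun x => IsFractionRing.lift_algebraMap hinj x⟩
  have hS : (s.1.map j).Sol := hLS O L π ι hL4 j hj
  obtain ⟨fL, hfL⟩ : ∃ fL : Cub L, fL = (f.map ι).map (algebraMap O L) := ⟨_, rfl⟩
  have hfj : fL = (f.map (toK F)).map j := by
    rw [hfL]
    ext <;> simp only [Cub.map, hj]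
  have hresL : (s.1.map j).res = (fL.sc 4).tr (j s.2) := by
    rw [Q4.map_res, hres, Cub.map_tr, Cub.map_sc, ← hfj, map_ofNat]
  have h2L : (2 : L) ≠ 0 := by
    have h3 : (2 : RatFunc F) ≠ 0 := by
      intro h0
      apply h2
      have h4 : toK F (C 2) = 0 := by
        rw [map_ofNat C 2, map_ofNat, h0]
      have h5 := (map_eq_zero_iff _ toK_inj).1 h4
      exact C_eq_zero.1 h5
    intro h0
    apply h3
    apply (map_eq_zero_iff j j.injective).1
    rw [map_ofNat, h0]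
  have hfd : fL.disc ≠ 0 := by
    rw [hfj, Cub.map_disc, Cub.map_disc]
    intro h0
    have h3 := (map_eq_zero_iff _ toK_inj).1 ((map_eq_zero_iff j j.injective).1 h0)
    exact hdisc (by rw [h3]; exact dvd_zero _)
  have hgd : (s.1.map j).res.disc ≠ 0 := by
    rw [hresL, Cub.disc_tr, Cub.disc_sc]
    refine mul_ne_zero (pow_ne_zero 6 ?_) hfd
    have : (4 : L) = 2 ^ 2 := by norm_num
    rw [this]
    exact pow_ne_zero 2 h2L
  obtain ⟨u, v, z, huv, hz, hzev⟩ := hnz F h2 P.1 O L π ι hL (s.1.map j) hgd hS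
  obtain ⟨x, y, M₀, hxy, hrep⟩ := hsol L h2L fL (s.1.map j, j s.2) hresL u v z huv hz hzev
  obtain ⟨n, N₀, G₀, H₀, hdet, hsub, hcong, hneq, hcount⟩ :=
    hloc F h2 P O L π ι hL M k hMk f hdisc x y (by rw [← hfL]; exact hxy)
  rw [← hfL] at hsub
  have hinv := locKS_inv hrep
  refine locKS_main hhnf hspinv h2 P O π ι hL L j hj s.1 _ n (fun i => M₀.adj.mul (N₀ i)) G₀ H₀
    ?_ ?_ hcong ?_ hcount
  · intro i
    rw [M2.det_mul, M2.det_adj]
    exact mul_ne_zero hrep.det (hdet i)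
  · intro i
    simp only at hinv
    rw [← Q4.sub_mul, hinv, Q4.smul_sub, hsub i, Q4.smul_smul, M2.det_mul, M2.det_adj]
    congr 1
    ring
  · intro i i' hii h
    exact hneq i i' hii (locKS_leq hrep.det h)

end Pool.Agent.H456.BQ
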