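import Pool.Agent.H456.BQ.Stm4
import Pool.Agent.H456.BQ.T_locK

/-!
(K12) `S_locKU` from `S_comp4`, `S_sol`, `S_nz`, `S_locUp`. As in T_locK.lean: `(O, π, ι)`, `L = FractionRing O`, `j : RatFunc F →+* L`; the pair `s` becomes over `L`
the pair of a point `(x, y)`: `Rep (f.map ..) x y M₀ (s.1.map j) (j s.2)`. The matrices `M₀.mul ((N i).map j)` are lattices for `gp f x y` with integral quartics `G i`
(image of `g i`, integral by `RedTo`: entries in `LocP P`, mapped by `j` into `O`), reductions `H i`. If two of them are `LEq O`, i.e.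
`(N i').map j = (((N i).map j).mul V).scal c`, `V ∈ GL₂(O)`, `c ∈ L`: `c = unit * π^m`, replace `c` by `j (P^m)` (`ι P = unit * π`), then the matrix
`W = (N i)⁻¹ (N i') P^(-m)` over `F(t)` becomes a matrix of `GL₂(O)`, so its entries and the inverse of its determinant lie in `LocP P`
(`locK_mem`), and `LEq (LocP P) (N i) (N i')`. Apply `S_locUp`.
-/

set_option autoImplicit false
set_option linter.all false

open Polynomial Finset
open Pool.Agent.H456.EC (toK toK_inj sig toK_eq reflect_toK)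

namespace Pool.Agent.H456.BQ

section locKU

variable {F : Type} [Field F] {P : Pl F} {O : Type} [CommRing O] [IsDomain O]
  {π : O} {ι : F[X] →+* O}

/-- the uniformizers -/
theorem locKU_P (hL : Lc P.1 π ι) : ∃ u : O, IsUnit u ∧ ι P.1 = u * π := by
  have h0 : ι P.1 ≠ 0 := fun h => P.2.2.ne_zero (locK_inj hL (by rw [h, map_zero]))
  obtain ⟨k, u, hu, h⟩ := hL.pow _ h0
  have hk1 : 1 ≤ k := by
    by_contra hk
    have hk0 : k = 0 := by omega
    rw [hk0, pow_zero, mul_one] at h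
    have h1 : π ∣ ι P.1 := (locK_dvd hL _).2 dvd_rfl
    rw [h] at h1
    exact hL.nonunit (isUnit_of_dvd_unit h1 hu)
  have hk2 : k ≤ 1 := by
    by_contra hk
    have h1 : π ^ 2 ∣ ι P.1 := by
      rw [h]
      exact Dvd.dvd.mul_left (pow_dvd_pow π (by omega)) u
    have h2 : P.1 ^ 2 ∣ P.1 := (hL.dvd 2 P.1).1 h1
    have h3 := natDegree_le_of_dvd h2 P.2.2.ne_zero
    rw [natDegree_pow] at h3
    have h4 : 0 < P.1.natDegree := P.2.2.natDegree_pos
    omega
  have hk : k = 1 := le_antisymm hk2 hk1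
  rw [hk, pow_one] at h
  exact ⟨u, hu, h⟩

variable {L : Type} [Field L] [Algebra O L] [IsFractionRing O L] {j : RatFunc F →+* L}

theorem locKU_locI (hL : Lc P.1 π ι) (hj : ∀ x : F[X], j (toK F x) = algebraMap O L (ι x))
    {x : RatFunc F} (h : LocI P x) : ∃ z : O, π ∣ z ∧ algebraMap O L z = j x := by
  obtain ⟨a, b, hb, h⟩ := h
  obtain ⟨w, hw⟩ := (locK_unit hL hb).exists_right_inv
  refine ⟨ι (P.1 * a) * w, ?_, ?_⟩
  · rw [map_mul]
    exact Dvd.dvd.mul_right (Dvd.dvd.mul_right ((locK_dvd hL _).2 dvd_rfl) _) _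
  · have h1 := congrArg j h
    rw [map_mul, hj, hj] at h1
    have h2 := congrArg (algebraMap O L) hw
    rw [map_mul, map_one] at h2
    rw [map_mul, ← h1]
    linear_combination (j x) * h2

theorem locKU_mem (hL : Lc P.1 π ι) (hj : ∀ x : F[X], j (toK F x) = algebraMap O L (ι x))
    {x : RatFunc F} {z : O} (hz : j x = algebraMap O L z) : x ∈ LocP P := by
  obtain ⟨h, hh⟩ := hL.dense 1 z
  rw [pow_one] at hh
  obtain ⟨a, b, hb, h1⟩ := locK_red hL hj hz hh
  have h2 : x - toK F h ∈ LocP P := ⟨P.1 * a, b, hb, h1⟩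
  have h3 : toK F h ∈ LocP P :=
    ⟨h, 1, fun h => P.2.2.not_isUnit (isUnit_of_dvd_one h), by rw [map_one, one_mul]⟩
  have h4 := (LocP P).add_mem h2 h3
  rwa [sub_add_cancel] at h4

/-- the scalars of `L` come from `F(t)` up to units -/
theorem locKU_scal (hL : Lc P.1 π ι) (hj : ∀ x : F[X], j (toK F x) = algebraMap O L (ι x))
    {c : L} (hc : c ≠ 0) :
    ∃ (u : O) (c₀ : RatFunc F), IsUnit u ∧ c₀ ≠ 0 ∧ c = algebraMap O L u * j c₀ := by
  obtain ⟨a, b, hb, hab⟩ := IsFractionRing.div_surjective (A := O) c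
  have hb0 : b ≠ 0 := nonZeroDivisors.ne_zero hb
  have hinj := IsFractionRing.injective O L
  have ha0 : a ≠ 0 := by
    rintro rfl
    apply hc
    rw [← hab, map_zero, zero_div]
  obtain ⟨k, ua, hua, ea⟩ := hL.pow a ha0
  obtain ⟨l, ub, hub, eb⟩ := hL.pow b hb0
  obtain ⟨up, hup, ep⟩ := locKU_P hL
  obtain ⟨vb, hvb⟩ := hub.exists_right_inv
  obtain ⟨vp, hvp⟩ := hup.exists_right_inv
  have hvbu : IsUnit vb := IsUnit.of_mul_eq_one ub (by rw [mul_comm]; exact hvb)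
  have hvpu : IsUnit vp := IsUnit.of_mul_eq_one up (by rw [mul_comm]; exact hvp)
  have hP0 : toK F P.1 ≠ 0 := (map_ne_zero_iff _ toK_inj).2 P.2.2.ne_zero
  refine ⟨ua * vb * up ^ l * vp ^ k, toK F P.1 ^ k / toK F P.1 ^ l,
    ((hua.mul hvbu).mul (hup.pow l)).mul (hvpu.pow k), div_ne_zero (pow_ne_zero _ hP0)
      (pow_ne_zero _ hP0), ?_⟩
  have hne : ∀ x : O, x ≠ 0 → algebraMap O L x ≠ 0 := fun x hx => (map_ne_zero_iff _ hinj).2 hx
  have hub0 := hne ub hub.ne_zero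
  have hup0 := hne up hup.ne_zero
  have hpi := hne π hL.ne
  have h1 : algebraMap O L vb = (algebraMap O L ub)⁻¹ := by
    apply eq_inv_of_mul_eq_one_right
    rw [← map_mul, hvb, map_one]
  have h2 : algebraMap O L vp = (algebraMap O L up)⁻¹ := by
    apply eq_inv_of_mul_eq_one_right
    rw [← map_mul, hvp, map_one]
  rw [← hab, ea, eb, map_div₀, map_pow, map_pow, hj, ep]
  simp only [map_mul, map_pow]
  rw [h1, h2]
  simp only [mul_pow, inv_pow]
  have q1 := pow_ne_zero k hup0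
  have q2 := pow_ne_zero l hup0
  have q3 := pow_ne_zero k hpi
  have q4 := pow_ne_zero l hpi
  field_simp

/-- descent of equivalences of lattices -/
theorem locKU_leq (hL : Lc P.1 π ι) (hj : ∀ x : F[X], j (toK F x) = algebraMap O L (ι x))
    {N N' : M2 (RatFunc F)} (hN : N.det ≠ 0) (h : LEq O (N.map j) (N'.map j)) :
    LEq (LocP P) N N' := by
  obtain ⟨c, V, hc, hV, e⟩ := h
  obtain ⟨u, c₀, hu, hc₀, hcu⟩ := locKU_scal hL hj hc
  set W : M2 (RatFunc F) := (N.adj.mul N').scal (N.det⁻¹ * c₀⁻¹) with hW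
  have hjc : j c₀ ≠ 0 := (map_ne_zero j).2 hc₀
  have hNj : j N.det ≠ 0 := (map_ne_zero j).2 hN
  have hms : ∀ (r : RatFunc F) (A : M2 (RatFunc F)), (A.scal r).map j = (A.map j).scal (j r) := by
    intro r A
    ext <;> simp [M2.map, M2.scal]
  have hma : ∀ A : M2 (RatFunc F), A.adj.map j = (A.map j).adj := by
    intro A
    ext <;> simp [M2.map, M2.adj]
  have hsl : ∀ (r : L) (A : M2 L), (⟨r, 0, 0, r⟩ : M2 L).mul A = A.scal r := by
    intro r A
    ext <;> simp [M2.mul, M2.scal]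
  have hWj : W.map j = (V.scal u).map (algebraMap O L) := by
    have e1 : W.map j = (((N.map j).adj).mul (N'.map j)).scal (j (N.det⁻¹ * c₀⁻¹)) := by
      rw [hW, hms, M2.map_mul, hma]
    have e2 : (V.scal u).map (algebraMap O L) = (V.map (algebraMap O L)).scal (algebraMap O L u) := by
      ext <;> simp [M2.map, M2.scal]
    rw [e1, e, M2.mul_scal, ← M2.mul_assoc, M2.adj_mul, hsl, M2.scal_scal, M2.scal_scal, e2,
      M2.map_det, hcu, map_mul, map_inv₀, map_inv₀]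
    congr 1
    field_simp
  have hα := locKU_mem hL hj (x := W.α) (z := (V.scal u).α) (congrArg M2.α hWj)
  have hβ := locKU_mem hL hj (x := W.β) (z := (V.scal u).β) (congrArg M2.β hWj)
  have hγ := locKU_mem hL hj (x := W.γ) (z := (V.scal u).γ) (congrArg M2.γ hWj)
  have hδ := locKU_mem hL hj (x := W.δ) (z := (V.scal u).δ) (congrArg M2.δ hWj)
  have hVu : IsUnit (V.scal u).det := by
    rw [M2.det_scal]
    exact (hu.pow 2).mul hV
  obtain ⟨w, hw⟩ := hVu.exists_right_inv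
  have hWd : j W.det = algebraMap O L (V.scal u).det := by
    rw [← M2.map_det, hWj, M2.map_det]
  have hw' : algebraMap O L (V.scal u).det * algebraMap O L w = 1 := by
    rw [← map_mul, hw, map_one]
  have hWd0 : W.det ≠ 0 := by
    intro h0
    rw [h0, map_zero] at hWd
    rw [← hWd, zero_mul] at hw'
    exact zero_ne_one hw'
  have hinv : W.det⁻¹ ∈ LocP P := by
    refine locKU_mem hL hj (z := w) ?_
    rw [map_inv₀, hWd]
    exact (eq_inv_of_mul_eq_one_right hw').symm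
  refine ⟨c₀, ⟨⟨W.α, hα⟩, ⟨W.β, hβ⟩, ⟨W.γ, hγ⟩, ⟨W.δ, hδ⟩⟩, hc₀, ?_, ?_⟩
  · refine IsUnit.of_mul_eq_one ⟨W.det⁻¹, hinv⟩ ?_
    apply Subtype.ext
    exact mul_inv_cancel₀ hWd0
  · have e3 : (⟨⟨W.α, hα⟩, ⟨W.β, hβ⟩, ⟨W.γ, hγ⟩, ⟨W.δ, hδ⟩⟩ : M2 (LocP P)).map
        (algebraMap (LocP P) (RatFunc F)) = W := rfl
    have hsl' : ∀ (r : RatFunc F) (A : M2 (RatFunc F)),
        (⟨r, 0, 0, r⟩ : M2 (RatFunc F)).mul A = A.scal r := by
      intro r A
      ext <;> simp [M2.mul, M2.scal]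
    rw [e3, hW, M2.mul_scal, ← M2.mul_assoc, M2.mul_adj, hsl', M2.scal_scal, M2.scal_scal]
    have e4 : N.det * (N.det⁻¹ * c₀⁻¹ * c₀) = 1 := by
      field_simp
    have e5 : N'.scal 1 = N' := by
      ext <;> simp [M2.scal]
    rw [e4, e5]

/-- cancel a matrix on the left -/
theorem locKU_cancel {M A B : M2 L} (hM : M.det ≠ 0) (h : LEq O (M.mul A) (M.mul B)) :
    LEq O A B := by
  obtain ⟨c, V, hc, hV, e⟩ := h
  refine ⟨c, V, hc, hV, ?_⟩
  have hsl : ∀ (r : L) (A : M2 L), (⟨r, 0, 0, r⟩ : M2 L).mul A = A.scal r := by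
    intro r A
    ext <;> simp [M2.mul, M2.scal]
  have e5 : ∀ X : M2 L, X.scal 1 = X := by
    intro X
    ext <;> simp [M2.scal]
  have hleft : ∀ X : M2 L, (M.adj.mul (M.mul X)).scal M.det⁻¹ = X := by
    intro X
    rw [← M2.mul_assoc, M2.adj_mul, hsl, M2.scal_scal]
    have e4 : M.det * M.det⁻¹ = 1 := mul_inv_cancel₀ hM
    have e4' : M.det⁻¹ * M.det = 1 := inv_mul_cancel₀ hM
    first
      | rw [e4, e5]
      | rw [e4', e5]
  have e2 : M.mul B = M.mul ((A.mul (V.map (algebraMap O L))).scal c) := by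
    rw [e, M2.mul_scal, M2.mul_assoc]
  rw [← hleft B, e2, hleft]

/-- the integral quartics -/
theorem locKU_int (hL : Lc P.1 π ι) (hj : ∀ x : F[X], j (toK F x) = algebraMap O L (ι x))
    {g : Q4 (RatFunc F)} {H : Q4 F[X]} (h : RedTo P g H) :
    ∃ G : Q4 O, G.map (algebraMap O L) = g.map j ∧ (π ∣ G.A - ι H.A) ∧ (π ∣ G.B - ι H.B) ∧
      (π ∣ G.C - ι H.C) ∧ (π ∣ G.D - ι H.D) ∧ (π ∣ G.E - ι H.E) := by
  obtain ⟨hA, hB, hC, hD, hE⟩ := h
  have key : ∀ (x : RatFunc F) (h : F[X]), LocI P (x - toK F h) →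
      ∃ z : O, algebraMap O L z = j x ∧ π ∣ z - ι h := by
    intro x h hx
    obtain ⟨z, hz, hz'⟩ := locKU_locI hL hj hx
    refine ⟨z + ι h, ?_, ?_⟩
    · rw [map_add, hz', map_sub, hj]
      ring
    · rw [add_sub_cancel_right]
      exact hz
  obtain ⟨A, hA1, hA2⟩ := key _ _ hA
  obtain ⟨B, hB1, hB2⟩ := key _ _ hB
  obtain ⟨C', hC1, hC2⟩ := key _ _ hC
  obtain ⟨D, hD1, hD2⟩ := key _ _ hD
  obtain ⟨E, hE1, hE2⟩ := key _ _ hE
  refine ⟨⟨A, B, C', D, E⟩, ?_, hA2, hB2, hC2, hD2, hE2⟩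
  ext
  · exact hA1
  · exact hB1
  · exact hC1
  · exact hD1
  · exact hE1

end locKU

theorem locKU_main (hsol : S_sol) (hnz : S_nz) (hup : S_locUp) {F : Type} [Field F] [Fintype F]
    (h2 : (2 : F) ≠ 0) (P : Pl F) (O : Type) [CommRing O] [IsDomain O] (π : O) (ι : F[X] →+* O)
    (hL4 : Lc4 P.1 π ι) (L : Type) [Field L] [Algebra O L] [IsFractionRing O L]
    (j : RatFunc F →+* L) (hj : ∀ x : F[X], j (toK F x) = algebraMap O L (ι x)) (M k : ℕ)
    (hMk : 2 * k + 1 ≤ M) (f : Cub F[X]) (hdisc : ¬ P.1 ^ (k + 1) ∣ f.disc)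
    (s : Q4 (RatFunc F) × RatFunc F) (hs : s.1.res = ((f.map (toK F)).sc 4).tr s.2)
    (hLS : LS P s.1) (n : ℕ) (N : Fin n → M2 (RatFunc F)) (g : Fin n → Q4 (RatFunc F))
    (H : Fin n → Q4 F[X]) (hdet : ∀ i, (N i).det ≠ 0)
    (hsub : ∀ i, s.1.sub (N i) = (g i).smul ((N i).det ^ 2)) (hred : ∀ i, RedTo P (g i) (H i))
    (hne : ∀ i j, i ≠ j → ¬ LEq (LocP P) (N i) (N j)) :
    ∑ i, (((H i).map (Ideal.Quotient.mk (Ideal.span {P.1 ^ 1}))).sp : ℝ) ≤
      1 + ((f.map (Ideal.Quotient.mk (Ideal.span {P.1 ^ M}))).nA : ℝ) /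
        ((Fintype.card F : ℝ) ^ P.1.natDegree) ^ (M - 1) := by
  have hL : Lc P.1 π ι := hL4.toLc
  have hfj : (f.map ι).map (algebraMap O L) = (f.map (toK F)).map j := by
    ext <;> simp only [Cub.map, hj]
  have h2j : (2 : L) ≠ 0 := by
    have e1 : (2 : L) = j (toK F (C 2)) := by
      rw [map_ofNat C 2, map_ofNat (toK F) 2, map_ofNat j 2]
    rw [e1]
    exact (map_ne_zero j).2 ((map_ne_zero_iff _ toK_inj).2 (C_ne_zero.2 h2))
  have hfd : f.disc ≠ 0 := by
    intro h0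
    apply hdisc
    rw [h0]
    exact dvd_zero _
  have hres : (s.1.map j).res = ((((f.map ι).map (algebraMap O L)).sc 4).tr (j s.2)) := by
    rw [Q4.map_res, hs, Cub.map_tr, Cub.map_sc, hfj, map_ofNat j 4]
  have hdL : (s.1.map j).res.disc ≠ 0 := by
    rw [hres, Cub.disc_tr, Cub.disc_sc, hfj, Cub.map_disc, Cub.map_disc]
    refine mul_ne_zero (pow_ne_zero _ ?_) ((map_ne_zero j).2 ((map_ne_zero_iff _ toK_inj).2 hfd))
    have e1 : (4 : L) = 2 * 2 := by norm_num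
    rw [e1]
    exact mul_ne_zero h2j h2j
  obtain ⟨u, v, z, huv, hz0, hz⟩ := hnz F h2 P.1 O L π ι hL (s.1.map j) hdL
    (hLS O L π ι hL4 j hj)
  obtain ⟨x, y, M₀, hxy, hrep⟩ := hsol L h2j ((f.map ι).map (algebraMap O L)) (s.1.map j, j s.2)
    hres u v z huv hz0 hz
  have hG := fun i => locKU_int (L := L) hL hj (hred i)
  choose G hG1 hG2 using hG
  refine hup F h2 P O L π ι hL4 M k hMk f hdisc x y hxy n
    (fun i => M₀.mul ((N i).map j)) G H ?_ ?_ hG2 ?_
  · intro i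
    rw [M2.det_mul, M2.map_det]
    exact mul_ne_zero hrep.det ((map_ne_zero j).2 (hdet i))
  · intro i
    have e1 : (s.1.map j).sub ((N i).map j) = ((g i).map j).smul (j (N i).det ^ 2) := by
      rw [← Q4.map_sub, hsub i, Q4.map_smul, map_pow]
    have e2 : (gp ((f.map ι).map (algebraMap O L)) x y).sub M₀ =
      (s.1.map j).smul (M₀.det ^ 2) := hrep.sub
    rw [← Q4.sub_mul, e2, Q4.smul_sub, e1, hG1 i, Q4.smul_smul, M2.det_mul, M2.map_det]
    congr 1
    ring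
  · intro i i' hii h
    exact hne i i' hii (locKU_leq hL hj (hdet i) (locKU_cancel hrep.det h))

theorem t_locKU : S_comp4 → S_sol → S_nz → S_locUp → S_locKU := by
  intro hcomp hsol hnz hup F _ _ h2 P M k hMk f hdisc s hs hLS n N g H h3 h4 h5 h6
  obtain ⟨O, _, _, π, ι, hL⟩ := hcomp F P.1 P.2.1 P.2.2
  have hinj : Function.Injective ((algebraMap O (FractionRing O)).comp ι) :=
    (IsFractionRing.injective O (FractionRing O)).comp (locK_inj hL.toLc)
  exact locKU_main hsol hnz hup h2 P O π ι hL (FractionRing O) (IsFractionRing.lift hinj)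
    (fun x => IsFractionRing.lift_algebraMap hinj x) M k hMk f hdisc s hs hLS n N g H h3 h4 h5 h6

end Pool.Agent.H456.BQ
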