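import Pool.Agent.H456.BQ.Stm4
import Pool.Agent.H456.BQ.T_loc
import Pool.Agent.H456.BQ.T_can
import Pool.Agent.H456.BQ.T_sep

/-!
(K11) `S_locUp` from `S_balls`, `S_conv` (hypotheses). `Lc4` is `Lc` with Hensel's lemma for quartics (`hensel4`). Let `Q = #F[X]/(P)`.
(1) LIFTS. For each `i` and each smooth point of `z² = H̄ᵢ(u, v)` over `F[X]/(P)` (as counted by `Q4.sp`: affine `(u₀, z₀)` with `v = 1`, or at infinity
`(1 : 0)`) there are infinitely many primitive `(α, γ) ∈ O²` and `w ∈ O`, `w ≠ 0`, with `w² = Gᵢ(α, γ)` and the given reduction (`γ = 1`, `α ≡ u₀`, `w ≡ z₀`;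
at infinity `α = 1`, `γ ≡ 0`, `w ≡ z₀`): if `z̄₀ ≠ 0` any lift of the coordinate works, `(z₀ + x)² = G(..)` is solved by `hensel`; if `z̄₀ = 0` and the derivative in
the coordinate is a unit, choose `w ∈ π O`, `w ≠ 0`, arbitrary and solve `G(u₀ + x, 1) - w² = c₀ + c₁ x + c₂ x² + c₃ x³ + c₄ x⁴ = 0` by `hensel4`.
(2) With `V ∈ GL₂(O)` of first column `(α, γ)`, `N'' = Nᵢ V`, `G'' = Gᵢ.sub V` up to the square of the unit `det V`: `Cn f x₀ y₀ N'' G'' s n` with `s = w / det V`, `n = -B''/4`, coprime by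
smoothness (see `loc_key`, `loc_B` in T_loc.lean for the relation between smoothness and coprimality).
(3) The corresponding point `(h, z)` of `z² = gp(h, 1)` (first column of `N''` `= k (h, 1)`, `s det N'' = k² z`) gives
`x = (z + h² - x₀ - a)/2`, `y = h (x - x₀) - y₀`, `y² = f(x)` (inverse of the map in T_loc.lean). As there are infinitely many lifts one can choose them for all the (finitely
many) `(i, smooth point)` such that all the `h` are finite (`k ≠ 0`) and different and all the `x` are different and different from `x₀` (`(h, z) ↦ (x, y)` is injective for `x ≠ x₀`).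
(4) If `x ∈ O` (then `y ∈ O`) attach to `(i, smooth point)` the ball `b (x, y)` of `S_balls`, otherwise the symbol `∞`. This map into
`Option (Fin n)` is injective: for two data the quantity `D` of `S_conv` is `((y+y')/(x-x'))² - a - x - x'` (`loc_idA`, `loc_D`). If both have the same ball
`(y+y')/(x-x') ∉ O` hence `D ∉ O` (`x, x' ∈ O`; `l² ∈ O` implies `l ∈ O`). If both `x, x' ∉ O`: suppose `D ∈ O`; then the point `(x,y) - (x',y') = (D, E)` is integral, and
`(x, y) = (D, E) + (x', y')`; but adding a point with `x' ∉ O` to an integral point gives an integral point (`v(x') = -2m`, `v(y') = -3m`, slope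
`l = (y' - E)/(x' - D)`, `x = l² - a - D - x'`: writing `x' = 1/(π^2m ·)`, ... use `y'² = f(x')`: `l² - x' = (y'² - 2 y' E + E² - x' (x' - D)²)/(x' - D)²` and the numerator has valuation
`≥ -4m`, as `y'² - x'³ = a x'² + ...`), contradiction. So `D ∉ O`, and `S_conv` gives `LEq O Nᵢ Nⱼ` (`N'' = Nᵢ V`, so the lattices are the same), hence `i = j`, and the divisibilities
`π ∣ V.γ`, `π ∣ s V.α² - s' V.det` give the same reduction: same smooth point. (5) So `Σ sp(Hᵢ) ≤ n + 1 ≤ 1 + nA / Q^(M-1)`.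
-/

set_option autoImplicit false
set_option linter.all false

open Polynomial Finset
open Pool.Agent.H456.EC (toK toK_inj sig toK_eq reflect_toK)

namespace Pool.Agent.H456.BQ

section lift

variable {F : Type} [Field F] {P : F[X]} {O : Type} [CommRing O] [IsDomain O] {π : O} {ι : F[X] →+* O}

theorem locUp_powinj (h : Lc P π ι) : Function.Injective fun j : ℕ => π ^ j :=
  pow_injective_of_not_isUnit h.nonunit h.ne

/-- the smooth points of the reduction have infinitely many lifts -/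
theorem locUp_lift (h : Lc4 P π ι) (h2 : IsUnit (2 : O)) {κ : Type} [CommRing κ] (ρ : O →+* κ)
    (hρ : ∀ x, ρ x = 0 ↔ π ∣ x) (hs : Function.Surjective ρ) (g : Q4 O) (u₀ z₀ : κ)
    (h0 : z₀ ^ 2 = (g.map ρ).ev u₀ 1)
    (h1 : z₀ ≠ 0 ∨ 4 * (g.map ρ).A * u₀ ^ 3 + 3 * (g.map ρ).B * u₀ ^ 2 + 2 * (g.map ρ).C * u₀ + (g.map ρ).D ≠ 0) :
    {τ : O | ρ τ = u₀ ∧ ∃ w, w ≠ 0 ∧ w ^ 2 = g.ev τ 1 ∧ ρ w = z₀}.Infinite := by
  have hL := h.toLc
  obtain ⟨a, rfl⟩ := hs u₀
  obtain ⟨w₀, rfl⟩ := hs z₀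
  have hpi : ρ π = 0 := (hρ π).2 (dvd_refl π)
  have hev : ∀ x : O, ρ (g.ev x 1) = (g.map ρ).ev (ρ x) 1 := by
    intro x
    rw [← Q4.map_ev, map_one]
  by_cases hz : ρ w₀ = 0
  · have hd : ρ (4 * g.A * a ^ 3 + 3 * g.B * a ^ 2 + 2 * g.C * a + g.D) ≠ 0 := by
      have h3 := h1.resolve_left (fun h4 => h4 hz)
      simp only [Q4.map] at h3
      simpa only [map_add, map_mul, map_pow, map_ofNat] using h3
    have hu : IsUnit (4 * g.A * a ^ 3 + 3 * g.B * a ^ 2 + 2 * g.C * a + g.D) := by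
      apply loc_unit hL
      rw [← hρ]
      exact hd
    have h3 : ∀ j : ℕ, ∃ x : O, π ∣ x ∧ g.ev (a + x) 1 = (π ^ (j + 1)) ^ 2 := by
      intro j
      obtain ⟨x, hx, hx2⟩ := h.hensel4 (g.ev a 1 - (π ^ (j + 1)) ^ 2)
        (4 * g.A * a ^ 3 + 3 * g.B * a ^ 2 + 2 * g.C * a + g.D) (6 * g.A * a ^ 2 + 3 * g.B * a + g.C)
        (4 * g.A * a + g.B) g.A (by
          rw [← hρ, map_sub, hev, ← h0, hz, map_pow, map_pow, hpi]
          ring) hu
      refine ⟨x, hx, ?_⟩
      simp only [Q4.ev] at hx2 ⊢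
      linear_combination hx2
    choose x hx hx2 using h3
    refine Set.infinite_of_injective_forall_mem (f := fun j : ℕ => a + x j) ?_ ?_
    · intro j j' hjj
      have h4 : a + x j = a + x j' := hjj
      have h5 : (π ^ (j + 1)) ^ 2 = (π ^ (j' + 1)) ^ 2 := by rw [← hx2, ← hx2, h4]
      rw [← pow_mul, ← pow_mul] at h5
      have h6 := locUp_powinj hL h5
      omega
    · intro j
      refine ⟨?_, π ^ (j + 1), pow_ne_zero _ hL.ne, (hx2 j).symm, ?_⟩
      · rw [map_add, (hρ _).2 (hx j), add_zero]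
      · rw [map_pow, hpi, hz]
        exact zero_pow (Nat.succ_ne_zero j)
  · have hw : IsUnit w₀ := by
      apply loc_unit hL
      rw [← hρ]
      exact hz
    have h3 : ∀ j : ℕ, ∃ w : O, w ≠ 0 ∧ w ^ 2 = g.ev (a + π ^ (j + 1)) 1 ∧ ρ w = ρ w₀ := by
      intro j
      obtain ⟨x, hx, hx2⟩ := h.hensel (w₀ ^ 2 - g.ev (a + π ^ (j + 1)) 1) (2 * w₀) 1 0 (by
          rw [← hρ, map_sub, hev, map_pow, h0, map_add, map_pow, hpi, zero_pow (Nat.succ_ne_zero j), add_zero,
            sub_self]) (h2.mul hw)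
      have h4 : ρ (w₀ + x) = ρ w₀ := by rw [map_add, (hρ _).2 hx, add_zero]
      refine ⟨w₀ + x, ?_, ?_, h4⟩
      · intro h5
        apply hz
        rw [← h4, h5, map_zero]
      · linear_combination hx2
    refine Set.infinite_of_injective_forall_mem (f := fun j : ℕ => a + π ^ (j + 1)) ?_ ?_
    · intro j j' hjj
      have h4 : a + π ^ (j + 1) = a + π ^ (j' + 1) := hjj
      have h6 := locUp_powinj hL (add_left_cancel h4)
      omega
    · intro j
      refine ⟨?_, h3 j⟩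
      rw [map_add, map_pow, hpi, zero_pow (Nat.succ_ne_zero j), add_zero]

end lift

/-! ### fractional linear maps -/

theorem locUp_mob {O L : Type} [CommRing O] [IsDomain O] [Field L] [Algebra O L] [IsFractionRing O L] {a b c d : L}
    (hdet : a * d - b * c ≠ 0) {A : Set O} (hA : A.Infinite) :
    {h : L | ∃ τ ∈ A, c * algebraMap O L τ + d ≠ 0 ∧
      h = (a * algebraMap O L τ + b) / (c * algebraMap O L τ + d)}.Infinite := by
  have hinj : Function.Injective (algebraMap O L) := IsFractionRing.injective O L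
  have h1 : {τ : O | c * algebraMap O L τ + d = 0}.Finite := by
    apply Set.Subsingleton.finite
    intro x hx y hy
    simp only [Set.mem_setOf_eq] at hx hy
    apply hinj
    have h2 : c * (algebraMap O L x - algebraMap O L y) = 0 := by linear_combination hx - hy
    rcases mul_eq_zero.1 h2 with h3 | h3
    · exfalso
      apply hdet
      rw [h3] at hx
      rw [h3]
      linear_combination a * hx
    · exact sub_eq_zero.1 h3
  have h2 := (hA.diff h1).image (f := fun τ => (a * algebraMap O L τ + b) / (c * algebraMap O L τ + d)) (by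
    intro x hx y hy hxy
    have hx' : c * algebraMap O L x + d ≠ 0 := hx.2
    have hy' : c * algebraMap O L y + d ≠ 0 := hy.2
    simp only at hxy
    rw [div_eq_div_iff hx' hy'] at hxy
    apply hinj
    apply sub_eq_zero.1
    apply (mul_eq_zero.1 (?_ : (a * d - b * c) * _ = 0)).resolve_left hdet
    linear_combination hxy)
  refine h2.mono ?_
  rintro _ ⟨τ, hτ, rfl⟩
  exact ⟨τ, hτ.1, hτ.2, rfl⟩

/-! ### the points of the disjoint union -/

section pts

variable {κ : Type}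

/-- coordinate -/
def locUp_u [CommRing κ] (e : (κ × κ) ⊕ κ) : κ := e.elim (fun p => p.1) (fun _ => 0)

/-- coordinate -/
def locUp_z (e : (κ × κ) ⊕ κ) : κ := e.elim (fun p => p.2) (fun z => z)

/-- the quartic in the chart -/
def locUp_g {R : Type} (e : (κ × κ) ⊕ κ) (g : Q4 R) : Q4 R := e.elim (fun _ => g) (fun _ => ⟨g.E, g.D, g.C, g.B, g.A⟩)

/-- the matrix in the chart -/
def locUp_V {R : Type} [CommRing R] (e : (κ × κ) ⊕ κ) (τ : R) : M2 R :=
  e.elim (fun _ => ⟨τ, -1, 1, 0⟩) (fun _ => ⟨1, 0, τ, 1⟩)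

theorem locUp_V_det {R : Type} [CommRing R] (e : (κ × κ) ⊕ κ) (τ : R) : (locUp_V e τ).det = 1 := by
  rcases e with e | e <;> simp [locUp_V, M2.det]

theorem locUp_sub_A {R : Type} [CommRing R] (e : (κ × κ) ⊕ κ) (τ : R) (g : Q4 R) :
    (g.sub (locUp_V e τ)).A = (locUp_g e g).ev τ 1 := by
  rcases e with e | e
  · simp only [locUp_V, locUp_g, Sum.elim_inl, Q4.sub, Q4.ev]
    ring
  · simp only [locUp_V, locUp_g, Sum.elim_inr, Q4.sub, Q4.ev]
    ring

theorem locUp_sub_B {R : Type} [CommRing R] (e : (κ × κ) ⊕ κ) (τ : R) (g : Q4 R) :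
    (g.sub (locUp_V e τ)).B = 4 * (locUp_g e g).A * τ ^ 3 + 3 * (locUp_g e g).B * τ ^ 2 + 2 * (locUp_g e g).C * τ +
      (locUp_g e g).D ∨
    (g.sub (locUp_V e τ)).B = -(4 * (locUp_g e g).A * τ ^ 3 + 3 * (locUp_g e g).B * τ ^ 2 + 2 * (locUp_g e g).C * τ +
      (locUp_g e g).D) := by
  rcases e with e | e
  · right
    simp only [locUp_V, locUp_g, Sum.elim_inl, Q4.sub]
    ring
  · left
    simp only [locUp_V, locUp_g, Sum.elim_inr, Q4.sub]
    ring

theorem locUp_g_map {R S : Type} [CommRing R] [CommRing S] (φ : R →+* S) (e : (κ × κ) ⊕ κ) (g : Q4 R) :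
    locUp_g e (g.map φ) = (locUp_g e g).map φ := by
  rcases e with e | e <;> rfl

/-- the smooth points -/
noncomputable def locUp_T [CommRing κ] [Fintype κ] (g : Q4 κ) : Finset ((κ × κ) ⊕ κ) := by
  classical
  exact Finset.disjSum ((univ : Finset (κ × κ)).filter (fun p => p.2 ^ 2 = g.ev p.1 1 ∧
      (p.2 ≠ 0 ∨ 4 * g.A * p.1 ^ 3 + 3 * g.B * p.1 ^ 2 + 2 * g.C * p.1 + g.D ≠ 0)))
      ((univ : Finset κ).filter (fun z => z ^ 2 = g.A ∧ (z ≠ 0 ∨ g.B ≠ 0)))

theorem locUp_T_card [CommRing κ] [Fintype κ] (g : Q4 κ) : (locUp_T g).card = g.sp := by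
  unfold locUp_T Q4.sp
  exact Finset.card_disjSum _ _

theorem locUp_T_mem [CommRing κ] [Fintype κ] {g : Q4 κ} {e : (κ × κ) ⊕ κ} (h : e ∈ locUp_T g) :
    locUp_z e ^ 2 = (locUp_g e g).ev (locUp_u e) 1 ∧
      (locUp_z e ≠ 0 ∨ 4 * (locUp_g e g).A * locUp_u e ^ 3 + 3 * (locUp_g e g).B * locUp_u e ^ 2 +
        2 * (locUp_g e g).C * locUp_u e + (locUp_g e g).D ≠ 0) := by
  classical
  unfold locUp_T at h
  rw [Finset.mem_disjSum] at h
  rcases h with ⟨p, hp, rfl⟩ | ⟨z, hz, rfl⟩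
  · rw [Finset.mem_filter] at hp
    exact hp.2
  · rw [Finset.mem_filter] at hz
    obtain ⟨-, h1, h2⟩ := hz
    simp only [locUp_z, locUp_g, locUp_u, Sum.elim_inr, Q4.ev]
    refine ⟨?_, ?_⟩
    · rw [h1]; ring
    · rcases h2 with h2 | h2
      · exact Or.inl h2
      · right
        intro h3
        apply h2
        linear_combination h3

end pts

/-! ### the data of a lift -/

section data

variable {F : Type} [Field F] {P : F[X]} {O L : Type} [CommRing O] [IsDomain O] [Field L] [Algebra O L]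
  [IsFractionRing O L] {π : O} {ι : F[X] →+* O}

theorem locUp_cn (hL : Lc P π ι) (h2 : IsUnit (2 : O)) {f : Cub O} {x₀ y₀ : L} {N : M2 L} {G : Q4 O}
    (hN : N.det ≠ 0)
    (hG : (gp (f.map (algebraMap O L)) x₀ y₀).sub N = (G.map (algebraMap O L)).smul (N.det ^ 2))
    {κ : Type} [CommRing κ] (ρ : O →+* κ) (hρ : ∀ x, ρ x = 0 ↔ π ∣ x) {e : (κ × κ) ⊕ κ} {τ w : O}
    (h1 : ρ τ = locUp_u e) (h3 : ρ w = locUp_z e) (h4 : w ≠ 0) (h5 : w ^ 2 = (locUp_g e G).ev τ 1)
    (h6 : locUp_z e ≠ 0 ∨ 4 * (locUp_g e (G.map ρ)).A * locUp_u e ^ 3 + 3 * (locUp_g e (G.map ρ)).B * locUp_u e ^ 2 +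
        2 * (locUp_g e (G.map ρ)).C * locUp_u e + (locUp_g e (G.map ρ)).D ≠ 0) :
    ∃ n : O, Cn f x₀ y₀ (N.mul ((locUp_V e τ).map (algebraMap O L))) (G.sub (locUp_V e τ)) w n := by
  have h4' : IsUnit (4 : O) := by
    have : (4 : O) = 2 * 2 := by norm_num
    rw [this]
    exact h2.mul h2
  obtain ⟨q, hq⟩ := h4'.exists_right_inv
  have hdet : (N.mul ((locUp_V e τ).map (algebraMap O L))).det = N.det := by
    rw [M2.det_mul, M2.map_det, locUp_V_det, map_one, mul_one]
  have hB : (G.sub (locUp_V e τ)).B = -(4 * -((G.sub (locUp_V e τ)).B * q)) := by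
    linear_combination -(G.sub (locUp_V e τ)).B * hq
  refine ⟨-((G.sub (locUp_V e τ)).B * q), ⟨?_, ?_, ?_, hB, ?_, h4⟩⟩
  · rw [hdet]; exact hN
  · rw [← Q4.sub_mul, hG, Q4.smul_sub, hdet, Q4.map_sub]
  · rw [locUp_sub_A, h5]
  · by_cases hw : π ∣ w
    · have hz : locUp_z e = 0 := by rw [← h3]; exact (hρ w).2 hw
      have h7 := h6.resolve_left (fun h8 => h8 hz)
      have h8 : ¬ π ∣ -((G.sub (locUp_V e τ)).B * q) := by
        intro h9
        apply h7
        have h10 : ρ ((G.sub (locUp_V e τ)).B) = 0 := by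
          rw [hρ, hB]
          exact (dvd_neg).2 (dvd_mul_of_dvd_right h9 _)
        rw [locUp_g_map, ← h1]
        simp only [Q4.map]
        rcases locUp_sub_B e τ G with h11 | h11
        · rw [h11] at h10
          simpa only [map_add, map_mul, map_pow, map_ofNat] using h10
        · rw [h11, map_neg, neg_eq_zero] at h10
          simpa only [map_add, map_mul, map_pow, map_ofNat] using h10
      obtain ⟨r, hr⟩ := (loc_unit hL h8).exists_right_inv
      exact ⟨0, r, by rw [zero_mul, zero_add, mul_comm]; exact hr⟩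
    · obtain ⟨r, hr⟩ := (loc_unit hL hw).exists_right_inv
      exact ⟨r, 0, by rw [zero_mul, add_zero, mul_comm]; exact hr⟩

/-- the affine point of the quartic of the base point -/
theorem locUp_onq {f : Cub O} {x₀ y₀ : L} {N : M2 L} {G : Q4 O} {s n : O} (h : Cn f x₀ y₀ N G s n) (hγ : N.γ ≠ 0) :
    (algebraMap O L s * N.det / N.γ ^ 2) ^ 2 = (gp (f.map (algebraMap O L)) x₀ y₀).ev (N.α / N.γ) 1 := by
  have h1 := congrArg Q4.A h.sub
  simp only [Q4.smul, Q4.map] at h1
  rw [h.A, map_pow] at h1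
  simp only [Q4.sub] at h1
  simp only [Q4.ev]
  field_simp
  linear_combination -h1

/-- square roots of integral elements are integral -/
theorem locUp_sqrt (hL : Lc P π ι) {l : L} {c : O} (h : l ^ 2 = algebraMap O L c) : ∃ r : O, algebraMap O L r = l := by
  refine sep_int hL l 0 (-c) 0 ?_
  rw [map_zero, map_neg, ← h]
  ring

/-- two lifts which give the same lattice and the same point -/
theorem locUp_same (hL : Lc P π ι) {N : M2 L} (hN : N.det ≠ 0) {V₁ V₂ V : M2 O} (hV₁ : V₁.det = 1) (hV₂ : V₂.det = 1)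
    (hV : IsUnit V.det) {c : L} {s s' : O}
    (h : N.mul (V₂.map (algebraMap O L)) = ((N.mul (V₁.map (algebraMap O L))).mul (V.map (algebraMap O L))).scal c)
    (h1 : π ∣ V.γ) (h2 : π ∣ s * V.α ^ 2 - s' * V.det) :
    ∃ k : O, π ∣ V₂.α - k * V₁.α ∧ π ∣ V₂.γ - k * V₁.γ ∧ π ∣ s * k ^ 2 - s' := by
  have hinj : Function.Injective (algebraMap O L) := IsFractionRing.injective O L
  -- cancel `N`
  have h3 : V₂.map (algebraMap O L) = ((V₁.map (algebraMap O L)).mul (V.map (algebraMap O L))).scal c := by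
    have h4 : N.mul (V₂.map (algebraMap O L)) =
        N.mul (((V₁.map (algebraMap O L)).mul (V.map (algebraMap O L))).scal c) := by
      rw [h, M2.mul_assoc, M2.mul_scal]
    have h5 : N.adj.mul (N.mul (V₂.map (algebraMap O L))) =
        N.adj.mul (N.mul (((V₁.map (algebraMap O L)).mul (V.map (algebraMap O L))).scal c)) := by rw [h4]
    rw [← M2.mul_assoc, ← M2.mul_assoc, M2.adj_mul] at h5
    have hα := congrArg M2.α h5
    have hβ := congrArg M2.β h5
    have hγ := congrArg M2.γ h5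
    have hδ := congrArg M2.δ h5
    simp only [M2.mul, zero_mul, zero_add, add_zero] at hα hβ hγ hδ
    ext
    · exact mul_left_cancel₀ hN hα
    · exact mul_left_cancel₀ hN hβ
    · exact mul_left_cancel₀ hN hγ
    · exact mul_left_cancel₀ hN hδ
  obtain ⟨v, hv⟩ := hV.exists_right_inv
  have h4 : c ^ 2 * algebraMap O L V.det = 1 := by
    have h5 := congrArg M2.det h3
    rw [M2.map_det, M2.det_scal, M2.det_mul, M2.map_det, M2.map_det, hV₁, hV₂, map_one, one_mul] at h5
    exact h5.symm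
  obtain ⟨r, hr⟩ : ∃ r : O, algebraMap O L r = c := by
    apply locUp_sqrt (P := P) (ι := ι) hL (c := v)
    have h5 : algebraMap O L V.det * algebraMap O L v = 1 := by rw [← map_mul, hv, map_one]
    linear_combination algebraMap O L v * h4 - c ^ 2 * h5
  have h5 : r ^ 2 * V.det = 1 := by
    apply hinj
    rw [map_mul, map_pow, hr, h4, map_one]
  have hα : V₂.α = r * (V₁.α * V.α + V₁.β * V.γ) := by
    apply hinj
    have := congrArg M2.α h3
    simp only [M2.map, M2.mul, M2.scal] at this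
    rw [map_mul, map_add, map_mul, map_mul, hr, this]
  have hγ : V₂.γ = r * (V₁.γ * V.α + V₁.δ * V.γ) := by
    apply hinj
    have := congrArg M2.γ h3
    simp only [M2.map, M2.mul, M2.scal] at this
    rw [map_mul, map_add, map_mul, map_mul, hr, this]
  refine ⟨r * V.α, ?_, ?_, ?_⟩
  · have : V₂.α - r * V.α * V₁.α = V.γ * (r * V₁.β) := by rw [hα]; ring
    rw [this]
    exact dvd_mul_of_dvd_left h1 _
  · have : V₂.γ - r * V.α * V₁.γ = V.γ * (r * V₁.δ) := by rw [hγ]; ring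
    rw [this]
    exact dvd_mul_of_dvd_left h1 _
  · have : s * (r * V.α) ^ 2 - s' = (s * V.α ^ 2 - s' * V.det) * r ^ 2 := by
      linear_combination s' * h5
    rw [this]
    exact dvd_mul_of_dvd_left h2 _

/-- the lift determines the point -/
theorem locUp_eq (hL : Lc P π ι) {κ : Type} [CommRing κ] [Nontrivial κ] (ρ : O →+* κ) (hρ : ∀ x, ρ x = 0 ↔ π ∣ x)
    {e e' : (κ × κ) ⊕ κ} {τ w τ' w' k : O} (h1 : ρ τ = locUp_u e) (h2 : ρ w = locUp_z e)
    (h1' : ρ τ' = locUp_u e') (h2' : ρ w' = locUp_z e')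
    (h3 : π ∣ (locUp_V e' τ').α - k * (locUp_V e τ).α) (h4 : π ∣ (locUp_V e' τ').γ - k * (locUp_V e τ).γ)
    (h5 : π ∣ w * k ^ 2 - w') : e = e' := by
  rw [← hρ, map_sub, map_mul, sub_eq_zero] at h3 h4
  rw [← hρ, map_sub, map_mul, map_pow, sub_eq_zero] at h5
  rcases e with ⟨u, z⟩ | z <;> rcases e' with ⟨u', z'⟩ | z'
  · simp only [locUp_V, locUp_u, locUp_z, Sum.elim_inl, map_one, mul_one] at h1 h2 h1' h2' h3 h4
    rw [← h4, one_mul] at h3
    rw [← h4, one_pow, mul_one] at h5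
    congr 2
    · rw [← h1, ← h1', h3]
    · rw [← h2, ← h2', h5]
  · exfalso
    simp only [locUp_V, locUp_u, locUp_z, Sum.elim_inl, Sum.elim_inr, map_one, mul_one] at h1 h2 h1' h2' h3 h4
    rw [h1'] at h4
    rw [← h4, zero_mul] at h3
    exact one_ne_zero h3
  · exfalso
    simp only [locUp_V, locUp_u, locUp_z, Sum.elim_inl, Sum.elim_inr, map_one, mul_one] at h1 h2 h1' h2' h3 h4
    rw [h1, mul_zero] at h4
    exact one_ne_zero h4
  · simp only [locUp_V, locUp_u, locUp_z, Sum.elim_inr, map_one, mul_one] at h1 h2 h1' h2' h3 h4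
    rw [← h3, one_pow, mul_one] at h5
    congr 1
    rw [← h2, ← h2', h5]

/-- two points which are not integral, with an integral difference: impossible -/
theorem locUp_inf (hL : Lc P π ι) {f : Cub O} {x y x' y' l : L}
    (hx : y ^ 2 = (f.map (algebraMap O L)).ev x) (hx' : y' ^ 2 = (f.map (algebraMap O L)).ev x')
    (hne : x ≠ x') (hl : l * (x - x') = y + y') (h1 : ¬ ∃ r : O, algebraMap O L r = x)
    (h1' : ¬ ∃ r : O, algebraMap O L r = x') :
    ¬ ∃ d : O, algebraMap O L d = l ^ 2 - (f.map (algebraMap O L)).a - x - x' := by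
  rintro ⟨d, hd⟩
  have hxx : x - x' ≠ 0 := sub_ne_zero.2 hne
  simp only [Cub.map, Cub.ev] at hx hx' hd
  set a := algebraMap O L f.a with ha
  set b := algebraMap O L f.b with hb
  set c := algebraMap O L f.c with hc
  set D := algebraMap O L d with hD
  -- the third point
  have hE : (y + l * (D - x)) ^ 2 = D ^ 3 + a * D ^ 2 + b * D + c := by
    apply mul_left_cancel₀ hxx
    have k1 : x ^ 3 + a * x ^ 2 + b * x + c - y ^ 2 = 0 := by linear_combination -hx
    have k2 : x' ^ 3 + a * x' ^ 2 + b * x' + c - (l * (x' - x) + y) ^ 2 = 0 := by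
      have : l * (x' - x) + y = -y' := by linear_combination -hl
      rw [this]
      linear_combination -hx'
    rw [hd]
    linear_combination -(l ^ 2 - a - x - x' - x') * k1 + (l ^ 2 - a - x - x' - x) * k2
  obtain ⟨ε, hε⟩ : ∃ ε : O, algebraMap O L ε = y + l * (D - x) := by
    apply locUp_sqrt hL (c := d ^ 3 + f.a * d ^ 2 + f.b * d + f.c)
    rw [hE]
    simp only [map_add, map_mul, map_pow, ha, hb, hc, hD]
  -- the reciprocal of `x'`
  obtain ⟨w, hw⟩ := (sep_val (L := L) hL x').resolve_left h1'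
  set t := algebraMap O L (π * w) with ht
  obtain ⟨μ, hμ⟩ : ∃ μ : O, algebraMap O L μ = -y' * t ^ 2 := by
    apply locUp_sqrt hL (c := π * w + f.a * (π * w) ^ 2 + f.b * (π * w) ^ 3 + f.c * (π * w) ^ 4)
    rw [map_add, map_add, map_add, map_mul _ f.a, map_mul _ f.b, map_mul _ f.c, map_pow, map_pow, map_pow, ← ht]
    have : (-y' * t ^ 2) ^ 2 = y' ^ 2 * t ^ 4 := by ring
    rw [this, hx']
    linear_combination (t * ((t * x') ^ 2 + (t * x') + 1) + a * t ^ 2 * (t * x' + 1) + b * t ^ 3) * hw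
  have hun : IsUnit (1 - d * (π * w)) := by
    apply loc_unit hL
    intro h3
    apply loc_nd hL (isUnit_one (M := O))
    have : (1 : O) = (1 - d * (π * w)) + π * (d * w) := by ring
    rw [this]
    exact dvd_add h3 (dvd_mul_right _ _)
  obtain ⟨v, hv⟩ := hun.exists_right_inv
  apply h1
  refine ⟨v ^ 2 * (d + (f.b + d ^ 2 + 2 * f.a * d) * (π * w) + (f.c + ε ^ 2 - (f.a + d) * d ^ 2) * (π * w) ^ 2 -
    2 * ε * μ), ?_⟩
  have hv' : (1 - D * t) * algebraMap O L v = 1 := by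
    have := congrArg (algebraMap O L) hv
    rw [map_mul, map_sub, map_mul, map_one] at this
    exact this
  have hnz : (1 - D * t) ≠ 0 := left_ne_zero_of_mul (by rw [hv']; exact one_ne_zero)
  apply mul_left_cancel₀ (pow_ne_zero 2 hnz)
  simp only [map_mul _ (v ^ 2), map_pow _ v]
  have e1 : (1 - D * t) ^ 2 * (algebraMap O L v ^ 2 * algebraMap O L (d + (f.b + d ^ 2 + 2 * f.a * d) * (π * w) +
      (f.c + ε ^ 2 - (f.a + d) * d ^ 2) * (π * w) ^ 2 - 2 * ε * μ)) =
      algebraMap O L (d + (f.b + d ^ 2 + 2 * f.a * d) * (π * w) +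
      (f.c + ε ^ 2 - (f.a + d) * d ^ 2) * (π * w) ^ 2 - 2 * ε * μ) := by
    rw [← mul_assoc, ← mul_pow, hv', one_pow, one_mul]
  rw [e1]
  have e2 : algebraMap O L (d + (f.b + d ^ 2 + 2 * f.a * d) * (π * w) +
      (f.c + ε ^ 2 - (f.a + d) * d ^ 2) * (π * w) ^ 2 - 2 * ε * μ) =
      D + (b + D ^ 2 + 2 * a * D) * t + (c + (algebraMap O L ε) ^ 2 - (a + D) * D ^ 2) * t ^ 2 -
        2 * algebraMap O L ε * algebraMap O L μ := by
    simp only [map_sub, map_add, map_mul, map_pow, map_ofNat, ha, hb, hc, hD, ht]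
  rw [e2, hμ]
  set E := algebraMap O L ε
  -- the relation for `x`
  have e3 : l * (x' - D) = -y' - E := by rw [hε]; linear_combination -hl
  have e4 : x = l ^ 2 - a - D - x' := by rw [hd]; ring
  have e5 : x * (x' - D) ^ 2 = (-y' - E) ^ 2 - (a + D + x') * (x' - D) ^ 2 := by
    rw [← e3, e4]; ring
  have e6 : x * (x' - D) ^ 2 = D * x' ^ 2 + (b + D ^ 2 + 2 * a * D) * x' + (c + E ^ 2 - (a + D) * D ^ 2) +
      2 * E * y' := by
    rw [e5]
    linear_combination hx'
  have e7 : (1 - D * t) = t * (x' - D) := by linear_combination -hw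
  rw [e7]
  have e8 : (t * (x' - D)) ^ 2 * x = t ^ 2 * (x * (x' - D) ^ 2) := by ring
  rw [e8, e6]
  linear_combination (-(D * (t * x' + 1)) - (b + D ^ 2 + 2 * a * D) * t) * hw

end data


/-! ### selection -/

theorem locUp_quad0 {K : Type*} [Field K] {p q r : K} (h : (C p * X ^ 2 + C q * X + C r : K[X]) = 0) :
    p = 0 ∧ q = 0 ∧ r = 0 := by
  have c2 := congrArg (fun r : K[X] => r.coeff 2) h
  have c1 := congrArg (fun r : K[X] => r.coeff 1) h
  have c0 := congrArg (fun r : K[X] => r.coeff 0) h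
  simp [coeff_X, coeff_C] at c2 c1 c0
  exact ⟨c2, c1, c0⟩

/-- only finitely many slopes with a given abscissa -/
theorem locUp_fin {K : Type*} [Field K] (h2 : (2 : K) ≠ 0) (f : Cub K) (hf : f.disc ≠ 0) {x₀ y₀ : K}
    (h0 : y₀ ^ 2 = f.ev x₀) (x' : K) :
    {h : K | x' ^ 2 + (x₀ + f.a - h ^ 2) * x' + (x₀ ^ 2 + f.a * x₀ + f.b + h ^ 2 * x₀ + 2 * h * y₀) = 0}.Finite := by
  have hp : (C (x₀ - x') * X ^ 2 + C (2 * y₀) * X + C (x' ^ 2 + (x₀ + f.a) * x' + (x₀ ^ 2 + f.a * x₀ + f.b)) :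
      K[X]) ≠ 0 := by
    intro hq
    obtain ⟨c2, c1, c0⟩ := locUp_quad0 hq
    have e1 : x₀ = x' := sub_eq_zero.1 c2
    subst e1
    have e2 : y₀ = 0 := (mul_eq_zero.1 c1).resolve_left h2
    apply hf
    refine disc_zero (x := x₀) ?_ ?_
    · rw [← h0, e2]; ring
    · simp only [Cub.dev]
      linear_combination c0
  refine (Polynomial.finite_setOf_isRoot hp).subset ?_
  intro h hh
  simp only [Set.mem_setOf_eq, IsRoot.def, eval_add, eval_mul, eval_pow, eval_X, eval_C] at hh ⊢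
  linear_combination hh

/-- the abscissa -/
def locUp_x {K : Type*} [Field K] (f : Cub K) (x₀ : K) (p : K × K) : K := (p.1 ^ 2 - x₀ - f.a + p.2) / 2

theorem locUp_choose {K : Type*} [Field K] (h2 : (2 : K) ≠ 0) (f : Cub K) (hf : f.disc ≠ 0) {x₀ y₀ : K}
    (h0 : y₀ ^ 2 = f.ev x₀) (m : ℕ) (U : Fin m → Set (K × K))
    (h1 : ∀ i, ∀ p ∈ U i, p.2 ^ 2 = (gp f x₀ y₀).ev p.1 1) (hinf : ∀ i, (Prod.fst '' U i).Infinite) :
    ∃ p : Fin m → K × K, (∀ i, p i ∈ U i ∧ locUp_x f x₀ (p i) ≠ x₀) ∧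
      ∀ i j, i < j → ¬ ((p i).1 = (p j).1 ∨ locUp_x f x₀ (p i) = locUp_x f x₀ (p j)) := by
  classical
  apply loc_sel (fun p => locUp_x f x₀ p ≠ x₀) (fun p p' => p.1 = p'.1 ∨ locUp_x f x₀ p = locUp_x f x₀ p')
  intro j S
  have hq : ∀ p ∈ U j, (locUp_x f x₀ p) ^ 2 + (x₀ + f.a - p.1 ^ 2) * (locUp_x f x₀ p) +
      (x₀ ^ 2 + f.a * x₀ + f.b + p.1 ^ 2 * x₀ + 2 * p.1 * y₀) = 0 := by
    intro p hp
    refine quad_of_quartic h2 (h1 j p hp) ?_
    simp only [locUp_x]
    field_simp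
  have b3 : (⋃ p ∈ S, ({p.1} : Set K)).Finite := S.finite_toSet.biUnion (fun p _ => Set.finite_singleton _)
  have b4 : (⋃ p ∈ S, {h : K | (locUp_x f x₀ p) ^ 2 + (x₀ + f.a - h ^ 2) * (locUp_x f x₀ p) +
      (x₀ ^ 2 + f.a * x₀ + f.b + h ^ 2 * x₀ + 2 * h * y₀) = 0}).Finite :=
    S.finite_toSet.biUnion (fun p _ => locUp_fin h2 f hf h0 _)
  have b5 := locUp_fin h2 f hf h0 x₀
  obtain ⟨h, ⟨p, hp, rfl⟩, hx⟩ := (hinf j).exists_notMem_finite ((b3.union b4).union b5)
  simp only [Set.mem_union, not_or] at hx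
  obtain ⟨⟨c1, c2⟩, c3⟩ := hx
  refine ⟨p, hp, ?_, ?_⟩
  · intro h3
    apply c3
    have h4 := hq p hp
    rw [h3] at h4
    exact h4
  · intro p' hp' h3
    rcases h3 with h3 | h3
    · apply c1
      simp only [Set.mem_iUnion]
      exact ⟨p', hp', h3.symm⟩
    · apply c2
      simp only [Set.mem_iUnion]
      refine ⟨p', hp', ?_⟩
      rw [h3]
      exact hq p hp

theorem locUp_leq {O L : Type} [CommRing O] [Field L] [Algebra O L] (N : M2 L) {V : M2 O} (hV : IsUnit V.det) :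
    LEq O N (N.mul (V.map (algebraMap O L))) := by
  refine ⟨1, V, one_ne_zero, hV, ?_⟩
  ext <;> simp [M2.scal]

theorem t_locUp : S_balls → S_conv → S_locUp := by
  intro hballs hconv F _ _ h2 P O L _ _ _ _ _ π ι hL4 M k hM f hdisc x₀ y₀ h0 n N G H hN hG hH hNN
  classical
  have hL := hL4.toLc
  obtain ⟨n', b, hn', hb⟩ := hballs F h2 P O π ι hL M k hM f hdisc
  have hinj : Function.Injective (algebraMap O L) := loc_inj
  have hdO : (f.map ι).disc ≠ 0 := by
    rw [Cub.map_disc]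
    intro h3
    apply hdisc
    rw [← hL.dvd, h3]
    exact dvd_zero _
  -- the cubic over `O`
  generalize hfh : f.map ι = fh at *
  have hdL : (fh.map (algebraMap O L)).disc ≠ 0 := by
    rw [Cub.map_disc]
    exact (map_ne_zero_iff _ hinj).2 hdO
  have hu2 : IsUnit (2 : O) := loc_two h2 ι
  have h2L : (2 : L) ≠ 0 := by
    have := (hu2.map (algebraMap O L)).ne_zero
    rwa [map_ofNat] at this
  obtain ⟨ρ, hρ, hρι⟩ := loc_res hL
  have hρs : Function.Surjective ρ := by
    intro x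
    obtain ⟨y, rfl⟩ := Ideal.Quotient.mk_surjective x
    exact ⟨ι y, hρι y⟩
  haveI : Nontrivial (Rq (P.1 ^ 1)) := by
    refine ⟨⟨ρ 1, 0, ?_⟩⟩
    rw [Ne, hρ]
    exact loc_nd hL isUnit_one
  have hGH : ∀ i, (H i).map (Ideal.Quotient.mk (Ideal.span {P.1 ^ 1})) = (G i).map ρ := by
    intro i
    obtain ⟨a1, a2, a3, a4, a5⟩ := hH i
    rw [← hρ, map_sub, sub_eq_zero, hρι] at a1 a2 a3 a4 a5
    simp only [Q4.map, a1, a2, a3, a4, a5]
  simp only [hGH]
  -- the disjoint union of the smooth points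
  set TT : Finset (Σ _ : Fin n, (Rq (P.1 ^ 1) × Rq (P.1 ^ 1)) ⊕ Rq (P.1 ^ 1)) :=
    Finset.univ.sigma (fun i => locUp_T ((G i).map ρ)) with hTT
  have hcard : TT.card = ∑ i, ((G i).map ρ).sp := by
    rw [hTT, Finset.card_sigma]
    exact Finset.sum_congr rfl fun i _ => locUp_T_card _
  set t : Fin TT.card → (Σ _ : Fin n, (Rq (P.1 ^ 1) × Rq (P.1 ^ 1)) ⊕ Rq (P.1 ^ 1)) :=
    fun j => (TT.equivFin.symm j).1 with ht
  have htinj : Function.Injective t := by
    intro j j' h3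
    exact TT.equivFin.symm.injective (Subtype.ext h3)
  have htm : ∀ j, (t j).2 ∈ locUp_T ((G (t j).1).map ρ) := by
    intro j
    have h3 : t j ∈ TT := (TT.equivFin.symm j).2
    rw [hTT, Finset.mem_sigma] at h3
    exact h3.2
  -- the matrices
  set MM : Fin TT.card → O → M2 L := fun j τ => (N (t j).1).mul ((locUp_V (t j).2 τ).map (algebraMap O L)) with hMM
  set U : Fin TT.card → Set (L × L) := fun j => {p | ∃ τ w : O, ρ τ = locUp_u (t j).2 ∧ ρ w = locUp_z (t j).2 ∧
    w ≠ 0 ∧ w ^ 2 = (locUp_g (t j).2 (G (t j).1)).ev τ 1 ∧ (MM j τ).γ ≠ 0 ∧ p.1 = (MM j τ).α / (MM j τ).γ ∧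
    p.2 = algebraMap O L w * (MM j τ).det / (MM j τ).γ ^ 2} with hU
  have hcn : ∀ j (τ w : O), ρ τ = locUp_u (t j).2 → ρ w = locUp_z (t j).2 → w ≠ 0 →
      w ^ 2 = (locUp_g (t j).2 (G (t j).1)).ev τ 1 →
      ∃ s : O, Cn fh x₀ y₀ (MM j τ) ((G (t j).1).sub (locUp_V (t j).2 τ)) w s := by
    intro j τ w a1 a2 a3 a4
    exact locUp_cn hL hu2 (hN _) (hG _) ρ hρ a1 a2 a3 a4 (locUp_T_mem (htm j)).2
  have hU1 : ∀ j, ∀ p ∈ U j, p.2 ^ 2 = (gp (fh.map (algebraMap O L)) x₀ y₀).ev p.1 1 := by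
    rintro j p ⟨τ, w, a1, a2, a3, a4, a5, a6, a7⟩
    obtain ⟨s, hs⟩ := hcn j τ w a1 a2 a3 a4
    rw [a6, a7]
    exact locUp_onq hs a5
  have hU2 : ∀ j, (Prod.fst '' U j).Infinite := by
    intro j
    have hm := locUp_T_mem (htm j)
    have h3 := locUp_lift hL4 hu2 ρ hρ hρs (locUp_g (t j).2 (G (t j).1)) (locUp_u (t j).2) (locUp_z (t j).2)
      (by rw [← locUp_g_map]; exact hm.1) (by rw [← locUp_g_map]; exact hm.2)
    have hd := hN (t j).1
    rcases he : (t j).2 with e | e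
    · have h4 := locUp_mob (L := L) (a := (N (t j).1).α) (b := (N (t j).1).β) (c := (N (t j).1).γ) (d := (N (t j).1).δ)
        hd h3
      refine h4.mono ?_
      rintro h ⟨τ, ⟨b1, w, b2, b3, b4⟩, b5, b6⟩
      have eα : (MM j τ).α = (N (t j).1).α * algebraMap O L τ + (N (t j).1).β := by
        simp only [hMM, he, locUp_V, Sum.elim_inl, M2.mul, M2.map, map_one, mul_one]
      have eγ : (MM j τ).γ = (N (t j).1).γ * algebraMap O L τ + (N (t j).1).δ := by
        simp only [hMM, he, locUp_V, Sum.elim_inl, M2.mul, M2.map, map_one, mul_one]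
      refine ⟨(h, algebraMap O L w * (MM j τ).det / (MM j τ).γ ^ 2), ⟨τ, w, b1, b4, b2, b3, ?_, ?_, rfl⟩, rfl⟩
      · rw [eγ]; exact b5
      · rw [eα, eγ]; exact b6
    · have h4 := locUp_mob (L := L) (a := (N (t j).1).β) (b := (N (t j).1).α) (c := (N (t j).1).δ) (d := (N (t j).1).γ)
        (by
          intro h5
          apply hd
          simp only [M2.det]
          linear_combination -h5) h3
      refine h4.mono ?_
      rintro h ⟨τ, ⟨b1, w, b2, b3, b4⟩, b5, b6⟩
      have eα : (MM j τ).α = (N (t j).1).β * algebraMap O L τ + (N (t j).1).α := by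
        simp only [hMM, he, locUp_V, Sum.elim_inr, M2.mul, M2.map, map_one, mul_one]
        ring
      have eγ : (MM j τ).γ = (N (t j).1).δ * algebraMap O L τ + (N (t j).1).γ := by
        simp only [hMM, he, locUp_V, Sum.elim_inr, M2.mul, M2.map, map_one, mul_one]
        ring
      refine ⟨(h, algebraMap O L w * (MM j τ).det / (MM j τ).γ ^ 2), ⟨τ, w, b1, b4, b2, b3, ?_, ?_, rfl⟩, rfl⟩
      · rw [eγ]; exact b5
      · rw [eα, eγ]; exact b6
  obtain ⟨p, hp, hpp⟩ := locUp_choose h2L (fh.map (algebraMap O L)) hdL h0 TT.card U hU1 hU2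
  have hpp' : ∀ i j, i ≠ j → (p i).1 ≠ (p j).1 ∧
      locUp_x (fh.map (algebraMap O L)) x₀ (p i) ≠ locUp_x (fh.map (algebraMap O L)) x₀ (p j) := by
    intro i j hij
    rcases lt_or_gt_of_ne hij with h | h
    · have := hpp i j h
      rw [not_or] at this
      exact this
    · have := hpp j i h
      rw [not_or] at this
      exact ⟨fun e => this.1 e.symm, fun e => this.2 e.symm⟩
  set x : Fin TT.card → L := fun j => locUp_x (fh.map (algebraMap O L)) x₀ (p j) with hx
  set y : Fin TT.card → L := fun j => (p j).1 * (x j - x₀) - y₀ with hy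
  have hxz : ∀ j, 2 * x j = (p j).1 ^ 2 - x₀ - (fh.map (algebraMap O L)).a + (p j).2 := by
    intro j
    simp only [hx, locUp_x]
    field_simp
  have hxy : ∀ j, (y j) ^ 2 = (fh.map (algebraMap O L)).ev (x j) := fun j =>
    point_of_quartic h2L h0 (hU1 j _ (hp j).1) (hxz j) rfl
  have hE : ∀ j, (x j) ^ 2 + x j * x₀ + x₀ ^ 2 + (fh.map (algebraMap O L)).a * (x j + x₀) +
      (fh.map (algebraMap O L)).b = (p j).1 ^ 2 * (x j - x₀) - 2 * y₀ * (p j).1 := by
    intro j
    have := quad_of_quartic h2L (hU1 j _ (hp j).1) (hxz j)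
    linear_combination this
  have hz : ∀ j, 2 * x j - (p j).1 ^ 2 + x₀ + (fh.map (algebraMap O L)).a = (p j).2 := by
    intro j
    linear_combination hxz j
  -- the map
  have hr : ∀ j, ∃ r : Option (Fin n'), (r = none ∧ ¬ ∃ c : O, algebraMap O L c = x j) ∨
      ∃ q : {p : O × O // p.2 ^ 2 = fh.ev p.1}, algebraMap O L q.1.1 = x j ∧ algebraMap O L q.1.2 = y j ∧
        r = some (b q) := by
    intro j
    by_cases hc : ∃ c : O, algebraMap O L c = x j
    · obtain ⟨c, hc⟩ := hc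
      obtain ⟨d, hd⟩ : ∃ d : O, algebraMap O L d = y j := by
        apply locUp_sqrt hL (c := fh.ev c)
        rw [hxy, ← hc]
        simp only [Cub.ev, Cub.map, map_add, map_mul, map_pow]
      have hq : d ^ 2 = fh.ev c := by
        apply hinj
        rw [map_pow, hd, hxy, ← hc]
        simp only [Cub.ev, Cub.map, map_add, map_mul, map_pow]
      exact ⟨some (b ⟨(c, d), hq⟩), Or.inr ⟨⟨(c, d), hq⟩, hc, hd, rfl⟩⟩
    · exact ⟨none, Or.inl ⟨rfl, hc⟩⟩
  choose r hr using hr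
  have hrinj : Function.Injective r := by
    intro j j' hjj
    by_contra hne
    have hh := (hpp' j j' hne).1
    have hxx : x j ≠ x j' := (hpp' j j' hne).2
    have hxx' : x j - x j' ≠ 0 := sub_ne_zero.2 hxx
    have hh' : (p j).1 - (p j').1 ≠ 0 := sub_ne_zero.2 hh
    obtain ⟨l, hl⟩ : ∃ l : L, l * (x j - x j') = y j + y j' := ⟨(y j + y j') / (x j - x j'), div_mul_cancel₀ _ hxx'⟩
    -- the quantity `D` is not integral
    have hD : ¬ ∃ d : O, algebraMap O L d = l ^ 2 - (fh.map (algebraMap O L)).a - x j - x j' := by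
      rcases hr j with ⟨r1, r2⟩ | ⟨q, q1, q2, q3⟩
      · rcases hr j' with ⟨r1', r2'⟩ | ⟨q', q1', q2', q3'⟩
        · exact locUp_inf hL (hxy j) (hxy j') hxx hl r2 r2'
        · rw [r1, q3'] at hjj
          exact absurd hjj (by simp)
      · rcases hr j' with ⟨r1', r2'⟩ | ⟨q', q1', q2', q3'⟩
        · rw [r1', q3] at hjj
          exact absurd hjj (by simp)
        · rw [q3, q3', Option.some_inj] at hjj
          rintro ⟨d, hd⟩
          refine hb q q' hjj ?_ ?_
          · intro e1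
            apply hxx
            rw [← q1, ← q1', e1]
          · obtain ⟨l', hl'⟩ : ∃ l' : O, algebraMap O L l' = l := by
              apply locUp_sqrt hL (c := d + fh.a + q.1.1 + q'.1.1)
              rw [map_add, map_add, map_add, hd, q1, q1']
              simp only [Cub.map]
              ring
            refine ⟨l', hinj ?_⟩
            rw [map_mul, map_sub, map_add, hl', q1, q1', q2, q2', hl]
    obtain ⟨τ, w, a1, a2, a3, a4, a5, a6, a7⟩ := (hp j).1
    obtain ⟨τ', w', a1', a2', a3', a4', a5', a6', a7'⟩ := (hp j').1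
    obtain ⟨s, hs⟩ := hcn j τ w a1 a2 a3 a4
    obtain ⟨s', hs'⟩ := hcn j' τ' w' a1' a2' a3' a4'
    have eα : (MM j τ).α = (MM j τ).γ * (p j).1 := by rw [a6]; field_simp
    have eα' : (MM j' τ').α = (MM j' τ').γ * (p j').1 := by rw [a6']; field_simp
    have ed : algebraMap O L w * (MM j τ).det = (MM j τ).γ ^ 2 * (p j).2 := by rw [a7]; field_simp
    have ed' : algebraMap O L w' * (MM j' τ').det = (MM j' τ').γ ^ 2 * (p j').2 := by rw [a7']; field_simp
    have hnp : (MM j τ).α * (MM j' τ').γ ≠ (MM j' τ').α * (MM j τ).γ := by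
      rw [eα, eα']
      intro e1
      apply hh
      apply mul_left_cancel₀ (mul_ne_zero a5 a5')
      linear_combination e1
    obtain ⟨c, V, v1, v2, v3, v4, v5⟩ := hconv F h2 P.1 O L π ι hL fh x₀ y₀ h0 _ _ _ _ _ _ _ _ hs hs' hnp (by
      rintro ⟨d, hd⟩
      apply hD
      refine ⟨d, ?_⟩
      rw [hd]
      have e1 := loc_D (gp (fh.map (algebraMap O L)) x₀ y₀) (x₀ := x₀) (u := (p j).1) (v := 1) (u' := (p j').1)
        (v' := 1) a5 a5' ed ed'
      rw [mul_one, mul_one, ← eα, ← eα'] at e1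
      rw [e1, mul_one, mul_one]
      have e2 := loc_idA h2L (f := fh.map (algebraMap O L)) (y₀ := y₀) (hE j) (hE j') hxx' hh' hl
      rw [hz, hz] at e2
      exact e2)
    -- the same lattice
    have hi : (t j).1 = (t j').1 := by
      by_contra hij
      apply hNN _ _ hij
      have l1 : LEq O (N (t j).1) (MM j τ) := locUp_leq _ (by rw [locUp_V_det]; exact isUnit_one)
      have l2 : LEq O (N (t j').1) (MM j' τ') := locUp_leq _ (by rw [locUp_V_det]; exact isUnit_one)
      exact loc_trans l1 (loc_trans ⟨c, V, v1, v2, v3⟩ (loc_symm l2))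
    have e3 : (N (t j).1).mul ((locUp_V (t j').2 τ').map (algebraMap O L)) =
        (((N (t j).1).mul ((locUp_V (t j).2 τ).map (algebraMap O L))).mul (V.map (algebraMap O L))).scal c := by
      have e4 : MM j' τ' = (N (t j).1).mul ((locUp_V (t j').2 τ').map (algebraMap O L)) := by
        simp only [hMM, hi]
      rw [← e4, v3]
    obtain ⟨κ, k1, k2, k3⟩ := locUp_same hL (hN _) (locUp_V_det _ _) (locUp_V_det _ _) v2 e3 v4 v5
    have he : (t j).2 = (t j').2 := locUp_eq hL ρ hρ a1 a2 a1' a2' k1 k2 k3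
    exact hne (htinj (Sigma.ext hi (heq_of_eq he)))
  have hle : TT.card ≤ n' + 1 := by
    have := Fintype.card_le_of_injective r hrinj
    simpa using this
  have hq : (0 : ℝ) < ((Fintype.card F : ℝ) ^ P.1.natDegree) ^ (M - 1) := by
    have : 0 < Fintype.card F := Fintype.card_pos
    positivity
  have h4 : (n' : ℝ) * ((Fintype.card F : ℝ) ^ P.1.natDegree) ^ (M - 1) ≤
      ((f.map (Ideal.Quotient.mk (Ideal.span {P.1 ^ M}))).nA : ℝ) := by exact_mod_cast hn'
  have h5 : (∑ i, (((G i).map ρ).sp : ℝ)) ≤ n' + 1 := by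
    rw [hcard] at hle
    exact_mod_cast hle
  have h6 : (n' : ℝ) ≤ ((f.map (Ideal.Quotient.mk (Ideal.span {P.1 ^ M}))).nA : ℝ) /
      ((Fintype.card F : ℝ) ^ P.1.natDegree) ^ (M - 1) := by
    rwa [le_div_iff₀ hq]
  linarith

end Pool.Agent.H456.BQ
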