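import Pool.Agent.H456.BQ.Stm5

/-!
(B1) `S_mcomp`: the completion of Mathlib at a finite place satisfies `Lc4`.
-/

set_option autoImplicit false
set_option linter.all false

open Polynomial Finset
open Pool.Agent.H456.EC (toK toK_inj sig toK_eq reflect_toK)

namespace Pool.Agent.H456.BQ

open IsDedekindDomain WithZero Filter Topology

section gen

variable {R : Type} [CommRing R] [IsDedekindDomain R] {K : Type} [Field K] [Algebra R K]
  [IsFractionRing R K] (v : HeightOneSpectrum R)

/-- the valuation of the completion -/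
noncomputable abbrev mcomp_vv : Valuation (v.adicCompletion K) (WithZero (Multiplicative ℤ)) :=
  Valued.v

theorem mcomp_coe (x : K) :
    mcomp_vv v (algebraMap K (v.adicCompletion K) x) = v.valuation K x := by
  rw [HeightOneSpectrum.algebraMap_adicCompletion]
  exact HeightOneSpectrum.valuedAdicCompletion_eq_valuation' v x

theorem mcomp_coeR (x : R) :
    mcomp_vv (K := K) v ((algebraMap R (v.adicCompletionIntegers K) x : v.adicCompletionIntegers K) :
      v.adicCompletion K) = v.intValuation x := by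
  rw [← HeightOneSpectrum.valuation_of_algebraMap (K := K), ← mcomp_coe]
  rfl

theorem mcomp_exp {g : WithZero (Multiplicative ℤ)} (hg : g ≠ 0) :
    ∃ N : ℕ, exp (-(N : ℤ)) < g := by
  refine ⟨(1 - log g).toNat, ?_⟩
  calc exp (-((1 - log g).toNat : ℤ)) < exp (log g) := by
        rw [exp_lt_exp]
        omega
    _ = g := exp_log hg

theorem mcomp_open (ξ : v.adicCompletion K) (γ : WithZero (Multiplicative ℤ)) (hγ : γ ≠ 0) :
    ∃ k : K, mcomp_vv v (algebraMap K (v.adicCompletion K) k - ξ) < γ := by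
  have hopen : IsOpen {y : v.adicCompletion K | mcomp_vv v (y - ξ) < γ} := by
    have h1 : IsOpen {y : v.adicCompletion K | mcomp_vv v y < γ} := by
      obtain ⟨η, hη⟩ := HeightOneSpectrum.valuedAdicCompletion_surjective K v γ
      have h2 := Valued.isOpen_ball (v.adicCompletion K)
        ((Valued.v (R := v.adicCompletion K)).restrict η)
      have h3 : {y : v.adicCompletion K | mcomp_vv v y < γ} =
          {y : v.adicCompletion K | (Valued.v (R := v.adicCompletion K)).restrict y <
            (Valued.v (R := v.adicCompletion K)).restrict η} := by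
        ext y
        change _ ↔ (Valued.v (R := v.adicCompletion K)).restrict y <
            (Valued.v (R := v.adicCompletion K)).restrict η
        rw [Valuation.restrict_lt_iff, hη]
        exact Iff.rfl
      rw [h3]
      exact h2
    exact h1.preimage (continuous_id.sub continuous_const)
  obtain ⟨k, hk⟩ := (HeightOneSpectrum.denseRange_algebraMap K v).exists_mem_open hopen
    ⟨ξ, by simp [zero_lt_iff.2 hγ]⟩
  exact ⟨k, hk⟩

theorem mcomp_closed (γ : WithZero (Multiplicative ℤ)) :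
    IsClosed {y : v.adicCompletion K | mcomp_vv v y ≤ γ} := by
  obtain ⟨η, hη⟩ := HeightOneSpectrum.valuedAdicCompletion_surjective K v γ
  have h2 := Valued.isClosed_closedBall (v.adicCompletion K)
    ((Valued.v (R := v.adicCompletion K)).restrict η)
  have h3 : {y : v.adicCompletion K | mcomp_vv v y ≤ γ} =
      {y : v.adicCompletion K | (Valued.v (R := v.adicCompletion K)).restrict y ≤
        (Valued.v (R := v.adicCompletion K)).restrict η} := by
    ext y
    change _ ↔ (Valued.v (R := v.adicCompletion K)).restrict y ≤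
        (Valued.v (R := v.adicCompletion K)).restrict η
    rw [Valuation.restrict_le_iff, hη]
    exact Iff.rfl
  rw [h3]
  exact h2

theorem mcomp_tele {a : ℕ → v.adicCompletion K}
    (h : ∀ n, mcomp_vv v (a (n + 1) - a n) ≤ exp (-(n : ℤ))) (n k : ℕ) :
    mcomp_vv v (a (n + k) - a n) ≤ exp (-(n : ℤ)) := by
  induction k with
  | zero =>
    rw [add_zero, sub_self, map_zero]
    exact zero_le
  | succ k ih =>
    have e : a (n + (k + 1)) - a n = (a (n + k + 1) - a (n + k)) + (a (n + k) - a n) := by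
      rw [← add_assoc]
      ring
    rw [e]
    refine (Valuation.map_add _ _ _).trans (max_le ((h (n + k)).trans ?_) ih)
    rw [exp_le_exp]
    push_cast
    omega

theorem mcomp_lim {a : ℕ → v.adicCompletion K}
    (h : ∀ n, mcomp_vv v (a (n + 1) - a n) ≤ exp (-(n : ℤ))) :
    ∃ w, Tendsto a atTop (𝓝 w) := by
  apply cauchySeq_tendsto_of_complete
  rw [(Valued.hasBasis_uniformity (v.adicCompletion K) (WithZero (Multiplicative ℤ))).cauchySeq_iff']
  intro γ _
  have hg : MonoidWithZeroHom.ValueGroup₀.embedding (γ : MonoidWithZeroHom.ValueGroup₀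
      (.ofClass (Valued.v (R := v.adicCompletion K)))) ≠ 0 := (_root_.map_ne_zero _).2 γ.ne_zero
  obtain ⟨N, hN⟩ := mcomp_exp hg
  refine ⟨N, fun n hn => ?_⟩
  show (Valued.v (R := v.adicCompletion K)).restrict (a N - a n) < γ
  rw [Valuation.restrict_lt_iff_lt_embedding]
  refine lt_of_le_of_lt ?_ hN
  obtain ⟨k, rfl⟩ := Nat.exists_eq_add_of_le hn
  rw [Valuation.map_sub_swap]
  exact mcomp_tele v h N k

/-- the contraction -/
theorem mcomp_hensel {c₀ c₁ c₂ c₃ c₄ : v.adicCompletion K} (h0 : mcomp_vv v c₀ ≤ exp (-1 : ℤ))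
    (h1 : mcomp_vv v c₁ = 1) (h2 : mcomp_vv v c₂ ≤ 1) (h3 : mcomp_vv v c₃ ≤ 1)
    (h4 : mcomp_vv v c₄ ≤ 1) : ∃ w : v.adicCompletion K, mcomp_vv v w ≤ exp (-1 : ℤ) ∧
      c₀ + c₁ * w + c₂ * w ^ 2 + c₃ * w ^ 3 + c₄ * w ^ 4 = 0 := by
  have hc1 : c₁ ≠ 0 := by
    intro h
    rw [h, map_zero] at h1
    exact zero_ne_one h1
  have hi : mcomp_vv v c₁⁻¹ = 1 := by rw [map_inv₀, h1, inv_one]
  have he1 : exp (-1 : ℤ) ≤ (1 : WithZero (Multiplicative ℤ)) := by
    rw [← exp_zero, exp_le_exp]
    norm_num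
  obtain ⟨T, hT⟩ : ∃ T : v.adicCompletion K → v.adicCompletion K, ∀ w, T w =
    -((c₀ + c₂ * w ^ 2 + c₃ * w ^ 3 + c₄ * w ^ 4) * c₁⁻¹) := ⟨_, fun _ => rfl⟩
  have hTc : Continuous T := by
    have : T = fun w => -((c₀ + c₂ * w ^ 2 + c₃ * w ^ 3 + c₄ * w ^ 4) * c₁⁻¹) := funext hT
    rw [this]
    fun_prop
  have hm : ∀ x y : v.adicCompletion K, ∀ g : WithZero (Multiplicative ℤ), mcomp_vv v x ≤ 1 →
      mcomp_vv v y ≤ g → mcomp_vv v (x * y) ≤ g := by
    intro x y g hx hy
    rw [map_mul]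
    exact (mul_le_of_le_one_left' hx).trans hy
  have hpow : ∀ (w : v.adicCompletion K), mcomp_vv v w ≤ exp (-1 : ℤ) → ∀ n : ℕ,
      mcomp_vv v (w ^ (n + 1)) ≤ exp (-1 : ℤ) := by
    intro w hw n
    rw [pow_succ]
    refine hm _ _ _ ?_ hw
    rw [map_pow]
    exact pow_le_one' (hw.trans he1) n
  have hTS : ∀ w, mcomp_vv v w ≤ exp (-1 : ℤ) → mcomp_vv v (T w) ≤ exp (-1 : ℤ) := by
    intro w hw
    rw [hT, Valuation.map_neg, map_mul, hi, mul_one]
    refine (Valuation.map_add _ _ _).trans (max_le ((Valuation.map_add _ _ _).trans (max_le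
      ((Valuation.map_add _ _ _).trans (max_le h0 ?_)) ?_)) ?_)
    · exact hm _ _ _ h2 (hpow w hw 1)
    · exact hm _ _ _ h3 (hpow w hw 2)
    · exact hm _ _ _ h4 (hpow w hw 3)
  have hcon : ∀ x y, mcomp_vv v x ≤ exp (-1 : ℤ) → mcomp_vv v y ≤ exp (-1 : ℤ) →
      mcomp_vv v (T x - T y) ≤ exp (-1 : ℤ) * mcomp_vv v (x - y) := by
    intro x y hx hy
    have e : T x - T y = -((c₂ * (x + y) + c₃ * (x * x + x * y + y * y) +
        c₄ * (x * (x * x) + x * (x * y) + x * (y * y) + y * (y * y))) * (x - y) * c₁⁻¹) := by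
      rw [hT, hT]
      ring
    rw [e, Valuation.map_neg, map_mul, hi, mul_one, map_mul]
    refine mul_le_mul' ?_ le_rfl
    have hx1 := hx.trans he1
    have hy1 := hy.trans he1
    refine (Valuation.map_add _ _ _).trans (max_le ((Valuation.map_add _ _ _).trans (max_le ?_
      ?_)) ?_)
    · exact hm _ _ _ h2 ((Valuation.map_add _ _ _).trans (max_le hx hy))
    · exact hm _ _ _ h3 ((Valuation.map_add _ _ _).trans (max_le ((Valuation.map_add _ _ _).trans
        (max_le (hm _ _ _ hx1 hx) (hm _ _ _ hx1 hy))) (hm _ _ _ hy1 hy)))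
    · exact hm _ _ _ h4 ((Valuation.map_add _ _ _).trans (max_le ((Valuation.map_add _ _ _).trans
        (max_le ((Valuation.map_add _ _ _).trans (max_le (hm _ _ _ hx1 (hm _ _ _ hx1 hx))
          (hm _ _ _ hx1 (hm _ _ _ hx1 hy)))) (hm _ _ _ hx1 (hm _ _ _ hy1 hy))))
        (hm _ _ _ hy1 (hm _ _ _ hy1 hy))))
  have hit : ∀ n, mcomp_vv v (T^[n] 0) ≤ exp (-1 : ℤ) := by
    intro n
    induction n with
    | zero =>
      rw [Function.iterate_zero, id_eq, map_zero]
      exact zero_le
    | succ n ih =>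
      rw [Function.iterate_succ_apply']
      exact hTS _ ih
  have hstep : ∀ n, mcomp_vv v (T^[n + 1] 0 - T^[n] 0) ≤ exp (-(n : ℤ)) := by
    intro n
    induction n with
    | zero =>
      rw [Nat.cast_zero, neg_zero, exp_zero]
      refine (Valuation.map_sub _ _ _).trans (max_le ((hit _).trans he1) ((hit _).trans he1))
    | succ n ih =>
      rw [Function.iterate_succ_apply' T (n + 1), Function.iterate_succ_apply' T n]
      refine (hcon _ _ (by rw [← Function.iterate_succ_apply' T n]; exact hit _) (hit _)).trans ?_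
      have e2 : exp (-((n + 1 : ℕ) : ℤ)) = (exp (-1 : ℤ) * exp (-(n : ℤ)) :
          WithZero (Multiplicative ℤ)) := by
        rw [← exp_add]
        congr 1
        push_cast
        ring
      rw [e2]
      refine mul_le_mul' le_rfl ?_
      rw [← Function.iterate_succ_apply' T n]
      exact ih
  obtain ⟨w, hw⟩ := mcomp_lim v (a := fun n => T^[n] 0) hstep
  have hwT : T w = w := by
    have t1 : Tendsto (fun n => T (T^[n] 0)) atTop (𝓝 (T w)) := (hTc.tendsto w).comp hw
    have t2 : Tendsto (fun n => T^[n + 1] 0) atTop (𝓝 w) := hw.comp (tendsto_add_atTop_nat 1)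
    have e3 : (fun n => T (T^[n] 0)) = fun n => T^[n + 1] 0 := by
      funext n
      rw [Function.iterate_succ_apply']
    rw [e3] at t1
    exact tendsto_nhds_unique t1 t2
  refine ⟨w, ?_, ?_⟩
  · exact (mcomp_closed v (exp (-1 : ℤ))).mem_of_tendsto hw (Eventually.of_forall hit)
  · rw [hT] at hwT
    have e4 : c₀ + c₁ * w + c₂ * w ^ 2 + c₃ * w ^ 3 + c₄ * w ^ 4 =
      c₁ * (w - -((c₀ + c₂ * w ^ 2 + c₃ * w ^ 3 + c₄ * w ^ 4) * c₁⁻¹)) := by
      field_simp
      ring
    rw [e4, hwT, sub_self, mul_zero]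

end gen

theorem t_mcomp : S_mcomp := by
  intro F _ _ P
  set v : HeightOneSpectrum F[X] := plv P with hv
  have hP0 : P.1 ≠ 0 := P.2.2.ne_zero
  have hint : v.intValuation P.1 = exp (-1 : ℤ) :=
    HeightOneSpectrum.intValuation_singleton _ hP0 rfl
  set π : v.adicCompletionIntegers (RatFunc F) :=
    algebraMap F[X] (v.adicCompletionIntegers (RatFunc F)) P.1 with hπ
  have hvπ : mcomp_vv v (π : v.adicCompletion (RatFunc F)) = exp (-1 : ℤ) := by
    rw [hπ, mcomp_coeR, hint]
  have hvπk : ∀ k : ℕ, mcomp_vv v ((π ^ k : v.adicCompletionIntegers (RatFunc F)) :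
      v.adicCompletion (RatFunc F)) = exp (-(k : ℤ)) := by
    intro k
    have e : ((π ^ k : v.adicCompletionIntegers (RatFunc F)) : v.adicCompletion (RatFunc F)) =
      (π : v.adicCompletion (RatFunc F)) ^ k := rfl
    rw [e, map_pow, hvπ, ← exp_nsmul]
    congr 1
    simp
  have hI := HeightOneSpectrum.adicCompletionIntegers.integers (K := RatFunc F) (v := v)
  have hdvd : ∀ x y : v.adicCompletionIntegers (RatFunc F), x ∣ y ↔
      mcomp_vv v (y : v.adicCompletion (RatFunc F)) ≤
        mcomp_vv v (x : v.adicCompletion (RatFunc F)) := fun x y => hI.dvd_iff_le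
  have hle : ∀ x : v.adicCompletionIntegers (RatFunc F),
      mcomp_vv v (x : v.adicCompletion (RatFunc F)) ≤ 1 := fun x => x.2
  have hunit : ∀ x : v.adicCompletionIntegers (RatFunc F), IsUnit x ↔
      mcomp_vv v (x : v.adicCompletion (RatFunc F)) = 1 := fun x =>
    HeightOneSpectrum.adicCompletionIntegers.isUnit_iff_valued_eq_one
  have hpd : ∀ x : v.adicCompletionIntegers (RatFunc F), π ∣ x ↔
      mcomp_vv v (x : v.adicCompletion (RatFunc F)) ≤ exp (-1 : ℤ) := by
    intro x
    rw [hdvd, hvπ]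
  have hens4 : ∀ c₀ c₁ c₂ c₃ c₄ : v.adicCompletionIntegers (RatFunc F), π ∣ c₀ → IsUnit c₁ →
      ∃ w, π ∣ w ∧ c₀ + c₁ * w + c₂ * w ^ 2 + c₃ * w ^ 3 + c₄ * w ^ 4 = 0 := by
    intro c₀ c₁ c₂ c₃ c₄ h0 h1
    obtain ⟨w, hw, hw'⟩ := mcomp_hensel v ((hpd c₀).1 h0) ((hunit c₁).1 h1) (hle c₂) (hle c₃)
      (hle c₄)
    have hw1 : mcomp_vv v w ≤ 1 := by
      refine hw.trans ?_
      rw [← exp_zero, exp_le_exp]
      norm_num
    refine ⟨⟨w, hw1⟩, (hpd _).2 hw, ?_⟩
    apply Subtype.ext
    exact hw'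
  refine { pow := ?_, nonunit := ?_, ne := ?_, dvd := ?_, dense := ?_, hensel := ?_,
           hensel4 := hens4 }
  · intro x hx
    have hx0 : (x : v.adicCompletion (RatFunc F)) ≠ 0 := fun h => hx (Subtype.ext h)
    have hvx : mcomp_vv v (x : v.adicCompletion (RatFunc F)) ≠ 0 :=
      (Valuation.ne_zero_iff _).2 hx0
    have h1 := hle x
    rw [← exp_log hvx, ← exp_zero, exp_le_exp] at h1
    obtain ⟨k, hk⟩ := Int.exists_eq_neg_ofNat h1
    have hxk : mcomp_vv v (x : v.adicCompletion (RatFunc F)) = exp (-(k : ℤ)) := by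
      rw [← exp_log hvx, hk]
    obtain ⟨u, hu⟩ := (hdvd (π ^ k) x).2 (by rw [hvπk, hxk])
    refine ⟨k, u, (hunit u).2 ?_, by rw [hu, mul_comm]⟩
    have h2 : mcomp_vv v (x : v.adicCompletion (RatFunc F)) =
        mcomp_vv v ((π ^ k : v.adicCompletionIntegers (RatFunc F)) : v.adicCompletion (RatFunc F)) *
        mcomp_vv v (u : v.adicCompletion (RatFunc F)) := by
      rw [← map_mul, hu]
      rfl
    rw [hvπk, hxk] at h2
    exact (mul_eq_left₀ exp_ne_zero).1 h2.symm
  · rw [hunit, hvπ, ← exp_zero, exp_inj]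
    norm_num
  · intro h
    rw [h] at hvπ
    have h3 : mcomp_vv v ((0 : v.adicCompletionIntegers (RatFunc F)) :
      v.adicCompletion (RatFunc F)) = 0 := map_zero _
    rw [h3] at hvπ
    exact exp_ne_zero hvπ.symm
  · intro k x
    rw [hdvd, hvπk, mcomp_coeR, HeightOneSpectrum.intValuation_le_pow_iff_mem]
    have e : v.asIdeal = Ideal.span {P.1} := rfl
    rw [e, Ideal.span_singleton_pow, Ideal.mem_span_singleton]
  · intro k x
    obtain ⟨κ, hκ⟩ := mcomp_open v (x : v.adicCompletion (RatFunc F)) (exp (-(k : ℤ)))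
      exp_ne_zero
    have hk1 : exp (-(k : ℤ)) ≤ (1 : WithZero (Multiplicative ℤ)) := by
      rw [← exp_zero, exp_le_exp]
      omega
    have hκ1 : v.valuation (RatFunc F) κ ≤ 1 := by
      rw [← mcomp_coe]
      have e : algebraMap (RatFunc F) (v.adicCompletion (RatFunc F)) κ =
        (algebraMap (RatFunc F) (v.adicCompletion (RatFunc F)) κ - x) + x := by ring
      rw [e]
      exact (Valuation.map_add _ _ _).trans (max_le (hκ.le.trans hk1) (hle x))
    obtain ⟨y, hy⟩ := HeightOneSpectrum.exists_valuation_sub_lt_of_integer v hκ1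
      (Units.mk0 (exp (-(k : ℤ))) exp_ne_zero)
    rw [Units.val_mk0] at hy
    refine ⟨y, ?_⟩
    rw [hdvd, hvπk]
    have e : ((x - algebraMap F[X] (v.adicCompletionIntegers (RatFunc F)) y :
        v.adicCompletionIntegers (RatFunc F)) : v.adicCompletion (RatFunc F)) =
        -(algebraMap (RatFunc F) (v.adicCompletion (RatFunc F))
            (algebraMap F[X] (RatFunc F) y - κ) +
          (algebraMap (RatFunc F) (v.adicCompletion (RatFunc F)) κ - x)) := by
      rw [map_sub]
      have e5 : ((x - algebraMap F[X] (v.adicCompletionIntegers (RatFunc F)) y :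
        v.adicCompletionIntegers (RatFunc F)) : v.adicCompletion (RatFunc F)) =
        (x : v.adicCompletion (RatFunc F)) -
          algebraMap (RatFunc F) (v.adicCompletion (RatFunc F)) (algebraMap F[X] (RatFunc F) y) :=
        rfl
      rw [e5]
      ring
    rw [e, Valuation.map_neg]
    refine (Valuation.map_add _ _ _).trans (max_le ?_ hκ.le)
    rw [mcomp_coe]
    exact hy.le
  · intro c₀ c₁ c₂ c₃ h0 h1
    obtain ⟨w, hw, hw'⟩ := hens4 c₀ c₁ c₂ c₃ 0 h0 h1
    exact ⟨w, hw, by rw [zero_mul, add_zero] at hw'; exact hw'⟩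

end Pool.Agent.H456.BQ
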