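import Pool.Agent.H456.BQ.Stm5

set_option autoImplicit false
set_option linter.all false

open Polynomial Finset
open Pool.Agent.H456.EC (toK toK_inj sig toK_eq reflect_toK)

namespace Pool.Agent.H456.BQ

section minfA

open WithZero Filter Topology

variable {L : Type} [Field L] [Valued L (WithZero (Multiplicative ℤ))]

theorem minf_ne_exp {x : WithZero (Multiplicative ℤ)} (hx : x ≠ 0) : ∃ m : ℤ, x = exp m :=
  ⟨log x, (exp_log hx).symm⟩

theorem minf_nhds {π : L} (hπ : Valued.v π = exp (-1 : ℤ)) (k : ℕ) :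
    {x : L | Valued.v x ≤ exp (-(k : ℤ))} ∈ 𝓝 (0 : L) := by
  have h1 : Valued.v (π ^ k) = exp (-(k : ℤ)) := by
    rw [map_pow, hπ, ← exp_nsmul]; congr 1; simp
  have h0 : (Valued.v.restrict (π ^ k) : MonoidWithZeroHom.ValueGroup₀ (.ofClass (Valued.v : Valuation L (WithZero (Multiplicative ℤ))))) ≠ 0 := by
    intro h
    have : Valued.v (π ^ k) = 0 := by simpa using h
    rw [h1] at this
    exact exp_ne_zero this
  have h2 := Valued.isOpen_closedBall L h0
  have h3 : {x : L | Valued.v x ≤ exp (-(k : ℤ))} =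
      {x : L | Valued.v.restrict x ≤ Valued.v.restrict (π ^ k)} := by
    ext x
    rw [Set.mem_setOf_eq, Set.mem_setOf_eq, Valuation.restrict_le_iff, h1]
  rw [h3]
  apply h2.mem_nhds
  show Valued.v.restrict (0 : L) ≤ Valued.v.restrict (π ^ k)
  rw [Valuation.restrict_le_iff, map_zero]
  exact zero_le

theorem minf_nhds' {s : Set L} (hs : s ∈ 𝓝 (0 : L)) : ∃ k : ℕ, {x : L | Valued.v x ≤ exp (-(k : ℤ))} ⊆ s := by
  rw [Valued.mem_nhds_zero] at hs
  obtain ⟨γ, hγ⟩ := hs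
  obtain ⟨m, hm⟩ := minf_ne_exp (x := MonoidWithZeroHom.ValueGroup₀.embedding γ.1) (by simp)
  refine ⟨(1 - m).toNat, fun x hx => hγ ?_⟩
  show Valued.v.restrict x < γ.1
  rw [Valuation.restrict_lt_iff_lt_embedding, hm]
  refine lt_of_le_of_lt hx ?_
  rw [exp_lt_exp]
  have := Int.self_le_toNat (1 - m)
  omega


/-- the valuation ring -/
abbrev MO (L : Type) [Field L] [Valued L (WithZero (Multiplicative ℤ))] : Type :=
  (Valued.v : Valuation L (WithZero (Multiplicative ℤ))).valuationSubring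

theorem minf_mem {x : L} : x ∈ (Valued.v : Valuation L (WithZero (Multiplicative ℤ))).valuationSubring ↔
    Valued.v x ≤ 1 := Valuation.mem_valuationSubring_iff _ _

theorem minf_pi_mem {π : L} (hπ : Valued.v π = exp (-1 : ℤ)) :
    π ∈ (Valued.v : Valuation L (WithZero (Multiplicative ℤ))).valuationSubring := by
  rw [minf_mem, hπ, ← exp_zero, exp_le_exp]; omega

theorem minf_vpow {π : L} (hπ : Valued.v π = exp (-1 : ℤ)) (k : ℕ) :
    Valued.v (π ^ k) = exp (-(k : ℤ)) := by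
  rw [map_pow, hπ, ← exp_nsmul]; congr 1; simp

theorem minf_dvd {π : L} (hπ : Valued.v π = exp (-1 : ℤ)) {k : ℕ} {x : MO L} :
    (⟨π, minf_pi_mem hπ⟩ : MO L) ^ k ∣ x ↔ Valued.v (x : L) ≤ exp (-(k : ℤ)) := by
  have h0 : π ^ k ≠ 0 := by
    intro h
    have := minf_vpow hπ k
    rw [h, map_zero] at this
    exact exp_ne_zero this.symm
  constructor
  · rintro ⟨y, rfl⟩
    have hy : Valued.v (y : L) ≤ 1 := minf_mem.1 y.2
    show Valued.v (π ^ k * (y : L)) ≤ exp (-(k : ℤ))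
    rw [map_mul, minf_vpow hπ]
    exact mul_le_of_le_one_right' hy
  · intro h
    have h1 : Valued.v ((x : L) / π ^ k) ≤ 1 := by
      rw [map_div₀, minf_vpow hπ]
      exact (div_le_one₀ (zero_lt_iff.2 exp_ne_zero)).2 h
    refine ⟨⟨(x : L) / π ^ k, minf_mem.2 h1⟩, ?_⟩
    apply Subtype.ext
    show (x : L) = π ^ k * ((x : L) / π ^ k)
    field_simp

theorem minf_unit {x : MO L} (h : Valued.v (x : L) = 1) : IsUnit x := by
  have h0 : (x : L) ≠ 0 := by
    intro h0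
    rw [h0, map_zero] at h
    exact zero_ne_one h
  refine IsUnit.of_mul_eq_one ⟨(x : L)⁻¹, minf_mem.2 ?_⟩ ?_
  · rw [map_inv₀, h, inv_one]
  · apply Subtype.ext
    show (x : L) * (x : L)⁻¹ = 1
    exact mul_inv_cancel₀ h0

theorem minf_pow {π : L} (hπ : Valued.v π = exp (-1 : ℤ)) (x : MO L) (hx : x ≠ 0) :
    ∃ (k : ℕ) (u : MO L), IsUnit u ∧ x = u * (⟨π, minf_pi_mem hπ⟩ : MO L) ^ k := by
  have hx0 : (x : L) ≠ 0 := fun h => hx (Subtype.ext h)
  have hv0 : Valued.v (x : L) ≠ 0 := (Valuation.ne_zero_iff _).2 hx0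
  obtain ⟨m, hm⟩ := minf_ne_exp hv0
  have h1 : Valued.v (x : L) ≤ 1 := minf_mem.1 x.2
  have h2 : m ≤ 0 := by
    rw [hm, ← exp_zero, exp_le_exp] at h1; exact h1
  obtain ⟨k, rfl⟩ : ∃ k : ℕ, m = -(k : ℤ) := ⟨(-m).toNat, by omega⟩
  obtain ⟨u, hu⟩ := (minf_dvd hπ (k := k) (x := x)).2 hm.le
  refine ⟨k, u, ?_, by rw [hu, mul_comm]⟩
  apply minf_unit
  have h3 : Valued.v (x : L) = exp (-(k : ℤ)) * Valued.v (u : L) := by
    rw [hu]
    show Valued.v (π ^ k * (u : L)) = _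
    rw [map_mul, minf_vpow hπ]
  rw [hm] at h3
  have h4 : exp (-(k : ℤ)) * Valued.v (u : L) = exp (-(k : ℤ)) * 1 := by rw [mul_one]; exact h3.symm
  exact mul_left_cancel₀ exp_ne_zero h4

theorem minf_sep {π : L} (hπ : Valued.v π = exp (-1 : ℤ)) (x : MO L)
    (h : ∀ k : ℕ, (⟨π, minf_pi_mem hπ⟩ : MO L) ^ k ∣ x) : x = 0 := by
  by_contra hx
  have hx0 : (x : L) ≠ 0 := fun h => hx (Subtype.ext h)
  have hv0 : Valued.v (x : L) ≠ 0 := (Valuation.ne_zero_iff _).2 hx0
  obtain ⟨m, hm⟩ := minf_ne_exp hv0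
  have h1 := (minf_dvd hπ).1 (h (1 - m).toNat)
  rw [hm, exp_le_exp] at h1
  have := Int.self_le_toNat (1 - m)
  omega

theorem minf_cpl [CompleteSpace L] {π : L} (hπ : Valued.v π = exp (-1 : ℤ)) (w : ℕ → MO L)
    (h : ∀ m : ℕ, (⟨π, minf_pi_mem hπ⟩ : MO L) ^ m ∣ w (m + 1) - w m) :
    ∃ W : MO L, ∀ k : ℕ, ∃ m, k ≤ m ∧ (⟨π, minf_pi_mem hπ⟩ : MO L) ^ k ∣ W - w m := by
  have h1 : ∀ m n : ℕ, m ≤ n → Valued.v ((w n : L) - (w m : L)) ≤ exp (-(m : ℤ)) := by
    intro m n hmn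
    induction n, hmn using Nat.le_induction with
    | base => rw [sub_self, map_zero]; exact zero_le
    | succ n hmn ih =>
      have e : (w (n + 1) : L) - (w m : L) = ((w (n + 1) - w n : MO L) : L) + ((w n : L) - (w m : L)) := by
        push_cast; ring
      rw [e]
      refine (Valuation.map_add_le _ ((minf_dvd hπ).1 (h n) |>.trans ?_) ih)
      rw [exp_le_exp]; omega
  have hc : CauchySeq (fun n => (w n : L)) := by
    rw [CauchySeq, Valued.cauchy_iff]
    refine ⟨inferInstance, fun γ => ?_⟩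
    obtain ⟨m, hm⟩ := minf_ne_exp (x := MonoidWithZeroHom.ValueGroup₀.embedding γ.1) (by simp)
    refine ⟨(fun n => (w n : L)) '' {n | (1 - m).toNat ≤ n}, ?_, ?_⟩
    · exact image_mem_map (mem_atTop _)
    · rintro _ ⟨i, hi, rfl⟩ _ ⟨j, hj, rfl⟩
      rw [Valuation.restrict_lt_iff_lt_embedding, hm]
      have h2 : Valued.v ((w j : L) - (w i : L)) ≤ exp (-((1 - m).toNat : ℤ)) := by
        have e : (w j : L) - (w i : L) = ((w j : L) - (w (1 - m).toNat : L)) -
          ((w i : L) - (w (1 - m).toNat : L)) := by ring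
        rw [e]
        exact Valuation.map_sub_le _ (h1 _ _ hj) (h1 _ _ hi)
      refine lt_of_le_of_lt h2 ?_
      rw [exp_lt_exp]
      have := Int.self_le_toNat (1 - m)
      omega
  obtain ⟨W, hW⟩ := cauchySeq_tendsto_of_complete hc
  have hW2 : ∀ k : ℕ, ∃ m, k ≤ m ∧ Valued.v (W - (w m : L)) ≤ exp (-(k : ℤ)) := by
    intro k
    have h3 : Tendsto (fun n => W - (w n : L)) atTop (𝓝 0) := by
      have := (tendsto_const_nhds (x := W)).sub hW
      rwa [sub_self] at this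
    have h4 : ∀ᶠ m in atTop, Valued.v (W - (w m : L)) ≤ exp (-(k : ℤ)) :=
      h3.eventually (minf_nhds hπ k)
    obtain ⟨m, hm1, hm2⟩ := (h4.and (eventually_ge_atTop k)).exists
    exact ⟨m, hm2, hm1⟩
  have hWm : Valued.v W ≤ 1 := by
    obtain ⟨m, _, hm⟩ := hW2 0
    have e : W = (W - (w m : L)) + (w m : L) := by ring
    rw [e]
    refine Valuation.map_add_le _ ?_ (minf_mem.1 (w m).2)
    refine hm.trans ?_
    rw [← exp_zero, exp_le_exp]; simp
  refine ⟨⟨W, minf_mem.2 hWm⟩, fun k => ?_⟩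
  obtain ⟨m, hm1, hm2⟩ := hW2 k
  exact ⟨m, hm1, (minf_dvd hπ).2 hm2⟩

end minfA

/-- Hensel's lemma for quartics from completeness -/
theorem minf_hens {O : Type} [CommRing O] {π : O} (hsep : ∀ x : O, (∀ k : ℕ, π ^ k ∣ x) → x = 0)
    (hcpl : ∀ w : ℕ → O, (∀ m : ℕ, π ^ m ∣ w (m + 1) - w m) →
      ∃ W : O, ∀ k : ℕ, ∃ m, k ≤ m ∧ π ^ k ∣ W - w m)
    (c₀ c₁ c₂ c₃ c₄ : O) (h0 : π ∣ c₀) (h1 : IsUnit c₁) :
    ∃ w, π ∣ w ∧ c₀ + c₁ * w + c₂ * w ^ 2 + c₃ * w ^ 3 + c₄ * w ^ 4 = 0 := by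
  obtain ⟨d, hd⟩ := h1.exists_right_inv
  obtain ⟨φ, hφ⟩ : ∃ φ : O → O, ∀ x, φ x = -(d * (c₀ + c₂ * x ^ 2 + c₃ * x ^ 3 + c₄ * x ^ 4)) :=
    ⟨_, fun _ => rfl⟩
  obtain ⟨w, hw0, hws⟩ : ∃ w : ℕ → O, w 0 = 0 ∧ ∀ m, w (m + 1) = φ (w m) :=
    ⟨fun m => φ^[m] 0, rfl, fun m => Function.iterate_succ_apply' _ _ _⟩
  have hπw : ∀ m, π ∣ w m := by
    intro m
    induction m with
    | zero => rw [hw0]; exact dvd_zero _
    | succ m ih =>
      rw [hws, hφ]
      obtain ⟨a, ha⟩ := ih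
      obtain ⟨b, hb⟩ := h0
      exact ⟨-(d * (b + c₂ * a * w m + c₃ * a * w m ^ 2 + c₄ * a * w m ^ 3)), by
        linear_combination (-d) * hb - d * (c₂ * w m + c₃ * w m ^ 2 + c₄ * w m ^ 3) * ha⟩
  have hstep : ∀ m, π ^ (m + 1) ∣ w (m + 1) - w m := by
    intro m
    induction m with
    | zero =>
      rw [zero_add, pow_one, hw0, sub_zero]
      exact hπw 1
    | succ m ih =>
      obtain ⟨z, hz⟩ := ih
      obtain ⟨a, ha⟩ := hπw (m + 1)
      obtain ⟨b, hb⟩ := hπw m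
      rw [hws (m + 1)]
      have e : φ (w (m + 1)) - w (m + 1) = φ (w (m + 1)) - φ (w m) := by rw [← hws m]
      rw [e, hφ, hφ]
      refine ⟨-(d * z * (c₂ * (a + b) + c₃ * (a * w (m + 1) + a * w m + b * w m) +
        c₄ * (a * w (m + 1) ^ 2 + a * w (m + 1) * w m + a * w m ^ 2 + b * w m ^ 2))), ?_⟩
      generalize w (m + 1) = x at *
      generalize w m = y at *
      have hz' : x - y = π ^ (m + 1) * z := hz
      have e1 : c₂ * (x + y) + c₃ * (x ^ 2 + x * y + y ^ 2) + c₄ * (x ^ 3 + x ^ 2 * y + x * y ^ 2 + y ^ 3) =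
        π * (c₂ * (a + b) + c₃ * (a * x + a * y + b * y) +
        c₄ * (a * x ^ 2 + a * x * y + a * y ^ 2 + b * y ^ 2)) := by
        linear_combination (c₂ + c₃ * (x + y) + c₄ * (x ^ 2 + x * y + y ^ 2)) * ha +
          (c₂ + c₃ * y + c₄ * y ^ 2) * hb
      have e2 : -(d * (c₀ + c₂ * x ^ 2 + c₃ * x ^ 3 + c₄ * x ^ 4)) -
          -(d * (c₀ + c₂ * y ^ 2 + c₃ * y ^ 3 + c₄ * y ^ 4)) =
          -(d * (x - y) * (c₂ * (x + y) + c₃ * (x ^ 2 + x * y + y ^ 2) +
            c₄ * (x ^ 3 + x ^ 2 * y + x * y ^ 2 + y ^ 3))) := by ring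
      rw [e2, e1, hz']
      ring
  obtain ⟨W, hW⟩ := hcpl w fun m => (pow_dvd_pow π (Nat.le_succ m)).trans (hstep m)
  refine ⟨W, ?_, ?_⟩
  · obtain ⟨m, _, hm⟩ := hW 1
    rw [pow_one] at hm
    have := dvd_add hm (hπw m)
    rwa [sub_add_cancel] at this
  · apply hsep
    intro k
    obtain ⟨m, hkm, hm⟩ := hW k
    have h2 : π ^ k ∣ w (m + 1) - w m := (pow_dvd_pow π (by omega)).trans (hstep m)
    obtain ⟨a, ha⟩ := hm
    obtain ⟨b, hb⟩ := h2
    rw [hws m, hφ] at hb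
    generalize w m = y at *
    refine ⟨a * (c₁ + c₂ * (W + y) + c₃ * (W ^ 2 + W * y + y ^ 2) +
      c₄ * (W ^ 3 + W ^ 2 * y + W * y ^ 2 + y ^ 3)) - c₁ * b, ?_⟩
    linear_combination (c₁ + c₂ * (W + y) + c₃ * (W ^ 2 + W * y + y ^ 2) +
      c₄ * (W ^ 3 + W ^ 2 * y + W * y ^ 2 + y ^ 3)) * ha - c₁ * hb +
      (-(c₀ + c₂ * y ^ 2 + c₃ * y ^ 3 + c₄ * y ^ 4)) * hd


section minfB

open WithZero Filter Topology

open scoped RatFunc.CompletionAtInfty

attribute [-instance] RatFunc.valuedRatFunc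

variable (F : Type) [Field F] [DecidableEq (RatFunc F)]

instance minf_complete : CompleteSpace (RatFunc.CompletionAtInfty F) :=
  inferInstanceAs (CompleteSpace (UniformSpace.Completion (RatFunc F)))

theorem minf_v (x : RatFunc F) : Valued.v (algebraMap (RatFunc F) (RatFunc.CompletionAtInfty F) x) =
    RatFunc.inftyValuation F x := by
  letI := RatFunc.inftyValued F
  exact Valued.valuedCompletion_apply x

theorem minf_v_Oi (x : RatFunc F) (hx : x ∈ Oi F) :
    Valued.v (algebraMap (RatFunc F) (RatFunc.CompletionAtInfty F) x) ≤ 1 := by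
  rw [minf_v, RatFunc.inftyValuation_apply]
  rw [mem_Oi] at hx
  rcases hx with rfl | hx
  · rw [RatFunc.InftyValuation.map_zero']; exact zero_le
  · by_cases h0 : x = 0
    · subst h0; rw [RatFunc.InftyValuation.map_zero']; exact zero_le
    · rw [RatFunc.inftyValuation_of_nonzero F h0, ← exp_zero, exp_le_exp]
      exact hx

theorem minf_Oi_v (x : RatFunc F)
    (hx : Valued.v (algebraMap (RatFunc F) (RatFunc.CompletionAtInfty F) x) ≤ 1) : x ∈ Oi F := by
  rw [minf_v, RatFunc.inftyValuation_apply] at hx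
  rw [mem_Oi]
  by_cases h0 : x = 0
  · exact Or.inl h0
  · right
    rwa [RatFunc.inftyValuation_of_nonzero F h0, ← exp_zero, exp_le_exp] at hx

theorem minf_v_X : Valued.v (algebraMap (RatFunc F) (RatFunc.CompletionAtInfty F) (RatFunc.X)⁻¹) =
    exp (-1 : ℤ) := by
  rw [minf_v, map_inv₀, RatFunc.inftyValuation.X, exp_neg]

theorem minf_dense (x : RatFunc.CompletionAtInfty F) (k : ℕ) : ∃ r : RatFunc F,
    Valued.v (x - algebraMap (RatFunc F) (RatFunc.CompletionAtInfty F) r) ≤ exp (-(k : ℤ)) := by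
  have hd : DenseRange (algebraMap (RatFunc F) (RatFunc.CompletionAtInfty F)) := by
    letI := RatFunc.inftyValued F
    exact UniformSpace.Completion.denseRange_coe (α := RatFunc F)
  have h1 : {y : RatFunc.CompletionAtInfty F | Valued.v (x - y) ≤ exp (-(k : ℤ))} ∈ 𝓝 x := by
    have h2 : Tendsto (fun y : RatFunc.CompletionAtInfty F => x - y) (𝓝 x) (𝓝 0) := by
      have := (tendsto_const_nhds (x := x)).sub (tendsto_id (α := RatFunc.CompletionAtInfty F) (x := 𝓝 x))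
      rwa [sub_self] at this
    exact h2 (minf_nhds (minf_v_X F) k)
  obtain ⟨y, hy1, r, rfl⟩ := mem_closure_iff_nhds.1 (hd x) _ h1
  exact ⟨r, hy1⟩

/-- the map `F[X] → O` -/
noncomputable def minf_iota : F[X] →+* MO (RatFunc.CompletionAtInfty F) :=
  RingHom.codRestrict ((algebraMap (RatFunc F) (RatFunc.CompletionAtInfty F)).comp (sig F)) _
    (fun x => minf_mem.2 (minf_v_Oi F _ (sig_mem x)))

theorem minf_iota_coe (x : F[X]) : ((minf_iota F x : MO (RatFunc.CompletionAtInfty F)) :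
    RatFunc.CompletionAtInfty F) = algebraMap (RatFunc F) (RatFunc.CompletionAtInfty F) (sig F x) := rfl

theorem minf_sig_unit {b : F[X]} (hb : ¬ X ∣ b) :
    Valued.v (algebraMap (RatFunc F) (RatFunc.CompletionAtInfty F) (sig F b)) = 1 := by
  apply le_antisymm (minf_v_Oi F _ (sig_mem b))
  have h0 : sig F b ≠ 0 := by
    intro h
    apply hb
    have : b = 0 := locI_sig_inj (by rw [h, map_zero])
    rw [this]
    exact dvd_zero _
  have h1 : (sig F b)⁻¹ ∈ Oi F := locI_unit (b := b) hb (a := 1) (by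
    rw [map_one]; exact mul_inv_cancel₀ h0)
  have h2 := minf_v_Oi F _ h1
  rw [map_inv₀, map_inv₀] at h2
  have h3 : (0 : WithZero (Multiplicative ℤ)) <
      Valued.v (algebraMap (RatFunc F) (RatFunc.CompletionAtInfty F) (sig F b)) := by
    rw [zero_lt_iff, Valuation.ne_zero_iff]
    exact (_root_.map_ne_zero _).2 h0
  exact (inv_le_one₀ h3).1 h2

theorem minf_iota_X : minf_iota F X = ⟨_, minf_pi_mem (minf_v_X F)⟩ := by
  apply Subtype.ext
  rw [minf_iota_coe, locI_sig_X]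

theorem minf_v_sig (k : ℕ) : Valued.v (algebraMap (RatFunc F) (RatFunc.CompletionAtInfty F) (sig F (X ^ k))) =
    exp (-(k : ℤ)) := by
  rw [map_pow, map_pow, locI_sig_X, minf_vpow (minf_v_X F)]

theorem minf_dvd_iff (k : ℕ) (x : F[X]) :
    (⟨_, minf_pi_mem (minf_v_X F)⟩ : MO (RatFunc.CompletionAtInfty F)) ^ k ∣ minf_iota F x ↔ X ^ k ∣ x := by
  constructor
  · intro h
    by_cases hx : x = 0
    · subst hx; exact dvd_zero _
    obtain ⟨y, hy, hy2⟩ := exists_eq_pow_rootMultiplicity_mul_and_not_dvd x hx 0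
    rw [C_0, sub_zero] at hy hy2
    generalize rootMultiplicity 0 x = m at *
    have h1 := (minf_dvd (minf_v_X F)).1 h
    rw [minf_iota_coe, hy, map_mul, map_mul, map_mul, minf_sig_unit F hy2, mul_one, minf_v_sig,
      exp_le_exp] at h1
    rw [hy]
    exact (pow_dvd_pow X (by omega)).trans (dvd_mul_right _ _)
  · rintro ⟨y, rfl⟩
    rw [map_mul, map_pow, minf_iota_X]
    exact dvd_mul_right _ _

theorem minf_dense2 (k : ℕ) (x : MO (RatFunc.CompletionAtInfty F)) : ∃ y : F[X],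
    (⟨_, minf_pi_mem (minf_v_X F)⟩ : MO (RatFunc.CompletionAtInfty F)) ^ k ∣ x - minf_iota F y := by
  obtain ⟨r, hr⟩ := minf_dense F (x : RatFunc.CompletionAtInfty F) k
  have hr1 : r ∈ Oi F := by
    apply minf_Oi_v
    have e : algebraMap (RatFunc F) (RatFunc.CompletionAtInfty F) r = (x : RatFunc.CompletionAtInfty F) -
      ((x : RatFunc.CompletionAtInfty F) - algebraMap (RatFunc F) (RatFunc.CompletionAtInfty F) r) := by ring
    rw [e]
    refine Valuation.map_sub_le _ (minf_mem.1 x.2) (hr.trans ?_)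
    rw [← exp_zero, exp_le_exp]; simp
  obtain ⟨a, b, hb, hab⟩ := locI_O_to_P hr1
  have hcop : IsCoprime b ((X : F[X]) ^ k) := by
    apply IsCoprime.pow_right
    exact ((Irreducible.coprime_iff_not_dvd irreducible_X).2 hb).symm
  obtain ⟨u, v, huv⟩ := hcop
  refine ⟨a * u, ?_⟩
  rw [minf_dvd (minf_v_X F)]
  have e1 : ((x - minf_iota F (a * u) : MO (RatFunc.CompletionAtInfty F)) : RatFunc.CompletionAtInfty F) =
    ((x : RatFunc.CompletionAtInfty F) - algebraMap (RatFunc F) (RatFunc.CompletionAtInfty F) r) +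
    algebraMap (RatFunc F) (RatFunc.CompletionAtInfty F) (r - sig F (a * u)) := by
    rw [map_sub, ← minf_iota_coe]
    push_cast
    ring
  rw [e1]
  refine Valuation.map_add_le _ hr ?_
  have e2 : sig F b * r = sig F a := by
    have := congrArg (locI_tau F) hab
    rwa [map_mul, locI_tau_toK, locI_tau_tau, locI_tau_toK] at this
  have e3 : sig F b * (r - sig F (a * u)) = sig F (X ^ k * (a * v)) := by
    have e4 : a - b * (a * u) = X ^ k * (a * v) := by linear_combination (-a) * huv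
    rw [← e4, mul_sub, e2, map_sub, map_mul (sig F) b]
  have e5 := congrArg (fun t => Valued.v (algebraMap (RatFunc F) (RatFunc.CompletionAtInfty F) t)) e3
  simp only [map_mul, minf_sig_unit F hb, one_mul] at e5
  have e6 : Valued.v (algebraMap (RatFunc F) (RatFunc.CompletionAtInfty F) (r - sig F (a * u))) ≤
      exp (-(k : ℤ)) := by
    rw [show r - sig F (a * u) = r - sig F a * sig F u by rw [map_mul]]
    rw [e5, minf_v_sig, ← map_mul, ← map_mul, ← map_mul]
    exact mul_le_of_le_one_right' (minf_v_Oi F _ (sig_mem _))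
  exact e6

end minfB

theorem t_minf : S_minf := by
  intro F _ _ _
  have h4 := minf_hens (O := MO (RatFunc.CompletionAtInfty F)) (minf_sep (minf_v_X F))
    (minf_cpl (minf_v_X F))
  refine ⟨MO (RatFunc.CompletionAtInfty F), inferInstance, inferInstance, inferInstance, inferInstance,
    ⟨_, minf_pi_mem (minf_v_X F)⟩, minf_iota F, ⟨⟨minf_pow (minf_v_X F), ?_, ?_, minf_dvd_iff F,
      minf_dense2 F, ?_⟩, h4⟩, ?_⟩
  · intro h
    have h1 := (minf_dvd_iff F 1 1).1 (by rw [pow_one, map_one]; exact h.dvd)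
    rw [pow_one] at h1
    exact Polynomial.not_isUnit_X (isUnit_of_dvd_one h1)
  · intro h
    have h1 := (minf_dvd_iff F 2 X).1 (by rw [minf_iota_X, h]; exact dvd_zero _)
    have h2 := (minf_dvd_iff F 1 1).2
    obtain ⟨y, hy⟩ := h1
    have h3 : (X : F[X]) * 1 = X * (X * y) := by linear_combination hy
    exact Polynomial.not_isUnit_X (IsUnit.of_mul_eq_one _ (mul_left_cancel₀ X_ne_zero h3).symm)
  · intro c₀ c₁ c₂ c₃ hc0 hc1
    obtain ⟨w, hw, hw2⟩ := h4 c₀ c₁ c₂ c₃ 0 hc0 hc1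
    exact ⟨w, hw, by rw [← hw2]; ring⟩
  · intro x
    rw [locI_tau_toK]
    rfl

end Pool.Agent.H456.BQ
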