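import Pool.Agent.H456.BQ.Stm4

/-!
(K16') `S_node`. Smooth points modulo `P` if `P` divides the discriminant exactly once.
-/

set_option autoImplicit false
set_option linter.all false

open Polynomial Finset
open Pool.Agent.H456.EC (toK toK_inj sig toK_eq reflect_toK)

namespace Pool.Agent.H456.BQ

section ringpart

variable {R : Type*} [CommRing R]

/-- the entries of the adjugate of twice the symmetric matrix of the quartic -/
def node_a11 (g : Q4 R) (r : R) : R := 4 * (g.C + r) * g.E - g.D ^ 2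
def node_a12 (g : Q4 R) (r : R) : R := -(2 * g.B * g.E + r * g.D)
def node_a13 (g : Q4 R) (r : R) : R := g.B * g.D + 2 * r * (g.C + r)
def node_a22 (g : Q4 R) (r : R) : R := 4 * g.A * g.E - r ^ 2
def node_a23 (g : Q4 R) (r : R) : R := -(2 * g.A * g.D + r * g.B)
def node_a33 (g : Q4 R) (r : R) : R := 4 * g.A * (g.C + r) - g.B ^ 2

theorem node_r1 (g : Q4 R) (r : R) :
    2 * g.A * node_a11 g r + g.B * node_a12 g r - r * node_a13 g r = -2 * g.res.ev r := by
  simp only [node_a11, node_a12, node_a13, Q4.res, Cub.ev]; ring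

theorem node_r2 (g : Q4 R) (r : R) :
    g.B * node_a11 g r + 2 * (g.C + r) * node_a12 g r + g.D * node_a13 g r = 0 := by
  simp only [node_a11, node_a12, node_a13]; ring

theorem node_r3 (g : Q4 R) (r : R) :
    -r * node_a11 g r + g.D * node_a12 g r + 2 * g.E * node_a13 g r = 0 := by
  simp only [node_a11, node_a12, node_a13]; ring

theorem node_s1 (g : Q4 R) (r : R) :
    2 * g.A * node_a13 g r + g.B * node_a23 g r - r * node_a33 g r = 0 := by
  simp only [node_a13, node_a23, node_a33]; ring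

theorem node_s2 (g : Q4 R) (r : R) :
    g.B * node_a13 g r + 2 * (g.C + r) * node_a23 g r + g.D * node_a33 g r = 0 := by
  simp only [node_a13, node_a23, node_a33]; ring

theorem node_s3 (g : Q4 R) (r : R) :
    -r * node_a13 g r + g.D * node_a23 g r + 2 * g.E * node_a33 g r = -2 * g.res.ev r := by
  simp only [node_a13, node_a23, node_a33, Q4.res, Cub.ev]; ring

theorem node_dev (g : Q4 R) (r : R) : node_a13 g r - node_a22 g r = g.res.dev r := by
  simp only [node_a13, node_a22, Q4.res, Cub.dev]; ring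

theorem node_m1 (g : Q4 R) (r : R) :
    node_a11 g r * node_a22 g r - node_a12 g r ^ 2 = -4 * g.E * g.res.ev r := by
  simp only [node_a11, node_a22, node_a12, Q4.res, Cub.ev]; ring

theorem node_m2 (g : Q4 R) (r : R) :
    node_a11 g r * node_a33 g r - node_a13 g r ^ 2 = -4 * (g.C + r) * g.res.ev r := by
  simp only [node_a11, node_a33, node_a13, Q4.res, Cub.ev]; ring

theorem node_m3 (g : Q4 R) (r : R) :
    node_a22 g r * node_a33 g r - node_a23 g r ^ 2 = -4 * g.A * g.res.ev r := by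
  simp only [node_a22, node_a33, node_a23, Q4.res, Cub.ev]; ring

theorem node_sq (g : Q4 R) (r : R) : 4 * g.res.ev r ^ 2 =
    node_a11 g r * (node_a22 g r * node_a33 g r - node_a23 g r ^ 2)
      - node_a12 g r * (node_a12 g r * node_a33 g r - node_a13 g r * node_a23 g r)
      + node_a13 g r * (node_a12 g r * node_a23 g r - node_a13 g r * node_a22 g r) := by
  simp only [node_a11, node_a22, node_a33, node_a12, node_a13, node_a23, Q4.res, Cub.ev]; ring

/-- a double root -/
theorem node_dbl {u v r : R} (g : Q4 R) (e1 : 2 * g.A * u ^ 2 + g.B * (u * v) - r * v ^ 2 = 0)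
    (e2 : g.B * u ^ 2 + 2 * (g.C + r) * (u * v) + g.D * v ^ 2 = 0)
    (e3 : -r * u ^ 2 + g.D * (u * v) + 2 * g.E * v ^ 2 = 0) :
    g.du u v = 0 ∧ g.dv u v = 0 ∧ 2 * g.ev u v = 0 := by
  refine ⟨?_, ?_, ?_⟩
  · simp only [Q4.du]
    linear_combination 2 * u * e1 + v * e2
  · simp only [Q4.dv]
    linear_combination u * e2 + 2 * v * e3
  · simp only [Q4.ev]
    linear_combination u ^ 2 * e1 + u * v * e2 + v ^ 2 * e3

theorem node_disc1 (A B C' d e P : R) : (⟨A, B, C', P * d, P * e⟩ : Q4 R).res.disc =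
    P * (-4 * C' ^ 3 * (B ^ 2 - 4 * A * C') * e) + P ^ 2 * (256 * A ^ 3 * P * e ^ 3
      - 192 * A ^ 2 * B * P * d * e ^ 2 - 128 * A ^ 2 * C' ^ 2 * e ^ 2
      + 144 * A ^ 2 * C' * P * d ^ 2 * e - 27 * A ^ 2 * P ^ 2 * d ^ 4 + 144 * A * B ^ 2 * C' * e ^ 2
      - 6 * A * B ^ 2 * P * d ^ 2 * e - 80 * A * B * C' ^ 2 * d * e + 18 * A * B * C' * P * d ^ 3
      - 4 * A * C' ^ 3 * d ^ 2 - 27 * B ^ 4 * e ^ 2 + 18 * B ^ 3 * C' * d * e
      - 4 * B ^ 3 * P * d ^ 3 + B ^ 2 * C' ^ 2 * d ^ 2) := by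
  simp only [Q4.res, Cub.disc]; ring

theorem node_du_sub (g : Q4 R) (M : M2 R) (u v : R) : (g.sub M).du u v =
    M.α * g.du (M.α * u + M.β * v) (M.γ * u + M.δ * v) +
      M.γ * g.dv (M.α * u + M.β * v) (M.γ * u + M.δ * v) := by
  simp only [Q4.du, Q4.dv, Q4.sub]; ring

theorem node_dv_sub (g : Q4 R) (M : M2 R) (u v : R) : (g.sub M).dv u v =
    M.β * g.du (M.α * u + M.β * v) (M.γ * u + M.δ * v) +
      M.δ * g.dv (M.α * u + M.β * v) (M.γ * u + M.δ * v) := by
  simp only [Q4.du, Q4.dv, Q4.sub]; ring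

end ringpart

section fieldpart

variable {κ : Type} [Field κ]

/-- the double root of a cubic with zero discriminant -/
theorem node_cub [Finite κ] (h2 : (2 : κ) ≠ 0) (h : Cub κ) (hd : h.disc = 0) :
    ∃ r, h.ev r = 0 ∧ h.dev r = 0 := by
  obtain ⟨a, b, c⟩ := h
  simp only [Cub.disc] at hd
  simp only [Cub.ev, Cub.dev]
  by_cases hs : a ^ 2 - 3 * b = 0
  · by_cases h3 : (3 : κ) = 0
    · have ha : a = 0 := by
        have h4 : a ^ 2 = 0 := by linear_combination hs + b * h3
        exact pow_eq_zero_iff (two_ne_zero) |>.1 h4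
      subst ha
      have hb : b = 0 := by
        have h4 : (2 : κ) ^ 2 * b ^ 3 = 0 := by linear_combination -hd - 9 * c ^ 2 * h3
        have h5 : b ^ 3 = 0 := (mul_eq_zero.1 h4).resolve_left (pow_ne_zero 2 h2)
        exact pow_eq_zero_iff (three_ne_zero) |>.1 h5
      subst hb
      -- cube roots in characteristic three
      have : CharP κ 3 := by
        obtain ⟨p, hp⟩ := CharP.exists κ
        have h5 : p ∣ 3 := by
          rw [← CharP.cast_eq_zero_iff κ p 3]
          exact_mod_cast h3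
        have h6 : p ≠ 1 := CharP.char_ne_one κ p
        have h7 : p = 3 := ((Nat.prime_three.eq_one_or_self_of_dvd p h5).resolve_left h6)
        rw [← h7]
        exact hp
      have : Fact (Nat.Prime 3) := ⟨Nat.prime_three⟩
      obtain ⟨r, hr⟩ := (Finite.injective_iff_surjective.1 (frobenius_inj κ 3)) (-c)
      rw [frobenius_def] at hr
      refine ⟨r, ?_, ?_⟩
      · rw [hr]; ring
      · linear_combination r ^ 2 * h3
    · refine ⟨-a / 3, ?_, ?_⟩
      · have hb : b = a ^ 2 / 3 := by field_simp; linear_combination -hs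
        subst hb
        have h4 : (27 * c - a ^ 3) ^ 2 = 0 := by
          have h5 : (27 : κ) * (a ^ 2 * (a ^ 2 / 3) ^ 2 - 4 * (a ^ 2 / 3) ^ 3 - 4 * a ^ 3 * c -
            27 * c ^ 2 + 18 * a * (a ^ 2 / 3) * c) = -(27 * c - a ^ 3) ^ 2 := by
            field_simp
            ring
          rw [hd, mul_zero] at h5
          exact neg_eq_zero.1 h5.symm
        have h5 : 27 * c - a ^ 3 = 0 := pow_eq_zero_iff (two_ne_zero) |>.1 h4
        field_simp
        linear_combination h5
      · have hb : b = a ^ 2 / 3 := by field_simp; linear_combination -hs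
        subst hb
        field_simp
        ring
  · have hD : 2 * (a ^ 2 - 3 * b) ≠ 0 := mul_ne_zero h2 hs
    have e : ∀ s n : κ, s ≠ 0 → (n / s) ^ 3 + a * (n / s) ^ 2 + b * (n / s) + c =
        (n ^ 3 + a * n ^ 2 * s + b * n * s ^ 2 + c * s ^ 3) / s ^ 3 := by
      intro s n hs
      field_simp
    have e' : ∀ s n : κ, s ≠ 0 → 3 * (n / s) ^ 2 + 2 * a * (n / s) + b =
        (3 * n ^ 2 + 2 * a * n * s + b * s ^ 2) / s ^ 2 := by
      intro s n hs
      field_simp
    refine ⟨(9 * c - a * b) / (2 * (a ^ 2 - 3 * b)), ?_, ?_⟩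
    · rw [e _ _ hD]
      have e1 : (9 * c - a * b) ^ 3 + a * (9 * c - a * b) ^ 2 * (2 * (a ^ 2 - 3 * b)) +
          b * (9 * c - a * b) * (2 * (a ^ 2 - 3 * b)) ^ 2 + c * (2 * (a ^ 2 - 3 * b)) ^ 3 =
          -(2 * a ^ 3 - 9 * a * b + 27 * c) * (a ^ 2 * b ^ 2 - 4 * b ^ 3 - 4 * a ^ 3 * c -
            27 * c ^ 2 + 18 * a * b * c) := by ring
      rw [e1, hd, mul_zero, zero_div]
    · rw [e' _ _ hD]
      have e1 : 3 * (9 * c - a * b) ^ 2 + 2 * a * (9 * c - a * b) * (2 * (a ^ 2 - 3 * b)) +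
          b * (2 * (a ^ 2 - 3 * b)) ^ 2 =
          -9 * (a ^ 2 * b ^ 2 - 4 * b ^ 3 - 4 * a ^ 3 * c -
            27 * c ^ 2 + 18 * a * b * c) := by ring
      rw [e1, hd, mul_zero, zero_div]

/-- the alternative for the rank of the symmetric matrix -/
theorem node_rank (h2 : (2 : κ) ≠ 0) (g : Q4 κ) (r : κ) (h0 : g.res.ev r = 0)
    (h1 : g.res.dev r = 0) :
    (node_a11 g r = 0 ∧ node_a12 g r = 0 ∧ node_a13 g r = 0 ∧ node_a22 g r = 0 ∧
      node_a23 g r = 0 ∧ node_a33 g r = 0) ∨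
    ∃ u v : κ, ¬ (u = 0 ∧ v = 0) ∧ g.du u v = 0 ∧ g.dv u v = 0 ∧ g.ev u v = 0 := by
  have q1 := node_r1 g r
  have q2 := node_r2 g r
  have q3 := node_r3 g r
  have t1 := node_s1 g r
  have t2 := node_s2 g r
  have t3 := node_s3 g r
  have m1 := node_m1 g r
  have m2 := node_m2 g r
  have m3 := node_m3 g r
  have hd := node_dev g r
  rw [h0] at q1 t3 m1 m2 m3
  rw [h1] at hd
  generalize node_a11 g r = a11 at *
  generalize node_a12 g r = a12 at *
  generalize node_a13 g r = a13 at *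
  generalize node_a22 g r = a22 at *
  generalize node_a23 g r = a23 at *
  generalize node_a33 g r = a33 at *
  have h22 : a22 = a13 := by linear_combination -hd
  subst h22
  by_cases h11 : a11 = 0
  · subst h11
    have h12 : a12 = 0 := by
      have : a12 ^ 2 = 0 := by linear_combination -m1
      exact pow_eq_zero_iff (two_ne_zero) |>.1 this
    have h13 : a22 = 0 := by
      have : a22 ^ 2 = 0 := by linear_combination -m2
      exact pow_eq_zero_iff (two_ne_zero) |>.1 this
    subst h12 h13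
    have h23 : a23 = 0 := by
      have : a23 ^ 2 = 0 := by linear_combination -m3
      exact pow_eq_zero_iff (two_ne_zero) |>.1 this
    subst h23
    by_cases h33 : a33 = 0
    · left
      exact ⟨rfl, rfl, rfl, rfl, rfl, h33⟩
    · right
      have hr : r = 0 := by
        have : r * a33 = 0 := by linear_combination -t1
        exact (mul_eq_zero.1 this).resolve_right h33
      have hD : g.D = 0 := by
        have : g.D * a33 = 0 := by linear_combination t2
        exact (mul_eq_zero.1 this).resolve_right h33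
      have hE : 2 * g.E = 0 := by
        have : (2 * g.E) * a33 = 0 := by linear_combination t3
        exact (mul_eq_zero.1 this).resolve_right h33
      obtain ⟨e1, e2, e3⟩ := node_dbl (u := 0) (v := 1) (r := r) g (by rw [hr]; ring)
        (by rw [hD]; ring) (by linear_combination hE)
      refine ⟨0, 1, fun h => one_ne_zero h.2, e1, e2, ?_⟩
      exact (mul_eq_zero.1 e3).resolve_left h2
  · right
    obtain ⟨e1, e2, e3⟩ := node_dbl (u := a11) (v := a12) (r := r) g
      (by linear_combination a11 * q1 + r * m1)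
      (by linear_combination a11 * q2 - g.D * m1)
      (by linear_combination a11 * q3 - 2 * g.E * m1)
    refine ⟨a11, a12, fun h => h11 h.1, e1, e2, ?_⟩
    exact (mul_eq_zero.1 e3).resolve_left h2

/-- points of conics -/
theorem node_conic [Fintype κ] (h2 : (2 : κ) ≠ 0) (A B C' : κ) (hC : C' ≠ 0) :
    ∃ v w : κ, w ^ 2 = A + B * v + C' * v ^ 2 := by
  classical
  have hodd : Fintype.card κ % 2 = 1 := by
    apply FiniteField.odd_card_of_char_ne_two
    intro h3
    apply h2
    have h5 := ringChar.Nat.cast_ringChar (R := κ)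
    rw [h3] at h5
    exact_mod_cast h5
  have d1 : degree (X ^ 2 : κ[X]) = 2 := degree_X_pow 2
  have d2 : degree (C (-C') * X ^ 2 + C (-B) * X + C (-A) : κ[X]) = 2 :=
    degree_quadratic (neg_ne_zero.2 hC)
  obtain ⟨w, v, h⟩ := FiniteField.exists_root_sum_quadratic d1 d2 hodd
  refine ⟨v, w, ?_⟩
  simp only [eval_pow, eval_X, eval_add, eval_mul, eval_C] at h
  linear_combination h

/-- smooth points of quartics with a node at `(0 : 1)` -/
theorem node_std [Fintype κ] (h2 : (2 : κ) ≠ 0) (g : Q4 κ) (hD : g.D = 0) (hE : g.E = 0)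
    (hC : g.C ≠ 0) (hq : g.B ^ 2 - 4 * g.A * g.C ≠ 0) :
    ∃ u v z : κ, ¬ (u = 0 ∧ v = 0) ∧ z ^ 2 = g.ev u v ∧ (z ≠ 0 ∨ g.du u v ≠ 0 ∨ g.dv u v ≠ 0) := by
  obtain ⟨v, w, h⟩ := node_conic h2 g.A g.B g.C hC
  refine ⟨1, v, w, fun h => one_ne_zero h.1, ?_, ?_⟩
  · rw [h]
    simp only [Q4.ev, hD, hE]
    ring
  · by_contra hcon
    push Not at hcon
    obtain ⟨h3, -, h4⟩ := hcon
    subst h3
    simp only [Q4.dv, hD, hE] at h4
    apply hq
    linear_combination (g.B + 2 * g.C * v) * h4 + 4 * g.C * h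

/-- smooth points and substitutions -/
theorem node_sub (g : Q4 κ) (M : M2 κ) (hM : M.det ≠ 0)
    (h : ∃ u v z : κ, ¬ (u = 0 ∧ v = 0) ∧ z ^ 2 = (g.sub M).ev u v ∧
      (z ≠ 0 ∨ (g.sub M).du u v ≠ 0 ∨ (g.sub M).dv u v ≠ 0)) :
    ∃ u v z : κ, ¬ (u = 0 ∧ v = 0) ∧ z ^ 2 = g.ev u v ∧
      (z ≠ 0 ∨ g.du u v ≠ 0 ∨ g.dv u v ≠ 0) := by
  obtain ⟨u, v, z, h1, h2, h3⟩ := h
  refine ⟨M.α * u + M.β * v, M.γ * u + M.δ * v, z, ?_, ?_, ?_⟩
  · rintro ⟨h4, h5⟩
    apply h1
    simp only [M2.det] at hM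
    constructor
    · apply (mul_eq_zero.1 (show (M.α * M.δ - M.β * M.γ) * u = 0 by
        linear_combination M.δ * h4 - M.β * h5)).resolve_left hM
    · apply (mul_eq_zero.1 (show (M.α * M.δ - M.β * M.γ) * v = 0 by
        linear_combination -M.γ * h4 + M.α * h5)).resolve_left hM
  · rw [h2, Q4.ev_sub]
  · rw [node_du_sub, node_dv_sub] at h3
    by_contra hcon
    push Not at hcon
    obtain ⟨h4, h5, h6⟩ := hcon
    rw [h5, h6] at h3
    rcases h3 with h3 | h3 | h3
    · exact h3 h4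
    · apply h3; ring
    · apply h3; ring

end fieldpart

/-- a smooth point gives a positive number -/
theorem node_sp {κ : Type} [CommRing κ] [Fintype κ] (hf : IsField κ) (g : Q4 κ) (u v z : κ)
    (h1 : ¬ (u = 0 ∧ v = 0)) (h2 : z ^ 2 = g.ev u v) (h3 : z ≠ 0 ∨ g.du u v ≠ 0 ∨ g.dv u v ≠ 0) :
    1 ≤ g.sp := by
  classical
  have hnt : Nontrivial κ := hf.nontrivial
  have hdom : IsDomain κ := hf.isDomain
  unfold Q4.sp
  by_cases hv : v = 0
  · subst hv
    have hu : u ≠ 0 := fun h => h1 ⟨h, rfl⟩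
    obtain ⟨w, hw⟩ := hf.mul_inv_cancel hu
    have hw0 : w ≠ 0 := by
      rintro rfl
      rw [mul_zero] at hw
      exact zero_ne_one hw
    refine le_trans ?_ (Nat.le_add_left _ _)
    rw [Nat.succ_le_iff, Finset.card_pos]
    refine ⟨z * w ^ 2, ?_⟩
    rw [Finset.mem_filter]
    refine ⟨Finset.mem_univ _, ?_, ?_⟩
    · simp only [Q4.ev] at h2
      have h4 : (u * w) ^ 4 = 1 := by rw [hw, one_pow]
      linear_combination w ^ 4 * h2 + g.A * h4
    · rcases h3 with h3 | h3 | h3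
      · left; exact mul_ne_zero h3 (pow_ne_zero 2 hw0)
      · by_cases hz : z = 0
        · exfalso
          subst hz
          simp only [Q4.ev] at h2
          simp only [Q4.du] at h3
          apply h3
          have h4 : u * (4 * g.A * u ^ 3 + 3 * g.B * u ^ 2 * 0 + 2 * g.C * u * 0 ^ 2 + g.D * 0 ^ 3) = 0 := by
            linear_combination -4 * h2
          exact (mul_eq_zero.1 h4).resolve_left hu
        · left; exact mul_ne_zero hz (pow_ne_zero 2 hw0)
      · right
        intro hB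
        apply h3
        simp only [Q4.dv, hB]
        ring
  · obtain ⟨w, hw⟩ := hf.mul_inv_cancel hv
    have hw0 : w ≠ 0 := by
      rintro rfl
      rw [mul_zero] at hw
      exact zero_ne_one hw
    refine le_trans ?_ (Nat.le_add_right _ _)
    rw [Nat.succ_le_iff, Finset.card_pos]
    refine ⟨(u * w, z * w ^ 2), ?_⟩
    rw [Finset.mem_filter]
    have e1 : g.ev (u * w) 1 = w ^ 4 * g.ev u v := by
      simp only [Q4.ev]
      have h4 : (v * w) ^ 4 = 1 := by rw [hw, one_pow]
      have h5 : (v * w) ^ 3 = 1 := by rw [hw, one_pow]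
      have h6 : (v * w) ^ 2 = 1 := by rw [hw, one_pow]
      linear_combination -g.B * u ^ 3 * w ^ 3 * hw - g.C * u ^ 2 * w ^ 2 * h6 -
        g.D * u * w * h5 - g.E * h4
    have e2 : g.du (u * w) 1 = w ^ 3 * g.du u v := by
      simp only [Q4.du]
      have h5 : (v * w) ^ 3 = 1 := by rw [hw, one_pow]
      have h6 : (v * w) ^ 2 = 1 := by rw [hw, one_pow]
      linear_combination -3 * g.B * u ^ 2 * w ^ 2 * hw - 2 * g.C * u * w * h6 -
        g.D * h5
    refine ⟨Finset.mem_univ _, ?_, ?_⟩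
    · change (z * w ^ 2) ^ 2 = g.ev (u * w) 1
      rw [e1, ← h2]
      ring
    · change z * w ^ 2 ≠ 0 ∨ 4 * g.A * (u * w) ^ 3 + 3 * g.B * (u * w) ^ 2 + 2 * g.C * (u * w) +
        g.D ≠ 0
      have e3 : 4 * g.A * (u * w) ^ 3 + 3 * g.B * (u * w) ^ 2 + 2 * g.C * (u * w) +
        g.D = w ^ 3 * g.du u v := by
        rw [← e2]
        simp only [Q4.du]
        ring
      rw [e3]
      by_cases hz : z = 0
      · right
        refine mul_ne_zero (pow_ne_zero 3 hw0) ?_
        intro h4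
        have h5 : v * g.dv u v = 0 := by
          have h6 : u * g.du u v + v * g.dv u v = 4 * g.ev u v := by
            simp only [Q4.du, Q4.dv, Q4.ev]; ring
          rw [h4, ← h2, hz] at h6
          linear_combination h6
        have h6 : g.dv u v = 0 := (mul_eq_zero.1 h5).resolve_left hv
        rcases h3 with h3 | h3 | h3
        · exact h3 hz
        · exact h3 h4
        · exact h3 h6
      · left
        exact mul_ne_zero hz (pow_ne_zero 2 hw0)

theorem t_node : S_node := by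
  intro F _ _ h2 P G hd hd2
  classical
  have hirr := P.2.2
  have hprime := hirr.prime
  have hP0 : P.1 ≠ 0 := hirr.ne_zero
  have hf : IsField (Rq (P.1 ^ 1)) := by
    have h1 : Irreducible (P.1 ^ 1) := by
      rw [pow_one]
      exact P.2.2
    exact (Ideal.Quotient.maximal_ideal_iff_isField_quotient _).1
      (PrincipalIdealRing.isMaximal_of_irreducible h1)
  set φ := Ideal.Quotient.mk (Ideal.span {P.1 ^ 1}) with hφ
  have hz : ∀ a : F[X], φ a = 0 ↔ P.1 ∣ a := by
    intro a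
    have h := mk_zero (m := P.1 ^ 1) (a := a)
    rw [hφ, h, pow_one]
  have hsurj : Function.Surjective φ := Ideal.Quotient.mk_surjective
  have hu2 : IsUnit (2 : F[X]) := by
    have h3 : (2 : F[X]) = C 2 := (map_ofNat C 2).symm
    rw [h3]
    exact isUnit_C.2 (IsUnit.mk0 _ h2)
  have h2κ : (2 : Rq (P.1 ^ 1)) ≠ 0 := by
    intro h
    have h1 : φ 2 = 0 := by rw [map_ofNat]; exact h
    rw [hz] at h1
    exact hirr.not_isUnit (isUnit_of_dvd_unit h1 hu2)
  -- a smooth point is enough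
  suffices hs : ∃ u v z : Rq (P.1 ^ 1), ¬ (u = 0 ∧ v = 0) ∧ z ^ 2 = (G.map φ).ev u v ∧
      (z ≠ 0 ∨ (G.map φ).du u v ≠ 0 ∨ (G.map φ).dv u v ≠ 0) by
    obtain ⟨u, v, z, h3, h4, h5⟩ := hs
    exact node_sp hf _ u v z h3 h4 h5
  letI : Field (Rq (P.1 ^ 1)) := hf.toField
  have hdisc : (G.map φ).res.disc = 0 := by
    rw [Q4.map_res, Cub.map_disc, hz]
    exact hd
  obtain ⟨r', hr1, hr2⟩ := node_cub h2κ _ hdisc
  obtain ⟨r, rfl⟩ := hsurj r'
  have hres : ∀ x : F[X], (G.map φ).res.ev (φ x) = φ (G.res.ev x) := by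
    intro x
    rw [Q4.map_res]
    simp [Cub.ev, Cub.map]
  have hres' : ∀ x : F[X], (G.map φ).res.dev (φ x) = φ (G.res.dev x) := by
    intro x
    rw [Q4.map_res]
    simp [Cub.dev, Cub.map, map_ofNat]
  rcases node_rank h2κ (G.map φ) (φ r) hr1 hr2 with ⟨k1, k2, k3, k4, k5, k6⟩ | ⟨u, v, huv, hdu, hdv, hev⟩
  · exfalso
    apply hd2
    have l1 : P.1 ∣ node_a11 G r := by
      rw [← hz, ← k1]; simp [node_a11, Q4.map, map_ofNat]
    have l2 : P.1 ∣ node_a12 G r := by
      rw [← hz, ← k2]; simp [node_a12, Q4.map, map_ofNat]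
    have l3 : P.1 ∣ node_a13 G r := by
      rw [← hz, ← k3]; simp [node_a13, Q4.map, map_ofNat]
    have l4 : P.1 ∣ node_a22 G r := by
      rw [← hz, ← k4]; simp [node_a22, Q4.map, map_ofNat]
    have l5 : P.1 ∣ node_a23 G r := by
      rw [← hz, ← k5]; simp [node_a23, Q4.map, map_ofNat]
    have l6 : P.1 ∣ node_a33 G r := by
      rw [← hz, ← k6]; simp [node_a33, Q4.map, map_ofNat]
    obtain ⟨b1, hb1⟩ := l1
    obtain ⟨b2, hb2⟩ := l2
    obtain ⟨b3, hb3⟩ := l3
    obtain ⟨b4, hb4⟩ := l4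
    obtain ⟨b5, hb5⟩ := l5
    obtain ⟨b6, hb6⟩ := l6
    have hsq := node_sq G r
    rw [hb1, hb2, hb3, hb4, hb5, hb6] at hsq
    have hsq3 : P.1 ^ 3 ∣ (2 * G.res.ev r) ^ 2 :=
      ⟨b1 * (b4 * b6 - b5 ^ 2) - b2 * (b2 * b6 - b3 * b5) + b3 * (b2 * b5 - b3 * b4), by
        linear_combination hsq⟩
    have h3 : P.1 ∣ 2 * G.res.ev r :=
      hprime.dvd_of_dvd_pow (dvd_trans (dvd_pow_self _ (by norm_num)) hsq3)
    obtain ⟨y, hy⟩ := h3
    have h4 : P.1 ∣ y := by
      rw [hy] at hsq3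
      obtain ⟨x, hx⟩ := hsq3
      have h5 : y ^ 2 = P.1 * x := by
        apply mul_left_cancel₀ (pow_ne_zero 2 hP0)
        linear_combination hx
      exact hprime.dvd_of_dvd_pow (Dvd.intro x h5.symm)
    have h5 : P.1 ^ 2 ∣ 2 * G.res.ev r := by
      rw [hy, pow_two]
      exact mul_dvd_mul_left _ h4
    have h6 : P.1 ^ 2 ∣ G.res.ev r := by
      obtain ⟨w, hw⟩ := hu2.exists_left_inv
      have h7 : G.res.ev r = w * (2 * G.res.ev r) := by
        linear_combination -(G.res.ev r) * hw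
      rw [h7]
      exact Dvd.dvd.mul_left h5 w
    have h7 : P.1 ∣ G.res.dev r := by
      rw [← hz, ← hres']
      exact hr2
    obtain ⟨x, hx⟩ := h6
    obtain ⟨x', hx'⟩ := h7
    have h8 : G.res.disc = ((G.res.tr r).a ^ 2 * (G.res.dev r) ^ 2 - 4 * (G.res.dev r) ^ 3
        - 4 * (G.res.tr r).a ^ 3 * G.res.ev r - 27 * (G.res.ev r) ^ 2 +
          18 * (G.res.tr r).a * G.res.dev r * G.res.ev r) := by
      rw [← Cub.disc_tr r G.res]
      simp only [Cub.disc, Cub.tr, Cub.dev, Cub.ev]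
      ring
    rw [h8, hx, hx']
    refine ⟨(G.res.tr r).a ^ 2 * x' ^ 2 - 4 * P.1 * x' ^ 3 - 4 * (G.res.tr r).a ^ 3 * x -
      27 * P.1 ^ 2 * x ^ 2 + 18 * (G.res.tr r).a * P.1 * x' * x, ?_⟩
    ring
  · -- the double root, moved to `(0 : 1)`
    have key : ∀ M : M2 F[X], M.det ^ 2 = 1 → (G.map φ).ev (φ M.β) (φ M.δ) = 0 →
        (G.map φ).du (φ M.β) (φ M.δ) = 0 → (G.map φ).dv (φ M.β) (φ M.δ) = 0 →
        ∃ u v z : Rq (P.1 ^ 1), ¬ (u = 0 ∧ v = 0) ∧ z ^ 2 = (G.map φ).ev u v ∧
      (z ≠ 0 ∨ (G.map φ).du u v ≠ 0 ∨ (G.map φ).dv u v ≠ 0) := by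
      intro M hM e1 e2 e3
      have hMdet : (M.map φ).det ≠ 0 := by
        intro h
        rw [M2.map_det] at h
        have h3 : φ (M.det ^ 2) = 0 := by rw [map_pow, h]; ring
        rw [hM, map_one] at h3
        exact one_ne_zero h3
      apply node_sub (G.map φ) (M.map φ) hMdet
      rw [← Q4.map_sub]
      set G' := G.sub M with hG'
      have hE' : P.1 ∣ G'.E := by
        rw [← hz, ← e1]
        rw [hG']
        simp only [Q4.sub, Q4.ev, Q4.map, map_add, map_mul, map_pow]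
        ring
      have hD' : P.1 ∣ G'.D := by
        have h3 : φ G'.D = ((G.map φ).sub (M.map φ)).du 0 1 := by
          rw [← Q4.map_sub, ← hG']
          simp only [Q4.du, Q4.map]
          ring
        rw [← hz, h3, node_du_sub]
        have h4 : (M.map φ).α * 0 + (M.map φ).β * 1 = φ M.β := by
          simp only [M2.map]; ring
        have h5 : (M.map φ).γ * 0 + (M.map φ).δ * 1 = φ M.δ := by
          simp only [M2.map]; ring
        rw [h4, h5, e2, e3]
        ring
      have hdisc' : G'.res.disc = G.res.disc := by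
        rw [hG', Q4.res_sub, Cub.disc_tr, Cub.disc_sc, hM]
        ring
      obtain ⟨e, he⟩ := hE'
      obtain ⟨d, hd'⟩ := hD'
      have hG'eq : G' = ⟨G'.A, G'.B, G'.C, P.1 * d, P.1 * e⟩ := by
        ext1
        · rfl
        · rfl
        · rfl
        · exact hd'
        · exact he
      have hid := node_disc1 G'.A G'.B G'.C d e P.1
      rw [← hG'eq, hdisc'] at hid
      have hY : ¬ P.1 ∣ (-4 * G'.C ^ 3 * (G'.B ^ 2 - 4 * G'.A * G'.C) * e) := by
        intro h
        apply hd2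
        rw [hid]
        refine dvd_add ?_ (Dvd.intro _ rfl)
        rw [pow_two]
        exact mul_dvd_mul_left _ h
      have hC' : ¬ P.1 ∣ G'.C := by
        intro h
        apply hY
        exact Dvd.dvd.mul_right (Dvd.dvd.mul_right (Dvd.dvd.mul_left
          (dvd_pow h (by norm_num)) _) _) _
      have hq' : ¬ P.1 ∣ G'.B ^ 2 - 4 * G'.A * G'.C := by
        intro h
        apply hY
        exact Dvd.dvd.mul_right (Dvd.dvd.mul_left h _) _
      apply node_std h2κ (G'.map φ)
      · change φ G'.D = 0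
        rw [hz, hd']; exact Dvd.intro _ rfl
      · change φ G'.E = 0
        rw [hz, he]; exact Dvd.intro _ rfl
      · change φ G'.C ≠ 0
        rw [Ne, hz]; exact hC'
      · change φ G'.B ^ 2 - 4 * φ G'.A * φ G'.C ≠ 0
        have h3 : φ G'.B ^ 2 - 4 * φ G'.A * φ G'.C = φ (G'.B ^ 2 - 4 * G'.A * G'.C) := by
          simp [map_ofNat]
        rw [h3, Ne, hz]
        exact hq'
    by_cases hv : v = 0
    · have hu : u ≠ 0 := fun h => huv ⟨h, hv⟩
      subst hv
      apply key ⟨0, 1, 1, 0⟩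
      · simp only [M2.det]; ring
      · change (G.map φ).ev (φ 1) (φ 0) = 0
        rw [map_one, map_zero]
        apply (mul_eq_zero.1 ((show u ^ 4 * (G.map φ).ev 1 0 = (G.map φ).ev u 0 by
          simp only [Q4.ev]; ring).trans hev)).resolve_left (pow_ne_zero 4 hu)
      · change (G.map φ).du (φ 1) (φ 0) = 0
        rw [map_one, map_zero]
        apply (mul_eq_zero.1 ((show u ^ 3 * (G.map φ).du 1 0 = (G.map φ).du u 0 by
          simp only [Q4.du]; ring).trans hdu)).resolve_left (pow_ne_zero 3 hu)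
      · change (G.map φ).dv (φ 1) (φ 0) = 0
        rw [map_one, map_zero]
        apply (mul_eq_zero.1 ((show u ^ 3 * (G.map φ).dv 1 0 = (G.map φ).dv u 0 by
          simp only [Q4.dv]; ring).trans hdv)).resolve_left (pow_ne_zero 3 hu)
    · obtain ⟨t, ht⟩ := hsurj (u / v)
      have hut : u = v * φ t := by rw [ht]; field_simp
      apply key ⟨1, t, 0, 1⟩
      · simp only [M2.det]; ring
      · change (G.map φ).ev (φ t) (φ 1) = 0
        rw [map_one]
        apply (mul_eq_zero.1 ((show v ^ 4 * (G.map φ).ev (φ t) 1 = (G.map φ).ev u v by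
          rw [hut]; simp only [Q4.ev]; ring).trans hev)).resolve_left (pow_ne_zero 4 hv)
      · change (G.map φ).du (φ t) (φ 1) = 0
        rw [map_one]
        apply (mul_eq_zero.1 ((show v ^ 3 * (G.map φ).du (φ t) 1 = (G.map φ).du u v by
          rw [hut]; simp only [Q4.du]; ring).trans hdu)).resolve_left (pow_ne_zero 3 hv)
      · change (G.map φ).dv (φ t) (φ 1) = 0
        rw [map_one]
        apply (mul_eq_zero.1 ((show v ^ 3 * (G.map φ).dv (φ t) 1 = (G.map φ).dv u v by
          rw [hut]; simp only [Q4.dv]; ring).trans hdv)).resolve_left (pow_ne_zero 3 hv)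

end Pool.Agent.H456.BQ
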