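import Pool.Agent.H456.BQ.Stm4

/-!
(K1) `S_nz`. Let `(u, v, z)` be a point; if `z ≠ 0` we are done. Otherwise `g(u, v) = 0`; substitute by an invertible matrix
with first column `(u, v)`: `g' = g.sub M` has `g'.A = 0` and (as `g'.res.disc = det^… * g.res.disc ≠ 0` (`Q4.res_sub`,
`Cub.disc_tr`, `Cub.disc_sc`), and `A = B = 0` would give `res = ⟨C, 0, 0⟩` with zero discriminant) `g'.B ≠ 0`. For
`w = B T²` (`B = g'.B`, `T ∈ L`, `T ≠ 0`) one has `g'(1, w) = B² T² (1 + C T² + D B T⁴ + E B² T⁶)`; for `T = π^m` with `m` large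
the bracket is `1 + π c`, `c ∈ O`, hence a square `(1 + w')²` of an element of `O` by `Lc.hensel`
(`c₀ = -π c`, `c₁ = 2` (a unit), `c₂ = 1`, `c₃ = 0`). Every element of `L` is `x / π^k`, `x ∈ O` (`Lc.pow`, or `can_frac` of T_can.lean).
Transport the point back by `Q4.ev_sub`.
-/

set_option autoImplicit false
set_option linter.all false

open Polynomial Finset
open Pool.Agent.H456.EC (toK toK_inj sig toK_eq reflect_toK)

namespace Pool.Agent.H456.BQ

/-- every element of the fraction field becomes integral after multiplication by a power of `π` -/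
theorem nz_frac {O L : Type} [CommRing O] [IsDomain O] [Field L] [Algebra O L] [IsFractionRing O L] {π : O}
    (hpow : ∀ x : O, x ≠ 0 → ∃ (k : ℕ) (u : O), IsUnit u ∧ x = u * π ^ k) (x : L) :
    ∃ (p : O) (i : ℕ), algebraMap O L π ^ i * x = algebraMap O L p := by
  obtain ⟨a, b, hb, rfl⟩ := IsFractionRing.div_surjective (A := O) x
  have hb0 : b ≠ 0 := nonZeroDivisors.ne_zero hb
  have inj : Function.Injective (algebraMap O L) := IsFractionRing.injective O L
  have hφb : algebraMap O L b ≠ 0 := (map_ne_zero_iff _ inj).2 hb0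
  obtain ⟨m, v, hv, hbm⟩ := hpow b hb0
  obtain ⟨v', hv'⟩ := hv.exists_right_inv
  refine ⟨v' * a, m, ?_⟩
  rw [mul_div_assoc', div_eq_iff hφb, ← map_pow, ← map_mul, ← map_mul]
  congr 1
  rw [hbm]
  linear_combination (-(π ^ m * a)) * hv'

/-- divisibility by `π` after multiplication by a high power of `π` -/
theorem nz_div {O L : Type} [CommRing O] [IsDomain O] [Field L] [Algebra O L] [IsFractionRing O L] {π : O}
    {x : L} {p : O} {i k : ℕ} (h : algebraMap O L π ^ i * x = algebraMap O L p) (hk : i + 1 ≤ k) :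
    ∃ q : O, algebraMap O L π ^ k * x = algebraMap O L (π * q) := by
  obtain ⟨j, rfl⟩ := Nat.exists_eq_add_of_le hk
  refine ⟨π ^ j * p, ?_⟩
  rw [map_mul, map_mul, ← h, map_pow]
  ring

theorem nz_two {F : Type} [Field F] {O : Type} [CommRing O] (h2 : (2 : F) ≠ 0) (ι : F[X] →+* O) :
    IsUnit (2 : O) := by
  have h1 : IsUnit (Polynomial.C (2 : F)) := Polynomial.isUnit_C.2 (isUnit_iff_ne_zero.2 h2)
  have h3 := h1.map ι
  have h4 : ι (Polynomial.C (2 : F)) = 2 := by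
    rw [map_ofNat, map_ofNat]
  rwa [h4] at h3

/-- a quartic with `A = 0`, `B ≠ 0` has a point with `z ≠ 0` -/
theorem nz_point {F : Type} [Field F] (h2 : (2 : F) ≠ 0) {P : F[X]} {O L : Type} [CommRing O] [IsDomain O]
    [Field L] [Algebra O L] [IsFractionRing O L] {π : O} {ι : F[X] →+* O} (hL : Lc P π ι) (g : Q4 L)
    (hA : g.A = 0) (hB : g.B ≠ 0) :
    ∃ u v z : L, z ≠ 0 ∧ z ^ 2 = g.ev u v := by
  have inj : Function.Injective (algebraMap O L) := IsFractionRing.injective O L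
  obtain ⟨p₁, i₁, h₁⟩ := nz_frac (L := L) hL.pow g.C
  obtain ⟨p₂, i₂, h₂⟩ := nz_frac (L := L) hL.pow (g.D * g.B)
  obtain ⟨p₃, i₃, h₃⟩ := nz_frac (L := L) hL.pow (g.E * g.B ^ 2)
  obtain ⟨m, hm⟩ : ∃ m : ℕ, m = 1 + i₁ + i₂ + i₃ := ⟨_, rfl⟩
  obtain ⟨q₁, e₁⟩ := nz_div (k := 2 * m) h₁ (by omega)
  obtain ⟨q₂, e₂⟩ := nz_div (k := 4 * m) h₂ (by omega)
  obtain ⟨q₃, e₃⟩ := nz_div (k := 6 * m) h₃ (by omega)
  obtain ⟨w, hw, hw'⟩ := hL.hensel (-(π * (q₁ + q₂ + q₃))) 2 1 0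
    (Dvd.intro _ rfl |>.neg_right) (nz_two h2 ι)
  have hw2 : (1 + w) ^ 2 = 1 + (π * q₁ + π * q₂ + π * q₃) := by linear_combination hw'
  have hT : algebraMap O L π ^ m ≠ 0 := pow_ne_zero _ ((map_ne_zero_iff _ inj).2 hL.ne)
  have hw1 : 1 + w ≠ 0 := by
    intro h
    apply hL.nonunit
    obtain ⟨c, hc⟩ := hw
    refine IsUnit.of_mul_eq_one (-c) ?_
    linear_combination -h + hc
  refine ⟨1, g.B * (algebraMap O L π ^ m) ^ 2, g.B * algebraMap O L π ^ m * algebraMap O L (1 + w), ?_, ?_⟩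
  · exact mul_ne_zero (mul_ne_zero hB hT) ((map_ne_zero_iff _ inj).2 hw1)
  · have h5 : algebraMap O L (1 + w) ^ 2 = 1 + (algebraMap O L π ^ (2 * m) * g.C +
        algebraMap O L π ^ (4 * m) * (g.D * g.B) + algebraMap O L π ^ (6 * m) * (g.E * g.B ^ 2)) := by
      rw [← map_pow, hw2, e₁, e₂, e₃]
      simp only [map_add, map_one]
    have t1 : algebraMap O L π ^ (2 * m) = (algebraMap O L π ^ m) ^ 2 := by ring
    have t2 : algebraMap O L π ^ (4 * m) = (algebraMap O L π ^ m) ^ 4 := by ring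
    have t3 : algebraMap O L π ^ (6 * m) = (algebraMap O L π ^ m) ^ 6 := by ring
    rw [t1, t2, t3] at h5
    simp only [Q4.ev, hA]
    linear_combination (g.B ^ 2 * (algebraMap O L π ^ m) ^ 2) * h5

theorem t_nz : S_nz := by
  intro F _ h2 P O L _ _ _ _ _ π ι hL g hg hsol
  obtain ⟨u, v, z, huv, hz⟩ := hsol
  by_cases hz0 : z ≠ 0
  · exact ⟨u, v, z, huv, hz0, hz⟩
  rw [not_not] at hz0
  rw [hz0, zero_pow two_ne_zero] at hz
  -- an invertible matrix with first column `(u, v)`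
  obtain ⟨M, hMα, hMγ, hdet⟩ : ∃ M : M2 L, M.α = u ∧ M.γ = v ∧ M.det ≠ 0 := by
    by_cases hu : u = 0
    · have hv : v ≠ 0 := fun h => huv ⟨hu, h⟩
      refine ⟨⟨u, 1, v, 0⟩, rfl, rfl, ?_⟩
      simp only [M2.det]
      rw [mul_zero, one_mul, zero_sub]
      exact neg_ne_zero.2 hv
    · refine ⟨⟨u, 0, v, 1⟩, rfl, rfl, ?_⟩
      simp only [M2.det]
      rw [mul_one, zero_mul, sub_zero]
      exact hu
  have hA : (g.sub M).A = 0 := by
    have h1 := g.ev_sub M 1 0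
    have h3 : (g.sub M).ev 1 0 = (g.sub M).A := by simp only [Q4.ev]; ring
    rw [← h3, h1, hMα, hMγ, mul_one, mul_zero, mul_one, mul_zero, add_zero, add_zero, ← hz]
  have hB : (g.sub M).B ≠ 0 := by
    intro hB
    have h4 : (g.sub M).res.disc ≠ 0 := by
      rw [Q4.res_sub, Cub.disc_tr, Cub.disc_sc]
      exact mul_ne_zero (pow_ne_zero _ (pow_ne_zero _ hdet)) hg
    apply h4
    simp only [Q4.res, Cub.disc, hA, hB]
    ring
  obtain ⟨a, b, c, hc, hcab⟩ := nz_point h2 hL (g.sub M) hA hB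
  rw [g.ev_sub] at hcab
  refine ⟨M.α * a + M.β * b, M.γ * a + M.δ * b, c, ?_, hc, hcab⟩
  rintro ⟨h5, h6⟩
  rw [h5, h6] at hcab
  have h7 : g.ev 0 0 = 0 := by simp only [Q4.ev]; ring
  rw [h7] at hcab
  exact hc (pow_eq_zero_iff two_ne_zero |>.1 hcab)

end Pool.Agent.H456.BQ
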