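import Pool.Agent.H456.BQ.Stm6

/-!
(M5) `S_one` from `S_locKU`, `S_locIU`, `S_uniqK`, `S_glob` (Stm4.lean), `S_spP`, `S_spI` (Stm3.lean). If there is no representative the sum is `0`. Let `s₀` be a pair over `K = F(t)` in the class `σ` (`sel_ind`), and
let `B` be the finite set of the pairs `b = (e, p)`, `e ≤ n`, `p ∈ PnS n e f σ` (`mem_PnS`, `ClS`). For `b ∈ B` choose `M_b` with `PE M_b s₀ (pr p)` (`selMk_eq`). (a) FIBERS. For `P ∈ S` let `b ~_P b'` iff
`LEq (LocP P) M_b M_b'` and `b ~_∞ b'` iff `LEq (Oi F) (M_b diag(1, t^-e)) (M_b' diag(1, t^-e'))` (equivalence relations: `LEq.refl/symm/trans`). Suppose `b ~_P b'` for all `P ∈ S` and `b ~_∞ b'`. By `S_uniqK`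
(`g = p.1.map toK`, `H = p.1`, `RedTo` is trivial) also `LEq (LocP P) M_b M_b'` for `P ∉ S`. So `S_glob` gives `e = e'` and `M_b' = (M_b T).scal k`, where `(T, d)`, `d = det T`, is in `Tn F e` (Vn.lean; first kind `d = a`, second
kind `b = a c - d`). Then `PE T (pr p) (pr p')` (`PE.symm`, `PE.trans`, `PE.scal`; or compute directly) and `p' = act p T d` (`pe_act`, injectivity of `toK`: `Q4.map_inj`, `Q4.smul_cancel`). Hence the fiber of `b`
injects into `Tn F e` (choose for each `p'` such a `(T, d)`; `p' = act p T d` determines `p'`), so it has at most `pa F e` elements (`card_Tn`) and `∑_{b' in the fiber} 1 / pa F e ≤ 1`.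
(b) WEIGHTS. For `b = (e, p)`: `Ph S hM W Wi (redV S M n e p.1) = ∏_{P ∈ S} sp_P(b) c_P · sp_∞(b) c_∞`, `sp_P(b)` = number of smooth points of the reduction of `p.1` modulo `P`, `sp_∞(b)` the same for `revV n e p.1` modulo `X`,
`c_P = (1 + nA/..)⁻¹`, `c_∞` the same at infinity: unfold `Ph, phP, phX` (Gl1.lean), `redV_at`, `redV_inf`, `map_redP`, `Q4.map_res`, `ClS_res`, `revV_res` (as in `Ph_ge` in Gl2.lean). `sp_P` is constant on the classes of `~_P` by `S_spP`
(`q = s₀.1`, `N = M_b`, `N' = M_b'`, `g = p'.1.map toK`, `H = p'.1`), `sp_∞` is constant on the classes of `~_∞` by `S_spI` (`Ni = M_b' diag(1, t^-e')`, `g = (revV n e' p'.1).map sig`, `revV_map` in Stm3.lean: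
`s₀.1.sub Ni = g.smul (tt (2n) · det Ni ²)`). (c) For each `P ∈ S` choose representatives `R_P ⊆ B` of the classes of `~_P` (finite set, pairwise not `LEq`), and `R_∞`. `S_locKU` for the family `(M_b)_{b ∈ R_P}` (indexed by `Fin m`, `Finset.equivFin`)
gives `∑_{b ∈ R_P} sp_P(b) c_P ≤ 1` and `S_locIU` (with `f' = crev n f`, `crev_map`) gives `∑_{b ∈ R_∞} sp_∞(b) c_∞ ≤ 1` (the hypothesis `LS P s₀.1`, `LSI s₀.1` is in `IsSel`). (d) CONCLUSION. Group the sum over `B` by the map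
`b ↦ ((rep_P b)_P, rep_∞ b)`: `∑_b Ph/pa = ∑_τ val(τ) ∑_{b in fiber} 1/pa ≤ ∑_{τ ∈ image} val(τ) ≤ ∑_{τ ∈ ∏ R_P × R_∞} val(τ) = ∏_P (∑_{R_P} sp_P c_P) · ∑_{R_∞} sp_∞ c_∞ ≤ 1` (all terms `≥ 0`; `Finset.prod_univ_sum`,
`Fintype.piFinset`, see the end of Gl3.lean for the same manipulation in the opposite direction). Gl2.lean, Gl3.lean (`same_lattices`, `glue_sum`) contain the analogous proof of the opposite inequality for points.
-/

set_option autoImplicit false
set_option linter.all false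

open Polynomial Finset
open Pool.Agent.H456.EC (toK toK_inj sig toK_eq reflect_toK)

namespace Pool.Agent.H456.BQ

/-- grouping a sum over the classes of finitely many equivalence relations -/
theorem one_comb {ι β : Type} [Fintype ι] [Fintype β] (R : ι → Setoid β) (v : ι → β → ℝ) (w : β → ℝ)
    (hv0 : ∀ i b, 0 ≤ v i b) (hvR : ∀ i b b', (R i).r b b' → v i b = v i b')
    (hsum : ∀ (i : ι) (n : ℕ) (b : Fin n → β), (∀ k l, k ≠ l → ¬ (R i).r (b k) (b l)) →
      ∑ k, v i (b k) ≤ 1)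
    (hfib : ∀ (b : β) (s : Finset β), (∀ b' ∈ s, ∀ i, (R i).r b b') → ∑ b' ∈ s, w b' ≤ 1) :
    ∑ b, (∏ i, v i b) * w b ≤ 1 := by
  classical
  let Q : ι → Type := fun i => Quotient (R i)
  let _ : ∀ i, Fintype (Q i) := fun i => Fintype.ofFinite _
  let vb : ∀ i, Q i → ℝ := fun i q => v i (Quotient.out q)
  have hvb : ∀ i b, vb i (Quotient.mk (R i) b) = v i b := fun i b =>
    hvR i _ _ (Quotient.mk_out b)
  have hvb0 : ∀ i q, 0 ≤ vb i q := fun i q => hv0 i _
  have h1 : ∀ i, ∑ q, vb i q ≤ 1 := by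
    intro i
    let e := Fintype.equivFin (Q i)
    rw [← Equiv.sum_comp e.symm]
    refine hsum i (Fintype.card (Q i)) (fun k => Quotient.out (e.symm k)) ?_
    intro k l hkl hr
    apply hkl
    apply e.symm.injective
    rw [← Quotient.out_eq (e.symm k), ← Quotient.out_eq (e.symm l)]
    exact Quotient.sound hr
  let φ : β → (∀ i, Q i) := fun b i => Quotient.mk (R i) b
  have h2 : ∑ b, (∏ i, v i b) * w b = ∑ τ : (∀ i, Q i), (∏ i, vb i (τ i)) *
      ∑ b ∈ univ.filter (fun b => φ b = τ), w b := by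
    rw [← sum_fiberwise (s := (univ : Finset β)) φ]
    apply sum_congr rfl
    intro τ _
    rw [mul_sum]
    apply sum_congr rfl
    intro b hb
    rw [mem_filter] at hb
    congr 1
    apply prod_congr rfl
    intro i _
    rw [← hb.2]
    exact (hvb i b).symm
  rw [h2]
  have h3 : ∀ τ : (∀ i, Q i), ∑ b ∈ univ.filter (fun b => φ b = τ), w b ≤ 1 := by
    intro τ
    rcases (univ.filter (fun b => φ b = τ)).eq_empty_or_nonempty with h | ⟨b, hb⟩
    · rw [h, sum_empty]; exact zero_le_one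
    · apply hfib b
      intro b' hb' i
      rw [mem_filter] at hb hb'
      have h4 : φ b = φ b' := hb.2.trans hb'.2.symm
      exact Quotient.exact (congrFun h4 i)
  calc ∑ τ : (∀ i, Q i), (∏ i, vb i (τ i)) * ∑ b ∈ univ.filter (fun b => φ b = τ), w b
      ≤ ∑ τ : (∀ i, Q i), ∏ i, vb i (τ i) := by
        apply sum_le_sum
        intro τ _
        exact mul_le_of_le_one_right (prod_nonneg fun i _ => hvb0 i _) (h3 τ)
    _ = ∏ i, ∑ q, vb i q := by
        rw [prod_univ_sum, Fintype.piFinset_univ]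
    _ ≤ 1 := prod_le_one (fun i _ => sum_nonneg fun q _ => hvb0 i q) (fun i _ => h1 i)

section one_aux

variable {F : Type} [Field F]

theorem one_RedTo (P : Pl F) (H : Q4 F[X]) : RedTo P (H.map (toK F)) H := by
  have h : ∀ x : F[X], LocI P (toK F x - toK F x) := fun x =>
    ⟨0, 1, fun h => P.2.2.not_isUnit (isUnit_of_dvd_one h), by rw [sub_self, mul_zero, mul_zero, map_zero]⟩
  exact ⟨h _, h _, h _, h _, h _⟩

theorem one_RedI (H : Q4 F[X]) : RedI (H.map (sig F)) H := by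
  have h : ∀ x : F[X], (sig F x - sig F x) * tt F 1 ∈ Oi F := fun x => by
    rw [sub_self, zero_mul]; exact zero_mem _
  exact ⟨h _, h _, h _, h _, h _⟩

theorem one_det_D (e : ℕ) : M2.det (⟨1, 0, 0, tt F (-(e : ℤ))⟩ : M2 (RatFunc F)) = tt F (-(e : ℤ)) := by
  simp only [M2.det]; ring

/-- the quartic at infinity -/
theorem one_subI {n e : ℕ} (he : e ≤ n) {q : Q4 (RatFunc F)} {M : M2 (RatFunc F)} {G : Q4 F[X]}
    (hG : BdN n e G) (h : q.sub M = (G.map (toK F)).smul (M.det ^ 2)) :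
    q.sub (M.mul ⟨1, 0, 0, tt F (-(e : ℤ))⟩) = ((revV n e G).map (sig F)).smul
      (tt F (2 * n) * (M.mul ⟨1, 0, 0, tt F (-(e : ℤ))⟩).det ^ 2) := by
  rw [← Q4.sub_mul, h, Q4.smul_sub, revV_map he hG, Q4.smul_smul, M2.det_mul, one_det_D]
  congr 1
  have e1 : tt F (2 * e - 2 * n) * (tt F (2 * n) * tt F (-(e : ℤ)) ^ 2) = 1 := by
    rw [tt_pow, ← tt_add, ← tt_add, ← tt_zero (F := F)]
    congr 1
    push_cast
    ring
  linear_combination (-M.det ^ 2) * e1

theorem PE.one_eq {K : Type*} [Field K] {M : M2 K} {s s' s'' : Q4 K × K} (h : PE M s s') (h' : PE M s s'') :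
    s' = s'' := by
  apply Prod.ext
  · apply Q4.smul_cancel (pow_ne_zero 2 h.det)
    rw [← h.sub, ← h'.sub]
  · have h1 := h.tau
    rw [h'.tau] at h1
    have h3 := mul_right_cancel₀ (pow_ne_zero 2 h.det) h1
    linear_combination -h3

/-- two pairs related to `s` by `M` and `(M T).scal k` -/
theorem one_rel {K : Type*} [Field K] {s a b : Q4 K × K} {M M' T : M2 K} {k : K} (hk : k ≠ 0)
    (h : PE M s a) (h' : PE M' s b) (hM : M' = (M.mul T).scal k) : PE T a b := by
  have h1 := h.symm.trans h'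
  have hd := h.det
  have e1 : M.adj.mul M' = T.scal (k * M.det) := by
    rw [hM, M2.mul_scal, ← M2.mul_assoc, M2.adj_mul]
    ext <;> simp only [M2.mul, M2.scal] <;> ring
  rw [e1] at h1
  have h3 := h1.scal (k := (k * M.det)⁻¹) (inv_ne_zero (mul_ne_zero hk hd))
  have e2 : (T.scal (k * M.det)).scal (k * M.det)⁻¹ = T := by
    rw [M2.scal_scal, mul_inv_cancel₀ (mul_ne_zero hk hd)]
    ext <;> simp only [M2.scal] <;> ring
  rwa [e2] at h3

theorem one_pr_inj {p p' : Q4 F[X] × F[X]} (h : pr p = pr p') : p = p' := by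
  unfold pr at h
  exact Prod.ext (Q4.map_inj (toK F) toK_inj (Prod.mk.inj h).1) (toK_inj (Prod.mk.inj h).2)

end one_aux

section one_fin

variable {F : Type} [Field F] [Fintype F]

/-- two representatives with the same local lattices are related by a substitution in `Tn F e` -/
theorem one_fiber (hG : S_glob) {s : Q4 (RatFunc F) × RatFunc F} {p p' : Q4 F[X] × F[X]}
    {M M' : M2 (RatFunc F)} (h : PE M s (pr p)) (h' : PE M' s (pr p')) {e e' : ℕ}
    (hP : ∀ P : Pl F, LEq (LocP P) M M')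
    (hI : LEq (Oi F) (M.mul ⟨1, 0, 0, tt F (-(e : ℤ))⟩) (M'.mul ⟨1, 0, 0, tt F (-(e' : ℤ))⟩)) :
    e = e' ∧ ∃ t ∈ Tn F e, p' = act p t.1 t.2 := by
  classical
  obtain ⟨he, k, T, hk, hM, hT⟩ := hG F M M' e e' h.det h'.det hP hI
  refine ⟨he, ?_⟩
  have h1 : PE (T.map (toK F)) (pr p) (pr p') := one_rel hk h h' hM
  obtain ⟨t, ht, htT⟩ : ∃ t ∈ Tn F e, t.1 = T := by
    unfold Tn
    rcases hT with ⟨a, β, ha, hβ, rfl⟩ | ⟨he0, a, b, c, hd, rfl⟩
    · refine ⟨(⟨C a, β, 0, 1⟩, a), ?_, rfl⟩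
      rw [mem_union]
      left
      rw [mem_image]
      refine ⟨(a, β), ?_, rfl⟩
      rw [mem_product, mem_filter, mem_PL_iff]
      exact ⟨⟨mem_univ _, ha⟩, hβ⟩
    · refine ⟨(⟨C a, C b, 1, C c⟩, a * c - b), ?_, rfl⟩
      rw [mem_union]
      right
      rw [if_pos he0, mem_image]
      refine ⟨(a * c - b, (a, c)), ?_, ?_⟩
      · rw [mem_product, mem_filter]
        exact ⟨⟨mem_univ _, hd⟩, mem_univ _⟩
      · simp only [Prod.mk.injEq, M2.mk.injEq, and_true, true_and]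
        congr 1
        ring
  refine ⟨t, ht, ?_⟩
  have h3 := pe_act p (Tn_det ht).1 (Tn_det ht).2
  rw [htT] at h3
  rw [htT]
  exact one_pr_inj (h1.one_eq h3)

end one_fin

theorem t_one : S_locKU → S_locIU → S_uniqK → S_glob → S_spP → S_spI → S_one := by
  intro hKU hIU hU hG hP hPI F _ _ h2 n M k hM hk S f hf hd hdS hdX hsq W Wi hW0 hWi0 hW hWi σ
  classical
  obtain ⟨s₀, hs, rfl⟩ := sel_ind σ
  -- the finite set of the representatives
  let B : Finset (Σ e : ℕ, Q4 F[X] × F[X]) := (range (n + 1)).sigma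
    (fun e => PnS n e f (selMk (f.map (toK F)) s₀ hs))
  let β : Type := {b // b ∈ B}
  have hB : ∀ b : β, b.1.1 ≤ n ∧ BdN n b.1.1 b.1.2.1 ∧ b.1.2.2.natDegree ≤ 2 * n ∧
      b.1.2 ∈ ClS f (selMk (f.map (toK F)) s₀ hs) := by
    intro b
    have h1 := mem_sigma.1 b.2
    have h3 := mem_PnS.1 h1.2
    exact ⟨Nat.lt_succ_iff.1 (mem_range.1 h1.1), h3.1.1, h3.1.2, h3.2⟩
  have hMb : ∀ b : β, ∃ N : M2 (RatFunc F), PE N s₀ (pr b.1.2) := by
    intro b
    obtain ⟨h1, h3⟩ := (hB b).2.2.2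
    exact selMk_eq.1 h3.symm
  choose N hN using hMb
  have hres : ∀ b : β, b.1.2.1.res = (f.sc 4).tr b.1.2.2 := fun b => ClS_res (hB b).2.2.2
  let D : β → M2 (RatFunc F) := fun b => (N b).mul ⟨1, 0, 0, tt F (-(b.1.1 : ℤ))⟩
  have hD : ∀ b, (D b).det ≠ 0 := by
    intro b
    change ((N b).mul ⟨1, 0, 0, tt F (-(b.1.1 : ℤ))⟩).det ≠ 0
    rw [M2.det_mul, one_det_D]
    exact mul_ne_zero (hN b).det (tt_ne _)
  -- the constants
  set cP : Pl F → ℝ := fun P => (1 + ((f.map (Ideal.Quotient.mk (Ideal.span {P.1 ^ M}))).nA : ℝ) /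
        ((Fintype.card F : ℝ) ^ P.1.natDegree) ^ (M - 1))⁻¹ with hcP
  set cX : ℝ := (1 + (((crev n f).map (Ideal.Quotient.mk (Ideal.span {(X : F[X]) ^ M}))).nA : ℝ) /
        (Fintype.card F : ℝ) ^ (M - 1))⁻¹ with hcX
  have hcP0 : ∀ P, 0 ≤ cP P := fun P => by rw [hcP]; positivity
  have hcX0 : 0 ≤ cX := by rw [hcX]; positivity
  let R : Option S → Setoid β := fun i =>
    { r := fun b b' => match i with
        | none => LEq (Oi F) (D b) (D b')
        | some P => LEq (LocP P.1) (N b) (N b')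
      iseqv := by
        rcases i with _ | P
        · exact ⟨fun b => LEq.refl _, fun h => h.symm, fun h h' => h.trans h'⟩
        · exact ⟨fun b => LEq.refl _, fun h => h.symm, fun h h' => h.trans h'⟩ }
  let v : Option S → β → ℝ := fun i b => match i with
    | none => (((revV n b.1.1 b.1.2.1).map (Ideal.Quotient.mk (Ideal.span {(X : F[X]) ^ 1}))).sp : ℝ) * cX
    | some P => ((b.1.2.1.map (Ideal.Quotient.mk (Ideal.span {P.1.1 ^ 1}))).sp : ℝ) * cP P.1
  have key := one_comb R v (fun b => 1 / pa F b.1.1) ?_ ?_ ?_ ?_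
  · -- the sum
    have e1 : ∑ e ∈ range (n + 1), ∑ p ∈ PnS n e f (selMk (f.map (toK F)) s₀ hs),
        Ph S hM W Wi (redV S M n e p.1) / pa F e =
        ∑ b ∈ B, Ph S hM W Wi (redV S M n b.1 b.2.1) / pa F b.1 := by
      rw [sum_sigma]
    rw [e1, ← sum_coe_sort B]
    refine le_trans (le_of_eq ?_) key
    apply sum_congr rfl
    intro b _
    rw [Fintype.prod_option, mul_one_div]
    congr 1
    unfold Ph
    rw [mul_comm]
    congr 1
    · unfold phX
      rw [redV_inf, map_redP, Q4.map_res, revV_res (hB b).1 hd (hB b).2.1 (hB b).2.2.1 (hres b), hWi]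
    · apply prod_congr rfl
      intro P _
      unfold phP
      rw [redV_at, map_redP, Q4.map_res, hres b, hW P.1 P.2]
  · -- nonnegative
    intro i b
    rcases i with _ | P
    · exact mul_nonneg (Nat.cast_nonneg _) hcX0
    · exact mul_nonneg (Nat.cast_nonneg _) (hcP0 _)
  · -- constant on the classes
    intro i b b' h
    rcases i with _ | P
    · have h' : LEq (Oi F) (D b) (D b') := h
      have h1 := hPI F h2 n b.1.1 (hB b).1 s₀.1 (N b) (D b') b.1.2.1 (revV n b'.1.1 b'.1.2.1)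
        ((revV n b'.1.1 b'.1.2.1).map (sig F)) (hN b).det (hD b') (hB b).2.1 (hN b).sub
        (one_subI (hB b').1 (hB b').2.1 (hN b').sub) (one_RedI _) h'
      change (((revV n b.1.1 b.1.2.1).map (Ideal.Quotient.mk (Ideal.span {(X : F[X]) ^ 1}))).sp : ℝ) * cX =
        (((revV n b'.1.1 b'.1.2.1).map (Ideal.Quotient.mk (Ideal.span {(X : F[X]) ^ 1}))).sp : ℝ) * cX
      rw [h1]
    · have h' : LEq (LocP P.1) (N b) (N b') := h
      have h1 := hP F h2 P.1 s₀.1 (N b) (N b') b.1.2.1 b'.1.2.1 (b'.1.2.1.map (toK F)) (hN b).det (hN b').det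
        (hN b).sub (hN b').sub (one_RedTo _ _) h'
      change ((b.1.2.1.map (Ideal.Quotient.mk (Ideal.span {P.1.1 ^ 1}))).sp : ℝ) * cP P.1 =
        ((b'.1.2.1.map (Ideal.Quotient.mk (Ideal.span {P.1.1 ^ 1}))).sp : ℝ) * cP P.1
      rw [h1]
  · -- the sums over the classes
    intro i m b hb
    rcases i with _ | P
    · have h1 := hIU F h2 n M k hk f (crev n f) (crev_map hd) hdX s₀ hs.res hs.inf m (fun j => D (b j))
        (fun j => (revV n (b j).1.1 (b j).1.2.1).map (sig F)) (fun j => revV n (b j).1.1 (b j).1.2.1)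
        (fun j => hD _) (fun j => one_subI (hB _).1 (hB _).2.1 (hN _).sub) (fun j => one_RedI _)
        (fun j l hjl => hb j l hjl)
      change ∑ j, (((revV n (b j).1.1 (b j).1.2.1).map (Ideal.Quotient.mk (Ideal.span {(X : F[X]) ^ 1}))).sp : ℝ) * cX ≤ 1
      rw [← sum_mul, hcX, ← div_eq_mul_inv, div_le_one (by positivity)]
      exact h1
    · have h1 := hKU F h2 P.1 M k hk f (hdS P.1 P.2) s₀ hs.res (hs.fin P.1) m (fun j => N (b j))
        (fun j => (b j).1.2.1.map (toK F)) (fun j => (b j).1.2.1)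
        (fun j => (hN _).det) (fun j => (hN _).sub) (fun j => one_RedTo _ _)
        (fun j l hjl => hb j l hjl)
      change ∑ j, (((b j).1.2.1.map (Ideal.Quotient.mk (Ideal.span {P.1.1 ^ 1}))).sp : ℝ) * cP P.1 ≤ 1
      rw [← sum_mul, hcP, ← div_eq_mul_inv, div_le_one (by positivity)]
      exact h1
  · -- the fibers
    intro b s hsb
    have h1 : ∀ b' ∈ s, b.1.1 = b'.1.1 ∧ ∃ t ∈ Tn F b.1.1, b'.1.2 = act b.1.2 t.1 t.2 := by
      intro b' hb'
      refine one_fiber hG (hN b) (hN b') (fun P => ?_) (hsb b' hb' none)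
      by_cases hPS : P ∈ S
      · exact hsb b' hb' (some ⟨P, hPS⟩)
      · exact hU F h2 P f (hsq P hPS) s₀ hs.res (N b) (N b') _ _ b.1.2.1 b'.1.2.1 (hN b).det (hN b').det
          (hN b).sub (hN b').sub (one_RedTo _ _) (one_RedTo _ _)
    have h3 : ∑ b' ∈ s, 1 / pa F b'.1.1 = (s.card : ℝ) / pa F b.1.1 := by
      rw [sum_congr rfl (fun b' hb' => by rw [← (h1 b' hb').1]), sum_const, nsmul_eq_mul, mul_one_div]
    have h4 : s.card ≤ (Tn F b.1.1).card := by
      have e1 : s.card = (s.image Subtype.val).card := (card_image_of_injective _ Subtype.val_injective).symm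
      rw [e1]
      have h5 : s.image Subtype.val ⊆ (Tn F b.1.1).image (fun t => (⟨b.1.1, act b.1.2 t.1 t.2⟩ :
          Σ e : ℕ, Q4 F[X] × F[X])) := by
        intro x hx
        rw [mem_image] at hx
        obtain ⟨b', hb', rfl⟩ := hx
        obtain ⟨e2, t, ht, e3⟩ := h1 b' hb'
        rw [mem_image]
        refine ⟨t, ht, ?_⟩
        rw [← e3, e2]
      exact (card_le_card h5).trans card_image_le
    rw [h3, div_le_one (pa_pos _), ← card_Tn]
    exact_mod_cast h4

end Pool.Agent.H456.BQ
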