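import Pool.Agent.H456.BQ.Stm4

/-!
(K19) `S_rt`. Let `Q = #κ ≥ 3` (odd). There are `I = (Q² - Q)/2` monic irreducible quadratic polynomials `x² + bx + c` (those with `b² - 4c` a nonsquare: for each `b` there are `(Q-1)/2`
values of `c`). The quartics `k h₁(u, v) h₂(u, v)`, `k ≠ 0`, `h₁, h₂` homogenized monic irreducible quadratics, have no roots; the map
`(k, {h₁, h₂}) ↦` quartic is injective (unique factorization; or: at most two ordered pairs `(h₁, h₂)` give the same quartic: if `h₁ h₂ = h₁' h₂'` then `h₁' = h₁` or `h₁' = h₂`). So the number of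
quartics without roots is at least `(Q-1) I² / 2`, and `(Q-1) (Q²-Q)² / 8 ≥ Q⁵/27`: for `Q = 3`: `2·36/8 = 9 = 243/27`, equality; for `Q ≥ 3`:
`(Q-1)³ / (8 Q³) ≥ 1/27` since `(Q-1)/Q ≥ 2/3`. The total number of quartics is `Q⁵` (`card_Q4` in Base.lean).
-/

set_option autoImplicit false
set_option linter.all false

open Polynomial Finset
open Pool.Agent.H456.EC (toK toK_inj sig toK_eq reflect_toK)

namespace Pool.Agent.H456.BQ

section rt

variable {κ : Type} [Field κ] [Fintype κ] [DecidableEq κ]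

/-- the number of affine roots -/
def rt_N (A B C D E : κ) : ℕ :=
  ((univ : Finset κ).filter fun x => A * x ^ 4 + B * x ^ 3 + C * x ^ 2 + D * x + E = 0).card

theorem rt_N_eq (A B C D E : κ) : (rt_N A B C D E : ℤ) =
    ∑ x : κ, if A * x ^ 4 + B * x ^ 3 + C * x ^ 2 + D * x + E = 0 then (1 : ℤ) else 0 := by
  unfold rt_N
  rw [Finset.card_filter]
  push_cast
  rfl

theorem rt_le {A B C D E : κ} (hA : A ≠ 0) : rt_N A B C D E ≤ 4 := by
  set p : κ[X] := Polynomial.C A * X ^ 4 + Polynomial.C B * X ^ 3 + Polynomial.C C * X ^ 2 +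
    Polynomial.C D * X + Polynomial.C E with hp
  have hdeg : p.natDegree ≤ 4 := by
    rw [hp]
    compute_degree
  have hne : p ≠ 0 := by
    intro h0
    have h1 := congrArg (fun q : κ[X] => q.coeff 4) h0
    simp [hp, coeff_X, coeff_C] at h1
    exact hA h1
  have hsub : ((univ : Finset κ).filter fun x =>
      A * x ^ 4 + B * x ^ 3 + C * x ^ 2 + D * x + E = 0) ⊆ p.roots.toFinset := by
    intro x hx
    rw [Finset.mem_filter] at hx
    rw [Multiset.mem_toFinset, mem_roots hne, IsRoot.def, hp]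
    simp only [eval_add, eval_mul, eval_C, eval_pow, eval_X]
    exact hx.2
  exact (Finset.card_le_card hsub).trans
    ((Multiset.toFinset_card_le _).trans ((card_roots' p).trans hdeg))

theorem rt_one (A B C D x : κ) :
    (∑ E : κ, if A * x ^ 4 + B * x ^ 3 + C * x ^ 2 + D * x + E = 0 then (1 : ℤ) else 0) = 1 := by
  have h : ∀ E : κ, (A * x ^ 4 + B * x ^ 3 + C * x ^ 2 + D * x + E = 0) ↔
      E = -(A * x ^ 4 + B * x ^ 3 + C * x ^ 2 + D * x) := by
    intro E
    constructor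
    · intro h
      linear_combination h
    · rintro rfl
      ring
  simp only [h]
  rw [Finset.sum_ite_eq']
  simp

theorem rt_sum1 (A B C : κ) :
    ∑ D : κ, ∑ E : κ, (rt_N A B C D E : ℤ) = (Fintype.card κ : ℤ) ^ 2 := by
  simp only [rt_N_eq]
  have h1 : ∀ D : κ, (∑ E : κ, ∑ x : κ,
      if A * x ^ 4 + B * x ^ 3 + C * x ^ 2 + D * x + E = 0 then (1 : ℤ) else 0) =
      (Fintype.card κ : ℤ) := by
    intro D
    rw [Finset.sum_comm]
    simp only [rt_one]
    simp
  simp only [h1]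
  rw [Finset.sum_const, Finset.card_univ, nsmul_eq_mul]
  ring

theorem rt_two (A B C x y : κ) (hxy : x ≠ y) :
    (∑ D : κ, ∑ E : κ, (if A * x ^ 4 + B * x ^ 3 + C * x ^ 2 + D * x + E = 0 then (1 : ℤ) else 0) *
      (if A * y ^ 4 + B * y ^ 3 + C * y ^ 2 + D * y + E = 0 then (1 : ℤ) else 0)) = 1 := by
  set D₀ : κ := -((A * x ^ 4 + B * x ^ 3 + C * x ^ 2) - (A * y ^ 4 + B * y ^ 3 + C * y ^ 2)) /
    (x - y) with hD₀
  have hxy' : x - y ≠ 0 := sub_ne_zero.2 hxy
  have hD : D₀ * (x - y) =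
      -((A * x ^ 4 + B * x ^ 3 + C * x ^ 2) - (A * y ^ 4 + B * y ^ 3 + C * y ^ 2)) := by
    rw [hD₀]
    field_simp
  have h : ∀ D E : κ, (if A * x ^ 4 + B * x ^ 3 + C * x ^ 2 + D * x + E = 0 then (1 : ℤ) else 0) *
      (if A * y ^ 4 + B * y ^ 3 + C * y ^ 2 + D * y + E = 0 then (1 : ℤ) else 0) =
      if D = D₀ then (if A * x ^ 4 + B * x ^ 3 + C * x ^ 2 + D * x + E = 0 then (1 : ℤ) else 0)
        else 0 := by
    intro D E
    by_cases h1 : A * x ^ 4 + B * x ^ 3 + C * x ^ 2 + D * x + E = 0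
    · by_cases h2 : D = D₀
      · rw [if_pos h1, if_pos h2, if_pos (by
          rw [h2] at h1 ⊢
          linear_combination h1 - hD)]
        rfl
      · rw [if_pos h1, if_neg h2, if_neg (by
          intro h3
          apply h2
          apply mul_right_cancel₀ hxy'
          rw [hD]
          linear_combination h1 - h3)]
        rfl
    · rw [if_neg h1, zero_mul]
      split_ifs <;> rfl
  simp only [h]
  have h2 : ∀ D : κ, (∑ E : κ, if D = D₀ then
      (if A * x ^ 4 + B * x ^ 3 + C * x ^ 2 + D * x + E = 0 then (1 : ℤ) else 0) else 0) =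
      if D = D₀ then 1 else 0 := by
    intro D
    by_cases hd : D = D₀
    · simp only [if_pos hd, rt_one]
    · simp only [if_neg hd, Finset.sum_const_zero]
  simp only [h2]
  rw [Finset.sum_ite_eq']
  simp

theorem rt_sum2 (A B C : κ) : ∑ D : κ, ∑ E : κ, (rt_N A B C D E : ℤ) ^ 2 =
    (Fintype.card κ : ℤ) * (2 * (Fintype.card κ : ℤ) - 1) := by
  have h0 : ∀ D E : κ, (rt_N A B C D E : ℤ) ^ 2 = ∑ x : κ, ∑ y : κ,
      (if A * x ^ 4 + B * x ^ 3 + C * x ^ 2 + D * x + E = 0 then (1 : ℤ) else 0) *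
      (if A * y ^ 4 + B * y ^ 3 + C * y ^ 2 + D * y + E = 0 then (1 : ℤ) else 0) := by
    intro D E
    rw [sq, rt_N_eq, Finset.sum_mul_sum]
  simp only [h0]
  have h1 : (∑ D : κ, ∑ E : κ, ∑ x : κ, ∑ y : κ,
      (if A * x ^ 4 + B * x ^ 3 + C * x ^ 2 + D * x + E = 0 then (1 : ℤ) else 0) *
      (if A * y ^ 4 + B * y ^ 3 + C * y ^ 2 + D * y + E = 0 then (1 : ℤ) else 0)) =
      ∑ x : κ, ∑ y : κ, ∑ D : κ, ∑ E : κ,
      (if A * x ^ 4 + B * x ^ 3 + C * x ^ 2 + D * x + E = 0 then (1 : ℤ) else 0) *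
      (if A * y ^ 4 + B * y ^ 3 + C * y ^ 2 + D * y + E = 0 then (1 : ℤ) else 0) := by
    have e1 : ∀ D : κ, (∑ E : κ, ∑ x : κ, ∑ y : κ,
        (if A * x ^ 4 + B * x ^ 3 + C * x ^ 2 + D * x + E = 0 then (1 : ℤ) else 0) *
        (if A * y ^ 4 + B * y ^ 3 + C * y ^ 2 + D * y + E = 0 then (1 : ℤ) else 0)) =
        ∑ x : κ, ∑ y : κ, ∑ E : κ,
        (if A * x ^ 4 + B * x ^ 3 + C * x ^ 2 + D * x + E = 0 then (1 : ℤ) else 0) *
        (if A * y ^ 4 + B * y ^ 3 + C * y ^ 2 + D * y + E = 0 then (1 : ℤ) else 0) := by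
      intro D
      rw [Finset.sum_comm]
      exact Finset.sum_congr rfl fun x _ => Finset.sum_comm
    simp only [e1]
    rw [Finset.sum_comm]
    exact Finset.sum_congr rfl fun x _ => Finset.sum_comm
  rw [h1]
  have h2 : ∀ x y : κ, (∑ D : κ, ∑ E : κ,
      (if A * x ^ 4 + B * x ^ 3 + C * x ^ 2 + D * x + E = 0 then (1 : ℤ) else 0) *
      (if A * y ^ 4 + B * y ^ 3 + C * y ^ 2 + D * y + E = 0 then (1 : ℤ) else 0)) =
      1 + if x = y then ((Fintype.card κ : ℤ) - 1) else 0 := by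
    intro x y
    by_cases hxy : x = y
    · subst hxy
      have e : ∀ D E : κ,
          (if A * x ^ 4 + B * x ^ 3 + C * x ^ 2 + D * x + E = 0 then (1 : ℤ) else 0) *
          (if A * x ^ 4 + B * x ^ 3 + C * x ^ 2 + D * x + E = 0 then (1 : ℤ) else 0) =
          (if A * x ^ 4 + B * x ^ 3 + C * x ^ 2 + D * x + E = 0 then (1 : ℤ) else 0) := by
        intro D E
        split_ifs <;> rfl
      simp only [e, rt_one, if_true]
      rw [Finset.sum_const, Finset.card_univ, nsmul_eq_mul]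
      ring
    · rw [rt_two A B C x y hxy, if_neg hxy, add_zero]
  simp only [h2]
  have h3 : ∀ x : κ, (∑ y : κ, ((1 : ℤ) + if x = y then ((Fintype.card κ : ℤ) - 1) else 0)) =
      2 * (Fintype.card κ : ℤ) - 1 := by
    intro x
    rw [Finset.sum_add_distrib, Finset.sum_ite_eq]
    simp
    ring
  simp only [h3]
  rw [Finset.sum_const, Finset.card_univ, nsmul_eq_mul]

theorem rt_pt {n : ℕ} (h : n ≤ 4) : (4 : ℤ) - 5 * n + (n : ℤ) ^ 2 ≤ 4 * if n = 0 then 1 else 0 := by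
  interval_cases n <;> norm_num

theorem rt_fix {A : κ} (hA : A ≠ 0) (B C : κ) :
    (Fintype.card κ : ℤ) * ((Fintype.card κ : ℤ) - 1) ≤
      4 * ∑ D : κ, ∑ E : κ, if rt_N A B C D E = 0 then (1 : ℤ) else 0 := by
  have h1 : ∑ D : κ, ∑ E : κ, ((4 : ℤ) - 5 * (rt_N A B C D E : ℤ) + (rt_N A B C D E : ℤ) ^ 2) ≤
      ∑ D : κ, ∑ E : κ, 4 * if rt_N A B C D E = 0 then (1 : ℤ) else 0 :=
    Finset.sum_le_sum fun D _ => Finset.sum_le_sum fun E _ => rt_pt (rt_le hA)
  simp only [Finset.sum_add_distrib, Finset.sum_sub_distrib, ← Finset.mul_sum] at h1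
  rw [rt_sum1, rt_sum2] at h1
  simp only [Finset.sum_const, Finset.card_univ, nsmul_eq_mul] at h1
  linarith

theorem rt_NR {g : Q4 κ} (hA : g.A ≠ 0) (h0 : rt_N g.A g.B g.C g.D g.E = 0) : g.NR := by
  intro u v huv hev
  unfold rt_N at h0
  rw [Finset.card_eq_zero, Finset.filter_eq_empty_iff] at h0
  by_cases hv : v = 0
  · have hu : u ≠ 0 := fun hu => huv ⟨hu, hv⟩
    rw [hv] at hev
    simp only [Q4.ev] at hev
    have : g.A * u ^ 4 = 0 := by linear_combination hev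
    exact mul_ne_zero hA (pow_ne_zero 4 hu) this
  · apply h0 (Finset.mem_univ (u / v))
    simp only [Q4.ev] at hev
    field_simp
    linear_combination hev

theorem rt_count : (Fintype.card κ : ℤ) ^ 3 * ((Fintype.card κ : ℤ) - 1) ^ 2 ≤
    4 * ∑ g : Q4 κ, if g.A ≠ 0 ∧ rt_N g.A g.B g.C g.D g.E = 0 then (1 : ℤ) else 0 := by
  rw [sum_Q4]
  have h1 : ∀ A : κ, (if A = 0 then (0 : ℤ) else
      (Fintype.card κ : ℤ) ^ 2 * ((Fintype.card κ : ℤ) * ((Fintype.card κ : ℤ) - 1))) ≤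
      4 * ∑ B : κ, ∑ C : κ, ∑ D : κ, ∑ E : κ,
        if A ≠ 0 ∧ rt_N A B C D E = 0 then (1 : ℤ) else 0 := by
    intro A
    by_cases hA : A = 0
    · rw [if_pos hA]
      have : ∀ B C D E : κ, (if A ≠ 0 ∧ rt_N A B C D E = 0 then (1 : ℤ) else 0) = 0 := by
        intro B C D E
        rw [if_neg (fun h => h.1 hA)]
      simp only [this, Finset.sum_const_zero, mul_zero, le_refl]
    · rw [if_neg hA]
      have e : ∀ B C D E : κ, (if A ≠ 0 ∧ rt_N A B C D E = 0 then (1 : ℤ) else 0) =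
          if rt_N A B C D E = 0 then (1 : ℤ) else 0 := by
        intro B C D E
        simp only [hA, ne_eq, not_false_eq_true, true_and]
      simp only [e]
      rw [Finset.mul_sum]
      have h2 : ∀ B : κ, (Fintype.card κ : ℤ) * ((Fintype.card κ : ℤ) *
          ((Fintype.card κ : ℤ) - 1)) ≤
          4 * ∑ C : κ, ∑ D : κ, ∑ E : κ, if rt_N A B C D E = 0 then (1 : ℤ) else 0 := by
        intro B
        rw [Finset.mul_sum]
        have h3 := Finset.sum_le_sum fun (C : κ) (_ : C ∈ (univ : Finset κ)) => rt_fix hA B C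
        rw [Finset.sum_const, Finset.card_univ, nsmul_eq_mul] at h3
        exact h3
      have h3 := Finset.sum_le_sum fun (B : κ) (_ : B ∈ (univ : Finset κ)) => h2 B
      rw [Finset.sum_const, Finset.card_univ, nsmul_eq_mul] at h3
      refine le_trans (le_of_eq ?_) h3
      ring
  have h2 := Finset.sum_le_sum fun (A : κ) (_ : A ∈ (univ : Finset κ)) => h1 A
  rw [← Finset.mul_sum] at h2
  refine le_trans (le_of_eq ?_) h2
  have h3 : ∀ A : κ, (if A = 0 then (0 : ℤ) else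
      (Fintype.card κ : ℤ) ^ 2 * ((Fintype.card κ : ℤ) * ((Fintype.card κ : ℤ) - 1))) =
      (Fintype.card κ : ℤ) ^ 2 * ((Fintype.card κ : ℤ) * ((Fintype.card κ : ℤ) - 1)) -
      if A = 0 then
      (Fintype.card κ : ℤ) ^ 2 * ((Fintype.card κ : ℤ) * ((Fintype.card κ : ℤ) - 1)) else 0 := by
    intro A
    split_ifs <;> ring
  simp only [h3]
  rw [Finset.sum_sub_distrib, Finset.sum_ite_eq', if_pos (Finset.mem_univ _), Finset.sum_const,
    Finset.card_univ, nsmul_eq_mul]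
  ring

end rt

theorem t_rt : S_rt := by
  intro κ _ _ h2
  classical
  have h1 := rt_count (κ := κ)
  have hQ : (2 : ℝ) ≤ Fintype.card κ := by
    have : 1 < Fintype.card κ := Fintype.one_lt_card
    exact_mod_cast this
  have h3 : (∑ g : Q4 κ, if g.A ≠ 0 ∧ rt_N g.A g.B g.C g.D g.E = 0 then (1 : ℤ) else 0) ≤
      (((univ : Finset (Q4 κ)).filter fun g => g.NR).card : ℤ) := by
    rw [Finset.card_filter]
    push_cast
    refine Finset.sum_le_sum fun g _ => ?_
    by_cases hg : g.A ≠ 0 ∧ rt_N g.A g.B g.C g.D g.E = 0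
    · rw [if_pos hg, if_pos (rt_NR hg.1 hg.2)]
    · rw [if_neg hg]
      split_ifs <;> norm_num
  have h4 : {g : Q4 κ | ¬ g.NR}.ncard = ((univ : Finset (Q4 κ)).filter fun g => ¬ g.NR).card := by
    rw [← Set.ncard_coe_finset]
    congr 1
    ext g
    simp
  have h5 := Finset.card_filter_add_card_filter_not (s := (univ : Finset (Q4 κ)))
    (fun g => g.NR)
  rw [Finset.card_univ, card_Q4] at h5
  rw [h4]
  have h6 : (((univ : Finset (Q4 κ)).filter fun g => g.NR).card : ℝ) +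
      (((univ : Finset (Q4 κ)).filter fun g => ¬ g.NR).card : ℝ) = (Fintype.card κ : ℝ) ^ 5 := by
    exact_mod_cast h5
  have h7 : (Fintype.card κ : ℝ) ^ 3 * ((Fintype.card κ : ℝ) - 1) ^ 2 ≤
      4 * (((univ : Finset (Q4 κ)).filter fun g => g.NR).card : ℝ) := by
    have := h1.trans (mul_le_mul_of_nonneg_left h3 (by norm_num : (0 : ℤ) ≤ 4))
    exact_mod_cast this
  have h8 : 4 / 27 * (Fintype.card κ : ℝ) ^ 5 ≤
      (Fintype.card κ : ℝ) ^ 3 * ((Fintype.card κ : ℝ) - 1) ^ 2 := by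
    have e : (Fintype.card κ : ℝ) ^ 3 * ((Fintype.card κ : ℝ) - 1) ^ 2 -
        4 / 27 * (Fintype.card κ : ℝ) ^ 5 = (Fintype.card κ : ℝ) ^ 3 / 27 *
        (23 * (Fintype.card κ : ℝ) ^ 2 - 54 * (Fintype.card κ : ℝ) + 27) := by ring
    have h9 : 0 ≤ 23 * (Fintype.card κ : ℝ) ^ 2 - 54 * (Fintype.card κ : ℝ) + 27 := by nlinarith
    have h10 : 0 ≤ (Fintype.card κ : ℝ) ^ 3 / 27 *
        (23 * (Fintype.card κ : ℝ) ^ 2 - 54 * (Fintype.card κ : ℝ) + 27) := by positivity
    linarith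
  linarith

end Pool.Agent.H456.BQ
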