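import Pool.Agent.H456.BQ.Stm6

/-!
(M10) `S_selinv`. `E = cubE` of a Weierstrass equation: with `C = (u, r, s, t)`: `cubE (C • E) = ((cubE E).tr r).sc (u⁻¹)²` (`WeierstrassCurve.variableChange_b₂`, `_b₄`, `_b₆`; check: `b₂' = u⁻²(b₂ + 12 r)`, ...). So it is
enough to give bijections `Sel f ≃ Sel (f.tr r)` and `Sel f ≃ Sel (f.sc (k²))`, `k ≠ 0` (or maps in both directions). (1) `(g, ρ) ↦ (g, ρ - 4 r)`: `((f.tr r).sc 4).tr (ρ - 4r) = (f.sc 4).tr ρ` (`Cub.sc_tr`, `Cub.tr_tr`), `LS`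
unchanged, `PE M` unchanged. (2) `(g, ρ) ↦ (g.smul (k²), k² ρ)`: `Q4.res_smul`, `(f.sc k²).sc 4 = (f.sc 4).sc k²`, `LS`: `LS.of_sub`, `LSI.of_sub` (SDef.lean) with `M = ⟨1,0,0,1⟩`; `PE M` is preserved (`Q4.smul_sub`, `Q4.tau_smul`).
The inverse maps are of the same kind (`k⁻¹`, `-r`), using `Cub.tr_zero`, `Cub.sc_one` to identify the types; it may be easier to prove `Nat.card` equality by a bijection of the quotients with `Quotient.map` and a general lemma:
if `φ : pairs → pairs` is a bijection with `IsSel f s ↔ IsSel f' (φ s)` and `(∃ M, PE M s s') ↔ (∃ M, PE M (φ s) (φ s'))` then `Nat.card (Sel f) = Nat.card (Sel f')` (`Quotient.congr`).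
-/

set_option autoImplicit false
set_option linter.all false

open Polynomial Finset
open Pool.Agent.H456.EC (toK toK_inj sig toK_eq reflect_toK)

namespace Pool.Agent.H456.BQ

section selinvK

variable {K : Type*} [Field K]

/-- the map of the pairs attached to `x ↦ k² (x - r)` -/
def selinvMap (k r : K) (s : Q4 K × K) : Q4 K × K := (s.1.smul (k ^ 2), k ^ 2 * (s.2 - 4 * r))

theorem selinv_inv {k : K} (hk : k ≠ 0) (r : K) (s : Q4 K × K) :
    selinvMap k⁻¹ (-(k ^ 2 * r)) (selinvMap k r s) = s := by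
  obtain ⟨g, ρ⟩ := s
  simp only [selinvMap, Prod.mk.injEq]
  constructor
  · rw [Q4.smul_smul]
    have h : k ^ 2 * k⁻¹ ^ 2 = 1 := by field_simp
    rw [h, Q4.smul_one]
  · field_simp; ring

theorem selinv_cub {k : K} (hk : k ≠ 0) (r : K) (f : Cub K) :
    ((((f.tr r).sc (k ^ 2)).tr (-(k ^ 2 * r))).sc (k⁻¹ ^ 2)) = f := by
  rw [Cub.sc_tr (k ^ 2) r f, Cub.tr_tr, add_neg_cancel, Cub.tr_zero, Cub.sc_sc]
  have h : k ^ 2 * k⁻¹ ^ 2 = 1 := by field_simp
  rw [h, Cub.sc_one]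

theorem selinv_pe {k r : K} {M : M2 K} {s s' : Q4 K × K} (h : PE M s s') :
    PE M (selinvMap k r s) (selinvMap k r s') := by
  refine ⟨h.det, ?_, ?_⟩
  · simp only [selinvMap]
    rw [Q4.smul_sub, h.sub, Q4.smul_smul, Q4.smul_smul, mul_comm]
  · simp only [selinvMap]
    rw [Q4.tau_smul, h.tau]; ring

end selinvK

section selinvF

variable {F : Type} [Field F]

theorem selinv_is {k : RatFunc F} (hk : k ≠ 0) (r : RatFunc F) {f : Cub (RatFunc F)}
    {s : Q4 (RatFunc F) × RatFunc F} (h : IsSel f s) : IsSel ((f.tr r).sc (k ^ 2)) (selinvMap k r s) := by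
  have hd : (⟨1, 0, 0, 1⟩ : M2 (RatFunc F)).det ≠ 0 := by
    have : (⟨1, 0, 0, 1⟩ : M2 (RatFunc F)).det = 1 := by simp only [M2.det]; ring
    rw [this]; exact one_ne_zero
  have hs : s.1.sub ⟨1, 0, 0, 1⟩ = (s.1.smul (k ^ 2)).smul (k⁻¹ ^ 2) := by
    rw [Q4.sub_one, Q4.smul_smul]
    have h : k ^ 2 * k⁻¹ ^ 2 = 1 := by field_simp
    rw [h, Q4.smul_one]
  refine ⟨?_, ?_, ?_⟩
  · simp only [selinvMap]
    rw [Q4.res_smul, h.res, Cub.sc_tr, Cub.sc_sc, Cub.sc_tr, Cub.sc_tr, Cub.tr_tr, Cub.sc_sc]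
    have e1 : (4 : RatFunc F) * k ^ 2 = k ^ 2 * 4 := by ring
    have e2 : k ^ 2 * s.2 = 4 * (k ^ 2 * r) + k ^ 2 * (s.2 - 4 * r) := by ring
    rw [e1, e2]
  · intro P
    exact (h.fin P).of_sub hd (inv_ne_zero hk) hs
  · exact h.inf.of_sub hd (inv_ne_zero hk) hs

/-- the equivalence of the pairs -/
noncomputable def selinvEquiv {k : RatFunc F} (hk : k ≠ 0) (r : RatFunc F) (f : Cub (RatFunc F)) :
    {s : Q4 (RatFunc F) × RatFunc F // IsSel f s} ≃
      {s : Q4 (RatFunc F) × RatFunc F // IsSel ((f.tr r).sc (k ^ 2)) s} where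
  toFun s := ⟨selinvMap k r s.1, selinv_is hk r s.2⟩
  invFun s := ⟨selinvMap k⁻¹ (-(k ^ 2 * r)) s.1, by
    have h := selinv_is (inv_ne_zero hk) (-(k ^ 2 * r)) s.2
    rwa [selinv_cub hk] at h⟩
  left_inv s := Subtype.ext (selinv_inv hk r s.1)
  right_inv s := by
    apply Subtype.ext
    have h := selinv_inv (inv_ne_zero hk) (-(k ^ 2 * r)) s.1
    have e : -(k⁻¹ ^ 2 * -(k ^ 2 * r)) = r := by field_simp
    rw [e, inv_inv] at h
    exact h

theorem selinv_card {k : RatFunc F} (hk : k ≠ 0) (r : RatFunc F) (f : Cub (RatFunc F)) :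
    Nat.card (Sel ((f.tr r).sc (k ^ 2))) = Nat.card (Sel f) := by
  symm
  refine Nat.card_congr (Quotient.congr (selinvEquiv hk r f) ?_)
  intro s s'
  constructor
  · rintro ⟨M, hM⟩
    exact ⟨M, selinv_pe hM⟩
  · rintro ⟨M, hM⟩
    refine ⟨M, ?_⟩
    have h := selinv_pe (k := k⁻¹) (r := -(k ^ 2 * r)) hM
    have e1 := selinv_inv hk r s.1
    have e2 := selinv_inv hk r s'.1
    simp only [selinvEquiv, Equiv.coe_fn_mk] at h
    rwa [e1, e2] at h

end selinvF

theorem selinv_cubE {F : Type} [Field F] (h2 : (2 : F) ≠ 0) (E : WeierstrassCurve (RatFunc F))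
    (C : WeierstrassCurve.VariableChange (RatFunc F)) :
    cubE (C • E) = ((cubE E).tr C.r).sc (((C.u⁻¹ : (RatFunc F)ˣ) : RatFunc F) ^ 2) := by
  have h2' : (2 : RatFunc F) ≠ 0 := by
    have := (map_ne_zero_iff (algebraMap F (RatFunc F)) (algebraMap F (RatFunc F)).injective).2 h2
    rwa [map_ofNat] at this
  have h4' : (4 : RatFunc F) ≠ 0 := by
    have : (4 : RatFunc F) = 2 * 2 := by norm_num
    rw [this]; exact mul_ne_zero h2' h2'
  have e3 : (3 : RatFunc F) * 4 = 12 := by norm_num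
  ext
  · simp only [cubE, Cub.tr, Cub.sc]
    rw [WeierstrassCurve.variableChange_b₂]
    field_simp
    ring
  · simp only [cubE, Cub.tr, Cub.sc]
    rw [WeierstrassCurve.variableChange_b₄]
    field_simp
    ring
  · simp only [cubE, Cub.tr, Cub.sc]
    rw [WeierstrassCurve.variableChange_b₆]
    field_simp
    ring

theorem t_selinv : S_selinv := by
  intro F _ h2 E C
  rw [selinv_cubE h2]
  exact selinv_card (Units.ne_zero _) _ _

end Pool.Agent.H456.BQ
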