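import Pool.Agent.H456.BQ.Stm4

/-!
(K0) `S_sol`, over any field `L` with `2 ≠ 0`. Write `s = (g, ρ)`. Work with `PE` (Stm4.lean: `PE.refl/trans/symm/scal/res`;
`PE M (gp f x y, -(2x + 2 f.a)) (G, ρ)` is the same as `Rep f x y M G ρ`). (1) `M₁ = ⟨u, *, v, *⟩` with `det ≠ 0`
(e.g. `⟨u, 0, v, 1⟩` if `u ≠ 0`, `⟨0, 1, v, 0⟩` if `u = 0`) moves the point to `(1, 0)`: `g₁ = (g.sub M₁) / det²`, `g₁.A = (z/det)²`.
(2) `⟨det/z, 0, 0, 1⟩` makes `A = 1`; (3) `⟨1, -B/4, 0, 1⟩` makes `B = 0`. For every substitution the new `ρ` is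
`ρ' = ρ + tau / det²`, and `g'.res = (f.sc 4).tr ρ'` by `PE.res`. (4) For `g₃ = ⟨1, 0, C, D, E⟩`, `g₃.res = ⟨C, -4E, D² - 4CE⟩ =
(f.sc 4).tr ρ₃ = ⟨4a + 3ρ₃, 16b + 8aρ₃ + 3ρ₃², 64c + 16bρ₃ + 4aρ₃² + ρ₃³⟩`; put `x = -(ρ₃ + 2a)/2`, `y = -D/8`: then
`g₃ = gp f x y`, `y² = f(x)`, `ρ₃ = -(2x + 2a)`. Take the inverse substitution (`PE.symm`).
-/

set_option autoImplicit false
set_option linter.all false

open Polynomial Finset
open Pool.Agent.H456.EC (toK toK_inj sig toK_eq reflect_toK)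

namespace Pool.Agent.H456.BQ

section sol

variable {K : Type*} [Field K]

/-- the pair obtained by a substitution -/
def sol_mv (M : M2 K) (s : Q4 K × K) : Q4 K × K :=
  ((s.1.sub M).smul (M.det ^ 2)⁻¹, s.2 + s.1.tau M / M.det ^ 2)

theorem sol_pe {M : M2 K} (h : M.det ≠ 0) (s : Q4 K × K) : PE M s (sol_mv M s) := by
  have h2 : M.det ^ 2 ≠ 0 := pow_ne_zero 2 h
  refine ⟨h, ?_, ?_⟩
  · show s.1.sub M = ((s.1.sub M).smul (M.det ^ 2)⁻¹).smul (M.det ^ 2)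
    rw [Q4.smul_smul, inv_mul_cancel₀ h2, Q4.smul_one]
  · show s.1.tau M = (s.2 + s.1.tau M / M.det ^ 2 - s.2) * M.det ^ 2
    field_simp
    ring

/-- the leading coefficient becomes a square -/
theorem sol_one (s : Q4 K × K) {u v z : K} (huv : ¬ (u = 0 ∧ v = 0)) (hz : z ≠ 0)
    (h : z ^ 2 = s.1.ev u v) : ∃ (M : M2 K) (s' : Q4 K × K) (w : K), PE M s s' ∧ w ≠ 0 ∧ s'.1.A = w ^ 2 := by
  obtain ⟨M, hα, hγ, hd⟩ : ∃ M : M2 K, M.α = u ∧ M.γ = v ∧ M.det ≠ 0 := by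
    by_cases hu : u = 0
    · have hv : v ≠ 0 := fun hv => huv ⟨hu, hv⟩
      refine ⟨⟨u, 1, v, 0⟩, rfl, rfl, ?_⟩
      simp only [M2.det, mul_zero, one_mul, zero_sub]
      exact neg_ne_zero.2 hv
    · refine ⟨⟨u, 0, v, 1⟩, rfl, rfl, ?_⟩
      simp only [M2.det, mul_one, zero_mul, sub_zero]
      exact hu
  refine ⟨M, sol_mv M s, z / M.det, sol_pe hd s, div_ne_zero hz hd, ?_⟩
  have e : (s.1.sub M).A = s.1.ev u v := by
    simp only [Q4.sub, Q4.ev, hα, hγ]; ring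
  show (M.det ^ 2)⁻¹ * (s.1.sub M).A = _
  rw [e, ← h, div_pow, div_eq_mul_inv, mul_comm]

/-- the leading coefficient becomes `1` -/
theorem sol_two (s : Q4 K × K) {w : K} (hw : w ≠ 0) (h : s.1.A = w ^ 2) :
    ∃ (M : M2 K) (s' : Q4 K × K), PE M s s' ∧ s'.1.A = 1 := by
  have hd : (⟨1 / w, 0, 0, 1⟩ : M2 K).det = 1 / w := by simp only [M2.det]; ring
  refine ⟨⟨1 / w, 0, 0, 1⟩, sol_mv ⟨1 / w, 0, 0, 1⟩ s, sol_pe ?_ s, ?_⟩
  · rw [hd]; exact one_div_ne_zero hw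
  · show ((⟨1 / w, 0, 0, 1⟩ : M2 K).det ^ 2)⁻¹ * (s.1.sub ⟨1 / w, 0, 0, 1⟩).A = 1
    have e : (s.1.sub ⟨1 / w, 0, 0, 1⟩).A = s.1.A * (1 / w) ^ 4 := by
      simp only [Q4.sub]; ring
    rw [hd, e, h]
    field_simp

/-- the second coefficient becomes `0` -/
theorem sol_three (h2 : (2 : K) ≠ 0) (s : Q4 K × K) (h : s.1.A = 1) :
    ∃ (M : M2 K) (s' : Q4 K × K), PE M s s' ∧ s'.1.A = 1 ∧ s'.1.B = 0 := by
  have h4 : (4 : K) ≠ 0 := by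
    have : (4 : K) = 2 * 2 := by norm_num
    rw [this]; exact mul_ne_zero h2 h2
  have hd : (⟨1, -s.1.B / 4, 0, 1⟩ : M2 K).det = 1 := by simp only [M2.det]; ring
  refine ⟨⟨1, -s.1.B / 4, 0, 1⟩, sol_mv ⟨1, -s.1.B / 4, 0, 1⟩ s, sol_pe ?_ s, ?_, ?_⟩
  · rw [hd]; exact one_ne_zero
  · show ((⟨1, -s.1.B / 4, 0, 1⟩ : M2 K).det ^ 2)⁻¹ * (s.1.sub ⟨1, -s.1.B / 4, 0, 1⟩).A = 1
    rw [hd]
    simp only [Q4.sub, h]; ring
  · show ((⟨1, -s.1.B / 4, 0, 1⟩ : M2 K).det ^ 2)⁻¹ * (s.1.sub ⟨1, -s.1.B / 4, 0, 1⟩).B = 0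
    rw [hd]
    simp only [Q4.sub, h]
    field_simp
    ring

/-- the normal form is the quartic of a point -/
theorem sol_four (h2 : (2 : K) ≠ 0) (f : Cub K) (s : Q4 K × K) (hA : s.1.A = 1) (hB : s.1.B = 0)
    (h : s.1.res = (f.sc 4).tr s.2) : ∃ x y : K, y ^ 2 = f.ev x ∧ s.1 = gp f x y ∧ s.2 = -(2 * x + 2 * f.a) := by
  have h4 : (4 : K) ≠ 0 := by
    have : (4 : K) = 2 * 2 := by norm_num
    rw [this]; exact mul_ne_zero h2 h2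
  have h8 : (8 : K) ≠ 0 := by
    have : (8 : K) = 4 * 2 := by norm_num
    rw [this]; exact mul_ne_zero h4 h2
  have h64 : (64 : K) ≠ 0 := by
    have : (64 : K) = 8 * 8 := by norm_num
    rw [this]; exact mul_ne_zero h8 h8
  obtain ⟨g, ρ⟩ := s
  obtain ⟨A, B, C, D, E⟩ := g
  simp only at hA hB h
  subst hA
  subst hB
  have e1 := congrArg Cub.a h
  have e2 := congrArg Cub.b h
  have e3 := congrArg Cub.c h
  simp only [Q4.res, Cub.tr, Cub.sc] at e1 e2 e3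
  obtain ⟨x, hx⟩ : ∃ x : K, 2 * x = -(ρ + 2 * f.a) := ⟨-(ρ + 2 * f.a) / 2, by field_simp⟩
  obtain ⟨y, hy⟩ : ∃ y : K, 8 * y = -D := ⟨-D / 8, by field_simp⟩
  have hρ : ρ = -(2 * x + 2 * f.a) := by linear_combination hx
  have hD : D = -(8 * y) := by linear_combination hy
  have hC : C = -(6 * x + 2 * f.a) := by
    rw [e1, hρ]; ring
  have hE : E = f.a ^ 2 - 2 * f.a * x - 3 * x ^ 2 - 4 * f.b := by
    apply mul_left_cancel₀ h4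
    rw [hρ] at e2
    linear_combination -e2
  refine ⟨x, y, ?_, ?_, hρ⟩
  · apply mul_left_cancel₀ h64
    rw [hρ, hD, hC, hE] at e3
    simp only [Cub.ev]
    linear_combination e3
  · show (⟨1, 0, C, D, E⟩ : Q4 K) = gp f x y
    rw [hC, hD, hE]
    rfl

end sol

theorem t_sol : S_sol := by
  intro L _ h2 f s hs u v z huv hz h
  obtain ⟨M₁, s₁, w, p₁, hw, hA₁⟩ := sol_one s huv hz h
  obtain ⟨M₂, s₂, p₂, hA₂⟩ := sol_two s₁ hw hA₁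
  obtain ⟨M₃, s₃, p₃, hA₃, hB₃⟩ := sol_three h2 s₂ hA₂
  have p := (p₁.trans p₂).trans p₃
  obtain ⟨x, y, hxy, hg, hρ⟩ := sol_four h2 f s₃ hA₃ hB₃ (p.res hs)
  refine ⟨x, y, ((M₁.mul M₂).mul M₃).adj, hxy, p.symm.det, ?_, ?_⟩
  · rw [← hg]; exact p.symm.sub
  · rw [← hg, p.symm.tau, hρ]; ring

end Pool.Agent.H456.BQ
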