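import Pool.Agent.H456.BQ.Stm4

/-!
(K2) `S_stab`. `K` is infinite, so there is `u` with `A := s.1.ev u 1 ≠ 0` (`s.1 ≠ 0` because its resolvent has nonzero
discriminant). Let `K' = K(√A)` in an algebraic closure, of degree at most two. `f` has no root in `K'`: a cubic polynomial
without roots in `K` is irreducible over `K`, so a root `θ ∈ K'` would have degree `3` over `K`, but `[K':K] ≤ 2`.
Over `K'` the pair has the point `(u, 1, √A)`, `√A ≠ 0`, so by `S_sol` (hypothesis) `Rep f x y M₀ s.1 s.2`, `y² = f(x)`; then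
`M₀ M` is another representation of the same pair (`PE.trans`), and `Rep.scalar` (Rep.lean; with `tors_of` for the
hypothesis `ht`) gives `M₀ = (M₀ M).scal k`, hence `M = ⟨k⁻¹, 0, 0, k⁻¹⟩` over `K'`; the entries of `M` are in `K`.
-/

set_option autoImplicit false
set_option linter.all false

open Polynomial Finset
open Pool.Agent.H456.EC (toK toK_inj sig toK_eq reflect_toK)

namespace Pool.Agent.H456.BQ

/-- a quartic with nonzero discriminant of the resolvent has a nonzero value -/
theorem stab_exists_ev {K : Type} [Field K] [Infinite K] (g : Q4 K) (hg : g.res.disc ≠ 0) :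
    ∃ u : K, g.ev u 1 ≠ 0 := by
  by_contra hc
  push Not at hc
  have hp : (C g.A * X ^ 4 + C g.B * X ^ 3 + C g.C * X ^ 2 + C g.D * X + C g.E : K[X]) = 0 := by
    apply Polynomial.funext
    intro u
    have h := hc u
    simp only [Q4.ev] at h
    simp only [eval_add, eval_mul, eval_C, eval_pow, eval_X, eval_zero]
    linear_combination h
  have hA : g.A = 0 := by
    have h := congrArg (fun p : K[X] => p.coeff 4) hp
    simpa [coeff_X, coeff_C] using h
  have hB : g.B = 0 := by
    have h := congrArg (fun p : K[X] => p.coeff 3) hp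
    simpa [coeff_X, coeff_C] using h
  have hC : g.C = 0 := by
    have h := congrArg (fun p : K[X] => p.coeff 2) hp
    simpa [coeff_X, coeff_C] using h
  have hD : g.D = 0 := by
    have h := congrArg (fun p : K[X] => p.coeff 1) hp
    simpa [coeff_X, coeff_C] using h
  have hE : g.E = 0 := by
    have h := congrArg (fun p : K[X] => p.coeff 0) hp
    simpa [coeff_X, coeff_C] using h
  apply hg
  simp only [Q4.res, Cub.disc, hA, hB, hC, hD, hE]
  ring

/-- the case of a pair with a point -/
theorem stab_core (hsol : S_sol) {L : Type} [Field L] (h2 : (2 : L) ≠ 0) {f : Cub L}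
    (hf : f.disc ≠ 0) (hr : ∀ r : L, f.ev r ≠ 0) {s : Q4 L × L} (hs : s.1.res = (f.sc 4).tr s.2)
    {u v z : L} (huv : ¬ (u = 0 ∧ v = 0)) (hz : z ≠ 0) (hzz : z ^ 2 = s.1.ev u v) {M : M2 L}
    (hM : PE M s s) : ∃ k : L, k ≠ 0 ∧ M = ⟨k, 0, 0, k⟩ := by
  classical
  obtain ⟨x, y, M₀, hxy, r₀⟩ := hsol L h2 f s hs u v z huv hz hzz
  have p₀ : PE M₀ (gp f x y, -(2 * x + 2 * f.a)) s := by
    refine ⟨r₀.det, r₀.sub, ?_⟩
    rw [r₀.tau]
    ring
  have p₁ := p₀.trans hM
  have r₁ : Rep f x y (M₀.mul M) s.1 s.2 := by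
    refine ⟨p₁.det, p₁.sub, ?_⟩
    have h := p₁.tau
    rw [h]
    ring
  obtain ⟨k, hk, he⟩ := Rep.scalar hf h2 (tors_of hf h2 hr) hxy r₀ r₁
  have hd : M₀.det ≠ 0 := r₀.det
  have e1 : M₀.adj.mul M₀ = (M₀.adj.mul (M₀.mul M)).scal k := by
    rw [← M2.mul_scal, ← he]
  rw [← M2.mul_assoc, M2.adj_mul] at e1
  have a1 := congrArg M2.α e1
  have a2 := congrArg M2.β e1
  have a3 := congrArg M2.γ e1
  have a4 := congrArg M2.δ e1
  simp only [M2.mul, M2.scal, zero_mul, add_zero, zero_add] at a1 a2 a3 a4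
  refine ⟨k⁻¹, inv_ne_zero hk, ?_⟩
  have b1 : k * M.α = 1 := by
    apply mul_left_cancel₀ hd
    linear_combination -a1
  have b2 : M.β = 0 := by
    have h : (k * M₀.det) * M.β = 0 := by linear_combination -a2
    exact (mul_eq_zero.1 h).resolve_left (mul_ne_zero hk hd)
  have b3 : M.γ = 0 := by
    have h : (k * M₀.det) * M.γ = 0 := by linear_combination -a3
    exact (mul_eq_zero.1 h).resolve_left (mul_ne_zero hk hd)
  have b4 : k * M.δ = 1 := by
    apply mul_left_cancel₀ hd
    linear_combination -a4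
  ext
  · exact eq_inv_of_mul_eq_one_right b1
  · exact b2
  · exact b3
  · exact eq_inv_of_mul_eq_one_right b4

/-- the cubic polynomial -/
noncomputable def stab_pol {K : Type} [Field K] (f : Cub K) : K[X] :=
  X ^ 3 + C f.a * X ^ 2 + C f.b * X + C f.c

theorem stab_pol_monic {K : Type} [Field K] (f : Cub K) : (stab_pol f).Monic := by
  unfold stab_pol
  monicity!

theorem stab_pol_deg {K : Type} [Field K] (f : Cub K) : (stab_pol f).natDegree = 3 := by
  unfold stab_pol
  compute_degree!

theorem stab_pol_irr {K : Type} [Field K] (f : Cub K) (hr : ∀ r : K, f.ev r ≠ 0) :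
    Irreducible (stab_pol f) := by
  rw [(stab_pol_monic f).irreducible_iff_roots_eq_zero_of_degree_le_three
    (by rw [stab_pol_deg]; norm_num) (by rw [stab_pol_deg])]
  rw [Multiset.eq_zero_iff_forall_notMem]
  intro r hmem
  have h := (mem_roots'.1 hmem).2
  apply hr r
  have h1 : (stab_pol f).eval r = 0 := h
  unfold stab_pol at h1
  simp only [eval_add, eval_mul, eval_C, eval_pow, eval_X] at h1
  simp only [Cub.ev]
  exact h1

/-- no roots in extensions of degree at most two -/
theorem stab_noroot {K L : Type} [Field K] [Field L] [Algebra K L] [FiniteDimensional K L]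
    (hdeg : Module.finrank K L ≤ 2) (f : Cub K) (hr : ∀ r : K, f.ev r ≠ 0) (r : L) :
    (f.map (algebraMap K L)).ev r ≠ 0 := by
  intro h
  have h1 : aeval r (stab_pol f) = 0 := by
    unfold stab_pol
    simp only [map_add, map_mul, map_pow, aeval_X, aeval_C]
    simp only [Cub.ev, Cub.map] at h
    exact h
  have h2 := minpoly.eq_of_irreducible_of_monic (stab_pol_irr f hr) h1 (stab_pol_monic f)
  have h3 : (minpoly K r).natDegree ≤ Module.finrank K L := minpoly.natDegree_le r
  rw [← h2, stab_pol_deg] at h3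
  omega

theorem t_stab : S_sol → S_stab := by
  intro hsol K _ _ h2 f hf hr s hs M hM
  have h4 : (4 : K) ≠ 0 := by
    have : (4 : K) = 2 * 2 := by norm_num
    rw [this]
    exact mul_ne_zero h2 h2
  have hres : s.1.res.disc ≠ 0 := by
    rw [hs, Cub.disc_tr, Cub.disc_sc]
    exact mul_ne_zero (pow_ne_zero _ h4) hf
  obtain ⟨u, hu⟩ := stab_exists_ev s.1 hres
  obtain ⟨z, hz⟩ := IsAlgClosed.exists_pow_nat_eq
    (algebraMap K (AlgebraicClosure K) (s.1.ev u 1)) (n := 2) (by norm_num)
  set K' := IntermediateField.adjoin K {z} with hK'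
  have hint : IsIntegral K z := Algebra.IsIntegral.isIntegral z
  have hfd : FiniteDimensional K K' := IntermediateField.adjoin.finiteDimensional hint
  have hdeg : Module.finrank K K' ≤ 2 := by
    rw [hK', IntermediateField.adjoin.finrank hint]
    have hdvd : minpoly K z ∣ X ^ 2 - C (s.1.ev u 1) := by
      apply minpoly.dvd
      simp only [map_sub, map_pow, aeval_X, aeval_C]
      rw [hz, sub_self]
    have hne : (X ^ 2 - C (s.1.ev u 1) : K[X]) ≠ 0 := (monic_X_pow_sub_C _ (by norm_num)).ne_zero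
    refine (natDegree_le_of_dvd hdvd hne).trans ?_
    rw [natDegree_X_pow_sub_C]
  have hzmem : z ∈ K' := IntermediateField.mem_adjoin_simple_self K z
  let z' : K' := ⟨z, hzmem⟩
  let φ : K →+* K' := algebraMap K K'
  have hφ : Function.Injective φ := (algebraMap K K').injective
  have hzz : z' ^ 2 = φ (s.1.ev u 1) := by
    apply Subtype.ext
    exact hz
  have h2' : (2 : K') ≠ 0 := by
    have h := (map_ne_zero φ).2 h2
    rwa [map_ofNat] at h
  have hf' : (f.map φ).disc ≠ 0 := by
    rw [Cub.map_disc]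
    exact (map_ne_zero φ).2 hf
  have hs' : (s.1.map φ).res = ((f.map φ).sc 4).tr (φ s.2) := by
    rw [Q4.map_res, hs, Cub.map_tr, Cub.map_sc, map_ofNat]
  have hM' : PE (M.map φ) (s.1.map φ, φ s.2) (s.1.map φ, φ s.2) := by
    refine ⟨?_, ?_, ?_⟩
    · rw [M2.map_det]
      exact (map_ne_zero φ).2 hM.det
    · show (s.1.map φ).sub (M.map φ) = (s.1.map φ).smul ((M.map φ).det ^ 2)
      rw [← Q4.map_sub, hM.sub, Q4.map_smul, map_pow, M2.map_det]
    · show (s.1.map φ).tau (M.map φ) = (φ s.2 - φ s.2) * (M.map φ).det ^ 2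
      rw [Q4.map_tau, hM.tau, sub_self, sub_self, zero_mul, zero_mul, map_zero]
  have hz0 : z' ≠ 0 := by
    intro h0
    rw [h0] at hzz
    have h1 : φ (s.1.ev u 1) = 0 := by rw [← hzz]; ring
    exact hu ((map_eq_zero φ).1 h1)
  obtain ⟨k, hk, hke⟩ := stab_core hsol h2' hf' (fun r => stab_noroot hdeg f hr r)
    (s := (s.1.map φ, φ s.2)) hs' (u := φ u) (v := φ 1) (z := z')
    (fun h => one_ne_zero ((map_eq_zero φ).1 h.2)) hz0
    (by rw [Q4.map_ev]; exact hzz) hM'
  have c1 := congrArg M2.α hke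
  have c2 := congrArg M2.β hke
  have c3 := congrArg M2.γ hke
  have c4 := congrArg M2.δ hke
  simp only [M2.map] at c1 c2 c3 c4
  refine ⟨M.α, ?_, ?_⟩
  · intro h0
    rw [h0, map_zero] at c1
    exact hk c1.symm
  · ext
    · rfl
    · exact (map_eq_zero φ).1 c2
    · exact (map_eq_zero φ).1 c3
    · exact hφ (c4.trans c1.symm)

end Pool.Agent.H456.BQ
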