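import Pool.Agent.H456.BQ.Stm4
import Pool.Agent.H456.BQ.T_latA
import Pool.Agent.H456.BQ.T_tup

/-!
(K7) `S_tupS` from `S_adj`, `S_locKS`: adapt T_latA.lean and T_tup.lean (the same for the quartic of a point). (1) The entries of
`s.1` are fractions, so they lie in `LocP Q` for all places `Q` outside a finite set `B` (the monic irreducible divisors of the product of the
denominators). (2) For `Q ∈ B`, `Q ∉ S` there is a matrix `Λ Q` with `det ≠ 0`, `g Q`, `H Q` as required: `S_locKS` for `Q`, with `k` such that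
`¬ Q^(k+1) ∣ f.disc` and `M = 2 k + 1`; its family is nonempty because the sum is at least `1`. (3) As in `S_latA`, starting now
from `N = ⟨1, 0, 0, 1⟩` and applying `S_adj` for the places of `S ∪ B`, one gets `N`, `G₀` with
`s.1.sub N = (G₀.map toK).smul (det²)` and `LEq (LocP P) N (Λ P)` for `P ∈ S`. (4) Conclude as in T_tup.lean (`glue`, `factor` of Oi.lean).
-/

set_option autoImplicit false
set_option linter.all false

open Polynomial Finset
open Pool.Agent.H456.EC (toK toK_inj sig toK_eq reflect_toK)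

namespace Pool.Agent.H456.BQ

section tupS

variable {F : Type} [Field F]

/-- an element of `F(t)` is integral at almost all places -/
theorem tupS_fin (x : RatFunc F) : ({P : Pl F | x ∉ LocP P} : Set (Pl F)).Finite := by
  classical
  obtain ⟨p, q, hq, hpq, e⟩ := frac_toK x
  have h1 : ({P : F[X] | P ∈ (UniqueFactorizationMonoid.normalizedFactors q).toFinset} :
      Set F[X]).Finite := Finset.finite_toSet _
  refine (h1.preimage (f := fun P : Pl F => P.1) Subtype.val_injective.injOn).subset ?_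
  intro P hP
  show P.1 ∈ (UniqueFactorizationMonoid.normalizedFactors q).toFinset
  rw [Multiset.mem_toFinset, UniqueFactorizationMonoid.mem_normalizedFactors_iff' hq.ne_zero]
  refine ⟨P.2.2, P.2.1.normalize_eq_self, ?_⟩
  by_contra hd
  exact hP (mem_LocP.2 ⟨p, q, hd, e⟩)

/-- a quartic over `F(t)` is integral at almost all places -/
theorem tupS_finQ (g : Q4 (RatFunc F)) : ∃ B : Finset (Pl F), ∀ P, P ∉ B → latA_Int P g := by
  classical
  refine ⟨(tupS_fin g.A).toFinset ∪ (tupS_fin g.B).toFinset ∪ (tupS_fin g.C).toFinset ∪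
    (tupS_fin g.D).toFinset ∪ (tupS_fin g.E).toFinset, fun P hP => ?_⟩
  simp only [Finset.mem_union, not_or, Set.Finite.mem_toFinset, Set.mem_setOf_eq, not_not] at hP
  exact ⟨hP.1.1.1.1, hP.1.1.1.2, hP.1.1.2, hP.1.2, hP.2⟩

/-- the local lattices of a soluble pair -/
theorem tupS_loc (hloc : S_locKS) [Fintype F] (h2 : (2 : F) ≠ 0) {f : Cub F[X]} (hf : f.disc ≠ 0)
    {s : Q4 (RatFunc F) × RatFunc F} (hs : s.1.res = ((f.map (toK F)).sc 4).tr s.2) (P : Pl F)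
    (hP : LS P s.1) : ∃ (N : M2 (RatFunc F)) (g : Q4 (RatFunc F)) (H : Q4 F[X]), N.det ≠ 0 ∧
      s.1.sub N = g.smul (N.det ^ 2) ∧ RedTo P g H := by
  have hk : ¬ P.1 ^ (f.disc.natDegree + 1) ∣ f.disc := by
    intro hd
    have h3 := Polynomial.natDegree_le_of_dvd hd hf
    rw [P.2.1.natDegree_pow] at h3
    have h4 := P.2.2.natDegree_pos
    nlinarith
  obtain ⟨n, N, g, H, h3, h4, h5, -, h6⟩ := hloc F h2 P (2 * f.disc.natDegree + 1)
    f.disc.natDegree le_rfl f hk s hs hP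
  have hn : 0 < n := by
    rcases Nat.eq_zero_or_pos n with rfl | hn
    · exfalso
      rw [Finset.univ_eq_empty, Finset.sum_empty] at h6
      have h7 : 0 ≤ ((f.map (Ideal.Quotient.mk (Ideal.span
          {P.1 ^ (2 * f.disc.natDegree + 1)}))).nA : ℝ) /
          ((Fintype.card F : ℝ) ^ P.1.natDegree) ^ (2 * f.disc.natDegree + 1 - 1) := by
        positivity
      linarith
    · exact hn
  exact ⟨N ⟨0, hn⟩, g ⟨0, hn⟩, H ⟨0, hn⟩, h3 _, h4 _, h5 _⟩

theorem tupS_lat (hadj : S_adj) (hlocK : S_locKS) [Fintype F] (h2 : (2 : F) ≠ 0) {f : Cub F[X]}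
    (hf : f.disc ≠ 0) {s : Q4 (RatFunc F) × RatFunc F}
    (hs : s.1.res = ((f.map (toK F)).sc 4).tr s.2) (hLS : ∀ P : Pl F, LS P s.1)
    (S : Finset (Pl F)) (Λ : Pl F → M2 (RatFunc F)) (g : Pl F → Q4 (RatFunc F))
    (H : Pl F → Q4 F[X]) (hS : ∀ P ∈ S, (Λ P).det ≠ 0 ∧
      s.1.sub (Λ P) = (g P).smul ((Λ P).det ^ 2) ∧ RedTo P (g P) (H P)) :
    ∃ (N : M2 (RatFunc F)) (G : Q4 F[X]), N.det ≠ 0 ∧
      s.1.sub N = (G.map (toK F)).smul (N.det ^ 2) ∧ ∀ P ∈ S, LEq (LocP P) N (Λ P) := by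
  classical
  obtain ⟨B, hB⟩ := tupS_finQ s.1
  choose Λ' g' H' hΛ' hs' hr' using fun P => tupS_loc hlocK h2 hf hs P (hLS P)
  obtain ⟨Λ₂, hΛ₂⟩ : ∃ Λ₂ : Pl F → M2 (RatFunc F), Λ₂ = fun P => if P ∈ S then Λ P else Λ' P :=
    ⟨_, rfl⟩
  have hd1 : (⟨1, 0, 0, 1⟩ : M2 (RatFunc F)).det = 1 := by simp only [M2.det]; ring
  obtain ⟨N, h1, h3, h4⟩ := latA_glue hadj ⟨1, 0, 0, 1⟩ (by rw [hd1]; exact one_ne_zero) Λ₂ (S ∪ B)
    (by
      intro P hP
      rw [hΛ₂]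
      show (if P ∈ S then Λ P else Λ' P).det ≠ 0
      by_cases h : P ∈ S
      · rw [if_pos h]
        exact (hS P h).1
      · rw [if_neg h]
        exact hΛ' P)
  have hint : ∀ Q : Pl F, latA_Int Q ((s.1.sub N).smul ((N.det ^ 2)⁻¹)) := by
    intro Q
    by_cases hQ : Q ∈ S ∪ B
    · have h5 := (h3 Q hQ).symm
      by_cases h : Q ∈ S
      · obtain ⟨k1, k2, k3⟩ := hS Q h
        have h6 : Λ₂ Q = Λ Q := by
          rw [hΛ₂]
          exact if_pos h
        rw [h6] at h5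
        exact latA_step k1 k2 (latA_red k3) h5
      · have h6 : Λ₂ Q = Λ' Q := by
          rw [hΛ₂]
          exact if_neg h
        rw [h6] at h5
        exact latA_step (hΛ' Q) (hs' Q) (latA_red (hr' Q)) h5
    · have hQB : Q ∉ B := fun h => hQ (Finset.mem_union_right _ h)
      refine latA_step (N' := ⟨1, 0, 0, 1⟩) (g := s.1) (by rw [hd1]; exact one_ne_zero) ?_ (hB Q hQB)
        (h4 Q hQ)
      rw [Q4.sub_one, hd1, one_pow, Q4.smul_one]
  obtain ⟨pA, hA⟩ := latA_glob (fun Q => (hint Q).1)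
  obtain ⟨pB, hB'⟩ := latA_glob (fun Q => (hint Q).2.1)
  obtain ⟨pC, hC⟩ := latA_glob (fun Q => (hint Q).2.2.1)
  obtain ⟨pD, hD⟩ := latA_glob (fun Q => (hint Q).2.2.2.1)
  obtain ⟨pE, hE⟩ := latA_glob (fun Q => (hint Q).2.2.2.2)
  refine ⟨N, ⟨pA, pB, pC, pD, pE⟩, h1, ?_, fun P hP => ?_⟩
  · have e : (⟨pA, pB, pC, pD, pE⟩ : Q4 F[X]).map (toK F) =
        (s.1.sub N).smul ((N.det ^ 2)⁻¹) := by
      ext
      · exact hA
      · exact hB'
      · exact hC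
      · exact hD
      · exact hE
    rw [e, Q4.smul_smul, inv_mul_cancel₀ (pow_ne_zero 2 h1), Q4.smul_one]
  · have h5 := h3 P (Finset.mem_union_left _ hP)
    have h6 : Λ₂ P = Λ P := by
      rw [hΛ₂]
      exact if_pos hP
    rwa [h6] at h5

end tupS

theorem t_tupS : S_adj → S_locKS → S_tupS := by
  intro hadj hlocK F _ _ h2 n f hf s hs hLS S Λ g H hloc Ni gi Hi hNi hsub hRed
  obtain ⟨N, G₀, hN, h₀, hNP⟩ := tupS_lat hadj hlocK h2 hf hs hLS S Λ g H hloc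
  obtain ⟨Gi, hGi⟩ : ∃ Gi : Q4 (Oi F), Gi.map (Oi F).subtype = gi :=
    ⟨⟨⟨_, tup_mem hRed.1⟩, ⟨_, tup_mem hRed.2.1⟩, ⟨_, tup_mem hRed.2.2.1⟩, ⟨_, tup_mem hRed.2.2.2.1⟩,
      ⟨_, tup_mem hRed.2.2.2.2⟩⟩, rfl⟩
  rw [← hGi] at hsub
  obtain ⟨U, Y, l₁, l₂, D, hl, hU, hD, hNY, hα, hγ, hβ, hδ, hdeg, hYd, hB⟩ := glue hN hNi h₀ hsub
  obtain ⟨M, hM⟩ : ∃ M : M2 (RatFunc F), M = N.mul (U.map (toK F)) := ⟨_, rfl⟩
  refine ⟨l₂ - l₁, M, G₀.sub U, ?_, ?_, hB, ?_, ?_⟩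
  · rw [hM, M2.det_mul, M2.map_det, hU, map_one, mul_one]
    exact hN
  · rw [hM, ← Q4.sub_mul, h₀, Q4.smul_sub, Q4.map_sub, M2.det_mul, M2.map_det, hU, map_one, mul_one]
  · intro P hP
    rw [hM]
    exact ((tup_loc P N hU).symm).trans (hNP P hP)
  · obtain ⟨V, ε, hV, hVε⟩ := factor hα hγ hβ hδ hYd hdeg
    rw [← hM] at hNY
    rw [hV, ← M2.mul_assoc] at hNY
    have eα := congrArg M2.α hNY
    have eβ := congrArg M2.β hNY
    have eγ := congrArg M2.γ hNY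
    have eδ := congrArg M2.δ hNY
    simp only [M2.mul, M2.scal, mul_zero, add_zero, zero_add] at eα eβ eγ eδ
    have hcast : (-((l₂ - l₁ : ℕ) : ℤ)) = l₁ + -(l₂ : ℤ) := by omega
    have htt : tt F (-((l₂ - l₁ : ℕ) : ℤ)) = tt F l₁ * tt F (-(l₂ : ℤ)) := by
      rw [hcast, tt_add]
    have h2 := tt_neg (F := F) (l₂ : ℤ)
    have hDD := inv_mul_cancel₀ hD
    refine LEq.symm ⟨D⁻¹ * tt F l₁, V, mul_ne_zero (inv_ne_zero hD) (tt_ne _),
      IsUnit.of_mul_eq_one _ hVε, ?_⟩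
    have hVmap : V.map (algebraMap (Oi F) (RatFunc F)) = V.map (Oi F).subtype := rfl
    rw [hVmap, htt]
    ext
    · simp only [M2.mul, M2.scal, mul_zero, add_zero, mul_one]
      linear_combination D⁻¹ * (-1 : RatFunc F) * eα - M.α * hDD
    · simp only [M2.mul, M2.scal, mul_zero, zero_add, mul_one]
      linear_combination (-D⁻¹ * tt F l₁ * tt F (-(l₂ : ℤ))) * eβ - (M.β * tt F l₁ * tt F (-(l₂ : ℤ))) * hDD +
        (D⁻¹ * tt F l₁ * (Ni.α * (V.map (Oi F).subtype).β + Ni.β * (V.map (Oi F).subtype).δ)) * h2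
    · simp only [M2.mul, M2.scal, mul_zero, add_zero, mul_one]
      linear_combination D⁻¹ * (-1 : RatFunc F) * eγ - M.γ * hDD
    · simp only [M2.mul, M2.scal, mul_zero, zero_add, mul_one]
      linear_combination (-D⁻¹ * tt F l₁ * tt F (-(l₂ : ℤ))) * eδ - (M.δ * tt F l₁ * tt F (-(l₂ : ℤ))) * hDD +
        (D⁻¹ * tt F l₁ * (Ni.γ * (V.map (Oi F).subtype).β + Ni.δ * (V.map (Oi F).subtype).δ)) * h2

end Pool.Agent.H456.BQ
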