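import Pool.Agent.H456.BQ.Stm4

/-!
(K14) `S_uniqK`, algebra over the discrete valuation ring `LocP P` (fraction field `K = F(t)`, uniformizer `P`),
Hermite normal form version of the Cartan argument (helper357).
-/

set_option autoImplicit false
set_option linter.all false

open Polynomial Finset
open Pool.Agent.H456.EC (toK toK_inj sig toK_eq reflect_toK)

namespace Pool.Agent.H456.BQ

section abstract

variable {O : Type} [CommRing O]

/-- divisibility of the discriminant -/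
theorem uniqK_disc (π a b C D E : O) : π ^ 2 ∣ (Q4.mk (π ^ 2 * a) (π * b) C D E).res.disc := by
  refine ⟨C ^ 2 * (b * D - 4 * π * a * E) ^ 2 - 4 * π * (b * D - 4 * π * a * E) ^ 3
    - 4 * C ^ 3 * (a * D ^ 2 + b ^ 2 * E - 4 * a * C * E)
    - 27 * π ^ 2 * (a * D ^ 2 + b ^ 2 * E - 4 * a * C * E) ^ 2
    + 18 * π * C * (b * D - 4 * π * a * E) * (a * D ^ 2 + b ^ 2 * E - 4 * a * C * E), ?_⟩
  simp only [Q4.res, Cub.disc]
  ring

/-- the Hermite normal form of a matrix whose first column contains a unit -/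
theorem uniqK_herm {W : M2 O} (hW : IsUnit W.α ∨ IsUnit W.γ) :
    ∃ (U : M2 O) (b u : O), U.det * u = 1 ∧ W = U.mul ⟨1, b, 0, u * W.det⟩ := by
  rcases hW with h | h
  · obtain ⟨v, hv⟩ := h
    refine ⟨⟨W.α, 0, W.γ, 1⟩, ↑v⁻¹ * W.β, ↑v⁻¹, ?_, ?_⟩
    · simp only [M2.det]
      rw [← hv]
      have := Units.mul_inv v
      linear_combination this
    · have h1 : W.α * ↑v⁻¹ = 1 := by rw [← hv]; exact Units.mul_inv v
      ext
      · simp only [M2.mul, M2.det]; ring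
      · simp only [M2.mul, M2.det]; linear_combination (-W.β) * h1
      · simp only [M2.mul, M2.det]; ring
      · simp only [M2.mul, M2.det]; linear_combination (-W.δ) * h1
  · obtain ⟨v, hv⟩ := h
    refine ⟨⟨W.α, -1, W.γ, 0⟩, ↑v⁻¹ * W.δ, ↑v⁻¹, ?_, ?_⟩
    · simp only [M2.det]
      rw [← hv]
      have := Units.mul_inv v
      linear_combination this
    · have h1 : W.γ * ↑v⁻¹ = 1 := by rw [← hv]; exact Units.mul_inv v
      ext
      · simp only [M2.mul, M2.det]; ring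
      · simp only [M2.mul, M2.det]; linear_combination (-W.β) * h1
      · simp only [M2.mul, M2.det]; ring
      · simp only [M2.mul, M2.det]; linear_combination (-W.δ) * h1

/-- the main argument -/
theorem uniqK_main [IsDomain O] {π : O} (hloc : ∀ x : O, IsUnit x ∨ π ∣ x) {g g' : Q4 O} {W : M2 O}
    (hW : IsUnit W.α ∨ IsUnit W.γ) (hd : W.det ≠ 0) (h : g.sub W = g'.smul (W.det ^ 2)) :
    IsUnit W.det ∨ π ^ 2 ∣ g.res.disc := by
  rcases hloc W.det with hu | ⟨d, hπ⟩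
  · exact Or.inl hu
  right
  obtain ⟨U, b, u, hU, hWU⟩ := uniqK_herm hW
  have h1 : (g.sub U).sub ⟨1, b, 0, u * W.det⟩ = g'.smul (W.det ^ 2) := by
    rw [Q4.sub_mul, ← hWU, h]
  have hA := congrArg Q4.A h1
  have hB := congrArg Q4.B h1
  obtain ⟨g₁, hg₁⟩ : ∃ g₁, g₁ = g.sub U := ⟨_, rfl⟩
  rw [← hg₁] at hA hB h1
  have hA' : g₁.A = W.det ^ 2 * g'.A := by
    simp only [Q4.sub, Q4.smul] at hA
    linear_combination hA
  have hB' : g₁.B = W.det * (U.det * (g'.B - 4 * g'.A * b)) := by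
    simp only [Q4.sub, Q4.smul] at hB
    have h2 : W.det * (g₁.B * u) = W.det * (W.det * (g'.B - 4 * g'.A * b)) := by
      linear_combination hB - 4 * b * hA'
    have h3 := mul_left_cancel₀ hd h2
    linear_combination U.det * h3 - g₁.B * hU
  have hg : g₁ = ⟨π ^ 2 * (d ^ 2 * g'.A), π * (d * (U.det * (g'.B - 4 * g'.A * b))), g₁.C, g₁.D, g₁.E⟩ := by
    ext
    · simp only; rw [hA', hπ]; ring
    · simp only; rw [hB', hπ]; ring
    · rfl
    · rfl
    · rfl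
  have hdisc : π ^ 2 ∣ g₁.res.disc := by
    rw [hg]
    exact uniqK_disc _ _ _ _ _ _
  have h4 : g₁.res.disc = (U.det ^ 2) ^ 6 * g.res.disc := by
    rw [hg₁, Q4.res_sub, Cub.disc_tr, Cub.disc_sc]
  have h5 : g.res.disc = u ^ 12 * g₁.res.disc := by
    rw [h4]
    have h6 : u ^ 12 * ((U.det ^ 2) ^ 6 * g.res.disc) = (U.det * u) ^ 12 * g.res.disc := by ring
    rw [h6, hU]
    ring
  rw [h5]
  exact hdisc.mul_left _

end abstract

section field

variable {F : Type} [Field F]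

theorem uniqK_toK (P : Pl F) (a : F[X]) : toK F a ∈ LocP P :=
  mem_LocP.2 ⟨a, 1, fun h => P.2.2.not_isUnit (isUnit_of_dvd_one h), by rw [map_one, one_mul]⟩

theorem uniqK_locI {P : Pl F} {x : RatFunc F} {a : F[X]} (h : LocI P (x - toK F a)) : x ∈ LocP P := by
  obtain ⟨c, b, hb, e⟩ := h
  have h1 : x - toK F a ∈ LocP P := mem_LocP.2 ⟨P.1 * c, b, hb, e⟩
  have h2 := (LocP P).add_mem h1 (uniqK_toK P a)
  rwa [sub_add_cancel] at h2

/-- all coefficients are integral at `P` -/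
def uniqK_Int (P : Pl F) (g : Q4 (RatFunc F)) : Prop :=
  g.A ∈ LocP P ∧ g.B ∈ LocP P ∧ g.C ∈ LocP P ∧ g.D ∈ LocP P ∧ g.E ∈ LocP P

theorem uniqK_red {P : Pl F} {g : Q4 (RatFunc F)} {H : Q4 F[X]} (h : RedTo P g H) : uniqK_Int P g :=
  ⟨uniqK_locI h.1, uniqK_locI h.2.1, uniqK_locI h.2.2.1, uniqK_locI h.2.2.2.1, uniqK_locI h.2.2.2.2⟩

theorem uniqK_lift {P : Pl F} {g : Q4 (RatFunc F)} (h : uniqK_Int P g) :
    ∃ g₀ : Q4 (LocP P), g₀.map (algebraMap (LocP P) (RatFunc F)) = g := by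
  obtain ⟨a1, a2, a3, a4, a5⟩ := h
  exact ⟨⟨⟨_, a1⟩, ⟨_, a2⟩, ⟨_, a3⟩, ⟨_, a4⟩, ⟨_, a5⟩⟩, rfl⟩

theorem uniqK_inj (P : Pl F) : Function.Injective (algebraMap (LocP P) (RatFunc F)) :=
  Subtype.coe_injective

/-- `LocP P` is a valuation ring -/
theorem uniqK_val (P : Pl F) (x : RatFunc F) : x ∈ LocP P ∨ x⁻¹ ∈ LocP P := by
  obtain ⟨p, q, hq, hpq, hx⟩ := frac_toK x
  by_cases h : P.1 ∣ q
  · right
    have hp : ¬ P.1 ∣ p := fun h' => P.2.2.not_isUnit (hpq.isUnit_of_dvd' h' h)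
    have hp0 : toK F p ≠ 0 := (map_ne_zero_iff _ toK_inj).2 (fun h0 => hp (by rw [h0]; exact dvd_zero _))
    have hx0 : x ≠ 0 := by
      rintro rfl
      rw [mul_zero] at hx
      exact hp0 hx.symm
    refine mem_LocP.2 ⟨q, p, hp, ?_⟩
    rw [← hx, mul_assoc, mul_inv_cancel₀ hx0, mul_one]
  · left
    exact mem_LocP.2 ⟨p, q, h, hx⟩

/-- divisibility is a total order -/
theorem uniqK_tot (P : Pl F) (x y : RatFunc F) :
    (∃ o ∈ LocP P, y = o * x) ∨ (∃ o ∈ LocP P, x = o * y) := by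
  by_cases hx : x = 0
  · right; exact ⟨0, (LocP P).zero_mem, by rw [hx, zero_mul]⟩
  by_cases hy : y = 0
  · left; exact ⟨0, (LocP P).zero_mem, by rw [hy, zero_mul]⟩
  rcases uniqK_val P (y / x) with h | h
  · left; exact ⟨_, h, by rw [div_mul_cancel₀ _ hx]⟩
  · right
    refine ⟨_, h, ?_⟩
    rw [inv_div, div_mul_cancel₀ _ hy]

/-- the uniformizer -/
noncomputable def uniqK_pi (P : Pl F) : LocP P := ⟨toK F P.1, uniqK_toK P P.1⟩

theorem uniqK_loc (P : Pl F) (x : LocP P) : IsUnit x ∨ uniqK_pi P ∣ x := by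
  obtain ⟨x, a, b, hb, hx⟩ := x
  have hb0 : toK F b ≠ 0 := (map_ne_zero_iff _ toK_inj).2 (fun h0 => hb (by rw [h0]; exact dvd_zero _))
  by_cases ha : P.1 ∣ a
  · right
    obtain ⟨c, rfl⟩ := ha
    refine ⟨⟨toK F c / toK F b, mem_LocP.2 ⟨c, b, hb, by rw [mul_div_cancel₀ _ hb0]⟩⟩, ?_⟩
    apply Subtype.ext
    show x = toK F P.1 * (toK F c / toK F b)
    rw [map_mul] at hx
    rw [← mul_div_assoc, eq_div_iff hb0]
    linear_combination hx
  · left
    have ha0 : toK F a ≠ 0 := (map_ne_zero_iff _ toK_inj).2 (fun h0 => ha (by rw [h0]; exact dvd_zero _))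
    have hm : toK F b / toK F a ∈ LocP P := mem_LocP.2 ⟨b, a, ha, by rw [mul_div_cancel₀ _ ha0]⟩
    refine IsUnit.of_mul_eq_one ⟨toK F b / toK F a, hm⟩ ?_
    apply Subtype.ext
    show x * (toK F b / toK F a) = 1
    rw [← mul_div_assoc, div_eq_iff ha0]
    linear_combination hx

/-- divisibility by the square of the uniformizer of a polynomial -/
theorem uniqK_dvd (h2 : (2 : F) ≠ 0) (P : Pl F) {x : F[X]} {y : LocP P}
    (hy : algebraMap (LocP P) (RatFunc F) y = 4 ^ 6 * toK F x) (h : uniqK_pi P ^ 2 ∣ y) : P.1 ^ 2 ∣ x := by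
  obtain ⟨t, ht⟩ := h
  obtain ⟨a, b, hb, e⟩ := t.2
  have h1 : toK F P.1 ^ 2 * (t : RatFunc F) = 4 ^ 6 * toK F x := by
    rw [← hy, ht]
    rfl
  have h3 : P.1 ^ 2 * a = b * (4 ^ 6 * x) := by
    apply toK_inj (F := F)
    rw [map_mul, map_mul, map_mul, map_pow, map_pow, map_ofNat, ← h1, ← e]
    ring
  have h4 : IsCoprime (P.1 ^ 2) b := (P.2.2.coprime_iff_not_dvd.2 hb).pow_left
  have h5 : P.1 ^ 2 ∣ 4 ^ 6 * x := h4.dvd_of_dvd_mul_left ⟨a, h3.symm⟩
  have h6 : IsUnit ((4 : F[X]) ^ 6) := by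
    apply IsUnit.pow
    have h7 : (4 : F[X]) = C ((2 : F) * 2) := by
      rw [map_mul, map_ofNat]; norm_num
    rw [h7]
    exact isUnit_C.2 (isUnit_iff_ne_zero.2 (mul_ne_zero h2 h2))
  exact (h6.dvd_mul_left).1 h5

/-- the case in which the first column of the matrix contains the minimal entry -/
theorem uniqK_col (h2 : (2 : F) ≠ 0) (P : Pl F) (f : Cub F[X]) (hf : ¬ P.1 ^ 2 ∣ f.disc)
    (s : Q4 (RatFunc F) × RatFunc F) (hs : s.1.res = ((f.map (toK F)).sc 4).tr s.2)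
    (N N' : M2 (RatFunc F)) (g g' : Q4 (RatFunc F)) (hN : N.det ≠ 0) (hN' : N'.det ≠ 0)
    (e : s.1.sub N = g.smul (N.det ^ 2)) (e' : s.1.sub N' = g'.smul (N'.det ^ 2))
    (hg : uniqK_Int P g) (hg' : uniqK_Int P g') (W : M2 (LocP P)) (c : RatFunc F)
    (hW : N.adj.mul N' = (W.map (algebraMap (LocP P) (RatFunc F))).scal c)
    (hu : IsUnit W.α ∨ IsUnit W.γ) : LEq (LocP P) N N' := by
  obtain ⟨g₀, hg₀⟩ := uniqK_lift hg
  obtain ⟨g₀', hg₀'⟩ := uniqK_lift hg'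
  obtain ⟨W', hW'⟩ : ∃ W' : M2 (RatFunc F), W' = W.map (algebraMap (LocP P) (RatFunc F)) := ⟨_, rfl⟩
  rw [← hW'] at hW
  have hdet : N.det * N'.det = c ^ 2 * W'.det := by
    have h1 := congrArg M2.det hW
    rw [M2.det_mul, M2.det_adj, M2.det_scal] at h1
    exact h1
  have hc : c ≠ 0 := by
    rintro rfl
    rw [zero_pow two_ne_zero, zero_mul] at hdet
    exact mul_ne_zero hN hN' hdet
  have hWd : W'.det ≠ 0 := by
    intro h0
    rw [h0, mul_zero] at hdet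
    exact mul_ne_zero hN hN' hdet
  have hNW : N.mul (W'.scal c) = N'.scal N.det := by
    rw [← hW, ← M2.mul_assoc, M2.mul_adj]
    ext <;> simp only [M2.mul, M2.scal] <;> ring
  have hgW : g.sub W' = g'.smul (W'.det ^ 2) := by
    have h1 : (s.1.sub N).sub (W'.scal c) = (g.sub (W'.scal c)).smul (N.det ^ 2) := by
      rw [e, Q4.smul_sub]
    rw [Q4.sub_mul, hNW, Q4.sub_scal, e', Q4.sub_scal, Q4.smul_smul, Q4.smul_smul] at h1
    have hk : c ^ 4 * N.det ^ 2 ≠ 0 := mul_ne_zero (pow_ne_zero _ hc) (pow_ne_zero _ hN)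
    apply Q4.smul_cancel hk
    rw [← h1, Q4.smul_smul]
    have h3 : N'.det ^ 2 * N.det ^ 4 = W'.det ^ 2 * (c ^ 4 * N.det ^ 2) := by
      have h4 : (N.det * N'.det) ^ 2 = (c ^ 2 * W'.det) ^ 2 := by rw [hdet]
      linear_combination N.det ^ 2 * h4
    rw [h3]
  have hO : g₀.sub W = g₀'.smul (W.det ^ 2) := by
    apply Q4.map_inj _ (uniqK_inj P)
    rw [Q4.map_sub, Q4.map_smul, hg₀, hg₀', ← hW', map_pow, ← M2.map_det, ← hW', hgW]
  have hWd0 : W.det ≠ 0 := by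
    intro h0
    apply hWd
    rw [hW', M2.map_det, h0, map_zero]
  rcases uniqK_main (uniqK_loc P) hu hWd0 hO with h | h
  · refine ⟨c / N.det, W, div_ne_zero hc hN, h, ?_⟩
    rw [← hW']
    have h5 := hNW
    rw [M2.mul_scal] at h5
    have h6 : ((N.mul W').scal c).scal (N.det)⁻¹ = (N'.scal N.det).scal (N.det)⁻¹ := by rw [h5]
    rw [M2.scal_scal, M2.scal_scal, mul_inv_cancel₀ hN] at h6
    have h7 : N'.scal 1 = N' := by ext <;> simp only [M2.scal] <;> ring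
    rw [h7] at h6
    rw [← h6, div_eq_mul_inv]
  · exfalso
    apply hf
    apply uniqK_dvd h2 P (y := g₀.res.disc) _ h
    have hPE : PE N s (g, s.2 + s.1.tau N / N.det ^ 2) :=
      ⟨hN, e, by
        show s.1.tau N = (s.2 + s.1.tau N / N.det ^ 2 - s.2) * N.det ^ 2
        rw [add_sub_cancel_left, div_mul_cancel₀ _ (pow_ne_zero 2 hN)]⟩
    have hres := hPE.res hs
    have h8 : g.res = ((f.map (toK F)).sc 4).tr (s.2 + s.1.tau N / N.det ^ 2) := hres
    rw [← Cub.map_disc, ← Q4.map_res, hg₀, h8, Cub.disc_tr, Cub.disc_sc, Cub.map_disc]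

/-- a matrix over `K` as a multiple of a matrix over `LocP P` with a unit entry -/
theorem uniqK_prim (P : Pl F) (M : M2 (RatFunc F)) (hM : M.det ≠ 0) :
    (∃ (W : M2 (LocP P)) (c : RatFunc F), M = (W.map (algebraMap (LocP P) (RatFunc F))).scal c ∧
      (IsUnit W.α ∨ IsUnit W.γ)) ∨
    (∃ (W : M2 (LocP P)) (c : RatFunc F),
      M.mul ⟨0, 1, 1, 0⟩ = (W.map (algebraMap (LocP P) (RatFunc F))).scal c ∧
      (IsUnit W.α ∨ IsUnit W.γ)) := by
  have key : ∀ x ∈ LocP P, ∃ o : LocP P, algebraMap (LocP P) (RatFunc F) o = x := fun x hx => ⟨⟨x, hx⟩, rfl⟩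
  have tr : ∀ x y z : RatFunc F, (∃ o ∈ LocP P, y = o * x) → (∃ o ∈ LocP P, z = o * y) →
      ∃ o ∈ LocP P, z = o * x := by
    rintro x y z ⟨o, ho, rfl⟩ ⟨o', ho', rfl⟩
    exact ⟨o' * o, (LocP P).mul_mem ho' ho, by ring⟩
  have rf : ∀ x : RatFunc F, ∃ o ∈ LocP P, x = o * x := fun x => ⟨1, (LocP P).one_mem, by ring⟩
  -- the minimal element of the first column
  have m1 : ∀ x y : RatFunc F, ∃ m, (m = x ∨ m = y) ∧ (∃ o ∈ LocP P, x = o * m) ∧ ∃ o ∈ LocP P, y = o * m := by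
    intro x y
    rcases uniqK_tot P x y with h | h
    · exact ⟨x, Or.inl rfl, rf x, h⟩
    · exact ⟨y, Or.inr rfl, h, rf y⟩
  obtain ⟨m, hm, a1, a3⟩ := m1 M.α M.γ
  obtain ⟨m', hm', a2, a4⟩ := m1 M.β M.δ
  rcases uniqK_tot P m m' with h | h
  · left
    obtain ⟨oα, hα, eα⟩ := a1
    obtain ⟨oγ, hγ, eγ⟩ := a3
    obtain ⟨oβ, hβ, eβ⟩ := tr _ _ _ h a2
    obtain ⟨oδ, hδ, eδ⟩ := tr _ _ _ h a4
    have hm0 : m ≠ 0 := by
      rintro rfl
      apply hM
      rw [M2.det, eα, eβ]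
      ring
    refine ⟨⟨⟨oα, hα⟩, ⟨oβ, hβ⟩, ⟨oγ, hγ⟩, ⟨oδ, hδ⟩⟩, m, ?_, ?_⟩
    · ext
      · show M.α = m * oα
        rw [eα]; ring
      · show M.β = m * oβ
        rw [eβ]; ring
      · show M.γ = m * oγ
        rw [eγ]; ring
      · show M.δ = m * oδ
        rw [eδ]; ring
    · rcases hm with hm | hm
      · left
        have : oα = 1 := by
          apply mul_right_cancel₀ hm0
          rw [one_mul, ← eα, hm]
        have h1 : (⟨oα, hα⟩ : LocP P) = 1 := Subtype.ext this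
        show IsUnit (⟨oα, hα⟩ : LocP P)
        rw [h1]
        exact isUnit_one
      · right
        have : oγ = 1 := by
          apply mul_right_cancel₀ hm0
          rw [one_mul, ← eγ, hm]
        have h1 : (⟨oγ, hγ⟩ : LocP P) = 1 := Subtype.ext this
        show IsUnit (⟨oγ, hγ⟩ : LocP P)
        rw [h1]
        exact isUnit_one
  · right
    obtain ⟨oβ, hβ, eβ⟩ := a2
    obtain ⟨oδ, hδ, eδ⟩ := a4
    obtain ⟨oα, hα, eα⟩ := tr _ _ _ h a1
    obtain ⟨oγ, hγ, eγ⟩ := tr _ _ _ h a3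
    have hm0 : m' ≠ 0 := by
      rintro rfl
      apply hM
      rw [M2.det, eα, eβ]
      ring
    refine ⟨⟨⟨oβ, hβ⟩, ⟨oα, hα⟩, ⟨oδ, hδ⟩, ⟨oγ, hγ⟩⟩, m', ?_, ?_⟩
    · ext
      · show M.α * 0 + M.β * 1 = m' * oβ
        rw [eβ]; ring
      · show M.α * 1 + M.β * 0 = m' * oα
        rw [eα]; ring
      · show M.γ * 0 + M.δ * 1 = m' * oδ
        rw [eδ]; ring
      · show M.γ * 1 + M.δ * 0 = m' * oγ
        rw [eγ]; ring
    · rcases hm' with hm | hm
      · left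
        have : oβ = 1 := by
          apply mul_right_cancel₀ hm0
          rw [one_mul, ← eβ, hm]
        have h1 : (⟨oβ, hβ⟩ : LocP P) = 1 := Subtype.ext this
        show IsUnit (⟨oβ, hβ⟩ : LocP P)
        rw [h1]
        exact isUnit_one
      · right
        have : oδ = 1 := by
          apply mul_right_cancel₀ hm0
          rw [one_mul, ← eδ, hm]
        have h1 : (⟨oδ, hδ⟩ : LocP P) = 1 := Subtype.ext this
        show IsUnit (⟨oδ, hδ⟩ : LocP P)
        rw [h1]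
        exact isUnit_one

end field

theorem t_uniqK : S_uniqK := by
  intro F _ h2 P f hf s hs N N' g g' H H' hN hN' e e' hR hR'
  have hg := uniqK_red hR
  have hg' := uniqK_red hR'
  have hd : (N.adj.mul N').det ≠ 0 := by
    rw [M2.det_mul, M2.det_adj]
    exact mul_ne_zero hN hN'
  rcases uniqK_prim P (N.adj.mul N') hd with ⟨W, c, hW, hu⟩ | ⟨W, c, hW, hu⟩
  · exact uniqK_col h2 P f hf s hs N N' g g' hN hN' e e' hg hg' W c hW hu
  · obtain ⟨S, hS⟩ : ∃ S : M2 (RatFunc F), S = ⟨0, 1, 1, 0⟩ := ⟨_, rfl⟩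
    have hSd : S.det = -1 := by rw [hS]; simp only [M2.det]; ring
    rw [← hS, M2.mul_assoc] at hW
    have hdS : (N'.mul S).det = N'.det * (-1) := by rw [M2.det_mul, hSd]
    have hN'' : (N'.mul S).det ≠ 0 := by
      rw [hdS]
      exact mul_ne_zero hN' (by norm_num)
    have e'' : s.1.sub (N'.mul S) = (g'.sub S).smul ((N'.mul S).det ^ 2) := by
      rw [← Q4.sub_mul, e', Q4.smul_sub, hdS]
      congr 1
      ring
    have hg'' : uniqK_Int P (g'.sub S) := by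
      obtain ⟨g₀, hg₀⟩ := uniqK_lift hg'
      have h3 : g'.sub S = (g₀.sub ⟨0, 1, 1, 0⟩).map (algebraMap (LocP P) (RatFunc F)) := by
        have h5 : S = (⟨0, 1, 1, 0⟩ : M2 (LocP P)).map (algebraMap (LocP P) (RatFunc F)) := by
          rw [hS]
          ext <;> simp [M2.map]
        rw [Q4.map_sub, hg₀, h5]
      rw [h3]
      exact ⟨Subtype.mem _, Subtype.mem _, Subtype.mem _, Subtype.mem _, Subtype.mem _⟩
    have h4 := uniqK_col h2 P f hf s hs N (N'.mul S) g (g'.sub S) hN hN'' e e'' hg hg'' W c hW hu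
    refine h4.trans ⟨1, ⟨0, 1, 1, 0⟩, one_ne_zero, ?_, ?_⟩
    · have : (⟨0, 1, 1, 0⟩ : M2 (LocP P)).det = -1 := by simp only [M2.det]; ring
      rw [this]
      exact isUnit_one.neg
    · rw [hS]
      ext <;> simp [M2.map, M2.mul, M2.scal]

end Pool.Agent.H456.BQ
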