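import Pool.Agent.H456.BQ.SFin
import Pool.Agent.H456.BQ.T_comp4
import Pool.Agent.H456.BQ.T_sol
import Pool.Agent.H456.BQ.T_nz
import Pool.Agent.H456.BQ.T_stab
import Pool.Agent.H456.BQ.T_locKS
import Pool.Agent.H456.BQ.T_locIS
import Pool.Agent.H456.BQ.T_tupS
import Pool.Agent.H456.BQ.T_balls
import Pool.Agent.H456.BQ.T_conv
import Pool.Agent.H456.BQ.T_locUp
import Pool.Agent.H456.BQ.T_locKU
import Pool.Agent.H456.BQ.T_locIU
import Pool.Agent.H456.BQ.T_uniqK
import Pool.Agent.H456.BQ.T_glob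
import Pool.Agent.H456.BQ.T_lang
import Pool.Agent.H456.BQ.T_node
import Pool.Agent.H456.BQ.T_hens
import Pool.Agent.H456.BQ.T_dsq
import Pool.Agent.H456.BQ.T_large
import Pool.Agent.H456.BQ.T_rt
import Pool.Agent.H456.BQ.T_mcomp
import Pool.Agent.H456.BQ.T_minf
import Pool.Agent.H456.BQ.T_indep
import Pool.Agent.H456.BQ.T_euler2
import Pool.Agent.H456.BQ.T_badc
import Pool.Agent.H456.BQ.T_avr
import Pool.Agent.H456.BQ.T_joint
import Pool.Agent.H456.BQ.T_one
import Pool.Agent.H456.BQ.T_els
import Pool.Agent.H456.BQ.T_clsG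
import Pool.Agent.H456.BQ.T_selinv
import Pool.Agent.H456.BQ.T_kum

/-!
# All the statements used for the average of the 2-Selmer sets are proved
-/

set_option autoImplicit false

open Polynomial Finset Filter

namespace Pool.Agent.H456.BQ

theorem locS_all : S_loc := t_loc t_pts t_sep t_can

theorem locKS_all : S_locKS := t_locKS t_comp4 locS_all t_hnf t_spinv t_sol t_nz

theorem locKU_all : S_locKU := t_locKU t_comp4 t_sol t_nz (t_locUp t_balls t_conv)

theorem hypU_all : HypU where
  locKS := locKS_all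
  locIS := t_locIS locKS_all
  tupS := t_tupS t_adj locKS_all
  stab := t_stab t_sol
  spP := t_spP t_spinv
  spI := t_spI t_spinv
  dis := t_dis
  phi := t_phi t_star
  disc4 := t_disc4
  euler := t_euler

theorem hypL_all : HypL where
  one := t_one locKU_all (t_locIU locKU_all) t_uniqK t_glob (t_spP t_spinv) (t_spI t_spinv)
  els := t_els t_lang t_node t_hens
  joint := t_joint
  dsq := t_dsq
  large := t_large
  avr := t_avr t_rt
  euler2 := t_euler2

/-- **the average of the orders of the 2-Selmer sets is `3`** -/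
theorem sel_avg_all {F : Type} [Field F] [Fintype F] (h2 : (2 : F) ≠ 0) (ε : ℝ) (hε : 0 < ε) :
    ∀ᶠ d in atTop, |∑ κ ∈ CL F d, (selC κ : ℝ) - 3 * (CL F d).card| ≤ ε * (CL F d).card :=
  sel_avg hypU_all hypL_all (t_clsG t_badc) t_selinv h2 ε hε

end Pool.Agent.H456.BQ
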