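import Pool.Agent.H456.BQ.Stm4
import Pool.Agent.H456.BQ.Asm4

/-!
# The 2-Selmer set: definitions
-/

set_option autoImplicit false
set_option linter.all false

open Polynomial Finset
open Pool.Agent.H456.EC (toK toK_inj sig toK_eq reflect_toK)
open Pool.Agent.H456.RN

namespace Pool.Agent.H456.BQ

section field

variable {K : Type*} [Field K]

theorem Q4.ev_sub' (g : Q4 K) (M : M2 K) (u v : K) :
    (g.sub M).ev u v = g.ev (M.α * u + M.β * v) (M.γ * u + M.δ * v) := by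
  simp only [Q4.ev, Q4.sub]; ring

theorem Q4.ev_hom (g : Q4 K) (k u v : K) : g.ev (k * u) (k * v) = k ^ 4 * g.ev u v := by
  simp only [Q4.ev]; ring

/-- solubility is preserved by the substitutions and by the multiplication by squares -/
theorem Q4.Sol.of_sub {g g' : Q4 K} {M : M2 K} {c : K} (hM : M.det ≠ 0) (hc : c ≠ 0)
    (h : g.sub M = g'.smul (c ^ 2)) (hg : g.Sol) : g'.Sol := by
  obtain ⟨u, v, z, huv, hz⟩ := hg
  refine ⟨M.δ * u - M.β * v, -M.γ * u + M.α * v, M.det ^ 2 * z / c, ?_, ?_⟩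
  · rintro ⟨a, b⟩
    apply huv
    have e1 : M.det * u = 0 := by simp only [M2.det]; linear_combination M.α * a + M.β * b
    have e2 : M.det * v = 0 := by simp only [M2.det]; linear_combination M.γ * a + M.δ * b
    exact ⟨(mul_eq_zero.1 e1).resolve_left hM, (mul_eq_zero.1 e2).resolve_left hM⟩
  · have h1 : (g.sub M).ev (M.δ * u - M.β * v) (-M.γ * u + M.α * v) = M.det ^ 4 * z ^ 2 := by
      rw [Q4.ev_sub']
      have e1 : M.α * (M.δ * u - M.β * v) + M.β * (-M.γ * u + M.α * v) = M.det * u := by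
        simp only [M2.det]; ring
      have e2 : M.γ * (M.δ * u - M.β * v) + M.δ * (-M.γ * u + M.α * v) = M.det * v := by
        simp only [M2.det]; ring
      rw [e1, e2, Q4.ev_hom, hz]
    have h2 : (g.sub M).ev (M.δ * u - M.β * v) (-M.γ * u + M.α * v) =
        c ^ 2 * g'.ev (M.δ * u - M.β * v) (-M.γ * u + M.α * v) := by
      rw [h]
      simp only [Q4.ev, Q4.smul]; ring
    rw [h2] at h1
    rw [div_pow, div_eq_iff (pow_ne_zero 2 hc)]
    linear_combination -h1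

theorem Q4.NR.of_sub {g g' : Q4 K} {M : M2 K} {c : K} (hM : M.det ≠ 0) (hc : c ≠ 0)
    (h : g.sub M = g'.smul (c ^ 2)) (hg : g.NR) : g'.NR := by
  intro u v huv h0
  apply hg (M.α * u + M.β * v) (M.γ * u + M.δ * v)
  · rintro ⟨a, b⟩
    apply huv
    have e1 : M.det * u = 0 := by simp only [M2.det]; linear_combination M.δ * a - M.β * b
    have e2 : M.det * v = 0 := by simp only [M2.det]; linear_combination M.α * b - M.γ * a
    exact ⟨(mul_eq_zero.1 e1).resolve_left hM, (mul_eq_zero.1 e2).resolve_left hM⟩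
  · rw [← Q4.ev_sub', h]
    have : (g'.smul (c ^ 2)).ev u v = c ^ 2 * g'.ev u v := by simp only [Q4.ev, Q4.smul]; ring
    rw [this, h0, mul_zero]

/-- the pair of the zero class -/
def zp (f : Cub K) : Q4 K × K := (⟨0, 4, 4 * f.a, 4 * f.b, 4 * f.c⟩, 0)

theorem zp_res (f : Cub K) : (zp f).1.res = (f.sc 4).tr (zp f).2 := by
  ext <;> simp only [zp, Q4.res, Cub.sc, Cub.tr] <;> ring

theorem zp_sol (f : Cub K) : (zp f).1.Sol := by
  refine ⟨1, 0, 0, ?_, ?_⟩
  · rintro ⟨h, -⟩; exact one_ne_zero h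
  · simp only [zp, Q4.ev]; ring

theorem M2.adj_ne {M : M2 K} (h : M.det ≠ 0) : M.adj.det ≠ 0 := by rw [M2.det_adj]; exact h

/-- a pair with a root is equivalent to the pair of the zero class -/
theorem PE.of_root (h2 : (2 : K) ≠ 0) {f : Cub K} (hf : f.disc ≠ 0) {s : Q4 K × K} (hs : s.1.res = (f.sc 4).tr s.2)
    {u v : K} (huv : ¬ (u = 0 ∧ v = 0)) (h : s.1.ev u v = 0) : ∃ M, PE M s (zp f) := by
  have h4 : (4 : K) ≠ 0 := by
    have : (4 : K) = 2 ^ 2 := by norm_num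
    rw [this]; exact pow_ne_zero _ h2
  -- move the root to `(1, 0)`
  obtain ⟨M₁, hM₁, e1, e2⟩ : ∃ M₁ : M2 K, M₁.det = 1 ∧ M₁.α = u ∧ M₁.γ = v := by
    by_cases hu : u = 0
    · have hv : v ≠ 0 := fun hv => huv ⟨hu, hv⟩
      refine ⟨⟨u, -v⁻¹, v, 0⟩, ?_, rfl, rfl⟩
      simp only [M2.det]; field_simp; ring
    · refine ⟨⟨u, 0, v, u⁻¹⟩, ?_, rfl, rfl⟩
      simp only [M2.det]; field_simp; ring
  set s₁ : Q4 K × K := (s.1.sub M₁, s.2 + s.1.tau M₁) with hs₁
  have p1 : PE M₁ s s₁ := by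
    refine ⟨by rw [hM₁]; exact one_ne_zero, ?_, ?_⟩
    · rw [hM₁, one_pow, Q4.smul_one]
    · rw [hM₁]; ring
  have hA : s₁.1.A = 0 := by
    have : (s.1.sub M₁).A = s.1.ev M₁.α M₁.γ := by simp only [Q4.sub, Q4.ev]; ring
    rw [hs₁]; simp only; rw [this, e1, e2, h]
  have r1 := p1.res hs
  have hB : s₁.1.B ≠ 0 := by
    intro h0
    apply hf
    have h3 : s₁.1.res.disc = 0 := by
      simp only [Q4.res, Cub.disc, hA, h0]; ring
    rw [r1, Cub.disc_tr, Cub.disc_sc] at h3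
    exact (mul_eq_zero.1 h3).resolve_left (pow_ne_zero _ h4)
  -- make `B = 4`
  set b := s₁.1.B with hb
  set s₂ : Q4 K × K := (⟨0, 4, s₁.1.C, s₁.1.D * b / 4, s₁.1.E * (b / 4) ^ 2⟩, s₁.2) with hs₂
  have p2 : PE ⟨4 / b, 0, 0, 1⟩ s₁ s₂ := by
    have hd : (⟨4 / b, 0, 0, 1⟩ : M2 K).det = 4 / b := by simp only [M2.det]; ring
    refine ⟨by rw [hd]; exact div_ne_zero h4 hB, ?_, ?_⟩
    · rw [hd, hs₂]
      ext <;> simp only [Q4.sub, Q4.smul, hA, ← hb] <;> field_simp <;> ring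
    · simp only [Q4.tau, hs₂]; ring
  have r2 := p2.res r1
  -- make `ρ = 0`
  set β := -(s₂.2 / 4) with hβ
  set s₃ : Q4 K × K := (s₂.1.sub ⟨1, β, 0, 1⟩, s₂.2 + s₂.1.tau ⟨1, β, 0, 1⟩) with hs₃
  have p3 : PE ⟨1, β, 0, 1⟩ s₂ s₃ := by
    have hd : (⟨1, β, 0, 1⟩ : M2 K).det = 1 := by simp only [M2.det]; ring
    refine ⟨by rw [hd]; exact one_ne_zero, ?_, ?_⟩
    · rw [hd, one_pow, Q4.smul_one]
    · rw [hd]; ring
  have r3 := p3.res r2
  have k2 : s₃.2 = 0 := by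
    rw [hs₃]
    simp only [Q4.tau, hs₂, hβ]
    field_simp
    ring
  have kA : s₃.1.A = 0 := by rw [hs₃]; simp only [Q4.sub, hs₂]; ring
  have kB : s₃.1.B = 4 := by rw [hs₃]; simp only [Q4.sub, hs₂]; ring
  rw [k2, Cub.tr_zero] at r3
  have ra := congrArg Cub.a r3
  have rb := congrArg Cub.b r3
  have rc := congrArg Cub.c r3
  simp only [Q4.res, Cub.sc, kA, kB] at ra rb rc
  have hz : s₃ = zp f := by
    apply Prod.ext
    · ext
      · exact kA
      · exact kB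
      · simp only [zp]; exact ra
      · simp only [zp]
        apply mul_left_cancel₀ h4
        linear_combination rb
      · simp only [zp]
        apply mul_left_cancel₀ (pow_ne_zero 2 h4)
        linear_combination rc
    · exact k2
  rw [← hz]
  exact ⟨_, (p1.trans p2).trans p3⟩

theorem zp_root (f : Cub K) : ¬ (zp f).1.NR := by
  intro h
  exact h 1 0 (fun h => one_ne_zero h.1) (by simp only [zp, Q4.ev]; ring)

theorem PE.NR {M : M2 K} {s s' : Q4 K × K} (h : PE M s s') (hs : s.1.NR) : s'.1.NR := hs.of_sub h.det h.det h.sub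

theorem PE.Sol {M : M2 K} {s s' : Q4 K × K} (h : PE M s s') (hs : s.1.Sol) : s'.1.Sol := hs.of_sub h.det h.det h.sub

end field

section field0

variable {K : Type} [Field K]

/-- two substitutions relating the same pairs -/
theorem PE.uniq (hst : S_stab) [Infinite K] (h2 : (2 : K) ≠ 0) {f : Cub K} (hf : f.disc ≠ 0) (hn : ∀ r : K, f.ev r ≠ 0)
    {s s' : Q4 K × K} (hs : s.1.res = (f.sc 4).tr s.2) {M M' : M2 K} (h : PE M s s') (h' : PE M' s s') :
    ∃ k : K, k ≠ 0 ∧ M = M'.scal k := by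
  obtain ⟨k, hk, e⟩ := hst K h2 f hf hn s hs _ (h.trans h'.symm)
  refine ⟨k / M'.det, div_ne_zero hk h'.det, ?_⟩
  have e4 : (M.mul M'.adj).mul M' = M.scal M'.det := by
    rw [M2.mul_assoc, M2.adj_mul]
    ext <;> simp only [M2.mul, M2.scal] <;> ring
  rw [e] at e4
  have hd := h'.det
  have k1 := congrArg M2.α e4
  have k2 := congrArg M2.β e4
  have k3 := congrArg M2.γ e4
  have k4 := congrArg M2.δ e4
  simp only [M2.mul, M2.scal, zero_mul, add_zero, zero_add] at k1 k2 k3 k4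
  ext <;> simp only [M2.scal]
  · field_simp; linear_combination -k1
  · field_simp; linear_combination -k2
  · field_simp; linear_combination -k3
  · field_simp; linear_combination -k4

end field0

section global

variable {F : Type} [Field F]

theorem LS.of_sub {P : Pl F} {g g' : Q4 (RatFunc F)} {M : M2 (RatFunc F)} {c : RatFunc F} (hM : M.det ≠ 0) (hc : c ≠ 0)
    (h : g.sub M = g'.smul (c ^ 2)) (hg : LS P g) : LS P g' := by
  intro O L _ _ _ _ _ π ι hL j hj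
  have h1 := hg O L π ι hL j hj
  refine h1.of_sub (M := M.map j) (c := j c) ?_ ?_ ?_
  · rw [M2.map_det]; exact (map_ne_zero_iff _ j.injective).2 hM
  · exact (map_ne_zero_iff _ j.injective).2 hc
  · rw [← Q4.map_sub, h, Q4.map_smul, map_pow]

theorem LSI.of_sub {g g' : Q4 (RatFunc F)} {M : M2 (RatFunc F)} {c : RatFunc F} (hM : M.det ≠ 0) (hc : c ≠ 0)
    (h : g.sub M = g'.smul (c ^ 2)) (hg : LSI g) : LSI g' := by
  unfold LSI at hg ⊢
  refine hg.of_sub (M := M.map (locI_tau F)) (c := locI_tau F c) ?_ ?_ ?_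
  · rw [M2.map_det]; exact (map_ne_zero_iff _ (locI_tau F).injective).2 hM
  · exact (map_ne_zero_iff _ (locI_tau F).injective).2 hc
  · rw [← Q4.map_sub, h, Q4.map_smul, map_pow]

theorem IsSel.pe {f : Cub (RatFunc F)} {s s' : Q4 (RatFunc F) × RatFunc F} (h : IsSel f s) {M : M2 (RatFunc F)}
    (hM : PE M s s') : IsSel f s' where
  res := hM.res h.res
  fin P := (h.fin P).of_sub hM.det hM.det hM.sub
  inf := h.inf.of_sub hM.det hM.det hM.sub

theorem LS.of_root {P : Pl F} {g : Q4 (RatFunc F)} {u v : RatFunc F} (huv : ¬ (u = 0 ∧ v = 0)) (h : g.ev u v = 0) :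
    LS P g := by
  intro O L _ _ _ _ _ π ι hL j hj
  refine ⟨j u, j v, 0, ?_, ?_⟩
  · rintro ⟨a, b⟩
    exact huv ⟨(map_eq_zero_iff _ j.injective).1 a, (map_eq_zero_iff _ j.injective).1 b⟩
  · rw [Q4.map_ev, h, map_zero]; ring

theorem IsSel.zp (f : Cub (RatFunc F)) : IsSel f (zp f) where
  res := zp_res f
  fin P := LS.of_root (u := 1) (v := 0) (fun h => one_ne_zero h.1) (by simp only [BQ.zp, Q4.ev]; ring)
  inf := by
    unfold LSI
    refine LS.of_root (u := 1) (v := 0) (fun h => one_ne_zero h.1) ?_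
    simp only [BQ.zp, Q4.map, Q4.ev, map_zero]; ring

/-- equivalence of the pairs -/
def selSetoid (f : Cub (RatFunc F)) : Setoid {s : Q4 (RatFunc F) × RatFunc F // IsSel f s} where
  r s s' := ∃ M, PE M s.1 s'.1
  iseqv := ⟨fun s => ⟨_, PE.refl s.1⟩, fun ⟨M, h⟩ => ⟨_, h.symm⟩, fun ⟨M, h⟩ ⟨N, h'⟩ => ⟨_, h.trans h'⟩⟩

/-- the 2-Selmer set of `y² = f(x)` -/
def Sel (f : Cub (RatFunc F)) : Type := Quotient (selSetoid f)

/-- the class of a pair -/
def selMk (f : Cub (RatFunc F)) (s : Q4 (RatFunc F) × RatFunc F) (h : IsSel f s) : Sel f :=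
  Quotient.mk (selSetoid f) ⟨s, h⟩

noncomputable instance (f : Cub (RatFunc F)) : Zero (Sel f) := ⟨selMk f (zp f) (IsSel.zp f)⟩

theorem selMk_eq {f : Cub (RatFunc F)} {s s' : Q4 (RatFunc F) × RatFunc F} {h : IsSel f s} {h' : IsSel f s'} :
    selMk f s h = selMk f s' h' ↔ ∃ M, PE M s s' := by
  exact Quotient.eq (r := selSetoid f)

theorem sel_ind {f : Cub (RatFunc F)} (σ : Sel f) : ∃ (s : Q4 (RatFunc F) × RatFunc F) (h : IsSel f s), σ = selMk f s h := by
  obtain ⟨⟨s, h⟩, rfl⟩ := Quotient.exists_rep σ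
  exact ⟨s, h, rfl⟩

theorem selMk_ne {f : Cub (RatFunc F)} (h2 : (2 : F) ≠ 0) (hf : f.disc ≠ 0) {s : Q4 (RatFunc F) × RatFunc F}
    {h : IsSel f s} : selMk f s h ≠ 0 ↔ s.1.NR := by
  constructor
  · intro h0 u v huv he
    apply h0
    obtain ⟨M, hM⟩ := PE.of_root (two_ne h2) hf h.res huv he
    exact selMk_eq.2 ⟨M, hM⟩
  · intro hn h0
    obtain ⟨M, hM⟩ := selMk_eq.1 h0
    exact zp_root f (hM.NR hn)

/-- the pair over `F(t)` of a pair over `F[t]` -/
noncomputable def pr (p : Q4 F[X] × F[X]) : Q4 (RatFunc F) × RatFunc F := (p.1.map (toK F), toK F p.2)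

/-- the pairs over `F[t]` which represent the class `σ` -/
def ClS (f : Cub F[X]) (σ : Sel (f.map (toK F))) : Set (Q4 F[X] × F[X]) :=
  {p | ∃ h : IsSel (f.map (toK F)) (pr p), selMk (f.map (toK F)) (pr p) h = σ}

theorem pr_res {f : Cub F[X]} {p : Q4 F[X] × F[X]} (h : (pr p).1.res = ((f.map (toK F)).sc 4).tr (pr p).2) :
    p.1.res = (f.sc 4).tr p.2 := by
  unfold pr at h
  rw [Q4.map_res] at h
  apply Cub.map_inj (toK F) toK_inj
  rw [h, Cub.map_tr, Cub.map_sc, map_ofNat]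

theorem ClS_res {f : Cub F[X]} {σ : Sel (f.map (toK F))} {p : Q4 F[X] × F[X]} (h : p ∈ ClS f σ) :
    p.1.res = (f.sc 4).tr p.2 := by
  obtain ⟨h, -⟩ := h
  exact pr_res h.res

theorem ClS_cub (h2 : (2 : F) ≠ 0) {f f' : Cub F[X]} {σ : Sel (f.map (toK F))} {σ' : Sel (f'.map (toK F))}
    {p : Q4 F[X] × F[X]} (h : p ∈ ClS f σ) (h' : p ∈ ClS f' σ') : f = f' := by
  have h1 := ClS_res h
  have h1' := ClS_res h'
  rw [h1] at h1'
  have h3 := congrArg (Cub.tr (-p.2)) h1'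
  rw [Cub.tr_tr, Cub.tr_tr, add_neg_cancel, Cub.tr_zero, Cub.tr_zero] at h3
  exact Cub.sc_inj (four_ne h2) h3

theorem ClS_inj {f : Cub F[X]} {σ σ' : Sel (f.map (toK F))} {p : Q4 F[X] × F[X]} (h : p ∈ ClS f σ)
    (h' : p ∈ ClS f σ') : σ = σ' := by
  obtain ⟨h, rfl⟩ := h
  obtain ⟨h', rfl⟩ := h'
  rfl

/-- the action on the pairs -/
theorem pe_act (p : Q4 F[X] × F[X]) {A : M2 F[X]} {d : F} (hd : d ≠ 0) (hA : A.det = C d) :
    PE (A.map (toK F)) (pr p) (pr (act p A d)) := by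
  have h0 : toK F (C d) ≠ 0 := (map_ne_zero_iff _ toK_inj).2 (C_ne_zero.2 hd)
  have h1 : toK F (C d⁻¹) * toK F (C d) = 1 := by
    rw [← map_mul, ← C_mul, inv_mul_cancel₀ hd, C_1, map_one]
  refine ⟨?_, ?_, ?_⟩
  · rw [M2.map_det, hA]; exact h0
  · simp only [pr, act]
    rw [M2.map_det, hA, Q4.map_smul, Q4.map_sub, Q4.smul_smul, map_pow, ← mul_pow, h1, one_pow, Q4.smul_one]
  · simp only [pr, act]
    rw [M2.map_det, hA, map_add, map_mul, map_pow, Q4.map_tau]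
    linear_combination (-toK F (p.1.tau A) * (toK F (C d⁻¹) * toK F (C d) + 1)) * h1

theorem ClS_pe {f : Cub F[X]} {σ : Sel (f.map (toK F))} {p q : Q4 F[X] × F[X]} (h : p ∈ ClS f σ) {M : M2 (RatFunc F)}
    (hM : PE M (pr p) (pr q)) : q ∈ ClS f σ := by
  obtain ⟨h, rfl⟩ := h
  exact ⟨h.pe hM, (selMk_eq.2 ⟨M, hM⟩).symm⟩

theorem ClS_act {f : Cub F[X]} {σ : Sel (f.map (toK F))} {p : Q4 F[X] × F[X]} (h : p ∈ ClS f σ) {A : M2 F[X]} {d : F}
    (hd : d ≠ 0) (hA : A.det = C d) : act p A d ∈ ClS f σ := ClS_pe h (pe_act p hd hA)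

instance : Infinite (RatFunc F) := Infinite.of_injective (toK F) toK_inj

theorem act_injS (hst : S_stab) (h2 : (2 : F) ≠ 0) {f : Cub F[X]} (hf : f.disc ≠ 0) (hn : NoTwo f)
    {σ : Sel (f.map (toK F))} {p : Q4 F[X] × F[X]} (h : p ∈ ClS f σ) {A A' : M2 F[X]} {d d' : F} (hd : d ≠ 0)
    (hd' : d' ≠ 0) (hA : A.det = C d) (hA' : A'.det = C d') (he : act p A d = act p A' d') :
    ∃ k : RatFunc F, k ≠ 0 ∧ A.map (toK F) = (A'.map (toK F)).scal k := by
  obtain ⟨h, -⟩ := h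
  have h1 := pe_act p hd hA
  have h3 := pe_act p hd' hA'
  rw [← he] at h3
  exact PE.uniq hst (two_ne h2) (disc_ne hf) hn h.res h1 h3

end global

section fin

variable {F : Type} [Field F] [Fintype F]

/-- the pairs in the box which represent the class -/
noncomputable def PnS (n e : ℕ) (f : Cub F[X]) (σ : Sel (f.map (toK F))) : Finset (Q4 F[X] × F[X]) := by
  classical exact (Vb F n e ×ˢ PL F (2 * n + 1)).filter (fun p => p ∈ ClS f σ)

theorem mem_PnS {n e : ℕ} {f : Cub F[X]} {σ : Sel (f.map (toK F))} {p : Q4 F[X] × F[X]} :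
    p ∈ PnS n e f σ ↔ (BdN n e p.1 ∧ p.2.natDegree ≤ 2 * n) ∧ p ∈ ClS f σ := by
  classical
  unfold PnS
  rw [mem_filter, mem_product, mem_Vb, mem_PL_iff]

end fin

end Pool.Agent.H456.BQ
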