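import Pool.Agent.H456.BQ.SLow5
import Pool.Agent.H456.BQ.Out

/-!
# The average of the 2-Selmer sets over all isomorphism classes
-/

set_option autoImplicit false
set_option linter.all false

open Polynomial Finset Filter
open Pool.Agent.H456.EC
open Pool.Agent.H456.RN

namespace Pool.Agent.H456.BQ

variable {F : Type} [Field F] [Fintype F]

/-- the order of the 2-Selmer set, as a function on the isomorphism classes -/
noncomputable def selC (κ : KC F) : ℕ := Nat.card (Sel (cubE κ.out))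

theorem cubE_crv (h2 : (2 : F) ≠ 0) (f : Cub F[X]) : cubE ((crv f).map (toK F)) = f.map (toK F) := by
  have h2' : (2 : RatFunc F) ≠ 0 := two_ne h2
  have h4' : (4 : RatFunc F) ≠ 0 := by
    have : (4 : RatFunc F) = 2 ^ 2 := by norm_num
    rw [this]
    exact pow_ne_zero 2 h2'
  rw [crv_map]
  unfold cubE
  ext
  · simp only [crv, WeierstrassCurve.b₂]
    field_simp
    ring
  · simp only [crv, WeierstrassCurve.b₄]
    field_simp
    ring
  · simp only [crv, WeierstrassCurve.b₆]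
    field_simp
    ring

theorem selC_crv (hi : S_selinv) (h2 : (2 : F) ≠ 0) (f : Cub F[X]) :
    selC (cls (crv f)) = Nat.card (Sel (f.map (toK F))) := by
  obtain ⟨C, hC⟩ := out_cls (W := crv f)
  unfold selC
  rw [← hC, hi F h2, cubE_crv h2]


/-- every class of height at most `q^d` is the class of a curve `y² = f(x)` -/
theorem CL_crv (h2 : (2 : F) ≠ 0) {d : ℕ} {κ : KC F} (hκ : κ ∈ CL F d) : ∃ f : Cub F[X], f.disc ≠ 0 ∧ κ = cls (crv f) := by
  have h1 : κ ∈ (CL F d : Set (KC F)) := hκ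
  rw [coe_CL] at h1
  obtain ⟨W, hW, rfl⟩ := h1
  obtain ⟨f, s, t, hd, hs, ht, rfl⟩ := lng_surj h2 hW
  refine ⟨f, ?_, cls_tr⟩
  intro h0
  apply hW.1
  have e1 : (lng (f, s, t)).Δ = (crv f).Δ := tr_Δ _ _ _ _
  rw [e1, crv_Δ, h0, mul_zero]

theorem selC_ge (U : HypU) (hi : S_selinv) (h2 : (2 : F) ≠ 0) {d : ℕ} {κ : KC F} (hκ : κ ∈ CL F d) :
    (1 : ℝ) ≤ selC κ := by
  obtain ⟨f, hf, rfl⟩ := CL_crv h2 hκ
  rw [selC_crv hi h2]
  have := card_Sel_ge U h2 hf
  linarith

/-- **the average of the orders of the 2-Selmer sets is `3`** -/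
theorem sel_avg (U : HypU) (L : HypL) (hc : S_clsG) (hi : S_selinv) (h2 : (2 : F) ≠ 0) (ε : ℝ) (hε : 0 < ε) :
    ∀ᶠ d in atTop, |∑ κ ∈ CL F d, (selC κ : ℝ) - 3 * (CL F d).card| ≤ ε * (CL F d).card := by
  classical
  have hw : ∀ f : Cub F[X], f.disc ≠ 0 → |(selC (cls (crv f)) : ℝ) - 1| = (Nat.card (Sel (f.map (toK F))) : ℝ) - 1 := by
    intro f hf
    rw [selC_crv hi h2]
    exact abs_of_nonneg (card_Sel_ge U h2 hf)
  have hd : ∀ n, ∀ f ∈ Msh F n, f.disc ≠ 0 := fun n f hf => (mem_Msh.1 hf).2.1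
  have hmain := hc F h2 (fun κ => |(selC κ : ℝ) - 1|) (fun κ => abs_nonneg _) 2 (by norm_num) ?_ ?_ (H3 h2) ε hε
  · filter_upwards [hmain] with d h1
    have h3 : ∑ κ ∈ CL F d, |(selC κ : ℝ) - 1| = ∑ κ ∈ CL F d, (selC κ : ℝ) - (CL F d).card := by
      rw [sum_congr rfl (fun κ hκ => abs_of_nonneg (sub_nonneg.2 (selC_ge U hi h2 hκ))), sum_sub_distrib, sum_const,
        nsmul_eq_mul, mul_one]
    rw [h3] at h1
    have h4 : ∑ κ ∈ CL F d, (selC κ : ℝ) - (CL F d).card - 2 * (CL F d).card =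
      ∑ κ ∈ CL F d, (selC κ : ℝ) - 3 * (CL F d).card := by ring
    rwa [h4] at h1
  · intro ε hε
    filter_upwards [H1S U h2 ε hε, H1L U L h2 ε hε] with n h1 h3
    have h5 : ∑ f ∈ (Msh F n).filter (fun f => ¬ BadC f), |(selC (cls (crv f)) : ℝ) - 1| =
        ∑ f ∈ (Msh F n).filter (fun f => ¬ BadC f), ((Nat.card (Sel (f.map (toK F))) : ℝ) - 1) :=
      sum_congr rfl fun f hf => hw f (hd n f (mem_filter.1 hf).1)
    have h6 := h1 ((Msh F n).filter (fun f => ¬ BadC f)) (fun f => mem_filter)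
    have h7 := h3 ((Msh F n).filter (fun f => ¬ BadC f)) (fun f => mem_filter)
    rw [h5, abs_le]
    constructor <;> linarith
  · intro ε hε
    have h1 := (bad_limS U h2 (F := F)).eventually (gt_mem_nhds hε)
    filter_upwards [h1] with n h3
    have hq2 : 2 ≤ (Fintype.card F : ℝ) := q_ge
    have hq0 : (0 : ℝ) < Fintype.card F := by linarith
    rw [div_lt_iff₀ (by positivity)] at h3
    refine le_trans ?_ h3.le
    rw [sum_congr rfl fun f hf => hw f (hd n f (mem_filter.1 hf).1)]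
    apply sum_le_sum_of_subset_of_nonneg
    · intro f hf
      rw [mem_filter, mem_Msh] at hf
      rw [mem_filter, mem_Sb]
      exact ⟨hf.1.1, hf.1.2.1, hf.2⟩
    · intro f hf _
      exact card_Sel_ge U h2 (mem_filter.1 hf).2.1

end Pool.Agent.H456.BQ
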