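import Pool.Agent.H456.BQ.SDef

/-!
# The 2-Selmer set: representatives in the boxes, and gluing
-/

set_option autoImplicit false
set_option linter.all false

open Polynomial Finset
open Pool.Agent.H456.EC (toK toK_inj sig toK_eq reflect_toK)
open Pool.Agent.H456.RN

namespace Pool.Agent.H456.BQ

variable {F : Type} [Field F] [Fintype F]

/-- the statements used for the upper bound -/
structure HypU : Prop where
  locKS : S_locKS
  locIS : S_locIS
  tupS : S_tupS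
  stab : S_stab
  spP : S_spP
  spI : S_spI
  dis : S_dis
  phi : S_phi
  disc4 : S_disc4
  euler : S_euler

/-- the data for one tuple of local lattices -/
theorem tuple_dataS (ht : S_tupS) (h2 : (2 : F) ≠ 0) {n : ℕ} {f : Cub F[X]} (hf : f.disc ≠ 0) (hd : CDg n f)
    {s : Q4 (RatFunc F) × RatFunc F} (hs : IsSel (f.map (toK F)) s) (hn : s.1.NR)
    (S : Finset (Pl F)) (Λ : Pl F → M2 (RatFunc F)) (g : Pl F → Q4 (RatFunc F))
    (H : Pl F → Q4 F[X]) (hS : ∀ P ∈ S, (Λ P).det ≠ 0 ∧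
      s.1.sub (Λ P) = (g P).smul ((Λ P).det ^ 2) ∧ RedTo P (g P) (H P))
    {Ni : M2 (RatFunc F)} {gi : Q4 (RatFunc F)} {Hi : Q4 F[X]} (hNi : Ni.det ≠ 0)
    (hi : s.1.sub Ni = gi.smul (tt F (2 * n) * Ni.det ^ 2)) (hr : RedI gi Hi) :
    ∃ (e : ℕ) (M : M2 (RatFunc F)) (p : Q4 F[X] × F[X]), e ≤ n ∧
      PE M s (pr p) ∧ BdN n e p.1 ∧ p.2.natDegree ≤ 2 * n ∧ p.1.A ≠ 0 ∧
      (∀ P ∈ S, LEq (LocP P) M (Λ P)) ∧ LEq (Oi F) (M.mul ⟨1, 0, 0, tt F (-(e : ℤ))⟩) Ni := by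
  obtain ⟨e, M, G, hM, hMG, hB, hL, hLi⟩ := ht F h2 n f hf s hs.res hs.fin S Λ g H hS Ni gi Hi hNi hi hr
  have hA : G.A ≠ 0 := by
    intro h0
    have h1 := hn.of_sub hM hM hMG
    apply h1 1 0 (fun h => one_ne_zero h.1)
    simp only [Q4.map, Q4.ev, h0, map_zero]; ring
  have he : e ≤ n := by
    rcases hB.1 with h | h
    · exact absurd h hA
    · omega
  have hBN := BdN_of he hB
  set ρ : RatFunc F := s.2 + s.1.tau M / M.det ^ 2 with hρ
  have hd2 : M.det ^ 2 ≠ 0 := pow_ne_zero 2 hM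
  have hpe : PE M s (G.map (toK F), ρ) := by
    refine ⟨hM, hMG, ?_⟩
    rw [hρ]
    simp only [add_sub_cancel_left]
    rw [div_mul_cancel₀ _ hd2]
  obtain ⟨r', hr', hdr⟩ := rho_int hd (deg_res_c he hBN) (hpe.res hs.res)
  have r2 : PE M s (pr (G, r')) := by
    unfold pr
    simp only [hr']
    exact hpe
  exact ⟨e, M, (G, r'), he, r2, hBN, hdr, hA, hL, hLi⟩

/-- **existence of a representative** -/
theorem exists_ClS (hK : S_locIS) (ht : S_tupS) (h2 : (2 : F) ≠ 0) {n : ℕ} {f : Cub F[X]} (hf : f.disc ≠ 0)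
    (hd : CDg n f) {σ : Sel (f.map (toK F))} (hσ : σ ≠ 0) :
    ∃ e ≤ n, ∃ p ∈ ClS f σ, BdN n e p.1 ∧ p.2.natDegree ≤ 2 * n ∧ p.1.A ≠ 0 := by
  obtain ⟨s, hs, rfl⟩ := sel_ind σ
  have hn := (selMk_ne h2 (disc_ne hf)).1 hσ
  have hc0 : (crev n f).disc ≠ 0 := by
    intro h0
    have h1 := congrArg Cub.disc (crev_map hd)
    rw [Cub.map_disc, h0, map_zero, Cub.disc_sc, Cub.map_disc] at h1
    have h3 : tt F (-(n : ℤ)) ≠ 0 := tt_ne _
    have h4 := (mul_eq_zero.1 h1.symm).resolve_left (pow_ne_zero _ (pow_ne_zero _ h3))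
    exact hf ((map_eq_zero_iff _ toK_inj).1 h4)
  obtain ⟨k, hk⟩ : ∃ k : ℕ, ¬ (X : F[X]) ^ (k + 1) ∣ (crev n f).disc := by
    refine ⟨(crev n f).disc.natDegree, ?_⟩
    intro h
    have h1 := natDegree_le_of_dvd h hc0
    rw [natDegree_X_pow] at h1
    omega
  obtain ⟨mi, Ni, gi, Hi, i1, i2, i3, i4, i5⟩ := hK F h2 n (2 * k + 1) k le_rfl f (crev n f) (crev_map hd) hk s hs.res hs.inf
  have hpos : 0 < mi := by
    rcases Nat.eq_zero_or_pos mi with h0 | h0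
    · exfalso
      subst h0
      rw [univ_eq_empty, sum_empty] at i5
      have : (0 : ℝ) ≤ (((crev n f).map (Ideal.Quotient.mk (Ideal.span {(X : F[X]) ^ (2 * k + 1)}))).nA : ℝ) /
        (Fintype.card F : ℝ) ^ (2 * k + 1 - 1) := by positivity
      linarith
    · exact h0
  obtain ⟨e, M, p, he, hpe, hB, hdeg, hA, -, -⟩ := tuple_dataS ht h2 hf hd hs hn ∅ (fun _ => ⟨1, 0, 0, 1⟩)
    (fun _ => ⟨0, 0, 0, 0, 0⟩) (fun _ => ⟨0, 0, 0, 0, 0⟩) (fun P hP => absurd hP (notMem_empty _)) (i1 ⟨0, hpos⟩)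
    (i2 ⟨0, hpos⟩) (i3 ⟨0, hpos⟩)
  exact ⟨e, he, p, ⟨hs.pe hpe, (selMk_eq.2 ⟨M, hpe⟩).symm⟩, hB, hdeg, hA⟩

/-- **the orbits are free** if there are no points of order two -/
theorem le_card_PnS (hst : S_stab) (h2 : (2 : F) ≠ 0) {n e : ℕ} (he : e ≤ n) {f : Cub F[X]} (hf : f.disc ≠ 0)
    (hn : NoTwo f) {σ : Sel (f.map (toK F))} {p : Q4 F[X] × F[X]} (hp : p ∈ PnS n e f σ) :
    pa F e ≤ ((PnS n e f σ).card : ℝ) := by
  classical
  rw [← card_Tn, Nat.cast_le]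
  obtain ⟨⟨h1, h3⟩, h4⟩ := mem_PnS.1 hp
  apply card_le_card_of_injOn (fun t => act p t.1 t.2)
  · intro t ht
    have ht' : t ∈ Tn F e := ht
    exact mem_PnS.2 ⟨act_bd he h1 h3 ht', ClS_act h4 (Tn_det ht').1 (Tn_det ht').2⟩
  · intro t ht t' ht' htt
    have ht1 : t ∈ Tn F e := ht
    have ht1' : t' ∈ Tn F e := ht'
    obtain ⟨k, hk, hkk⟩ := act_injS hst h2 hf hn h4 (Tn_det ht1).1 (Tn_det ht1').1 (Tn_det ht1).2 (Tn_det ht1').2 htt
    exact Tn_eq ht1 ht1' hk hkk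

/-- in general, the orbits have at least `1 / q³` of the expected size -/
theorem le_card_PnS' (h2 : (2 : F) ≠ 0) {n e : ℕ} (he : e ≤ n) {f : Cub F[X]} (hf : f.disc ≠ 0)
    {σ : Sel (f.map (toK F))} {p : Q4 F[X] × F[X]} (hp : p ∈ PnS n e f σ) (hA : p.1.A ≠ 0) :
    pa F e ≤ (Fintype.card F : ℝ) ^ 3 * ((PnS n e f σ).card : ℝ) := by
  classical
  have hq : 2 ≤ (Fintype.card F : ℝ) := by
    have : 1 < Fintype.card F := Fintype.one_lt_card
    exact_mod_cast this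
  have hpos : 1 ≤ ((PnS n e f σ).card : ℝ) := by
    have : 0 < (PnS n e f σ).card := card_pos.2 ⟨p, hp⟩
    exact_mod_cast this
  obtain ⟨⟨h1, h3⟩, h4⟩ := mem_PnS.1 hp
  by_cases he0 : e = 0
  · have : pa F e ≤ (Fintype.card F : ℝ) ^ 3 := by
      unfold pa
      rw [if_pos he0]
      nlinarith
    calc pa F e ≤ (Fintype.card F : ℝ) ^ 3 := this
      _ = (Fintype.card F : ℝ) ^ 3 * 1 := by ring
      _ ≤ _ := by gcongr
  · -- the translations act freely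
    have h5 : (Fintype.card F) ^ (e + 1) ≤ (PnS n e f σ).card := by
      rw [← card_PL (F := F)]
      have m1 : ∀ t ∈ Tn F e, act p t.1 t.2 ∈ PnS n e f σ := fun t ht =>
        mem_PnS.2 ⟨act_bd he h1 h3 ht, ClS_act h4 (Tn_det ht).1 (Tn_det ht).2⟩
      have hB : ∀ β ∈ PL F (e + 1), ((⟨C 1, β, 0, 1⟩ : M2 F[X]), (1 : F)) ∈ Tn F e := fun β hβ => upper_mem_Tn hβ
      apply card_le_card_of_injOn (fun β => act p ⟨C 1, β, 0, 1⟩ 1)
      · intro β hβ
        have m2 := m1 _ (hB β hβ)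
        exact m2
      · intro β _ β' _ hbb
        have h6 : (act p ⟨C 1, β, 0, 1⟩ 1).1.B = (act p ⟨C 1, β', 0, 1⟩ 1).1.B := by
          have hbb' : act p ⟨C 1, β, 0, 1⟩ 1 = act p ⟨C 1, β', 0, 1⟩ 1 := hbb
          rw [hbb']
        rw [act_upper_B, act_upper_B] at h6
        have h7 : (4 * p.1.A) * (β - β') = 0 := by linear_combination h6
        rcases mul_eq_zero.1 h7 with h8 | h8
        · exact absurd h8 (mul_ne_zero (four_ne h2) hA)
        · exact sub_eq_zero.1 h8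
    have h6 : (Fintype.card F : ℝ) ^ (e + 1) ≤ ((PnS n e f σ).card : ℝ) := by exact_mod_cast h5
    unfold pa
    rw [if_neg he0]
    have h7a : (Fintype.card F : ℝ) ^ 1 ≤ (Fintype.card F : ℝ) ^ 3 := pow_le_pow_right₀ (by linarith) (by norm_num)
    have h7 : (Fintype.card F : ℝ) - 1 ≤ (Fintype.card F : ℝ) ^ 3 := by rw [pow_one] at h7a; linarith
    exact mul_le_mul h7 h6 (by positivity) (by positivity)

theorem countS (h2 : (2 : F) ≠ 0) {n : ℕ} (S : Finset (Cub F[X]))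
    (Ψ : ℕ → Q4 F[X] → ℝ) (hΨ : ∀ e G, 0 ≤ Ψ e G)
    (hc : ∀ f ∈ S, ∀ (σ : Sel (f.map (toK F))), σ ≠ 0 →
      1 ≤ ∑ e ∈ range (n + 1), ∑ p ∈ PnS n e f σ, Ψ e p.1) :
    (∀ f ∈ S, Finite (Sel (f.map (toK F)))) ∧ ∑ f ∈ S, ((Nat.card (Sel (f.map (toK F))) : ℝ) - 1) ≤
      (Fintype.card F : ℝ) ^ (2 * n + 1) * ∑ e ∈ range (n + 1), ∑ G ∈ Vb F n e, Ψ e G := by
  classical
  set B : ℝ := (Fintype.card F : ℝ) ^ (2 * n + 1) * ∑ e ∈ range (n + 1), ∑ G ∈ Vb F n e, Ψ e G with hB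
  have key : ∀ T : Finset (Σ f : {f // f ∈ S}, {σ : Sel (f.1.map (toK F)) // σ ≠ 0}), (T.card : ℝ) ≤ B := by
    intro T
    have h1 : (T.card : ℝ) ≤ ∑ t ∈ T, ∑ e ∈ range (n + 1), ∑ p ∈ Vb F n e ×ˢ PL F (2 * n + 1),
        (if p ∈ ClS t.1.1 t.2.1 then Ψ e p.1 else 0) := by
      rw [card_eq_sum_ones]
      push_cast
      apply sum_le_sum
      intro t _
      refine (hc t.1.1 t.1.2 t.2.1 t.2.2).trans (le_of_eq ?_)
      apply sum_congr rfl
      intro e _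
      unfold PnS
      rw [sum_filter]
    refine h1.trans ?_
    rw [sum_comm]
    have h3 : ∀ e ∈ range (n + 1), ∑ t ∈ T, ∑ p ∈ Vb F n e ×ˢ PL F (2 * n + 1),
        (if p ∈ ClS t.1.1 t.2.1 then Ψ e p.1 else 0) ≤
        ∑ p ∈ Vb F n e ×ˢ PL F (2 * n + 1), Ψ e p.1 := by
      intro e _
      rw [sum_comm]
      apply sum_le_sum
      intro p _
      rw [← sum_filter, sum_const, nsmul_eq_mul]
      have h4 : (T.filter (fun t => p ∈ ClS t.1.1 t.2.1)).card ≤ 1 := by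
        rw [card_le_one]
        rintro ⟨⟨f, hf⟩, σ, hσ⟩ ht ⟨⟨f', hf'⟩, σ', hσ'⟩ ht'
        rw [mem_filter] at ht ht'
        have e1 : f = f' := ClS_cub h2 ht.2 ht'.2
        subst e1
        have e2 : σ = σ' := ClS_inj ht.2 ht'.2
        subst e2
        rfl
      calc ((T.filter (fun t => p ∈ ClS t.1.1 t.2.1)).card : ℝ) * Ψ e p.1 ≤ 1 * Ψ e p.1 := by
            apply mul_le_mul_of_nonneg_right _ (hΨ _ _)
            exact_mod_cast h4
        _ = Ψ e p.1 := one_mul _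
    refine (sum_le_sum h3).trans (le_of_eq ?_)
    rw [hB, mul_sum]
    apply sum_congr rfl
    intro e _
    rw [sum_product]
    simp only [sum_const, card_PL, nsmul_eq_mul]
    rw [mul_sum]
    push_cast
    rfl
  have hfin : Finite (Σ f : {f // f ∈ S}, {σ : Sel (f.1.map (toK F)) // σ ≠ 0}) := by
    by_contra h
    rw [not_finite_iff_infinite] at h
    obtain ⟨m, hm⟩ := exists_nat_gt B
    obtain ⟨T, hT⟩ := Infinite.exists_subset_card_eq (Σ f : {f // f ∈ S}, {σ : Sel (f.1.map (toK F)) // σ ≠ 0}) m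
    have := key T
    rw [hT] at this
    linarith
  have hfin1 : ∀ f : {f // f ∈ S}, Finite {σ : Sel (f.1.map (toK F)) // σ ≠ 0} := by
    intro f
    exact Finite.of_injective (fun σ => (⟨f, σ⟩ : Σ f : {f // f ∈ S}, {σ : Sel (f.1.map (toK F)) // σ ≠ 0})) (by
      intro a b h
      simpa using h)
  have hfin2 : ∀ f : {f // f ∈ S}, Finite (Sel (f.1.map (toK F))) := by
    intro f
    have h1 := hfin1 f
    have h3 : Finite (Option {σ : Sel (f.1.map (toK F)) // σ ≠ 0}) := inferInstance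
    exact Finite.of_equiv _ (Equiv.optionSubtypeNe (0 : Sel (f.1.map (toK F))))
  refine ⟨fun f hf => hfin2 ⟨f, hf⟩, ?_⟩
  letI := Fintype.ofFinite (Σ f : {f // f ∈ S}, {σ : Sel (f.1.map (toK F)) // σ ≠ 0})
  have h5 := key univ
  rw [card_univ, ← Nat.card_eq_fintype_card, Nat.card_sigma] at h5
  push_cast at h5
  refine le_trans (le_of_eq ?_) h5
  rw [← sum_attach]
  apply sum_congr (by rfl)
  intro f _
  have := hfin2 f
  rw [card_ne_zero_sub]

end Pool.Agent.H456.BQ
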