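import Pool.Agent.H456.BQ.SGlue

/-!
# The 2-Selmer set: the weighted number of the representatives of a class is at least one
-/

set_option autoImplicit false
set_option linter.all false

open Polynomial Finset
open Pool.Agent.H456.EC (toK toK_inj sig toK_eq reflect_toK)
open Pool.Agent.H456.RN

namespace Pool.Agent.H456.BQ

variable {F : Type} [Field F] [Fintype F]

/-- the value of the weight on the orbit of a model with given local lattices -/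
theorem Ph_geS (hP : S_spP) (hPI : S_spI) (h2 : (2 : F) ≠ 0) {n M : ℕ} (hM : 1 ≤ M)
    (S : Finset (Pl F)) {f : Cub F[X]} (hf : f.disc ≠ 0) (hd : CDg n f)
    {W : (P : Pl F) → Cub (Rq (P.1 ^ M)) → ℝ} {Wi : Cub (Rq ((X : F[X]) ^ M)) → ℝ}
    {cP : Pl F → ℝ} {cX : ℝ} (hcP : ∀ P, 0 ≤ cP P) (hcX : 0 ≤ cX)
    (hW : ∀ P ∈ S, ∀ r : F[X], cP P ≤ W P (((f.sc 4).tr r).map (Ideal.Quotient.mk (Ideal.span {P.1 ^ M}))))
    (hWi : ∀ r : F[X], cX ≤ Wi ((((crev n f).sc 4).tr r).map (Ideal.Quotient.mk (Ideal.span {(X : F[X]) ^ M}))))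
    {s : Q4 (RatFunc F) × RatFunc F} (hs : s.1.res = ((f.map (toK F)).sc 4).tr s.2)
    {Λ : Pl F → M2 (RatFunc F)} {g : Pl F → Q4 (RatFunc F)}
    {H : Pl F → Q4 F[X]} (hS : ∀ P ∈ S, (Λ P).det ≠ 0 ∧
      s.1.sub (Λ P) = (g P).smul ((Λ P).det ^ 2) ∧ RedTo P (g P) (H P))
    {Ni : M2 (RatFunc F)} {gi : Q4 (RatFunc F)} {Hi : Q4 F[X]} (hNi : Ni.det ≠ 0)
    (hi : s.1.sub Ni = gi.smul (tt F (2 * n) * Ni.det ^ 2)) (hr : RedI gi Hi)
    {e : ℕ} (he : e ≤ n) {N : M2 (RatFunc F)} {p : Q4 F[X] × F[X]}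
    (r : PE N s (pr p)) (hB : BdN n e p.1) (hp : p.2.natDegree ≤ 2 * n)
    (hL : ∀ P ∈ S, LEq (LocP P) N (Λ P)) (hLi : LEq (Oi F) (N.mul ⟨1, 0, 0, tt F (-(e : ℤ))⟩) Ni) :
    (∏ P : S, (((H P.1).map (Ideal.Quotient.mk (Ideal.span {P.1.1 ^ 1}))).sp : ℝ) * cP P.1) *
      (((Hi.map (Ideal.Quotient.mk (Ideal.span {(X : F[X]) ^ 1}))).sp : ℝ) * cX) ≤
      Ph S hM W Wi (redV S M n e p.1) := by
  classical
  have hres : p.1.res = (f.sc 4).tr p.2 := pr_res (r.res hs)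
  unfold Ph
  apply mul_le_mul
  · apply prod_le_prod
    · intro P _
      exact mul_nonneg (Nat.cast_nonneg _) (hcP _)
    · intro P _
      unfold phP
      rw [redV_at, map_redP, Q4.map_res, hres]
      obtain ⟨hΛ, hg, hred⟩ := hS P.1 P.2
      rw [hP F h2 P.1 _ N (Λ P.1) p.1 (H P.1) (g P.1) r.det hΛ r.sub hg hred (hL P.1 P.2)]
      exact mul_le_mul_of_nonneg_left (hW P.1 P.2 p.2) (Nat.cast_nonneg _)
  · unfold phX
    rw [redV_inf, map_redP, Q4.map_res, revV_res he hd hB hp hres,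
      hPI F h2 n e he _ N Ni p.1 Hi gi r.det hNi hB r.sub hi hr hLi]
    exact mul_le_mul_of_nonneg_left (hWi _) (Nat.cast_nonneg _)
  · exact mul_nonneg (Nat.cast_nonneg _) hcX
  · apply prod_nonneg
    intro P _
    unfold phP
    rw [redV_at, Q4.map_res, hres]
    exact mul_nonneg (Nat.cast_nonneg _) ((hcP _).trans (hW P.1 P.2 p.2))

/-- two orbits with a common element come from the same local lattices -/
theorem same_latticesS (hst : S_stab) (hdis : S_dis) (h2 : (2 : F) ≠ 0) {f : Cub F[X]} (hf : f.disc ≠ 0) (hn : NoTwo f)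
    {s : Q4 (RatFunc F) × RatFunc F} (hs : s.1.res = ((f.map (toK F)).sc 4).tr s.2)
    {N N' : M2 (RatFunc F)} {p p' : Q4 F[X] × F[X]}
    (r : PE N s (pr p)) (r' : PE N' s (pr p')) {e : ℕ} {t t' : M2 F[X] × F}
    (ht : t ∈ Tn F e) (ht' : t' ∈ Tn F e) (he : act p t.1 t.2 = act p' t'.1 t'.2) :
    (∀ P : Pl F, LEq (LocP P) N N') ∧
      LEq (Oi F) (N.mul ⟨1, 0, 0, tt F (-(e : ℤ))⟩) (N'.mul ⟨1, 0, 0, tt F (-(e : ℤ))⟩) := by
  classical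
  have r1 := r.trans (pe_act p (Tn_det ht).1 (Tn_det ht).2)
  have r2 := r'.trans (pe_act p' (Tn_det ht').1 (Tn_det ht').2)
  rw [← he] at r2
  obtain ⟨k, hk, h3⟩ := PE.uniq hst (two_ne h2) (disc_ne hf) hn hs r1 r2
  obtain ⟨a1, a2⟩ := hdis F e N t.1 (TB_of ht)
  obtain ⟨b1, b2⟩ := hdis F e N' t'.1 (TB_of ht')
  constructor
  · intro P
    have c1 := a1 P
    rw [h3] at c1
    exact c1.trans ((LEq_scal _ hk).symm.trans (b1 P).symm)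
  · have c1 := a2
    rw [h3, M2.scal_mul] at c1
    exact c1.trans ((LEq_scal _ hk).symm.trans b2.symm)

/-- **gluing**: the weighted number of the representatives of a nonzero class is at least one -/
theorem glue_sumS (U : HypU)
    (h2 : (2 : F) ≠ 0) {n M k : ℕ} (hk : 2 * k + 1 ≤ M) (hM : 1 ≤ M)
    (S : Finset (Pl F)) {f : Cub F[X]} (hf : f.disc ≠ 0) (hd : CDg n f) (hn : NoTwo f)
    (hdS : ∀ P ∈ S, ¬ P.1 ^ (k + 1) ∣ f.disc) (hdX : ¬ X ^ (k + 1) ∣ (crev n f).disc)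
    {W : (P : Pl F) → Cub (Rq (P.1 ^ M)) → ℝ} {Wi : Cub (Rq ((X : F[X]) ^ M)) → ℝ}
    (hW0 : ∀ P g, 0 ≤ W P g) (hWi0 : ∀ g, 0 ≤ Wi g)
    (hW : ∀ P ∈ S, ∀ r : F[X], (1 + ((f.map (Ideal.Quotient.mk (Ideal.span {P.1 ^ M}))).nA : ℝ) /
        ((Fintype.card F : ℝ) ^ P.1.natDegree) ^ (M - 1))⁻¹ ≤
      W P (((f.sc 4).tr r).map (Ideal.Quotient.mk (Ideal.span {P.1 ^ M}))))
    (hWi : ∀ r : F[X], (1 + (((crev n f).map (Ideal.Quotient.mk (Ideal.span {(X : F[X]) ^ M}))).nA : ℝ) /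
        (Fintype.card F : ℝ) ^ (M - 1))⁻¹ ≤
      Wi ((((crev n f).sc 4).tr r).map (Ideal.Quotient.mk (Ideal.span {(X : F[X]) ^ M}))))
    {σ : Sel (f.map (toK F))} (hσ : σ ≠ 0) :
    1 ≤ ∑ e ∈ range (n + 1), ∑ p ∈ PnS n e f σ, Ph S hM W Wi (redV S M n e p.1) / pa F e := by
  classical
  obtain ⟨s, hs, rfl⟩ := sel_ind σ
  have hNR := (selMk_ne h2 (disc_ne hf)).1 hσ
  set cP : Pl F → ℝ := fun P => (1 + ((f.map (Ideal.Quotient.mk (Ideal.span {P.1 ^ M}))).nA : ℝ) /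
        ((Fintype.card F : ℝ) ^ P.1.natDegree) ^ (M - 1))⁻¹ with hcP
  set cX : ℝ := (1 + (((crev n f).map (Ideal.Quotient.mk (Ideal.span {(X : F[X]) ^ M}))).nA : ℝ) /
        (Fintype.card F : ℝ) ^ (M - 1))⁻¹ with hcX
  have hcP0 : ∀ P, 0 ≤ cP P := fun P => by rw [hcP]; positivity
  have hcX0 : 0 ≤ cX := by rw [hcX]; positivity
  -- the local lattices
  have hloc : ∀ P : Pl F, ∃ (m : ℕ) (N : Fin m → M2 (RatFunc F)) (g : Fin m → Q4 (RatFunc F)) (H : Fin m → Q4 F[X]),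
      P ∈ S → (∀ i, (N i).det ≠ 0 ∧ s.1.sub (N i) = (g i).smul ((N i).det ^ 2) ∧
        RedTo P (g i) (H i)) ∧ (∀ i j, i ≠ j → ¬ LEq (LocP P) (N i) (N j)) ∧
        1 ≤ ∑ i, (((H i).map (Ideal.Quotient.mk (Ideal.span {P.1 ^ 1}))).sp : ℝ) * cP P := by
    intro P
    by_cases hPS : P ∈ S
    · obtain ⟨m, N, g, H, k1, k2, k3, k4, k5⟩ := U.locKS F h2 P M k hk f (hdS P hPS) s hs.res (hs.fin P)
      refine ⟨m, N, g, H, fun _ => ⟨fun i => ⟨k1 i, k2 i, k3 i⟩, k4, ?_⟩⟩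
      rw [← sum_mul, hcP]
      rw [← div_eq_mul_inv, le_div_iff₀ (by positivity), one_mul]
      exact k5
    · exact ⟨0, fun _ => ⟨0, 0, 0, 0⟩, fun _ => ⟨0, 0, 0, 0, 0⟩, fun _ => ⟨0, 0, 0, 0, 0⟩, fun h => absurd h hPS⟩
  choose m N g H hloc using hloc
  obtain ⟨mi, Ni, gi, Hi, i1, i2, i3, i4, i5⟩ := U.locIS F h2 n M k hk f (crev n f) (crev_map hd) hdX s hs.res hs.inf
  have i6 : 1 ≤ ∑ i, (((Hi i).map (Ideal.Quotient.mk (Ideal.span {(X : F[X]) ^ 1}))).sp : ℝ) * cX := by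
    rw [← sum_mul, hcX]
    rw [← div_eq_mul_inv, le_div_iff₀ (by positivity), one_mul]
    exact i5
  -- the tuples
  let Tu : Type := ((P : S) → Fin (m P.1)) × Fin mi
  let Λ : Tu → Pl F → M2 (RatFunc F) := fun τ P => if h : P ∈ S then N P (τ.1 ⟨P, h⟩) else ⟨1, 0, 0, 1⟩
  let gg : Tu → Pl F → Q4 (RatFunc F) := fun τ P => if h : P ∈ S then g P (τ.1 ⟨P, h⟩) else ⟨0, 0, 0, 0, 0⟩
  let HH : Tu → Pl F → Q4 F[X] := fun τ P => if h : P ∈ S then H P (τ.1 ⟨P, h⟩) else ⟨0, 0, 0, 0, 0⟩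
  have hΛ : ∀ τ : Tu, ∀ P ∈ S, (Λ τ P).det ≠ 0 ∧
      s.1.sub (Λ τ P) = (gg τ P).smul ((Λ τ P).det ^ 2) ∧ RedTo P (gg τ P) (HH τ P) := by
    intro τ P hPS
    have h1 := (hloc P hPS).1 (τ.1 ⟨P, hPS⟩)
    have e1 : Λ τ P = N P (τ.1 ⟨P, hPS⟩) := dif_pos hPS
    have e2 : gg τ P = g P (τ.1 ⟨P, hPS⟩) := dif_pos hPS
    have e3 : HH τ P = H P (τ.1 ⟨P, hPS⟩) := dif_pos hPS
    rw [e1, e2, e3]
    exact h1
  have hdata : ∀ τ : Tu, ∃ (e : ℕ) (M' : M2 (RatFunc F)) (p : Q4 F[X] × F[X]), e ≤ n ∧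
      PE M' s (pr p) ∧ BdN n e p.1 ∧ p.2.natDegree ≤ 2 * n ∧ p.1.A ≠ 0 ∧
      (∀ P ∈ S, LEq (LocP P) M' (Λ τ P)) ∧ LEq (Oi F) (M'.mul ⟨1, 0, 0, tt F (-(e : ℤ))⟩) (Ni τ.2) := fun τ =>
    tuple_dataS U.tupS h2 hf hd hs hNR S (Λ τ) (gg τ) (HH τ) (hΛ τ) (i1 τ.2) (i2 τ.2) (i3 τ.2)
  choose e M' p he hrep hB hdeg hA hL hLi using hdata
  -- the sum over the orbits
  let A : Finset (Σ τ : Tu, M2 F[X] × F) := (univ : Finset Tu).sigma (fun τ => Tn F (e τ))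
  let B : Finset (Σ e : ℕ, Q4 F[X] × F[X]) := (range (n + 1)).sigma (fun e => PnS n e f (selMk _ s hs))
  let ι : (Σ τ : Tu, M2 F[X] × F) → (Σ e : ℕ, Q4 F[X] × F[X]) := fun a => ⟨e a.1, act (p a.1) a.2.1 a.2.2⟩
  let Ψ : (Σ e : ℕ, Q4 F[X] × F[X]) → ℝ := fun b => Ph S hM W Wi (redV S M n b.1 b.2.1) / pa F b.1
  have hPh0 : ∀ g, 0 ≤ Ph S hM W Wi g := by
    intro g
    unfold Ph phP phX
    exact mul_nonneg (prod_nonneg fun P _ => mul_nonneg (Nat.cast_nonneg _) (hW0 _ _))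
      (mul_nonneg (Nat.cast_nonneg _) (hWi0 _))
  have hΨ0 : ∀ b, 0 ≤ Ψ b := fun b => div_nonneg (hPh0 _) (pa_pos b.1).le
  have hcl : ∀ τ : Tu, p τ ∈ ClS f (selMk _ s hs) := fun τ =>
    ⟨hs.pe (hrep τ), (selMk_eq.2 ⟨M' τ, hrep τ⟩).symm⟩
  have hmaps : ∀ a ∈ A, ι a ∈ B := by
    rintro ⟨τ, t⟩ ha
    have ht : t ∈ Tn F (e τ) := (mem_sigma.1 ha).2
    refine mem_sigma.2 ⟨mem_range.2 (Nat.lt_succ_of_le (he τ)), ?_⟩
    exact mem_PnS.2 ⟨act_bd (he τ) (hB τ) (hdeg τ) ht, ClS_act (hcl τ) (Tn_det ht).1 (Tn_det ht).2⟩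
  have hinj : Set.InjOn ι A := by
    rintro ⟨τ, t⟩ ha ⟨τ', t'⟩ ha' hι
    have ht : t ∈ Tn F (e τ) := (mem_sigma.1 (mem_coe.1 ha)).2
    have ht' : t' ∈ Tn F (e τ') := (mem_sigma.1 (mem_coe.1 ha')).2
    have hee : e τ = e τ' := congrArg Sigma.fst hι
    have hact : act (p τ) t.1 t.2 = act (p τ') t'.1 t'.2 := by
      have := Sigma.mk.inj hι
      exact eq_of_heq this.2
    have ht'' : t' ∈ Tn F (e τ) := by rw [hee]; exact ht'
    obtain ⟨s1, s2⟩ := same_latticesS U.stab U.dis h2 hf hn hs.res (hrep τ) (hrep τ') ht ht'' hact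
    have hτ : τ = τ' := by
      apply Prod.ext
      · funext P
        by_contra hne
        apply (hloc P.1 P.2).2.1 _ _ hne
        have e1 : Λ τ P.1 = N P.1 (τ.1 P) := dif_pos P.2
        have e1' : Λ τ' P.1 = N P.1 (τ'.1 P) := dif_pos P.2
        rw [← e1, ← e1']
        exact (hL τ P.1 P.2).symm.trans ((s1 P.1).trans (hL τ' P.1 P.2))
      · by_contra hne
        apply i4 _ _ hne
        rw [hee] at s2
        have h5 := hLi τ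
        rw [hee] at h5
        exact h5.symm.trans (s2.trans (hLi τ'))
    subst hτ
    obtain ⟨κ, hκ, h6⟩ := act_injS U.stab h2 hf hn (hcl τ) (Tn_det ht).1 (Tn_det ht').1 (Tn_det ht).2 (Tn_det ht').2 hact
    have h7 := Tn_eq ht ht' hκ h6
    rw [h7]
  have hsum : ∑ a ∈ A, Ψ (ι a) ≤ ∑ b ∈ B, Ψ b := by
    rw [← sum_image (s := A) (g := ι) (f := Ψ) (fun a ha b hb h => hinj ha hb h)]
    apply sum_le_sum_of_subset_of_nonneg
    · intro b hb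
      rw [mem_image] at hb
      obtain ⟨a, ha, rfl⟩ := hb
      exact hmaps a ha
    · intro b _ _
      exact hΨ0 b
  have hB' : ∑ b ∈ B, Ψ b = ∑ e ∈ range (n + 1), ∑ p ∈ PnS n e f (selMk _ s hs),
      Ph S hM W Wi (redV S M n e p.1) / pa F e := by
    rw [sum_sigma]
  rw [← hB']
  refine le_trans ?_ hsum
  -- the lower bound for the orbits
  let val : Tu → ℝ := fun τ => (∏ P : S, (((H P.1 (τ.1 P)).map
      (Ideal.Quotient.mk (Ideal.span {P.1.1 ^ 1}))).sp : ℝ) * cP P.1) *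
      ((((Hi τ.2).map (Ideal.Quotient.mk (Ideal.span {(X : F[X]) ^ 1}))).sp : ℝ) * cX)
  have hval : ∀ a ∈ A, val a.1 / pa F (e a.1) ≤ Ψ (ι a) := by
    rintro ⟨τ, t⟩ ha
    have ht : t ∈ Tn F (e τ) := (mem_sigma.1 ha).2
    apply div_le_div_of_nonneg_right _ (pa_pos _).le
    obtain ⟨a1, a2⟩ := U.dis F (e τ) (M' τ) t.1 (TB_of ht)
    have hbd := act_bd (he τ) (hB τ) (hdeg τ) ht
    have h8 := Ph_geS U.spP U.spI h2 hM S hf hd hcP0 hcX0 hW hWi hs.res (hΛ τ) (i1 τ.2) (i2 τ.2) (i3 τ.2) (he τ)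
      ((hrep τ).trans (pe_act (p τ) (Tn_det ht).1 (Tn_det ht).2)) hbd.1 hbd.2
      (fun P hPS => (a1 P).symm.trans (hL τ P hPS)) (a2.symm.trans (hLi τ))
    have hprod : (∏ P : S, (((H P.1 (τ.1 P)).map
        (Ideal.Quotient.mk (Ideal.span {P.1.1 ^ 1}))).sp : ℝ) * cP P.1) =
        ∏ P : S, (((HH τ P.1).map (Ideal.Quotient.mk (Ideal.span {P.1.1 ^ 1}))).sp : ℝ) * cP P.1 := by
      apply prod_congr rfl
      intro P _
      have e3 : HH τ P.1 = H P.1 (τ.1 P) := dif_pos P.2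
      rw [e3]
    rw [← hprod] at h8
    exact h8
  refine le_trans ?_ (sum_le_sum hval)
  rw [sum_sigma]
  have h9 : ∀ τ : Tu, ∑ t ∈ Tn F (e τ), val τ / pa F (e τ) = val τ := by
    intro τ
    have hpos := pa_pos (F := F) (e τ)
    rw [sum_const, nsmul_eq_mul, card_Tn]
    field_simp
  rw [sum_congr rfl (fun τ _ => h9 τ)]
  have h10 : ∑ τ : Tu, val τ = (∏ P : S, ∑ i, (((H P.1 i).map
      (Ideal.Quotient.mk (Ideal.span {P.1.1 ^ 1}))).sp : ℝ) * cP P.1) *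
      ∑ i, (((Hi i).map (Ideal.Quotient.mk (Ideal.span {(X : F[X]) ^ 1}))).sp : ℝ) * cX := by
    rw [Fintype.sum_prod_type, prod_univ_sum, Fintype.piFinset_univ, sum_mul]
    apply sum_congr rfl
    intro τ _
    rw [mul_sum]
  rw [h10]
  have h11 : 1 ≤ ∏ P : S, ∑ i, (((H P.1 i).map (Ideal.Quotient.mk (Ideal.span {P.1.1 ^ 1}))).sp : ℝ) * cP P.1 := by
    refine le_trans (le_of_eq (prod_const_one (s := (univ : Finset S))).symm) ?_
    exact prod_le_prod (fun _ _ => zero_le_one) (fun P _ => (hloc P.1 P.2).2.2)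
  exact one_le_mul_of_one_le_of_one_le h11 i6

end Pool.Agent.H456.BQ
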