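import Pool.Agent.H456.BQ.T_mcomp
import Pool.Agent.H456.BQ.T_minf
import Pool.Agent.H456.BQ.T_indep
import Pool.Agent.H456.BQ.T_nz

/-!
# Local solubility in terms of the completions of Mathlib
-/

set_option autoImplicit false
set_option linter.all false

open Polynomial Finset IsDedekindDomain
open Pool.Agent.H456.EC (toK toK_inj sig toK_eq reflect_toK)

namespace Pool.Agent.H456.BQ

variable {F : Type} [Field F] [Finite F]

theorem LS_iff (h2 : (2 : F) ≠ 0) {g : Q4 (RatFunc F)} (hg : g.res.disc ≠ 0) (P : Pl F) :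
    LS P g ↔ (g.map (algebraMap (RatFunc F) ((plv P).adicCompletion (RatFunc F)))).Sol := by
  constructor
  · intro h
    exact h _ _ _ _ (t_mcomp F P) (algebraMap (RatFunc F) ((plv P).adicCompletion (RatFunc F))) (fun x => rfl)
  · intro h
    exact t_indep t_nz F h2 P g hg _ _ _ _ (t_mcomp F P) (algebraMap (RatFunc F) ((plv P).adicCompletion (RatFunc F)))
      (fun x => rfl) h

theorem exists_plv (v : HeightOneSpectrum F[X]) : ∃ P : Pl F, plv P = v := by
  have hp : v.asIdeal.IsPrincipal := IsPrincipalIdealRing.principal _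
  obtain ⟨g, hg⟩ := hp
  have hg' : v.asIdeal = Ideal.span {g} := hg
  have hg0 : g ≠ 0 := by
    intro h0
    apply v.ne_bot
    rw [hg', h0]
    simp
  have hpr : Prime g := by
    rw [← Ideal.span_singleton_prime hg0, ← hg']
    exact v.isPrime
  have hass : Associated g (g * C g.leadingCoeff⁻¹) :=
    ⟨Units.map C.toMonoidHom (Units.mk0 (g.leadingCoeff⁻¹) (inv_ne_zero (leadingCoeff_ne_zero.2 hg0))), rfl⟩
  refine ⟨⟨g * C g.leadingCoeff⁻¹, monic_mul_leadingCoeff_inv hg0, hass.irreducible hpr.irreducible⟩, ?_⟩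
  ext1
  change Ideal.span {g * C g.leadingCoeff⁻¹} = v.asIdeal
  rw [hg', Ideal.span_singleton_eq_span_singleton]
  exact hass.symm

theorem LSI_iff [DecidableEq (RatFunc F)] (h2 : (2 : F) ≠ 0) {g : Q4 (RatFunc F)} (hg : g.res.disc ≠ 0) :
    LSI g ↔ (g.map (algebraMap (RatFunc F) (RatFunc.CompletionAtInfty F))).Sol := by
  obtain ⟨O, i1, i2, i3, i4, π, ι, hL, hι⟩ := t_minf F
  have hgg : (g.map (locI_tau F)).map ((algebraMap (RatFunc F) (RatFunc.CompletionAtInfty F)).comp (locI_tau F)) =
      g.map (algebraMap (RatFunc F) (RatFunc.CompletionAtInfty F)) := by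
    ext <;> simp only [Q4.map, RingHom.comp_apply, locI_tau_tau]
  have hg' : (g.map (locI_tau F)).res.disc ≠ 0 := by
    rw [Q4.map_res, Cub.map_disc]
    exact (map_ne_zero_iff _ (locI_tau F).injective).2 hg
  constructor
  · intro h
    have h1 := h O (RatFunc.CompletionAtInfty F) π ι hL
      ((algebraMap (RatFunc F) (RatFunc.CompletionAtInfty F)).comp (locI_tau F)) (fun x => hι x)
    rwa [hgg] at h1
  · intro h
    rw [← hgg] at h
    exact t_indep t_nz F h2 (PlX F) (g.map (locI_tau F)) hg' O (RatFunc.CompletionAtInfty F) π ι hL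
      ((algebraMap (RatFunc F) (RatFunc.CompletionAtInfty F)).comp (locI_tau F)) (fun x => hι x) h

end Pool.Agent.H456.BQ
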