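import Pool.Agent.H456.BQ.SDef

/-!
# The average of the 2-Selmer groups: statements of the global lemmas
-/

set_option autoImplicit false
set_option linter.all false

open Polynomial Finset Filter
open Pool.Agent.H456.EC (toK toK_inj sig toK_eq reflect_toK cls Eqn)
open Pool.Agent.H456.RN

namespace Pool.Agent.H456.BQ

/-- **(M1)** lower bound for the partial Euler products. -/
def S_euler2 : Prop := ∀ (F : Type) [Field F] [Fintype F] (S : Finset (Pl F)),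
  1 - (Fintype.card F : ℝ)⁻¹ ≤ ∏ P ∈ S, (1 - ((Fintype.card F : ℝ) ^ (2 * P.1.natDegree))⁻¹)

open Classical in
/-- **(M2)** few cubics are exceptional. -/
def S_badc : Prop := ∀ (F : Type) [Field F] [Fintype F], (2 : F) ≠ 0 → ∀ ε : ℝ, 0 < ε → ∀ᶠ n in atTop,
  (((Sb F n).filter (fun f => BadC f)).card : ℝ) ≤ ε * (Fintype.card F : ℝ) ^ (12 * n + 3)

open Classical in
/-- **(M3)** few quartics have roots. -/
def S_avr : Prop := ∀ (F : Type) [Field F] [Fintype F], (2 : F) ≠ 0 → ∀ e : ℕ,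
  Tendsto (fun n => AV n e (fun G : Q4 F[X] => if (G.map (toK F)).NR then (0 : ℝ) else 1)) atTop (nhds 0)

open Classical in
/-- **(M4)** joint equidistribution modulo the places of `S` and modulo `P²`. -/
def S_joint : Prop := ∀ (F : Type) [Field F] [Fintype F] (S : Finset (Pl F)) (M n e : ℕ), e ≤ n → ∀ P : Pl F, P ∉ S →
  dS S M + 2 * P.1.natDegree ≤ 2 * n - 2 * e + 1 → ∀ (φ : Q4 (RB S M) → ℝ) (ψ : Q4 (Rq (P.1 ^ 2)) → ℝ),
    AV n e (fun G => φ (redV S M n e G) * ψ (G.map (Ideal.Quotient.mk (Ideal.span {P.1 ^ 2})))) =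
      (∑ g, φ g) / (Fintype.card F : ℝ) ^ (5 * dS S M) *
        ((∑ g, ψ g) / ((Fintype.card F : ℝ) ^ P.1.natDegree) ^ 10)

/-- **(M5)** the weighted number of the representatives of a class is at most one. -/
def S_one : Prop := ∀ (F : Type) [Field F] [Fintype F], (2 : F) ≠ 0 → ∀ (n M k : ℕ) (hM : 1 ≤ M), 2 * k + 1 ≤ M →
  ∀ (S : Finset (Pl F)) (f : Cub F[X]), f.disc ≠ 0 → CDg n f → (∀ P ∈ S, ¬ P.1 ^ (k + 1) ∣ f.disc) →
  ¬ X ^ (k + 1) ∣ (crev n f).disc → (∀ P : Pl F, P ∉ S → ¬ P.1 ^ 2 ∣ f.disc) →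
  ∀ (W : (P : Pl F) → Cub (Rq (P.1 ^ M)) → ℝ) (Wi : Cub (Rq ((X : F[X]) ^ M)) → ℝ), (∀ P g, 0 ≤ W P g) →
  (∀ g, 0 ≤ Wi g) →
  (∀ P ∈ S, ∀ r : F[X], W P (((f.sc 4).tr r).map (Ideal.Quotient.mk (Ideal.span {P.1 ^ M}))) =
    (1 + ((f.map (Ideal.Quotient.mk (Ideal.span {P.1 ^ M}))).nA : ℝ) /
      ((Fintype.card F : ℝ) ^ P.1.natDegree) ^ (M - 1))⁻¹) →
  (∀ r : F[X], Wi ((((crev n f).sc 4).tr r).map (Ideal.Quotient.mk (Ideal.span {(X : F[X]) ^ M}))) =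
    (1 + (((crev n f).map (Ideal.Quotient.mk (Ideal.span {(X : F[X]) ^ M}))).nA : ℝ) /
      (Fintype.card F : ℝ) ^ (M - 1))⁻¹) →
  ∀ σ : Sel (f.map (toK F)),
    ∑ e ∈ range (n + 1), ∑ p ∈ PnS n e f σ, Ph S hM W Wi (redV S M n e p.1) / pa F e ≤ 1

/-- **(M6)** everywhere local solubility. -/
def S_els : Prop := ∀ (F : Type) [Field F] [Fintype F], (2 : F) ≠ 0 → ∀ (n e : ℕ), e ≤ n → ∀ (S : Finset (Pl F))
  (G : Q4 F[X]), BdN n e G → (∀ P ∈ S, 1 ≤ (G.map (Ideal.Quotient.mk (Ideal.span {P.1 ^ 1}))).sp) →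
  (∀ P : Pl F, P ∉ S → ¬ P.1 ^ 2 ∣ G.res.disc) →
  1 ≤ ((revV n e G).map (Ideal.Quotient.mk (Ideal.span {(X : F[X]) ^ 1}))).sp →
  (∀ P : Pl F, LS P (G.map (toK F))) ∧ LSI (G.map (toK F))

open Classical in
/-- **(M9)** transfer of an average over the minimal cubics to the isomorphism classes, two-sided. -/
def S_clsG : Prop := ∀ (F : Type) [Field F] [Fintype F], (2 : F) ≠ 0 → ∀ (w : KC F → ℝ), (∀ κ, 0 ≤ w κ) → ∀ β : ℝ, 0 ≤ β →
  (∀ ε : ℝ, 0 < ε → ∀ᶠ n in atTop,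
    |∑ f ∈ (Msh F n).filter (fun f => ¬ BadC f), w (cls (crv f)) - β * (Msh F n).card| ≤ ε * (Msh F n).card) →
  (∀ ε : ℝ, 0 < ε → ∀ᶠ n in atTop, ∑ f ∈ (Msh F n).filter (fun f => BadC f), w (cls (crv f)) ≤
    ε * (Fintype.card F : ℝ) ^ (12 * n + 3)) →
  (∀ᶠ n in atTop, (1 / 4 : ℝ) * (Fintype.card F : ℝ) ^ (12 * n + 3) ≤ (Msh F n).card) →
  ∀ ε : ℝ, 0 < ε → ∀ᶠ d in atTop, |∑ κ ∈ CL F d, w κ - β * (CL F d).card| ≤ ε * (CL F d).card

/-- the cubic obtained by completing the square -/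
noncomputable def cubE {K : Type*} [Field K] (E : WeierstrassCurve K) : Cub K := ⟨E.b₂ / 4, E.b₄ / 2, E.b₆ / 4⟩

/-- **(M10)** the order of the 2-Selmer set is invariant under isomorphisms. -/
def S_selinv : Prop := ∀ (F : Type) [Field F], (2 : F) ≠ 0 → ∀ (E : WeierstrassCurve (RatFunc F))
  (C : WeierstrassCurve.VariableChange (RatFunc F)), Nat.card (Sel (cubE (C • E))) = Nat.card (Sel (cubE E))

/-- **(M11)** the group of points modulo doubles embeds into the 2-Selmer set. -/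
def S_kum : Prop := ∀ (F : Type) [Field F], (2 : F) ≠ 0 → ∀ (f : Cub F[X]), f.disc ≠ 0 →
  ∃ φ : Q2 f → Sel (f.map (toK F)), Function.Injective φ ∧ φ 0 = 0

end Pool.Agent.H456.BQ
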