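import Pool.Agent.H456.BQ.SUp
import Pool.Agent.H456.BQ.Stm6

/-!
# The lower bound for the average of the 2-Selmer sets: counting
-/

set_option autoImplicit false
set_option linter.all false

open Polynomial Finset Filter
open Pool.Agent.H456.EC (toK toK_inj sig toK_eq reflect_toK)
open Pool.Agent.H456.RN

namespace Pool.Agent.H456.BQ

variable {F : Type} [Field F] [Fintype F]

/-- the counting inequality in the opposite direction -/
theorem countS_ge {n : ℕ} (S : Finset (Cub F[X])) (hfin : ∀ f ∈ S, Finite (Sel (f.map (toK F))))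
    (Ψ : ℕ → Q4 F[X] → ℝ) (hΨ : ∀ e G, 0 ≤ Ψ e G)
    (hc : ∀ f ∈ S, ∀ (σ : Sel (f.map (toK F))), σ ≠ 0 →
      ∑ e ∈ range (n + 1), ∑ p ∈ PnS n e f σ, Ψ e p.1 ≤ 1)
    (hex : ∀ e ≤ n, ∀ G ∈ Vb F n e, ∀ r ∈ PL F (2 * n + 1), Ψ e G ≠ 0 →
      ∃ f ∈ S, ∃ σ : Sel (f.map (toK F)), σ ≠ 0 ∧ (G, r) ∈ ClS f σ) :
    (Fintype.card F : ℝ) ^ (2 * n + 1) * ∑ e ∈ range (n + 1), ∑ G ∈ Vb F n e, Ψ e G ≤
      ∑ f ∈ S, ((Nat.card (Sel (f.map (toK F))) : ℝ) - 1) := by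
  classical
  have hfin1 : ∀ f : {f // f ∈ S}, Finite {σ : Sel (f.1.map (toK F)) // σ ≠ 0} := by
    intro f
    have := hfin f.1 f.2
    infer_instance
  letI := fun f : {f // f ∈ S} => Fintype.ofFinite {σ : Sel (f.1.map (toK F)) // σ ≠ 0}
  have h1 : (Fintype.card F : ℝ) ^ (2 * n + 1) * ∑ e ∈ range (n + 1), ∑ G ∈ Vb F n e, Ψ e G =
      ∑ e ∈ range (n + 1), ∑ p ∈ Vb F n e ×ˢ PL F (2 * n + 1), Ψ e p.1 := by
    rw [mul_sum]
    apply sum_congr rfl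
    intro e _
    rw [sum_product]
    simp only [sum_const, card_PL, nsmul_eq_mul]
    rw [mul_sum]
    push_cast
    rfl
  have h3 : ∑ f ∈ S, ((Nat.card (Sel (f.map (toK F))) : ℝ) - 1) =
      ((Fintype.card (Σ f : {f // f ∈ S}, {σ : Sel (f.1.map (toK F)) // σ ≠ 0}) : ℕ) : ℝ) := by
    rw [← Nat.card_eq_fintype_card, Nat.card_sigma]
    push_cast
    rw [← sum_attach]
    apply sum_congr (by rfl)
    intro f _
    have := hfin f.1 f.2
    rw [card_ne_zero_sub]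
  rw [h1, h3, ← card_univ, card_eq_sum_ones]
  push_cast
  have h4 : ∀ t : (Σ f : {f // f ∈ S}, {σ : Sel (f.1.map (toK F)) // σ ≠ 0}),
      ∑ e ∈ range (n + 1), ∑ p ∈ Vb F n e ×ˢ PL F (2 * n + 1), (if p ∈ ClS t.1.1 t.2.1 then Ψ e p.1 else 0) ≤ 1 := by
    intro t
    refine le_trans (le_of_eq ?_) (hc t.1.1 t.1.2 t.2.1 t.2.2)
    apply sum_congr rfl
    intro e _
    unfold PnS
    rw [sum_filter]
  refine le_trans ?_ (sum_le_sum fun t _ => h4 t)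
  rw [sum_comm]
  apply sum_le_sum
  intro e he
  rw [sum_comm]
  apply sum_le_sum
  rintro ⟨G, r⟩ hp
  rw [mem_product] at hp
  set φ : (Σ f : {f // f ∈ S}, {σ : Sel (f.1.map (toK F)) // σ ≠ 0}) → ℝ := fun t =>
    if ((G, r) : Q4 F[X] × F[X]) ∈ ClS t.1.1 t.2.1 then Ψ e G else 0 with hφ
  have hφ0 : ∀ t, 0 ≤ φ t := by
    intro t
    rw [hφ]
    simp only
    split_ifs
    · exact hΨ e G
    · exact le_rfl
  change Ψ e G ≤ ∑ t, φ t
  by_cases h0 : Ψ e G = 0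
  · rw [h0]
    exact sum_nonneg fun t _ => hφ0 t
  · obtain ⟨f, hf, σ, hσ, hcl⟩ := hex e (Nat.lt_succ_iff.1 (mem_range.1 he)) G hp.1 r hp.2 h0
    have h5 : φ ⟨⟨f, hf⟩, ⟨σ, hσ⟩⟩ = Ψ e G := by
      rw [hφ]
      simp only
      rw [if_pos hcl]
    rw [← h5]
    exact single_le_sum (f := φ) (fun t _ => hφ0 t) (mem_univ _)

/-- degrees of the resolvent -/
theorem cdg_res {n e : ℕ} (he : e ≤ n) {G : Q4 F[X]} (h : BdN n e G) : CDg n G.res := by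
  refine ⟨?_, ?_, deg_res_c he h⟩
  · exact h.2.2.1
  · obtain ⟨h1, h2, h3, h4, h5⟩ := h
    simp only [Q4.res]
    have e4 : (4 : F[X]) = C 4 := (map_ofNat C 4).symm
    rw [e4]
    refine (natDegree_sub_le _ _).trans (max_le ?_ ?_)
    · refine natDegree_mul_le.trans ?_
      omega
    · have k1 := natDegree_mul_le (p := C (4 : F) * G.A) (q := G.E)
      have k3 := natDegree_C_mul_le (4 : F) G.A
      omega

theorem cdg_sc {n : ℕ} {f : Cub F[X]} (h : CDg n f) (c : F) : CDg n (f.sc (C c)) := by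
  obtain ⟨h1, h2, h3⟩ := h
  refine ⟨?_, ?_, ?_⟩
  · simp only [Cub.sc]
    exact (natDegree_C_mul_le _ _).trans h1
  · simp only [Cub.sc]
    rw [← C_pow]
    exact (natDegree_C_mul_le _ _).trans h2
  · simp only [Cub.sc]
    rw [← C_pow]
    exact (natDegree_C_mul_le _ _).trans h3

/-- the cubic of a pair -/
noncomputable def fOf (G : Q4 F[X]) (r : F[X]) : Cub F[X] := (G.res.tr (-r)).sc (C (4 : F)⁻¹)

theorem four_inv (h2 : (2 : F) ≠ 0) : (C (4 : F)⁻¹ : F[X]) * 4 = 1 := by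
  have h4 : (4 : F) ≠ 0 := by
    have : (4 : F) = 2 ^ 2 := by norm_num
    rw [this]; exact pow_ne_zero _ h2
  have e4 : (4 : F[X]) = C 4 := (map_ofNat C 4).symm
  rw [e4, ← C_mul, inv_mul_cancel₀ h4, C_1]

theorem fOf_res (h2 : (2 : F) ≠ 0) (G : Q4 F[X]) (r : F[X]) : ((fOf G r).sc 4).tr r = G.res := by
  unfold fOf
  rw [Cub.sc_sc, four_inv h2, Cub.sc_one, Cub.tr_tr, neg_add_cancel, Cub.tr_zero]

theorem cdg_fOf {n e : ℕ} (he : e ≤ n) {G : Q4 F[X]} (h : BdN n e G) {r : F[X]} (hr : r.natDegree ≤ 2 * n) :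
    CDg n (fOf G r) := by
  unfold fOf
  apply cdg_sc
  apply cdg_tr (cdg_res he h)
  rwa [natDegree_neg]

theorem dvd_disc (h2 : (2 : F) ≠ 0) {f : Cub F[X]} {r x : F[X]} : x ∣ ((f.sc 4).tr r).disc ↔ x ∣ f.disc := by
  rw [Cub.disc_tr, Cub.disc_sc]
  constructor
  · intro h
    have h1 : x ∣ C (4 : F)⁻¹ ^ 6 * (4 ^ 6 * f.disc) := h.mul_left _
    rwa [← mul_assoc, ← mul_pow, four_inv h2, one_pow, one_mul] at h1
  · intro h
    exact h.mul_left _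

theorem NMc_disc {P : F[X]} {f : Cub F[X]} (h : NMc P f) : P ^ 2 ∣ f.disc := by
  obtain ⟨r, g, h⟩ := h
  have h1 := congrArg Cub.disc h
  rw [Cub.disc_tr, Cub.disc_sc] at h1
  rw [h1]
  exact (Dvd.intro _ (by ring : P ^ 2 * (P ^ 10) = (P ^ 2) ^ 6)).mul_right _

/-- nonvanishing of the local weight implies minimality -/
theorem WP_ne (h2 : (2 : F) ≠ 0) {P : Pl F} {M : ℕ} (hM : 6 ≤ M) {f : Cub F[X]} {r : F[X]}
    (h : WP P M (((f.sc 4).tr r).map (Ideal.Quotient.mk (Ideal.span {P.1 ^ M}))) ≠ 0) : ¬ NMc P.1 f := by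
  intro hN
  apply h
  have e1 : (((f.sc 4).tr r).map (Ideal.Quotient.mk (Ideal.span {P.1 ^ M}))).sc (Ideal.Quotient.mk _ (C (4 : F)⁻¹)) =
      (f.map (Ideal.Quotient.mk (Ideal.span {P.1 ^ M}))).tr (Ideal.Quotient.mk _ (C (4 : F)⁻¹) * Ideal.Quotient.mk _ r) := by
    rw [Cub.map_tr, Cub.map_sc, Cub.sc_tr, Cub.sc_sc, map_ofNat, mul_comm (4 : Rq (P.1 ^ M)), i4_mul h2, Cub.sc_one]
  unfold WP
  rw [e1, nA_tr, chi_tr]
  have e2 : chi P M (f.map (Ideal.Quotient.mk (Ideal.span {P.1 ^ M}))) = 0 := by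
    unfold chi
    rw [if_pos]
    rw [NMc_iff_mod hM]
    exact hN
  rw [e2, zero_div]

end Pool.Agent.H456.BQ
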