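import Pool.Agent.H456.BQ.SLow

/-!
# The lower bound for the average of the 2-Selmer sets: the good quartics
-/

set_option autoImplicit false
set_option linter.all false

open Polynomial Finset Filter
open Pool.Agent.H456.EC (toK toK_inj sig toK_eq reflect_toK)
open Pool.Agent.H456.RN

namespace Pool.Agent.H456.BQ

/-- the additional statements used for the lower bound -/
structure HypL : Prop where
  one : S_one
  els : S_els
  joint : S_joint
  dsq : S_dsq
  large : S_large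
  avr : S_avr
  euler2 : S_euler2

variable {F : Type} [Field F] [Fintype F]

/-- the good quartics -/
structure Good (S : Finset (Pl F)) (j n e : ℕ) (G : Q4 F[X]) : Prop where
  ctl : ∀ P ∈ S, ¬ P.1 ^ j ∣ G.res.disc
  ctX : ¬ X ^ j ∣ (revV n e G).res.disc
  bad : ¬ BadC G.res
  nr : (G.map (toK F)).NR
  sqf : ∀ P : Pl F, P ∉ S → ¬ P.1 ^ 2 ∣ G.res.disc

open Classical in
/-- the weight of the good quartics -/
noncomputable def Pg (S : Finset (Pl F)) {M : ℕ} (hM : 1 ≤ M) (j n e : ℕ) (G : Q4 F[X]) : ℝ :=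
  if Good S j n e G then Ph S hM (fun P => WP P M) (WP (PlX F) M) (redV S M n e G) else 0

theorem Pg_nonneg (S : Finset (Pl F)) {M : ℕ} (hM : 1 ≤ M) (j n e : ℕ) (G : Q4 F[X]) : 0 ≤ Pg S hM j n e G := by
  unfold Pg
  split_ifs
  · exact Ph_nonneg hM _
  · exact le_rfl

open Classical in
/-- the good cubics -/
noncomputable def Mg (S : Finset (Pl F)) (j n : ℕ) : Finset (Cub F[X]) :=
  (Msh F n).filter (fun f => ¬ BadC f ∧ (∀ P ∈ S, ¬ P.1 ^ j ∣ f.disc) ∧ ¬ X ^ j ∣ (crev n f).disc ∧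
    ∀ P : Pl F, P ∉ S → ¬ P.1 ^ 2 ∣ f.disc)

theorem mem_Mg {S : Finset (Pl F)} {j n : ℕ} {f : Cub F[X]} : f ∈ Mg S j n ↔ f ∈ Msh F n ∧ ¬ BadC f ∧
    (∀ P ∈ S, ¬ P.1 ^ j ∣ f.disc) ∧ ¬ X ^ j ∣ (crev n f).disc ∧ ∀ P : Pl F, P ∉ S → ¬ P.1 ^ 2 ∣ f.disc := by
  classical
  unfold Mg
  rw [mem_filter]

/-- the good quartics represent nonzero classes of good cubics -/
theorem good_ex (L : HypL) (h2 : (2 : F) ≠ 0) {S : Finset (Pl F)} {M j : ℕ} (hM6 : 6 ≤ M) (hM : 1 ≤ M) {n e : ℕ}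
    (he : e ≤ n) {G : Q4 F[X]} (hG : BdN n e G) {r : F[X]} (hr : r.natDegree ≤ 2 * n) (hg : Good S j n e G)
    (hPh : Ph S hM (fun P => WP P M) (WP (PlX F) M) (redV S M n e G) ≠ 0) :
    ∃ f ∈ Mg S j n, ∃ σ : Sel (f.map (toK F)), σ ≠ 0 ∧ (G, r) ∈ ClS f σ := by
  classical
  set f := fOf G r with hf
  have hres : ((f.sc 4).tr r) = G.res := fOf_res h2 G r
  have hd : CDg n f := cdg_fOf he hG hr
  have hres' : (revV n e G).res = ((crev n f).sc 4).tr (reflect (2 * n) r) := revV_res he hd hG hr hres.symm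
  have hdv : ∀ x : F[X], x ∣ G.res.disc ↔ x ∣ f.disc := by
    intro x
    rw [← hres]
    exact dvd_disc h2
  have hdvX : ∀ x : F[X], x ∣ (revV n e G).res.disc ↔ x ∣ (crev n f).disc := by
    intro x
    rw [hres']
    exact dvd_disc h2
  have hdisc : f.disc ≠ 0 := by
    intro h0
    obtain ⟨P, hP⟩ : ∃ P : Pl F, P ∉ S := by
      have := infinite_Pl (F := F)
      exact Infinite.exists_notMem_finset S
    apply hg.sqf P hP
    rw [hdv, h0]
    exact dvd_zero _
  -- the weights do not vanish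
  unfold Ph at hPh
  have hP0 : ∀ P : S, phP P.1 hM (WP P.1 M) ((redV S M n e G).at P) ≠ 0 := by
    intro P h0
    apply hPh
    rw [prod_eq_zero (mem_univ P) h0, zero_mul]
  have hX0 : phX F hM (WP (PlX F) M) (redV S M n e G).inf ≠ 0 := by
    intro h0
    apply hPh
    rw [h0, mul_zero]
  have hsp : ∀ P ∈ S, 1 ≤ (G.map (Ideal.Quotient.mk (Ideal.span {P.1 ^ 1}))).sp := by
    intro P hP
    have h1 := hP0 ⟨P, hP⟩
    unfold phP at h1
    rw [redV_at, map_redP] at h1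
    have h3 := left_ne_zero_of_mul h1
    have h4 : (G.map (Ideal.Quotient.mk (Ideal.span {P.1 ^ 1}))).sp ≠ 0 := by
      intro h0
      apply h3
      exact_mod_cast h0
    omega
  have hspX : 1 ≤ ((revV n e G).map (Ideal.Quotient.mk (Ideal.span {(X : F[X]) ^ 1}))).sp := by
    have h1 := hX0
    unfold phX at h1
    rw [redV_inf, map_redP] at h1
    have h3 := left_ne_zero_of_mul h1
    have h4 : ((revV n e G).map (Ideal.Quotient.mk (Ideal.span {(X : F[X]) ^ 1}))).sp ≠ 0 := by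
      intro h0
      apply h3
      exact_mod_cast h0
    omega
  have hminS : ∀ P ∈ S, ¬ NMc P.1 f := by
    intro P hP
    have h1 := hP0 ⟨P, hP⟩
    unfold phP at h1
    rw [redV_at, Q4.map_res, ← hres] at h1
    exact WP_ne h2 hM6 (right_ne_zero_of_mul h1)
  have hminX : ¬ NMc X (crev n f) := by
    have h1 := hX0
    unfold phX at h1
    rw [redV_inf, Q4.map_res, hres'] at h1
    exact WP_ne (P := PlX F) h2 hM6 (right_ne_zero_of_mul h1)
  have hmin : ∀ P : Pl F, ¬ NMc P.1 f := by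
    intro P
    by_cases hP : P ∈ S
    · exact hminS P hP
    · intro hN
      apply hg.sqf P hP
      rw [hdv]
      exact NMc_disc hN
  have hbad : ¬ BadC f := by
    intro hb
    apply hg.bad
    rw [← hres]
    exact BadC_of h2 hb
  have hmem : f ∈ Mg S j n := by
    rw [mem_Mg, mem_Msh]
    refine ⟨⟨hd, hdisc, (MinAll_crv h2).2 ⟨hmin, hminX⟩⟩, hbad, ?_, ?_, ?_⟩
    · intro P hP
      rw [← hdv]
      exact hg.ctl P hP
    · rw [← hdvX]
      exact hg.ctX
    · intro P hP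
      rw [← hdv]
      exact hg.sqf P hP
  obtain ⟨hfin, hinf⟩ := L.els F h2 n e he S G hG hsp hg.sqf hspX
  have hsel : IsSel (f.map (toK F)) (pr (G, r)) := by
    refine ⟨?_, hfin, hinf⟩
    unfold pr
    simp only
    rw [Q4.map_res, ← hres, Cub.map_tr, Cub.map_sc, map_ofNat]
  exact ⟨f, hmem, selMk _ _ hsel, (selMk_ne h2 (disc_ne hdisc)).2 hg.nr, hsel, rfl⟩

/-- the class sums are at most one -/
theorem good_le (L : HypL) (h2 : (2 : F) ≠ 0) {S : Finset (Pl F)} {M k : ℕ} (hM6 : 6 ≤ M) (hM : 1 ≤ M)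
    (hk : 2 * k + 1 ≤ M) {n : ℕ} {f : Cub F[X]} (hf : f ∈ Mg S (k + 1) n) (σ : Sel (f.map (toK F))) :
    ∑ e ∈ range (n + 1), ∑ p ∈ PnS n e f σ, Pg S hM (k + 1) n e p.1 / pa F e ≤ 1 := by
  classical
  rw [mem_Mg, mem_Msh] at hf
  obtain ⟨⟨hd, hdisc, hmin⟩, hbad, hctl, hctX, hsqf⟩ := hf
  obtain ⟨hm1, hm2⟩ := (MinAll_crv h2).1 hmin
  have h1 := L.one F h2 n M k hM hk S f hdisc hd hctl hctX hsqf (fun P => WP P M) (WP (PlX F) M)
    (fun P g => WP_nonneg P M g) (fun g => WP_nonneg (PlX F) M g)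
    (fun P _ r => (WP_eq h2 hM6 (hm1 P) r).symm) (fun r => by
      have h1 := WP_eq h2 (P := PlX F) hM6 (f := crev n f) hm2 r
      have e1 : (PlX F).1.natDegree = 1 := natDegree_X
      rw [e1, pow_one] at h1
      exact h1.symm) σ
  refine le_trans ?_ h1
  apply sum_le_sum
  intro e _
  apply sum_le_sum
  intro p _
  apply div_le_div_of_nonneg_right _ (pa_pos e).le
  unfold Pg
  split_ifs
  · exact le_rfl
  · exact Ph_nonneg hM _

/-- **the lower bound for the number of the classes** -/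
theorem low_count (U : HypU) (L : HypL) (h2 : (2 : F) ≠ 0) {S : Finset (Pl F)} {M k : ℕ} (hM6 : 6 ≤ M) (hM : 1 ≤ M)
    (hk : 2 * k + 1 ≤ M) (n : ℕ) (s : Finset (Cub F[X])) (hs : ∀ f, f ∈ s ↔ f ∈ Msh F n ∧ ¬ BadC f) :
    Tot (fun n e G => Pg S hM (k + 1) n e G) n * (Fintype.card F : ℝ) ^ (12 * n + 3) ≤
      ∑ f ∈ s, ((Nat.card (Sel (f.map (toK F))) : ℝ) - 1) := by
  classical
  have hq2 : 2 ≤ (Fintype.card F : ℝ) := q_ge
  have hq0 : (0 : ℝ) < Fintype.card F := by linarith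
  have h1 := countS_ge (n := n) (Mg S (k + 1) n) (fun f hf => finite_Sel U h2 (mem_Msh.1 (mem_Mg.1 hf).1).2.1)
    (fun e G => Pg S hM (k + 1) n e G / pa F e) (fun e G => div_nonneg (Pg_nonneg _ _ _ _ _ _) (pa_pos e).le)
    (fun f hf σ _ => good_le L h2 hM6 hM hk hf σ) ?_
  · unfold Tot
    rw [div_mul_cancel₀ _ (by positivity)]
    refine h1.trans ?_
    apply sum_le_sum_of_subset_of_nonneg
    · intro f hf
      rw [mem_Mg] at hf
      rw [hs]
      exact ⟨hf.1, hf.2.1⟩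
    · intro f hf _
      rw [hs] at hf
      exact card_Sel_ge U h2 (mem_Msh.1 hf.1).2.1
  · intro e he G hG r hr h0
    have h3 : Pg S hM (k + 1) n e G ≠ 0 := by
      intro h4
      apply h0
      rw [h4, zero_div]
    unfold Pg at h3
    rw [ite_ne_right_iff] at h3
    exact good_ex L h2 hM6 hM he (mem_Vb.1 hG) (mem_PL_iff.1 hr) h3.1 h3.2

end Pool.Agent.H456.BQ
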