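import Pool.Agent.H456.BQ.SLow2

/-!
# The lower bound for the average of the 2-Selmer sets: the errors
-/

set_option autoImplicit false
set_option linter.all false

open Polynomial Finset Filter
open Pool.Agent.H456.EC (toK toK_inj sig toK_eq reflect_toK)
open Pool.Agent.H456.RN

namespace Pool.Agent.H456.BQ

theorem sp_le {κ : Type} [CommRing κ] [Fintype κ] (g : Q4 κ) : g.sp ≤ Fintype.card κ ^ 2 + Fintype.card κ := by
  classical
  unfold Q4.sp
  apply add_le_add
  · refine (card_le_univ _).trans (le_of_eq ?_)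
    rw [Fintype.card_prod, sq]
  · exact card_le_univ _

variable {F : Type} [Field F] [Fintype F]

theorem WP_le (P : Pl F) (M : ℕ) (g : Cub (Rq (P.1 ^ M))) : WP P M g ≤ 1 := by
  unfold WP
  rw [div_le_one (by positivity)]
  have h1 : chi P M (g.sc (Ideal.Quotient.mk _ (C (4 : F)⁻¹))) ≤ 1 := by
    unfold chi
    split_ifs <;> norm_num
  have h3 : 0 ≤ ((g.sc (Ideal.Quotient.mk _ (C (4 : F)⁻¹))).nA : ℝ) /
    ((Fintype.card F : ℝ) ^ P.1.natDegree) ^ (M - 1) := by positivity
  linarith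

/-- the bound for the weight does not depend on `M` -/
theorem Ph_bound (S : Finset (Pl F)) : ∃ c : ℝ, 1 ≤ c ∧ ∀ (M : ℕ) (hM : 1 ≤ M) (g : Q4 (RB S M)),
    Ph S hM (fun P => WP P M) (WP (PlX F) M) g ≤ c := by
  classical
  have hcard : ∀ m : F[X], m.Monic → ∀ [Fintype (Rq m)], (Fintype.card (Rq m) : ℝ) = (Fintype.card F : ℝ) ^ m.natDegree := by
    intro m hm _
    rw [← Nat.card_eq_fintype_card, card_Rq hm]
    push_cast
    rfl
  set b : F[X] → ℝ := fun m => ((Fintype.card F : ℝ) ^ m.natDegree) ^ 2 + (Fintype.card F : ℝ) ^ m.natDegree with hb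
  have hq2 : 2 ≤ (Fintype.card F : ℝ) := q_ge
  have hb1 : ∀ m, 1 ≤ b m := by
    intro m
    have h1 : 1 ≤ (Fintype.card F : ℝ) ^ m.natDegree := one_le_pow₀ (by linarith)
    rw [hb]
    simp only
    nlinarith
  refine ⟨(∏ P : S, b (P.1.1 ^ 1)) * b (X ^ 1), ?_, ?_⟩
  · apply one_le_mul_of_one_le_of_one_le _ (hb1 _)
    refine le_trans (le_of_eq (prod_const_one (s := (univ : Finset S))).symm) ?_
    exact Finset.prod_le_prod (fun _ _ => zero_le_one) (fun P _ => hb1 _)
  · intro M hM g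
    unfold Ph
    apply mul_le_mul
    · apply Finset.prod_le_prod
      · intro P _
        unfold phP
        exact mul_nonneg (Nat.cast_nonneg _) (WP_nonneg _ _ _)
      · intro P _
        unfold phP
        have h1 : (((g.at P).map (redP P.1.1 hM)).sp : ℝ) ≤ b (P.1.1 ^ 1) := by
          have h3 := sp_le ((g.at P).map (redP P.1.1 hM))
          have h4 : (((g.at P).map (redP P.1.1 hM)).sp : ℝ) ≤
            ((Fintype.card (Rq (P.1.1 ^ 1)) : ℝ) ^ 2 + (Fintype.card (Rq (P.1.1 ^ 1)) : ℝ)) := by exact_mod_cast h3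
          rw [hcard _ (P.1.2.1.pow 1)] at h4
          exact h4
        calc _ ≤ b (P.1.1 ^ 1) * 1 := mul_le_mul h1 (WP_le _ _ _) (WP_nonneg _ _ _) (by have := hb1 (P.1.1 ^ 1); linarith)
          _ = b (P.1.1 ^ 1) := mul_one _
    · unfold phX
      have h1 : ((g.inf.map (redP (X : F[X]) hM)).sp : ℝ) ≤ b (X ^ 1) := by
        have h3 := sp_le (g.inf.map (redP (X : F[X]) hM))
        have h4 : ((g.inf.map (redP (X : F[X]) hM)).sp : ℝ) ≤
          ((Fintype.card (Rq ((X : F[X]) ^ 1)) : ℝ) ^ 2 + (Fintype.card (Rq ((X : F[X]) ^ 1)) : ℝ)) := by exact_mod_cast h3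
        rw [hcard _ (monic_X.pow 1)] at h4
        exact h4
      calc _ ≤ b (X ^ 1) * 1 := mul_le_mul h1 (WP_le (PlX F) _ _) (WP_nonneg (PlX F) _ _) (by have := hb1 (X ^ 1); linarith)
        _ = b (X ^ 1) := mul_one _
    · unfold phX
      exact mul_nonneg (Nat.cast_nonneg _) (WP_nonneg (PlX F) _ _)
    · apply prod_nonneg
      intro P _
      have := hb1 (P.1.1 ^ 1)
      linarith

/-- the tail of the sum over the places -/
theorem sum_tail2 (T : Finset (Pl F)) (D : ℕ) (hT : ∀ P ∈ T, D < P.1.natDegree) :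
    ∑ P ∈ T, ((Fintype.card F : ℝ) ^ (2 * P.1.natDegree))⁻¹ ≤ 2 * (1 / 2 : ℝ) ^ (D + 1) := by
  classical
  have hq2 : 2 ≤ (Fintype.card F : ℝ) := q_ge
  have hq0 : (0 : ℝ) < Fintype.card F := by linarith
  obtain ⟨B, hB⟩ : ∃ B, ∀ P ∈ T, P.1.natDegree < B :=
    ⟨T.sup (fun P => P.1.natDegree) + 1, fun P hP => Nat.lt_succ_of_le (le_sup (f := fun P => P.1.natDegree) hP)⟩
  rw [← sum_fiberwise_of_maps_to (s := T) (t := Finset.Ico (D + 1) B) (g := fun P => P.1.natDegree)
    (fun P hP => Finset.mem_Ico.2 ⟨hT P hP, hB P hP⟩)]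
  have h1 : ∀ k ∈ Finset.Ico (D + 1) B, ∑ P ∈ T.filter (fun P => P.1.natDegree = k),
      ((Fintype.card F : ℝ) ^ (2 * P.1.natDegree))⁻¹ ≤ (1 / 2 : ℝ) ^ k := by
    intro k _
    have e1 : ∀ P ∈ T.filter (fun P => P.1.natDegree = k), ((Fintype.card F : ℝ) ^ (2 * P.1.natDegree))⁻¹ =
        ((Fintype.card F : ℝ) ^ (2 * k))⁻¹ := by
      intro P hP
      rw [(mem_filter.1 hP).2]
    rw [sum_congr rfl e1, sum_const, nsmul_eq_mul]
    calc _ ≤ (Fintype.card F : ℝ) ^ k * ((Fintype.card F : ℝ) ^ (2 * k))⁻¹ :=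
          mul_le_mul_of_nonneg_right (card_PlE T k) (by positivity)
      _ = ((Fintype.card F : ℝ)⁻¹) ^ k := by
          rw [inv_pow, show 2 * k = k + k by ring, pow_add]
          field_simp
      _ ≤ (1 / 2 : ℝ) ^ k := by
          apply pow_le_pow_left₀ (by positivity)
          rw [one_div]
          exact inv_anti₀ (by positivity) hq2
  refine (sum_le_sum h1).trans ?_
  rcases le_or_gt (D + 1) B with hDB | hDB
  · rw [geom_sum_Ico' (by norm_num) hDB]
    rw [div_le_iff₀ (by norm_num)]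
    have h3 : (0 : ℝ) ≤ (1 / 2 : ℝ) ^ B := by positivity
    have h4 : (0 : ℝ) < (1 / 2 : ℝ) ^ (D + 1) := by positivity
    linarith
  · rw [Finset.Ico_eq_empty (by omega), sum_empty]
    positivity

open Classical in
/-- the indicator of the quartics with a large square factor of the discriminant -/
noncomputable def lgI (c n : ℕ) (G : Q4 F[X]) : ℝ :=
  if ∃ P : Pl F, n ≤ P.1.natDegree + c ∧ P.1 ^ 2 ∣ G.res.disc then 1 else 0

open Classical in
/-- the indicator of the quartics with roots -/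
noncomputable def rtI (G : Q4 F[X]) : ℝ := if (G.map (toK F)).NR then 0 else 1

open Classical in
/-- the indicator of the quartics with exceptional resolvents -/
noncomputable def bdI (G : Q4 F[X]) : ℝ := if BadC G.res then 1 else 0

theorem lgI_nonneg (c n : ℕ) (G : Q4 F[X]) : 0 ≤ lgI c n G := by unfold lgI; split_ifs <;> norm_num
theorem rtI_nonneg (G : Q4 F[X]) : 0 ≤ rtI G := by unfold rtI; split_ifs <;> norm_num
theorem bdI_nonneg (G : Q4 F[X]) : 0 ≤ bdI G := by unfold bdI; split_ifs <;> norm_num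

/-- the average of the indicator of the large factors -/
theorem AV_lg (hl : S_large) (h2 : (2 : F) ≠ 0) (e c : ℕ) (δ : ℝ) (hδ : 0 < δ) :
    ∀ᶠ n in atTop, AV n e (lgI (F := F) c n) ≤ δ := by
  classical
  have hq2 : 2 ≤ (Fintype.card F : ℝ) := q_ge
  have hq0 : (0 : ℝ) < Fintype.card F := by linarith
  obtain ⟨n₀, hn₀⟩ := hl F h2 e c δ hδ
  filter_upwards [eventually_ge_atTop n₀] with n hn
  have h1 := hn₀ n hn
  unfold AV
  rw [div_le_iff₀ (by positivity)]
  refine le_trans (le_of_eq ?_) h1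
  have e1 : ∑ G ∈ Vb F n e, lgI c n G =
      (((Vb F n e).filter (fun G => ∃ P : Pl F, n ≤ P.1.natDegree + c ∧ P.1 ^ 2 ∣ G.res.disc)).card : ℝ) := by
    rw [card_filter]
    push_cast
    rfl
  rw [e1, ← Set.ncard_coe_finset]
  congr 2
  ext G
  simp only [coe_filter, mem_Vb, Set.mem_setOf_eq]
  rfl

end Pool.Agent.H456.BQ
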