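import Pool.Agent.H456.BQ.SLow3

/-!
# The lower bound for the average of the 2-Selmer sets: the average of the weight of the good quartics
-/

set_option autoImplicit false
set_option linter.all false

open Polynomial Finset Filter
open Pool.Agent.H456.EC (toK toK_inj sig toK_eq reflect_toK)
open Pool.Agent.H456.RN

namespace Pool.Agent.H456.BQ

variable {F : Type} [Field F] [Fintype F]

theorem AV_mul (n e : ℕ) (c : ℝ) (φ : Q4 F[X] → ℝ) : AV n e (fun G => c * φ G) = c * AV n e φ := by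
  unfold AV
  rw [← mul_sum, mul_div_assoc]

open Classical in
theorem sum_Ph (hphi : S_phi) (h2 : (2 : F) ≠ 0) (S : Finset (Pl F)) {M : ℕ} (hM : 1 ≤ M) :
    (∑ g, Ph S hM (fun P => WP P M) (WP (PlX F) M) g) / (Fintype.card F : ℝ) ^ (5 * dS S M) = IPh S M := by
  have h1 := AV_Ph hphi h2 S hM (n := dS S M) (e := 0) (Nat.zero_le _) (by omega)
  rw [← h1]
  unfold AV
  rw [sum_redV S M (dS S M) 0 (Nat.zero_le _) (by omega) (fun g => Ph S hM (fun P => WP P M) (WP (PlX F) M) g)]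

theorem IPh_nonneg (hphi : S_phi) (h2 : (2 : F) ≠ 0) (S : Finset (Pl F)) {M : ℕ} (hM : 1 ≤ M) : 0 ≤ IPh S M := by
  classical
  rw [← sum_Ph hphi h2 S hM]
  exact div_nonneg (sum_nonneg fun g _ => Ph_nonneg hM g) (by positivity)

theorem IPh_le {S : Finset (Pl F)} {M : ℕ} (hM : 6 ≤ M) : IPh S M ≤ 1 := by
  have hq2 : 2 ≤ (Fintype.card F : ℝ) := q_ge
  obtain ⟨h1, h3⟩ := muS_le (S := S) hM
  unfold IPh
  have k1 : ∀ m : ℕ, 0 ≤ 1 - ((Fintype.card F : ℝ) ^ m)⁻¹ ∧ 1 - ((Fintype.card F : ℝ) ^ m)⁻¹ ≤ 1 := by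
    intro m
    have h4 : ((Fintype.card F : ℝ) ^ m)⁻¹ ≤ 1 := inv_le_one_of_one_le₀ (one_le_pow₀ (by linarith))
    have h5 : 0 ≤ ((Fintype.card F : ℝ) ^ m)⁻¹ := by positivity
    exact ⟨by linarith, by linarith⟩
  have k2 : ∏ P ∈ S, (1 - ((Fintype.card F : ℝ) ^ (2 * P.1.natDegree))⁻¹) ≤ 1 :=
    Finset.prod_le_one (fun P _ => (k1 _).1) (fun P _ => (k1 _).2)
  have k3 : 0 ≤ ∏ P ∈ S, (1 - ((Fintype.card F : ℝ) ^ (2 * P.1.natDegree))⁻¹) := prod_nonneg fun P _ => (k1 _).1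
  have k4 : (∏ P ∈ S, (1 - ((Fintype.card F : ℝ) ^ (2 * P.1.natDegree))⁻¹)) * (1 - ((Fintype.card F : ℝ) ^ 2)⁻¹) ≤ 1 :=
    mul_le_one₀ k2 (k1 2).1 (k1 2).2
  exact mul_le_one₀ k4 h1 h3

open Classical in
/-- the average over the quartics with discriminant divisible by `P²` -/
theorem AV_med (hj : S_joint) (hphi : S_phi) (h2 : (2 : F) ≠ 0) {c₀ : ℝ}
    (hc₀ : ∀ P : Pl F, (({g : Q4 (Rq (P.1 ^ 2)) | g.res.disc = 0}).ncard : ℝ) ≤
      c₀ * ((Fintype.card F : ℝ) ^ P.1.natDegree) ^ 8) (S : Finset (Pl F)) {M : ℕ} (hM : 1 ≤ M) {n e : ℕ} (he : e ≤ n)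
    {P : Pl F} (hP : P ∉ S) (hN : dS S M + 2 * P.1.natDegree ≤ 2 * n - 2 * e + 1) :
    AV n e (fun G => Ph S hM (fun P => WP P M) (WP (PlX F) M) (redV S M n e G) *
      dP 2 P (G.map (Ideal.Quotient.mk (Ideal.span {P.1 ^ 2})))) ≤
      IPh S M * (c₀ * ((Fintype.card F : ℝ) ^ (2 * P.1.natDegree))⁻¹) := by
  have hq2 : 2 ≤ (Fintype.card F : ℝ) := q_ge
  have hq0 : (0 : ℝ) < Fintype.card F := by linarith
  rw [hj F S M n e he P hP hN (fun g => Ph S hM (fun P => WP P M) (WP (PlX F) M) g) (dP 2 P), sum_Ph hphi h2 S hM]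
  apply mul_le_mul_of_nonneg_left _ (IPh_nonneg hphi h2 S hM)
  rw [div_le_iff₀ (by positivity)]
  have e1 : ∑ g, dP 2 P g = (({g : Q4 (Rq (P.1 ^ 2)) | g.res.disc = 0}).ncard : ℝ) := by
    unfold dP
    rw [← sum_filter, sum_const, nsmul_eq_mul, mul_one]
    congr 1
    rw [← Set.ncard_coe_finset]
    congr 1
    ext g
    simp
  rw [e1]
  refine (hc₀ P).trans (le_of_eq ?_)
  rw [mul_assoc]
  congr 1
  rw [inv_mul_eq_div, eq_div_iff (by positivity), ← pow_mul, ← pow_mul, ← pow_add]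
  congr 1
  ring

/-- the pointwise inequality -/
theorem Ph_split {D : ℕ} {M : ℕ} (hM : 1 ≤ M) {cst : ℝ} (hc : ∀ g : Q4 (RB (PlD F D) M),
    Ph (PlD F D) hM (fun P => WP P M) (WP (PlX F) M) g ≤ cst) (hc1 : 1 ≤ cst) (j c n e : ℕ) (T : Finset (Pl F))
    (hT : ∀ P : Pl F, D < P.1.natDegree → P.1.natDegree + c < n → P ∈ T) (G : Q4 F[X]) :
    Ph (PlD F D) hM (fun P => WP P M) (WP (PlX F) M) (redV (PlD F D) M n e G) ≤
      Pg (PlD F D) hM j n e G + (cst * uc (PlD F D) j n e G + (cst * bdI G + (cst * rtI G + (cst * lgI c n G +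
        ∑ P ∈ T, Ph (PlD F D) hM (fun P => WP P M) (WP (PlX F) M) (redV (PlD F D) M n e G) *
          dP 2 P (G.map (Ideal.Quotient.mk (Ideal.span {P.1 ^ 2}))))))) := by
  classical
  set S := PlD F D with hS
  set x := Ph S hM (fun P => WP P M) (WP (PlX F) M) (redV S M n e G) with hx
  have hx0 : 0 ≤ x := Ph_nonneg hM _
  have hxc : x ≤ cst := hc _
  have h0 : 0 ≤ cst := by linarith
  have hg0 : 0 ≤ Pg S hM j n e G := Pg_nonneg _ _ _ _ _ _
  have hu0 : 0 ≤ cst * uc S j n e G := mul_nonneg h0 (uc_nonneg _ _ _ _ _)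
  have hb0 : 0 ≤ cst * bdI G := mul_nonneg h0 (bdI_nonneg _)
  have hr0 : 0 ≤ cst * rtI G := mul_nonneg h0 (rtI_nonneg _)
  have hl0 : 0 ≤ cst * lgI c n G := mul_nonneg h0 (lgI_nonneg _ _ _)
  have ht0 : ∀ P ∈ T, 0 ≤ x * dP 2 P (G.map (Ideal.Quotient.mk (Ideal.span {P.1 ^ 2}))) :=
    fun P _ => mul_nonneg hx0 (dP_nonneg _ _ _)
  have hts : 0 ≤ ∑ P ∈ T, x * dP 2 P (G.map (Ideal.Quotient.mk (Ideal.span {P.1 ^ 2}))) := sum_nonneg ht0
  have hdP : ∀ (i : ℕ) (P : Pl F) (G : Q4 F[X]), P.1 ^ i ∣ G.res.disc →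
      dP i P (G.map (Ideal.Quotient.mk (Ideal.span {P.1 ^ i}))) = 1 := by
    intro i P G h
    unfold dP
    rw [if_pos]
    rw [Q4.map_res, Cub.map_disc, mk_zero]
    exact h
  by_cases hg : Good S j n e G
  · have e1 : Pg S hM j n e G = x := by
      unfold Pg
      rw [if_pos hg]
    linarith
  by_cases h1 : ∀ P ∈ S, ¬ P.1 ^ j ∣ G.res.disc
  swap
  · push Not at h1
    obtain ⟨P, hP, hd⟩ := h1
    have h3 : dP j P (G.map (Ideal.Quotient.mk (Ideal.span {P.1 ^ j}))) ≤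
        ∑ P ∈ S, dP j P (G.map (Ideal.Quotient.mk (Ideal.span {P.1 ^ j}))) :=
      single_le_sum (f := fun P : Pl F => dP j P (G.map (Ideal.Quotient.mk (Ideal.span {P.1 ^ j}))))
        (fun P _ => dP_nonneg _ _ _) hP
    rw [hdP j P G hd] at h3
    have h4 := dP_nonneg j (PlX F) ((revV n e G).map (Ideal.Quotient.mk (Ideal.span {(PlX F).1 ^ j})))
    have h5 : 1 ≤ uc S j n e G := by unfold uc; linarith
    have h6 : cst ≤ cst * uc S j n e G := le_mul_of_one_le_right h0 h5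
    linarith
  by_cases h3 : ¬ X ^ j ∣ (revV n e G).res.disc
  swap
  · push Not at h3
    have h4 := hdP j (PlX F) (revV n e G) h3
    have h5 : 0 ≤ ∑ P ∈ S, dP j P (G.map (Ideal.Quotient.mk (Ideal.span {P.1 ^ j}))) := sum_nonneg fun P _ => dP_nonneg _ _ _
    have h5 : 1 ≤ uc S j n e G := by unfold uc; linarith
    have h6 : cst ≤ cst * uc S j n e G := le_mul_of_one_le_right h0 h5
    linarith
  by_cases h4 : BadC G.res
  · have : bdI G = 1 := by unfold bdI; rw [if_pos h4]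
    rw [this] at hb0 ⊢
    linarith
  by_cases h5 : (G.map (toK F)).NR
  swap
  · have : rtI G = 1 := by unfold rtI; rw [if_neg h5]
    rw [this] at hr0 ⊢
    linarith
  have h6 : ¬ ∀ P : Pl F, P ∉ S → ¬ P.1 ^ 2 ∣ G.res.disc := fun h6 => hg ⟨h1, h3, h4, h5, h6⟩
  push Not at h6
  obtain ⟨P, hPS, hd⟩ := h6
  have hDP : D < P.1.natDegree := by
    rw [hS, mem_PlD] at hPS
    omega
  by_cases h7 : n ≤ P.1.natDegree + c
  · have : lgI c n G = 1 := by unfold lgI; rw [if_pos ⟨P, h7, hd⟩]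
    rw [this] at hl0 ⊢
    linarith
  · have h8 := single_le_sum (f := fun P : Pl F => x * dP 2 P (G.map (Ideal.Quotient.mk (Ideal.span {P.1 ^ 2})))) ht0
      (hT P hDP (by omega))
    simp only [hdP 2 P G hd, mul_one] at h8
    linarith

/-- **the lower bound for the average of the weight of the good quartics** -/
theorem AV_Pg (U : HypU) (L : HypL) (h2 : (2 : F) ≠ 0) {c₀ : ℝ} (hc0 : 0 ≤ c₀)
    (hc₀ : ∀ P : Pl F, (({g : Q4 (Rq (P.1 ^ 2)) | g.res.disc = 0}).ncard : ℝ) ≤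
      c₀ * ((Fintype.card F : ℝ) ^ P.1.natDegree) ^ 8) {δ : ℝ} (hδ : 0 < δ) {D : ℕ}
    (hD : c₀ * (2 * (1 / 2 : ℝ) ^ (D + 1)) ≤ δ) :
    ∃ (M k : ℕ) (hM : 1 ≤ M), 6 ≤ M ∧ 2 * k + 1 ≤ M ∧
      ∀ e : ℕ, ∀ᶠ n in atTop, IPh (PlD F D) M - 5 * δ ≤ AV n e (Pg (PlD F D) hM (k + 1) n e) := by
  classical
  set S := PlD F D with hS
  obtain ⟨cst, hc1, hcst⟩ := Ph_bound S
  have hcpos : 0 < cst := by linarith
  have hδ' : 0 < δ / cst := by positivity
  obtain ⟨k, hk⟩ := uc_small U.disc4 h2 S (δ / cst) hδ'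
  set M : ℕ := max 6 (2 * k + 1) with hMdef
  have hM6 : 6 ≤ M := le_max_left _ _
  have hMk : 2 * k + 1 ≤ M := le_max_right _ _
  have hM : 1 ≤ M := by omega
  refine ⟨M, k, hM, hM6, hMk, fun e => ?_⟩
  set c := e + dS S M with hc
  have a1 := AV_lg L.large h2 e c (δ / cst) hδ'
  have a2 := (AV_bad h2 e).eventually (gt_mem_nhds hδ')
  have a3 := (L.avr F h2 e).eventually (gt_mem_nhds hδ')
  filter_upwards [a1, a2, a3, eventually_ge_atTop (e + dS S M + dS S (k + 1))] with n n1 n2 n3 n4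
  set T : Finset (Pl F) := (PlD F n).filter (fun P => D < P.1.natDegree ∧ P.1.natDegree + c < n) with hTdef
  have hT : ∀ P : Pl F, D < P.1.natDegree → P.1.natDegree + c < n → P ∈ T := by
    intro P h1 h3
    rw [hTdef, mem_filter, mem_PlD]
    exact ⟨by omega, h1, h3⟩
  have h1 : AV n e (fun G => Ph S hM (fun P => WP P M) (WP (PlX F) M) (redV S M n e G)) ≤
      AV n e (fun G => Pg S hM (k + 1) n e G + (cst * uc S (k + 1) n e G + (cst * bdI G + (cst * rtI G + (cst * lgI c n G +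
        ∑ P ∈ T, Ph S hM (fun P => WP P M) (WP (PlX F) M) (redV S M n e G) *
          dP 2 P (G.map (Ideal.Quotient.mk (Ideal.span {P.1 ^ 2})))))))) := by
    apply AV_mono
    intro G _
    exact Ph_split (F := F) (D := D) hM (fun g => hcst M hM g) hc1 (k + 1) c n e T hT G
  rw [AV_Ph U.phi h2 S hM (by omega) (by omega)] at h1
  have e1 := AV_add n e (Pg S hM (k + 1) n e) (fun G => (cst * uc S (k + 1) n e G + (cst * bdI G + (cst * rtI G + (cst * lgI c n G +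
        ∑ P ∈ T, Ph S hM (fun P => WP P M) (WP (PlX F) M) (redV S M n e G) *
          dP 2 P (G.map (Ideal.Quotient.mk (Ideal.span {P.1 ^ 2}))))))))
  rw [e1, AV_add, AV_add, AV_add, AV_add, AV_mul, AV_mul, AV_mul, AV_mul, AV_sum] at h1
  have b1 : cst * AV n e (uc S (k + 1) n e) ≤ δ := by
    rw [AV_uc S (k + 1) (by omega) (by omega)]
    have := mul_le_mul_of_nonneg_left (hk (k + 1) (by omega)) hcpos.le
    rwa [mul_div_cancel₀ _ hcpos.ne'] at this
  have b2 : cst * AV n e (bdI (F := F)) ≤ δ := by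
    have h3 : AV n e (bdI (F := F)) = AV n e (fun G : Q4 F[X] => if BadC G.res then (1 : ℝ) else 0) := rfl
    rw [h3]
    have := mul_le_mul_of_nonneg_left n2.le hcpos.le
    rwa [mul_div_cancel₀ _ hcpos.ne'] at this
  have b3 : cst * AV n e (rtI (F := F)) ≤ δ := by
    have h3 : AV n e (rtI (F := F)) = AV n e (fun G : Q4 F[X] => if (G.map (toK F)).NR then (0 : ℝ) else 1) := rfl
    rw [h3]
    have := mul_le_mul_of_nonneg_left n3.le hcpos.le
    rwa [mul_div_cancel₀ _ hcpos.ne'] at this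
  have b4 : cst * AV n e (lgI (F := F) c n) ≤ δ := by
    have := mul_le_mul_of_nonneg_left n1 hcpos.le
    rwa [mul_div_cancel₀ _ hcpos.ne'] at this
  have hI0 := IPh_nonneg U.phi h2 S hM
  have hI1 := IPh_le (S := S) hM6
  have b5 : ∑ P ∈ T, AV n e (fun G => Ph S hM (fun P => WP P M) (WP (PlX F) M) (redV S M n e G) *
      dP 2 P (G.map (Ideal.Quotient.mk (Ideal.span {P.1 ^ 2})))) ≤ δ := by
    have h3 : ∀ P ∈ T, AV n e (fun G => Ph S hM (fun P => WP P M) (WP (PlX F) M) (redV S M n e G) *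
        dP 2 P (G.map (Ideal.Quotient.mk (Ideal.span {P.1 ^ 2})))) ≤
        c₀ * ((Fintype.card F : ℝ) ^ (2 * P.1.natDegree))⁻¹ := by
      intro P hP
      rw [hTdef, mem_filter] at hP
      have hPS : P ∉ S := by
        rw [hS, mem_PlD]
        omega
      refine (AV_med L.joint U.phi h2 hc₀ S hM (by omega) hPS (by omega)).trans ?_
      calc IPh S M * (c₀ * ((Fintype.card F : ℝ) ^ (2 * P.1.natDegree))⁻¹) ≤
          1 * (c₀ * ((Fintype.card F : ℝ) ^ (2 * P.1.natDegree))⁻¹) :=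
            mul_le_mul_of_nonneg_right hI1 (by positivity)
        _ = _ := one_mul _
    refine (sum_le_sum h3).trans ?_
    rw [← mul_sum]
    refine le_trans ?_ hD
    apply mul_le_mul_of_nonneg_left _ hc0
    exact sum_tail2 T D (fun P hP => by rw [hTdef, mem_filter] at hP; exact hP.2.1)
  linarith

end Pool.Agent.H456.BQ
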