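import Pool.Agent.H456.BQ.SLow4

/-!
# The lower bound for the average of the 2-Selmer sets
-/

set_option autoImplicit false
set_option linter.all false

open Polynomial Finset Filter
open Pool.Agent.H456.EC (toK toK_inj sig toK_eq reflect_toK)
open Pool.Agent.H456.RN

namespace Pool.Agent.H456.BQ

variable {F : Type} [Field F] [Fintype F]

/-- **the lower bound** for the average over the minimal equations -/
theorem H1L (U : HypU) (L : HypL) (h2 : (2 : F) ≠ 0) (ε : ℝ) (hε : 0 < ε) : ∀ᶠ n in atTop, ∀ (s : Finset (Cub F[X])),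
    (∀ f, f ∈ s ↔ f ∈ Msh F n ∧ ¬ BadC f) →
      (2 - ε) * (Msh F n).card ≤ ∑ f ∈ s, ((Nat.card (Sel (f.map (toK F))) : ℝ) - 1) := by
  classical
  have hq2 : 2 ≤ (Fintype.card F : ℝ) := q_ge
  set q : ℝ := (Fintype.card F : ℝ) with hq
  have hq0 : (0 : ℝ) < q := by linarith
  have hq1 : (0 : ℝ) < q - 1 := by linarith
  set δ : ℝ := ε / 164 with hδ
  have hδ0 : 0 < δ := by positivity
  obtain ⟨c₁, hc₁⟩ := L.dsq F h2
  set c₀ : ℝ := max c₁ 0 with hc₀def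
  have hc0 : 0 ≤ c₀ := le_max_right _ _
  have hc₀ : ∀ P : Pl F, (({g : Q4 (Rq (P.1 ^ 2)) | g.res.disc = 0}).ncard : ℝ) ≤
      c₀ * ((Fintype.card F : ℝ) ^ P.1.natDegree) ^ 8 := fun P =>
    (hc₁ P).trans (mul_le_mul_of_nonneg_right (le_max_left _ _) (by positivity))
  obtain ⟨D, hD⟩ : ∃ D : ℕ, c₀ * (2 * (1 / 2 : ℝ) ^ (D + 1)) ≤ δ := by
    obtain ⟨D, hD⟩ := exists_nat_gt (2 * c₀ / δ)
    refine ⟨D, ?_⟩
    have h1 : (D : ℝ) ≤ 2 ^ (D + 1) := by
      have h4 : D + 1 < 2 ^ (D + 1) := Nat.lt_two_pow_self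
      have h5 : D ≤ 2 ^ (D + 1) := by omega
      exact_mod_cast h5
    have h3 : 2 * c₀ < δ * 2 ^ (D + 1) := by
      have := (div_lt_iff₀ hδ0).1 (lt_of_lt_of_le hD h1)
      linarith
    have e1 : c₀ * (2 * (1 / 2 : ℝ) ^ (D + 1)) = 2 * c₀ / 2 ^ (D + 1) := by
      rw [one_div, inv_pow]
      ring
    rw [e1, div_le_iff₀ (by positivity)]
    exact h3.le
  obtain ⟨M, k, hM, hM6, hMk, hAV⟩ := AV_Pg U L h2 hc0 hc₀ hδ0 hD
  set S := PlD F D with hS
  obtain ⟨hμ0, hμ1⟩ := muS_le (S := S) hM6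
  set μ := muS S M with hμ
  have hI0 : 0 ≤ IPh S M := IPh_nonneg U.phi h2 S hM
  have hI1 : IPh S M ≤ 1 := IPh_le hM6
  have hE : 1 - q⁻¹ ≤ ∏ P ∈ S, (1 - (q ^ (2 * P.1.natDegree))⁻¹) := L.euler2 F S
  -- the constant
  set s₀ : ℝ := 2 / ((q - 1) ^ 2 * (q + 1)) with hs₀
  set A : ℝ := q ^ 3 * s₀ with hA
  have hA0 : 0 ≤ A := by positivity
  have hA8 : A ≤ 8 := by
    rw [hA, hs₀, ← mul_div_assoc, div_le_iff₀ (by positivity)]
    have h1 : 0 ≤ (q - 2) := by linarith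
    nlinarith [mul_nonneg h1 h1, mul_nonneg h1 hq0.le, mul_nonneg (mul_nonneg h1 h1) hq0.le, mul_nonneg (mul_nonneg h1 hq0.le) hq0.le]
  have hA2 : A * ((1 - q⁻¹) * (1 - (q ^ 2)⁻¹)) = 2 := by
    rw [hA, hs₀]
    have h1 : q - 1 ≠ 0 := hq1.ne'
    have h3 : q + 1 ≠ 0 := by positivity
    field_simp
    ring
  have hκ0 : 0 ≤ 1 - (q ^ 2)⁻¹ := by
    have : (q ^ 2)⁻¹ ≤ 1 := inv_le_one_of_one_le₀ (by nlinarith)
    linarith
  have hI : 2 * μ ≤ A * IPh S M := by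
    have h1 : (1 - q⁻¹) * (1 - (q ^ 2)⁻¹) * μ ≤ IPh S M := by
      unfold IPh
      exact mul_le_mul_of_nonneg_right (mul_le_mul_of_nonneg_right hE hκ0) hμ0
    have h3 := mul_le_mul_of_nonneg_left h1 hA0
    have h4 : A * ((1 - q⁻¹) * (1 - (q ^ 2)⁻¹) * μ) = 2 * μ := by
      linear_combination μ * hA2
    linarith
  -- finitely many levels suffice
  have hsum : HasSum (fun e : ℕ => (pa F e)⁻¹) s₀ := hasSum_pa
  have hpa : ∀ e, 0 ≤ (pa F e)⁻¹ := fun e => inv_nonneg.2 (pa_pos e).le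
  obtain ⟨e₀, he₀⟩ : ∃ e₀ : ℕ, s₀ - δ / q ^ 3 ≤ ∑ e ∈ range e₀, (pa F e)⁻¹ := by
    have h1 := hsum.tendsto_sum_nat.eventually_const_lt (show s₀ - δ / q ^ 3 < s₀ by
      have : 0 < δ / q ^ 3 := by positivity
      linarith)
    obtain ⟨e₀, h⟩ := h1.exists
    exact ⟨e₀, h.le⟩
  set s₁ : ℝ := ∑ e ∈ range e₀, (pa F e)⁻¹ with hs₁
  have hs₁0 : 0 ≤ s₁ := sum_nonneg fun e _ => hpa e
  have hs₁1 : s₁ ≤ s₀ := sum_le_hasSum _ (fun e _ => hpa e) hsum
  have hall : ∀ᶠ n in atTop, ∀ e ∈ range e₀, IPh S M - 5 * δ ≤ AV n e (Pg S hM (k + 1) n e) := by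
    rw [eventually_all_finset]
    exact fun e _ => hAV e
  filter_upwards [hall, H3 (F := F) h2, eventually_ge_atTop (dS S M + e₀)] with n h1 h3 h4 s hs
  have h5 := low_count U L h2 hM6 hM hMk (S := S) n s hs
  have h6 : A * IPh S M - 41 * δ ≤ Tot (fun n e G => Pg S hM (k + 1) n e G) n := by
    rw [Tot_eq, ← hq]
    have h7 : ∑ e ∈ range e₀, (pa F e)⁻¹ * (IPh S M - 5 * δ) ≤
        ∑ e ∈ range (n + 1), (pa F e)⁻¹ * AV n e ((fun n e G => Pg S hM (k + 1) n e G) n e) := by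
      calc ∑ e ∈ range e₀, (pa F e)⁻¹ * (IPh S M - 5 * δ) ≤
          ∑ e ∈ range e₀, (pa F e)⁻¹ * AV n e ((fun n e G => Pg S hM (k + 1) n e G) n e) :=
            sum_le_sum fun e he => mul_le_mul_of_nonneg_left (h1 e he) (hpa e)
        _ ≤ _ := by
            apply sum_le_sum_of_subset_of_nonneg
            · intro e he
              rw [mem_range] at he ⊢
              omega
            · intro e _ _
              exact mul_nonneg (hpa e) (AV_nonneg fun G => Pg_nonneg _ _ _ _ _ _)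
    rw [← sum_mul, ← hs₁] at h7
    have h8 : q ^ 3 * (s₁ * (IPh S M - 5 * δ)) ≤ q ^ 3 *
        ∑ e ∈ range (n + 1), (pa F e)⁻¹ * AV n e ((fun n e G => Pg S hM (k + 1) n e G) n e) :=
      mul_le_mul_of_nonneg_left h7 (by positivity)
    refine le_trans ?_ h8
    have h9 : (s₀ - δ / q ^ 3) * IPh S M ≤ s₁ * IPh S M := mul_le_mul_of_nonneg_right he₀ hI0
    have h10 : s₁ * (5 * δ) ≤ s₀ * (5 * δ) := mul_le_mul_of_nonneg_right hs₁1 (by positivity)
    have h11 : q ^ 3 * ((s₀ - δ / q ^ 3) * IPh S M - s₀ * (5 * δ)) ≤ q ^ 3 * (s₁ * (IPh S M - 5 * δ)) :=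
      mul_le_mul_of_nonneg_left (by linarith) (by positivity)
    have h12 : q ^ 3 * ((s₀ - δ / q ^ 3) * IPh S M - s₀ * (5 * δ)) = A * IPh S M - δ * IPh S M - 5 * (A * δ) := by
      rw [hA]
      field_simp
    have h13 : δ * IPh S M ≤ δ * 1 := mul_le_mul_of_nonneg_left hI1 hδ0.le
    have h14 : A * δ ≤ 8 * δ := mul_le_mul_of_nonneg_right hA8 hδ0.le
    linarith
  rw [← hq] at h3 h5
  have hB : 0 < q ^ (12 * n + 3) := by positivity
  set B := q ^ (12 * n + 3) with hBdef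
  have h8 := card_MinS (F := F) S (M := M) (n := n) hM6 (by omega)
  rw [← hq, ← hμ, ← hBdef] at h8
  have h9 : ((Msh F n).card : ℝ) ≤ μ * B := by
    rw [← h8]
    have : (Msh F n).card ≤ ((Sb F n).filter (fun f => MinS S n f)).card := by
      apply card_le_card
      intro f hf
      rw [mem_Msh] at hf
      rw [mem_filter, mem_Sb]
      obtain ⟨hm1, hm2⟩ := (MinAll_crv h2).1 hf.2.2
      exact ⟨hf.1, fun P _ => hm1 P, hm2⟩
    exact_mod_cast this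
  have h10 : (2 * μ - 41 * δ) * B ≤ Tot (fun n e G => Pg S hM (k + 1) n e G) n * B :=
    mul_le_mul_of_nonneg_right (by linarith) hB.le
  have h14 : B ≤ 4 * (Msh F n).card := by linarith
  have h15 : 41 * δ * B ≤ ε * (Msh F n).card := by
    have : 41 * δ * B ≤ 41 * δ * (4 * (Msh F n).card) := mul_le_mul_of_nonneg_left h14 (by positivity)
    have e1 : 41 * δ * (4 * ((Msh F n).card : ℝ)) = ε * (Msh F n).card := by rw [hδ]; ring
    linarith
  linarith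

end Pool.Agent.H456.BQ
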