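import Pool.Agent.H456.BQ.SGlue2

/-!
# The upper bound for the average of the 2-Selmer sets
-/

set_option autoImplicit false
set_option linter.all false

open Polynomial Finset Filter
open Pool.Agent.H456.EC (toK toK_inj sig toK_eq reflect_toK)
open Pool.Agent.H456.RN

namespace Pool.Agent.H456.BQ

variable {F : Type} [Field F] [Fintype F]

/-- a representative of every nonzero class, with its weight -/
theorem weight_geS (U : HypU) (h2 : (2 : F) ≠ 0) {n : ℕ} {f : Cub F[X]} (hd : CDg n f) (hf : f.disc ≠ 0)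
    (σ : Sel (f.map (toK F))) (hσ : σ ≠ 0) :
    1 ≤ ∑ e ∈ range (n + 1), ∑ p ∈ PnS n e f σ, (Fintype.card F : ℝ) ^ 3 / pa F e := by
  obtain ⟨e, he, p, hp, h1, h3, hA⟩ := exists_ClS U.locIS U.tupS h2 hf hd hσ
  have hmem : p ∈ PnS n e f σ := mem_PnS.2 ⟨⟨h1, h3⟩, hp⟩
  have h4 := le_card_PnS' h2 he hf hmem hA
  have hpa : 0 < pa F e := pa_pos e
  have h5 : 1 ≤ ∑ p ∈ PnS n e f σ, (Fintype.card F : ℝ) ^ 3 / pa F e := by
    rw [sum_const, nsmul_eq_mul, ← mul_div_assoc, le_div_iff₀ hpa, one_mul, mul_comm]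
    exact h4
  refine h5.trans ?_
  apply single_le_sum (f := fun e => ∑ p ∈ PnS n e f σ, (Fintype.card F : ℝ) ^ 3 / pa F e) _
    (mem_range.2 (by omega : e < n + 1))
  intro i _
  apply sum_nonneg
  intro p _
  have := pa_pos (F := F) i
  positivity

/-- **finiteness** of the 2-Selmer set -/
theorem finite_Sel (U : HypU) (h2 : (2 : F) ≠ 0) {f : Cub F[X]} (hf : f.disc ≠ 0) : Finite (Sel (f.map (toK F))) := by
  obtain ⟨n, hn⟩ := exists_CDg f
  refine (countS h2 (n := n) {f}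
    (fun e G => (Fintype.card F : ℝ) ^ 3 / pa F e) (fun e G => by have := pa_pos (F := F) e; positivity) ?_).1 f
    (mem_singleton_self _)
  intro g hg σ hσ
  have e := mem_singleton.1 hg
  subst e
  exact weight_geS U h2 hn hf σ hσ

theorem card_Sel_ge (U : HypU) (h2 : (2 : F) ≠ 0) {f : Cub F[X]} (hf : f.disc ≠ 0) :
    (0 : ℝ) ≤ (Nat.card (Sel (f.map (toK F))) : ℝ) - 1 := by
  have := finite_Sel U h2 hf
  have h0 : Nonempty (Sel (f.map (toK F))) := ⟨0⟩
  have h1 : 1 ≤ Nat.card (Sel (f.map (toK F))) := Nat.card_pos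
  have h3 : (1 : ℝ) ≤ Nat.card (Sel (f.map (toK F))) := by exact_mod_cast h1
  linarith

theorem PnS_bad (h2 : (2 : F) ≠ 0) {n e : ℕ} {f : Cub F[X]} {σ : Sel (f.map (toK F))} {p : Q4 F[X] × F[X]}
    (hp : p ∈ PnS n e f σ) (hb : BadC f) : BadC p.1.res := by
  rw [ClS_res (mem_PnS.1 hp).2]
  exact BadC_of h2 hb

open Classical in
/-- **the exceptional cubics are negligible** -/
theorem bad_limS (U : HypU) (h2 : (2 : F) ≠ 0) :
    Tendsto (fun n => (∑ f ∈ (Sb F n).filter (fun f => f.disc ≠ 0 ∧ BadC f),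
      ((Nat.card (Sel (f.map (toK F))) : ℝ) - 1)) /
      (Fintype.card F : ℝ) ^ (12 * n + 3)) atTop (nhds 0) := by
  have hq2 : 2 ≤ (Fintype.card F : ℝ) := q_ge
  have hq0 : (0 : ℝ) < Fintype.card F := by linarith
  set φ : ℕ → ℕ → Q4 F[X] → ℝ := fun _ _ G => (Fintype.card F : ℝ) ^ 3 * (if BadC G.res then (1 : ℝ) else 0) with hφ
  have hφ0 : ∀ n e G, 0 ≤ φ n e G := by
    intro n e G
    rw [hφ]
    simp only
    split_ifs <;> positivity
  have hφ1 : ∀ n e G, φ n e G ≤ (Fintype.card F : ℝ) ^ 3 := by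
    intro n e G
    rw [hφ]
    simp only
    split_ifs
    · rw [mul_one]
    · rw [mul_zero]; positivity
  have hI : ∀ e, Tendsto (fun n => AV n e (φ n e)) atTop (nhds 0) := by
    intro e
    have h1 := (AV_bad h2 e).const_mul ((Fintype.card F : ℝ) ^ 3)
    rw [mul_zero] at h1
    refine h1.congr ?_
    intro n
    rw [hφ]
    unfold AV
    simp only
    rw [← mul_sum, mul_div_assoc]
  have h3 := tendsto_Tot hφ0 hφ1 hI
  rw [zero_mul, mul_zero] at h3
  refine squeeze_zero ?_ ?_ h3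
  · intro n
    apply div_nonneg _ (by positivity)
    apply sum_nonneg
    intro f hf
    exact card_Sel_ge U h2 (mem_filter.1 hf).2.1
  · intro n
    unfold Tot
    apply div_le_div_of_nonneg_right _ (by positivity)
    refine (countS h2 (n := n) _ (fun e G => φ n e G / pa F e)
      (fun e G => div_nonneg (hφ0 n e G) (pa_pos e).le) ?_).2
    intro f hf σ hσ
    rw [mem_filter] at hf
    refine (weight_geS U h2 (mem_Sb.1 hf.1) hf.2.1 σ hσ).trans (le_of_eq ?_)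
    apply sum_congr rfl
    intro e _
    apply sum_congr rfl
    intro p hp
    rw [hφ]
    simp only
    rw [if_pos (PnS_bad h2 hp hf.2.2), mul_one]

/-- the condition for the pairs representing a class of an uncontrolled cubic -/
theorem uc_geS (h2 : (2 : F) ≠ 0) {S : Finset (Pl F)} {j n e : ℕ} (he : e ≤ n) {f : Cub F[X]}
    (hd : CDg n f) {σ : Sel (f.map (toK F))} {p : Q4 F[X] × F[X]} (hp : p ∈ PnS n e f σ)
    (h : (∃ P ∈ S, P.1 ^ j ∣ f.disc) ∨ X ^ j ∣ (crev n f).disc) : 1 ≤ uc S j n e p.1 := by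
  classical
  obtain ⟨⟨hB, hdeg⟩, hcl⟩ := mem_PnS.1 hp
  have hres := ClS_res hcl
  rcases h with ⟨P, hP, hdvd⟩ | hdvd
  · have h1 : dP j P (p.1.map (Ideal.Quotient.mk (Ideal.span {P.1 ^ j}))) = 1 := by
      unfold dP
      rw [if_pos]
      rw [Q4.map_res, Cub.map_disc, hres, mk_zero, Cub.disc_tr, Cub.disc_sc]
      exact hdvd.mul_left _
    have h3 : dP j P (p.1.map (Ideal.Quotient.mk (Ideal.span {P.1 ^ j}))) ≤
        ∑ P ∈ S, dP j P (p.1.map (Ideal.Quotient.mk (Ideal.span {P.1 ^ j}))) :=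
      single_le_sum (f := fun P : Pl F => dP j P (p.1.map (Ideal.Quotient.mk (Ideal.span {P.1 ^ j}))))
        (fun P _ => dP_nonneg _ _ _) hP
    have h4 := dP_nonneg j (PlX F) ((revV n e p.1).map (Ideal.Quotient.mk (Ideal.span {(PlX F).1 ^ j})))
    unfold uc
    linarith
  · have h1 : dP j (PlX F) ((revV n e p.1).map (Ideal.Quotient.mk (Ideal.span {(PlX F).1 ^ j}))) = 1 := by
      unfold dP
      rw [if_pos]
      rw [Q4.map_res, Cub.map_disc, revV_res he hd hB hdeg hres, mk_zero, Cub.disc_tr, Cub.disc_sc]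
      exact hdvd.mul_left _
    have h3 : 0 ≤ ∑ P ∈ S, dP j P (p.1.map (Ideal.Quotient.mk (Ideal.span {P.1 ^ j}))) :=
      sum_nonneg fun P _ => dP_nonneg _ _ _
    unfold uc
    linarith

/-- one representative gives a full orbit -/
theorem one_le_paS (U : HypU) (h2 : (2 : F) ≠ 0) {n : ℕ} {f : Cub F[X]} (hd : CDg n f) (hf : f.disc ≠ 0)
    (hn : NoTwo f) {σ : Sel (f.map (toK F))}
    (hσ : σ ≠ 0) : 1 ≤ ∑ e ∈ range (n + 1), ∑ p ∈ PnS n e f σ, 1 / pa F e := by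
  obtain ⟨e, he, p, hp, h1, h3, hA⟩ := exists_ClS U.locIS U.tupS h2 hf hd hσ
  have hmem : p ∈ PnS n e f σ := mem_PnS.2 ⟨⟨h1, h3⟩, hp⟩
  have h4 := le_card_PnS U.stab h2 he hf hn hmem
  have hpa : 0 < pa F e := pa_pos e
  have h5 : 1 ≤ ∑ p ∈ PnS n e f σ, 1 / pa F e := by
    rw [sum_const, nsmul_eq_mul, mul_one_div, le_div_iff₀ hpa, one_mul]
    exact h4
  refine h5.trans ?_
  apply single_le_sum (f := fun e => ∑ p ∈ PnS n e f σ, 1 / pa F e) _
    (mem_range.2 (by omega : e < n + 1))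
  intro i _
  apply sum_nonneg
  intro p _
  have := pa_pos (F := F) i
  positivity

/-- the weighted number of the representatives of a class -/
theorem phi_geS (U : HypU) (h2 : (2 : F) ≠ 0) {n M k : ℕ} (hk : 2 * k + 1 ≤ M) (hM6 : 6 ≤ M) (hM : 1 ≤ M)
    (S : Finset (Pl F)) {f : Cub F[X]} (hf : f.disc ≠ 0) (hd : CDg n f) (hn : NoTwo f)
    (hmin : (∀ P : Pl F, ¬ NMc P.1 f) ∧ ¬ NMc X (crev n f)) {σ : Sel (f.map (toK F))} (hσ : σ ≠ 0) :
    1 ≤ ∑ e ∈ range (n + 1), ∑ p ∈ PnS n e f σ, phi S hM (k + 1) n e p.1 / pa F e := by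
  by_cases hc : (∃ P ∈ S, P.1 ^ (k + 1) ∣ f.disc) ∨ X ^ (k + 1) ∣ (crev n f).disc
  · refine (one_le_paS U h2 hd hf hn hσ).trans ?_
    apply sum_le_sum
    intro e he
    apply sum_le_sum
    intro p hp
    apply div_le_div_of_nonneg_right _ (pa_pos e).le
    have h1 := uc_geS h2 (Nat.lt_succ_iff.1 (mem_range.1 he)) hd hp hc
    have h3 := Ph_nonneg hM (redV S M n e p.1)
    unfold phi
    linarith
  · push Not at hc
    have hWX : ∀ r : F[X], (1 + (((crev n f).map (Ideal.Quotient.mk (Ideal.span {(X : F[X]) ^ M}))).nA : ℝ) /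
        (Fintype.card F : ℝ) ^ (M - 1))⁻¹ ≤
        WP (PlX F) M ((((crev n f).sc 4).tr r).map (Ideal.Quotient.mk (Ideal.span {(X : F[X]) ^ M}))) := by
      intro r
      have h1 := WP_eq h2 (P := PlX F) hM6 (f := crev n f) hmin.2 r
      have e1 : (PlX F).1.natDegree = 1 := natDegree_X
      rw [e1, pow_one] at h1
      exact le_of_eq h1
    have h1 := glue_sumS U h2 hk hM S hf hd hn
      hc.1 hc.2 (W := fun P => WP P M) (Wi := WP (PlX F) M)
      (fun P g => WP_nonneg P M g) (fun g => WP_nonneg (PlX F) M g)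
      (fun P _ r => le_of_eq (WP_eq h2 hM6 (hmin.1 P) r)) hWX hσ
    refine h1.trans ?_
    apply sum_le_sum
    intro e he
    apply sum_le_sum
    intro p hp
    apply div_le_div_of_nonneg_right _ (pa_pos e).le
    have h3 := uc_nonneg S (k + 1) n e p.1
    unfold phi
    linarith

open Classical in
theorem count_phiS (U : HypU) (h2 : (2 : F) ≠ 0) {n M k : ℕ} (hk : 2 * k + 1 ≤ M) (hM6 : 6 ≤ M) (hM : 1 ≤ M)
    (S : Finset (Pl F)) : ∑ f ∈ (Msh F n).filter (fun f => ¬ BadC f), ((Nat.card (Sel (f.map (toK F))) : ℝ) - 1) ≤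
      Tot (fun n e G => phi S hM (k + 1) n e G) n * (Fintype.card F : ℝ) ^ (12 * n + 3) := by
  have hq2 : 2 ≤ (Fintype.card F : ℝ) := q_ge
  have hφ0 : ∀ n e G, 0 ≤ phi S hM (k + 1) n e G := by
    intro n e G
    unfold phi
    exact add_nonneg (Ph_nonneg _ _) (uc_nonneg _ _ _ _ _)
  have h1 := (countS h2 (n := n) ((Msh F n).filter (fun f => ¬ BadC f))
    (fun e G => phi S hM (k + 1) n e G / pa F e)
    (fun e G => div_nonneg (hφ0 n e G) (pa_pos e).le) ?_).2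
  · refine h1.trans (le_of_eq ?_)
    unfold Tot
    rw [div_mul_cancel₀ _ (by positivity)]
  · intro f hf σ hσ
    rw [mem_filter, mem_Msh] at hf
    obtain ⟨⟨hd, hf', hm⟩, hb⟩ := hf
    have hn : NoTwo f := fun r hr => hb (Or.inr ⟨r, hr⟩)
    exact phi_geS U h2 hk hM6 hM S hf' hd hn ((MinAll_crv h2).1 hm) hσ

/-- **the upper bound** for given places -/
theorem upperS (U : HypU) (h2 : (2 : F) ≠ 0) (S : Finset (Pl F)) (ε : ℝ) (hε : 0 < ε) : ∃ M : ℕ, 6 ≤ M ∧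
    ∀ᶠ n in atTop, ∀ (s : Finset (Cub F[X])), (∀ f, f ∈ s ↔ f ∈ Msh F n ∧ ¬ BadC f) →
      ∑ f ∈ s, ((Nat.card (Sel (f.map (toK F))) : ℝ) - 1) ≤ ((Fintype.card F : ℝ) ^ 3 *
        ((IPh S M + ε) * (2 / (((Fintype.card F : ℝ) - 1) ^ 2 * ((Fintype.card F : ℝ) + 1)))) + ε) *
        (Fintype.card F : ℝ) ^ (12 * n + 3) := by
  classical
  have hq2 : 2 ≤ (Fintype.card F : ℝ) := q_ge
  have hq0 : (0 : ℝ) < Fintype.card F := by linarith
  have hq1 : (0 : ℝ) < (Fintype.card F : ℝ) - 1 := by linarith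
  obtain ⟨k, hk⟩ := uc_small U.disc4 h2 S ε hε
  set M : ℕ := max 6 (2 * k + 1) with hMdef
  have hM6 : 6 ≤ M := le_max_left _ _
  have hMk : 2 * k + 1 ≤ M := le_max_right _ _
  have hM : 1 ≤ M := by omega
  refine ⟨M, hM6, ?_⟩
  set φ : ℕ → ℕ → Q4 F[X] → ℝ := fun n e G => phi S hM (k + 1) n e G with hφ
  have hφ0 : ∀ n e G, 0 ≤ φ n e G := by
    intro n e G
    exact add_nonneg (Ph_nonneg _ _) (uc_nonneg _ _ _ _ _)
  have hφc : ∀ n e G, φ n e G ≤ (∑ g, Ph S hM (fun P => WP P M) (WP (PlX F) M) g) + (S.card + 1) := by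
    intro n e G
    apply add_le_add
    · exact single_le_sum (f := fun g => Ph S hM (fun P => WP P M) (WP (PlX F) M) g) (fun g _ => Ph_nonneg hM g)
        (mem_univ (redV S M n e G))
    · exact uc_le _ _ _ _ _
  set L : ℝ := (∑ P ∈ S, (∑ g, dP (k + 1) P g) / (((Fintype.card F : ℝ) ^ P.1.natDegree) ^ (k + 1)) ^ 5) +
      (∑ g, dP (k + 1) (PlX F) g) / ((Fintype.card F : ℝ) ^ (k + 1)) ^ 5 with hL
  have hLε : L ≤ ε := hk (k + 1) (by omega)
  have hI : ∀ e, Tendsto (fun n => AV n e (φ n e)) atTop (nhds (IPh S M + L)) := by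
    intro e
    refine tendsto_const_nhds.congr' ?_
    filter_upwards [eventually_ge_atTop (e + dS S M + dS S (k + 1))] with n hn
    have h1 : AV n e (φ n e) = AV n e (fun G => Ph S hM (fun P => WP P M) (WP (PlX F) M) (redV S M n e G)) +
      AV n e (uc S (k + 1) n e) := AV_add n e _ _
    rw [h1, AV_Ph U.phi h2 S hM (by omega) (by omega), AV_uc S (k + 1) (by omega) (by omega)]
  have hT := tendsto_Tot hφ0 hφc hI
  have hlt : (Fintype.card F : ℝ) ^ 3 *
      ((IPh S M + L) * (2 / (((Fintype.card F : ℝ) - 1) ^ 2 * ((Fintype.card F : ℝ) + 1)))) <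
      (Fintype.card F : ℝ) ^ 3 *
        ((IPh S M + ε) * (2 / (((Fintype.card F : ℝ) - 1) ^ 2 * ((Fintype.card F : ℝ) + 1)))) + ε := by
    have h1 : (IPh S M + L) * (2 / (((Fintype.card F : ℝ) - 1) ^ 2 * ((Fintype.card F : ℝ) + 1))) ≤
        (IPh S M + ε) * (2 / (((Fintype.card F : ℝ) - 1) ^ 2 * ((Fintype.card F : ℝ) + 1))) :=
      mul_le_mul_of_nonneg_right (by linarith) (by positivity)
    have h3 := mul_le_mul_of_nonneg_left h1 (by positivity : 0 ≤ (Fintype.card F : ℝ) ^ 3)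
    linarith
  filter_upwards [hT.eventually_lt_const hlt] with n hn s hs
  have es : s = (Msh F n).filter (fun f => ¬ BadC f) := by
    ext f
    rw [hs, mem_filter]
  rw [es]
  exact (count_phiS U h2 hMk hM6 hM S).trans (mul_le_mul_of_nonneg_right hn.le (by positivity))

/-- **the average over the minimal equations** -/
theorem H1S (U : HypU) (h2 : (2 : F) ≠ 0) (ε : ℝ) (hε : 0 < ε) : ∀ᶠ n in atTop, ∀ (s : Finset (Cub F[X])),
    (∀ f, f ∈ s ↔ f ∈ Msh F n ∧ ¬ BadC f) →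
      ∑ f ∈ s, ((Nat.card (Sel (f.map (toK F))) : ℝ) - 1) ≤ (2 + ε) * (Msh F n).card := by
  classical
  have hq2 : 2 ≤ (Fintype.card F : ℝ) := q_ge
  set q : ℝ := (Fintype.card F : ℝ) with hq
  have hq0 : (0 : ℝ) < q := by linarith
  have hq1 : (0 : ℝ) < q - 1 := by linarith
  set δ : ℝ := ε / 84 with hδ
  have hδ0 : 0 < δ := by positivity
  obtain ⟨D₁, hD₁⟩ := U.euler F δ hδ0
  obtain ⟨D₂, hD₂⟩ := exists_nat_gt (2 / δ)
  set D := max D₁ D₂ with hD
  set S := PlD F D with hS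
  have hτ : 2 * (1 / 2 : ℝ) ^ (9 * (D + 1)) ≤ δ := by
    have h1 : (D₂ : ℝ) ≤ 2 ^ (9 * (D + 1)) := by
      have h3 : D₂ ≤ 9 * (D + 1) := by
        have := le_max_right D₁ D₂
        omega
      have h4 : 9 * (D + 1) < 2 ^ (9 * (D + 1)) := Nat.lt_two_pow_self
      have h5 : D₂ ≤ 2 ^ (9 * (D + 1)) := h3.trans h4.le
      exact_mod_cast h5
    have h3 : 2 < δ * 2 ^ (9 * (D + 1)) := by
      have := (div_lt_iff₀ hδ0).1 (lt_of_lt_of_le hD₂ h1)
      linarith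
    rw [one_div, inv_pow, ← div_eq_mul_inv, div_le_iff₀ (by positivity)]
    linarith
  obtain ⟨M, hM6, hup⟩ := upperS U h2 S δ hδ0
  obtain ⟨hμ0, hμ1⟩ := muS_le (S := S) hM6
  set μ := muS S M with hμ
  have hE : ∏ P ∈ S, (1 - (q ^ (2 * P.1.natDegree))⁻¹) ≤ 1 - q⁻¹ + δ :=
    hD₁ S (fun P hP => mem_PlD.2 (hP.trans (le_max_left _ _)))
  -- the constant
  set A : ℝ := q ^ 3 * (2 / ((q - 1) ^ 2 * (q + 1))) with hA
  have hA0 : 0 ≤ A := by positivity
  have hA8 : A ≤ 8 := by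
    rw [hA, ← mul_div_assoc, div_le_iff₀ (by positivity)]
    have h1 : 0 ≤ (q - 2) := by linarith
    nlinarith [mul_nonneg h1 h1, mul_nonneg h1 hq0.le, mul_nonneg (mul_nonneg h1 h1) hq0.le, mul_nonneg (mul_nonneg h1 hq0.le) hq0.le]
  have hA2 : A * ((1 - q⁻¹) * (1 - (q ^ 2)⁻¹)) = 2 := by
    rw [hA]
    have h1 : q - 1 ≠ 0 := hq1.ne'
    have h3 : q + 1 ≠ 0 := by positivity
    field_simp
    ring
  have hκ0 : 0 ≤ 1 - (q ^ 2)⁻¹ := by
    have : (q ^ 2)⁻¹ ≤ 1 := inv_le_one_of_one_le₀ (by nlinarith)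
    linarith
  have hκ1 : 1 - (q ^ 2)⁻¹ ≤ 1 := by
    have : 0 ≤ (q ^ 2)⁻¹ := by positivity
    linarith
  have hI : A * IPh S M ≤ 2 * μ + 8 * δ := by
    have h1 : IPh S M ≤ (1 - q⁻¹ + δ) * (1 - (q ^ 2)⁻¹) * μ := by
      unfold IPh
      exact mul_le_mul_of_nonneg_right (mul_le_mul_of_nonneg_right hE hκ0) hμ0
    have h3 := mul_le_mul_of_nonneg_left h1 hA0
    have h4 : A * ((1 - q⁻¹ + δ) * (1 - (q ^ 2)⁻¹) * μ) = 2 * μ + A * δ * ((1 - (q ^ 2)⁻¹) * μ) := by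
      linear_combination μ * hA2
    have h5 : A * δ * ((1 - (q ^ 2)⁻¹) * μ) ≤ 8 * δ * 1 := by
      apply mul_le_mul (mul_le_mul_of_nonneg_right hA8 hδ0.le) _ (mul_nonneg hκ0 hμ0) (by positivity)
      calc (1 - (q ^ 2)⁻¹) * μ ≤ 1 * 1 := mul_le_mul hκ1 hμ1 hμ0 (by norm_num)
        _ = 1 := one_mul 1
    linarith
  filter_upwards [hup, disc0_small (F := F) δ hδ0, H3 (F := F) h2, eventually_ge_atTop (dS S M)] with n h1 h3 h4 h5 s hs
  have h6 := h1 s hs
  have h7 := Msh_ge (F := F) h2 D n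
  have h8 := card_MinS (F := F) S (M := M) (n := n) hM6 (by omega)
  rw [← hS, h8, ← hq, ← hμ] at h7
  rw [← hq] at h3 h4 h6
  have hB : 0 < q ^ (12 * n + 3) := by positivity
  set B := q ^ (12 * n + 3) with hBdef
  have h9 : (2 : ℝ) * (1 / 2 : ℝ) ^ (9 * (D + 1)) * B ≤ δ * B := mul_le_mul_of_nonneg_right hτ hB.le
  have h10 : μ * B ≤ (Msh F n).card + 2 * δ * B := by linarith
  have h11 : q ^ 3 * ((IPh S M + δ) * (2 / ((q - 1) ^ 2 * (q + 1)))) + δ ≤ 2 * μ + 17 * δ := by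
    have e1 : q ^ 3 * ((IPh S M + δ) * (2 / ((q - 1) ^ 2 * (q + 1)))) = A * IPh S M + A * δ := by
      rw [hA]; ring
    have e3 : A * δ ≤ 8 * δ := mul_le_mul_of_nonneg_right hA8 hδ0.le
    rw [e1]
    linarith
  have h12 := mul_le_mul_of_nonneg_right h11 hB.le
  have h13 : (2 * μ + 17 * δ) * B = 2 * (μ * B) + 17 * (δ * B) := by ring
  have h14 : B ≤ 4 * (Msh F n).card := by linarith
  have h15 : 21 * (δ * B) ≤ ε * (Msh F n).card := by
    have : 21 * δ * B ≤ 21 * δ * (4 * (Msh F n).card) := mul_le_mul_of_nonneg_left h14 (by positivity)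
    have e1 : 21 * δ * (4 * ((Msh F n).card : ℝ)) = ε * (Msh F n).card := by rw [hδ]; ring
    linarith
  linarith

end Pool.Agent.H456.BQ
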