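import Pool.Agent.H456.BQ.Base
import Pool.Agent.H456.BQ.Rep

/-!
# The average of `#E(K)/2E(K)` over `K = F(t)`: statements of the local lemmas

`F` is a finite field with `2 ≠ 0` (characteristic `3` included), `P` a monic irreducible polynomial (`P : Pl F`),
`q_P = #F ^ deg P`, `Rq (P ^ M) = F[X] / (P ^ M)`.
-/

set_option autoImplicit false
set_option linter.all false

open Polynomial Finset

namespace Pool.Agent.H456.BQ

/-- `O` is a complete discrete valuation ring with uniformizer `π`, the completion of `F[X]` at `P` -/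
structure Lc {F : Type} [Field F] (P : F[X]) {O : Type} [CommRing O] (π : O) (ι : F[X] →+* O) : Prop where
  pow : ∀ x : O, x ≠ 0 → ∃ (k : ℕ) (u : O), IsUnit u ∧ x = u * π ^ k
  nonunit : ¬ IsUnit π
  ne : π ≠ 0
  dvd : ∀ (k : ℕ) (x : F[X]), π ^ k ∣ ι x ↔ P ^ k ∣ x
  dense : ∀ (k : ℕ) (x : O), ∃ y : F[X], π ^ k ∣ x - ι y
  hensel : ∀ c₀ c₁ c₂ c₃ : O, π ∣ c₀ → IsUnit c₁ → ∃ w, π ∣ w ∧ c₀ + c₁ * w + c₂ * w ^ 2 + c₃ * w ^ 3 = 0

/-- the number of smooth points of `z² = g(u, v)` over the finite ring (field) `κ` -/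
noncomputable def Q4.sp {κ : Type} [CommRing κ] [Fintype κ] (g : Q4 κ) : ℕ := by
  classical exact
  ((univ : Finset (κ × κ)).filter (fun p => p.2 ^ 2 = g.ev p.1 1 ∧
    (p.2 ≠ 0 ∨ 4 * g.A * p.1 ^ 3 + 3 * g.B * p.1 ^ 2 + 2 * g.C * p.1 + g.D ≠ 0))).card +
  ((univ : Finset κ).filter (fun z => z ^ 2 = g.A ∧ (z ≠ 0 ∨ g.B ≠ 0))).card

/-- the number of solutions of `y² = f(x)` in the finite ring `R` -/
noncomputable def Cub.nA {R : Type} [CommRing R] [Fintype R] (f : Cub R) : ℕ := by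
  classical exact ((univ : Finset (R × R)).filter (fun p => p.2 ^ 2 = f.ev p.1)).card

/-- the reduction modulo `P` -/
noncomputable def redP {F : Type} [Field F] (P : F[X]) {M : ℕ} (hM : 1 ≤ M) : Rq (P ^ M) →+* Rq (P ^ 1) :=
  Ideal.Quotient.factor (by
    rw [Ideal.span_singleton_le_span_singleton]
    exact pow_dvd_pow P hM)

/-- the lattices of `N` and `N'` are homothetic: `N' = c N V` with `V ∈ GL₂(O)` -/
def LEq (O : Type) {L : Type} [CommRing O] [Field L] [Algebra O L] (N N' : M2 L) : Prop :=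
  ∃ (c : L) (V : M2 O), c ≠ 0 ∧ IsUnit V.det ∧ N' = (N.mul (V.map (algebraMap O L))).scal c

/-- **(S1)** Euler product of the zeta function of the affine line at `2`. -/
def S_euler : Prop := ∀ (F : Type) [Field F] [Fintype F] (ε : ℝ), 0 < ε → ∃ D : ℕ, ∀ S : Finset (Pl F),
  (∀ P : Pl F, P.1.natDegree ≤ D → P ∈ S) →
    ∏ P ∈ S, (1 - ((Fintype.card F : ℝ) ^ (2 * P.1.natDegree))⁻¹) ≤ 1 - (Fintype.card F : ℝ)⁻¹ + ε

/-- **(S2)** existence of the completions. -/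
def S_comp : Prop := ∀ (F : Type) [Field F] [Finite F] (P : F[X]), P.Monic → Irreducible P →
  ∃ (O : Type) (_ : CommRing O) (_ : IsDomain O) (π : O) (ι : F[X] →+* O), Lc P π ι

/-- **(S3)** the Mordell-Weil theorem, from the finiteness of `E(K)/2E(K)`. -/
def S_fg : Prop := ∀ (F : Type) [Field F] [Finite F] [DecidableEq (RatFunc F)], (2 : F) ≠ 0 →
  ∀ (a b c : F[X]), (⟨0, a, 0, b, c⟩ : WeierstrassCurve F[X]).Δ ≠ 0 →
    Finite ((((⟨0, a, 0, b, c⟩ : WeierstrassCurve F[X]).map (algebraMap F[X] (RatFunc F))).toAffine.Point) ⧸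
      (nsmulAddMonoidHom (α := (((⟨0, a, 0, b, c⟩ : WeierstrassCurve F[X]).map
        (algebraMap F[X] (RatFunc F))).toAffine.Point)) 2).range) →
    AddGroup.FG (((⟨0, a, 0, b, c⟩ : WeierstrassCurve F[X]).map (algebraMap F[X] (RatFunc F))).toAffine.Point)

/-- **(S4)** the local count of quartics weighted by smooth points. -/
def S_star : Prop := ∀ (F : Type) [Field F] [Fintype F], (2 : F) ≠ 0 → ∀ (P : Pl F) (M : ℕ) (hM : 1 ≤ M)
  (Φ : Cub (Rq (P.1 ^ M)) → ℝ), (∀ f r, Φ (f.tr r) = Φ f) →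
    ∑ g : Q4 (Rq (P.1 ^ M)), ((g.map (redP P.1 hM)).sp : ℝ) * Φ g.res =
      (1 - (((Fintype.card F : ℝ) ^ P.1.natDegree) ^ 2)⁻¹) * (((Fintype.card F : ℝ) ^ P.1.natDegree) ^ M) ^ 2 *
        (∑ f : Cub (Rq (P.1 ^ M)), Φ (f.sc 4) + ((Fintype.card F : ℝ) ^ P.1.natDegree) *
          ∑ x : Rq (P.1 ^ M) × Rq (P.1 ^ M) × Rq (P.1 ^ M), Φ ((⟨x.1, x.2.1, x.2.2 ^ 2⟩ : Cub _).sc 4))

open Classical in
/-- **(S5)** few cubics have a discriminant divisible by a high power of `P`. -/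
def S_disc : Prop := ∀ (F : Type) [Field F] [Fintype F], (2 : F) ≠ 0 → ∀ (P : Pl F) (ε : ℝ), 0 < ε →
  ∃ j₀ : ℕ, ∀ j ≥ j₀, (((univ : Finset (Cub (Rq (P.1 ^ j)))).filter (fun f => f.disc = 0)).card : ℝ) ≤
    ε * (((Fintype.card F : ℝ) ^ P.1.natDegree) ^ j) ^ 3

/-- **(S6)** the integral points of `y² = f(x)` over the completion, in `n` balls. -/
def S_pts : Prop := ∀ (F : Type) [Field F] [Fintype F], (2 : F) ≠ 0 → ∀ (P : Pl F) (O : Type) [CommRing O] [IsDomain O]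
  (π : O) (ι : F[X] →+* O), Lc P.1 π ι → ∀ (M k : ℕ), 2 * k + 1 ≤ M → ∀ f : Cub F[X], ¬ P.1 ^ (k + 1) ∣ f.disc →
    ∃ (n : ℕ) (U : Fin n → Set (O × O)),
      (f.map (Ideal.Quotient.mk (Ideal.span {P.1 ^ M}))).nA ≤ n * (Fintype.card F ^ P.1.natDegree) ^ (M - 1) ∧
      (∀ i, ∀ p ∈ U i, p.2 ^ 2 = (f.map ι).ev p.1) ∧
      (∀ i, (Prod.fst '' U i).Infinite) ∧
      (∀ i j, i ≠ j → ∀ p ∈ U i, ∀ p' ∈ U j, p.1 ≠ p'.1 → ∃ l, l * (p.1 - p'.1) = p.2 + p'.2)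

/-- the polarized form of a quartic -/
def Q4.pol {R : Type*} [Field R] (g : Q4 R) (u v u' v' : R) : R :=
  g.A * (u ^ 2 * u' ^ 2) + g.B / 2 * (u * u' * (u * v' + u' * v)) + g.C / 2 * (u ^ 2 * v' ^ 2 + u' ^ 2 * v ^ 2) +
    g.D / 2 * (v * v' * (u * v' + u' * v)) + g.E * (v ^ 2 * v' ^ 2)

/-- a matrix `N` over `L` making the quartic of `(x₀, y₀)` integral, such that the first column of `N` is a point of
the curve `w² = gp(u, v)` (with `w = s det N`) whose reduction is a smooth point -/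
structure Cn {O L : Type} [CommRing O] [IsDomain O] [Field L] [Algebra O L] (f : Cub O) (x₀ y₀ : L) (N : M2 L)
    (G : Q4 O) (s n : O) : Prop where
  det : N.det ≠ 0
  sub : (gp (f.map (algebraMap O L)) x₀ y₀).sub N = (G.map (algebraMap O L)).smul (N.det ^ 2)
  A : G.A = s ^ 2
  B : G.B = -(4 * n)
  cop : IsCoprime s n
  s0 : s ≠ 0

/-- **(S8)** separation of points with the same lattice and the same reduction. -/
def S_sep : Prop := ∀ (F : Type) [Field F], (2 : F) ≠ 0 → ∀ (P : F[X]) (O L : Type) [CommRing O] [IsDomain O]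
  [Field L] [Algebra O L] [IsFractionRing O L] (π : O) (ι : F[X] →+* O), Lc P π ι →
    ∀ (f : Cub O) (x₀ y₀ : L), y₀ ^ 2 = (f.map (algebraMap O L)).ev x₀ →
    ∀ (N N' : M2 L) (G G' : Q4 O) (s n s' n' : O), Cn f x₀ y₀ N G s n → Cn f x₀ y₀ N' G' s' n' →
    ∀ (c : L) (V : M2 O), c ≠ 0 → IsUnit V.det → N' = (N.mul (V.map (algebraMap O L))).scal c →
      π ∣ V.γ → V.γ ≠ 0 → π ∣ s * V.α ^ 2 - s' * V.det →
      ¬ ∃ d : O, algebraMap O L d = ((gp (f.map (algebraMap O L)) x₀ y₀).pol N.α N.γ N'.α N'.γ +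
        (algebraMap O L s * N.det) * (algebraMap O L s' * N'.det)) / (2 * (N.α * N'.γ - N'.α * N.γ) ^ 2) + x₀

/-- **(S9)** every point of the curve over the completion gives an integral quartic: if `(h, z)` is a point with
`z ≠ 0` of `z² = gp(h, 1)`. The first column of `N` is a multiple `k` of `(h, 1)` and `s det N = k² z`. -/
def S_can : Prop := ∀ (F : Type) [Field F], (2 : F) ≠ 0 → ∀ (P : F[X]) (O L : Type) [CommRing O] [IsDomain O]
  [Field L] [Algebra O L] [IsFractionRing O L] (π : O) (ι : F[X] →+* O), Lc P π ι →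
    ∀ (f : Cub O) (x₀ y₀ : L), y₀ ^ 2 = (f.map (algebraMap O L)).ev x₀ →
    (∀ h z : L, z ≠ 0 → z ^ 2 = (gp (f.map (algebraMap O L)) x₀ y₀).ev h 1 →
      ∃ (N : M2 L) (G : Q4 O) (s n : O) (k : L), Cn f x₀ y₀ N G s n ∧ k ≠ 0 ∧ N.α = k * h ∧ N.γ = k ∧
        algebraMap O L s * N.det = k ^ 2 * z) ∧
    (∃ (N : M2 L) (G : Q4 O) (s n : O) (k : L), Cn f x₀ y₀ N G s n ∧ k ≠ 0 ∧ N.α = k ∧ N.γ = 0 ∧
        algebraMap O L s * N.det = k ^ 2)

/-- **(S7)** the integral quartics over the completion equivalent to the quartic of a given point. -/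
def S_loc : Prop := ∀ (F : Type) [Field F] [Fintype F], (2 : F) ≠ 0 → ∀ (P : Pl F) (O L : Type) [CommRing O] [IsDomain O]
  [Field L] [Algebra O L] [IsFractionRing O L] (π : O) (ι : F[X] →+* O), Lc P.1 π ι → ∀ (M k : ℕ), 2 * k + 1 ≤ M →
    ∀ f : Cub F[X], ¬ P.1 ^ (k + 1) ∣ f.disc → ∀ x₀ y₀ : L, y₀ ^ 2 = ((f.map ι).map (algebraMap O L)).ev x₀ →
    ∃ (n : ℕ) (N : Fin n → M2 L) (G : Fin n → Q4 O) (H : Fin n → Q4 F[X]),
      (∀ i, (N i).det ≠ 0) ∧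
      (∀ i, (gp ((f.map ι).map (algebraMap O L)) x₀ y₀).sub (N i) =
        ((G i).map (algebraMap O L)).smul ((N i).det ^ 2)) ∧
      (∀ i, (π ∣ (G i).A - ι (H i).A) ∧ (π ∣ (G i).B - ι (H i).B) ∧ (π ∣ (G i).C - ι (H i).C) ∧
        (π ∣ (G i).D - ι (H i).D) ∧ (π ∣ (G i).E - ι (H i).E)) ∧
      (∀ i j, i ≠ j → ¬ LEq O (N i) (N j)) ∧
      1 + ((f.map (Ideal.Quotient.mk (Ideal.span {P.1 ^ M}))).nA : ℝ) /
        ((Fintype.card F : ℝ) ^ P.1.natDegree) ^ (M - 1) ≤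
        ∑ i, (((H i).map (Ideal.Quotient.mk (Ideal.span {P.1 ^ 1}))).sp : ℝ)

end Pool.Agent.H456.BQ
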