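import Pool.Agent.H456.BQ.Stm
import Pool.Agent.H456.BQ.Oi

/-!
# The average of `#E(K)/2E(K)` over `K = F(t)`: statements for the passage from the completions to `F(t)`
-/

set_option autoImplicit false
set_option linter.all false

open Polynomial Finset
open Pool.Agent.H456.EC (toK toK_inj sig toK_eq reflect_toK)

namespace Pool.Agent.H456.BQ

variable {F : Type} [Field F]

/-- the local ring of the place `P` in `F(t)`: the elements `a / b` with `P ∤ b` -/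
def LocP (P : Pl F) : Subring (RatFunc F) where
  carrier := {x | ∃ a b : F[X], ¬ P.1 ∣ b ∧ toK F b * x = toK F a}
  mul_mem' := by
    rintro x y ⟨a, b, hb, h⟩ ⟨c, d, hd, h'⟩
    refine ⟨a * c, b * d, ?_, ?_⟩
    · intro hbd
      rcases (P.2.2.prime.dvd_or_dvd hbd) with h1 | h1
      · exact hb h1
      · exact hd h1
    · rw [map_mul, map_mul, ← h, ← h']; ring
  one_mem' := ⟨1, 1, fun h => P.2.2.not_isUnit (isUnit_of_dvd_one h), by rw [mul_one]⟩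
  add_mem' := by
    rintro x y ⟨a, b, hb, h⟩ ⟨c, d, hd, h'⟩
    refine ⟨a * d + b * c, b * d, ?_, ?_⟩
    · intro hbd
      rcases (P.2.2.prime.dvd_or_dvd hbd) with h1 | h1
      · exact hb h1
      · exact hd h1
    · rw [map_mul, map_add, map_mul, map_mul, ← h, ← h']; ring
  zero_mem' := ⟨0, 1, fun h => P.2.2.not_isUnit (isUnit_of_dvd_one h), by rw [mul_zero, map_zero]⟩
  neg_mem' := by
    rintro x ⟨a, b, hb, h⟩
    exact ⟨-a, b, hb, by rw [map_neg, ← h]; ring⟩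

theorem mem_LocP {P : Pl F} {x : RatFunc F} : x ∈ LocP P ↔ ∃ a b : F[X], ¬ P.1 ∣ b ∧ toK F b * x = toK F a := Iff.rfl

/-- elements of `F(t)` vanishing at `P` -/
def LocI (P : Pl F) (x : RatFunc F) : Prop := ∃ a b : F[X], ¬ P.1 ∣ b ∧ toK F b * x = toK F (P.1 * a)

/-- the quartic `g` over `F(t)` is integral at `P`, with the same reduction modulo `P` as `H` -/
def RedTo (P : Pl F) (g : Q4 (RatFunc F)) (H : Q4 F[X]) : Prop :=
  LocI P (g.A - toK F H.A) ∧ LocI P (g.B - toK F H.B) ∧ LocI P (g.C - toK F H.C) ∧ LocI P (g.D - toK F H.D) ∧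
    LocI P (g.E - toK F H.E)

/-- the quartic `g` over `F(t)` is integral at infinity, with the same reduction as `H` (in the coordinate `1/t`) -/
def RedI (g : Q4 (RatFunc F)) (H : Q4 F[X]) : Prop :=
  (g.A - sig F H.A) * tt F 1 ∈ Oi F ∧ (g.B - sig F H.B) * tt F 1 ∈ Oi F ∧ (g.C - sig F H.C) * tt F 1 ∈ Oi F ∧
    (g.D - sig F H.D) * tt F 1 ∈ Oi F ∧ (g.E - sig F H.E) * tt F 1 ∈ Oi F

/-- the place `X` -/
noncomputable def PlX (F : Type) [Field F] : Pl F := ⟨X, monic_X, irreducible_X⟩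

/-- **(G1)** invariance of the number of smooth points. -/
def S_spinv : Prop := ∀ (κ : Type) [CommRing κ] [Fintype κ], IsField κ → (2 : κ) ≠ 0 →
  ∀ (g : Q4 κ) (V : M2 κ) (d : κ), d * V.det = 1 → ((g.sub V).smul (d ^ 2)).sp = g.sp

/-- **(G2)** every lattice over the completion comes from `F(t)`. -/
def S_hnf : Prop := ∀ (F : Type) [Field F] (P : Pl F) (O L : Type) [CommRing O] [IsDomain O]
  [Field L] [Algebra O L] [IsFractionRing O L] (π : O) (ι : F[X] →+* O), Lc P.1 π ι → ∀ j : RatFunc F →+* L,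
    (∀ x : F[X], j (toK F x) = algebraMap O L (ι x)) → ∀ N : M2 L, N.det ≠ 0 →
    ∃ N' : M2 (RatFunc F), N'.det ≠ 0 ∧ LEq O N (N'.map j)

/-- **(G3)** the local quartics over `F(t)` at the place `P`. -/
def S_locK : Prop := ∀ (F : Type) [Field F] [Fintype F], (2 : F) ≠ 0 → ∀ (P : Pl F) (M k : ℕ), 2 * k + 1 ≤ M →
    ∀ f : Cub F[X], ¬ P.1 ^ (k + 1) ∣ f.disc → ∀ x₀ y₀ : RatFunc F, y₀ ^ 2 = (f.map (toK F)).ev x₀ →
    ∃ (n : ℕ) (N : Fin n → M2 (RatFunc F)) (g : Fin n → Q4 (RatFunc F)) (H : Fin n → Q4 F[X]),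
      (∀ i, (N i).det ≠ 0) ∧
      (∀ i, (gp (f.map (toK F)) x₀ y₀).sub (N i) = (g i).smul ((N i).det ^ 2)) ∧
      (∀ i, RedTo P (g i) (H i)) ∧
      (∀ i j, i ≠ j → ¬ LEq (LocP P) (N i) (N j)) ∧
      1 + ((f.map (Ideal.Quotient.mk (Ideal.span {P.1 ^ M}))).nA : ℝ) /
        ((Fintype.card F : ℝ) ^ P.1.natDegree) ^ (M - 1) ≤
        ∑ i, (((H i).map (Ideal.Quotient.mk (Ideal.span {P.1 ^ 1}))).sp : ℝ)

/-- **(G4)** changing a lattice at one place. -/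
def S_adj : Prop := ∀ (F : Type) [Field F] (P : Pl F) (N N' : M2 (RatFunc F)), N.det ≠ 0 → N'.det ≠ 0 →
  ∃ N'' : M2 (RatFunc F), N''.det ≠ 0 ∧ LEq (LocP P) N'' N' ∧ ∀ Q : Pl F, Q ≠ P → LEq (LocP Q) N N''

/-- **(G5)** the local quartics over `F(t)` at infinity. `crev` is the cubic in the coordinate `1/t`. -/
def S_locI : Prop := ∀ (F : Type) [Field F] [Fintype F], (2 : F) ≠ 0 → ∀ (n M k : ℕ), 2 * k + 1 ≤ M →
    ∀ f f' : Cub F[X], f'.map (sig F) = (f.map (toK F)).sc (tt F (-(n : ℤ)) ^ 2) → ¬ X ^ (k + 1) ∣ f'.disc →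
    ∀ x₀ y₀ : RatFunc F, y₀ ^ 2 = (f.map (toK F)).ev x₀ →
    ∃ (m : ℕ) (N : Fin m → M2 (RatFunc F)) (g : Fin m → Q4 (RatFunc F)) (H : Fin m → Q4 F[X]),
      (∀ i, (N i).det ≠ 0) ∧
      (∀ i, (gp (f.map (toK F)) x₀ y₀).sub (N i) = (g i).smul (tt F (2 * n) * (N i).det ^ 2)) ∧
      (∀ i, RedI (g i) (H i)) ∧
      (∀ i j, i ≠ j → ¬ LEq (Oi F) (N i) (N j)) ∧
      1 + ((f'.map (Ideal.Quotient.mk (Ideal.span {(X : F[X]) ^ M}))).nA : ℝ) /
        (Fintype.card F : ℝ) ^ (M - 1) ≤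
        ∑ i, (((H i).map (Ideal.Quotient.mk (Ideal.span {(X : F[X]) ^ 1}))).sp : ℝ)

end Pool.Agent.H456.BQ
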