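import Pool.Agent.H456.BQ.Stm2
import Pool.Agent.H456.BQ.Mod

/-!
# The average of `#E(K)/2E(K)` over `K = F(t)`: statements for the gluing
-/

set_option autoImplicit false
set_option linter.all false

open Polynomial Finset
open Pool.Agent.H456.EC (toK toK_inj sig toK_eq reflect_toK)

namespace Pool.Agent.H456.BQ

section LEq

variable {O L : Type} [CommRing O] [Field L] [Algebra O L]

theorem LEq.refl (N : M2 L) : LEq O N N := by
  refine ⟨1, ⟨1, 0, 0, 1⟩, one_ne_zero, ?_, ?_⟩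
  · simp only [M2.det]; simp
  · ext <;> simp [M2.map, M2.mul, M2.scal]

theorem LEq.trans {N N' N'' : M2 L} (h : LEq O N N') (h' : LEq O N' N'') : LEq O N N'' := by
  obtain ⟨c, V, hc, hV, rfl⟩ := h
  obtain ⟨c', V', hc', hV', rfl⟩ := h'
  refine ⟨c' * c, V.mul V', mul_ne_zero hc' hc, ?_, ?_⟩
  · rw [M2.det_mul]; exact hV.mul hV'
  · rw [M2.scal_mul, M2.scal_scal, M2.map_mul, M2.mul_assoc]
    ext <;> simp only [M2.mul, M2.scal] <;> ring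

theorem LEq.symm {N N' : M2 L} (h : LEq O N N') : LEq O N' N := by
  obtain ⟨c, V, hc, hV, rfl⟩ := h
  obtain ⟨u, hu⟩ := hV
  refine ⟨c⁻¹, V.adj.mul ⟨↑u⁻¹, 0, 0, ↑u⁻¹⟩, inv_ne_zero hc, ?_, ?_⟩
  · rw [M2.det_mul, M2.det_adj, ← hu]
    exact u.isUnit.mul (by simp only [M2.det, mul_zero, sub_zero]; exact u⁻¹.isUnit.mul u⁻¹.isUnit)
  · have h1 : (V.map (algebraMap O L)).mul ((V.adj.mul ⟨↑u⁻¹, 0, 0, ↑u⁻¹⟩).map (algebraMap O L)) = ⟨1, 0, 0, 1⟩ := by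
      rw [← M2.map_mul, ← M2.mul_assoc, M2.mul_adj, ← hu]
      ext <;> simp [M2.map, M2.mul]
      all_goals rw [← map_mul, Units.mul_inv, map_one]
    rw [M2.scal_mul, M2.scal_scal, M2.mul_assoc, h1, mul_inv_cancel₀ hc]
    ext <;> simp [M2.mul, M2.scal]

theorem LEq.det_ne {N N' : M2 L} (h : LEq O N N') (hN : N.det ≠ 0) : N'.det ≠ 0 := by
  obtain ⟨c, V, hc, hV, rfl⟩ := h
  rw [M2.det_scal, M2.det_mul, M2.map_det]
  exact mul_ne_zero (pow_ne_zero _ hc) (mul_ne_zero hN (hV.map (algebraMap O L)).ne_zero)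

end LEq

/-- the quartic in the coordinate at infinity -/
noncomputable def revV {F : Type} [Field F] (n e : ℕ) (G : Q4 F[X]) : Q4 F[X] :=
  ⟨reflect (2 * n - 2 * e) G.A, reflect (2 * n - e) G.B, reflect (2 * n) G.C, reflect (2 * n + e) G.D,
    reflect (2 * n + 2 * e) G.E⟩

/-- the substitutions preserving the shape at infinity -/
def TB {F : Type} [Field F] (e : ℕ) (T : M2 F[X]) : Prop :=
  (∃ d : F, d ≠ 0 ∧ T.det = C d) ∧ T.α.natDegree = 0 ∧ T.β.natDegree ≤ e ∧ T.δ.natDegree = 0 ∧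
    (T.γ = 0 ∨ (e = 0 ∧ T.γ.natDegree = 0))

/-- **(J1)** a matrix over `F(t)` with given local lattices, starting from the canonical lattice of the point. -/
def S_latA : Prop := ∀ (F : Type) [Field F] (f : Cub F[X]) (x₀ y₀ : RatFunc F),
  y₀ ^ 2 = (f.map (toK F)).ev x₀ → ∀ (S : Finset (Pl F)) (Λ : Pl F → M2 (RatFunc F)) (g : Pl F → Q4 (RatFunc F))
    (H : Pl F → Q4 F[X]), (∀ P ∈ S, (Λ P).det ≠ 0 ∧
      (gp (f.map (toK F)) x₀ y₀).sub (Λ P) = (g P).smul ((Λ P).det ^ 2) ∧ RedTo P (g P) (H P)) →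
    ∃ (N : M2 (RatFunc F)) (G : Q4 F[X]), N.det ≠ 0 ∧
      (gp (f.map (toK F)) x₀ y₀).sub N = (G.map (toK F)).smul (N.det ^ 2) ∧ ∀ P ∈ S, LEq (LocP P) N (Λ P)

/-- **(J2)** the reductions of two integral quartics for the same local lattice at `P`. -/
def S_spP : Prop := ∀ (F : Type) [Field F] [Fintype F], (2 : F) ≠ 0 → ∀ (P : Pl F) (q : Q4 (RatFunc F))
  (N N' : M2 (RatFunc F)) (G H : Q4 F[X]) (g : Q4 (RatFunc F)), N.det ≠ 0 → N'.det ≠ 0 →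
    q.sub N = (G.map (toK F)).smul (N.det ^ 2) → q.sub N' = g.smul (N'.det ^ 2) → RedTo P g H → LEq (LocP P) N N' →
    (G.map (Ideal.Quotient.mk (Ideal.span {P.1 ^ 1}))).sp = (H.map (Ideal.Quotient.mk (Ideal.span {P.1 ^ 1}))).sp

/-- **(J3)** the same at infinity. -/
def S_spI : Prop := ∀ (F : Type) [Field F] [Fintype F], (2 : F) ≠ 0 → ∀ (n e : ℕ), e ≤ n → ∀ (q : Q4 (RatFunc F))
  (M Ni : M2 (RatFunc F)) (G H : Q4 F[X]) (g : Q4 (RatFunc F)), M.det ≠ 0 → Ni.det ≠ 0 →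
    (G.A.natDegree ≤ 2 * n - 2 * e ∧ G.B.natDegree ≤ 2 * n - e ∧ G.C.natDegree ≤ 2 * n ∧ G.D.natDegree ≤ 2 * n + e ∧
      G.E.natDegree ≤ 2 * n + 2 * e) →
    q.sub M = (G.map (toK F)).smul (M.det ^ 2) → q.sub Ni = g.smul (tt F (2 * n) * Ni.det ^ 2) → RedI g H →
    LEq (Oi F) (M.mul ⟨1, 0, 0, tt F (-(e : ℤ))⟩) Ni →
    ((revV n e G).map (Ideal.Quotient.mk (Ideal.span {(X : F[X]) ^ 1}))).sp =
      (H.map (Ideal.Quotient.mk (Ideal.span {(X : F[X]) ^ 1}))).sp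

/-- **(J4)** the integral model of bounded degrees with given local lattices at the places of `S` and at infinity. -/
def S_tup : Prop := ∀ (F : Type) [Field F] (n : ℕ) (f : Cub F[X]) (x₀ y₀ : RatFunc F),
  y₀ ^ 2 = (f.map (toK F)).ev x₀ → ∀ (S : Finset (Pl F)) (Λ : Pl F → M2 (RatFunc F)) (g : Pl F → Q4 (RatFunc F))
    (H : Pl F → Q4 F[X]), (∀ P ∈ S, (Λ P).det ≠ 0 ∧
      (gp (f.map (toK F)) x₀ y₀).sub (Λ P) = (g P).smul ((Λ P).det ^ 2) ∧ RedTo P (g P) (H P)) →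
    ∀ (Ni : M2 (RatFunc F)) (gi : Q4 (RatFunc F)) (Hi : Q4 F[X]), Ni.det ≠ 0 →
      (gp (f.map (toK F)) x₀ y₀).sub Ni = gi.smul (tt F (2 * n) * Ni.det ^ 2) → RedI gi Hi →
    ∃ (e : ℕ) (M : M2 (RatFunc F)) (G : Q4 F[X]), M.det ≠ 0 ∧
      (gp (f.map (toK F)) x₀ y₀).sub M = (G.map (toK F)).smul (M.det ^ 2) ∧ Bd n e G ∧
      (∀ P ∈ S, LEq (LocP P) M (Λ P)) ∧ LEq (Oi F) (M.mul ⟨1, 0, 0, tt F (-(e : ℤ))⟩) Ni

/-- **(J5)** the substitutions do not change the local lattices. -/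
def S_dis : Prop := ∀ (F : Type) [Field F] (e : ℕ) (M : M2 (RatFunc F)) (T : M2 F[X]), TB e T →
  (∀ P : Pl F, LEq (LocP P) M (M.mul (T.map (toK F)))) ∧
    LEq (Oi F) (M.mul ⟨1, 0, 0, tt F (-(e : ℤ))⟩) ((M.mul (T.map (toK F))).mul ⟨1, 0, 0, tt F (-(e : ℤ))⟩)

/-- **(J6)** the sum over the quartics of the local weight. -/
def S_phi : Prop := ∀ (F : Type) [Field F] [Fintype F], (2 : F) ≠ 0 → ∀ (P : Pl F) (M : ℕ) (hM : 1 ≤ M)
  (χ : Cub (Rq (P.1 ^ M)) → ℝ), (∀ f r, χ (f.tr r) = χ f) → ∀ i4 : Rq (P.1 ^ M), i4 * 4 = 1 →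
    ∑ g : Q4 (Rq (P.1 ^ M)), ((g.map (redP P.1 hM)).sp : ℝ) * (χ (g.res.sc i4) /
      (1 + ((g.res.sc i4).nA : ℝ) / ((Fintype.card F : ℝ) ^ P.1.natDegree) ^ (M - 1))) =
      (1 - (((Fintype.card F : ℝ) ^ P.1.natDegree) ^ 2)⁻¹) * (((Fintype.card F : ℝ) ^ P.1.natDegree) ^ M) ^ 2 *
        ∑ f : Cub (Rq (P.1 ^ M)), χ f

section rev

variable {F : Type} [Field F]

theorem sig_reflect {N : ℕ} {g : F[X]} (hg : g.natDegree ≤ N) : sig F (reflect N g) = tt F (-(N : ℤ)) * toK F g := by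
  have e : toK F g = RatFunc.X ^ N * sig F (reflect N g) := by
    rw [← reflect_toK (by
      have := natDegree_reflect_le (N := N) (p := g)
      rwa [max_eq_left hg] at this), reflect_reflect]
  rw [e, ← tt_nat, ← mul_assoc, tt_neg, one_mul]

theorem tt_pow (l : ℤ) (k : ℕ) : tt F l ^ k = tt F (k * l) := by
  unfold tt
  rw [← zpow_natCast, ← zpow_mul, mul_comm]

/-- the quartic at infinity is the quartic of the lattice `M diag(1, t⁻ᵉ)` -/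
theorem revV_map {n e : ℕ} (he : e ≤ n) {G : Q4 F[X]} (hG : G.A.natDegree ≤ 2 * n - 2 * e ∧ G.B.natDegree ≤ 2 * n - e ∧
    G.C.natDegree ≤ 2 * n ∧ G.D.natDegree ≤ 2 * n + e ∧ G.E.natDegree ≤ 2 * n + 2 * e) :
    (revV n e G).map (sig F) = ((G.map (toK F)).sub ⟨1, 0, 0, tt F (-(e : ℤ))⟩).smul (tt F (2 * e - 2 * n)) := by
  obtain ⟨h1, h2, h3, h4, h5⟩ := hG
  ext <;> simp only [revV, Q4.map, Q4.smul, Q4.sub]
  · rw [sig_reflect h1]
    have : tt F (-((2 * n - 2 * e : ℕ) : ℤ)) = tt F (2 * e - 2 * n) := by congr 1; omega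
    rw [this]; ring
  · rw [sig_reflect h2]
    have : tt F (-((2 * n - e : ℕ) : ℤ)) = tt F (2 * e - 2 * n) * tt F (-(e : ℤ)) := by
      rw [← tt_add]; congr 1; omega
    rw [this]; ring
  · rw [sig_reflect h3]
    have : tt F (-((2 * n : ℕ) : ℤ)) = tt F (2 * e - 2 * n) * tt F (-(e : ℤ)) ^ 2 := by
      rw [tt_pow, ← tt_add]; congr 1; push_cast; ring
    rw [this]; ring
  · rw [sig_reflect h4]
    have : tt F (-((2 * n + e : ℕ) : ℤ)) = tt F (2 * e - 2 * n) * tt F (-(e : ℤ)) ^ 3 := by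
      rw [tt_pow, ← tt_add]; congr 1; push_cast; ring
    rw [this]; ring
  · rw [sig_reflect h5]
    have : tt F (-((2 * n + 2 * e : ℕ) : ℤ)) = tt F (2 * e - 2 * n) * tt F (-(e : ℤ)) ^ 4 := by
      rw [tt_pow, ← tt_add]; congr 1; push_cast; ring
    rw [this]; ring

end rev

end Pool.Agent.H456.BQ
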