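import Pool.Agent.H456.BQ.Stm3
import Pool.Agent.H456.BQ.T_locI

/-!
# The average of the 2-Selmer groups over `K = F(t)`: definitions and statements of the lemmas
-/

set_option autoImplicit false
set_option linter.all false

open Polynomial Finset
open Pool.Agent.H456.EC (toK toK_inj sig toK_eq reflect_toK)

namespace Pool.Agent.H456.BQ

section field

variable {K : Type*} [Field K]

/-- the pairs `(g, ρ)` and `(g', ρ')` (quartic and translation of the resolvent) are related by the substitution `M` -/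
structure PE (M : M2 K) (s s' : Q4 K × K) : Prop where
  det : M.det ≠ 0
  sub : s.1.sub M = s'.1.smul (M.det ^ 2)
  tau : s.1.tau M = (s'.2 - s.2) * M.det ^ 2

theorem PE.refl (s : Q4 K × K) : PE ⟨1, 0, 0, 1⟩ s s := by
  have hd : (⟨1, 0, 0, 1⟩ : M2 K).det = 1 := by simp only [M2.det]; ring
  refine ⟨?_, ?_, ?_⟩
  · rw [hd]; exact one_ne_zero
  · rw [Q4.sub_one, hd, one_pow, Q4.smul_one]
  · rw [Q4.tau_scalar]; ring

theorem PE.trans {M N : M2 K} {s s' s'' : Q4 K × K} (h : PE M s s') (h' : PE N s' s'') : PE (M.mul N) s s'' := by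
  refine ⟨?_, ?_, ?_⟩
  · rw [M2.det_mul]; exact mul_ne_zero h.det h'.det
  · rw [← Q4.sub_mul, h.sub, Q4.smul_sub, h'.sub, Q4.smul_smul, M2.det_mul]
    congr 1; ring
  · rw [Q4.tau_mul, h.sub, Q4.tau_smul, h.tau, h'.tau, M2.det_mul]; ring

theorem PE.scal {M : M2 K} {s s' : Q4 K × K} (h : PE M s s') {k : K} (hk : k ≠ 0) : PE (M.scal k) s s' := by
  refine ⟨?_, ?_, ?_⟩
  · rw [M2.det_scal]; exact mul_ne_zero (pow_ne_zero _ hk) h.det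
  · rw [Q4.sub_scal, h.sub, Q4.smul_smul, M2.det_scal]
    congr 1; ring
  · have e : s.1.tau (M.scal k) = k ^ 4 * s.1.tau M := by simp only [Q4.tau, M2.scal]; ring
    rw [e, h.tau, M2.det_scal]; ring

theorem PE.symm {M : M2 K} {s s' : Q4 K × K} (h : PE M s s') : PE M.adj s' s := by
  have e1 : s'.1.sub M.adj = s.1.smul (M.det ^ 2) := by
    apply Q4.smul_cancel (pow_ne_zero 2 h.det)
    have h2 : s.1.sub (M.mul M.adj) = (s'.1.sub M.adj).smul (M.det ^ 2) := by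
      rw [← Q4.sub_mul, h.sub, Q4.smul_sub]
    rw [← h2, M2.mul_adj, Q4.sub_scalar, Q4.smul_smul]
    congr 1; ring
  refine ⟨?_, ?_, ?_⟩
  · rw [M2.det_adj]; exact h.det
  · rw [e1, M2.det_adj]
  · have h2 := Q4.tau_mul s.1 M M.adj
    rw [M2.mul_adj, Q4.tau_scalar, h.sub, Q4.tau_smul, M2.det_adj, h.tau] at h2
    rw [M2.det_adj]
    apply mul_left_cancel₀ (pow_ne_zero 2 h.det)
    linear_combination -h2

theorem PE.res {M : M2 K} {s s' : Q4 K × K} (h : PE M s s') {f : Cub K} (hs : s.1.res = f.tr s.2) :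
    s'.1.res = f.tr s'.2 := by
  have h1 := Q4.res_sub s.1 M
  rw [h.sub, Q4.res_smul, hs, h.tau, Cub.sc_tr, Cub.tr_tr] at h1
  apply Cub.sc_inj (pow_ne_zero 2 h.det)
  rw [h1, Cub.sc_tr]
  congr 1; ring

/-- the curve `z² = g(u, v)` has a point -/
def Q4.Sol (g : Q4 K) : Prop := ∃ u v z : K, ¬ (u = 0 ∧ v = 0) ∧ z ^ 2 = g.ev u v

/-- the quartic has no root on the projective line -/
def Q4.NR (g : Q4 K) : Prop := ∀ u v : K, ¬ (u = 0 ∧ v = 0) → g.ev u v ≠ 0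

end field

section global

variable {F : Type} [Field F]

/-- `Lc` with Hensel's lemma for quartics -/
structure Lc4 (P : F[X]) {O : Type} [CommRing O] (π : O) (ι : F[X] →+* O) : Prop extends Lc P π ι where
  hensel4 : ∀ c₀ c₁ c₂ c₃ c₄ : O, π ∣ c₀ → IsUnit c₁ →
    ∃ w, π ∣ w ∧ c₀ + c₁ * w + c₂ * w ^ 2 + c₃ * w ^ 3 + c₄ * w ^ 4 = 0

/-- the curve `z² = g(u, v)` has a point over the completion at `P` -/
def LS (P : Pl F) (g : Q4 (RatFunc F)) : Prop :=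
  ∀ (O L : Type) [CommRing O] [IsDomain O] [Field L] [Algebra O L] [IsFractionRing O L] (π : O) (ι : F[X] →+* O),
    Lc4 P.1 π ι → ∀ j : RatFunc F →+* L, (∀ x : F[X], j (toK F x) = algebraMap O L (ι x)) → (g.map j).Sol

/-- the curve `z² = g(u, v)` has a point over the completion at infinity (the completion at `t = 0` after the
automorphism `t ↦ 1/t`) -/
def LSI (g : Q4 (RatFunc F)) : Prop := LS (PlX F) (g.map (locI_tau F))

/-- the pairs representing the elements of the 2-Selmer group of `y² = f(x)` -/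
structure IsSel (f : Cub (RatFunc F)) (s : Q4 (RatFunc F) × RatFunc F) : Prop where
  res : s.1.res = (f.sc 4).tr s.2
  fin : ∀ P : Pl F, LS P s.1
  inf : LSI s.1

end global

/-- **(K00)** existence of the completions. -/
def S_comp4 : Prop := ∀ (F : Type) [Field F] [Finite F] (P : F[X]), P.Monic → Irreducible P →
  ∃ (O : Type) (_ : CommRing O) (_ : IsDomain O) (π : O) (ι : F[X] →+* O), Lc4 P π ι

/-- **(K0)** a soluble pair comes from a point of `y² = f(x)`. -/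
def S_sol : Prop := ∀ (L : Type) [Field L], (2 : L) ≠ 0 → ∀ (f : Cub L) (s : Q4 L × L),
  s.1.res = (f.sc 4).tr s.2 → ∀ u v z : L, ¬ (u = 0 ∧ v = 0) → z ≠ 0 → z ^ 2 = s.1.ev u v →
    ∃ (x y : L) (M : M2 L), y ^ 2 = f.ev x ∧ Rep f x y M s.1 s.2

/-- **(K1)** over a completion a soluble quartic has a point with `z ≠ 0`. -/
def S_nz : Prop := ∀ (F : Type) [Field F], (2 : F) ≠ 0 → ∀ (P : F[X]) (O L : Type) [CommRing O] [IsDomain O]
  [Field L] [Algebra O L] [IsFractionRing O L] (π : O) (ι : F[X] →+* O), Lc P π ι → ∀ g : Q4 L, g.res.disc ≠ 0 →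
    g.Sol → ∃ u v z : L, ¬ (u = 0 ∧ v = 0) ∧ z ≠ 0 ∧ z ^ 2 = g.ev u v

/-- **(K2)** a pair has no automorphisms if `f` has no roots. -/
def S_stab : Prop := ∀ (K : Type) [Field K] [Infinite K], (2 : K) ≠ 0 → ∀ (f : Cub K), f.disc ≠ 0 → (∀ r : K, f.ev r ≠ 0) →
  ∀ s : Q4 K × K, s.1.res = (f.sc 4).tr s.2 → ∀ M : M2 K, PE M s s → ∃ k : K, k ≠ 0 ∧ M = ⟨k, 0, 0, k⟩

/-- **(K3)** the local lattices of a pair which is soluble at `P`. -/
def S_locKS : Prop := ∀ (F : Type) [Field F] [Fintype F], (2 : F) ≠ 0 → ∀ (P : Pl F) (M k : ℕ), 2 * k + 1 ≤ M →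
    ∀ f : Cub F[X], ¬ P.1 ^ (k + 1) ∣ f.disc → ∀ s : Q4 (RatFunc F) × RatFunc F,
    s.1.res = ((f.map (toK F)).sc 4).tr s.2 → LS P s.1 →
    ∃ (n : ℕ) (N : Fin n → M2 (RatFunc F)) (g : Fin n → Q4 (RatFunc F)) (H : Fin n → Q4 F[X]),
      (∀ i, (N i).det ≠ 0) ∧
      (∀ i, s.1.sub (N i) = (g i).smul ((N i).det ^ 2)) ∧
      (∀ i, RedTo P (g i) (H i)) ∧
      (∀ i j, i ≠ j → ¬ LEq (LocP P) (N i) (N j)) ∧
      1 + ((f.map (Ideal.Quotient.mk (Ideal.span {P.1 ^ M}))).nA : ℝ) /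
        ((Fintype.card F : ℝ) ^ P.1.natDegree) ^ (M - 1) ≤
        ∑ i, (((H i).map (Ideal.Quotient.mk (Ideal.span {P.1 ^ 1}))).sp : ℝ)

/-- **(K4)** the same at infinity. -/
def S_locIS : Prop := ∀ (F : Type) [Field F] [Fintype F], (2 : F) ≠ 0 → ∀ (n M k : ℕ), 2 * k + 1 ≤ M →
    ∀ f f' : Cub F[X], f'.map (sig F) = (f.map (toK F)).sc (tt F (-(n : ℤ)) ^ 2) → ¬ X ^ (k + 1) ∣ f'.disc →
    ∀ s : Q4 (RatFunc F) × RatFunc F, s.1.res = ((f.map (toK F)).sc 4).tr s.2 → LSI s.1 →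
    ∃ (m : ℕ) (N : Fin m → M2 (RatFunc F)) (g : Fin m → Q4 (RatFunc F)) (H : Fin m → Q4 F[X]),
      (∀ i, (N i).det ≠ 0) ∧
      (∀ i, s.1.sub (N i) = (g i).smul (tt F (2 * n) * (N i).det ^ 2)) ∧
      (∀ i, RedI (g i) (H i)) ∧
      (∀ i j, i ≠ j → ¬ LEq (Oi F) (N i) (N j)) ∧
      1 + ((f'.map (Ideal.Quotient.mk (Ideal.span {(X : F[X]) ^ M}))).nA : ℝ) /
        (Fintype.card F : ℝ) ^ (M - 1) ≤
        ∑ i, (((H i).map (Ideal.Quotient.mk (Ideal.span {(X : F[X]) ^ 1}))).sp : ℝ)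

/-- **(K7)** the integral model of bounded degrees with given local lattices. -/
def S_tupS : Prop := ∀ (F : Type) [Field F] [Fintype F], (2 : F) ≠ 0 → ∀ (n : ℕ) (f : Cub F[X]), f.disc ≠ 0 →
  ∀ s : Q4 (RatFunc F) × RatFunc F, s.1.res = ((f.map (toK F)).sc 4).tr s.2 → (∀ P : Pl F, LS P s.1) →
  ∀ (S : Finset (Pl F)) (Λ : Pl F → M2 (RatFunc F)) (g : Pl F → Q4 (RatFunc F))
    (H : Pl F → Q4 F[X]), (∀ P ∈ S, (Λ P).det ≠ 0 ∧ s.1.sub (Λ P) = (g P).smul ((Λ P).det ^ 2) ∧ RedTo P (g P) (H P)) →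
    ∀ (Ni : M2 (RatFunc F)) (gi : Q4 (RatFunc F)) (Hi : Q4 F[X]), Ni.det ≠ 0 →
      s.1.sub Ni = gi.smul (tt F (2 * n) * Ni.det ^ 2) → RedI gi Hi →
    ∃ (e : ℕ) (M : M2 (RatFunc F)) (G : Q4 F[X]), M.det ≠ 0 ∧
      s.1.sub M = (G.map (toK F)).smul (M.det ^ 2) ∧ Bd n e G ∧
      (∀ P ∈ S, LEq (LocP P) M (Λ P)) ∧ LEq (Oi F) (M.mul ⟨1, 0, 0, tt F (-(e : ℤ))⟩) Ni

/-- the partial derivatives -/
def Q4.du {R : Type*} [CommRing R] (g : Q4 R) (u v : R) : R :=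
  4 * g.A * u ^ 3 + 3 * g.B * u ^ 2 * v + 2 * g.C * u * v ^ 2 + g.D * v ^ 3

/-- the partial derivatives -/
def Q4.dv {R : Type*} [CommRing R] (g : Q4 R) (u v : R) : R :=
  g.B * u ^ 3 + 2 * g.C * u ^ 2 * v + 3 * g.D * u * v ^ 2 + 4 * g.E * v ^ 3

/-- **(K9)** the converse of the separation lemma. -/
def S_conv : Prop := ∀ (F : Type) [Field F], (2 : F) ≠ 0 → ∀ (P : F[X]) (O L : Type) [CommRing O] [IsDomain O]
  [Field L] [Algebra O L] [IsFractionRing O L] (π : O) (ι : F[X] →+* O), Lc P π ι →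
    ∀ (f : Cub O) (x₀ y₀ : L), y₀ ^ 2 = (f.map (algebraMap O L)).ev x₀ →
    ∀ (N N' : M2 L) (G G' : Q4 O) (s n s' n' : O), Cn f x₀ y₀ N G s n → Cn f x₀ y₀ N' G' s' n' →
    N.α * N'.γ ≠ N'.α * N.γ →
    (¬ ∃ d : O, algebraMap O L d = ((gp (f.map (algebraMap O L)) x₀ y₀).pol N.α N.γ N'.α N'.γ +
        (algebraMap O L s * N.det) * (algebraMap O L s' * N'.det)) / (2 * (N.α * N'.γ - N'.α * N.γ) ^ 2) + x₀) →
    ∃ (c : L) (V : M2 O), c ≠ 0 ∧ IsUnit V.det ∧ N' = (N.mul (V.map (algebraMap O L))).scal c ∧ π ∣ V.γ ∧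
      π ∣ s * V.α ^ 2 - s' * V.det

/-- **(K10)** the balls of integral points of `y² = f(x)` over the completion. -/
def S_balls : Prop := ∀ (F : Type) [Field F] [Fintype F], (2 : F) ≠ 0 → ∀ (P : Pl F) (O : Type) [CommRing O] [IsDomain O]
  (π : O) (ι : F[X] →+* O), Lc P.1 π ι → ∀ (M k : ℕ), 2 * k + 1 ≤ M → ∀ f : Cub F[X], ¬ P.1 ^ (k + 1) ∣ f.disc →
    ∃ (n : ℕ) (b : {p : O × O // p.2 ^ 2 = (f.map ι).ev p.1} → Fin n),
      n * (Fintype.card F ^ P.1.natDegree) ^ (M - 1) ≤ (f.map (Ideal.Quotient.mk (Ideal.span {P.1 ^ M}))).nA ∧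
      ∀ p p', b p = b p' → p.1.1 ≠ p'.1.1 → ¬ ∃ l, l * (p.1.1 - p'.1.1) = p.1.2 + p'.1.2

/-- **(K11)** the upper bound for the number of the smooth points of integral quartics over the completion. -/
def S_locUp : Prop := ∀ (F : Type) [Field F] [Fintype F], (2 : F) ≠ 0 → ∀ (P : Pl F) (O L : Type) [CommRing O] [IsDomain O]
  [Field L] [Algebra O L] [IsFractionRing O L] (π : O) (ι : F[X] →+* O), Lc4 P.1 π ι → ∀ (M k : ℕ), 2 * k + 1 ≤ M →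
    ∀ f : Cub F[X], ¬ P.1 ^ (k + 1) ∣ f.disc → ∀ x₀ y₀ : L, y₀ ^ 2 = ((f.map ι).map (algebraMap O L)).ev x₀ →
    ∀ (n : ℕ) (N : Fin n → M2 L) (G : Fin n → Q4 O) (H : Fin n → Q4 F[X]),
      (∀ i, (N i).det ≠ 0) →
      (∀ i, (gp ((f.map ι).map (algebraMap O L)) x₀ y₀).sub (N i) =
        ((G i).map (algebraMap O L)).smul ((N i).det ^ 2)) →
      (∀ i, (π ∣ (G i).A - ι (H i).A) ∧ (π ∣ (G i).B - ι (H i).B) ∧ (π ∣ (G i).C - ι (H i).C) ∧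
        (π ∣ (G i).D - ι (H i).D) ∧ (π ∣ (G i).E - ι (H i).E)) →
      (∀ i j, i ≠ j → ¬ LEq O (N i) (N j)) →
      ∑ i, (((H i).map (Ideal.Quotient.mk (Ideal.span {P.1 ^ 1}))).sp : ℝ) ≤
      1 + ((f.map (Ideal.Quotient.mk (Ideal.span {P.1 ^ M}))).nA : ℝ) /
        ((Fintype.card F : ℝ) ^ P.1.natDegree) ^ (M - 1)

/-- **(K12)** the same over `F(t)`. -/
def S_locKU : Prop := ∀ (F : Type) [Field F] [Fintype F], (2 : F) ≠ 0 → ∀ (P : Pl F) (M k : ℕ), 2 * k + 1 ≤ M →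
    ∀ f : Cub F[X], ¬ P.1 ^ (k + 1) ∣ f.disc → ∀ s : Q4 (RatFunc F) × RatFunc F,
    s.1.res = ((f.map (toK F)).sc 4).tr s.2 → LS P s.1 →
    ∀ (n : ℕ) (N : Fin n → M2 (RatFunc F)) (g : Fin n → Q4 (RatFunc F)) (H : Fin n → Q4 F[X]),
      (∀ i, (N i).det ≠ 0) →
      (∀ i, s.1.sub (N i) = (g i).smul ((N i).det ^ 2)) →
      (∀ i, RedTo P (g i) (H i)) →
      (∀ i j, i ≠ j → ¬ LEq (LocP P) (N i) (N j)) →
      ∑ i, (((H i).map (Ideal.Quotient.mk (Ideal.span {P.1 ^ 1}))).sp : ℝ) ≤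
      1 + ((f.map (Ideal.Quotient.mk (Ideal.span {P.1 ^ M}))).nA : ℝ) /
        ((Fintype.card F : ℝ) ^ P.1.natDegree) ^ (M - 1)

/-- **(K13)** the same at infinity. -/
def S_locIU : Prop := ∀ (F : Type) [Field F] [Fintype F], (2 : F) ≠ 0 → ∀ (n M k : ℕ), 2 * k + 1 ≤ M →
    ∀ f f' : Cub F[X], f'.map (sig F) = (f.map (toK F)).sc (tt F (-(n : ℤ)) ^ 2) → ¬ X ^ (k + 1) ∣ f'.disc →
    ∀ s : Q4 (RatFunc F) × RatFunc F, s.1.res = ((f.map (toK F)).sc 4).tr s.2 → LSI s.1 →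
    ∀ (m : ℕ) (N : Fin m → M2 (RatFunc F)) (g : Fin m → Q4 (RatFunc F)) (H : Fin m → Q4 F[X]),
      (∀ i, (N i).det ≠ 0) →
      (∀ i, s.1.sub (N i) = (g i).smul (tt F (2 * n) * (N i).det ^ 2)) →
      (∀ i, RedI (g i) (H i)) →
      (∀ i j, i ≠ j → ¬ LEq (Oi F) (N i) (N j)) →
      ∑ i, (((H i).map (Ideal.Quotient.mk (Ideal.span {(X : F[X]) ^ 1}))).sp : ℝ) ≤
      1 + ((f'.map (Ideal.Quotient.mk (Ideal.span {(X : F[X]) ^ M}))).nA : ℝ) /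
        (Fintype.card F : ℝ) ^ (M - 1)

/-- **(K14)** the integral lattice at `P` is unique if `P²` does not divide the discriminant. -/
def S_uniqK : Prop := ∀ (F : Type) [Field F], (2 : F) ≠ 0 → ∀ (P : Pl F) (f : Cub F[X]), ¬ P.1 ^ 2 ∣ f.disc →
  ∀ s : Q4 (RatFunc F) × RatFunc F, s.1.res = ((f.map (toK F)).sc 4).tr s.2 →
    ∀ (N N' : M2 (RatFunc F)) (g g' : Q4 (RatFunc F)) (H H' : Q4 F[X]), N.det ≠ 0 → N'.det ≠ 0 →
      s.1.sub N = g.smul (N.det ^ 2) → s.1.sub N' = g'.smul (N'.det ^ 2) → RedTo P g H → RedTo P g' H' →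
      LEq (LocP P) N N'

/-- **(K15)** two matrices with the same local lattices. -/
def S_glob : Prop := ∀ (F : Type) [Field F] (M M' : M2 (RatFunc F)) (e e' : ℕ), M.det ≠ 0 → M'.det ≠ 0 →
  (∀ P : Pl F, LEq (LocP P) M M') →
  LEq (Oi F) (M.mul ⟨1, 0, 0, tt F (-(e : ℤ))⟩) (M'.mul ⟨1, 0, 0, tt F (-(e' : ℤ))⟩) →
  e = e' ∧ ∃ (k : RatFunc F) (T : M2 F[X]), k ≠ 0 ∧ M' = (M.mul (T.map (toK F))).scal k ∧
    ((∃ (a : F) (β : F[X]), a ≠ 0 ∧ β.natDegree ≤ e ∧ T = ⟨C a, β, 0, 1⟩) ∨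
      (e = 0 ∧ ∃ a b c : F, a * c - b ≠ 0 ∧ T = ⟨C a, C b, 1, C c⟩))

/-- **(K16)** every smooth curve `z² = g(u, v)` over a finite field has a point. -/
def S_lang : Prop := ∀ (κ : Type) [Field κ] [Fintype κ], (2 : κ) ≠ 0 → ∀ g : Q4 κ, g.res.disc ≠ 0 → 1 ≤ g.sp

/-- **(K16')** smooth points modulo `P` if `P` divides the discriminant exactly once. -/
def S_node : Prop := ∀ (F : Type) [Field F] [Fintype F], (2 : F) ≠ 0 → ∀ (P : Pl F) (G : Q4 F[X]),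
  P.1 ∣ G.res.disc → ¬ P.1 ^ 2 ∣ G.res.disc → 1 ≤ (G.map (Ideal.Quotient.mk (Ideal.span {P.1 ^ 1}))).sp

/-- **(K17)** smooth points modulo `P` lift to points over the completion. -/
def S_hens : Prop := ∀ (F : Type) [Field F] [Fintype F], (2 : F) ≠ 0 → ∀ (P : Pl F) (G : Q4 F[X]),
  1 ≤ (G.map (Ideal.Quotient.mk (Ideal.span {P.1 ^ 1}))).sp → LS P (G.map (toK F))

/-- **(K18)** few quartics modulo `P²` have zero discriminant. -/
def S_dsq : Prop := ∀ (F : Type) [Field F] [Fintype F], (2 : F) ≠ 0 → ∃ c : ℝ, ∀ P : Pl F,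
  (({g : Q4 (Rq (P.1 ^ 2)) | g.res.disc = 0}).ncard : ℝ) ≤ c * ((Fintype.card F : ℝ) ^ P.1.natDegree) ^ 8

/-- **(K18')** few quartics have a discriminant divisible by the square of a place of large degree. -/
def S_large : Prop := ∀ (F : Type) [Field F] [Fintype F], (2 : F) ≠ 0 → ∀ (e c : ℕ) (δ : ℝ), 0 < δ → ∃ n₀ : ℕ, ∀ n ≥ n₀,
  (({G : Q4 F[X] | (G.A.natDegree ≤ 2 * n - 2 * e ∧ G.B.natDegree ≤ 2 * n - e ∧ G.C.natDegree ≤ 2 * n ∧
      G.D.natDegree ≤ 2 * n + e ∧ G.E.natDegree ≤ 2 * n + 2 * e) ∧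
      ∃ P : Pl F, n ≤ P.1.natDegree + c ∧ P.1 ^ 2 ∣ G.res.disc}).ncard : ℝ) ≤
    δ * (Fintype.card F : ℝ) ^ (10 * n + 5)

/-- **(K19)** the proportion of the quartics with a root over a finite field. -/
def S_rt : Prop := ∀ (κ : Type) [Field κ] [Fintype κ], (2 : κ) ≠ 0 →
  (({g : Q4 κ | ¬ g.NR}).ncard : ℝ) ≤ 26 / 27 * (Fintype.card κ : ℝ) ^ 5

end Pool.Agent.H456.BQ
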