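import Pool.Agent.H456.BQ.Stm4

/-!
# Local solubility in terms of the completions of Mathlib: statements
-/

set_option autoImplicit false
set_option linter.all false

open Polynomial Finset IsDedekindDomain
open Pool.Agent.H456.EC (toK toK_inj sig toK_eq reflect_toK)

namespace Pool.Agent.H456.BQ

/-- the place of `F[X]` given by `P` -/
noncomputable def plv {F : Type} [Field F] (P : Pl F) : HeightOneSpectrum F[X] where
  asIdeal := Ideal.span {P.1}
  isPrime := (Ideal.span_singleton_prime P.2.2.ne_zero).2 P.2.2.prime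
  ne_bot := by rw [Ne, Ideal.span_singleton_eq_bot]; exact P.2.2.ne_zero

/-- **(B1)** the completion of Mathlib at a finite place. -/
def S_mcomp : Prop := ∀ (F : Type) [Field F] [Finite F] (P : Pl F),
  Lc4 P.1 (algebraMap F[X] ((plv P).adicCompletionIntegers (RatFunc F)) P.1)
    (algebraMap F[X] ((plv P).adicCompletionIntegers (RatFunc F)))

/-- **(B2)** the completion of Mathlib at infinity. -/
def S_minf : Prop := ∀ (F : Type) [Field F] [Finite F] [DecidableEq (RatFunc F)],
  ∃ (O : Type) (_ : CommRing O) (_ : IsDomain O) (_ : Algebra O (RatFunc.CompletionAtInfty F))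
    (_ : IsFractionRing O (RatFunc.CompletionAtInfty F)) (π : O) (ι : F[X] →+* O), Lc4 (X : F[X]) π ι ∧
      ∀ x : F[X], algebraMap (RatFunc F) (RatFunc.CompletionAtInfty F) (locI_tau F (toK F x)) =
        algebraMap O (RatFunc.CompletionAtInfty F) (ι x)

/-- **(B3)** solubility does not depend on the model of the completion. -/
def S_indep : Prop := ∀ (F : Type) [Field F], (2 : F) ≠ 0 → ∀ (P : Pl F) (g : Q4 (RatFunc F)), g.res.disc ≠ 0 →
  ∀ (O L : Type) [CommRing O] [IsDomain O] [Field L] [Algebra O L] [IsFractionRing O L] (π : O) (ι : F[X] →+* O),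
    Lc4 P.1 π ι → ∀ j : RatFunc F →+* L, (∀ x : F[X], j (toK F x) = algebraMap O L (ι x)) → (g.map j).Sol → LS P g

end Pool.Agent.H456.BQ
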