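import Pool.Agent.H456.BQ.XDef
import Pool.Agent.H456.BQ.T_phi
import Pool.Agent.H456.BQ.T_star

/-!
(XA) `S_avc`, `S_cardc`: the average of the weight with congruence conditions, and the number of the minimal cubics with
congruence conditions.
-/

set_option autoImplicit false
set_option linter.all false

open Polynomial Finset
open Pool.Agent.H456.EC (toK toK_inj sig toK_eq reflect_toK)
open Pool.Agent.H456.RN

namespace Pool.Agent.H456.BQ

variable {F : Type} [Field F] [Fintype F]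

theorem avc_sum_chi (P : Pl F) (M : ℕ) (c : Cub F[X] → Prop) :
    ∑ f : Cub (Rq (P.1 ^ M)), Tht P.1 M c f * chi P M f =
      muPc P M c * (((Fintype.card F : ℝ) ^ P.1.natDegree) ^ M) ^ 3 := by
  have hq2 : 2 ≤ (Fintype.card F : ℝ) := q_ge
  unfold muPc
  rw [div_mul_cancel₀ _ (by positivity)]
  exact sum_congr rfl (fun f _ => mul_comm _ _)

theorem avc_sum_phP (h2 : (2 : F) ≠ 0) (P : Pl F) {m M : ℕ} (hM : 1 ≤ M) {c : Cub F[X] → Prop} (hc : Cnd P.1 m c) :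
    ∑ g, phP P hM (WPc P M c) g = (1 - ((Fintype.card F : ℝ) ^ (2 * P.1.natDegree))⁻¹) * muPc P M c *
      (((Fintype.card F : ℝ) ^ P.1.natDegree) ^ M) ^ 5 := by
  have h := (t_phi t_star) F h2 P M hM (fun g => Tht P.1 M c g * chi P M g)
    (fun f r => by rw [Tht_tr hc, chi_tr]) _ (i4_mul h2)
  rw [avc_sum_chi] at h
  have e : ∀ g : Q4 (Rq (P.1 ^ M)), phP P hM (WPc P M c) g =
      ((g.map (redP P.1 hM)).sp : ℝ) * ((Tht P.1 M c (g.res.sc (Ideal.Quotient.mk _ (C (4 : F)⁻¹))) *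
        chi P M (g.res.sc (Ideal.Quotient.mk _ (C (4 : F)⁻¹)))) /
      (1 + ((g.res.sc (Ideal.Quotient.mk _ (C (4 : F)⁻¹))).nA : ℝ) /
        ((Fintype.card F : ℝ) ^ P.1.natDegree) ^ (M - 1))) := by
    intro g
    unfold phP WPc WP
    rw [mul_div_assoc]
  rw [sum_congr rfl (fun g _ => e g), h, ← pow_mul (Fintype.card F : ℝ) P.1.natDegree 2, mul_comm P.1.natDegree 2]
  ring

theorem avc_sum_phX (h2 : (2 : F) ≠ 0) {m M : ℕ} (hM : 1 ≤ M) {ci : Cub F[X] → Prop} (hc : Cnd (X : F[X]) m ci) :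
    ∑ g, phX F hM (WPc (PlX F) M ci) g = (1 - ((Fintype.card F : ℝ) ^ 2)⁻¹) * muPc (PlX F) M ci *
      ((Fintype.card F : ℝ) ^ M) ^ 5 := by
  have h := avc_sum_phP h2 (PlX F) hM (c := ci) (m := m) hc
  have e1 : (PlX F).1.natDegree = 1 := natDegree_X
  rw [e1, pow_one, mul_one] at h
  exact h

theorem avc_AV (h2 : (2 : F) ≠ 0) {m : ℕ} {c : Pl F → Cub F[X] → Prop} {ci : Cub F[X] → Prop}
    (hc : ∀ P, Cnd P.1 m (c P)) (hci : Cnd (X : F[X]) m ci) (S : Finset (Pl F)) {M : ℕ} (hM : 1 ≤ M) {n e : ℕ}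
    (he : e ≤ n) (hN : dS S M ≤ 2 * n - 2 * e + 1) :
    AV n e (fun G => Ph S hM (fun P => WPc P M (c P)) (WPc (PlX F) M ci) (redV S M n e G)) = IPhc S M c ci := by
  classical
  have hq2 : 2 ≤ (Fintype.card F : ℝ) := q_ge
  have hq0 : (0 : ℝ) < Fintype.card F := by linarith
  unfold AV
  rw [sum_redV S M n e he hN (fun g => Ph S hM (fun P => WPc P M (c P)) (WPc (PlX F) M ci) g)]
  have h1 : ∑ g : Q4 (RB S M), Ph S hM (fun P => WPc P M (c P)) (WPc (PlX F) M ci) g =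
      (∏ P : S, ∑ g, phP P.1 hM (WPc P.1 M (c P.1)) g) * ∑ g, phX F hM (WPc (PlX F) M ci) g :=
    sum_split S M (fun P g => phP P.1 hM (WPc P.1 M (c P.1)) g) (fun g => phX F hM (WPc (PlX F) M ci) g)
  rw [h1, avc_sum_phX h2 hM hci, prod_congr rfl (fun P _ => avc_sum_phP h2 P.1 hM (hc P.1)), prod_mul_distrib,
    prod_mul_distrib, prod_pow, div_eq_iff (by positivity)]
  have e1 : ∏ P : S, ((Fintype.card F : ℝ) ^ P.1.1.natDegree) ^ M = (Fintype.card F : ℝ) ^ (∑ P ∈ S, M * P.1.natDegree) := by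
    rw [← sum_coe_sort S (fun P => M * P.1.natDegree), ← prod_pow_eq_pow_sum]
    apply prod_congr rfl
    intro P _
    rw [← pow_mul, mul_comm]
  have e3 : ∏ P : S, (1 - ((Fintype.card F : ℝ) ^ (2 * P.1.1.natDegree))⁻¹) =
      ∏ P ∈ S, (1 - ((Fintype.card F : ℝ) ^ (2 * P.1.natDegree))⁻¹) :=
    prod_coe_sort S (fun P => 1 - ((Fintype.card F : ℝ) ^ (2 * P.1.natDegree))⁻¹)
  rw [e1, e3]
  unfold IPhc muSc dS
  have h8 : (Fintype.card F : ℝ) ^ (5 * ((∑ P ∈ S, M * P.1.natDegree) + M)) =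
      ((Fintype.card F : ℝ) ^ (∑ P ∈ S, M * P.1.natDegree)) ^ 5 * ((Fintype.card F : ℝ) ^ M) ^ 5 := by
    rw [← mul_pow, ← pow_add, ← pow_mul]
    congr 1
    ring
  rw [h8]
  ring

open Classical in
theorem avc_chi_map (P : Pl F) {m M : ℕ} (hM : 6 ≤ M) (hm : m ≤ M) {c : Cub F[X] → Prop} (hc : Cnd P.1 m c)
    (f : Cub F[X]) : chi P M (f.map (Ideal.Quotient.mk (Ideal.span {P.1 ^ M}))) *
      Tht P.1 M c (f.map (Ideal.Quotient.mk (Ideal.span {P.1 ^ M}))) = if ¬ NMc P.1 f ∧ c f then 1 else 0 := by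
  rw [Tht_map hm hc]
  unfold chi
  by_cases h : NMc P.1 f
  · rw [if_pos ((NMc_iff_mod hM).2 h), zero_mul, if_neg (fun h' => h'.1 h)]
  · rw [if_neg (fun h' => h ((NMc_iff_mod hM).1 h')), one_mul]
    by_cases h' : c f
    · rw [if_pos h', if_pos ⟨h, h'⟩]
    · rw [if_neg h', if_neg (fun h'' => h' h''.2)]

theorem avc_muPc (P : Pl F) (M : ℕ) (c : Cub F[X] → Prop) :
    ∑ g : Cub (Rq (P.1 ^ M)), chi P M g * Tht P.1 M c g =
      muPc P M c * ((Fintype.card F : ℝ) ^ (M * P.1.natDegree)) ^ 3 := by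
  have hq2 : 2 ≤ (Fintype.card F : ℝ) := q_ge
  unfold muPc
  have e0 : ((Fintype.card F : ℝ) ^ P.1.natDegree) ^ M = (Fintype.card F : ℝ) ^ (M * P.1.natDegree) := by
    rw [← pow_mul, mul_comm]
  rw [e0, div_mul_cancel₀ _ (by positivity)]

open Classical in
theorem avc_card {m : ℕ} {c : Pl F → Cub F[X] → Prop} {ci : Cub F[X] → Prop} (hc : ∀ P, Cnd P.1 m (c P))
    (hci : Cnd (X : F[X]) m ci) (S : Finset (Pl F)) {M n : ℕ} (hM : 6 ≤ M) (hm : m ≤ M) (hN : dS S M ≤ 2 * n + 1) :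
    (((Sb F n).filter (fun f => MinS S n f ∧ (∀ P ∈ S, c P f) ∧ ci (crev n f))).card : ℝ) =
      muSc S M c ci * (Fintype.card F : ℝ) ^ (12 * n + 3) := by
  have hq2 : 2 ≤ (Fintype.card F : ℝ) := q_ge
  have hq0 : (0 : ℝ) < Fintype.card F := by linarith
  set φ : (P : S) → Cub (Rq (P.1.1 ^ M)) → ℝ := fun P g => chi P.1 M g * Tht P.1.1 M (c P.1) g with hφ
  set φi : Cub (Rq ((X : F[X]) ^ M)) → ℝ := fun g => chi (PlX F) M g * Tht (X : F[X]) M ci g with hφi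
  have h1 := sum_redC S M n hN (fun g => (∏ P : S, φ P (g.at P)) * φi g.inf)
  rw [sum_splitC S M φ φi] at h1
  have h3 : ∑ f ∈ Sb F n, (∏ P : S, φ P ((redC S M n f).at P)) * φi (redC S M n f).inf =
      (((Sb F n).filter (fun f => MinS S n f ∧ (∀ P ∈ S, c P f) ∧ ci (crev n f))).card : ℝ) := by
    rw [card_filter]
    push_cast
    apply sum_congr rfl
    intro f _
    have e3 : ∀ P : S, φ P ((redC S M n f).at P) = if ¬ NMc P.1.1 f ∧ c P.1 f then 1 else 0 := by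
      intro P
      exact avc_chi_map P.1 hM hm (hc P.1) f
    have e4 : φi (redC S M n f).inf = if ¬ NMc X (crev n f) ∧ ci (crev n f) then 1 else 0 := by
      exact avc_chi_map (PlX F) hM hm hci (crev n f)
    rw [prod_congr rfl (fun P _ => e3 P), e4]
    by_cases h : MinS S n f ∧ (∀ P ∈ S, c P f) ∧ ci (crev n f)
    · rw [if_pos h, if_pos ⟨h.1.2, h.2.2⟩, mul_one]
      apply prod_eq_one
      intro P _
      rw [if_pos ⟨h.1.1 P.1 P.2, h.2.1 P.1 P.2⟩]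
    · rw [if_neg h]
      by_cases h' : ¬ NMc X (crev n f) ∧ ci (crev n f)
      · have h5 : ∃ P : S, ¬ (¬ NMc P.1.1 f ∧ c P.1 f) := by
          by_contra hcon
          push Not at hcon
          exact h ⟨⟨fun P hP => (hcon ⟨P, hP⟩).1, h'.1⟩, fun P hP => (hcon ⟨P, hP⟩).2, h'.2⟩
        obtain ⟨P, hP⟩ := h5
        rw [prod_eq_zero (mem_univ P) (if_neg hP), zero_mul]
      · rw [if_neg h', mul_zero]
  rw [h3, div_eq_iff (by positivity)] at h1
  rw [h1]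
  congr 1
  have h4 : ∀ P : S, ∑ g, φ P g = muPc P.1 M (c P.1) * ((Fintype.card F : ℝ) ^ (M * P.1.1.natDegree)) ^ 3 :=
    fun P => avc_muPc P.1 M (c P.1)
  have h5 : ∑ g, φi g = muPc (PlX F) M ci * ((Fintype.card F : ℝ) ^ M) ^ 3 := by
    have h := avc_muPc (PlX F) M ci
    have e1 : (PlX F).1.natDegree = 1 := natDegree_X
    rw [e1, mul_one] at h
    exact h
  rw [prod_congr rfl (fun P _ => h4 P), h5, prod_mul_distrib, prod_pow, prod_pow_eq_pow_sum]
  have h7 : ∑ P : S, M * P.1.1.natDegree = ∑ P ∈ S, M * P.1.natDegree := sum_coe_sort S (fun P => M * P.1.natDegree)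
  rw [h7]
  unfold muSc
  rw [div_eq_iff (by positivity)]
  have h8 : (Fintype.card F : ℝ) ^ (3 * dS S M) = ((Fintype.card F : ℝ) ^ (∑ P ∈ S, M * P.1.natDegree)) ^ 3 *
      ((Fintype.card F : ℝ) ^ M) ^ 3 := by
    rw [← mul_pow, ← pow_add, ← pow_mul]
    unfold dS
    congr 1
    ring
  rw [h8]
  ring

theorem t_avc : S_avc ∧ S_cardc := by
  constructor
  · intro F _ _ h2 m c ci hc hci S M hM n e hm he hN
    exact avc_AV h2 hc hci S hM he hN
  · intro F _ _ h2 m c ci hc hci S M n hM hm hN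
    exact avc_card hc hci S hM hm hN

end Pool.Agent.H456.BQ
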