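import Pool.Agent.H456.BQ.XDef

/-!
(XB) `S_clsC`, `S_clsL`: comparison of two averages over the isomorphism classes and positivity of an average, from the
averages over the minimal equations (compare with T_clsG.lean).
-/

set_option autoImplicit false
set_option linter.all false

open Polynomial Finset Filter
open Pool.Agent.H456.EC (toK toK_inj sig toK_eq reflect_toK cls Eqn st st_le)
open Pool.Agent.H456.RN

namespace Pool.Agent.H456.BQ

/-- partial sums -/
theorem clsC_cesaro (x y : ℕ → ℝ) (hy0 : ∀ n, 0 ≤ y n)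
    (hxy : ∀ δ : ℝ, 0 < δ → ∀ᶠ n in atTop, |x n| ≤ δ * y n)
    (hyinf : Tendsto (fun d => ∑ e ∈ range (d + 1), y e) atTop atTop) (ε : ℝ) (hε : 0 < ε) :
    ∀ᶠ d in atTop, |∑ e ∈ range (d + 1), x e| ≤ ε * ∑ e ∈ range (d + 1), y e := by
  have h1 := hxy (ε / 2) (half_pos hε)
  rw [eventually_atTop] at h1
  obtain ⟨N, hN⟩ := h1
  obtain ⟨B, hB⟩ : ∃ B : ℝ, B = ∑ e ∈ range N, |x e| := ⟨_, rfl⟩
  filter_upwards [hyinf.eventually_ge_atTop (2 * B / ε)] with d hd
  have h4 : |∑ e ∈ range (d + 1), x e| ≤ B + (ε / 2) * ∑ e ∈ range (d + 1), y e := by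
    refine (abs_sum_le_sum_abs _ _).trans ?_
    have e1 : ∀ e ∈ range (d + 1), |x e| ≤ (if e < N then |x e| else 0) + (ε / 2) * y e := by
      intro e _
      split_ifs with he
      · have : 0 ≤ (ε / 2) * y e := mul_nonneg (by linarith) (hy0 e)
        linarith
      · rw [zero_add]
        exact hN e (by omega)
    refine (sum_le_sum e1).trans ?_
    rw [sum_add_distrib, ← mul_sum]
    gcongr
    rw [← sum_filter]
    rw [hB]
    apply sum_le_sum_of_subset_of_nonneg
    · intro e he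
      rw [mem_filter] at he
      exact mem_range.2 he.2
    · intro e _ _; exact abs_nonneg _
  refine h4.trans ?_
  have h5 : B ≤ ε / 2 * ∑ e ∈ range (d + 1), y e := by
    rw [div_le_iff₀ hε] at hd
    linarith
  linarith

/-- the partial sums tend to infinity -/
theorem clsC_inf (y : ℕ → ℝ) (hy0 : ∀ n, 0 ≤ y n) {b : ℝ} (hb : 0 < b) (h : ∀ᶠ n in atTop, b ≤ y n) :
    Tendsto (fun d => ∑ e ∈ range (d + 1), y e) atTop atTop := by
  rw [eventually_atTop] at h
  obtain ⟨N, h1⟩ := h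
  rw [tendsto_atTop]
  intro a
  obtain ⟨m, hm⟩ := exists_nat_gt (a / b)
  rw [div_lt_iff₀ hb] at hm
  filter_upwards [eventually_ge_atTop (N + m)] with d hd
  have h5 : ∑ e ∈ Finset.Ico N (N + m), y e ≤ ∑ e ∈ range (d + 1), y e := by
    apply sum_le_sum_of_subset_of_nonneg
    · intro e he
      rw [Finset.mem_Ico] at he
      rw [mem_range]; omega
    · intro e _ _; exact hy0 e
  refine le_trans ?_ h5
  have h6 : ∑ e ∈ Finset.Ico N (N + m), b ≤ ∑ e ∈ Finset.Ico N (N + m), y e :=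
    sum_le_sum fun e he => h1 e (Finset.mem_Ico.1 he).1
  refine le_trans ?_ h6
  rw [sum_const, Nat.card_Ico, nsmul_eq_mul, Nat.add_sub_cancel_left]
  exact hm.le

/-- lower bounds for partial sums -/
theorem clsC_lower (x y : ℕ → ℝ) {c : ℝ} (hc : 0 < c) (hx0 : ∀ n, 0 ≤ x n) (hy0 : ∀ n, 0 ≤ y n)
    (h : ∀ᶠ n in atTop, c * y n ≤ x n)
    (hyinf : Tendsto (fun d => ∑ e ∈ range (d + 1), y e) atTop atTop) :
    ∀ᶠ d in atTop, c / 2 * ∑ e ∈ range (d + 1), y e ≤ ∑ e ∈ range (d + 1), x e := by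
  rw [eventually_atTop] at h
  obtain ⟨N, hN⟩ := h
  obtain ⟨B, hB⟩ : ∃ B : ℝ, B = ∑ e ∈ range N, y e := ⟨_, rfl⟩
  filter_upwards [hyinf.eventually_ge_atTop (2 * B)] with d hd
  have e1 : ∀ e ∈ range (d + 1), c * y e ≤ x e + c * (if e < N then y e else 0) := by
    intro e _
    split_ifs with he
    · have := hx0 e
      linarith
    · rw [mul_zero, add_zero]
      exact hN e (by omega)
  have h2 := sum_le_sum e1
  rw [sum_add_distrib, ← mul_sum, ← mul_sum, ← sum_filter] at h2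
  have h3 : ∑ e ∈ (range (d + 1)).filter (fun e => e < N), y e ≤ B := by
    rw [hB]
    apply sum_le_sum_of_subset_of_nonneg
    · intro e he
      rw [mem_filter] at he
      exact mem_range.2 he.2
    · intro e _ _; exact hy0 e
  have h4 := mul_le_mul_of_nonneg_left h3 hc.le
  have h5 : c * (2 * B) ≤ c * ∑ e ∈ range (d + 1), y e := mul_le_mul_of_nonneg_left hd hc.le
  linarith

section

variable {F : Type} [Field F] [Fintype F]

/-- the normalising factor -/
noncomputable def clsC_k (F : Type) [Fintype F] (n : ℕ) : ℝ :=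
  (Fintype.card F : ℝ) ^ (4 * n + 2) / (((Fintype.card F : ℝ) - 1) * (Fintype.card F : ℝ) ^ (6 * n + 3))

theorem clsC_k_pos (n : ℕ) : 0 < clsC_k F n := by
  have hq2 : 2 ≤ (Fintype.card F : ℝ) := q_ge
  have hq1 : 0 < (Fintype.card F : ℝ) - 1 := by linarith
  unfold clsC_k
  positivity

open Classical in
theorem clsC_x (h2 : (2 : F) ≠ 0) (w : KC F → ℝ) (n : ℕ) :
    ∑ κ ∈ CLe F n, w κ = clsC_k F n * ∑ f ∈ Msh F n, w (cls (crv f)) * st n (crv f) := by
  unfold CLe
  rw [sum_cls h2 n w]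
  rfl

open Classical in
theorem clsC_y (h2 : (2 : F) ≠ 0) (n : ℕ) :
    ((CLe F n).card : ℝ) = clsC_k F n * ∑ f ∈ Msh F n, (st n (crv f) : ℝ) := by
  have h1 := clsC_x h2 (fun _ : KC F => (1 : ℝ)) n
  rw [sum_const, nsmul_eq_mul, mul_one] at h1
  refine Eq.trans h1 ?_
  congr 1
  apply sum_congr rfl
  intro f _
  rw [one_mul]

theorem clsC_st (n : ℕ) (f : Cub F[X]) : (st n (crv f) : ℝ) ≤ 16 * (Fintype.card F : ℝ) := by
  have := st_le n (crv f)
  exact_mod_cast this

open Classical in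
theorem clsC_yl (h2 : (2 : F) ≠ 0) (n : ℕ) : 2 * clsC_k F n * (Msh F n).card ≤ ((CLe F n).card : ℝ) := by
  rw [clsC_y h2]
  have h1 : (Msh F n).card * (2 : ℝ) ≤ ∑ f ∈ Msh F n, (st n (crv f) : ℝ) := by
    rw [← nsmul_eq_mul, ← sum_const]
    apply sum_le_sum
    intro f _
    exact_mod_cast st_ge h2 n f
  have := mul_le_mul_of_nonneg_left h1 (clsC_k_pos (F := F) n).le
  linarith

open Classical in
theorem clsC_card (d : ℕ) : ((CL F d).card : ℝ) = ∑ e ∈ range (d + 1), ((CLe F e).card : ℝ) := by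
  have := sum_CL (F := F) d (fun _ => (1 : ℝ))
  rw [sum_const, nsmul_eq_mul, mul_one] at this
  rw [this]
  apply sum_congr rfl
  intro e _
  rw [sum_const, nsmul_eq_mul, mul_one]

open Classical in
/-- the decomposition of the sum over the classes -/
theorem clsC_dec (h2 : (2 : F) ≠ 0) (w : KC F → ℝ) (hw : ∀ κ, 0 ≤ w κ) (n : ℕ) : ∃ B : ℝ, 0 ≤ B ∧
    B ≤ 16 * (Fintype.card F : ℝ) * ∑ f ∈ (Msh F n).filter (fun f => BadC f), w (cls (crv f)) ∧
    ∑ κ ∈ CLe F n, w κ = clsC_k F n * (B + 2 * ∑ f ∈ (Msh F n).filter (fun f => ¬ BadC f), w (cls (crv f))) := by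
  refine ⟨∑ f ∈ (Msh F n).filter (fun f => BadC f), w (cls (crv f)) * st n (crv f),
    sum_nonneg fun f _ => mul_nonneg (hw _) (Nat.cast_nonneg _), ?_, ?_⟩
  · rw [mul_sum]
    apply sum_le_sum
    intro f _
    rw [mul_comm]
    exact mul_le_mul_of_nonneg_right (clsC_st n f) (hw _)
  · rw [clsC_x h2 w n]
    congr 1
    rw [mul_sum, ← sum_filter_add_sum_filter_not (Msh F n) (fun f => BadC f)]
    congr 1
    apply sum_congr rfl
    intro f hf
    have hb := (mem_filter.1 hf).2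
    unfold BadC at hb
    rw [not_or, not_or] at hb
    rw [st_eq h2 n hb.1.1 hb.1.2]
    push_cast
    ring

end

open Classical in
theorem t_clsC : S_badc → S_clsC ∧ S_clsL := by
  intro _
  constructor
  · intro F _ _ h2 w v hw hv H1 Hw Hv H3 ε hε
    have hq2 : 2 ≤ (Fintype.card F : ℝ) := q_ge
    have hk0 := fun n => clsC_k_pos (F := F) n
    have hyl := fun n => clsC_yl (F := F) h2 n
    have hy0 : ∀ n, 0 ≤ ((CLe F n).card : ℝ) := fun n => Nat.cast_nonneg _
    have hdw := fun n => clsC_dec (F := F) h2 w hw n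
    have hdv := fun n => clsC_dec (F := F) h2 v hv n
    have hkQ : ∀ n, 1 ≤ clsC_k F n * (Fintype.card F : ℝ) ^ (12 * n + 3) := by
      intro n
      have hq1 : 0 < (Fintype.card F : ℝ) - 1 := by linarith
      unfold clsC_k
      rw [div_mul_eq_mul_div, le_div_iff₀ (by positivity), one_mul, ← pow_add]
      have e3 : ((Fintype.card F : ℝ) - 1) * (Fintype.card F : ℝ) ^ (6 * n + 3) ≤
          (Fintype.card F : ℝ) * (Fintype.card F : ℝ) ^ (6 * n + 3) :=
        mul_le_mul_of_nonneg_right (by linarith) (by positivity)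
      refine e3.trans ?_
      rw [← pow_succ']
      exact pow_le_pow_right₀ (by linarith) (by omega)
    obtain ⟨q, hq⟩ : ∃ q : ℝ, q = (Fintype.card F : ℝ) := ⟨_, rfl⟩
    rw [← hq] at hq2 Hw Hv H3 hdw hdv hkQ
    have hq0 : 0 < q := by linarith
    -- the main estimate
    have hxy : ∀ δ : ℝ, 0 < δ → ∀ᶠ n in atTop,
        |(∑ κ ∈ CLe F n, w κ) - ∑ κ ∈ CLe F n, v κ| ≤ δ * ((CLe F n).card : ℝ) := by
      intro δ hδ
      filter_upwards [H1 (δ / 4) (by positivity), Hw (δ / (128 * q)) (by positivity),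
        Hv (δ / (128 * q)) (by positivity), H3] with n n1 n2 n3 n4
      obtain ⟨B, hB0, hB1, hB2⟩ := hdw n
      obtain ⟨B', hB0', hB1', hB2'⟩ := hdv n
      rw [hB2, hB2']
      have hyn := hyl n
      have hkn := hk0 n
      obtain ⟨Q, hQ⟩ : ∃ Q : ℝ, Q = q ^ (12 * n + 3) := ⟨_, rfl⟩
      obtain ⟨M, hM⟩ : ∃ M : ℝ, M = ((Msh F n).card : ℝ) := ⟨_, rfl⟩
      obtain ⟨S, hS⟩ : ∃ S : ℝ, S = ∑ f ∈ (Msh F n).filter (fun f => ¬ BadC f), w (cls (crv f)) :=
        ⟨_, rfl⟩
      obtain ⟨S', hS'⟩ : ∃ S : ℝ, S = ∑ f ∈ (Msh F n).filter (fun f => ¬ BadC f), v (cls (crv f)) :=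
        ⟨_, rfl⟩
      obtain ⟨T, hT⟩ : ∃ S : ℝ, S = ∑ f ∈ (Msh F n).filter (fun f => BadC f), w (cls (crv f)) :=
        ⟨_, rfl⟩
      obtain ⟨T', hT'⟩ : ∃ S : ℝ, S = ∑ f ∈ (Msh F n).filter (fun f => BadC f), v (cls (crv f)) :=
        ⟨_, rfl⟩
      obtain ⟨Y, hY⟩ : ∃ Y : ℝ, Y = ((CLe F n).card : ℝ) := ⟨_, rfl⟩
      obtain ⟨k, hk⟩ : ∃ k : ℝ, k = clsC_k F n := ⟨_, rfl⟩
      rw [← hS, ← hS', ← hM] at n1
      rw [← hT, ← hQ] at n2
      rw [← hT', ← hQ] at n3
      rw [← hQ, ← hM] at n4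
      rw [← hT] at hB1
      rw [← hT'] at hB1'
      rw [← hM, ← hY, ← hk] at hyn
      rw [← hk] at hkn
      rw [← hS, ← hS', ← hY, ← hk]
      have c1 : ∀ t : ℝ, t ≤ δ / (128 * q) * Q → 16 * q * t ≤ δ / 2 * M := by
        intro t ht
        have e1 : 16 * q * t ≤ 16 * q * (δ / (128 * q) * Q) :=
          mul_le_mul_of_nonneg_left ht (by positivity)
        have e2 : 16 * q * (δ / (128 * q) * Q) = δ / 8 * Q := by field_simp; ring
        rw [e2] at e1
        have e3 : δ / 8 * Q ≤ δ / 8 * (4 * M) := mul_le_mul_of_nonneg_left (by linarith) (by positivity)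
        linarith
      have f1 := c1 T n2
      have f2 := c1 T' n3
      have n1' := abs_le.1 n1
      have h8 : k * (B + 2 * S) - k * (B' + 2 * S') = k * ((B - B') + 2 * (S - S')) := by ring
      have h9 : |(B - B') + 2 * (S - S')| ≤ δ * (2 * M) := by
        rw [abs_le]
        constructor
        · linarith [n1'.1, n1'.2]
        · linarith [n1'.1, n1'.2]
      rw [h8, abs_mul, abs_of_pos hkn]
      calc k * _ ≤ k * (δ * (2 * M)) := mul_le_mul_of_nonneg_left h9 hkn.le
        _ = δ * (2 * k * M) := by ring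
        _ ≤ δ * Y := mul_le_mul_of_nonneg_left hyn hδ.le
    -- partial sums
    have hyinf : Tendsto (fun d => ∑ e ∈ range (d + 1), ((CLe F e).card : ℝ)) atTop atTop := by
      refine clsC_inf _ hy0 (b := 1 / 2) (by norm_num) ?_
      filter_upwards [H3] with n n3
      refine le_trans ?_ (hyl n)
      have e1 := hkQ n
      have e2 : 2 * clsC_k F n * ((1 / 4) * q ^ (12 * n + 3)) ≤ 2 * clsC_k F n * ((Msh F n).card : ℝ) :=
        mul_le_mul_of_nonneg_left n3 (by have := hk0 n; positivity)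
      refine le_trans ?_ e2
      linarith
    have hfin := clsC_cesaro (fun n => (∑ κ ∈ CLe F n, w κ) - ∑ κ ∈ CLe F n, v κ)
      (fun n => ((CLe F n).card : ℝ)) hy0 hxy hyinf ε hε
    filter_upwards [hfin] with d hd
    rw [clsC_card d, sum_CL, sum_CL, ← sum_sub_distrib]
    exact hd
  · intro F _ _ h2 v hv δ hδ H
    have hq2 : 2 ≤ (Fintype.card F : ℝ) := q_ge
    have hk0 := fun n => clsC_k_pos (F := F) n
    have hy0 : ∀ n, 0 ≤ ((CLe F n).card : ℝ) := fun n => Nat.cast_nonneg _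
    have hxe := fun n => clsC_x (F := F) h2 v n
    have hye := fun n => clsC_y (F := F) h2 n
    have hst := fun n (f : Cub F[X]) => clsC_st (F := F) n f
    have hM : ∀ n, ((Msh F n).card : ℝ) ≤ (Fintype.card F : ℝ) ^ (12 * n + 3) := by
      intro n
      have h1 : (Msh F n).card ≤ (Sb F n).card := by
        apply card_le_card
        intro f hf
        exact mem_Sb.2 (mem_Msh.1 hf).1
      rw [card_Sb] at h1
      exact_mod_cast h1
    obtain ⟨q, hq⟩ : ∃ q : ℝ, q = (Fintype.card F : ℝ) := ⟨_, rfl⟩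
    rw [← hq] at hq2 H hM hst
    have hq0 : 0 < q := by linarith
    have hxl : ∀ᶠ n in atTop, 2 * clsC_k F n * (δ * q ^ (12 * n + 3)) ≤ ∑ κ ∈ CLe F n, v κ := by
      filter_upwards [H] with n hn
      rw [hxe n]
      have h1 : ∑ f ∈ Msh F n, v (cls (crv f)) * 2 ≤ ∑ f ∈ Msh F n, v (cls (crv f)) * (st n (crv f) : ℝ) := by
        apply sum_le_sum
        intro f _
        apply mul_le_mul_of_nonneg_left _ (hv _)
        exact_mod_cast st_ge h2 n f
      rw [← sum_mul] at h1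
      have h3 := hk0 n
      calc 2 * clsC_k F n * (δ * q ^ (12 * n + 3))
          ≤ 2 * clsC_k F n * ∑ f ∈ Msh F n, v (cls (crv f)) := mul_le_mul_of_nonneg_left hn (by positivity)
        _ = clsC_k F n * ((∑ f ∈ Msh F n, v (cls (crv f))) * 2) := by ring
        _ ≤ clsC_k F n * ∑ f ∈ Msh F n, v (cls (crv f)) * (st n (crv f) : ℝ) :=
          mul_le_mul_of_nonneg_left h1 h3.le
    have hyu : ∀ n, ((CLe F n).card : ℝ) ≤ clsC_k F n * (16 * q * q ^ (12 * n + 3)) := by
      intro n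
      rw [hye n]
      apply mul_le_mul_of_nonneg_left _ (hk0 n).le
      calc ∑ f ∈ Msh F n, (st n (crv f) : ℝ) ≤ ∑ f ∈ Msh F n, (16 * q) := sum_le_sum fun f _ => hst n f
        _ = (Msh F n).card * (16 * q) := by rw [sum_const, nsmul_eq_mul]
        _ ≤ q ^ (12 * n + 3) * (16 * q) := mul_le_mul_of_nonneg_right (hM n) (by positivity)
        _ = 16 * q * q ^ (12 * n + 3) := by ring
    have hcy : ∀ᶠ n in atTop, δ / (8 * q) * ((CLe F n).card : ℝ) ≤ ∑ κ ∈ CLe F n, v κ := by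
      filter_upwards [hxl] with n hn
      refine le_trans ?_ hn
      calc δ / (8 * q) * ((CLe F n).card : ℝ) ≤ δ / (8 * q) * (clsC_k F n * (16 * q * q ^ (12 * n + 3))) :=
            mul_le_mul_of_nonneg_left (hyu n) (by positivity)
        _ = 2 * clsC_k F n * (δ * q ^ (12 * n + 3)) := by field_simp; ring
    have hyinf : Tendsto (fun d => ∑ e ∈ range (d + 1), ((CLe F e).card : ℝ)) atTop atTop := by
      refine clsC_inf _ hy0 (b := 1) (by norm_num) ?_
      filter_upwards [hxl] with n hn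
      have h3 := hk0 n
      have h4 : 0 < ∑ κ ∈ CLe F n, v κ := lt_of_lt_of_le (by positivity) hn
      have h5 : (CLe F n).Nonempty := by
        rw [Finset.nonempty_iff_ne_empty]
        intro he
        rw [he, sum_empty] at h4
        exact lt_irrefl _ h4
      exact_mod_cast h5.card_pos
    refine ⟨δ / (8 * q) / 2, by positivity, ?_⟩
    have hfin := clsC_lower (fun n => ∑ κ ∈ CLe F n, v κ) (fun n => ((CLe F n).card : ℝ)) (c := δ / (8 * q))
      (by positivity) (fun n => sum_nonneg fun κ _ => hv κ) hy0 hcy hyinf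
    filter_upwards [hfin] with d hd
    rw [clsC_card d, sum_CL]
    exact hd

end Pool.Agent.H456.BQ
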