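import Pool.Agent.H456.BQ.Stm6
import Pool.Agent.H456.BQ.ClsC

/-!
(M9) `S_clsG`, from `S_badc`: a two-sided version of `cls_limit` (ClsC.lean, last theorem) for a general nonnegative function `w` on the set `KC F` of the isomorphism classes. Let `q = #F`,
`k n = q^(4n+2) / ((q-1) q^(6n+3))`, `x n = ∑_{κ ∈ CLe F n} w κ = k n ∑_{f ∈ Msh F n} w(cls (crv f)) st n (crv f)`, `y n = #CLe F n = k n ∑_{f ∈ Msh F n} st n (crv f)` (`sum_cls`, ClsB.lean). `st = 2` for `¬ BadC f` (`st_eq`),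
`2 ≤ st ≤ 16 q` (`st_ge`, `st_le`). So `|x n - β y n| ≤ k n (2 |∑_{¬BadC} w - β #Msh| + 2 β #{f ∈ Msh, BadC} + 16 q ∑_{BadC} w + β 16 q #{f ∈ Msh, BadC})`, and by the hypotheses and `S_badc` (`Msh F n ⊆ Sb F n`)
for every `δ > 0` this is `≤ δ k n #Msh ≤ δ y n` for `n` large (`q^(12n+3) ≤ 4 #Msh`). Then the partial sums: `∑_{κ ∈ CL F d} w κ = ∑_{e ≤ d} x e` (`sum_CL`), `#CL F d = ∑_{e ≤ d} y e → ∞` (as in `cls_limit`), so
`|∑ x e - β ∑ y e| ≤ const + (ε/2) ∑ y e ≤ ε ∑ y e` for `d` large. Copy the structure of the proof of `cls_limit`.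
-/

set_option autoImplicit false
set_option linter.all false

open Polynomial Finset Filter
open Pool.Agent.H456.EC (toK toK_inj sig toK_eq reflect_toK cls Eqn st st_le)
open Pool.Agent.H456.RN

namespace Pool.Agent.H456.BQ

/-- partial sums -/
theorem clsG_cesaro (x y : ℕ → ℝ) (β : ℝ) (hy0 : ∀ n, 0 ≤ y n)
    (hxy : ∀ δ : ℝ, 0 < δ → ∀ᶠ n in atTop, |x n - β * y n| ≤ δ * y n)
    (hyinf : Tendsto (fun d => ∑ e ∈ range (d + 1), y e) atTop atTop) (ε : ℝ) (hε : 0 < ε) :
    ∀ᶠ d in atTop, |∑ e ∈ range (d + 1), x e - β * ∑ e ∈ range (d + 1), y e| ≤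
      ε * ∑ e ∈ range (d + 1), y e := by
  have h1 := hxy (ε / 2) (half_pos hε)
  rw [eventually_atTop] at h1
  obtain ⟨N, hN⟩ := h1
  obtain ⟨B, hB⟩ : ∃ B : ℝ, B = ∑ e ∈ range N, |x e - β * y e| := ⟨_, rfl⟩
  filter_upwards [hyinf.eventually_ge_atTop (2 * B / ε)] with d hd
  have h3 : ∑ e ∈ range (d + 1), x e - β * ∑ e ∈ range (d + 1), y e =
      ∑ e ∈ range (d + 1), (x e - β * y e) := by
    rw [sum_sub_distrib, mul_sum]
  rw [h3]
  have h4 : |∑ e ∈ range (d + 1), (x e - β * y e)| ≤ B + (ε / 2) * ∑ e ∈ range (d + 1), y e := by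
    refine (abs_sum_le_sum_abs _ _).trans ?_
    have e1 : ∀ e ∈ range (d + 1), |x e - β * y e| ≤
        (if e < N then |x e - β * y e| else 0) + (ε / 2) * y e := by
      intro e _
      split_ifs with he
      · have : 0 ≤ (ε / 2) * y e := mul_nonneg (by linarith) (hy0 e)
        linarith
      · rw [zero_add]
        exact hN e (by omega)
    refine (sum_le_sum e1).trans ?_
    rw [sum_add_distrib, ← mul_sum]
    gcongr
    rw [← sum_filter]
    rw [hB]
    apply sum_le_sum_of_subset_of_nonneg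
    · intro e he
      rw [mem_filter] at he
      exact mem_range.2 he.2
    · intro e _ _; exact abs_nonneg _
  refine h4.trans ?_
  have h5 : B ≤ ε / 2 * ∑ e ∈ range (d + 1), y e := by
    rw [div_le_iff₀ hε] at hd
    linarith
  linarith

open Classical in
theorem t_clsG : S_badc → S_clsG := by
  intro hbadc F _ _ h2 w hw β hβ H1 H2 H3 ε hε
  have hq2 : 2 ≤ (Fintype.card F : ℝ) := q_ge
  have Hb := hbadc F h2
  have hst : ∀ n (f : Cub F[X]), (st n (crv f) : ℝ) ≤ 16 * (Fintype.card F : ℝ) := by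
    intro n f
    have := st_le n (crv f)
    exact_mod_cast this
  have hsum := fun n => sum_cls (F := F) h2 n
  obtain ⟨q, hq⟩ : ∃ q : ℝ, q = (Fintype.card F : ℝ) := ⟨_, rfl⟩
  rw [← hq] at hq2 H2 H3 Hb hst hsum
  have hq0 : 0 < q := by linarith
  have hq1 : 0 < q - 1 := by linarith
  obtain ⟨k, hk⟩ : ∃ k : ℕ → ℝ, ∀ n, k n = q ^ (4 * n + 2) / ((q - 1) * q ^ (6 * n + 3)) :=
    ⟨fun n => q ^ (4 * n + 2) / ((q - 1) * q ^ (6 * n + 3)), fun _ => rfl⟩
  have hk0 : ∀ n, 0 < k n := fun n => by rw [hk]; positivity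
  obtain ⟨x, hx⟩ : ∃ x : ℕ → ℝ, ∀ n, x n = ∑ κ ∈ CLe F n, w κ := ⟨_, fun _ => rfl⟩
  obtain ⟨y, hy⟩ : ∃ y : ℕ → ℝ, ∀ n, y n = ((CLe F n).card : ℝ) := ⟨_, fun _ => rfl⟩
  have hxe : ∀ n, x n = k n * ∑ f ∈ Msh F n, w (cls (crv f)) * st n (crv f) := by
    intro n
    rw [hx, hk]
    exact hsum n w
  have hye : ∀ n, y n = k n * ∑ f ∈ Msh F n, (st n (crv f) : ℝ) := by
    intro n
    have h1 := hsum n (fun _ => (1 : ℝ))
    rw [sum_const, nsmul_eq_mul, mul_one] at h1
    rw [hy, hk]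
    refine Eq.trans h1 ?_
    congr 1
    apply sum_congr rfl
    intro f _
    rw [one_mul]
  have hyl : ∀ n, 2 * k n * (Msh F n).card ≤ y n := by
    intro n
    rw [hye]
    have h1 : (Msh F n).card * (2 : ℝ) ≤ ∑ f ∈ Msh F n, (st n (crv f) : ℝ) := by
      rw [← nsmul_eq_mul, ← sum_const]
      apply sum_le_sum
      intro f _
      exact_mod_cast st_ge h2 n f
    have := mul_le_mul_of_nonneg_left h1 (hk0 n).le
    linarith
  have hy0 : ∀ n, 0 ≤ y n := fun n => by rw [hy]; positivity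
  -- the main estimate
  have hxy : ∀ δ : ℝ, 0 < δ → ∀ᶠ n in atTop, |x n - β * y n| ≤ δ * y n := by
    intro δ hδ
    have hβ2 : 0 < β * (16 * q + 2) + 1 := by positivity
    filter_upwards [H1 (δ / 4) (by positivity), H2 (δ / (128 * q)) (by positivity),
      Hb (δ / (4 * (β * (16 * q + 2) + 1))) (by positivity), H3] with n n1 n2 n3 n4
    obtain ⟨Q, hQ⟩ : ∃ Q : ℝ, Q = q ^ (12 * n + 3) := ⟨_, rfl⟩
    obtain ⟨M, hM⟩ : ∃ M : ℝ, M = ((Msh F n).card : ℝ) := ⟨_, rfl⟩
    obtain ⟨S, hS⟩ : ∃ S : ℝ, S = ∑ f ∈ (Msh F n).filter (fun f => ¬ BadC f), w (cls (crv f)) :=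
      ⟨_, rfl⟩
    obtain ⟨Bw, hBw⟩ : ∃ Bw : ℝ, Bw = ∑ f ∈ (Msh F n).filter (fun f => BadC f), w (cls (crv f)) :=
      ⟨_, rfl⟩
    obtain ⟨Bc, hBc⟩ : ∃ Bc : ℝ, Bc = (((Msh F n).filter (fun f => BadC f)).card : ℝ) := ⟨_, rfl⟩
    obtain ⟨Bx, hBx⟩ : ∃ Bx : ℝ, Bx = ∑ f ∈ (Msh F n).filter (fun f => BadC f),
      w (cls (crv f)) * st n (crv f) := ⟨_, rfl⟩
    obtain ⟨By, hBy⟩ : ∃ By : ℝ, By = ∑ f ∈ (Msh F n).filter (fun f => BadC f),
      (st n (crv f) : ℝ) := ⟨_, rfl⟩
    have hstg : ∀ f ∈ (Msh F n).filter (fun f => ¬ BadC f), (st n (crv f) : ℝ) = 2 := by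
      intro f hf
      have hb := (mem_filter.1 hf).2
      unfold BadC at hb
      rw [not_or, not_or] at hb
      rw [st_eq h2 n hb.1.1 hb.1.2]
      push_cast
      ring
    have hBc0 : 0 ≤ Bc := by rw [hBc]; positivity
    have hBw0 : 0 ≤ Bw := by rw [hBw]; exact sum_nonneg fun f _ => hw _
    have hBx0 : 0 ≤ Bx := by
      rw [hBx]; exact sum_nonneg fun f _ => mul_nonneg (hw _) (Nat.cast_nonneg _)
    have hBy0 : 0 ≤ By := by rw [hBy]; exact sum_nonneg fun f _ => Nat.cast_nonneg _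
    have hBx1 : Bx ≤ 16 * q * Bw := by
      rw [hBx, hBw, mul_sum]
      apply sum_le_sum
      intro f _
      rw [mul_comm]
      exact mul_le_mul_of_nonneg_right (hst n f) (hw _)
    have hBy1 : By ≤ 16 * q * Bc := by
      rw [hBy, hBc, mul_comm (16 * q), ← nsmul_eq_mul, ← sum_const]
      apply sum_le_sum
      intro f _
      exact hst n f
    have h5 : ∑ f ∈ Msh F n, w (cls (crv f)) * st n (crv f) = Bx + 2 * S := by
      rw [hBx, hS, mul_sum, ← sum_filter_add_sum_filter_not (Msh F n) (fun f => BadC f)]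
      congr 1
      apply sum_congr rfl
      intro f hf
      rw [hstg f hf, mul_comm]
    have h6 : ∑ f ∈ Msh F n, (st n (crv f) : ℝ) = By + 2 * (M - Bc) := by
      have h7 : M = Bc + (((Msh F n).filter (fun f => ¬ BadC f)).card : ℝ) := by
        rw [hM, hBc, ← Nat.cast_add, card_filter_add_card_filter_not]
      rw [h7, add_sub_cancel_left, hBy, ← sum_filter_add_sum_filter_not (Msh F n) (fun f => BadC f)]
      congr 1
      rw [sum_congr rfl hstg, sum_const, nsmul_eq_mul, mul_comm]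
    have hBc1 : Bc ≤ δ / (4 * (β * (16 * q + 2) + 1)) * Q := by
      refine le_trans ?_ (hQ ▸ n3)
      rw [hBc]
      have : (Msh F n).filter (fun f => BadC f) ⊆ (Sb F n).filter (fun f => BadC f) := by
        intro f hf
        rw [mem_filter] at hf ⊢
        exact ⟨mem_Sb.2 (mem_Msh.1 hf.1).1, hf.2⟩
      exact_mod_cast card_le_card this
    rw [← hS, ← hM] at n1
    rw [← hBw, ← hQ] at n2
    rw [← hQ, ← hM] at n4
    have hM0 : 0 ≤ M := by rw [hM]; positivity
    have c1 : 16 * q * Bw ≤ δ / 2 * M := by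
      have e1 : 16 * q * Bw ≤ 16 * q * (δ / (128 * q) * Q) :=
        mul_le_mul_of_nonneg_left n2 (by positivity)
      have e2 : 16 * q * (δ / (128 * q) * Q) = δ / 8 * Q := by field_simp; ring
      rw [e2] at e1
      have e3 : δ / 8 * Q ≤ δ / 8 * (4 * M) := mul_le_mul_of_nonneg_left (by linarith) (by positivity)
      linarith
    have c2 : β * (16 * q + 2) * Bc ≤ δ * M := by
      have e0 : β * (16 * q + 2) * Bc ≤ (β * (16 * q + 2) + 1) * Bc := by nlinarith
      have e1 : (β * (16 * q + 2) + 1) * Bc ≤ (β * (16 * q + 2) + 1) *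
          (δ / (4 * (β * (16 * q + 2) + 1)) * Q) := mul_le_mul_of_nonneg_left hBc1 hβ2.le
      have e2 : (β * (16 * q + 2) + 1) * (δ / (4 * (β * (16 * q + 2) + 1)) * Q) = δ / 4 * Q := by
        field_simp
      rw [e2] at e1
      have e3 : δ / 4 * Q ≤ δ / 4 * (4 * M) := mul_le_mul_of_nonneg_left (by linarith) (by positivity)
      linarith
    have h8 : x n - β * y n = k n * ((Bx + 2 * (S - β * M)) - β * By + 2 * β * Bc) := by
      rw [hxe, hye, h5, h6]; ring
    have h9 : |(Bx + 2 * (S - β * M)) - β * By + 2 * β * Bc| ≤ δ * (2 * M) := by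
      have n1' := abs_le.1 n1
      have f1 : β * By ≤ β * (16 * q * Bc) := mul_le_mul_of_nonneg_left hBy1 hβ
      have f2 : 0 ≤ β * By := mul_nonneg hβ hBy0
      have f3 : 0 ≤ β * Bc := mul_nonneg hβ hBc0
      have f4 : β * (16 * q + 2) * Bc = β * (16 * q * Bc) + 2 * (β * Bc) := by ring
      rw [abs_le]
      constructor
      · nlinarith [n1'.1, n1'.2]
      · nlinarith [n1'.1, n1'.2]
    rw [h8, abs_mul, abs_of_pos (hk0 n)]
    calc k n * _ ≤ k n * (δ * (2 * M)) := mul_le_mul_of_nonneg_left h9 (hk0 n).le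
      _ = δ * (2 * k n * M) := by ring
      _ ≤ δ * y n := mul_le_mul_of_nonneg_left (hM ▸ hyl n) hδ.le
  -- partial sums
  have hyinf : Tendsto (fun d => ∑ e ∈ range (d + 1), y e) atTop atTop := by
    rw [eventually_atTop] at H3
    obtain ⟨N, hN⟩ := H3
    obtain ⟨c, hc⟩ : ∃ c : ℝ, c = 1 / 4 := ⟨_, rfl⟩
    have hc0 : 0 < c := by rw [hc]; norm_num
    rw [← hc] at hN
    have h1 : ∀ n ≥ N, 2 * c ≤ y n := by
      intro n hn
      refine le_trans ?_ (hyl n)
      have h3 := hN n hn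
      have h4 : 2 * c ≤ 2 * k n * (c * q ^ (12 * n + 3)) := by
        have e1 : 2 * k n * (c * q ^ (12 * n + 3)) = 2 * c * (k n * q ^ (12 * n + 3)) := by ring
        rw [e1]
        have e2 : 1 ≤ k n * q ^ (12 * n + 3) := by
          rw [hk]
          rw [div_mul_eq_mul_div, le_div_iff₀ (by positivity), one_mul, ← pow_add]
          have e3 : (q - 1) * q ^ (6 * n + 3) ≤ q * q ^ (6 * n + 3) :=
            mul_le_mul_of_nonneg_right (by linarith) (by positivity)
          refine e3.trans ?_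
          rw [← pow_succ']
          exact pow_le_pow_right₀ (by linarith) (by omega)
        have : 0 < 2 * c := by positivity
        nlinarith
      refine h4.trans ?_
      exact mul_le_mul_of_nonneg_left h3 (by have := hk0 n; positivity)
    rw [tendsto_atTop]
    intro b
    obtain ⟨m, hm⟩ := exists_nat_gt (b / (2 * c))
    rw [div_lt_iff₀ (by positivity)] at hm
    filter_upwards [eventually_ge_atTop (N + m)] with d hd
    have h5 : ∑ e ∈ Finset.Ico N (N + m), y e ≤ ∑ e ∈ range (d + 1), y e := by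
      apply sum_le_sum_of_subset_of_nonneg
      · intro e he
        rw [Finset.mem_Ico] at he
        rw [mem_range]; omega
      · intro e _ _; exact hy0 e
    refine le_trans ?_ h5
    have h6 : ∑ e ∈ Finset.Ico N (N + m), (2 * c) ≤ ∑ e ∈ Finset.Ico N (N + m), y e :=
      sum_le_sum fun e he => h1 e (Finset.mem_Ico.1 he).1
    refine le_trans ?_ h6
    rw [sum_const, Nat.card_Ico, nsmul_eq_mul, Nat.add_sub_cancel_left]
    exact hm.le
  have hfin := clsG_cesaro x y β hy0 hxy hyinf ε hε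
  filter_upwards [hfin] with d hd
  have h3 : ((CL F d).card : ℝ) = ∑ e ∈ range (d + 1), y e := by
    have := sum_CL (F := F) d (fun _ => (1 : ℝ))
    rw [sum_const, nsmul_eq_mul, mul_one] at this
    rw [this]
    apply sum_congr rfl
    intro e _
    rw [sum_const, nsmul_eq_mul, mul_one, hy]
  have h4 : ∑ κ ∈ CL F d, w κ = ∑ e ∈ range (d + 1), x e := by
    rw [sum_CL]
    exact sum_congr rfl fun e _ => (hx e).symm
  rw [h3, h4]
  exact hd

end Pool.Agent.H456.BQ
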