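import Pool.Agent.H456.BQ.XDef

/-!
(XD) `S_congr`. Let `N ≠ 0`, `j` be as in `IsCongr`. `S₀` = the finite set of the monic irreducible divisors of `N`, `m ≥ j` and `m ≥` all multiplicities (e.g. `m = N.natDegree + j`), so `N ∣ ∏_{P ∈ S₀} P^m` up to a unit. `n₀` with `dS S₀ m ≤ 2 n₀ + 1`. `T g := ∃ (n) (f ∈ Msh F n) (r : RB S₀ m), n₀ ≤ n ∧ redC S₀ m n f = g.tr r ∧ cls (crv f) ∈ U`.
Translation invariance of `T`: `(g.tr r').tr (r - r') = g.tr r` (`Cub.tr_tr`). If `f ∈ Msh F n`, `n ≥ n₀`, `cls (crv f) ∈ U` then `T (redC S₀ m n f)` with `r = 0`. Conversely let `T (redC S₀ m n f)`: `n' ≥ n₀`, `f' ∈ Msh F n'`, `redC S₀ m n' f' = (redC S₀ m n f).tr r`, `cls (crv f') ∈ U`. By `card_fib` (Eq.lean; the fiber is nonempty) there is a polynomial `s` with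
`natDegree s ≤ 2n` and `red S₀ m (2n+1) s = r`. Put `f'' = f.tr s`: it is in `Msh F n` (degrees; `disc` and minimality are invariant: `Cub.disc_tr`, `MinAll_crv`, `NMc_tr`, `crev` of a translation: `crev n (f.tr s) = (crev n f).tr (reflect (2n) s)`, compare `revV_res` in Gl1.lean or `crev_map`, `sig_reflect`), `redC S₀ m n f'' = (redC S₀ m n f).tr r`
and `cls (crv f'') = cls (crv f)` (a change of variables `x ↦ x + s`, see `cls_tr`, `lng`, ClsB.lean). So `redC S₀ m n f'' = redC S₀ m n' f'`. This means that `crv f''` and `crv f'` are congruent modulo `P^m` for all `P ∈ S₀`, hence modulo `N` (`Finset.prod_dvd_of_coprime`, `coprime_Pl`), and that `rev n (crv f'')` and `rev n' (crv f')` are congruent modulo `X^m`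
(`rev_crv`: `rev n (crv f) = crv (crev n f)`, the component of `redC` at infinity). Both equations are `Least`: `min_main` (RN/Inf.lean) and `MinAll`. So `cls (crv f') ∈ U ↔ cls (crv f'') ∈ U`.
-/

set_option autoImplicit false
set_option linter.all false

open Polynomial Finset
open Pool.Agent.H456.EC (toK toK_inj sig toK_eq reflect_toK)

namespace Pool.Agent.H456.BQ

section congr

open Pool.Agent.H456.EC

variable {F : Type} [Field F]

/-- the cubic at infinity of a translate -/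
theorem congr_crev_tr {n : ℕ} {f : Cub F[X]} (hd : CDg n f) {r : F[X]} (hr : r.natDegree ≤ 2 * n) :
    crev n (f.tr r) = (crev n f).tr (reflect (2 * n) r) := by
  apply Cub.map_inj (sig F) sig_inj
  rw [crev_map (cdg_tr hd hr), Cub.map_tr, Cub.map_tr, crev_map hd, sig_reflect hr, Cub.sc_tr]
  have e : tt F (-((2 * n : ℕ) : ℤ)) = tt F (-(n : ℤ)) ^ 2 := by
    rw [tt_pow]; congr 1; push_cast; ring
  rw [e]

theorem congr_cls_tr (f : Cub F[X]) (s : F[X]) : cls (crv (f.tr s)) = cls (crv f) := by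
  have h : crv (f.tr s) = tr s 0 0 • crv f := by
    ext1
    · rw [tr_a₁]; simp only [crv]; ring
    · rw [tr_a₂]; simp only [crv, Cub.tr]; ring
    · rw [tr_a₃]; simp only [crv]; ring
    · rw [tr_a₄]; simp only [crv, Cub.tr]; ring
    · rw [tr_a₆]; simp only [crv, Cub.tr]; ring
  rw [h, cls_tr]

/-- a polynomial divides a power of the product of the places dividing it -/
theorem congr_dvd_pow (S : Finset (Pl F)) : ∀ (k : ℕ) (N : F[X]), N ≠ 0 → N.natDegree ≤ k →
    (∀ P : Pl F, P.1 ∣ N → P ∈ S) → N ∣ (∏ P ∈ S, P.1) ^ k := by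
  intro k
  induction k with
  | zero =>
    intro N hN hk _
    have hu : IsUnit N := by
      rw [Polynomial.isUnit_iff_degree_eq_zero, degree_eq_natDegree hN]
      have : N.natDegree = 0 := by omega
      rw [this]; rfl
    exact hu.dvd
  | succ k ih =>
    intro N hN hk hS
    by_cases hu : IsUnit N
    · exact hu.dvd
    · obtain ⟨P, hP, hi, hd⟩ := Polynomial.exists_monic_irreducible_factor _ hu
      obtain ⟨N', rfl⟩ := hd
      have hN' : N' ≠ 0 := right_ne_zero_of_mul hN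
      have h1 : 1 ≤ P.natDegree := hi.natDegree_pos
      rw [natDegree_mul hP.ne_zero hN'] at hk
      have h3 := ih N' hN' (by omega) (fun Q hQ => hS Q (hQ.trans (dvd_mul_left _ _)))
      rw [pow_succ, mul_comm P]
      exact mul_dvd_mul h3 (dvd_prod_of_mem (fun P : Pl F => P.1) (hS ⟨P, hP, hi⟩ (dvd_mul_right _ _)))

variable [Fintype F]

theorem congr_least (h2 : (2 : F) ≠ 0) {n : ℕ} {f : Cub F[X]} (hf : f ∈ Msh F n) : Least F n (crv f) := by
  rw [mem_Msh] at hf
  refine ⟨(crv_mem h2).2 ⟨hf.2.1, hf.1⟩, ?_⟩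
  rintro e he ⟨V, hV, hc⟩
  have := (min_main ((crv_mem h2).2 ⟨hf.2.1, hf.1⟩) hV he.le hc.symm hf.2.2).1
  omega

theorem congr_tr_mem (h2 : (2 : F) ≠ 0) {n : ℕ} {f : Cub F[X]} (hf : f ∈ Msh F n) {s : F[X]}
    (hs : s.natDegree ≤ 2 * n) : f.tr s ∈ Msh F n := by
  rw [mem_Msh] at hf ⊢
  obtain ⟨hd, hne, hmin⟩ := hf
  refine ⟨cdg_tr hd hs, by rwa [Cub.disc_tr], ?_⟩
  rw [MinAll_crv h2] at hmin ⊢
  refine ⟨fun P hP => hmin.1 P ((NMc_tr s).1 hP), fun hP => hmin.2 ?_⟩
  rw [congr_crev_tr hd hs] at hP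
  exact (NMc_tr _).1 hP

theorem congr_redC_tr (S : Finset (Pl F)) (m : ℕ) {n : ℕ} {f : Cub F[X]} (hd : CDg n f) {s : F[X]}
    (hs : s.natDegree ≤ 2 * n) : redC S m n (f.tr s) = (redC S m n f).tr (red S m (2 * n + 1) s) := by
  apply (Cub.split S m).injective
  refine Prod.ext (funext fun P => ?_) ?_
  · exact Cub.map_tr (Ideal.Quotient.mk (Ideal.span {P.1.1 ^ m})) f s
  · change (crev n (f.tr s)).map (Ideal.Quotient.mk (Ideal.span {(X : F[X]) ^ m})) =
      ((crev n f).map (Ideal.Quotient.mk (Ideal.span {(X : F[X]) ^ m}))).tr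
        (Ideal.Quotient.mk (Ideal.span {(X : F[X]) ^ m}) (reflect (2 * n) s))
    rw [congr_crev_tr hd hs, Cub.map_tr]

theorem congr_map_of {m m' : F[X]} (h : m' ∣ m) {f f' : Cub F[X]}
    (he : f.map (Ideal.Quotient.mk (Ideal.span {m})) = f'.map (Ideal.Quotient.mk (Ideal.span {m}))) :
    f.map (Ideal.Quotient.mk (Ideal.span {m'})) = f'.map (Ideal.Quotient.mk (Ideal.span {m'})) := by
  have h1 := congrArg Cub.a he
  have h2 := congrArg Cub.b he
  have h3 := congrArg Cub.c he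
  simp only [Cub.map] at h1 h2 h3
  rw [mk_eq] at h1 h2 h3
  ext
  · exact mk_eq.2 (h.trans h1)
  · exact mk_eq.2 (h.trans h2)
  · exact mk_eq.2 (h.trans h3)

theorem congr_prod (S : Finset (Pl F)) (m : ℕ) {f f' : Cub F[X]}
    (he : ∀ P ∈ S, f.map (Ideal.Quotient.mk (Ideal.span {P.1 ^ m})) =
      f'.map (Ideal.Quotient.mk (Ideal.span {P.1 ^ m}))) :
    f.map (Ideal.Quotient.mk (Ideal.span {∏ P ∈ S, P.1 ^ m})) =
      f'.map (Ideal.Quotient.mk (Ideal.span {∏ P ∈ S, P.1 ^ m})) := by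
  have key : ∀ x y : F[X], (∀ P ∈ S, P.1 ^ m ∣ x - y) → (∏ P ∈ S, P.1 ^ m) ∣ x - y := by
    intro x y h
    apply prod_dvd_of_coprime
    · intro P _ Q _ hPQ
      exact (coprime_Pl hPQ).pow
    · exact h
  ext
  · refine mk_eq.2 (key _ _ fun P hP => ?_)
    have := congrArg Cub.a (he P hP)
    simp only [Cub.map] at this
    exact mk_eq.1 this
  · refine mk_eq.2 (key _ _ fun P hP => ?_)
    have := congrArg Cub.b (he P hP)
    simp only [Cub.map] at this
    exact mk_eq.1 this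
  · refine mk_eq.2 (key _ _ fun P hP => ?_)
    have := congrArg Cub.c (he P hP)
    simp only [Cub.map] at this
    exact mk_eq.1 this

theorem congr_exists_red (S : Finset (Pl F)) (m n : ℕ) (h : dS S m ≤ 2 * n + 1) (r : RB S m) :
    ∃ s : F[X], s.natDegree ≤ 2 * n ∧ red S m (2 * n + 1) s = r := by
  classical
  have h1 := card_fib S m (2 * n + 1) h r
  have h3 : 0 < ((Pool.Agent.H456.RN.PL F (2 * n + 1)).filter (fun x => red S m (2 * n + 1) x = r)).card := by
    rw [h1]
    exact pow_pos Fintype.card_pos _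
  obtain ⟨s, hs⟩ := card_pos.1 h3
  rw [mem_filter, mem_PL_iff] at hs
  exact ⟨s, hs.1, hs.2⟩

end congr

theorem t_congr : S_congr := by
  intro F _ _ h2 U hU
  obtain ⟨N, j, hN, hc⟩ := hU
  set S := PlD F N.natDegree with hS
  set m := N.natDegree + j with hm
  have hNS : N ∣ ∏ P ∈ S, P.1 ^ m := by
    have h1 := congr_dvd_pow S N.natDegree N hN le_rfl (fun P hP => by
      rw [hS, mem_PlD]; exact natDegree_le_of_dvd hP hN)
    rw [← prod_pow] at h1
    exact h1.trans (prod_dvd_prod_of_dvd _ _ (fun P _ => pow_dvd_pow _ (by omega)))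
  refine ⟨S, m, dS S m, fun g => ∃ (n : ℕ) (f : Cub F[X]) (r : RB S m), f ∈ Msh F n ∧
    redC S m n f = g.tr r ∧ Pool.Agent.H456.EC.cls (crv f) ∈ U, ?_, ?_, ?_⟩
  · intro g r
    constructor
    · rintro ⟨n, f, r', hf, he, hu⟩
      exact ⟨n, f, r + r', hf, by rw [he, Cub.tr_tr], hu⟩
    · rintro ⟨n, f, r', hf, he, hu⟩
      exact ⟨n, f, -r + r', hf, by rw [he, Cub.tr_tr, add_neg_cancel_left], hu⟩
  · intro n f hf hu
    exact ⟨n, f, 0, hf, (Cub.tr_zero _).symm, hu⟩
  · rintro n hn f hf ⟨n', f', r, hf', he, hu⟩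
    obtain ⟨s, hs, hr⟩ := congr_exists_red S m n (by omega) r
    have hd : CDg n f := (mem_Msh.1 hf).1
    have e1 : redC S m n (f.tr s) = redC S m n' f' := by
      rw [congr_redC_tr S m hd hs, hr, he]
    have e2 : (f.tr s).map (Ideal.Quotient.mk (Ideal.span {N})) = f'.map (Ideal.Quotient.mk (Ideal.span {N})) := by
      apply congr_map_of hNS
      apply congr_prod
      intro P hP
      exact congrArg (fun g : Cub (RB S m) => g.at ⟨P, hP⟩) e1
    have e3 : (crev n (f.tr s)).map (Ideal.Quotient.mk (Ideal.span {(X : F[X]) ^ j})) =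
        (crev n' f').map (Ideal.Quotient.mk (Ideal.span {(X : F[X]) ^ j})) := by
      apply congr_map_of (pow_dvd_pow X (by omega : j ≤ m))
      exact congrArg (fun g : Cub (RB S m) => g.inf) e1
    have h3 := hc n n' (crv (f.tr s)) (crv f') (congr_least h2 (congr_tr_mem h2 hf hs)) (congr_least h2 hf')
      (by rw [crv_map, crv_map, e2]) (by rw [rev_crv, rev_crv, crv_map, crv_map, e3])
    rw [congr_cls_tr] at h3
    exact h3.2 hu

end Pool.Agent.H456.BQ
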