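import Pool.Agent.H456.BQ.Stm4

/-!
(K15) `S_glob`. Let `W = M⁻¹ M'`. For every place `Q`, `W = c_Q V_Q`, `V_Q ∈ GL₂(LocP Q)`, `c_Q ∈ K^×`. Clear denominators: `W = c T` with `T : M2 F[X]` whose
entries have no common divisor. For every `Q`: `T = c' V`, the entries of `T` are in `LocP Q` and not all divisible by `Q`, so `c'` is a unit at `Q` and
`Q ∤ det T`. So `det T` is a nonzero constant. At infinity, with `T = (α β; γ δ)`: `(α, β t^(-e'); γ t^e, δ t^(e - e')) = c'' V`,
`V ∈ GL₂(Oi F)`; comparing determinants `c'' = unit * t^m`, `2 m = e - e'` (`intDegree`). So `deg α ≤ m`, `deg β ≤ m + e'`, `deg γ ≤ m - e = -(e + e')/2`,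
`deg δ ≤ m - e + e' = -m`. If `m > 0` then `δ = 0` and `γ = 0` (`e > 0`), if `m < 0` then `α = 0`, `γ = 0` (`e' > 0`), contradictions with `det T ≠ 0`. So `m = 0`,
`e = e'`, `α, δ` constant, `deg β ≤ e`, and `γ = 0` or (`e = 0` and `γ` constant, `β` constant). Normalize by a constant: `δ = 1` if `γ = 0`, `γ = 1` otherwise.
(`LocP` membership: see Stm2.lean; `poly_mem` in Oi.lean: `toK p * tt (-m) ∈ Oi F ↔ p = 0 ∨ natDegree p ≤ m`.)
-/

set_option autoImplicit false
set_option linter.all false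

open Polynomial Finset
open Pool.Agent.H456.EC (toK toK_inj sig toK_eq reflect_toK)

namespace Pool.Agent.H456.BQ

/-- a polynomial without monic irreducible divisors is a constant -/
theorem glob_const {F : Type} [Field F] (d : F[X]) (hd : d ≠ 0) (h : ∀ P : Pl F, ¬ P.1 ∣ d) :
    d.natDegree = 0 := by
  by_contra hdeg
  have hu : ¬ IsUnit d := fun hu => hdeg (natDegree_eq_zero_of_isUnit hu)
  obtain ⟨i, hi, hid⟩ := WfDvdMonoid.exists_irreducible_factor hu hd
  have hlc : i.leadingCoeff ≠ 0 := leadingCoeff_ne_zero.2 hi.ne_zero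
  have hCu : IsUnit (C (i.leadingCoeff⁻¹) : F[X]) := isUnit_C.2 (IsUnit.mk0 _ (inv_ne_zero hlc))
  have hass : Associated i (i * C (i.leadingCoeff⁻¹)) := associated_mul_unit_right i _ hCu
  refine h ⟨i * C (i.leadingCoeff⁻¹), monic_mul_leadingCoeff_inv hi.ne_zero, hass.irreducible hi⟩ ?_
  exact (hass.symm.dvd).trans hid

/-- primitive vectors -/
theorem glob_prim {F : Type} [Field F] (Z : M2 F[X]) (hZ : Z.det ≠ 0) :
    ∃ (g : F[X]) (T : M2 F[X]) (x y z w : F[X]), g ≠ 0 ∧ Z = T.scal g ∧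
      x * T.α + y * T.β + z * T.γ + w * T.δ = 1 := by
  classical
  set I : Ideal F[X] := Ideal.span {Z.α} ⊔ Ideal.span {Z.β} ⊔ Ideal.span {Z.γ} ⊔ Ideal.span {Z.δ} with hI
  obtain ⟨g, hg⟩ := (IsPrincipalIdealRing.principal I).principal
  have hg' : I = Ideal.span {g} := hg
  have mα : Z.α ∈ I := by
    rw [hI]
    exact Ideal.mem_sup_left (Ideal.mem_sup_left (Ideal.mem_sup_left (Ideal.mem_span_singleton_self _)))
  have mβ : Z.β ∈ I := by
    rw [hI]
    exact Ideal.mem_sup_left (Ideal.mem_sup_left (Ideal.mem_sup_right (Ideal.mem_span_singleton_self _)))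
  have mγ : Z.γ ∈ I := by
    rw [hI]
    exact Ideal.mem_sup_left (Ideal.mem_sup_right (Ideal.mem_span_singleton_self _))
  have mδ : Z.δ ∈ I := by
    rw [hI]
    exact Ideal.mem_sup_right (Ideal.mem_span_singleton_self _)
  have hgI : g ∈ I := by rw [hg']; exact Ideal.mem_span_singleton_self _
  rw [hg', Ideal.mem_span_singleton] at mα mβ mγ mδ
  obtain ⟨a, ha⟩ := mα
  obtain ⟨b, hb⟩ := mβ
  obtain ⟨c, hc⟩ := mγ
  obtain ⟨d, hd⟩ := mδ
  have hg0 : g ≠ 0 := by
    rintro rfl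
    apply hZ
    simp only [M2.det, ha, hb, hc, hd]; ring
  rw [hI] at hgI
  obtain ⟨p, hp, s, hs, hps⟩ := Submodule.mem_sup.1 hgI
  obtain ⟨q, hq, r, hr, hqr⟩ := Submodule.mem_sup.1 hp
  obtain ⟨u, hu, v, hv, huv⟩ := Submodule.mem_sup.1 hq
  rw [Ideal.mem_span_singleton] at hs hr hu hv
  obtain ⟨s', hs'⟩ := hs
  obtain ⟨r', hr'⟩ := hr
  obtain ⟨u', hu'⟩ := hu
  obtain ⟨v', hv'⟩ := hv
  refine ⟨g, ⟨a, b, c, d⟩, u', v', r', s', hg0, ?_, ?_⟩
  · ext1
    · exact ha
    · exact hb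
    · exact hc
    · exact hd
  · apply mul_left_cancel₀ hg0
    simp only
    rw [mul_one]
    conv_rhs => rw [← hps, ← hqr, ← huv, hs', hr', hu', hv', ha, hb, hc, hd]
    ring

theorem glob_loc {F : Type} [Field F] (P : Pl F) (T : M2 F[X]) (x y z w : F[X])
    (hb : x * T.α + y * T.β + z * T.γ + w * T.δ = 1)
    (h : ∃ (c : RatFunc F) (V : M2 (LocP P)), IsUnit V.det ∧
      T.map (toK F) = (V.map (algebraMap (LocP P) (RatFunc F))).scal c) : ¬ P.1 ∣ T.det := by
  obtain ⟨c, V, hV, hT⟩ := h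
  have hpoly : ∀ p : F[X], toK F p ∈ LocP P := fun p =>
    ⟨p, 1, fun h => P.2.2.not_isUnit (isUnit_of_dvd_one h), by rw [map_one, one_mul]⟩
  have eα : toK F T.α = c * (V.α : RatFunc F) := congrArg M2.α hT
  have eβ : toK F T.β = c * (V.β : RatFunc F) := congrArg M2.β hT
  have eγ : toK F T.γ = c * (V.γ : RatFunc F) := congrArg M2.γ hT
  have eδ : toK F T.δ = c * (V.δ : RatFunc F) := congrArg M2.δ hT
  obtain ⟨v', hv'⟩ := hV.exists_right_inv
  have hv2 : ((V.det : LocP P) : RatFunc F) * (v' : RatFunc F) = 1 := by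
    have := congrArg (Subtype.val) hv'
    simpa using this
  have hdV : ((V.det : LocP P) : RatFunc F) =
      (V.α : RatFunc F) * (V.δ : RatFunc F) - (V.β : RatFunc F) * (V.γ : RatFunc F) := by
    simp [M2.det]
  -- the inverse of `c`
  set s : RatFunc F := toK F x * (V.α : RatFunc F) + toK F y * (V.β : RatFunc F) + toK F z * (V.γ : RatFunc F)
    + toK F w * (V.δ : RatFunc F) with hs
  have hsm : s ∈ LocP P := by
    rw [hs]
    exact (LocP P).add_mem ((LocP P).add_mem ((LocP P).add_mem ((LocP P).mul_mem (hpoly x) V.α.2)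
      ((LocP P).mul_mem (hpoly y) V.β.2)) ((LocP P).mul_mem (hpoly z) V.γ.2))
      ((LocP P).mul_mem (hpoly w) V.δ.2)
  have hcs : c * s = 1 := by
    have h1 := congrArg (toK F) hb
    rw [map_add, map_add, map_add, map_mul, map_mul, map_mul, map_mul, map_one, eα, eβ, eγ, eδ] at h1
    rw [hs, ← h1]; ring
  have hdet : toK F T.det = c ^ 2 * ((V.det : LocP P) : RatFunc F) := by
    rw [hdV]
    simp only [M2.det, map_sub, map_mul]
    rw [eα, eβ, eγ, eδ]; ring
  have hinv : toK F T.det * (s ^ 2 * (v' : RatFunc F)) = 1 := by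
    rw [hdet]
    have : c ^ 2 * ((V.det : LocP P) : RatFunc F) * (s ^ 2 * (v' : RatFunc F)) =
      (c * s) ^ 2 * (((V.det : LocP P) : RatFunc F) * (v' : RatFunc F)) := by ring
    rw [this, hcs, hv2]; ring
  have hmem : s ^ 2 * (v' : RatFunc F) ∈ LocP P := (LocP P).mul_mem ((LocP P).pow_mem hsm 2) v'.2
  obtain ⟨a, b, hPb, hab⟩ := hmem
  intro hdvd
  apply hPb
  have h2 : toK F b = toK F (T.det * a) := by
    rw [map_mul, ← hab]
    calc toK F b = toK F b * (toK F T.det * (s ^ 2 * (v' : RatFunc F))) := by rw [hinv, mul_one]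
      _ = _ := by ring
  rw [toK_inj h2]
  exact hdvd.mul_right a

theorem glob_deg {F : Type} [Field F] (p : F[X]) (a b : ℤ) (c v : RatFunc F) (hc : c ≠ 0) (hv : v ∈ Oi F)
    (h : toK F p * tt F (-a) = c * (v * tt F (-b))) : p = 0 ∨ (p.natDegree : ℤ) ≤ c.intDegree + a - b := by
  by_cases hp : p = 0
  · exact Or.inl hp
  right
  have hp' : toK F p ≠ 0 := (map_ne_zero_iff _ toK_inj).2 hp
  have hv0 : v ≠ 0 := by
    rintro rfl
    rw [zero_mul, mul_zero] at h
    exact (mul_ne_zero hp' (tt_ne _)) h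
  have h1 := congrArg RatFunc.intDegree h
  rw [RatFunc.intDegree_mul hp' (tt_ne _), RatFunc.intDegree_mul hc (mul_ne_zero hv0 (tt_ne _)),
    RatFunc.intDegree_mul hv0 (tt_ne _), intDegree_tt, intDegree_tt, RatFunc.intDegree_polynomial] at h1
  have h2 := (mem_Oi.1 hv).resolve_left hv0
  omega

theorem glob_inf {F : Type} [Field F] (T : M2 F[X]) (e e' : ℕ) (hT0 : T.det ≠ 0) (hT : T.det.natDegree = 0)
    (h : ∃ (c : RatFunc F) (V : M2 (Oi F)), c ≠ 0 ∧ IsUnit V.det ∧
      (T.map (toK F)).mul ⟨1, 0, 0, tt F (-(e' : ℤ))⟩ =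
        ((⟨1, 0, 0, tt F (-(e : ℤ))⟩ : M2 (RatFunc F)).mul (V.map (algebraMap (Oi F) (RatFunc F)))).scal c) :
    e = e' ∧ T.α.natDegree = 0 ∧ T.δ.natDegree = 0 ∧ T.β.natDegree ≤ e ∧
      (T.γ = 0 ∨ (e = 0 ∧ T.γ.natDegree = 0 ∧ T.β.natDegree = 0)) := by
  obtain ⟨c, V, hc, hV, hE⟩ := h
  have eα : toK F T.α = c * (V.α : RatFunc F) := by
    have := congrArg M2.α hE
    simp only [M2.map, M2.mul, M2.scal, mul_one, mul_zero, add_zero, one_mul, zero_mul, zero_add] at this
    exact this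
  have eβ : toK F T.β * tt F (-(e' : ℤ)) = c * (V.β : RatFunc F) := by
    have := congrArg M2.β hE
    simp only [M2.map, M2.mul, M2.scal, mul_one, mul_zero, add_zero, one_mul, zero_mul, zero_add] at this
    exact this
  have eγ : toK F T.γ = c * (tt F (-(e : ℤ)) * (V.γ : RatFunc F)) := by
    have := congrArg M2.γ hE
    simp only [M2.map, M2.mul, M2.scal, mul_one, mul_zero, add_zero, one_mul, zero_mul, zero_add] at this
    exact this
  have eδ : toK F T.δ * tt F (-(e' : ℤ)) = c * (tt F (-(e : ℤ)) * (V.δ : RatFunc F)) := by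
    have := congrArg M2.δ hE
    simp only [M2.map, M2.mul, M2.scal, mul_one, mul_zero, add_zero, one_mul, zero_mul, zero_add] at this
    exact this
  obtain ⟨v', hv'⟩ := hV.exists_right_inv
  have hv2 : ((V.det : Oi F) : RatFunc F) * (v' : RatFunc F) = 1 := by
    have := congrArg (Subtype.val) hv'
    simpa using this
  have hdV : ((V.det : Oi F) : RatFunc F) =
      (V.α : RatFunc F) * (V.δ : RatFunc F) - (V.β : RatFunc F) * (V.γ : RatFunc F) := by
    simp [M2.det]
  have hV0 : ((V.det : Oi F) : RatFunc F) ≠ 0 := left_ne_zero_of_mul (a := ((V.det : Oi F) : RatFunc F))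
    (b := (v' : RatFunc F)) (by rw [hv2]; exact one_ne_zero)
  have hv0 : (v' : RatFunc F) ≠ 0 := right_ne_zero_of_mul (a := ((V.det : Oi F) : RatFunc F))
    (b := (v' : RatFunc F)) (by rw [hv2]; exact one_ne_zero)
  have hVd : ((V.det : Oi F) : RatFunc F).intDegree = 0 := by
    have h1 := congrArg RatFunc.intDegree hv2
    rw [RatFunc.intDegree_mul hV0 hv0, RatFunc.intDegree_one] at h1
    have h2 := (mem_Oi.1 V.det.2).resolve_left hV0
    have h3 := (mem_Oi.1 v'.2).resolve_left hv0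
    omega
  have hT0' : toK F T.det ≠ 0 := (map_ne_zero_iff _ toK_inj).2 hT0
  have hdet : toK F T.det * tt F (-(e' : ℤ)) = c ^ 2 * (((V.det : Oi F) : RatFunc F) * tt F (-(e : ℤ))) := by
    rw [hdV]
    have h1 : toK F T.det * tt F (-(e' : ℤ)) =
        toK F T.α * (toK F T.δ * tt F (-(e' : ℤ))) - toK F T.β * tt F (-(e' : ℤ)) * toK F T.γ := by
      simp only [M2.det, map_sub, map_mul]; ring
    rw [h1, eα, eβ, eγ, eδ]; ring
  have hm : 2 * c.intDegree = (e : ℤ) - e' := by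
    have h1 := congrArg RatFunc.intDegree hdet
    rw [RatFunc.intDegree_mul hT0' (tt_ne _), RatFunc.intDegree_mul (pow_ne_zero 2 hc)
      (mul_ne_zero hV0 (tt_ne _)), RatFunc.intDegree_mul hV0 (tt_ne _), intDegree_tt, intDegree_tt,
      RatFunc.intDegree_polynomial, hT, hVd, pow_two, RatFunc.intDegree_mul hc hc] at h1
    push_cast at h1
    omega
  have dα := glob_deg T.α 0 0 c V.α hc V.α.2 (by rw [neg_zero, tt_zero, mul_one, mul_one]; exact eα)
  have dβ := glob_deg T.β e' 0 c V.β hc V.β.2 (by rw [neg_zero, tt_zero, mul_one]; exact eβ)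
  have dγ := glob_deg T.γ 0 e c V.γ hc V.γ.2 (by rw [neg_zero, tt_zero, mul_one, eγ]; ring)
  have dδ := glob_deg T.δ e' e c V.δ hc V.δ.2 (by rw [eδ]; ring)
  have hm0 : c.intDegree = 0 := by
    rcases lt_trichotomy c.intDegree 0 with hlt | h0 | hgt
    · exfalso
      apply hT0
      have hα0 : T.α = 0 := by
        rcases dα with h | h
        · exact h
        · omega
      have hγ0 : T.γ = 0 := by
        rcases dγ with h | h
        · exact h
        · omega
      simp only [M2.det, hα0, hγ0]; ring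
    · exact h0
    · exfalso
      apply hT0
      have hδ0 : T.δ = 0 := by
        rcases dδ with h | h
        · exact h
        · omega
      have hγ0 : T.γ = 0 := by
        rcases dγ with h | h
        · exact h
        · omega
      simp only [M2.det, hδ0, hγ0]; ring
  have hee : e = e' := by omega
  refine ⟨hee, ?_, ?_, ?_, ?_⟩
  · rcases dα with h | h
    · rw [h, natDegree_zero]
    · omega
  · rcases dδ with h | h
    · rw [h, natDegree_zero]
    · omega
  · rcases dβ with h | h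
    · rw [h, natDegree_zero]; omega
    · omega
  · rcases dγ with h | h
    · exact Or.inl h
    · right
      refine ⟨by omega, by omega, ?_⟩
      rcases dβ with h' | h'
      · rw [h', natDegree_zero]
      · omega

theorem glob_scal_cancel {L : Type} [Field L] {k : L} (hk : k ≠ 0) {M N : M2 L} (h : M.scal k = N) :
    M = N.scal k⁻¹ := by
  rw [← h]
  ext1
  · simp only [M2.scal]; field_simp
  · simp only [M2.scal]; field_simp
  · simp only [M2.scal]; field_simp
  · simp only [M2.scal]; field_simp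

theorem glob_scal_scal {L : Type} [Field L] (k l : L) (M : M2 L) : (M.scal k).scal l = M.scal (l * k) := by
  ext <;> simp only [M2.scal] <;> ring

theorem glob_adj_mul {L : Type} [Field L] (M N : M2 L) : M.adj.mul (M.mul N) = N.scal M.det := by
  rw [← M2.mul_assoc, M2.adj_mul]
  ext <;> simp only [M2.scal, M2.mul] <;> ring

theorem glob_mul_adj {L : Type} [Field L] (M N : M2 L) : M.mul (M.adj.mul N) = N.scal M.det := by
  rw [← M2.mul_assoc, M2.mul_adj]
  ext <;> simp only [M2.scal, M2.mul] <;> ring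

theorem glob_norm {F : Type} [Field F] (T : M2 F[X]) (e : ℕ) (hT0 : T.det ≠ 0)
    (hα : T.α.natDegree = 0) (hδ : T.δ.natDegree = 0) (hβ : T.β.natDegree ≤ e)
    (hγ : T.γ = 0 ∨ (e = 0 ∧ T.γ.natDegree = 0 ∧ T.β.natDegree = 0)) :
    ∃ (k : F) (T' : M2 F[X]), k ≠ 0 ∧ T = T'.scal (C k) ∧
      ((∃ (a : F) (β : F[X]), a ≠ 0 ∧ β.natDegree ≤ e ∧ T' = ⟨C a, β, 0, 1⟩) ∨
      (e = 0 ∧ ∃ a b c : F, a * c - b ≠ 0 ∧ T' = ⟨C a, C b, 1, C c⟩)) := by
  obtain ⟨α, β, γ, δ⟩ := T
  simp only at hα hδ hβ hγ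
  simp only [M2.det] at hT0
  rw [natDegree_eq_zero] at hα hδ
  obtain ⟨a, rfl⟩ := hα
  obtain ⟨d, rfl⟩ := hδ
  by_cases hγ0 : γ = 0
  · subst hγ0
    have hd : d ≠ 0 := by
      rintro rfl
      apply hT0
      simp
    have ha : a ≠ 0 := by
      rintro rfl
      apply hT0
      simp
    refine ⟨d, ⟨C (d⁻¹ * a), C d⁻¹ * β, 0, 1⟩, hd, ?_, Or.inl ⟨d⁻¹ * a, C d⁻¹ * β,
      mul_ne_zero (inv_ne_zero hd) ha, (natDegree_C_mul_le _ _).trans hβ, rfl⟩⟩
    ext1
    · simp only [M2.scal]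
      rw [← C_mul, mul_inv_cancel_left₀ hd]
    · simp only [M2.scal]
      rw [← mul_assoc, ← C_mul, mul_inv_cancel₀ hd, C_1, one_mul]
    · simp only [M2.scal, mul_zero]
    · simp only [M2.scal, mul_one]
  · obtain ⟨he, hγd, hβd⟩ := hγ.resolve_left hγ0
    rw [natDegree_eq_zero] at hγd hβd
    obtain ⟨c, rfl⟩ := hγd
    obtain ⟨b, rfl⟩ := hβd
    have hc : c ≠ 0 := by
      rintro rfl
      exact hγ0 C_0
    refine ⟨c, ⟨C (c⁻¹ * a), C (c⁻¹ * b), 1, C (c⁻¹ * d)⟩, hc, ?_, Or.inr ⟨he, c⁻¹ * a, c⁻¹ * b, c⁻¹ * d,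
      ?_, rfl⟩⟩
    · ext1
      · simp only [M2.scal]
        rw [← C_mul, mul_inv_cancel_left₀ hc]
      · simp only [M2.scal]
        rw [← C_mul, mul_inv_cancel_left₀ hc]
      · simp only [M2.scal, mul_one]
      · simp only [M2.scal]
        rw [← C_mul, mul_inv_cancel_left₀ hc]
    · intro h
      apply hT0
      rw [← C_mul, ← C_mul, ← C_sub]
      have : a * d - b * c = c ^ 2 * (c⁻¹ * a * (c⁻¹ * d) - c⁻¹ * b) := by
        field_simp
      rw [this, h, mul_zero, C_0]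

theorem t_glob : S_glob := by
  intro F _ M M' e e' hM hM' hP hI
  obtain ⟨Z, D, hD, hZ⟩ := clear (M.adj.mul M')
  have hD' : toK F D ≠ 0 := (map_ne_zero_iff _ toK_inj).2 hD
  have hW : (M.adj.mul M').det ≠ 0 := by
    have h1 : (M.adj.mul M').det = M.det * M'.det := by
      simp only [M2.det, M2.mul, M2.adj]; ring
    rw [h1]; exact mul_ne_zero hM hM'
  have hZ0 : Z.det ≠ 0 := by
    intro h
    have h1 := M2.map_det (toK F) Z
    rw [h, map_zero, hZ, M2.det_scal] at h1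
    exact mul_ne_zero (pow_ne_zero 2 hD') hW h1
  obtain ⟨g, T, x, y, z, w, hg, hZT, hbez⟩ := glob_prim Z hZ0
  have hg' : toK F g ≠ 0 := (map_ne_zero_iff _ toK_inj).2 hg
  have hT0 : T.det ≠ 0 := by
    intro h
    apply hZ0
    rw [hZT, M2.det_scal, h, mul_zero]
  -- the relation between `T` and `W`
  have hTW : T.map (toK F) = (M.adj.mul M').scal ((toK F g)⁻¹ * toK F D) := by
    have h1 : (T.map (toK F)).scal (toK F g) = (M.adj.mul M').scal (toK F D) := by
      rw [← hZ, hZT]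
      ext1 <;> simp only [M2.map, M2.scal, map_mul]
    rw [glob_scal_cancel hg' h1, glob_scal_scal]
  set r : RatFunc F := (toK F g)⁻¹ * toK F D with hr
  have hr0 : r ≠ 0 := mul_ne_zero (inv_ne_zero hg') hD'
  have hdet : T.det.natDegree = 0 := by
    apply glob_const _ hT0
    intro P
    apply glob_loc P T x y z w hbez
    obtain ⟨c, V, hc, hV, hE⟩ := hP P
    refine ⟨r * (c * M.det), V, hV, ?_⟩
    rw [hTW, hE, M2.mul_scal, glob_adj_mul, glob_scal_scal, glob_scal_scal, _root_.mul_assoc]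
  have hinf := glob_inf T e e' hT0 hdet (by
    obtain ⟨c, V, hc, hV, hE⟩ := hI
    refine ⟨r * (c * M.det), V, mul_ne_zero hr0 (mul_ne_zero hc hM), hV, ?_⟩
    rw [hTW, M2.scal_mul, M2.mul_assoc, hE, M2.mul_scal, M2.mul_assoc, glob_adj_mul, glob_scal_scal,
      glob_scal_scal, _root_.mul_assoc])
  obtain ⟨hee, dα, dδ, dβ, dγ⟩ := hinf
  obtain ⟨k, T', hk, hTT', hcase⟩ := glob_norm T e hT0 dα dδ dβ dγ
  refine ⟨hee, (M.det)⁻¹ * (r⁻¹ * toK F (C k)), T', ?_, ?_, hcase⟩
  · have hCk : toK F (C k) ≠ 0 := (map_ne_zero_iff _ toK_inj).2 (C_ne_zero.2 hk)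
    exact mul_ne_zero (inv_ne_zero hM) (mul_ne_zero (inv_ne_zero hr0) hCk)
  · have h1 : M.adj.mul M' = (T.map (toK F)).scal r⁻¹ := glob_scal_cancel hr0 hTW.symm
    have h2 : T.map (toK F) = (T'.map (toK F)).scal (toK F (C k)) := by
      rw [hTT']
      ext1 <;> simp only [M2.map, M2.scal, map_mul]
    have h3 : M'.scal M.det = (M.mul (T'.map (toK F))).scal (r⁻¹ * toK F (C k)) := by
      rw [← glob_mul_adj, h1, h2, glob_scal_scal, M2.mul_scal]
    rw [glob_scal_cancel hM h3, glob_scal_scal]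

end Pool.Agent.H456.BQ
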