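import Pool.Agent.H456.BQ.Stm4

/-! # Auxiliary algebra for `t_large` -/

set_option autoImplicit false
set_option linter.all false

open Polynomial Finset

namespace Pool.Agent.H456.BQ

section alg

variable {R : Type*} [CommRing R]

/-- the coefficients of the discriminant as a polynomial in `E` -/
def large_c3 (A : R) : R := 256 * A ^ 3
def large_c2 (A B C D : R) : R := 144 * (A * B ^ 2 * C) - 128 * (A ^ 2 * C ^ 2) - 192 * (A ^ 2 * B * D) - 27 * B ^ 4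
def large_c1 (A B C D : R) : R :=
  144 * (A ^ 2 * C * D ^ 2) - 6 * (A * B ^ 2 * D ^ 2) - 80 * (A * B * C ^ 2 * D) + 18 * (B ^ 3 * C * D)
    + 16 * (A * C ^ 4) - 4 * (B ^ 2 * C ^ 3)
def large_c0 (A B C D : R) : R :=
  18 * (A * B * C * D ^ 3) + B ^ 2 * C ^ 2 * D ^ 2 - 27 * (A ^ 2 * D ^ 4) - 4 * (B ^ 3 * D ^ 3)
    - 4 * (A * C ^ 3 * D ^ 2)

theorem large_disc (G : Q4 R) : G.res.disc = large_c3 G.A * G.E ^ 3 + large_c2 G.A G.B G.C G.D * G.E ^ 2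
    + large_c1 G.A G.B G.C G.D * G.E + large_c0 G.A G.B G.C G.D := by
  simp only [Q4.res, Cub.disc, large_c3, large_c2, large_c1, large_c0]
  ring

/-- the determinant of the multiplication by `h0 + h1 E + h2 E^2` modulo `c3 E^3 + c2 E^2 + c1 E + c0` -/
def large_dt (c3 c2 c1 c0 h0 h1 h2 : R) : R :=
  let r0 := -(h2 * c0)
  let r1 := c3 * h0 - h2 * c1
  let r2 := c3 * h1 - h2 * c2
  let s0 := -(r2 * c0)
  let s1 := c3 * r0 - r2 * c1
  let s2 := c3 * r1 - r2 * c2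
  h0 * (r1 * s2 - r2 * s1) - h1 * (r0 * s2 - r2 * s0) + h2 * (r0 * s1 - r1 * s0)

theorem large_dt_dvd (P c3 c2 c1 c0 h0 h1 h2 E : R) (hf : P ∣ c3 * E ^ 3 + c2 * E ^ 2 + c1 * E + c0)
    (hh : P ∣ h0 + h1 * E + h2 * E ^ 2) : P ∣ large_dt c3 c2 c1 c0 h0 h1 h2 := by
  obtain ⟨u, hu⟩ := hf
  obtain ⟨v, hv⟩ := hh
  simp only [large_dt]
  set r0 := -(h2 * c0) with hr0
  set r1 := c3 * h0 - h2 * c1 with hr1
  set r2 := c3 * h1 - h2 * c2 with hr2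
  set s0 := -(r2 * c0) with hs0
  set s1 := c3 * r0 - r2 * c1 with hs1
  set s2 := c3 * r1 - r2 * c2 with hs2
  -- rows times (1, E, E^2)
  have row0 : h0 + h1 * E + h2 * E ^ 2 = P * v := hv
  have row1 : r0 + r1 * E + r2 * E ^ 2 = P * (c3 * E * v - h2 * u) := by
    rw [hr0, hr1, hr2]
    linear_combination c3 * E * hv - h2 * hu
  have row2 : s0 + s1 * E + s2 * E ^ 2 = P * (c3 * E * (c3 * E * v - h2 * u) - r2 * u) := by
    rw [hs0, hs1, hs2]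
    linear_combination c3 * E * row1 - r2 * hu
  refine ⟨(r1 * s2 - r2 * s1) * v - (h1 * s2 - h2 * s1) * (c3 * E * v - h2 * u)
    + (h1 * r2 - h2 * r1) * (c3 * E * (c3 * E * v - h2 * u) - r2 * u), ?_⟩
  linear_combination (r1 * s2 - r2 * s1) * row0 - (h1 * s2 - h2 * s1) * row1 + (h1 * r2 - h2 * r1) * row2

/-- the discriminant of the cubic in `E` -/
def large_R0 (c3 c2 c1 c0 : R) : R :=
  c2 ^ 2 * c1 ^ 2 - 4 * c3 * c1 ^ 3 - 4 * c2 ^ 3 * c0 - 27 * c3 ^ 2 * c0 ^ 2 + 18 * c3 * c2 * c1 * c0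

theorem large_dt_der (c3 c2 c1 c0 : R) :
    large_dt c3 c2 c1 c0 (c3 * c1) (c3 * (2 * c2)) (c3 * (3 * c3)) = -(c3 ^ 5 * large_R0 c3 c2 c1 c0) := by
  simp only [large_dt, large_R0]
  ring

theorem large_dt_lin (c3 c2 c1 c0 x0 x1 x2 y0 y1 y2 w : R) :
    2 * large_dt c3 c2 c1 c0 (x0 + w * y0) (x1 + w * y1) (x2 + w * y2) =
      2 * large_dt c3 c2 c1 c0 y0 y1 y2 * w ^ 3
      + (large_dt c3 c2 c1 c0 (x0 + y0) (x1 + y1) (x2 + y2) + large_dt c3 c2 c1 c0 (x0 - y0) (x1 - y1) (x2 - y2)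
          - 2 * large_dt c3 c2 c1 c0 x0 x1 x2) * w ^ 2
      + (large_dt c3 c2 c1 c0 (x0 + y0) (x1 + y1) (x2 + y2) - large_dt c3 c2 c1 c0 (x0 - y0) (x1 - y1) (x2 - y2)
          - 2 * large_dt c3 c2 c1 c0 y0 y1 y2) * w
      + 2 * large_dt c3 c2 c1 c0 x0 x1 x2 := by
  simp only [large_dt]
  ring

theorem large_R0_fac (A B C D : R) :
    large_R0 (large_c3 A) (large_c2 A B C D) (large_c1 A B C D) (large_c0 A B C D) =
      16 * (9 * B ^ 2 * C ^ 2 - 32 * A * C ^ 3 - 27 * B ^ 3 * D - 108 * A ^ 2 * D ^ 2 + 108 * A * B * C * D) ^ 3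
        * (B ^ 3 - 4 * A * B * C + 8 * A ^ 2 * D) ^ 2 := by
  simp only [large_R0, large_c3, large_c2, large_c1, large_c0]
  ring

end alg

end Pool.Agent.H456.BQ
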