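import Pool.Agent.H456.BQ.T_largeA

/-! # Auxiliary counting for `t_large` -/

set_option autoImplicit false
set_option linter.all false

open Polynomial Finset

namespace Pool.Agent.H456.BQ

section cnt

variable {F : Type} [Field F] [Fintype F]

/-- the polynomials of bounded degree -/
noncomputable def large_PL (F : Type) [Field F] [Fintype F] (d : ℕ) : Finset F[X] :=
  (Finset.univ : Finset (Fin (d + 1) → F)).map
    ⟨fun v => ((degreeLTEquiv F (d + 1)).symm v : F[X]),
      fun v w h => (degreeLTEquiv F (d + 1)).symm.injective (Subtype.ext h)⟩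

theorem large_mem {d : ℕ} {f : F[X]} : f ∈ large_PL F d ↔ f.natDegree ≤ d := by
  have key : f ∈ degreeLT F (d + 1) ↔ f.natDegree ≤ d := by
    rw [mem_degreeLT]
    constructor
    · intro h
      by_cases h0 : f = 0
      · rw [h0]; simp
      · rw [degree_eq_natDegree h0] at h
        have : f.natDegree < d + 1 := by exact_mod_cast h
        omega
    · intro h
      by_cases h0 : f = 0
      · rw [h0, degree_zero]; exact WithBot.bot_lt_coe _
      · rw [degree_eq_natDegree h0]
        have : f.natDegree < d + 1 := by omega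
        exact_mod_cast this
  rw [← key]
  unfold large_PL
  rw [Finset.mem_map]
  constructor
  · rintro ⟨v, -, rfl⟩
    exact ((degreeLTEquiv F (d + 1)).symm v).2
  · intro h
    refine ⟨degreeLTEquiv F (d + 1) ⟨f, h⟩, Finset.mem_univ _, ?_⟩
    change (((degreeLTEquiv F (d + 1)).symm (degreeLTEquiv F (d + 1) ⟨f, h⟩) : degreeLT F (d + 1)) : F[X]) = f
    rw [LinearEquiv.symm_apply_apply]

theorem large_card (d : ℕ) : (large_PL F d).card = Fintype.card F ^ (d + 1) := by
  unfold large_PL
  rw [Finset.card_map, Finset.card_univ, Fintype.card_fun, Fintype.card_fin]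

/-- a residue class -/
theorem large_class {d : ℕ} {P : F[X]} (hP : P.Monic) (S : Finset F[X]) (hS : ∀ f ∈ S, f.natDegree ≤ d)
    (hc : ∀ f ∈ S, ∀ g ∈ S, P ∣ f - g) : S.card ≤ Fintype.card F ^ (d - P.natDegree + 1) := by
  rw [← large_card]
  apply Finset.card_le_card_of_injOn (fun f => f /ₘ P)
  · intro f hf
    rw [Finset.mem_coe, large_mem, natDegree_divByMonic _ hP]
    have := hS f hf
    omega
  · intro f hf g hg h
    have h1 := modByMonic_add_div f P
    have h2 := modByMonic_add_div g P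
    have h3 : f %ₘ P = g %ₘ P := by
      have h4 : (f - g) %ₘ P = 0 := (modByMonic_eq_zero_iff_dvd hP).2 (hc f hf g hg)
      rw [sub_modByMonic] at h4
      exact sub_eq_zero.1 h4
    simp only at h
    rw [← h1, ← h2, h3, h]

/-- the roots of a cubic modulo `P` -/
theorem large_roots {P : F[X]} (hP : Irreducible P) (k3 k2 k1 k0 : F[X])
    (hne : ¬ (P ∣ k3 ∧ P ∣ k2 ∧ P ∣ k1 ∧ P ∣ k0)) :
    ∃ T : Finset (AdjoinRoot P), T.card ≤ 3 ∧
      ∀ E : F[X], P ∣ k3 * E ^ 3 + k2 * E ^ 2 + k1 * E + k0 → AdjoinRoot.mk P E ∈ T := by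
  classical
  haveI : Fact (Irreducible P) := ⟨hP⟩
  set φ := AdjoinRoot.mk P with hφ
  set p : (AdjoinRoot P)[X] := C (φ k3) * X ^ 3 + C (φ k2) * X ^ 2 + C (φ k1) * X + C (φ k0) with hp
  have hp0 : p ≠ 0 := by
    intro h
    apply hne
    have h3 : p.coeff 3 = 0 := by rw [h]; simp
    have h2 : p.coeff 2 = 0 := by rw [h]; simp
    have h1 : p.coeff 1 = 0 := by rw [h]; simp
    have h0 : p.coeff 0 = 0 := by rw [h]; simp
    rw [hp] at h3 h2 h1 h0
    simp [coeff_X, coeff_C] at h3 h2 h1 h0
    exact ⟨AdjoinRoot.mk_eq_zero.1 h3, AdjoinRoot.mk_eq_zero.1 h2, AdjoinRoot.mk_eq_zero.1 h1,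
      AdjoinRoot.mk_eq_zero.1 h0⟩
  refine ⟨p.roots.toFinset, ?_, ?_⟩
  · refine (Multiset.toFinset_card_le _).trans ((card_roots' p).trans ?_)
    rw [hp]
    compute_degree
  · intro E hE
    rw [Multiset.mem_toFinset, mem_roots hp0, IsRoot.def, hp]
    have := (AdjoinRoot.mk_eq_zero (f := P)).2 hE
    rw [map_add, map_add, map_add, map_mul, map_mul, map_mul, map_pow, map_pow] at this
    simp only [eval_add, eval_mul, eval_C, eval_pow, eval_X]
    exact this

/-- the number of the solutions of bounded degree of a cubic congruence -/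
theorem large_congr {d : ℕ} {P : F[X]} (hm : P.Monic) (hP : Irreducible P) (k3 k2 k1 k0 : F[X])
    (hne : ¬ (P ∣ k3 ∧ P ∣ k2 ∧ P ∣ k1 ∧ P ∣ k0)) (S : Finset F[X])
    (hS : ∀ f ∈ S, f.natDegree ≤ d ∧ P ∣ k3 * f ^ 3 + k2 * f ^ 2 + k1 * f + k0) :
    S.card ≤ 3 * Fintype.card F ^ (d - P.natDegree + 1) := by
  classical
  obtain ⟨T, hT, hr⟩ := large_roots hP k3 k2 k1 k0 hne
  have h1 := Finset.card_le_mul_card_image_of_maps_to (s := S) (t := T) (f := fun E => AdjoinRoot.mk P E)
    (fun E hE => hr E (hS E hE).2) (Fintype.card F ^ (d - P.natDegree + 1)) (by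
      intro b hb
      apply large_class hm
      · intro f hf
        exact (hS f (Finset.mem_filter.1 hf).1).1
      · intro f hf g hg
        have e1 := (Finset.mem_filter.1 hf).2
        have e2 := (Finset.mem_filter.1 hg).2
        exact AdjoinRoot.mk_eq_mk.1 (e1.trans e2.symm))
  refine h1.trans ?_
  rw [mul_comm]
  exact Nat.mul_le_mul_right _ hT

/-- the large places dividing a nonzero polynomial -/
theorem large_places {Q : F[X]} (hQ : Q ≠ 0) (m : ℕ) :
    ∃ T : Finset F[X], (∀ P : F[X], P.Monic → Irreducible P → P ∣ Q → m ≤ P.natDegree → P ∈ T) ∧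
      (∀ P ∈ T, P.Monic ∧ Irreducible P ∧ P ∣ Q ∧ m ≤ P.natDegree) ∧ T.card * m ≤ Q.natDegree := by
  classical
  set T : Finset F[X] := (UniqueFactorizationMonoid.normalizedFactors Q).toFinset.filter
    (fun P => m ≤ P.natDegree) with hT
  have hT1 : ∀ P ∈ T, P.Monic ∧ Irreducible P ∧ P ∣ Q ∧ m ≤ P.natDegree := by
    intro P hP
    rw [hT, Finset.mem_filter, Multiset.mem_toFinset] at hP
    have hi := UniqueFactorizationMonoid.irreducible_of_normalized_factor P hP.1
    have hn := UniqueFactorizationMonoid.normalize_normalized_factor P hP.1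
    have hd := UniqueFactorizationMonoid.dvd_of_mem_normalizedFactors hP.1
    refine ⟨?_, hi, hd, hP.2⟩
    have := Polynomial.monic_normalize hi.ne_zero
    rwa [hn] at this
  refine ⟨T, ?_, hT1, ?_⟩
  · intro P hm hi hd hdeg
    rw [hT, Finset.mem_filter, Multiset.mem_toFinset]
    refine ⟨?_, hdeg⟩
    rw [UniqueFactorizationMonoid.mem_normalizedFactors_iff' hQ]
    exact ⟨hi, hm.normalize_eq_self, hd⟩
  · have hdvd : ∏ P ∈ T, P ∣ Q := by
      apply Finset.prod_dvd_of_coprime
      · intro P hP P' hP' hne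
        obtain ⟨hm, hi, -, -⟩ := hT1 P hP
        obtain ⟨hm', hi', -, -⟩ := hT1 P' hP'
        rw [Function.onFun]
        rw [(hi.coprime_iff_not_dvd)]
        intro hd
        apply hne
        exact eq_of_monic_of_associated hm hm' (hi.associated_of_dvd hi' hd)
      · intro P hP
        exact (hT1 P hP).2.2.1
    have h1 := natDegree_le_of_dvd hdvd hQ
    rw [natDegree_prod_of_monic _ _ (fun P hP => (hT1 P hP).1)] at h1
    refine le_trans ?_ h1
    have h2 := Finset.card_nsmul_le_sum T (fun P => P.natDegree) m (fun P hP => (hT1 P hP).2.2.2)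
    simpa using h2

end cnt

end Pool.Agent.H456.BQ
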