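import Pool.Agent.H456.BQ.T_largeB

/-! # The derivative trick for `t_large` -/

set_option autoImplicit false
set_option linter.all false

open Polynomial Finset

namespace Pool.Agent.H456.BQ

section der

variable {F : Type} [Field F] [Fintype F]

theorem large_ker (p : ℕ) [hp : Fact p.Prime] [CharP F p] {d : ℕ} {E : F[X]} (hE : E.natDegree ≤ d)
    (h0 : derivative E = 0) : ∃ h : F[X], h.natDegree ≤ d / p ∧ expand F p h = E := by
  refine ⟨contract p E, ?_, expand_contract p h0 hp.out.ne_zero⟩
  have h1 := congrArg natDegree (expand_contract p h0 hp.out.ne_zero)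
  rw [natDegree_expand] at h1
  rw [Nat.le_div_iff_mul_le hp.out.pos, h1]
  exact hE

theorem large_inj (p : ℕ) [hp : Fact p.Prime] [CharP F p] {d : ℕ} {P E E' : F[X]} (hP : Irreducible P)
    (hdeg : d / p < P.natDegree) (hE : E.natDegree ≤ d) (hE' : E'.natDegree ≤ d)
    (hder : derivative E = derivative E') (hd : P ∣ E - E') : E = E' := by
  have h1 : (E - E').natDegree ≤ d := natDegree_sub_le_of_le hE hE' |>.trans (by simp)
  have h2 : derivative (E - E') = 0 := by rw [derivative_sub, hder, sub_self]
  obtain ⟨h, hh, he⟩ := large_ker p h1 h2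
  set g : F[X] := h.map ((frobeniusEquiv F p).symm : F →+* F) with hg
  have hgp : g ^ p = E - E' := by
    rw [← map_frobenius_expand p g, map_expand, hg, Polynomial.map_map, ← he]
    congr 1
    have : (frobenius F p).comp ((frobeniusEquiv F p).symm : F →+* F) = RingHom.id F := by
      ext x
      exact (frobeniusEquiv F p).apply_symm_apply x
    rw [this, Polynomial.map_id]
  have hPg : P ∣ g := hP.prime.dvd_of_dvd_pow (n := p) (by rw [hgp]; exact hd)
  have hg0 : g = 0 := by
    by_contra hne
    have := natDegree_le_of_dvd hPg hne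
    rw [hg, natDegree_map] at this
    omega
  have h3 : E - E' = 0 := by rw [← hgp, hg0, zero_pow hp.out.ne_zero]
  exact sub_eq_zero.1 h3

/-- the fibres of the derivative: upper bound -/
theorem large_fib_le (p : ℕ) [hp : Fact p.Prime] [CharP F p] {d : ℕ} (w : F[X]) (S : Finset F[X])
    (hS : ∀ f ∈ S, f.natDegree ≤ d ∧ derivative f = w) : S.card ≤ Fintype.card F ^ (d / p + 1) := by
  rcases S.eq_empty_or_nonempty with h | ⟨E, hE⟩
  · rw [h]; simp
  · rw [← large_card]
    apply Finset.card_le_card_of_injOn (fun f => contract p (f - E))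
    · intro f hf
      rw [Finset.mem_coe, large_mem]
      have h2 : derivative (f - E) = 0 := by
        rw [derivative_sub, (hS f hf).2, (hS E hE).2, sub_self]
      have h1 := congrArg natDegree (expand_contract p h2 hp.out.ne_zero)
      rw [natDegree_expand] at h1
      rw [Nat.le_div_iff_mul_le hp.out.pos, h1]
      exact (natDegree_sub_le_of_le (hS f hf).1 (hS E hE).1).trans (by simp)
    · intro f hf g hg h
      have h2 : derivative (f - E) = 0 := by
        rw [derivative_sub, (hS f hf).2, (hS E hE).2, sub_self]
      have h3 : derivative (g - E) = 0 := by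
        rw [derivative_sub, (hS g hg).2, (hS E hE).2, sub_self]
      have h1 := expand_contract p h2 hp.out.ne_zero
      have h4 := expand_contract p h3 hp.out.ne_zero
      simp only at h
      rw [h, h4] at h1
      exact (sub_left_inj.1 h1).symm

/-- the number of the derivatives -/
theorem large_im (p : ℕ) [hp : Fact p.Prime] [CharP F p] (d : ℕ) [DecidableEq F[X]] :
    ((large_PL F d).image derivative).card * Fintype.card F ^ (d / p + 1) ≤ Fintype.card F ^ (d + 1) := by
  rw [← large_card (F := F) d, mul_comm]
  apply Finset.mul_card_image_le_card_of_maps_to (f := fun f => derivative f)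
  · intro f hf
    exact Finset.mem_image_of_mem _ hf
  · intro w hw
    obtain ⟨E, hE, hEw⟩ := Finset.mem_image.1 hw
    rw [← large_card (F := F) (d / p)]
    apply Finset.card_le_card_of_injOn (fun h => E + expand F p h)
    · intro h hh
      rw [Finset.mem_coe, large_mem] at hh
      rw [Finset.mem_coe, Finset.mem_filter, large_mem]
      constructor
      · apply (natDegree_add_le_of_degree_le (large_mem.1 hE) _)
        rw [natDegree_expand]
        exact (Nat.le_div_iff_mul_le hp.out.pos).1 hh
      · rw [derivative_add, hEw, derivative_expand]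
        have : ((p : ℕ) : F[X]) = 0 := by
          rw [← C_eq_natCast, CharP.cast_eq_zero, C_0]
        rw [this]
        ring
    · intro h _ h' _ he
      simp only at he
      exact expand_injective hp.out.pos (add_left_cancel he)

/-- the solutions of a cubic congruence with a given derivative -/
theorem large_congr_der (p : ℕ) [hp : Fact p.Prime] [CharP F p] {d : ℕ} {P : F[X]} (hP : Irreducible P)
    (hdeg : d / p < P.natDegree) (k3 k2 k1 k0 w : F[X])
    (hne : ¬ (P ∣ k3 ∧ P ∣ k2 ∧ P ∣ k1 ∧ P ∣ k0)) (S : Finset F[X])
    (hS : ∀ f ∈ S, f.natDegree ≤ d ∧ derivative f = w ∧ P ∣ k3 * f ^ 3 + k2 * f ^ 2 + k1 * f + k0) :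
    S.card ≤ 3 := by
  classical
  obtain ⟨T, hT, hr⟩ := large_roots hP k3 k2 k1 k0 hne
  refine le_trans ?_ hT
  apply Finset.card_le_card_of_injOn (fun E => AdjoinRoot.mk P E)
  · intro E hE
    exact hr E (hS E hE).2.2
  · intro E hE E' hE' h
    exact large_inj p hP hdeg (hS E hE).1 (hS E' hE').1 ((hS E hE).2.1.trans (hS E' hE').2.1.symm)
      (AdjoinRoot.mk_eq_mk.1 h)

end der

end Pool.Agent.H456.BQ
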