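import Pool.Agent.H456.BQ.T_largeC

/-! # The resultant and the fibrewise counting for `t_large` -/

set_option autoImplicit false
set_option linter.all false

open Polynomial Finset

namespace Pool.Agent.H456.BQ

section res

variable {F : Type} [Field F]

/-- the resultant -/
noncomputable def large_Rs (A B C D w : F[X]) : F[X] :=
  large_dt (large_c3 A) (large_c2 A B C D) (large_c1 A B C D) (large_c0 A B C D)
    (large_c3 A * derivative (large_c0 A B C D) - derivative (large_c3 A) * large_c0 A B C D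
      + w * (large_c3 A * large_c1 A B C D))
    (large_c3 A * derivative (large_c1 A B C D) - derivative (large_c3 A) * large_c1 A B C D
      + w * (large_c3 A * (2 * large_c2 A B C D)))
    (large_c3 A * derivative (large_c2 A B C D) - derivative (large_c3 A) * large_c2 A B C D
      + w * (large_c3 A * (3 * large_c3 A)))

/-- the polynomial in `E` -/
noncomputable def large_f (A B C D E : F[X]) : F[X] :=
  large_c3 A * E ^ 3 + large_c2 A B C D * E ^ 2 + large_c1 A B C D * E + large_c0 A B C D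

theorem large_Rs_dvd {P A B C D E : F[X]} (h1 : P ∣ large_f A B C D E)
    (h2 : P ∣ derivative (large_f A B C D E)) : P ∣ large_Rs A B C D (derivative E) := by
  unfold large_Rs
  apply large_dt_dvd P _ _ _ _ _ _ _ E h1
  have h3 : P ∣ large_c3 A * derivative (large_f A B C D E) - derivative (large_c3 A) * large_f A B C D E :=
    dvd_sub (Dvd.dvd.mul_left h2 _) (Dvd.dvd.mul_left h1 _)
  convert h3 using 1
  unfold large_f
  simp only [derivative_add, derivative_mul, derivative_pow]
  simp only [Nat.cast_ofNat, map_ofNat]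
  ring

theorem large_Rs_roots {A B C D : F[X]} (h2 : (2 : F) ≠ 0) (hA : A ≠ 0)
    (hR : large_R0 (large_c3 A) (large_c2 A B C D) (large_c1 A B C D) (large_c0 A B C D) ≠ 0)
    (S : Finset F[X]) (hS : ∀ w ∈ S, large_Rs A B C D w = 0) : S.card ≤ 3 := by
  classical
  have h2' : (2 : F[X]) ≠ 0 := by
    have : (2 : F[X]) = Polynomial.C (2 : F) := (map_ofNat Polynomial.C 2).symm
    rw [this]
    exact Polynomial.C_ne_zero.2 h2
  have hc3 : large_c3 A ≠ 0 := by
    have e : (256 : F[X]) = 2 ^ 8 := by norm_num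
    simp only [large_c3]
    rw [e]
    exact mul_ne_zero (pow_ne_zero _ h2') (pow_ne_zero _ hA)
  set c3 := large_c3 A with hc3'
  set c2 := large_c2 A B C D
  set c1 := large_c1 A B C D
  set c0 := large_c0 A B C D
  set x0 := c3 * derivative c0 - derivative c3 * c0 with hx0
  set x1 := c3 * derivative c1 - derivative c3 * c1 with hx1
  set x2 := c3 * derivative c2 - derivative c3 * c2 with hx2
  set a3 := 2 * large_dt c3 c2 c1 c0 (c3 * c1) (c3 * (2 * c2)) (c3 * (3 * c3)) with ha3
  set a2 := large_dt c3 c2 c1 c0 (x0 + c3 * c1) (x1 + c3 * (2 * c2)) (x2 + c3 * (3 * c3))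
    + large_dt c3 c2 c1 c0 (x0 - c3 * c1) (x1 - c3 * (2 * c2)) (x2 - c3 * (3 * c3))
    - 2 * large_dt c3 c2 c1 c0 x0 x1 x2 with ha2
  set a1 := large_dt c3 c2 c1 c0 (x0 + c3 * c1) (x1 + c3 * (2 * c2)) (x2 + c3 * (3 * c3))
    - large_dt c3 c2 c1 c0 (x0 - c3 * c1) (x1 - c3 * (2 * c2)) (x2 - c3 * (3 * c3))
    - 2 * large_dt c3 c2 c1 c0 (c3 * c1) (c3 * (2 * c2)) (c3 * (3 * c3)) with ha1
  set a0 := 2 * large_dt c3 c2 c1 c0 x0 x1 x2 with ha0
  have ha3' : a3 ≠ 0 := by
    rw [ha3, large_dt_der]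
    exact mul_ne_zero h2' (neg_ne_zero.2 (mul_ne_zero (pow_ne_zero _ hc3) hR))
  set p : (F[X])[X] := Polynomial.C a3 * X ^ 3 + Polynomial.C a2 * X ^ 2 + Polynomial.C a1 * X + Polynomial.C a0 with hp
  have hp0 : p ≠ 0 := by
    intro h
    apply ha3'
    have h3 : p.coeff 3 = 0 := by rw [h]; simp
    rw [hp] at h3
    simpa [coeff_X, coeff_C] using h3
  have hroots : S ⊆ p.roots.toFinset := by
    intro w hw
    rw [Multiset.mem_toFinset, mem_roots hp0, IsRoot.def, hp]
    simp only [eval_add, eval_mul, eval_C, eval_pow, eval_X]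
    have h := large_dt_lin c3 c2 c1 c0 x0 x1 x2 (c3 * c1) (c3 * (2 * c2)) (c3 * (3 * c3)) w
    have h' := hS w hw
    unfold large_Rs at h'
    rw [← h, h', mul_zero]
  refine (Finset.card_le_card hroots).trans ((Multiset.toFinset_card_le _).trans ((card_roots' p).trans ?_))
  rw [hp]
  compute_degree

theorem large_dg_mul {p q : F[X]} {k l m : ℕ} (hp : p.natDegree ≤ k) (hq : q.natDegree ≤ l) (h : k + l ≤ m) :
    (p * q).natDegree ≤ m := (natDegree_mul_le_of_le hp hq).trans h

theorem large_dg_sub {p q : F[X]} {k : ℕ} (hp : p.natDegree ≤ k) (hq : q.natDegree ≤ k) :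
    (p - q).natDegree ≤ k := (natDegree_sub_le_of_le hp hq).trans (by simp)

theorem large_dg_add {p q : F[X]} {k : ℕ} (hp : p.natDegree ≤ k) (hq : q.natDegree ≤ k) :
    (p + q).natDegree ≤ k := natDegree_add_le_of_degree_le hp hq

theorem large_dg_neg {p : F[X]} {k : ℕ} (hp : p.natDegree ≤ k) : (-p).natDegree ≤ k := by
  rw [natDegree_neg]; exact hp

theorem large_dg_pow {p : F[X]} {k m : ℕ} (i : ℕ) (hp : p.natDegree ≤ k) (h : i * k ≤ m) :
    (p ^ i).natDegree ≤ m := (natDegree_pow_le_of_le i hp).trans h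

theorem large_dg_num (a : ℕ) [a.AtLeastTwo] {k : ℕ} : ((OfNat.ofNat a : F[X])).natDegree ≤ k := by
  have : (OfNat.ofNat a : F[X]) = Polynomial.C (OfNat.ofNat a : F) := (map_ofNat Polynomial.C a).symm
  rw [this, natDegree_C]
  exact Nat.zero_le _

theorem large_dg_der {p : F[X]} {k : ℕ} (hp : p.natDegree ≤ k) : (derivative p).natDegree ≤ k :=
  (natDegree_derivative_le p).trans (by omega)

theorem large_dg_dt {c3 c2 c1 c0 h0 h1 h2 : F[X]} {a b : ℕ} (H3 : c3.natDegree ≤ a) (H2 : c2.natDegree ≤ a)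
    (H1 : c1.natDegree ≤ a) (H0 : c0.natDegree ≤ a) (G0 : h0.natDegree ≤ b) (G1 : h1.natDegree ≤ b)
    (G2 : h2.natDegree ≤ b) : (large_dt c3 c2 c1 c0 h0 h1 h2).natDegree ≤ 3 * b + 3 * a := by
  simp only [large_dt]
  set r0 := -(h2 * c0)
  set r1 := c3 * h0 - h2 * c1
  set r2 := c3 * h1 - h2 * c2
  have R0 : r0.natDegree ≤ a + b := large_dg_neg (large_dg_mul G2 H0 (by omega))
  have R1 : r1.natDegree ≤ a + b := large_dg_sub (large_dg_mul H3 G0 (by omega)) (large_dg_mul G2 H1 (by omega))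
  have R2 : r2.natDegree ≤ a + b := large_dg_sub (large_dg_mul H3 G1 (by omega)) (large_dg_mul G2 H2 (by omega))
  set s0 := -(r2 * c0)
  set s1 := c3 * r0 - r2 * c1
  set s2 := c3 * r1 - r2 * c2
  have S0 : s0.natDegree ≤ 2 * a + b := large_dg_neg (large_dg_mul R2 H0 (by omega))
  have S1 : s1.natDegree ≤ 2 * a + b :=
    large_dg_sub (large_dg_mul H3 R0 (by omega)) (large_dg_mul R2 H1 (by omega))
  have S2 : s2.natDegree ≤ 2 * a + b :=
    large_dg_sub (large_dg_mul H3 R1 (by omega)) (large_dg_mul R2 H2 (by omega))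
  refine large_dg_add (large_dg_sub (large_dg_mul G0 (k := b) (l := 3 * a + 2 * b) ?_ (by omega))
    (large_dg_mul G1 (k := b) (l := 3 * a + 2 * b) ?_ (by omega)))
    (large_dg_mul G2 (k := b) (l := 3 * a + 2 * b) ?_ (by omega))
  · exact large_dg_sub (large_dg_mul R1 S2 (by omega)) (large_dg_mul R2 S1 (by omega))
  · exact large_dg_sub (large_dg_mul R0 S2 (by omega)) (large_dg_mul R2 S0 (by omega))
  · exact large_dg_sub (large_dg_mul R0 S1 (by omega)) (large_dg_mul R1 S0 (by omega))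

theorem large_dg_c {A B C D : F[X]} {m : ℕ} (hA : A.natDegree ≤ m) (hB : B.natDegree ≤ m) (hC : C.natDegree ≤ m)
    (hD : D.natDegree ≤ m) : (large_c3 A).natDegree ≤ 6 * m ∧ (large_c2 A B C D).natDegree ≤ 6 * m ∧
      (large_c1 A B C D).natDegree ≤ 6 * m ∧ (large_c0 A B C D).natDegree ≤ 6 * m := by
  have pA := fun i : ℕ => large_dg_pow (m := i * m) i hA le_rfl
  have pB := fun i : ℕ => large_dg_pow (m := i * m) i hB le_rfl
  have pC := fun i : ℕ => large_dg_pow (m := i * m) i hC le_rfl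
  have pD := fun i : ℕ => large_dg_pow (m := i * m) i hD le_rfl
  have num : ∀ (a : ℕ) [a.AtLeastTwo] (q : F[X]), q.natDegree ≤ 6 * m → (OfNat.ofNat a * q).natDegree ≤ 6 * m :=
    fun a _ q hq => large_dg_mul (large_dg_num a (k := 0)) hq (by omega)
  refine ⟨?_, ?_, ?_, ?_⟩
  · unfold large_c3
    exact num 256 _ ((pA 3).trans (by omega))
  · unfold large_c2
    refine large_dg_sub (large_dg_sub (large_dg_sub (num 144 _ ?_) (num 128 _ ?_)) (num 192 _ ?_)) (num 27 _ ?_)
    · exact large_dg_mul (large_dg_mul hA (pB 2) le_rfl) hC (by omega)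
    · exact large_dg_mul (pA 2) (pC 2) (by omega)
    · exact large_dg_mul (large_dg_mul (pA 2) hB le_rfl) hD (by omega)
    · exact (pB 4).trans (by omega)
  · unfold large_c1
    refine large_dg_sub (large_dg_add (large_dg_add (large_dg_sub (large_dg_sub (num 144 _ ?_) (num 6 _ ?_))
      (num 80 _ ?_)) (num 18 _ ?_)) (num 16 _ ?_)) (num 4 _ ?_)
    · exact large_dg_mul (large_dg_mul (pA 2) hC le_rfl) (pD 2) (by omega)
    · exact large_dg_mul (large_dg_mul hA (pB 2) le_rfl) (pD 2) (by omega)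
    · exact large_dg_mul (large_dg_mul (large_dg_mul hA hB le_rfl) (pC 2) le_rfl) hD (by omega)
    · exact large_dg_mul (large_dg_mul (pB 3) hC le_rfl) hD (by omega)
    · exact large_dg_mul hA (pC 4) (by omega)
    · exact large_dg_mul (pB 2) (pC 3) (by omega)
  · unfold large_c0
    refine large_dg_sub (large_dg_sub (large_dg_sub (large_dg_add (num 18 _ ?_) ?_) (num 27 _ ?_)) (num 4 _ ?_))
      (num 4 _ ?_)
    · exact large_dg_mul (large_dg_mul (large_dg_mul hA hB le_rfl) hC le_rfl) (pD 3) (by omega)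
    · exact large_dg_mul (large_dg_mul (pB 2) (pC 2) le_rfl) (pD 2) (by omega)
    · exact large_dg_mul (pA 2) (pD 4) (by omega)
    · exact large_dg_mul (pB 3) (pD 3) (by omega)
    · exact large_dg_mul (large_dg_mul hA (pC 3) le_rfl) (pD 2) (by omega)

theorem large_Rs_deg {A B C D w : F[X]} {m : ℕ} (hA : A.natDegree ≤ m) (hB : B.natDegree ≤ m)
    (hC : C.natDegree ≤ m) (hD : D.natDegree ≤ m) (hw : w.natDegree ≤ m) :
    (large_Rs A B C D w).natDegree ≤ 60 * m := by
  obtain ⟨h3, h2, h1, h0⟩ := large_dg_c hA hB hC hD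
  have k3 := large_dg_der h3
  have k2 := large_dg_der h2
  have k1 := large_dg_der h1
  have k0 := large_dg_der h0
  refine (large_dg_dt (a := 6 * m) (b := 13 * m) h3 h2 h1 h0 ?_ ?_ ?_).trans (by omega)
  · exact large_dg_add (large_dg_sub (large_dg_mul h3 k0 (by omega)) (large_dg_mul k3 h0 (by omega)))
      (large_dg_mul hw (large_dg_mul h3 h1 (m := 12 * m) (by omega)) (by omega))
  · exact large_dg_add (large_dg_sub (large_dg_mul h3 k1 (by omega)) (large_dg_mul k3 h1 (by omega)))
      (large_dg_mul hw (large_dg_mul h3 (large_dg_mul (large_dg_num 2 (k := 0)) h2 (m := 6 * m) (by omega))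
        (m := 12 * m) (by omega)) (by omega))
  · exact large_dg_add (large_dg_sub (large_dg_mul h3 k2 (by omega)) (large_dg_mul k3 h2 (by omega)))
      (large_dg_mul hw (large_dg_mul h3 (large_dg_mul (large_dg_num 3 (k := 0)) h3 (m := 6 * m) (by omega))
        (m := 12 * m) (by omega)) (by omega))

end res

end Pool.Agent.H456.BQ
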