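import Pool.Agent.H456.BQ.T_largeD

/-! # The fibrewise counting for `t_large` -/

set_option autoImplicit false
set_option linter.all false

open Polynomial Finset

namespace Pool.Agent.H456.BQ

section box

variable {F : Type} [Field F] [Fintype F]

/-- the box -/
def large_bx (n e : ℕ) (G : Q4 F[X]) : Prop :=
  G.A.natDegree ≤ 2 * n - 2 * e ∧ G.B.natDegree ≤ 2 * n - e ∧ G.C.natDegree ≤ 2 * n ∧
      G.D.natDegree ≤ 2 * n + e ∧ G.E.natDegree ≤ 2 * n + 2 * e

theorem large_fiber {α : Type} [DecidableEq α] (S : Finset (Q4 F[X])) (π : Q4 F[X] → α) (U : Finset α)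
    (hmaps : ∀ G ∈ S, π G ∈ U) (M K : ℕ) (hf : ∀ u ∈ U, (S.filter (fun G => π G = u)).card * M ≤ K) :
    S.card * M ≤ U.card * K := by
  rw [Finset.card_eq_sum_card_fiberwise (f := π) (t := U) (s := S) (fun x hx => hmaps x hx), Finset.sum_mul]
  calc _ ≤ ∑ u ∈ U, K := Finset.sum_le_sum hf
    _ = U.card * K := by rw [Finset.sum_const, smul_eq_mul]

theorem large_cntE {n e : ℕ} (he : e ≤ n) (S : Finset (Q4 F[X])) (hbox : ∀ G ∈ S, large_bx n e G) (M K : ℕ)
    (h : ∀ A B C D : F[X], A.natDegree ≤ 2 * n - 2 * e → B.natDegree ≤ 2 * n - e → C.natDegree ≤ 2 * n →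
      D.natDegree ≤ 2 * n + e → ∀ V : Finset F[X], (∀ x ∈ V, (⟨A, B, C, D, x⟩ : Q4 F[X]) ∈ S) →
      V.card * M ≤ K * Fintype.card F ^ (2 * n + 2 * e + 1)) :
    S.card * M ≤ K * Fintype.card F ^ (10 * n + 5) := by
  classical
  have h1 := large_fiber S (fun G => (G.A, G.B, G.C, G.D))
    (large_PL F (2 * n - 2 * e) ×ˢ large_PL F (2 * n - e) ×ˢ large_PL F (2 * n) ×ˢ large_PL F (2 * n + e))
    (by
      intro G hG
      obtain ⟨hA, hB, hC, hD, hE⟩ := hbox G hG
      simp only [Finset.mem_product, large_mem]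
      exact ⟨hA, hB, hC, hD⟩) M (K * Fintype.card F ^ (2 * n + 2 * e + 1)) (by
      rintro ⟨A, B, C, D⟩ hu
      simp only [Finset.mem_product, large_mem] at hu
      obtain ⟨hA, hB, hC, hD⟩ := hu
      rw [← Finset.card_image_of_injOn (f := Q4.E)]
      · apply h A B C D hA hB hC hD
        intro x hx
        obtain ⟨G, hG, rfl⟩ := Finset.mem_image.1 hx
        obtain ⟨hG1, hG2⟩ := Finset.mem_filter.1 hG
        simp only [Prod.mk.injEq] at hG2
        obtain ⟨rfl, rfl, rfl, rfl⟩ := hG2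
        exact hG1
      · intro G hG G' hG' hx
        obtain ⟨hG1, hG2⟩ := Finset.mem_filter.1 (Finset.mem_coe.1 hG)
        obtain ⟨hG1', hG2'⟩ := Finset.mem_filter.1 (Finset.mem_coe.1 hG')
        simp only [Prod.mk.injEq] at hG2 hG2'
        exact Q4.ext (hG2.1.trans hG2'.1.symm) (hG2.2.1.trans hG2'.2.1.symm) (hG2.2.2.1.trans hG2'.2.2.1.symm)
          (hG2.2.2.2.trans hG2'.2.2.2.symm) hx)
  refine h1.trans (le_of_eq ?_)
  simp only [Finset.card_product, large_card]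
  rw [← pow_add, ← pow_add, ← pow_add]
  rw [show Fintype.card F ^ (2 * n - 2 * e + 1 + (2 * n - e + 1 + (2 * n + 1 + (2 * n + e + 1)))) *
    (K * Fintype.card F ^ (2 * n + 2 * e + 1)) = K * Fintype.card F ^
      ((2 * n - 2 * e + 1 + (2 * n - e + 1 + (2 * n + 1 + (2 * n + e + 1)))) + (2 * n + 2 * e + 1)) by ring]
  congr 2
  omega

theorem large_cntD {n e : ℕ} (he : e ≤ n) (S : Finset (Q4 F[X])) (hbox : ∀ G ∈ S, large_bx n e G) (M K : ℕ)
    (h : ∀ A B C E : F[X], A.natDegree ≤ 2 * n - 2 * e → B.natDegree ≤ 2 * n - e → C.natDegree ≤ 2 * n →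
      E.natDegree ≤ 2 * n + 2 * e → ∀ V : Finset F[X], (∀ x ∈ V, (⟨A, B, C, x, E⟩ : Q4 F[X]) ∈ S) →
      V.card * M ≤ K * Fintype.card F ^ (2 * n + e + 1)) :
    S.card * M ≤ K * Fintype.card F ^ (10 * n + 5) := by
  classical
  have h1 := large_fiber S (fun G => (G.A, G.B, G.C, G.E))
    (large_PL F (2 * n - 2 * e) ×ˢ large_PL F (2 * n - e) ×ˢ large_PL F (2 * n) ×ˢ large_PL F (2 * n + 2 * e))
    (by
      intro G hG
      obtain ⟨hA, hB, hC, hD, hE⟩ := hbox G hG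
      simp only [Finset.mem_product, large_mem]
      exact ⟨hA, hB, hC, hE⟩) M (K * Fintype.card F ^ (2 * n + e + 1)) (by
      rintro ⟨A, B, C, E⟩ hu
      simp only [Finset.mem_product, large_mem] at hu
      obtain ⟨hA, hB, hC, hE⟩ := hu
      rw [← Finset.card_image_of_injOn (f := Q4.D)]
      · apply h A B C E hA hB hC hE
        intro x hx
        obtain ⟨G, hG, rfl⟩ := Finset.mem_image.1 hx
        obtain ⟨hG1, hG2⟩ := Finset.mem_filter.1 hG
        simp only [Prod.mk.injEq] at hG2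
        obtain ⟨rfl, rfl, rfl, rfl⟩ := hG2
        exact hG1
      · intro G hG G' hG' hx
        obtain ⟨hG1, hG2⟩ := Finset.mem_filter.1 (Finset.mem_coe.1 hG)
        obtain ⟨hG1', hG2'⟩ := Finset.mem_filter.1 (Finset.mem_coe.1 hG')
        simp only [Prod.mk.injEq] at hG2 hG2'
        exact Q4.ext (hG2.1.trans hG2'.1.symm) (hG2.2.1.trans hG2'.2.1.symm) (hG2.2.2.1.trans hG2'.2.2.1.symm)
          hx (hG2.2.2.2.trans hG2'.2.2.2.symm))
  refine h1.trans (le_of_eq ?_)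
  simp only [Finset.card_product, large_card]
  rw [← pow_add, ← pow_add, ← pow_add]
  rw [show Fintype.card F ^ (2 * n - 2 * e + 1 + (2 * n - e + 1 + (2 * n + 1 + (2 * n + 2 * e + 1)))) *
    (K * Fintype.card F ^ (2 * n + e + 1)) = K * Fintype.card F ^
      ((2 * n - 2 * e + 1 + (2 * n - e + 1 + (2 * n + 1 + (2 * n + 2 * e + 1)))) + (2 * n + e + 1)) by ring]
  congr 2
  omega

theorem large_cntC {n e : ℕ} (he : e ≤ n) (S : Finset (Q4 F[X])) (hbox : ∀ G ∈ S, large_bx n e G) (M K : ℕ)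
    (h : ∀ A B D E : F[X], A.natDegree ≤ 2 * n - 2 * e → B.natDegree ≤ 2 * n - e → D.natDegree ≤ 2 * n + e →
      E.natDegree ≤ 2 * n + 2 * e → ∀ V : Finset F[X], (∀ x ∈ V, (⟨A, B, x, D, E⟩ : Q4 F[X]) ∈ S) →
      V.card * M ≤ K * Fintype.card F ^ (2 * n + 1)) :
    S.card * M ≤ K * Fintype.card F ^ (10 * n + 5) := by
  classical
  have h1 := large_fiber S (fun G => (G.A, G.B, G.D, G.E))
    (large_PL F (2 * n - 2 * e) ×ˢ large_PL F (2 * n - e) ×ˢ large_PL F (2 * n + e) ×ˢ large_PL F (2 * n + 2 * e))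
    (by
      intro G hG
      obtain ⟨hA, hB, hC, hD, hE⟩ := hbox G hG
      simp only [Finset.mem_product, large_mem]
      exact ⟨hA, hB, hD, hE⟩) M (K * Fintype.card F ^ (2 * n + 1)) (by
      rintro ⟨A, B, D, E⟩ hu
      simp only [Finset.mem_product, large_mem] at hu
      obtain ⟨hA, hB, hD, hE⟩ := hu
      rw [← Finset.card_image_of_injOn (f := Q4.C)]
      · apply h A B D E hA hB hD hE
        intro x hx
        obtain ⟨G, hG, rfl⟩ := Finset.mem_image.1 hx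
        obtain ⟨hG1, hG2⟩ := Finset.mem_filter.1 hG
        simp only [Prod.mk.injEq] at hG2
        obtain ⟨rfl, rfl, rfl, rfl⟩ := hG2
        exact hG1
      · intro G hG G' hG' hx
        obtain ⟨hG1, hG2⟩ := Finset.mem_filter.1 (Finset.mem_coe.1 hG)
        obtain ⟨hG1', hG2'⟩ := Finset.mem_filter.1 (Finset.mem_coe.1 hG')
        simp only [Prod.mk.injEq] at hG2 hG2'
        exact Q4.ext (hG2.1.trans hG2'.1.symm) (hG2.2.1.trans hG2'.2.1.symm) hx (hG2.2.2.1.trans hG2'.2.2.1.symm)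
          (hG2.2.2.2.trans hG2'.2.2.2.symm))
  refine h1.trans (le_of_eq ?_)
  simp only [Finset.card_product, large_card]
  rw [← pow_add, ← pow_add, ← pow_add]
  rw [show Fintype.card F ^ (2 * n - 2 * e + 1 + (2 * n - e + 1 + (2 * n + e + 1 + (2 * n + 2 * e + 1)))) *
    (K * Fintype.card F ^ (2 * n + 1)) = K * Fintype.card F ^
      ((2 * n - 2 * e + 1 + (2 * n - e + 1 + (2 * n + e + 1 + (2 * n + 2 * e + 1)))) + (2 * n + 1)) by ring]
  congr 2
  omega

theorem large_cntB {n e : ℕ} (he : e ≤ n) (S : Finset (Q4 F[X])) (hbox : ∀ G ∈ S, large_bx n e G) (M K : ℕ)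
    (h : ∀ A C D E : F[X], A.natDegree ≤ 2 * n - 2 * e → C.natDegree ≤ 2 * n → D.natDegree ≤ 2 * n + e →
      E.natDegree ≤ 2 * n + 2 * e → ∀ V : Finset F[X], (∀ x ∈ V, (⟨A, x, C, D, E⟩ : Q4 F[X]) ∈ S) →
      V.card * M ≤ K * Fintype.card F ^ (2 * n - e + 1)) :
    S.card * M ≤ K * Fintype.card F ^ (10 * n + 5) := by
  classical
  have h1 := large_fiber S (fun G => (G.A, G.C, G.D, G.E))
    (large_PL F (2 * n - 2 * e) ×ˢ large_PL F (2 * n) ×ˢ large_PL F (2 * n + e) ×ˢ large_PL F (2 * n + 2 * e))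
    (by
      intro G hG
      obtain ⟨hA, hB, hC, hD, hE⟩ := hbox G hG
      simp only [Finset.mem_product, large_mem]
      exact ⟨hA, hC, hD, hE⟩) M (K * Fintype.card F ^ (2 * n - e + 1)) (by
      rintro ⟨A, C, D, E⟩ hu
      simp only [Finset.mem_product, large_mem] at hu
      obtain ⟨hA, hC, hD, hE⟩ := hu
      rw [← Finset.card_image_of_injOn (f := Q4.B)]
      · apply h A C D E hA hC hD hE
        intro x hx
        obtain ⟨G, hG, rfl⟩ := Finset.mem_image.1 hx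
        obtain ⟨hG1, hG2⟩ := Finset.mem_filter.1 hG
        simp only [Prod.mk.injEq] at hG2
        obtain ⟨rfl, rfl, rfl, rfl⟩ := hG2
        exact hG1
      · intro G hG G' hG' hx
        obtain ⟨hG1, hG2⟩ := Finset.mem_filter.1 (Finset.mem_coe.1 hG)
        obtain ⟨hG1', hG2'⟩ := Finset.mem_filter.1 (Finset.mem_coe.1 hG')
        simp only [Prod.mk.injEq] at hG2 hG2'
        exact Q4.ext (hG2.1.trans hG2'.1.symm) hx (hG2.2.1.trans hG2'.2.1.symm) (hG2.2.2.1.trans hG2'.2.2.1.symm)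
          (hG2.2.2.2.trans hG2'.2.2.2.symm))
  refine h1.trans (le_of_eq ?_)
  simp only [Finset.card_product, large_card]
  rw [← pow_add, ← pow_add, ← pow_add]
  rw [show Fintype.card F ^ (2 * n - 2 * e + 1 + (2 * n + 1 + (2 * n + e + 1 + (2 * n + 2 * e + 1)))) *
    (K * Fintype.card F ^ (2 * n - e + 1)) = K * Fintype.card F ^
      ((2 * n - 2 * e + 1 + (2 * n + 1 + (2 * n + e + 1 + (2 * n + 2 * e + 1)))) + (2 * n - e + 1)) by ring]
  congr 2
  omega

theorem large_cntA {n e : ℕ} (he : e ≤ n) (S : Finset (Q4 F[X])) (hbox : ∀ G ∈ S, large_bx n e G) (M K : ℕ)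
    (h : ∀ B C D E : F[X], B.natDegree ≤ 2 * n - e → C.natDegree ≤ 2 * n → D.natDegree ≤ 2 * n + e →
      E.natDegree ≤ 2 * n + 2 * e → ∀ V : Finset F[X], (∀ x ∈ V, (⟨x, B, C, D, E⟩ : Q4 F[X]) ∈ S) →
      V.card * M ≤ K * Fintype.card F ^ (2 * n - 2 * e + 1)) :
    S.card * M ≤ K * Fintype.card F ^ (10 * n + 5) := by
  classical
  have h1 := large_fiber S (fun G => (G.B, G.C, G.D, G.E))
    (large_PL F (2 * n - e) ×ˢ large_PL F (2 * n) ×ˢ large_PL F (2 * n + e) ×ˢ large_PL F (2 * n + 2 * e))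
    (by
      intro G hG
      obtain ⟨hA, hB, hC, hD, hE⟩ := hbox G hG
      simp only [Finset.mem_product, large_mem]
      exact ⟨hB, hC, hD, hE⟩) M (K * Fintype.card F ^ (2 * n - 2 * e + 1)) (by
      rintro ⟨B, C, D, E⟩ hu
      simp only [Finset.mem_product, large_mem] at hu
      obtain ⟨hB, hC, hD, hE⟩ := hu
      rw [← Finset.card_image_of_injOn (f := Q4.A)]
      · apply h B C D E hB hC hD hE
        intro x hx
        obtain ⟨G, hG, rfl⟩ := Finset.mem_image.1 hx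
        obtain ⟨hG1, hG2⟩ := Finset.mem_filter.1 hG
        simp only [Prod.mk.injEq] at hG2
        obtain ⟨rfl, rfl, rfl, rfl⟩ := hG2
        exact hG1
      · intro G hG G' hG' hx
        obtain ⟨hG1, hG2⟩ := Finset.mem_filter.1 (Finset.mem_coe.1 hG)
        obtain ⟨hG1', hG2'⟩ := Finset.mem_filter.1 (Finset.mem_coe.1 hG')
        simp only [Prod.mk.injEq] at hG2 hG2'
        exact Q4.ext hx (hG2.1.trans hG2'.1.symm) (hG2.2.1.trans hG2'.2.1.symm) (hG2.2.2.1.trans hG2'.2.2.1.symm)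
          (hG2.2.2.2.trans hG2'.2.2.2.symm))
  refine h1.trans (le_of_eq ?_)
  simp only [Finset.card_product, large_card]
  rw [← pow_add, ← pow_add, ← pow_add]
  rw [show Fintype.card F ^ (2 * n - e + 1 + (2 * n + 1 + (2 * n + e + 1 + (2 * n + 2 * e + 1)))) *
    (K * Fintype.card F ^ (2 * n - 2 * e + 1)) = K * Fintype.card F ^
      ((2 * n - e + 1 + (2 * n + 1 + (2 * n + e + 1 + (2 * n + 2 * e + 1)))) + (2 * n - 2 * e + 1)) by ring]
  congr 2
  omega

/-- the box is finite -/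
theorem large_bx_fin (n e : ℕ) : {G : Q4 F[X] | large_bx n e G}.Finite := by
  classical
  apply Set.Finite.subset ((large_PL F (2 * n - 2 * e) ×ˢ large_PL F (2 * n - e) ×ˢ large_PL F (2 * n) ×ˢ
    large_PL F (2 * n + e) ×ˢ large_PL F (2 * n + 2 * e)).image
      (fun x => (⟨x.1, x.2.1, x.2.2.1, x.2.2.2.1, x.2.2.2.2⟩ : Q4 F[X]))).finite_toSet
  rintro G ⟨hA, hB, hC, hD, hE⟩
  rw [Finset.mem_coe, Finset.mem_image]
  refine ⟨(G.A, G.B, G.C, G.D, G.E), ?_, rfl⟩
  simp only [Finset.mem_product, large_mem]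
  exact ⟨hA, hB, hC, hD, hE⟩

end box

end Pool.Agent.H456.BQ
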