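import Pool.Agent.H456.BQ.XDef

/-!
(XC) `S_posc`: a nonempty family has positive density.
-/

set_option autoImplicit false
set_option linter.all false

open Polynomial Finset
open Pool.Agent.H456.EC (toK toK_inj sig toK_eq reflect_toK)

namespace Pool.Agent.H456.BQ

open Filter

section

variable {F : Type} [Field F] [Fintype F]

theorem posc_muPc_pos (P : Pl F) {m M : ℕ} (hM : 6 ≤ M) (hm : m ≤ M) {c : Cub F[X] → Prop}
    (hc : Cnd P.1 m c) {f : Cub F[X]} (hf : ¬ NMc P.1 f) (hcf : c f) : 0 < muPc P M c := by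
  classical
  have hq2 : 2 ≤ (Fintype.card F : ℝ) := q_ge
  have hq0 : (0 : ℝ) < Fintype.card F := by linarith
  unfold muPc
  apply div_pos _ (by positivity)
  refine sum_pos' (fun g _ => mul_nonneg (chi_nonneg P M g) (Tht_nonneg P.1 M c g))
    ⟨f.map (Ideal.Quotient.mk (Ideal.span {P.1 ^ M})), mem_univ _, ?_⟩
  have h1 : chi P M (f.map (Ideal.Quotient.mk (Ideal.span {P.1 ^ M}))) = 1 := by
    unfold chi
    rw [if_neg (fun h => hf ((NMc_iff_mod hM).1 h))]
  rw [h1, Tht_map hm hc f, if_pos hcf]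
  norm_num

theorem posc_muPc_triv (P : Pl F) (M : ℕ) {c : Cub F[X] → Prop} (hc : ∀ f, c f) :
    muPc P M c = muP P M := by
  have hq2 : 2 ≤ (Fintype.card F : ℝ) := q_ge
  have hq0 : (0 : ℝ) < Fintype.card F := by linarith
  unfold muPc
  rw [div_eq_iff (by positivity), ← sum_chi]
  refine sum_congr rfl fun g _ => ?_
  have h1 : Tht P.1 M c g = 1 := by
    unfold Tht
    rw [if_pos]
    obtain ⟨a, ha⟩ := Ideal.Quotient.mk_surjective g.a
    obtain ⟨b, hb⟩ := Ideal.Quotient.mk_surjective g.b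
    obtain ⟨d, hd⟩ := Ideal.Quotient.mk_surjective g.c
    refine ⟨⟨a, b, d⟩, ?_, hc _⟩
    ext
    · exact ha
    · exact hb
    · exact hd
  rw [h1, mul_one]

theorem posc_MinS_empty {n : ℕ} {f : Cub F[X]} : MinS (∅ : Finset (Pl F)) n f ↔ ¬ NMc X (crev n f) := by
  unfold MinS
  constructor
  · exact fun h => h.2
  · exact fun h => ⟨fun P hP => absurd hP (notMem_empty _), h⟩

theorem posc_muX {M : ℕ} (hM : 6 ≤ M) : 1 / 2 ≤ muX F M := by
  classical
  have hq2 : 2 ≤ (Fintype.card F : ℝ) := q_ge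
  have hq0 : (0 : ℝ) < Fintype.card F := by linarith
  set n := dS (∅ : Finset (Pl F)) M with hn
  have hn1 : 1 ≤ n := by
    rw [hn]
    unfold dS
    omega
  have h1 := card_MinS (F := F) (∅ : Finset (Pl F)) (M := M) (n := n) hM (by omega)
  have h3 : muS (∅ : Finset (Pl F)) M = muX F M := by
    unfold muS
    rw [prod_of_isEmpty, one_mul]
  rw [h3] at h1
  have h4 := card_filter_add_card_filter_not (s := Sb F n) (fun f => MinS (∅ : Finset (Pl F)) n f)
  have h5 : ((Sb F n).filter (fun f => ¬ MinS (∅ : Finset (Pl F)) n f)).card ≤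
      Fintype.card F ^ (12 * n + 3 - 10) := by
    refine (card_le_card ?_).trans (card_NMX hn1)
    intro f hf
    rw [mem_filter] at hf ⊢
    refine ⟨hf.1, ?_⟩
    by_contra hX
    exact hf.2 (posc_MinS_empty.2 hX)
  rw [card_Sb] at h4
  have h6 : (((Sb F n).filter (fun f => MinS (∅ : Finset (Pl F)) n f)).card : ℝ) +
    (((Sb F n).filter (fun f => ¬ MinS (∅ : Finset (Pl F)) n f)).card : ℝ) =
      (Fintype.card F : ℝ) ^ (12 * n + 3) := by
    exact_mod_cast h4
  have h7 : (((Sb F n).filter (fun f => ¬ MinS (∅ : Finset (Pl F)) n f)).card : ℝ) ≤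
      (Fintype.card F : ℝ) ^ (12 * n + 3 - 10) := by
    exact_mod_cast h5
  have h8 : (Fintype.card F : ℝ) ^ (12 * n + 3 - 10) ≤ (1 / 4) * (Fintype.card F : ℝ) ^ (12 * n + 3) := by
    have e1 : (Fintype.card F : ℝ) ^ (12 * n + 3) =
        (Fintype.card F : ℝ) ^ 10 * (Fintype.card F : ℝ) ^ (12 * n + 3 - 10) := by
      rw [← pow_add]; congr 1; omega
    have e3 : (4 : ℝ) ≤ (Fintype.card F : ℝ) ^ 10 := by
      calc (4 : ℝ) ≤ 2 ^ 10 := by norm_num
        _ ≤ _ := pow_le_pow_left₀ (by norm_num) hq2 10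
    rw [e1]
    have hp : 0 < (Fintype.card F : ℝ) ^ (12 * n + 3 - 10) := by positivity
    nlinarith
  have hB : 0 < (Fintype.card F : ℝ) ^ (12 * n + 3) := by positivity
  rw [h1] at h6
  by_contra hlt
  push Not at hlt
  have h9 := mul_lt_mul_of_pos_right hlt hB
  linarith

theorem posc_muP (P : Pl F) {M : ℕ} (hM : 6 ≤ M) :
    1 - ((Fintype.card F : ℝ) ^ (2 * P.1.natDegree))⁻¹ ≤ muP P M := by
  classical
  have hq2 : 2 ≤ (Fintype.card F : ℝ) := q_ge
  have hq0 : (0 : ℝ) < Fintype.card F := by linarith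
  have hd1 : 1 ≤ P.1.natDegree := P.2.2.natDegree_pos
  set n := dS ({P} : Finset (Pl F)) M with hn
  have hn1 : P.1.natDegree ≤ n ∧ dS (∅ : Finset (Pl F)) M ≤ n := by
    rw [hn]
    unfold dS
    rw [sum_singleton, sum_empty]
    constructor
    · have : 1 * P.1.natDegree ≤ M * P.1.natDegree := Nat.mul_le_mul_right _ (by omega)
      omega
    · omega
  have h1 := card_MinS (F := F) (∅ : Finset (Pl F)) (M := M) (n := n) hM (by omega)
  have h2 := card_MinS (F := F) ({P} : Finset (Pl F)) (M := M) (n := n) hM (by omega)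
  have h3 : muS (∅ : Finset (Pl F)) M = muX F M := by
    unfold muS
    rw [prod_of_isEmpty, one_mul]
  have h4 : muS ({P} : Finset (Pl F)) M = muP P M * muX F M := by
    unfold muS
    rw [prod_coe_sort ({P} : Finset (Pl F)) (fun P => muP P M), prod_singleton]
  rw [h3] at h1
  rw [h4] at h2
  have h5 : (Sb F n).filter (fun f => MinS (∅ : Finset (Pl F)) n f) ⊆
      (Sb F n).filter (fun f => MinS ({P} : Finset (Pl F)) n f) ∪
        (Sb F n).filter (fun f => NMc P.1 f) := by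
    intro f hf
    rw [mem_filter] at hf
    rw [mem_union, mem_filter, mem_filter]
    by_cases h : NMc P.1 f
    · exact Or.inr ⟨hf.1, h⟩
    · refine Or.inl ⟨hf.1, fun Q hQ => ?_, hf.2.2⟩
      rw [mem_singleton] at hQ
      rw [hQ]
      exact h
  have h6 := (card_le_card h5).trans (card_union_le _ _)
  have h7 := card_NM (n := n) P.2.1 hn1.1 hd1
  have h8 : (((Sb F n).filter (fun f => MinS (∅ : Finset (Pl F)) n f)).card : ℝ) ≤
      (((Sb F n).filter (fun f => MinS ({P} : Finset (Pl F)) n f)).card : ℝ) +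
        (Fintype.card F : ℝ) ^ (12 * n + 3 - 10 * P.1.natDegree) := by
    exact_mod_cast h6.trans (Nat.add_le_add_left h7 _)
  rw [h1, h2] at h8
  have hB : 0 < (Fintype.card F : ℝ) ^ (12 * n + 3) := by positivity
  have h9 : (Fintype.card F : ℝ) ^ (12 * n + 3 - 10 * P.1.natDegree) =
      ((Fintype.card F : ℝ) ^ (10 * P.1.natDegree))⁻¹ * (Fintype.card F : ℝ) ^ (12 * n + 3) := by
    rw [inv_mul_eq_div, eq_div_iff (by positivity), ← pow_add]
    congr 1
    omega
  have h10 : ((Fintype.card F : ℝ) ^ (10 * P.1.natDegree))⁻¹ ≤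
      1 / 2 * ((Fintype.card F : ℝ) ^ (2 * P.1.natDegree))⁻¹ := by
    have e1 : (Fintype.card F : ℝ) ^ (10 * P.1.natDegree) =
        (Fintype.card F : ℝ) ^ (8 * P.1.natDegree) * (Fintype.card F : ℝ) ^ (2 * P.1.natDegree) := by
      rw [← pow_add]; congr 1; omega
    have e2 : (2 : ℝ) ≤ (Fintype.card F : ℝ) ^ (8 * P.1.natDegree) := by
      calc (2 : ℝ) ≤ (Fintype.card F : ℝ) ^ 1 := by rw [pow_one]; exact hq2
        _ ≤ _ := pow_le_pow_right₀ (by linarith) (by omega)
    rw [e1, mul_inv]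
    apply mul_le_mul_of_nonneg_right _ (by positivity)
    rw [one_div]
    exact inv_anti₀ (by norm_num) e2
  have hX := posc_muX (F := F) hM
  rw [h9] at h8
  have h11 : muX F M ≤ muP P M * muX F M + ((Fintype.card F : ℝ) ^ (10 * P.1.natDegree))⁻¹ := by
    by_contra hlt
    push Not at hlt
    have := mul_lt_mul_of_pos_right hlt hB
    linarith
  set t := ((Fintype.card F : ℝ) ^ (2 * P.1.natDegree))⁻¹ with ht
  have ht0 : 0 < t := by rw [ht]; positivity
  by_contra hlt
  push Not at hlt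
  have h12 : (1 / 2) * t < (1 - muP P M) * muX F M := by nlinarith
  nlinarith

/-- the lower bound of the main term -/
theorem posc_main (heu : S_euler2) {M : ℕ} (hM : 6 ≤ M) (S₀ S : Finset (Pl F)) (hS : S₀ ⊆ S)
    (c : Pl F → Cub F[X] → Prop) (ci : Cub F[X] → Prop) (htr : ∀ P, P ∉ S₀ → ∀ f, c P f)
    (h0 : 0 < (∏ P ∈ S₀, muPc P M (c P)) * muPc (PlX F) M ci) :
    (1 / 2) * ((∏ P ∈ S₀, muPc P M (c P)) * muPc (PlX F) M ci) ≤ muSc S M c ci := by
  classical
  have hq2 : 2 ≤ (Fintype.card F : ℝ) := q_ge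
  have hq0 : (0 : ℝ) < Fintype.card F := by linarith
  unfold muSc
  rw [prod_coe_sort S (fun P => muPc P M (c P)), ← prod_sdiff hS, mul_assoc]
  apply mul_le_mul_of_nonneg_right _ h0.le
  have h1 : ∏ P ∈ S \ S₀, (1 - ((Fintype.card F : ℝ) ^ (2 * P.1.natDegree))⁻¹) ≤
      ∏ P ∈ S \ S₀, muPc P M (c P) := by
    refine prod_le_prod (fun P _ => ?_) (fun P hP => ?_)
    · rw [sub_nonneg]
      apply inv_le_one_of_one_le₀
      exact one_le_pow₀ (by linarith)
    · rw [posc_muPc_triv P M (htr P (mem_sdiff.1 hP).2)]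
      exact posc_muP P hM
  refine le_trans ?_ ((heu F (S \ S₀)).trans h1)
  have h2 : (Fintype.card F : ℝ)⁻¹ ≤ 2⁻¹ := inv_anti₀ (by norm_num) hq2
  linarith

open Classical in
/-- the tail -/
theorem posc_tail (h2 : (2 : F) ≠ 0) (D n : ℕ) :
    ((((Sb F n).filter (fun f => MinS (PlD F D) n f)) \ Msh F n).card : ℝ) ≤
      2 * (1 / 2 : ℝ) ^ (9 * (D + 1)) * (Fintype.card F : ℝ) ^ (12 * n + 3) +
        3 * (Fintype.card F : ℝ) ^ (8 * n + 2) := by
  have h1 := Msh_ge (F := F) h2 D n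
  have hsub : Msh F n ⊆ (Sb F n).filter (fun f => MinS (PlD F D) n f) := by
    intro f hf
    rw [mem_Msh] at hf
    rw [mem_filter, mem_Sb]
    obtain ⟨h3, h4⟩ := (MinAll_crv h2).1 hf.2.2
    exact ⟨hf.1, fun P _ => h3 P, h4⟩
  have h3 := card_sdiff_add_card_eq_card hsub
  have h4 : ((((Sb F n).filter (fun f => MinS (PlD F D) n f)) \ Msh F n).card : ℝ) +
      ((Msh F n).card : ℝ) = (((Sb F n).filter (fun f => MinS (PlD F D) n f)).card : ℝ) := by
    exact_mod_cast h3
  linarith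

end

theorem t_posc : S_cardc → S_euler2 → S_posc := by
  classical
  intro hcard heu F _ _ h2 m S₀ c ci hc hci htr n₁ f₁ hf₁ hfam
  have hq2 : 2 ≤ (Fintype.card F : ℝ) := q_ge
  have hq0 : (0 : ℝ) < Fintype.card F := by linarith
  set M : ℕ := max 6 m with hMdef
  have hM : 6 ≤ M := le_max_left _ _
  have hm : m ≤ M := le_max_right _ _
  obtain ⟨hmin, hminX⟩ := (MinAll_crv h2).1 (mem_Msh.1 hf₁).2.2
  set μ : ℝ := (∏ P ∈ S₀, muPc P M (c P)) * muPc (PlX F) M ci with hμ
  have hμ0 : 0 < μ := by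
    refine mul_pos (prod_pos fun P _ => posc_muPc_pos P hM hm (hc P) (hmin P) (hfam.1 P)) ?_
    exact posc_muPc_pos (PlX F) hM hm hci hminX hfam.2
  obtain ⟨D, hD⟩ := exists_pow_lt_of_lt_one (show (0 : ℝ) < μ / 16 by positivity)
    (show (1 / 2 : ℝ) < 1 by norm_num)
  have hD2 : 2 * (1 / 2 : ℝ) ^ (9 * (D + 1)) ≤ μ / 8 := by
    have h3 : (1 / 2 : ℝ) ^ (9 * (D + 1)) ≤ (1 / 2 : ℝ) ^ D :=
      pow_le_pow_of_le_one (by norm_num) (by norm_num) (by omega)
    linarith
  set S : Finset (Pl F) := S₀ ∪ PlD F D with hS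
  refine ⟨μ / 4, by positivity, ?_⟩
  filter_upwards [disc0_small (F := F) (μ / 8) (by positivity), eventually_ge_atTop (dS S M)]
    with n hn1 hn2
  have h3 := hcard F h2 m c ci hc hci S M n hM hm (by omega)
  have h4 := posc_main heu hM S₀ S subset_union_left c ci htr hμ0
  have h5 := posc_tail (F := F) h2 D n
  set B : ℝ := (Fintype.card F : ℝ) ^ (12 * n + 3) with hB
  have hB0 : 0 < B := by rw [hB]; positivity
  have h6 : (Sb F n).filter (fun f => MinS S n f ∧ (∀ P ∈ S, c P f) ∧ ci (crev n f)) ⊆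
      (Msh F n).filter (fun f => Fam c ci n f) ∪
        ((Sb F n).filter (fun f => MinS (PlD F D) n f)) \ Msh F n := by
    intro f hf
    rw [mem_filter] at hf
    obtain ⟨hfS, hfm, hfc, hfi⟩ := hf
    rw [mem_union]
    by_cases hfM : f ∈ Msh F n
    · left
      rw [mem_filter]
      refine ⟨hfM, fun P => ?_, hfi⟩
      by_cases hP : P ∈ S₀
      · exact hfc P (mem_union_left _ hP)
      · exact htr P hP f
    · right
      exact Finset.mem_sdiff.2 ⟨Finset.mem_filter.2
        ⟨hfS, fun P hP => hfm.1 P (mem_union_right _ hP), hfm.2⟩, hfM⟩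
  have h7 := (card_le_card h6).trans (card_union_le _ _)
  have h8 : (((Sb F n).filter (fun f => MinS S n f ∧ (∀ P ∈ S, c P f) ∧ ci (crev n f))).card : ℝ) ≤
      (((Msh F n).filter (fun f => Fam c ci n f)).card : ℝ) +
        ((((Sb F n).filter (fun f => MinS (PlD F D) n f)) \ Msh F n).card : ℝ) := by
    exact_mod_cast h7
  have h9 := mul_le_mul_of_nonneg_right h4 hB0.le
  have h10 := mul_le_mul_of_nonneg_right hD2 hB0.le
  rw [h3] at h8
  linarith

end Pool.Agent.H456.BQ
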