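import Pool.Agent.H456.BQ.Cls2

/-!
# The boxes of quartics and the orbits
-/

set_option autoImplicit false

open Polynomial Finset
open Pool.Agent.H456.EC (toK toK_inj)
open Pool.Agent.H456.RN

namespace Pool.Agent.H456.BQ

section

variable {F : Type} [Field F]

/-- the degree conditions for `e ≤ n` -/
def BdN (n e : ℕ) (G : Q4 F[X]) : Prop :=
  G.A.natDegree ≤ 2 * n - 2 * e ∧ G.B.natDegree ≤ 2 * n - e ∧ G.C.natDegree ≤ 2 * n ∧ G.D.natDegree ≤ 2 * n + e ∧
    G.E.natDegree ≤ 2 * n + 2 * e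

theorem BdN_of {n e : ℕ} (he : e ≤ n) {G : Q4 F[X]} (h : Bd n e G) : BdN n e G := by
  have key : ∀ (x : F[X]) (z : ℤ) (k : ℕ), (x = 0 ∨ (x.natDegree : ℤ) ≤ z) → z = k → x.natDegree ≤ k := by
    intro x z k h hz
    rcases h with h | h
    · rw [h, natDegree_zero]; exact Nat.zero_le _
    · omega
  obtain ⟨h1, h2, h3, h4, h5⟩ := h
  exact ⟨key _ _ _ h1 (by omega), key _ _ _ h2 (by omega), key _ _ _ h3 (by omega), key _ _ _ h4 (by omega),
    key _ _ _ h5 (by omega)⟩

/-- degree of the constant coefficient of the resolvent -/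
theorem deg_res_c {n e : ℕ} (he : e ≤ n) {G : Q4 F[X]} (h : BdN n e G) : G.res.c.natDegree ≤ 6 * n := by
  obtain ⟨h1, h2, h3, h4, h5⟩ := h
  simp only [Q4.res]
  have e4 : (4 : F[X]) = C 4 := (map_ofNat C 4).symm
  rw [e4]
  refine (natDegree_sub_le _ _).trans (max_le ((natDegree_add_le _ _).trans (max_le ?_ ?_)) ?_)
  · refine natDegree_mul_le.trans ?_
    have := natDegree_pow_le (p := G.D) (n := 2)
    omega
  · refine natDegree_mul_le.trans ?_
    have := natDegree_pow_le (p := G.B) (n := 2)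
    omega
  · have k1 := natDegree_mul_le (p := C (4 : F) * G.A * G.C) (q := G.E)
    have k2 := natDegree_mul_le (p := C (4 : F) * G.A) (q := G.C)
    have k3 := natDegree_C_mul_le (4 : F) G.A
    omega

/-- the translation is a polynomial of degree at most `2n` -/
theorem rho_int {n : ℕ} {f : Cub F[X]} (hf : CDg n f) {G : Q4 F[X]} (hG : G.res.c.natDegree ≤ 6 * n)
    {ρ : RatFunc F} (h : (G.map (toK F)).res = ((f.map (toK F)).sc 4).tr ρ) :
    ∃ r : F[X], toK F r = ρ ∧ r.natDegree ≤ 2 * n := by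
  have hc := congrArg Cub.c h
  rw [Q4.map_res, Cub.tr_ev] at hc
  simp only [Cub.map, Cub.ev, Cub.sc] at hc
  have h1 : IsIntegral F[X] ρ := by
    refine ⟨X ^ 3 + C (4 * f.a) * X ^ 2 + C (16 * f.b) * X + C (64 * f.c - G.res.c), ?_, ?_⟩
    · have : (X ^ 3 + C (4 * f.a) * X ^ 2 + C (16 * f.b) * X + C (64 * f.c - G.res.c) : F[X][X]) =
        X ^ 3 + (C (4 * f.a) * X ^ 2 + C (16 * f.b) * X + C (64 * f.c - G.res.c)) := by ring
      rw [this]
      apply monic_X_pow_add
      compute_degree!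
    · rw [eval₂_add, eval₂_add, eval₂_add, eval₂_mul, eval₂_mul, eval₂_pow, eval₂_pow, eval₂_X, eval₂_C, eval₂_C,
        eval₂_C]
      change ρ ^ 3 + toK F (4 * f.a) * ρ ^ 2 + toK F (16 * f.b) * ρ + toK F (64 * f.c - G.res.c) = 0
      simp only [map_mul, map_sub, map_ofNat]
      linear_combination -hc
  obtain ⟨r, hr⟩ := IsIntegrallyClosed.algebraMap_eq_of_integral h1
  change toK F r = ρ at hr
  refine ⟨r, hr, ?_⟩
  have h3 : r ^ 3 = G.res.c - 64 * f.c - 16 * f.b * r - 4 * f.a * r ^ 2 := by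
    apply toK_inj
    simp only [map_mul, map_sub, map_ofNat, map_pow, hr]
    linear_combination -hc
  by_contra hlt
  push Not at hlt
  have l : (r ^ 3).natDegree = 3 * r.natDegree := natDegree_pow _ _
  have e4 : (4 : F[X]) = C 4 := (map_ofNat C 4).symm
  have e16 : (16 : F[X]) = C 16 := (map_ofNat C 16).symm
  have e64 : (64 : F[X]) = C 64 := (map_ofNat C 64).symm
  obtain ⟨f1, f2, f3⟩ := hf
  have u : (G.res.c - 64 * f.c - 16 * f.b * r - 4 * f.a * r ^ 2).natDegree ≤ 3 * r.natDegree - 1 := by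
    rw [e4, e16, e64]
    refine (natDegree_sub_le _ _).trans (max_le ((natDegree_sub_le _ _).trans (max_le ((natDegree_sub_le _ _).trans
      (max_le ?_ ?_)) ?_)) ?_)
    · omega
    · have := natDegree_C_mul_le (64 : F) f.c
      omega
    · have k1 := natDegree_mul_le (p := C (16 : F) * f.b) (q := r)
      have k2 := natDegree_C_mul_le (16 : F) f.b
      omega
    · have k1 := natDegree_mul_le (p := C (4 : F) * f.a) (q := r ^ 2)
      have k2 := natDegree_C_mul_le (4 : F) f.a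
      have k3 := natDegree_pow_le (p := r) (n := 2)
      omega
  rw [← h3, l] at u
  omega

/-- **existence of a representative** -/
theorem exists_Cl (h2 : (2 : F) ≠ 0) {n : ℕ} {f : Cub F[X]} (hf : f.disc ≠ 0) (hd : CDg n f) {σ : Q2 f}
    (hσ : σ ≠ 0) : ∃ e ≤ n, ∃ p ∈ Cl h2 hf σ, BdN n e p.1 ∧ p.2.natDegree ≤ 2 * n ∧ p.1.A ≠ 0 := by
  obtain ⟨x, y, hxy, rfl⟩ := exists_kP h2 hf hσ
  obtain ⟨e, G, hB, M, hM, hMG⟩ := exists_model hd hxy
  obtain ⟨ρ, r⟩ := exists_rep hM hMG
  have hA : G.A ≠ 0 := by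
    intro h0
    apply hσ
    have h1 := congrArg Q4.A hMG
    have h3 : ((gp (f.map (toK F)) x y).sub M).A = (gp (f.map (toK F)) x y).ev M.α M.γ := by
      simp only [Q4.sub, Q4.ev]; ring
    rw [h3] at h1
    have h4 : (gp (f.map (toK F)) x y).ev M.α M.γ = 0 := by
      rw [h1]; simp only [Q4.smul, Q4.map, h0, map_zero, mul_zero]
    have h5 : ¬ (M.α = 0 ∧ M.γ = 0) := by
      rintro ⟨a, b⟩
      apply hM
      simp only [M2.det, a, b]; ring
    exact kP_zero_of_root h2 hf hxy h5 h4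
  have he : e ≤ n := by
    rcases hB.1 with h | h
    · exact absurd h hA
    · omega
  have hBN := BdN_of he hB
  obtain ⟨r', hr', hdr⟩ := rho_int hd (deg_res_c he hBN) (r.res hxy)
  have r2 : Rep (f.map (toK F)) x y M (G.map (toK F)) (toK F r') := by rw [hr']; exact r
  exact ⟨e, he, (G, r'), ⟨x, y, M, hxy, r2, rfl⟩, hBN, hdr, hA⟩

end

section fin

variable {F : Type} [Field F] [Fintype F]

open Classical in
/-- the box of the quartics -/
noncomputable def Vb (F : Type) [Field F] [Fintype F] (n e : ℕ) : Finset (Q4 F[X]) :=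
  ((PL F (2 * n - 2 * e + 1)) ×ˢ (PL F (2 * n - e + 1)) ×ˢ (PL F (2 * n + 1)) ×ˢ (PL F (2 * n + e + 1)) ×ˢ
    (PL F (2 * n + 2 * e + 1))).image fun x => ⟨x.1, x.2.1, x.2.2.1, x.2.2.2.1, x.2.2.2.2⟩

theorem mem_PL_iff {k : ℕ} {x : F[X]} : x ∈ PL F (k + 1) ↔ x.natDegree ≤ k :=
  ⟨natDegree_le_of_mem_PL, fun h => mem_PL_of_natDegree (by omega)⟩

theorem mem_Vb {n e : ℕ} {G : Q4 F[X]} : G ∈ Vb F n e ↔ BdN n e G := by
  classical
  unfold Vb BdN
  rw [mem_image]
  constructor
  · rintro ⟨x, hx, rfl⟩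
    simp only [mem_product, mem_PL_iff] at hx
    exact hx
  · intro h
    refine ⟨(G.A, G.B, G.C, G.D, G.E), ?_, rfl⟩
    simp only [mem_product, mem_PL_iff]
    exact h

theorem sum_Vb {M : Type} [AddCommMonoid M] {n e : ℕ} (φ : Q4 F[X] → M) :
    ∑ G ∈ Vb F n e, φ G = ∑ A ∈ PL F (2 * n - 2 * e + 1), ∑ B ∈ PL F (2 * n - e + 1), ∑ c ∈ PL F (2 * n + 1),
      ∑ D ∈ PL F (2 * n + e + 1), ∑ E ∈ PL F (2 * n + 2 * e + 1), φ ⟨A, B, c, D, E⟩ := by
  classical
  unfold Vb
  rw [sum_image, sum_product]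
  · apply sum_congr rfl
    intro A _
    rw [sum_product]
    apply sum_congr rfl
    intro B _
    rw [sum_product]
    apply sum_congr rfl
    intro c _
    rw [sum_product]
  · rintro ⟨a, b, c, d, e⟩ _ ⟨a', b', c', d', e'⟩ _ h
    simp only [Q4.mk.injEq] at h
    obtain ⟨rfl, rfl, rfl, rfl, rfl⟩ := h
    rfl

theorem card_Vb {n e : ℕ} (he : e ≤ n) : (Vb F n e).card = Fintype.card F ^ (10 * n + 5) := by
  rw [card_eq_sum_ones, sum_Vb]
  simp only [sum_const, card_PL, smul_eq_mul, mul_one]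
  rw [← pow_add, ← pow_add, ← pow_add, ← pow_add]
  congr 1
  omega

open Classical in
/-- the substitutions -/
noncomputable def Tn (F : Type) [Field F] [Fintype F] (e : ℕ) : Finset (M2 F[X] × F) :=
  (((univ : Finset F).filter (· ≠ 0)) ×ˢ PL F (e + 1)).image (fun x => (⟨C x.1, x.2, 0, 1⟩, x.1)) ∪
  (if e = 0 then ((((univ : Finset F).filter (· ≠ 0)) ×ˢ ((univ : Finset F) ×ˢ (univ : Finset F))).image
    (fun x => (⟨C x.2.1, C (x.2.1 * x.2.2 - x.1), 1, C x.2.2⟩, x.1))) else ∅)

/-- the number of the substitutions -/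
noncomputable def pa (F : Type) [Fintype F] (e : ℕ) : ℝ :=
  if e = 0 then ((Fintype.card F : ℝ) - 1) * (Fintype.card F : ℝ) * ((Fintype.card F : ℝ) + 1)
  else ((Fintype.card F : ℝ) - 1) * (Fintype.card F : ℝ) ^ (e + 1)

theorem card_Tn (e : ℕ) : ((Tn F e).card : ℝ) = pa F e := by
  classical
  have hq : 1 ≤ Fintype.card F := Fintype.card_pos
  have h0 : ((univ : Finset F).filter (· ≠ 0)).card = Fintype.card F - 1 := by
    rw [filter_ne', card_erase_of_mem (mem_univ _), card_univ]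
  have h1 : ((((univ : Finset F).filter (· ≠ 0)) ×ˢ PL F (e + 1)).image
      (fun x => ((⟨C x.1, x.2, 0, 1⟩, x.1) : M2 F[X] × F))).card = (Fintype.card F - 1) * Fintype.card F ^ (e + 1) := by
    rw [card_image_of_injective, card_product, h0, card_PL]
    rintro ⟨a, b⟩ ⟨a', b'⟩ h
    simp only [Prod.mk.injEq, M2.mk.injEq] at h
    ext1
    · exact h.2
    · exact h.1.2.1
  unfold Tn pa
  split_ifs with he
  · subst he
    rw [card_union_of_disjoint, h1, card_image_of_injective, card_product, card_product, h0, card_univ]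
    · push_cast [Nat.cast_sub hq]
      ring
    · rintro ⟨a, b, c⟩ ⟨a', b', c'⟩ h
      simp only [Prod.mk.injEq, M2.mk.injEq] at h
      obtain ⟨⟨h1, h2, -, h3⟩, h4⟩ := h
      simp only [Prod.mk.injEq]
      exact ⟨h4, C_injective h1, C_injective h3⟩
    · rw [disjoint_left]
      intro x hx hx'
      rw [mem_image] at hx hx'
      obtain ⟨a, -, rfl⟩ := hx
      obtain ⟨b, -, hb⟩ := hx'
      simp only [Prod.mk.injEq, M2.mk.injEq] at hb
      exact one_ne_zero hb.1.2.2.1
  · rw [union_empty, h1]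
    push_cast [Nat.cast_sub hq]
    ring

theorem Tn_det {e : ℕ} {t : M2 F[X] × F} (ht : t ∈ Tn F e) : t.2 ≠ 0 ∧ t.1.det = C t.2 := by
  classical
  unfold Tn at ht
  rw [mem_union] at ht
  rcases ht with ht | ht
  · rw [mem_image] at ht
    obtain ⟨x, hx, rfl⟩ := ht
    rw [mem_product, mem_filter] at hx
    refine ⟨hx.1.2, ?_⟩
    simp only [M2.det]; ring
  · split_ifs at ht with he
    · rw [mem_image] at ht
      obtain ⟨x, hx, rfl⟩ := ht
      rw [mem_product, mem_filter] at hx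
      refine ⟨hx.1.2, ?_⟩
      simp only [M2.det, C_sub, C_mul]; ring
    · exact absurd ht (notMem_empty _)

/-- proportional substitutions are equal -/
theorem Tn_eq {e : ℕ} {t t' : M2 F[X] × F} (ht : t ∈ Tn F e) (ht' : t' ∈ Tn F e) {k : RatFunc F} (hk : k ≠ 0)
    (h : t.1.map (toK F) = (t'.1.map (toK F)).scal k) : t = t' := by
  classical
  have hk1 : k = 1 := by
    have h3 := congrArg M2.γ h
    have h4 := congrArg M2.δ h
    simp only [M2.map, M2.scal] at h3 h4
    have key : ∀ s ∈ Tn F e, (s.1.γ = 0 ∧ s.1.δ = 1) ∨ s.1.γ = 1 := by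
      intro s hs
      unfold Tn at hs
      rw [mem_union] at hs
      rcases hs with hs | hs
      · rw [mem_image] at hs
        obtain ⟨x, hx, rfl⟩ := hs
        exact Or.inl ⟨rfl, rfl⟩
      · split_ifs at hs with he
        · rw [mem_image] at hs
          obtain ⟨x, hx, rfl⟩ := hs
          exact Or.inr rfl
        · exact absurd hs (notMem_empty _)
    rcases key t ht with ⟨a, b⟩ | a <;> rcases key t' ht' with ⟨a', b'⟩ | a'
    · rw [b, b', map_one, mul_one] at h4
      exact h4.symm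
    · rw [a, a', map_one, map_zero, mul_one] at h3
      exact absurd h3.symm hk
    · rw [a, a', map_one, map_zero, mul_zero] at h3
      exact absurd h3 one_ne_zero
    · rw [a, a', map_one, mul_one] at h3
      exact h3.symm
  rw [hk1] at h
  have h1 : t.1 = t'.1 := by
    have k1 := congrArg M2.α h
    have k2 := congrArg M2.β h
    have k3 := congrArg M2.γ h
    have k4 := congrArg M2.δ h
    simp only [M2.map, M2.scal, one_mul] at k1 k2 k3 k4
    ext1
    · exact toK_inj k1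
    · exact toK_inj k2
    · exact toK_inj k3
    · exact toK_inj k4
  have h2 : t.2 = t'.2 := by
    apply C_injective
    rw [← (Tn_det ht).2, ← (Tn_det ht').2, h1]
  exact Prod.ext h1 h2

end fin

end Pool.Agent.H456.BQ
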