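import Pool.Agent.H456.BQ.SLow5
import Pool.Agent.H456.BQ.Out

/-!
# Families given by finitely many congruence conditions: definitions and statements
-/

set_option autoImplicit false
set_option linter.all false

open Polynomial Finset Filter
open Pool.Agent.H456.EC
open Pool.Agent.H456.RN

namespace Pool.Agent.H456.BQ

section

variable {F : Type} [Field F]

/-- a condition on cubics which depends only on the residues modulo `P ^ m` and is invariant under translations -/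
structure Cnd (P : F[X]) (m : ℕ) (c : Cub F[X] → Prop) : Prop where
  cong : ∀ f f' : Cub F[X], f.map (Ideal.Quotient.mk (Ideal.span {P ^ m})) =
    f'.map (Ideal.Quotient.mk (Ideal.span {P ^ m})) → (c f ↔ c f')
  tr : ∀ (f : Cub F[X]) (r : F[X]), c (f.tr r) ↔ c f

open Classical in
/-- the indicator of the condition on the residues modulo `P ^ M` -/
noncomputable def Tht (P : F[X]) (M : ℕ) (c : Cub F[X] → Prop) (g : Cub (Rq (P ^ M))) : ℝ :=
  if ∃ f : Cub F[X], f.map (Ideal.Quotient.mk (Ideal.span {P ^ M})) = g ∧ c f then 1 else 0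

theorem Tht_map {P : F[X]} {m M : ℕ} (hm : m ≤ M) {c : Cub F[X] → Prop} (h : Cnd P m c) (f : Cub F[X]) [Decidable (c f)] :
    Tht P M c (f.map (Ideal.Quotient.mk (Ideal.span {P ^ M}))) = if c f then 1 else 0 := by
  have key : (∃ f' : Cub F[X], f'.map (Ideal.Quotient.mk (Ideal.span {P ^ M})) =
      f.map (Ideal.Quotient.mk (Ideal.span {P ^ M})) ∧ c f') ↔ c f := by
    constructor
    · rintro ⟨f', he, hc⟩
      refine (h.cong f' f ?_).1 hc
      have hd : ∀ x y : F[X], Ideal.Quotient.mk (Ideal.span {P ^ M}) x = Ideal.Quotient.mk (Ideal.span {P ^ M}) y →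
          Ideal.Quotient.mk (Ideal.span {P ^ m}) x = Ideal.Quotient.mk (Ideal.span {P ^ m}) y := by
        intro x y hxy
        rw [Ideal.Quotient.eq, Ideal.mem_span_singleton] at hxy ⊢
        exact (pow_dvd_pow P hm).trans hxy
      have h1 := congrArg Cub.a he
      have h2 := congrArg Cub.b he
      have h3 := congrArg Cub.c he
      simp only [Cub.map] at h1 h2 h3
      ext
      · exact hd _ _ h1
      · exact hd _ _ h2
      · exact hd _ _ h3
    · exact fun hc => ⟨f, rfl, hc⟩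
  unfold Tht
  by_cases hc : c f
  · rw [if_pos (key.2 hc), if_pos hc]
  · rw [if_neg (fun h => hc (key.1 h)), if_neg hc]

theorem Tht_nonneg (P : F[X]) (M : ℕ) (c : Cub F[X] → Prop) (g : Cub (Rq (P ^ M))) : 0 ≤ Tht P M c g := by
  unfold Tht
  split_ifs <;> norm_num

theorem Tht_le (P : F[X]) (M : ℕ) (c : Cub F[X] → Prop) (g : Cub (Rq (P ^ M))) : Tht P M c g ≤ 1 := by
  unfold Tht
  split_ifs <;> norm_num

theorem Tht_tr {P : F[X]} {m M : ℕ} {c : Cub F[X] → Prop} (h : Cnd P m c) (g : Cub (Rq (P ^ M)))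
    (r : Rq (P ^ M)) : Tht P M c (g.tr r) = Tht P M c g := by
  obtain ⟨r, rfl⟩ := Ideal.Quotient.mk_surjective r
  have key : (∃ f : Cub F[X], f.map (Ideal.Quotient.mk (Ideal.span {P ^ M})) =
      g.tr (Ideal.Quotient.mk (Ideal.span {P ^ M}) r) ∧ c f) ↔
      (∃ f : Cub F[X], f.map (Ideal.Quotient.mk (Ideal.span {P ^ M})) = g ∧ c f) := by
    constructor
    · rintro ⟨f, he, hc⟩
      refine ⟨f.tr (-r), ?_, (h.tr f (-r)).2 hc⟩
      rw [Cub.map_tr, he, Cub.tr_tr, map_neg, add_neg_cancel, Cub.tr_zero]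
    · rintro ⟨f, he, hc⟩
      exact ⟨f.tr r, by rw [Cub.map_tr, he], (h.tr f r).2 hc⟩
  unfold Tht
  by_cases hc : ∃ f : Cub F[X], f.map (Ideal.Quotient.mk (Ideal.span {P ^ M})) = g ∧ c f
  · rw [if_pos (key.2 hc), if_pos hc]
  · rw [if_neg (fun h => hc (key.1 h)), if_neg hc]

end

variable {F : Type} [Field F] [Fintype F]

/-- the weight at `P` with the condition `c` -/
noncomputable def WPc (P : Pl F) (M : ℕ) (c : Cub F[X] → Prop) (g : Cub (Rq (P.1 ^ M))) : ℝ :=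
  Tht P.1 M c (g.sc (Ideal.Quotient.mk _ (C (4 : F)⁻¹))) * WP P M g

/-- the proportion of the cubics which are minimal at `P` and satisfy the condition `c` -/
noncomputable def muPc (P : Pl F) (M : ℕ) (c : Cub F[X] → Prop) : ℝ :=
  (∑ g : Cub (Rq (P.1 ^ M)), chi P M g * Tht P.1 M c g) / (((Fintype.card F : ℝ) ^ P.1.natDegree) ^ M) ^ 3

/-- the product of the proportions -/
noncomputable def muSc (S : Finset (Pl F)) (M : ℕ) (c : Pl F → Cub F[X] → Prop) (ci : Cub F[X] → Prop) : ℝ :=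
  (∏ P : S, muPc P.1 M (c P.1)) * muPc (PlX F) M ci

/-- the average of the weight -/
noncomputable def IPhc (S : Finset (Pl F)) (M : ℕ) (c : Pl F → Cub F[X] → Prop) (ci : Cub F[X] → Prop) : ℝ :=
  (∏ P ∈ S, (1 - ((Fintype.card F : ℝ) ^ (2 * P.1.natDegree))⁻¹)) * (1 - ((Fintype.card F : ℝ) ^ 2)⁻¹) * muSc S M c ci

/-- the condition on the cubics of height `n` -/
def Fam (c : Pl F → Cub F[X] → Prop) (ci : Cub F[X] → Prop) (n : ℕ) (f : Cub F[X]) : Prop :=
  (∀ P : Pl F, c P f) ∧ ci (crev n f)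

/-- **(XA1)** the average of the weight. -/
def S_avc : Prop := ∀ (F : Type) [Field F] [Fintype F], (2 : F) ≠ 0 → ∀ (m : ℕ) (c : Pl F → Cub F[X] → Prop)
  (ci : Cub F[X] → Prop), (∀ P, Cnd P.1 m (c P)) → Cnd X m ci → ∀ (S : Finset (Pl F)) (M : ℕ) (hM : 1 ≤ M) (n e : ℕ),
  m ≤ M → e ≤ n → dS S M ≤ 2 * n - 2 * e + 1 →
    AV n e (fun G => Ph S hM (fun P => WPc P M (c P)) (WPc (PlX F) M ci) (redV S M n e G)) = IPhc S M c ci

open Classical in
/-- **(XA2)** the number of the cubics with the condition which are minimal at the places of `S` and at infinity. -/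
def S_cardc : Prop := ∀ (F : Type) [Field F] [Fintype F], (2 : F) ≠ 0 → ∀ (m : ℕ) (c : Pl F → Cub F[X] → Prop)
  (ci : Cub F[X] → Prop), (∀ P, Cnd P.1 m (c P)) → Cnd X m ci → ∀ (S : Finset (Pl F)) (M n : ℕ), 6 ≤ M →
  m ≤ M → dS S M ≤ 2 * n + 1 →
    (((Sb F n).filter (fun f => MinS S n f ∧ (∀ P ∈ S, c P f) ∧ ci (crev n f))).card : ℝ) =
      muSc S M c ci * (Fintype.card F : ℝ) ^ (12 * n + 3)

open Classical in
/-- **(XB1)** comparison of two averages over the classes. -/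
def S_clsC : Prop := ∀ (F : Type) [Field F] [Fintype F], (2 : F) ≠ 0 → ∀ (w v : KC F → ℝ), (∀ κ, 0 ≤ w κ) →
  (∀ κ, 0 ≤ v κ) →
  (∀ ε : ℝ, 0 < ε → ∀ᶠ n in atTop, |∑ f ∈ (Msh F n).filter (fun f => ¬ BadC f), w (cls (crv f)) -
    ∑ f ∈ (Msh F n).filter (fun f => ¬ BadC f), v (cls (crv f))| ≤ ε * (Msh F n).card) →
  (∀ ε : ℝ, 0 < ε → ∀ᶠ n in atTop, ∑ f ∈ (Msh F n).filter (fun f => BadC f), w (cls (crv f)) ≤
    ε * (Fintype.card F : ℝ) ^ (12 * n + 3)) →
  (∀ ε : ℝ, 0 < ε → ∀ᶠ n in atTop, ∑ f ∈ (Msh F n).filter (fun f => BadC f), v (cls (crv f)) ≤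
    ε * (Fintype.card F : ℝ) ^ (12 * n + 3)) →
  (∀ᶠ n in atTop, (1 / 4 : ℝ) * (Fintype.card F : ℝ) ^ (12 * n + 3) ≤ (Msh F n).card) →
  ∀ ε : ℝ, 0 < ε → ∀ᶠ d in atTop, |∑ κ ∈ CL F d, w κ - ∑ κ ∈ CL F d, v κ| ≤ ε * (CL F d).card

open Classical in
/-- **(XB2)** positivity of an average over the classes. -/
def S_clsL : Prop := ∀ (F : Type) [Field F] [Fintype F], (2 : F) ≠ 0 → ∀ v : KC F → ℝ, (∀ κ, 0 ≤ v κ) → ∀ δ : ℝ, 0 < δ →
  (∀ᶠ n in atTop, δ * (Fintype.card F : ℝ) ^ (12 * n + 3) ≤ ∑ f ∈ Msh F n, v (cls (crv f))) →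
  ∃ δ' : ℝ, 0 < δ' ∧ ∀ᶠ d in atTop, δ' * (CL F d).card ≤ ∑ κ ∈ CL F d, v κ

open Classical in
/-- **(XC)** a nonempty family has positive density. -/
def S_posc : Prop := ∀ (F : Type) [Field F] [Fintype F], (2 : F) ≠ 0 → ∀ (m : ℕ) (S₀ : Finset (Pl F))
  (c : Pl F → Cub F[X] → Prop) (ci : Cub F[X] → Prop), (∀ P, Cnd P.1 m (c P)) → Cnd X m ci →
  (∀ P, P ∉ S₀ → ∀ f, c P f) → ∀ (n₁ : ℕ) (f₁ : Cub F[X]), f₁ ∈ Msh F n₁ → Fam c ci n₁ f₁ →
  ∃ δ : ℝ, 0 < δ ∧ ∀ᶠ n in atTop, δ * (Fintype.card F : ℝ) ^ (12 * n + 3) ≤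
    (((Msh F n).filter (fun f => Fam c ci n f)).card : ℝ)

/-- `W` is an equation of least height of its class -/
def Least (F : Type) [Field F] (d : ℕ) (W : WeierstrassCurve F[X]) : Prop :=
  W ∈ Eqn F d ∧ ∀ e < d, cls W ∉ cls '' Eqn F e

/-- the set `U` of classes is defined by finitely many congruence conditions: there are `N ≠ 0` and `j` such that for two
equations of least heights `d`, `d'` which are congruent modulo `N` and, in the coordinate `1/t`, modulo `t^(-j)`, one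
class is in `U` if and only if the other one is -/
def IsCongr (F : Type) [Field F] (U : Set (KC F)) : Prop :=
  ∃ (N : F[X]) (j : ℕ), N ≠ 0 ∧ ∀ (d d' : ℕ) (W W' : WeierstrassCurve F[X]), Least F d W → Least F d' W' →
    W.map (Ideal.Quotient.mk (Ideal.span {N})) = W'.map (Ideal.Quotient.mk (Ideal.span {N})) →
    (rev d W).map (Ideal.Quotient.mk (Ideal.span {(X : F[X]) ^ j})) =
      (rev d' W').map (Ideal.Quotient.mk (Ideal.span {(X : F[X]) ^ j})) → (cls W ∈ U ↔ cls W' ∈ U)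

/-- **(XD)** the congruence conditions in terms of the residues of the cubics. -/
def S_congr : Prop := ∀ (F : Type) [Field F] [Fintype F], (2 : F) ≠ 0 → ∀ U : Set (KC F), IsCongr F U →
  ∃ (S₀ : Finset (Pl F)) (m n₀ : ℕ) (T : Cub (RB S₀ m) → Prop), (∀ g r, T (g.tr r) ↔ T g) ∧
    (∀ n, ∀ f ∈ Msh F n, cls (crv f) ∈ U → T (redC S₀ m n f)) ∧
    (∀ n ≥ n₀, ∀ f ∈ Msh F n, T (redC S₀ m n f) → cls (crv f) ∈ U)

end Pool.Agent.H456.BQ
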