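import Pool.Agent.H456.BQ.XUp

/-!
# The average over the families given by congruence conditions
-/

set_option autoImplicit false
set_option linter.all false

open Polynomial Finset Filter
open Pool.Agent.H456.EC (toK toK_inj sig toK_eq reflect_toK)
open Pool.Agent.H456.RN

namespace Pool.Agent.H456.BQ

variable {F : Type} [Field F] [Fintype F]

/-- the condition at `P` of the orbit of `g` -/
def cOf {S₀ : Finset (Pl F)} {m : ℕ} (g : Cub (RB S₀ m)) (P : Pl F) (f : Cub F[X]) : Prop :=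
  ∀ h : P ∈ S₀, ∃ r : F[X], f.map (Ideal.Quotient.mk (Ideal.span {P.1 ^ m})) =
    (g.at ⟨P, h⟩).tr (Ideal.Quotient.mk (Ideal.span {P.1 ^ m}) r)

/-- the condition at infinity of the orbit of `g` -/
def ciOf {S₀ : Finset (Pl F)} {m : ℕ} (g : Cub (RB S₀ m)) (f : Cub F[X]) : Prop :=
  ∃ r : F[X], f.map (Ideal.Quotient.mk (Ideal.span {(X : F[X]) ^ m})) =
    g.inf.tr (Ideal.Quotient.mk (Ideal.span {(X : F[X]) ^ m}) r)

theorem cnd_aux {P : F[X]} {m : ℕ} (g : Cub (Rq (P ^ m))) : Cnd P m (fun f => ∃ r : F[X],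
    f.map (Ideal.Quotient.mk (Ideal.span {P ^ m})) = g.tr (Ideal.Quotient.mk (Ideal.span {P ^ m}) r)) where
  cong f f' h := by rw [h]
  tr f s := by
    constructor
    · rintro ⟨r, h⟩
      refine ⟨r - s, ?_⟩
      rw [Cub.map_tr] at h
      have h1 := congrArg (fun x => x.tr (-(Ideal.Quotient.mk (Ideal.span {P ^ m}) s))) h
      simp only [Cub.tr_tr, add_neg_cancel, Cub.tr_zero] at h1
      rw [h1, map_sub, sub_eq_add_neg]
    · rintro ⟨r, h⟩
      refine ⟨r + s, ?_⟩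
      rw [Cub.map_tr, h, Cub.tr_tr, map_add]

theorem cOf_cnd {S₀ : Finset (Pl F)} {m : ℕ} (g : Cub (RB S₀ m)) (P : Pl F) : Cnd P.1 m (cOf g P) := by
  by_cases h : P ∈ S₀
  · have e : cOf g P = fun f => ∃ r : F[X], f.map (Ideal.Quotient.mk (Ideal.span {P.1 ^ m})) =
        (g.at ⟨P, h⟩).tr (Ideal.Quotient.mk (Ideal.span {P.1 ^ m}) r) := by
      funext f
      exact propext ⟨fun h' => h' h, fun h' _ => h'⟩
    rw [e]
    exact cnd_aux _
  · exact ⟨fun f f' _ => ⟨fun _ h' => absurd h' h, fun _ h' => absurd h' h⟩,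
      fun f r => ⟨fun _ h' => absurd h' h, fun _ h' => absurd h' h⟩⟩

theorem ciOf_cnd {S₀ : Finset (Pl F)} {m : ℕ} (g : Cub (RB S₀ m)) : Cnd (X : F[X]) m (ciOf g) := cnd_aux _

theorem cOf_true {S₀ : Finset (Pl F)} {m : ℕ} (g : Cub (RB S₀ m)) (P : Pl F) (hP : P ∉ S₀) (f : Cub F[X]) : cOf g P f :=
  fun h => absurd h hP

/-- the cell of `g` -/
theorem Fam_iff {S₀ : Finset (Pl F)} {m : ℕ} (g : Cub (RB S₀ m)) (n : ℕ) (f : Cub F[X]) :
    Fam (cOf g) (ciOf g) n f ↔ ∃ r : RB S₀ m, redC S₀ m n f = g.tr r := by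
  constructor
  · rintro ⟨h1, ⟨ri, h2⟩⟩
    choose r hr using fun P : S₀ => h1 P.1 P.2
    refine ⟨(fun P => Ideal.Quotient.mk _ (r P), Ideal.Quotient.mk _ ri), ?_⟩
    apply (Cub.split S₀ m).injective
    refine Prod.ext ?_ ?_
    · funext P
      exact hr P
    · exact h2
  · rintro ⟨r, h⟩
    refine ⟨fun P hP => ?_, ?_⟩
    · obtain ⟨s, hs⟩ := Ideal.Quotient.mk_surjective (r.1 ⟨P, hP⟩)
      refine ⟨s, ?_⟩
      rw [hs]
      exact congrArg (fun x => Cub.at x ⟨P, hP⟩) h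
    · obtain ⟨s, hs⟩ := Ideal.Quotient.mk_surjective r.2
      refine ⟨s, ?_⟩
      rw [hs]
      exact congrArg Cub.inf h

/-- the orbits of the translations -/
def trSetoid (R : Type) [CommRing R] : Setoid (Cub R) where
  r g g' := ∃ r, g' = g.tr r
  iseqv :=
    { refl := fun g => ⟨0, (Cub.tr_zero g).symm⟩
      symm := by
        rintro g g' ⟨r, rfl⟩
        exact ⟨-r, by rw [Cub.tr_tr, add_neg_cancel, Cub.tr_zero]⟩
      trans := by
        rintro g g' g'' ⟨r, rfl⟩ ⟨s, rfl⟩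
        exact ⟨r + s, by rw [Cub.tr_tr]⟩ }

open Classical in
theorem fam_upper (U : HypU) (hav : S_avc) (hcd : S_cardc) (h2 : (2 : F) ≠ 0) {S₀ : Finset (Pl F)} {m : ℕ}
    (T : Cub (RB S₀ m) → Prop) (hT : ∀ g r, T (g.tr r) ↔ T g) (ε : ℝ) (hε : 0 < ε) :
    ∀ᶠ n in atTop, ∑ f ∈ (Msh F n).filter (fun f => ¬ BadC f ∧ T (redC S₀ m n f)),
      ((Nat.card (Sel (f.map (toK F))) : ℝ) - 1) ≤
      2 * (((Msh F n).filter (fun f => T (redC S₀ m n f))).card : ℝ) + ε * (Fintype.card F : ℝ) ^ (12 * n + 3) := by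
  have hq2 : 2 ≤ (Fintype.card F : ℝ) := q_ge
  have hq0 : (0 : ℝ) < Fintype.card F := by linarith
  let Q := Quotient (trSetoid (RB S₀ m))
  haveI : Finite Q := inferInstanceAs (Finite (Quotient (trSetoid (RB S₀ m))))
  haveI : Fintype Q := Fintype.ofFinite Q
  let T' : Q → Prop := fun o => T (Quotient.out o)
  let cl : Cub (RB S₀ m) → Q := fun g => Quotient.mk (trSetoid (RB S₀ m)) g
  have hcl : ∀ g g', cl g = cl g' ↔ ∃ r, g' = g.tr r := fun g g' => Quotient.eq (r := trSetoid (RB S₀ m))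
  have hout : ∀ o : Q, cl (Quotient.out o) = o := fun o => Quotient.out_eq o
  have hTT : ∀ g, T g ↔ T' (cl g) := by
    intro g
    obtain ⟨r, hr⟩ := (hcl _ _).1 (hout (cl g))
    have h := hT (Quotient.out (cl g)) r
    rw [← hr] at h
    exact h
  set ε' : ℝ := ε / (Fintype.card Q + 1) with hε'
  have hε'0 : 0 < ε' := by positivity
  have hall : ∀ᶠ n in atTop, ∀ o ∈ (univ : Finset Q), ∀ (s s' : Finset (Cub F[X])),
      (∀ f, f ∈ s ↔ f ∈ Msh F n ∧ ¬ BadC f ∧ Fam (cOf (Quotient.out o)) (ciOf (Quotient.out o)) n f) →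
      (∀ f, f ∈ s' ↔ f ∈ Msh F n ∧ Fam (cOf (Quotient.out o)) (ciOf (Quotient.out o)) n f) →
      ∑ f ∈ s, ((Nat.card (Sel (f.map (toK F))) : ℝ) - 1) ≤
        2 * s'.card + ε' * (Fintype.card F : ℝ) ^ (12 * n + 3) := by
    rw [eventually_all_finset]
    intro o _
    exact H1C U hav hcd h2 (cOf_cnd _) (ciOf_cnd _) (cOf_true _) ε' hε'0
  filter_upwards [hall] with n hn
  have hfam : ∀ (o : Q) (f : Cub F[X]), Fam (cOf (Quotient.out o)) (ciOf (Quotient.out o)) n f ↔
      cl (redC S₀ m n f) = o := by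
    intro o f
    rw [Fam_iff]
    constructor
    · rintro ⟨r, hr⟩
      rw [← hout o]
      exact ((hcl _ _).2 ⟨r, hr⟩).symm
    · intro h
      rw [← hout o] at h
      exact (hcl _ _).1 h.symm
  have h1 : ∑ f ∈ (Msh F n).filter (fun f => ¬ BadC f ∧ T (redC S₀ m n f)), ((Nat.card (Sel (f.map (toK F))) : ℝ) - 1) =
      ∑ o ∈ (univ : Finset Q).filter T', ∑ f ∈ (Msh F n).filter (fun f => ¬ BadC f ∧ cl (redC S₀ m n f) = o),
        ((Nat.card (Sel (f.map (toK F))) : ℝ) - 1) := by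
    rw [← sum_fiberwise_of_maps_to (s := (Msh F n).filter (fun f => ¬ BadC f ∧ T (redC S₀ m n f)))
      (t := (univ : Finset Q).filter T') (g := fun f => cl (redC S₀ m n f))]
    · apply sum_congr rfl
      intro o ho
      apply sum_congr _ (fun _ _ => rfl)
      ext f
      simp only [mem_filter]
      constructor
      · rintro ⟨⟨a, b, c⟩, d⟩
        exact ⟨a, b, d⟩
      · rintro ⟨a, b, c⟩
        refine ⟨⟨a, b, ?_⟩, c⟩
        rw [hTT, c]
        exact (mem_filter.1 ho).2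
    · intro f hf
      rw [mem_filter] at hf ⊢
      exact ⟨mem_univ _, (hTT _).1 hf.2.2⟩
  have h3 : (((Msh F n).filter (fun f => T (redC S₀ m n f))).card : ℝ) =
      ∑ o ∈ (univ : Finset Q).filter T', (((Msh F n).filter (fun f => cl (redC S₀ m n f) = o)).card : ℝ) := by
    have h4 := card_eq_sum_card_fiberwise (s := (Msh F n).filter (fun f => T (redC S₀ m n f)))
      (t := (univ : Finset Q).filter T') (f := fun f => cl (redC S₀ m n f)) (by
        intro f hf
        have hf' := (mem_filter.1 (mem_coe.1 hf))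
        exact mem_coe.2 (mem_filter.2 ⟨mem_univ _, (hTT _).1 hf'.2⟩))
    rw [h4]
    push_cast
    apply sum_congr rfl
    intro o ho
    congr 2
    ext f
    simp only [mem_filter]
    constructor
    · rintro ⟨⟨a, b⟩, c⟩
      exact ⟨a, c⟩
    · rintro ⟨a, b⟩
      refine ⟨⟨a, ?_⟩, b⟩
      rw [hTT, b]
      exact (mem_filter.1 ho).2
  rw [h1, h3, mul_sum]
  have h5 : ∑ o ∈ (univ : Finset Q).filter T', ∑ f ∈ (Msh F n).filter (fun f => ¬ BadC f ∧ cl (redC S₀ m n f) = o),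
        ((Nat.card (Sel (f.map (toK F))) : ℝ) - 1) ≤
      ∑ o ∈ (univ : Finset Q).filter T', (2 * (((Msh F n).filter (fun f => cl (redC S₀ m n f) = o)).card : ℝ) +
        ε' * (Fintype.card F : ℝ) ^ (12 * n + 3)) := by
    apply sum_le_sum
    intro o _
    apply hn o (mem_univ _)
    · intro f
      rw [mem_filter, hfam]
    · intro f
      rw [mem_filter, hfam]
  rw [sum_add_distrib, sum_const, nsmul_eq_mul] at h5
  have h6 : (((univ : Finset Q).filter T').card : ℝ) * (ε' * (Fintype.card F : ℝ) ^ (12 * n + 3)) ≤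
      ε * (Fintype.card F : ℝ) ^ (12 * n + 3) := by
    have h7 : (((univ : Finset Q).filter T').card : ℝ) ≤ Fintype.card Q + 1 := by
      have : ((univ : Finset Q).filter T').card ≤ Fintype.card Q := card_filter_le _ _
      have h8 : (((univ : Finset Q).filter T').card : ℝ) ≤ Fintype.card Q := by exact_mod_cast this
      linarith
    have h9 : ((Fintype.card Q : ℝ) + 1) * (ε' * (Fintype.card F : ℝ) ^ (12 * n + 3)) =
        ε * (Fintype.card F : ℝ) ^ (12 * n + 3) := by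
      rw [hε']
      field_simp
    rw [← h9]
    exact mul_le_mul_of_nonneg_right h7 (by positivity)
  linarith

open Classical in
/-- **the average over the family** -/
theorem fam_limit (U : HypU) (L : HypL) (hav : S_avc) (hcd : S_cardc) (h2 : (2 : F) ≠ 0) {S₀ : Finset (Pl F)} {m : ℕ}
    (T : Cub (RB S₀ m) → Prop) (hT : ∀ g r, T (g.tr r) ↔ T g) (ε : ℝ) (hε : 0 < ε) :
    ∀ᶠ n in atTop, |∑ f ∈ (Msh F n).filter (fun f => ¬ BadC f ∧ T (redC S₀ m n f)),
      ((Nat.card (Sel (f.map (toK F))) : ℝ) - 1) -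
      2 * (((Msh F n).filter (fun f => T (redC S₀ m n f))).card : ℝ)| ≤ ε * (Msh F n).card := by
  have hq2 : 2 ≤ (Fintype.card F : ℝ) := q_ge
  have hq0 : (0 : ℝ) < Fintype.card F := by linarith
  have a1 := fam_upper U hav hcd h2 T hT (ε / 8) (by positivity)
  have a2 := fam_upper U hav hcd h2 (fun g => ¬ T g) (fun g r => not_congr (hT g r)) (ε / 8) (by positivity)
  have a3 := H1L U L h2 (ε / 2) (by positivity) (F := F)
  filter_upwards [a1, a2, a3, H3 (F := F) h2] with n b1 b2 b3 b4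
  have b5 := b3 ((Msh F n).filter (fun f => ¬ BadC f)) (fun f => mem_filter)
  have b2' : ∑ f ∈ (Msh F n).filter (fun f => ¬ BadC f ∧ ¬ T (redC S₀ m n f)), ((Nat.card (Sel (f.map (toK F))) : ℝ) - 1) ≤
      2 * (((Msh F n).filter (fun f => ¬ T (redC S₀ m n f))).card : ℝ) + ε / 8 * (Fintype.card F : ℝ) ^ (12 * n + 3) := by
    convert b2
  have hB : ε / 8 * (Fintype.card F : ℝ) ^ (12 * n + 3) ≤ ε / 2 * (Msh F n).card := by
    have : (Fintype.card F : ℝ) ^ (12 * n + 3) ≤ 4 * (Msh F n).card := by linarith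
    nlinarith [mul_le_mul_of_nonneg_left this (by positivity : (0 : ℝ) ≤ ε / 8)]
  have e1 : ∑ f ∈ (Msh F n).filter (fun f => ¬ BadC f), ((Nat.card (Sel (f.map (toK F))) : ℝ) - 1) =
      ∑ f ∈ (Msh F n).filter (fun f => ¬ BadC f ∧ T (redC S₀ m n f)), ((Nat.card (Sel (f.map (toK F))) : ℝ) - 1) +
      ∑ f ∈ (Msh F n).filter (fun f => ¬ BadC f ∧ ¬ T (redC S₀ m n f)), ((Nat.card (Sel (f.map (toK F))) : ℝ) - 1) := by
    rw [← sum_filter_add_sum_filter_not ((Msh F n).filter (fun f => ¬ BadC f)) (fun f => T (redC S₀ m n f)), filter_filter,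
      filter_filter]
  have e2 : ((Msh F n).card : ℝ) = (((Msh F n).filter (fun f => T (redC S₀ m n f))).card : ℝ) +
      (((Msh F n).filter (fun f => ¬ T (redC S₀ m n f))).card : ℝ) := by
    have := card_filter_add_card_filter_not (s := Msh F n) (fun f => T (redC S₀ m n f))
    exact_mod_cast this.symm
  rw [abs_le]
  have hM0 : (0 : ℝ) ≤ (Msh F n).card := Nat.cast_nonneg _
  have hεM : 0 ≤ ε / 2 * ((Msh F n).card : ℝ) := by positivity
  have e3 : (2 - ε / 2) * ((Msh F n).card : ℝ) = 2 * (Msh F n).card - ε / 2 * (Msh F n).card := by ring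
  have e4 : ε * ((Msh F n).card : ℝ) = ε / 2 * (Msh F n).card + ε / 2 * (Msh F n).card := by ring
  constructor
  · linarith
  · linarith

end Pool.Agent.H456.BQ
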