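import Pool.Agent.H456.BQ.XDef

/-!
# The upper bound for the families given by congruence conditions
-/

set_option autoImplicit false
set_option linter.all false

open Polynomial Finset Filter
open Pool.Agent.H456.EC (toK toK_inj sig toK_eq reflect_toK)
open Pool.Agent.H456.RN

namespace Pool.Agent.H456.BQ

variable {F : Type} [Field F] [Fintype F]

theorem WPc_nonneg (P : Pl F) (M : ℕ) (c : Cub F[X] → Prop) (g : Cub (Rq (P.1 ^ M))) : 0 ≤ WPc P M c g :=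
  mul_nonneg (Tht_nonneg _ _ _ _) (WP_nonneg _ _ _)

theorem WPc_eq (h2 : (2 : F) ≠ 0) {P : Pl F} {m M : ℕ} (hM : 6 ≤ M) (hm : m ≤ M) {c : Cub F[X] → Prop}
    (hc : Cnd P.1 m c) {f : Cub F[X]} (hf : ¬ NMc P.1 f) (hcf : c f) (r : F[X]) :
    (1 + ((f.map (Ideal.Quotient.mk (Ideal.span {P.1 ^ M}))).nA : ℝ) /
        ((Fintype.card F : ℝ) ^ P.1.natDegree) ^ (M - 1))⁻¹ =
      WPc P M c (((f.sc 4).tr r).map (Ideal.Quotient.mk (Ideal.span {P.1 ^ M}))) := by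
  classical
  have e1 : (((f.sc 4).tr r).map (Ideal.Quotient.mk (Ideal.span {P.1 ^ M}))).sc (Ideal.Quotient.mk _ (C (4 : F)⁻¹)) =
      (f.map (Ideal.Quotient.mk (Ideal.span {P.1 ^ M}))).tr (Ideal.Quotient.mk _ (C (4 : F)⁻¹) * Ideal.Quotient.mk _ r) := by
    rw [Cub.map_tr, Cub.map_sc, Cub.sc_tr, Cub.sc_sc, map_ofNat, mul_comm (4 : Rq (P.1 ^ M)), i4_mul h2, Cub.sc_one]
  unfold WPc
  rw [e1, Tht_tr hc, Tht_map hm hc, if_pos hcf, one_mul]
  exact WP_eq h2 hM hf r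

/-- the weight used in the counting -/
noncomputable def phic (c : Pl F → Cub F[X] → Prop) (ci : Cub F[X] → Prop) (S : Finset (Pl F)) {M : ℕ} (hM : 1 ≤ M)
    (j n e : ℕ) (G : Q4 F[X]) : ℝ :=
  Ph S hM (fun P => WPc P M (c P)) (WPc (PlX F) M ci) (redV S M n e G) + uc S j n e G

theorem Phc_nonneg (c : Pl F → Cub F[X] → Prop) (ci : Cub F[X] → Prop) {S : Finset (Pl F)} {M : ℕ} (hM : 1 ≤ M)
    (g : Q4 (RB S M)) : 0 ≤ Ph S hM (fun P => WPc P M (c P)) (WPc (PlX F) M ci) g := by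
  unfold Ph phP phX
  exact mul_nonneg (prod_nonneg fun P _ => mul_nonneg (Nat.cast_nonneg _) (WPc_nonneg _ _ _ _))
    (mul_nonneg (Nat.cast_nonneg _) (WPc_nonneg _ _ _ _))

/-- the weighted number of the representatives of a class -/
theorem phi_geC (U : HypU) (h2 : (2 : F) ≠ 0) {n m M k : ℕ} (hk : 2 * k + 1 ≤ M) (hM6 : 6 ≤ M) (hM : 1 ≤ M) (hm : m ≤ M)
    {c : Pl F → Cub F[X] → Prop} {ci : Cub F[X] → Prop} (hc : ∀ P, Cnd P.1 m (c P)) (hci : Cnd X m ci)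
    (S : Finset (Pl F)) {f : Cub F[X]} (hf : f.disc ≠ 0) (hd : CDg n f) (hn : NoTwo f)
    (hmin : (∀ P : Pl F, ¬ NMc P.1 f) ∧ ¬ NMc X (crev n f)) (hF : Fam c ci n f) {σ : Sel (f.map (toK F))} (hσ : σ ≠ 0) :
    1 ≤ ∑ e ∈ range (n + 1), ∑ p ∈ PnS n e f σ, phic c ci S hM (k + 1) n e p.1 / pa F e := by
  by_cases hcc : (∃ P ∈ S, P.1 ^ (k + 1) ∣ f.disc) ∨ X ^ (k + 1) ∣ (crev n f).disc
  · refine (one_le_paS U h2 hd hf hn hσ).trans ?_
    apply sum_le_sum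
    intro e he
    apply sum_le_sum
    intro p hp
    apply div_le_div_of_nonneg_right _ (pa_pos e).le
    have h1 := uc_geS h2 (Nat.lt_succ_iff.1 (mem_range.1 he)) hd hp hcc
    have h3 := Phc_nonneg c ci hM (redV S M n e p.1)
    unfold phic
    linarith
  · push Not at hcc
    have hWX : ∀ r : F[X], (1 + (((crev n f).map (Ideal.Quotient.mk (Ideal.span {(X : F[X]) ^ M}))).nA : ℝ) /
        (Fintype.card F : ℝ) ^ (M - 1))⁻¹ ≤
        WPc (PlX F) M ci ((((crev n f).sc 4).tr r).map (Ideal.Quotient.mk (Ideal.span {(X : F[X]) ^ M}))) := by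
      intro r
      have h1 := WPc_eq h2 (P := PlX F) hM6 hm hci (f := crev n f) hmin.2 hF.2 r
      have e1 : (PlX F).1.natDegree = 1 := natDegree_X
      rw [e1, pow_one] at h1
      exact le_of_eq h1
    have h1 := glue_sumS U h2 hk hM S hf hd hn
      hcc.1 hcc.2 (W := fun P => WPc P M (c P)) (Wi := WPc (PlX F) M ci)
      (fun P g => WPc_nonneg P M _ g) (fun g => WPc_nonneg (PlX F) M _ g)
      (fun P _ r => le_of_eq (WPc_eq h2 hM6 hm (hc P) (hmin.1 P) (hF.1 P) r)) hWX hσ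
    refine h1.trans ?_
    apply sum_le_sum
    intro e he
    apply sum_le_sum
    intro p hp
    apply div_le_div_of_nonneg_right _ (pa_pos e).le
    have h3 := uc_nonneg S (k + 1) n e p.1
    unfold phic
    linarith

open Classical in
theorem count_phiC (U : HypU) (h2 : (2 : F) ≠ 0) {n m M k : ℕ} (hk : 2 * k + 1 ≤ M) (hM6 : 6 ≤ M) (hM : 1 ≤ M) (hm : m ≤ M)
    {c : Pl F → Cub F[X] → Prop} {ci : Cub F[X] → Prop} (hc : ∀ P, Cnd P.1 m (c P)) (hci : Cnd X m ci)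
    (S : Finset (Pl F)) : ∑ f ∈ (Msh F n).filter (fun f => ¬ BadC f ∧ Fam c ci n f),
      ((Nat.card (Sel (f.map (toK F))) : ℝ) - 1) ≤
      Tot (fun n e G => phic c ci S hM (k + 1) n e G) n * (Fintype.card F : ℝ) ^ (12 * n + 3) := by
  have hq2 : 2 ≤ (Fintype.card F : ℝ) := q_ge
  have hφ0 : ∀ n e G, 0 ≤ phic c ci S hM (k + 1) n e G := by
    intro n e G
    unfold phic
    exact add_nonneg (Phc_nonneg _ _ _ _) (uc_nonneg _ _ _ _ _)
  have h1 := (countS h2 (n := n) ((Msh F n).filter (fun f => ¬ BadC f ∧ Fam c ci n f))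
    (fun e G => phic c ci S hM (k + 1) n e G / pa F e)
    (fun e G => div_nonneg (hφ0 n e G) (pa_pos e).le) ?_).2
  · refine h1.trans (le_of_eq ?_)
    unfold Tot
    rw [div_mul_cancel₀ _ (by positivity)]
  · intro f hf σ hσ
    rw [mem_filter, mem_Msh] at hf
    obtain ⟨⟨hd, hf', hm'⟩, hb, hF⟩ := hf
    have hn : NoTwo f := fun r hr => hb (Or.inr ⟨r, hr⟩)
    exact phi_geC U h2 hk hM6 hM hm hc hci S hf' hd hn ((MinAll_crv h2).1 hm') hF hσ

/-- **the upper bound** for given places -/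
theorem upperC (U : HypU) (hav : S_avc) (h2 : (2 : F) ≠ 0) {m : ℕ} {c : Pl F → Cub F[X] → Prop} {ci : Cub F[X] → Prop}
    (hc : ∀ P, Cnd P.1 m (c P)) (hci : Cnd X m ci) (S : Finset (Pl F)) (ε : ℝ) (hε : 0 < ε) : ∃ M : ℕ, 6 ≤ M ∧ m ≤ M ∧
    ∀ᶠ n in atTop, ∀ (s : Finset (Cub F[X])), (∀ f, f ∈ s ↔ f ∈ Msh F n ∧ ¬ BadC f ∧ Fam c ci n f) →
      ∑ f ∈ s, ((Nat.card (Sel (f.map (toK F))) : ℝ) - 1) ≤ ((Fintype.card F : ℝ) ^ 3 *
        ((IPhc S M c ci + ε) * (2 / (((Fintype.card F : ℝ) - 1) ^ 2 * ((Fintype.card F : ℝ) + 1)))) + ε) *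
        (Fintype.card F : ℝ) ^ (12 * n + 3) := by
  classical
  have hq2 : 2 ≤ (Fintype.card F : ℝ) := q_ge
  have hq0 : (0 : ℝ) < Fintype.card F := by linarith
  have hq1 : (0 : ℝ) < (Fintype.card F : ℝ) - 1 := by linarith
  obtain ⟨k, hk⟩ := uc_small U.disc4 h2 S ε hε
  set M : ℕ := max (max 6 m) (2 * k + 1) with hMdef
  have hM6 : 6 ≤ M := (le_max_left _ _).trans (le_max_left _ _)
  have hm : m ≤ M := (le_max_right _ _).trans (le_max_left _ _)
  have hMk : 2 * k + 1 ≤ M := le_max_right _ _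
  have hM : 1 ≤ M := by omega
  refine ⟨M, hM6, hm, ?_⟩
  set φ : ℕ → ℕ → Q4 F[X] → ℝ := fun n e G => phic c ci S hM (k + 1) n e G with hφ
  have hφ0 : ∀ n e G, 0 ≤ φ n e G := by
    intro n e G
    exact add_nonneg (Phc_nonneg _ _ _ _) (uc_nonneg _ _ _ _ _)
  have hφc : ∀ n e G, φ n e G ≤ (∑ g, Ph S hM (fun P => WPc P M (c P)) (WPc (PlX F) M ci) g) + (S.card + 1) := by
    intro n e G
    apply add_le_add
    · exact single_le_sum (f := fun g => Ph S hM (fun P => WPc P M (c P)) (WPc (PlX F) M ci) g)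
        (fun g _ => Phc_nonneg c ci hM g) (mem_univ (redV S M n e G))
    · exact uc_le _ _ _ _ _
  set L : ℝ := (∑ P ∈ S, (∑ g, dP (k + 1) P g) / (((Fintype.card F : ℝ) ^ P.1.natDegree) ^ (k + 1)) ^ 5) +
      (∑ g, dP (k + 1) (PlX F) g) / ((Fintype.card F : ℝ) ^ (k + 1)) ^ 5 with hL
  have hLε : L ≤ ε := hk (k + 1) (by omega)
  have hI : ∀ e, Tendsto (fun n => AV n e (φ n e)) atTop (nhds (IPhc S M c ci + L)) := by
    intro e
    refine tendsto_const_nhds.congr' ?_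
    filter_upwards [eventually_ge_atTop (e + dS S M + dS S (k + 1))] with n hn
    have h1 : AV n e (φ n e) = AV n e (fun G => Ph S hM (fun P => WPc P M (c P)) (WPc (PlX F) M ci) (redV S M n e G)) +
      AV n e (uc S (k + 1) n e) := AV_add n e _ _
    rw [h1, hav F h2 m c ci hc hci S M hM n e hm (by omega) (by omega), AV_uc S (k + 1) (by omega) (by omega)]
  have hT := tendsto_Tot hφ0 hφc hI
  have hlt : (Fintype.card F : ℝ) ^ 3 *
      ((IPhc S M c ci + L) * (2 / (((Fintype.card F : ℝ) - 1) ^ 2 * ((Fintype.card F : ℝ) + 1)))) <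
      (Fintype.card F : ℝ) ^ 3 *
        ((IPhc S M c ci + ε) * (2 / (((Fintype.card F : ℝ) - 1) ^ 2 * ((Fintype.card F : ℝ) + 1)))) + ε := by
    have h1 : (IPhc S M c ci + L) * (2 / (((Fintype.card F : ℝ) - 1) ^ 2 * ((Fintype.card F : ℝ) + 1))) ≤
        (IPhc S M c ci + ε) * (2 / (((Fintype.card F : ℝ) - 1) ^ 2 * ((Fintype.card F : ℝ) + 1))) :=
      mul_le_mul_of_nonneg_right (by linarith) (by positivity)
    have h3 := mul_le_mul_of_nonneg_left h1 (by positivity : 0 ≤ (Fintype.card F : ℝ) ^ 3)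
    linarith
  filter_upwards [hT.eventually_lt_const hlt] with n hn s hs
  have es : s = (Msh F n).filter (fun f => ¬ BadC f ∧ Fam c ci n f) := by
    ext f
    rw [hs, mem_filter]
  rw [es]
  exact (count_phiC U h2 hMk hM6 hM hm hc hci S).trans (mul_le_mul_of_nonneg_right hn.le (by positivity))

theorem muSc_le (hcd : S_cardc) (h2 : (2 : F) ≠ 0) {m : ℕ} {c : Pl F → Cub F[X] → Prop} {ci : Cub F[X] → Prop}
    (hc : ∀ P, Cnd P.1 m (c P)) (hci : Cnd X m ci) {S : Finset (Pl F)} {M : ℕ} (hM : 6 ≤ M) (hm : m ≤ M) :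
    0 ≤ muSc S M c ci ∧ muSc S M c ci ≤ 1 := by
  classical
  have hq2 : 2 ≤ (Fintype.card F : ℝ) := q_ge
  have hq0 : (0 : ℝ) < Fintype.card F := by linarith
  have h1 := hcd F h2 m c ci hc hci S M (dS S M) hM hm (by omega)
  have h3 : 0 < (Fintype.card F : ℝ) ^ (12 * dS S M + 3) := by positivity
  have h4 := card_MinS (F := F) S (M := M) (n := dS S M) hM (by omega)
  have h5 := (muS_le (S := S) hM).2
  constructor
  · by_contra hneg
    push Not at hneg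
    have := mul_neg_of_neg_of_pos hneg h3
    rw [← h1] at this
    have h6 : (0 : ℝ) ≤ (((Sb F (dS S M)).filter (fun f => MinS S (dS S M) f ∧ (∀ P ∈ S, c P f) ∧ ci (crev (dS S M) f))).card : ℝ) :=
      Nat.cast_nonneg _
    linarith
  · have h6 : (((Sb F (dS S M)).filter (fun f => MinS S (dS S M) f ∧ (∀ P ∈ S, c P f) ∧ ci (crev (dS S M) f))).card : ℝ) ≤
        (((Sb F (dS S M)).filter (fun f => MinS S (dS S M) f)).card : ℝ) := by
      have : ((Sb F (dS S M)).filter (fun f => MinS S (dS S M) f ∧ (∀ P ∈ S, c P f) ∧ ci (crev (dS S M) f))).card ≤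
          ((Sb F (dS S M)).filter (fun f => MinS S (dS S M) f)).card := by
        apply card_le_card
        intro f hf
        rw [mem_filter] at hf ⊢
        exact ⟨hf.1, hf.2.1⟩
      exact_mod_cast this
    rw [h1, h4] at h6
    have h7 := le_of_mul_le_mul_right h6 h3
    linarith

/-- **the upper bound for the family** -/
theorem H1C (U : HypU) (hav : S_avc) (hcd : S_cardc) (h2 : (2 : F) ≠ 0) {m : ℕ} {c : Pl F → Cub F[X] → Prop}
    {ci : Cub F[X] → Prop} (hc : ∀ P, Cnd P.1 m (c P)) (hci : Cnd X m ci) {S₀ : Finset (Pl F)}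
    (hS₀ : ∀ P, P ∉ S₀ → ∀ f, c P f) (ε : ℝ) (hε : 0 < ε) : ∀ᶠ n in atTop, ∀ (s s' : Finset (Cub F[X])),
    (∀ f, f ∈ s ↔ f ∈ Msh F n ∧ ¬ BadC f ∧ Fam c ci n f) → (∀ f, f ∈ s' ↔ f ∈ Msh F n ∧ Fam c ci n f) →
      ∑ f ∈ s, ((Nat.card (Sel (f.map (toK F))) : ℝ) - 1) ≤ 2 * s'.card + ε * (Fintype.card F : ℝ) ^ (12 * n + 3) := by
  classical
  have hq2 : 2 ≤ (Fintype.card F : ℝ) := q_ge
  set q : ℝ := (Fintype.card F : ℝ) with hq
  have hq0 : (0 : ℝ) < q := by linarith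
  have hq1 : (0 : ℝ) < q - 1 := by linarith
  set δ : ℝ := ε / 21 with hδ
  have hδ0 : 0 < δ := by positivity
  obtain ⟨D₁, hD₁⟩ := U.euler F δ hδ0
  obtain ⟨D₂, hD₂⟩ := exists_nat_gt (2 / δ)
  set D := max D₁ D₂ with hD
  set S := PlD F D ∪ S₀ with hS
  have hτ : 2 * (1 / 2 : ℝ) ^ (9 * (D + 1)) ≤ δ := by
    have h1 : (D₂ : ℝ) ≤ 2 ^ (9 * (D + 1)) := by
      have h3 : D₂ ≤ 9 * (D + 1) := by
        have := le_max_right D₁ D₂
        omega
      have h4 : 9 * (D + 1) < 2 ^ (9 * (D + 1)) := Nat.lt_two_pow_self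
      have h5 : D₂ ≤ 2 ^ (9 * (D + 1)) := h3.trans h4.le
      exact_mod_cast h5
    have h3 : 2 < δ * 2 ^ (9 * (D + 1)) := by
      have := (div_lt_iff₀ hδ0).1 (lt_of_lt_of_le hD₂ h1)
      linarith
    rw [one_div, inv_pow, ← div_eq_mul_inv, div_le_iff₀ (by positivity)]
    linarith
  obtain ⟨M, hM6, hm, hup⟩ := upperC U hav h2 hc hci S δ hδ0
  obtain ⟨hμ0, hμ1⟩ := muSc_le hcd h2 hc hci (S := S) hM6 hm
  set μ := muSc S M c ci with hμ
  have hE : ∏ P ∈ S, (1 - (q ^ (2 * P.1.natDegree))⁻¹) ≤ 1 - q⁻¹ + δ :=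
    hD₁ S (fun P hP => mem_union_left _ (mem_PlD.2 (hP.trans (le_max_left _ _))))
  -- the constant
  set A : ℝ := q ^ 3 * (2 / ((q - 1) ^ 2 * (q + 1))) with hA
  have hA0 : 0 ≤ A := by positivity
  have hA8 : A ≤ 8 := by
    rw [hA, ← mul_div_assoc, div_le_iff₀ (by positivity)]
    have h1 : 0 ≤ (q - 2) := by linarith
    nlinarith [mul_nonneg h1 h1, mul_nonneg h1 hq0.le, mul_nonneg (mul_nonneg h1 h1) hq0.le, mul_nonneg (mul_nonneg h1 hq0.le) hq0.le]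
  have hA2 : A * ((1 - q⁻¹) * (1 - (q ^ 2)⁻¹)) = 2 := by
    rw [hA]
    have h1 : q - 1 ≠ 0 := hq1.ne'
    have h3 : q + 1 ≠ 0 := by positivity
    field_simp
    ring
  have hκ0 : 0 ≤ 1 - (q ^ 2)⁻¹ := by
    have : (q ^ 2)⁻¹ ≤ 1 := inv_le_one_of_one_le₀ (by nlinarith)
    linarith
  have hκ1 : 1 - (q ^ 2)⁻¹ ≤ 1 := by
    have : 0 ≤ (q ^ 2)⁻¹ := by positivity
    linarith
  have hI : A * IPhc S M c ci ≤ 2 * μ + 8 * δ := by
    have h1 : IPhc S M c ci ≤ (1 - q⁻¹ + δ) * (1 - (q ^ 2)⁻¹) * μ := by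
      unfold IPhc
      exact mul_le_mul_of_nonneg_right (mul_le_mul_of_nonneg_right hE hκ0) hμ0
    have h3 := mul_le_mul_of_nonneg_left h1 hA0
    have h4 : A * ((1 - q⁻¹ + δ) * (1 - (q ^ 2)⁻¹) * μ) = 2 * μ + A * δ * ((1 - (q ^ 2)⁻¹) * μ) := by
      linear_combination μ * hA2
    have h5 : A * δ * ((1 - (q ^ 2)⁻¹) * μ) ≤ 8 * δ * 1 := by
      apply mul_le_mul (mul_le_mul_of_nonneg_right hA8 hδ0.le) _ (mul_nonneg hκ0 hμ0) (by positivity)
      calc (1 - (q ^ 2)⁻¹) * μ ≤ 1 * 1 := mul_le_mul hκ1 hμ1 hμ0 (by norm_num)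
        _ = 1 := one_mul 1
    linarith
  filter_upwards [hup, disc0_small (F := F) δ hδ0, eventually_ge_atTop (dS S M)] with n h1 h3 h5 s s' hs hs'
  have h6 := h1 s hs
  have h7 := Msh_ge (F := F) h2 D n
  have h8 := hcd F h2 m c ci hc hci S M n hM6 hm (by omega)
  rw [← hq] at h3 h6 h7
  rw [← hq, ← hμ] at h8
  have hB : 0 < q ^ (12 * n + 3) := by positivity
  set B := q ^ (12 * n + 3) with hBdef
  have h9 : (2 : ℝ) * (1 / 2 : ℝ) ^ (9 * (D + 1)) * B ≤ δ * B := mul_le_mul_of_nonneg_right hτ hB.le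
  -- the cubics lost
  have hlost : (((Sb F n).filter (fun f => MinS (PlD F D) n f)).card : ℝ) =
      (Msh F n).card + ((((Sb F n).filter (fun f => MinS (PlD F D) n f)) \ Msh F n).card : ℝ) := by
    have hsub : Msh F n ⊆ (Sb F n).filter (fun f => MinS (PlD F D) n f) := by
      intro f hf
      rw [mem_Msh] at hf
      rw [mem_filter, mem_Sb]
      obtain ⟨hm1, hm2⟩ := (MinAll_crv h2).1 hf.2.2
      exact ⟨hf.1, fun P _ => hm1 P, hm2⟩
    have := card_sdiff_add_card_eq_card hsub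
    rw [add_comm] at this
    exact_mod_cast this.symm
  have hsub2 : (Sb F n).filter (fun f => MinS S n f ∧ (∀ P ∈ S, c P f) ∧ ci (crev n f)) ⊆
      s' ∪ (((Sb F n).filter (fun f => MinS (PlD F D) n f)) \ Msh F n) := by
    intro f hf
    rw [mem_filter] at hf
    obtain ⟨hSb, ⟨hmin, hX⟩, hcP, hcI⟩ := hf
    rw [mem_union]
    by_cases hMs : f ∈ Msh F n
    · left
      rw [hs']
      refine ⟨hMs, fun P => ?_, hcI⟩
      by_cases hP : P ∈ S₀
      · exact hcP P (mem_union_right _ hP)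
      · exact hS₀ P hP f
    · right
      rw [Finset.mem_sdiff, mem_filter]
      exact ⟨⟨hSb, fun P hP => hmin P (mem_union_left _ hP), hX⟩, hMs⟩
  have h10 : μ * B ≤ s'.card + 2 * δ * B := by
    rw [← h8]
    have h11 : (((Sb F n).filter (fun f => MinS S n f ∧ (∀ P ∈ S, c P f) ∧ ci (crev n f))).card : ℝ) ≤
        (s'.card : ℝ) + ((((Sb F n).filter (fun f => MinS (PlD F D) n f)) \ Msh F n).card : ℝ) := by
      exact_mod_cast (card_le_card hsub2).trans (card_union_le _ _)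
    linarith
  have h11 : q ^ 3 * ((IPhc S M c ci + δ) * (2 / ((q - 1) ^ 2 * (q + 1)))) + δ ≤ 2 * μ + 17 * δ := by
    have e1 : q ^ 3 * ((IPhc S M c ci + δ) * (2 / ((q - 1) ^ 2 * (q + 1)))) = A * IPhc S M c ci + A * δ := by
      rw [hA]; ring
    have e3 : A * δ ≤ 8 * δ := mul_le_mul_of_nonneg_right hA8 hδ0.le
    rw [e1]
    linarith
  have h12 := mul_le_mul_of_nonneg_right h11 hB.le
  have h13 : (2 * μ + 17 * δ) * B = 2 * (μ * B) + 17 * (δ * B) := by ring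
  have h15 : 21 * (δ * B) = ε * B := by rw [hδ]; ring
  linarith

end Pool.Agent.H456.BQ
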